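import Mathlib

set_option autoImplicit false

namespace Pool.Agent.MP_39fec4_gt.Ball

open Set Filter Topology Finset Real

/-- The logarithm of the Gamma function at `1 + x`. -/
noncomputable def LG (x : ℝ) : ℝ := Real.log (Real.Gamma (1 + x))

/-- Euler's approximating sequence for `LG`. -/
noncomputable def LS (x : ℝ) (n : ℕ) : ℝ :=
  x * Real.log n - ∑ k ∈ range n, Real.log (1 + x / (k + 1))

theorem tendsto_LS {x : ℝ} (hx : 0 < x) : Tendsto (LS x) atTop (𝓝 (LG x)) := by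
  have h := (Real.BohrMollerup.tendsto_log_gamma hx).add_const (Real.log x)
  have e : LG x = Real.log (Real.Gamma x) + Real.log x := by
    rw [LG, add_comm 1 x, Real.Gamma_add_one hx.ne', Real.log_mul hx.ne'
      (Real.Gamma_pos_of_pos hx).ne', add_comm]
  rw [e]
  refine h.congr fun n => ?_
  rw [Real.BohrMollerup.logGammaSeq, LS, Finset.sum_range_succ']
  have e1 : ∀ k : ℕ, Real.log (x + ((k + 1 : ℕ) : ℝ)) =
      Real.log ((k : ℝ) + 1) + Real.log (1 + x / (k + 1)) := fun k => by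
    rw [← Real.log_mul (by positivity) (by positivity)]
    congr 1; push_cast; field_simp; ring
  have e2 : ∀ m : ℕ, Real.log (m.factorial : ℝ) = ∑ k ∈ range m, Real.log ((k : ℝ) + 1) := by
    intro m
    induction m with
    | zero => simp
    | succ m ih =>
      rw [Finset.sum_range_succ, ← ih, Nat.factorial_succ, Nat.cast_mul,
        Real.log_mul (by positivity) (by positivity)]
      push_cast; ring
  simp only [e1, Finset.sum_add_distrib, e2]
  simp; ring

theorem sum_inv_sq_le (n : ℕ) : ∑ k ∈ range n, 1 / ((k : ℝ) + 1) ^ 2 ≤ π ^ 2 / 6 := by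
  have h := (hasSum_nat_add_iff' 1).2 hasSum_zeta_two
  have := sum_le_hasSum (range n) (fun k _ => by positivity) h
  simpa using this

theorem tendsto_sum_two :
    Tendsto (fun n => ∑ k ∈ range n, 1 / ((k : ℝ) + 1) ^ 2) atTop (𝓝 (π ^ 2 / 6)) := by
  have h := ((hasSum_nat_add_iff' 1).2 hasSum_zeta_two).tendsto_sum_nat
  simpa using h

theorem tendsto_sum_four :
    Tendsto (fun n => ∑ k ∈ range n, 1 / ((k : ℝ) + 1) ^ 4) atTop (𝓝 (π ^ 4 / 90)) := by
  have h := ((hasSum_nat_add_iff' 1).2 hasSum_zeta_four).tendsto_sum_nat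
  simpa using h

theorem zeta_two_le : π ^ 2 / 6 ≤ 1.645 := by
  have := Real.pi_lt_d4
  have := Real.pi_pos
  nlinarith

/-- A combination of logarithms bounded termwise by a multiple of the square. -/
theorem comb_le {q C L : ℝ} (hC : 0 ≤ C) {t : ℕ → ℝ}
    (ht : Tendsto (fun n => ∑ k ∈ range n, t k) atTop (𝓝 L))
    (hb : ∀ k : ℕ, t k ≤ C * (q / (k + 1)) ^ 2) : L ≤ C * q ^ 2 * 1.645 := by
  refine le_of_tendsto' ht fun n => ?_
  calc ∑ k ∈ range n, t k ≤ ∑ k ∈ range n, C * q ^ 2 * (1 / ((k : ℝ) + 1) ^ 2) :=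
        Finset.sum_le_sum fun k _ => (hb k).trans_eq (by rw [div_pow]; ring)
    _ = C * q ^ 2 * ∑ k ∈ range n, 1 / ((k : ℝ) + 1) ^ 2 := by rw [Finset.mul_sum]
    _ ≤ _ := by gcongr; exact (sum_inv_sq_le n).trans zeta_two_le

theorem log_div_le {a b c : ℝ} (ha : 0 < a) (hb : 0 < b) (h : a ≤ b * (1 + c)) :
    Real.log a - Real.log b ≤ c := by
  rw [← Real.log_div ha.ne' hb.ne']
  have := Real.log_le_sub_one_of_pos (div_pos ha hb)
  have : a / b ≤ 1 + c := by rw [div_le_iff₀ hb]; linarith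
  linarith

/-- The function whose series gives `3 LG q - LG (3 q)`. -/
noncomputable def phi2 (y : ℝ) : ℝ := Real.log (1 + 3 * y) - 3 * Real.log (1 + y)

theorem tendsto_phi2 {q : ℝ} (hq : 0 < q) :
    Tendsto (fun n => ∑ k ∈ range n, phi2 (q / (k + 1))) atTop (𝓝 (3 * LG q - LG (3 * q))) := by
  refine (((tendsto_LS hq).const_mul 3).sub (tendsto_LS (by positivity : 0 < 3 * q))).congr
    fun n => ?_
  simp only [LS, phi2, Finset.sum_sub_distrib, ← Finset.mul_sum, mul_div_assoc]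
  ring

theorem LG3_lower {q : ℝ} (hq : 0 < q) : 0 ≤ LG (3 * q) - 3 * LG q := by
  have : 3 * LG q - LG (3 * q) ≤ 0 := by
    refine le_of_tendsto' (tendsto_phi2 hq) fun n => Finset.sum_nonpos fun k _ => ?_
    have hy : 0 < q / ((k : ℝ) + 1) := by positivity
    generalize q / ((k : ℝ) + 1) = y at hy
    have := log_div_le (a := 1 + 3 * y) (b := (1 + y) ^ 3) (c := 0) (by positivity) (by positivity)
      (by nlinarith [pow_pos hy 2, pow_pos hy 3])
    rw [Real.log_pow] at this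
    simpa [phi2] using this
  linarith

theorem LG3_upper {q : ℝ} (hq : 0 < q) : LG (3 * q) - 3 * LG q ≤ 3 * q ^ 2 * 1.645 := by
  refine comb_le (t := fun k => -phi2 (q / (k + 1))) (by norm_num) ?_ fun k => ?_
  · have := (tendsto_phi2 hq).neg
    simpa [Finset.sum_neg_distrib] using this
  · have hy : 0 < q / ((k : ℝ) + 1) := by positivity
    generalize q / ((k : ℝ) + 1) = y at hy
    have := log_div_le (b := 1 + 3 * y) (a := (1 + y) ^ 3) (c := 3 * y ^ 2) (by positivity)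
      (by positivity) (by nlinarith [pow_pos hy 2, pow_pos hy 3])
    rw [Real.log_pow] at this
    simpa [phi2] using this

theorem LG2_upper {q : ℝ} (hq : 0 < q) : LG (2 * q) - 2 * LG q ≤ 1 * q ^ 2 * 1.645 := by
  refine comb_le (t := fun k => 2 * Real.log (1 + q / (k + 1)) - Real.log (1 + 2 * (q / (k + 1))))
    (by norm_num) ?_ fun k => ?_
  · refine ((tendsto_LS (by positivity : 0 < 2 * q)).sub ((tendsto_LS hq).const_mul 2)).congr
      fun n => ?_
    simp only [LS, Finset.sum_sub_distrib, ← Finset.mul_sum, mul_div_assoc]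
    ring
  · have hy : 0 < q / ((k : ℝ) + 1) := by positivity
    generalize q / ((k : ℝ) + 1) = y at hy
    have := log_div_le (b := 1 + 2 * y) (a := (1 + y) ^ 2) (c := 1 * y ^ 2) (by positivity)
      (by positivity) (by nlinarith [pow_pos hy 2, pow_pos hy 3])
    rw [Real.log_pow] at this
    simpa using this

theorem LG5_upper {q : ℝ} (hq : 0 < q) :
    LG (5 * q) + LG q - 2 * LG (3 * q) ≤ 4 * q ^ 2 * 1.645 := by
  refine comb_le (t := fun k => 2 * Real.log (1 + 3 * (q / (k + 1))) -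
    (Real.log (1 + 5 * (q / (k + 1))) + Real.log (1 + q / (k + 1)))) (by norm_num) ?_ fun k => ?_
  · refine (((tendsto_LS (by positivity : 0 < 5 * q)).add (tendsto_LS hq)).sub
      ((tendsto_LS (by positivity : 0 < 3 * q)).const_mul 2)).congr fun n => ?_
    simp only [LS, Finset.sum_sub_distrib, Finset.sum_add_distrib, ← Finset.mul_sum, mul_div_assoc]
    ring
  · have hy : 0 < q / ((k : ℝ) + 1) := by positivity
    generalize q / ((k : ℝ) + 1) = y at hy
    have := log_div_le (b := (1 + 5 * y) * (1 + y)) (a := (1 + 3 * y) ^ 2) (c := 4 * y ^ 2)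
      (by positivity) (by positivity) (by nlinarith [pow_pos hy 2, pow_pos hy 3, pow_pos hy 4])
    rw [Real.log_pow, Real.log_mul (by positivity) (by positivity)] at this
    simpa using this

theorem phi2_concave : ConcaveOn ℝ (Icc 0 (1 / 2)) phi2 := by
  refine concaveOn_of_hasDerivWithinAt2_nonpos (convex_Icc _ _)
    (f' := fun y => 3 / (1 + 3 * y) - 3 / (1 + y))
    (f'' := fun y => -9 / (1 + 3 * y) ^ 2 + 3 / (1 + y) ^ 2) ?_ (fun y hy => ?_) (fun y hy => ?_)
    fun y hy => ?_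
  · intro y hy
    have h1 : 1 + 3 * y ≠ 0 := by linarith [hy.1]
    have h2 : 1 + y ≠ 0 := by linarith [hy.1]
    unfold phi2
    refine ContinuousAt.continuousWithinAt ?_
    fun_prop (disch := assumption)
  · rw [interior_Icc] at hy
    have h1 : 1 + 3 * y ≠ 0 := by linarith [hy.1]
    have h2 : 1 + y ≠ 0 := by linarith [hy.1]
    have := ((((hasDerivAt_id y).const_mul 3).const_add 1).log h1).sub
      ((((hasDerivAt_id y).const_add 1).log h2).const_mul 3)
    refine HasDerivAt.hasDerivWithinAt ?_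
    refine this.congr_deriv ?_
    simp; ring
  · rw [interior_Icc] at hy
    have h1 : 1 + 3 * y ≠ 0 := by linarith [hy.1]
    have h2 : 1 + y ≠ 0 := by linarith [hy.1]
    have := ((hasDerivAt_const y (3 : ℝ)).div (((hasDerivAt_id y).const_mul 3).const_add 1) h1).sub
      ((hasDerivAt_const y (3 : ℝ)).div ((hasDerivAt_id y).const_add 1) h2)
    refine HasDerivAt.hasDerivWithinAt ?_
    refine this.congr_deriv ?_
    simp; ring
  · rw [interior_Icc] at hy
    have h1 : 0 < 1 + 3 * y := by linarith [hy.1]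
    have h2 : 0 < 1 + y := by linarith [hy.1]
    have : 3 / (1 + y) ^ 2 ≤ 9 / (1 + 3 * y) ^ 2 := by
      rw [div_le_div_iff₀ (by positivity) (by positivity)]
      nlinarith [hy.1, hy.2]
    rw [neg_div]; linarith

/-- The logarithmic form of the threshold condition. -/
noncomputable def DD (q : ℝ) : ℝ :=
  Real.log (3 / π) + 2 * q * Real.log 2 + (3 * LG q - LG (3 * q))

theorem DD_concave : ConcaveOn ℝ (Ioc 0 (1 / 2)) DD := by
  refine ⟨convex_Ioc _ _, fun x hx y hy a b ha hb hab => ?_⟩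
  have hz : a • x + b • y ∈ Ioc (0 : ℝ) (1 / 2) := convex_Ioc _ _ hx hy ha hb hab
  have h : a * (3 * LG x - LG (3 * x)) + b * (3 * LG y - LG (3 * y)) ≤
      3 * LG (a • x + b • y) - LG (3 * (a • x + b • y)) := by
    refine le_of_tendsto_of_tendsto' (((tendsto_phi2 hx.1).const_mul a).add
      ((tendsto_phi2 hy.1).const_mul b)) (tendsto_phi2 hz.1) fun n => ?_
    rw [Finset.mul_sum, Finset.mul_sum, ← Finset.sum_add_distrib]
    refine Finset.sum_le_sum fun k _ => ?_
    have hk : (1 : ℝ) ≤ k + 1 := by linarith [Nat.cast_nonneg (α := ℝ) k]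
    have m : ∀ w ∈ Ioc (0 : ℝ) (1 / 2), w / ((k : ℝ) + 1) ∈ Icc (0 : ℝ) (1 / 2) := fun w hw =>
      ⟨by have := hw.1; positivity, (div_le_self hw.1.le hk).trans hw.2⟩
    have := phi2_concave.2 (m x hx) (m y hy) ha hb hab
    simp only [smul_eq_mul] at this ⊢
    convert this using 2
    ring
  simp only [smul_eq_mul, DD] at h ⊢
  have : Real.log (3 / π) = a * Real.log (3 / π) + b * Real.log (3 / π) := by
    rw [← add_mul, hab, one_mul]
  nlinarith

theorem DD_half : DD (1 / 2) = 0 := by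
  have hπ := Real.pi_pos
  have hs : 0 < √π := Real.sqrt_pos.2 hπ
  have g1 : Real.Gamma (1 + 1 / 2) = √π / 2 := by
    rw [add_comm, Real.Gamma_add_one (by norm_num), Real.Gamma_one_half_eq]; ring
  have g2 : Real.Gamma (1 + 3 * (1 / 2)) = 3 * √π / 4 := by
    rw [show (1 : ℝ) + 3 * (1 / 2) = (1 + 1 / 2) + 1 by norm_num,
      Real.Gamma_add_one (by norm_num), g1]; ring
  have e : Real.log π = 2 * Real.log √π := by
    rw [Real.log_sqrt hπ.le]; ring
  have e4 : Real.log 4 = 2 * Real.log 2 := by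
    rw [show (4 : ℝ) = 2 ^ 2 by norm_num, Real.log_pow]; norm_num
  rw [DD, LG, LG, g1, g2, Real.log_div (by norm_num) hπ.ne', Real.log_div hs.ne' (by norm_num),
    Real.log_div (by positivity) (by norm_num), Real.log_mul (by norm_num) hs.ne', e, e4]
  ring

theorem nonneg_of_deriv' {f f' : ℝ → ℝ} (hf : ∀ x, 0 ≤ x → HasDerivAt f (f' x) x) (h0 : f 0 = 0)
    (h1 : ∀ x, 0 < x → 0 ≤ f' x) {x : ℝ} (hx : 0 ≤ x) : 0 ≤ f x := by
  have hm : MonotoneOn f (Ici 0) := monotoneOn_of_deriv_nonneg (convex_Ici 0)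
    (fun y hy => (hf y hy).continuousAt.continuousWithinAt)
    (fun y hy => (hf y (interior_subset hy)).differentiableAt.differentiableWithinAt)
    (fun y hy => by rw [(hf y (interior_subset hy)).deriv]; exact h1 y (by simpa using hy))
  exact h0 ▸ hm (mem_Ici.2 le_rfl) hx hx

theorem log_ge4 {x : ℝ} (hx : 0 ≤ x) :
    x - x ^ 2 / 2 + x ^ 3 / 3 - x ^ 4 / 4 ≤ Real.log (1 + x) := by
  have := nonneg_of_deriv' (f := fun x => Real.log (1 + x) - (x - x ^ 2 / 2 + x ^ 3 / 3 - x ^ 4 / 4))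
    (f' := fun x => x ^ 4 / (1 + x)) (fun y hy => by
      have h2 : 1 + y ≠ 0 := by linarith
      have := (((hasDerivAt_id y).const_add 1).log h2).sub
        ((((hasDerivAt_id y).sub ((hasDerivAt_pow 2 y).div_const 2)).add
          ((hasDerivAt_pow 3 y).div_const 3)).sub ((hasDerivAt_pow 4 y).div_const 4))
      refine this.congr_deriv ?_
      simp; field_simp; ring) (by simp) (fun y hy => by positivity) hx
  simpa using this

theorem log_le5 {x : ℝ} (hx : 0 ≤ x) :
    Real.log (1 + x) ≤ x - x ^ 2 / 2 + x ^ 3 / 3 - x ^ 4 / 4 + x ^ 5 / 5 := by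
  have := nonneg_of_deriv'
    (f := fun x => (x - x ^ 2 / 2 + x ^ 3 / 3 - x ^ 4 / 4 + x ^ 5 / 5) - Real.log (1 + x))
    (f' := fun x => x ^ 5 / (1 + x)) (fun y hy => by
      have h2 : 1 + y ≠ 0 := by linarith
      have := (((((hasDerivAt_id y).sub ((hasDerivAt_pow 2 y).div_const 2)).add
          ((hasDerivAt_pow 3 y).div_const 3)).sub ((hasDerivAt_pow 4 y).div_const 4)).add
          ((hasDerivAt_pow 5 y).div_const 5)).sub (((hasDerivAt_id y).const_add 1).log h2)
      refine this.congr_deriv ?_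
      simp; field_simp; ring) (by simp) (fun y hy => by positivity) hx
  simpa using this

theorem phi2_ge {y : ℝ} (h0 : 0 ≤ y) (h1 : y ≤ 1 / 26) :
    -3 * y ^ 2 + 8 * y ^ 3 - 19.53 * y ^ 4 ≤ phi2 y := by
  have a := log_ge4 (x := 3 * y) (by positivity)
  have b := log_le5 h0
  have c : y ^ 5 ≤ 1 / 26 * y ^ 4 := by
    rw [pow_succ']; gcongr
  unfold phi2
  nlinarith [pow_nonneg h0 4]

theorem phi2_le {y : ℝ} (h0 : 0 ≤ y) (h1 : y ≤ 1 / 26) :
    phi2 y ≤ -3 * y ^ 2 + 8 * y ^ 3 - 17.6 * y ^ 4 := by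
  have a := log_le5 (x := 3 * y) (by positivity)
  have b := log_ge4 h0
  have c : y ^ 5 ≤ 1 / 26 * y ^ 4 := by
    rw [pow_succ']; gcongr
  unfold phi2
  nlinarith [pow_nonneg h0 4]

theorem sum_cube_ge (n : ℕ) : 1.2 - 1 / (2 * (((n : ℝ) + 2) ^ 2 - (n + 2) + 1 / 2)) ≤
    ∑ k ∈ range (n + 1), 1 / ((k : ℝ) + 1) ^ 3 := by
  induction n with
  | zero => norm_num
  | succ n ih =>
    rw [Finset.sum_range_succ]
    have hn : (0 : ℝ) ≤ n := Nat.cast_nonneg n
    have : 1 / (2 * (((n : ℝ) + 2) ^ 2 - (n + 2) + 1 / 2)) -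
        1 / (2 * (((n : ℝ) + 1 + 2) ^ 2 - (n + 1 + 2) + 1 / 2)) ≤ 1 / ((n : ℝ) + 1 + 1) ^ 3 := by
      have p1 : 0 < 2 * (((n : ℝ) + 2) ^ 2 - (n + 2) + 1 / 2) := by nlinarith
      have p2 : 0 < 2 * (((n : ℝ) + 1 + 2) ^ 2 - (n + 1 + 2) + 1 / 2) := by nlinarith
      rw [div_sub_div _ _ p1.ne' p2.ne', div_le_div_iff₀ (by positivity) (by positivity)]
      nlinarith
    push_cast
    linarith

theorem sum_cube_le (n : ℕ) : ∑ k ∈ range n, 1 / ((k : ℝ) + 1) ^ 3 ≤ 1.2025 := by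
  have key : ∀ n : ℕ, ∑ k ∈ range (n + 1), 1 / ((k : ℝ) + 1) ^ 3 ≤
      1.2025 - 1 / (2 * (((n : ℝ) + 2) ^ 2 - (n + 2) + 0.47)) := by
    intro n
    induction n with
    | zero => norm_num
    | succ n ih =>
      rw [Finset.sum_range_succ]
      have hn : (0 : ℝ) ≤ n := Nat.cast_nonneg n
      have : 1 / ((n : ℝ) + 1 + 1) ^ 3 ≤ 1 / (2 * (((n : ℝ) + 2) ^ 2 - (n + 2) + 0.47)) -
          1 / (2 * (((n : ℝ) + 1 + 2) ^ 2 - (n + 1 + 2) + 0.47)) := by
        have p1 : 0 < 2 * (((n : ℝ) + 2) ^ 2 - (n + 2) + 0.47) := by nlinarith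
        have p2 : 0 < 2 * (((n : ℝ) + 1 + 2) ^ 2 - (n + 1 + 2) + 0.47) := by nlinarith
        rw [div_sub_div _ _ p1.ne' p2.ne', div_le_div_iff₀ (by positivity) (by positivity)]
        nlinarith
      push_cast
      linarith
  rcases n with _ | n
  · norm_num
  · have hn : (0 : ℝ) ≤ n := Nat.cast_nonneg n
    have p1 : 0 < 2 * (((n : ℝ) + 2) ^ 2 - (n + 2) + 0.47) := by nlinarith
    have := key n
    have : 0 < 1 / (2 * (((n : ℝ) + 2) ^ 2 - (n + 2) + 0.47)) := by positivity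
    linarith

theorem phi_sum_ge {q : ℝ} (h0 : 0 < q) (h1 : q ≤ 1 / 26) :
    -3 * q ^ 2 * (π ^ 2 / 6) + 8 * q ^ 3 * 1.2 - 19.53 * q ^ 4 * (π ^ 4 / 90) ≤
      3 * LG q - LG (3 * q) := by
  have t0 : Tendsto (fun n : ℕ => 1 / (2 * (((n : ℝ) + 2) ^ 2 - (n + 2) + 1 / 2))) atTop (𝓝 0) := by
    refine squeeze_zero (fun n => ?_) (fun n => ?_) tendsto_one_div_add_atTop_nhds_zero_nat
    · have hn : (0 : ℝ) ≤ n := Nat.cast_nonneg n
      have p1 : 0 < 2 * (((n : ℝ) + 2) ^ 2 - (n + 2) + 1 / 2) := by nlinarith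
      positivity
    · have hn : (0 : ℝ) ≤ n := Nat.cast_nonneg n
      exact one_div_le_one_div_of_le (by positivity) (by nlinarith)
  have t1 := ((((tendsto_add_atTop_iff_nat 1).2 tendsto_sum_two).const_mul (-3 * q ^ 2)).add
    ((t0.const_sub 1.2).const_mul (8 * q ^ 3))).sub
    (((tendsto_add_atTop_iff_nat 1).2 tendsto_sum_four).const_mul (19.53 * q ^ 4))
  rw [sub_zero] at t1
  refine le_of_tendsto_of_tendsto' t1 ((tendsto_add_atTop_iff_nat 1).2 (tendsto_phi2 h0)) fun n => ?_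
  have := sum_cube_ge n
  calc _ ≤ -3 * q ^ 2 * ∑ k ∈ range (n + 1), 1 / ((k : ℝ) + 1) ^ 2 +
        8 * q ^ 3 * ∑ k ∈ range (n + 1), 1 / ((k : ℝ) + 1) ^ 3 -
        19.53 * q ^ 4 * ∑ k ∈ range (n + 1), 1 / ((k : ℝ) + 1) ^ 4 := by gcongr
    _ ≤ _ := by
      rw [Finset.mul_sum, Finset.mul_sum, Finset.mul_sum, ← Finset.sum_add_distrib,
        ← Finset.sum_sub_distrib]
      refine Finset.sum_le_sum fun k _ => ?_
      have hk : (1 : ℝ) ≤ k + 1 := by linarith [Nat.cast_nonneg (α := ℝ) k]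
      refine le_of_eq_of_le (by simp only [div_pow]; ring) (phi2_ge (y := q / (k + 1)) (by positivity)
        ((div_le_self h0.le hk).trans h1))

theorem phi_sum_le {q : ℝ} (h0 : 0 < q) (h1 : q ≤ 1 / 26) :
    3 * LG q - LG (3 * q) ≤
      -3 * q ^ 2 * (π ^ 2 / 6) + 8 * q ^ 3 * 1.2025 - 17.6 * q ^ 4 * (π ^ 4 / 90) := by
  have t1 := (((tendsto_sum_two).const_mul (-3 * q ^ 2)).add_const
    (8 * q ^ 3 * 1.2025)).sub ((tendsto_sum_four).const_mul (17.6 * q ^ 4))
  refine le_of_tendsto_of_tendsto' (tendsto_phi2 h0) t1 fun n => ?_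
  have := sum_cube_le n
  calc _ ≤ -3 * q ^ 2 * ∑ k ∈ range n, 1 / ((k : ℝ) + 1) ^ 2 +
        8 * q ^ 3 * ∑ k ∈ range n, 1 / ((k : ℝ) + 1) ^ 3 -
        17.6 * q ^ 4 * ∑ k ∈ range n, 1 / ((k : ℝ) + 1) ^ 4 := by
        rw [Finset.mul_sum, Finset.mul_sum, Finset.mul_sum, ← Finset.sum_add_distrib,
          ← Finset.sum_sub_distrib]
        refine Finset.sum_le_sum fun k _ => ?_
        have hk : (1 : ℝ) ≤ k + 1 := by linarith [Nat.cast_nonneg (α := ℝ) k]
        refine le_of_le_of_eq (phi2_le (y := q / (k + 1)) (by positivity)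
          ((div_le_self h0.le hk).trans h1)) (by simp only [div_pow]; ring)
    _ ≤ _ := by gcongr

theorem log_pi_bounds : -0.0461178 ≤ Real.log (3 / π) ∧ Real.log (3 / π) ≤ -0.0461173 := by
  have h1 := Real.pi_gt_d6
  have h2 := Real.pi_lt_d6
  have e : Real.log (3 / π) = -Real.log (1 + (π / 3 - 1)) := by
    rw [← Real.log_inv]; congr 1; field_simp; ring
  rw [e]
  constructor
  · have a : Real.log (1 + (π / 3 - 1)) ≤ Real.log (1 + 0.0471977) :=
      Real.log_le_log (by linarith) (by linarith)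
    have b := log_le5 (x := 0.0471977) (by norm_num)
    norm_num at a b ⊢
    linarith
  · have a : Real.log (1 + 0.0471973) ≤ Real.log (1 + (π / 3 - 1)) :=
      Real.log_le_log (by norm_num) (by linarith)
    have b := log_ge4 (x := 0.0471973) (by norm_num)
    norm_num at a b ⊢
    linarith

theorem pi_sq_bounds : 9.8696 ≤ π ^ 2 ∧ π ^ 2 ≤ 9.86961 := by
  have h1 := Real.pi_gt_d6
  have h2 := Real.pi_lt_d6
  constructor <;> nlinarith

theorem DD_pos : 0 < DD (1 / 26.26) := by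
  have a := phi_sum_ge (q := 1 / 26.26) (by norm_num) (by norm_num)
  have b := log_pi_bounds.1
  have c := Real.log_two_gt_d9
  have d := pi_sq_bounds
  have e : π ^ 4 ≤ 97.41 := by nlinarith
  unfold DD
  norm_num at a b c d e ⊢
  linarith

theorem DD_neg : DD (1 / 26.27) < 0 := by
  have a := phi_sum_le (q := 1 / 26.27) (by norm_num) (by norm_num)
  have b := log_pi_bounds.2
  have c := Real.log_two_lt_d9
  have d := pi_sq_bounds
  have e : 97.4 ≤ π ^ 4 := by nlinarith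
  unfold DD
  norm_num at a b c d e ⊢
  linarith

theorem exists_root : ∃ q0 : ℝ, 1 / 26.27 < q0 ∧ q0 < 1 / 26.26 ∧ DD q0 = 0 ∧
    ∀ q, 0 < q → q < 1 / 2 → (DD q ≤ 0 ↔ q ≤ q0) := by
  have hc : ContinuousOn DD (Icc (1 / 26.27) (1 / 26.26)) := by
    refine DD_concave.continuousOn_interior.mono ?_
    rw [interior_Ioc]
    exact Icc_subset_Ioo (by norm_num) (by norm_num)
  obtain ⟨q0, hq, h0⟩ := intermediate_value_Ioo (by norm_num) hc ⟨DD_neg, DD_pos⟩
  have hq0 : 0 < q0 := lt_trans (by norm_num) hq.1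
  have m0 : q0 ∈ Ioc (0 : ℝ) (1 / 2) := ⟨hq0, hq.2.le.trans (by norm_num)⟩
  have m1 : (1 / 26.26 : ℝ) ∈ Ioc (0 : ℝ) (1 / 2) := by constructor <;> norm_num
  have m2 : (1 / 2 : ℝ) ∈ Ioc (0 : ℝ) (1 / 2) := by constructor <;> norm_num
  have three : ∀ x ∈ Ioc (0 : ℝ) (1 / 2), ∀ z ∈ Ioc (0 : ℝ) (1 / 2), ∀ y, x < z → x ≤ y → y ≤ z →
      (z - y) * DD x + (y - x) * DD z ≤ (z - x) * DD y := fun x hx z hz y hxz hxy hyz => by
    have hd : 0 < z - x := by linarith
    have := DD_concave.2 hx hz (div_nonneg (sub_nonneg.2 hyz) hd.le)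
      (div_nonneg (sub_nonneg.2 hxy) hd.le) (by field_simp; ring)
    simp only [smul_eq_mul] at this
    rw [show (z - y) / (z - x) * x + (y - x) / (z - x) * z = y by field_simp; ring] at this
    have h2 := mul_le_mul_of_nonneg_left this hd.le
    refine le_of_eq_of_le ?_ h2
    field_simp
  have hp := DD_pos
  refine ⟨q0, hq.1, hq.2, h0, fun q h1 h2 => ⟨fun h => ?_, fun h => ?_⟩⟩
  · by_contra hlt
    push Not at hlt
    rcases le_total q (1 / 26.26) with h3 | h3
    · have := three q0 m0 _ m1 q hq.2 hlt.le h3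
      rw [h0] at this
      have : 0 < (q - q0) * DD (1 / 26.26) := mul_pos (by linarith) hp
      nlinarith [hq.2]
    · have := three _ m1 _ m2 q (by norm_num) h3 h2.le
      rw [DD_half] at this
      have : 0 < (1 / 2 - q) * DD (1 / 26.26) := mul_pos (by linarith) hp
      nlinarith
  · have := three q ⟨h1, h2.le⟩ _ m1 q0 (by linarith [hq.2]) h hq.2.le
    rw [h0] at this
    have h4 : 0 ≤ (q0 - q) * DD (1 / 26.26) := mul_nonneg (by linarith) hp.le
    have h5 : 0 < 1 / 26.26 - q0 := by linarith [hq.2]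
    by_contra h6
    push Not at h6
    nlinarith [mul_pos h5 h6]

theorem exp_DD {q : ℝ} (hq : 0 < q) : Real.exp (DD q) =
    3 * 4 ^ q * Real.Gamma (1 + q) ^ 3 / (π * Real.Gamma (1 + 3 * q)) := by
  have g1 : 0 < Real.Gamma (1 + q) := Real.Gamma_pos_of_pos (by positivity)
  have g3 : 0 < Real.Gamma (1 + 3 * q) := Real.Gamma_pos_of_pos (by positivity)
  have hπ := Real.pi_pos
  have e4 : (4 : ℝ) ^ q = Real.exp (2 * q * Real.log 2) := by
    rw [Real.rpow_def_of_pos (by norm_num), show (4 : ℝ) = 2 ^ 2 by norm_num, Real.log_pow]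
    congr 1; push_cast; ring
  have e3 : Real.exp (3 * LG q) = Real.Gamma (1 + q) ^ 3 := by
    rw [LG, show (3 : ℝ) = ((3 : ℕ) : ℝ) by norm_num, ← Real.log_pow, Real.exp_log (by positivity)]
  rw [DD, Real.exp_add, Real.exp_add, Real.exp_sub, e3, ← e4, Real.exp_log (by positivity), LG,
    Real.exp_log g3]
  field_simp

end Pool.Agent.MP_39fec4_gt.Ball
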