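import Pool.Agent.MP_39fec4_gt.BWin
import Pool.Agent.MP_39fec4_gt.BGam

set_option autoImplicit false

namespace Pool.Agent.MP_39fec4_gt.Ball

open MeasureTheory Set Filter Topology Real

variable {p : ℝ}

/-- The integral of the square of the characteristic function. -/
noncomputable def I2 (p : ℝ) : ℝ := π / 2 * 2 ^ (-(1 / p))

theorem I2_pos (p : ℝ) : 0 < I2 p := by have := Real.pi_pos; unfold I2; positivity

theorem exp_LG {x : ℝ} (hx : 0 < x) : Real.exp (LG x) = Real.Gamma (1 + x) :=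
  Real.exp_log (Real.Gamma_pos_of_pos (by positivity))

theorem exp_le_inv {x c : ℝ} (h : 1 ≤ c * (1 - x)) (hc : 0 < c) : Real.exp x ≤ c := by
  have a := Real.add_one_le_exp (-x)
  have b : Real.exp x * Real.exp (-x) = 1 := by rw [← Real.exp_add]; simp
  have d := Real.exp_pos x
  have e := Real.exp_pos (-x)
  nlinarith

theorem four_mul (p : ℝ) : (4 : ℝ) ^ (1 / p) * (2 ^ (-(1 / p))) ^ 2 = 1 := by
  rw [show (4 : ℝ) = 2 ^ (2 : ℝ) by norm_num, ← Real.rpow_mul (by norm_num),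
    ← Real.rpow_natCast, ← Real.rpow_mul (by norm_num), ← Real.rpow_add (by norm_num),
    show 2 * (1 / p) + -(1 / p) * ((2 : ℕ) : ℝ) = 0 by push_cast; ring, Real.rpow_zero]

theorem H_iff (hp : 2 < p) : DD (1 / p) ≤ 0 ↔ √π / 2 ≤ √(kap2 p) * I2 p := by
  have hZ := Zp_pos hp
  have hπ := Real.pi_pos
  have k0 := kap2_pos hp
  have I0 := I2_pos p
  have g3 : 0 < Real.Gamma (1 + 3 / p) := Real.Gamma_pos_of_pos (by positivity)
  have e4 := four_mul p
  have f0 : 0 < (4 : ℝ) ^ (1 / p) := by positivity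
  rw [← Real.exp_le_one_iff, exp_DD (by positivity), ← Zp, show 3 * (1 / p) = 3 / p by ring,
    ← pow_le_pow_iff_left₀ (a := √π / 2) (by positivity) (by positivity) two_ne_zero, div_pow,
    mul_pow,
    Real.sq_sqrt hπ.le, Real.sq_sqrt k0.le, I2, mul_pow, div_le_one (by positivity), kap2,
    show ((2 : ℝ) ^ (-(1 / p))) ^ 2 = 1 / 4 ^ (1 / p) by rw [eq_div_iff f0.ne']; linarith,
    show Real.Gamma (1 + 3 / p) / (3 * Zp p ^ 3) * ((π / 2) ^ 2 * (1 / 4 ^ (1 / p))) =
      π / 2 ^ 2 * (π * Real.Gamma (1 + 3 / p) / (3 * 4 ^ (1 / p) * Zp p ^ 3)) by field_simp,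
    le_mul_iff_one_le_right (by positivity), one_le_div (by positivity)]

theorem pack (hp : 26.26 ≤ p) (hD : DD (1 / p) ≤ 0) : Pk (ff p) √(kap2 p) (I2 p) := by
  have h2 : 2 < p := by linarith
  have hZ := Zp_pos h2
  have k0 := kap2_pos h2
  have q0 : 0 < 1 / p := by positivity
  have q1 : 1 / p ≤ 1 / 26.26 := one_div_le_one_div_of_le (by norm_num) hp
  have q2 : (1 / p) ^ 2 ≤ (1 / 26.26) ^ 2 := by gcongr
  have eZ : Real.exp (LG (1 / p)) = Zp p := exp_LG q0
  have eG : ∀ c : ℝ, 0 < c → Real.exp (LG (c * (1 / p))) = Real.Gamma (1 + c / p) := fun c hc => by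
    rw [exp_LG (by positivity)]; congr 2; ring
  have eN : ∀ (n : ℕ) (x : ℝ), Real.exp (n * x) = Real.exp x ^ n := fun n x => Real.exp_nat_mul x n
  have e3 : Real.exp (LG (3 * (1 / p)) - 3 * LG (1 / p)) = 3 * kap2 p := by
    rw [Real.exp_sub, eG 3 (by norm_num), show (3 : ℝ) * LG (1 / p) = (3 : ℕ) * LG (1 / p) by
      norm_num, eN, eZ, kap2]
    field_simp
  have e2 : Real.exp (LG (2 * (1 / p)) - 2 * LG (1 / p)) = 1 + vv p := by
    rw [Real.exp_sub, eG 2 (by norm_num), show (2 : ℝ) * LG (1 / p) = (2 : ℕ) * LG (1 / p) by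
      norm_num, eN, eZ, vv]
    ring
  have e5 : Real.exp (LG (5 * (1 / p)) + LG (1 / p) - 2 * LG (3 * (1 / p))) =
      5 / 9 * (mu4 p / kap2 p ^ 2) := by
    have g3 : 0 < Real.Gamma (1 + 3 / p) := Real.Gamma_pos_of_pos (by positivity)
    rw [Real.exp_sub, Real.exp_add, eG 5 (by norm_num), show (2 : ℝ) * LG (3 * (1 / p)) =
      (2 : ℕ) * LG (3 * (1 / p)) by norm_num, eN, eG 3 (by norm_num), eZ, mu4, kap2]
    field_simp
    norm_num
  have klo : 1 / 3 ≤ kap2 p := by
    have := Real.one_le_exp (LG3_lower q0)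
    linarith
  have khi : kap2 p ≤ 0.336 := by
    have := exp_le_inv (x := LG (3 * (1 / p)) - 3 * LG (1 / p)) (c := 1.008)
      (by have := LG3_upper q0; norm_num at q2 this ⊢; linarith) (by norm_num)
    linarith
  have hv : 1 + vv p ≤ 1.0024 := by
    have := exp_le_inv (x := LG (2 * (1 / p)) - 2 * LG (1 / p)) (c := 1.0024)
      (by have := LG2_upper q0; norm_num at q2 this ⊢; linarith) (by norm_num)
    linarith
  have hm : mu4 p ≤ 1.82 * kap2 p ^ 2 := by
    have := exp_le_inv (x := LG (5 * (1 / p)) + LG (1 / p) - 2 * LG (3 * (1 / p))) (c := 1.011)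
      (by have := LG5_upper q0; norm_num at q2 this ⊢; linarith) (by norm_num)
    rw [← div_le_iff₀ (by positivity)]
    linarith
  have sk : √(kap2 p) ^ 2 = kap2 p := Real.sq_sqrt k0.le
  refine ⟨cont_ff h2, ff_zero h2, abs_ff_le h2, int_ff h2, Real.sqrt_pos.2 k0, by rwa [sk],
    by rwa [sk], fun x => ?_, fun x => ?_, abs_x_mul_ff_le h2, fun e c0 c1 c2 x hx hc h => ?_,
    integral_ff_sq h2, ?_, (H_iff h2).1 hD⟩
  · rw [mul_pow, sk]; exact ff_lo h2 x
  · refine (ff_hi h2 x).trans ?_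
    rw [P4, mul_pow, mul_pow, show √(kap2 p) ^ 4 = (√(kap2 p) ^ 2) ^ 2 by ring, sk]
    have := mul_le_mul_of_nonneg_right hm (by positivity : 0 ≤ x ^ 4)
    linarith
  · have a := quad_le h2 hx h
    have b := mul_le_mul_of_nonpos_left (mul_le_mul_of_nonneg_left hv (sq_nonneg x)) hc
    linarith
  · have : (2 : ℝ) ^ (-(1 / p)) ≤ 1 :=
      Real.rpow_le_one_of_one_le_of_nonpos (by norm_num) (by linarith)
    have := Real.pi_pos
    unfold I2; nlinarith

theorem delta_bound (hp : 26.26 ≤ p) {δ : ℝ} (h : 1 + δ ≤ 4 ^ (1 / p)) :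
    p * δ ≤ 1.464 ∧ δ ≤ 0.056 := by
  have p0 : 0 < p := by linarith
  have l1 := Real.log_two_lt_d9
  have l0 := Real.log_two_gt_d9
  set y := Real.log 4 * (1 / p) with hy
  have py : p * y = 2 * Real.log 2 := by rw [hy, log_four]; field_simp
  have y0 : 0 < y := by rw [hy, log_four]; positivity
  have y1 : y ≤ 0.0528 := by nlinarith
  rw [Real.rpow_def_of_pos (by norm_num), ← hy] at h
  have := exp_le_inv (x := y) (c := 1 + 1.056 * y) (by nlinarith) (by positivity)
  have d : δ ≤ 1.056 * y := by linarith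
  constructor
  · nlinarith
  · linarith

theorem caseR1b (hp : 26.26 ≤ p) {α β τ : ℝ} (hβ : 0 < β) (hβα : β ≤ α)
    (hab : α ^ 2 + β ^ 2 + τ = 1) (τ1 : τ ≤ 0.03) (h1 : 1 / 2 ≤ α ^ 2)
    (h2 : 2 * α ^ 2 ≤ 4 ^ (1 / p)) (τ0 : 0 ≤ τ) (hd : τ / 5 < (α - β) ^ 2) :
    π / (2 * α) * (1 + (β / α) ^ p) ^ (-(1 / p)) < √2 * I2 p := by
  have p0 : 0 < p := by linarith
  have hα : 0 < α := by linarith
  have hπ := Real.pi_pos
  obtain ⟨δ1, δ2⟩ := delta_bound hp (δ := 2 * α ^ 2 - 1) (by linarith)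
  obtain ⟨d, hdd⟩ : ∃ d, d = α - β := ⟨_, rfl⟩
  rw [← hdd] at hd
  have d0 : 0 < d := by
    rcases (sub_nonneg.2 hβα).eq_or_lt with h | h
    · rw [hdd, ← h, zero_pow two_ne_zero] at hd; linarith
    · rw [hdd]; exact h
  have a1 : 0.7071 ≤ α := le_of_sq_le_sq (by linarith) hα.le
  have b1 : 0.6648 ≤ β := le_of_sq_le_sq (by linarith) hβ.le
  have e1 : d * (α + β) = (2 * α ^ 2 - 1) + τ := by rw [hdd]; linarith
  have s1 : d * 1.3719 ≤ d * (α + β) := mul_le_mul_of_nonneg_left (by linarith) d0.le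
  have d1 : d ≤ 0.0627 := by linarith
  have s2 : d * d ≤ d * 0.0627 := mul_le_mul_of_nonneg_left d1 d0.le
  have d2 : 1.058 * d ≤ 2 * α ^ 2 - 1 := by linarith
  have d3 : p * d ≤ 1.384 := by
    have := mul_le_mul_of_nonneg_left d2 p0.le
    linarith
  obtain ⟨L, hL⟩ : ∃ L, L = p * (Real.log α - Real.log β) := ⟨_, rfl⟩
  have L1 : p * d / α ≤ L := by
    have := Real.one_sub_inv_le_log_of_pos (x := α / β) (by positivity)
    rw [Real.log_div hα.ne' hβ.ne', inv_div] at this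
    rw [hL, mul_div_assoc]
    refine mul_le_mul_of_nonneg_left (le_of_eq_of_le ?_ this) p0.le
    rw [hdd]; field_simp
  have L0 : 0 ≤ L := le_trans (by positivity) L1
  obtain ⟨w, hw⟩ : ∃ w, w = (p * d) ^ 2 / 4.224 := ⟨_, rfl⟩
  have w0 : 0 < w := by rw [hw]; positivity
  have w1 : w ≤ L ^ 2 / 8 := by
    have a := pow_le_pow_left₀ (by positivity) L1 2
    rw [div_pow, div_le_iff₀ (by positivity)] at a
    rw [hw, div_le_div_iff₀ (by norm_num) (by norm_num)]
    have := mul_le_mul_of_nonneg_left (by linarith : α ^ 2 ≤ 0.528) (sq_nonneg L)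
    linarith
  have w2 : w ≤ 0.4535 := by
    have := pow_le_pow_left₀ (by positivity) d3 2
    rw [hw, div_le_iff₀ (by norm_num)]; linarith
  have r1 : (β / α) ^ p = Real.exp (-L) := by
    rw [Real.rpow_def_of_pos (by positivity), Real.log_div hβ.ne' hα.ne', hL]; congr 1; ring
  have c1 : 2 * Real.exp (-(L / 2)) * (1 + w) ≤ 1 + (β / α) ^ p := by
    have a := Real.sum_le_exp_of_nonneg (x := L / 2) (by positivity) 4
    have b := exp_neg_ge3 (w := L / 2) (by positivity)
    simp only [Finset.sum_range_succ, Finset.sum_range_zero, Nat.factorial] at a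
    norm_num at a
    have c : 2 * (1 + w) ≤ Real.exp (L / 2) + Real.exp (-(L / 2)) := by linarith
    have e : Real.exp (-(L / 2)) * (Real.exp (L / 2) + Real.exp (-(L / 2))) = 1 + Real.exp (-L) := by
      rw [mul_add, ← Real.exp_add, ← Real.exp_add, neg_add_cancel, Real.exp_zero]; congr 2; ring
    rw [r1, ← e]
    have := mul_le_mul_of_nonneg_left c (Real.exp_pos (-(L / 2))).le
    linarith
  have c2 : Real.log 2 - L / 2 + Real.log (1 + w) ≤ Real.log (1 + (β / α) ^ p) := by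
    have := Real.log_le_log (by positivity) c1
    rw [Real.log_mul (by positivity) (by positivity), Real.log_mul (by positivity) (by positivity),
      Real.log_exp] at this
    linarith
  have c3 : w / 1.4535 ≤ Real.log (1 + w) := by
    refine le_trans ?_ (Real.one_sub_inv_le_log_of_pos (by positivity))
    rw [show 1 - (1 + w)⁻¹ = w / (1 + w) by field_simp; ring]
    gcongr; linarith
  have c4 : -(Real.log 2 + Real.log α + Real.log β) < 6.22 * d ^ 2 := by
    have a := Real.one_sub_inv_le_log_of_pos (x := 2 * α * β) (by positivity)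
    rw [Real.log_mul (by positivity) hβ.ne', Real.log_mul (by norm_num) hα.ne'] at a
    have e : 2 * α * β = 1 - (τ + d ^ 2) := by rw [hdd]; linarith
    have d4 : d ^ 2 ≤ 0.004 := by linarith
    have b : (2 * α * β)⁻¹ < 1 + 6.22 * d ^ 2 := by
      rw [inv_lt_iff_one_lt_mul₀ (by positivity), e]
      have h3 : 0 < d ^ 2 := pow_pos d0 2
      have h1 : (τ + d ^ 2) * (1 + 6.22 * d ^ 2) < 6 * d ^ 2 * (1 + 6.22 * d ^ 2) :=
        mul_lt_mul_of_pos_right (by linarith) (by positivity)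
      have h2 : d ^ 2 * d ^ 2 ≤ d ^ 2 * 0.004 := mul_le_mul_of_nonneg_left d4 h3.le
      linarith
    linarith
  have c5 : 3.11 * d ^ 2 * p ≤ w / 1.4535 := by
    rw [hw, div_div, le_div_iff₀ (by norm_num)]
    have : 0 < d ^ 2 * p := by positivity
    have := mul_le_mul_of_nonneg_left hp this.le
    linarith
  rw [I2, show π / (2 * α) * (1 + (β / α) ^ p) ^ (-(1 / p)) =
    π / 2 * ((1 + (β / α) ^ p) ^ (-(1 / p)) / α) by field_simp, mul_left_comm]
  refine mul_lt_mul_of_pos_left ?_ (by positivity)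
  rw [← Real.log_lt_log_iff (by positivity) (by positivity), Real.log_div (by positivity) hα.ne',
    Real.log_mul (by positivity) (by positivity), Real.log_rpow (by positivity),
    Real.log_rpow (by norm_num), Real.log_sqrt (by norm_num)]
  have c6 : 1 / p * (Real.log 2 - L / 2 + 3.11 * d ^ 2 * p) ≤ 1 / p * Real.log (1 + (β / α) ^ p) :=
    mul_le_mul_of_nonneg_left (by linarith) (by positivity)
  have c7 : 1 / p * (Real.log 2 - L / 2 + 3.11 * d ^ 2 * p) =
      1 / p * Real.log 2 - (Real.log α - Real.log β) / 2 + 3.11 * d ^ 2 := by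
    rw [hL]; field_simp
  linarith

theorem caseC {α : ℝ} (hα : 0 < α) (h2 : 4 ^ (1 / p) < 2 * α ^ 2) : π / (2 * α) < √2 * I2 p := by
  have hπ := Real.pi_pos
  have e4 := four_mul p
  have t0 : (0 : ℝ) < 2 ^ (-(1 / p)) := by positivity
  have a : 1 < √2 * 2 ^ (-(1 / p)) * α := by
    refine lt_of_pow_lt_pow_left₀ 2 (by positivity) ?_
    rw [mul_pow, mul_pow, Real.sq_sqrt (by norm_num)]
    nlinarith [pow_pos t0 2]
  rw [div_lt_iff₀ (by positivity), I2]
  nlinarith

theorem compare (hp : 26.26 ≤ p) (hD : DD (1 / p) ≤ 0) {n : ℕ} (hn : 2 ≤ n) (a : Fin n → ℝ)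
    (ha : ∀ j, 0 ≤ a j) (hs : ∑ j, a j ^ 2 = 1)
    (hne : ¬∃ i j, i ≠ j ∧ a i ^ 2 = 1 / 2 ∧ a j ^ 2 = 1 / 2) :
    ∫ s in Ioi (0 : ℝ), ∏ j, ff p (a j * s) < √2 * I2 p := by
  have h := pack hp hD
  have h2 : 2 < p := by linarith
  have hπ := Real.pi_pos
  have : Nontrivial (Fin n) := Fin.nontrivial_iff_two_le.2 hn
  obtain ⟨i, -, hi⟩ := Finset.exists_max_image Finset.univ a Finset.univ_nonempty
  obtain ⟨k, hk, hk2⟩ := Finset.exists_max_image (Finset.univ.erase i) a
    (Finset.Nontrivial.erase_nonempty Finset.univ_nontrivial)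
  have hki : k ≠ i := Finset.ne_of_mem_erase hk
  have s1 : a i ^ 2 + ∑ j ∈ Finset.univ.erase i, a j ^ 2 = 1 := by
    rw [Finset.add_sum_erase _ (fun j => a j ^ 2) (Finset.mem_univ i), hs]
  set τ := ∑ j ∈ (Finset.univ.erase i).erase k, a j ^ 2 with hτ
  have s2 : a k ^ 2 + τ = ∑ j ∈ Finset.univ.erase i, a j ^ 2 :=
    Finset.add_sum_erase _ (fun j => a j ^ 2) hk
  have τ0 : 0 ≤ τ := Finset.sum_nonneg fun j _ => sq_nonneg _
  have hik : a k ≤ a i := hi k (Finset.mem_univ k)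
  rcases le_or_gt (a i ^ 2) (1 / 2) with c1 | c1
  · have b1 : ∀ j, a j ^ 2 ≤ 1 / 2 := fun j =>
      (pow_le_pow_left₀ (ha j) (hi j (Finset.mem_univ j)) 2).trans c1
    have k0 : 0 < a k := by
      rcases (ha k).eq_or_lt with h0 | h0
      · have : ∑ j ∈ Finset.univ.erase i, a j ^ 2 = 0 := Finset.sum_eq_zero fun j hj => by
          have := hk2 j hj
          rw [le_antisymm (this.trans h0.ge) (ha j)]; norm_num
        linarith
      · exact h0
    refine h.caseA _ a ha hs (fun j _ => b1 j) (Finset.mem_univ k) k0 ?_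
    by_contra hc
    have e1 : a k ^ 2 = 1 / 2 := le_antisymm (b1 k) (not_lt.1 hc)
    have e2 : a i ^ 2 = 1 / 2 := le_antisymm c1 (e1 ▸ pow_le_pow_left₀ (ha k) hik 2)
    exact hne ⟨k, i, hki, e1, e2⟩
  have i0 : 0 < a i := by
    rcases (ha i).eq_or_lt with h0 | h0
    · rw [← h0] at c1; norm_num at c1
    · exact h0
  simp only [← Finset.mul_prod_erase Finset.univ _ (Finset.mem_univ i)]
  rcases lt_or_ge (4 ^ (1 / p)) (2 * a i ^ 2) with c2 | c2
  · refine lt_of_le_of_lt ?_ (caseC i0 c2)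
    have := (sup_prod h2 (Finset.univ.erase i) a (int_scale (int_ff h2) i0) (M := π / (2 * a i))
      fun x => by
        rw [one_phys h2 i0]
        exact mul_le_of_le_one_right (by positivity) (K_le_one h2 (by positivity))).2 0
    rwa [cosT_zero] at this
  obtain ⟨-, δ2⟩ := delta_bound hp (δ := 2 * a i ^ 2 - 1) (by linarith)
  have c3 : a i ^ 2 ≤ 0.528 := by linarith
  set b := √(1 - a i ^ 2) with hb
  have b0 : 0 < b := Real.sqrt_pos.2 (by linarith)
  have b2 : b ^ 2 = 1 - a i ^ 2 := Real.sq_sqrt (by linarith)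
  rcases le_total (a k ^ 2) (0.55 * b ^ 2) with c4 | c4
  · exact h.caseR3 _ a ha i0 b0 (by linarith) (by linarith) c1.le c3 fun j hj =>
      (pow_le_pow_left₀ (ha j) (hk2 j hj) 2).trans c4
  rcases le_total 0.03 τ with c5 | c5
  · exact h.caseR2 _ a ha i0 b0 (by linarith) (by linarith) c1.le c3 hk c4 (by linarith)
  have k0 : 0 < a k := by
    rcases (ha k).eq_or_lt with h0 | h0
    · rw [← h0] at c4; nlinarith
    · exact h0
  simp only [← Finset.mul_prod_erase (Finset.univ.erase i) _ hk]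
  rcases le_or_gt ((a i - a k) ^ 2) (τ / 5) with c6 | c6
  · refine h.caseR1a _ a k0 hik hτ.symm (by linarith) c3 ?_ c5 c6
    rcases τ0.eq_or_lt with h0 | h0
    · have : a i - a k = 0 := by
        rw [← h0] at c6
        exact pow_eq_zero_iff two_ne_zero |>.1 (le_antisymm (by linarith) (sq_nonneg _))
      have : a k = a i := by linarith
      rw [this] at s2
      linarith
    · exact h0
  · refine lt_of_le_of_lt ?_ (caseR1b hp k0 hik (by linarith) c5 c1.le c2 τ0 c6)
    have := (sup_prod h2 ((Finset.univ.erase i).erase k) a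
      (int_mul_ff h2 (int_scale (int_ff h2) i0) (a k)) (two_phys h2 i0 k0)).2 0
    rw [cosT_zero] at this
    simpa only [mul_assoc] using this

end Pool.Agent.MP_39fec4_gt.Ball
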