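import Mathlib

set_option autoImplicit false

namespace Pool.Agent.MP_39fec4_gt

open MeasureTheory Set Filter Topology Module
open scoped FourierTransform RealInnerProductSpace

section
variable {E : Type*} [NormedAddCommGroup E] [InnerProductSpace ℝ E] [FiniteDimensional ℝ E]
  [MeasurableSpace E] [BorelSpace E]

theorem integrable_gauss : Integrable fun v : E => Real.exp (-‖v‖ ^ 2) := by
  have := (GaussianFourier.integrable_cexp_neg_mul_sq_norm_add (V := E) (b := 1) (by simp) 0 0).norm
  refine this.congr (Eventually.of_forall fun v => ?_)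
  simp only [Complex.norm_exp]
  congr 1
  simp [← Complex.ofReal_pow]

theorem exists_split (a : E) (ha : ‖a‖ = 1) : ∃ ψ : ℝ × (ℝ ∙ a)ᗮ ≃ᵐ E,
    MeasurePreserving ψ volume volume ∧ ∀ z, ψ z = z.1 • a + z.2 := by
  let e := (LinearIsometryEquiv.toSpanUnitSingleton (𝕜 := ℝ) a ha)
  refine ⟨(e.toHomeomorph.toMeasurableEquiv.prodCongr (MeasurableEquiv.refl _)).trans
    ((ℝ ∙ a).measurableEquivProd (0 : E)).symm, ?_, fun z => ?_⟩
  · have h1 := ((ℝ ∙ a).measurePreserving_measurableEquivProd (0 : E)).symm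
    rw [InnerProductSpace.euclideanHausdorffMeasure_eq_volume] at h1
    have h2 : MeasurePreserving (Prod.map e (id : (ℝ ∙ a)ᗮ → (ℝ ∙ a)ᗮ)) volume volume :=
      e.measurePreserving.prod (MeasurePreserving.id _)
    exact h1.comp h2
  · simp [e, MeasurableEquiv.prodCongr]

/-- Integral over a hyperplane through the Fourier transform along its normal. -/
theorem slice (a : E) (ha : ‖a‖ = 1) {F : E → ℂ} (hF : Continuous F) {C : ℝ}
    (hb : ∀ x, ‖F x‖ ≤ C * Real.exp (-‖x‖ ^ 2))
    (hi : Integrable fun w : ℝ => 𝓕 F (w • a)) :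
    ∫ y : (ℝ ∙ a)ᗮ, F y = ∫ w : ℝ, 𝓕 F (w • a) := by
  obtain ⟨ψ, hψ, hψ'⟩ := exists_split a ha
  have hC : 0 ≤ C := by simpa using (norm_nonneg _).trans (hb 0)
  have iF : Integrable F :=
    (integrable_gauss.const_mul C).mono' hF.aestronglyMeasurable (Eventually.of_forall hb)
  have hy : ∀ y : (ℝ ∙ a)ᗮ, ⟪a, (y : E)⟫ = 0 := fun y =>
    Submodule.mem_orthogonal_singleton_iff_inner_right.1 y.2
  set Φ : ℝ → ℂ := fun r => ∫ y : (ℝ ∙ a)ᗮ, F (r • a + y) with hΦ
  have iP : Integrable (fun z : ℝ × (ℝ ∙ a)ᗮ => F (z.1 • a + z.2)) (volume.prod volume) := by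
    have := (hψ.integrable_comp_emb ψ.measurableEmbedding).2 iF
    exact this.congr (Eventually.of_forall fun z => by simp [hψ'])
  have iΦ : Integrable Φ := iP.integral_prod_left
  have cΦ : Continuous Φ := by
    refine continuous_of_dominated (bound := fun y : (ℝ ∙ a)ᗮ => C * Real.exp (-‖y‖ ^ 2))
      (fun r => Continuous.aestronglyMeasurable (by fun_prop))
      (fun r => Eventually.of_forall fun y => (hb _).trans ?_) (integrable_gauss.const_mul C)
      (Eventually.of_forall fun y => by fun_prop)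
    refine mul_le_mul_of_nonneg_left (Real.exp_le_exp.2 ?_) hC
    have := norm_add_sq_real (r • a) (y : E)
    rw [real_inner_smul_left, hy y] at this
    rw [this, ← Submodule.coe_norm]
    nlinarith [sq_nonneg ‖r • a‖]
  have hfΦ : 𝓕 Φ = fun w : ℝ => 𝓕 F (w • a) := by
    funext w
    have i2 := (hψ.integrable_comp_emb ψ.measurableEmbedding).2
      ((Real.fourierIntegral_convergent_iff (w • a)).2 iF)
    rw [Real.fourier_real_eq, Real.fourier_eq, ← hψ.integral_comp']
    refine Eq.trans ?_ (integral_prod _ i2).symm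
    congr 1; funext r
    rw [hΦ, Circle.smul_def, ← integral_smul]
    congr 1; funext y
    simp only [Function.comp, hψ', Circle.smul_def]
    rw [inner_add_left, real_inner_smul_left, real_inner_smul_right, real_inner_smul_right,
      real_inner_comm a (y : E), hy y, real_inner_self_eq_norm_sq, ha]
    simp
  have := iΦ.fourierInv_fourier_eq (hfΦ ▸ hi) (v := 0) cΦ.continuousAt
  rw [Real.fourierInv_eq, hfΦ] at this
  simpa [hΦ] using this.symm

end

theorem fourier_prod {n : ℕ} (f : ℝ → ℂ) (ξ : EuclideanSpace ℝ (Fin n)) :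
    𝓕 (fun x : EuclideanSpace ℝ (Fin n) => ∏ j, f (x j)) ξ = ∏ j, 𝓕 f (ξ j) := by
  simp_rw [Real.fourier_real_eq_integral_exp_smul]
  rw [Real.fourier_eq', ← (PiLp.volume_preserving_toLp (Fin n)).integral_comp
    (MeasurableEquiv.toLp 2 _).measurableEmbedding,
    ← integral_fintype_prod_volume_eq_prod]
  congr 1; funext x
  simp only [smul_eq_mul, Finset.prod_mul_distrib, ← Complex.exp_sum, PiLp.inner_apply]
  congr 2
  simp [Finset.mul_sum, Finset.sum_mul]
  exact Finset.sum_congr rfl fun j _ => by ring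

theorem integrable_comp_abs' {f : ℝ → ℝ} (hf : IntegrableOn f (Ioi 0)) :
    Integrable fun x => f |x| := by
  have h1 : IntegrableOn (fun x => f |x|) (Ioi 0) :=
    hf.congr_fun (fun x hx => by simp only [abs_of_pos (mem_Ioi.1 hx)]) measurableSet_Ioi
  have h2 : IntegrableOn (fun x => f |x|) (Iic 0) := by
    rw [← Measure.map_neg_eq_self (volume : Measure ℝ)]
    let m : MeasurableEmbedding fun x : ℝ => -x := (Homeomorph.neg ℝ).measurableEmbedding
    rw [m.integrableOn_map_iff]
    simp_rw [Function.comp_def, abs_neg, neg_preimage, neg_Iic, neg_zero]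
    exact Iff.mpr integrableOn_Ici_iff_integrableOn_Ioi h1
  have := h2.union h1
  rwa [Iic_union_Ioi, integrableOn_univ] at this

theorem fourier_even {k : ℝ → ℝ} (hk : IntegrableOn k (Ioi 0)) (w : ℝ) :
    𝓕 (fun x : ℝ => (k |x| : ℂ)) w =
      ((2 * ∫ x in Ioi (0 : ℝ), k x * Real.cos (2 * Real.pi * w * x) : ℝ) : ℂ) := by
  have i0 := integrable_comp_abs' hk
  have i1 : Integrable fun x => k |x| * Real.cos (2 * Real.pi * w * x) :=
    i0.mul_bdd (c := 1) (Continuous.aestronglyMeasurable (by fun_prop))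
      (Eventually.of_forall fun _ => Real.abs_cos_le_one _)
  have i2 : Integrable fun x => k |x| * Real.sin (2 * Real.pi * w * x) :=
    i0.mul_bdd (c := 1) (Continuous.aestronglyMeasurable (by fun_prop))
      (Eventually.of_forall fun _ => Real.abs_sin_le_one _)
  have e1 : ∫ x, k |x| * Real.sin (2 * Real.pi * w * x) = 0 := by
    have := integral_neg_eq_self (fun x => k |x| * Real.sin (2 * Real.pi * w * x)) volume
    simp only [abs_neg, mul_neg, Real.sin_neg, integral_neg] at this
    linarith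
  have e2 : ∫ x, k |x| * Real.cos (2 * Real.pi * w * x) =
      2 * ∫ x in Ioi (0 : ℝ), k x * Real.cos (2 * Real.pi * w * x) := by
    rw [← integral_comp_abs]
    congr 1; funext x
    rcases abs_cases x with h | h
    · rw [h.1]
    · rw [h.1, mul_neg, Real.cos_neg]
  rw [Real.fourier_real_eq_integral_exp_smul, ← e2]
  have e3 : ∀ v : ℝ, Complex.exp (↑(-2 * Real.pi * v * w) * Complex.I) • (k |v| : ℂ) =
      ((k |v| * Real.cos (2 * Real.pi * w * v) : ℝ) : ℂ) -
        ((k |v| * Real.sin (2 * Real.pi * w * v) : ℝ) : ℂ) * Complex.I := fun v => by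
    rw [Complex.exp_mul_I, show -2 * Real.pi * v * w = -(2 * Real.pi * w * v) by ring,
      ← Complex.ofReal_cos, ← Complex.ofReal_sin, Real.cos_neg, Real.sin_neg, smul_eq_mul]
    simp only [Complex.ofReal_mul, Complex.ofReal_neg]
    ring
  simp_rw [e3]
  rw [integral_sub i1.ofReal (i2.ofReal.mul_const _), integral_mul_const,
    integral_complex_ofReal, integral_complex_ofReal, e1]
  simp

end Pool.Agent.MP_39fec4_gt
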