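import Pool.Agent.MP_39fec4_gt.Trig
import Pool.Agent.MP_39fec4_gt.Slice

set_option autoImplicit false

namespace Pool.Agent.MP_39fec4_gt.Ball

open MeasureTheory Set Filter Topology Real
open scoped FourierTransform

/-- The normalising constant. -/
noncomputable def Zp (p : ℝ) : ℝ := Real.Gamma (1 + 1 / p)

/-- The normalising constant to the power `p`. -/
noncomputable def bp (p : ℝ) : ℝ := Zp p ^ p

/-- The normalised kernel on the half line. -/
noncomputable def K (p y : ℝ) : ℝ := Real.exp (-bp p * y ^ p)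

/-- Power times kernel. -/
noncomputable def W (p r y : ℝ) : ℝ := y ^ r * K p y

/-- Minus the derivative of the kernel. -/
noncomputable def rho (p y : ℝ) : ℝ := p * bp p * W p (p - 1) y

/-- The normalised characteristic function. -/
noncomputable def ff (p x : ℝ) : ℝ := cosT (K p) x

/-- Second moment of the kernel. -/
noncomputable def kap2 (p : ℝ) : ℝ := Real.Gamma (1 + 3 / p) / (3 * Zp p ^ 3)

/-- Fourth moment of the kernel. -/
noncomputable def mu4 (p : ℝ) : ℝ := Real.Gamma (1 + 5 / p) / (5 * Zp p ^ 5)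

/-- Variance of the law `rho`. -/
noncomputable def vv (p : ℝ) : ℝ := Real.Gamma (1 + 2 / p) / Zp p ^ 2 - 1

variable {p : ℝ}

theorem Zp_pos (hp : 2 < p) : 0 < Zp p := Real.Gamma_pos_of_pos (by positivity)

theorem bp_pos (hp : 2 < p) : 0 < bp p := Real.rpow_pos_of_pos (Zp_pos hp) p

theorem K_pos (p y : ℝ) : 0 < K p y := Real.exp_pos _

theorem K_zero (hp : 2 < p) : K p 0 = 1 := by
  simp [K, Real.zero_rpow (by positivity : p ≠ 0)]

theorem K_anti (hp : 2 < p) {x y : ℝ} (hx : 0 ≤ x) (hxy : x ≤ y) : K p y ≤ K p x := by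
  have := bp_pos hp
  have : x ^ p ≤ y ^ p := Real.rpow_le_rpow hx hxy (by positivity)
  unfold K
  rw [Real.exp_le_exp]; nlinarith

theorem K_le_one (hp : 2 < p) {y : ℝ} (hy : 0 ≤ y) : K p y ≤ 1 :=
  K_zero hp ▸ K_anti hp le_rfl hy

theorem cont_K (hp : 2 < p) : Continuous (K p) := by
  have : Continuous fun y : ℝ => y ^ p := Real.continuous_rpow_const (by positivity)
  unfold K; fun_prop

theorem int_W (hp : 2 < p) {r : ℝ} (hr : -1 < r) : IntegrableOn (W p r) (Ioi 0) :=
  integrableOn_rpow_mul_exp_neg_mul_rpow hr (by positivity) (bp_pos hp)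

theorem integral_W (hp : 2 < p) {r : ℝ} (hr : -1 < r) :
    ∫ y in Ioi (0 : ℝ), W p r y = Real.Gamma ((r + 1) / p) / (p * Zp p ^ (r + 1)) := by
  have hZ := Zp_pos hp
  have := integral_rpow_mul_exp_neg_mul_rpow (p := p) (by positivity) hr (bp_pos hp)
  unfold W K
  rw [this, bp, ← Real.rpow_mul hZ.le, show p * (-(r + 1) / p) = -(r + 1) by field_simp,
    Real.rpow_neg hZ.le]
  field_simp

theorem int_K (hp : 2 < p) (j : ℕ) : IntegrableOn (fun y => y ^ j * K p y) (Ioi 0) := by
  have := int_W hp (r := j) (by linarith [Nat.cast_nonneg (α := ℝ) j])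
  simpa [W] using (show IntegrableOn (fun y => W p j y) (Ioi 0) from this)

theorem int_K0 (hp : 2 < p) : IntegrableOn (K p) (Ioi 0) := by
  simpa using int_K hp 0

theorem mom_K (hp : 2 < p) (j : ℕ) : ∫ y in Ioi (0 : ℝ), y ^ j * K p y =
    Real.Gamma (1 + (j + 1) / p) / ((j + 1) * Zp p ^ (j + 1)) := by
  have hZ := Zp_pos hp
  have := integral_W hp (r := j) (by linarith [Nat.cast_nonneg (α := ℝ) j])
  simp only [W, Real.rpow_natCast] at this
  rw [this, add_comm 1 (_ / p), Real.Gamma_add_one (by positivity),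
    show (j : ℝ) + 1 = ((j + 1 : ℕ) : ℝ) by push_cast; ring, Real.rpow_natCast]
  push_cast
  field_simp

theorem mom_K0 (hp : 2 < p) : ∫ y in Ioi (0 : ℝ), K p y = 1 := by
  have hZ := Zp_pos hp
  have := mom_K hp 0
  simp only [pow_zero, one_mul, Nat.cast_zero, zero_add, pow_one] at this
  rw [this]; exact div_self hZ.ne'

theorem mom_K2 (hp : 2 < p) : ∫ y in Ioi (0 : ℝ), y ^ 2 * K p y = kap2 p := by
  rw [mom_K hp 2, kap2]; norm_num

theorem mom_K4 (hp : 2 < p) : ∫ y in Ioi (0 : ℝ), y ^ 4 * K p y = mu4 p := by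
  rw [mom_K hp 4, mu4]; norm_num

theorem kap2_pos (hp : 2 < p) : 0 < kap2 p := by
  have hZ := Zp_pos hp
  have : 0 < Real.Gamma (1 + 3 / p) := Real.Gamma_pos_of_pos (by positivity)
  unfold kap2; positivity

theorem rho_nonneg (hp : 2 < p) {y : ℝ} (hy : 0 ≤ y) : 0 ≤ rho p y := by
  have := bp_pos hp
  have := K_pos p y
  unfold rho W; positivity

theorem pow_mul_rho (j : ℕ) {y : ℝ} (hy : 0 < y) :
    y ^ j * rho p y = p * bp p * W p (p - 1 + j) y := by
  rw [rho, W, W, Real.rpow_add hy, Real.rpow_natCast]; ring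

theorem int_rho (hp : 2 < p) (j : ℕ) : IntegrableOn (fun y => y ^ j * rho p y) (Ioi 0) :=
  IntegrableOn.congr_fun ((int_W hp (r := p - 1 + j)
    (by linarith [Nat.cast_nonneg (α := ℝ) j])).const_mul (p * bp p))
    (fun _ hy => (pow_mul_rho j hy).symm) measurableSet_Ioi

theorem int_rho0 (hp : 2 < p) : IntegrableOn (rho p) (Ioi 0) := by
  simpa using int_rho hp 0

theorem mom_rho (hp : 2 < p) (j : ℕ) : ∫ y in Ioi (0 : ℝ), y ^ j * rho p y =
    Real.Gamma (1 + j / p) / Zp p ^ j := by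
  have hZ := Zp_pos hp
  have hp0 : 0 < p := by positivity
  rw [setIntegral_congr_fun measurableSet_Ioi (fun y hy => pow_mul_rho j hy), integral_const_mul,
    integral_W hp (by linarith [Nat.cast_nonneg (α := ℝ) j]), bp,
    show p - 1 + j + 1 = p + j by ring, Real.rpow_add hZ, Real.rpow_natCast,
    show (p + j) / p = 1 + j / p by field_simp]
  have := Real.rpow_pos_of_pos hZ p
  field_simp

theorem hasDerivAt_K (hp : 2 < p) (y : ℝ) : HasDerivAt (K p) (-rho p y) y := by
  have := ((Real.hasDerivAt_rpow_const (x := y) (p := p) (Or.inr (by linarith))).const_mul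
    (-bp p)).exp
  refine this.congr_deriv ?_
  simp only [rho, W, K]; ring

theorem x_mul_ff (hp : 2 < p) (x : ℝ) : x * ff p x = sinT (rho p) x := by
  have := parts_cos (k := K p) (k' := fun y => -rho p y) (int_K0 hp) (int_rho0 hp).neg
    (fun y _ => hasDerivAt_K hp y) (((cont_K hp).tendsto 0).mono_left nhdsWithin_le_nhds) x
  rw [ff, this, sinT, sinT, ← integral_neg]
  congr 1; funext y; ring

theorem ff_zero (hp : 2 < p) : ff p 0 = 1 := by rw [ff, cosT_zero, mom_K0 hp]

theorem ff_abs (p x : ℝ) : ff p |x| = ff p x := cosT_abs _ _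

theorem abs_ff_le (hp : 2 < p) (x : ℝ) : |ff p x| ≤ 1 := by
  have := abs_cosT_le (k := K p) (int_K0 hp) (fun y _ => (abs_of_pos (K_pos p y)).le) x
  rwa [mom_K0 hp] at this

theorem cont_ff (hp : 2 < p) : Continuous (ff p) :=
  continuous_iff_continuousAt.2 fun s =>
    (hasDerivAt_cosT (int_K0 hp) (int_K hp 1) (fun x _ => by simp) s).continuousAt

theorem abs_x_mul_ff_le (hp : 2 < p) (x : ℝ) : |x * ff p x| ≤ 1 := by
  have := abs_sinT_le (k := rho p) (int_rho0 hp)
    (fun y hy => (abs_of_nonneg (rho_nonneg hp hy.le)).le) x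
  have h0 := mom_rho hp 0
  simp only [pow_zero, one_mul, Nat.cast_zero, zero_div, add_zero, Real.Gamma_one, div_one] at h0
  rwa [h0, ← x_mul_ff hp] at this

theorem cos_le_quartic (y : ℝ) : Real.cos y ≤ 1 - y ^ 2 / 2 + y ^ 4 / 24 := by
  have key : ∀ y : ℝ, 0 ≤ y → Real.cos y ≤ 1 - y ^ 2 / 2 + y ^ 4 / 24 := fun y hy => by
    have := nonneg_of_deriv (f := fun y => 1 - y ^ 2 / 2 + y ^ 4 / 24 - Real.cos y)
      (f' := fun y => Real.sin y - (y - y ^ 3 / 6)) (fun x => by
        have := ((((hasDerivAt_pow 2 x).div_const 2).const_sub 1).add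
          ((hasDerivAt_pow 4 x).div_const 24)).sub (Real.hasDerivAt_cos x)
        refine this.congr_deriv ?_
        simp; ring) (by simp) (fun x hx => by linarith [Real.sin_ge_sub_cube hx.le]) hy
    simpa using this
  rcases le_total 0 y with h | h
  · exact key y h
  · have := key (-y) (by linarith)
    rw [Real.cos_neg] at this
    nlinarith

theorem ff_lo (hp : 2 < p) (x : ℝ) : 1 - kap2 p * x ^ 2 / 2 ≤ ff p x := by
  have e : 1 - kap2 p * x ^ 2 / 2 =
      ∫ y in Ioi (0 : ℝ), (K p y - x ^ 2 / 2 * (y ^ 2 * K p y)) := by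
    rw [integral_sub (int_K0 hp) ((int_K hp 2).const_mul _), integral_const_mul, mom_K0 hp,
      mom_K2 hp]; ring
  rw [e]
  refine integral_mono ((int_K0 hp).sub ((int_K hp 2).const_mul _)) (int_cos (int_K0 hp) x)
    fun y => ?_
  have := Real.one_sub_sq_div_two_le_cos (x := x * y)
  have := K_pos p y
  dsimp only
  nlinarith

theorem ff_hi (hp : 2 < p) (x : ℝ) :
    ff p x ≤ 1 - kap2 p * x ^ 2 / 2 + mu4 p * x ^ 4 / 24 := by
  have i1 : IntegrableOn (fun y => K p y - x ^ 2 / 2 * (y ^ 2 * K p y)) (Ioi 0) :=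
    (int_K0 hp).sub ((int_K hp 2).const_mul (x ^ 2 / 2))
  have e : 1 - kap2 p * x ^ 2 / 2 + mu4 p * x ^ 4 / 24 = ∫ y in Ioi (0 : ℝ),
      ((K p y - x ^ 2 / 2 * (y ^ 2 * K p y)) + x ^ 4 / 24 * (y ^ 4 * K p y)) := by
    rw [integral_add i1 ((int_K hp 4).const_mul _),
      integral_sub (int_K0 hp) ((int_K hp 2).const_mul _), integral_const_mul, integral_const_mul,
      mom_K0 hp, mom_K2 hp, mom_K4 hp]; ring
  rw [e]
  refine integral_mono (int_cos (int_K0 hp) x) (i1.add ((int_K hp 4).const_mul _)) fun y => ?_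
  have := cos_le_quartic (x * y)
  have := K_pos p y
  dsimp only
  nlinarith

theorem quad_le (hp : 2 < p) {e c0 c1 c2 x : ℝ} (hx : 0 ≤ x)
    (h : ∀ z, 0 ≤ z → c0 + c1 * z + c2 * z ^ 2 ≤ e * Real.sin z) :
    c0 + c1 * x + c2 * (x ^ 2 * (1 + vv p)) ≤ e * (x * ff p x) := by
  have hZ := Zp_pos hp
  have m0 := mom_rho hp 0
  have m1 := mom_rho hp 1
  have m2 := mom_rho hp 2
  simp only [Nat.cast_zero, zero_div, add_zero, Real.Gamma_one, pow_zero (Zp p), div_one] at m0
  rw [Nat.cast_one, pow_one (Zp p), ← Zp, div_self hZ.ne'] at m1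
  have m2' : ∫ y in Ioi (0 : ℝ), y ^ 2 * rho p y = 1 + vv p := by
    rw [m2, vv]; norm_num
  have i01 : IntegrableOn (fun y => c0 * (y ^ 0 * rho p y) + c1 * x * (y ^ 1 * rho p y)) (Ioi 0) :=
    ((int_rho hp 0).const_mul c0).add ((int_rho hp 1).const_mul (c1 * x))
  have e1 : c0 + c1 * x + c2 * (x ^ 2 * (1 + vv p)) = ∫ y in Ioi (0 : ℝ),
      ((c0 * (y ^ 0 * rho p y) + c1 * x * (y ^ 1 * rho p y)) + c2 * x ^ 2 * (y ^ 2 * rho p y)) := by
    rw [integral_add i01 ((int_rho hp 2).const_mul _),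
      integral_add ((int_rho hp 0).const_mul c0) ((int_rho hp 1).const_mul (c1 * x)),
      integral_const_mul, integral_const_mul, integral_const_mul, m0, m1, m2']
    ring
  rw [e1, x_mul_ff hp, sinT, ← integral_const_mul]
  refine setIntegral_mono_on (i01.add ((int_rho hp 2).const_mul _))
    ((int_sin (int_rho0 hp) x).const_mul e) measurableSet_Ioi fun y hy => ?_
  have hy : 0 < y := hy
  have := h (x * y) (by positivity)
  have := rho_nonneg hp hy.le
  nlinarith

theorem int_ff (hp : 2 < p) : IntegrableOn (ff p) (Ioi 0) := by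
  set r1 : ℝ → ℝ := fun y => p * bp p * (p - 1) * W p (p - 2) y +
    -(p * bp p) ^ 2 * W p (2 * p - 2) y with hr1
  have i1 : IntegrableOn r1 (Ioi 0) :=
    ((int_W hp (by linarith)).const_mul _).add ((int_W hp (by linarith)).const_mul _)
  have hd : ∀ y, 0 < y → HasDerivAt (rho p) (r1 y) y := fun y hy => by
    have := ((Real.hasDerivAt_rpow_const (x := y) (p := p - 1) (Or.inl hy.ne')).mul
      (hasDerivAt_K hp y)).const_mul (p * bp p)
    refine this.congr_deriv ?_
    simp only [hr1, rho, W]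
    rw [show p - 1 - 1 = p - 2 by ring, show 2 * p - 2 = (p - 1) + (p - 1) by ring,
      Real.rpow_add hy]
    ring
  have h0 : Tendsto (rho p) (𝓝[>] 0) (𝓝 0) := by
    have c1 : Continuous fun y : ℝ => y ^ (p - 1) := Real.continuous_rpow_const (by linarith)
    have c2 := cont_K hp
    have c : Continuous (rho p) := by unfold rho W; fun_prop
    have := (c.tendsto 0).mono_left (nhdsWithin_le_nhds (s := Ioi 0))
    rwa [show rho p 0 = 0 by simp [rho, W, Real.zero_rpow (by linarith : p - 1 ≠ 0)]] at this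
  refine integrableOn_of_decay (cont_ff hp) (abs_ff_le hp) (K := ∫ y in Ioi (0 : ℝ), |r1 y|)
    (s1 := 0) fun s _ => ?_
  have := parts_sin (int_rho0 hp) i1 hd h0 s
  rw [← x_mul_ff hp] at this
  calc s ^ 2 * |ff p s| = |s * (s * ff p s)| := by
        rw [← mul_assoc, abs_mul, abs_mul_self]; ring
    _ ≤ _ := by rw [this]; exact abs_cosT_le i1.abs (fun _ _ => le_rfl) s

theorem inversion (hp : 2 < p) (x : ℝ) : cosT (ff p) x = π / 2 * K p |x| := by
  have hπ : 0 < 2 * π := by positivity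
  have hF : 𝓕 (fun y : ℝ => (K p |y| : ℂ)) = fun w => ((2 * ff p (2 * π * |w|) : ℝ) : ℂ) := by
    funext w
    rw [fourier_even (int_K0 hp), ← abs_of_pos hπ, ← abs_mul, ff_abs, abs_of_pos hπ]
    rfl
  have i2 : IntegrableOn (fun w => 2 * ff p (2 * π * w)) (Ioi 0) := by
    refine Integrable.const_mul ?_ 2
    exact (integrableOn_Ioi_comp_mul_left_iff (ff p) 0 hπ).2 (by simpa using int_ff hp)
  have c := cont_K hp
  have := (integrable_comp_abs' (int_K0 hp)).ofReal.fourierInv_fourier_eq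
    (by rw [hF]; exact (integrable_comp_abs' i2).ofReal) (v := x)
    (Continuous.continuousAt (by fun_prop))
  rw [hF, Real.fourierInv_eq_fourier_neg, fourier_even i2, Complex.ofReal_inj] at this
  rw [← this]
  have e := integral_comp_mul_left_Ioi (fun s => ff p s * Real.cos (x * s)) 0 hπ
  simp only [mul_zero, smul_eq_mul] at e
  have e2 : ∫ w in Ioi (0 : ℝ), 2 * ff p (2 * π * w) * Real.cos (2 * π * -x * w) =
      2 * ∫ w in Ioi (0 : ℝ), ff p (2 * π * w) * Real.cos (x * (2 * π * w)) := by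
    rw [← integral_const_mul]
    congr 1; funext w
    rw [← Real.cos_neg (x * _), mul_assoc]; congr 3; ring
  rw [e2, e, cosT]
  field_simp

end Pool.Agent.MP_39fec4_gt.Ball
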