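import Pool.Agent.MP_39fec4_gt.Est
import Pool.Agent.MP_39fec4_gt.Compare

set_option autoImplicit false

namespace Pool.Agent.MP_39fec4_gt

open MeasureTheory Set Filter Topology

noncomputable def ZZ (η : ℝ) : ℝ := cosT (kk η) 0

noncomputable def gam (η s : ℝ) : ℝ := cosT (kk η) s / ZZ η

noncomputable def gam1 (η s : ℝ) : ℝ := -sinT (fun x => x ^ 1 * kk η x) s / ZZ η

noncomputable def gam2 (η s : ℝ) : ℝ := -cosT (fun x => x ^ 2 * kk η x) s / ZZ η

noncomputable def GG (η τ : ℝ) : ℝ := gam η (√τ)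

variable {η : ℝ}

theorem div_le_two_mul {a b z : ℝ} (hz : 1 / 2 ≤ z) (h : |a| ≤ b) : |a / z| ≤ 2 * b := by
  have hb : 0 ≤ b := (abs_nonneg a).trans h
  rw [abs_div, abs_of_pos (by linarith : 0 < z), div_le_iff₀ (by linarith)]
  nlinarith

theorem quartic_exp_le {s T : ℝ} (hT : T ≤ s ^ 2) :
    s ^ 4 * Real.exp (-s ^ 2 / 4) ≤ 1600 * Real.exp (-T / 5) := by
  have h1 := sq_mul_exp_neg_le (y := s ^ 2 / 20) (by positivity)
  have h2 : Real.exp (-s ^ 2 / 4) = Real.exp (-(s ^ 2 / 20)) * Real.exp (-s ^ 2 / 5) := by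
    rw [← Real.exp_add]; congr 1; ring
  have h3 : Real.exp (-s ^ 2 / 5) ≤ Real.exp (-T / 5) := Real.exp_le_exp.2 (by linarith)
  calc _ = 400 * ((s ^ 2 / 20) ^ 2 * Real.exp (-(s ^ 2 / 20))) * Real.exp (-s ^ 2 / 5) := by
        rw [h2]; ring
    _ ≤ 400 * 4 * Real.exp (-T / 5) := by gcongr
    _ = _ := by ring

section
variable (h0 : 0 < η) (h1 : η ≤ 1) (hK : KK * η ≤ 1 / 1000)
include h0 h1

theorem hasDerivAt_gam (s : ℝ) : HasDerivAt (gam η) (gam1 η s) s :=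
  (hasDerivAt_cosT (int_kk0 h0 h1) (int_kk h0 h1 (j := 1) (by norm_num))
    (fun x _ => by simp) s).div_const _

theorem hasDerivAt_gam1 (s : ℝ) : HasDerivAt (gam1 η) (gam2 η s) s :=
  (hasDerivAt_sinT (int_kk h0 h1 (j := 1) (by norm_num)) (int_kk h0 h1 (j := 2) (by norm_num))
    (fun x _ => by ring) s).neg.div_const _

theorem ZZ_eq : ZZ η = Z2 + cosT (dd η) 0 := by
  rw [ZZ, cos_kk h0 h1]; simp

include hK

theorem ZZ_bounds : 1 / 2 ≤ ZZ η ∧ ZZ η ≤ 2 := by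
  have := abs_le.1 (D_le h0 h1 0)
  have := Z2_bounds
  rw [ZZ_eq h0 h1]
  constructor <;> linarith

theorem gam_abs (s : ℝ) : |gam η s| ≤ 1 := by
  have hZ := (ZZ_bounds h0 h1 hK).1
  have := abs_cosT_le (int_kk0 h0 h1) (fun x _ => (abs_of_pos (kk_pos η x)).le) s
  rw [← cosT_zero] at this
  rw [gam, abs_div, abs_of_pos (by linarith : 0 < ZZ η), div_le_one (by linarith)]
  exact this

theorem gam_sub (s : ℝ) : |gam η s - Real.exp (-s ^ 2 / 4)| ≤ 12 * (KK * η) ∧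
    |gam η s - Real.exp (-s ^ 2 / 4)| ≤ 8 * (KK * η) * s ^ 2 := by
  have hZ := (ZZ_bounds h0 h1 hK).1
  have e : gam η s - Real.exp (-s ^ 2 / 4) =
      (cosT (dd η) s - cosT (dd η) 0 * Real.exp (-s ^ 2 / 4)) / ZZ η := by
    rw [gam, cos_kk h0 h1, eq_div_iff (by linarith), sub_mul, div_mul_cancel₀ _ (by linarith),
      ZZ_eq h0 h1]
    ring
  have a1 := D_le h0 h1 s
  have a2 := D_le h0 h1 0
  have a3 := D_sub_le h0 h1 s
  have b1 := Real.exp_pos (-s ^ 2 / 4)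
  have b2 : Real.exp (-s ^ 2 / 4) ≤ 1 := Real.exp_le_one_iff.2 (by nlinarith [sq_nonneg s])
  have b3 := Real.add_one_le_exp (-s ^ 2 / 4)
  have hp : 0 ≤ η * KK := mul_nonneg h0.le KK_nonneg
  rw [e]
  constructor
  · refine (div_le_two_mul (b := 6 * (KK * η)) hZ ?_).trans (by linarith)
    refine (abs_sub _ _).trans ?_
    rw [abs_mul, abs_of_pos b1]
    have := mul_le_mul a2 b2 b1.le (by linarith)
    linarith
  · refine (div_le_two_mul (b := 4 * (KK * η) * s ^ 2) hZ ?_).trans (by linarith)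
    rw [show cosT (dd η) s - cosT (dd η) 0 * Real.exp (-s ^ 2 / 4) =
      (cosT (dd η) s - cosT (dd η) 0) + cosT (dd η) 0 * (1 - Real.exp (-s ^ 2 / 4)) by ring]
    refine (abs_add_le _ _).trans ?_
    rw [abs_mul, abs_of_nonneg (sub_nonneg.2 b2)]
    have := mul_le_mul a2 (by linarith : 1 - Real.exp (-s ^ 2 / 4) ≤ s ^ 2 / 4) (by linarith)
      (by linarith)
    nlinarith [mul_nonneg hp (sq_nonneg s)]

theorem gam_tail {s T : ℝ} (hs : 1 ≤ s) (hT : T ≤ s ^ 2) :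
    s ^ 2 * |gam η s| ≤ 3200 * Real.exp (-T / 5) + 1200 * (KK * η) ∧
    s ^ 2 * |gam1 η s| ≤ 3200 * Real.exp (-T / 5) + 1200 * (KK * η) ∧
    s ^ 2 * |gam2 η s| ≤ 3200 * Real.exp (-T / 5) + 1200 * (KK * η) := by
  have hZ := (ZZ_bounds h0 h1 hK).1
  have hq := quartic_exp_le hT
  have hp : 0 ≤ η * KK := mul_nonneg h0.le KK_nonneg
  have key : ∀ a b : ℝ, s ^ 2 * |a| ≤ s ^ 4 → s ^ 2 * |b| ≤ 600 * η * KK →
      s ^ 2 * |(a * (Z2 * Real.exp (-s ^ 2 / 4)) + b) / ZZ η| ≤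
        3200 * Real.exp (-T / 5) + 1200 * (KK * η) := fun a b ha hb => by
    rw [← abs_of_nonneg (sq_nonneg s), ← abs_mul, ← mul_div_assoc]
    refine (div_le_two_mul (b := 1600 * Real.exp (-T / 5) + 600 * η * KK) hZ ?_).trans
      (by linarith)
    rw [mul_add]
    refine (abs_add_le _ _).trans (add_le_add (le_trans ?_ hq) ?_)
    · have z := Z2_bounds
      rw [abs_mul, abs_mul, abs_mul, abs_of_nonneg (sq_nonneg s), abs_of_pos (Real.exp_pos _),
        abs_of_pos (by linarith : 0 < Z2), ← mul_assoc]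
      exact mul_le_mul ha (mul_le_of_le_one_left (Real.exp_pos _).le z.2)
        (mul_nonneg (by linarith) (Real.exp_pos _).le) (by positivity)
    · rwa [abs_mul, abs_of_nonneg (sq_nonneg s)]
  have s2 : 1 ≤ s ^ 2 := one_le_pow₀ hs
  have s4 : s ^ 4 = s ^ 2 * s ^ 2 := by ring
  refine ⟨?_, ?_, ?_⟩
  · have := key 1 _ (by rw [s4, abs_one]; gcongr) ((D0_tail h0 h1 s).trans (by linarith))
    rwa [one_mul, ← cos_kk h0 h1] at this
  · have := key (s / 2) _ (by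
      rw [s4, abs_of_pos (by linarith)]; gcongr; nlinarith) ((D1_tail h0 h1 s).trans (by linarith))
    rwa [← sin_kk1 h0 h1, ← abs_neg, ← neg_div] at this
  · have := key (1 / 2 - s ^ 2 / 4) _ (by
      rw [s4]; gcongr; rw [abs_le]; constructor <;> linarith) (D2_tail h0 h1 s)
    rwa [← cos_kk2 h0 h1, ← abs_neg, ← neg_div] at this

end

theorem EE_sqrt {τ : ℝ} (hτ : 0 ≤ τ) : EE (√τ) = Real.exp (τ / 4) := by
  rw [EE, Real.sq_sqrt hτ]

theorem pack (h0 : 0 < η) (h1 : η ≤ 1) {τ0 ε : ℝ} (hτ : 6 ≤ τ0)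
    (hs : KK * η * Real.exp (τ0 / 4) ≤ 1 / 1000)
    (hε : 3200 * Real.exp (-(9 / 10 * τ0) / 5) + 1200 * (KK * η) ≤ ε) :
    Pack (GG η) η (1 / 800) (4 * KK) τ0 ε := by
  have hp : 0 ≤ KK * η := mul_nonneg KK_nonneg h0.le
  have hK : KK * η ≤ 1 / 1000 :=
    (le_mul_of_one_le_right hp (Real.one_le_exp (by linarith))).trans hs
  obtain ⟨hZ1, hZ2⟩ := ZZ_bounds h0 h1 hK
  have hZ : 0 < ZZ η := by linarith
  have hsub : ∀ τ, 0 ≤ τ → |GG η τ - Real.exp (-τ / 4)| ≤ 12 * (KK * η) ∧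
      |GG η τ - Real.exp (-τ / 4)| ≤ 8 * (KK * η) * τ := fun τ hτ => by
    have := gam_sub h0 h1 hK (√τ)
    rwa [Real.sq_sqrt hτ] at this
  have hee : ∀ τ : ℝ, Real.exp (τ / 4) * Real.exp (-τ / 4) = 1 := fun τ => by
    rw [← Real.exp_add]; simp [neg_div]
  have hmain : ∀ τ, 0 ≤ τ → τ ≤ τ0 → |Real.exp (τ / 4) * GG η τ - 1| ≤ 1 / 2 := fun τ a b => by
    rw [← hee τ, ← mul_sub, abs_mul, abs_of_pos (Real.exp_pos _), hee]
    have : Real.exp (τ / 4) ≤ Real.exp (τ0 / 4) := Real.exp_le_exp.2 (by linarith)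
    have := mul_le_mul this (hsub τ a).1 (abs_nonneg _) (Real.exp_pos _).le
    linarith
  have hm : (1 / 2 : ℝ) ≤ cosT (W η) 0 := by
    have := m_lower h0 h1
    have := Z2_bounds
    linarith
  have hsplit : ∀ τ, 0 ≤ τ → Real.exp (τ / 4) * GG η τ =
      (h0f η (√τ) + EE (√τ) * cosT (rr η) (√τ)) / ZZ η := fun τ hτ => by
    rw [← cos_kk_split h0 h1, GG, gam, EE_sqrt hτ, mul_div_assoc]
  refine ⟨?_, fun τ => gam_abs h0 h1 hK _, ?_, fun τ a _ => ?_, fun τ a b => ?_, fun τ a b => ?_,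
    fun τ a b => ?_, ?_, ?_, ?_⟩
  · exact (continuous_iff_continuousAt.2 fun s => (hasDerivAt_gam h0 h1 s).continuousAt).comp
      Real.continuous_sqrt
  · rw [GG, Real.sqrt_zero, gam]; exact div_self hZ.ne'
  · have := (abs_le.1 (hsub τ a).2).1
    have := Real.add_one_le_exp (-τ / 4)
    nlinarith
  · linarith [(abs_le.1 (hmain τ a b)).1]
  · linarith [(abs_le.1 (hmain τ a b)).2]
  · have a1 := (abs_le.1 (hsub τ a).2).2
    have a2 : Real.exp (τ / 4) ≤ Real.exp (τ0 / 4) := Real.exp_le_exp.2 (by linarith)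
    have a3 : Real.exp (-τ / 5) = Real.exp (-τ / 4) * Real.exp (τ / 20) := by
      rw [← Real.exp_add]; congr 1; ring
    have a4 := Real.add_one_le_exp (τ / 20)
    have a5 := Real.exp_pos (-τ / 4)
    have a6 : KK * η ≤ Real.exp (-τ / 4) / 1000 := by
      calc KK * η = KK * η * Real.exp (τ / 4) * Real.exp (-τ / 4) := by
            rw [mul_assoc, hee, mul_one]
        _ ≤ 1 / 1000 * Real.exp (-τ / 4) := by gcongr; exact le_trans (by gcongr) hs
        _ = _ := by ring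
    rw [a3]
    nlinarith [mul_le_mul_of_nonneg_left a4 a5.le, mul_le_mul_of_nonneg_right a6 a,
      mul_nonneg a5.le a]
  · have := concaveOn_comp_sqrt (h := fun s => (h0f η s + EE s * cosT (rr η) s) / ZZ η)
      (h1 := fun s => (h1f η s + rho1 η s) / ZZ η) (h2 := fun s => (h2f η s + rho2 η s) / ZZ η)
      (fun s => ((hasDerivAt_h0f h0 s).add (hasDerivAt_rho h0 h1 s)).div_const _)
      (fun s => ((hasDerivAt_h1f h0 s).add (hasDerivAt_rho1 h0 h1 s)).div_const _)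
      (convex_Icc 0 τ0) (b := 1 / 800 * η) (fun τ hτ => by
        rw [interior_Icc] at hτ; exact hτ.1) (fun τ hτ => by
        rw [interior_Icc] at hτ
        have a1 := h0f_conc h0 h1 (by norm_num) hm (Real.sqrt_nonneg τ)
        have a2 := rho_le h0 h1 (Real.sqrt_nonneg τ)
        rw [EE_sqrt hτ.1.le] at a2
        have a3 : Real.exp (τ / 4) ≤ Real.exp (τ0 / 4) := Real.exp_le_exp.2 (by linarith [hτ.2])
        have a4 : 0 ≤ η * √τ ^ 3 := by positivity
        have a5 : Real.exp (τ / 4) * (3 * η ^ 2 * KK * √τ ^ 3) ≤ 3 / 1000 * (η * √τ ^ 3) := by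
          calc _ = 3 * (KK * η * Real.exp (τ / 4)) * (η * √τ ^ 3) := by ring
            _ ≤ 3 * (1 / 1000) * (η * √τ ^ 3) := by gcongr; exact le_trans (by gcongr) hs
            _ = _ := by ring
        rw [← mul_div_assoc, ← sub_div, div_le_iff₀ hZ]
        nlinarith [mul_le_mul_of_nonneg_left hZ2 a4])
    exact this.congr fun τ hτ => by simp only [hsplit τ hτ.1]
  · have := concaveOn_comp_sqrt (h := fun s => (h0f η s + cosT (rr η) 0) / ZZ η)
      (h1 := fun s => h1f η s / ZZ η) (h2 := fun s => h2f η s / ZZ η)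
      (fun s => ((hasDerivAt_h0f h0 s).add_const _).div_const _)
      (fun s => (hasDerivAt_h1f h0 s).div_const _)
      (convex_Ici 0) (b := 0) (fun τ hτ => by simpa using hτ) (fun τ _ => by
        have a1 := h0f_conc h0 h1 (by norm_num) hm (Real.sqrt_nonneg τ)
        have a4 : 0 ≤ η * √τ ^ 3 := by positivity
        rw [← mul_div_assoc, ← sub_div, div_le_iff₀ hZ]
        nlinarith)
    have hq : 0 ≤ η ^ 2 * KK := mul_nonneg (sq_nonneg η) KK_nonneg
    refine ⟨_, this, fun τ a => ?_, fun τ a => ?_⟩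
    · rw [hsplit τ a, zero_mul, add_zero, ← sub_div, EE_sqrt a]
      refine (div_le_two_mul (b := 2 * KK * η ^ 2 * τ * Real.exp (τ / 4)) hZ1 ?_).trans
        (by linarith)
      have a1 := R_sub_le h0 h1 (√τ)
      have a2 := R_le h0 h1 0
      rw [Real.sq_sqrt a] at a1
      have a3 : Real.exp (τ / 4) - 1 ≤ τ * Real.exp (τ / 4) := by
        have := Real.add_one_le_exp (-τ / 4)
        have := hee τ
        have := Real.exp_pos (τ / 4)
        nlinarith
      have a4 : 1 ≤ Real.exp (τ / 4) := Real.one_le_exp (by linarith)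
      rw [show h0f η (√τ) + Real.exp (τ / 4) * cosT (rr η) (√τ) - (h0f η (√τ) + cosT (rr η) 0) =
        Real.exp (τ / 4) * (cosT (rr η) (√τ) - cosT (rr η) 0) +
          (Real.exp (τ / 4) - 1) * cosT (rr η) 0 by ring]
      refine (abs_add_le _ _).trans ?_
      rw [abs_mul, abs_mul, abs_of_pos (Real.exp_pos _), abs_of_nonneg (sub_nonneg.2 a4)]
      have b1 := mul_le_mul_of_nonneg_left a1 (Real.exp_pos (τ / 4)).le
      have b2 := mul_le_mul a3 a2 (abs_nonneg _) (by positivity)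
      linarith
    · have e : GG η τ = Real.exp (-τ / 4) * ((h0f η (√τ) + cosT (rr η) 0) / ZZ η) +
          (cosT (rr η) (√τ) - Real.exp (-τ / 4) * cosT (rr η) 0) / ZZ η := by
        have : GG η τ = Real.exp (-τ / 4) * (Real.exp (τ / 4) * GG η τ) := by
          rw [← mul_assoc, mul_comm (Real.exp _), hee, one_mul]
        rw [this, hsplit τ a, EE_sqrt a]
        linear_combination cosT (rr η) (√τ) / ZZ η * hee τ
      rw [zero_mul, add_zero, e]
      gcongr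
      refine (le_abs_self _).trans ((div_le_two_mul (b := 2 * (η ^ 2 * KK)) hZ1 ?_).trans
        (by linarith))
      refine (abs_sub _ _).trans ?_
      have b2 : Real.exp (-τ / 4) ≤ 1 := Real.exp_le_one_iff.2 (by linarith)
      rw [abs_mul, abs_of_pos (Real.exp_pos _)]
      have := mul_le_mul b2 (R_le h0 h1 0) (abs_nonneg _) zero_le_one
      linarith [R_le h0 h1 (√τ)]
  · refine ⟨_, _, fun τ hτ => hasDerivAt_comp_sqrt (hasDerivAt_gam h0 h1) (hasDerivAt_gam1 h0 h1)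
      hτ, fun τ a => ?_⟩
    have t1 : 1 ≤ τ := by linarith
    have s1 : 1 ≤ √τ := Real.one_le_sqrt.2 t1
    have s2 : √τ ^ 2 = τ := Real.sq_sqrt (by linarith)
    obtain ⟨b0, b1, b2⟩ := gam_tail h0 h1 hK s1 (T := 9 / 10 * τ0) (by rw [s2]; exact a)
    replace b0 := b0.trans hε
    replace b1 := b1.trans hε
    replace b2 := b2.trans hε
    generalize √τ = s at *
    subst s2
    have sp : 0 < s := by linarith
    refine ⟨by rwa [GG, Real.sqrt_sq sp.le], ?_, ?_⟩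
    · have : (s ^ 2) ^ 3 * (gam1 η s / (2 * s)) ^ 2 = (s ^ 2 * |gam1 η s|) ^ 2 / 4 := by
        rw [mul_pow, sq_abs]; field_simp; ring
      rw [this]
      have := pow_le_pow_left₀ (by positivity) b1 2
      nlinarith [sq_nonneg ε]
    · have : (s ^ 2) ^ 2 * |(s * gam2 η s - gam1 η s) / (4 * s ^ 3)| =
          s * |s * gam2 η s - gam1 η s| / 4 := by
        rw [abs_div, abs_of_pos (by positivity : 0 < 4 * s ^ 3)]; field_simp
      rw [this]
      have c1 := abs_sub (s * gam2 η s) (gam1 η s)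
      rw [abs_mul, abs_of_pos sp] at c1
      have c2 : s * |gam1 η s| ≤ s ^ 2 * |gam1 η s| := by gcongr; nlinarith
      have c3 := mul_le_mul_of_nonneg_left c1 sp.le
      have c4 : 0 ≤ s ^ 2 * |gam1 η s| := by positivity
      nlinarith

/-- The comparison for all small `η`. -/
theorem compare_small : ∃ η0 : ℝ, 0 < η0 ∧ η0 ≤ 1 ∧ ∀ η, 0 < η → η < η0 → KK * η ≤ 1 / 1000 ∧
    ∀ n : ℕ, 2 ≤ n → ∀ t : Fin n → ℝ, (∀ j, 0 ≤ t j) → ∑ j, t j = 1 →
    IntegrableOn (fun s : ℝ => ∏ j, GG η (t j * s ^ 2)) (Ioi 0) ∧ ((∃ j, t j ≠ 1 / n) →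
    ∫ s in Ioi (0 : ℝ), ∏ j, GG η (t j * s ^ 2) < ∫ s in Ioi (0 : ℝ), GG η (s ^ 2 / n) ^ n) := by
  have hK := KK_nonneg
  set M : ℝ := 10 ^ 20 * (1 + KK) ^ 2 with hM
  have hK1 : 1 ≤ (1 + KK) ^ 2 := one_le_pow₀ (by linarith)
  have hK2 : KK ≤ (1 + KK) ^ 2 := by nlinarith
  have hM1 : 10 ^ 20 ≤ M := by rw [hM]; linarith
  have hM0 : 0 < M := by linarith
  have hi : 1 / M ≤ 1 := by rw [div_le_one hM0]; linarith
  refine ⟨(1 / M) ^ 90, by positivity, pow_le_one₀ (by positivity) hi, fun η h0 hη => ?_⟩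
  obtain ⟨θ, hθ, rfl⟩ : ∃ θ : ℝ, 0 < θ ∧ η = θ ^ 90 :=
    ⟨η ^ ((90 : ℕ) : ℝ)⁻¹, by positivity, (Real.rpow_inv_natCast_pow h0.le (by norm_num)).symm⟩
  have hθM : θ < 1 / M := lt_of_pow_lt_pow_left₀ 90 (by positivity) hη
  have hMθ : M * θ ≤ 1 := by
    rw [lt_div_iff₀ hM0] at hθM; linarith
  have hθ1 : θ ≤ 1 / 10 ^ 20 := by
    rw [le_div_iff₀ (by positivity)]; nlinarith
  have hKθ : KK * θ ≤ 1 / 10 ^ 20 := by
    rw [le_div_iff₀ (by positivity)]; nlinarith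
  have hθ2 : θ ≤ 1 := by linarith
  have hpow : ∀ k : ℕ, θ ^ (k + 1) ≤ θ := fun k => pow_le_of_le_one hθ.le hθ2 (by omega)
  have hKpow : ∀ k : ℕ, KK * θ ^ (k + 1) ≤ 1 / 10 ^ 20 := fun k =>
    (mul_le_mul_of_nonneg_left (hpow k) hK).trans hKθ
  have hpow' : ∀ k : ℕ, θ ^ (k + 1) ≤ 1 / 10 ^ 20 := fun k => (hpow k).trans hθ1
  set L : ℝ := -Real.log θ with hL
  have hexp : ∀ k : ℕ, Real.exp (-(k * L)) = θ ^ k := fun k => by
    rw [hL, mul_neg, neg_neg, Real.exp_nat_mul, Real.exp_log hθ]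
  have hL1 : 1 ≤ L := by
    rw [hL, le_neg, Real.log_le_iff_le_exp hθ]
    have := Real.add_one_le_exp (-1 / 2)
    have e : Real.exp (-1) = Real.exp (-1 / 2) * Real.exp (-1 / 2) := by
      rw [← Real.exp_add]; norm_num
    nlinarith
  have hL2 : L * θ ≤ 1 := by
    have := (abs_lt.1 (Real.abs_log_mul_self_lt θ hθ hθ2)).1
    rw [hL]; linarith
  have he4 : Real.exp (300 * L / 4) * θ ^ 75 = 1 := by
    rw [← hexp, ← Real.exp_add]; push_cast; ring_nf; exact Real.exp_zero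
  have hP := pack (η := θ ^ 90) h0 (pow_le_one₀ hθ.le hθ2) (τ0 := 300 * L)
    (ε := (3200 + 1200 * KK) * θ ^ 54) (by linarith)
    (by
      calc KK * θ ^ 90 * Real.exp (300 * L / 4)
          = KK * θ ^ (14 + 1) * (Real.exp (300 * L / 4) * θ ^ 75) := by ring
        _ ≤ _ := by rw [he4]; linarith [hKpow 14])
    (by
      rw [show -(9 / 10 * (300 * L)) / 5 = -((54 : ℕ) * L) by push_cast; ring, hexp]
      have : θ ^ 90 ≤ θ ^ 54 := pow_le_pow_of_le_one hθ.le hθ2 (by norm_num)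
      nlinarith)
  refine ⟨by linarith [hKpow 89], fun n hn t ht hs => ⟨hP.integrable_prod (by omega) t hs,
    fun hne => ?_⟩⟩
  refine hP.compare (r := θ ^ 45) (κ := 1 / 10 ^ 14) (by positivity) (by ring) (by norm_num)
    (by linarith [hpow' 89]) (by linarith) (by linarith) (by positivity) ?_ ?_ ?_ (by norm_num)
    (by norm_num) ?_ ?_ ?_ hn t ht hs hne
  · linarith [hpow' 53, hKpow 53]
  · calc 8 * (4 * KK) * (θ ^ 90) ^ 2 * (300 * L) * Real.exp (300 * L / 4)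
        = 9600 * (KK * θ ^ (103 + 1)) * (L * θ) * (Real.exp (300 * L / 4) * θ ^ 75) := by ring
      _ ≤ 9600 * (1 / 10 ^ 20) * 1 * 1 := by rw [he4]; gcongr; exact hKpow 103
      _ ≤ 1 := by norm_num
  · calc 2 * (300 * L) * θ ^ 90 = 600 * θ ^ (88 + 1) * (L * θ) := by ring
      _ ≤ 600 * (1 / 10 ^ 20) * 1 := by gcongr; exact (hpow 88).trans hθ1
      _ ≤ 1 := by norm_num
  · calc (3200 + 1200 * KK) * θ ^ 54 = (3200 * θ ^ (8 + 1) + 1200 * (KK * θ ^ (8 + 1))) * θ ^ 45 := by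
          ring
      _ ≤ _ := by gcongr; linarith [hpow' 8, hKpow 8]
  · rw [show -(300 * L) / 3 = -((100 : ℕ) * L) by push_cast; ring, hexp]
    calc θ ^ 100 = θ ^ (9 + 1) * θ ^ 90 := by ring
      _ ≤ _ := by gcongr; linarith [hpow' 9]
  · linarith [hKpow 44]

end Pool.Agent.MP_39fec4_gt
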