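import Pool.Agent.MP_39fec4_gt.Defs
import Pool.Agent.MP_39fec4_gt.PackP
import Pool.Agent.MP_39fec4_gt.Slice

set_option autoImplicit false

namespace Pool.Agent.MP_39fec4_gt

open MeasureTheory Set Filter Topology Module WithLp
open scoped FourierTransform RealInnerProductSpace

theorem section_eq {p : ℝ} (hp : 1 ≤ p) {n : ℕ} (hn : 2 ≤ n) (a : EuclideanSpace ℝ (Fin n))
    (ha : ‖a‖ = 1) : sectionVol p a = ENNReal.ofReal
      ((∫ y : (ℝ ∙ a)ᗮ, ∏ j, Real.exp (-|(y : EuclideanSpace ℝ (Fin n)) j| ^ p)) /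
        Real.Gamma (((n - 1 : ℕ) : ℝ) / p + 1)) := by
  have h₁ : 0 < p := by linarith
  have ha0 : a ≠ 0 := fun h => by simp [h] at ha
  have hrank : finrank ℝ (ℝ ∙ a)ᗮ = n - 1 := by
    have := (ℝ ∙ a).finrank_add_finrank_orthogonal
    rw [finrank_span_singleton ha0, finrank_euclideanSpace_fin] at this
    omega
  have : Nontrivial (ℝ ∙ a)ᗮ := Module.nontrivial_of_finrank_pos (R := ℝ) (by omega)
  have hset : {x : EuclideanSpace ℝ (Fin n) | pNorm p x ≤ 1 ∧ ∑ j, x j * a j = 0} =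
      Subtype.val '' {y : (ℝ ∙ a)ᗮ | pNorm p (y : EuclideanSpace ℝ (Fin n)) ≤ 1} := by
    ext x
    simp only [mem_ofPred_eq, mem_image, Subtype.exists, exists_and_right, exists_eq_right,
      Submodule.mem_orthogonal_singleton_iff_inner_right, PiLp.inner_apply, exists_prop]
    simp [and_comm]
  have htr : (ENNReal.ofReal p).toReal = p := ENNReal.toReal_ofReal h₁.le
  have : Fact (1 ≤ ENNReal.ofReal p) :=
    fact_iff.mpr (ENNReal.ofReal_one ▸ (ENNReal.ofReal_le_ofReal hp))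
  have eq_norm : ∀ x : EuclideanSpace ℝ (Fin n), pNorm p x = ‖toLp (.ofReal p) (ofLp x)‖ :=
    fun x => by simp [pNorm, PiLp.norm_eq_sum (f := toLp (.ofReal p) (ofLp x)) (htr.symm ▸ h₁), htr]
  have g1 : pNorm p ((0 : (ℝ ∙ a)ᗮ) : EuclideanSpace ℝ (Fin n)) = 0 := by simp [eq_norm]
  have g2 : ∀ y : (ℝ ∙ a)ᗮ, pNorm p ((-y : (ℝ ∙ a)ᗮ) : EuclideanSpace ℝ (Fin n)) =
      pNorm p (y : EuclideanSpace ℝ (Fin n)) := fun y => by simp [eq_norm]
  have g3 : ∀ y z : (ℝ ∙ a)ᗮ, pNorm p ((y + z : (ℝ ∙ a)ᗮ) : EuclideanSpace ℝ (Fin n)) ≤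
      pNorm p (y : EuclideanSpace ℝ (Fin n)) + pNorm p (z : EuclideanSpace ℝ (Fin n)) :=
    fun y z => by
      simp only [eq_norm, Submodule.coe_add, ofLp_add, toLp_add]
      exact norm_add_le _ _
  have g4 : ∀ {y : (ℝ ∙ a)ᗮ}, pNorm p (y : EuclideanSpace ℝ (Fin n)) = 0 → y = 0 := fun h => by
    simpa [eq_norm] using h
  have g5 : ∀ (r : ℝ) (y : (ℝ ∙ a)ᗮ), pNorm p ((r • y : (ℝ ∙ a)ᗮ) : EuclideanSpace ℝ (Fin n)) ≤
      |r| * pNorm p (y : EuclideanSpace ℝ (Fin n)) := fun r y => by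
    simp only [eq_norm, Submodule.coe_smul, ofLp_smul, toLp_smul]
    exact norm_smul_le r _
  rw [sectionVol, hset, isometry_subtype_coe.euclideanHausdorffMeasure_image, ← hrank,
    InnerProductSpace.euclideanHausdorffMeasure_eq_volume,
    measure_le_eq_lt volume (g := fun y : (ℝ ∙ a)ᗮ => pNorm p (y : EuclideanSpace ℝ (Fin n)))
      g1 g2 g3 g4 g5 1,
    measure_lt_one_eq_integral_div_gamma volume
      (g := fun y : (ℝ ∙ a)ᗮ => pNorm p (y : EuclideanSpace ℝ (Fin n))) g1 g2 g3 g4 g5 h₁]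
  congr 3
  funext y
  rw [pNorm, ← Real.rpow_mul (by positivity), one_div_mul_cancel h₁.ne', Real.rpow_one,
    ← Finset.sum_neg_distrib, Real.exp_sum]

variable {η : ℝ}

theorem kk_abs (h0 : 0 < η) (t : ℝ) : Real.exp (-|t| ^ (2 + η)) = kk η |t| := by
  rw [kk, Real.rpow_add' (abs_nonneg t) (by linarith), Real.rpow_two]

theorem integral_eq (h0 : 0 < η) (h1 : η ≤ 1) (hK : KK * η ≤ 1 / 1000) {n : ℕ}
    (a : EuclideanSpace ℝ (Fin n)) (ha : ‖a‖ = 1)
    (hi : IntegrableOn (fun s : ℝ => ∏ j, GG η (a j ^ 2 * s ^ 2)) (Ioi 0)) :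
    ∫ y : (ℝ ∙ a)ᗮ, ∏ j, Real.exp (-|(y : EuclideanSpace ℝ (Fin n)) j| ^ (2 + η)) =
      (2 * ZZ η) ^ n / Real.pi * ∫ s in Ioi (0 : ℝ), ∏ j, GG η (a j ^ 2 * s ^ 2) := by
  have hZ : 0 < ZZ η := by linarith [(ZZ_bounds h0 h1 hK).1]
  have hπ : 0 < 2 * Real.pi := by positivity
  set P : ℝ → ℝ := fun s => ∏ j, GG η (a j ^ 2 * s ^ 2) with hP
  have hF : ∀ w : ℝ, 𝓕 (fun x : EuclideanSpace ℝ (Fin n) => ∏ j, ((kk η |x j| : ℝ) : ℂ)) (w • a) =
      (((2 * ZZ η) ^ n * P |2 * Real.pi * w| : ℝ) : ℂ) := fun w => by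
    rw [fourier_prod (fun t => ((kk η |t| : ℝ) : ℂ))]
    simp_rw [fourier_even (int_kk0 h0 h1)]
    rw [← Complex.ofReal_prod, hP]
    congr 1
    rw [← Fin.prod_const, ← Finset.prod_mul_distrib]
    refine Finset.prod_congr rfl fun j _ => ?_
    rw [sq_abs, ← mul_pow, GG, Real.sqrt_sq_eq_abs, gam, cosT_abs, mul_assoc 2 (ZZ η),
      mul_div_cancel₀ _ hZ.ne', cosT]
    simp only [PiLp.smul_apply, smul_eq_mul]
    congr 2; funext x; congr 2; ring
  have iP : Integrable fun w => P |2 * Real.pi * w| :=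
    (integrable_comp_abs' hi).comp_mul_left' hπ.ne'
  have hc := cont_kk h0
  have := slice a ha (F := fun x : EuclideanSpace ℝ (Fin n) => ∏ j, ((kk η |x j| : ℝ) : ℂ))
    (by fun_prop) (C := 3 ^ n) (fun x => by
      rw [← Complex.ofReal_prod, Complex.norm_real, Real.norm_eq_abs,
        abs_of_nonneg (Finset.prod_nonneg fun j _ => (kk_pos _ _).le),
        EuclideanSpace.real_norm_sq_eq, ← Finset.sum_neg_distrib, Real.exp_sum, ← Fin.prod_const,
        ← Finset.prod_mul_distrib]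
      refine Finset.prod_le_prod (fun j _ => (kk_pos _ _).le) fun j _ => ?_
      rcases (abs_nonneg (x j)).eq_or_lt with h | h
      · have : x j = 0 := abs_eq_zero.1 h.symm
        simp [this, kk]
      · simpa [gg] using kk_le h0 h1 h)
    (by simp_rw [hF]; exact (iP.const_mul _).ofReal)
  simp_rw [hF, ← Complex.ofReal_prod] at this
  rw [integral_complex_ofReal, integral_complex_ofReal, Complex.ofReal_inj, integral_const_mul,
    Measure.integral_comp_mul_left (fun s => P |s|), integral_comp_abs] at this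
  simp_rw [kk_abs h0]
  rw [this, abs_of_pos (inv_pos.2 hπ), smul_eq_mul]
  field_simp

theorem main : ∃ p₁ : ℝ, 2 < p₁ ∧ ∀ p : ℝ, 2 < p → p < p₁ → ∀ n : ℕ, 2 ≤ n →
    ∀ a : EuclideanSpace ℝ (Fin n), ‖a‖ = 1 →
      ((∀ b : EuclideanSpace ℝ (Fin n), ‖b‖ = 1 → sectionVol p b ≤ sectionVol p a) ↔
        ∀ j, |a j| = 1 / √n) := by
  obtain ⟨η0, hη0, hη1, H⟩ := compare_small
  refine ⟨2 + η0, by linarith, fun p hp hp1 n hn a ha => ?_⟩
  obtain ⟨η, rfl⟩ : ∃ η, p = 2 + η := ⟨p - 2, by ring⟩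
  have h0 : 0 < η := by linarith
  have h1 : η ≤ 1 := by linarith
  obtain ⟨hK, H⟩ := H η h0 (by linarith)
  have hn0 : (0 : ℝ) < n := by exact_mod_cast (by omega : 0 < n)
  have hZ : 0 < ZZ η := by linarith [(ZZ_bounds h0 h1 hK).1]
  have hΓ : 0 < Real.Gamma (((n - 1 : ℕ) : ℝ) / (2 + η) + 1) :=
    Real.Gamma_pos_of_pos (by positivity)
  set c : ℝ := (2 * ZZ η) ^ n / Real.pi / Real.Gamma (((n - 1 : ℕ) : ℝ) / (2 + η) + 1) with hc
  have hc0 : 0 < c := by have := Real.pi_pos; positivity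
  set J : EuclideanSpace ℝ (Fin n) → ℝ :=
    fun b => ∫ s in Ioi (0 : ℝ), ∏ j, GG η (b j ^ 2 * s ^ 2) with hJ
  set D : ℝ := ∫ s in Ioi (0 : ℝ), GG η (s ^ 2 / n) ^ n with hD
  have hsum : ∀ b : EuclideanSpace ℝ (Fin n), ‖b‖ = 1 → ∑ j, b j ^ 2 = 1 := fun b hb => by
    rw [← EuclideanSpace.real_norm_sq_eq, hb, one_pow]
  have hV : ∀ b : EuclideanSpace ℝ (Fin n), ‖b‖ = 1 →
      sectionVol (2 + η) b = ENNReal.ofReal (c * J b) ∧ 0 ≤ c * J b := fun b hb => by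
    have e := integral_eq h0 h1 hK b hb (H n hn _ (fun j => sq_nonneg (b j)) (hsum b hb)).1
    have e2 : c * J b = (∫ y : (ℝ ∙ b)ᗮ, ∏ j, Real.exp (-|(y : EuclideanSpace ℝ (Fin n)) j| ^
        (2 + η))) / Real.Gamma (((n - 1 : ℕ) : ℝ) / (2 + η) + 1) := by
      rw [e, hc, hJ]; ring
    rw [e2]
    exact ⟨section_eq (by linarith) hn b hb,
      div_nonneg (integral_nonneg fun y => by positivity) hΓ.le⟩
  have hsq : ∀ t : ℝ, |t| = 1 / √n ↔ t ^ 2 = 1 / n := fun t => by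
    rw [← sq_eq_sq₀ (abs_nonneg t) (by positivity), sq_abs, div_pow, Real.sq_sqrt hn0.le, one_pow]
  have hdiag : ∀ b : EuclideanSpace ℝ (Fin n), (∀ j, b j ^ 2 = 1 / n) → J b = D := fun b hb => by
    simp only [hJ, hD, hb, Fin.prod_const, one_div_mul_eq_div]
  have hlt : ∀ b : EuclideanSpace ℝ (Fin n), ‖b‖ = 1 → (∃ j, b j ^ 2 ≠ 1 / n) → J b < D :=
    fun b hb => (H n hn _ (fun j => sq_nonneg (b j)) (hsum b hb)).2
  simp only [hsq]
  constructor
  · intro hmax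
    by_contra hne
    push Not at hne
    let d : EuclideanSpace ℝ (Fin n) := toLp 2 fun _ => 1 / √n
    have hd : ∀ j, d j ^ 2 = 1 / n := fun j => (hsq _).1 (abs_of_pos (by positivity))
    have hd1 : ‖d‖ = 1 := by
      rw [← sq_eq_sq₀ (norm_nonneg _) zero_le_one, EuclideanSpace.real_norm_sq_eq]
      simp only [hd, Finset.sum_const, Finset.card_univ, Fintype.card_fin, nsmul_eq_mul]
      field_simp
    have h2 := hmax d hd1
    rw [(hV d hd1).1, (hV a ha).1, ENNReal.ofReal_le_ofReal_iff (hV a ha).2, hdiag d hd] at h2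
    exact absurd (le_of_mul_le_mul_left h2 hc0) (not_le.2 (hlt a ha hne))
  · intro h b hb
    rw [(hV b hb).1, (hV a ha).1, hdiag a h]
    refine ENNReal.ofReal_le_ofReal (mul_le_mul_of_nonneg_left ?_ hc0.le)
    by_cases hb' : ∀ j, b j ^ 2 = 1 / n
    · exact (hdiag b hb').le
    · push Not at hb'
      exact (hlt b hb hb').le

end Pool.Agent.MP_39fec4_gt
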