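import Pool.Agent.MP_39fec4_gt.BCmp
import Pool.Agent.MP_39fec4_gt.Main

set_option autoImplicit false

namespace Pool.Agent.MP_39fec4_gt.Ball

open MeasureTheory Set Filter Topology Real WithLp

variable {p : ℝ}

/-- The Fourier integral proportional to the volume of the section. -/
noncomputable def JJ (p : ℝ) {n : ℕ} (a : EuclideanSpace ℝ (Fin n)) : ℝ :=
  ∫ s in Ioi (0 : ℝ), ∏ j, ff p (|a j| * s)

theorem vol_le_iff (hp : 2 < p) {n : ℕ} (hn : 2 ≤ n) {a b : EuclideanSpace ℝ (Fin n)}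
    (ha : ‖a‖ = 1) (hb : ‖b‖ = 1) : sectionVol p b ≤ sectionVol p a ↔ JJ p b ≤ JJ p a := by
  have hZ := Zp_pos hp
  have hπ := Real.pi_pos
  have hΓ : 0 < Real.Gamma (((n - 1 : ℕ) : ℝ) / p + 1) := Real.Gamma_pos_of_pos (by positivity)
  rw [section_eq (by linarith) hn a ha, section_eq (by linarith) hn b hb,
    ENNReal.ofReal_le_ofReal_iff (div_nonneg (integral_nonneg fun y => by positivity) hΓ.le),
    div_le_div_iff_of_pos_right hΓ, II_eq hp a ha, II_eq hp b hb,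
    mul_le_mul_iff_right₀ (by positivity)]
  rfl

theorem sum_sq {n : ℕ} {b : EuclideanSpace ℝ (Fin n)} (hb : ‖b‖ = 1) : ∑ j, |b j| ^ 2 = 1 := by
  simp only [sq_abs]
  rw [← EuclideanSpace.real_norm_sq_eq, hb, one_pow]

theorem abs_eq_iff (t : ℝ) : |t| = 1 / √2 ↔ |t| ^ 2 = 1 / 2 := by
  rw [← sq_eq_sq₀ (abs_nonneg t) (by positivity), div_pow, Real.sq_sqrt (by norm_num), one_pow]

theorem JJ_ball (hp : 2 < p) {n : ℕ} {a : EuclideanSpace ℝ (Fin n)} (ha : ‖a‖ = 1) {i j : Fin n}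
    (hij : i ≠ j) (hi : |a i| = 1 / √2) (hj : |a j| = 1 / √2) : JJ p a = √2 * I2 p := by
  have hs := sum_sq ha
  have mj : j ∈ Finset.univ.erase i := Finset.mem_erase.2 ⟨hij.symm, Finset.mem_univ j⟩
  rw [← Finset.add_sum_erase _ _ (Finset.mem_univ i), ← Finset.add_sum_erase _ _ mj,
    (abs_eq_iff _).1 hi, (abs_eq_iff _).1 hj] at hs
  have h0 : ∀ k ∈ (Finset.univ.erase i).erase j, |a k| = 0 := fun k hk => by
    have := (Finset.sum_eq_zero_iff_of_nonneg (s := (Finset.univ.erase i).erase j)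
      (f := fun k => |a k| ^ 2) (fun k _ => sq_nonneg _)).1 (by linarith) k hk
    exact pow_eq_zero_iff two_ne_zero |>.1 this
  have e := integral_scale (fun x => ff p x ^ 2) (α := 1 / √2) (by positivity)
  rw [integral_ff_sq hp, ← I2, div_div_eq_mul_div, div_one, mul_comm] at e
  rw [← e, JJ]
  congr 1; funext s
  rw [← Finset.mul_prod_erase _ _ (Finset.mem_univ i), ← Finset.mul_prod_erase _ _ mj, hi, hj,
    Finset.prod_eq_one fun k hk => by rw [h0 k hk, zero_mul, ff_zero hp]]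
  ring

theorem exists_ball {n : ℕ} (hn : 2 ≤ n) : ∃ d : EuclideanSpace ℝ (Fin n), ‖d‖ = 1 ∧
    ∃ i j, i ≠ j ∧ |d i| = 1 / √2 ∧ |d j| = 1 / √2 := by
  have : Nontrivial (Fin n) := Fin.nontrivial_iff_two_le.2 hn
  obtain ⟨i, j, hij⟩ := exists_pair_ne (Fin n)
  refine ⟨toLp 2 fun k => if k = i ∨ k = j then 1 / √2 else 0, ?_, i, j, hij, ?_, ?_⟩
  · rw [← sq_eq_sq₀ (norm_nonneg _) zero_le_one, EuclideanSpace.real_norm_sq_eq,
      Finset.sum_eq_add_of_mem i j (Finset.mem_univ _) (Finset.mem_univ _) hij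
        fun k _ hk => by simp [hk.1, hk.2]]
    simp
    norm_num
  · simp
  · simp

theorem exists_diag (hp : 2 < p) (hD : 0 < DD (1 / p)) : ∃ n : ℕ, 2 ≤ n ∧
    ∃ d : EuclideanSpace ℝ (Fin n), ‖d‖ = 1 ∧ √2 * I2 p < JJ p d := by
  have k0 := kap2_pos hp
  have hπ := Real.pi_pos
  have sk : 0 < √(kap2 p) := Real.sqrt_pos.2 k0
  have H : √(kap2 p) * I2 p < √π / 2 := not_le.1 fun h => not_le.2 hD ((H_iff hp).2 h)
  set g : ℕ → ℝ → ℝ := fun m s =>
    max 0 (1 + -(kap2 p / 2 * s ^ 2) / ((2 * m + 2 : ℕ) : ℝ)) ^ (2 * m + 2) with hg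
  have cg : ∀ m, Continuous (g m) := fun m => by simp only [hg]; fun_prop
  have g0 : ∀ m s, 0 ≤ g m s := fun m s => by simp only [hg]; positivity
  have g1 : ∀ m s, g m s ≤ Real.exp (-(kap2 p / 2) * s ^ 2) := fun m s => by
    have h0 : (0 : ℝ) < ((2 * m + 2 : ℕ) : ℝ) := by positivity
    have : max 0 (1 + -(kap2 p / 2 * s ^ 2) / ((2 * m + 2 : ℕ) : ℝ)) ≤
        Real.exp (-(kap2 p / 2 * s ^ 2) / ((2 * m + 2 : ℕ) : ℝ)) :=
      max_le (Real.exp_pos _).le (by rw [add_comm]; exact Real.add_one_le_exp _)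
    refine (pow_le_pow_left₀ (le_max_left _ _) this _).trans_eq ?_
    rw [← Real.exp_nat_mul]; congr 1; field_simp
  have iE : IntegrableOn (fun s : ℝ => Real.exp (-(kap2 p / 2) * s ^ 2)) (Ioi 0) :=
    (integrable_exp_neg_mul_sq (by positivity)).integrableOn
  have tm : Tendsto (fun m : ℕ => 2 * m + 2) atTop atTop :=
    tendsto_atTop_mono (fun m => by simp only [id]; omega) tendsto_id
  have lim := tendsto_integral_of_dominated_convergence (μ := volume.restrict (Ioi (0 : ℝ)))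
    (F := g) (f := fun s => Real.exp (-(kap2 p / 2) * s ^ 2)) _
    (fun m => (cg m).aestronglyMeasurable) iE
    (fun m => Eventually.of_forall fun s => by
      rw [Real.norm_eq_abs, abs_of_nonneg (g0 m s)]; exact g1 m s)
    (Eventually.of_forall fun s => by
      have t1 := (Real.tendsto_one_add_div_pow_exp (-(kap2 p / 2 * s ^ 2))).comp tm
      have t2 := ((tendsto_const_div_atTop_nhds_zero_nat
        (-(kap2 p / 2 * s ^ 2))).const_add 1).comp tm
      rw [neg_mul]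
      refine t1.congr' ?_
      filter_upwards [t2.eventually (lt_mem_nhds (show (0 : ℝ) < 1 + 0 by norm_num))] with m hm
      simp only [hg, Function.comp] at hm ⊢
      rw [max_eq_right hm.le])
  have hlt : √2 * I2 p < ∫ s in Ioi (0 : ℝ), Real.exp (-(kap2 p / 2) * s ^ 2) := by
    rw [integral_gaussian_Ioi, div_div_eq_mul_div, Real.sqrt_div (by positivity),
      Real.sqrt_mul hπ.le, div_div, lt_div_iff₀ (by positivity)]
    have : 0 < √2 := by positivity
    nlinarith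
  obtain ⟨m, hm⟩ := (lim.eventually (lt_mem_nhds hlt)).exists
  have h0 : (0 : ℝ) < ((2 * m + 2 : ℕ) : ℝ) := by positivity
  have c0 : 0 < 1 / √((2 * m + 2 : ℕ) : ℝ) := by positivity
  have c2 : (1 / √((2 * m + 2 : ℕ) : ℝ)) ^ 2 = 1 / ((2 * m + 2 : ℕ) : ℝ) := by
    rw [div_pow, Real.sq_sqrt h0.le, one_pow]
  refine ⟨2 * m + 2, by omega, toLp 2 fun _ => 1 / √((2 * m + 2 : ℕ) : ℝ), ?_, hm.trans_le ?_⟩
  · rw [← sq_eq_sq₀ (norm_nonneg _) zero_le_one, EuclideanSpace.real_norm_sq_eq]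
    simp only [c2, Finset.sum_const, Finset.card_univ, Fintype.card_fin, nsmul_eq_mul]
    field_simp
  · refine integral_mono (iE.mono' (cg m).aestronglyMeasurable (Eventually.of_forall fun s => by
      rw [Real.norm_eq_abs, abs_of_nonneg (g0 m s)]; exact g1 m s))
      (int_prod hp Finset.univ _ (Finset.mem_univ (⟨0, by omega⟩ : Fin (2 * m + 2)))
        (abs_pos.2 c0.ne')) fun s => ?_
    simp only [hg, abs_of_pos c0, Fin.prod_const]
    have ev : Even (2 * m + 2) := ⟨m + 1, by ring⟩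
    rw [← ev.pow_abs (ff p _)]
    refine pow_le_pow_left₀ (le_max_left _ _) (max_le (abs_nonneg _) ?_) _
    refine le_trans (le_of_eq ?_) ((ff_lo hp _).trans (le_abs_self _))
    rw [mul_pow, c2]; ring

theorem main : ∃ p₀ : ℝ, 26.26 < p₀ ∧ p₀ < 26.27 ∧
    3 * 4 ^ (1 / p₀) * Real.Gamma (1 + 1 / p₀) ^ 3 = π * Real.Gamma (1 + 3 / p₀) ∧
    ∀ p : ℝ, 2 < p → (p₀ ≤ p ↔ ∀ n : ℕ, 2 ≤ n → ∀ a : EuclideanSpace ℝ (Fin n), ‖a‖ = 1 →
      ((∀ b : EuclideanSpace ℝ (Fin n), ‖b‖ = 1 → sectionVol p b ≤ sectionVol p a) ↔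
        ∃ i j, i ≠ j ∧ |a i| = 1 / √2 ∧ |a j| = 1 / √2)) := by
  obtain ⟨q0, h1, h2, h3, h4⟩ := exists_root
  have q00 : 0 < q0 := lt_trans (by norm_num) h1
  have lo : 26.26 < 1 / q0 := by rwa [lt_one_div (by norm_num) q00]
  refine ⟨1 / q0, lo, by rwa [one_div_lt q00 (by norm_num)], ?_, fun p hp => ?_⟩
  · have e := exp_DD q00
    have g3 : 0 < Real.Gamma (1 + 3 * q0) := Real.Gamma_pos_of_pos (by positivity)
    have := Real.pi_pos
    rw [h3, Real.exp_zero, eq_div_iff (by positivity), one_mul] at e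
    rw [one_div_one_div, show 3 / (1 / q0) = 3 * q0 by field_simp, e]
  have p0 : 0 < p := by linarith
  have h5 : 1 / q0 ≤ p ↔ DD (1 / p) ≤ 0 := by
    rw [h4 (1 / p) (by positivity) (one_div_lt_one_div_of_lt (by norm_num) hp), one_div_le q00 p0]
  constructor
  · intro hle n hn a ha
    have hD := h5.1 hle
    have hlt : ∀ b : EuclideanSpace ℝ (Fin n), ‖b‖ = 1 →
        (¬∃ i j, i ≠ j ∧ |b i| = 1 / √2 ∧ |b j| = 1 / √2) → JJ p b < √2 * I2 p := fun b hb hne =>
      compare (by linarith) hD hn (fun j => |b j|) (fun j => abs_nonneg _) (sum_sq hb)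
        (by simpa only [abs_eq_iff] using hne)
    constructor
    · intro hmax
      by_contra hne
      obtain ⟨d, hd, i, j, hij, hi, hj⟩ := exists_ball hn
      have := (vol_le_iff hp hn ha hd).1 (hmax d hd)
      rw [JJ_ball hp hd hij hi hj] at this
      exact absurd (hlt a ha hne) (not_lt.2 this)
    · rintro ⟨i, j, hij, hi, hj⟩ b hb
      rw [vol_le_iff hp hn ha hb, JJ_ball hp ha hij hi hj]
      by_cases hb' : ∃ i j, i ≠ j ∧ |b i| = 1 / √2 ∧ |b j| = 1 / √2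
      · obtain ⟨i, j, hij, hi, hj⟩ := hb'
        exact (JJ_ball hp hb hij hi hj).le
      · exact (hlt b hb hb').le
  · intro h
    by_contra hlt
    obtain ⟨n, hn, d, hd, hJ⟩ := exists_diag hp (not_le.1 fun hD => hlt (h5.2 hD))
    obtain ⟨a, ha, i, j, hij, hi, hj⟩ := exists_ball hn
    have := (vol_le_iff hp hn ha hd).1 ((h n hn a ha).2 ⟨i, j, hij, hi, hj⟩ d hd)
    rw [JJ_ball hp ha hij hi hj] at this
    exact absurd hJ (not_lt.2 this)

end Pool.Agent.MP_39fec4_gt.Ball
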