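import Pool.Agent.MP_39fec4_gt.BFun

set_option autoImplicit false

namespace Pool.Agent.MP_39fec4_gt.Ball

open MeasureTheory Set Filter Topology Real
open scoped FourierTransform

variable {p : ℝ}

theorem cont_cosT {h : ℝ → ℝ} (hh : IntegrableOn h (Ioi 0)) : Continuous (cosT h) :=
  continuous_of_dominated (bound := fun x => |h x|) (fun s => (int_cos hh s).aestronglyMeasurable)
    (fun s => Eventually.of_forall fun x => by
      rw [Real.norm_eq_abs, abs_mul]
      exact mul_le_of_le_one_right (abs_nonneg _) (Real.abs_cos_le_one _)) hh.abs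
    (Eventually.of_forall fun x => by fun_prop)

theorem int_mul_ff (hp : 2 < p) {h : ℝ → ℝ} (hh : IntegrableOn h (Ioi 0)) (a : ℝ) :
    IntegrableOn (fun s => h s * ff p (a * s)) (Ioi 0) :=
  int_mul_bdd hh ((cont_ff hp).comp (by fun_prop)) fun _ => abs_ff_le hp _

theorem step (hp : 2 < p) {h : ℝ → ℝ} (hh : IntegrableOn h (Ioi 0)) (a x : ℝ) :
    cosT (fun s => h s * ff p (a * s)) x =
      ∫ y in Ioi (0 : ℝ), K p y * ((cosT h (x + a * y) + cosT h (x - a * y)) / 2) := by
  have hi : Integrable (Function.uncurry fun s y : ℝ =>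
      h s * K p y * (Real.cos (a * s * y) * Real.cos (x * s)))
      ((volume.restrict (Ioi (0 : ℝ))).prod (volume.restrict (Ioi (0 : ℝ)))) := by
    refine (Integrable.mul_prod hh (int_K0 hp)).mul_bdd (c := 1)
      (Continuous.aestronglyMeasurable (by fun_prop)) (Eventually.of_forall fun z => ?_)
    rw [Real.norm_eq_abs, abs_mul]
    exact mul_le_one₀ (Real.abs_cos_le_one _) (abs_nonneg _) (Real.abs_cos_le_one _)
  have := integral_integral_swap hi
  convert this using 2
  · rw [cosT]
    congr 1; funext s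
    rw [ff, cosT, ← integral_const_mul, ← integral_mul_const]
    congr 1; funext y; ring
  · funext y
    rw [cosT, cosT, ← integral_add (int_cos hh _) (int_cos hh _), ← integral_div,
      ← integral_const_mul]
    congr 1; funext s
    rw [add_mul, sub_mul, Real.cos_add, Real.cos_sub, show a * y * s = a * s * y by ring]
    ring

theorem sup_step (hp : 2 < p) {h : ℝ → ℝ} (hh : IntegrableOn h (Ioi 0)) {M : ℝ}
    (hM : ∀ x, cosT h x ≤ M) (a x : ℝ) : cosT (fun s => h s * ff p (a * s)) x ≤ M := by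
  have c := cont_cosT hh
  have b : ∀ z, |cosT h z| ≤ ∫ s in Ioi (0 : ℝ), |h s| := abs_cosT_le hh.abs fun _ _ => le_rfl
  rw [step hp hh]
  calc _ ≤ ∫ y in Ioi (0 : ℝ), K p y * M := by
        refine integral_mono ((int_K0 hp).mul_bdd (c := ∫ s in Ioi (0 : ℝ), |h s|)
          (Continuous.aestronglyMeasurable (by fun_prop)) (Eventually.of_forall fun y => ?_))
          ((int_K0 hp).mul_const M) fun y => ?_
        · rw [Real.norm_eq_abs, abs_le]
          have h1 := abs_le.1 (b (x + a * y))
          have h2 := abs_le.1 (b (x - a * y))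
          constructor <;> linarith [h1.1, h1.2, h2.1, h2.2]
        · refine mul_le_mul_of_nonneg_left ?_ (K_pos p y).le
          linarith [hM (x + a * y), hM (x - a * y)]
    _ = M := by rw [integral_mul_const, mom_K0 hp, one_mul]

theorem sup_prod (hp : 2 < p) {ι : Type*} [DecidableEq ι] (T : Finset ι) (a : ι → ℝ) {h : ℝ → ℝ}
    (hh : IntegrableOn h (Ioi 0)) {M : ℝ} (hM : ∀ x, cosT h x ≤ M) :
    IntegrableOn (fun s => h s * ∏ j ∈ T, ff p (a j * s)) (Ioi 0) ∧
      ∀ x, cosT (fun s => h s * ∏ j ∈ T, ff p (a j * s)) x ≤ M := by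
  induction T using Finset.induction_on with
  | empty => simpa using ⟨hh, hM⟩
  | insert j T hj ih =>
    have e : (fun s => h s * ∏ j ∈ insert j T, ff p (a j * s)) =
        fun s => (h s * ∏ j ∈ T, ff p (a j * s)) * ff p (a j * s) := by
      funext s; rw [Finset.prod_insert hj]; ring
    rw [e]
    exact ⟨int_mul_ff hp ih.1 _, sup_step hp ih.1 ih.2 _⟩

theorem int_scale {h : ℝ → ℝ} (hh : IntegrableOn h (Ioi 0)) {α : ℝ} (hα : 0 < α) :
    IntegrableOn (fun s => h (α * s)) (Ioi 0) :=
  (integrableOn_Ioi_comp_mul_left_iff h 0 hα).2 (by simpa using hh)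

theorem integral_scale (h : ℝ → ℝ) {α : ℝ} (hα : 0 < α) :
    ∫ s in Ioi (0 : ℝ), h (α * s) = (∫ s in Ioi (0 : ℝ), h s) / α := by
  rw [integral_comp_mul_left_Ioi h 0 hα, mul_zero, smul_eq_mul]; ring

theorem one_phys (hp : 2 < p) {α : ℝ} (hα : 0 < α) (x : ℝ) :
    cosT (fun s => ff p (α * s)) x = π / (2 * α) * K p (|x| / α) := by
  have := integral_scale (fun t => ff p t * Real.cos (x / α * t)) hα
  rw [← cosT, inversion hp, abs_div, abs_of_pos hα] at this
  rw [cosT, show π / (2 * α) * K p (|x| / α) = π / 2 * K p (|x| / α) / α by ring, ← this]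
  congr 1; funext s
  congr 2; field_simp

theorem rearr {F G : ℝ → ℝ} (hF : Integrable fun y => F |y|) (hG : Continuous G)
    (hb : ∀ y, 0 ≤ y → |G y| ≤ 1) (aF : ∀ x y, 0 ≤ x → x ≤ y → F y ≤ F x)
    (aG : ∀ x y, 0 ≤ x → x ≤ y → G y ≤ G x) (c : ℝ) :
    ∫ y, F |y| * G |y + c| ≤ ∫ y, F |y| * G |y| := by
  set h := c / 2 with hc
  have i : ∀ u v : ℝ, Integrable fun y => F |y + u| * G |y + v| := fun u v =>
    (hF.comp_add_right u).mul_bdd (c := 1) (Continuous.aestronglyMeasurable (by fun_prop))
      (Eventually.of_forall fun y => hb _ (abs_nonneg _))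
  have A := integral_add_right_eq_self (μ := volume) (fun y => F |y| * G |y|) h
  have B := integral_add_right_eq_self (μ := volume) (fun y => F |y| * G |y|) (-h)
  have C : ∫ y, F |y + -h| * G |y + h| = ∫ y, F |y| * G |y + c| := by
    rw [← integral_add_right_eq_self (μ := volume) (fun y => F |y| * G |y + c|) (-h)]
    congr 1; funext y; congr 3; rw [hc]; ring
  have D : ∫ y, F |y + h| * G |y + -h| = ∫ y, F |y + -h| * G |y + h| := by
    rw [← integral_neg_eq_self]
    congr 1; funext y
    rw [← abs_neg (-y + h), ← abs_neg (-y + -h)]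
    congr 3 <;> ring
  have E : 0 ≤ ∫ y, ((F |y + h| * G |y + h| + F |y + -h| * G |y + -h|) -
      (F |y + -h| * G |y + h| + F |y + h| * G |y + -h|)) := by
    refine integral_nonneg fun y => ?_
    rcases le_total |y + h| |y + -h| with h1 | h1
    · have := aF _ _ (abs_nonneg _) h1
      have := aG _ _ (abs_nonneg _) h1
      simp only [Pi.zero_apply]
      nlinarith
    · have := aF _ _ (abs_nonneg _) h1
      have := aG _ _ (abs_nonneg _) h1
      simp only [Pi.zero_apply]
      nlinarith
  have i2 : ∀ u v u' v' : ℝ, Integrable fun y => F |y + u| * G |y + v| + F |y + u'| * G |y + v'| :=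
    fun u v u' v' => (i u v).add (i u' v')
  rw [integral_sub (i2 _ _ _ _) (i2 _ _ _ _), integral_add (i _ _) (i _ _),
    integral_add (i _ _) (i _ _)] at E
  linarith

theorem integral_KK (hp : 2 < p) {r : ℝ} (hr : 0 ≤ r) :
    ∫ y in Ioi (0 : ℝ), K p y * K p (r * y) = (1 + r ^ p) ^ (-(1 / p)) := by
  have hZ := Zp_pos hp
  have hb := bp_pos hp
  have hp0 : 0 < p := by positivity
  have h1 : 0 < 1 + r ^ p := by positivity
  have := integral_rpow_mul_exp_neg_mul_rpow (p := p) (q := 0) hp0 (by norm_num) (mul_pos hb h1)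
  rw [Real.mul_rpow hb.le h1.le, bp, ← Real.rpow_mul hZ.le,
    show p * (-(0 + 1) / p) = -1 by field_simp; ring, Real.rpow_neg_one, zero_add] at this
  have e : Zp p = 1 / p * Real.Gamma (1 / p) := by
    rw [Zp, add_comm, Real.Gamma_add_one (by positivity)]
  rw [mul_assoc, ← e, neg_div] at this
  rw [show (1 + r ^ p) ^ (-(1 / p)) = (Zp p)⁻¹ * (1 + r ^ p) ^ (-(1 / p)) * Zp p by field_simp,
    ← this]
  refine setIntegral_congr_fun measurableSet_Ioi fun y hy => ?_
  have hy : 0 < y := hy
  simp only [K, bp]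
  rw [← Real.exp_add, Real.mul_rpow hr hy.le, Real.rpow_zero, one_mul]
  congr 1; ring

theorem two_phys (hp : 2 < p) {α β : ℝ} (hα : 0 < α) (hβ : 0 < β) (x : ℝ) :
    cosT (fun s => ff p (α * s) * ff p (β * s)) x ≤
      π / (2 * α) * (1 + (β / α) ^ p) ^ (-(1 / p)) := by
  have hπ := Real.pi_pos
  have hr : 0 < β / α := by positivity
  have cK := cont_K hp
  set G : ℝ → ℝ := fun w => K p (β / α * w) with hG
  have iK := integrable_comp_abs' (int_K0 hp)
  have cG : Continuous G := by fun_prop
  have bG : ∀ y, 0 ≤ y → |G y| ≤ 1 := fun y hy => by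
    rw [abs_of_pos (K_pos _ _)]; exact K_le_one hp (by positivity)
  have R := rearr (F := K p) (G := G) iK cG bG (fun x y hx hxy => K_anti hp hx hxy)
    (fun x y hx hxy => K_anti hp (by positivity) (by gcongr))
  have i : ∀ v : ℝ, Integrable fun y => K p |y| * G |y + v| := fun v =>
    iK.mul_bdd (c := 1) (Continuous.aestronglyMeasurable (by fun_prop))
      (Eventually.of_forall fun y => bG _ (abs_nonneg _))
  have e1 := integral_comp_abs (f := fun y => K p y * G y)
  have e2 := integral_comp_abs (f := fun y => K p y * ((G |y + x / β| + G |y + -(x / β)|) / 2))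
  have e3 : ∫ y, K p |y| * ((G |(|y|) + x / β| + G |(|y|) + -(x / β)|) / 2) =
      ((∫ y, K p |y| * G |y + x / β|) + ∫ y, K p |y| * G |y + -(x / β)|) / 2 := by
    rw [← integral_add (i _) (i _), ← integral_div]
    congr 1; funext y
    rcases abs_cases y with h | h
    · rw [h.1]; ring
    · rw [h.1, ← abs_neg (-y + x / β), ← abs_neg (-y + -(x / β)),
        show -(-y + x / β) = y + -(x / β) by ring, show -(-y + -(x / β)) = y + x / β by ring]
      ring
  have e4 : cosT (fun s => ff p (α * s) * ff p (β * s)) x = π / (2 * α) *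
      ∫ y in Ioi (0 : ℝ), K p y * ((G |y + x / β| + G |y + -(x / β)|) / 2) := by
    rw [step hp (int_scale (int_ff hp) hα), ← integral_const_mul]
    congr 1; funext y
    rw [one_phys hp hα, one_phys hp hα, hG]
    have a1 : |x + β * y| / α = β / α * |y + x / β| := by
      rw [show x + β * y = β * (y + x / β) by field_simp; ring, abs_mul, abs_of_pos hβ]; ring
    have a2 : |x - β * y| / α = β / α * |y + -(x / β)| := by
      rw [abs_sub_comm, show β * y - x = β * (y + -(x / β)) by field_simp; ring, abs_mul,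
        abs_of_pos hβ]; ring
    rw [a1, a2]; ring
  rw [e4, ← integral_KK hp hr.le]
  refine mul_le_mul_of_nonneg_left ?_ (by positivity)
  have := R (x / β)
  have := R (-(x / β))
  simp only [hG] at *
  linarith

theorem integral_ff_sq (hp : 2 < p) :
    ∫ s in Ioi (0 : ℝ), ff p s ^ 2 = π / 2 * 2 ^ (-(1 / p)) := by
  have := step hp (int_ff hp) 1 0
  rw [cosT_zero] at this
  simp only [one_mul, zero_add, zero_sub, inversion hp, abs_neg] at this
  have e := integral_KK hp (r := 1) zero_le_one
  simp only [one_mul, Real.one_rpow, one_add_one_eq_two] at e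
  simp only [sq]
  rw [this, ← e, ← integral_const_mul]
  refine setIntegral_congr_fun measurableSet_Ioi fun y hy => ?_
  simp only [abs_of_pos (mem_Ioi.1 hy)]
  ring

theorem abs_prod_le_one {ι : Type*} (T : Finset ι) {y : ι → ℝ} (hy : ∀ j, |y j| ≤ 1) :
    |∏ j ∈ T, y j| ≤ 1 := by
  rw [Finset.abs_prod]
  exact Finset.prod_le_one (fun _ _ => abs_nonneg _) fun j _ => hy j

theorem int_prod (hp : 2 < p) {ι : Type*} [DecidableEq ι] (T : Finset ι) (a : ι → ℝ) {i : ι}
    (hi : i ∈ T) (ha : 0 < a i) : IntegrableOn (fun s => ∏ j ∈ T, ff p (a j * s)) (Ioi 0) := by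
  have c := cont_ff hp
  simp only [← Finset.mul_prod_erase T _ hi]
  exact int_mul_bdd (int_scale (int_ff hp) ha) (by fun_prop)
    fun s => abs_prod_le_one _ fun j => abs_ff_le hp _

theorem II_eq (hp : 2 < p) {n : ℕ} (a : EuclideanSpace ℝ (Fin n)) (ha : ‖a‖ = 1) :
    ∫ y : (ℝ ∙ a)ᗮ, ∏ j, Real.exp (-|(y : EuclideanSpace ℝ (Fin n)) j| ^ p) =
      (2 * Zp p) ^ n / (π * Zp p) * ∫ s in Ioi (0 : ℝ), ∏ j, ff p (|a j| * s) := by
  have hZ := Zp_pos hp
  have hπ : 0 < 2 * π * Zp p := by positivity
  have hp0 : 0 < p := by positivity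
  obtain ⟨i, hi⟩ : ∃ i, a i ≠ 0 := by
    by_contra h
    push Not at h
    have : a = 0 := by ext j; exact h j
    simp [this] at ha
  have hI := int_prod hp Finset.univ (fun j => |a j|) (Finset.mem_univ i) (abs_pos.2 hi)
  have hk : IntegrableOn (fun x : ℝ => Real.exp (-x ^ p)) (Ioi 0) := by
    simpa using integrableOn_rpow_mul_exp_neg_mul_rpow (s := 0) (by norm_num) hp0 one_pos
  have hk2 : ∀ s : ℝ, ∫ x in Ioi (0 : ℝ), Real.exp (-x ^ p) * Real.cos (s * x) =
      Zp p * ff p (Zp p * s) := fun s => by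
    have := integral_scale (fun x => Real.exp (-x ^ p) * Real.cos (s * x)) hZ
    rw [eq_div_iff hZ.ne'] at this
    rw [← this, mul_comm, ff, cosT]
    congr 1
    refine setIntegral_congr_fun measurableSet_Ioi fun y hy => ?_
    have hy : 0 < y := hy
    simp only [K, bp]
    rw [Real.mul_rpow hZ.le hy.le]
    congr 2 <;> ring
  set P : ℝ → ℝ := fun s => ∏ j, ff p (|a j| * s) with hP
  have hF : ∀ w : ℝ, 𝓕 (fun x : EuclideanSpace ℝ (Fin n) =>
      ∏ j, ((Real.exp (-|x j| ^ p) : ℝ) : ℂ)) (w • a) =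
      (((2 * Zp p) ^ n * P |2 * π * Zp p * w| : ℝ) : ℂ) := fun w => by
    rw [fourier_prod (fun t => ((Real.exp (-|t| ^ p) : ℝ) : ℂ))]
    simp_rw [fourier_even hk]
    rw [← Complex.ofReal_prod, hP]
    congr 1
    rw [← Fin.prod_const, ← Finset.prod_mul_distrib]
    refine Finset.prod_congr rfl fun j _ => ?_
    rw [hk2, ← abs_mul, ff_abs, mul_assoc 2 (Zp p)]
    simp only [PiLp.smul_apply, smul_eq_mul]
    congr 3; ring
  have iP : Integrable fun w => P |2 * π * Zp p * w| :=
    (integrable_comp_abs' hI).comp_mul_left' hπ.ne'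
  have c1 : Continuous fun y : ℝ => y ^ p := Real.continuous_rpow_const hp0.le
  have := slice a ha (F := fun x : EuclideanSpace ℝ (Fin n) =>
      ∏ j, ((Real.exp (-|x j| ^ p) : ℝ) : ℂ))
    (by fun_prop (disch := positivity)) (C := Real.exp 1 ^ n) (fun x => by
      rw [← Complex.ofReal_prod, Complex.norm_real, Real.norm_eq_abs,
        abs_of_nonneg (Finset.prod_nonneg fun j _ => (Real.exp_pos _).le),
        EuclideanSpace.real_norm_sq_eq, ← Finset.sum_neg_distrib, Real.exp_sum, ← Fin.prod_const,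
        ← Finset.prod_mul_distrib]
      refine Finset.prod_le_prod (fun j _ => (Real.exp_pos _).le) fun j _ => ?_
      rw [← Real.exp_add, Real.exp_le_exp, ← sq_abs (x j)]
      have h0 := abs_nonneg (x j)
      rcases le_total |x j| 1 with h | h
      · have : 0 ≤ |x j| ^ p := by positivity
        nlinarith
      · have := Real.rpow_le_rpow_of_exponent_le h hp.le
        rw [Real.rpow_two] at this
        linarith)
    (by simp_rw [hF]; exact (iP.const_mul _).ofReal)
  simp_rw [hF, ← Complex.ofReal_prod] at this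
  rw [integral_complex_ofReal, integral_complex_ofReal, Complex.ofReal_inj, integral_const_mul,
    Measure.integral_comp_mul_left (fun s => P |s|), integral_comp_abs] at this
  rw [this, abs_of_pos (inv_pos.2 hπ), smul_eq_mul]
  field_simp

end Pool.Agent.MP_39fec4_gt.Ball
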