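import Pool.Agent.MP_39fec4_gt.Trig

set_option autoImplicit false

namespace Pool.Agent.MP_39fec4_gt.Ball

open MeasureTheory Set Filter Topology Real

/-- The comparison function of the method of Nazarov and Podkorytov, with crossing point 1/4. -/
noncomputable def Phi (θ y : ℝ) : ℝ := y ^ (θ + 2) - Real.exp (-(θ * Real.log 4)) * y ^ 2

variable {θ : ℝ}

theorem Phi_eq {y : ℝ} (hy : 0 < y) : Phi θ y =
    Real.exp (-(θ * Real.log 4)) * y ^ 2 * (Real.exp (θ * Real.log (4 * y)) - 1) := by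
  rw [Phi, Real.rpow_add hy, Real.rpow_two, Real.rpow_def_of_pos hy,
    Real.log_mul (by norm_num) hy.ne', mul_sub, mul_one, mul_right_comm, ← Real.exp_add]
  congr 3; ring

theorem Phi_nonpos (hθ : 0 ≤ θ) {y : ℝ} (h0 : 0 ≤ y) (h1 : y ≤ 1 / 4) : Phi θ y ≤ 0 := by
  rcases h0.eq_or_lt with rfl | h0
  · simp [Phi, Real.zero_rpow (by linarith : θ + 2 ≠ 0)]
  rw [Phi_eq h0]
  refine mul_nonpos_of_nonneg_of_nonpos (by positivity) (sub_nonpos.2 (Real.exp_le_one_iff.2 ?_))
  exact mul_nonpos_of_nonneg_of_nonpos hθ (Real.log_nonpos (by positivity) (by linarith))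

theorem Phi_ge {y : ℝ} (hy : 0 < y) :
    θ * Real.exp (-(θ * Real.log 4)) * (y ^ 2 * Real.log (4 * y)) ≤ Phi θ y := by
  rw [Phi_eq hy]
  have := Real.add_one_le_exp (θ * Real.log (4 * y))
  have h : 0 < Real.exp (-(θ * Real.log 4)) * y ^ 2 := by positivity
  nlinarith

theorem Phi_diff (hθ : 0 ≤ θ) {z w : ℝ} (hz : 1 / 4 ≤ z) (hw : z ≤ w) :
    θ * Real.exp (-(θ * Real.log 4)) * ((w - z) * (4.386 * z - 1)) ≤ Phi θ w - Phi θ z := by
  have z0 : 0 < z := by linarith
  have w0 : 0 < w := by linarith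
  rw [Phi_eq z0, Phi_eq w0]
  set c := Real.exp (-(θ * Real.log 4)) with hc
  have c0 : 0 < c := Real.exp_pos _
  set L := Real.log (4 * z) with hL
  have L0 : 0 ≤ L := Real.log_nonneg (by linarith)
  set M := Real.log (w / z) with hM
  have M0 : 0 ≤ M := Real.log_nonneg (by rw [le_div_iff₀ z0]; linarith)
  have e : Real.log (4 * w) = L + M := by
    rw [hL, hM, ← Real.log_mul (by positivity) (by positivity)]; congr 1; field_simp
  have hM1 : w - z ≤ w * M := by
    have := Real.one_sub_inv_le_log_of_pos (x := w / z) (by positivity)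
    rw [inv_div, ← hM] at this
    have h2 := mul_le_mul_of_nonneg_left this w0.le
    rwa [mul_sub, mul_one, mul_div_cancel₀ _ w0.ne'] at h2
  have hL1 : 4.386 * z - 1 ≤ z * (1 + 2 * L) := by
    have h1 := Real.one_sub_inv_le_log_of_pos (x := 2 * z) (by positivity)
    have h2 : L = Real.log 2 + Real.log (2 * z) := by
      rw [hL, ← Real.log_mul (by norm_num) (by positivity)]; congr 1; ring
    have h3 := mul_le_mul_of_nonneg_left h1 (by positivity : 0 ≤ 2 * z)
    rw [mul_sub, mul_inv_cancel₀ (by positivity)] at h3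
    have := Real.log_two_gt_d9
    rw [h2]; nlinarith
  rw [e, mul_add, Real.exp_add]
  have a1 := Real.add_one_le_exp (θ * L)
  have a2 := Real.add_one_le_exp (θ * M)
  set A := Real.exp (θ * L)
  set B := Real.exp (θ * M)
  have hθL : 0 ≤ θ * L := by positivity
  have hθM : 0 ≤ θ * M := by positivity
  have b1 : (A - 1) + θ * M ≤ A * B - 1 := by nlinarith
  have b2 : (w ^ 2 - z ^ 2) * (θ * L) + w ^ 2 * (θ * M) ≤ w ^ 2 * (A * B - 1) - z ^ 2 * (A - 1) := by
    have : 0 ≤ w ^ 2 - z ^ 2 := by nlinarith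
    nlinarith [mul_le_mul_of_nonneg_left b1 (sq_nonneg w),
      mul_le_mul_of_nonneg_left (show θ * L ≤ A - 1 by linarith) this]
  have b3 : (w - z) * (4.386 * z - 1) ≤ (w ^ 2 - z ^ 2) * L + w ^ 2 * M := by
    have d0 : 0 ≤ w - z := by linarith
    have h1 := mul_le_mul_of_nonneg_left hL1 d0
    have h2 := mul_le_mul_of_nonneg_left hM1 w0.le
    have h3 : 0 ≤ (w - z) * (w - z) * L := by positivity
    have h4 : 0 ≤ (w - z) * (w - z) := by positivity
    nlinarith
  have b4 := mul_le_mul_of_nonneg_left b3 hθ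
  have b5 : θ * ((w - z) * (4.386 * z - 1)) ≤ w ^ 2 * (A * B - 1) - z ^ 2 * (A - 1) := by nlinarith
  nlinarith [mul_le_mul_of_nonneg_left b5 c0.le]

theorem Phi_mono (hθ : 0 ≤ θ) {y z : ℝ} (h0 : 0 ≤ y) (hy : y ≤ z) (hz : 1 / 4 ≤ z) :
    Phi θ y ≤ Phi θ z := by
  have key : ∀ a b : ℝ, 1 / 4 ≤ a → a ≤ b → Phi θ a ≤ Phi θ b := fun a b ha hab => by
    have := Phi_diff hθ ha hab
    have h : 0 ≤ θ * Real.exp (-(θ * Real.log 4)) * ((b - a) * (4.386 * a - 1)) :=
      mul_nonneg (by positivity) (mul_nonneg (by linarith) (by linarith))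
    linarith
  rcases le_total y (1 / 4) with h | h
  · have h1 := Phi_nonpos hθ h0 h
    have h2 := key _ _ le_rfl hz
    have h3 := Phi_ge (θ := θ) (y := 1 / 4) (by norm_num)
    norm_num at h3 h2
    linarith
  · exact key _ _ h hy

theorem exp_neg_le2 {w : ℝ} (hw : 0 ≤ w) : Real.exp (-w) ≤ 1 - w + w ^ 2 / 2 := by
  have := nonneg_of_deriv (f := fun w => 1 - w + w ^ 2 / 2 - Real.exp (-w))
    (f' := fun w => Real.exp (-w) - (1 - w)) (fun x => by
      have := ((((hasDerivAt_id x).const_sub 1).add ((hasDerivAt_pow 2 x).div_const 2))).sub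
        (hasDerivAt_neg x).exp
      refine this.congr_deriv ?_
      simp; ring) (by simp) (fun x _ => by linarith [Real.add_one_le_exp (-x)]) hw
  simpa using this

theorem exp_neg_ge3 {w : ℝ} (hw : 0 ≤ w) : 1 - w + w ^ 2 / 2 - w ^ 3 / 6 ≤ Real.exp (-w) := by
  have := nonneg_of_deriv (f := fun w => Real.exp (-w) - (1 - w + w ^ 2 / 2 - w ^ 3 / 6))
    (f' := fun w => 1 - w + w ^ 2 / 2 - Real.exp (-w)) (fun x => by
      have := (hasDerivAt_neg x).exp.sub (((((hasDerivAt_id x).const_sub 1).add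
        ((hasDerivAt_pow 2 x).div_const 2))).sub ((hasDerivAt_pow 3 x).div_const 6))
      refine this.congr_deriv ?_
      simp; ring) (by simp) (fun x hx => by linarith [exp_neg_le2 hx.le]) hw
  simpa using this

/-- The quartic upper bound. -/
noncomputable def P4 (t : ℝ) : ℝ := 1 - t ^ 2 / 2 + 1.82 * t ^ 4 / 24

theorem gauss_sub_P4 (t : ℝ) : 1.18 * t ^ 4 / 24 - t ^ 6 / 48 ≤ Real.exp (-(t ^ 2 / 2)) - P4 t := by
  have := exp_neg_ge3 (w := t ^ 2 / 2) (by positivity)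
  unfold P4; nlinarith

/-- Gain near the origin. -/
noncomputable def l1 (t : ℝ) : ℝ := (1.18 * t ^ 4 / 24 - t ^ 6 / 48) * (4.386 * P4 t - 1)

/-- The point where the Gaussian equals 1/4. -/
noncomputable def t2 : ℝ := √(2 * Real.log 4)

/-- Loss in the tail. -/
noncomputable def l2 (t : ℝ) : ℝ := t / t2 * ((t ^ 2 - t2 ^ 2) * Real.exp (-t ^ 2) / 2)

theorem log_four : Real.log 4 = 2 * Real.log 2 := by
  rw [show (4 : ℝ) = 2 ^ 2 by norm_num, Real.log_pow]; norm_num

theorem t2_sq : t2 ^ 2 = 2 * Real.log 4 := Real.sq_sqrt (by positivity)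

theorem t2_ge : 1.665 ≤ t2 := by
  refine Real.le_sqrt_of_sq_le ?_
  rw [log_four]; linarith [Real.log_two_gt_d9]

theorem l2_integral : IntegrableOn l2 (Ioi t2) ∧ ∫ t in Ioi t2, l2 t = 1 / (64 * t2) := by
  have h0 : 0 < t2 := by linarith [t2_ge]
  have hd : ∀ t ∈ Ici t2, HasDerivAt
      (fun t : ℝ => -((t ^ 2 - t2 ^ 2 + 1) * Real.exp (-t ^ 2)) / (4 * t2)) (l2 t) t := fun t _ => by
    have := (((((hasDerivAt_pow 2 t).sub_const (t2 ^ 2)).add_const 1).mul
      (hasDerivAt_pow 2 t).neg.exp).neg).div_const (4 * t2)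
    refine this.congr_deriv ?_
    simp only [l2, Pi.neg_apply]
    field_simp
    norm_num; ring
  have hp : ∀ t ∈ Ioi t2, 0 ≤ l2 t := fun t ht => by
    have ht : t2 < t := ht
    have : 0 ≤ t ^ 2 - t2 ^ 2 := by nlinarith
    have : 0 < t := by linarith
    unfold l2; positivity
  have ht : Tendsto (fun t : ℝ => -((t ^ 2 - t2 ^ 2 + 1) * Real.exp (-t ^ 2)) / (4 * t2)) atTop
      (𝓝 0) := by
    have a1 := (Real.tendsto_pow_mul_exp_neg_atTop_nhds_zero 1).comp
      (tendsto_pow_atTop (α := ℝ) (two_ne_zero))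
    have a0 := (Real.tendsto_pow_mul_exp_neg_atTop_nhds_zero 0).comp
      (tendsto_pow_atTop (α := ℝ) (two_ne_zero))
    have := ((a1.add (a0.const_mul (1 - t2 ^ 2))).neg).div_const (4 * t2)
    simp only [mul_zero, add_zero, neg_zero, zero_div] at this
    refine this.congr fun t => ?_
    simp only [Function.comp]; ring
  refine ⟨integrableOn_Ioi_deriv_of_nonneg' hd hp ht, ?_⟩
  rw [integral_Ioi_of_hasDerivAt_of_nonneg' hd hp ht]
  have : Real.exp (-t2 ^ 2) = 1 / 16 := by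
    rw [t2_sq, Real.exp_neg, show 2 * Real.log 4 = Real.log 16 by
      rw [show (16 : ℝ) = 4 ^ 2 by norm_num, Real.log_pow]; norm_num, Real.exp_log (by norm_num)]
    norm_num
  rw [this]; field_simp; ring

theorem l1_integral : 0.02799 ≤ ∫ t in Ioc (0 : ℝ) (3 / 2), l1 t := by
  rw [← intervalIntegral.integral_of_le (by norm_num)]
  have e : l1 = fun t => 99887 / 600000 * t ^ 4 + -(214037 / 1200000) * t ^ 6 +
      14889739 / 240000000 * t ^ 8 + -(66521 / 9600000) * t ^ 10 := by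
    funext t; unfold l1 P4; ring
  have i : ∀ (c : ℝ) (n : ℕ), IntervalIntegrable (fun t : ℝ => c * t ^ n) volume 0 (3 / 2) :=
    fun c n => Continuous.intervalIntegrable (by fun_prop) _ _
  rw [e, intervalIntegral.integral_add (((i _ _).add (i _ _)).add (i _ _)) (i _ _),
    intervalIntegral.integral_add ((i _ _).add (i _ _)) (i _ _),
    intervalIntegral.integral_add (i _ _) (i _ _)]
  simp only [intervalIntegral.integral_const_mul, integral_pow]
  norm_num

theorem point (hθ : 0 ≤ θ) {y t : ℝ} (ht : 0 < t) (lo : 1 - t ^ 2 / 2 ≤ y) (hi : y ≤ P4 t)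
    (far : 30 / 13 ≤ t ^ 2 → |y| ≤ 1 / 4) :
    θ * Real.exp (-(θ * Real.log 4)) * ((Ioc (0 : ℝ) (3 / 2)).indicator l1 t -
      (Ioi t2).indicator l2 t) ≤ Phi θ (Real.exp (-(t ^ 2 / 2))) - Phi θ |y| := by
  have h0 : 0 < t2 := by linarith [t2_ge]
  have c0 : 0 ≤ θ * Real.exp (-(θ * Real.log 4)) := by positivity
  have hl2 : (t ^ 2 - t2 ^ 2) * Real.exp (-t ^ 2) / 2 ≤ (Ioi t2).indicator l2 t ∧
      0 ≤ (Ioi t2).indicator l2 t := by
    have e0 := Real.exp_pos (-t ^ 2)
    by_cases h : t ∈ Ioi t2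
    · rw [indicator_of_mem h]
      have h : t2 < t := h
      have h1 : 0 ≤ (t ^ 2 - t2 ^ 2) * Real.exp (-t ^ 2) / 2 := by
        have : 0 ≤ t ^ 2 - t2 ^ 2 := by nlinarith
        positivity
      have h2 : 1 ≤ t / t2 := by rw [le_div_iff₀ h0]; linarith
      unfold l2
      constructor <;> nlinarith
    · rw [indicator_of_notMem h]
      have h : t ≤ t2 := not_lt.1 h
      have : t ^ 2 - t2 ^ 2 ≤ 0 := by nlinarith
      exact ⟨by nlinarith, le_rfl⟩
  rcases le_total (t ^ 2) (30 / 13) with h | h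
  · have hz : 1 / 4 ≤ P4 t := by unfold P4; nlinarith
    have h3 : 0 ≤ 1.18 * t ^ 4 / 24 - t ^ 6 / 48 := by nlinarith [pow_pos ht 4]
    have hg := gauss_sub_P4 t
    have a1 := Phi_diff hθ hz (w := Real.exp (-(t ^ 2 / 2))) (by linarith)
    have a2 := Phi_mono hθ (abs_nonneg y) (abs_le.2 ⟨by linarith, hi⟩) hz
    have a3 : 0 ≤ 4.386 * P4 t - 1 := by linarith
    have a4 : l1 t ≤ (Real.exp (-(t ^ 2 / 2)) - P4 t) * (4.386 * P4 t - 1) :=
      mul_le_mul_of_nonneg_right hg a3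
    have a5 : (Ioc (0 : ℝ) (3 / 2)).indicator l1 t ≤ l1 t :=
      indicator_apply_le' (fun _ => le_rfl) fun _ => mul_nonneg h3 a3
    have a6 := mul_le_mul_of_nonneg_left
      (show (Ioc (0 : ℝ) (3 / 2)).indicator l1 t - (Ioi t2).indicator l2 t ≤
        (Real.exp (-(t ^ 2 / 2)) - P4 t) * (4.386 * P4 t - 1) by linarith [hl2.2]) c0
    linarith
  · have a1 := Phi_nonpos hθ (abs_nonneg y) (far h)
    have a2 := Phi_ge (θ := θ) (Real.exp_pos (-(t ^ 2 / 2)))
    rw [Real.log_mul (by norm_num) (Real.exp_pos _).ne', Real.log_exp, ← Real.exp_nat_mul] at a2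
    rw [indicator_of_notMem (fun hh => by nlinarith [hh.2])]
    have a3 : 0 - (Ioi t2).indicator l2 t ≤
        Real.exp (((2 : ℕ) : ℝ) * -(t ^ 2 / 2)) * (Real.log 4 + -(t ^ 2 / 2)) := by
      rw [show ((2 : ℕ) : ℝ) * -(t ^ 2 / 2) = -t ^ 2 by push_cast; ring]
      have := hl2.1
      rw [t2_sq] at this
      linarith
    have := mul_le_mul_of_nonneg_left a3 c0
    linarith

theorem int_abs_rpow {F : ℝ → ℝ} (hc : Continuous F) (hb : ∀ t, |F t| ≤ 1)
    (i2 : IntegrableOn (fun t => F t ^ 2) (Ioi 0)) {u : ℝ} (hu : 2 ≤ u) :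
    IntegrableOn (fun t => |F t| ^ u) (Ioi 0) := by
  have c : Continuous fun t => |F t| ^ u := hc.abs.rpow_const fun _ => Or.inr (by linarith)
  refine i2.mono' c.aestronglyMeasurable (Eventually.of_forall fun t => ?_)
  rw [Real.norm_eq_abs, abs_of_nonneg (by positivity), ← sq_abs, ← Real.rpow_two]
  exact Real.rpow_le_rpow_of_exponent_ge' (abs_nonneg _) (hb t) (by norm_num) hu

theorem psi_core {F : ℝ → ℝ} (hc : Continuous F) (hb : ∀ t, |F t| ≤ 1)
    (i2 : IntegrableOn (fun t => F t ^ 2) (Ioi 0)) (lo : ∀ t, 1 - t ^ 2 / 2 ≤ F t)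
    (hi : ∀ t, F t ≤ P4 t) (far : ∀ t, 0 < t → 30 / 13 ≤ t ^ 2 → |F t| ≤ 1 / 4)
    (H : √π / 2 ≤ ∫ t in Ioi (0 : ℝ), F t ^ 2) {u : ℝ} (hu : 2 ≤ u) :
    √u * ∫ t in Ioi (0 : ℝ), |F t| ^ u ≤ √2 * (∫ t in Ioi (0 : ℝ), F t ^ 2) -
      √u * ((u - 2) * Real.exp (-((u - 2) * Real.log 4)) * 0.0186) := by
  obtain ⟨θ, rfl⟩ : ∃ θ, u = θ + 2 := ⟨u - 2, by ring⟩
  have hθ : 0 ≤ θ := by linarith
  rw [add_sub_cancel_right]
  set c := Real.exp (-(θ * Real.log 4)) with hcd
  have c0 : 0 < c := Real.exp_pos _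
  have h0 : 0 < t2 := by linarith [t2_ge]
  have iu := int_abs_rpow hc hb i2 hu
  have eg : ∀ t : ℝ, Phi θ (Real.exp (-(t ^ 2 / 2))) =
      Real.exp (-((θ + 2) / 2) * t ^ 2) - c * Real.exp (-1 * t ^ 2) := fun t => by
    rw [Phi, ← Real.exp_mul, ← Real.exp_nat_mul,
      show -(t ^ 2 / 2) * (θ + 2) = -((θ + 2) / 2) * t ^ 2 by ring,
      show ((2 : ℕ) : ℝ) * -(t ^ 2 / 2) = -1 * t ^ 2 by push_cast; ring]
  have g1 : IntegrableOn (fun t : ℝ => Real.exp (-((θ + 2) / 2) * t ^ 2)) (Ioi 0) :=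
    (integrable_exp_neg_mul_sq (by positivity)).integrableOn
  have g2 : IntegrableOn (fun t : ℝ => c * Real.exp (-1 * t ^ 2)) (Ioi 0) :=
    ((integrable_exp_neg_mul_sq one_pos).const_mul c).integrableOn
  have g3 : IntegrableOn (fun t : ℝ => c * F t ^ 2) (Ioi 0) := i2.const_mul c
  have j1 : IntegrableOn ((Ioc (0 : ℝ) (3 / 2)).indicator l1) (Ioi 0) := by
    refine Integrable.integrableOn ((integrable_indicator_iff measurableSet_Ioc).2 ?_)
    have : Continuous l1 := by unfold l1 P4; fun_prop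
    exact this.integrableOn_Ioc
  have j2 : IntegrableOn ((Ioi t2).indicator l2) (Ioi 0) :=
    Integrable.integrableOn ((integrable_indicator_iff measurableSet_Ioi).2 l2_integral.1)
  have k1 : IntegrableOn (fun t : ℝ => Real.exp (-((θ + 2) / 2) * t ^ 2) -
      c * Real.exp (-1 * t ^ 2)) (Ioi 0) := g1.sub g2
  have k2 : IntegrableOn (fun t : ℝ => |F t| ^ (θ + 2) - c * F t ^ 2) (Ioi 0) := iu.sub g3
  have main := setIntegral_mono_on ((j1.sub j2).const_mul (θ * c)) (k1.sub k2) measurableSet_Ioi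
    fun t ht => by
      have := point hθ ht (lo t) (hi t) (far t ht)
      rw [eg, Phi, sq_abs] at this
      exact this
  simp only [Pi.sub_apply] at main
  rw [integral_const_mul, integral_sub j1 j2, integral_sub k1 k2, integral_sub g1 g2,
    integral_sub iu g3, integral_const_mul, integral_const_mul, integral_gaussian_Ioi,
    integral_gaussian_Ioi, setIntegral_indicator measurableSet_Ioc,
    setIntegral_indicator measurableSet_Ioi, inter_eq_right.2 Ioc_subset_Ioi_self,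
    inter_eq_right.2 (Ioi_subset_Ioi h0.le), l2_integral.2, div_one] at main
  have d1 := l1_integral
  have d2 : 1 / (64 * t2) ≤ 1 / (64 * 1.665) :=
    one_div_le_one_div_of_le (by norm_num) (by linarith [t2_ge])
  have d3 : θ * c * 0.0186 ≤ θ * c * ((∫ t in Ioc (0 : ℝ) (3 / 2), l1 t) - 1 / (64 * t2)) :=
    mul_le_mul_of_nonneg_left (by norm_num at d1 d2 ⊢; linarith) (by positivity)
  have su : 0 < √(θ + 2) := Real.sqrt_pos.2 (by positivity)
  have e1 : √(θ + 2) * (√(π / ((θ + 2) / 2)) / 2) = √2 * (√π / 2) := by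
    rw [← mul_div_assoc, ← mul_div_assoc, ← Real.sqrt_mul (by positivity),
      ← Real.sqrt_mul (by positivity)]
    congr 2; field_simp
  have e2 : √(θ + 2) * c ≤ √2 := by
    refine Real.le_sqrt_of_sq_le ?_
    rw [mul_pow, Real.sq_sqrt (by positivity), hcd, ← Real.exp_nat_mul]
    have a := Real.add_one_le_exp (2 * (θ * Real.log 4))
    have b : Real.exp (((2 : ℕ) : ℝ) * -(θ * Real.log 4)) * Real.exp (2 * (θ * Real.log 4)) = 1 := by
      rw [← Real.exp_add]; simp
    have l4 : 1 ≤ Real.log 4 := by rw [log_four]; linarith [Real.log_two_gt_d9]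
    have := Real.exp_pos (((2 : ℕ) : ℝ) * -(θ * Real.log 4))
    have a2 : θ + 2 ≤ 2 * Real.exp (2 * (θ * Real.log 4)) := by nlinarith
    nlinarith
  have f1 := mul_le_mul_of_nonneg_left (d3.trans main) su.le
  have f2 := mul_le_mul_of_nonneg_right e2 (sub_nonneg.2 H)
  nlinarith

end Pool.Agent.MP_39fec4_gt.Ball
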