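import Pool.Agent.MP_39fec4_gt.BPack

set_option autoImplicit false

namespace Pool.Agent.MP_39fec4_gt.Ball

open MeasureTheory Set Filter Topology Real

theorem cs {h P Q : ℝ → ℝ} (ih : IntegrableOn h (Ioi 0)) (iP : IntegrableOn P (Ioi 0))
    (iQ : IntegrableOn Q (Ioi 0)) (P0 : ∀ s, 0 ≤ P s) (Q0 : ∀ s, 0 ≤ Q s)
    (pt : ∀ s, 0 < s → h s ≤ 0 ∨ h s ^ 2 ≤ P s * Q s) {A B C : ℝ}
    (hA : ∫ s in Ioi (0 : ℝ), P s ≤ A) (hB : ∫ s in Ioi (0 : ℝ), Q s ≤ B) (hC : 0 < C)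
    (hB0 : 0 < B) (hAB : A * B < C ^ 2) : ∫ s in Ioi (0 : ℝ), h s < C := by
  set l := B / C with hl
  have l0 : 0 < l := by positivity
  have i2 : IntegrableOn (fun s => (l * P s + Q s / l) / 2) (Ioi 0) :=
    ((iP.const_mul l).add (iQ.div_const l)).div_const 2
  have := setIntegral_mono_on ih i2 measurableSet_Ioi fun s hs => by
    have a := P0 s
    have b := Q0 s
    have c : 0 ≤ (l * P s + Q s / l) / 2 := by positivity
    rcases pt s hs with h1 | h1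
    · exact h1.trans c
    · refine (le_abs_self _).trans (abs_le_of_sq_le_sq' ?_ c).2
      have e : l * P s * (Q s / l) = P s * Q s := by field_simp
      rw [sq_abs]
      nlinarith [sq_nonneg (l * P s - Q s / l)]
  rw [integral_div, integral_add (iP.const_mul l) (iQ.div_const l), integral_const_mul,
    integral_div] at this
  have a1 : l * ∫ s in Ioi (0 : ℝ), P s ≤ l * A := by gcongr
  have a2 : (∫ s in Ioi (0 : ℝ), Q s) / l ≤ B / l := by gcongr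
  have a3 : B / l = C := by rw [hl]; field_simp
  have a4 : l * A < C := by
    rw [hl, div_mul_eq_mul_div, div_lt_iff₀ hC]; linarith
  linarith

variable {f : ℝ → ℝ} {κ I : ℝ}

theorem Pk.int_two (h : Pk f κ I) {α : ℝ} (hα : 0 < α) {ψ : ℝ → ℝ} (hc : Continuous ψ)
    (hb : ∀ s, |ψ s| ≤ 1) : IntegrableOn (fun s => f (α * s) * ψ s) (Ioi 0) :=
  int_mul_bdd (int_scale h.int hα) hc hb

theorem window_fin {α b I : ℝ} (hα : 0 < α) (hb : 0 < b) (hI : 0 < I) (hs : α ^ 2 + b ^ 2 = 1)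
    (h1 : 1 / 2 ≤ α ^ 2) (h2 : α ^ 2 ≤ 0.528) :
    (1 - 0.0016) * I ^ 2 / (α * b) < (√2 * I) ^ 2 := by
  have e : (2 * (α * b)) ^ 2 = 1 - (2 * α ^ 2 - 1) ^ 2 := by
    have : b ^ 2 = 1 - α ^ 2 := by linarith
    rw [mul_pow, mul_pow, this]; ring
  have a : (1 - 0.0016) < 2 * (α * b) := by
    refine lt_of_pow_lt_pow_left₀ 2 (by positivity) ?_
    rw [e]; nlinarith
  rw [mul_pow, Real.sq_sqrt (by norm_num), div_lt_iff₀ (by positivity)]
  nlinarith [pow_pos hI 2]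

theorem Pk.caseR2 (h : Pk f κ I) {ι : Type*} (T : Finset ι) (a : ι → ℝ) (ha : ∀ j, 0 ≤ a j)
    {α b : ℝ} (hα : 0 < α) (hb : 0 < b) (hs : ∑ j ∈ T, a j ^ 2 = b ^ 2) (hab : α ^ 2 + b ^ 2 = 1)
    (h1 : 1 / 2 ≤ α ^ 2) (h2 : α ^ 2 ≤ 0.528) {k : ι} (hk : k ∈ T) (k1 : 0.55 * b ^ 2 ≤ a k ^ 2)
    (k2 : a k ^ 2 ≤ 0.94 * b ^ 2) :
    ∫ s in Ioi (0 : ℝ), f (α * s) * ∏ j ∈ T, f (a j * s) < √2 * I := by
  have hc := h.cont
  have I0 := h.I_pos
  obtain ⟨i1, -, i3⟩ := h.rest_sq T a ha hb hs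
  refine cs (h.int_two hα (by fun_prop) fun s => abs_prod_le_one _ fun j => h.bd _)
    (int_scale h.int_sq hα) i1 (fun s => sq_nonneg _) (fun s => sq_nonneg _)
    (fun s _ => Or.inr (mul_pow _ _ _).le) (A := I / α)
    (by rw [integral_scale (fun x => f x ^ 2) hα, h.Ieq]) (i3 k hk k1 k2) (by positivity)
    (by positivity) ?_
  refine lt_of_eq_of_lt ?_ (window_fin hα hb I0 hab h1 h2)
  field_simp

theorem Pk.caseR3 (h : Pk f κ I) {ι : Type*} (T : Finset ι) (a : ι → ℝ) (ha : ∀ j, 0 ≤ a j)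
    {α b : ℝ} (hα : 0 < α) (hb : 0 < b) (hs : ∑ j ∈ T, a j ^ 2 = b ^ 2) (hab : α ^ 2 + b ^ 2 = 1)
    (h1 : 1 / 2 ≤ α ^ 2) (h2 : α ^ 2 ≤ 0.528) (k1 : ∀ j ∈ T, a j ^ 2 ≤ 0.55 * b ^ 2) :
    ∫ s in Ioi (0 : ℝ), f (α * s) * ∏ j ∈ T, f (a j * s) < √2 * I := by
  have hc := h.cont
  have I0 := h.I_pos
  obtain ⟨i1, i2, -⟩ := h.rest_sq T a ha hb hs
  set N : Set ℝ := Icc 3.7 4 with hN
  have hNm : MeasurableSet N := measurableSet_Icc
  set u : ℝ → ℝ := fun x => f x ^ 2 - N.indicator (fun x => f x ^ 2) x with hu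
  have j1 : IntegrableOn (N.indicator fun x => f x ^ 2) (Ioi 0) := h.int_sq.indicator hNm
  have iu : IntegrableOn u (Ioi 0) := h.int_sq.sub j1
  have u0 : ∀ x, 0 ≤ u x := fun x => by
    simp only [hu]
    exact sub_nonneg.2 (indicator_apply_le' (fun _ => le_rfl) fun _ => sq_nonneg _)
  have ju : ∫ x in Ioi (0 : ℝ), u x ≤ (1 - 0.0016) * I := by
    rw [hu, integral_sub h.int_sq j1, h.Ieq, setIntegral_indicator hNm,
      inter_eq_right.2 (show N ⊆ Ioi 0 from Icc_subset_Ioi_iff (by norm_num) |>.2 (by norm_num))]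
    have : (0.01 : ℝ) * volume.real N ≤ ∫ x in N, f x ^ 2 :=
      setIntegral_ge_of_const_le_real hNm (by simp [hN]) (fun x hx => by
        have := h.neg hx.1 hx.2
        nlinarith) (Continuous.integrableOn_Icc (by fun_prop))
    rw [show volume.real N = 4 - 3.7 from Real.volume_real_Icc_of_le (by norm_num)] at this
    linarith [h.Ile, Real.pi_lt_d4]
  refine cs (h.int_two hα (by fun_prop) fun s => abs_prod_le_one _ fun j => h.bd _)
    (int_scale iu hα) i1 (fun s => u0 _) (fun s => sq_nonneg _) (fun s hs => ?_)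
    (A := (1 - 0.0016) * I / α) (by rw [integral_scale u hα]; gcongr) i2 (by positivity)
    (by positivity) ?_
  · by_cases hx : α * s ∈ N
    · left
      refine mul_nonpos_of_nonpos_of_nonneg (by linarith [h.neg hx.1 hx.2])
        (Finset.prod_nonneg fun j hj => h.nonneg (mul_nonneg (ha j) hs.le) ?_)
      have b1 : (α * s) ^ 2 ≤ 4 ^ 2 := pow_le_pow_left₀ (by positivity) hx.2 2
      have b2 : a j ^ 2 * s ^ 2 ≤ 0.55 * α ^ 2 * s ^ 2 :=
        mul_le_mul_of_nonneg_right (by linarith [k1 j hj]) (sq_nonneg s)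
      refine le_of_sq_le_sq ?_ (by norm_num)
      nlinarith
    · right
      simp only [hu, indicator_of_notMem hx, sub_zero]
      exact (mul_pow _ _ _).le
  · refine lt_of_eq_of_lt ?_ (window_fin hα hb I0 hab h1 h2)
    field_simp

theorem one_arch {D : ℝ → ℝ} (hD : Continuous D) {m A c : ℝ}
    (h : ∀ x ∈ Icc (m - 1) (m + 1), c * (A - (x - m) ^ 2 / 2) ^ 2 ≤ D x) :
    c * (2 * A ^ 2 - 2 * A / 3 + 1 / 10) ≤ ∫ x in (m - 1)..(m + 1), D x := by
  have := intervalIntegral.integral_mono_on (μ := volume) (a := m - 1) (b := m + 1) (by linarith)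
    (Continuous.intervalIntegrable (by fun_prop) _ _) (hD.intervalIntegrable _ _) h
  refine le_of_eq_of_le ?_ this
  rw [intervalIntegral.integral_comp_sub_right (fun y => c * (A - y ^ 2 / 2) ^ 2) m,
    show m - 1 - m = -1 by ring, show m + 1 - m = 1 by ring]
  have e : (fun y : ℝ => c * (A - y ^ 2 / 2) ^ 2) =
      fun y => c * A ^ 2 * y ^ 0 + -(c * A) * y ^ 2 + c / 4 * y ^ 4 := by
    funext y; ring
  have i : ∀ (c : ℝ) (n : ℕ), IntervalIntegrable (fun t : ℝ => c * t ^ n) volume (-1) 1 :=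
    fun c n => Continuous.intervalIntegrable (by fun_prop) _ _
  rw [e, intervalIntegral.integral_add ((i _ _).add (i _ _)) (i _ _),
    intervalIntegral.integral_add (i _ _) (i _ _)]
  simp only [intervalIntegral.integral_const_mul, integral_pow]
  ring

theorem three_int {D : ℝ → ℝ} (hD : Continuous D) (iD : IntegrableOn D (Ioi 0))
    (D0 : ∀ x, 0 ≤ D x) {a1 b1 a2 b2 a3 b3 : ℝ} (h0 : 0 ≤ a1) (h1 : a1 ≤ b1) (h2 : b1 ≤ a2)
    (h3 : a2 ≤ b2) (h4 : b2 ≤ a3) (h5 : a3 ≤ b3) :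
    (∫ x in a1..b1, D x) + (∫ x in a2..b2, D x) + (∫ x in a3..b3, D x) ≤
      ∫ x in Ioi (0 : ℝ), D x := by
  have i : ∀ u v : ℝ, IntervalIntegrable D volume u v := fun u v => hD.intervalIntegrable _ _
  have ad : ∀ u v w : ℝ, (∫ x in u..v, D x) + ∫ x in v..w, D x = ∫ x in u..w, D x :=
    fun u v w => intervalIntegral.integral_add_adjacent_intervals (i _ _) (i _ _)
  have nn : ∀ u v : ℝ, u ≤ v → 0 ≤ ∫ x in u..v, D x := fun u v h =>
    intervalIntegral.integral_nonneg h fun x _ => D0 x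
  have top : ∫ x in (0 : ℝ)..b3, D x ≤ ∫ x in Ioi (0 : ℝ), D x := by
    rw [intervalIntegral.integral_of_le (by linarith)]
    exact setIntegral_mono_set iD (Eventually.of_forall D0) Ioc_subset_Ioi_self.eventuallyLE
  linarith [ad 0 a1 b1, ad 0 b1 a2, ad 0 a2 b2, ad 0 b2 a3, ad 0 a3 b3, nn 0 a1 h0, nn b1 a2 h2,
    nn b2 a3 h4]

theorem Pk.arch_gain (h : Pk f κ I) {φ : ℝ → ℝ} (hφ : Continuous φ) (φ0 : ∀ x, 0 ≤ φ x)
    (φ1 : ∀ x, φ x ≤ 1) {ξ : ℝ} (ξ0 : 0 ≤ ξ) (ξ1 : ξ ≤ 0.00947)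
    (hb : ∀ x, 0 ≤ x → x ≤ 9 → φ x ≤ Real.exp (-(ξ * x ^ 2))) :
    IntegrableOn (fun x => f x ^ 2 * φ x) (Ioi 0) ∧
      ∫ x in Ioi (0 : ℝ), f x ^ 2 * φ x ≤ I - 3.16 * ξ := by
  have hc := h.cont
  have p1 := Real.pi_gt_d4
  have p2 := Real.pi_lt_d4
  have i1 : IntegrableOn (fun x => f x ^ 2 * φ x) (Ioi 0) :=
    int_mul_bdd h.int_sq hφ fun x => by rw [abs_of_nonneg (φ0 x)]; exact φ1 x
  set D : ℝ → ℝ := fun x => f x ^ 2 - f x ^ 2 * φ x with hD
  have cD : Continuous D := by fun_prop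
  have iD : IntegrableOn D (Ioi 0) := h.int_sq.sub i1
  have D0 : ∀ x, 0 ≤ D x := fun x => by
    have := φ1 x
    simp only [hD]; nlinarith [sq_nonneg (f x)]
  have key : ∀ e m X A c : ℝ, (∀ z, e * Real.sin z = Real.cos (z - m)) → e ^ 2 = 1 → 1 ≤ m →
      m + 1 ≤ 9 → (m + 1) ^ 2 ≤ X → A ≤ 1 - 0.0012 * X → c ≤ 1 - 0.00947 * X / 2 → 1 / 2 ≤ A →
      0 ≤ c → ξ * c * (2 * A ^ 2 - 2 * A / 3 + 1 / 10) ≤ ∫ x in (m - 1)..(m + 1), D x := by
    intro e m X A c hm he m1 m9 hX hA hcc A0 c0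
    refine one_arch cD fun x hx => ?_
    have x0 : 0 ≤ x := by linarith [hx.1]
    have xX : x ^ 2 ≤ X := (pow_le_pow_left₀ x0 hx.2 2).trans hX
    have y1 : (x - m) ^ 2 ≤ 1 := by nlinarith [hx.1, hx.2]
    have a1 := h.arch hm x0
    have a2 : (A - (x - m) ^ 2 / 2) ^ 2 ≤ (e * (x * f x)) ^ 2 :=
      pow_le_pow_left₀ (by linarith) (by linarith) 2
    rw [mul_pow, he, one_mul] at a2
    have a3 := (hb x x0 (by linarith [hx.2])).trans (exp_neg_le2 (by positivity))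
    have a4 : ξ * x ^ 2 ≤ 0.00947 * X := mul_le_mul ξ1 xX (sq_nonneg x) (by norm_num)
    have a5 : ξ * x ^ 2 * c ≤ 1 - φ x := by
      have : 0 ≤ ξ * x ^ 2 := by positivity
      nlinarith
    have a6 := mul_le_mul_of_nonneg_left a2 (mul_nonneg ξ0 c0)
    have a7 := mul_le_mul_of_nonneg_left a5 (sq_nonneg (f x))
    simp only [hD]
    nlinarith
  have k1 := key 1 (π / 2) 6.61 0.99 0.968 sin_m1 (by norm_num) (by linarith) (by linarith)
    (by nlinarith) (by norm_num) (by norm_num) (by norm_num) (by norm_num)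
  have k2 := key (-1) (3 * π / 2) 32.64 0.96 0.845 sin_m2 (by norm_num) (by linarith) (by linarith)
    (by nlinarith) (by norm_num) (by norm_num) (by norm_num) (by norm_num)
  have k3 := key 1 (5 * π / 2) 78.4 0.905 0.628 sin_m3 (by norm_num) (by linarith) (by linarith)
    (by nlinarith) (by norm_num) (by norm_num) (by norm_num) (by norm_num)
  have t := three_int cD iD D0 (a1 := π / 2 - 1) (b1 := π / 2 + 1) (a2 := 3 * π / 2 - 1)
    (b2 := 3 * π / 2 + 1) (a3 := 5 * π / 2 - 1) (b3 := 5 * π / 2 + 1) (by linarith) (by linarith)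
    (by linarith) (by linarith) (by linarith) (by linarith)
  refine ⟨i1, ?_⟩
  rw [hD, integral_sub h.int_sq i1, h.Ieq] at t
  nlinarith

theorem Pk.damped (h : Pk f κ I) {ι : Type*} (T : Finset ι) (a : ι → ℝ) {τ c : ℝ}
    (hs : ∑ j ∈ T, a j ^ 2 = τ) (τ1 : τ ≤ 0.03) (c0 : 0 < c) (c1 : 0.442 ≤ c ^ 2)
    (c2 : c ^ 2 ≤ 0.528) :
    IntegrableOn (fun s => f (c * s) ^ 2 * |∏ j ∈ T, f (a j * s)|) (Ioi 0) ∧
      ∫ s in Ioi (0 : ℝ), f (c * s) ^ 2 * |∏ j ∈ T, f (a j * s)| ≤ (I - 0.997 * τ) / c := by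
  have hc := h.cont
  have τ0 : 0 ≤ τ := hs ▸ Finset.sum_nonneg fun j _ => sq_nonneg _
  obtain ⟨i1, i2⟩ := h.arch_gain (φ := fun x => |∏ j ∈ T, f (a j * (c⁻¹ * x))|) (by fun_prop)
    (fun x => abs_nonneg _) (fun x => abs_prod_le_one _ fun j => h.bd _) (ξ := 125 / 396 * τ)
    (by positivity) (by linarith) fun x x0 x9 => by
      set s := c⁻¹ * x with hsd
      have e : x = c * s := by rw [hsd]; field_simp
      have s0 : 0 ≤ s := by positivity
      have x2 : c ^ 2 * s ^ 2 ≤ 81 := by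
        rw [← mul_pow, ← e]; nlinarith
      have s2 : s ^ 2 ≤ 184 := by nlinarith [sq_nonneg s]
      rw [Finset.abs_prod]
      calc ∏ j ∈ T, |f (a j * s)| ≤ ∏ j ∈ T, Real.exp (-((κ * (a j * s)) ^ 2 / 2)) := by
            refine Finset.prod_le_prod (fun _ _ => abs_nonneg _) fun j hj => h.gauss ?_
            have b1 : a j ^ 2 ≤ 0.03 := by
              linarith [Finset.single_le_sum (f := fun j => a j ^ 2) (fun j _ => sq_nonneg _) hj]
            have b2 : κ ^ 2 * (a j ^ 2 * s ^ 2) ≤ 0.336 * (0.03 * 184) := by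
              gcongr; exact h.khi
            rw [mul_pow, mul_pow]; linarith
        _ = Real.exp (-(κ ^ 2 * s ^ 2 / 2 * τ)) := by
            rw [← Real.exp_sum, ← hs, Finset.mul_sum, ← Finset.sum_neg_distrib]
            congr 1
            exact Finset.sum_congr rfl fun j _ => by ring
        _ ≤ _ := by
            rw [Real.exp_le_exp, show x ^ 2 = c ^ 2 * s ^ 2 by rw [← mul_pow, ← e]]
            have b1 : c ^ 2 * s ^ 2 ≤ 0.528 * s ^ 2 := mul_le_mul_of_nonneg_right c2 (sq_nonneg s)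
            have b2 : 1 / 3 * s ^ 2 ≤ κ ^ 2 * s ^ 2 :=
              mul_le_mul_of_nonneg_right h.klo (sq_nonneg s)
            have b3 := mul_le_mul_of_nonneg_left b1 τ0
            have b4 := mul_le_mul_of_nonneg_left b2 τ0
            linarith
  have e : ∀ s, c⁻¹ * (c * s) = s := fun s => by field_simp
  have j1 := int_scale i1 c0
  have j2 := integral_scale (fun x => f x ^ 2 * |∏ j ∈ T, f (a j * (c⁻¹ * x))|) c0
  simp only [e] at j1 j2
  refine ⟨j1, ?_⟩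
  rw [j2]
  gcongr
  linarith

theorem Pk.caseR1a (h : Pk f κ I) {ι : Type*} (T : Finset ι) (a : ι → ℝ) {α β τ : ℝ}
    (hβ : 0 < β) (hβα : β ≤ α) (hs : ∑ j ∈ T, a j ^ 2 = τ) (hab : α ^ 2 + β ^ 2 + τ = 1)
    (h2 : α ^ 2 ≤ 0.528) (τ0 : 0 < τ) (τ1 : τ ≤ 0.03) (hd : (α - β) ^ 2 ≤ τ / 5) :
    ∫ s in Ioi (0 : ℝ), f (α * s) * (f (β * s) * ∏ j ∈ T, f (a j * s)) < √2 * I := by
  have hc := h.cont
  have I0 := h.I_pos
  have hα : 0 < α := by linarith
  have b1 : β ^ 2 ≤ α ^ 2 := pow_le_pow_left₀ hβ.le hβα 2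
  obtain ⟨i1, j1⟩ := h.damped T a hs τ1 hα (by linarith) h2
  obtain ⟨i2, j2⟩ := h.damped T a hs τ1 hβ (by linarith) (by linarith)
  have I1 : I ≤ 1.5708 := by linarith [h.Ile, Real.pi_lt_d4]
  have I2 : 0.8 ≤ I := by
    have k1 : κ ≤ 1 := by nlinarith [h.khi, h.k0]
    have : 1.6 ≤ √π := Real.le_sqrt_of_sq_le (by linarith [Real.pi_gt_d2])
    nlinarith [h.H]
  refine cs (h.int_two hα (by fun_prop) fun s => ?_) i1 i2 (fun s => by positivity)
    (fun s => by positivity) (fun s _ => Or.inr ?_) j1 j2 (by positivity)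
    (div_pos (by linarith) hβ) ?_
  · rw [abs_mul]
    exact mul_le_one₀ (h.bd _) (abs_nonneg _) (abs_prod_le_one _ fun j => h.bd _)
  · rw [mul_pow, mul_pow, ← sq_abs (∏ j ∈ T, f (a j * s))]
    exact le_of_eq (by ring)
  · rw [div_mul_div_comm, div_lt_iff₀ (by positivity), mul_pow, Real.sq_sqrt (by norm_num)]
    have e : 1 - 1.2 * τ ≤ 2 * (α * β) := by nlinarith
    have g1 : I - 0.997 * τ ≤ I * (1 - 0.634 * τ) := by nlinarith
    have g2 : (I - 0.997 * τ) ^ 2 ≤ (I * (1 - 0.634 * τ)) ^ 2 :=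
      pow_le_pow_left₀ (by linarith) g1 2
    have g3 : (1 - 0.634 * τ) ^ 2 < 1 - 1.2 * τ := by nlinarith
    have g4 := mul_lt_mul_of_pos_left (g3.trans_le e) (pow_pos I0 2)
    nlinarith

end Pool.Agent.MP_39fec4_gt.Ball
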