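import Pool.Agent.MP_39fec4_gt.Elem

set_option autoImplicit false

namespace Pool.Agent.MP_39fec4_gt

open MeasureTheory Set Finset

/-- The properties of the function `G τ = γ (√τ)` used in the comparison. -/
structure Pack (G : ℝ → ℝ) (η c C τ0 ε : ℝ) : Prop where
  cont : Continuous G
  absle : ∀ τ, |G τ| ≤ 1
  zero : G 0 = 1
  low : ∀ τ, 0 ≤ τ → τ ≤ 1 → 1 - τ / 2 ≤ G τ
  mainlow : ∀ τ, 0 ≤ τ → τ ≤ τ0 → 1 / 2 ≤ Real.exp (τ / 4) * G τ
  mainup2 : ∀ τ, 0 ≤ τ → τ ≤ τ0 → Real.exp (τ / 4) * G τ ≤ 2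
  mainup : ∀ τ, 0 ≤ τ → τ ≤ τ0 → G τ ≤ Real.exp (-τ / 5)
  conc : ConcaveOn ℝ (Icc 0 τ0) (fun τ => Real.exp (τ / 4) * G τ + c * η * τ ^ 2)
  glob : ∃ H : ℝ → ℝ, ConcaveOn ℝ (Ici 0) H ∧
    (∀ τ, 0 ≤ τ → |Real.exp (τ / 4) * G τ - H τ| ≤ C * η ^ 2 * τ * Real.exp (τ / 4)) ∧
    ∀ τ, 0 ≤ τ → G τ ≤ Real.exp (-τ / 4) * H τ + C * η ^ 2
  tail : ∃ G1 G2 : ℝ → ℝ, (∀ τ, 0 < τ → HasDerivAt G (G1 τ) τ ∧ HasDerivAt G1 (G2 τ) τ) ∧
    ∀ τ, 9 / 10 * τ0 ≤ τ → τ * |G τ| ≤ ε ∧ τ ^ 3 * G1 τ ^ 2 ≤ ε ^ 2 ∧ τ ^ 2 * |G2 τ| ≤ ε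

variable {G : ℝ → ℝ} {η c C τ0 ε : ℝ}

theorem Pack.nonneg (h : Pack G η c C τ0 ε) {τ : ℝ} (h0 : 0 ≤ τ) (h1 : τ ≤ τ0) : 0 ≤ G τ := by
  have := h.mainlow τ h0 h1
  by_contra hn
  have : Real.exp (τ / 4) * G τ < 0 := mul_neg_of_pos_of_neg (Real.exp_pos _) (not_le.1 hn)
  linarith

theorem Pack.tail0 (h : Pack G η c C τ0 ε) {τ : ℝ} (h1 : 9 / 10 * τ0 ≤ τ) : τ * |G τ| ≤ ε := by
  obtain ⟨G1, G2, -, h2⟩ := h.tail
  exact (h2 τ h1).1

theorem Pack.tail1 (h : Pack G η c C τ0 ε) (hτ : 6 ≤ τ0) {τ : ℝ} (h1 : 9 / 10 * τ0 ≤ τ) :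
    |G τ| ≤ ε := by
  have := h.tail0 h1
  nlinarith [abs_nonneg (G τ)]

theorem prod_exp_mul {n : ℕ} (G : ℝ → ℝ) (τ : Fin n → ℝ) (S : Finset (Fin n)) :
    ∏ j ∈ S, G (τ j) = Real.exp (-(∑ j ∈ S, τ j) / 4) *
      ∏ j ∈ S, (Real.exp (τ j / 4) * G (τ j)) := by
  rw [Finset.prod_mul_distrib, ← Real.exp_sum, ← mul_assoc, ← Real.exp_add, ← Finset.sum_div]
  simp [neg_div]

theorem pow_exp_mul {n : ℕ} (hn : 0 < n) (G : ℝ → ℝ) (x : ℝ) :
    G (x / n) ^ n = Real.exp (-x / 4) * (Real.exp (x / n / 4) * G (x / n)) ^ n := by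
  have hn' : (n : ℝ) ≠ 0 := by positivity
  rw [mul_pow, ← Real.exp_nat_mul, ← mul_assoc, ← Real.exp_add]
  have : -x / 4 + n * (x / n / 4) = 0 := by field_simp; ring
  rw [this]; simp

theorem jensen_mean {n : ℕ} (hn : 0 < n) {K : ℝ → ℝ} {I : Set ℝ} (hK : ConcaveOn ℝ I K)
    (τ : Fin n → ℝ) (hτ : ∀ j, τ j ∈ I) :
    (∑ j, K (τ j)) / n ≤ K ((∑ j, τ j) / n) := by
  have hn' : (0 : ℝ) < n := by exact_mod_cast hn
  have := hK.le_map_sum (t := Finset.univ) (w := fun _ => (1 : ℝ) / n) (p := τ)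
    (fun _ _ => by positivity) (by simp; field_simp) (fun j _ => hτ j)
  simp only [smul_eq_mul, ← Finset.mul_sum] at this
  rw [div_eq_inv_mul, div_eq_inv_mul, ← one_div]
  exact this

theorem var_nonneg {n : ℕ} (hn : 0 < n) (t : Fin n → ℝ) (hs : ∑ j, t j = 1) :
    ∑ j, (t j - 1 / n) ^ 2 = ∑ j, t j ^ 2 - 1 / n := by
  have hn' : (n : ℝ) ≠ 0 := by positivity
  have : ∀ j, (t j - 1 / n) ^ 2 = t j ^ 2 - 2 / n * t j + 1 / n ^ 2 := fun j => by ring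
  simp only [this, Finset.sum_add_distrib, Finset.sum_sub_distrib, ← Finset.mul_sum, hs]
  simp; field_simp; ring

/-- The main region: all arguments are at most `τ0`. -/
theorem Pack.main (h : Pack G η c C τ0 ε) (hc : 0 ≤ c * η) (hc1 : c * η ≤ 1) {n : ℕ}
    (hn : 2 ≤ n) (t : Fin n → ℝ) (ht : ∀ j, 0 ≤ t j) (hs : ∑ j, t j = 1) {s : ℝ}
    (hτ : ∀ j, t j * s ^ 2 ≤ τ0) :
    ∏ j, G (t j * s ^ 2) + (if 1 / 2 < s ∧ s ≤ 1 then c * η * (∑ j, (t j - 1 / n) ^ 2) / 128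
      else 0) ≤ G (s ^ 2 / n) ^ n := by
  have hn0 : 0 < n := by omega
  have hn' : (0 : ℝ) < n := by exact_mod_cast hn0
  have hn2 : (2 : ℝ) ≤ n := by exact_mod_cast hn
  set V := ∑ j, (t j - 1 / n) ^ 2 with hV
  have hV0 : 0 ≤ V := Finset.sum_nonneg fun _ _ => sq_nonneg _
  have hVe : V = ∑ j, t j ^ 2 - 1 / n := var_nonneg hn0 t hs
  have hsum : ∑ j, t j * s ^ 2 = s ^ 2 := by rw [← Finset.sum_mul, hs, one_mul]
  have hτ0 : ∀ j, 0 ≤ t j * s ^ 2 := fun j => mul_nonneg (ht j) (sq_nonneg _)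
  have hbar : s ^ 2 / n ≤ τ0 := by
    rw [div_le_iff₀ hn', ← hsum]
    calc ∑ j, t j * s ^ 2 ≤ ∑ _j : Fin n, τ0 := Finset.sum_le_sum fun j _ => hτ j
      _ = τ0 * n := by simp [mul_comm]
  have hbar0 : 0 ≤ s ^ 2 / n := by positivity
  have hJ := jensen_mean hn0 h.conc (fun j => t j * s ^ 2) (fun j => ⟨hτ0 j, hτ j⟩)
  simp only [hsum, Finset.sum_add_distrib] at hJ
  set Hb := Real.exp (s ^ 2 / n / 4) * G (s ^ 2 / n) with hHb
  set m := (∑ j, Real.exp (t j * s ^ 2 / 4) * G (t j * s ^ 2)) / n with hm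
  set k := c * η * s ^ 4 * V with hk
  have hk0 : 0 ≤ k := by positivity
  have hmk : m ≤ Hb - k / n := by
    have e1 : ∑ j, c * η * (t j * s ^ 2) ^ 2 = c * η * s ^ 4 * (V + 1 / n) := by
      rw [hVe, sub_add_cancel, Finset.mul_sum]
      exact Finset.sum_congr rfl fun j _ => by ring
    rw [e1, add_div] at hJ
    have e2 : c * η * s ^ 4 * (V + 1 / n) / n = k / n + c * η * (s ^ 2 / n) ^ 2 := by
      rw [hk]; field_simp
    rw [e2] at hJ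
    linarith
  have hz : ∀ j, 0 ≤ Real.exp (t j * s ^ 2 / 4) * G (t j * s ^ 2) := fun j => by
    have := h.mainlow _ (hτ0 j) (hτ j); linarith
  have hm0 : 0 ≤ m := div_nonneg (Finset.sum_nonneg fun j _ => hz j) hn'.le
  have hAM := prod_le_mean_pow hn0 _ hz
  rw [← hm] at hAM
  have hHb1 : 1 / 2 ≤ Hb := h.mainlow _ hbar0 hbar
  have hHb2 : Hb ≤ 2 := h.mainup2 _ hbar0 hbar
  have hP : ∏ j, G (t j * s ^ 2) ≤ Real.exp (-s ^ 2 / 4) * (Hb - k / n) ^ n := by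
    rw [prod_exp_mul G (fun j => t j * s ^ 2), hsum]
    exact mul_le_mul_of_nonneg_left (hAM.trans (pow_le_pow_left₀ hm0 hmk n)) (Real.exp_pos _).le
  have hQ := pow_exp_mul hn0 G (s ^ 2)
  rw [← hHb] at hQ
  -- `(Hb - k/n)^n (1 + k/2) ≤ Hb^n`
  have hy0 : 0 ≤ k / n / Hb := by positivity
  have hy1 : k / n / Hb ≤ 1 := by
    rw [div_le_one (by linarith)]; linarith
  have hB : (Hb - k / n) ^ n * (1 + k / 2) ≤ Hb ^ n := by
    have e : Hb - k / n = Hb * (1 - k / n / Hb) := by field_simp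
    have b1 : 1 + (n : ℝ) * (k / n / Hb) ≤ (1 + k / n / Hb) ^ n :=
      one_add_mul_le_pow (by linarith) n
    have b2 : 1 + k / 2 ≤ 1 + (n : ℝ) * (k / n / Hb) := by
      have : (n : ℝ) * (k / n / Hb) = k / Hb := by field_simp
      rw [this]
      have : k / 2 ≤ k / Hb := div_le_div_of_nonneg_left hk0 (by linarith) hHb2
      linarith
    have b3 : (1 - k / n / Hb) ^ n * (1 + k / n / Hb) ^ n ≤ 1 := by
      rw [← mul_pow]
      exact pow_le_one₀ (by nlinarith) (by nlinarith)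
    rw [e, mul_pow, mul_assoc]
    refine mul_le_of_le_one_right (by positivity) (le_trans ?_ b3)
    exact mul_le_mul_of_nonneg_left (b2.trans b1) (pow_nonneg (by linarith) n)
  have hW0 : 0 ≤ Real.exp (-s ^ 2 / 4) * (Hb - k / n) ^ n :=
    mul_nonneg (Real.exp_pos _).le (pow_nonneg (by linarith) n)
  have hWQ : Real.exp (-s ^ 2 / 4) * (Hb - k / n) ^ n * (1 + k / 2) ≤ G (s ^ 2 / n) ^ n := by
    rw [hQ, mul_assoc]
    exact mul_le_mul_of_nonneg_left hB (Real.exp_pos _).le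
  split_ifs with hs1
  · obtain ⟨hs1, hs2⟩ := hs1
    have hs0 : 0 < s := by linarith
    have hss : s ^ 2 ≤ 1 := pow_le_one₀ hs0.le hs2
    have hQ1 : 1 / 2 ≤ G (s ^ 2 / n) ^ n := by
      have l1 := h.low (s ^ 2 / n) hbar0 (by rw [div_le_one hn']; linarith)
      have l2 : 1 + (n : ℝ) * (-(s ^ 2 / n / 2)) ≤ (1 + -(s ^ 2 / n / 2)) ^ n :=
        one_add_mul_le_pow (by
          have : s ^ 2 / n ≤ 1 := by rw [div_le_one hn']; linarith
          linarith) n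
      have l3 : (n : ℝ) * (-(s ^ 2 / n / 2)) = -(s ^ 2 / 2) := by field_simp
      have l4 : (1 + -(s ^ 2 / n / 2)) ^ n ≤ G (s ^ 2 / n) ^ n :=
        pow_le_pow_left₀ (by
          have : s ^ 2 / n ≤ 1 := by rw [div_le_one hn']; linarith
          linarith) (by linarith) n
      linarith
    have hV1 : V ≤ 1 := by
      rw [hVe]
      have : ∑ j, t j ^ 2 ≤ ∑ j, t j := Finset.sum_le_sum fun j _ => by
        have : t j ≤ 1 := hs ▸ Finset.single_le_sum (fun i _ => ht i) (Finset.mem_univ j)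
        nlinarith [ht j]
      have : 0 ≤ 1 / (n : ℝ) := by positivity
      linarith
    have hs4 : s ^ 4 ≤ 1 := pow_le_one₀ hs0.le hs2
    have hs4' : 1 / 16 ≤ s ^ 4 := by
      calc (1 : ℝ) / 16 = (1 / 2) ^ 4 := by norm_num
        _ ≤ s ^ 4 := by gcongr
    have hk1 : k ≤ 1 := by
      rw [hk]
      calc c * η * s ^ 4 * V ≤ 1 * 1 * 1 := by gcongr
        _ = 1 := by ring
    have hk2 : c * η * V / 16 ≤ k := by
      rw [hk]
      have h0 : 0 ≤ c * η * V := by positivity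
      have := mul_le_mul_of_nonneg_left hs4' h0
      linarith
    generalize Real.exp (-s ^ 2 / 4) * (Hb - k / n) ^ n = W at hWQ hW0 hP
    generalize G (s ^ 2 / n) ^ n = Q at hWQ hQ1
    have : W + k / 8 ≤ Q := by
      by_cases hW : W ≤ 1 / 4
      · linarith
      · have := mul_le_mul_of_nonneg_right (not_le.1 hW).le hk0
        linarith
    linarith
  · have := mul_nonneg hW0 hk0
    linarith

/-- Lower bound for the diagonal term. -/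
theorem Pack.diag (h : Pack G η c C τ0 ε) (hτ : 6 ≤ τ0) (hε : 0 < ε) (h16 : ε ≤ 1 / 16) {n : ℕ}
    (hn : 2 ≤ n) {s : ℝ} (hs : 0 < s) :
    -(if 1 < s then 16 * ε ^ 2 / n ^ 2 / s ^ 2 else 0) ≤ G (s ^ 2 / n) ^ n := by
  have hn' : (0 : ℝ) < n := by exact_mod_cast (by omega : 0 < n)
  have hn2 : (2 : ℝ) ≤ n := by exact_mod_cast hn
  rcases le_or_gt (s ^ 2 / n) τ0 with h1 | h1
  · have := pow_nonneg (h.nonneg (by positivity) h1) n
    split_ifs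
    · have : 0 ≤ 16 * ε ^ 2 / n ^ 2 / s ^ 2 := by positivity
      linarith
    · linarith
  · have hs1 : 1 < s := by
      by_contra hh
      have : s ^ 2 ≤ 1 := pow_le_one₀ hs.le (not_lt.1 hh)
      have : s ^ 2 / n ≤ 1 := by rw [div_le_one hn']; linarith
      linarith
    rw [if_pos hs1]
    have a1 := h.tail0 (τ := s ^ 2 / n) (by linarith)
    have a2 := h.tail1 hτ (τ := s ^ 2 / n) (by linarith)
    have a3 := pow_four_mul_le hn hε.le h16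
    obtain ⟨k, rfl⟩ : ∃ k, n = k + 2 := ⟨n - 2, by omega⟩
    simp only [Nat.add_sub_cancel] at a3
    set N : ℝ := ((k + 2 : ℕ) : ℝ)
    set y := G (s ^ 2 / N)
    have a4 : |y| ≤ ε * N / s ^ 2 := by
      rw [le_div_iff₀ (by positivity)]
      have : s ^ 2 / N * |y| * N ≤ ε * N := by gcongr
      have e : s ^ 2 / N * |y| * N = |y| * s ^ 2 := by field_simp
      linarith
    have a5 : |y ^ (k + 2)| ≤ 16 * ε ^ 2 / N ^ 2 / s ^ 2 := by
      rw [abs_pow, pow_succ, pow_succ]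
      calc |y| ^ k * |y| * |y| ≤ ε ^ k * ε * (ε * N / s ^ 2) := by gcongr
        _ = (N ^ 4 * ε ^ k) * (1 / N) * ε ^ 2 / N ^ 2 / s ^ 2 := by field_simp
        _ ≤ 16 * 1 * ε ^ 2 / N ^ 2 / s ^ 2 := by
            gcongr
            rw [div_le_one hn']; linarith
        _ = _ := by ring
    linarith [neg_abs_le (y ^ (k + 2))]

end Pool.Agent.MP_39fec4_gt
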