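import Mathlib

set_option autoImplicit false

namespace Pool.Agent.MP_39fec4_gt

open MeasureTheory

/-- The p-norm of a vector of the Euclidean space. -/
noncomputable def pNorm (p : ℝ) {n : ℕ} (x : EuclideanSpace ℝ (Fin n)) : ℝ :=
  (∑ j, |x j| ^ p) ^ (1 / p)

/-- The (n-1)-dimensional volume of the section of the unit p-ball by the hyperplane
orthogonal to `a`. -/
noncomputable def sectionVol (p : ℝ) {n : ℕ} (a : EuclideanSpace ℝ (Fin n)) : ENNReal :=
  μHE[n - 1] {x : EuclideanSpace ℝ (Fin n) | pNorm p x ≤ 1 ∧ ∑ j, x j * a j = 0}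

end Pool.Agent.MP_39fec4_gt
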