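import Mathlib

set_option autoImplicit false

namespace Pool.Agent.MP_39fec4_gt

open MeasureTheory Set Finset

/-- Arithmetic-geometric mean inequality in power form. -/
theorem prod_le_mean_pow {n : ℕ} (hn : 0 < n) (z : Fin n → ℝ) (hz : ∀ j, 0 ≤ z j) :
    ∏ j, z j ≤ ((∑ j, z j) / n) ^ n := by
  have hn' : (0 : ℝ) < n := by exact_mod_cast hn
  have h := Real.geom_mean_le_arith_mean_weighted (Finset.univ : Finset (Fin n))
    (fun _ => (1 : ℝ) / n) z (fun _ _ => by positivity)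
    (by simp; field_simp) (fun j _ => hz j)
  have h1 : ∏ j, z j = (∏ j, z j ^ ((1 : ℝ) / n)) ^ n := by
    rw [← Finset.prod_pow]
    refine Finset.prod_congr rfl fun j _ => ?_
    rw [← Real.rpow_natCast, ← Real.rpow_mul (hz j)]
    simp [hn'.ne']
  rw [h1]
  refine pow_le_pow_left₀ (Finset.prod_nonneg fun j _ => Real.rpow_nonneg (hz j) _) ?_ n
  refine h.trans (le_of_eq ?_)
  rw [← Finset.mul_sum]; ring

theorem prod_sub_pow_aux {ι : Type*} [DecidableEq ι] (S : Finset ι) (z : ι → ℝ) (w : ℝ)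
    (hz : ∀ j, |z j| ≤ 1) (hw : |w| ≤ 1) :
    |∏ j ∈ S, z j - w ^ S.card| ≤ ∑ j ∈ S, |z j - w| ∧
    |∏ j ∈ S, z j - w ^ S.card - w ^ (S.card - 1) * ∑ j ∈ S, (z j - w)| ≤
      (∑ j ∈ S, |z j - w|) ^ 2 / 2 := by
  induction S using Finset.induction_on with
  | empty => simp
  | insert a S ha ih =>
    obtain ⟨ih1, ih2⟩ := ih
    rw [Finset.prod_insert ha, Finset.sum_insert ha, Finset.sum_insert ha,
      Finset.card_insert_of_notMem ha]
    have hP : |∏ j ∈ S, z j| ≤ 1 := by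
      rw [Finset.abs_prod]
      exact Finset.prod_le_one (fun _ _ => abs_nonneg _) (fun j _ => hz j)
    have hS : 0 ≤ ∑ j ∈ S, |z j - w| := Finset.sum_nonneg fun _ _ => abs_nonneg _
    constructor
    · have : z a * ∏ j ∈ S, z j - w ^ (S.card + 1) =
          (z a - w) * ∏ j ∈ S, z j + w * (∏ j ∈ S, z j - w ^ S.card) := by ring
      rw [this]
      refine (abs_add_le _ _).trans ?_
      rw [abs_mul, abs_mul]
      have h1 : |z a - w| * |∏ j ∈ S, z j| ≤ |z a - w| :=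
        mul_le_of_le_one_right (abs_nonneg _) hP
      have h2 : |w| * |∏ j ∈ S, z j - w ^ S.card| ≤ |∏ j ∈ S, z j - w ^ S.card| :=
        mul_le_of_le_one_left (abs_nonneg _) hw
      linarith
    · have key : w * (w ^ (S.card - 1) * ∑ j ∈ S, (z j - w)) =
          w ^ S.card * ∑ j ∈ S, (z j - w) := by
        rcases Nat.eq_zero_or_pos S.card with h0 | h0
        · rw [Finset.card_eq_zero] at h0; subst h0; simp
        · obtain ⟨k, hk⟩ : ∃ k, S.card = k + 1 := ⟨S.card - 1, by omega⟩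
          rw [hk]; simp only [Nat.add_sub_cancel]; ring
      have : z a * ∏ j ∈ S, z j - w ^ (S.card + 1) -
          w ^ (S.card + 1 - 1) * (z a - w + ∑ j ∈ S, (z j - w)) =
          w * (∏ j ∈ S, z j - w ^ S.card - w ^ (S.card - 1) * ∑ j ∈ S, (z j - w)) +
          (z a - w) * (∏ j ∈ S, z j - w ^ S.card) := by
        simp only [Nat.add_sub_cancel]
        rw [mul_sub w, key]; ring
      rw [this]
      refine (abs_add_le _ _).trans ?_
      rw [abs_mul, abs_mul]
      have h1 := mul_le_mul hw ih2 (abs_nonneg _) zero_le_one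
      have h2 := mul_le_mul_of_nonneg_left ih1 (abs_nonneg (z a - w))
      nlinarith [abs_nonneg (z a - w), sq_nonneg (|z a - w|)]

/-- Second order comparison of a product with a power. -/
theorem prod_sub_pow_le {n : ℕ} (hn : 2 ≤ n) (y : Fin n → ℝ) (w ε : ℝ) (hε : 0 < ε)
    (hy : ∀ j, |y j| ≤ ε) (hw : |w| ≤ ε) :
    ∏ j, y j - w ^ n ≤ |w| * ε ^ (n - 2) * |∑ j, (y j - w)| +
      ε ^ (n - 2) * (n * ∑ j, (y j - w) ^ 2) / 2 := by
  obtain ⟨k, rfl⟩ : ∃ k, n = k + 2 := ⟨n - 2, by omega⟩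
  simp only [Nat.add_sub_cancel]
  have h := (prod_sub_pow_aux (Finset.univ : Finset (Fin (k + 2))) (fun j => y j / ε) (w / ε)
    (fun j => by rw [abs_div, abs_of_pos hε, div_le_one hε]; exact hy j)
    (by rw [abs_div, abs_of_pos hε, div_le_one hε]; exact hw)).2
  simp only [Finset.card_univ, Fintype.card_fin] at h
  have e1 : ∏ j, y j / ε = (∏ j, y j) / ε ^ (k + 2) := by
    rw [Finset.prod_div_distrib]; simp
  have e2 : ∑ j, (y j / ε - w / ε) = (∑ j, (y j - w)) / ε := by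
    rw [Finset.sum_div]; exact Finset.sum_congr rfl fun j _ => by ring
  have e3 : ∑ j, |y j / ε - w / ε| = (∑ j, |y j - w|) / ε := by
    rw [Finset.sum_div]
    exact Finset.sum_congr rfl fun j _ => by rw [← sub_div, abs_div, abs_of_pos hε]
  rw [e1, e2, e3] at h
  have hcs : (∑ j, |y j - w|) ^ 2 ≤ ((k + 2 : ℕ) : ℝ) * ∑ j, (y j - w) ^ 2 := by
    have := sq_sum_le_card_mul_sum_sq (s := (Finset.univ : Finset (Fin (k + 2))))
      (f := fun j => |y j - w|)
    simpa [sq_abs] using this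
  have h' := (abs_le.1 h).2
  have hp : 0 < ε ^ (k + 2) := by positivity
  have e4 : k + 2 - 1 = k + 1 := by omega
  rw [e4] at h'
  have h2 : ∏ j, y j - w ^ (k + 2) - w ^ (k + 1) * ∑ j, (y j - w) ≤
      ε ^ k * (∑ j, |y j - w|) ^ 2 / 2 := by
    have := mul_le_mul_of_nonneg_left h' hp.le
    have e5 : ε ^ (k + 2) * ((∏ j, y j) / ε ^ (k + 2) - (w / ε) ^ (k + 2) -
        (w / ε) ^ (k + 1) * ((∑ j, (y j - w)) / ε)) =
        ∏ j, y j - w ^ (k + 2) - w ^ (k + 1) * ∑ j, (y j - w) := by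
      rw [div_pow, div_pow]; field_simp; ring
    have e6 : ε ^ (k + 2) * (((∑ j, |y j - w|) / ε) ^ 2 / 2) =
        ε ^ k * (∑ j, |y j - w|) ^ 2 / 2 := by
      field_simp; ring
    rwa [e5, e6] at this
  have h3 : w ^ (k + 1) * ∑ j, (y j - w) ≤ |w| * ε ^ k * |∑ j, (y j - w)| := by
    refine (le_abs_self _).trans ?_
    rw [abs_mul, abs_pow, pow_succ']
    exact mul_le_mul_of_nonneg_right (mul_le_mul_of_nonneg_left
      (pow_le_pow_left₀ (abs_nonneg _) hw k) (abs_nonneg _)) (abs_nonneg _)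
  have h4 : ε ^ k * (∑ j, |y j - w|) ^ 2 / 2 ≤
      ε ^ k * (((k + 2 : ℕ) : ℝ) * ∑ j, (y j - w) ^ 2) / 2 := by
    gcongr
  linarith

theorem pow_four_mul_le {n : ℕ} (hn : 2 ≤ n) {ε : ℝ} (hε : 0 ≤ ε) (h16 : ε ≤ 1 / 16) :
    (n : ℝ) ^ 4 * ε ^ (n - 2) ≤ 16 := by
  obtain ⟨k, rfl⟩ : ∃ k, n = k + 2 := ⟨n - 2, by omega⟩
  simp only [Nat.add_sub_cancel]
  have h1 : ((k + 2 : ℕ) : ℝ) ≤ 2 * 2 ^ k := by
    have : k + 2 ≤ 2 * 2 ^ k := by
      have := Nat.lt_two_pow_self (n := k)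
      omega
    exact_mod_cast this
  have h2 : ((k + 2 : ℕ) : ℝ) ^ 4 ≤ 16 * 16 ^ k := by
    calc ((k + 2 : ℕ) : ℝ) ^ 4 ≤ (2 * 2 ^ k) ^ 4 := by gcongr
      _ = 16 * 16 ^ k := by rw [mul_pow, ← pow_mul, mul_comm k 4, pow_mul]; norm_num
  have h3 : ε ^ k ≤ (1 / 16) ^ k := pow_le_pow_left₀ hε h16 k
  calc ((k + 2 : ℕ) : ℝ) ^ 4 * ε ^ k ≤ (16 * 16 ^ k) * (1 / 16) ^ k := by gcongr
    _ = 16 := by rw [mul_assoc, ← mul_pow]; norm_num

theorem cube_mul_rpow_le {v ε : ℝ} (hv : 2 ≤ v) (hε : 0 < ε) (h16 : ε ≤ 1 / 16) :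
    v ^ 3 * ε ^ (v - 1) ≤ 8 * ε := by
  have h1 : ε ^ (v - 1) = ε * ε ^ (v - 2) := by
    rw [show v - 1 = 1 + (v - 2) by ring, Real.rpow_add hε, Real.rpow_one]
  have h2 : ε ^ (v - 2) ≤ Real.exp (-(3 / 2) * (v - 2)) := by
    rw [Real.rpow_def_of_pos hε]
    apply Real.exp_le_exp.2
    have : Real.log ε ≤ -(3 / 2) := by
      rw [Real.log_le_iff_le_exp hε]
      refine h16.trans ?_
      have h3 : Real.exp (3 / 2) ≤ 16 := by
        have := Real.exp_one_lt_d9
        have h4 : Real.exp (3 / 2) ≤ Real.exp 1 * Real.exp 1 := by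
          rw [← Real.exp_add]; exact Real.exp_le_exp.2 (by norm_num)
        nlinarith [Real.exp_pos 1]
      rw [Real.exp_neg, one_div]
      exact inv_anti₀ (Real.exp_pos _) h3
    nlinarith
  have h3 : (v / 2) ^ 3 ≤ Real.exp (3 / 2 * (v - 2)) := by
    have h4 : v / 2 ≤ Real.exp ((v - 2) / 2) := by
      have := Real.add_one_le_exp ((v - 2) / 2); linarith
    calc (v / 2) ^ 3 ≤ Real.exp ((v - 2) / 2) ^ 3 := by gcongr
      _ = Real.exp (3 / 2 * (v - 2)) := by rw [← Real.exp_nat_mul]; congr 1; push_cast; ring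
  have h5 : Real.exp (3 / 2 * (v - 2)) * Real.exp (-(3 / 2) * (v - 2)) = 1 := by
    rw [← Real.exp_add]; simp
  have h6 : v ^ 3 * ε ^ (v - 2) ≤ 8 := by
    calc v ^ 3 * ε ^ (v - 2) = 8 * ((v / 2) ^ 3 * ε ^ (v - 2)) := by ring
      _ ≤ 8 * (Real.exp (3 / 2 * (v - 2)) * Real.exp (-(3 / 2) * (v - 2))) := by
          gcongr
      _ = 8 := by rw [h5]; ring
  rw [h1]; nlinarith

theorem mul_exp_neg_le {y : ℝ} : y * Real.exp (-y) ≤ 1 := by
  have h1 : y ≤ Real.exp y := by have := Real.add_one_le_exp y; linarith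
  calc y * Real.exp (-y) ≤ Real.exp y * Real.exp (-y) := by gcongr
    _ = 1 := by rw [← Real.exp_add]; simp

theorem sq_mul_exp_neg_le {y : ℝ} (hy : 0 ≤ y) : y ^ 2 * Real.exp (-y) ≤ 4 := by
  have h1 := mul_exp_neg_le (y := y / 2)
  have h2 : Real.exp (-y) = Real.exp (-(y / 2)) ^ 2 := by
    rw [← Real.exp_nat_mul]; congr 1; push_cast; ring
  have h3 : 0 ≤ y / 2 * Real.exp (-(y / 2)) := by positivity
  rw [h2]; nlinarith

/-- Integrability of a continuous bounded function with quadratic decay. -/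
theorem integrableOn_of_decay {f : ℝ → ℝ} (hf : Continuous f) (h1 : ∀ s, |f s| ≤ 1)
    {K s1 : ℝ} (h2 : ∀ s, s1 ≤ s → s ^ 2 * |f s| ≤ K) : IntegrableOn f (Ioi 0) := by
  have hg : IntegrableOn (fun s : ℝ => (1 + |K| + s1 ^ 2) * (1 + s ^ 2)⁻¹) (Ioi 0) :=
    (integrable_inv_one_add_sq.const_mul _).integrableOn
  refine hg.mono' hf.aestronglyMeasurable ?_
  refine (ae_restrict_iff' measurableSet_Ioi).2 (Filter.Eventually.of_forall fun s hs => ?_)
  have hs : 0 < s := hs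
  rw [Real.norm_eq_abs, ← div_eq_mul_inv, le_div_iff₀ (by positivity)]
  have := h1 s
  rcases le_or_gt s1 s with h | h
  · have := h2 s h
    have := le_abs_self K
    nlinarith [sq_nonneg s1]
  · have : s ^ 2 ≤ s1 ^ 2 := by gcongr
    nlinarith [abs_nonneg K, abs_nonneg (f s), sq_nonneg s]

theorem integral_Ioi_inv_sq {a : ℝ} (ha : 0 < a) :
    IntegrableOn (fun s : ℝ => 1 / s ^ 2) (Ioi a) ∧ ∫ s in Ioi a, 1 / s ^ 2 = 1 / a := by
  have h1 := integrableOn_Ioi_rpow_of_lt (a := -2) (by norm_num) ha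
  have h2 := integral_Ioi_rpow_of_lt (a := -2) (by norm_num) ha
  have e : ∀ s ∈ Ioi a, s ^ (-2 : ℝ) = 1 / s ^ 2 := fun s hs => by
    have hs : 0 < s := ha.trans hs
    rw [Real.rpow_neg hs.le, one_div]; norm_num
  refine ⟨h1.congr_fun e measurableSet_Ioi, ?_⟩
  rw [← setIntegral_congr_fun measurableSet_Ioi e, h2]
  norm_num [Real.rpow_neg_one]

/-- Lower bound for an integral from a pointwise lower bound with four pieces. -/
theorem integral_lower {D : ℝ → ℝ} (hD : IntegrableOn D (Ioi 0)) {g L1 L2 L3 S : ℝ} (hS : 0 < S)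
    (h : ∀ s, 0 < s → (if 1 / 2 < s ∧ s ≤ 1 then g else 0) - (if 1 < s then L1 / s ^ 2 else 0)
      - (if s ≤ S then L2 else 0) - (if S < s then L3 / s ^ 2 else 0) ≤ D s) :
    g / 2 - L1 - L2 * S - L3 / S ≤ ∫ s in Ioi 0, D s := by
  have i1 : IntegrableOn (fun _ : ℝ => g) (Ioc (1 / 2) 1) := by simp
  have i3 : IntegrableOn (fun _ : ℝ => L2) (Ioc 0 S) := by simp
  have i2 : IntegrableOn (fun s : ℝ => L1 * (1 / s ^ 2)) (Ioi 1) :=
    (integral_Ioi_inv_sq one_pos).1.const_mul _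
  have i4 : IntegrableOn (fun s : ℝ => L3 * (1 / s ^ 2)) (Ioi S) :=
    (integral_Ioi_inv_sq hS).1.const_mul _
  have j1 := (integrable_indicator_iff measurableSet_Ioc).2 i1
  have j3 := (integrable_indicator_iff measurableSet_Ioc).2 i3
  have j2 := (integrable_indicator_iff measurableSet_Ioi).2 i2
  have j4 := (integrable_indicator_iff measurableSet_Ioi).2 i4
  have jD := (integrable_indicator_iff measurableSet_Ioi).2 hD
  have hle := integral_mono (((j1.sub j2).sub j3).sub j4) jD (fun s => by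
    simp only [Pi.sub_apply]
    rcases le_or_gt s 0 with hs | hs
    · have a1 : s ∉ Ioc (1 / 2 : ℝ) 1 := fun h => by linarith [h.1]
      have a2 : s ∉ Ioi (1 : ℝ) := fun h => by linarith [mem_Ioi.1 h]
      have a3 : s ∉ Ioc (0 : ℝ) S := fun h => by linarith [h.1]
      have a4 : s ∉ Ioi S := fun h => by linarith [mem_Ioi.1 h]
      have a5 : s ∉ Ioi (0 : ℝ) := fun h => by linarith [mem_Ioi.1 h]
      rw [indicator_of_notMem a1, indicator_of_notMem a2, indicator_of_notMem a3,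
        indicator_of_notMem a4, indicator_of_notMem a5]
      simp
    · have := h s hs
      simp only [indicator, Set.mem_Ioc, Set.mem_Ioi, hs, true_and, if_true, mul_one_div]
      exact this)
  rw [integral_sub' ((j1.sub j2).sub j3) j4, integral_sub' (j1.sub j2) j3, integral_sub' j1 j2,
    integral_indicator measurableSet_Ioc, integral_indicator measurableSet_Ioc,
    integral_indicator measurableSet_Ioi, integral_indicator measurableSet_Ioi,
    integral_indicator measurableSet_Ioi, integral_const_mul, integral_const_mul,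
    (integral_Ioi_inv_sq one_pos).2, (integral_Ioi_inv_sq hS).2] at hle
  simp only [integral_const, MeasurableSet.univ, measureReal_restrict_apply, univ_inter,
    Real.volume_real_Ioc, smul_eq_mul] at hle
  rw [max_eq_left (by norm_num), max_eq_left (by linarith)] at hle
  have e : L3 * (1 / S) = L3 / S := by ring
  linarith

end Pool.Agent.MP_39fec4_gt
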