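import Pool.Agent.MP_39fec4_gt.Gauss

set_option autoImplicit false

namespace Pool.Agent.MP_39fec4_gt

open MeasureTheory Set Filter Topology

noncomputable def KK : ℝ := ∫ x in Ioi (0 : ℝ), BB x

theorem KK_nonneg : 0 ≤ KK := setIntegral_nonneg measurableSet_Ioi fun _ hx => (BB_pos hx).le

theorem int_cBB (c : ℝ) : IntegrableOn (fun x => c * BB x) (Ioi 0) := integrableOn_BB.const_mul c

theorem integral_cBB (c : ℝ) : ∫ x in Ioi (0 : ℝ), c * BB x = c * KK := integral_const_mul _ _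

theorem int_of_BB {f : ℝ → ℝ} {c : ℝ} (hf : ContinuousOn f (Ioi 0))
    (h : ∀ x, 0 < x → |f x| ≤ c * BB x) : IntegrableOn f (Ioi 0) :=
  (int_cBB c).mono' (hf.aestronglyMeasurable measurableSet_Ioi)
    ((ae_restrict_iff' measurableSet_Ioi).2 (Eventually.of_forall fun x hx => h x hx))

theorem int_pow_of_BB {f : ℝ → ℝ} {c : ℝ} {j : ℕ} (hf : ContinuousOn f (Ioi 0))
    (h : ∀ x, 0 < x → x ^ j * |f x| ≤ c * BB x) : IntegrableOn (fun x => x ^ j * f x) (Ioi 0) :=
  int_of_BB (c := c) (ContinuousOn.mul (by fun_prop) hf) fun x hx => by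
    rw [abs_mul, abs_of_pos (pow_pos hx j)]; exact h x hx

variable {η : ℝ}

theorem cont_gg : Continuous gg := by unfold gg; fun_prop

theorem cont_kk (h0 : 0 < η) : Continuous (kk η) := by
  have : Continuous fun x : ℝ => x ^ η := Real.continuous_rpow_const h0.le
  unfold kk; fun_prop

theorem cont_dd (h0 : 0 < η) : Continuous (dd η) := (cont_kk h0).sub cont_gg

theorem cont_dd1 (h0 : 0 < η) : Continuous (dd1 η) := by
  have : Continuous fun x : ℝ => x ^ η := Real.continuous_rpow_const h0.le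
  have := cont_kk h0
  have := cont_gg
  unfold dd1; fun_prop

theorem cont_dd2 (h0 : 0 < η) : Continuous (dd2 η) := by
  have : Continuous fun x : ℝ => x ^ η := Real.continuous_rpow_const h0.le
  have := cont_kk h0
  have := cont_gg
  unfold dd2; fun_prop

theorem cont_rr (h0 : 0 < η) : Continuous (rr η) := by
  have : Continuous fun x : ℝ => x ^ η := Real.continuous_rpow_const h0.le
  have := cont_kk h0
  have := cont_gg
  unfold rr; fun_prop

theorem tendsto_of_cont {f : ℝ → ℝ} (hf : Continuous f) : Tendsto f (𝓝[>] 0) (𝓝 (f 0)) :=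
  (hf.tendsto 0).mono_left nhdsWithin_le_nhds

theorem parts2_cos {u u1 u2 : ℝ → ℝ} {c : ℝ} (i0 : IntegrableOn u (Ioi 0))
    (i1 : IntegrableOn u1 (Ioi 0)) (c0 : Continuous u) (c1 : Continuous u1) (c2 : Continuous u2)
    (d1 : ∀ x, 0 < x → HasDerivAt u (u1 x) x) (d2 : ∀ x, 0 < x → HasDerivAt u1 (u2 x) x)
    (z : u1 0 = 0) (hb : ∀ x, 0 < x → |u2 x| ≤ c * BB x) (s : ℝ) :
    s ^ 2 * |cosT u s| ≤ c * KK := by
  have a1 := parts_cos i0 i1 d1 (tendsto_of_cont c0) s
  have a2 := parts_sin i1 (int_of_BB c2.continuousOn hb) d2 (by simpa [z] using tendsto_of_cont c1) s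
  have a3 := abs_cosT_le (int_cBB c) hb s
  rw [integral_cBB, ← a2] at a3
  have : s * sinT u1 s = -(s ^ 2 * cosT u s) := by linear_combination s * a1
  rwa [this, abs_neg, abs_mul, abs_of_nonneg (sq_nonneg s)] at a3

theorem parts2_sin {u u1 u2 : ℝ → ℝ} {c : ℝ} (i0 : IntegrableOn u (Ioi 0))
    (i1 : IntegrableOn u1 (Ioi 0)) (c0 : Continuous u) (c1 : Continuous u1) (c2 : Continuous u2)
    (d1 : ∀ x, 0 < x → HasDerivAt u (u1 x) x) (d2 : ∀ x, 0 < x → HasDerivAt u1 (u2 x) x)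
    (z : u 0 = 0) (hb : ∀ x, 0 < x → |u2 x| ≤ c * BB x) (s : ℝ) :
    s ^ 2 * |sinT u s| ≤ c * KK := by
  have a1 := parts_sin i0 i1 d1 (by simpa [z] using tendsto_of_cont c0) s
  have a2 := parts_cos i1 (int_of_BB c2.continuousOn hb) d2 (tendsto_of_cont c1) s
  have a3 := abs_sinT_le (int_cBB c) hb s
  rw [integral_cBB] at a3
  have : sinT u2 s = -(s ^ 2 * sinT u s) := by linear_combination a2 + s * a1
  rwa [this, abs_neg, abs_mul, abs_of_nonneg (sq_nonneg s)] at a3

section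
variable (h0 : 0 < η) (h1 : η ≤ 1)
include h0 h1

theorem int_dd {j : ℕ} (hj : j ≤ 4) : IntegrableOn (fun x => x ^ j * dd η x) (Ioi 0) :=
  int_pow_of_BB (cont_dd h0).continuousOn fun _ hx => dd_le h0 h1 hx hj

theorem int_dd1 {j : ℕ} (hj : j ≤ 4) : IntegrableOn (fun x => x ^ j * dd1 η x) (Ioi 0) :=
  int_pow_of_BB (cont_dd1 h0).continuousOn fun _ hx => dd1_le h0 h1 hx hj

theorem int_rr {j : ℕ} (hj : j ≤ 4) : IntegrableOn (fun x => x ^ j * rr η x) (Ioi 0) :=
  int_pow_of_BB (cont_rr h0).continuousOn fun _ hx => rr_le h0 h1 hx hj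

theorem int_dd0 : IntegrableOn (dd η) (Ioi 0) := by simpa using int_dd h0 h1 (j := 0) (by norm_num)

theorem int_rr0 : IntegrableOn (rr η) (Ioi 0) := by simpa using int_rr h0 h1 (j := 0) (by norm_num)

theorem D_le (s : ℝ) : |cosT (dd η) s| ≤ 3 * η * KK := by
  rw [← integral_cBB]
  exact abs_cosT_le (int_cBB _) (fun x hx => by simpa using dd_le h0 h1 hx (j := 0) (by norm_num)) s

theorem D_sub_le (s : ℝ) : |cosT (dd η) s - cosT (dd η) 0| ≤ s ^ 2 * (3 * η * KK) := by
  rw [← integral_cBB]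
  exact abs_cosT_sub_le (int_dd0 h0 h1) (int_cBB _) (fun x hx => dd_le h0 h1 hx (by norm_num)) s

theorem D0_tail (s : ℝ) : s ^ 2 * |cosT (dd η) s| ≤ 198 * η * KK :=
  parts2_cos (int_dd0 h0 h1) (by simpa using int_dd1 h0 h1 (j := 0) (by norm_num)) (cont_dd h0)
    (cont_dd1 h0) (cont_dd2 h0) (fun _ hx => hasDerivAt_dd η hx) (fun _ hx => hasDerivAt_dd1 η hx)
    (by simp [dd1]) (fun x hx => by simpa using dd2_le h0 h1 hx (j := 0) (by norm_num)) s

theorem D1_tail (s : ℝ) : s ^ 2 * |sinT (fun x => x ^ 1 * dd η x) s| ≤ 396 * η * KK := by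
  have c0 := cont_dd h0
  have c1 := cont_dd1 h0
  have c2 := cont_dd2 h0
  refine parts2_sin (u1 := fun x => dd η x + x ^ 1 * dd1 η x)
    (u2 := fun x => 2 * dd1 η x + x * dd2 η x) (int_dd h0 h1 (by norm_num))
    ((int_dd0 h0 h1).add (int_dd1 h0 h1 (by norm_num))) (by fun_prop) (by fun_prop) (by fun_prop)
    (fun x hx => ?_) (fun x hx => ?_) (by simp) (fun x hx => ?_) s
  · refine ((hasDerivAt_pow 1 x).mul (hasDerivAt_dd η hx)).congr_deriv ?_
    simp
  · refine ((hasDerivAt_dd η hx).add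
      ((hasDerivAt_pow 1 x).mul (hasDerivAt_dd1 η hx))).congr_deriv ?_
    simp; ring
  · have a1 := dd1_le h0 h1 hx (j := 0) (by norm_num)
    have a2 := dd2_le h0 h1 hx (j := 1) (by norm_num)
    refine (abs_add_le _ _).trans ?_
    rw [abs_mul, abs_mul, abs_of_pos hx, abs_two]
    simp only [pow_zero, pow_one, one_mul] at a1 a2
    linarith

theorem D2_tail (s : ℝ) : s ^ 2 * |cosT (fun x => x ^ 2 * dd η x) s| ≤ 600 * η * KK := by
  have c0 := cont_dd h0
  have c1 := cont_dd1 h0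
  have c2 := cont_dd2 h0
  have i1 : IntegrableOn (fun x => 2 * (x ^ 1 * dd η x) + x ^ 2 * dd1 η x) (Ioi 0) :=
    ((int_dd h0 h1 (by norm_num)).const_mul 2).add (int_dd1 h0 h1 (by norm_num))
  refine parts2_cos
    (u2 := fun x => 2 * dd η x + 4 * (x * dd1 η x) + x ^ 2 * dd2 η x) (int_dd h0 h1 (by norm_num))
    i1
    (by fun_prop) (by fun_prop) (by fun_prop)
    (fun x hx => ?_) (fun x hx => ?_) (by simp) (fun x hx => ?_) s
  · refine ((hasDerivAt_pow 2 x).mul (hasDerivAt_dd η hx)).congr_deriv ?_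
    simp; ring
  · refine ((((hasDerivAt_pow 1 x).mul (hasDerivAt_dd η hx)).const_mul 2).add
      ((hasDerivAt_pow 2 x).mul (hasDerivAt_dd1 η hx))).congr_deriv ?_
    simp; ring
  · have a0 := dd_le h0 h1 hx (j := 0) (by norm_num)
    have a1 := dd1_le h0 h1 hx (j := 1) (by norm_num)
    have a2 := dd2_le h0 h1 hx (j := 2) (by norm_num)
    refine (abs_add_three _ _ _).trans ?_
    rw [abs_mul, abs_mul, abs_mul, abs_mul, abs_of_pos hx, abs_two, abs_of_nonneg (sq_nonneg x),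
      abs_of_pos (by norm_num : (0 : ℝ) < 4)]
    simp only [pow_zero, pow_one, one_mul] at a0 a1 a2
    linarith

theorem int_kk {j : ℕ} (hj : j ≤ 4) : IntegrableOn (fun x => x ^ j * kk η x) (Ioi 0) := by
  refine ((int_W (a := j) (by have : (0 : ℝ) ≤ j := by positivity
                              linarith)).add (int_dd h0 h1 hj)).congr_fun (fun x _ => ?_)
    measurableSet_Ioi
  simp only [Pi.add_apply, W, dd, Real.rpow_natCast]; ring

theorem int_kk0 : IntegrableOn (kk η) (Ioi 0) := by simpa using int_kk h0 h1 (j := 0) (by norm_num)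

theorem cos_kk (s : ℝ) : cosT (kk η) s = Z2 * Real.exp (-s ^ 2 / 4) + cosT (dd η) s := by
  have := cosT_lin (int_W (a := 0) (by norm_num)) (int_dd0 h0 h1) 1 1 s
  rw [C0_eq, one_mul, one_mul] at this
  rw [← this]
  exact congrFun (cosT_congr fun x _ => by simp [W_zero, dd]) s

theorem sin_kk1 (s : ℝ) : sinT (fun x => x ^ 1 * kk η x) s =
    s / 2 * (Z2 * Real.exp (-s ^ 2 / 4)) + sinT (fun x => x ^ 1 * dd η x) s := by
  have := sinT_lin (int_W (a := 1) (by norm_num)) (int_dd h0 h1 (j := 1) (by norm_num)) 1 1 s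
  rw [S1_eq, one_mul, one_mul] at this
  rw [← this]
  exact congrFun (sinT_congr fun x _ => by simp only [W_one, dd]; ring) s

theorem cos_kk2 (s : ℝ) : cosT (fun x => x ^ 2 * kk η x) s =
    (1 / 2 - s ^ 2 / 4) * (Z2 * Real.exp (-s ^ 2 / 4)) + cosT (fun x => x ^ 2 * dd η x) s := by
  have := cosT_lin (int_W (a := 2) (by norm_num)) (int_dd h0 h1 (j := 2) (by norm_num)) 1 1 s
  rw [C2_eq, one_mul, one_mul] at this
  rw [← this]
  exact congrFun (cosT_congr fun x _ => by simp only [W_two, dd]; ring) s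

theorem cos_kk_split (s : ℝ) : EE s * cosT (kk η) s = h0f η s + EE s * cosT (rr η) s := by
  have i0 := int_W (a := 0) (by norm_num)
  have i2 := int_W (a := 2) (by norm_num)
  have i3 := int_W (a := 2 + η) (by linarith)
  have i4 := int_rr0 h0 h1
  have a1 := cosT_lin i0 i2 1 1 s
  have a2 := cosT_lin i3 i4 (-1) 1 s
  have a3 := cosT_lin (k := fun x => 1 * W 0 x + 1 * W 2 x)
    (l := fun x => -1 * W (2 + η) x + 1 * rr η x) ((i0.const_mul 1).add (i2.const_mul 1))
    ((i3.const_mul _).add (i4.const_mul 1)) 1 1 s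
  rw [cosT_congr (l := kk η) fun x hx => by
    rw [W_zero, W_two, W_add_two η hx, rr]; ring, a1, a2] at a3
  rw [a3, h0f]; ring

theorem m_lower : Z2 - 2 * η * KK ≤ cosT (W η) 0 := by
  have i0 := int_W (a := 0) (by norm_num)
  have i1 := int_W (a := η) (by linarith)
  have a1 := cosT_lin i1 i0 1 (-1) 0
  have a2 := abs_cosT_le (k := fun x => 1 * W η x + -1 * W 0 x) (int_cBB (2 * η)) (fun x hx => by
    have := delta_gg_le h0 h1 hx
    rw [W_zero, W]; simpa [sub_eq_add_neg] using this) 0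
  rw [a1, integral_cBB, C0_eq] at a2
  have := (abs_le.1 a2).1
  simp at this
  linarith

theorem R_le (s : ℝ) : |cosT (rr η) s| ≤ η ^ 2 * KK := by
  rw [← integral_cBB]
  exact abs_cosT_le (int_cBB _) (fun x hx => by simpa using rr_le h0 h1 hx (j := 0) (by norm_num)) s

theorem R_sub_le (s : ℝ) : |cosT (rr η) s - cosT (rr η) 0| ≤ s ^ 2 * (η ^ 2 * KK) := by
  rw [← integral_cBB]
  exact abs_cosT_sub_le (int_rr0 h0 h1) (int_cBB _) (fun x hx => rr_le h0 h1 hx (by norm_num)) s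

end

noncomputable def rho1 (η s : ℝ) : ℝ :=
  EE s * (s / 2 * cosT (rr η) s - sinT (fun x => x ^ 1 * rr η x) s)

noncomputable def rho2 (η s : ℝ) : ℝ :=
  EE s * (s ^ 2 / 4 * cosT (rr η) s - s * sinT (fun x => x ^ 1 * rr η x) s + cosT (rr η) s / 2 -
    cosT (fun x => x ^ 2 * rr η x) s)

section
variable (h0 : 0 < η) (h1 : η ≤ 1)
include h0 h1

theorem hasDerivAt_R (s : ℝ) : HasDerivAt (cosT (rr η)) (-sinT (fun x => x ^ 1 * rr η x) s) s :=
  hasDerivAt_cosT (int_rr0 h0 h1) (int_rr h0 h1 (by norm_num)) (fun x _ => by simp) s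

theorem hasDerivAt_rho (s : ℝ) : HasDerivAt (fun s => EE s * cosT (rr η) s) (rho1 η s) s := by
  refine ((hasDerivAt_EE s).mul (hasDerivAt_R h0 h1 s)).congr_deriv ?_
  rw [rho1]; ring

theorem hasDerivAt_rho1 (s : ℝ) : HasDerivAt (rho1 η) (rho2 η s) s := by
  have := (hasDerivAt_EE s).mul ((((hasDerivAt_id s).div_const 2).mul (hasDerivAt_R h0 h1 s)).sub
    (hasDerivAt_sinT (int_rr h0 h1 (j := 1) (by norm_num)) (int_rr h0 h1 (j := 2) (by norm_num))
      (fun x _ => by ring) s))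
  refine this.congr_deriv ?_
  simp only [rho2, Pi.sub_apply, Pi.mul_apply, id]; ring

theorem rho_le {s : ℝ} (hs : 0 ≤ s) : s * rho2 η s - rho1 η s ≤ EE s * (3 * η ^ 2 * KK * s ^ 3) := by
  have a1 := R_le h0 h1 s
  have a2 := abs_sinT_le' (k := fun x => x ^ 1 * rr η x) (int_cBB (η ^ 2)) (fun x hx => by
    have := rr_le h0 h1 hx (j := 2) (by norm_num)
    rw [abs_mul, pow_one, abs_of_pos hx]; nlinarith) hs
  have a3 := abs_sinT_sub_cosT_le (int_rr h0 h1 (j := 1) (by norm_num))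
    (int_rr h0 h1 (j := 2) (by norm_num)) (fun x _ => by ring) (int_cBB (η ^ 2)) (fun x hx => by
    have := rr_le h0 h1 hx (j := 4) (by norm_num)
    rw [abs_mul, pow_one, abs_of_pos hx]; nlinarith) hs
  rw [integral_cBB] at a2 a3
  have e : s * rho2 η s - rho1 η s = EE s * (s ^ 3 / 4 * cosT (rr η) s -
      s ^ 2 * sinT (fun x => x ^ 1 * rr η x) s +
      (sinT (fun x => x ^ 1 * rr η x) s - s * cosT (fun x => x ^ 2 * rr η x) s)) := by
    rw [rho1, rho2]; ring
  rw [e]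
  have := EE_pos s
  gcongr
  have b1 := mul_le_mul_of_nonneg_left (abs_le.1 a1).2 (by positivity : 0 ≤ s ^ 3 / 4)
  have b2 := mul_le_mul_of_nonneg_left (abs_le.1 a2).1 (sq_nonneg s)
  have b3 := (abs_le.1 a3).2
  have : 0 ≤ s ^ 3 * (η ^ 2 * KK) := by have := KK_nonneg; positivity
  nlinarith

end

end Pool.Agent.MP_39fec4_gt
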