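import Pool.Agent.MP_39fec4_gt.FDefs

set_option autoImplicit false

namespace Pool.Agent.MP_39fec4_gt.Full

open MeasureTheory Set Real Ball P4

/-- Partial sum of the series of the lower incomplete Gamma function. -/
noncomputable def SG (ph N : ℝ) (K : ℕ) : ℝ :=
  ∑ i ∈ Finset.range K, N ^ (i + 1) / ∏ j ∈ Finset.range (i + 1), (ph + 1 + j)

/-- The first omitted term. -/
noncomputable def TG (ph N : ℝ) (K : ℕ) : ℝ :=
  N ^ (K + 1) / ∏ j ∈ Finset.range (K + 1), (ph + 1 + j)

namespace FGamX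

/-- The lower incomplete integral. -/
noncomputable def LL (N a : ℝ) : ℝ := ∫ t in (0 : ℝ)..N, Real.exp (-t) * t ^ a

theorem cont {a : ℝ} (ha : 0 ≤ a) : Continuous fun t : ℝ => Real.exp (-t) * t ^ a := by
  have : Continuous fun t : ℝ => t ^ a := Real.continuous_rpow_const ha
  fun_prop

theorem LL_rec (N : ℝ) {a : ℝ} (ha : 0 ≤ a) :
    (a + 1) * LL N a = Real.exp (-N) * N ^ (a + 1) + LL N (a + 1) := by
  have c0 := (cont ha).intervalIntegrable (μ := volume) 0 N
  have c1 := (cont (a := a + 1) (by linarith)).intervalIntegrable (μ := volume) 0 N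
  have := intervalIntegral.integral_eq_sub_of_hasDerivAt (a := 0) (b := N)
    (f := fun t => Real.exp (-t) * t ^ (a + 1))
    (f' := fun t => (a + 1) * (Real.exp (-t) * t ^ a) - Real.exp (-t) * t ^ (a + 1))
    (fun t _ => ((hasDerivAt_neg t).exp.mul (Real.hasDerivAt_rpow_const (x := t) (p := a + 1)
      (Or.inr (by linarith)))).congr_deriv (by rw [add_sub_cancel_right]; ring))
    ((c0.const_mul _).sub c1)
  rw [intervalIntegral.integral_sub (c0.const_mul _) c1, intervalIntegral.integral_const_mul,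
    Real.zero_rpow (by linarith)] at this
  unfold LL
  linarith

theorem LL_nonneg {N : ℝ} (hN : 0 ≤ N) (a : ℝ) : 0 ≤ LL N a :=
  intervalIntegral.integral_nonneg hN fun t ht => by have := ht.1; positivity

theorem LL_succ_le {N a : ℝ} (hN : 0 ≤ N) (ha : 0 ≤ a) : LL N (a + 1) ≤ N * LL N a := by
  rw [LL, LL, ← intervalIntegral.integral_const_mul]
  refine intervalIntegral.integral_mono_on hN ((cont (by linarith)).intervalIntegrable _ _)
    (((cont ha).intervalIntegrable _ _).const_mul _) fun t ht => ?_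
  have := mul_nonneg (Real.exp_pos (-t)).le (Real.rpow_nonneg ht.1 a)
  rw [Real.rpow_add_one' ht.1 (by linarith)]
  nlinarith [ht.2]

theorem prod_pos {ph : ℝ} (h0 : 0 ≤ ph) (K : ℕ) : 0 < ∏ j ∈ Finset.range K, (ph + 1 + j) :=
  Finset.prod_pos fun j _ => by positivity

theorem LL_iter {ph N : ℝ} (h0 : 0 ≤ ph) (hN : 0 < N) (K : ℕ) :
    LL N ph = Real.exp (-N) * N ^ ph * SG ph N K +
      LL N (ph + K) / ∏ j ∈ Finset.range K, (ph + 1 + j) := by
  induction K with
  | zero => simp [SG]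
  | succ K ih =>
    have r := LL_rec N (a := ph + K) (by positivity)
    have p := prod_pos h0 K
    have e : N ^ (ph + K + 1) = N ^ ph * N ^ (K + 1) := by
      rw [add_assoc, Real.rpow_add hN, ← Real.rpow_natCast]; push_cast; rfl
    have e2 : LL N (ph + K) = (Real.exp (-N) * (N ^ ph * N ^ (K + 1)) + LL N (ph + K + 1)) /
        (ph + K + 1) := by rw [eq_div_iff (by positivity), ← e]; linarith
    rw [ih, SG, SG, Finset.sum_range_succ, Finset.prod_range_succ _ K, e2]
    push_cast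
    rw [← add_assoc]
    field_simp
    ring

theorem split {N a : ℝ} (hN : 0 ≤ N) (ha : 0 ≤ a) :
    IntegrableOn (fun t : ℝ => Real.exp (-t) * t ^ a) (Ioi N) ∧
      Real.Gamma (1 + a) = LL N a + ∫ t in Ioi N, Real.exp (-t) * t ^ a := by
  have i := Real.GammaIntegral_convergent (s := 1 + a) (by linarith)
  rw [add_sub_cancel_left] at i
  have j := i.mono_set (Ioi_subset_Ioi hN)
  refine ⟨j, ?_⟩
  rw [Real.Gamma_eq_integral (by linarith), add_sub_cancel_left, LL,
    intervalIntegral.integral_of_le hN, ← setIntegral_union Ioc_disjoint_Ioi_same measurableSet_Ioi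
      (i.mono_set Ioc_subset_Ioi_self) j, Ioc_union_Ioi_eq_Ioi hN]

theorem g32 : Real.Gamma (3 / 2) = √π / 2 := by
  rw [show (3 / 2 : ℝ) = 1 / 2 + 1 by norm_num, Real.Gamma_add_one (by norm_num),
    Real.Gamma_one_half_eq]
  ring

end FGamX

open FGamX

theorem gamma_encl {ph N : ℝ} {K : ℕ} (h0 : 0 ≤ ph) (h1 : ph ≤ 1) (hN : 1 ≤ N)
    (hK : 2 * N ≤ K) : Real.exp (-N) * N ^ ph * SG ph N K ≤ Real.Gamma (1 + ph) ∧
      Real.Gamma (1 + ph) ≤ Real.exp (-N) * N ^ ph * (SG ph N K + 2 * TG ph N K + 2) := by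
  have N0 : 0 < N := by linarith
  obtain ⟨i0, e0⟩ := split N0.le h0
  obtain ⟨i1, e1⟩ := split N0.le zero_le_one
  have p := prod_pos h0 K
  have l0 := LL_nonneg N0.le (ph + K)
  have u0 : 0 ≤ ∫ t in Ioi N, Real.exp (-t) * t ^ ph :=
    setIntegral_nonneg measurableSet_Ioi fun t ht => by
      have : 0 < t := N0.trans ht
      positivity
  have w : 0 < Real.exp (-N) * N ^ ph := by positivity
  rw [e0, LL_iter h0 N0 K]
  refine ⟨by linarith [div_nonneg l0 p.le], ?_⟩
  have a1 : LL N (ph + K) / ∏ j ∈ Finset.range K, (ph + 1 + j) ≤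
      Real.exp (-N) * N ^ ph * (2 * TG ph N K) := by
    have r := LL_rec N (a := ph + K) (by positivity)
    have s := LL_succ_le (a := ph + K) N0.le (by positivity)
    have e : N ^ (ph + K + 1) = N ^ ph * N ^ (K + 1) := by
      rw [add_assoc, Real.rpow_add N0, ← Real.rpow_natCast]; push_cast; rfl
    have t : LL N (ph + K) ≤ 2 * (Real.exp (-N) * (N ^ ph * N ^ (K + 1))) / (ph + 1 + K) := by
      rw [le_div_iff₀ (by positivity), ← e]
      nlinarith
    rw [TG, Finset.prod_range_succ]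
    refine (div_le_div_of_nonneg_right t p.le).trans_eq ?_
    field_simp
  have a2 : ∫ t in Ioi N, Real.exp (-t) * t ^ ph ≤ Real.exp (-N) * N ^ ph * 2 := by
    have b := setIntegral_mono_on i0 (i1.const_mul (N ^ ph / N)) measurableSet_Ioi fun t ht => by
      have ht : N < t := ht
      have c := Real.rpow_le_rpow_of_nonpos N0 ht.le (by linarith : ph - 1 ≤ 0)
      rw [Real.rpow_sub_one N0.ne', Real.rpow_sub_one (by linarith),
        div_le_iff₀ (by linarith)] at c
      rw [Real.rpow_one]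
      nlinarith [Real.exp_pos (-t)]
    have r := LL_rec N le_rfl
    have z : LL N 0 = 1 - Real.exp (-N) := by
      simp [LL, intervalIntegral.integral_comp_neg fun x => Real.exp x]
    rw [show (1 : ℝ) + 1 = 2 by norm_num, Real.Gamma_two] at e1
    rw [zero_add, Real.rpow_one, z] at r
    rw [integral_const_mul, show ∫ t in Ioi N, Real.exp (-t) * t ^ (1 : ℝ) =
      Real.exp (-N) * (N + 1) by linarith] at b
    refine b.trans ?_
    rw [div_mul_eq_mul_div, div_le_iff₀ N0]
    nlinarith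
  linarith

theorem gamma_shift {ph : ℝ} (h0 : 0 ≤ ph) (I : ℕ) : Real.Gamma (1 + (ph + I)) =
    Real.Gamma (1 + ph) * ∏ j ∈ Finset.range I, (ph + 1 + j) := by
  induction I with
  | zero => simp
  | succ I ih =>
    rw [Finset.prod_range_succ, ← mul_assoc, ← ih, show 1 + (ph + ((I + 1 : ℕ) : ℝ)) =
      1 + (ph + I) + 1 by push_cast; ring, Real.Gamma_add_one (by positivity)]
    ring

theorem gamma_ge {q : ℝ} (h0 : 0 ≤ q) (h1 : q ≤ 1 / 2) : 0.81 ≤ Real.Gamma (1 + q) := by
  have g := Real.Gamma_pos_of_pos (s := 1 + q) (by linarith)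
  rcases le_total q 0.2 with c | c
  · have a := Real.Gamma_strictMonoOn_Ici.monotoneOn (a := 2) (b := 1 + q + 1) (mem_Ici.2 le_rfl)
      (mem_Ici.2 (by linarith)) (by linarith)
    rw [Real.Gamma_two, Real.Gamma_add_one (by linarith)] at a
    nlinarith
  · have q1 : 0 < 1 - q := by linarith
    have a := Real.convexOn_Gamma.2 (mem_Ioi.2 (by linarith : (0 : ℝ) < 1 + q))
      (mem_Ioi.2 (by norm_num : (0 : ℝ) < 2)) (show 0 ≤ 1 / 2 / (1 - q) by positivity)
      (show 0 ≤ (1 / 2 - q) / (1 - q) from div_nonneg (by linarith) q1.le)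
      (by field_simp; ring)
    simp only [smul_eq_mul] at a
    rw [show 1 / 2 / (1 - q) * (1 + q) + (1 / 2 - q) / (1 - q) * 2 = 3 / 2 by field_simp; ring,
      g32, Real.Gamma_two, div_mul_eq_mul_div, mul_one, ← add_div, le_div_iff₀ q1] at a
    have s : 1.772 ≤ √π := Real.le_sqrt_of_sq_le (by linarith [Real.pi_gt_d4])
    nlinarith

theorem gamma_le {q : ℝ} (h0 : 0 ≤ q) (h1 : q ≤ 1 / 2) :
    Real.Gamma (1 + q) ≤ 1 - 0.227 * q := by
  have a := Real.convexOn_Gamma.2 (mem_Ioi.2 (by norm_num : (0 : ℝ) < 1))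
    (mem_Ioi.2 (by norm_num : (0 : ℝ) < 3 / 2)) (show 0 ≤ 1 - 2 * q by linarith)
    (show 0 ≤ 2 * q by linarith) (by ring)
  simp only [smul_eq_mul] at a
  rw [show (1 - 2 * q) * 1 + 2 * q * (3 / 2) = 1 + q by ring, g32, Real.Gamma_one] at a
  have s : √π ≤ 1.773 := Real.sqrt_le_iff.2 ⟨by norm_num, by linarith [Real.pi_lt_d4]⟩
  nlinarith

end Pool.Agent.MP_39fec4_gt.Full
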