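import Pool.Agent.MP_39fec4_gt.FDefs

set_option autoImplicit false

namespace Pool.Agent.MP_39fec4_gt.Full

open MeasureTheory Set Real Ball P4

variable {C q y a : ℝ}

theorem mu_pos (hC : 0 < C) (ha : -1 < a) : 0 < mu C a :=
  mul_pos (Real.Gamma_pos_of_pos (by linarith)) (Real.rpow_pos_of_pos hC _)

theorem mu_int (hC : 0 < C) (ha : -1 < a) :
    IntegrableOn (fun w : ℝ => Real.exp (-w) * (w / C) ^ a) (Ioi 0) ∧
      ∫ w in Ioi (0 : ℝ), Real.exp (-w) * (w / C) ^ a = mu C a := by
  have h1 : EqOn (fun w : ℝ => Real.exp (-w) * w ^ (1 + a - 1) * C ^ (-a))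
      (fun w : ℝ => Real.exp (-w) * (w / C) ^ a) (Ioi 0) := fun w hw => by
    simp only [add_sub_cancel_left]
    rw [Real.div_rpow (le_of_lt hw) hC.le, Real.rpow_neg hC.le, div_eq_mul_inv, mul_assoc]
  have h0 : 0 < 1 + a := by linarith
  refine ⟨IntegrableOn.congr_fun ((Real.GammaIntegral_convergent h0).mul_const _) h1
    measurableSet_Ioi, ?_⟩
  rw [← setIntegral_congr_fun measurableSet_Ioi h1, integral_mul_const, mu,
    Real.Gamma_eq_integral h0]

theorem two_bb (j : ℕ) : 2 * bb (j + 1) = (j.factorial : ℝ) / ((2 * j + 1).factorial : ℝ) := by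
  induction j with
  | zero => simp [bb]
  | succ j ih =>
    have h : ((2 * j + 1).factorial : ℝ) ≠ 0 := by positivity
    rw [bb, ← mul_div_assoc, ih, show 2 * (j + 1) + 1 = 2 * j + 1 + 1 + 1 by ring,
      Nat.factorial_succ (2 * j + 1 + 1), Nat.factorial_succ (2 * j + 1), Nat.factorial_succ j]
    push_cast
    field_simp
    ring

theorem CC_rec (j : ℕ) (hy : 0 ≤ y) :
    CC j y = -2 * (2 * j + 1) * CC (j + 1) y - 4 * y * CC (j + 2) y := by
  rcases hy.eq_or_lt with rfl | hy
  · rw [CC_zero, CC_zero, bb]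
    field_simp
    ring
  have hc := cont_CC j
  have hc1 := cont_CC (j + 1)
  have h := intervalIntegral.integral_eq_sub_of_hasDerivAt_of_le zero_le_one
    (f := fun u : ℝ => u ^ (2 * j + 1) * CC j (u ^ 2 * y))
    (f' := fun u : ℝ => (2 * j + 1) * (u ^ (2 * j) * CC j (u ^ 2 * y)) +
      2 * y * (u ^ (2 * (j + 1)) * CC (j + 1) (u ^ 2 * y)))
    (Continuous.continuousOn (by fun_prop))
    (fun u hu => by
      have h1 := (hasDerivAt_pow (2 * j + 1) u).mul ((hasDerivAt_CC j
        (mul_pos (pow_pos hu.1 2) hy)).comp u ((hasDerivAt_pow 2 u).mul_const y))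
      refine h1.congr_deriv ?_
      simp only [Function.comp_apply, Nat.add_sub_cancel]
      push_cast
      ring)
    (Continuous.intervalIntegrable (by fun_prop) _ _)
  rw [intervalIntegral.integral_add (Continuous.intervalIntegrable (by fun_prop) _ _)
    (Continuous.intervalIntegrable (by fun_prop) _ _), intervalIntegral.integral_const_mul,
    intervalIntegral.integral_const_mul] at h
  simp only [one_pow, one_mul, ne_eq, Nat.add_eq_zero_iff, one_ne_zero, and_false,
    not_false_eq_true, zero_pow, zero_mul, sub_zero] at h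
  have e1 : CC (j + 1) y = -(1 / 2) * ∫ u in (0 : ℝ)..1, u ^ (2 * j) * CC j (u ^ 2 * y) := rfl
  have e2 : CC (j + 2) y =
    -(1 / 2) * ∫ u in (0 : ℝ)..1, u ^ (2 * (j + 1)) * CC (j + 1) (u ^ 2 * y) := rfl
  rw [← h, e2]
  conv_rhs => rw [e1]
  ring

theorem CC_one (hy : 0 < y) : CC 1 y = -Real.sin √y / (2 * √y) := by
  have h1 : HasDerivAt (CC 0) (-Real.sin √y * (1 / (2 * √y))) y :=
    (Real.hasDerivAt_cos _).comp y (Real.hasDerivAt_sqrt hy.ne')
  rw [(hasDerivAt_CC 0 hy).unique h1, mul_one_div]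

theorem aa_pos (hC : 0 < C) (hq : 0 < q) (i : ℕ) : 0 < aa C q i := by
  have h1 := mu_pos hC (a := q) (by linarith)
  have h2 := mu_pos hC (a := (2 * i + 1) * q) (lt_trans (by norm_num) (by positivity : (0 : ℝ) < _))
  unfold aa; positivity

theorem aa_zero (hC : 0 < C) (hq : 0 < q) : aa C q 0 = 1 := by
  have h1 := mu_pos hC (a := q) (by linarith)
  simp [aa, h1.ne']

namespace FTowerX

theorem cont_R (hq : 0 < q) : Continuous fun w : ℝ => (w / C) ^ q :=
  (continuous_id.div_const C).rpow_const fun _ => Or.inr hq.le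

theorem wt_int (hC : 0 < C) (hq : 0 < q) (j : ℕ) :
    IntegrableOn (fun w : ℝ => Real.exp (-w) * ((w / C) ^ q) ^ (2 * j + 1)) (Ioi 0) ∧
      ∫ w in Ioi (0 : ℝ), Real.exp (-w) * ((w / C) ^ q) ^ (2 * j + 1) = mu C ((2 * j + 1) * q) := by
  have h := mu_int hC (a := (2 * j + 1) * q) (lt_trans (by norm_num) (by positivity : (0 : ℝ) < _))
  have h1 : EqOn (fun w : ℝ => Real.exp (-w) * (w / C) ^ ((2 * j + 1) * q))
      (fun w : ℝ => Real.exp (-w) * ((w / C) ^ q) ^ (2 * j + 1)) (Ioi 0) := fun w hw => by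
    simp only
    rw [← Real.rpow_mul_natCast (div_nonneg (le_of_lt hw) hC.le), mul_comm q]
    push_cast
    rfl
  exact ⟨h.1.congr_fun h1 measurableSet_Ioi, by
    rw [← setIntegral_congr_fun measurableSet_Ioi h1, h.2]⟩

theorem bound (hC : 0 < C) (j : ℕ) : ∀ᵐ w ∂(volume.restrict (Ioi (0 : ℝ))), ∀ z : ℝ,
    ‖Real.exp (-w) * (((w / C) ^ q) ^ (2 * j + 1) * CC (j + 1) z)‖ ≤
      Real.exp (-w) * ((w / C) ^ q) ^ (2 * j + 1) * bb (j + 1) := by
  refine (ae_restrict_iff' measurableSet_Ioi).2 (Filter.Eventually.of_forall fun w hw z => ?_)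
  have h0 : 0 ≤ Real.exp (-w) * ((w / C) ^ q) ^ (2 * j + 1) := by
    have : 0 ≤ w / C := div_nonneg (le_of_lt hw) hC.le
    positivity
  rw [← mul_assoc, Real.norm_eq_abs, abs_mul, abs_of_nonneg h0]
  exact mul_le_mul_of_nonneg_left (abs_CC _ _) h0

theorem meas (hq : 0 < q) (j : ℕ) (y : ℝ) : Continuous fun w : ℝ => Real.exp (-w) *
    (((w / C) ^ q) ^ (2 * j + 1) * CC (j + 1) (((w / C) ^ q) ^ 2 * y)) := by
  have h1 := cont_R (C := C) hq
  have h2 := cont_CC (j + 1)
  fun_prop

theorem two_bb_mu (hC : 0 < C) (hq : 0 < q) (j : ℕ) :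
    2 * (mu C ((2 * j + 1) * q) * bb (j + 1)) / mu C q = (j.factorial : ℝ) * aa C q j := by
  have h1 := mu_pos hC (a := q) (by linarith)
  rw [mul_left_comm, two_bb, aa]
  field_simp

end FTowerX

open FTowerX

theorem cont_gg (hC : 0 < C) (hq : 0 < q) (j : ℕ) : Continuous (gg C j q) := by
  have hc := cont_CC (j + 1)
  refine (Continuous.mul continuous_const ?_).div_const _
  exact continuous_of_dominated (fun s => (meas hq j s).aestronglyMeasurable)
    (fun s => (bound hC j).mono fun w hw => hw _) ((wt_int hC hq j).1.mul_const _)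
    (Filter.Eventually.of_forall fun x => by fun_prop)

theorem hasDerivAt_gg (hC : 0 < C) (hq : 0 < q) (j : ℕ) (hy : 0 < y) :
    HasDerivAt (gg C j q) (gg C (j + 1) q y) y := by
  have := hasDerivAt_integral_of_dominated_loc_of_deriv_le (μ := volume.restrict (Ioi (0 : ℝ)))
    (F := fun y w => Real.exp (-w) *
      (((w / C) ^ q) ^ (2 * j + 1) * CC (j + 1) (((w / C) ^ q) ^ 2 * y)))
    (F' := fun y w => Real.exp (-w) *
      (((w / C) ^ q) ^ (2 * (j + 1) + 1) * CC (j + 1 + 1) (((w / C) ^ q) ^ 2 * y))) (x₀ := y)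
    (s := Ioi 0) (Ioi_mem_nhds hy)
    (Filter.Eventually.of_forall fun s => (meas hq j s).aestronglyMeasurable)
    (((wt_int hC hq j).1.mul_const _).mono' (meas hq j y).aestronglyMeasurable
      ((bound hC j).mono fun w hw => hw _))
    (meas hq (j + 1) y).aestronglyMeasurable
    ((bound hC (j + 1)).mono fun w hw s _ => hw _) ((wt_int hC hq (j + 1)).1.mul_const _)
    ((ae_restrict_iff' measurableSet_Ioi).2 (Filter.Eventually.of_forall fun w hw z hz => by
      have hp : 0 < ((w / C) ^ q) ^ 2 * z :=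
        mul_pos (pow_pos (Real.rpow_pos_of_pos (div_pos hw hC) _) 2) hz
      have h1 := (((hasDerivAt_CC (j + 1) hp).comp z ((hasDerivAt_id z).const_mul
        (((w / C) ^ q) ^ 2))).const_mul (((w / C) ^ q) ^ (2 * j + 1))).const_mul (Real.exp (-w))
      refine h1.congr_deriv ?_
      ring))
  exact (this.2.const_mul (-2)).div_const _

theorem abs_gg (hC : 0 < C) (hq : 0 < q) (j : ℕ) (y : ℝ) :
    |gg C j q y| ≤ (j.factorial : ℝ) * aa C q j := by
  have h0 := mu_pos hC (a := q) (by linarith)
  have h1 := norm_integral_le_of_norm_le ((wt_int hC hq j).1.mul_const _)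
    ((bound (q := q) hC j).mono fun w hw => hw (((w / C) ^ q) ^ 2 * y))
  rw [integral_mul_const, (wt_int hC hq j).2, Real.norm_eq_abs] at h1
  rw [← two_bb_mu hC hq, gg, GG, abs_div, abs_of_pos h0, abs_mul, abs_neg, abs_two]
  gcongr

theorem gg_zero (hC : 0 < C) (hq : 0 < q) (j : ℕ) :
    gg C j q 0 = (-1) ^ j * (j.factorial : ℝ) * aa C q j := by
  simp only [gg, GG, mul_zero, CC_zero, ← mul_assoc]
  rw [mul_assoc _ _ (aa C q j), ← two_bb_mu hC hq, integral_mul_const, integral_mul_const,
    (wt_int hC hq j).2]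
  ring

theorem gg_sm (hC : 0 < C) (hq : 0 < q) : Sm (gg C 0 q) (gg C 1 q) (gg C 2 q) :=
  ⟨cont_gg hC hq 0, cont_gg hC hq 1, cont_gg hC hq 2, fun _ hy => hasDerivAt_gg hC hq 0 hy,
    fun _ hy => hasDerivAt_gg hC hq 1 hy, by simp [gg_zero hC hq, aa_zero hC hq],
    fun y _ => by simpa [aa_zero hC hq] using abs_gg hC hq 0 y⟩

/-- Two sided Taylor formula for an abstract tower. -/
theorem taylor_loc (f : ℕ → ℝ → ℝ) (hc : ∀ j, Continuous (f j))
    (hd : ∀ j y, 0 < y → HasDerivAt (f j) (f (j + 1) y) y) (N j : ℕ) {c x B : ℝ} (hc0 : 0 ≤ c)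
    (hx : 0 ≤ x) (hB : ∀ t ∈ uIcc c x, |f (j + N) t| ≤ B) :
    |f j x - ∑ i ∈ Finset.range N, f (j + i) c * (x - c) ^ i / (i.factorial : ℝ)| ≤
      B * |x - c| ^ N / (N.factorial : ℝ) := by
  induction N generalizing j x with
  | zero => simpa using hB x right_mem_uIcc
  | succ N ih =>
    have hg := hc j
    have hN : ((N.factorial : ℕ) : ℝ) ≠ 0 := by positivity
    have hF : ∀ t, 0 < t → HasDerivAt (fun x => f j x - ∑ i ∈ Finset.range N,
        f (j + (i + 1)) c * (x - c) ^ (i + 1) / (i + 1).factorial)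
        (f (j + 1) t - ∑ i ∈ Finset.range N, f (j + 1 + i) c * (t - c) ^ i / i.factorial) t := by
      intro t ht
      refine (hd j t ht).sub (HasDerivAt.fun_sum fun i _ => ?_)
      have h1 := ((((hasDerivAt_id t).sub_const c).pow (i + 1)).const_mul
        (f (j + (i + 1)) c)).div_const ((i + 1).factorial : ℝ)
      refine h1.congr_deriv ?_
      rw [Nat.factorial_succ, show j + 1 + i = j + (i + 1) by ring]
      have : ((i.factorial : ℕ) : ℝ) ≠ 0 := by positivity
      simp
      field_simp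
    have hI : ∀ t ∈ uIcc c x, 0 ≤ t → |f (j + 1) t - ∑ i ∈ Finset.range N,
        f (j + 1 + i) c * (t - c) ^ i / i.factorial| ≤ B * |t - c| ^ N / N.factorial :=
      fun t ht h0 => ih (j + 1) h0 fun s hs => by
        rw [show j + 1 + N = j + (N + 1) by ring]
        exact hB s (uIcc_subset_uIcc_left ht hs)
    rw [Finset.sum_range_succ']
    simp only [add_zero, pow_zero, mul_one, Nat.factorial_zero, Nat.cast_one, div_one]
    rcases le_total c x with h | h
    · have := abs_sub_le_of_bound (B := fun x => B * (x - c) ^ (N + 1) / (N + 1).factorial)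
        (B' := fun x => B * (x - c) ^ N / N.factorial) h
        (Continuous.continuousOn (by fun_prop)) (Continuous.continuousOn (by fun_prop))
        (fun t ht => hF t (hc0.trans_lt ht.1))
        (fun t _ => by
          have h1 := ((((hasDerivAt_id t).sub_const c).pow (N + 1)).const_mul B).div_const
            ((N + 1).factorial : ℝ)
          refine h1.congr_deriv ?_
          rw [Nat.factorial_succ]
          simp
          field_simp)
        (fun t ht => by
          have := hI t (by rw [uIcc_of_le h]; exact Ioo_subset_Icc_self ht) (hc0.trans ht.1.le)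
          rwa [abs_of_nonneg (sub_nonneg.2 ht.1.le)] at this)
      simp only [sub_self, ne_eq, Nat.add_eq_zero_iff, one_ne_zero, and_false, not_false_eq_true,
        zero_pow, mul_zero, zero_div, Finset.sum_const_zero, sub_zero] at this
      rw [abs_of_nonneg (sub_nonneg.2 h), ← sub_sub]
      exact this
    · have := abs_sub_le_of_bound (B := fun x => -(B * (c - x) ^ (N + 1) / (N + 1).factorial))
        (B' := fun x => B * (c - x) ^ N / N.factorial) h
        (Continuous.continuousOn (by fun_prop)) (Continuous.continuousOn (by fun_prop))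
        (fun t ht => hF t (hx.trans_lt ht.1))
        (fun t _ => by
          have h1 := (((((hasDerivAt_id t).const_sub c).pow (N + 1)).const_mul B).div_const
            ((N + 1).factorial : ℝ)).neg
          refine h1.congr_deriv ?_
          rw [Nat.factorial_succ]
          simp
          field_simp)
        (fun t ht => by
          have := hI t (by rw [uIcc_of_ge h]; exact Ioo_subset_Icc_self ht) (hx.trans ht.1.le)
          rwa [abs_sub_comm t c, abs_of_nonneg (sub_nonneg.2 ht.2.le)] at this)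
      simp only [sub_self, ne_eq, Nat.add_eq_zero_iff, one_ne_zero, and_false, not_false_eq_true,
        zero_pow, mul_zero, zero_div, Finset.sum_const_zero, sub_zero, neg_zero, zero_sub,
        neg_neg] at this
      rw [abs_sub_comm x c, abs_of_nonneg (sub_nonneg.2 h), ← sub_sub, abs_sub_comm]
      exact this

/-- The power series at zero with its remainder. -/
theorem gg_series (hC : 0 < C) (hq : 0 < q) (hy : 0 ≤ y) {j N : ℕ} (hj : j ≤ N) :
    |gg C j q y / (j.factorial : ℝ) -
        ∑ i ∈ Finset.range (N + 1), (-1) ^ i * aa C q i * (i.choose j : ℝ) * y ^ (i - j)| ≤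
      aa C q (N + 1) * ((N + 1).choose j : ℝ) * y ^ (N + 1 - j) := by
  obtain ⟨M, rfl⟩ := Nat.exists_eq_add_of_le hj
  have hjf : (0 : ℝ) < j.factorial := by positivity
  have hch : ∀ m : ℕ, (((j + m).choose j : ℕ) : ℝ) =
      (j + m).factorial / (j.factorial * m.factorial) := fun m => by
    rw [eq_div_iff (by positivity), ← mul_assoc]
    exact_mod_cast (by
      rw [add_comm j m, mul_right_comm]; exact Nat.add_choose_mul_factorial_mul_factorial m j)
  have h := taylor_loc (fun j => gg C j q) (cont_gg hC hq) (fun j y hy => hasDerivAt_gg hC hq j hy)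
    (M + 1) j le_rfl hy fun t _ => abs_gg hC hq _ t
  rw [add_assoc, Finset.sum_range_add, Finset.sum_eq_zero (s := Finset.range j) fun i hi => by
    rw [Nat.choose_eq_zero_of_lt (Finset.mem_range.1 hi)]; simp, zero_add, Nat.add_sub_cancel_left,
    hch]
  simp only [sub_zero, abs_of_nonneg hy, gg_zero hC hq] at h
  have e : gg C j q y / (j.factorial : ℝ) - ∑ i ∈ Finset.range (M + 1),
      (-1) ^ (j + i) * aa C q (j + i) * ((j + i).choose j : ℝ) * y ^ (j + i - j) =
      (gg C j q y - ∑ i ∈ Finset.range (M + 1), (-1) ^ (j + i) * ((j + i).factorial : ℝ) *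
        aa C q (j + i) * y ^ i / (i.factorial : ℝ)) / j.factorial := by
    rw [sub_div, Finset.sum_div]
    congr 1
    refine Finset.sum_congr rfl fun i _ => ?_
    rw [hch, Nat.add_sub_cancel_left]
    field_simp
  rw [e, abs_div, abs_of_pos hjf, div_le_iff₀ hjf]
  refine h.trans (le_of_eq ?_)
  field_simp

theorem gg_ge_lin (hC : 0 < C) (hq : 0 < q) (hy : 0 ≤ y) : 1 - aa C q 1 * y ≤ gg C 0 q y := by
  have h := gg_series hC hq hy (j := 0) (N := 0) le_rfl
  simp only [Nat.factorial_zero, Nat.cast_one, div_one, zero_add, Finset.range_one,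
    Finset.sum_singleton, pow_zero, aa_zero hC hq, mul_one, Nat.choose_zero_right, tsub_zero,
    pow_one] at h
  linarith [(abs_le.1 h).1]

end Pool.Agent.MP_39fec4_gt.Full
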