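import Pool.Agent.MP_39fec4_gt.FDefs
import Pool.Agent.MP_39fec4_gt.FTower

set_option autoImplicit false

namespace Pool.Agent.MP_39fec4_gt.Full

open MeasureTheory Set Real Ball P4

variable {C q y : ℝ}

namespace FLinkX

theorem two_lt_inv (hq : 0 < q) (hq2 : q < 1 / 2) : 2 < 1 / q := by
  rw [lt_div_iff₀ hq]; linarith

theorem mu_pos' (hC : 0 < C) (hq : 0 < q) : 0 < mu C q := mu_pos hC (by linarith)

theorem Zp_inv (q : ℝ) : Zp (1 / q) = Real.Gamma (1 + q) := by rw [Zp, one_div_one_div]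

theorem sinT_rho (hq : 0 < q) (hq2 : q < 1 / 2) (x : ℝ) :
    sinT (rho (1 / q)) x =
      ∫ w in Ioi (0 : ℝ), Real.exp (-w) * Real.sin (x * (w ^ q / Real.Gamma (1 + q))) := by
  have hp := two_lt_inv hq hq2
  have hZ := Zp_pos hp
  have hb := bp_pos hp
  have hp0 : 0 < 1 / q := by positivity
  have e1 := integral_comp_rpow_Ioi_of_pos
    (g := fun v : ℝ => bp (1 / q) * (Real.exp (-(bp (1 / q) * v)) * Real.sin (x * v ^ q))) hp0
  have e2 := integral_scale
    (fun w : ℝ => Real.exp (-w) * Real.sin (x * (w ^ q / Real.Gamma (1 + q)))) hb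
  have hbq : bp (1 / q) ^ q = Real.Gamma (1 + q) := by
    rw [bp, ← Real.rpow_mul hZ.le, one_div_mul_cancel hq.ne', Real.rpow_one, Zp_inv]
  have hG : 0 < Real.Gamma (1 + q) := Real.Gamma_pos_of_pos (by linarith)
  rw [eq_div_iff hb.ne'] at e2
  rw [← e2, mul_comm, ← integral_const_mul]
  have e3 : ∫ v in Ioi (0 : ℝ), bp (1 / q) * (Real.exp (-(bp (1 / q) * v)) *
      Real.sin (x * ((bp (1 / q) * v) ^ q / Real.Gamma (1 + q)))) =
      ∫ v in Ioi (0 : ℝ), bp (1 / q) * (Real.exp (-(bp (1 / q) * v)) * Real.sin (x * v ^ q)) := by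
    refine setIntegral_congr_fun measurableSet_Ioi fun v hv => ?_
    have hv : 0 < v := hv
    rw [Real.mul_rpow hb.le hv.le, hbq, mul_div_cancel_left₀ _ hG.ne']
  rw [e3, ← e1, sinT]
  refine setIntegral_congr_fun measurableSet_Ioi fun t ht => ?_
  have ht : 0 < t := ht
  simp only [rho, Ball.W, Ball.K, smul_eq_mul]
  rw [← Real.rpow_mul ht.le, one_div_mul_cancel hq.ne', Real.rpow_one, neg_mul]
  ring

theorem power_mean {p r : ℝ} (hp : 2 < p) (hr : 0 < r) :
    (1 + r ^ p) ^ (-(1 / p)) ≤ √2 * 2 ^ (-(1 / p)) / √(1 + r ^ 2) := by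
  have hp0 : 0 < p := by linarith
  have h1 := (convexOn_rpow (p := p / 2) (by linarith)).2 (mem_Ici.2 (zero_le_one (α := ℝ)))
    (mem_Ici.2 (sq_nonneg r)) (show (0 : ℝ) ≤ 1 / 2 by norm_num) (show (0 : ℝ) ≤ 1 / 2 by norm_num)
    (by norm_num)
  simp only [smul_eq_mul, Real.one_rpow] at h1
  rw [← Real.rpow_two, ← Real.rpow_mul hr.le, show 2 * (p / 2) = p by ring, Real.rpow_two] at h1
  have h2 := Real.rpow_le_rpow (by positivity) h1 (z := 1 / p) (by positivity)
  rw [← Real.rpow_mul (by positivity), show p / 2 * (1 / p) = 1 / 2 by field_simp,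
    ← Real.sqrt_eq_rpow, show 1 / 2 * 1 + 1 / 2 * r ^ 2 = (1 + r ^ 2) / 2 by ring,
    show 1 / 2 * 1 + 1 / 2 * r ^ p = (1 + r ^ p) / 2 by ring, Real.sqrt_div (by positivity),
    Real.div_rpow (by positivity) (by norm_num)] at h2
  have a1 : 0 < (1 + r ^ p) ^ (1 / p) := by positivity
  have a2 : (0 : ℝ) < 2 ^ (1 / p) := by positivity
  have a3 : 0 < √(1 + r ^ 2) := by positivity
  have a4 : (0 : ℝ) < √2 := by positivity
  rw [Real.rpow_neg (by positivity), Real.rpow_neg (by norm_num)]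
  rw [div_le_div_iff₀ a4 a2] at h2
  rw [le_div_iff₀ a3, inv_mul_le_iff₀ a1, ← mul_assoc, le_mul_inv_iff₀ a2]
  exact h2

end FLinkX

open FLinkX

theorem gg_eq_ff (hC : 0 < C) (hq : 0 < q) (hq2 : q < 1 / 2) (hy : 0 ≤ y) :
    gg C 0 q y = ff (1 / q) (mu C q * √y) := by
  have hp := two_lt_inv hq hq2
  rcases hy.eq_or_lt with rfl | hy
  · rw [gg_zero hC hq, aa_zero hC hq, Real.sqrt_zero, mul_zero, ff_zero hp]; simp
  have hm := mu_pos' hC hq
  have hu : 0 < √y := Real.sqrt_pos.2 hy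
  have hG : 0 < Real.Gamma (1 + q) := Real.Gamma_pos_of_pos (by linarith)
  have e := x_mul_ff hp (mu C q * √y)
  rw [sinT_rho hq hq2] at e
  have e2 : GG C 0 q y * √y =
      ∫ w in Ioi (0 : ℝ), Real.exp (-w) *
        Real.sin (mu C q * √y * (w ^ q / Real.Gamma (1 + q))) := by
    rw [GG, ← integral_const_mul, ← integral_mul_const]
    refine setIntegral_congr_fun measurableSet_Ioi fun w hw => ?_
    have hw : 0 < w := hw
    have hR : 0 < (w / C) ^ q := by positivity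
    have hs : √(((w / C) ^ q) ^ 2 * y) = (w / C) ^ q * √y := by
      rw [Real.sqrt_mul (sq_nonneg _), Real.sqrt_sq hR.le]
    have ha : mu C q * √y * (w ^ q / Real.Gamma (1 + q)) = (w / C) ^ q * √y := by
      rw [mu, Real.div_rpow hw.le hC.le, Real.rpow_neg hC.le]; field_simp
    simp only [mul_zero, zero_add, pow_one]
    rw [CC_one (by positivity), hs, ha]
    field_simp
  rw [gg, div_eq_iff hm.ne']
  refine mul_right_cancel₀ hu.ne' ?_
  rw [e2, ← e]; ring

namespace FLinkX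

theorem gg_sq (hC : 0 < C) (hq : 0 < q) (hq2 : q < 1 / 2) {x s : ℝ} (hx : 0 ≤ x) (hs : 0 < s) :
    gg C 0 q (x * s ^ 2) = ff (1 / q) (mu C q * √x * s) := by
  rw [gg_eq_ff hC hq hq2 (by positivity), Real.sqrt_mul hx, Real.sqrt_sq hs.le, mul_assoc]

theorem abs_gg_le (hC : 0 < C) (hq : 0 < q) (y : ℝ) : |gg C 0 q y| ≤ 1 := by
  simpa [aa_zero hC hq] using abs_gg hC hq 0 y

end FLinkX

theorem II_eq_IG (hC : 0 < C) (hq : 0 < q) (hq2 : q < 1 / 2) {n : ℕ} (x : Fin n → ℝ)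
    (hx : ∀ j, 0 ≤ x j) : II (1 / q) x = mu C q * IG (gg C 0 q) Finset.univ x := by
  have hm := mu_pos' hC hq
  have e := integral_scale (fun s => ∏ j, ff (1 / q) (√(x j) * s)) hm
  rw [eq_div_iff hm.ne'] at e
  rw [II, ← e, mul_comm, IG]
  congr 1
  refine setIntegral_congr_fun measurableSet_Ioi fun s hs => ?_
  refine Finset.prod_congr rfl fun j _ => ?_
  rw [gg_sq hC hq hq2 (hx j) hs]; congr 1; ring

theorem Dg_eq_DG (hC : 0 < C) (hq : 0 < q) (hq2 : q < 1 / 2) (n : ℕ) :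
    Dg (1 / q) n = mu C q * DG (gg C 0 q) n := by
  have hm := mu_pos' hC hq
  have e := integral_scale (fun s => ff (1 / q) (√(1 / (n : ℝ)) * s) ^ n) hm
  rw [eq_div_iff hm.ne'] at e
  rw [Dg, ← e, mul_comm, DG]
  congr 1
  refine setIntegral_congr_fun measurableSet_Ioi fun s hs => ?_
  rw [show s ^ 2 / (n : ℝ) = 1 / (n : ℝ) * s ^ 2 by ring, gg_sq hC hq hq2 (by positivity) hs]
  congr 2; ring

theorem Bl_eq_kap (hC : 0 < C) (hq : 0 < q) : Bl (1 / q) = mu C q * kap C q := by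
  have hm := mu_pos' hC hq
  have h2 : (0 : ℝ) < √2 := by positivity
  have h3 : √2 * √2 = 2 := Real.mul_self_sqrt (by norm_num)
  rw [Bl, I2, kap, one_div_one_div, mul_div_cancel₀ _ hm.ne', ← mul_assoc]
  congr 1
  rw [eq_div_iff h2.ne']
  linear_combination π / 2 * h3

theorem int_IG (hC : 0 < C) (hq : 0 < q) (hq2 : q < 1 / 2) {ι : Type} (T : Finset ι) (x : ι → ℝ)
    (hx : ∀ j ∈ T, 0 ≤ x j) {i : ι} (hi : i ∈ T) (h0 : 0 < x i) :
    IntegrableOn (fun s : ℝ => ∏ j ∈ T, gg C 0 q (x j * s ^ 2)) (Ioi 0) := by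
  classical
  have hm := mu_pos' hC hq
  refine IntegrableOn.congr_fun (int_prod (two_lt_inv hq hq2) T (fun j => mu C q * √(x j)) hi
    (by positivity)) (fun s hs => ?_) measurableSet_Ioi
  exact Finset.prod_congr rfl fun j hj => (gg_sq hC hq hq2 (hx j hj) hs).symm

theorem int_DG (hC : 0 < C) (hq : 0 < q) (hq2 : q < 1 / 2) {n : ℕ} (hn : 1 ≤ n) :
    IntegrableOn (fun s : ℝ => gg C 0 q (s ^ 2 / n) ^ n) (Ioi 0) := by
  have hn0 : (0 : ℝ) < n := by exact_mod_cast hn
  have := int_IG hC hq hq2 (Finset.range n) (fun _ => 1 / (n : ℝ)) (fun _ _ => by positivity)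
    (Finset.mem_range.2 hn) (by positivity)
  simp only [Finset.prod_const, Finset.card_range] at this
  simpa only [one_div, inv_mul_eq_div] using this

/-- A product with one decaying factor and a bounded continuous factor. -/
theorem int_mul_gg (hC : 0 < C) (hq : 0 < q) (hq2 : q < 1 / 2) {x1 : ℝ} (h1 : 0 < x1)
    {f : ℝ → ℝ} (hf : Continuous f) {B : ℝ} (hB : ∀ s, |f s| ≤ B) :
    IntegrableOn (fun s : ℝ => gg C 0 q (x1 * s ^ 2) * f s) (Ioi 0) := by
  have := int_IG hC hq hq2 ({0} : Finset ℕ) (fun _ => x1) (fun _ _ => h1.le)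
    (Finset.mem_singleton_self 0) h1
  simp only [Finset.prod_singleton] at this
  exact this.mul_bdd (c := B) hf.aestronglyMeasurable (Filter.Eventually.of_forall hB)

theorem int_P3 (hC : 0 < C) (hq : 0 < q) (hq2 : q < 1 / 2) {x1 x2 x3 : ℝ} (h1 : 0 < x1)
    (h2 : 0 ≤ x2) (h3 : 0 ≤ x3) (k : ℕ) :
    IntegrableOn (fun s : ℝ => P3 (gg C 0 q) x1 x2 x3 k (s ^ 2)) (Ioi 0) := by
  have c := cont_gg hC hq 0
  have _ := add_nonneg h2 h3
  simp only [P3, mul_assoc]
  refine int_mul_gg hC hq hq2 h1 (B := 1) (by fun_prop) fun s => ?_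
  rw [abs_mul, abs_pow]
  exact mul_le_one₀ (abs_gg_le hC hq _) (by positivity)
    (pow_le_one₀ (abs_nonneg _) (abs_gg_le hC hq _))

/-- The two coordinate integral is at most the Ball value after rescaling. -/
theorem two_le_kap (hC : 0 < C) (hq : 0 < q) (hq2 : q < 1 / 2) {x1 x2 : ℝ} (h1 : 0 < x1)
    (h2 : 0 < x2) : ∫ s in Ioi (0 : ℝ), gg C 0 q (x1 * s ^ 2) * gg C 0 q (x2 * s ^ 2) ≤
      kap C q / √(x1 + x2) := by
  have hm := mu_pos' hC hq
  have hp := two_lt_inv hq hq2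
  have hπ := Real.pi_pos
  have a1 : 0 < √x1 := Real.sqrt_pos.2 h1
  have a2 : 0 < √x2 := Real.sqrt_pos.2 h2
  have t := two_phys hp (α := mu C q * √x1) (β := mu C q * √x2) (by positivity) (by positivity) 0
  rw [cosT_zero, mul_div_mul_left _ _ hm.ne'] at t
  rw [setIntegral_congr_fun measurableSet_Ioi (g := fun s =>
    ff (1 / q) (mu C q * √x1 * s) * ff (1 / q) (mu C q * √x2 * s)) fun s hs => by
      simp only; rw [gg_sq hC hq hq2 h1.le hs, gg_sq hC hq hq2 h2.le hs]]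
  refine t.trans ((mul_le_mul_of_nonneg_left (power_mean hp (by positivity))
    (by positivity)).trans (le_of_eq ?_))
  have h3 : √2 * √2 = 2 := Real.mul_self_sqrt (by norm_num)
  have h4 : (0 : ℝ) < √2 := by positivity
  have h5 : √(1 + (√x2 / √x1) ^ 2) = √(x1 + x2) / √x1 := by
    rw [div_pow, Real.sq_sqrt h1.le, Real.sq_sqrt h2.le, ← Real.sqrt_div (by positivity)]
    congr 1; field_simp
  have h6 : 0 < √(x1 + x2) := by positivity
  rw [h5, kap, one_div_one_div]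
  field_simp
  linear_combination h3

theorem one_le (hC : 0 < C) (hq : 0 < q) (hq2 : q < 1 / 2) {ι : Type} (T : Finset ι) (x : ι → ℝ)
    (hx : ∀ j ∈ T, 0 ≤ x j) {i : ι} (hi : i ∈ T) (h0 : 0 < x i) :
    IG (gg C 0 q) T x ≤ π / (2 * mu C q * √(x i)) := by
  classical
  have hm := mu_pos' hC hq
  have hp := two_lt_inv hq hq2
  have hπ := Real.pi_pos
  have i0 : 0 < mu C q * √(x i) := by positivity
  have t := (sup_prod hp (T.erase i) (fun j => mu C q * √(x j)) (int_scale (int_ff hp) i0)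
    (M := π / (2 * (mu C q * √(x i)))) fun z => by
      rw [one_phys hp i0]
      exact mul_le_of_le_one_right (by positivity) (K_le_one hp (by positivity))).2 0
  rw [cosT_zero] at t
  rw [mul_assoc]
  refine le_of_eq_of_le ?_ t
  refine setIntegral_congr_fun measurableSet_Ioi fun s hs => ?_
  rw [Finset.mul_prod_erase T (fun j => ff (1 / q) (mu C q * √(x j) * s)) hi]
  exact Finset.prod_congr rfl fun j hj => gg_sq hC hq hq2 (hx j hj) hs

end Pool.Agent.MP_39fec4_gt.Full
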