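import Pool.Agent.MP_39fec4_gt.FDefs
import Pool.Agent.MP_39fec4_gt.FTower
import Pool.Agent.MP_39fec4_gt.FLink
import Pool.Agent.MP_39fec4_gt.FGam

set_option autoImplicit false

namespace Pool.Agent.MP_39fec4_gt.Full

open MeasureTheory Set Real Ball P4

/-- The constant in the cubic decay estimate, valid for `Q0 ≤ q ≤ Q1`. -/
noncomputable def c3 (Q0 Q1 : ℝ) : ℝ := (1 - 0.227 * Q0) ^ 2 *
  (2 / Q0 ^ 2 * (0.37 + 0.18 * (1 - 2 * Q0)) +
    2 / Q0 * (1 / Q0 - 1) * (1 - 0.63 * (1 - 2 * Q1)))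

namespace FC3X

open Filter Topology

variable {p r : ℝ}

/-- The derivative of `Ball.W p r`. -/
noncomputable def DW (p r y : ℝ) : ℝ := r * Ball.W p (r - 1) y - p * bp p * Ball.W p (r + p - 1) y

theorem int_DW (hp : 2 < p) (hr : 0 < r) : IntegrableOn (DW p r) (Ioi 0) :=
  ((Ball.int_W hp (by linarith)).const_mul _).sub ((Ball.int_W hp (by linarith)).const_mul _)

theorem hasDerivAt_W (hp : 2 < p) {y : ℝ} (hy : 0 < y) : HasDerivAt (Ball.W p r) (DW p r y) y := by
  have := (Real.hasDerivAt_rpow_const (x := y) (p := r) (Or.inl hy.ne')).mul (hasDerivAt_K hp y)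
  refine this.congr_deriv ?_
  simp only [DW, rho, Ball.W]
  rw [show r + p - 1 = r + (p - 1) by ring, Real.rpow_add hy]
  ring

theorem cont_W (hp : 2 < p) (hr : 0 < r) : Continuous (Ball.W p r) := by
  have c1 : Continuous fun y : ℝ => y ^ r := Real.continuous_rpow_const hr.le
  have c2 := cont_K hp
  unfold Ball.W; fun_prop

theorem W_zero (hr : 0 < r) : Ball.W p r 0 = 0 := by simp [Ball.W, Real.zero_rpow hr.ne']

theorem integral_DW (hp : 2 < p) (hr : 0 < r) {a : ℝ} (ha : 0 ≤ a) :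
    ∫ y in Ioi a, DW p r y = -Ball.W p r a := by
  have hinf := tendsto_zero_of_hasDerivAt_of_integrableOn_Ioi (a := 0)
    (fun x hx => hasDerivAt_W (r := r) hp hx) (int_DW hp hr) (Ball.int_W hp (by linarith))
  have := integral_Ioi_of_hasDerivAt_of_tendsto (a := a)
    (cont_W hp hr).continuousWithinAt (fun x hx => hasDerivAt_W hp (ha.trans_lt hx))
    ((int_DW hp hr).mono_set (Ioi_subset_Ioi ha)) hinf
  rw [this, zero_sub]

theorem DW_eq {y : ℝ} (hy : 0 < y) : DW p r y = (r - p * bp p * y ^ p) * Ball.W p (r - 1) y := by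
  simp only [DW, Ball.W]
  rw [show r + p - 1 = p + (r - 1) by ring, Real.rpow_add hy]
  ring

/-- The total variation of `Ball.W p r` is twice its maximum. -/
theorem tv_W (hp : 2 < p) (hr : 0 < r) {a M : ℝ}
    (hM : ∀ y, 0 < y → a * Ball.W p r y ≤ M) : a * ∫ y in Ioi (0 : ℝ), |DW p r y| ≤ 2 * M := by
  have hb := bp_pos hp
  have hp0 : 0 < p := by linarith
  set c : ℝ := (r / (p * bp p)) ^ (1 / p) with hc
  have hc0 : 0 < c := by positivity
  have hcp : p * bp p * c ^ p = r := by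
    rw [hc, ← Real.rpow_mul (by positivity), one_div_mul_cancel hp0.ne', Real.rpow_one]
    field_simp
  have hW : ∀ y, 0 < y → 0 ≤ Ball.W p (r - 1) y := fun y hy => by
    have := K_pos p y
    unfold Ball.W; positivity
  have hi := int_DW hp hr
  have hu : Ioi (0 : ℝ) = Ioc 0 c ∪ Ioi c := (Ioc_union_Ioi_eq_Ioi hc0.le).symm
  have hs1 : Ioc (0 : ℝ) c ⊆ Ioi 0 := Ioc_subset_Ioi_self
  have hs2 : Ioi c ⊆ Ioi (0 : ℝ) := Ioi_subset_Ioi hc0.le
  have e0 := setIntegral_union (Ioc_disjoint_Ioi_same (a := (0 : ℝ)) (b := c)) measurableSet_Ioi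
    (hi.mono_set hs1) (hi.mono_set hs2)
  have e1 := setIntegral_union (f := fun y => |DW p r y|)
    (Ioc_disjoint_Ioi_same (a := (0 : ℝ)) (b := c)) measurableSet_Ioi
    ((hi.mono_set hs1).abs) ((hi.mono_set hs2).abs)
  rw [← hu] at e0 e1
  have e2 : ∫ y in Ioc (0 : ℝ) c, |DW p r y| = ∫ y in Ioc (0 : ℝ) c, DW p r y := by
    refine setIntegral_congr_fun measurableSet_Ioc fun y hy => abs_of_nonneg ?_
    rw [DW_eq hy.1]
    refine mul_nonneg ?_ (hW y hy.1)
    have : y ^ p ≤ c ^ p := Real.rpow_le_rpow hy.1.le hy.2 hp0.le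
    have := mul_le_mul_of_nonneg_left this (show 0 ≤ p * bp p by positivity)
    linarith
  have e3 : ∫ y in Ioi c, |DW p r y| = -∫ y in Ioi c, DW p r y := by
    rw [← integral_neg]
    refine setIntegral_congr_fun measurableSet_Ioi fun y hy => abs_of_nonpos ?_
    have hy0 : 0 < y := hc0.trans hy
    rw [DW_eq hy0]
    refine mul_nonpos_of_nonpos_of_nonneg ?_ (hW y hy0)
    have : c ^ p ≤ y ^ p := Real.rpow_le_rpow hc0.le (le_of_lt hy) hp0.le
    have := mul_le_mul_of_nonneg_left this (show 0 ≤ p * bp p by positivity)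
    linarith
  rw [integral_DW hp hr le_rfl, integral_DW hp hr hc0.le, W_zero hr] at e0
  rw [e1, e2, e3, integral_DW hp hr hc0.le]
  have := hM c hc0
  have e4 : ∫ y in Ioc (0 : ℝ) c, DW p r y = Ball.W p r c := by linarith
  rw [e4]
  linarith

theorem chord {w t : ℝ} (hw : 0 ≤ w) (h0 : 0 ≤ t) (h1 : t ≤ 1) :
    w ^ t * Real.exp (-w) ≤ 1 - 0.63 * t ∧ w * w ^ t * Real.exp (-w) ≤ 0.37 + 0.18 * t := by
  have hg := Real.geom_mean_le_arith_mean2_weighted (w₁ := 1 - t) (w₂ := t) (p₁ := 1) (p₂ := w)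
    (by linarith) h0 zero_le_one hw (by ring)
  rw [Real.one_rpow, one_mul, mul_one] at hg
  have he := Real.exp_neg_one_lt_d9
  have he0 := Real.exp_pos (-1)
  have hE := Real.exp_pos (-w)
  have a0 : Real.exp (-w) ≤ 1 := Real.exp_le_one_iff.2 (by linarith)
  have key : ∀ u : ℝ, u * Real.exp (-u) ≤ Real.exp (-1) := fun u => by
    have h2 := Real.add_one_le_exp (u - 1)
    have h3 : Real.exp (u - 1) * Real.exp (-u) = Real.exp (-1) := by
      rw [← Real.exp_add]; congr 1; ring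
    have := mul_le_mul_of_nonneg_right h2 (Real.exp_pos (-u)).le
    linarith
  have a1 : w * Real.exp (-w) ≤ 0.37 := (key w).trans (by linarith)
  have a2 : w * w * Real.exp (-w) ≤ 0.55 := by
    have h2 := key (w / 2)
    have h3 : Real.exp (-w) = Real.exp (-(w / 2)) * Real.exp (-(w / 2)) := by
      rw [← Real.exp_add]; congr 1; ring
    have h4 : 0 ≤ w / 2 * Real.exp (-(w / 2)) := by positivity
    have h5 := mul_le_mul h2 h2 h4 he0.le
    rw [h3]
    nlinarith
  have b1 := mul_le_mul_of_nonneg_right hg hE.le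
  have b2 := mul_le_mul_of_nonneg_left b1 hw
  constructor
  · nlinarith
  · nlinarith

theorem W_bounds (hp : 2 < p) {y : ℝ} (hy : 0 < y) :
    bp p * Ball.W p (p - 2) y ≤ Zp p ^ 2 * (1 - 0.63 * (1 - 2 / p)) ∧
      bp p ^ 2 * Ball.W p (2 * p - 2) y ≤ Zp p ^ 2 * (0.37 + 0.18 * (1 - 2 / p)) := by
  have hZ := Zp_pos hp
  have hp0 : 0 < p := by linarith
  have ht : 2 / p < 1 := by rwa [div_lt_one hp0]
  have ht0 : 0 < 2 / p := by positivity
  have hw : 0 ≤ bp p * y ^ p := by have := bp_pos hp; positivity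
  obtain ⟨c1, c2⟩ := chord hw (t := 1 - 2 / p) (by linarith) (by linarith)
  have e1 : bp p * y ^ (p - 2) = Zp p ^ 2 * (bp p * y ^ p) ^ (1 - 2 / p) := by
    rw [bp, ← Real.mul_rpow hZ.le hy.le, ← Real.rpow_mul (by positivity),
      show p * (1 - 2 / p) = p - 2 by field_simp, Real.mul_rpow hZ.le hy.le, ← mul_assoc,
      ← Real.rpow_two, ← Real.rpow_add hZ]
    congr 2; ring
  have e2 : y ^ (2 * p - 2) = y ^ p * y ^ (p - 2) := by
    rw [← Real.rpow_add hy]; congr 1; ring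
  have hZ2 : 0 ≤ Zp p ^ 2 := by positivity
  constructor
  · have := mul_le_mul_of_nonneg_left c1 hZ2
    calc bp p * Ball.W p (p - 2) y = (bp p * y ^ (p - 2)) * Real.exp (-(bp p * y ^ p)) := by
          simp only [Ball.W, K, neg_mul]; ring
      _ ≤ _ := by rw [e1]; linarith
  · have := mul_le_mul_of_nonneg_left c2 hZ2
    calc bp p ^ 2 * Ball.W p (2 * p - 2) y =
          (bp p * y ^ p) * (bp p * y ^ (p - 2)) * Real.exp (-(bp p * y ^ p)) := by
          simp only [Ball.W, K, neg_mul]; rw [e2]; ring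
      _ ≤ _ := by rw [e1]; linarith

theorem cubic (hp : 2 < p) (s : ℝ) : |s * (s * (s * ff p s))| ≤
    Zp p ^ 2 * (2 * p ^ 2 * (0.37 + 0.18 * (1 - 2 / p)) +
      2 * p * (p - 1) * (1 - 0.63 * (1 - 2 / p))) := by
  have hb := bp_pos hp
  have hp0 : 0 < p := by linarith
  have hr1 : 0 < p - 1 := by linarith
  have hr2 : 0 < p - 2 := by linarith
  have hr3 : 0 < 2 * p - 2 := by linarith
  set A : ℝ := p * bp p * (p - 1) with hA
  set B : ℝ := (p * bp p) ^ 2 with hB
  have hA0 : 0 ≤ A := by positivity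
  have hB0 : 0 ≤ B := by positivity
  set r1 : ℝ → ℝ := fun y => A * Ball.W p (p - 2) y - B * Ball.W p (2 * p - 2) y with hr1d
  set r2 : ℝ → ℝ := fun y => A * DW p (p - 2) y - B * DW p (2 * p - 2) y with hr2d
  have i1 : IntegrableOn r1 (Ioi 0) :=
    ((Ball.int_W hp (by linarith)).const_mul _).sub ((Ball.int_W hp (by linarith)).const_mul _)
  have i2 : IntegrableOn r2 (Ioi 0) :=
    ((int_DW hp hr2).const_mul _).sub ((int_DW hp hr3).const_mul _)
  have hd : ∀ y, 0 < y → HasDerivAt (rho p) (r1 y) y := fun y hy => by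
    refine ((hasDerivAt_W (r := p - 1) hp hy).const_mul (p * bp p)).congr_deriv ?_
    simp only [hr1d, DW, hA, hB]
    rw [show p - 1 - 1 = p - 2 by ring, show p - 1 + p - 1 = 2 * p - 2 by ring]
    ring
  have hd2 : ∀ y, 0 < y → HasDerivAt r1 (r2 y) y := fun y hy =>
    ((hasDerivAt_W hp hy).const_mul A).sub ((hasDerivAt_W hp hy).const_mul B)
  have h0 : Tendsto (rho p) (𝓝[>] 0) (𝓝 0) := by
    have c : Continuous (rho p) := continuous_const.mul (cont_W hp hr1)
    have := (c.tendsto 0).mono_left (nhdsWithin_le_nhds (s := Ioi 0))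
    rwa [show rho p 0 = 0 by rw [rho, W_zero hr1, mul_zero]] at this
  have c1 : Continuous r1 :=
    (continuous_const.mul (cont_W hp hr2)).sub (continuous_const.mul (cont_W hp hr3))
  have e1 := parts_sin (int_rho0 hp) i1 hd h0 s
  have e2 := parts_cos i1 i2 hd2 ((c1.tendsto 0).mono_left (nhdsWithin_le_nhds (s := Ioi 0))) s
  rw [x_mul_ff hp, e1, e2, abs_neg]
  have j1 : IntegrableOn (fun y => A * |DW p (p - 2) y|) (Ioi 0) :=
    (int_DW hp hr2).abs.const_mul A
  have j2 : IntegrableOn (fun y => B * |DW p (2 * p - 2) y|) (Ioi 0) :=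
    (int_DW hp hr3).abs.const_mul B
  have h1 := abs_sinT_le (k := r2) (j1.add j2) (fun y _ => by
    refine (abs_sub _ _).trans ?_
    rw [abs_mul A, abs_mul B, abs_of_nonneg hA0, abs_of_nonneg hB0]
    exact le_rfl) s
  refine h1.trans ?_
  simp only [Pi.add_apply]
  rw [integral_add j1 j2, integral_const_mul, integral_const_mul]
  have t1 := tv_W hp hr2 fun y hy => (W_bounds hp hy).1
  have t2 := tv_W hp hr3 fun y hy => (W_bounds hp hy).2
  have u1 := mul_le_mul_of_nonneg_left t1 (show 0 ≤ p * (p - 1) by positivity)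
  have u2 := mul_le_mul_of_nonneg_left t2 (show 0 ≤ p ^ 2 by positivity)
  rw [hA, hB]
  nlinarith

end FC3X

theorem ff_cubic {q Q0 Q1 : ℝ} (h0 : 0 < Q0) (h1 : Q0 ≤ q) (h2 : q ≤ Q1) (h3 : Q1 < 1 / 2)
    {v : ℝ} (hv : 0 ≤ v) : |ff (1 / q) v| * v ^ 3 ≤ c3 Q0 Q1 := by
  have hq : 0 < q := h0.trans_le h1
  have hp : 2 < 1 / q := by rw [lt_div_iff₀ hq]; linarith
  have h := FC3X.cubic hp v
  have e : |v * (v * (v * ff (1 / q) v))| = |ff (1 / q) v| * v ^ 3 := by
    rw [abs_mul, abs_mul, abs_mul, abs_of_nonneg hv]; ring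
  have e2 : 2 / (1 / q) = 2 * q := by field_simp
  rw [e, e2] at h
  refine h.trans ?_
  have hZ0 := (Zp_pos hp).le
  have hZ : Zp (1 / q) ≤ 1 - 0.227 * Q0 := by
    have := gamma_le hq.le (by linarith)
    rw [Zp, one_div_one_div]
    linarith
  have hP : 1 / q ≤ 1 / Q0 := one_div_le_one_div_of_le h0 h1
  have e3 : 2 / Q0 ^ 2 = 2 * (1 / Q0) ^ 2 := by field_simp
  have e4 : 2 / Q0 = 2 * (1 / Q0) := by field_simp
  have n1 : 0 ≤ 0.37 + 0.18 * (1 - 2 * q) := by linarith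
  have n2 : 0 ≤ 1 - 0.63 * (1 - 2 * q) := by linarith
  have n3 : 0 ≤ 1 / q - 1 := by linarith
  have n4 : 0 ≤ 1 / Q0 - 1 := by linarith
  have n5 : 0 ≤ 1 / q := by linarith
  rw [c3, e3, e4]
  gcongr

theorem dec_cubic {C q Q0 Q1 y : ℝ} (hC : 0 < C) (h0 : 0 < Q0) (h1 : Q0 ≤ q) (h2 : q ≤ Q1)
    (h3 : Q1 < 1 / 2) (hy : 0 < y) : |gg C 0 q y| ≤ c3 Q0 Q1 / (mu C q ^ 3 * (y * √y)) := by
  have hq : 0 < q := h0.trans_le h1
  have hm : 0 < mu C q := mu_pos hC (by linarith)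
  have hs : 0 < √y := Real.sqrt_pos.2 hy
  have h := ff_cubic h0 h1 h2 h3 (v := mu C q * √y) (by positivity)
  rw [gg_eq_ff hC hq (by linarith) hy.le, le_div_iff₀ (by positivity)]
  have e : (mu C q * √y) ^ 3 = mu C q ^ 3 * (y * √y) := by
    rw [mul_pow, pow_succ √y 2, Real.sq_sqrt hy.le]
  rwa [e] at h

end Pool.Agent.MP_39fec4_gt.Full
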