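import Pool.Agent.MP_39fec4_gt.FDefs

set_option autoImplicit false

namespace Pool.Agent.MP_39fec4_gt.Full

open MeasureTheory Set Real Ball P4

variable {f g : ℝ → ℝ} {al be a b A0 A1 A2 B0 B1 B2 e e' : ℝ}

namespace FCalcX

theorem abs_mul_le' {x y X Y : ℝ} (hx : |x| ≤ X) (hy : |y| ≤ Y) : |x * y| ≤ X * Y := by
  rw [abs_mul]
  exact mul_le_mul hx hy (abs_nonneg _) ((abs_nonneg _).trans hx)

theorem d2_congr {f' : ℝ → ℝ} {al' : ℝ} (hf : D2 f al a b A0 A1 A2) (h : f = f') (h' : al = al')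
    (h0 : A0 = B0) (h1 : A1 = B1) (h2 : A2 = B2) : D2 f' al' a b B0 B1 B2 := by
  subst h h' h0 h1 h2
  exact hf

theorem d2_neg (hf : D2 f al a b A0 A1 A2) : D2 (fun s => -f s) al a b A0 A1 A2 := by
  obtain ⟨hc, f1, f2, h⟩ := hf
  refine ⟨hc.neg, fun s => -f1 s, fun s => -f2 s, fun s hs => ?_⟩
  obtain ⟨d0, d1, b0, b1, b2⟩ := h s hs
  refine ⟨d0.neg, d1.neg, by rwa [abs_neg], ?_, ?_⟩
  · have : -f1 s + al * -f s = -(f1 s + al * f s) := by ring
    rw [this, abs_neg]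
    exact b1
  · have : -f2 s + 2 * al * -f1 s + al ^ 2 * -f s =
        -(f2 s + 2 * al * f1 s + al ^ 2 * f s) := by ring
    rw [this, abs_neg]
    exact b2

theorem sq_deriv (c s : ℝ) : HasDerivAt (fun t : ℝ => c * t ^ 2 / 2) (c * s) s := by
  have h := ((hasDerivAt_pow 2 s).const_mul c).div_const 2
  have e : c * (((2 : ℕ) : ℝ) * s ^ (2 - 1)) / 2 = c * s := by
    simp only [Nat.cast_ofNat, Nat.add_one_sub_one, pow_one]
    ring
  rw [e] at h
  exact h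

theorem conv {f1 f2 : ℝ → ℝ} (hc : ContinuousOn f (Icc a b))
    (hd : ∀ s ∈ Ioo a b, HasDerivAt f (f1 s) s ∧ HasDerivAt f1 (f2 s) s ∧ -A2 ≤ f2 s) :
    ConvexOn ℝ (Icc a b) (fun s => f s + A2 * s ^ 2 / 2) := by
  refine convexOn_of_hasDerivWithinAt2_nonneg (f' := fun s => f1 s + A2 * s)
    (f'' := fun s => f2 s + A2) (convex_Icc a b) ?_ ?_ ?_ ?_
  · exact hc.add (by fun_prop)
  · intro x hx
    rw [interior_Icc] at hx
    exact ((hd x hx).1.add (sq_deriv A2 x)).hasDerivWithinAt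
  · intro x hx
    rw [interior_Icc] at hx
    have h2 : HasDerivAt (fun s : ℝ => A2 * s) A2 x := by
      simpa using (hasDerivAt_id x).const_mul A2
    exact ((hd x hx).2.1.add h2).hasDerivWithinAt
  · intro x hx
    rw [interior_Icc] at hx
    have := (hd x hx).2.2
    linarith

theorem ch_of_conv (hc : ConvexOn ℝ (Icc a b) (fun s => f s + A2 * s ^ 2 / 2)) (hab : a ≤ b)
    (h2 : 0 ≤ A2) : Ch f a b (A2 * (b - a) ^ 2 / 8) := by
  intro th h0 h1
  have := hc.2 (left_mem_Icc.2 hab) (right_mem_Icc.2 hab) (sub_nonneg.2 h1) h0 (by ring)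
  simp only [smul_eq_mul] at this
  have h3 : 0 ≤ A2 * (b - a) ^ 2 * (1 - 2 * th) ^ 2 := by positivity
  nlinarith

theorem taylor {f1 f2 : ℝ → ℝ} (hc : ContinuousOn f (Icc a b))
    (hd : ∀ s ∈ Ioo a b, HasDerivAt f (f1 s) s ∧ HasDerivAt f1 (f2 s) s ∧ |f2 s| ≤ A2)
    (hA : 0 ≤ A2) {x v : ℝ} (hx : x ∈ Icc a b) (hv : HasDerivAt f v x) :
    f b - f a ≤ v * (b - a) + A2 * (b - a) ^ 2 / 2 := by
  have hab : a ≤ b := hx.1.trans hx.2
  have c1 := conv (A2 := A2) hc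
    (fun s hs => ⟨(hd s hs).1, (hd s hs).2.1, (abs_le.1 (hd s hs).2.2).1⟩)
  have c2 := conv (A2 := A2) (f := fun s => -f s) (f1 := fun s => -f1 s) (f2 := fun s => -f2 s)
    hc.neg (fun s hs => ⟨(hd s hs).1.neg, (hd s hs).2.1.neg,
      neg_le_neg (abs_le.1 (hd s hs).2.2).2⟩)
  have e1 : f x - f a ≤ v * (x - a) + A2 * (x - a) ^ 2 / 2 := by
    rcases hx.1.eq_or_lt with h | h
    · subst h
      simp
    · have := c1.slope_le_of_hasDerivAt (left_mem_Icc.2 hab) hx h (hv.add (sq_deriv A2 x))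
      rw [slope_def_field, div_le_iff₀ (sub_pos.2 h)] at this
      nlinarith
  have e2 : f b - f x ≤ v * (b - x) + A2 * (b - x) ^ 2 / 2 := by
    rcases hx.2.eq_or_lt with h | h
    · subst h
      simp
    · have := c2.le_slope_of_hasDerivAt hx (right_mem_Icc.2 hab) h (hv.neg.add (sq_deriv A2 x))
      rw [slope_def_field, le_div_iff₀ (sub_pos.2 h)] at this
      nlinarith
  have e3 : 0 ≤ A2 * ((x - a) * (b - x)) :=
    mul_nonneg hA (mul_nonneg (sub_nonneg.2 hx.1) (sub_nonneg.2 hx.2))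
  nlinarith

theorem mvt {f1 : ℝ → ℝ} (hc : ContinuousOn f (Icc a b))
    (hd : ∀ s ∈ Ioo a b, HasDerivAt f (f1 s) s) {q q' : ℝ} (h1 : a ≤ q) (h2 : q < q')
    (h3 : q' ≤ b) : ∃ c ∈ Ioo a b, f q' - f q = f1 c * (q' - q) := by
  obtain ⟨c, hc1, hc2⟩ := exists_hasDerivAt_eq_slope f f1 h2 (hc.mono (Icc_subset_Icc h1 h3))
    (fun x hx => hd x ⟨h1.trans_lt hx.1, hx.2.trans_le h3⟩)
  refine ⟨c, ⟨h1.trans_lt hc1.1, hc1.2.trans_le h3⟩, ?_⟩
  rw [hc2, div_mul_cancel₀ _ (sub_pos.2 h2).ne']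

end FCalcX

open FCalcX

theorem D2.mul (hf : D2 f al a b A0 A1 A2) (hg : D2 g be a b B0 B1 B2) :
    D2 (fun s => f s * g s) (al + be) a b (A0 * B0) (A1 * B0 + A0 * B1)
      (A2 * B0 + 2 * A1 * B1 + A0 * B2) := by
  obtain ⟨hc, f1, f2, h⟩ := hf
  obtain ⟨hc', g1, g2, h'⟩ := hg
  refine ⟨hc.mul hc', fun s => f1 s * g s + f s * g1 s,
    fun s => f2 s * g s + f1 s * g1 s + (f1 s * g1 s + f s * g2 s), fun s hs => ?_⟩
  obtain ⟨d0, d1, b0, b1, b2⟩ := h s hs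
  obtain ⟨d0', d1', b0', b1', b2'⟩ := h' s hs
  refine ⟨d0.mul d0', (d1.mul d0').add (d0.mul d1'), abs_mul_le' b0 b0', ?_, ?_⟩
  · have : f1 s * g s + f s * g1 s + (al + be) * (f s * g s) =
        (f1 s + al * f s) * g s + f s * (g1 s + be * g s) := by ring
    rw [this]
    exact (abs_add_le _ _).trans (add_le_add (abs_mul_le' b1 b0') (abs_mul_le' b0 b1'))
  · have : f2 s * g s + f1 s * g1 s + (f1 s * g1 s + f s * g2 s) +
        2 * (al + be) * (f1 s * g s + f s * g1 s) + (al + be) ^ 2 * (f s * g s) =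
        (f2 s + 2 * al * f1 s + al ^ 2 * f s) * g s +
          (f1 s + al * f s) * (g1 s + be * g s) + (f1 s + al * f s) * (g1 s + be * g s) +
          f s * (g2 s + 2 * be * g1 s + be ^ 2 * g s) := by ring
    rw [this]
    have t1 := abs_le.1 (abs_mul_le' b2 b0')
    have t2 := abs_le.1 (abs_mul_le' b1 b1')
    have t3 := abs_le.1 (abs_mul_le' b0 b2')
    rw [abs_le]
    constructor <;> linarith [t1.1, t1.2, t2.1, t2.2, t3.1, t3.2]

theorem D2.pow (hf : D2 f al a b A0 A1 A2) {k : ℕ} (hk : 1 ≤ k) :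
    D2 (fun s => f s ^ k) (k * al) a b (A0 ^ k) (k * A0 ^ (k - 1) * A1)
      (k * A0 ^ (k - 1) * A2 + k * (k - 1) * A0 ^ (k - 2) * A1 ^ 2) := by
  obtain ⟨m, rfl⟩ : ∃ m, k = m + 1 := ⟨k - 1, by omega⟩
  clear hk
  induction m with
  | zero => exact d2_congr hf (by funext s; simp) (by simp) (by simp) (by simp) (by simp)
  | succ m ih =>
    refine d2_congr (ih.mul hf) (by funext s; ring) (by push_cast; ring) (by ring) ?_ ?_
    · simp only [Nat.add_sub_cancel]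
      push_cast
      ring
    · simp only [Nat.add_sub_cancel]
      have e1 : m + 1 + 1 - 2 = m := by omega
      rw [e1]
      rcases m with _ | m
      · simp
        ring
      · have e2 : m + 1 + 1 - 2 = m := by omega
        rw [e2]
        push_cast
        ring

theorem D2.mono (hf : D2 f al a b A0 A1 A2) (h0 : A0 ≤ B0) (h1 : A1 ≤ B1) (h2 : A2 ≤ B2) :
    D2 f al a b B0 B1 B2 := by
  obtain ⟨hc, f1, f2, h⟩ := hf
  refine ⟨hc, f1, f2, fun s hs => ?_⟩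
  obtain ⟨d0, d1, b0, b1, b2⟩ := h s hs
  exact ⟨d0, d1, b0.trans h0, b1.trans h1, b2.trans h2⟩

theorem D2.sub (hf : D2 f al a b A0 A1 A2) {a' b' : ℝ} (ha : a ≤ a') (hb : b' ≤ b) :
    D2 f al a' b' A0 A1 A2 := by
  obtain ⟨hc, f1, f2, h⟩ := hf
  exact ⟨hc.mono (Icc_subset_Icc ha hb), f1, f2, fun s hs => h s (Ioo_subset_Ioo ha hb hs)⟩

theorem D2.const {c : ℝ} (h : |c| ≤ A0) (a b : ℝ) : D2 (fun _ => c) 0 a b A0 0 0 :=
  ⟨continuousOn_const, fun _ => 0, fun _ => 0, fun s _ =>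
    ⟨hasDerivAt_const s c, hasDerivAt_const s 0, h, by simp, by simp⟩⟩

theorem D2.of_deriv {f1 f2 : ℝ → ℝ} (h : ∀ s ∈ Icc a b, HasDerivAt f (f1 s) s ∧
    HasDerivAt f1 (f2 s) s ∧ |f s| ≤ A0 ∧ |f1 s| ≤ A1 ∧ |f2 s| ≤ A2) : D2 f 0 a b A0 A1 A2 := by
  refine ⟨fun s hs => (h s hs).1.continuousAt.continuousWithinAt, f1, f2, fun s hs => ?_⟩
  obtain ⟨d0, d1, b0, b1, b2⟩ := h s (Ioo_subset_Icc_self hs)
  exact ⟨d0, d1, b0, by simpa using b1, by simpa using b2⟩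

/-- Composition of a smooth profile with an affine map. -/
theorem D2.aff {g1 g2 : ℝ → ℝ} (hs : Sm g g1 g2) {lam c d c' lo hi : ℝ} (h0 : 0 ≤ lo)
    (hr : ∀ s ∈ Icc a b, lo ≤ c * s + d ∧ c * s + d ≤ hi)
    (hb : ∀ y ∈ Icc lo hi, |g y| ≤ A0 ∧ |g1 y + lam * g y| ≤ A1 ∧
      |g2 y + 2 * lam * g1 y + lam ^ 2 * g y| ≤ A2) (hc : |c| ≤ c') :
    D2 (fun s => g (c * s + d)) (lam * c) a b A0 (c' * A1) (c' ^ 2 * A2) := by
  have hc0 : 0 ≤ c' := (abs_nonneg c).trans hc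
  refine ⟨(hs.c0.comp (by fun_prop)).continuousOn, fun s => c * g1 (c * s + d),
    fun s => c * (c * g2 (c * s + d)), fun s hm => ?_⟩
  have hm' := Ioo_subset_Icc_self hm
  have hab : a ≤ b := hm'.1.trans hm'.2
  obtain ⟨b0, b1, b2⟩ := hb (c * s + d) (hr s hm')
  have hl : HasDerivAt (fun t : ℝ => c * t + d) c s := by
    simpa using ((hasDerivAt_id s).const_mul c).add_const d
  have hder : HasDerivAt (fun t => g (c * t + d)) (c * g1 (c * s + d)) s ∧
      HasDerivAt (fun t => c * g1 (c * t + d)) (c * (c * g2 (c * s + d))) s := by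
    by_cases hz : c = 0
    · subst hz
      simp only [zero_mul, zero_add]
      exact ⟨hasDerivAt_const s _, hasDerivAt_const s _⟩
    · have hp : 0 < c * s + d := by
        rcases lt_or_gt_of_ne hz with h | h
        · have := (hr b (right_mem_Icc.2 hab)).1
          nlinarith [mul_pos (neg_pos.2 h) (sub_pos.2 hm.2)]
        · have := (hr a (left_mem_Icc.2 hab)).1
          nlinarith [mul_pos h (sub_pos.2 hm.1)]
      constructor
      · have := (hs.d0 _ hp).comp s hl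
        rw [mul_comm] at this
        exact this
      · have := (hs.d1 _ hp).comp s hl
        rw [mul_comm] at this
        exact this.const_mul c
  refine ⟨hder.1, hder.2, b0, ?_, ?_⟩
  · have : c * g1 (c * s + d) + lam * c * g (c * s + d) =
        c * (g1 (c * s + d) + lam * g (c * s + d)) := by ring
    rw [this]
    exact abs_mul_le' hc b1
  · have : c * (c * g2 (c * s + d)) + 2 * (lam * c) * (c * g1 (c * s + d)) +
        (lam * c) ^ 2 * g (c * s + d) =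
        c * c * (g2 (c * s + d) + 2 * lam * g1 (c * s + d) + lam ^ 2 * g (c * s + d)) := by ring
    rw [this, sq c']
    exact abs_mul_le' (abs_mul_le' hc hc) b2

theorem D2.ch (hf : D2 f 0 a b A0 A1 A2) (hab : a ≤ b) (h2 : 0 ≤ A2) :
    Ch f a b (A2 * (b - a) ^ 2 / 8) ∧ Ch (fun s => -f s) a b (A2 * (b - a) ^ 2 / 8) := by
  have key : ∀ {f : ℝ → ℝ}, D2 f 0 a b A0 A1 A2 → Ch f a b (A2 * (b - a) ^ 2 / 8) := by
    intro f hf
    obtain ⟨hc, f1, f2, h⟩ := hf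
    refine ch_of_conv (conv (f1 := f1) (f2 := f2) hc fun s hs => ?_) hab h2
    obtain ⟨d0, d1, _, _, b2⟩ := h s hs
    refine ⟨d0, d1, ?_⟩
    have := (abs_le.1 b2).1
    simpa using this
  exact ⟨key hf, key (d2_neg hf)⟩

theorem D2.slope (hf : D2 f 0 a b A0 A1 A2) (hab : a < b) {q q' : ℝ} (h1 : a ≤ q) (h2 : q ≤ q')
    (h3 : q' ≤ b) : (q' - q) * ((f b - f a) / (b - a) - A2 * (b - a) / 2) ≤ f q' - f q := by
  obtain ⟨hc, f1, f2, h⟩ := hf
  rcases h2.eq_or_lt with h2 | h2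
  · subst h2
    simp
  have hd : ∀ s ∈ Ioo a b, HasDerivAt f (f1 s) s ∧ HasDerivAt f1 (f2 s) s ∧ |f2 s| ≤ A2 := by
    intro s hs
    obtain ⟨d0, d1, _, _, b2⟩ := h s hs
    exact ⟨d0, d1, by simpa using b2⟩
  obtain ⟨c, hc1, hc2⟩ := mvt hc (fun s hs => (hd s hs).1) h1 h2 h3
  have hA : 0 ≤ A2 := (abs_nonneg _).trans (hd c hc1).2.2
  have t := taylor hc hd hA (Ioo_subset_Icc_self hc1) (hd c hc1).1
  have hba : 0 < b - a := sub_pos.2 hab
  have : (f b - f a) / (b - a) - A2 * (b - a) / 2 ≤ f1 c := by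
    rw [sub_le_iff_le_add, div_le_iff₀ hba]
    nlinarith
  rw [hc2, mul_comm (f1 c)]
  exact mul_le_mul_of_nonneg_left this (sub_pos.2 h2).le

theorem D2.lip (hf : D2 f 0 a b A0 A1 A2) {q q' : ℝ} (h1 : q ∈ Icc a b) (h2 : q' ∈ Icc a b) :
    |f q' - f q| ≤ A1 * |q' - q| := by
  obtain ⟨hc, f1, f2, h⟩ := hf
  have key : ∀ {q q' : ℝ}, q ∈ Icc a b → q' ∈ Icc a b → q < q' →
      |f q' - f q| ≤ A1 * |q' - q| := by
    intro q q' h1 h2 hq
    obtain ⟨c, hc1, hc2⟩ := mvt hc (fun s hs => (h s hs).1) h1.1 hq h2.2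
    rw [hc2]
    refine abs_mul_le' ?_ le_rfl
    simpa using (h c hc1).2.2.2.1
  rcases lt_trichotomy q q' with hq | hq | hq
  · exact key h1 h2 hq
  · subst hq
    simp
  · rw [abs_sub_comm, abs_sub_comm q']
    exact key h2 h1 hq

theorem Ch.add (hf : Ch f a b e) (hg : Ch g a b e') : Ch (fun s => f s + g s) a b (e + e') := by
  intro th h0 h1
  have t1 := hf th h0 h1
  have t2 := hg th h0 h1
  simp only
  linarith

theorem Ch.smul (hf : Ch f a b e) {c : ℝ} (hc : 0 ≤ c) : Ch (fun s => c * f s) a b (c * e) := by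
  intro th h0 h1
  have t1 := mul_le_mul_of_nonneg_left (hf th h0 h1) hc
  simp only
  linarith

theorem Ch.mono (hf : Ch f a b e) (h : e ≤ e') : Ch f a b e' := by
  intro th h0 h1
  have t1 := hf th h0 h1
  linarith

theorem Ch.const (c a b : ℝ) : Ch (fun _ => c) a b 0 := by
  intro th _ _
  simp only
  linarith

theorem Ch.sum {ι : Type} (T : Finset ι) {F : ι → ℝ → ℝ} {E : ι → ℝ}
    (h : ∀ i ∈ T, Ch (F i) a b (E i)) : Ch (fun s => ∑ i ∈ T, F i s) a b (∑ i ∈ T, E i) := by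
  intro th h0 h1
  simp only
  rw [Finset.mul_sum, Finset.mul_sum, ← Finset.sum_add_distrib, ← Finset.sum_add_distrib]
  exact Finset.sum_le_sum fun i hi => h i hi th h0 h1

theorem Ch.le_max (hf : Ch f a b e) {s : ℝ} (hs : s ∈ Icc a b) :
    f s ≤ max (f a) (f b) + e := by
  have hab : a ≤ b := hs.1.trans hs.2
  have m1 := le_max_left (f a) (f b)
  have m2 := le_max_right (f a) (f b)
  rcases hab.eq_or_lt with h | h
  · subst h
    have hsa : s = a := le_antisymm hs.2 hs.1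
    have := hf 0 le_rfl zero_le_one
    simp only [sub_zero, one_mul, zero_mul, add_zero] at this
    rw [hsa]
    linarith
  · have hba : 0 < b - a := sub_pos.2 h
    have h0 : 0 ≤ (s - a) / (b - a) := div_nonneg (sub_nonneg.2 hs.1) hba.le
    have h1 : (s - a) / (b - a) ≤ 1 := by
      rw [div_le_one hba]
      linarith [hs.2]
    have := hf _ h0 h1
    have e1 : (1 - (s - a) / (b - a)) * a + (s - a) / (b - a) * b = s := by
      field_simp
      ring
    rw [e1] at this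
    nlinarith [mul_le_mul_of_nonneg_left m1 (sub_nonneg.2 h1), mul_le_mul_of_nonneg_left m2 h0]

theorem Ch.integral {F : ℝ → ℝ → ℝ} {E : ℝ → ℝ} (hab : a ≤ b)
    (h : ∀ s, 0 < s → Ch (fun q => F q s) a b (E s))
    (hF : ∀ q ∈ Icc a b, IntegrableOn (F q) (Ioi 0)) (hE : IntegrableOn E (Ioi 0)) :
    Ch (fun q => ∫ s in Ioi (0 : ℝ), F q s) a b (∫ s in Ioi (0 : ℝ), E s) := by
  intro th h0 h1
  have ia := hF a (left_mem_Icc.2 hab)
  have ib := hF b (right_mem_Icc.2 hab)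
  have im := hF ((1 - th) * a + th * b)
    ⟨by nlinarith [mul_nonneg h0 (sub_nonneg.2 hab)],
      by nlinarith [mul_nonneg (sub_nonneg.2 h1) (sub_nonneg.2 hab)]⟩
  have ia' : IntegrableOn (fun s => (1 - th) * F a s) (Ioi 0) := ia.const_mul _
  have ib' : IntegrableOn (fun s => th * F b s) (Ioi 0) := ib.const_mul _
  have iab : IntegrableOn (fun s => (1 - th) * F a s + th * F b s) (Ioi 0) := ia'.add ib'
  simp only
  rw [← integral_const_mul, ← integral_const_mul, ← integral_add ia' ib', ← integral_add iab hE]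
  exact setIntegral_mono_on im (iab.add hE) measurableSet_Ioi fun s hs => h s hs th h0 h1

/-- A function of three variables is controlled by its values at the eight vertices. -/
theorem box_le {F : ℝ → ℝ → ℝ → ℝ} {x0 x1 y0 y1 q0 q1 ex ey eq M : ℝ}
    (hx : ∀ y ∈ Icc y0 y1, ∀ q ∈ Icc q0 q1, Ch (fun x => F x y q) x0 x1 ex)
    (hy : ∀ x ∈ Icc x0 x1, ∀ q ∈ Icc q0 q1, Ch (fun y => F x y q) y0 y1 ey)
    (hq : ∀ x ∈ Icc x0 x1, ∀ y ∈ Icc y0 y1, Ch (fun q => F x y q) q0 q1 eq)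
    (h000 : F x0 y0 q0 ≤ M) (h001 : F x0 y0 q1 ≤ M) (h010 : F x0 y1 q0 ≤ M)
    (h011 : F x0 y1 q1 ≤ M) (h100 : F x1 y0 q0 ≤ M) (h101 : F x1 y0 q1 ≤ M)
    (h110 : F x1 y1 q0 ≤ M) (h111 : F x1 y1 q1 ≤ M) {x y q : ℝ} (mx : x ∈ Icc x0 x1)
    (my : y ∈ Icc y0 y1) (mq : q ∈ Icc q0 q1) : F x y q ≤ M + ex + ey + eq := by
  have lx := left_mem_Icc.2 (mx.1.trans mx.2)
  have rx := right_mem_Icc.2 (mx.1.trans mx.2)
  have ly := left_mem_Icc.2 (my.1.trans my.2)
  have ry := right_mem_Icc.2 (my.1.trans my.2)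
  have s1 : ∀ x ∈ Icc x0 x1, ∀ y ∈ Icc y0 y1, F x y q0 ≤ M → F x y q1 ≤ M →
      F x y q ≤ M + eq := by
    intro x mx y my t0 t1
    have := (hq x mx y my).le_max mq
    have := max_le t0 t1
    linarith
  have s2 : ∀ x ∈ Icc x0 x1, F x y0 q ≤ M + eq → F x y1 q ≤ M + eq →
      F x y q ≤ M + eq + ey := by
    intro x mx t0 t1
    have := (hy x mx q mq).le_max my
    have := max_le t0 t1
    linarith
  have t0 := s2 x0 lx (s1 x0 lx y0 ly h000 h001) (s1 x0 lx y1 ry h010 h011)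
  have t1 := s2 x1 rx (s1 x1 rx y0 ly h100 h101) (s1 x1 rx y1 ry h110 h111)
  have := (hx y my q mq).le_max mx
  have := max_le t0 t1
  linarith

/-- A priori bound for the second derivative from a differential inequality. -/
theorem qsolve {f1 f2 : ℝ → ℝ} {c0 A s M ga D : ℝ} (hab : a < b)
    (h1 : ∀ q ∈ Icc a b, HasDerivAt f (f1 q) q) (h2 : ∀ q ∈ Icc a b, HasDerivAt f1 (f2 q) q)
    (hf : ∀ q ∈ Icc a b, |f2 q| ≤ M + be * |f1 q| + ga * |f q - c0|) (hbe : 0 ≤ be)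
    (hga : 0 ≤ ga) (ha : |f a - c0| ≤ A) (hb : |f b - c0| ≤ A) (hs : |f b - f a| ≤ s * (b - a))
    (hD : M + be * (s + D * (b - a) / 2) + ga * (A + D * (b - a) ^ 2 / 8) ≤ D)
    (hr : be * (b - a) / 2 + ga * (b - a) ^ 2 / 8 < 1) :
    ∀ q ∈ Icc a b, |f2 q| ≤ D ∧ |f1 q| ≤ s + D * (b - a) / 2 := by
  have hba : 0 < b - a := sub_pos.2 hab
  have c0' : ContinuousOn f (Icc a b) := fun q hq => (h1 q hq).continuousAt.continuousWithinAt
  have c1' : ContinuousOn f1 (Icc a b) := fun q hq => (h2 q hq).continuousAt.continuousWithinAt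
  have cb : ContinuousOn (fun q => M + be * |f1 q| + ga * |f q - c0|) (Icc a b) :=
    (continuousOn_const.add (continuousOn_const.mul c1'.abs)).add
      (continuousOn_const.mul (c0'.sub continuousOn_const).abs)
  obtain ⟨K, hK⟩ := isCompact_Icc.bddAbove_image cb
  have bdd : BddAbove ((fun q => |f2 q|) '' Icc a b) := by
    refine ⟨K, ?_⟩
    rintro _ ⟨q, hq, rfl⟩
    exact (hf q hq).trans (hK ⟨q, hq, rfl⟩)
  obtain ⟨E, hE⟩ : ∃ E, E = sSup ((fun q => |f2 q|) '' Icc a b) := ⟨_, rfl⟩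
  have hle : ∀ q ∈ Icc a b, |f2 q| ≤ E := fun q hq => hE ▸ le_csSup bdd ⟨q, hq, rfl⟩
  have hE0 : 0 ≤ E := (abs_nonneg _).trans (hle a (left_mem_Icc.2 hab.le))
  have hd : ∀ t ∈ Ioo a b, HasDerivAt f (f1 t) t ∧ HasDerivAt f1 (f2 t) t ∧ |f2 t| ≤ E :=
    fun t ht => ⟨h1 t (Ioo_subset_Icc_self ht), h2 t (Ioo_subset_Icc_self ht),
      hle t (Ioo_subset_Icc_self ht)⟩
  have hd' : ∀ t ∈ Ioo a b, HasDerivAt (fun t => -f t) (-f1 t) t ∧
      HasDerivAt (fun t => -f1 t) (-f2 t) t ∧ |-f2 t| ≤ E :=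
    fun t ht => ⟨(hd t ht).1.neg, (hd t ht).2.1.neg, by rw [abs_neg]; exact (hd t ht).2.2⟩
  have hs' := abs_le.1 hs
  have b1 : ∀ q ∈ Icc a b, |f1 q| ≤ s + E * (b - a) / 2 := by
    intro q hq
    have t1 := taylor c0' hd hE0 hq (h1 q hq)
    have t2 := taylor (f := fun t => -f t) (f1 := fun t => -f1 t) (f2 := fun t => -f2 t)
      c0'.neg hd' hE0 hq (h1 q hq).neg
    rw [abs_le]
    constructor
    · refine le_of_mul_le_mul_right ?_ hba
      nlinarith [hs'.1]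
    · refine le_of_mul_le_mul_right ?_ hba
      nlinarith [hs'.2]
  have b0 : ∀ q ∈ Icc a b, |f q - c0| ≤ A + E * (b - a) ^ 2 / 8 := by
    intro q hq
    have t1 := (ch_of_conv (conv c0' fun t ht =>
      ⟨(hd t ht).1, (hd t ht).2.1, (abs_le.1 (hd t ht).2.2).1⟩) hab.le hE0).le_max hq
    have t2 := (ch_of_conv (conv (f := fun t => -f t) (f1 := fun t => -f1 t)
      (f2 := fun t => -f2 t) c0'.neg fun t ht =>
      ⟨(hd' t ht).1, (hd' t ht).2.1, (abs_le.1 (hd' t ht).2.2).1⟩) hab.le hE0).le_max hq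
    have ha' := abs_le.1 ha
    have hb' := abs_le.1 hb
    have m1 : max (f a) (f b) ≤ c0 + A := max_le (by linarith [ha'.2]) (by linarith [hb'.2])
    have m2 : max (-f a) (-f b) ≤ A - c0 := max_le (by linarith [ha'.1]) (by linarith [hb'.1])
    rw [abs_le]
    constructor <;> linarith
  have hEle : E ≤ M + be * (s + E * (b - a) / 2) + ga * (A + E * (b - a) ^ 2 / 8) := by
    refine le_of_eq_of_le hE (csSup_le ⟨_, a, left_mem_Icc.2 hab.le, rfl⟩ ?_)
    rintro _ ⟨q, hq, rfl⟩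
    have t1 := mul_le_mul_of_nonneg_left (b1 q hq) hbe
    have t2 := mul_le_mul_of_nonneg_left (b0 q hq) hga
    have t3 := hf q hq
    simp only
    linarith
  have hED : E ≤ D := by
    by_contra hlt
    push Not at hlt
    nlinarith [mul_pos (sub_pos.2 hlt) (sub_pos.2 hr)]
  intro q hq
  refine ⟨(hle q hq).trans hED, (b1 q hq).trans ?_⟩
  nlinarith [mul_le_mul_of_nonneg_right hED hba.le]

end Pool.Agent.MP_39fec4_gt.Full
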