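import Pool.Agent.MP_39fec4_gt.FDefs

set_option autoImplicit false

namespace Pool.Agent.MP_39fec4_gt.Full

open MeasureTheory Set Real Ball P4

variable {g g1 g2 : ℝ → ℝ} {lam z2 Zc Z2 : ℝ} {ι : Type} [DecidableEq ι]

theorem env_prod (T : Finset ι) (y : ι → ℝ) {b Y : ℝ} (hy : ∀ j ∈ T, 0 ≤ y j ∧ y j ≤ Y)
    (env : ∀ v, 0 ≤ v → v ≤ Y → |g v| ≤ Real.exp (-(b * v))) :
    |∏ j ∈ T, g (y j)| ≤ Real.exp (-(b * ∑ j ∈ T, y j)) := by
  rw [Finset.abs_prod, Finset.mul_sum, ← Finset.sum_neg_distrib, Real.exp_sum]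
  exact Finset.prod_le_prod (fun _ _ => abs_nonneg _) fun j hj => env _ (hy j hj).1 (hy j hj).2

namespace FCrudeX

omit [DecidableEq ι] in
lemma abs_pow (T : Finset ι) (f : ι → ℝ) {B : ℝ} (h : ∀ j ∈ T, |f j| ≤ B) :
    |∏ j ∈ T, f j| ≤ B ^ T.card := by
  rw [Finset.abs_prod, ← Finset.prod_const]
  exact Finset.prod_le_prod (fun _ _ => abs_nonneg _) h

omit [DecidableEq ι] in
lemma exists_neg (T : Finset ι) (f : ι → ℝ) (h : ∏ j ∈ T, f j < 0) : ∃ j ∈ T, f j < 0 := by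
  by_contra hc
  push Not at hc
  exact absurd (Finset.prod_nonneg hc) (not_le.2 h)

lemma two_neg (T : Finset ι) (f : ι → ℝ) (h : 0 < ∏ j ∈ T, f j) {j : ι} (hj : j ∈ T)
    (hf : ¬0 < f j) : f j < 0 ∧ ∃ k ∈ T.erase j, f k < 0 := by
  rw [← Finset.mul_prod_erase T f hj] at h
  rcases mul_pos_iff.1 h with h1 | h1
  · exact absurd h1.1 hf
  · exact ⟨h1.1, exists_neg _ _ h1.2⟩

lemma one_out (T : Finset ι) (f : ι → ℝ) {j : ι} (hj : j ∈ T) {a e : ℝ} (ha : |f j| ≤ a)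
    (he : |∏ i ∈ T.erase j, f i| ≤ e) : |∏ i ∈ T, f i| ≤ a * e := by
  rw [← Finset.mul_prod_erase T f hj, abs_mul]
  exact mul_le_mul ha he (abs_nonneg _) ((abs_nonneg _).trans ha)

end FCrudeX

open FCrudeX

/-- The data shared by the crude product bounds. -/
structure CB (g : ℝ → ℝ) {ι : Type} (T : Finset ι) (y : ι → ℝ)
    (z2 ym tl th b B ng e0 e1 e2 : ℝ) : Prop where
  bd : ∀ v, 0 ≤ v → |g v| ≤ 1
  pos : ∀ v, 0 ≤ v → v ≤ z2 → 0 < g v
  hy : ∀ j ∈ T, 0 ≤ y j ∧ y j ≤ ym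
  hs : tl ≤ ∑ j ∈ T, y j ∧ ∑ j ∈ T, y j ≤ th
  b0 : 0 ≤ b
  env : ∀ v, 0 ≤ v → v ≤ ym → |g v| ≤ Real.exp (-(b * v))
  hB : ∀ j ∈ T, |g (y j)| ≤ B
  hng : ∀ j ∈ T, -ng ≤ g (y j)
  ng0 : 0 ≤ ng
  he0 : 1 ≤ e0 ∨ Real.exp (-(b * tl)) ≤ e0
  he1 : 1 ≤ e1 ∨ Real.exp (-(b * (tl - ym))) ≤ e1
  he2 : 1 ≤ e2 ∨ Real.exp (-(b * (tl - 2 * ym))) ≤ e2

/-- The smallest and the largest coordinate are located more precisely. -/
structure AB (g : ℝ → ℝ) {ι : Type} (T : Finset ι) (y : ι → ℝ) (i0 i1 : ι)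
    (alo ahi blo bhi mlo mhi Aa Ab Am nn : ℝ) : Prop where
  m0 : i0 ∈ T
  m1 : i1 ∈ T
  ne : i0 ≠ i1
  ha : alo ≤ g (y i0) ∧ g (y i0) ≤ ahi
  hb : blo ≤ g (y i1) ∧ g (y i1) ≤ bhi
  hm : ∀ j ∈ T, j ≠ i0 → j ≠ i1 → mlo ≤ g (y j) ∧ g (y j) ≤ mhi
  aa : -Aa ≤ alo ∧ ahi ≤ Aa
  ab : -Ab ≤ blo ∧ bhi ≤ Ab
  am : -Am ≤ mlo ∧ mhi ≤ Am
  am0 : 0 ≤ Am
  n0 : 0 ≤ nn
  nb : -nn ≤ blo ∧ -nn ≤ mlo

variable {T : Finset ι} {y : ι → ℝ} {ym tl th b B ng e0 e1 e2 : ℝ}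

omit [DecidableEq ι] in
lemma CB.sub_le (h : CB g T y z2 ym tl th b B ng e0 e1 e2) (S : Finset ι) (hS : S ⊆ T) {c e : ℝ}
    (hc : c ≤ ∑ j ∈ S, y j) (he : 1 ≤ e ∨ Real.exp (-(b * c)) ≤ e) :
    |∏ j ∈ S, g (y j)| ≤ e := by
  classical
  rcases he with he | he
  · have := abs_pow S (fun j => g (y j)) (B := 1) fun j hj => h.bd _ (h.hy j (hS hj)).1
    rw [one_pow] at this
    exact this.trans he
  · refine (env_prod S y (fun j hj => h.hy j (hS hj)) h.env).trans (le_trans ?_ he)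
    exact Real.exp_le_exp.2 (neg_le_neg (mul_le_mul_of_nonneg_left hc h.b0))

omit [DecidableEq ι] in
lemma CB.le_e0 (h : CB g T y z2 ym tl th b B ng e0 e1 e2) : |∏ j ∈ T, g (y j)| ≤ e0 :=
  h.sub_le T subset_rfl h.hs.1 h.he0

lemma CB.le_e1 (h : CB g T y z2 ym tl th b B ng e0 e1 e2) {j : ι} (hj : j ∈ T) :
    |∏ i ∈ T.erase j, g (y i)| ≤ e1 := by
  refine h.sub_le _ (Finset.erase_subset _ _) ?_ h.he1
  have := Finset.add_sum_erase T y hj
  linarith [h.hs.1, (h.hy j hj).2]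

lemma CB.le_e2 (h : CB g T y z2 ym tl th b B ng e0 e1 e2) {j k : ι} (hj : j ∈ T)
    (hk : k ∈ T.erase j) : |∏ i ∈ (T.erase j).erase k, g (y i)| ≤ e2 := by
  refine h.sub_le _ ((Finset.erase_subset _ _).trans (Finset.erase_subset _ _)) ?_ h.he2
  have h1 := Finset.add_sum_erase T y hj
  have h2 := Finset.add_sum_erase (T.erase j) y hk
  linarith [h.hs.1, (h.hy j hj).2, (h.hy k (Finset.mem_of_mem_erase hk)).2]

omit [DecidableEq ι] in
lemma CB.neg_facts (h : CB g T y z2 ym tl th b B ng e0 e1 e2) {j : ι} (hj : j ∈ T)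
    (hn : g (y j) < 0) : z2 < y j ∧ |g (y j)| ≤ ng := by
  refine ⟨?_, ?_⟩
  · by_contra hc
    exact absurd (h.pos _ (h.hy j hj).1 (not_lt.1 hc)) (not_lt.2 hn.le)
  · rw [abs_of_neg hn]
    linarith [h.hng j hj]

theorem CB.up (h : CB g T y z2 ym tl th b B ng e0 e1 e2) {R ts : ℝ} (h0 : 0 ≤ R)
    (hts : ∀ v, Z2 ≤ v → |g v| ≤ ts)
    (two : th < 2 * z2 ∨ ym ≤ z2 ∨ e0 ≤ R ∨ ng ^ 2 * e2 ≤ R ∨ ng ^ 2 * B ^ (T.card - 2) ≤ R)
    (third : ym ≤ Z2 ∨ e0 ≤ R ∨ ts * e1 ≤ R ∨ B ^ T.card ≤ R) :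
    ∏ j ∈ T, g (y j) ≤ R ∨ ∀ j ∈ T, 0 ≤ y j ∧ y j ≤ Z2 ∧ 0 < g (y j) := by
  rcases le_or_gt (∏ j ∈ T, g (y j)) R with hR | hR
  · exact Or.inl hR
  have hA : R < |∏ j ∈ T, g (y j)| := hR.trans_le (le_abs_self _)
  have hE := h.le_e0
  refine Or.inr fun j hj => ⟨(h.hy j hj).1, ?_, ?_⟩
  · by_contra hc
    push Not at hc
    rcases third with h3 | h3 | h3 | h3
    · linarith [(h.hy j hj).2]
    · linarith
    · linarith [one_out T (fun i => g (y i)) hj (hts _ hc.le) (h.le_e1 hj)]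
    · linarith [abs_pow T (fun i => g (y i)) h.hB]
  · by_contra hc
    obtain ⟨hj0, k, hk, hk0⟩ := two_neg T (fun i => g (y i)) (h0.trans_lt hR) hj hc
    have hkT := Finset.mem_of_mem_erase hk
    obtain ⟨hj1, hj2⟩ := h.neg_facts hj hj0
    obtain ⟨hk1, hk2⟩ := h.neg_facts hkT hk0
    rcases two with h2 | h2 | h2 | h2 | h2
    · have h1 := Finset.add_sum_erase T y hj
      have h3 : y k ≤ ∑ i ∈ T.erase j, y i :=
        Finset.single_le_sum (fun i hi => (h.hy i (Finset.mem_of_mem_erase hi)).1) hk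
      linarith [h.hs.2]
    · linarith [(h.hy j hj).2]
    · linarith
    · have := one_out T (fun i => g (y i)) hj hj2
        (one_out (T.erase j) (fun i => g (y i)) hk hk2 (h.le_e2 hj hk))
      nlinarith
    · have h3 := abs_pow ((T.erase j).erase k) (fun i => g (y i)) fun i hi =>
        h.hB i (Finset.mem_of_mem_erase (Finset.mem_of_mem_erase hi))
      rw [Finset.card_erase_of_mem hk, Finset.card_erase_of_mem hj, Nat.sub_sub] at h3
      have := one_out T (fun i => g (y i)) hj hj2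
        (one_out (T.erase j) (fun i => g (y i)) hk hk2 h3)
      nlinarith

theorem CB.dn (h : CB g T y z2 ym tl th b B ng e0 e1 e2) {R : ℝ} (h0 : 0 ≤ R)
    (one : ym ≤ z2 ∨ e0 ≤ R ∨ ng * e1 ≤ R ∨ ng * B ^ (T.card - 1) ≤ R) :
    -R ≤ ∏ j ∈ T, g (y j) := by
  by_contra hR
  push Not at hR
  have hA : R < |∏ j ∈ T, g (y j)| := by linarith [neg_abs_le (∏ j ∈ T, g (y j))]
  obtain ⟨j, hj, hj0⟩ := exists_neg T (fun i => g (y i)) (by linarith)
  obtain ⟨hj1, hj2⟩ := h.neg_facts hj hj0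
  rcases one with h1 | h1 | h1 | h1
  · linarith [(h.hy j hj).2]
  · linarith [h.le_e0]
  · linarith [one_out T (fun i => g (y i)) hj hj2 (h.le_e1 hj)]
  · have h3 := abs_pow (T.erase j) (fun i => g (y i)) fun i hi =>
      h.hB i (Finset.mem_of_mem_erase hi)
    rw [Finset.card_erase_of_mem hj] at h3
    linarith [one_out T (fun i => g (y i)) hj hj2 h3]

variable {i0 i1 : ι} {alo ahi blo bhi mlo mhi Aa Ab Am nn : ℝ}

theorem AB.abs_le (h : AB g T y i0 i1 alo ahi blo bhi mlo mhi Aa Ab Am nn) :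
    |∏ j ∈ T, g (y j)| ≤ Aa * Ab * Am ^ (T.card - 2) := by
  have hk : i1 ∈ T.erase i0 := Finset.mem_erase.2 ⟨h.ne.symm, h.m1⟩
  have h3 := abs_pow ((T.erase i0).erase i1) (fun i => g (y i)) (B := Am) fun i hi => by
    obtain ⟨h1, h2⟩ := Finset.mem_erase.1 hi
    obtain ⟨h4, h5⟩ := Finset.mem_erase.1 h2
    obtain ⟨h6, h7⟩ := h.hm i h5 h4 h1
    exact _root_.abs_le.2 ⟨h.am.1.trans h6, h7.trans h.am.2⟩
  rw [Finset.card_erase_of_mem hk, Finset.card_erase_of_mem h.m0, Nat.sub_sub] at h3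
  rw [mul_assoc]
  exact one_out T (fun i => g (y i)) h.m0 (_root_.abs_le.2 ⟨h.aa.1.trans h.ha.1, h.ha.2.trans h.aa.2⟩)
    (one_out (T.erase i0) (fun i => g (y i)) hk
      (_root_.abs_le.2 ⟨h.ab.1.trans h.hb.1, h.hb.2.trans h.ab.2⟩) h3)

theorem AB.two (h : AB g T y i0 i1 alo ahi blo bhi mlo mhi Aa Ab Am nn) (ha : 0 ≤ alo)
    (hy : ∀ j ∈ T, 0 ≤ y j ∧ y j ≤ Z2) {R : ℝ} (h0 : 0 ≤ R)
    (hR : T.card = 2 ∨ Aa * nn ^ 2 * max Am Ab ^ (T.card - 3) ≤ R) :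
    ∏ j ∈ T, g (y j) ≤ R ∨ ∀ j ∈ T, 0 ≤ y j ∧ y j ≤ Z2 ∧ 0 < g (y j) := by
  rcases le_or_gt (∏ j ∈ T, g (y j)) R with hP | hP
  · exact Or.inl hP
  have hA : R < |∏ j ∈ T, g (y j)| := hP.trans_le (le_abs_self _)
  refine Or.inr fun j hj => ⟨(hy j hj).1, (hy j hj).2, ?_⟩
  by_contra hc
  obtain ⟨hj0, k, hk, hk0⟩ := two_neg T (fun i => g (y i)) (h0.trans_lt hP) hj hc
  have hne : ∀ i, g (y i) < 0 → i0 ≠ i := by
    rintro i hi rfl
    linarith [h.ha.1]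
  have hnn : ∀ i ∈ T, g (y i) < 0 → |g (y i)| ≤ nn := by
    intro i hi hi0
    rw [abs_of_neg hi0]
    by_cases e : i = i1
    · subst e
      linarith [h.hb.1, h.nb.1]
    · linarith [(h.hm i hi (hne i hi0).symm e).1, h.nb.2]
  have hi0 : i0 ∈ (T.erase j).erase k :=
    Finset.mem_erase.2 ⟨hne k hk0, Finset.mem_erase.2 ⟨hne j hj0, h.m0⟩⟩
  have hc3 : (((T.erase j).erase k).erase i0).card = T.card - 3 := by
    rw [Finset.card_erase_of_mem hi0, Finset.card_erase_of_mem hk, Finset.card_erase_of_mem hj]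
    omega
  rcases hR with hR | hR
  · have := Finset.card_pos.2 ⟨i0, hi0⟩
    rw [Finset.card_erase_of_mem hk, Finset.card_erase_of_mem hj] at this
    omega
  · have h3 := abs_pow (((T.erase j).erase k).erase i0) (fun i => g (y i)) (B := max Am Ab)
      fun i hi => by
        obtain ⟨h1, h2⟩ := Finset.mem_erase.1 hi
        have h4 := Finset.mem_of_mem_erase (Finset.mem_of_mem_erase h2)
        by_cases e : i = i1
        · subst e
          exact (_root_.abs_le.2 ⟨h.ab.1.trans h.hb.1, h.hb.2.trans h.ab.2⟩).trans (le_max_right _ _)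
        · obtain ⟨h6, h7⟩ := h.hm i h4 h1 e
          exact (_root_.abs_le.2 ⟨h.am.1.trans h6, h7.trans h.am.2⟩).trans (le_max_left _ _)
    rw [hc3] at h3
    have := one_out T (fun i => g (y i)) hj (hnn j hj hj0)
      (one_out (T.erase j) (fun i => g (y i)) hk (hnn k (Finset.mem_of_mem_erase hk) hk0)
        (one_out _ (fun i => g (y i)) hi0
          (_root_.abs_le.2 ⟨h.aa.1.trans h.ha.1, h.ha.2.trans h.aa.2⟩) h3))
    nlinarith

theorem AB.par (h : AB g T y i0 i1 alo ahi blo bhi mlo mhi Aa Ab Am nn) (ha : 0 ≤ alo)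
    (hb : bhi ≤ 0) (hm : mhi ≤ 0) (he : Even T.card) : ∏ j ∈ T, g (y j) ≤ 0 := by
  rw [← Finset.mul_prod_erase T _ h.m0]
  refine mul_nonpos_of_nonneg_of_nonpos (ha.trans h.ha.1) ?_
  have h1 : 0 ≤ ∏ j ∈ T.erase i0, -g (y j) := by
    refine Finset.prod_nonneg fun i hi => ?_
    obtain ⟨h2, h3⟩ := Finset.mem_erase.1 hi
    by_cases e : i = i1
    · subst e
      linarith [h.hb.2]
    · linarith [(h.hm i h3 h2 e).2]
  have h2 : Odd (T.erase i0).card := by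
    rw [Finset.card_erase_of_mem h.m0]
    have := Finset.card_pos.2 ⟨i0, h.m0⟩
    obtain ⟨r, hr⟩ := he
    exact ⟨r - 1, by omega⟩
  rw [Finset.prod_neg, h2.neg_one_pow] at h1
  linarith

/-- The algebraic envelope used far out. -/
theorem alg_env {ga : ℝ} (hg : 0 ≤ ga) (env : ∀ v, 0 ≤ v → g v ^ 2 * (1 + ga * v) ≤ 1)
    (T : Finset ι) (y : ι → ℝ) {ym : ℝ} (hym : 0 ≤ ym) (hy : ∀ j ∈ T, 0 ≤ y j ∧ y j ≤ ym) (m : ℕ)
    (hm : m * ym ≤ ∑ j ∈ T, y j) : (∏ j ∈ T, g (y j)) ^ 2 * (1 + ga * ym) ^ m ≤ 1 := by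
  have h1 : (∏ j ∈ T, g (y j)) ^ 2 * ∏ j ∈ T, (1 + ga * y j) ≤ 1 := by
    rw [← Finset.prod_pow, ← Finset.prod_mul_distrib]
    refine Finset.prod_le_one (fun j hj => ?_) fun j hj => env _ (hy j hj).1
    have := (hy j hj).1
    positivity
  refine le_trans (mul_le_mul_of_nonneg_left ?_ (sq_nonneg _)) h1
  rcases hym.eq_or_lt with h0 | h0
  · rw [← h0, mul_zero, add_zero, one_pow]
    refine Finset.one_le_prod fun j hj => ?_
    have := (hy j hj).1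
    have : 0 ≤ ga * y j := by positivity
    linarith
  · have h2 : 1 ≤ 1 + ga * ym := by
      have : 0 ≤ ga * ym := by positivity
      linarith
    calc (1 + ga * ym) ^ m = (1 + ga * ym) ^ (m : ℝ) := (Real.rpow_natCast _ _).symm
      _ ≤ (1 + ga * ym) ^ (∑ j ∈ T, y j / ym) := by
        refine Real.rpow_le_rpow_of_exponent_le h2 ?_
        rw [← Finset.sum_div, le_div_iff₀ h0]
        exact hm
      _ = ∏ j ∈ T, (1 + ga * ym) ^ (y j / ym) := Real.rpow_sum_of_pos (by linarith) _ _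
      _ ≤ ∏ j ∈ T, (1 + ga * y j) := by
        refine Finset.prod_le_prod (fun j _ => by positivity) fun j hj => ?_
        have h3 := rpow_one_add_le_one_add_mul_self (s := ga * ym) (p := y j / ym)
          (by linarith) (div_nonneg (hy j hj).1 hym) ((div_le_one h0).2 (hy j hj).2)
        refine h3.trans (le_of_eq ?_)
        field_simp

/-- The negative part of the diagonal integrand. -/
theorem neg_part_le (hc : Continuous g) (pos : ∀ v, 0 ≤ v → v ≤ z2 → 0 < g v) {B m0 z : ℝ}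
    (hB0 : 0 ≤ B) (hB : ∀ v, z2 ≤ v → -B ≤ g v) (hm : 0 < m0)
    (dec : ∀ v, 0 < v → |g v| ≤ 1 / (m0 * √v)) (hz : 0 < z) (hz2 : z ^ 2 ≤ z2) {n : ℕ}
    (hn : 2 ≤ n) : IntegrableOn (fun s : ℝ => max (-(g (s ^ 2 / n) ^ n)) 0) (Ioi 0) ∧
      ∫ s in Ioi (0 : ℝ), max (-(g (s ^ 2 / n) ^ n)) 0 ≤
        √n * B ^ (n - 2) / (m0 ^ 2 * z) := by
  have hn0 : (0 : ℝ) < n := by exact_mod_cast (by omega : 0 < n)
  have hsq : 0 < √(n : ℝ) := Real.sqrt_pos.2 hn0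
  have ha : 0 < √(n : ℝ) * z := by positivity
  set a := √(n : ℝ) * z with hadef
  set K : ℝ := B ^ (n - 2) * n / m0 ^ 2 with hK
  have hK0 : 0 ≤ K := by positivity
  have hint : IntegrableOn (fun s : ℝ => K * s ^ (-2 : ℝ)) (Ioi a) :=
    (integrableOn_Ioi_rpow_of_lt (by norm_num) ha).const_mul K
  have hind : Integrable ((Ioi a).indicator fun s : ℝ => K * s ^ (-2 : ℝ)) :=
    (integrable_indicator_iff measurableSet_Ioi).2 hint
  have hle : ∀ s : ℝ, 0 < s → max (-(g (s ^ 2 / n) ^ n)) 0 ≤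
      (Ioi a).indicator (fun s : ℝ => K * s ^ (-2 : ℝ)) s := by
    intro s hs
    have hnn : 0 ≤ (Ioi a).indicator (fun s : ℝ => K * s ^ (-2 : ℝ)) s := by
      refine Set.indicator_apply_nonneg fun _ => ?_
      positivity
    rcases le_or_gt 0 (g (s ^ 2 / n)) with h0 | h0
    · refine max_le ?_ hnn
      linarith [pow_nonneg h0 n]
    · have hv : 0 < s ^ 2 / n := by positivity
      have h1 : z2 < s ^ 2 / n := by
        by_contra hc
        exact absurd (pos _ hv.le (not_lt.1 hc)) (not_lt.2 h0.le)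
      have h2 : a < s := by
        refine lt_of_pow_lt_pow_left₀ 2 hs.le ?_
        rw [hadef, mul_pow, Real.sq_sqrt hn0.le]
        rw [lt_div_iff₀ hn0] at h1
        nlinarith
      refine max_le ?_ hnn
      rw [Set.indicator_of_mem (show s ∈ Ioi a from h2)]
      have h3 : |g (s ^ 2 / n)| ≤ B := by
        rw [abs_of_neg h0]
        linarith [hB _ h1.le]
      have h4 : |g (s ^ 2 / n)| ^ 2 ≤ n / (m0 ^ 2 * s ^ 2) := by
        refine (pow_le_pow_left₀ (abs_nonneg _) (dec _ hv) 2).trans (le_of_eq ?_)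
        rw [div_pow, mul_pow, Real.sq_sqrt hv.le]
        field_simp
      calc -(g (s ^ 2 / n) ^ n) ≤ |g (s ^ 2 / n) ^ n| := neg_le_abs _
        _ = |g (s ^ 2 / n)| ^ (n - 2) * |g (s ^ 2 / n)| ^ 2 := by
          rw [_root_.abs_pow, ← pow_add, Nat.sub_add_cancel hn]
        _ ≤ B ^ (n - 2) * (n / (m0 ^ 2 * s ^ 2)) :=
          mul_le_mul (pow_le_pow_left₀ (abs_nonneg _) h3 _) h4 (by positivity) (by positivity)
        _ = K * s ^ (-2 : ℝ) := by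
          rw [Real.rpow_neg hs.le, Real.rpow_two, hK]
          field_simp
  have hcont : Continuous fun s : ℝ => max (-(g (s ^ 2 / n) ^ n)) 0 := by fun_prop
  have hae : ∀ᵐ s ∂(volume.restrict (Ioi (0 : ℝ))), max (-(g (s ^ 2 / n) ^ n)) 0 ≤
      (Ioi a).indicator (fun s : ℝ => K * s ^ (-2 : ℝ)) s :=
    ae_restrict_of_forall_mem measurableSet_Ioi fun s hs => hle s hs
  have hI : IntegrableOn (fun s : ℝ => max (-(g (s ^ 2 / n) ^ n)) 0) (Ioi 0) := by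
    refine Integrable.mono' hind.integrableOn hcont.aestronglyMeasurable ?_
    filter_upwards [hae] with s hs
    rwa [Real.norm_eq_abs, abs_of_nonneg (le_max_right _ _)]
  refine ⟨hI, (integral_mono_ae hI hind.integrableOn hae).trans (le_of_eq ?_)⟩
  rw [setIntegral_indicator measurableSet_Ioi, Set.inter_eq_right.2 (Ioi_subset_Ioi ha.le),
    integral_const_mul, integral_Ioi_rpow_of_lt (by norm_num) ha]
  have h5 : (n : ℝ) = √n * √n := (Real.mul_self_sqrt hn0.le).symm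
  rw [show (-2 : ℝ) + 1 = -1 by norm_num, Real.rpow_neg_one, hK, hadef]
  generalize √(n : ℝ) = r at *
  rw [h5]
  field_simp

lemma FCrudeX.le_one_of_sq {x : ℝ} (h : x ^ 2 ≤ 1) : x ≤ 1 := by nlinarith

theorem scale_nat {rho : ℝ} (h0 : 0 ≤ rho) {n0 n : ℕ} (h1 : 1 ≤ n0) (hn : n0 ≤ n)
    (h : rho ^ 2 * (n0 + 1) ^ 5 ≤ (n0 : ℝ) ^ 5) :
    √((n : ℝ) / n0) ^ 5 * rho ^ (n - n0) ≤ 1 := by
  have hn0 : (0 : ℝ) < n0 := by exact_mod_cast h1
  have key : ∀ k : ℕ, ((n0 : ℝ) + k) ^ 5 * (rho ^ 2) ^ k ≤ (n0 : ℝ) ^ 5 := by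
    intro k
    induction k with
    | zero => simp
    | succ k ih =>
      have hk : (0 : ℝ) ≤ k := Nat.cast_nonneg k
      have h2 : (((n0 : ℝ) + k + 1) * n0) ^ 5 ≤ ((n0 + 1) * (n0 + k)) ^ 5 :=
        pow_le_pow_left₀ (by positivity) (by nlinarith) 5
      have h3 : ((n0 : ℝ) + k + 1) ^ 5 * rho ^ 2 ≤ (n0 + k) ^ 5 := by
        refine le_of_mul_le_mul_right ?_ (pow_pos hn0 5)
        calc ((n0 : ℝ) + k + 1) ^ 5 * rho ^ 2 * n0 ^ 5
            = rho ^ 2 * ((n0 + k + 1) * n0) ^ 5 := by ring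
          _ ≤ rho ^ 2 * ((n0 + 1) * (n0 + k)) ^ 5 := mul_le_mul_of_nonneg_left h2 (sq_nonneg _)
          _ = (rho ^ 2 * (n0 + 1) ^ 5) * (n0 + k) ^ 5 := by ring
          _ ≤ n0 ^ 5 * (n0 + k) ^ 5 := mul_le_mul_of_nonneg_right h (by positivity)
          _ = _ := by ring
      calc ((n0 : ℝ) + (k + 1 : ℕ)) ^ 5 * (rho ^ 2) ^ (k + 1)
          = (((n0 : ℝ) + k + 1) ^ 5 * rho ^ 2) * (rho ^ 2) ^ k := by push_cast; ring
        _ ≤ (n0 + k) ^ 5 * (rho ^ 2) ^ k := mul_le_mul_of_nonneg_right h3 (by positivity)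
        _ ≤ _ := ih
  obtain ⟨k, rfl⟩ := Nat.exists_eq_add_of_le hn
  refine FCrudeX.le_one_of_sq ?_
  rw [mul_pow, ← pow_mul, mul_comm 5 2, pow_mul, Real.sq_sqrt (by positivity), Nat.add_sub_cancel_left,
    ← pow_mul, mul_comm k 2, pow_mul, div_pow, div_mul_eq_mul_div, div_le_one (by positivity)]
  push_cast
  exact key k

theorem scale_exp {c m0 m : ℝ} (h0 : 0 < m0) (hm : m0 ≤ m) (h : 5 ≤ 2 * c * m0) :
    √(m / m0) ^ 5 * Real.exp (-(c * (m - m0))) ≤ 1 := by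
  have hx : 1 ≤ m / m0 := (one_le_div h0).2 hm
  have h1 : √(m / m0) ≤ Real.exp ((m / m0 - 1) / 2) := by
    refine Real.sqrt_le_iff.2 ⟨(Real.exp_pos _).le, ?_⟩
    rw [← Real.exp_nat_mul]
    have := Real.add_one_le_exp (m / m0 - 1)
    refine le_trans (by linarith) (this.trans (le_of_eq ?_))
    congr 1
    push_cast
    ring
  have h2 : √(m / m0) ^ 5 ≤ Real.exp (c * (m - m0)) := by
    refine (pow_le_pow_left₀ (Real.sqrt_nonneg _) h1 5).trans ?_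
    rw [← Real.exp_nat_mul]
    refine Real.exp_le_exp.2 ?_
    have e : c * (m - m0) = (2 * c * m0) * ((m / m0 - 1) / 2) := by field_simp
    rw [e]
    exact mul_le_mul_of_nonneg_right (by exact_mod_cast h) (by linarith)
  rw [Real.exp_neg, ← div_eq_mul_inv, div_le_one (Real.exp_pos _)]
  exact h2

end Pool.Agent.MP_39fec4_gt.Full
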