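import Pool.Agent.MP_39fec4_gt.FDefs
import Pool.Agent.MP_39fec4_gt.FTower

set_option autoImplicit false

namespace Pool.Agent.MP_39fec4_gt.Full

open MeasureTheory Set Real Ball P4

variable {C q y : ℝ}

namespace FDecayX

theorem cs {A B M w : ℝ} (hM : 0 ≤ M) (h : A ^ 2 + B ^ 2 ≤ M ^ 2) :
    |A * Real.sin w + B * Real.cos w| ≤ M := by
  apply abs_le_of_sq_le_sq _ hM
  have h1 := Real.sin_sq_add_cos_sq w
  have h2 : (A * Real.sin w + B * Real.cos w) ^ 2 + (A * Real.cos w - B * Real.sin w) ^ 2 =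
      A ^ 2 + B ^ 2 := by linear_combination (A ^ 2 + B ^ 2) * h1
  nlinarith [sq_nonneg (A * Real.cos w - B * Real.sin w)]

theorem closed {w : ℝ} (hw : 0 < w) :
    CC 2 (w ^ 2) = (1 * Real.sin w + -w * Real.cos w) / (4 * w ^ 3) ∧
    CC 3 (w ^ 2) = ((w ^ 2 - 3) * Real.sin w + 3 * w * Real.cos w) / (8 * w ^ 5) ∧
    CC 6 (w ^ 2) = ((945 - 420 * w ^ 2 + 15 * w ^ 4) * Real.sin w +
      -(945 * w - 105 * w ^ 3 + w ^ 5) * Real.cos w) / (64 * w ^ 11) := by
  have hy : 0 < w ^ 2 := by positivity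
  have r : ∀ j : ℕ, CC (j + 2) (w ^ 2) =
      -(CC j (w ^ 2) + 2 * (2 * j + 1) * CC (j + 1) (w ^ 2)) / (4 * w ^ 2) := by
    intro j
    rw [eq_div_iff (by positivity)]
    linear_combination CC_rec j hy.le
  have e0 : CC 0 (w ^ 2) = Real.cos w := by simp [CC, Real.sqrt_sq hw.le]
  have e1 : CC 1 (w ^ 2) = -Real.sin w / (2 * w) := by rw [CC_one hy, Real.sqrt_sq hw.le]
  have e2 : CC 2 (w ^ 2) = (1 * Real.sin w + -w * Real.cos w) / (4 * w ^ 3) := by
    rw [r 0, e0, e1]; field_simp; ring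
  have e3 : CC 3 (w ^ 2) = ((w ^ 2 - 3) * Real.sin w + 3 * w * Real.cos w) / (8 * w ^ 5) := by
    rw [r 1, e1, e2]; field_simp; ring
  have e4 : CC 4 (w ^ 2) =
      ((15 - 6 * w ^ 2) * Real.sin w + (w ^ 3 - 15 * w) * Real.cos w) / (16 * w ^ 7) := by
    rw [r 2, e2, e3]; field_simp; ring
  have e5 : CC 5 (w ^ 2) = ((-105 + 45 * w ^ 2 - w ^ 4) * Real.sin w +
      (105 * w - 10 * w ^ 3) * Real.cos w) / (32 * w ^ 9) := by
    rw [r 3, e3, e4]; field_simp; ring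
  refine ⟨e2, e3, ?_⟩
  rw [r 4, e4, e5]; field_simp; ring

theorem abs_GG (hC : 0 < C) (hq : 0 < q) {j k : ℕ} {K : ℝ}
    (h : ∀ R : ℝ, 0 < R → R ^ (2 * j + 1) * |CC (j + 1) (R ^ 2 * y)| ≤ K * R ^ k) :
    |gg C j q y| ≤ 2 * K * mu C (k * q) / mu C q := by
  have hm := mu_pos hC (a := q) (by linarith)
  have hk : -1 < (k : ℝ) * q := by
    have : 0 ≤ (k : ℝ) * q := by positivity
    linarith
  obtain ⟨i1, i2⟩ := mu_int hC hk
  rw [gg, abs_div, abs_of_pos hm, GG, abs_mul, abs_neg, abs_two, mul_assoc, ← i2,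
    ← integral_const_mul]
  gcongr
  refine abs_integral_le (i1.const_mul K) fun w hw => ?_
  have hR : 0 < (w / C) ^ q := Real.rpow_pos_of_pos (div_pos hw hC) q
  rw [abs_mul, abs_mul, abs_of_pos (Real.exp_pos _), abs_of_pos (pow_pos hR _), mul_comm (k : ℝ),
    Real.rpow_mul_natCast (div_pos hw hC).le, mul_left_comm K]
  exact mul_le_mul_of_nonneg_left (h _ hR) (Real.exp_pos _).le

theorem sq_mul {R : ℝ} (hR : 0 < R) : √(R ^ 2 * y) = R * √y := by
  rw [Real.sqrt_mul (sq_nonneg R), Real.sqrt_sq hR.le]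

end FDecayX

open FDecayX

theorem abs_CC_one (hy : 0 < y) : |CC 1 y| ≤ 1 / (2 * √y) := by
  have := Real.sqrt_pos.2 hy
  rw [CC_one hy, abs_div, abs_neg, abs_of_pos (by positivity : 0 < 2 * √y)]
  gcongr
  exact Real.abs_sin_le_one _

theorem abs_CC_two (hy : 0 < y) : |CC 2 y| ≤ 3 / (10 * y) := by
  rcases le_total y 3 with h | h
  · refine (abs_CC 2 y).trans ?_
    rw [le_div_iff₀ (by positivity)]
    norm_num [bb]
    linarith
  obtain ⟨w, hw, rfl⟩ : ∃ w : ℝ, 0 < w ∧ y = w ^ 2 :=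
    ⟨√y, Real.sqrt_pos.2 hy, (Real.sq_sqrt hy.le).symm⟩
  rw [(closed hw).1, abs_div, abs_of_pos (by positivity : 0 < 4 * w ^ 3),
    div_le_iff₀ (by positivity)]
  refine (cs (M := 6 / 5 * w) (by positivity) (by nlinarith)).trans_eq ?_
  field_simp
  ring

theorem abs_CC_three (hy : 0 < y) : |CC 3 y| ≤ 1 / (6 * (y * √y)) := by
  obtain ⟨w, hw, rfl⟩ : ∃ w : ℝ, 0 < w ∧ y = w ^ 2 :=
    ⟨√y, Real.sqrt_pos.2 hy, (Real.sq_sqrt hy.le).symm⟩
  rw [Real.sqrt_sq hw.le]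
  rcases le_total w (5 / 2) with h | h
  · refine (abs_CC 3 _).trans ?_
    rw [le_div_iff₀ (by positivity)]
    have : w ^ 3 ≤ (5 / 2) ^ 3 := by gcongr
    norm_num [bb]
    nlinarith
  have h2 : (5 / 2) ^ 2 ≤ w ^ 2 := by gcongr
  rw [(closed hw).2.1, abs_div, abs_of_pos (by positivity : 0 < 8 * w ^ 5),
    div_le_iff₀ (by positivity)]
  refine (cs (M := 4 / 3 * w ^ 2) (by positivity) (by nlinarith)).trans_eq ?_
  field_simp
  ring

theorem abs_CC_six (hy : 0 < y) : |CC 6 y| ≤ 1 / (8 * y ^ 3) := by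
  rcases le_total y 40 with h | h
  · refine (abs_CC 6 y).trans ?_
    rw [le_div_iff₀ (by positivity)]
    have : y ^ 3 ≤ 40 ^ 3 := by gcongr
    norm_num [bb]
    linarith
  have key : y ^ 5 + 15 * y ^ 4 + 315 * y ^ 3 + 6300 * y ^ 2 + 99225 * y + 893025 ≤ 64 * y ^ 5 := by
    obtain ⟨t, ht, rfl⟩ : ∃ t : ℝ, 0 ≤ t ∧ y = 40 + t := ⟨y - 40, by linarith, by ring⟩
    rw [← sub_nonneg]
    ring_nf
    positivity
  obtain ⟨w, hw, rfl⟩ : ∃ w : ℝ, 0 < w ∧ y = w ^ 2 :=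
    ⟨√y, Real.sqrt_pos.2 hy, (Real.sq_sqrt hy.le).symm⟩
  rw [(closed hw).2.2, abs_div, abs_of_pos (by positivity : 0 < 64 * w ^ 11),
    div_le_iff₀ (by positivity)]
  refine (cs (M := 8 * w ^ 5) (by positivity) (by linarith)).trans_eq ?_
  field_simp
  ring

theorem dec_zero (hC : 0 < C) (hq : 0 < q) (hy : 0 < y) : |gg C 0 q y| ≤ 1 / (mu C q * √y) := by
  have hs := Real.sqrt_pos.2 hy
  have hm := mu_pos hC (a := q) (by linarith)
  refine (abs_GG hC hq (k := 0) (K := 1 / (2 * √y)) fun R hR => ?_).trans_eq ?_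
  · refine (mul_le_mul_of_nonneg_left (abs_CC_one (by positivity)) (by positivity)).trans_eq ?_
    rw [sq_mul hR]
    field_simp
    simp
  · have : mu C (((0 : ℕ) : ℝ) * q) = 1 := by simp [mu]
    rw [this]
    field_simp

theorem dec_one (hC : 0 < C) (hq : 0 < q) (hy : 0 < y) : |gg C 1 q y| ≤ 3 / (5 * y) := by
  have hm := mu_pos hC (a := q) (by linarith)
  refine (abs_GG hC hq (k := 1) (K := 3 / (10 * y)) fun R hR => ?_).trans_eq ?_
  · refine (mul_le_mul_of_nonneg_left (abs_CC_two (by positivity)) (by positivity)).trans_eq ?_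
    field_simp
  · rw [Nat.cast_one, one_mul]
    field_simp
    ring

theorem dec_two (hC : 0 < C) (hq : 0 < q) (hy : 0 < y) :
    |gg C 2 q y| ≤ mu C (2 * q) / (3 * mu C q * (y * √y)) := by
  have hs := Real.sqrt_pos.2 hy
  have hm := mu_pos hC (a := q) (by linarith)
  refine (abs_GG hC hq (k := 2) (K := 1 / (6 * (y * √y))) fun R hR => ?_).trans_eq ?_
  · refine (mul_le_mul_of_nonneg_left (abs_CC_three (by positivity)) (by positivity)).trans_eq ?_
    rw [sq_mul hR]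
    field_simp
  · push_cast
    field_simp
    ring

theorem dec_five (hC : 0 < C) (hq : 0 < q) (hy : 0 < y) :
    |gg C 5 q y| ≤ mu C (5 * q) / (4 * mu C q * y ^ 3) := by
  have hm := mu_pos hC (a := q) (by linarith)
  refine (abs_GG hC hq (k := 5) (K := 1 / (8 * y ^ 3)) fun R hR => ?_).trans_eq ?_
  · refine (mul_le_mul_of_nonneg_left (abs_CC_six (by positivity)) (by positivity)).trans_eq ?_
    field_simp
  · push_cast
    field_simp
    ring

end Pool.Agent.MP_39fec4_gt.Full
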