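import Mathlib

set_option autoImplicit false

namespace Pool.Agent.MP_39fec4_gt.P4

open MeasureTheory Set Filter Topology

/-- The derivatives of the cosine of the square root. -/
noncomputable def CC : ℕ → ℝ → ℝ
  | 0 => fun y => Real.cos √y
  | (k + 1) => fun y => -(1 / 2) * ∫ u in (0 : ℝ)..1, u ^ (2 * k) * CC k (u ^ 2 * y)

noncomputable def bb : ℕ → ℝ
  | 0 => 1
  | (k + 1) => bb k / (2 * (2 * k + 1))

theorem bb_pos (k : ℕ) : 0 < bb k := by
  induction k with
  | zero => simp [bb]
  | succ k ih => rw [bb]; positivity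

theorem cont_CC (k : ℕ) : Continuous (CC k) := by
  induction k with
  | zero => unfold CC; fun_prop
  | succ k ih =>
    unfold CC
    refine continuous_const.mul ?_
    exact intervalIntegral.continuous_parametric_intervalIntegral_of_continuous'
      (f := fun y u => u ^ (2 * k) * CC k (u ^ 2 * y)) (by unfold Function.uncurry; fun_prop) 0 1

theorem abs_CC (k : ℕ) (y : ℝ) : |CC k y| ≤ bb k := by
  induction k generalizing y with
  | zero => exact Real.abs_cos_le_one _
  | succ k ih =>
    have h1 : ‖∫ u in (0 : ℝ)..1, u ^ (2 * k) * CC k (u ^ 2 * y)‖ ≤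
        ∫ u in (0 : ℝ)..1, u ^ (2 * k) * bb k := by
      refine intervalIntegral.norm_integral_le_of_norm_le zero_le_one
        (Eventually.of_forall fun u hu => ?_) (Continuous.intervalIntegrable (by fun_prop) _ _)
      rw [Real.norm_eq_abs, abs_mul, abs_of_nonneg (pow_nonneg hu.1.le _)]
      exact mul_le_mul_of_nonneg_left (ih _) (pow_nonneg hu.1.le _)
    rw [intervalIntegral.integral_mul_const, integral_pow, Real.norm_eq_abs] at h1
    simp only [CC, bb, abs_mul, abs_neg]
    rw [abs_of_pos (by norm_num : (0 : ℝ) < 1 / 2)]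
    refine (mul_le_mul_of_nonneg_left h1 (by norm_num)).trans (le_of_eq ?_)
    push_cast
    simp
    field_simp

theorem CC_zero (k : ℕ) : CC k 0 = (-1) ^ k * bb k := by
  induction k with
  | zero => simp [CC, bb]
  | succ k ih =>
    simp only [CC, bb, mul_zero, ih]
    rw [intervalIntegral.integral_mul_const, integral_pow]
    push_cast
    simp
    field_simp
    ring

theorem hasDerivAt_CC (k : ℕ) {y : ℝ} (hy : 0 < y) : HasDerivAt (CC k) (CC (k + 1) y) y := by
  induction k generalizing y with
  | zero =>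
    have hs : 0 < √y := Real.sqrt_pos.2 hy
    have h1 : HasDerivAt (fun y => Real.cos √y) (-Real.sin √y * (1 / (2 * √y))) y :=
      (Real.hasDerivAt_cos _).comp y (Real.hasDerivAt_sqrt hy.ne')
    have h2 : ∫ u in (0 : ℝ)..1, u ^ (2 * 0) * CC 0 (u ^ 2 * y) =
        ∫ u in (0 : ℝ)..1, Real.cos (u * √y) := by
      refine intervalIntegral.integral_congr fun u hu => ?_
      rw [uIcc_of_le zero_le_one] at hu
      simp only [CC, mul_zero, pow_zero, one_mul]
      rw [Real.sqrt_mul (sq_nonneg u), Real.sqrt_sq hu.1]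
    have h3 : CC 1 y = -Real.sin √y * (1 / (2 * √y)) := by
      show -(1 / 2) * ∫ u in (0 : ℝ)..1, u ^ (2 * 0) * CC 0 (u ^ 2 * y) = _
      rw [h2, intervalIntegral.integral_comp_mul_right (fun x => Real.cos x) hs.ne']
      simp
      field_simp
    rw [zero_add, h3]
    exact h1
  | succ k ih =>
    have hc := cont_CC k
    have hc1 := cont_CC (k + 1)
    have := intervalIntegral.hasDerivAt_integral_of_dominated_loc_of_deriv_le (μ := volume)
      (a := 0) (b := 1) (F := fun y u => u ^ (2 * k) * CC k (u ^ 2 * y))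
      (F' := fun y u => u ^ (2 * (k + 1)) * CC (k + 1) (u ^ 2 * y)) (x₀ := y)
      (bound := fun _ => bb (k + 1)) (s := Ioi 0) (Ioi_mem_nhds hy)
      (Eventually.of_forall fun x => Continuous.aestronglyMeasurable (by fun_prop))
      (Continuous.intervalIntegrable (by fun_prop) _ _)
      (Continuous.aestronglyMeasurable (by fun_prop))
      (Eventually.of_forall fun u hu x _ => by
        rw [uIoc_of_le zero_le_one] at hu
        rw [Real.norm_eq_abs, abs_mul, abs_of_nonneg (pow_nonneg hu.1.le _)]
        calc u ^ (2 * (k + 1)) * |CC (k + 1) (u ^ 2 * x)| ≤ 1 * bb (k + 1) :=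
              mul_le_mul (pow_le_one₀ hu.1.le hu.2) (abs_CC _ _) (abs_nonneg _) zero_le_one
          _ = bb (k + 1) := one_mul _)
      intervalIntegrable_const
      (Eventually.of_forall fun u hu x hx => by
        rw [uIoc_of_le zero_le_one] at hu
        have hp : 0 < u ^ 2 * x := mul_pos (pow_pos hu.1 2) hx
        have h1 := ((ih hp).comp x ((hasDerivAt_id x).const_mul (u ^ 2))).const_mul (u ^ (2 * k))
        refine h1.congr_deriv ?_
        ring)
    exact this.2.const_mul (-(1 / 2))

/-- The weight times a power. -/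
noncomputable def ww (k : ℕ) (x : ℝ) : ℝ := x ^ (2 * k) * Real.exp (-x ^ 4)

theorem cont_ww (k : ℕ) : Continuous (ww k) := by unfold ww; fun_prop

theorem ww_nonneg (k : ℕ) (x : ℝ) : 0 ≤ ww k x := by
  unfold ww; rw [pow_mul]; positivity

theorem ww_eq (k : ℕ) (x : ℝ) :
    ww k x = x ^ ((2 * k : ℕ) : ℝ) * Real.exp (-x ^ (4 : ℝ)) := by
  rw [ww, Real.rpow_natCast, show (4 : ℝ) = ((4 : ℕ) : ℝ) by norm_num, Real.rpow_natCast]

theorem int_ww (k : ℕ) : IntegrableOn (ww k) (Ioi 0) := by
  have := integrableOn_rpow_mul_exp_neg_rpow (p := 4) (s := ((2 * k : ℕ) : ℝ))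
    (by have : (0 : ℝ) ≤ ((2 * k : ℕ) : ℝ) := Nat.cast_nonneg _; linarith) (by norm_num)
  exact this.congr_fun (fun x _ => (ww_eq k x).symm) measurableSet_Ioi

/-- Moments. -/
noncomputable def mm (k : ℕ) : ℝ := ∫ x in Ioi (0 : ℝ), ww k x

theorem mm_eq (k : ℕ) : mm k = 1 / 4 * Real.Gamma ((2 * k + 1) / 4) := by
  have := integral_rpow_mul_exp_neg_rpow (p := 4) (q := ((2 * k : ℕ) : ℝ)) (by norm_num)
    (by have : (0 : ℝ) ≤ ((2 * k : ℕ) : ℝ) := Nat.cast_nonneg _; linarith)
  rw [mm]
  simp_rw [ww_eq]
  rw [this]; push_cast; rfl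

theorem mm_pos (k : ℕ) : 0 < mm k := by
  rw [mm_eq]
  have := Real.Gamma_pos_of_pos (s := (2 * k + 1) / 4) (by positivity)
  positivity

theorem mm_succ (k : ℕ) : mm (k + 2) = (2 * k + 1) / 4 * mm k := by
  rw [mm_eq, mm_eq]
  have : ((2 * ((k + 2 : ℕ) : ℝ) + 1) / 4) = (2 * k + 1) / 4 + 1 := by push_cast; ring
  rw [this, Real.Gamma_add_one (by positivity)]
  ring

/-- The tower of derivatives of the normalised Fourier transform in the squared variable. -/
noncomputable def gg (k : ℕ) (s : ℝ) : ℝ :=
  (∫ x in Ioi (0 : ℝ), ww k x * CC k (s * x ^ 2)) / mm 0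

noncomputable def MM (k : ℕ) : ℝ := bb k * mm k / mm 0

theorem MM_pos (k : ℕ) : 0 < MM k := by
  have := bb_pos k; have := mm_pos k; have := mm_pos 0
  unfold MM; positivity

theorem MM_zero : MM 0 = 1 := by
  have := mm_pos 0
  simp [MM, bb, this.ne']

theorem MM_succ (k : ℕ) : MM (k + 2) = MM k / (16 * (2 * k + 3)) := by
  have := mm_pos 0
  simp only [MM, bb, mm_succ]
  push_cast
  field_simp
  ring

theorem norm_integrand (k : ℕ) (y x : ℝ) : ‖ww k x * CC k y‖ ≤ ww k x * bb k := by
  rw [Real.norm_eq_abs, abs_mul, abs_of_nonneg (ww_nonneg k x)]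
  exact mul_le_mul_of_nonneg_left (abs_CC _ _) (ww_nonneg k x)

theorem abs_gg (k : ℕ) (s : ℝ) : |gg k s| ≤ MM k := by
  have h0 := mm_pos 0
  have h1 : ‖∫ x in Ioi (0 : ℝ), ww k x * CC k (s * x ^ 2)‖ ≤ ∫ x in Ioi (0 : ℝ), ww k x * bb k :=
    norm_integral_le_of_norm_le ((int_ww k).mul_const _)
      (Eventually.of_forall fun x => norm_integrand k _ x)
  rw [integral_mul_const, Real.norm_eq_abs] at h1
  rw [gg, MM, abs_div, abs_of_pos h0, mul_comm (bb k)]
  exact div_le_div_of_nonneg_right h1 h0.le

theorem gg_zero (k : ℕ) : gg k 0 = (-1) ^ k * MM k := by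
  simp only [gg, MM, zero_mul, CC_zero]
  rw [integral_mul_const, ← mm]
  ring

theorem cont_gg (k : ℕ) : Continuous (gg k) := by
  have hc := cont_CC k
  have hw := cont_ww k
  refine Continuous.div_const ?_ _
  exact continuous_of_dominated (bound := fun x => ww k x * bb k)
    (fun s => Continuous.aestronglyMeasurable (by fun_prop))
    (fun s => Eventually.of_forall fun x => norm_integrand k _ x) ((int_ww k).mul_const _)
    (Eventually.of_forall fun x => by fun_prop)

theorem hasDerivAt_gg (k : ℕ) {s : ℝ} (hs : 0 < s) : HasDerivAt (gg k) (gg (k + 1) s) s := by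
  have hc := cont_CC k
  have hw := cont_ww k
  have hc1 := cont_CC (k + 1)
  have hw1 := cont_ww (k + 1)
  have := hasDerivAt_integral_of_dominated_loc_of_deriv_le (μ := volume.restrict (Ioi (0 : ℝ)))
    (F := fun s x => ww k x * CC k (s * x ^ 2))
    (F' := fun s x => ww (k + 1) x * CC (k + 1) (s * x ^ 2)) (x₀ := s)
    (bound := fun x => ww (k + 1) x * bb (k + 1)) (s := Ioi 0) (Ioi_mem_nhds hs)
    (Eventually.of_forall fun x => Continuous.aestronglyMeasurable (by fun_prop))
    (((int_ww k).mul_const (bb k)).mono' (Continuous.aestronglyMeasurable (by fun_prop))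
      (Eventually.of_forall fun x => norm_integrand k _ x))
    (Continuous.aestronglyMeasurable (by fun_prop))
    (Eventually.of_forall fun x s _ => norm_integrand _ _ x) ((int_ww (k + 1)).mul_const _)
    ((ae_restrict_iff' measurableSet_Ioi).2 (Eventually.of_forall fun x hx y hy => by
      have hp : 0 < y * x ^ 2 := mul_pos hy (pow_pos hx 2)
      have h1 := ((hasDerivAt_CC k hp).comp y ((hasDerivAt_id y).mul_const (x ^ 2))).const_mul
        (ww k x)
      refine h1.congr_deriv ?_
      simp only [ww]; ring))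
  exact this.2.div_const _

theorem abs_sub_le_of_bound {f f' B B' : ℝ → ℝ} {c x : ℝ} (hx : c ≤ x)
    (hf : ContinuousOn f (Icc c x)) (hB : ContinuousOn B (Icc c x))
    (hf' : ∀ t ∈ Ioo c x, HasDerivAt f (f' t) t) (hB' : ∀ t ∈ Ioo c x, HasDerivAt B (B' t) t)
    (h : ∀ t ∈ Ioo c x, |f' t| ≤ B' t) : |f x - f c| ≤ B x - B c := by
  have h1 := monotoneOn_of_hasDerivWithinAt_nonneg (convex_Icc c x) (f := fun t => B t - f t)
    (f' := fun t => B' t - f' t) (hB.sub hf)
    (fun t ht => by
      rw [interior_Icc] at ht ⊢; exact ((hB' t ht).sub (hf' t ht)).hasDerivWithinAt)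
    (fun t ht => by rw [interior_Icc] at ht; linarith [(abs_le.1 (h t ht)).2])
    (left_mem_Icc.2 hx) (right_mem_Icc.2 hx) hx
  have h2 := monotoneOn_of_hasDerivWithinAt_nonneg (convex_Icc c x) (f := fun t => B t + f t)
    (f' := fun t => B' t + f' t) (hB.add hf)
    (fun t ht => by
      rw [interior_Icc] at ht ⊢; exact ((hB' t ht).add (hf' t ht)).hasDerivWithinAt)
    (fun t ht => by rw [interior_Icc] at ht; linarith [(abs_le.1 (h t ht)).1])
    (left_mem_Icc.2 hx) (right_mem_Icc.2 hx) hx
  simp only at h1 h2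
  rw [abs_le]; constructor <;> linarith

/-- Taylor expansion to the right of a nonnegative centre. -/
theorem taylor (N : ℕ) : ∀ (j : ℕ) (c x : ℝ), 0 ≤ c → c ≤ x →
    |gg j x - ∑ i ∈ Finset.range N, gg (j + i) c * (x - c) ^ i / i.factorial| ≤
      MM (j + N) * (x - c) ^ N / N.factorial := by
  induction N with
  | zero => intro j c x _ _; simpa using abs_gg j x
  | succ N ih =>
    intro j c x hc hx
    have hg := cont_gg j
    have := abs_sub_le_of_bound
      (f := fun x => gg j x - ∑ i ∈ Finset.range N,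
        gg (j + (i + 1)) c * (x - c) ^ (i + 1) / (i + 1).factorial)
      (f' := fun x => gg (j + 1) x - ∑ i ∈ Finset.range N,
        gg (j + 1 + i) c * (x - c) ^ i / i.factorial)
      (B := fun x => MM (j + (N + 1)) * (x - c) ^ (N + 1) / (N + 1).factorial)
      (B' := fun x => MM (j + 1 + N) * (x - c) ^ N / N.factorial) hx
      (Continuous.continuousOn (by fun_prop)) (Continuous.continuousOn (by fun_prop))
      (fun t ht => by
        refine (hasDerivAt_gg j (hc.trans_lt ht.1)).sub ?_
        refine HasDerivAt.fun_sum fun i _ => ?_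
        have h1 := ((((hasDerivAt_id t).sub_const c).pow (i + 1)).const_mul
          (gg (j + (i + 1)) c)).div_const ((i + 1).factorial : ℝ)
        refine h1.congr_deriv ?_
        rw [Nat.factorial_succ, show j + 1 + i = j + (i + 1) by ring]
        have : ((i.factorial : ℕ) : ℝ) ≠ 0 := by positivity
        simp
        field_simp)
      (fun t _ => by
        have h1 := ((((hasDerivAt_id t).sub_const c).pow (N + 1)).const_mul
          (MM (j + (N + 1)))).div_const ((N + 1).factorial : ℝ)
        refine h1.congr_deriv ?_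
        rw [Nat.factorial_succ, show j + 1 + N = j + (N + 1) by ring]
        have : ((N.factorial : ℕ) : ℝ) ≠ 0 := by positivity
        simp
        field_simp)
      (fun t ht => ih (j + 1) c t hc ht.1.le)
    rw [Finset.sum_range_succ']
    simp only [sub_self, ne_eq, Nat.add_eq_zero_iff, one_ne_zero, and_false, not_false_eq_true,
      zero_pow, mul_zero, zero_div, Finset.sum_const_zero, sub_zero] at this
    simp only [add_zero, pow_zero, mul_one, Nat.factorial_zero, Nat.cast_one, div_one]
    convert this using 2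
    ring

end Pool.Agent.MP_39fec4_gt.P4
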