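import Pool.Agent.MP_39fec4_gt.BMain
import Pool.Agent.MP_39fec4_gt.P4Tower

set_option autoImplicit false

namespace Pool.Agent.MP_39fec4_gt.Full

open MeasureTheory Set Real Ball P4

/-- The Fourier integral in the squared coordinates. -/
noncomputable def II (p : ℝ) {n : ℕ} (x : Fin n → ℝ) : ℝ :=
  ∫ s in Ioi (0 : ℝ), ∏ j, ff p (√(x j) * s)

/-- Its value at the main diagonal. -/
noncomputable def Dg (p : ℝ) (n : ℕ) : ℝ := ∫ s in Ioi (0 : ℝ), ff p (√(1 / (n : ℝ)) * s) ^ n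

/-- Its value at the two dimensional diagonal. -/
noncomputable def Bl (p : ℝ) : ℝ := √2 * I2 p

/-- The closed simplex. -/
def Smp {n : ℕ} (x : Fin n → ℝ) : Prop := (∀ j, 0 ≤ x j) ∧ ∑ j, x j = 1

def IsDiag {n : ℕ} (x : Fin n → ℝ) : Prop := ∀ j, x j = 1 / (n : ℝ)

def IsBall {n : ℕ} (x : Fin n → ℝ) : Prop := ∃ i j, i ≠ j ∧ x i = 1 / 2 ∧ x j = 1 / 2

/-- The core inequality for one exponent. -/
def Core (p : ℝ) : Prop := ∀ n : ℕ, 3 ≤ n → ∀ x : Fin n → ℝ, Smp x → ¬IsDiag x → ¬IsBall x →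
  II p x < max (Dg p n) (Bl p)

/-- Single crossing between two values of `q = 1 / p`. -/
def Cross (n : ℕ) (a b : ℝ) : Prop := ∀ q q' : ℝ, a ≤ q → q < q' → q' ≤ b →
  Bl (1 / q) ≤ Dg (1 / q) n → Bl (1 / q') < Dg (1 / q') n

/-- Moments of `W / C` for an exponential variable `W`. -/
noncomputable def mu (C a : ℝ) : ℝ := Real.Gamma (1 + a) * C ^ (-a)

noncomputable def mu1 (C a : ℝ) : ℝ :=
  ∫ w in Ioi (0 : ℝ), Real.exp (-w) * ((w / C) ^ a * Real.log (w / C))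

noncomputable def nu (C a : ℝ) : ℝ :=
  ∫ w in Ioi (0 : ℝ), Real.exp (-w) * ((w / C) ^ a * Real.log (w / C) ^ 2)

/-- The tower of derivatives in `y`, before normalisation. -/
noncomputable def GG (C : ℝ) (j : ℕ) (q y : ℝ) : ℝ :=
  -2 * ∫ w in Ioi (0 : ℝ), Real.exp (-w) *
    (((w / C) ^ q) ^ (2 * j + 1) * CC (j + 1) (((w / C) ^ q) ^ 2 * y))

/-- First derivative of `GG` in `q`. -/
noncomputable def GG1 (C : ℝ) (j : ℕ) (q y : ℝ) : ℝ :=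
  ∫ w in Ioi (0 : ℝ), Real.exp (-w) * (Real.log (w / C) *
    (((w / C) ^ q) ^ (2 * j + 1) * CC j (((w / C) ^ q) ^ 2 * y)))

/-- Second derivative of `GG` in `q`. -/
noncomputable def GG2 (C : ℝ) (j : ℕ) (q y : ℝ) : ℝ :=
  ∫ w in Ioi (0 : ℝ), Real.exp (-w) * (Real.log (w / C) ^ 2 *
    (((w / C) ^ q) ^ (2 * j + 1) * ((2 * j + 1) * CC j (((w / C) ^ q) ^ 2 * y) +
      2 * (((w / C) ^ q) ^ 2 * y) * CC (j + 1) (((w / C) ^ q) ^ 2 * y))))

/-- The normalised tower. -/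
noncomputable def gg (C : ℝ) (j : ℕ) (q y : ℝ) : ℝ := GG C j q y / mu C q

noncomputable def gq1 (C : ℝ) (j : ℕ) (q y : ℝ) : ℝ :=
  (GG1 C j q y - mu1 C q * gg C j q y) / mu C q

noncomputable def gq2 (C : ℝ) (j : ℕ) (q y : ℝ) : ℝ :=
  (GG2 C j q y - 2 * mu1 C q * gq1 C j q y - nu C q * gg C j q y) / mu C q

/-- Absolute value of the `i`-th Taylor coefficient of `gg C 0 q` at zero. -/
noncomputable def aa (C q : ℝ) (i : ℕ) : ℝ :=
  mu C ((2 * i + 1) * q) / (((2 * i + 1).factorial : ℝ) * mu C q)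

/-- The value at the two dimensional diagonal in the block normalisation. -/
noncomputable def kap (C q : ℝ) : ℝ := π / √2 * 2 ^ (-q) / mu C q

/-- The product integral for an abstract profile `g`. -/
noncomputable def IG (g : ℝ → ℝ) {ι : Type} (T : Finset ι) (x : ι → ℝ) : ℝ :=
  ∫ s in Ioi (0 : ℝ), ∏ j ∈ T, g (x j * s ^ 2)

noncomputable def DG (g : ℝ → ℝ) (n : ℕ) : ℝ := ∫ s in Ioi (0 : ℝ), g (s ^ 2 / n) ^ n

/-- The integrand with two free coordinates and `k` equal ones. -/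
noncomputable def P3 (g : ℝ → ℝ) (x1 x2 x3 : ℝ) (k : ℕ) (t : ℝ) : ℝ :=
  g (x1 * t) * g (x2 * t) * g (x3 * t) ^ k

/-- A smooth profile on the half line. -/
structure Sm (g g1 g2 : ℝ → ℝ) : Prop where
  c0 : Continuous g
  c1 : Continuous g1
  c2 : Continuous g2
  d0 : ∀ y, 0 < y → HasDerivAt g (g1 y) y
  d1 : ∀ y, 0 < y → HasDerivAt g1 (g2 y) y
  z : g 0 = 1
  bd : ∀ y, 0 ≤ y → |g y| ≤ 1

/-- The shape of the first two lobes. -/
structure Hd (g g1 g2 : ℝ → ℝ) (lam z2 Zc Z2 : ℝ) : Prop where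
  l0 : 0 < lam
  l1 : g1 0 + lam ≤ 0
  z0 : 0 < z2
  z1 : z2 ≤ Zc
  z3 : Zc ≤ Z2
  pos : ∀ y, 0 ≤ y → y ≤ z2 → 0 < g y
  conc : ∀ y, 0 < y → y ≤ Zc → g2 y + 2 * lam * g1 y + lam ^ 2 * g y ≤ 0
  neg : ∀ y, Zc ≤ y → y ≤ Z2 → g y ≤ 0

/-- Bounds for a function and two twisted derivatives on an interval. -/
def D2 (f : ℝ → ℝ) (al a b A0 A1 A2 : ℝ) : Prop :=
  ContinuousOn f (Icc a b) ∧ ∃ f1 f2 : ℝ → ℝ, ∀ s ∈ Ioo a b,
    HasDerivAt f (f1 s) s ∧ HasDerivAt f1 (f2 s) s ∧ |f s| ≤ A0 ∧ |f1 s + al * f s| ≤ A1 ∧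
      |f2 s + 2 * al * f1 s + al ^ 2 * f s| ≤ A2

/-- A function lies below its chord up to an error. -/
def Ch (f : ℝ → ℝ) (a b e : ℝ) : Prop :=
  ∀ th : ℝ, 0 ≤ th → th ≤ 1 → f ((1 - th) * a + th * b) ≤ (1 - th) * f a + th * f b + e

/-- The sum of squared deviations from the mean. -/
noncomputable def Var {ι : Type} (T : Finset ι) (y : ι → ℝ) : ℝ :=
  ∑ j ∈ T, (y j - (∑ i ∈ T, y i) / T.card) ^ 2

end Pool.Agent.MP_39fec4_gt.Full
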