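import Pool.Agent.MP_39fec4_gt.FDefs

set_option autoImplicit false

namespace Pool.Agent.MP_39fec4_gt.Full

open MeasureTheory Set Real Ball P4 Filter Topology

variable {p : ℝ}

namespace FTwoX

theorem bound (hp : 2 < p) {n : ℕ} (a : Fin n → ℝ) {i j : Fin n} (hij : i ≠ j) (hi : 0 < a i)
    (hj : 0 ≤ a j) : ∫ s in Ioi (0 : ℝ), ∏ k, ff p (a k * s) ≤
      π / (2 * a i) * (1 + (a j / a i) ^ p) ^ (-(1 / p)) := by
  have hπ := Real.pi_pos
  simp only [← Finset.mul_prod_erase Finset.univ _ (Finset.mem_univ i)]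
  rcases hj.eq_or_lt with h0 | h0
  · have := (sup_prod hp (Finset.univ.erase i) a (int_scale (int_ff hp) hi) (M := π / (2 * a i))
      fun x => by
        rw [one_phys hp hi]
        exact mul_le_of_le_one_right (by positivity) (K_le_one hp (by positivity))).2 0
    rw [cosT_zero] at this
    rw [← h0, zero_div, Real.zero_rpow (by positivity), add_zero, Real.one_rpow, mul_one]
    exact this
  · have mj : j ∈ Finset.univ.erase i := Finset.mem_erase.2 ⟨hij.symm, Finset.mem_univ j⟩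
    simp only [← Finset.mul_prod_erase (Finset.univ.erase i) _ mj]
    have := (sup_prod hp ((Finset.univ.erase i).erase j) a
      (int_mul_ff hp (int_scale (int_ff hp) hi) (a j)) (two_phys hp hi h0)).2 0
    rw [cosT_zero] at this
    simpa only [mul_assoc] using this

theorem sq_rpow {x : ℝ} (hx : 0 ≤ x) (p : ℝ) : (2 * x) ^ (p / 2) = (√2 * √x) ^ p := by
  rw [← Real.sqrt_mul (by norm_num), Real.sqrt_eq_rpow, ← Real.rpow_mul (by positivity)]
  congr 1; ring

theorem val_lt (hp : 2 < p) {α β : ℝ} (hα : 0 < α) (hβ : 0 ≤ β)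
    (h : 2 < (√2 * α) ^ p + (√2 * β) ^ p) :
    π / (2 * α) * (1 + (β / α) ^ p) ^ (-(1 / p)) < Bl p := by
  have hπ := Real.pi_pos
  have s0 : (0 : ℝ) < √2 := by positivity
  have p0 : 0 < p := by linarith
  have t0 : 0 < (√2 * α) ^ p := by positivity
  have e1 : 1 + (β / α) ^ p = ((√2 * α) ^ p + (√2 * β) ^ p) / (√2 * α) ^ p := by
    rw [add_div, div_self t0.ne', ← Real.div_rpow (by positivity) (by positivity),
      mul_div_mul_left _ _ s0.ne']
  have e2 : ((√2 * α) ^ p) ^ (-(1 / p)) = (√2 * α)⁻¹ := by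
    rw [← Real.rpow_mul (by positivity), show p * -(1 / p) = -1 by field_simp, Real.rpow_neg_one]
  have h3 : ((√2 * α) ^ p + (√2 * β) ^ p) ^ (-(1 / p)) < 2 ^ (-(1 / p)) :=
    Real.rpow_lt_rpow_of_neg (by norm_num) h (by have := one_div_pos.2 p0; linarith)
  rw [e1, Real.div_rpow (by positivity) t0.le, e2, Bl, I2]
  calc _ = √2 * (π / 2 * ((√2 * α) ^ p + (√2 * β) ^ p) ^ (-(1 / p))) := by field_simp
    _ < _ := by gcongr

theorem cont_ff_q {q0 : ℝ} (hq : q0 ∈ Ioo (0 : ℝ) (1 / 2)) (x : ℝ) :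
    ContinuousAt (fun q : ℝ => ff (1 / q) x) q0 := by
  have hev : ∀ᶠ q in 𝓝 q0, 2 < 1 / q := by
    filter_upwards [Ioo_mem_nhds hq.1 hq.2] with q hq'
    rw [lt_div_iff₀ hq'.1]; linarith [hq'.2]
  have hp0 : 2 < 1 / q0 := hev.self_of_nhds
  have c1 : ContinuousAt (fun q : ℝ => 1 / q) q0 := continuousAt_const.div continuousAt_id hq.1.ne'
  have c2 : ContinuousAt (fun q : ℝ => Zp (1 / q)) q0 := by
    have d1 : ContinuousAt (fun q : ℝ => 1 + 1 / (1 / q)) q0 :=
      continuousAt_const.add (continuousAt_const.div c1 (by positivity))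
    have d2 : ContinuousAt Real.Gamma (1 + 1 / (1 / q0)) :=
      (Real.differentiableAt_Gamma fun m => by
        have : (0 : ℝ) ≤ m := Nat.cast_nonneg m
        have : 0 < 1 / (1 / q0) := by positivity
        linarith).continuousAt
    exact ContinuousAt.comp (f := fun q : ℝ => 1 + 1 / (1 / q)) d2 d1
  have c3 : ContinuousAt (fun q : ℝ => bp (1 / q)) q0 :=
    c2.rpow c1 (Or.inl (Zp_pos hp0).ne')
  have b0 := bp_pos hp0
  set c := bp (1 / q0) / 2 with hc
  have c0 : 0 < c := by positivity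
  have hev2 : ∀ᶠ q in 𝓝 q0, c < bp (1 / q) := c3.eventually (lt_mem_nhds (by linarith))
  unfold ff cosT
  refine continuousAt_of_dominated (bound := fun y => Real.exp c * Real.exp (-c * y)) ?_ ?_
    ((exp_neg_integrableOn_Ioi 0 c0).const_mul _) ?_
  · filter_upwards [hev] with q h2
    exact (int_cos (int_K0 h2) x).aestronglyMeasurable
  · filter_upwards [hev, hev2] with q h2 h3
    filter_upwards [ae_restrict_mem measurableSet_Ioi] with y hy
    rw [Real.norm_eq_abs, abs_mul, abs_of_pos (K_pos _ _)]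
    refine (mul_le_of_le_one_right (K_pos _ _).le (Real.abs_cos_le_one _)).trans ?_
    rw [K, ← Real.exp_add, Real.exp_le_exp]
    have y0 : 0 < y := hy
    have h4 : y - 1 ≤ y ^ (1 / q) := by
      rcases le_total y 1 with h5 | h5
      · have : 0 ≤ y ^ (1 / q) := by positivity
        linarith
      · have := Real.rpow_le_rpow_of_exponent_le h5 (show 1 ≤ 1 / q by linarith)
        rw [Real.rpow_one] at this
        linarith
    have h6 : 0 ≤ y ^ (1 / q) := by positivity
    nlinarith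
  · filter_upwards [ae_restrict_mem measurableSet_Ioi] with y hy
    have y0 : 0 < y := hy
    have c4 : ContinuousAt (fun q : ℝ => y ^ (1 / q)) q0 :=
      continuousAt_const.rpow c1 (Or.inl y0.ne')
    unfold K
    exact (Real.continuous_exp.continuousAt.comp (c3.neg.mul c4)).mul continuousAt_const

theorem pow_le (hp : 2 < p) {n : ℕ} (hn : 2 ≤ n) (x : ℝ) :
    |ff p x ^ n| ≤ 2 * (1 + x ^ 2)⁻¹ := by
  have h1 := abs_ff_le hp x
  have h2 := abs_x_mul_ff_le hp x
  have h3 : |ff p x ^ n| ≤ ff p x ^ 2 := by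
    rw [abs_pow, ← sq_abs]
    exact pow_le_pow_of_le_one (abs_nonneg _) h1 hn
  have h4 : ff p x ^ 2 ≤ 1 := by rw [← sq_abs]; exact pow_le_one₀ (abs_nonneg _) h1
  have h5 : (x * ff p x) ^ 2 ≤ 1 := by rw [← sq_abs]; exact pow_le_one₀ (abs_nonneg _) h2
  refine h3.trans ?_
  rw [← div_eq_mul_inv, le_div_iff₀ (by positivity)]
  nlinarith

end FTwoX

open FTwoX

theorem two_lt (hp : 2 < p) {n : ℕ} {x : Fin n → ℝ} (hx : Smp x) {i j : Fin n} (hij : i ≠ j)
    (h : 2 < (2 * x i) ^ (p / 2) + (2 * x j) ^ (p / 2)) : II p x < Bl p := by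
  have key : ∀ i j : Fin n, i ≠ j → 0 < x i → 2 < (2 * x i) ^ (p / 2) + (2 * x j) ^ (p / 2) →
      II p x < Bl p := by
    intro i j hij hi h
    rw [sq_rpow (hx.1 i), sq_rpow (hx.1 j)] at h
    exact lt_of_le_of_lt (bound hp (fun k => √(x k)) hij (Real.sqrt_pos.2 hi) (Real.sqrt_nonneg _))
      (val_lt hp (Real.sqrt_pos.2 hi) (Real.sqrt_nonneg _) h)
  rcases (hx.1 i).eq_or_lt with h0 | h0
  · rcases (hx.1 j).eq_or_lt with h1 | h1
    · rw [← h0, ← h1, mul_zero, Real.zero_rpow (by positivity)] at h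
      norm_num at h
    · exact key j i hij.symm h1 (by linarith)
  · exact key i j hij h0 h

theorem rpow_sum_mono {a b s0 s : ℝ} (ha : 0 ≤ a) (hb : 0 ≤ b) (h0 : 0 < s0) (hs : s0 ≤ s)
    (h : 2 < a ^ s0 + b ^ s0) : 2 < a ^ s + b ^ s := by
  have t1 : 1 ≤ s / s0 := (one_le_div h0).2 hs
  have key : ∀ c : ℝ, 0 ≤ c → 1 + s / s0 * (c ^ s0 - 1) ≤ c ^ s := by
    intro c hc
    have h1 : 0 ≤ c ^ s0 := by positivity
    have := one_add_mul_self_le_rpow_one_add (s := c ^ s0 - 1) (by linarith) t1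
    rwa [add_sub_cancel, ← Real.rpow_mul hc, mul_div_cancel₀ _ h0.ne'] at this
  have k1 := key a ha
  have k2 := key b hb
  nlinarith

theorem rpow_sum_spread {a b u d s : ℝ} (hb : 0 ≤ b) (hd : 0 ≤ d) (hu : 0 ≤ u) (hs : 1 ≤ s)
    (h1 : 2 * u ≤ a + b) (h2 : 2 * d ≤ a - b) :
    (u + d) ^ s + (max (u - d) 0) ^ s ≤ a ^ s + b ^ s := by
  have s0 : 0 ≤ s := by linarith
  rcases le_or_gt (max (u - d) 0) b with h3 | h3
  · exact add_le_add (Real.rpow_le_rpow (by linarith) (by linarith) s0)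
      (Real.rpow_le_rpow (le_max_right _ _) h3 s0)
  have h4 : b < u - d := by
    rcases lt_max_iff.1 h3 with h | h
    · exact h
    · linarith
  rw [max_eq_left (by linarith)]
  set a' := 2 * u - b with ha'
  have w0 : 0 < a' - b := by linarith
  set l := (u + d - b) / (a' - b) with hl
  have l0 : 0 ≤ l := div_nonneg (by linarith) w0.le
  have l1 : l ≤ 1 := (div_le_one w0).2 (by linarith)
  have l2 : l * (a' - b) = u + d - b := div_mul_cancel₀ _ w0.ne'
  have c1 := (convexOn_rpow hs).2 (x := a') (y := b) (show 0 ≤ a' by linarith) hb l0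
    (sub_nonneg.2 l1) (by ring)
  have c2 := (convexOn_rpow hs).2 (x := a') (y := b) (show 0 ≤ a' by linarith) hb
    (sub_nonneg.2 l1) l0 (by ring)
  simp only [smul_eq_mul] at c1 c2
  rw [show l * a' + (1 - l) * b = u + d by linarith] at c1
  rw [show (1 - l) * a' + l * b = u - d by linarith] at c2
  have c3 : a' ^ s ≤ a ^ s := Real.rpow_le_rpow (by linarith) (by linarith) s0
  linarith

/-- All the mass on two unequal coordinates. -/
theorem two_lt_of_sum (hp : 2 < p) {n : ℕ} {x : Fin n → ℝ} (hx : Smp x) {i j : Fin n}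
    (hij : i ≠ j) (h : x i + x j = 1) (hne : x i ≠ 1 / 2) : II p x < Bl p := by
  refine two_lt hp hx hij ?_
  have a := one_add_mul_self_lt_rpow_one_add (s := 2 * x i - 1) (by linarith [hx.1 i])
    (fun h' => hne (by linarith)) (p := p / 2) (by linarith)
  have b := one_add_mul_self_le_rpow_one_add (s := 2 * x j - 1) (by linarith [hx.1 j])
    (p := p / 2) (by linarith)
  rw [add_sub_cancel] at a b
  have e : p / 2 * (2 * x i - 1) + p / 2 * (2 * x j - 1) = 0 := by
    rw [← mul_add, show 2 * x i - 1 + (2 * x j - 1) = 0 by linarith, mul_zero]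
  linarith

theorem II_diag {n : ℕ} {x : Fin n → ℝ} (hx : IsDiag x) : II p x = Dg p n := by
  unfold II Dg
  simp only [hx _, Finset.prod_const, Finset.card_univ, Fintype.card_fin]

theorem II_ball (hp : 2 < p) {n : ℕ} {x : Fin n → ℝ} (hx : Smp x) (hb : IsBall x) :
    II p x = Bl p := by
  obtain ⟨i, j, hij, hi, hj⟩ := hb
  have hs := hx.2
  have mj : j ∈ Finset.univ.erase i := Finset.mem_erase.2 ⟨hij.symm, Finset.mem_univ j⟩
  rw [← Finset.add_sum_erase _ _ (Finset.mem_univ i), ← Finset.add_sum_erase _ _ mj, hi, hj] at hs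
  have h0 : ∀ k ∈ (Finset.univ.erase i).erase j, x k = 0 :=
    (Finset.sum_eq_zero_iff_of_nonneg fun k _ => hx.1 k).1 (by linarith)
  have e := integral_scale (fun x => ff p x ^ 2) (α := 1 / √2) (by positivity)
  rw [integral_ff_sq hp, ← I2, div_div_eq_mul_div, div_one, mul_comm] at e
  have e2 : √(1 / 2 : ℝ) = 1 / √2 := by rw [Real.sqrt_div zero_le_one, Real.sqrt_one]
  rw [Bl, ← e, II]
  congr 1; funext s
  rw [← Finset.mul_prod_erase _ _ (Finset.mem_univ i), ← Finset.mul_prod_erase _ _ mj, hi, hj,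
    Finset.prod_eq_one fun k hk => by rw [h0 k hk, Real.sqrt_zero, zero_mul, ff_zero hp], e2]
  ring

/-- Padding with zeros. -/
theorem II_pad (hp : 2 < p) {N n : ℕ} (hN : 1 ≤ N) (hn : N ≤ n) :
    ∃ x : Fin n → ℝ, Smp x ∧ II p x = Dg p N ∧ (N < n → ¬IsDiag x) ∧ (3 ≤ N → ¬IsBall x) := by
  have N0 : (0 : ℝ) < N := by exact_mod_cast hN
  have hc : (Finset.univ.filter fun j : Fin n => (j : ℕ) < N).card = N := by
    rw [Fin.card_filter_val_lt, min_eq_right hn]
  refine ⟨fun j => if (j : ℕ) < N then 1 / (N : ℝ) else 0, ⟨fun j => ?_, ?_⟩, ?_, fun h hd => ?_,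
    fun h hb => ?_⟩
  · beta_reduce
    split_ifs
    · positivity
    · exact le_rfl
  · rw [← Finset.sum_filter, Finset.sum_const, hc, nsmul_eq_mul]
    field_simp
  · unfold II Dg
    congr 1; funext s
    have : ∀ j : Fin n, ff p (√(if (j : ℕ) < N then 1 / (N : ℝ) else 0) * s) =
        if (j : ℕ) < N then ff p (√(1 / (N : ℝ)) * s) else 1 := by
      intro j
      split_ifs
      · rfl
      · rw [Real.sqrt_zero, zero_mul, ff_zero hp]
    simp only [this]
    rw [← Finset.prod_filter, Finset.prod_const, hc]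
  · have := hd ⟨N, h⟩
    simp only [lt_irrefl, if_false] at this
    have n0 : (0 : ℝ) < n := by exact_mod_cast (by omega : 0 < n)
    exact absurd this (one_div_pos.2 n0).ne
  · obtain ⟨i, -, -, hi, -⟩ := hb
    have N3 : (3 : ℝ) ≤ N := by exact_mod_cast h
    simp only at hi
    split_ifs at hi
    · rw [div_eq_div_iff N0.ne' (by norm_num)] at hi
      linarith
    · norm_num at hi

theorem pos_of_core (hp : 2 < p) (hc : Core p) {N n : ℕ} (hN : 3 ≤ N) (hn : N ≤ n)
    (h : Bl p < Dg p N) : Bl p < Dg p n := by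
  rcases hn.eq_or_lt with rfl | hlt
  · exact h
  obtain ⟨x, hx, he, hd, hb⟩ := II_pad hp (N := N) (n := n) (by omega) hn
  have := hc n (by omega) x hx (hd hlt) (hb hN)
  rw [he] at this
  rcases lt_max_iff.1 this with h1 | h1 <;> linarith

theorem cont_gap {n : ℕ} (hn : 2 ≤ n) :
    ContinuousOn (fun q : ℝ => Dg (1 / q) n - Bl (1 / q)) (Ioo 0 (1 / 2)) := by
  intro q0 hq
  refine ContinuousAt.continuousWithinAt (ContinuousAt.sub ?_ ?_)
  · have hev : ∀ᶠ q in 𝓝 q0, 2 < 1 / q := by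
      filter_upwards [Ioo_mem_nhds hq.1 hq.2] with q hq'
      rw [lt_div_iff₀ hq'.1]; linarith [hq'.2]
    have n0 : (0 : ℝ) < n := by exact_mod_cast (by omega : 0 < n)
    have c0 : 0 < √(1 / (n : ℝ)) := by positivity
    unfold Dg
    refine continuousAt_of_dominated
      (bound := fun s => 2 * (1 + (√(1 / (n : ℝ)) * s) ^ 2)⁻¹) ?_ ?_ ?_ ?_
    · filter_upwards [hev] with q h2
      have := cont_ff h2
      exact (by fun_prop : Continuous fun s =>
        ff (1 / q) (√(1 / (n : ℝ)) * s) ^ n).aestronglyMeasurable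
    · filter_upwards [hev] with q h2
      exact Eventually.of_forall fun s => pow_le h2 hn _
    · exact (int_scale (h := fun s => (1 + s ^ 2)⁻¹) integrable_inv_one_add_sq.integrableOn
        c0).const_mul 2
    · exact Eventually.of_forall fun s => (cont_ff_q hq _).pow n
  · have c1 : ContinuousAt (fun q : ℝ => 1 / q) q0 :=
      continuousAt_const.div continuousAt_id hq.1.ne'
    have c2 : ContinuousAt (fun q : ℝ => -(1 / (1 / q))) q0 :=
      (continuousAt_const.div c1 (one_div_pos.2 hq.1).ne').neg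
    unfold Bl I2
    exact continuousAt_const.mul (continuousAt_const.mul
      (continuousAt_const.rpow c2 (Or.inl two_ne_zero)))

theorem Cross.trans {n : ℕ} {a b c : ℝ} (h1 : Cross n a b) (h2 : Cross n b c) : Cross n a c := by
  intro q q' ha hq hc h
  rcases le_or_gt q' b with h3 | h3
  · exact h1 q q' ha hq h3 h
  rcases le_or_gt b q with h4 | h4
  · exact h2 q q' h4 hq hc h
  · exact h2 b q' le_rfl h3 hc (h1 q b ha h4 le_rfl h).le

theorem FTwoX.large (hp : 26.27 ≤ p) {n : ℕ} (hn : 2 ≤ n) {x : Fin n → ℝ} (hx : Smp x)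
    (hb : ¬IsBall x) : II p x < Bl p := by
  obtain ⟨q0, h1, -, -, h2⟩ := exists_root
  have p0 : 0 < p := by linarith
  have h3 : 1 / p ≤ 1 / 26.27 := one_div_le_one_div_of_le (by norm_num) hp
  have hD : DD (1 / p) ≤ 0 :=
    (h2 _ (by positivity) (lt_of_le_of_lt h3 (by norm_num))).2 (by linarith)
  have e : ∀ j, √(x j) ^ 2 = x j := fun j => Real.sq_sqrt (hx.1 j)
  refine compare (by linarith) hD hn (fun j => √(x j)) (fun j => Real.sqrt_nonneg _) ?_ ?_
  · simp only [e, hx.2]
  · simp only [e]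
    exact hb

theorem core_large (hp : 26.27 ≤ p) : Core p := fun _ hn _ hx _ hb =>
  lt_of_lt_of_le (FTwoX.large hp (by omega) hx hb) (le_max_right _ _)

theorem neg_large (hp : 26.27 ≤ p) {n : ℕ} (hn : 3 ≤ n) : Dg p n < Bl p := by
  obtain ⟨x, hx, he, -, hb⟩ := II_pad (p := p) (by linarith) (N := n) (n := n) (by omega) le_rfl
  rw [← he]
  exact FTwoX.large hp (by omega) hx (hb hn)

end Pool.Agent.MP_39fec4_gt.Full
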