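import Pool.Agent.MP_39fec4_gt.FDefs
import Pool.Agent.MP_39fec4_gt.FTwo

set_option autoImplicit false

namespace Pool.Agent.MP_39fec4_gt.Full

open MeasureTheory Set Real Ball P4

/-- The statement about exponents close to two. -/
def RegS (P : ℝ) : Prop := ∀ p : ℝ, 2 < p → p ≤ P → ∀ n : ℕ, 2 ≤ n → ∀ x : Fin n → ℝ, Smp x →
  ¬IsDiag x → II p x < Dg p n

namespace FFinalX

theorem JJ_eq (p : ℝ) {n : ℕ} (a : EuclideanSpace ℝ (Fin n)) :
    JJ p a = II p fun j => |a j| ^ 2 := by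
  simp only [JJ, II, Real.sqrt_sq (abs_nonneg _)]

theorem smp {n : ℕ} {a : EuclideanSpace ℝ (Fin n)} (ha : ‖a‖ = 1) : Smp fun j => |a j| ^ 2 :=
  ⟨fun _ => sq_nonneg _, sum_sq ha⟩

theorem diag_iff {n : ℕ} (a : EuclideanSpace ℝ (Fin n)) :
    (∀ j, |a j| = 1 / √n) ↔ IsDiag fun j => |a j| ^ 2 := by
  refine forall_congr' fun j => ?_
  rw [← sq_eq_sq₀ (abs_nonneg _) (by positivity), div_pow, Real.sq_sqrt (by positivity), one_pow]

theorem ball_iff {n : ℕ} (a : EuclideanSpace ℝ (Fin n)) :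
    (∃ i j, i ≠ j ∧ |a i| = 1 / √2 ∧ |a j| = 1 / √2) ↔ IsBall fun j => |a j| ^ 2 := by
  simp only [abs_eq_iff, IsBall]

theorem exists_diag' {n : ℕ} (hn : 2 ≤ n) : ∃ d : EuclideanSpace ℝ (Fin n), ‖d‖ = 1 ∧
    ∀ j, |d j| = 1 / √n := by
  have h0 : (0 : ℝ) < n := by exact_mod_cast (by omega : 0 < n)
  have c0 : 0 < 1 / √(n : ℝ) := by positivity
  have c2 : (1 / √(n : ℝ)) ^ 2 = 1 / (n : ℝ) := by rw [div_pow, Real.sq_sqrt h0.le, one_pow]
  refine ⟨WithLp.toLp 2 fun _ => 1 / √(n : ℝ), ?_, fun j => abs_of_pos c0⟩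
  rw [← sq_eq_sq₀ (norm_nonneg _) zero_le_one, EuclideanSpace.real_norm_sq_eq]
  simp only [c2, Finset.sum_const, Finset.card_univ, Fintype.card_fin, nsmul_eq_mul]
  field_simp

theorem glue {p : ℝ} (hp : 2 < p) {n : ℕ} (hn : 2 ≤ n)
    (hc : ∀ x : Fin n → ℝ, Smp x → ¬IsDiag x → ¬IsBall x → II p x < max (Dg p n) (Bl p))
    (a : EuclideanSpace ℝ (Fin n)) (ha : ‖a‖ = 1) :
    (∀ b : EuclideanSpace ℝ (Fin n), ‖b‖ = 1 → sectionVol p b ≤ sectionVol p a) ↔
      (Bl p ≤ Dg p n ∧ IsDiag fun j => |a j| ^ 2) ∨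
        (Dg p n ≤ Bl p ∧ IsBall fun j => |a j| ^ 2) := by
  have hle : ∀ b : EuclideanSpace ℝ (Fin n), ‖b‖ = 1 → JJ p b ≤ max (Dg p n) (Bl p) := by
    intro b hb
    rw [JJ_eq]
    by_cases h₁ : IsDiag fun j => |b j| ^ 2
    · rw [II_diag h₁]; exact le_max_left _ _
    by_cases h₂ : IsBall fun j => |b j| ^ 2
    · rw [II_ball hp (smp hb) h₂]; exact le_max_right _ _
    exact (hc _ (smp hb) h₁ h₂).le
  constructor
  · intro h
    obtain ⟨d, hd, hd'⟩ := exists_diag' hn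
    obtain ⟨e, he, he'⟩ := exists_ball hn
    have h₁ := (vol_le_iff hp hn ha hd).1 (h d hd)
    have h₂ := (vol_le_iff hp hn ha he).1 (h e he)
    rw [JJ_eq p d, II_diag ((diag_iff d).1 hd'), JJ_eq] at h₁
    rw [JJ_eq p e, II_ball hp (smp he) ((ball_iff e).1 he'), JJ_eq] at h₂
    by_cases h₃ : IsDiag fun j => |a j| ^ 2
    · exact Or.inl ⟨by rwa [II_diag h₃] at h₂, h₃⟩
    by_cases h₄ : IsBall fun j => |a j| ^ 2
    · exact Or.inr ⟨by rwa [II_ball hp (smp ha) h₄] at h₁, h₄⟩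
    exact absurd (hc _ (smp ha) h₃ h₄) (not_lt.2 (max_le h₁ h₂))
  · intro h b hb
    rw [vol_le_iff hp hn ha hb]
    refine (hle b hb).trans ?_
    rw [JJ_eq]
    rcases h with ⟨h₁, h₂⟩ | ⟨h₁, h₂⟩
    · rw [II_diag h₂]; exact max_le le_rfl h₁
    · rw [II_ball hp (smp ha) h₂]; exact max_le h₁ le_rfl

theorem diag_two {x : Fin 2 → ℝ} : IsDiag x ↔ IsBall x := by
  constructor
  · intro h
    exact ⟨0, 1, by decide, by simpa using h 0, by simpa using h 1⟩
  · rintro ⟨i, j, hij, hi, hj⟩ k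
    have : k = i ∨ k = j := by omega
    rcases this with rfl | rfl
    · simpa using hi
    · simpa using hj

theorem pos_small {P : ℝ} (hS : RegS P) {p : ℝ} (hp : 2 < p) (hp' : p ≤ P) {n : ℕ} (hn : 3 ≤ n) :
    Bl p < Dg p n := by
  obtain ⟨e, he, he'⟩ := exists_ball (n := n) (by omega)
  have hb := (ball_iff e).1 he'
  rw [← II_ball hp (smp he) hb]
  refine hS p hp hp' n (by omega) _ (smp he) fun hd => ?_
  obtain ⟨i, -, -, hi, -⟩ := hb
  have h₁ := hd i
  rw [hi] at h₁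
  have h₂ : (3 : ℝ) ≤ n := by exact_mod_cast hn
  field_simp at h₁
  linarith

end FFinalX

open FFinalX in
/-- Gluing the three ranges of the exponent. -/
theorem final {a b P : ℝ} (ha : 0 < a) (ha' : a ≤ 1 / 26.27) (hb : 1 / P ≤ b) (hb' : b < 1 / 2)
    (hP : 2 < P) (hS : RegS P) (hcore : ∀ q, a ≤ q → q ≤ b → Core (1 / q))
    (hcross : ∀ n, 3 ≤ n → Cross n a b) :
    ∀ n : ℕ, 2 ≤ n → ∃ pn : ℝ, 2 < pn ∧ pn < 26.27 ∧ ∀ p : ℝ, 2 < p →
      ∀ a : EuclideanSpace ℝ (Fin n), ‖a‖ = 1 →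
        ((∀ b : EuclideanSpace ℝ (Fin n), ‖b‖ = 1 → sectionVol p b ≤ sectionVol p a) ↔
          (p ≤ pn ∧ ∀ j, |a j| = 1 / √n) ∨
            (pn ≤ p ∧ ∃ i j, i ≠ j ∧ |a i| = 1 / √2 ∧ |a j| = 1 / √2)) := by
  intro n hn
  have P0 : 0 < P := by linarith
  have b0 : 0 < b := lt_of_lt_of_le (by positivity) hb
  rcases hn.eq_or_lt with rfl | hn3
  · refine ⟨3, by norm_num, by norm_num, fun p hp x hx => ?_⟩
    have e : Dg p 2 = Bl p := by
      obtain ⟨e, he, he'⟩ := exists_ball (n := 2) le_rfl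
      have hb := (ball_iff e).1 he'
      rw [← II_ball hp (smp he) hb, II_diag (diag_two.2 hb)]
    rw [glue hp le_rfl (fun y hy h₁ _ => ?_) x hx, diag_iff, ball_iff, ← diag_two, e]
    · simp only [le_refl, true_and, or_self, ← or_and_right, le_total]
    · have hs : y 0 + y 1 = 1 := by simpa using hy.2
      refine (two_lt_of_sum hp hy (i := 0) (j := 1) (by decide) hs fun h0 => h₁ ?_).trans_le
        (le_max_right _ _)
      exact diag_two.2 ⟨0, 1, by decide, h0, by linarith⟩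
  have hn3 : 3 ≤ n := hn3
  have neg : ∀ q, 0 < q → q ≤ 1 / 26.27 → Dg (1 / q) n < Bl (1 / q) := fun q h₁ h₂ =>
    neg_large (by rwa [le_one_div (by norm_num) h₁]) hn3
  have pos : ∀ q, 1 / P ≤ q → q < 1 / 2 → Bl (1 / q) < Dg (1 / q) n := fun q h₁ h₂ => by
    have q0 : 0 < q := lt_of_lt_of_le (by positivity) h₁
    exact pos_small hS (by rwa [lt_one_div (by norm_num) q0]) (by rwa [one_div_le q0 P0]) hn3
  have hab : a ≤ b := by
    by_contra h
    exact absurd (pos b hb hb') (not_lt.2 (neg b b0 (by linarith [not_le.1 h])).le)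
  obtain ⟨r, ⟨r₁, r₂⟩, hr⟩ := intermediate_value_Icc hab
    ((cont_gap hn).mono fun q hq => ⟨lt_of_lt_of_le ha hq.1, lt_of_le_of_lt hq.2 hb'⟩)
    (show (0 : ℝ) ∈ Icc _ _ from ⟨by linarith [neg a ha ha'], by linarith [pos b hb hb']⟩)
  have hr' : Dg (1 / r) n = Bl (1 / r) := sub_eq_zero.1 hr
  have r0 : 0 < r := lt_of_lt_of_le ha r₁
  have left : ∀ q, 0 < q → q < r → Dg (1 / q) n < Bl (1 / q) := fun q h₁ h₂ => by
    rcases le_or_gt a q with h | h
    · exact not_le.1 fun h₃ => absurd (hcross n hn3 q r h h₂ r₂ h₃) (not_lt.2 hr'.le)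
    · exact neg q h₁ (by linarith)
  have right : ∀ q, r < q → q < 1 / 2 → Bl (1 / q) < Dg (1 / q) n := fun q h₁ h₂ => by
    rcases le_or_gt q b with h | h
    · exact hcross n hn3 r q r₁ h₁ h hr'.ge
    · exact pos q (by linarith) h₂
  refine ⟨1 / r, by rw [lt_one_div (by norm_num) r0]; linarith, ?_, fun p hp x hx => ?_⟩
  · rw [one_div_lt r0 (by norm_num)]
    exact not_le.1 fun h => absurd (neg r r0 h) (not_lt.2 hr'.ge)
  have p0 : 0 < p := by linarith
  have q0 : 0 < 1 / p := by positivity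
  have q2 : 1 / p < 1 / 2 := one_div_lt_one_div_of_lt (by norm_num) hp
  have core : Core p := by
    rcases le_or_gt a (1 / p) with h₁ | h₁
    · rcases le_or_gt (1 / p) b with h₂ | h₂
      · simpa only [one_div_one_div] using hcore _ h₁ h₂
      · intro m hm y hy h₃ _
        refine (hS p hp ?_ m (by omega) y hy h₃).trans_le (le_max_left _ _)
        exact le_of_one_div_le_one_div P0 (by linarith)
    · exact core_large (le_of_one_div_le_one_div p0 (by linarith))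
  have left' := left _ q0
  have right' := fun h => right (1 / p) h q2
  rw [one_div_one_div] at left' right'
  have e₁ : Bl p ≤ Dg p n ↔ p ≤ 1 / r := by
    rw [le_one_div p0 r0]
    refine ⟨fun h => not_lt.1 fun h' => absurd (left' h') (not_lt.2 h), fun h => ?_⟩
    rcases h.eq_or_lt with h | h
    · rw [h, one_div_one_div] at hr'; exact hr'.ge
    · exact (right' h).le
  have e₂ : Dg p n ≤ Bl p ↔ 1 / r ≤ p := by
    rw [one_div_le r0 p0]
    refine ⟨fun h => not_lt.1 fun h' => absurd (right' h') (not_lt.2 h), fun h => ?_⟩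
    rcases h.eq_or_lt with h | h
    · rw [← h, one_div_one_div] at hr'; exact hr'.le
    · exact (left' h).le
  rw [glue hp hn (core n hn3) x hx, diag_iff, ball_iff, e₁, e₂]

end Pool.Agent.MP_39fec4_gt.Full
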