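import Pool.Agent.MP_39fec4_gt.FDefs

set_option autoImplicit false

namespace Pool.Agent.MP_39fec4_gt.Full

open MeasureTheory Set Real Ball P4

variable {g g1 g2 : ℝ → ℝ} {lam z2 Zc Z2 : ℝ} {ι : Type}

namespace FHeadX

lemma dH (hs : Sm g g1 g2) (lam : ℝ) {y : ℝ} (hy : 0 < y) :
    HasDerivAt (fun v => Real.exp (lam * v) * g v)
      (Real.exp (lam * y) * (g1 y + lam * g y)) y := by
  have h1 : HasDerivAt (fun v => Real.exp (lam * v)) (Real.exp (lam * y) * lam) y := by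
    simpa using ((hasDerivAt_id y).const_mul lam).exp
  exact (h1.mul (hs.d0 y hy)).congr_deriv (by ring)

lemma dH1 (hs : Sm g g1 g2) (lam : ℝ) {y : ℝ} (hy : 0 < y) :
    HasDerivAt (fun v => Real.exp (lam * v) * (g1 v + lam * g v))
      (Real.exp (lam * y) * (g2 y + 2 * lam * g1 y + lam ^ 2 * g y)) y := by
  have h1 : HasDerivAt (fun v => Real.exp (lam * v)) (Real.exp (lam * y) * lam) y := by
    simpa using ((hasDerivAt_id y).const_mul lam).exp
  exact (h1.mul ((hs.d1 y hy).add ((hs.d0 y hy).const_mul lam))).congr_deriv (by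
    simp only [Pi.add_apply]; ring)

lemma cH (hs : Sm g g1 g2) (lam : ℝ) : Continuous (fun v => Real.exp (lam * v) * g v) := by
  have := hs.c0
  fun_prop

lemma antiH1 (h : Hd g g1 g2 lam z2 Zc Z2) (hs : Sm g g1 g2) :
    AntitoneOn (fun v => Real.exp (lam * v) * (g1 v + lam * g v)) (Icc 0 Zc) := by
  have c0 := hs.c0
  have c1 := hs.c1
  refine antitoneOn_of_deriv_nonpos (convex_Icc _ _) (Continuous.continuousOn (by fun_prop)) ?_ ?_
  · intro y hy
    rw [interior_Icc] at hy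
    exact (dH1 hs lam hy.1).differentiableAt.differentiableWithinAt
  · intro y hy
    rw [interior_Icc] at hy
    rw [(dH1 hs lam hy.1).deriv]
    exact mul_nonpos_of_nonneg_of_nonpos (Real.exp_pos _).le (h.conc y hy.1 hy.2.le)

lemma concH (h : Hd g g1 g2 lam z2 Zc Z2) (hs : Sm g g1 g2) :
    ConcaveOn ℝ (Icc 0 Zc) (fun v => Real.exp (lam * v) * g v) := by
  refine AntitoneOn.concaveOn_of_deriv (convex_Icc _ _) (cH hs lam).continuousOn ?_ ?_
  · intro y hy
    rw [interior_Icc] at hy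
    exact (dH hs lam hy.1).differentiableAt.differentiableWithinAt
  · intro x hx y hy hxy
    rw [interior_Icc] at hx hy
    rw [(dH hs lam hx.1).deriv, (dH hs lam hy.1).deriv]
    exact antiH1 h hs (Ioo_subset_Icc_self hx) (Ioo_subset_Icc_self hy) hxy

lemma antiH (h : Hd g g1 g2 lam z2 Zc Z2) (hs : Sm g g1 g2) :
    AntitoneOn (fun v => Real.exp (lam * v) * g v) (Icc 0 Zc) := by
  refine antitoneOn_of_deriv_nonpos (convex_Icc _ _) (cH hs lam).continuousOn ?_ ?_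
  · intro y hy
    rw [interior_Icc] at hy
    exact (dH hs lam hy.1).differentiableAt.differentiableWithinAt
  · intro y hy
    rw [interior_Icc] at hy
    rw [(dH hs lam hy.1).deriv]
    have h1 := antiH1 h hs (⟨le_rfl, (hy.1.trans hy.2).le⟩ : (0 : ℝ) ∈ Icc 0 Zc)
      (Ioo_subset_Icc_self hy) hy.1.le
    simp only [mul_zero, Real.exp_zero, one_mul, hs.z, mul_one] at h1
    exact h1.trans h.l1

lemma sum_dev (T : Finset ι) (hT : T.Nonempty) (y : ι → ℝ) :
    ∑ j ∈ T, (y j - (∑ i ∈ T, y i) / T.card) = 0 := by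
  have hn : (T.card : ℝ) ≠ 0 := by exact_mod_cast hT.card_pos.ne'
  rw [Finset.sum_sub_distrib, Finset.sum_const, nsmul_eq_mul]
  field_simp
  ring

lemma mean_mem (T : Finset ι) (hT : T.Nonempty) (y : ι → ℝ) {a b : ℝ}
    (hy : ∀ j ∈ T, y j ∈ Icc a b) : (∑ i ∈ T, y i) / T.card ∈ Icc a b := by
  have hn : (0 : ℝ) < T.card := by exact_mod_cast hT.card_pos
  constructor
  · rw [le_div_iff₀ hn]
    have := Finset.card_nsmul_le_sum T y a fun j hj => (hy j hj).1
    rw [nsmul_eq_mul] at this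
    linarith
  · rw [div_le_iff₀ hn]
    have := Finset.sum_le_card_nsmul T y b fun j hj => (hy j hj).2
    rw [nsmul_eq_mul] at this
    linarith

lemma amgm (T : Finset ι) (a : ι → ℝ) (ha : ∀ j ∈ T, 0 ≤ a j) {A : ℝ} (hA : 0 < A)
    (hsum : ∑ j ∈ T, a j ≤ T.card * A) : ∏ j ∈ T, a j ≤ A ^ T.card := by
  have h1 : ∏ j ∈ T, a j ≤ ∏ j ∈ T, (A * Real.exp (a j / A - 1)) := by
    refine Finset.prod_le_prod ha fun j _ => ?_
    have h2 := Real.add_one_le_exp (a j / A - 1)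
    have h3 : a j = A * (a j / A - 1 + 1) := by field_simp; ring
    calc a j = A * (a j / A - 1 + 1) := h3
      _ ≤ _ := mul_le_mul_of_nonneg_left h2 hA.le
  rw [Finset.prod_mul_distrib, Finset.prod_const, ← Real.exp_sum] at h1
  have h4 : ∑ j ∈ T, (a j / A - 1) ≤ 0 := by
    rw [Finset.sum_sub_distrib, Finset.sum_const, nsmul_eq_mul, mul_one, ← Finset.sum_div,
      sub_nonpos, div_le_iff₀ hA]
    exact hsum
  have h5 : Real.exp (∑ j ∈ T, (a j / A - 1)) ≤ 1 := Real.exp_le_one_iff.2 h4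
  calc ∏ j ∈ T, a j ≤ _ := h1
    _ ≤ A ^ T.card * 1 := mul_le_mul_of_nonneg_left h5 (by positivity)
    _ = _ := mul_one _

lemma cc {f : ℝ → ℝ} {s : Set ℝ} (hf : ConcaveOn ℝ s f) {u v : ℝ} (hu : u ∈ s) (hv : v ∈ s)
    (a b : ℝ) (ha : 0 ≤ a) (hb : 0 ≤ b) (hab : a + b = 1) :
    a * f u + b * f v ≤ f (a * u + b * v) ∧ a * u + b * v ∈ s :=
  ⟨hf.2 hu hv ha hb hab, hf.1 hu hv ha hb hab⟩

lemma chord {f : ℝ → ℝ} {s : Set ℝ} (hf : ConcaveOn ℝ s f) {u v w : ℝ} (hu : u ∈ s) (hv : v ∈ s)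
    (h1 : u ≤ w) (h2 : w ≤ v) : (v - w) * f u + (w - u) * f v ≤ (v - u) * f w := by
  rcases (h1.trans h2).eq_or_lt with e | hlt
  · have e1 : w = u := le_antisymm (e ▸ h2) h1
    subst e
    subst e1
    simp
  · have hd : 0 < v - u := sub_pos.2 hlt
    have h3 := (cc hf hu hv ((v - w) / (v - u)) ((w - u) / (v - u))
      (div_nonneg (sub_nonneg.2 h2) hd.le) (div_nonneg (sub_nonneg.2 h1) hd.le)
      (by field_simp; ring)).1
    have h4 : (v - w) / (v - u) * u + (w - u) / (v - u) * v = w := by field_simp; ring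
    rw [h4] at h3
    have h5 := mul_le_mul_of_nonneg_left h3 hd.le
    have h6 : (v - u) * ((v - w) / (v - u) * f u + (w - u) / (v - u) * f v) =
        (v - w) * f u + (w - u) * f v := by field_simp
    linarith

lemma pow_eq_exp {x : ℝ} (hx : 0 < x) (n : ℕ) : x ^ n = Real.exp (n * Real.log x) := by
  rw [← Real.log_pow, Real.exp_log (pow_pos hx n)]

/-- The Taylor remainder along the segment from `y` to `m`. -/
lemma taylor_step {f f1 f2 : ℝ → ℝ} {a b y m K s t : ℝ} (c0 : ContinuousOn f (Icc a b))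
    (c1 : ContinuousOn f1 (Icc a b)) (d0 : ∀ v ∈ Ioo a b, HasDerivAt f (f1 v) v)
    (d1 : ∀ v ∈ Ioo a b, HasDerivAt f1 (f2 v) v) (hy : y ∈ Icc a b) (hm : m ∈ Icc a b)
    (hne : y ≠ m) (hs : 0 ≤ s) (hst : s ≤ t) (ht : t ≤ 1)
    (hK : ∀ θ, s ≤ θ → θ ≤ t → f2 (y + θ * (m - y)) ≤ K) :
    f y - f (y + t * (m - y)) + f1 (y + t * (m - y)) * (t * (m - y)) - K * (t * (m - y)) ^ 2 / 2 ≤
      f y - f (y + s * (m - y)) + f1 (y + s * (m - y)) * (s * (m - y)) -
        K * (s * (m - y)) ^ 2 / 2 := by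
  have hin : ∀ θ ∈ Icc s t, y + θ * (m - y) ∈ Icc a b := by
    intro θ hθ
    have h0 : 0 ≤ θ := hs.trans hθ.1
    have h1 : θ ≤ 1 := hθ.2.trans ht
    constructor <;> nlinarith [hy.1, hy.2, hm.1, hm.2]
  have hio : ∀ θ ∈ Ioo s t, y + θ * (m - y) ∈ Ioo a b := by
    intro θ hθ
    have h0 : 0 < θ := lt_of_le_of_lt hs hθ.1
    have h1 : θ < 1 := lt_of_lt_of_le hθ.2 ht
    rcases lt_or_gt_of_ne hne with hlt | hlt
    · constructor <;> nlinarith [hy.1, hy.2, hm.1, hm.2]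
    · constructor <;> nlinarith [hy.1, hy.2, hm.1, hm.2]
  have hder : ∀ θ ∈ Ioo s t, HasDerivAt (fun θ => f y - f (y + θ * (m - y)) +
      f1 (y + θ * (m - y)) * (θ * (m - y)) - K * (θ * (m - y)) ^ 2 / 2)
      ((f2 (y + θ * (m - y)) - K) * (θ * (m - y) ^ 2)) θ := by
    intro θ hθ
    have e0 : HasDerivAt (fun θ : ℝ => θ * (m - y)) (m - y) θ := by
      simpa using (hasDerivAt_id θ).mul_const (m - y)
    have e1 : HasDerivAt (fun θ : ℝ => y + θ * (m - y)) (m - y) θ := e0.const_add y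
    have e2 := (d0 _ (hio θ hθ)).comp θ e1
    have e3 := (d1 _ (hio θ hθ)).comp θ e1
    have e4 := (((e2.const_sub (f y)).add (e3.mul e0)).sub (((e0.pow 2).const_mul K).div_const 2))
    refine e4.congr_deriv ?_
    simp only [Function.comp_apply, Nat.cast_ofNat]
    ring
  have hl : Continuous (fun θ : ℝ => y + θ * (m - y)) := by fun_prop
  have hanti : AntitoneOn (fun θ => f y - f (y + θ * (m - y)) +
      f1 (y + θ * (m - y)) * (θ * (m - y)) - K * (θ * (m - y)) ^ 2 / 2) (Icc s t) := by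
    refine antitoneOn_of_deriv_nonpos (convex_Icc _ _) ?_ ?_ ?_
    · have k0 : ContinuousOn (fun θ : ℝ => f (y + θ * (m - y))) (Icc s t) :=
        c0.comp hl.continuousOn hin
      have k1 : ContinuousOn (fun θ : ℝ => f1 (y + θ * (m - y))) (Icc s t) :=
        c1.comp hl.continuousOn hin
      exact ((continuousOn_const.sub k0).add (k1.mul (by fun_prop))).sub (by fun_prop)
    · intro θ hθ
      rw [interior_Icc] at hθ
      exact (hder θ hθ).differentiableAt.differentiableWithinAt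
    · intro θ hθ
      rw [interior_Icc] at hθ
      rw [(hder θ hθ).deriv]
      have h0 : 0 ≤ θ := hs.trans hθ.1.le
      exact mul_nonpos_of_nonpos_of_nonneg (sub_nonpos.2 (hK θ hθ.1.le hθ.2.le)) (by positivity)
  exact hanti ⟨le_rfl, hst⟩ ⟨hst, le_rfl⟩ hst

lemma taylor2 {f f1 f2 : ℝ → ℝ} {a b na nb y m F N : ℝ} (c0 : ContinuousOn f (Icc a b))
    (c1 : ContinuousOn f1 (Icc a b)) (d0 : ∀ v ∈ Ioo a b, HasDerivAt f (f1 v) v)
    (d1 : ∀ v ∈ Ioo a b, HasDerivAt f1 (f2 v) v) (hy : y ∈ Icc a b) (hm : m ∈ Icc a b)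
    (hF : ∀ v ∈ Icc a b, f2 v ≤ F) (hN : ∀ v ∈ Icc na nb, v ∈ Icc a b → f2 v ≤ N)
    (hna : na ≤ (a + m) / 2) (hnb : (b + m) / 2 ≤ nb) :
    f y - f m ≤ f1 m * (y - m) + (F / 4 + 3 * N / 4) * (y - m) ^ 2 / 2 := by
  by_cases hne : y = m
  · subst hne
    simp
  have hin : ∀ θ : ℝ, 0 ≤ θ → θ ≤ 1 → y + θ * (m - y) ∈ Icc a b := by
    intro θ h0 h1
    constructor <;> nlinarith [hy.1, hy.2, hm.1, hm.2]
  have h1 := taylor_step (K := F) (s := 0) (t := 1 / 2) c0 c1 d0 d1 hy hm hne le_rfl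
    (by norm_num) (by norm_num) (fun θ h0 h1 => hF _ (hin θ h0 (by linarith)))
  have h2 := taylor_step (K := N) (s := 1 / 2) (t := 1) c0 c1 d0 d1 hy hm hne (by norm_num)
    (by norm_num) le_rfl (fun θ h0 h1 => hN _ (by
      constructor <;> nlinarith [hy.1, hy.2, hm.1, hm.2]) (hin θ (by linarith) h1))
  have e : y + 1 * (m - y) = m := by ring
  rw [e] at h2
  simp only [zero_mul, add_zero, sub_self, mul_zero] at h1
  nlinarith

lemma lip (hs : Sm g g1 g2) {p q K : ℝ} (hp : 0 ≤ p) (hpq : p ≤ q)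
    (hK : ∀ v ∈ Icc p q, |g1 v| ≤ K) : |g q - g p| ≤ K * (q - p) := by
  rcases hpq.eq_or_lt with e | hlt
  · subst e
    simp
  obtain ⟨c, hc, hc'⟩ := exists_hasDerivAt_eq_slope g g1 hlt hs.c0.continuousOn
    (fun x hx => hs.d0 x (lt_of_le_of_lt hp hx.1))
  have hd : 0 < q - p := sub_pos.2 hlt
  have e : g q - g p = g1 c * (q - p) := by rw [hc']; field_simp
  rw [e, abs_mul, abs_of_pos hd]
  exact mul_le_mul_of_nonneg_right (hK c (Ioo_subset_Icc_self hc)) hd.le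

lemma lip' (hs : Sm g g1 g2) {p q K : ℝ} (hp : 0 ≤ p) (hq : 0 ≤ q)
    (hK : ∀ v, min p q ≤ v → v ≤ max p q → |g1 v| ≤ K) : |g q - g p| ≤ K * |q - p| := by
  rcases le_total p q with h | h
  · rw [abs_of_nonneg (sub_nonneg.2 h)]
    refine lip hs hp h fun v hv => hK v ?_ ?_
    · rw [min_eq_left h]; exact hv.1
    · rw [max_eq_right h]; exact hv.2
  · rw [abs_sub_comm, abs_sub_comm q p, abs_of_nonneg (sub_nonneg.2 h)]
    refine lip hs hq h fun v hv => hK v ?_ ?_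
    · rw [min_eq_right h]; exact hv.1
    · rw [max_eq_left h]; exact hv.2

lemma pow_sub_le {a b : ℝ} (hb : 0 ≤ b) (hba : b ≤ a) (ha : a ≤ 1) (k : ℕ) :
    a ^ k - b ^ k ≤ k * (a - b) := by
  induction k with
  | zero => simp
  | succ k ih =>
    have h1 : b ^ k ≤ 1 := pow_le_one₀ hb (hba.trans ha)
    have h2 : b ^ k ≤ a ^ k := pow_le_pow_left₀ hb hba k
    have e : a ^ (k + 1) - b ^ (k + 1) = a * (a ^ k - b ^ k) + b ^ k * (a - b) := by ring
    have h3 : a * (a ^ k - b ^ k) ≤ 1 * (a ^ k - b ^ k) :=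
      mul_le_mul_of_nonneg_right ha (sub_nonneg.2 h2)
    have h4 : b ^ k * (a - b) ≤ 1 * (a - b) := mul_le_mul_of_nonneg_right h1 (sub_nonneg.2 hba)
    rw [e]
    push_cast
    linarith

end FHeadX

open FHeadX

theorem Hd.exp_le (h : Hd g g1 g2 lam z2 Zc Z2) (hs : Sm g g1 g2) {y : ℝ} (h0 : 0 ≤ y)
    (h1 : y ≤ Z2) : g y ≤ Real.exp (-(lam * y)) := by
  rcases le_total Zc y with hy | hy
  · exact (h.neg y hy h1).trans (Real.exp_pos _).le
  · have h2 := antiH h hs (⟨le_rfl, h0.trans hy⟩ : (0 : ℝ) ∈ Icc 0 Zc) ⟨h0, hy⟩ h0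
    simp only [mul_zero, Real.exp_zero, one_mul, hs.z] at h2
    rw [Real.exp_neg, ← one_div, le_div_iff₀ (Real.exp_pos _)]
    linarith

theorem Hd.jensen (h : Hd g g1 g2 lam z2 Zc Z2) (hs : Sm g g1 g2) (T : Finset ι)
    (hT : T.Nonempty) (y : ι → ℝ) (hy : ∀ j ∈ T, 0 ≤ y j ∧ y j ≤ Z2 ∧ 0 < g (y j)) :
    ∏ j ∈ T, g (y j) ≤ g ((∑ j ∈ T, y j) / T.card) ^ T.card ∧
      0 < g ((∑ j ∈ T, y j) / T.card) := by
  have hn : (0 : ℝ) < T.card := by exact_mod_cast hT.card_pos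
  have hmem : ∀ j ∈ T, y j ∈ Icc 0 Zc := by
    intro j hj
    refine ⟨(hy j hj).1, ?_⟩
    by_contra hc
    exact absurd (h.neg _ (not_le.1 hc).le (hy j hj).2.1) (not_le.2 (hy j hj).2.2)
  have hJ := (concH h hs).le_map_sum (t := T) (w := fun _ => (T.card : ℝ)⁻¹) (p := y)
    (fun _ _ => by positivity) (by
      rw [Finset.sum_const, nsmul_eq_mul]; field_simp) hmem
  simp only [smul_eq_mul] at hJ
  rw [← Finset.mul_sum, ← Finset.mul_sum, ← div_eq_inv_mul, ← div_eq_inv_mul,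
    div_le_iff₀ hn] at hJ
  set m := (∑ j ∈ T, y j) / T.card with hm
  have hpos : ∀ j ∈ T, 0 < Real.exp (lam * y j) * g (y j) := fun j hj =>
    mul_pos (Real.exp_pos _) (hy j hj).2.2
  have hS : 0 < ∑ j ∈ T, Real.exp (lam * y j) * g (y j) := Finset.sum_pos hpos hT
  have hA : 0 < Real.exp (lam * m) * g m := by
    by_contra hc
    have := mul_nonpos_of_nonpos_of_nonneg (not_lt.1 hc) hn.le
    linarith
  have hgm : 0 < g m := (mul_pos_iff_of_pos_left (Real.exp_pos _)).1 hA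
  refine ⟨?_, hgm⟩
  have h1 := amgm T _ (fun j hj => (hpos j hj).le) hA (by linarith)
  rw [Finset.prod_mul_distrib, ← Real.exp_sum, ← Finset.mul_sum, mul_pow, ← Real.exp_nat_mul] at h1
  have e : (T.card : ℝ) * (lam * m) = lam * ∑ j ∈ T, y j := by rw [hm]; field_simp
  rw [e] at h1
  exact le_of_mul_le_mul_left h1 (Real.exp_pos _)

theorem Hd.prod_exp_le (h : Hd g g1 g2 lam z2 Zc Z2) (hs : Sm g g1 g2) (T : Finset ι)
    (y : ι → ℝ) (hy : ∀ j ∈ T, 0 ≤ y j ∧ y j ≤ Z2 ∧ 0 < g (y j)) :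
    ∏ j ∈ T, g (y j) ≤ Real.exp (-(lam * ∑ j ∈ T, y j)) := by
  rw [Finset.mul_sum, ← Finset.sum_neg_distrib, Real.exp_sum]
  exact Finset.prod_le_prod (fun j hj => (hy j hj).2.2.le) fun j hj =>
    h.exp_le hs (hy j hj).1 (hy j hj).2.1

theorem Hd.logconc (h : Hd g g1 g2 lam z2 Zc Z2) (hs : Sm g g1 g2) :
    ConcaveOn ℝ (Icc 0 z2) (fun y => Real.log (g y)) := by
  refine ⟨convex_Icc _ _, fun x hx y hy a b ha hb hab => ?_⟩
  have hz : a • x + b • y ∈ Icc 0 z2 := convex_Icc _ _ hx hy ha hb hab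
  have gx := h.pos x hx.1 hx.2
  have gy := h.pos y hy.1 hy.2
  have gz := h.pos _ hz.1 hz.2
  have h1 := (concH h hs).2 (⟨hx.1, hx.2.trans h.z1⟩ : x ∈ Icc 0 Zc)
    (⟨hy.1, hy.2.trans h.z1⟩ : y ∈ Icc 0 Zc) ha hb hab
  have px : 0 < Real.exp (lam * x) * g x := mul_pos (Real.exp_pos _) gx
  have py : 0 < Real.exp (lam * y) * g y := mul_pos (Real.exp_pos _) gy
  have h2 := strictConcaveOn_log_Ioi.concaveOn.2 (mem_Ioi.2 px) (mem_Ioi.2 py) ha hb hab
  have h3 : 0 < a • (Real.exp (lam * x) * g x) + b • (Real.exp (lam * y) * g y) :=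
    convex_Ioi (0 : ℝ) (mem_Ioi.2 px) (mem_Ioi.2 py) ha hb hab
  have h4 := h2.trans (Real.log_le_log h3 h1)
  rw [Real.log_mul (Real.exp_pos _).ne' gx.ne', Real.log_mul (Real.exp_pos _).ne' gy.ne',
    Real.log_mul (Real.exp_pos _).ne' gz.ne', Real.log_exp, Real.log_exp, Real.log_exp] at h4
  simp only [smul_eq_mul] at h4 ⊢
  nlinarith

theorem FHeadX.log_mono (h : Hd g g1 g2 lam z2 Zc Z2) (hs : Sm g g1 g2) {N n : ℝ} (hN : 0 < N)
    (hn : N ≤ n) {t : ℝ} (ht : 0 ≤ t) (hz : t / N ≤ z2) :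
    N * Real.log (g (t / N)) ≤ n * Real.log (g (t / n)) := by
  have hn0 : 0 < n := lt_of_lt_of_le hN hn
  have h1 := (cc (h.logconc hs) (⟨div_nonneg ht hN.le, hz⟩ : t / N ∈ Icc 0 z2)
    (⟨le_rfl, h.z0.le⟩ : (0 : ℝ) ∈ Icc 0 z2) (N / n) (1 - N / n) (by positivity)
    (by rw [sub_nonneg, div_le_one hn0]; exact hn) (by ring)).1
  simp only [mul_zero, add_zero, hs.z, Real.log_one] at h1
  have e : N / n * (t / N) = t / n := by field_simp
  rw [e, div_mul_eq_mul_div, div_le_iff₀ hn0] at h1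
  linarith

theorem Hd.pow_mono (h : Hd g g1 g2 lam z2 Zc Z2) (hs : Sm g g1 g2) {N n : ℕ} (hN : 1 ≤ N)
    (hn : N ≤ n) {t : ℝ} (ht : 0 ≤ t) (hz : t / N ≤ z2) : g (t / N) ^ N ≤ g (t / n) ^ n := by
  have hN' : (0 : ℝ) < N := by exact_mod_cast hN
  have hn' : (N : ℝ) ≤ n := by exact_mod_cast hn
  have h1 : t / n ≤ t / N := div_le_div_of_nonneg_left ht hN' hn'
  rw [pow_eq_exp (h.pos _ (by positivity) hz), pow_eq_exp (h.pos _ (by positivity) (h1.trans hz))]
  exact Real.exp_le_exp.2 (log_mono h hs hN' hn' ht hz)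

/-- The gap to the diagonal grows with the number of equal coordinates. -/
theorem Hd.plus_mono (h : Hd g g1 g2 lam z2 Zc Z2) (hs : Sm g g1 g2) {k k' : ℕ} (hk : 1 ≤ k)
    (hk' : k ≤ k') {x1 x2 r t : ℝ} (h2 : 0 ≤ x2) (h21 : x2 ≤ x1) (hr : 0 ≤ r)
    (hsum : x1 + x2 + r = 1) (hN : 2 ≤ (k + 2) * (x1 + x2)) (ht : 0 ≤ t) (hz : x1 * t ≤ z2) :
    P3 g x1 x2 (r / k') k' t - g (t / ((k' + 2 : ℕ) : ℝ)) ^ (k' + 2) ≤
      P3 g x1 x2 (r / k) k t - g (t / ((k + 2 : ℕ) : ℝ)) ^ (k + 2) := by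
  have hc := h.logconc hs
  have k0 : (0 : ℝ) < k := by exact_mod_cast hk
  have kk : (k : ℝ) ≤ k' := by exact_mod_cast hk'
  have k0' : (0 : ℝ) < k' := lt_of_lt_of_le k0 kk
  have hρ : 0 ≤ r * t := mul_nonneg hr ht
  have hrk : r * (k + 2) ≤ k := by nlinarith
  have hrk' : r * (k' + 2) ≤ k' := by
    have hr1 : r ≤ 1 := by linarith
    nlinarith
  have hv : t / (k + 2) ≤ x1 * t := by
    rw [div_le_iff₀ (by linarith)]
    have : 1 ≤ x1 * (k + 2) := by nlinarith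
    nlinarith
  have hvz : t / (k + 2) ≤ z2 := hv.trans hz
  have a1 : r * t / k ≤ t / (k + 2) := by
    rw [div_le_div_iff₀ k0 (by linarith)]
    nlinarith
  have a2 : r * t / k' ≤ r * t / k := div_le_div_of_nonneg_left hρ k0 kk
  have a3 : t / (k' + 2) ≤ t / (k + 2) := div_le_div_of_nonneg_left ht (by linarith) (by linarith)
  have a4 : r * t / k' ≤ t / (k' + 2) := by
    rw [div_le_div_iff₀ k0' (by linarith)]
    nlinarith
  have u0 : 0 ≤ r * t / k' := by positivity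
  have hu : r * t / k' ∈ Icc 0 z2 := ⟨u0, (a2.trans a1).trans hvz⟩
  have hv' : t / (k + 2) ∈ Icc 0 z2 := ⟨by positivity, hvz⟩
  have key : (k + 2) * Real.log (g (t / (k + 2))) + k' * Real.log (g (r * t / k')) ≤
      (k' + 2) * Real.log (g (t / (k' + 2))) + k * Real.log (g (r * t / k)) := by
    rcases (a2.trans a1).eq_or_lt with e | hlt
    · have e1 : r * t / k = t / (k + 2) := le_antisymm a1 (e ▸ a2)
      have e2 : t / (k' + 2) = t / (k + 2) := le_antisymm a3 (e ▸ a4)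
      rw [e, e1, e2]
      linarith
    · have b1 := chord hc hu hv' a2 a1
      have b2 := chord hc hu hv' a4 a3
      have e1 : k * (r * t / k) = r * t := by field_simp
      have e2 : k' * (r * t / k') = r * t := by field_simp
      have e3 : (k + 2) * (t / (k + 2)) = t := by field_simp
      have e4 : (k' + 2) * (t / (k' + 2)) = t := by field_simp
      generalize Real.log (g (t / (k + 2))) = pv at *
      generalize Real.log (g (r * t / k')) = pu at *
      generalize Real.log (g (t / (k' + 2))) = p2 at *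
      generalize Real.log (g (r * t / k)) = p1 at *
      generalize t / (k + 2) = v at *
      generalize r * t / k' = u at *
      generalize t / (k' + 2) = w2 at *
      generalize r * t / k = w1 at *
      have b3 := mul_le_mul_of_nonneg_left b1 k0.le
      have b4 := mul_le_mul_of_nonneg_left b2 (by linarith : (0 : ℝ) ≤ k' + 2)
      refine le_of_mul_le_mul_left ?_ (sub_pos.2 hlt)
      have e5 : (v - u) * ((k + 2) * pv + k' * pu) =
          k * ((v - w1) * pu + (w1 - u) * pv) + (k' + 2) * ((v - w2) * pu + (w2 - u) * pv) := by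
        have f1 : (k : ℝ) * w1 = k' * u := by rw [e1, e2]
        have f2 : ((k' : ℝ) + 2) * w2 = (k + 2) * v := by rw [e3, e4]
        linear_combination (pu - pv) * f1 + (pu - pv) * f2
      rw [e5]
      nlinarith
  have hx1 : x1 * t ∈ Icc 0 z2 := ⟨mul_nonneg (h2.trans h21) ht, hz⟩
  have hx2 : x2 * t ∈ Icc 0 z2 :=
    ⟨mul_nonneg h2 ht, (mul_le_mul_of_nonneg_right h21 ht).trans hz⟩
  have hw1 : r * t / k ∈ Icc 0 z2 := ⟨by positivity, a1.trans hvz⟩
  have jen : Real.log (g (x1 * t)) + Real.log (g (x2 * t)) + k * Real.log (g (r * t / k)) ≤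
      (k + 2) * Real.log (g (t / (k + 2))) := by
    obtain ⟨j1, hmid⟩ := cc hc hx1 hx2 (1 / 2) (1 / 2) (by norm_num) (by norm_num) (by norm_num)
    have j2 := (cc hc hmid hw1 (2 / (k + 2)) (k / (k + 2)) (by positivity)
      (by positivity) (by field_simp; ring)).1
    have e : 2 / ((k : ℝ) + 2) * (1 / 2 * (x1 * t) + 1 / 2 * (x2 * t)) +
        k / (k + 2) * (r * t / k) = t / (k + 2) := by
      have : r = 1 - x1 - x2 := by linarith
      rw [this]
      field_simp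
      ring
    rw [e] at j2
    have j3 := mul_le_mul_of_nonneg_left j2 (by linarith : (0 : ℝ) ≤ k + 2)
    have e2 : ∀ p q : ℝ, ((k : ℝ) + 2) * (2 / (k + 2) * p + k / (k + 2) * q) = 2 * p + k * q := by
      intro p q
      field_simp
    rw [e2] at j3
    linarith
  have mono := log_mono h hs k0 kk hρ hw1.2
  have e1 : r / k' * t = r * t / k' := by ring
  have e2 : r / k * t = r * t / k := by ring
  have hw2 : t / (k' + 2) ∈ Icc 0 z2 := ⟨by positivity, a3.trans hvz⟩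
  unfold P3
  push_cast
  rw [e1, e2, pow_eq_exp (h.pos _ hu.1 hu.2), pow_eq_exp (h.pos _ hw1.1 hw1.2),
    pow_eq_exp (h.pos _ hw2.1 hw2.2), pow_eq_exp (h.pos _ hv'.1 hv'.2),
    ← Real.exp_log (h.pos _ hx1.1 hx1.2), ← Real.exp_log (h.pos _ hx2.1 hx2.2),
    ← Real.exp_add, ← Real.exp_add, ← Real.exp_add]
  push_cast
  generalize Real.log (g (x1 * t)) + Real.log (g (x2 * t)) = c at *
  generalize (k + 2) * Real.log (g (t / (k + 2))) = aN at *
  generalize (k' + 2) * Real.log (g (t / (k' + 2))) = an at *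
  generalize k' * Real.log (g (r * t / k')) = b' at *
  generalize k * Real.log (g (r * t / k)) = b at *
  have s1 : Real.exp (aN + (b' - b)) ≤ Real.exp an := Real.exp_le_exp.2 (by linarith)
  have s2 : Real.exp (c + b) ≤ Real.exp aN := Real.exp_le_exp.2 jen
  have s3 : 1 ≤ Real.exp (b' - b) := Real.one_le_exp (by linarith)
  have s4 : Real.exp (c + b') = Real.exp (c + b) * Real.exp (b' - b) := by
    rw [← Real.exp_add]; ring_nf
  rw [Real.exp_add] at s1
  rw [s4]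
  nlinarith [mul_le_mul_of_nonneg_right s2 (sub_nonneg.2 s3)]

theorem var_nonneg (T : Finset ι) (y : ι → ℝ) : 0 ≤ Var T y :=
  Finset.sum_nonneg fun _ _ => sq_nonneg _

theorem FHeadX.sum_taylor {f f1 f2 : ℝ → ℝ} {a b na nb F N : ℝ} (T : Finset ι) (hT : T.Nonempty)
    (y : ι → ℝ) (c0 : ContinuousOn f (Icc a b))
    (c1 : ContinuousOn f1 (Icc a b)) (d0 : ∀ v ∈ Ioo a b, HasDerivAt f (f1 v) v)
    (d1 : ∀ v ∈ Ioo a b, HasDerivAt f1 (f2 v) v) (hy : ∀ j ∈ T, y j ∈ Icc a b)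
    (hF : ∀ v ∈ Icc a b, f2 v ≤ F) (hN : ∀ v ∈ Icc na nb, v ∈ Icc a b → f2 v ≤ N)
    (hna : na ≤ (a + (∑ j ∈ T, y j) / T.card) / 2)
    (hnb : (b + (∑ j ∈ T, y j) / T.card) / 2 ≤ nb) :
    ∑ j ∈ T, (f (y j) - f ((∑ j ∈ T, y j) / T.card)) ≤ (F / 4 + 3 * N / 4) * Var T y / 2 := by
  have h1 := Finset.sum_le_sum fun j hj =>
    taylor2 c0 c1 d0 d1 (hy j hj) (mean_mem T hT y hy) hF hN hna hnb
  rw [Finset.sum_add_distrib, ← Finset.mul_sum, sum_dev T hT y, mul_zero, zero_add,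
    ← Finset.sum_div, ← Finset.mul_sum] at h1
  exact h1

/-- Quantitative Jensen inequality on the first lobe. -/
theorem gain (hs : Sm g g1 g2) (T : Finset ι) (hT : T.Nonempty) (y : ι → ℝ)
    {a b na nb cf cn : ℝ} (ha : 0 ≤ a) (hy : ∀ j ∈ T, y j ∈ Icc a b)
    (pos : ∀ v ∈ Icc a b, 0 < g v)
    (hf : ∀ v ∈ Icc a b, g v * g2 v - g1 v ^ 2 ≤ -cf * g v ^ 2)
    (hn : ∀ v ∈ Icc na nb, v ∈ Icc a b → g v * g2 v - g1 v ^ 2 ≤ -cn * g v ^ 2)
    (hna : na ≤ (a + (∑ j ∈ T, y j) / T.card) / 2) (hnb : (b + (∑ j ∈ T, y j) / T.card) / 2 ≤ nb)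
    (hc : 0 ≤ cf / 4 + 3 * cn / 4) :
    ∏ j ∈ T, g (y j) ≤ g ((∑ j ∈ T, y j) / T.card) ^ T.card /
      (1 + (cf / 4 + 3 * cn / 4) * Var T y / 2) := by
  have h1 := sum_taylor (f := fun v => Real.log (g v)) (f1 := fun v => g1 v / g v)
    (f2 := fun v => (g v * g2 v - g1 v ^ 2) / g v ^ 2) (F := -cf) (N := -cn) T hT y
    (hs.c0.continuousOn.log fun v hv => (pos v hv).ne')
    (hs.c1.continuousOn.div hs.c0.continuousOn fun v hv => (pos v hv).ne')
    (fun v hv => (hs.d0 v (lt_of_le_of_lt ha hv.1)).log (pos v (Ioo_subset_Icc_self hv)).ne')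
    (fun v hv => ((hs.d1 v (lt_of_le_of_lt ha hv.1)).div (hs.d0 v (lt_of_le_of_lt ha hv.1))
      (pos v (Ioo_subset_Icc_self hv)).ne').congr_deriv (by ring)) hy
    (fun v hv => by rw [div_le_iff₀ (pow_pos (pos v hv) 2)]; exact hf v hv)
    (fun v hv hv' => by rw [div_le_iff₀ (pow_pos (pos v hv') 2)]; exact hn v hv hv') hna hnb
  have hm := pos _ (mean_mem T hT y hy)
  have hX : 0 ≤ (cf / 4 + 3 * cn / 4) * Var T y / 2 := by
    have := mul_nonneg hc (var_nonneg T y)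
    linarith
  have e1 : ∏ j ∈ T, g (y j) = Real.exp (∑ j ∈ T, Real.log (g (y j))) := by
    rw [Real.exp_sum]
    exact Finset.prod_congr rfl fun j hj => (Real.exp_log (pos _ (hy j hj))).symm
  rw [Finset.sum_sub_distrib, Finset.sum_const, nsmul_eq_mul] at h1
  rw [e1, pow_eq_exp hm, le_div_iff₀ (by linarith)]
  have h2 := Real.add_one_le_exp ((cf / 4 + 3 * cn / 4) * Var T y / 2)
  calc _ ≤ Real.exp (∑ j ∈ T, Real.log (g (y j))) *
        Real.exp ((cf / 4 + 3 * cn / 4) * Var T y / 2) :=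
        mul_le_mul_of_nonneg_left (by linarith) (Real.exp_pos _).le
    _ ≤ _ := by
      rw [← Real.exp_add]
      exact Real.exp_le_exp.2 (by linarith)

theorem head_excess {lh y : ℝ} (hl : ∀ v, 0 ≤ v → 1 - lh * v ≤ g v) (h0 : 0 ≤ lam)
    (h1 : lam ≤ lh) {k : ℕ} (hk : 1 ≤ k) (hy : 0 ≤ y) (pos : 0 ≤ g (y / k)) :
    Real.exp (-(lam * y)) - g (y / k) ^ k ≤ (lh - lam) * y + (lh * y) ^ 2 / k := by
  have k1 : (1 : ℝ) ≤ k := by exact_mod_cast hk
  have k0 : (0 : ℝ) < k := by linarith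
  have hx : 0 ≤ lh * y := mul_nonneg (h0.trans h1) hy
  have a1 : Real.exp (-(lam * y)) - Real.exp (-(lh * y)) ≤ (lh - lam) * y := by
    have b1 : Real.exp (-(lam * y)) ≤ 1 := Real.exp_le_one_iff.2 (by nlinarith)
    have b2 := Real.add_one_le_exp (-((lh - lam) * y))
    have b3 : Real.exp (-(lh * y)) = Real.exp (-(lam * y)) * Real.exp (-((lh - lam) * y)) := by
      rw [← Real.exp_add]; ring_nf
    have b4 : 0 ≤ (lh - lam) * y := mul_nonneg (sub_nonneg.2 h1) hy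
    have b5 := Real.exp_pos (-(lam * y))
    rw [b3]
    nlinarith [mul_le_mul_of_nonneg_left b2 b5.le]
  have a2 : Real.exp (-(lh * y)) - g (y / k) ^ k ≤ (lh * y) ^ 2 / k := by
    have hl' := hl (y / k) (by positivity)
    have e0 : lh * (y / k) = lh * y / k := by ring
    rw [e0] at hl'
    generalize lh * y = x at *
    rcases le_total (k : ℝ) x with hkx | hkx
    · have b1 : Real.exp (-x) ≤ 1 := Real.exp_le_one_iff.2 (by linarith)
      have b2 : 0 ≤ g (y / k) ^ k := pow_nonneg pos k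
      have b3 : 1 ≤ x ^ 2 / k := by
        rw [le_div_iff₀ k0]; nlinarith
      linarith
    · have u0 : 0 ≤ x / k := by positivity
      have u1 : x / k ≤ 1 := by rwa [div_le_one k0]
      have b1 : (1 - x / k) ^ k ≤ g (y / k) ^ k := pow_le_pow_left₀ (by linarith) hl' k
      have b2 : Real.exp (-x) = Real.exp (-(x / k)) ^ k := by
        rw [← Real.exp_nat_mul]; congr 1; field_simp
      have b3 := Real.add_one_le_exp (-(x / k))
      have b4 := pow_sub_le (a := Real.exp (-(x / k))) (b := 1 - x / k) (by linarith)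
        (by linarith) (Real.exp_le_one_iff.2 (by linarith)) k
      have b5 : Real.exp (-(x / k)) ≤ 1 - x / k + (x / k) ^ 2 := by
        have c1 := Real.add_one_le_exp (x / k)
        rw [Real.exp_neg, ← one_div, div_le_iff₀ (Real.exp_pos _)]
        have c2 : 0 ≤ 1 - x / k + (x / k) ^ 2 := by nlinarith
        nlinarith [mul_le_mul_of_nonneg_left c1 c2, pow_nonneg u0 3]
      have b6 : (k : ℝ) * (x / k) ^ 2 = x ^ 2 / k := by field_simp
      have b7 := mul_le_mul_of_nonneg_left b5 k0.le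
      rw [b2]
      nlinarith
  linarith

theorem prod_ge_lin (hs : Sm g g1 g2) {lh : ℝ} (hl : ∀ v, 0 ≤ v → 1 - lh * v ≤ g v)
    (T : Finset ι) (y : ι → ℝ) (hy : ∀ j ∈ T, 0 ≤ y j) :
    1 - lh * ∑ j ∈ T, y j ≤ ∏ j ∈ T, g (y j) := by
  classical
  induction T using Finset.induction_on with
  | empty => simp
  | insert i T hi ih =>
    have h1 := ih fun j hj => hy j (Finset.mem_insert_of_mem hj)
    have h2 : ∏ j ∈ T, g (y j) ≤ 1 := by
      refine (le_abs_self _).trans ?_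
      rw [Finset.abs_prod]
      exact Finset.prod_le_one (fun _ _ => abs_nonneg _) fun j hj =>
        hs.bd _ (hy j (Finset.mem_insert_of_mem hj))
    have h3 := hl _ (hy i (Finset.mem_insert_self _ _))
    have h4 := (le_abs_self _).trans (hs.bd _ (hy i (Finset.mem_insert_self _ _)))
    rw [Finset.sum_insert hi, Finset.prod_insert hi]
    nlinarith [mul_nonneg (sub_nonneg.2 h2) (sub_nonneg.2 h4)]

/-- First and second order comparison with the value at the mean. -/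
theorem breg (hs : Sm g g1 g2) (T : Finset ι) (hT : T.Nonempty) (y : ι → ℝ)
    {a b na nb k1f k1n lof hif lon hin : ℝ} (ha : 0 ≤ a) (hy : ∀ j ∈ T, y j ∈ Icc a b)
    (hf : ∀ v ∈ Icc a b, |g1 v| ≤ k1f ∧ lof ≤ g2 v ∧ g2 v ≤ hif)
    (hn : ∀ v ∈ Icc na nb, v ∈ Icc a b → |g1 v| ≤ k1n ∧ lon ≤ g2 v ∧ g2 v ≤ hin)
    (hna : na ≤ (a + (∑ j ∈ T, y j) / T.card) / 2) (hnb : (b + (∑ j ∈ T, y j) / T.card) / 2 ≤ nb) :
    (∀ j ∈ T, |g (y j) - g ((∑ j ∈ T, y j) / T.card)| ≤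
      (k1f + k1n) / 2 * |y j - (∑ j ∈ T, y j) / T.card|) ∧
    (∀ i ∈ T, ∀ l ∈ T, |g (y i) - g (y l)| ≤ k1f * |y i - y l|) ∧
    (lof / 4 + 3 * lon / 4) * Var T y / 2 ≤
      ∑ j ∈ T, (g (y j) - g ((∑ j ∈ T, y j) / T.card)) ∧
    ∑ j ∈ T, (g (y j) - g ((∑ j ∈ T, y j) / T.card)) ≤
      (hif / 4 + 3 * hin / 4) * Var T y / 2 := by
  have hm := mean_mem T hT y hy
  have far : ∀ p ∈ Icc a b, ∀ q ∈ Icc a b, |g q - g p| ≤ k1f * |q - p| := fun p hp q hq =>
    lip' hs (ha.trans hp.1) (ha.trans hq.1) fun v h1 h2 =>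
      (hf v ⟨(le_min hp.1 hq.1).trans h1, h2.trans (max_le hp.2 hq.2)⟩).1
  refine ⟨fun j hj => ?_, fun i hi l hl => far _ (hy l hl) _ (hy i hi), ?_, ?_⟩
  · generalize (∑ j ∈ T, y j) / (T.card : ℝ) = m at *
    have hj' := hy j hj
    have hc : (y j + m) / 2 ∈ Icc a b := ⟨by linarith [hj'.1, hm.1], by linarith [hj'.2, hm.2]⟩
    have h1 := far _ hc _ hj'
    have h2 : |g ((y j + m) / 2) - g m| ≤ k1n * |(y j + m) / 2 - m| :=
      lip' hs (ha.trans hm.1) (ha.trans hc.1) fun v h1 h2 =>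
        (hn v ⟨le_trans (le_min (by linarith [hm.1]) (by linarith [hj'.1])) h1,
          h2.trans (max_le (by linarith [hm.2]) (by linarith [hj'.2]))⟩
          ⟨(le_min hm.1 hc.1).trans h1, h2.trans (max_le hm.2 hc.2)⟩).1
    have e1 : y j - (y j + m) / 2 = (y j - m) / 2 := by ring
    have e2 : (y j + m) / 2 - m = (y j - m) / 2 := by ring
    rw [e1, abs_div, abs_two] at h1
    rw [e2, abs_div, abs_two] at h2
    have h3 := abs_sub_le (g (y j)) (g ((y j + m) / 2)) (g m)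
    linarith
  · have h1 := sum_taylor (f := fun v => -g v) (f1 := fun v => -g1 v) (f2 := fun v => -g2 v)
      (F := -lof) (N := -lon) T hT y hs.c0.continuousOn.neg hs.c1.continuousOn.neg
      (fun v hv => (hs.d0 v (lt_of_le_of_lt ha hv.1)).neg)
      (fun v hv => (hs.d1 v (lt_of_le_of_lt ha hv.1)).neg) hy
      (fun v hv => neg_le_neg (hf v hv).2.1) (fun v hv hv' => neg_le_neg (hn v hv hv').2.1) hna hnb
    have e : ∑ j ∈ T, (-g (y j) - -g ((∑ j ∈ T, y j) / T.card)) =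
        -∑ j ∈ T, (g (y j) - g ((∑ j ∈ T, y j) / T.card)) := by
      rw [← Finset.sum_neg_distrib]
      exact Finset.sum_congr rfl fun _ _ => by ring
    rw [e] at h1
    linarith
  · exact sum_taylor (f := g) (f1 := g1) (f2 := g2) T hT y hs.c0.continuousOn hs.c1.continuousOn
      (fun v hv => hs.d0 v (lt_of_le_of_lt ha hv.1))
      (fun v hv => hs.d1 v (lt_of_le_of_lt ha hv.1)) hy
      (fun v hv => (hf v hv).2.2) (fun v hv hv' => (hn v hv hv').2.2) hna hnb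

/-- Bounds for the sum of squared deviations. -/
theorem var_le (T : Finset ι) (hT : T.Nonempty) (y : ι → ℝ) {a b : ℝ}
    (hy : ∀ j ∈ T, y j ∈ Icc a b) : Var T y ≤
      T.card * (b - (∑ j ∈ T, y j) / T.card) * ((∑ j ∈ T, y j) / T.card - a) := by
  have h0 := sum_dev T hT y
  unfold Var
  generalize (∑ j ∈ T, y j) / (T.card : ℝ) = m at *
  have h1 : ∑ j ∈ T, (y j - m) ^ 2 ≤
      ∑ j ∈ T, ((b - m) * (m - a) + (a + b - 2 * m) * (y j - m)) := by
    refine Finset.sum_le_sum fun j hj => ?_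
    nlinarith [mul_nonneg (sub_nonneg.2 (hy j hj).1) (sub_nonneg.2 (hy j hj).2)]
  rw [Finset.sum_add_distrib, Finset.sum_const, ← Finset.mul_sum, h0, nsmul_eq_mul] at h1
  linarith

theorem var_ge_one (T : Finset ι) (hT : 2 ≤ T.card) (y : ι → ℝ) {i : ι} (hi : i ∈ T) :
    (y i - (∑ j ∈ T, y j) / T.card) ^ 2 * T.card ≤ Var T y * (T.card - 1) := by
  classical
  have h0 := sum_dev T ⟨i, hi⟩ y
  unfold Var
  generalize (∑ j ∈ T, y j) / (T.card : ℝ) = m at *
  have h1 := sq_sum_le_card_mul_sum_sq (s := T.erase i) (f := fun j => y j - m)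
  rw [← Finset.add_sum_erase T _ hi] at h0 ⊢
  have e1 : ((T.erase i).card : ℝ) = T.card - 1 := by
    rw [Finset.card_erase_of_mem hi, Nat.cast_sub (by omega), Nat.cast_one]
  have e2 : ∑ j ∈ T.erase i, (y j - m) = -(y i - m) := by linarith
  rw [e1, e2] at h1
  nlinarith

theorem var_ge_two (T : Finset ι) (y : ι → ℝ) {i l : ι} (hi : i ∈ T) (hl : l ∈ T) (h : i ≠ l) :
    (y i - (∑ j ∈ T, y j) / T.card) ^ 2 + (y l - (∑ j ∈ T, y j) / T.card) ^ 2 ≤ Var T y := by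
  classical
  unfold Var
  generalize (∑ j ∈ T, y j) / (T.card : ℝ) = m
  rw [← Finset.sum_pair (f := fun j => (y j - m) ^ 2) h]
  refine Finset.sum_le_sum_of_subset_of_nonneg ?_ fun _ _ _ => sq_nonneg _
  intro j hj
  rcases Finset.mem_insert.1 hj with e | e
  · exact e ▸ hi
  · exact Finset.mem_singleton.1 e ▸ hl

theorem var_smul (T : Finset ι) (y : ι → ℝ) (t : ℝ) :
    Var T (fun j => y j * t) = t ^ 2 * Var T y := by
  unfold Var
  rw [Finset.mul_sum, ← Finset.sum_mul]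
  exact Finset.sum_congr rfl fun _ _ => by ring

end Pool.Agent.MP_39fec4_gt.Full
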