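import Mathlib

set_option autoImplicit false

namespace Pool.Agent.MP_39fec4_gt.Full.FHessX

open Real

variable {ι : Type}

theorem one_add_ge {a e : ℝ} (ha0 : 0 ≤ a) (ha1 : a ≤ 1) (he : -a ≤ e) :
    1 - (1 + a) / 2 * e ^ 2 ≤ (1 + e) * exp (-e) := by
  rcases le_total 0 e with h | h
  · have h1 := le_log_one_add_of_nonneg h
    have h2 : e - e ^ 2 / 2 ≤ 2 * e / (e + 2) := by
      rw [le_div_iff₀ (by linarith)]
      nlinarith [mul_nonneg h (sq_nonneg e)]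
    have h3 : exp (e - e ^ 2 / 2) ≤ 1 + e := by
      rw [← le_log_iff_exp_le (by linarith)]
      linarith
    have h4 : exp (-(e ^ 2 / 2)) = exp (e - e ^ 2 / 2) * exp (-e) := by
      rw [← exp_add]
      congr 1
      ring
    have h5 := add_one_le_exp (-(e ^ 2 / 2))
    have h6 := mul_le_mul_of_nonneg_right h3 (exp_pos (-e)).le
    nlinarith [mul_nonneg ha0 (sq_nonneg e)]
  · have h1 := quadratic_le_exp_of_nonneg (neg_nonneg.2 h)
    have h2 := mul_le_mul_of_nonneg_left h1 (show 0 ≤ 1 + e by linarith)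
    nlinarith [mul_nonneg (show 0 ≤ a + e by linarith) (sq_nonneg e)]

theorem weier (T : Finset ι) (x y : ι → ℝ) (hx : ∀ j ∈ T, 0 ≤ x j) (hy : ∀ j ∈ T, 0 ≤ y j)
    (h : ∀ j ∈ T, 1 - x j ≤ y j) : 1 - ∑ j ∈ T, x j ≤ ∏ j ∈ T, y j := by
  classical
  induction T using Finset.induction_on with
  | empty => simp
  | insert a T ha ih =>
    rw [Finset.sum_insert ha, Finset.prod_insert ha]
    have m := Finset.mem_insert_self a T
    have h1 := ih (fun j hj => hx j (Finset.mem_insert_of_mem hj))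
      (fun j hj => hy j (Finset.mem_insert_of_mem hj)) fun j hj => h j (Finset.mem_insert_of_mem hj)
    have h2 : 0 ≤ ∏ j ∈ T, y j := Finset.prod_nonneg fun j hj => hy j (Finset.mem_insert_of_mem hj)
    have h3 : 0 ≤ ∑ j ∈ T, x j := Finset.sum_nonneg fun j hj => hx j (Finset.mem_insert_of_mem hj)
    rcases le_total 1 (x a) with h4 | h4
    · nlinarith [mul_nonneg (hy a m) h2]
    · nlinarith [mul_le_mul_of_nonneg_right (h a m) h2,
        mul_le_mul_of_nonneg_left h1 (sub_nonneg.2 h4), mul_nonneg (hx a m) h3]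

theorem prod_eq (T : Finset ι) (z : ι → ℝ) {m : ℝ} (hm : m ≠ 0) :
    ∏ j ∈ T, z j = m ^ T.card * ∏ j ∈ T, (1 + (z j - m) / m) := by
  rw [← Finset.prod_const, ← Finset.prod_mul_distrib]
  exact Finset.prod_congr rfl fun j _ => by field_simp; ring

theorem amgm (T : Finset ι) (z : ι → ℝ) {m : ℝ} (hm : 0 < m) (hz : ∀ j ∈ T, 0 ≤ z j)
    (hs : ∑ j ∈ T, (z j - m) = 0) : ∏ j ∈ T, z j ≤ m ^ T.card := by
  rw [prod_eq T z hm.ne']
  refine mul_le_of_le_one_right (by positivity) ?_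
  calc ∏ j ∈ T, (1 + (z j - m) / m) ≤ ∏ j ∈ T, exp ((z j - m) / m) := by
        refine Finset.prod_le_prod (fun j hj => ?_) fun j _ => ?_
        · have : 1 + (z j - m) / m = z j / m := by field_simp; ring
          rw [this]
          exact div_nonneg (hz j hj) hm.le
        · linarith [add_one_le_exp ((z j - m) / m)]
    _ = 1 := by rw [← exp_sum, ← Finset.sum_div, hs, zero_div, exp_zero]

theorem prod_ge (T : Finset ι) (hk : 2 ≤ T.card) (z : ι → ℝ) {m a : ℝ} (hm : 0 < m) (ha0 : 0 ≤ a)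
    (ha1 : a ≤ 1) (hz : ∀ j ∈ T, (1 - a) * m ≤ z j) (hs : ∑ j ∈ T, (z j - m) = 0) :
    m ^ T.card - (1 + a) / 2 * (m ^ (T.card - 2) * ∑ j ∈ T, (z j - m) ^ 2) ≤ ∏ j ∈ T, z j := by
  have he : ∀ j ∈ T, -a ≤ (z j - m) / m := fun j hj => by
    rw [le_div_iff₀ hm]
    linarith [hz j hj]
  have h1 := weier T (fun j => (1 + a) / 2 * ((z j - m) / m) ^ 2)
    (fun j => (1 + (z j - m) / m) * exp (-((z j - m) / m))) (fun j _ => by positivity)
    (fun j hj => mul_nonneg (by linarith [he j hj]) (exp_pos _).le)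
    fun j hj => one_add_ge ha0 ha1 (he j hj)
  rw [Finset.prod_mul_distrib, ← exp_sum, Finset.sum_neg_distrib, ← Finset.sum_div, hs, zero_div,
    neg_zero, exp_zero, mul_one, ← Finset.mul_sum] at h1
  rw [prod_eq T z hm.ne']
  refine le_trans (le_of_eq ?_) (mul_le_mul_of_nonneg_left h1 (by positivity))
  obtain ⟨n, hn⟩ := Nat.exists_eq_add_of_le hk
  simp only [div_pow]
  rw [← Finset.sum_div, hn, Nat.add_sub_cancel_left, pow_add]
  field_simp

theorem var_le (T : Finset ι) (z : ι → ℝ) {m : ℝ} (w : ℝ) (hs : ∑ j ∈ T, (z j - m) = 0) :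
    ∑ j ∈ T, (z j - m) ^ 2 ≤ ∑ j ∈ T, (z j - w) ^ 2 := by
  have : ∑ j ∈ T, (z j - w) ^ 2 =
      ∑ j ∈ T, ((z j - m) ^ 2 + 2 * (m - w) * (z j - m) + (m - w) ^ 2) :=
    Finset.sum_congr rfl fun j _ => by ring
  rw [this, Finset.sum_add_distrib, Finset.sum_add_distrib, ← Finset.mul_sum, hs]
  have : 0 ≤ ∑ _j ∈ T, (m - w) ^ 2 := Finset.sum_nonneg fun _ _ => sq_nonneg _
  linarith

theorem pow_sub_le {x y B : ℝ} (k : ℕ) (hx : |x| ≤ B) (hy : |y| ≤ B) :
    |x ^ k - y ^ k| ≤ |x - y| * k * B ^ (k - 1) := by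
  refine (abs_pow_sub_pow_le x y k).trans (mul_le_mul_of_nonneg_left ?_ (by positivity))
  exact pow_le_pow_left₀ ((abs_nonneg x).trans (le_max_left _ _)) (max_le hx hy) _

theorem abs_prod_le (T : Finset ι) (z : ι → ℝ) {B : ℝ} (h : ∀ j ∈ T, |z j| ≤ B) :
    |∏ j ∈ T, z j| ≤ B ^ T.card := by
  rw [Finset.abs_prod, ← Finset.prod_const]
  exact Finset.prod_le_prod (fun j _ => abs_nonneg _) h

theorem sq_le (T : Finset ι) (d : ι → ℝ) (h : ∑ j ∈ T, d j = 0) {i : ι} (hi : i ∈ T) :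
    d i ^ 2 * T.card ≤ (T.card - 1) * ∑ j ∈ T, d j ^ 2 := by
  classical
  have h1 := sq_sum_le_card_mul_sum_sq (s := T.erase i) (f := d)
  have h2 := Finset.add_sum_erase T d hi
  have h3 := Finset.add_sum_erase T (fun j => d j ^ 2) hi
  have h4 : ((T.erase i).card : ℝ) = T.card - 1 := by
    rw [← Finset.card_erase_add_one hi]
    simp
  have h5 : ∑ j ∈ T.erase i, d j = -d i := by linarith
  rw [h4, h5] at h1
  rw [← h3]
  nlinarith

theorem pair_le (T : Finset ι) (d : ι → ℝ) {i l : ι} (hi : i ∈ T) (hl : l ∈ T) (hil : i ≠ l) :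
    (d i - d l) ^ 2 ≤ 2 * ∑ j ∈ T, d j ^ 2 := by
  classical
  have h1 : ∑ j ∈ ({i, l} : Finset ι), d j ^ 2 ≤ ∑ j ∈ T, d j ^ 2 :=
    Finset.sum_le_sum_of_subset_of_nonneg (Finset.insert_subset hi (by simpa using hl))
      fun _ _ _ => sq_nonneg _
  rw [Finset.sum_pair hil] at h1
  nlinarith [sq_nonneg (d i + d l)]

theorem cube_le {a b c R : ℝ} (h : a + b + c = 0) (hR : 0 ≤ R)
    (h1 : (a ^ 2 + b ^ 2 + c ^ 2) ^ 3 ≤ R ^ 2) : a * b * c ≤ 0.1361 * R := by
  have h2 : 54 * (a * b * c) ^ 2 ≤ (a ^ 2 + b ^ 2 + c ^ 2) ^ 3 := by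
    obtain rfl : c = -a - b := by linarith
    nlinarith [sq_nonneg ((a - b) * (2 * a + b) * (a + 2 * b))]
  refine le_of_sq_le_sq ?_ (by positivity)
  nlinarith [sq_nonneg R]

end Pool.Agent.MP_39fec4_gt.Full.FHessX
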