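import Pool.Agent.MP_39fec4_gt.FDefs
import Pool.Agent.MP_39fec4_gt.FHessA

set_option autoImplicit false

namespace Pool.Agent.MP_39fec4_gt.Full

open MeasureTheory Set Real Ball P4

/-- The data shared by the second order product inequalities: numbers `z j` close to `w`. -/
structure HB {ι : Type} (T : Finset ι) (z d : ι → ℝ)
    (w W lo hi wlo whi K1 K1f K2h K2l B Wb B0 cc wf : ℝ) : Prop where
  k2 : 2 ≤ T.card
  d0 : ∑ j ∈ T, d j = 0
  hW : W = ∑ j ∈ T, d j ^ 2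
  hz : ∀ j ∈ T, lo ≤ z j ∧ z j ≤ hi
  hw : wlo ≤ w ∧ w ≤ whi
  hwr : lo ≤ w ∧ w ≤ hi
  h1 : ∀ j ∈ T, |z j - w| ≤ K1 * |d j|
  hf : ∀ i ∈ T, ∀ l ∈ T, |z i - z l| ≤ K1f * |d i - d l|
  h2l : -K2l * W / 2 ≤ ∑ j ∈ T, (z j - w)
  h2h : ∑ j ∈ T, (z j - w) ≤ K2h * W / 2
  p1 : 0 ≤ K1
  p1f : 0 ≤ K1f
  p2h : 0 ≤ K2h
  p2l : 0 ≤ K2l
  hB : -B ≤ lo ∧ hi ≤ B
  hWb : -Wb ≤ wlo ∧ whi ≤ Wb
  hB0 : B ≤ B0 ∨ Wb + max K2h K2l * W / (2 * T.card) ≤ B0
  hcc : 1 ≤ cc ∨ (0 < lo ∧ 2 * B0 - lo ≤ 2 * cc * B0) ∨ (hi < 0 ∧ 2 * B0 + hi ≤ 2 * cc * B0)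
  hwf : (T.card : ℝ) - 1 ≤ wf * T.card

variable {ι : Type} {T : Finset ι} {z d : ι → ℝ}
  {w W lo hi wlo whi K1 K1f K2h K2l B Wb B0 cc wf : ℝ}

namespace FHessX

theorem neg (h : HB T z d w W lo hi wlo whi K1 K1f K2h K2l B Wb B0 cc wf) :
    HB T (fun j => -z j) d (-w) W (-hi) (-lo) (-whi) (-wlo) K1 K1f K2l K2h B Wb B0 cc wf := by
  have e : ∑ j ∈ T, (-z j - -w) = -∑ j ∈ T, (z j - w) := by
    rw [← Finset.sum_neg_distrib]
    exact Finset.sum_congr rfl fun j _ => by ring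
  refine ⟨h.k2, h.d0, h.hW, fun j hj => ⟨neg_le_neg (h.hz j hj).2, neg_le_neg (h.hz j hj).1⟩,
    ⟨neg_le_neg h.hw.2, neg_le_neg h.hw.1⟩, ⟨neg_le_neg h.hwr.2, neg_le_neg h.hwr.1⟩,
    fun j hj => ?_, fun i hi l hl => ?_, ?_, ?_, h.p1, h.p1f, h.p2l, h.p2h,
    ⟨neg_le_neg h.hB.2, neg_le.1 h.hB.1⟩, ⟨neg_le_neg h.hWb.2, neg_le.1 h.hWb.1⟩, ?_, ?_, h.hwf⟩
  · rw [← neg_sub', abs_neg]
    exact h.h1 j hj
  · rw [← neg_sub', abs_neg]
    exact h.hf i hi l hl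
  · rw [e]
    linarith [h.h2h]
  · rw [e]
    linarith [h.h2l]
  · rw [max_comm]
    exact h.hB0
  · rcases h.hcc with h1 | h1 | h1
    · exact Or.inl h1
    · exact Or.inr (Or.inr ⟨by linarith [h1.1], by linarith [h1.2]⟩)
    · exact Or.inr (Or.inl ⟨by linarith [h1.1], by linarith [h1.2]⟩)

theorem W0 (h : HB T z d w W lo hi wlo whi K1 K1f K2h K2l B Wb B0 cc wf) : 0 ≤ W :=
  h.hW ▸ Finset.sum_nonneg fun _ _ => sq_nonneg _

theorem ne (h : HB T z d w W lo hi wlo whi K1 K1f K2h K2l B Wb B0 cc wf) : T.Nonempty :=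
  Finset.card_pos.1 (by linarith [h.k2])

theorem absz (h : HB T z d w W lo hi wlo whi K1 K1f K2h K2l B Wb B0 cc wf) :
    ∀ j ∈ T, |z j| ≤ B := fun j hj =>
  abs_le.2 ⟨h.hB.1.trans (h.hz j hj).1, (h.hz j hj).2.trans h.hB.2⟩

theorem sq1 (h : HB T z d w W lo hi wlo whi K1 K1f K2h K2l B Wb B0 cc wf) {j : ι} (hj : j ∈ T) :
    (z j - w) ^ 2 ≤ K1 ^ 2 * d j ^ 2 := by
  have := pow_le_pow_left₀ (abs_nonneg _) (h.h1 j hj) 2
  rwa [mul_pow, sq_abs, sq_abs] at this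

theorem sq2 (h : HB T z d w W lo hi wlo whi K1 K1f K2h K2l B Wb B0 cc wf) :
    ∑ j ∈ T, (z j - w) ^ 2 ≤ K1 ^ 2 * W := by
  rw [h.hW, Finset.mul_sum]
  exact Finset.sum_le_sum fun j hj => sq1 h hj

theorem mean (h : HB T z d w W lo hi wlo whi K1 K1f K2h K2l B Wb B0 cc wf) :
    ∃ m : ℝ, ∑ j ∈ T, (z j - m) = 0 ∧ |w| ≤ B0 ∧ |m| ≤ B0 ∧ lo ≤ m ∧
      (m - w) * T.card ≤ K2h * W / 2 ∧ (w - m) * T.card ≤ K2l * W / 2 ∧
      ∑ j ∈ T, (z j - m) ^ 2 ≤ K1 ^ 2 * W ∧ ((∀ j ∈ T, 0 < z j) → 0 < m) := by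
  have hk : (0 : ℝ) < T.card := Nat.cast_pos.2 (ne h).card_pos
  obtain ⟨m, hm⟩ : ∃ m : ℝ, m * T.card = ∑ j ∈ T, z j :=
    ⟨(∑ j ∈ T, z j) / T.card, div_mul_cancel₀ _ hk.ne'⟩
  have e : ∀ x : ℝ, ∑ j ∈ T, (z j - x) = (m - x) * T.card := fun x => by
    rw [Finset.sum_sub_distrib, Finset.sum_const, nsmul_eq_mul, ← hm]
    ring
  have h0 : ∑ j ∈ T, (z j - m) = 0 := by rw [e, sub_self, zero_mul]
  have h1 : lo ≤ m := by
    have : 0 ≤ ∑ j ∈ T, (z j - lo) := Finset.sum_nonneg fun j hj => sub_nonneg.2 (h.hz j hj).1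
    rw [e] at this
    exact sub_nonneg.1 (nonneg_of_mul_nonneg_left this hk)
  have h2 : m ≤ hi := by
    have : ∑ j ∈ T, (z j - hi) ≤ 0 := Finset.sum_nonpos fun j hj => sub_nonpos.2 (h.hz j hj).2
    rw [e] at this
    exact sub_nonpos.1 (nonpos_of_mul_nonpos_left this hk)
  have h3 := h.h2h
  have h4 := h.h2l
  rw [e] at h3 h4
  have hW := W0 h
  have h5 : |w| ≤ B0 ∧ |m| ≤ B0 := by
    rcases h.hB0 with h5 | h5
    · exact ⟨abs_le.2 ⟨by linarith [h.hB.1, h.hwr.1], by linarith [h.hB.2, h.hwr.2]⟩,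
        abs_le.2 ⟨by linarith [h.hB.1], by linarith [h.hB.2]⟩⟩
    · have h6 : m - w ≤ max K2h K2l * W / (2 * T.card) := by
        rw [le_div_iff₀ (by positivity)]
        nlinarith [mul_le_mul_of_nonneg_right (le_max_left K2h K2l) hW]
      have h7 : w - m ≤ max K2h K2l * W / (2 * T.card) := by
        rw [le_div_iff₀ (by positivity)]
        nlinarith [mul_le_mul_of_nonneg_right (le_max_right K2h K2l) hW]
      have h8 : 0 ≤ max K2h K2l * W / (2 * T.card) :=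
        div_nonneg (mul_nonneg (h.p2h.trans (le_max_left _ _)) hW) (by positivity)
      exact ⟨abs_le.2 ⟨by linarith [h.hWb.1, h.hw.1], by linarith [h.hWb.2, h.hw.2]⟩,
        abs_le.2 ⟨by linarith [h.hWb.1, h.hw.1], by linarith [h.hWb.2, h.hw.2]⟩⟩
  refine ⟨m, h0, h5.1, h5.2, h1, h3, by linarith, (var_le T z w h0).trans (sq2 h), fun hz => ?_⟩
  have : 0 < ∑ j ∈ T, z j := Finset.sum_pos hz (ne h)
  rw [← hm] at this
  exact (mul_pos_iff_of_pos_right hk).1 this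

theorem step {x y B c : ℝ} {k : ℕ} (hx : |x| ≤ B) (hy : |y| ≤ B) (hxy : y ≤ x)
    (h : (x - y) * k ≤ c) : x ^ k - y ^ k ≤ B ^ (k - 1) * c := by
  have h1 := pow_sub_le k hx hy
  rw [abs_of_nonneg (sub_nonneg.2 hxy)] at h1
  have h2 : 0 ≤ B ^ (k - 1) := pow_nonneg ((abs_nonneg x).trans hx) _
  exact (le_abs_self _).trans (h1.trans (mul_comm c _ ▸ mul_le_mul_of_nonneg_right h h2))

theorem posU (h : HB T z d w W lo hi wlo whi K1 K1f K2h K2l B Wb B0 cc wf)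
    (hz : ∀ j ∈ T, 0 < z j) : ∏ j ∈ T, z j - w ^ T.card ≤ B0 ^ (T.card - 1) / 2 * K2h * W := by
  obtain ⟨m, h0, h1, h2, -, h3, -, -, h4⟩ := mean h
  have h5 := amgm T z (h4 hz) (fun j hj => (hz j hj).le) h0
  rcases le_total w m with e | e
  · have := step h2 h1 e h3
    linarith
  · have h6 := pow_le_pow_left₀ (h4 hz).le e T.card
    have h7 : 0 ≤ B0 := (abs_nonneg _).trans h1
    have h8 : 0 ≤ B0 ^ (T.card - 1) / 2 * K2h * W :=
      mul_nonneg (mul_nonneg (by positivity) h.p2h) (W0 h)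
    linarith

theorem posD (h : HB T z d w W lo hi wlo whi K1 K1f K2h K2l B Wb B0 cc wf)
    (hz : ∀ j ∈ T, 0 < z j) : w ^ T.card - ∏ j ∈ T, z j ≤
      (B0 ^ (T.card - 1) / 2 * K2l + cc * (B0 ^ (T.card - 2) * K1 ^ 2)) * W := by
  obtain ⟨m, h0, h1, h2, hlo, -, h3, h4, h5⟩ := mean h
  have m0 := h5 hz
  have hW := W0 h
  have b0 : 0 ≤ B0 := (abs_nonneg _).trans h1
  have mB : m ≤ B0 := (le_abs_self _).trans h2
  obtain ⟨i, hi'⟩ := ne h
  have h6 : 0 ≤ B0 ^ (T.card - 1) / 2 * K2l * W :=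
    mul_nonneg (mul_nonneg (by positivity) h.p2l) hW
  have h7 : 0 ≤ B0 ^ (T.card - 2) * (K1 ^ 2 * W) := by positivity
  rcases lt_or_ge w 0 with w0 | w0
  · have c1 : 1 ≤ cc := by
      rcases h.hcc with c1 | c1 | c1
      · exact c1
      · linarith [c1.1, h.hwr.1]
      · linarith [c1.1, hz i hi', (h.hz i hi').2]
    have h8 : w ^ 2 ≤ K1 ^ 2 * W := by
      refine le_trans ?_ ((Finset.single_le_sum (f := fun j => (z j - w) ^ 2)
        (fun _ _ => sq_nonneg _) hi').trans (sq2 h))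
      nlinarith [hz i hi']
    have h9 : w ^ T.card ≤ B0 ^ (T.card - 2) * (K1 ^ 2 * W) := by
      obtain ⟨n, hn⟩ := Nat.exists_eq_add_of_le' h.k2
      rw [hn, Nat.add_sub_cancel, pow_add]
      exact mul_le_mul ((le_abs_self _).trans ((abs_pow w n).le.trans
        (pow_le_pow_left₀ (abs_nonneg _) h1 n))) h8 (sq_nonneg _) (by positivity)
    have h10 : 0 < ∏ j ∈ T, z j := Finset.prod_pos hz
    nlinarith [mul_le_mul_of_nonneg_right c1 h7]
  · obtain ⟨a, a0, a1, a2, a3⟩ : ∃ a : ℝ, 0 ≤ a ∧ a ≤ 1 ∧ (1 + a) / 2 ≤ cc ∧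
        ∀ j ∈ T, (1 - a) * m ≤ z j := by
      rcases h.hcc with c1 | c1 | c1
      · exact ⟨1, zero_le_one, le_rfl, by linarith, fun j hj => by simpa using (hz j hj).le⟩
      · have B1 : 0 < B0 := m0.trans_le mB
        have e1 : lo / B0 ≤ lo / m := div_le_div_of_nonneg_left c1.1.le m0 mB
        have e2 : 2 - 2 * cc ≤ lo / B0 := by
          rw [le_div_iff₀ B1]
          linarith [c1.2]
        refine ⟨1 - lo / m, sub_nonneg.2 ((div_le_one m0).2 hlo), ?_, by linarith, fun j hj => ?_⟩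
        · linarith [div_pos c1.1 m0]
        · rw [sub_sub_cancel, div_mul_cancel₀ _ m0.ne']
          exact (h.hz j hj).1
      · linarith [c1.1, hz i hi', (h.hz i hi').2]
    have h8 := prod_ge T h.k2 z m0 a0 a1 a3 h0
    have h9 : (1 + a) / 2 * (m ^ (T.card - 2) * ∑ j ∈ T, (z j - m) ^ 2) ≤
        cc * (B0 ^ (T.card - 2) * (K1 ^ 2 * W)) :=
      mul_le_mul a2 (mul_le_mul (pow_le_pow_left₀ m0.le mB _) h4
        (Finset.sum_nonneg fun _ _ => sq_nonneg _) (by positivity))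
        (mul_nonneg (by positivity) (Finset.sum_nonneg fun _ _ => sq_nonneg _)) (by linarith)
    rcases le_total m w with e | e
    · have := step h1 h2 e h3
      linarith
    · have := pow_le_pow_left₀ w0 e T.card
      linarith

theorem mixw (h : HB T z d w W lo hi wlo whi K1 K1f K2h K2l B Wb B0 cc wf) {i l : ι} (hi' : i ∈ T)
    (hl : l ∈ T) (zi : z i ≤ 0) (zl : 0 ≤ z l) :
    |w ^ T.card| ≤ Wb ^ (T.card - 2) * K1 ^ 2 * wf * W := by
  have hk : (0 : ℝ) < T.card := Nat.cast_pos.2 (ne h).card_pos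
  have h1 : ∀ j ∈ T, (z j - w) ^ 2 ≤ K1 ^ 2 * (wf * W) := fun j hj => by
    refine (sq1 h hj).trans (mul_le_mul_of_nonneg_left ?_ (sq_nonneg _))
    have h2 := sq_le T d h.d0 hj
    rw [← h.hW] at h2
    refine le_of_mul_le_mul_right ?_ hk
    nlinarith [mul_le_mul_of_nonneg_right h.hwf (W0 h)]
  have h2 : w ^ 2 ≤ K1 ^ 2 * (wf * W) := by
    rcases le_total w 0 with e | e
    · nlinarith [h1 l hl, mul_nonneg zl (neg_nonneg.2 e), sq_nonneg (z l)]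
    · nlinarith [h1 i hi', mul_nonneg (neg_nonneg.2 zi) e, sq_nonneg (z i)]
  have h3 : |w| ≤ Wb := abs_le.2 ⟨h.hWb.1.trans h.hw.1, h.hw.2.trans h.hWb.2⟩
  obtain ⟨n, hn⟩ := Nat.exists_eq_add_of_le' h.k2
  rw [hn, Nat.add_sub_cancel, abs_pow, pow_add, sq_abs, mul_assoc, mul_assoc]
  exact mul_le_mul (pow_le_pow_left₀ (abs_nonneg _) h3 n) h2 (sq_nonneg _)
    (pow_nonneg ((abs_nonneg _).trans h3) _)

theorem mixz (h : HB T z d w W lo hi wlo whi K1 K1f K2h K2l B Wb B0 cc wf) {i l : ι} (hi' : i ∈ T)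
    (hl : l ∈ T) (zi : z i < 0) (zl : 0 < z l) : ∃ S : Finset ι, S ⊆ T ∧ S.card + 2 = T.card ∧
      ∃ c : ℝ, 0 < c ∧ c ≤ K1f ^ 2 / 2 * W ∧ ∏ j ∈ T, z j = -(c * ∏ j ∈ S, z j) := by
  classical
  have hil : i ≠ l := fun e => by
    rw [e] at zi
    linarith
  have hl' : l ∈ T.erase i := Finset.mem_erase.2 ⟨hil.symm, hl⟩
  refine ⟨(T.erase i).erase l, (Finset.erase_subset _ _).trans (Finset.erase_subset _ _), ?_,
    -(z i * z l), neg_pos.2 (mul_neg_of_neg_of_pos zi zl), ?_, ?_⟩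
  · have h1 := Finset.card_erase_add_one hi'
    have h2 := Finset.card_erase_add_one hl'
    omega
  · have h1 := pow_le_pow_left₀ (abs_nonneg _) (h.hf i hi' l hl) 2
    rw [mul_pow, sq_abs, sq_abs] at h1
    have h2 := mul_le_mul_of_nonneg_left (pair_le T d hi' hl hil) (sq_nonneg K1f)
    rw [← h.hW] at h2
    nlinarith [sq_nonneg (z i + z l)]
  · rw [← Finset.mul_prod_erase T z hi', ← Finset.mul_prod_erase _ z hl']
    ring

theorem mixU (h : HB T z d w W lo hi wlo whi K1 K1f K2h K2l B Wb B0 cc wf) {i l : ι} (hi' : i ∈ T)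
    (hl : l ∈ T) (zi : z i ≤ 0) (zl : 0 ≤ z l) {ng m1 : ℝ} (hng : -lo ≤ ng)
    (hm1 : (T.card = 2 ∧ 0 ≤ m1) ∨ K1f ^ 2 / 2 * ng * B ^ (T.card - 3) ≤ m1) :
    ∏ j ∈ T, z j ≤ m1 * W := by
  classical
  have hW := W0 h
  have n0 : 0 ≤ ng := by linarith [(h.hz i hi').1]
  have b0 : 0 ≤ B := (abs_nonneg _).trans (absz h i hi')
  have m0 : 0 ≤ m1 := hm1.elim (fun e => e.2) fun e => le_trans (by positivity) e
  rcases le_or_gt (∏ j ∈ T, z j) 0 with e | e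
  · exact e.trans (mul_nonneg m0 hW)
  have nz := Finset.prod_ne_zero_iff.1 e.ne'
  obtain ⟨S, hS, hc, c, c0, c1, hP⟩ := mixz h hi' hl (lt_of_le_of_ne zi (nz i hi'))
    (lt_of_le_of_ne zl (nz l hl).symm)
  have h1 : ¬0 ≤ ∏ j ∈ S, z j := fun h1 => by linarith [mul_nonneg c0.le h1]
  obtain ⟨r, hr, zr⟩ : ∃ r ∈ S, z r < 0 := by
    by_contra h2
    push Not at h2
    exact h1 (Finset.prod_nonneg h2)
  have h2 := Finset.card_erase_add_one hr
  have h3 := abs_prod_le (S.erase r) z fun j hj => absz h j (hS (Finset.mem_of_mem_erase hj))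
  rw [show (S.erase r).card = T.card - 3 by omega] at h3
  have h4 : -z r * ∏ j ∈ S.erase r, z j ≤ ng * B ^ (T.card - 3) :=
    (mul_le_mul_of_nonneg_left ((le_abs_self _).trans h3) (neg_pos.2 zr).le).trans
      (mul_le_mul_of_nonneg_right (by linarith [(h.hz r (hS hr)).1]) (by positivity))
  have h5 := (hm1.resolve_left fun e => by omega)
  rw [hP, ← Finset.mul_prod_erase S z hr]
  have h6 := mul_le_mul_of_nonneg_left h4 c0.le
  have h7 := mul_le_mul_of_nonneg_right c1 (show 0 ≤ ng * B ^ (T.card - 3) by positivity)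
  have h8 := mul_le_mul_of_nonneg_right h5 hW
  linarith

theorem mixD (h : HB T z d w W lo hi wlo whi K1 K1f K2h K2l B Wb B0 cc wf) {i l : ι} (hi' : i ∈ T)
    (hl : l ∈ T) (zi : z i ≤ 0) (zl : 0 ≤ z l) :
    -∏ j ∈ T, z j ≤ K1f ^ 2 / 2 * B ^ (T.card - 2) * W := by
  have hW := W0 h
  have b0 : 0 ≤ B := (abs_nonneg _).trans (absz h i hi')
  rcases eq_or_ne (∏ j ∈ T, z j) 0 with e | e
  · rw [e, neg_zero]
    positivity
  have nz := Finset.prod_ne_zero_iff.1 e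
  obtain ⟨S, hS, hc, c, c0, c1, hP⟩ := mixz h hi' hl (lt_of_le_of_ne zi (nz i hi'))
    (lt_of_le_of_ne zl (nz l hl).symm)
  have h3 := abs_prod_le S z fun j hj => absz h j (hS hj)
  rw [show S.card = T.card - 2 by omega] at h3
  have h6 := mul_le_mul_of_nonneg_left ((le_abs_self _).trans h3) c0.le
  have h7 := mul_le_mul_of_nonneg_right c1 (show 0 ≤ B ^ (T.card - 2) by positivity)
  rw [hP]
  linarith

theorem tri (T : Finset ι) (z : ι → ℝ) : (∀ j ∈ T, 0 < z j) ∨ (∀ j ∈ T, 0 < -z j) ∨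
    ∃ i ∈ T, ∃ l ∈ T, z i ≤ 0 ∧ 0 ≤ z l := by
  by_contra h
  push Not at h
  obtain ⟨⟨i, hi, zi⟩, ⟨l, hl, zl⟩, h⟩ := h
  linarith [h i hi l hl zi]

end FHessX

open FHessX

theorem HB.up (h : HB T z d w W lo hi wlo whi K1 K1f K2h K2l B Wb B0 cc wf) {up ng : ℝ}
    (h0 : 0 ≤ up) (hng : -lo ≤ ng)
    (pos : ((∀ j ∈ T, 0 < z j) → ∏ j ∈ T, z j ≤ w ^ T.card) ∨ hi ≤ 0 ∨
      B0 ^ (T.card - 1) / 2 * K2h ≤ up)
    (neg : 0 ≤ lo ∨ (Even T.card ∧ B0 ^ (T.card - 1) / 2 * K2l ≤ up) ∨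
      (Odd T.card ∧ B0 ^ (T.card - 1) / 2 * K2h + cc * (B0 ^ (T.card - 2) * K1 ^ 2) ≤ up))
    {m1 m2 : ℝ} (hm1 : (T.card = 2 ∧ 0 ≤ m1) ∨ K1f ^ 2 / 2 * ng * B ^ (T.card - 3) ≤ m1)
    (hm2 : ((Even T.card ∨ 0 ≤ wlo) ∧ 0 ≤ m2) ∨ Wb ^ (T.card - 2) * K1 ^ 2 * wf ≤ m2)
    (mix : 0 < lo ∨ hi < 0 ∨ m1 + m2 ≤ up) :
    ∏ j ∈ T, z j - w ^ T.card ≤ up * W := by
  have hW := W0 h
  obtain ⟨r, hr⟩ := ne h
  rcases tri T z with hz | hz | ⟨i, hi', l, hl, zi, zl⟩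
  · rcases pos with e | e | e
    · linarith [e hz, mul_nonneg h0 hW]
    · linarith [hz r hr, (h.hz r hr).2]
    · exact (posU h hz).trans (mul_le_mul_of_nonneg_right e hW)
  · rcases neg with e | e | e
    · linarith [hz r hr, (h.hz r hr).1]
    · have h1 := posU (FHessX.neg h) hz
      rw [Finset.prod_neg, e.1.neg_pow w, e.1.neg_one_pow, one_mul] at h1
      exact h1.trans (mul_le_mul_of_nonneg_right e.2 hW)
    · have h1 := posD (FHessX.neg h) hz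
      rw [Finset.prod_neg, e.1.neg_pow w, e.1.neg_one_pow] at h1
      linarith [mul_le_mul_of_nonneg_right e.2 hW]
  · have h1 := mixU h hi' hl zi zl hng hm1
    have h2 : -w ^ T.card ≤ m2 * W := by
      rcases hm2 with ⟨e, e'⟩ | e
      · have : 0 ≤ w ^ T.card := e.elim (fun e => e.pow_nonneg w) fun e =>
          pow_nonneg (e.trans h.hw.1) _
        linarith [mul_nonneg e' hW]
      · exact (neg_le_abs _).trans ((mixw h hi' hl zi zl).trans (mul_le_mul_of_nonneg_right e hW))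
    rcases mix with e | e | e
    · linarith [(h.hz i hi').1]
    · linarith [(h.hz l hl).2]
    · linarith [mul_le_mul_of_nonneg_right e hW]

theorem HB.dn (h : HB T z d w W lo hi wlo whi K1 K1f K2h K2l B Wb B0 cc wf) {dn : ℝ}
    (h0 : 0 ≤ dn)
    (pos : hi ≤ 0 ∨ B0 ^ (T.card - 1) / 2 * K2l + cc * (B0 ^ (T.card - 2) * K1 ^ 2) ≤ dn)
    (neg : 0 ≤ lo ∨ (Odd T.card ∧ B0 ^ (T.card - 1) / 2 * K2l ≤ dn) ∨
      (Even T.card ∧ B0 ^ (T.card - 1) / 2 * K2h + cc * (B0 ^ (T.card - 2) * K1 ^ 2) ≤ dn))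
    {m2 : ℝ} (hm2 : (Odd T.card ∧ whi ≤ 0 ∧ 0 ≤ m2) ∨ Wb ^ (T.card - 2) * K1 ^ 2 * wf ≤ m2)
    (mix : 0 < lo ∨ hi < 0 ∨ K1f ^ 2 / 2 * B ^ (T.card - 2) + m2 ≤ dn) :
    w ^ T.card - ∏ j ∈ T, z j ≤ dn * W := by
  have hW := W0 h
  have _ := h0
  obtain ⟨r, hr⟩ := ne h
  rcases tri T z with hz | hz | ⟨i, hi', l, hl, zi, zl⟩
  · rcases pos with e | e
    · linarith [hz r hr, (h.hz r hr).2]
    · exact (posD h hz).trans (mul_le_mul_of_nonneg_right e hW)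
  · rcases neg with e | e | e
    · linarith [hz r hr, (h.hz r hr).1]
    · have h1 := posU (FHessX.neg h) hz
      rw [Finset.prod_neg, e.1.neg_pow w, e.1.neg_one_pow] at h1
      linarith [mul_le_mul_of_nonneg_right e.2 hW]
    · have h1 := posD (FHessX.neg h) hz
      rw [Finset.prod_neg, e.1.neg_pow w, e.1.neg_one_pow, one_mul] at h1
      exact h1.trans (mul_le_mul_of_nonneg_right e.2 hW)
  · have h1 := mixD h hi' hl zi zl
    have h2 : w ^ T.card ≤ m2 * W := by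
      rcases hm2 with ⟨e, e', e''⟩ | e
      · exact (e.pow_nonpos (h.hw.2.trans e')).trans (mul_nonneg e'' hW)
      · exact (le_abs_self _).trans ((mixw h hi' hl zi zl).trans (mul_le_mul_of_nonneg_right e hW))
    rcases mix with e | e | e
    · linarith [(h.hz i hi').1]
    · linarith [(h.hz l hl).2]
    · linarith [mul_le_mul_of_nonneg_right e hW]

theorem HB.three (h : HB T z d w W lo hi wlo whi K1 K1f K2h K2l B Wb B0 cc wf)
    (h3 : T.card = 3) {zn sW : ℝ} (hz0 : 0 ≤ zn) (hzn : K2l * W / 6 - wlo ≤ zn) (hs0 : 0 ≤ sW)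
    (hs : W ≤ sW ^ 2) : ∏ j ∈ T, z j - w ^ T.card ≤
      (B0 ^ 2 * K2h / 2 + zn * K1 ^ 2 / 2 + 0.1361 * K1 ^ 3 * sW) * W := by
  classical
  obtain ⟨m, h0, h1, h2, -, h4, h5, h6, -⟩ := mean h
  have hW := W0 h
  have p1 := h.p1
  have h7 : m ^ 3 - w ^ 3 ≤ B0 ^ 2 * (K2h * W / 2) := by
    rcases le_total w m with e | e
    · have := step h2 h1 e h4
      rwa [h3] at this
    · have h8 := (Odd.strictMono_pow (R := ℝ) (n := 3) (by decide)).monotone e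
      have h9 : 0 ≤ B0 ^ 2 * (K2h * W / 2) :=
        mul_nonneg (sq_nonneg _) (div_nonneg (mul_nonneg h.p2h hW) zero_le_two)
      linarith
  rw [h3] at h5 ⊢
  have h8 : -m ≤ zn := by
    push_cast at h5
    linarith [h.hw.1]
  obtain ⟨a, b, c, ab, ac, bc, rfl⟩ := Finset.card_eq_three.1 h3
  have n1 : a ∉ ({b, c} : Finset ι) := by simp [ab, ac]
  rw [Finset.sum_insert n1, Finset.sum_pair bc, ← add_assoc] at h0 h6
  rw [Finset.prod_insert n1, Finset.prod_pair bc]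
  have q0 : 0 ≤ (z a - m) ^ 2 + (z b - m) ^ 2 + (z c - m) ^ 2 := by positivity
  have h9 := cube_le (R := K1 ^ 3 * sW * W) h0 (by positivity) (by
    refine (pow_le_pow_left₀ q0 h6 3).trans ?_
    have := mul_le_mul_of_nonneg_left hs (show 0 ≤ K1 ^ 6 * W ^ 2 by positivity)
    nlinarith)
  have h10 := (mul_le_mul_of_nonneg_right h8 q0).trans (mul_le_mul_of_nonneg_left h6 hz0)
  have h11 : z a * (z b * z c) = m ^ 3 + -m * ((z a - m) ^ 2 + (z b - m) ^ 2 + (z c - m) ^ 2) / 2 +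
      (z a - m) * (z b - m) * (z c - m) := by
    linear_combination (m ^ 2 + m / 2 * (z a - m + (z b - m) + (z c - m))) * h0
  linarith

/-- A simple majorant of both quantities, used far out. -/
theorem HB.simple (h : HB T z d w W lo hi wlo whi K1 K1f K2h K2l B Wb B0 cc wf) :
    |∏ j ∈ T, z j - w ^ T.card| ≤
      (B ^ (T.card - 1) / 2 * max K2h K2l + B ^ (T.card - 2) * (K1 ^ 2 + K1f ^ 2 / 2)) * W := by
  have h' : HB T z d w W lo hi lo hi K1 K1f K2h K2l B B B 1 1 :=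
    ⟨h.k2, h.d0, h.hW, h.hz, h.hwr, h.hwr, h.h1, h.hf, h.h2l, h.h2h, h.p1, h.p1f, h.p2h, h.p2l,
      h.hB, h.hB, Or.inl le_rfl, Or.inl le_rfl, by linarith⟩
  obtain ⟨r, hr⟩ := ne h
  have b0 : 0 ≤ B := (abs_nonneg _).trans (absz h r hr)
  have a0 : 0 ≤ B ^ (T.card - 1) / 2 := by positivity
  have a1 := mul_le_mul_of_nonneg_left (le_max_left K2h K2l) a0
  have a2 := mul_le_mul_of_nonneg_left (le_max_right K2h K2l) a0
  have a3 := mul_nonneg a0 h.p2h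
  have a4 : 0 ≤ B ^ (T.card - 2) * K1 ^ 2 := by positivity
  have a5 : 0 ≤ B ^ (T.card - 2) * K1f ^ 2 := by positivity
  rw [abs_sub_le_iff]
  refine ⟨h'.up (ng := B) (m1 := K1f ^ 2 / 2 * B ^ (T.card - 2)) (by linarith) (neg_le.1 h.hB.1)
      (Or.inr (Or.inr (by linarith))) (Or.inr ((Nat.even_or_odd _).imp
        (fun e => ⟨e, by linarith⟩) fun e => ⟨e, by linarith⟩)) ?_ (Or.inr le_rfl)
      (Or.inr (Or.inr (by linarith))),
    h'.dn (by linarith) (Or.inr (by linarith)) (Or.inr ((Nat.even_or_odd _).symm.imp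
        (fun e => ⟨e, by linarith⟩) fun e => ⟨e, by linarith⟩)) (Or.inr le_rfl)
      (Or.inr (Or.inr (by linarith)))⟩
  rcases h.k2.eq_or_lt with e | e
  · exact Or.inl ⟨e.symm, by positivity⟩
  · refine Or.inr (le_of_eq ?_)
    rw [show T.card - 2 = T.card - 3 + 1 by omega, pow_succ]
    ring

end Pool.Agent.MP_39fec4_gt.Full
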