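import Pool.Agent.MP_39fec4_gt.BPhys

set_option autoImplicit false

namespace Pool.Agent.MP_39fec4_gt.Full

open MeasureTheory Set Real Ball Filter Topology
open scoped FourierTransform

variable {p : ℝ} {F : ℝ → ℝ}

/-- The hypotheses under which Poisson summation is applied. -/
structure PGood (F : ℝ → ℝ) : Prop where
  cont : Continuous F
  int : IntegrableOn F (Ioi 0)
  nn : ∀ x, 0 ≤ cosT F x
  dec : ∃ c, ∀ s, (1 + s ^ 2) * |F s| ≤ c
  fdec : ∃ c, ∀ x, (1 + x ^ 2) * cosT F x ≤ c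

namespace FPoisAX

theorem sq_ff (hp : 2 < p) : ∃ c, ∀ s, s ^ 2 * |ff p s| ≤ c := by
  set r1 : ℝ → ℝ := fun y => p * bp p * (p - 1) * W p (p - 2) y +
    -(p * bp p) ^ 2 * W p (2 * p - 2) y with hr1
  have i1 : IntegrableOn r1 (Ioi 0) :=
    ((int_W hp (by linarith)).const_mul _).add ((int_W hp (by linarith)).const_mul _)
  have hd : ∀ y, 0 < y → HasDerivAt (rho p) (r1 y) y := fun y hy => by
    have := ((Real.hasDerivAt_rpow_const (x := y) (p := p - 1) (Or.inl hy.ne')).mul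
      (hasDerivAt_K hp y)).const_mul (p * bp p)
    refine this.congr_deriv ?_
    simp only [hr1, rho, W]
    rw [show p - 1 - 1 = p - 2 by ring, show 2 * p - 2 = (p - 1) + (p - 1) by ring,
      Real.rpow_add hy]
    ring
  have h0 : Tendsto (rho p) (𝓝[>] 0) (𝓝 0) := by
    have c1 : Continuous fun y : ℝ => y ^ (p - 1) := Real.continuous_rpow_const (by linarith)
    have c2 := cont_K hp
    have c : Continuous (rho p) := by unfold rho W; fun_prop
    have := (c.tendsto 0).mono_left (nhdsWithin_le_nhds (s := Ioi 0))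
    rwa [show rho p 0 = 0 by simp [rho, W, Real.zero_rpow (by linarith : p - 1 ≠ 0)]] at this
  refine ⟨∫ y in Ioi (0 : ℝ), |r1 y|, fun s => ?_⟩
  have := parts_sin (int_rho0 hp) i1 hd h0 s
  rw [← x_mul_ff hp] at this
  calc s ^ 2 * |ff p s| = |s * (s * ff p s)| := by
        rw [← mul_assoc, abs_mul, abs_mul_self]; ring
    _ ≤ _ := by rw [this]; exact abs_cosT_le i1.abs (fun _ _ => le_rfl) s

theorem sq_K (hp : 2 < p) {y : ℝ} (hy : 0 ≤ y) : y ^ 2 * K p y ≤ 1 + 1 / bp p := by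
  have hb := bp_pos hp
  have hK := K_pos p y
  have h1 := K_le_one hp hy
  have h2 : 0 < 1 / bp p := by positivity
  rcases le_total y 1 with h | h
  · have : y ^ 2 ≤ 1 := pow_le_one₀ hy h
    nlinarith
  · have h3 := Real.rpow_le_rpow_of_exponent_le h hp.le
    rw [Real.rpow_two] at h3
    have h4 := Real.add_one_le_exp (bp p * y ^ p)
    have h5 : K p y * Real.exp (bp p * y ^ p) = 1 := by
      rw [K, ← Real.exp_add]; simp
    have h6 : bp p * (y ^ 2 * K p y) ≤ 1 := by
      have : bp p * y ^ 2 ≤ Real.exp (bp p * y ^ p) := by nlinarith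
      nlinarith
    have : y ^ 2 * K p y ≤ 1 / bp p := by rw [le_div_iff₀ hb]; linarith
    linarith

theorem shift (x t : ℝ) : 1 + x ^ 2 ≤ 2 * (1 + t ^ 2) * (1 + (x + t) ^ 2) := by
  nlinarith [sq_nonneg (x + 2 * t), sq_nonneg (t * (x + t)), sq_nonneg (x + t)]

theorem summ {G : ℝ → ℝ} {c a : ℝ} (ha : 0 < a) (h : ∀ s, (1 + s ^ 2) * |G s| ≤ c) :
    Summable fun m : ℕ => G ((m + 1) * a) := by
  have h1 : Summable fun m : ℕ => c / a ^ 2 * (1 / ((m + 1 : ℕ) : ℝ) ^ 2) :=
    ((summable_nat_add_iff 1).2 (Real.summable_one_div_nat_pow.2 one_lt_two)).mul_left _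
  refine Summable.of_norm_bounded h1 fun m => ?_
  have h2 := h ((m + 1) * a)
  have h3 := abs_nonneg (G ((m + 1) * a))
  rw [Real.norm_eq_abs, div_mul_div_comm, mul_one, le_div_iff₀ (by positivity)]
  push_cast
  nlinarith

theorem hasSum_even {G : ℝ → ℝ} {c a : ℝ} (ha : 0 < a) (h : ∀ s, (1 + s ^ 2) * |G s| ≤ c) :
    HasSum (fun n : ℤ => G (|(n : ℝ)| * a)) (G 0 + 2 * ∑' m : ℕ, G ((m + 1) * a)) := by
  have h1 := (summ ha h).hasSum
  have := HasSum.of_add_one_of_neg_add_one (f := fun n : ℤ => G (|(n : ℝ)| * a))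
    (m := ∑' m : ℕ, G ((m + 1) * a)) (m' := ∑' m : ℕ, G ((m + 1) * a))
    (by
      convert h1 using 2 with m
      push_cast
      rw [abs_of_nonneg (by positivity)])
    (by
      convert h1 using 2 with m
      push_cast
      rw [abs_neg, abs_of_nonneg (by positivity)])
  convert this using 1
  simp
  ring

end FPoisAX

open FPoisAX

theorem pgood_one (hp : 2 < p) {α : ℝ} (hα : 0 < α) : PGood fun s => ff p (α * s) := by
  have hπ := Real.pi_pos
  refine ⟨(cont_ff hp).comp (by fun_prop), int_scale (int_ff hp) hα, fun x => ?_, ?_, ?_⟩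
  · rw [one_phys hp hα]
    have := K_pos p (|x| / α)
    positivity
  · obtain ⟨c, hc⟩ := sq_ff hp
    refine ⟨1 + c / α ^ 2, fun s => ?_⟩
    have h1 := abs_ff_le hp (α * s)
    have h2 : s ^ 2 * |ff p (α * s)| ≤ c / α ^ 2 := by
      rw [le_div_iff₀ (by positivity)]
      have := hc (α * s)
      nlinarith
    nlinarith
  · refine ⟨π / (2 * α) * (1 + α ^ 2 * (1 + 1 / bp p)), fun x => ?_⟩
    rw [one_phys hp hα, mul_left_comm]
    refine mul_le_mul_of_nonneg_left ?_ (by positivity)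
    have h0 : 0 ≤ |x| / α := by positivity
    have h1 := K_le_one hp h0
    have h2 := mul_le_mul_of_nonneg_left (sq_K hp h0) (sq_nonneg α)
    have h3 : α ^ 2 * ((|x| / α) ^ 2 * K p (|x| / α)) = x ^ 2 * K p (|x| / α) := by
      rw [div_pow, sq_abs]; field_simp
    linarith

theorem PGood.mul (hp : 2 < p) (hF : PGood F) (a : ℝ) : PGood fun s => F s * ff p (a * s) := by
  have c0 := cont_ff hp
  have c1 := hF.cont
  refine ⟨by fun_prop, int_mul_ff hp hF.int a, fun x => ?_, ?_, ?_⟩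
  · rw [step hp hF.int]
    refine integral_nonneg fun y => ?_
    have := K_pos p y
    have := hF.nn (x + a * y)
    have := hF.nn (x - a * y)
    simp only [Pi.zero_apply]
    positivity
  · obtain ⟨c, hc⟩ := hF.dec
    refine ⟨c, fun s => le_trans ?_ (hc s)⟩
    rw [abs_mul]
    exact mul_le_mul_of_nonneg_left
      (mul_le_of_le_one_right (abs_nonneg _) (abs_ff_le hp _)) (by positivity)
  · obtain ⟨c, hc⟩ := hF.fdec
    refine ⟨∫ y in Ioi (0 : ℝ), (2 * c * K p y + 2 * c * a ^ 2 * (y ^ 2 * K p y)), fun x => ?_⟩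
    rw [step hp hF.int, ← integral_const_mul]
    refine (le_abs_self _).trans (abs_integral_le
      (((int_K0 hp).const_mul _).add ((int_K hp 2).const_mul _)) fun y _ => ?_)
    have hK := K_pos p y
    have n1 := hF.nn (x + a * y)
    have n2 := hF.nn (x - a * y)
    have key : ∀ t : ℝ, (1 + x ^ 2) * cosT F (x + t) ≤ 2 * (1 + t ^ 2) * c := fun t =>
      calc _ ≤ 2 * (1 + t ^ 2) * (1 + (x + t) ^ 2) * cosT F (x + t) :=
            mul_le_mul_of_nonneg_right (shift x t) (hF.nn _)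
        _ ≤ _ := by
            rw [mul_assoc (2 * (1 + t ^ 2))]
            exact mul_le_mul_of_nonneg_left (hc _) (by positivity)
    have k1 := key (a * y)
    have k2 := key (-(a * y))
    rw [← sub_eq_add_neg, neg_sq] at k2
    rw [abs_of_nonneg (by positivity)]
    have := mul_le_mul_of_nonneg_left (add_le_add k1 k2) hK.le
    nlinarith

theorem PGood.mul_pow (hp : 2 < p) (hF : PGood F) (a : ℝ) (k : ℕ) :
    PGood fun s => F s * ff p (a * s) ^ k := by
  induction k with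
  | zero => simpa using hF
  | succ k ih =>
    have := ih.mul hp a
    simpa only [pow_succ, mul_assoc] using this

theorem pgood_pow (hp : 2 < p) {α : ℝ} (hα : 0 < α) {N : ℕ} (hN : 1 ≤ N) :
    PGood fun s => ff p (α * s) ^ N := by
  obtain ⟨k, rfl⟩ : ∃ k, N = k + 1 := ⟨N - 1, by omega⟩
  simpa only [pow_succ'] using (pgood_one hp hα).mul_pow hp α k

theorem PGood.mul_prod (hp : 2 < p) (hF : PGood F) {ι : Type*} [DecidableEq ι] (T : Finset ι)
    (a : ι → ℝ) : PGood fun s => F s * ∏ j ∈ T, ff p (a j * s) := by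
  induction T using Finset.induction_on with
  | empty => simpa using hF
  | insert j T hj ih =>
    have e : (fun s => F s * ∏ j ∈ insert j T, ff p (a j * s)) =
        fun s => (F s * ∏ j ∈ T, ff p (a j * s)) * ff p (a j * s) := by
      funext s; rw [Finset.prod_insert hj]; ring
    rw [e]
    exact ih.mul hp _

theorem pgood_prod (hp : 2 < p) {ι : Type*} [DecidableEq ι] (T : Finset ι) (a : ι → ℝ) {i : ι}
    (hi : i ∈ T) (ha : 0 < a i) : PGood fun s => ∏ j ∈ T, ff p (a j * s) := by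
  simp only [← Finset.mul_prod_erase T _ hi]
  exact (pgood_one hp ha).mul_prod hp _ a

/-- Poisson summation on the half line. -/
theorem PGood.poisson (hF : PGood F) {h : ℝ} (hh : 0 < h) :
    (Summable fun m : ℕ => F ((m + 1) * h)) ∧
      (Summable fun k : ℕ => cosT F (2 * π * (k + 1) / h)) ∧
      h * (F 0 / 2 + ∑' m : ℕ, F ((m + 1) * h)) =
        (∫ s in Ioi (0 : ℝ), F s) + 2 * ∑' k : ℕ, cosT F (2 * π * (k + 1) / h) := by
  have hπ := Real.pi_pos
  obtain ⟨c, hc⟩ := hF.dec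
  obtain ⟨c', hc'⟩ := hF.fdec
  have hc2 : ∀ x, (1 + x ^ 2) * |cosT F x| ≤ c' := fun x => by
    rw [abs_of_nonneg (hF.nn x)]; exact hc' x
  have ha : 0 < 2 * π / h := by positivity
  have e0 : ∀ k : ℕ, 2 * π * (k + 1) / h = (k + 1) * (2 * π / h) := fun k => by ring
  simp only [e0]
  refine ⟨summ hh hc, summ ha hc2, ?_⟩
  have s1 := hasSum_even hh hc
  have s2 := hasSum_even ha hc2
  have hk : IntegrableOn (fun s => F (h * s)) (Ioi 0) := int_scale hF.int hh
  have hf : ∀ w : ℝ, 𝓕 (fun x : ℝ => ((F (h * |x|) : ℝ) : ℂ)) w =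
      ((2 / h * cosT F (|w| * (2 * π / h)) : ℝ) : ℂ) := fun w => by
    rw [fourier_even hk w]
    congr 1
    have := integral_scale (fun t => F t * Real.cos (w * (2 * π / h) * t)) hh
    rw [← cosT] at this
    rw [← abs_of_pos ha, ← abs_mul, cosT_abs, show 2 / h * cosT F (w * (2 * π / h)) =
      2 * (cosT F (w * (2 * π / h)) / h) by ring, ← this]
    congr 2
    funext s
    congr 2
    field_simp
  have c1 := hF.cont
  have hP := Real.tsum_eq_tsum_fourier_of_rpow_decay_of_summable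
    (f := fun x : ℝ => ((F (h * |x|) : ℝ) : ℂ)) (by fun_prop) (b := 2) one_lt_two ?_ ?_ 0
  · simp only [hf, zero_add, QuotientAddGroup.mk_zero, fourier_eval_zero, mul_one] at hP
    rw [← Complex.ofReal_tsum, ← Complex.ofReal_tsum, Complex.ofReal_inj, tsum_mul_left,
      s2.tsum_eq, cosT_zero] at hP
    simp only [mul_comm h] at hP
    rw [s1.tsum_eq, div_mul_eq_mul_div, eq_div_iff hh.ne'] at hP
    linarith
  · refine Asymptotics.IsBigO.of_bound (c / h ^ 2) ?_
    have : ∀ᶠ x : ℝ in cocompact ℝ, x ≠ 0 :=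
      (isCompact_singleton (x := (0 : ℝ))).compl_mem_cocompact
    filter_upwards [this] with x hx
    have hx' : 0 < |x| := abs_pos.2 hx
    have h2 := hc (h * |x|)
    have h3 := abs_nonneg (F (h * |x|))
    rw [Complex.norm_real, Real.norm_eq_abs, Real.norm_eq_abs, Real.rpow_neg hx'.le,
      Real.rpow_two, abs_of_pos (by positivity : 0 < (|x| ^ 2)⁻¹), ← div_eq_mul_inv, div_div,
      le_div_iff₀ (by positivity)]
    nlinarith
  · simp only [hf]
    exact Complex.summable_ofReal.2 (s2.summable.mul_left _)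

/-- The tail of the sum under a quadratic and cubic decay bound. -/
theorem tail_le {G : ℝ → ℝ} {h A2 A3 : ℝ} {M : ℕ} (hM : 1 ≤ M) (hh : 0 < h) (hA2 : 0 ≤ A2)
    (hA3 : 0 ≤ A3) (hG : Summable fun m : ℕ => G ((m + 1) * h))
    (tail : ∀ s, M * h ≤ s → G s ≤ A2 * (M * h / s) ^ 2 + A3 * (M * h / s) ^ 3) :
    ∑' m : ℕ, G ((m + 1) * h) ≤ ∑ m ∈ Finset.range M, G ((m + 1) * h) + (A2 + A3 / 2) * M := by
  have hM' : (1 : ℝ) ≤ M := by exact_mod_cast hM
  rw [← hG.sum_add_tsum_nat_add M]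
  refine add_le_add le_rfl (((summable_nat_add_iff M).2 hG).tsum_le_of_sum_range_le fun n => ?_)
  have key : ∑ i ∈ Finset.range n, G ((((i + M : ℕ) : ℝ) + 1) * h) ≤ (A2 + A3 / 2) * M -
      (A2 * (M ^ 2 / (n + M)) + A3 * (M ^ 3 / (2 * (n + M) ^ 2))) := by
    induction n with
    | zero =>
      simp only [Finset.range_zero, Finset.sum_empty, Nat.cast_zero, zero_add]
      apply le_of_eq
      field_simp
      ring
    | succ n ih =>
      rw [Finset.sum_range_succ]
      obtain ⟨u, hu⟩ : ∃ u : ℝ, u = n + M := ⟨_, rfl⟩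
      have hu1 : 1 ≤ u := by rw [hu]; linarith [Nat.cast_nonneg (α := ℝ) n]
      have t := tail ((u + 1) * h) (by
        rw [hu]; gcongr; linarith [Nat.cast_nonneg (α := ℝ) n])
      rw [mul_div_mul_right _ _ hh.ne'] at t
      have e1 : ((n + M : ℕ) : ℝ) = u := by rw [hu]; push_cast; ring
      have e2 : ((n + 1 : ℕ) : ℝ) + M = u + 1 := by rw [hu]; push_cast; ring
      rw [← hu] at ih
      rw [e1, e2]
      have b2 : ((M : ℝ) / (u + 1)) ^ 2 ≤ M ^ 2 / u - M ^ 2 / (u + 1) := by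
        have : (M : ℝ) ^ 2 / u - M ^ 2 / (u + 1) = M ^ 2 / (u * (u + 1)) := by
          field_simp; ring
        rw [this, div_pow]
        exact div_le_div_of_nonneg_left (by positivity) (by positivity) (by nlinarith)
      have b3 : ((M : ℝ) / (u + 1)) ^ 3 ≤ M ^ 3 / (2 * u ^ 2) - M ^ 3 / (2 * (u + 1) ^ 2) := by
        have : (M : ℝ) ^ 3 / (2 * u ^ 2) - M ^ 3 / (2 * (u + 1) ^ 2) - (M / (u + 1)) ^ 3 =
            M ^ 3 * (3 * u + 1) / (2 * u ^ 2 * (u + 1) ^ 3) := by
          field_simp; ring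
        have h0 : 0 ≤ (M : ℝ) ^ 3 * (3 * u + 1) / (2 * u ^ 2 * (u + 1) ^ 3) := by positivity
        linarith
      have := mul_le_mul_of_nonneg_left b2 hA2
      have := mul_le_mul_of_nonneg_left b3 hA3
      nlinarith
  refine key.trans (sub_le_self _ ?_)
  positivity

theorem tail_ge {G : ℝ → ℝ} {h A2 A3 : ℝ} {M : ℕ} (hM : 1 ≤ M) (hh : 0 < h) (hA2 : 0 ≤ A2)
    (hA3 : 0 ≤ A3) (hG : Summable fun m : ℕ => G ((m + 1) * h))
    (tail : ∀ s, M * h ≤ s → -(A2 * (M * h / s) ^ 2 + A3 * (M * h / s) ^ 3) ≤ G s) :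
    ∑ m ∈ Finset.range M, G ((m + 1) * h) - (A2 + A3 / 2) * M ≤ ∑' m : ℕ, G ((m + 1) * h) := by
  have := tail_le (G := fun s => -G s) hM hh hA2 hA3 hG.neg fun s hs => by
    linarith [tail s hs]
  rw [tsum_neg, Finset.sum_neg_distrib] at this
  linarith

end Pool.Agent.MP_39fec4_gt.Full
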