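import Pool.Agent.MP_39fec4_gt.BPhys

set_option autoImplicit false

namespace Pool.Agent.MP_39fec4_gt.Full.FPoisLX

open MeasureTheory Set Real Ball Filter Topology
open scoped FourierTransform

variable {p : ℝ}

theorem K_gauss (hp : 2 < p) (hZ : 0.81 ≤ Zp p) {y : ℝ} (hy : 0 ≤ y) :
    K p y ≤ Real.exp 1 * Real.exp (-0.6561 * y ^ 2) := by
  have h0 : 0 ≤ Zp p * y := mul_nonneg (by linarith) hy
  have h1 : 0.81 * y ≤ Zp p * y := mul_le_mul_of_nonneg_right hZ hy
  have h2 : (0.81 * y) ^ 2 ≤ (Zp p * y) ^ 2 := pow_le_pow_left₀ (by positivity) h1 2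
  rw [K, bp, neg_mul, ← Real.mul_rpow (by linarith) hy, ← Real.exp_add, Real.exp_le_exp]
  rcases le_total (Zp p * y) 1 with h | h
  · have : 0 ≤ (Zp p * y) ^ p := by positivity
    nlinarith
  · have := Real.rpow_le_rpow_of_exponent_le h hp.le
    rw [Real.rpow_two] at this
    nlinarith

theorem half_line {f : ℝ → ℝ} (hf : Integrable f) :
    ∫ y in Ioi (0 : ℝ), (f y + f (-y)) = ∫ y, f y := by
  rw [integral_add hf.integrableOn hf.comp_neg.integrableOn, integral_comp_neg_Ioi, neg_zero,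
    add_comm, intervalIntegral.integral_Iic_add_Ioi hf.integrableOn hf.integrableOn]

theorem gauss_step (hp : 2 < p) (hZ : 0.81 ≤ Zp p) {h : ℝ → ℝ} (hh : IntegrableOn h (Ioi 0))
    {a c m : ℝ} (ha : 0 < a) (hc : 0 ≤ c) (hm : 0 < m)
    (hb : ∀ x, |cosT h x| ≤ c / √m * Real.exp (-0.6561 * (x / a) ^ 2 / m)) (x : ℝ) :
    |cosT (fun s => h s * ff p (a * s)) x| ≤
      3 * c / √(m + 1) * Real.exp (-0.6561 * (x / a) ^ 2 / (m + 1)) := by
  obtain ⟨b, hb'⟩ : ∃ b : ℝ, b = 0.6561 * (m + 1) / m := ⟨_, rfl⟩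
  have hb0 : 0 < b := by rw [hb']; positivity
  obtain ⟨E, hE⟩ : ∃ E : ℝ, E = Real.exp (-0.6561 * (x / a) ^ 2 / (m + 1)) := ⟨_, rfl⟩
  have hE0 : 0 < E := hE ▸ Real.exp_pos _
  have sm : 0 < √m := Real.sqrt_pos.2 hm
  have sm1 : 0 < √(m + 1) := Real.sqrt_pos.2 (by linarith)
  obtain ⟨f, hf⟩ : ∃ f : ℝ → ℝ, f = fun y =>
      Real.exp 1 / 2 * (c / √m) * E * Real.exp (-b * (y + x / a / (m + 1)) ^ 2) := ⟨_, rfl⟩
  have fi : Integrable f := by
    rw [hf]
    exact ((integrable_exp_neg_mul_sq hb0).comp_add_right _).const_mul _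
  have fv : ∫ y, f y = Real.exp 1 / 2 * (c / √m) * E * √(π / b) := by
    rw [hf, integral_const_mul,
      integral_add_right_eq_self (fun y => Real.exp (-b * y ^ 2)), integral_gaussian]
  have key : ∀ y t : ℝ, 0 ≤ y → t ^ 2 = y ^ 2 → K p y * |cosT h (x + a * t)| ≤ 2 * f t := by
    intro y t hy ht
    refine (mul_le_mul (K_gauss hp hZ hy) (hb _) (abs_nonneg _) (by positivity)).trans_eq ?_
    have e : Real.exp (-0.6561 * y ^ 2) * Real.exp (-0.6561 * ((x + a * t) / a) ^ 2 / m) =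
        E * Real.exp (-b * (t + x / a / (m + 1)) ^ 2) := by
      rw [hE, ← Real.exp_add, ← Real.exp_add, ← ht, hb']
      congr 1
      field_simp
      ring
    rw [hf]
    linear_combination Real.exp 1 * (c / √m) * e
  rw [step hp hh, ← hE]
  refine (abs_integral_le (g := fun y => f y + f (-y))
    (fi.integrableOn.add fi.comp_neg.integrableOn) fun y hy => ?_).trans ?_
  · have k1 := key y y hy.le rfl
    have k2 := key y (-y) hy.le (by ring)
    rw [mul_neg, ← sub_eq_add_neg] at k2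
    have k0 := K_pos p y
    rw [abs_mul, abs_of_pos k0, abs_div, abs_two]
    have := mul_le_mul_of_nonneg_left (abs_add_le (cosT h (x + a * y)) (cosT h (x - a * y))) k0.le
    linarith
  · rw [half_line fi, fv]
    have e1 : √(π / b) = √π * √m / (0.81 * √(m + 1)) := by
      rw [hb', show π / (0.6561 * (m + 1) / m) = π * m / (0.81 ^ 2 * (m + 1)) by
        field_simp; norm_num, Real.sqrt_div (by positivity), Real.sqrt_mul Real.pi_pos.le,
        Real.sqrt_mul (by positivity), Real.sqrt_sq (by norm_num)]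
    have e2 : √π ≤ 1.7725 := Real.sqrt_le_iff.2 ⟨by norm_num, by linarith [Real.pi_lt_d6]⟩
    have e3 := Real.exp_one_lt_d9
    have e4 : Real.exp 1 * √π ≤ 2.7182818286 * 1.7725 :=
      mul_le_mul e3.le e2 (Real.sqrt_nonneg _) (by norm_num)
    rw [e1, show Real.exp 1 / 2 * (c / √m) * E * (√π * √m / (0.81 * √(m + 1))) =
      Real.exp 1 * √π / 1.62 * (c / √(m + 1) * E) by field_simp; ring,
      show 3 * c / √(m + 1) * E = 3 * (c / √(m + 1) * E) by ring]
    refine mul_le_mul_of_nonneg_right ?_ (by positivity)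
    rw [div_le_iff₀ (by norm_num)]
    linarith

theorem gauss_pow (hp : 2 < p) (hZ : 0.81 ≤ Zp p) {a : ℝ} (ha : 0 < a) (n : ℕ) :
    IntegrableOn (fun s => ff p (a * s) ^ (n + 1)) (Ioi 0) ∧ ∀ x,
      |cosT (fun s => ff p (a * s) ^ (n + 1)) x| ≤ 3 ^ n * (4.5 / a) / √((n : ℝ) + 1) *
        Real.exp (-0.6561 * (x / a) ^ 2 / ((n : ℝ) + 1)) := by
  induction n with
  | zero =>
    simp only [zero_add, pow_one, pow_zero, Nat.cast_zero, Real.sqrt_one, div_one, one_mul]
    refine ⟨int_scale (int_ff hp) ha, fun x => ?_⟩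
    have k0 := K_pos p (|x| / a)
    have k1 := K_gauss hp hZ (y := |x| / a) (by positivity)
    have hπ := Real.pi_pos
    rw [one_phys hp ha, abs_of_pos (by positivity)]
    rw [div_pow, sq_abs, ← div_pow] at k1
    refine (mul_le_mul_of_nonneg_left k1 (by positivity)).trans ?_
    rw [← mul_assoc]
    refine mul_le_mul_of_nonneg_right ?_ (Real.exp_pos _).le
    have e4 : π * Real.exp 1 ≤ 3.15 * 2.7182818286 :=
      mul_le_mul Real.pi_lt_d2.le Real.exp_one_lt_d9.le (Real.exp_pos _).le (by norm_num)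
    rw [show π / (2 * a) * Real.exp 1 = π * Real.exp 1 / 2 / a by field_simp]
    exact div_le_div_of_nonneg_right (by linarith) ha.le
  | succ n ih =>
    simp only [pow_succ _ (n + 1)]
    refine ⟨int_mul_ff hp ih.1 a, fun x => ?_⟩
    have := gauss_step hp hZ ih.1 ha (by positivity) (by positivity) ih.2 x
    push_cast
    rw [pow_succ 3 n, mul_comm (3 ^ n) 3, mul_assoc 3]
    exact this

/-- Poisson summation for an even function given on the half line. -/
theorem poisson {F : ℝ → ℝ} (hc : Continuous F) (hi : IntegrableOn F (Ioi 0)) {B : ℝ}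
    (hd : ∀ s, 0 < s → |F s| * s ^ 3 ≤ B)
    (hs : Summable fun k : ℕ => cosT F (2 * π * (k + 1))) :
    ∃ S, HasSum (fun m : ℕ => F (m + 1)) S ∧
      F 0 / 2 + S = cosT F 0 + 2 * ∑' k : ℕ, cosT F (2 * π * (k + 1)) := by
  have hO : (fun x : ℝ => F |x|) =O[cocompact ℝ] fun x : ℝ => |x| ^ (-(3 : ℝ)) := by
    refine Asymptotics.IsBigO.of_bound B ?_
    filter_upwards [(isCompact_singleton (x := (0 : ℝ))).compl_mem_cocompact] with x hx
    have hx0 : 0 < |x| := abs_pos.2 hx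
    rw [Real.norm_eq_abs, Real.norm_eq_abs, Real.rpow_neg hx0.le, Real.rpow_ofNat,
      abs_of_pos (a := (|x| ^ 3)⁻¹) (by positivity), ← div_eq_mul_inv, le_div_iff₀ (by positivity)]
    exact hd _ hx0
  have s1 : Summable fun n : ℤ => F |(n : ℝ)| :=
    summable_of_isBigO (Real.summable_abs_int_rpow (by norm_num : (1 : ℝ) < 3))
      (hO.comp_tendsto Int.tendsto_coe_cofinite)
  have s2 : Summable fun m : ℕ => F (m + 1) := by
    have := s1.comp_injective (i := fun m : ℕ => (m : ℤ) + 1)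
      (fun a b h => by simpa using h)
    refine this.congr fun m => ?_
    simp only [Function.comp]
    push_cast
    rw [abs_of_pos (by positivity)]
  have H1 : HasSum (fun n : ℤ => F |(n : ℝ)|)
      (∑' m : ℕ, F (m + 1) + F |((0 : ℤ) : ℝ)| + ∑' m : ℕ, F (m + 1)) := by
    refine HasSum.of_add_one_of_neg_add_one (f := fun n : ℤ => F |(n : ℝ)|) ?_ ?_
    · convert s2.hasSum using 2 with m
      push_cast
      rw [abs_of_pos (by positivity)]
    · convert s2.hasSum using 2 with m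
      push_cast
      rw [abs_neg, abs_of_pos (by positivity)]
  have H2 : HasSum (fun n : ℤ => cosT F (2 * π * n))
      (∑' k : ℕ, cosT F (2 * π * (k + 1)) + cosT F (2 * π * ((0 : ℤ) : ℝ)) +
        ∑' k : ℕ, cosT F (2 * π * (k + 1))) := by
    refine HasSum.of_add_one_of_neg_add_one (f := fun n : ℤ => cosT F (2 * π * n)) ?_ ?_
    · convert hs.hasSum using 2 with m
      push_cast
      rfl
    · convert hs.hasSum using 2 with m
      push_cast
      rw [← cosT_abs, mul_neg, abs_neg, cosT_abs]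
  have hF : ∀ w : ℝ, 𝓕 (fun x : ℝ => (F |x| : ℂ)) w = ((2 * cosT F (2 * π * w) : ℝ) : ℂ) :=
    fun w => fourier_even hi w
  have P := Real.tsum_eq_tsum_fourier_of_rpow_decay_of_summable
    (f := fun x : ℝ => (F |x| : ℂ)) (by fun_prop) (b := 3) (by norm_num)
    (Complex.isBigO_ofReal_left.2 hO) (by
      simp only [hF]
      exact Complex.summable_ofReal.2 (H2.summable.mul_left 2)) 0
  simp only [hF, zero_add, QuotientAddGroup.mk_zero, fourier_eval_zero, mul_one,
    ← Complex.ofReal_tsum, Complex.ofReal_inj] at P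
  rw [H1.tsum_eq, (H2.mul_left 2).tsum_eq] at P
  simp only [Int.cast_zero, abs_zero, mul_zero] at P
  exact ⟨_, s2.hasSum, by linarith⟩

theorem tail_lo {u : ℕ → ℝ} {S A2 A3 : ℝ} (hS : HasSum u S) {M : ℕ} (hM : 1 ≤ M) (hA2 : 0 ≤ A2)
    (hA3 : 0 ≤ A3) (ht : ∀ m : ℕ, M ≤ m →
      -(A2 * ((M : ℝ) / (m + 1)) ^ 2 + A3 * ((M : ℝ) / (m + 1)) ^ 3) ≤ u m) :
    ∑ m ∈ Finset.range M, u m - (A2 + A3 / 2) * M ≤ S := by
  have hM0 : (1 : ℝ) ≤ M := by exact_mod_cast hM
  have key : ∀ n : ℕ, M ≤ n → ∑ m ∈ Finset.range M, u m - (A2 + A3 / 2) * M +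
      (A2 * (M ^ 2 * (1 / n)) + A3 * (M ^ 3 * (1 / (2 * n ^ 2)))) ≤
        ∑ m ∈ Finset.range n, u m := by
    intro n hn
    induction n, hn using Nat.le_induction with
    | base =>
      have : A2 * (M ^ 2 * (1 / M)) + A3 * (M ^ 3 * (1 / (2 * M ^ 2))) = (A2 + A3 / 2) * M := by
        field_simp
      linarith
    | succ n hn ih =>
      have hn0 : (1 : ℝ) ≤ n := hM0.trans (by exact_mod_cast hn)
      have a1 : 1 / ((n : ℝ) + 1) + (1 / (n + 1)) ^ 2 ≤ 1 / n := by
        rw [← sub_nonneg, show 1 / (n : ℝ) - (1 / (n + 1) + (1 / (n + 1)) ^ 2) =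
          1 / (n * (n + 1) ^ 2) by field_simp; ring]
        positivity
      have a2 : 1 / (2 * ((n : ℝ) + 1) ^ 2) + (1 / (n + 1)) ^ 3 ≤ 1 / (2 * n ^ 2) := by
        rw [← sub_nonneg, show 1 / (2 * (n : ℝ) ^ 2) - (1 / (2 * (n + 1) ^ 2) + (1 / (n + 1)) ^ 3) =
          (3 * n + 1) / (2 * n ^ 2 * (n + 1) ^ 3) by field_simp; ring]
        positivity
      have b1 := mul_le_mul_of_nonneg_left a1 (by positivity : 0 ≤ A2 * (M : ℝ) ^ 2)
      have b2 := mul_le_mul_of_nonneg_left a2 (by positivity : 0 ≤ A3 * (M : ℝ) ^ 3)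
      have := ht n hn
      rw [div_eq_mul_one_div (M : ℝ), mul_pow, mul_pow] at this
      rw [Finset.sum_range_succ]
      push_cast
      linarith
  refine ge_of_tendsto hS.tendsto_sum_nat ?_
  filter_upwards [eventually_ge_atTop M] with n hn
  have : 0 ≤ A2 * (M ^ 2 * (1 / n)) + A3 * (M ^ 3 * (1 / (2 * (n : ℝ) ^ 2))) := by positivity
  linarith [key n hn]

theorem geo {u : ℕ → ℝ} {c A : ℝ} (hc : 0 ≤ c) (hA : 2 ≤ A)
    (hu : ∀ k : ℕ, |u k| ≤ c * Real.exp (-(A * (k + 1)) ^ 2)) :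
    Summable u ∧ ∑' k, u k ≤ 5 / 4 * c * Real.exp (-A ^ 2) := by
  have h5 : Real.exp (-A ^ 2) ≤ 1 / 5 := by
    have := Real.add_one_le_exp (A ^ 2)
    rw [Real.exp_neg, ← one_div]
    exact one_div_le_one_div_of_le (by norm_num) (by nlinarith)
  have hb : ∀ k : ℕ, |u k| ≤ c * Real.exp (-A ^ 2) * (1 / 5) ^ k := fun k => by
    refine (hu k).trans ?_
    rw [mul_assoc]
    refine mul_le_mul_of_nonneg_left ?_ hc
    refine le_trans ?_ (mul_le_mul_of_nonneg_left
      (pow_le_pow_left₀ (Real.exp_pos _).le h5 k) (Real.exp_pos _).le)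
    rw [← Real.exp_nat_mul, ← Real.exp_add, Real.exp_le_exp]
    have hk : (0 : ℝ) ≤ k := Nat.cast_nonneg k
    have : 0 ≤ A ^ 2 * (k * (k + 1)) := by positivity
    nlinarith
  have hg := (hasSum_geometric_of_lt_one (r := (1 / 5 : ℝ)) (by norm_num) (by norm_num)).mul_left
    (c * Real.exp (-A ^ 2))
  have su : Summable u := Summable.of_norm_bounded hg.summable hb
  refine ⟨su, (hasSum_le (fun k => (le_abs_self _).trans (hb k)) su.hasSum hg).trans_eq ?_⟩
  norm_num
  ring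

end Pool.Agent.MP_39fec4_gt.Full.FPoisLX
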