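import Pool.Agent.MP_39fec4_gt.FDefs
import Pool.Agent.MP_39fec4_gt.FTower
import Pool.Agent.MP_39fec4_gt.FLink
import Pool.Agent.MP_39fec4_gt.FGam
import Pool.Agent.MP_39fec4_gt.FC3
import Pool.Agent.MP_39fec4_gt.FPoisLA

set_option autoImplicit false

namespace Pool.Agent.MP_39fec4_gt.Full

open MeasureTheory Set Real Ball P4

variable {C q : ℝ}

/-- Poisson summation gives a lower bound for the diagonal integral. -/
theorem pois_lo (hC : 0 < C) (hq : 0 < q) (hq2 : q < 1 / 2) {h A2 A3 : ℝ} {N : ℕ}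
    (hN : 1 ≤ N) {M : ℕ} (hM : 1 ≤ M) (hh : 0 < h) (hA2 : 0 ≤ A2) (hA3 : 0 ≤ A3)
    (hA : 2 ≤ 5 / (mu C q * h))
    (tail : ∀ s : ℝ, M * h ≤ s → -(A2 * (M * h / s) ^ 2 + A3 * (M * h / s) ^ 3) ≤
      gg C 0 q (s ^ 2 / N) ^ N) :
    h / 2 + h * ∑ m ∈ Finset.range M, gg C 0 q (((m + 1) * h) ^ 2 / N) ^ N -
      (A2 + A3 / 2) * (M * h) - 4 * 3 ^ N / mu C q * Real.exp (-(5 / (mu C q * h)) ^ 2) ≤
        DG (gg C 0 q) N := by
  obtain ⟨n, rfl⟩ : ∃ n, N = n + 1 := ⟨N - 1, by omega⟩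
  have hp : 2 < 1 / q := by rw [lt_div_iff₀ hq]; linarith
  have hZ : 0.81 ≤ Zp (1 / q) := by
    rw [Zp, one_div_one_div]; exact gamma_ge hq.le hq2.le
  have hmu : 0 < mu C q := mu_pos hC (by linarith)
  have hn : 0 < √((n : ℝ) + 1) := Real.sqrt_pos.2 (by positivity)
  obtain ⟨a, ha⟩ : ∃ a : ℝ, a = mu C q * h / √((n : ℝ) + 1) := ⟨_, rfl⟩
  have ha0 : 0 < a := by rw [ha]; positivity
  obtain ⟨F, hF⟩ : ∃ F : ℝ → ℝ, F = fun s => ff (1 / q) (a * s) ^ (n + 1) := ⟨_, rfl⟩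
  have hg : ∀ s : ℝ, 0 ≤ s → gg C 0 q ((s * h) ^ 2 / (n + 1 : ℕ)) ^ (n + 1) = F s := by
    intro s hs
    rw [gg_eq_ff hC hq hq2 (by positivity), Real.sqrt_div (by positivity),
      Real.sqrt_sq (by positivity), hF, ha]
    push_cast
    congr 2
    ring
  obtain ⟨hi, hb⟩ := FPoisLX.gauss_pow hp hZ ha0 n
  rw [← hF] at hi hb
  have hc : Continuous F := by
    have := cont_ff hp
    rw [hF]; fun_prop
  obtain ⟨su, hle⟩ := FPoisLX.geo (u := fun k : ℕ => cosT F (2 * π * (k + 1)))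
    (c := 3 ^ n * (4.5 / (mu C q * h))) (by positivity) hA fun k => by
      refine (hb _).trans ?_
      have e1 : 3 ^ n * (4.5 / a) / √((n : ℝ) + 1) = 3 ^ n * (4.5 / (mu C q * h)) := by
        rw [ha]; field_simp
      have e2 : (2 * π * (k + 1) / a) ^ 2 / ((n : ℝ) + 1) =
          (2 * π) ^ 2 * ((k + 1) / (mu C q * h)) ^ 2 := by
        rw [ha, div_pow, div_pow, Real.sq_sqrt (by positivity)]
        field_simp
      rw [e1, mul_div_assoc, e2]
      refine mul_le_mul_of_nonneg_left (Real.exp_le_exp.2 ?_) (by positivity)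
      have e3 : (2 * 3.14) ^ 2 ≤ (2 * π) ^ 2 :=
        pow_le_pow_left₀ (by norm_num) (by linarith [Real.pi_gt_d2]) 2
      have e4 := sq_nonneg (((k : ℝ) + 1) / (mu C q * h))
      rw [show (5 / (mu C q * h) * (k + 1)) ^ 2 = 25 * (((k : ℝ) + 1) / (mu C q * h)) ^ 2 by ring]
      nlinarith
  obtain ⟨S, hS, hP⟩ := FPoisLX.poisson hc hi (B := c3 q q / a ^ 3) (fun s hs => by
    have h1 := ff_cubic hq le_rfl le_rfl hq2 (v := a * s) (by positivity)
    have h2 : |F s| ≤ |ff (1 / q) (a * s)| := by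
      rw [hF, abs_pow, pow_succ]
      exact mul_le_of_le_one_left (abs_nonneg _) (pow_le_one₀ (abs_nonneg _) (abs_ff_le hp _))
    rw [le_div_iff₀ (by positivity), mul_assoc, ← mul_pow, mul_comm s a]
    exact (mul_le_mul_of_nonneg_right h2 (by positivity)).trans h1) su
  have hT := FPoisLX.tail_lo hS hM hA2 hA3 fun m hm => by
    have hm' : (M : ℝ) ≤ m := by exact_mod_cast hm
    have := tail ((m + 1) * h) (mul_le_mul_of_nonneg_right (by linarith) hh.le)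
    rwa [hg _ (by positivity), mul_div_mul_right _ _ hh.ne'] at this
  have h0 : F 0 = 1 := by simp only [hF, mul_zero, ff_zero hp, one_pow]
  have hD : cosT F 0 = DG (gg C 0 q) (n + 1) / h := by
    rw [cosT_zero, DG, ← integral_scale _ hh]
    refine setIntegral_congr_fun measurableSet_Ioi fun s hs => ?_
    have hs : 0 < s := hs
    simp only [mul_comm h s]
    exact (hg s hs.le).symm
  have hsum : ∑ m ∈ Finset.range M, gg C 0 q (((m + 1) * h) ^ 2 / (n + 1 : ℕ)) ^ (n + 1) =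
      ∑ m ∈ Finset.range M, F (m + 1) :=
    Finset.sum_congr rfl fun m _ => hg _ (by positivity)
  rw [hsum]
  rw [h0, hD] at hP
  obtain ⟨E, hE⟩ : ∃ E, E = 3 ^ n / mu C q * Real.exp (-(5 / (mu C q * h)) ^ 2) := ⟨_, rfl⟩
  have hE0 : 0 ≤ E := by rw [hE]; positivity
  have e1 : 4 * 3 ^ (n + 1) / mu C q * Real.exp (-(5 / (mu C q * h)) ^ 2) = 12 * E := by
    rw [hE]; ring
  have e2 : h * (5 / 4 * (3 ^ n * (4.5 / (mu C q * h))) * Real.exp (-(5 / (mu C q * h)) ^ 2)) =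
      5.625 * E := by
    rw [hE]; field_simp; norm_num
  have e3 : DG (gg C 0 q) (n + 1) = h * (DG (gg C 0 q) (n + 1) / h) := by field_simp
  have b1 := mul_le_mul_of_nonneg_left hle hh.le
  have b2 := mul_le_mul_of_nonneg_left hT hh.le
  have b3 := congrArg (h * ·) hP
  rw [e1]
  rw [e2] at b1
  linarith

end Pool.Agent.MP_39fec4_gt.Full
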