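import Pool.Agent.MP_39fec4_gt.FDefs
import Pool.Agent.MP_39fec4_gt.FTower
import Pool.Agent.MP_39fec4_gt.FLink
import Pool.Agent.MP_39fec4_gt.FPoisA

set_option autoImplicit false

namespace Pool.Agent.MP_39fec4_gt.Full

open MeasureTheory Set Real Ball P4

variable {C q : ℝ}

namespace FPoisUX

theorem up {F G : ℝ → ℝ} (hF : PGood F) (e : ∀ s, 0 ≤ s → G s = F s) (h0 : F 0 = 1)
    {h A2 A3 : ℝ} {M : ℕ} (hM : 1 ≤ M) (hh : 0 < h) (hA2 : 0 ≤ A2) (hA3 : 0 ≤ A3)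
    (tail : ∀ s : ℝ, M * h ≤ s → G s ≤ A2 * (M * h / s) ^ 2 + A3 * (M * h / s) ^ 3) :
    ∫ s in Ioi (0 : ℝ), G s ≤
      h / 2 + h * ∑ m ∈ Finset.range M, G ((m + 1) * h) + (A2 + A3 / 2) * (M * h) := by
  obtain ⟨s1, -, hP⟩ := hF.poisson hh
  have t := tail_le hM hh hA2 hA3 s1 fun s hs => by
    rw [← e s (le_trans (by positivity) hs)]; exact tail s hs
  have n : 0 ≤ ∑' k : ℕ, cosT F (2 * π * (k + 1) / h) := tsum_nonneg fun k => hF.nn _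
  rw [setIntegral_congr_fun measurableSet_Ioi fun s hs => e s (le_of_lt hs),
    Finset.sum_congr rfl fun (m : ℕ) _ => e ((m + 1) * h) (by positivity)]
  have := mul_le_mul_of_nonneg_left t hh.le
  rw [h0] at hP
  linarith

theorem two_lt (hq : 0 < q) (hq2 : q < 1 / 2) : 2 < 1 / q := by
  rw [lt_div_iff₀ hq]; linarith

theorem gg_sq (hC : 0 < C) (hq : 0 < q) (hq2 : q < 1 / 2) {x s : ℝ} (hx : 0 ≤ x) (hs : 0 ≤ s) :
    gg C 0 q (x * s ^ 2) = ff (1 / q) (mu C q * √x * s) := by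
  rw [gg_eq_ff hC hq hq2 (by positivity), Real.sqrt_mul hx, Real.sqrt_sq hs, mul_assoc]

end FPoisUX

open FPoisUX

/-- Poisson summation gives an upper bound for the integral. -/
theorem pois_up (hC : 0 < C) (hq : 0 < q) (hq2 : q < 1 / 2) {x1 x2 x3 h A2 A3 : ℝ} (h1 : 0 < x1)
    (h2 : 0 ≤ x2) (h3 : 0 ≤ x3) (k : ℕ) {M : ℕ} (hM : 1 ≤ M) (hh : 0 < h) (hA2 : 0 ≤ A2)
    (hA3 : 0 ≤ A3) (tail : ∀ s : ℝ, M * h ≤ s → P3 (gg C 0 q) x1 x2 x3 k (s ^ 2) ≤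
      A2 * (M * h / s) ^ 2 + A3 * (M * h / s) ^ 3) :
    ∫ s in Ioi (0 : ℝ), P3 (gg C 0 q) x1 x2 x3 k (s ^ 2) ≤
      h / 2 + h * ∑ m ∈ Finset.range M, P3 (gg C 0 q) x1 x2 x3 k (((m + 1) * h) ^ 2) +
        (A2 + A3 / 2) * (M * h) := by
  have hp := two_lt hq hq2
  have hm := mu_pos hC (a := q) (by linarith)
  have hs := Real.sqrt_pos.2 h1
  refine up (G := fun s => P3 (gg C 0 q) x1 x2 x3 k (s ^ 2))
    (((pgood_one hp (mul_pos hm hs)).mul hp (mu C q * √x2)).mul_pow hp (mu C q * √x3) k)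
    (fun s hs => ?_) (by simp only [mul_zero, ff_zero hp, one_pow, mul_one]) hM hh hA2 hA3 tail
  rw [P3, gg_sq hC hq hq2 h1.le hs, gg_sq hC hq hq2 h2 hs, gg_sq hC hq hq2 h3 hs]

theorem pois_up_diag (hC : 0 < C) (hq : 0 < q) (hq2 : q < 1 / 2) {h A2 A3 : ℝ} {N : ℕ}
    (hN : 2 ≤ N) {M : ℕ} (hM : 1 ≤ M) (hh : 0 < h) (hA2 : 0 ≤ A2) (hA3 : 0 ≤ A3)
    (tail : ∀ s : ℝ, M * h ≤ s → gg C 0 q (s ^ 2 / N) ^ N ≤
      A2 * (M * h / s) ^ 2 + A3 * (M * h / s) ^ 3) :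
    DG (gg C 0 q) N ≤ h / 2 + h * ∑ m ∈ Finset.range M, gg C 0 q (((m + 1) * h) ^ 2 / N) ^ N +
      (A2 + A3 / 2) * (M * h) := by
  have hp := two_lt hq hq2
  have hm := mu_pos hC (a := q) (by linarith)
  have hN0 : (0 : ℝ) < (N : ℝ)⁻¹ := inv_pos.2 (by exact_mod_cast (by omega : 0 < N))
  have hs := Real.sqrt_pos.2 hN0
  refine up (G := fun s => gg C 0 q (s ^ 2 / N) ^ N)
    (pgood_pow hp (mul_pos hm hs) (N := N) (by omega))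
    (fun s hs => ?_) (by simp only [mul_zero, ff_zero hp, one_pow, mul_one]) hM hh hA2 hA3 tail
  rw [div_eq_inv_mul, gg_sq hC hq hq2 hN0.le hs]

end Pool.Agent.MP_39fec4_gt.Full
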