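import Pool.Agent.MP_39fec4_gt.FDefs
import Pool.Agent.MP_39fec4_gt.FTower

set_option autoImplicit false

namespace Pool.Agent.MP_39fec4_gt.Full

open MeasureTheory Set Real Ball P4

namespace FQmuX

theorem sq_le_exp (t : ℝ) : t ^ 2 ≤ Real.exp t + Real.exp (-t) - 2 := by
  have h1 : (t / 2) ^ 2 ≤ Real.sinh (t / 2) ^ 2 := by
    rcases le_total 0 (t / 2) with h | h
    · exact pow_le_pow_left₀ h (Real.self_le_sinh_iff.2 h) 2
    · have := Real.sinh_le_self_iff.2 h
      nlinarith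
  have h2 : Real.exp t = Real.exp (t / 2) * Real.exp (t / 2) := by
    rw [← Real.exp_add]; congr 1; ring
  have h3 : Real.exp (-t) = Real.exp (-(t / 2)) * Real.exp (-(t / 2)) := by
    rw [← Real.exp_add]; congr 1; ring
  have h4 : Real.exp (t / 2) * Real.exp (-(t / 2)) = 1 := by
    rw [← Real.exp_add]; simp
  rw [Real.sinh_eq] at h1
  nlinarith

theorem sq_log_le {x : ℝ} (hx : 0 < x) (a e : ℝ) :
    e ^ 2 * (x ^ a * Real.log x ^ 2) ≤ x ^ (a + e) + x ^ (a - e) - 2 * x ^ a := by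
  have h := sq_le_exp (Real.log x * e)
  have h0 : 0 < x ^ a := Real.rpow_pos_of_pos hx a
  have e1 : x ^ (a + e) = x ^ a * Real.exp (Real.log x * e) := by
    rw [Real.rpow_add hx, Real.rpow_def_of_pos hx e]
  have e2 : x ^ (a - e) = x ^ a * Real.exp (-(Real.log x * e)) := by
    rw [sub_eq_add_neg, Real.rpow_add hx, Real.rpow_def_of_pos hx (-e), mul_neg]
  rw [e1, e2]
  nlinarith [mul_le_mul_of_nonneg_left h h0.le]

theorem tangent_pt {x : ℝ} (hx : 0 < x) (a b : ℝ) :
    x ^ a + (b - a) * (x ^ a * Real.log x) ≤ x ^ b := by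
  have h0 : 0 < x ^ a := Real.rpow_pos_of_pos hx a
  have e1 : x ^ b = x ^ a * Real.exp (Real.log x * (b - a)) := by
    rw [← Real.rpow_def_of_pos hx, ← Real.rpow_add hx]; congr 1; ring
  have h := Real.add_one_le_exp (Real.log x * (b - a))
  rw [e1]
  nlinarith [mul_le_mul_of_nonneg_left h h0.le]

theorem mono_pt {x : ℝ} (hx : 0 < x) {a b : ℝ} (hab : a ≤ b) :
    x ^ a * Real.log x ≤ x ^ b * Real.log x := by
  rcases le_total 1 x with h | h
  · exact mul_le_mul_of_nonneg_right (Real.rpow_le_rpow_of_exponent_le h hab) (Real.log_nonneg h)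
  · exact mul_le_mul_of_nonpos_right (Real.rpow_le_rpow_of_exponent_ge hx h hab)
      (Real.log_nonpos hx.le h)

theorem conv_pt {x : ℝ} (hx : 0 < x) (a0 a1 : ℝ) {th : ℝ} (h0 : 0 ≤ th) (h1 : th ≤ 1) :
    x ^ ((1 - th) * a0 + th * a1) ≤ (1 - th) * x ^ a0 + th * x ^ a1 := by
  have t0 := tangent_pt hx ((1 - th) * a0 + th * a1) a0
  have t1 := tangent_pt hx ((1 - th) * a0 + th * a1) a1
  have u0 := mul_le_mul_of_nonneg_left t0 (sub_nonneg.2 h1)
  have u1 := mul_le_mul_of_nonneg_left t1 h0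
  nlinarith

theorem mid_pt {x : ℝ} (hx : 0 < x) {b c : ℝ} (h0 : 0 ≤ b) (h1 : b ≤ c) :
    x ^ b ≤ x ^ (0 : ℝ) + x ^ c := by
  have p0 : 0 < x ^ (0 : ℝ) := Real.rpow_pos_of_pos hx _
  have p1 : 0 < x ^ c := Real.rpow_pos_of_pos hx _
  rcases le_total 1 x with h | h
  · exact (Real.rpow_le_rpow_of_exponent_le h h1).trans (le_add_of_nonneg_left p0.le)
  · exact (Real.rpow_le_rpow_of_exponent_ge hx h h0).trans (le_add_of_nonneg_right p1.le)

theorem exists_th {a0 a a1 : ℝ} (h1 : a0 ≤ a) (h2 : a ≤ a1) :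
    ∃ th : ℝ, 0 ≤ th ∧ th ≤ 1 ∧ a = (1 - th) * a0 + th * a1 := by
  rcases (h1.trans h2).eq_or_lt with h | h
  · exact ⟨0, le_rfl, zero_le_one, by linarith⟩
  · have hp : 0 < a1 - a0 := sub_pos.2 h
    refine ⟨(a - a0) / (a1 - a0), div_nonneg (by linarith) hp.le,
      (div_le_one hp).2 (by linarith), ?_⟩
    field_simp
    ring

theorem meas_k (C a : ℝ) (k : ℕ) : AEStronglyMeasurable
    (fun w : ℝ => Real.exp (-w) * ((w / C) ^ a * Real.log (w / C) ^ k))
    (volume.restrict (Ioi (0 : ℝ))) := by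
  apply Measurable.aestronglyMeasurable
  fun_prop

theorem hasDerivAt_pt {x : ℝ} (hx : 0 < x) (b : ℝ) :
    HasDerivAt (fun b : ℝ => x ^ b) (x ^ b * Real.log x) b :=
  (Real.hasStrictDerivAt_const_rpow hx b).hasDerivAt

end FQmuX

open FQmuX

variable {C q a : ℝ}

theorem int_nu (hC : 0 < C) (ha : 0 ≤ a) : IntegrableOn
    (fun w : ℝ => Real.exp (-w) * ((w / C) ^ a * Real.log (w / C) ^ 2)) (Ioi 0) := by
  have i1 := (mu_int hC (a := a + 1 / 2) (by linarith)).1
  have i2 := (mu_int hC (a := a - 1 / 2) (by linarith)).1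
  refine Integrable.mono' ((i1.add i2).const_mul 4) (meas_k C a 2) ?_
  filter_upwards [ae_restrict_mem measurableSet_Ioi] with w hw
  have hx : 0 < w / C := div_pos hw hC
  have h := sq_log_le hx a (1 / 2)
  have h0 : 0 < (w / C) ^ a := Real.rpow_pos_of_pos hx a
  have h1 : 0 < Real.exp (-w) := Real.exp_pos _
  rw [Real.norm_eq_abs, abs_of_nonneg (by positivity)]
  simp only [Pi.add_apply]
  nlinarith [mul_le_mul_of_nonneg_left h h1.le, mul_pos h1 h0]

theorem int_mu1 (hC : 0 < C) (ha : 0 ≤ a) : IntegrableOn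
    (fun w : ℝ => Real.exp (-w) * ((w / C) ^ a * Real.log (w / C))) (Ioi 0) := by
  have i1 := (mu_int hC (a := a) (by linarith)).1
  have i2 := int_nu hC ha
  have hm := meas_k C a 1
  simp only [pow_one] at hm
  refine Integrable.mono' (i1.add i2) hm ?_
  filter_upwards [ae_restrict_mem measurableSet_Ioi] with w hw
  have hx : 0 < w / C := div_pos hw hC
  have h0 : 0 < (w / C) ^ a := Real.rpow_pos_of_pos hx a
  have h1 : 0 < Real.exp (-w) := Real.exp_pos _
  have h2 : |Real.log (w / C)| ≤ 1 + Real.log (w / C) ^ 2 := by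
    rw [← sq_abs]; nlinarith [abs_nonneg (Real.log (w / C))]
  rw [Real.norm_eq_abs, abs_mul, abs_mul, abs_of_pos h0, abs_of_pos h1]
  simp only [Pi.add_apply]
  nlinarith [mul_le_mul_of_nonneg_left h2 (mul_pos h1 h0).le]

theorem hasDerivAt_mu (hC : 0 < C) (ha : 0 < a) : HasDerivAt (mu C) (mu1 C a) a := by
  have hs : Ioo 0 (2 * a) ∈ nhds a := Ioo_mem_nhds ha (by linarith)
  have key := hasDerivAt_integral_of_dominated_loc_of_deriv_le
    (μ := volume.restrict (Ioi (0 : ℝ)))
    (F := fun b w => Real.exp (-w) * (w / C) ^ b)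
    (F' := fun b w => Real.exp (-w) * ((w / C) ^ b * Real.log (w / C))) (x₀ := a)
    (bound := fun w => ‖Real.exp (-w) * ((w / C) ^ (0 : ℝ) * Real.log (w / C))‖ +
      ‖Real.exp (-w) * ((w / C) ^ (2 * a) * Real.log (w / C))‖) hs
    (Filter.Eventually.of_forall fun b => by
      have := meas_k C b 0
      simpa only [pow_zero, mul_one] using this)
    (mu_int hC (by linarith)).1
    (by have := meas_k C a 1; simpa only [pow_one] using this)
    ?_ ((int_mu1 hC le_rfl).norm.add (int_mu1 hC (by linarith)).norm) ?_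
  · refine key.2.congr_of_eventuallyEq ?_
    filter_upwards [hs] with b hb
    exact (mu_int hC (by linarith [hb.1])).2.symm
  · filter_upwards [ae_restrict_mem measurableSet_Ioi] with w hw b hb
    have hx : 0 < w / C := div_pos hw hC
    have h := mid_pt hx hb.1.le hb.2.le
    have h1 : 0 < Real.exp (-w) := Real.exp_pos _
    simp only [Real.norm_eq_abs, abs_mul, abs_of_pos h1, abs_of_pos (Real.rpow_pos_of_pos hx _)]
    nlinarith [mul_le_mul_of_nonneg_left h (mul_nonneg h1.le (abs_nonneg (Real.log (w / C))))]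
  · filter_upwards [ae_restrict_mem measurableSet_Ioi] with w hw b _
    exact (hasDerivAt_pt (div_pos hw hC) b).const_mul _

theorem hasDerivAt_mu1 (hC : 0 < C) (ha : 0 < a) : HasDerivAt (mu1 C) (nu C a) a := by
  have hs : Ioo 0 (2 * a) ∈ nhds a := Ioo_mem_nhds ha (by linarith)
  have key := hasDerivAt_integral_of_dominated_loc_of_deriv_le
    (μ := volume.restrict (Ioi (0 : ℝ)))
    (F := fun b w => Real.exp (-w) * ((w / C) ^ b * Real.log (w / C)))
    (F' := fun b w => Real.exp (-w) * ((w / C) ^ b * Real.log (w / C) ^ 2)) (x₀ := a)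
    (bound := fun w => Real.exp (-w) * ((w / C) ^ (0 : ℝ) * Real.log (w / C) ^ 2) +
      Real.exp (-w) * ((w / C) ^ (2 * a) * Real.log (w / C) ^ 2)) hs
    (Filter.Eventually.of_forall fun b => by
      have := meas_k C b 1
      simpa only [pow_one] using this)
    (int_mu1 hC ha.le) (meas_k C a 2)
    ?_ (Integrable.add (int_nu hC le_rfl) (int_nu hC (a := 2 * a) (by linarith))) ?_
  · exact key.2
  · filter_upwards [ae_restrict_mem measurableSet_Ioi] with w hw b hb
    have hx : 0 < w / C := div_pos hw hC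
    have h := mid_pt hx hb.1.le hb.2.le
    have h1 : 0 < Real.exp (-w) := Real.exp_pos _
    have h0 : 0 < (w / C) ^ b := Real.rpow_pos_of_pos hx b
    rw [Real.norm_eq_abs, abs_of_nonneg (by positivity)]
    nlinarith [mul_le_mul_of_nonneg_left h (mul_nonneg h1.le (sq_nonneg (Real.log (w / C))))]
  · filter_upwards [ae_restrict_mem measurableSet_Ioi] with w hw b _
    have := ((hasDerivAt_pt (div_pos hw hC) b).mul_const (Real.log (w / C))).const_mul
      (Real.exp (-w))
    refine this.congr_deriv ?_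
    ring

theorem nu_nonneg (hC : 0 < C) (a : ℝ) : 0 ≤ nu C a := by
  refine setIntegral_nonneg measurableSet_Ioi fun w hw => ?_
  have hx : 0 < w / C := div_pos hw hC
  have h0 : 0 < (w / C) ^ a := Real.rpow_pos_of_pos hx a
  positivity

theorem mu1_sq_le (hC : 0 < C) (ha : 0 < a) : mu1 C a ^ 2 ≤ mu C a * nu C a := by
  have hp := mu_pos hC (a := a) (by linarith)
  obtain ⟨i0, e0⟩ := mu_int hC (a := a) (by linarith)
  have i1 := int_mu1 hC ha.le
  have i2 := int_nu hC ha.le
  have key : ∀ t : ℝ, 2 * t * mu1 C a ≤ nu C a + t ^ 2 * mu C a := by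
    intro t
    rw [← e0, mu1, nu, ← integral_const_mul, ← integral_const_mul,
      ← integral_add i2 (i0.const_mul _)]
    refine setIntegral_mono_on (i1.const_mul _) (i2.add (i0.const_mul _)) measurableSet_Ioi ?_
    intro w hw
    have hx : 0 < w / C := div_pos hw hC
    have h0 : 0 < (w / C) ^ a := Real.rpow_pos_of_pos hx a
    have h1 : 0 < Real.exp (-w) := Real.exp_pos _
    nlinarith [mul_nonneg (mul_pos h1 h0).le (sq_nonneg (Real.log (w / C) - t))]
  have h := mul_le_mul_of_nonneg_left (key (mu1 C a / mu C a)) hp.le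
  have e1 : mu C a * (2 * (mu1 C a / mu C a) * mu1 C a) = 2 * mu1 C a ^ 2 := by
    field_simp
  have e2 : mu C a * (nu C a + (mu1 C a / mu C a) ^ 2 * mu C a) =
      mu C a * nu C a + mu1 C a ^ 2 := by
    field_simp
  rw [e1, e2] at h
  linarith

theorem nu_le_diff (hC : 0 < C) {e : ℝ} (he : 0 < e) (hea : e ≤ a) :
    nu C a ≤ (mu C (a + e) + mu C (a - e) - 2 * mu C a) / e ^ 2 := by
  obtain ⟨i0, e0⟩ := mu_int hC (a := a) (by linarith)
  obtain ⟨i1, e1⟩ := mu_int hC (a := a + e) (by linarith)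
  obtain ⟨i2, e2⟩ := mu_int hC (a := a - e) (by linarith)
  have i3 := int_nu hC (a := a) (by linarith)
  have i4 : IntegrableOn (fun w : ℝ => Real.exp (-w) * (w / C) ^ (a + e) +
      Real.exp (-w) * (w / C) ^ (a - e)) (Ioi 0) := i1.add i2
  rw [le_div_iff₀ (by positivity), mul_comm, ← e0, ← e1, ← e2, nu, ← integral_const_mul,
    ← integral_const_mul, ← integral_add i1 i2, ← integral_sub i4 (i0.const_mul _)]
  refine setIntegral_mono_on (i3.const_mul _) (i4.sub (i0.const_mul _))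
    measurableSet_Ioi ?_
  intro w hw
  have hx : 0 < w / C := div_pos hw hC
  have h1 : 0 < Real.exp (-w) := Real.exp_pos _
  have h := sq_log_le hx a e
  nlinarith [mul_le_mul_of_nonneg_left h h1.le]

theorem nu_le_max (hC : 0 < C) {a0 a1 : ℝ} (h0 : 0 < a0) (h1 : a0 ≤ a) (h2 : a ≤ a1) :
    nu C a ≤ max (nu C a0) (nu C a1) := by
  obtain ⟨th, t0, t1, rfl⟩ := exists_th h1 h2
  have i := int_nu hC (h0.le.trans h1)
  have i0 := int_nu hC h0.le
  have i1 := int_nu hC ((h0.le.trans h1).trans h2)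
  have key : nu C ((1 - th) * a0 + th * a1) ≤ (1 - th) * nu C a0 + th * nu C a1 := by
    rw [nu, nu, nu, ← integral_const_mul, ← integral_const_mul,
      ← integral_add (i0.const_mul _) (i1.const_mul _)]
    refine setIntegral_mono_on i ((i0.const_mul _).add (i1.const_mul _)) measurableSet_Ioi ?_
    intro w hw
    have hx : 0 < w / C := div_pos hw hC
    have h3 : 0 < Real.exp (-w) := Real.exp_pos _
    have h := conv_pt hx a0 a1 t0 t1
    nlinarith [mul_le_mul_of_nonneg_left h (mul_nonneg h3.le (sq_nonneg (Real.log (w / C))))]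
  have m0 := mul_le_mul_of_nonneg_left (le_max_left (nu C a0) (nu C a1)) (sub_nonneg.2 t1)
  have m1 := mul_le_mul_of_nonneg_left (le_max_right (nu C a0) (nu C a1)) t0
  linarith

theorem mu_le_max (hC : 0 < C) {a0 a1 : ℝ} (h0 : 0 < a0) (h1 : a0 ≤ a) (h2 : a ≤ a1) :
    mu C a ≤ max (mu C a0) (mu C a1) := by
  obtain ⟨th, t0, t1, rfl⟩ := exists_th h1 h2
  obtain ⟨i, e⟩ := mu_int hC (a := (1 - th) * a0 + th * a1) (by linarith)
  obtain ⟨i0, e0⟩ := mu_int hC (a := a0) (by linarith)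
  obtain ⟨i1, e1⟩ := mu_int hC (a := a1) (by linarith)
  have key : mu C ((1 - th) * a0 + th * a1) ≤ (1 - th) * mu C a0 + th * mu C a1 := by
    rw [← e, ← e0, ← e1, ← integral_const_mul, ← integral_const_mul,
      ← integral_add (i0.const_mul _) (i1.const_mul _)]
    refine setIntegral_mono_on i ((i0.const_mul _).add (i1.const_mul _)) measurableSet_Ioi ?_
    intro w hw
    have hx : 0 < w / C := div_pos hw hC
    have h3 : 0 < Real.exp (-w) := Real.exp_pos _
    have h := conv_pt hx a0 a1 t0 t1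
    nlinarith [mul_le_mul_of_nonneg_left h h3.le]
  have m0 := mul_le_mul_of_nonneg_left (le_max_left (mu C a0) (mu C a1)) (sub_nonneg.2 t1)
  have m1 := mul_le_mul_of_nonneg_left (le_max_right (mu C a0) (mu C a1)) t0
  linarith

theorem FQmuX.tangent (hC : 0 < C) (ha : 0 ≤ a) {b : ℝ} (hb : -1 < b) :
    mu C a + (b - a) * mu1 C a ≤ mu C b := by
  obtain ⟨i0, e0⟩ := mu_int hC (a := a) (by linarith)
  obtain ⟨i1, e1⟩ := mu_int hC hb
  have i2 := int_mu1 hC ha
  rw [← e0, ← e1, mu1, ← integral_const_mul, ← integral_add i0 (i2.const_mul _)]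
  refine setIntegral_mono_on (i0.add (i2.const_mul _)) i1 measurableSet_Ioi ?_
  intro w hw
  have hx : 0 < w / C := div_pos hw hC
  have h3 : 0 < Real.exp (-w) := Real.exp_pos _
  have h := tangent_pt hx a b
  nlinarith [mul_le_mul_of_nonneg_left h h3.le]

theorem FQmuX.mu1_mono (hC : 0 < C) (ha : 0 ≤ a) {b : ℝ} (hb : a ≤ b) :
    mu1 C a ≤ mu1 C b := by
  refine setIntegral_mono_on (int_mu1 hC ha) (int_mu1 hC (ha.trans hb)) measurableSet_Ioi ?_
  intro w hw
  exact mul_le_mul_of_nonneg_left (mono_pt (div_pos hw hC) hb) (Real.exp_pos _).le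

theorem mu1_bounds (hC : 0 < C) {a0 a1 e : ℝ} (he : 0 < e) (h0 : e ≤ a0) (h1 : a0 ≤ a)
    (h2 : a ≤ a1) : (mu C a0 - mu C (a0 - e)) / e ≤ mu1 C a ∧
      mu1 C a ≤ (mu C (a1 + e) - mu C a1) / e := by
  have t0 := tangent hC (a := a0) (by linarith) (b := a0 - e) (by linarith)
  have t1 := tangent hC (a := a1) (by linarith) (b := a1 + e) (by linarith)
  have m0 := mul_le_mul_of_nonneg_left (mu1_mono hC (a := a0) (by linarith) h1) he.le
  have m1 := mul_le_mul_of_nonneg_left (mu1_mono hC (a := a) (by linarith) h2) he.le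
  constructor
  · rw [div_le_iff₀ he]; nlinarith
  · rw [le_div_iff₀ he]; nlinarith

theorem mu_anti (hC : 0 < C) {a0 a1 e : ℝ} (he : 0 < e) (h0 : 0 < a0) (h1 : a0 ≤ a)
    (h2 : a ≤ a1) (h : mu C (a1 + e) ≤ mu C a1) : mu C a1 ≤ mu C a ∧ mu C a ≤ mu C a0 := by
  have t1 := tangent hC (a := a1) (by linarith) (b := a1 + e) (by linarith)
  have n1 : mu1 C a1 ≤ 0 := by
    by_contra hc
    push Not at hc
    nlinarith [mul_pos he hc]
  have n2 : mu1 C a ≤ 0 := (mu1_mono hC (a := a) (by linarith) h2).trans n1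
  have t2 := tangent hC (a := a1) (by linarith) (b := a) (by linarith)
  have t3 := tangent hC (a := a) (by linarith) (b := a0) (by linarith)
  constructor
  · nlinarith [mul_nonneg_of_nonpos_of_nonpos (sub_nonpos.2 h2) n1]
  · nlinarith [mul_nonneg_of_nonpos_of_nonpos (sub_nonpos.2 h1) n2]

theorem kap_pos (hC : 0 < C) (hq : 0 < q) : 0 < kap C q := by
  have := mu_pos hC (a := q) (by linarith)
  have := Real.pi_pos
  unfold kap
  positivity

theorem hasDerivAt_kap (hC : 0 < C) (hq : 0 < q) :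
    HasDerivAt (kap C) (-(kap C q * (Real.log 2 + mu1 C q / mu C q))) q := by
  have hp := mu_pos hC (a := q) (by linarith)
  have h1 : HasDerivAt (fun q : ℝ => (2 : ℝ) ^ (-q)) ((2 : ℝ) ^ (-q) * Real.log 2 * (-1)) q :=
    (hasDerivAt_pt (x := 2) (by norm_num) (-q)).comp q (hasDerivAt_neg q)
  have h2 := (h1.const_mul (π / √2)).div (hasDerivAt_mu hC hq) hp.ne'
  refine HasDerivAt.congr_deriv h2 ?_
  unfold kap
  field_simp
  ring

theorem kap_D2 (hC : 0 < C) {a b kh t n : ℝ} (ha : 0 < a)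
    (h : ∀ q ∈ Icc a b, kap C q ≤ kh ∧ |Real.log 2 + mu1 C q / mu C q| ≤ t ∧
      nu C q / mu C q ≤ n) : D2 (kap C) 0 a b kh (kh * t) (kh * max (t ^ 2) n) := by
  refine ⟨fun q hq => (hasDerivAt_kap hC (ha.trans_le hq.1)).continuousAt.continuousWithinAt,
    fun q => -(kap C q * (Real.log 2 + mu1 C q / mu C q)),
    fun q => kap C q * ((Real.log 2 + mu1 C q / mu C q) ^ 2 -
      (nu C q / mu C q - (mu1 C q / mu C q) ^ 2)), fun s hs => ?_⟩
  have hs0 : 0 < s := ha.trans hs.1
  have hp := mu_pos hC (a := s) (by linarith)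
  have hk := kap_pos hC hs0
  obtain ⟨b1, b2, b3⟩ := h s (Ioo_subset_Icc_self hs)
  refine ⟨hasDerivAt_kap hC hs0, ?_, by rwa [abs_of_pos hk], ?_, ?_⟩
  · have h2 := ((hasDerivAt_kap hC hs0).mul
      (((hasDerivAt_mu1 hC hs0).div (hasDerivAt_mu hC hs0) hp.ne').const_add (Real.log 2))).neg
    refine HasDerivAt.congr_deriv h2 ?_
    simp only [Pi.div_apply]
    field_simp
    ring
  · rw [zero_mul, add_zero, abs_neg, abs_mul, abs_of_pos hk]
    exact mul_le_mul b1 b2 (abs_nonneg _) (hk.le.trans b1)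
  · have e : ∀ u v w : ℝ, u + 2 * 0 * v + 0 ^ 2 * w = u := fun u v w => by ring
    rw [e, abs_mul, abs_of_pos hk]
    refine mul_le_mul b1 ?_ (abs_nonneg _) (hk.le.trans b1)
    have u0 : (Real.log 2 + mu1 C s / mu C s) ^ 2 ≤ t ^ 2 := by
      rw [← sq_abs]; exact pow_le_pow_left₀ (abs_nonneg _) b2 2
    have v0 : (mu1 C s / mu C s) ^ 2 ≤ nu C s / mu C s := by
      rw [div_pow, div_le_div_iff₀ (by positivity) hp]
      nlinarith [mul_le_mul_of_nonneg_right (mu1_sq_le hC hs0) hp.le]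
    have m0 := le_max_left (t ^ 2) n
    have m1 := le_max_right (t ^ 2) n
    rw [abs_le]
    constructor <;>
      nlinarith [sq_nonneg (Real.log 2 + mu1 C s / mu C s), sq_nonneg (mu1 C s / mu C s)]

end Pool.Agent.MP_39fec4_gt.Full
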