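import Pool.Agent.MP_39fec4_gt.FDefs
import Pool.Agent.MP_39fec4_gt.FTower
import Pool.Agent.MP_39fec4_gt.FDecay
import Pool.Agent.MP_39fec4_gt.FQmu

set_option autoImplicit false

namespace Pool.Agent.MP_39fec4_gt.Full

open MeasureTheory Set Real Ball P4

variable {C q y : ℝ}

namespace FQbX

/-- The bracket in the second derivative. -/
noncomputable def BQ (j : ℕ) (Y : ℝ) : ℝ := (2 * j + 1) * CC j Y + 2 * Y * CC (j + 1) Y

theorem pow_eq (hC : 0 < C) {w : ℝ} (hw : 0 < w) (m : ℕ) :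
    ((w / C) ^ q) ^ m = (w / C) ^ ((m : ℝ) * q) := by
  rw [mul_comm, Real.rpow_mul (div_pos hw hC).le, Real.rpow_natCast]

theorem int_bound (hC : 0 < C) (hq : 0 < q) (m n : ℕ) (a b : ℝ) :
    IntegrableOn (fun w : ℝ => a * (Real.exp (-w) * ((w / C) ^ ((m : ℝ) * q) *
      Real.log (w / C) ^ 2)) + b * (Real.exp (-w) * ((w / C) ^ ((n : ℝ) * q) *
      Real.log (w / C) ^ 2))) (Ioi 0) :=
  ((int_nu hC (by positivity)).const_mul a).add ((int_nu hC (by positivity)).const_mul b)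

theorem norm_le (hC : 0 < C) (F : ℝ → ℝ) (m n : ℕ) (a b : ℝ)
    (h : ∀ R : ℝ, 0 < R → |F R| ≤ a * R ^ m + b * R ^ n) {w : ℝ} (hw : 0 < w) :
    ‖Real.exp (-w) * (Real.log (w / C) ^ 2 * F ((w / C) ^ q))‖ ≤
      a * (Real.exp (-w) * ((w / C) ^ ((m : ℝ) * q) * Real.log (w / C) ^ 2)) +
        b * (Real.exp (-w) * ((w / C) ^ ((n : ℝ) * q) * Real.log (w / C) ^ 2)) := by
  have h1 := h _ (Real.rpow_pos_of_pos (div_pos hw hC) q)
  rw [← pow_eq hC hw, ← pow_eq hC hw, Real.norm_eq_abs, abs_mul, abs_mul,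
    abs_of_pos (Real.exp_pos _), abs_of_nonneg (sq_nonneg _)]
  have h2 : 0 ≤ Real.exp (-w) * Real.log (w / C) ^ 2 := by positivity
  have h3 := mul_le_mul_of_nonneg_left h1 h2
  nlinarith [h3]

theorem key (hC : 0 < C) (hq : 0 < q) (F : ℝ → ℝ) (m n : ℕ) (a b : ℝ)
    (h : ∀ R : ℝ, 0 < R → |F R| ≤ a * R ^ m + b * R ^ n) :
    |∫ w in Ioi (0 : ℝ), Real.exp (-w) * (Real.log (w / C) ^ 2 * F ((w / C) ^ q))| ≤
      a * nu C (m * q) + b * nu C (n * q) := by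
  have h1 := norm_integral_le_of_norm_le (int_bound hC hq m n a b)
    ((ae_restrict_iff' measurableSet_Ioi).2 (Filter.Eventually.of_forall fun w hw =>
      norm_le (q := q) hC F m n a b h hw))
  rw [integral_add ((int_nu hC (by positivity)).const_mul a)
    ((int_nu hC (by positivity)).const_mul b), integral_const_mul, integral_const_mul] at h1
  exact h1

theorem int_key (hC : 0 < C) (hq : 0 < q) (F : ℝ → ℝ) (hF : Continuous F) (m n : ℕ) (a b : ℝ)
    (h : ∀ R : ℝ, 0 < R → |F R| ≤ a * R ^ m + b * R ^ n) :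
    IntegrableOn (fun w : ℝ => Real.exp (-w) * (Real.log (w / C) ^ 2 * F ((w / C) ^ q)))
      (Ioi 0) := by
  refine (int_bound hC hq m n a b).mono' ?_
    ((ae_restrict_iff' measurableSet_Ioi).2 (Filter.Eventually.of_forall fun w hw =>
      norm_le (q := q) hC F m n a b h hw))
  refine Measurable.aestronglyMeasurable ?_
  have h1 : Measurable fun w : ℝ => F ((w / C) ^ q) :=
    hF.measurable.comp ((measurable_id.div_const C).pow_const q)
  have h2 : Measurable fun w : ℝ => Real.log (w / C) ^ 2 :=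
    (Real.measurable_log.comp (measurable_id.div_const C)).pow_const 2
  exact (Real.measurable_exp.comp measurable_neg).mul (h2.mul h1)

/-- The integrand as a function of the radius. -/
noncomputable def FQ (j : ℕ) (y R : ℝ) : ℝ := R ^ (2 * j + 1) * BQ j (R ^ 2 * y)

theorem GG2_eq (C : ℝ) (j : ℕ) (q y : ℝ) : GG2 C j q y =
    ∫ w in Ioi (0 : ℝ), Real.exp (-w) * (Real.log (w / C) ^ 2 *
      FQ j y ((w / C) ^ q)) := rfl

theorem BQ_zero {Y : ℝ} (hY : 0 ≤ Y) : BQ 0 Y = Real.cos √Y - √Y * Real.sin √Y := by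
  rcases hY.eq_or_lt with rfl | h
  · simp [BQ, CC]
  · have hs : 0 < √Y := Real.sqrt_pos.2 h
    have h2 : Y = √Y * √Y := (Real.mul_self_sqrt hY).symm
    have h0 : CC 0 Y = Real.cos √Y := rfl
    rw [BQ, zero_add, CC_one h, h0]
    set s := √Y
    rw [h2]
    field_simp
    ring

theorem BQ_zero_a {Y c : ℝ} (hY : 0 ≤ Y) (hc : 0 < c) : |BQ 0 Y| ≤ (1 + c ^ 2 + Y) / (2 * c) := by
  rw [BQ_zero hY]
  have h2 : Y = √Y ^ 2 := (Real.sq_sqrt hY).symm
  set s := √Y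
  have h3 := Real.sin_sq_add_cos_sq s
  have h4 : (Real.cos s - s * Real.sin s) ^ 2 ≤ 1 + Y := by
    rw [h2]; nlinarith [sq_nonneg (Real.sin s + s * Real.cos s)]
  rw [le_div_iff₀ (by positivity)]
  have h5 := sq_abs (Real.cos s - s * Real.sin s)
  nlinarith [sq_nonneg (|Real.cos s - s * Real.sin s| - c)]

theorem BQ_zero_b {Y : ℝ} (hY : 0 ≤ Y) : |BQ 0 Y - 1| ≤ 3 / 2 * Y := by
  rw [BQ_zero hY]
  have h2 : Y = √Y ^ 2 := (Real.sq_sqrt hY).symm
  have h0 : 0 ≤ √Y := Real.sqrt_nonneg Y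
  set s := √Y
  have h3 := Real.one_sub_sq_div_two_le_cos (x := s)
  have h4 := Real.cos_le_one s
  have h5 : |Real.sin s| ≤ s := by
    have := Real.abs_sin_le_abs (x := s)
    rwa [abs_of_nonneg h0] at this
  have h6 := abs_le.1 h5
  have h7 : s * Real.sin s ≤ s * s := mul_le_mul_of_nonneg_left h6.2 h0
  have h8 : s * (-s) ≤ s * Real.sin s := mul_le_mul_of_nonneg_left h6.1 h0
  rw [h2, abs_le]
  constructor <;> nlinarith

theorem BQ_one {Y : ℝ} (hY : 0 ≤ Y) : BQ 1 Y = 2 * CC 1 Y - CC 0 Y / 2 := by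
  have := CC_rec 0 hY
  simp only [BQ]
  push_cast at this ⊢
  linarith

theorem BQ_two {Y : ℝ} (hY : 0 ≤ Y) : BQ 2 Y = 2 * CC 2 Y - CC 1 Y / 2 := by
  have := CC_rec 1 hY
  simp only [BQ]
  push_cast at this ⊢
  linarith

theorem abs_comb (a b : ℝ) : |2 * a - b / 2| ≤ 2 * |a| + |b| / 2 := by
  have h1 := abs_le.1 (le_refl |a|)
  have h2 := abs_le.1 (le_refl |b|)
  rw [abs_le]
  constructor <;> linarith [h1.1, h1.2, h2.1, h2.2]

theorem bb0 : bb 0 = 1 := rfl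

theorem bb1 : bb 1 = 1 / 2 := by simp [bb]

theorem bb2 : bb 2 = 1 / 12 := by simp [bb]; norm_num

theorem sqrt_ge (R : ℝ) {u y : ℝ} (hy : u ^ 2 ≤ y) :
    R * u ≤ √(R ^ 2 * y) := by
  refine Real.le_sqrt_of_sq_le ?_
  rw [mul_pow]
  exact mul_le_mul_of_nonneg_left hy (sq_nonneg R)

theorem abs_pow_mul {R : ℝ} (hR : 0 < R) (m : ℕ) (x : ℝ) : |R ^ m * x| = R ^ m * |x| := by
  rw [abs_mul, abs_of_pos (pow_pos hR m)]

theorem zero_a (hy : 0 ≤ y) {c : ℝ} (hc : 0 < c) (R : ℝ) (hR : 0 < R) :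
    |FQ 0 y R| ≤ (1 + c ^ 2) / (2 * c) * R ^ 1 + y / (2 * c) * R ^ 3 := by
  rw [FQ, abs_pow_mul hR]
  refine (mul_le_mul_of_nonneg_left (BQ_zero_a (by positivity) hc) (by positivity)).trans
    (le_of_eq ?_)
  field_simp
  ring

end FQbX

open FQbX

theorem GG2_zero_a (hC : 0 < C) (hq : 0 < q) (hy : 0 ≤ y) {c : ℝ} (hc : 0 < c) :
    |GG2 C 0 q y| ≤ ((1 + c ^ 2) * nu C q + y * nu C (3 * q)) / (2 * c) := by
  rw [GG2_eq]
  refine (key hC hq _ 1 3 _ _ (zero_a hy hc)).trans (le_of_eq ?_)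
  push_cast
  rw [one_mul]
  field_simp

theorem GG2_zero_b (hC : 0 < C) (hq : 0 < q) (hy : 0 ≤ y) :
    |GG2 C 0 q y - 1 * nu C q| ≤ 3 / 2 * y * nu C (3 * q) := by
  have hc0 := cont_CC 0
  have hc1 := cont_CC (0 + 1)
  have h1 := int_key hC hq (FQ 0 y) (by unfold FQ BQ; fun_prop) 1 3 _ _ (zero_a hy one_pos)
  have h2 := key hC hq (fun R : ℝ => FQ 0 y R - R) 3 3 (3 / 2 * y) 0
    (fun R hR => by
      have e : FQ 0 y R - R = R ^ 1 * (BQ 0 (R ^ 2 * y) - 1) := by unfold FQ; ring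
      rw [e, abs_pow_mul hR]
      refine (mul_le_mul_of_nonneg_left (BQ_zero_b (by positivity)) (by positivity)).trans
        (le_of_eq ?_)
      ring)
  rw [GG2_eq, one_mul, nu, ← integral_sub h1 (int_nu hC hq.le)]
  push_cast at h2
  rw [zero_mul, add_zero] at h2
  refine le_of_eq_of_le ?_ h2
  congr 2
  ext w
  ring

theorem GG2_one_a (hC : 0 < C) (hq : 0 < q) (hy : 0 ≤ y) :
    |GG2 C 1 q y| ≤ 3 / 2 * nu C (3 * q) := by
  rw [GG2_eq]
  refine (key hC hq _ 3 3 (3 / 2) 0 fun R hR => ?_).trans (le_of_eq ?_)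
  · rw [FQ, abs_pow_mul hR, BQ_one (by positivity)]
    have h1 := abs_comb (CC 1 (R ^ 2 * y)) (CC 0 (R ^ 2 * y))
    have h2 := abs_CC 1 (R ^ 2 * y)
    have h3 := abs_CC 0 (R ^ 2 * y)
    rw [bb1] at h2
    rw [bb0] at h3
    refine (mul_le_mul_of_nonneg_left (h1.trans (show _ ≤ (3 / 2 : ℝ) by linarith))
      (by positivity)).trans (le_of_eq ?_)
    ring
  · push_cast
    ring

theorem GG2_one_b (hC : 0 < C) (hq : 0 < q) {u : ℝ} (hu : 0 < u) (hy : u ^ 2 ≤ y) :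
    |GG2 C 1 q y| ≤ nu C (3 * q) / 2 + nu C (2 * q) / u := by
  have hy0 : 0 < y := lt_of_lt_of_le (by positivity) hy
  rw [GG2_eq]
  refine (key hC hq _ 3 2 (1 / 2) (1 / u) fun R hR => ?_).trans (le_of_eq ?_)
  · rw [FQ, abs_pow_mul hR, BQ_one (by positivity)]
    have h1 := abs_comb (CC 1 (R ^ 2 * y)) (CC 0 (R ^ 2 * y))
    have h2 := abs_CC_one (y := R ^ 2 * y) (by positivity)
    have h3 := abs_CC 0 (R ^ 2 * y)
    have h4 : 1 / (2 * √(R ^ 2 * y)) ≤ 1 / (2 * (R * u)) :=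
      one_div_le_one_div_of_le (by positivity) (by linarith [sqrt_ge R hy])
    rw [bb0] at h3
    refine (mul_le_mul_of_nonneg_left (h1.trans
      (show _ ≤ 2 * (1 / (2 * (R * u))) + 1 / 2 by linarith)) (by positivity)).trans (le_of_eq ?_)
    field_simp
    ring
  · push_cast
    ring

theorem GG2_two_a (hC : 0 < C) (hq : 0 < q) (hy : 0 ≤ y) :
    |GG2 C 2 q y| ≤ 5 / 12 * nu C (5 * q) := by
  rw [GG2_eq]
  refine (key hC hq _ 5 5 (5 / 12) 0 fun R hR => ?_).trans (le_of_eq ?_)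
  · rw [FQ, abs_pow_mul hR, BQ_two (by positivity)]
    have h1 := abs_comb (CC 2 (R ^ 2 * y)) (CC 1 (R ^ 2 * y))
    have h2 := abs_CC 2 (R ^ 2 * y)
    have h3 := abs_CC 1 (R ^ 2 * y)
    rw [bb2] at h2
    rw [bb1] at h3
    refine (mul_le_mul_of_nonneg_left (h1.trans (show _ ≤ (5 / 12 : ℝ) by linarith))
      (by positivity)).trans (le_of_eq ?_)
    ring
  · push_cast
    ring

theorem GG2_two_b (hC : 0 < C) (hq : 0 < q) {u : ℝ} (hu : 0 < u) (hy : u ^ 2 ≤ y) :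
    |GG2 C 2 q y| ≤ nu C (4 * q) / (4 * u) + 3 * nu C (3 * q) / (5 * u ^ 2) := by
  have hy0 : 0 < y := lt_of_lt_of_le (by positivity) hy
  rw [GG2_eq]
  refine (key hC hq _ 4 3 (1 / (4 * u)) (3 / (5 * u ^ 2)) fun R hR => ?_).trans (le_of_eq ?_)
  · rw [FQ, abs_pow_mul hR, BQ_two (by positivity)]
    have h1 := abs_comb (CC 2 (R ^ 2 * y)) (CC 1 (R ^ 2 * y))
    have h2 := abs_CC_two (y := R ^ 2 * y) (by positivity)
    have h3 := abs_CC_one (y := R ^ 2 * y) (by positivity)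
    have h4 : 1 / (2 * √(R ^ 2 * y)) ≤ 1 / (2 * (R * u)) :=
      one_div_le_one_div_of_le (by positivity) (by linarith [sqrt_ge R hy])
    have h5 : 3 / (10 * (R ^ 2 * y)) ≤ 3 / (10 * (R ^ 2 * u ^ 2)) :=
      div_le_div_of_nonneg_left (by norm_num) (by positivity) (by gcongr)
    refine (mul_le_mul_of_nonneg_left (h1.trans
      (show _ ≤ 2 * (3 / (10 * (R ^ 2 * u ^ 2))) + 1 / (2 * (R * u)) / 2 by linarith))
      (by positivity)).trans (le_of_eq ?_)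
    field_simp
    ring
  · push_cast
    field_simp

end Pool.Agent.MP_39fec4_gt.Full
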