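import Pool.Agent.MP_39fec4_gt.FDefs
import Pool.Agent.MP_39fec4_gt.FTower
import Pool.Agent.MP_39fec4_gt.FQmu

set_option autoImplicit false

namespace Pool.Agent.MP_39fec4_gt.Full

open MeasureTheory Set Real Ball P4

namespace FQgX

theorem deriv_CC (k : ℕ) {y R : ℝ} (hy : 0 ≤ y) (hR : 0 < R) :
    HasDerivAt (fun R : ℝ => CC k (R ^ 2 * y)) (CC (k + 1) (R ^ 2 * y) * (2 * R * y)) R := by
  rcases hy.eq_or_lt with h | h
  · subst h
    simpa using hasDerivAt_const R (CC k 0)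
  · have hp : 0 < R ^ 2 * y := by positivity
    have h1 : HasDerivAt (fun R : ℝ => R ^ 2 * y) (2 * R * y) R := by
      simpa using (hasDerivAt_pow 2 R).mul_const y
    exact (hasDerivAt_CC k hp).comp R h1

theorem abs_pow_le (l : ℝ) {i : ℕ} (hi : i ≤ 2) : |l ^ i| ≤ 1 + l ^ 2 := by
  have h0 := sq_nonneg l
  interval_cases i
  · simp [h0]
  · rw [pow_one, abs_le]
    constructor <;> nlinarith [sq_nonneg (l - 1), sq_nonneg (l + 1)]
  · rw [abs_of_nonneg h0]; linarith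

theorem rpow_pow_le {x q b : ℝ} (hx : 0 < x) (hq : 0 ≤ q) (hb : q ≤ b) (N : ℕ) :
    (x ^ q) ^ N ≤ 1 + x ^ (b * N) := by
  rw [← Real.rpow_natCast, ← Real.rpow_mul hx.le]
  have h0 : 0 ≤ x ^ (b * N) := Real.rpow_nonneg hx.le _
  rcases le_total x 1 with h | h
  · have := Real.rpow_le_one hx.le h (by positivity : 0 ≤ q * N)
    linarith
  · have := Real.rpow_le_rpow_of_exponent_le h
      (mul_le_mul_of_nonneg_right hb (Nat.cast_nonneg N : (0 : ℝ) ≤ N))
    linarith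

theorem int_bound {C a : ℝ} (hC : 0 < C) (ha : 0 ≤ a) : IntegrableOn
    (fun w : ℝ => Real.exp (-w) * ((1 + Real.log (w / C) ^ 2) * (2 + (w / C) ^ a))) (Ioi 0) := by
  have i1 := (mu_int hC (by norm_num : (-1 : ℝ) < 0)).1
  have i2 := (mu_int hC (by linarith : (-1 : ℝ) < a)).1
  have i3 := int_nu hC (le_refl (0 : ℝ))
  have i4 := int_nu hC ha
  refine IntegrableOn.congr_fun (((i1.const_mul 2).add i2).add ((i3.const_mul 2).add i4))
    (fun w _ => ?_) measurableSet_Ioi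
  simp only [Pi.add_apply, Real.rpow_zero]
  ring

theorem meas {C q : ℝ} (i : ℕ) {Φ : ℝ → ℝ} (h : Continuous Φ) : AEStronglyMeasurable
    (fun w : ℝ => Real.exp (-w) * (Real.log (w / C) ^ i * Φ ((w / C) ^ q)))
    (volume.restrict (Ioi (0 : ℝ))) := by
  have h1 : Measurable fun w : ℝ => Φ ((w / C) ^ q) :=
    h.measurable.comp ((measurable_id.div_const C).pow_const q)
  have h2 : Measurable fun w : ℝ => Real.log (w / C) ^ i :=
    (Real.measurable_log.comp (measurable_id.div_const C)).pow_const i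
  have h3 : Measurable fun w : ℝ => Real.exp (-w) := by fun_prop
  exact (h3.mul (h2.mul h1)).aestronglyMeasurable

theorem bound {C q b K w : ℝ} (hC : 0 < C) (hq : 0 ≤ q) (hb : q ≤ b) {i N : ℕ} (hi : i ≤ 2)
    {Φ : ℝ → ℝ} (hK : 0 ≤ K) (h : ∀ R, 0 < R → |Φ R| ≤ K * (1 + R ^ N)) (hw : 0 < w) :
    ‖Real.exp (-w) * (Real.log (w / C) ^ i * Φ ((w / C) ^ q))‖ ≤
      K * (Real.exp (-w) * ((1 + Real.log (w / C) ^ 2) * (2 + (w / C) ^ (b * N)))) := by
  have hx : 0 < w / C := div_pos hw hC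
  have h1 := h _ (Real.rpow_pos_of_pos hx q)
  have h2 := rpow_pow_le hx hq hb N
  have h3 := abs_pow_le (Real.log (w / C)) hi
  have h4 : |Φ ((w / C) ^ q)| ≤ K * (2 + (w / C) ^ (b * N)) :=
    h1.trans (mul_le_mul_of_nonneg_left (by linarith) hK)
  rw [Real.norm_eq_abs, abs_mul, abs_mul, abs_of_pos (Real.exp_pos _)]
  calc Real.exp (-w) * (|Real.log (w / C) ^ i| * |Φ ((w / C) ^ q)|)
      ≤ Real.exp (-w) * ((1 + Real.log (w / C) ^ 2) * (K * (2 + (w / C) ^ (b * N)))) := by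
        gcongr
    _ = _ := by ring

theorem key {C q K : ℝ} (hC : 0 < C) (hq : 0 < q) {i N : ℕ} (hi : i ≤ 1) {Φ Ψ : ℝ → ℝ}
    (cΦ : Continuous Φ) (cΨ : Continuous Ψ) (hd : ∀ R, 0 < R → HasDerivAt Φ (Ψ R / R) R)
    (hK : 0 ≤ K) (hΦ : ∀ R, 0 < R → |Φ R| ≤ K * (1 + R ^ N))
    (hΨ : ∀ R, 0 < R → |Ψ R| ≤ K * (1 + R ^ N)) :
    HasDerivAt
      (fun q : ℝ => ∫ w in Ioi (0 : ℝ), Real.exp (-w) * (Real.log (w / C) ^ i * Φ ((w / C) ^ q)))
      (∫ w in Ioi (0 : ℝ), Real.exp (-w) * (Real.log (w / C) ^ (i + 1) * Ψ ((w / C) ^ q))) q := by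
  have hI := (int_bound hC (by positivity : 0 ≤ 2 * q * N)).const_mul K
  refine (hasDerivAt_integral_of_dominated_loc_of_deriv_le (μ := volume.restrict (Ioi (0 : ℝ)))
    (F := fun q w => Real.exp (-w) * (Real.log (w / C) ^ i * Φ ((w / C) ^ q)))
    (F' := fun q w => Real.exp (-w) * (Real.log (w / C) ^ (i + 1) * Ψ ((w / C) ^ q)))
    (bound := fun w => K * (Real.exp (-w) *
      ((1 + Real.log (w / C) ^ 2) * (2 + (w / C) ^ (2 * q * N)))))
    (x₀ := q) (s := Ioo 0 (2 * q)) (Ioo_mem_nhds hq (by linarith))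
    (Filter.Eventually.of_forall fun s => meas i cΦ) ?_ (meas (i + 1) cΨ) ?_ hI ?_).2
  · refine hI.mono' (meas i cΦ) ((ae_restrict_iff' measurableSet_Ioi).2
      (Filter.Eventually.of_forall fun w hw => ?_))
    exact bound hC hq.le (by linarith) (by omega) hK hΦ hw
  · refine (ae_restrict_iff' measurableSet_Ioi).2 (Filter.Eventually.of_forall fun w hw s hs => ?_)
    exact bound hC hs.1.le hs.2.le (by omega) hK hΨ hw
  · refine (ae_restrict_iff' measurableSet_Ioi).2 (Filter.Eventually.of_forall fun w hw s _ => ?_)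
    have hx : 0 < w / C := div_pos hw hC
    have hR := Real.rpow_pos_of_pos hx s
    have h1 : HasDerivAt (fun s : ℝ => (w / C) ^ s) ((w / C) ^ s * Real.log (w / C)) s :=
      (Real.hasStrictDerivAt_const_rpow hx s).hasDerivAt
    have h2 := (((hd _ hR).comp s h1).const_mul (Real.log (w / C) ^ i)).const_mul (Real.exp (-w))
    refine h2.congr_deriv ?_
    field_simp
    ring

theorem pow_le_one_add {R : ℝ} (hR : 0 < R) {m N : ℕ} (h : m ≤ N) : R ^ m ≤ 1 + R ^ N := by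
  have h0 : 0 ≤ R ^ N := by positivity
  rcases le_total R 1 with h1 | h1
  · have := pow_le_one₀ hR.le h1 (n := m)
    linarith
  · have := pow_le_pow_right₀ h1 h
    linarith

theorem abs_term (k : ℕ) {R : ℝ} (hR : 0 < R) (z : ℝ) {m N : ℕ} (h : m ≤ N) :
    |R ^ m * CC k z| ≤ bb k * (1 + R ^ N) := by
  rw [abs_mul, abs_of_pos (pow_pos hR _), mul_comm]
  exact mul_le_mul (abs_CC _ _) (pow_le_one_add hR h) (by positivity) (bb_pos k).le

end FQgX

open FQgX

variable {C q y : ℝ}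

theorem hasDerivAt_GG_q (hC : 0 < C) (hq : 0 < q) (hy : 0 ≤ y) (j : ℕ) :
    HasDerivAt (fun q => GG C j q y) (GG1 C j q y) q := by
  have c0 := cont_CC j
  have c1 := cont_CC (j + 1)
  have b0 := bb_pos j
  have b1 := bb_pos (j + 1)
  have h := key hC hq (i := 0) (N := 2 * j + 1) (K := bb j + bb (j + 1)) (by norm_num)
    (Φ := fun R => R ^ (2 * j + 1) * CC (j + 1) (R ^ 2 * y))
    (Ψ := fun R => -(1 / 2) * (R ^ (2 * j + 1) * CC j (R ^ 2 * y)))
    (by fun_prop) (by fun_prop) (fun R hR => ?_) (by positivity) (fun R hR => ?_) (fun R hR => ?_)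
  · have h2 := h.const_mul (-2)
    simp only [pow_zero, one_mul, zero_add, pow_one] at h2
    refine h2.congr_deriv ?_
    rw [← integral_const_mul, GG1]
    congr 1
    funext w
    ring
  · have h1 := (hasDerivAt_pow (2 * j + 1) R).mul (deriv_CC (j + 1) hy hR)
    refine h1.congr_deriv ?_
    rw [CC_rec j (by positivity : 0 ≤ R ^ 2 * y)]
    simp only [Nat.add_sub_cancel]
    field_simp
    push_cast
    ring
  · refine (abs_term (j + 1) hR _ le_rfl).trans ?_
    gcongr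
    linarith
  · rw [abs_mul]
    have h1 := abs_term j hR (R ^ 2 * y) (le_refl (2 * j + 1))
    have h2 : 0 ≤ bb (j + 1) * (1 + R ^ (2 * j + 1)) := by positivity
    have h3 : |(-(1 / 2) : ℝ)| = 1 / 2 := by norm_num
    have h4 := abs_nonneg (R ^ (2 * j + 1) * CC j (R ^ 2 * y))
    rw [h3]
    nlinarith

theorem hasDerivAt_GG1_q (hC : 0 < C) (hq : 0 < q) (hy : 0 ≤ y) (j : ℕ) :
    HasDerivAt (fun q => GG1 C j q y) (GG2 C j q y) q := by
  have c0 := cont_CC j
  have c1 := cont_CC (j + 1)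
  have b0 := bb_pos j
  have b1 := bb_pos (j + 1)
  have h := key hC hq (i := 1) (N := 2 * j + 3) (K := (2 * j + 1) * bb j + 2 * y * bb (j + 1))
    (by norm_num)
    (Φ := fun R => R ^ (2 * j + 1) * CC j (R ^ 2 * y))
    (Ψ := fun R => R ^ (2 * j + 1) * ((2 * j + 1) * CC j (R ^ 2 * y) +
      2 * (R ^ 2 * y) * CC (j + 1) (R ^ 2 * y)))
    (by fun_prop) (by fun_prop) (fun R hR => ?_) (by positivity) (fun R hR => ?_) (fun R hR => ?_)
  · simp only [pow_one] at h
    exact h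
  · have h1 := (hasDerivAt_pow (2 * j + 1) R).mul (deriv_CC j hy hR)
    refine h1.congr_deriv ?_
    simp only [Nat.add_sub_cancel]
    field_simp
    push_cast
    ring
  · refine (abs_term j hR _ (by omega : 2 * j + 1 ≤ 2 * j + 3)).trans ?_
    gcongr
    have : 0 ≤ 2 * y * bb (j + 1) := by positivity
    have : 0 ≤ 2 * j * bb j := by positivity
    linarith
  · have h1 := abs_term j hR (R ^ 2 * y) (by omega : 2 * j + 1 ≤ 2 * j + 3)
    have h2 := abs_term (j + 1) hR (R ^ 2 * y) (le_refl (2 * j + 3))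
    have e : R ^ (2 * j + 1) * ((2 * j + 1) * CC j (R ^ 2 * y) +
        2 * (R ^ 2 * y) * CC (j + 1) (R ^ 2 * y)) =
        (2 * j + 1) * (R ^ (2 * j + 1) * CC j (R ^ 2 * y)) +
          2 * y * (R ^ (2 * j + 3) * CC (j + 1) (R ^ 2 * y)) := by ring
    rw [e]
    refine (abs_add_le _ _).trans ?_
    rw [abs_mul, abs_mul (2 * y), abs_of_nonneg (by positivity : (0 : ℝ) ≤ 2 * j + 1),
      abs_of_nonneg (by positivity : (0 : ℝ) ≤ 2 * y)]
    calc _ ≤ (2 * j + 1) * (bb j * (1 + R ^ (2 * j + 3))) +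
          2 * y * (bb (j + 1) * (1 + R ^ (2 * j + 3))) := by gcongr
      _ = _ := by ring

theorem hasDerivAt_gg_q (hC : 0 < C) (hq : 0 < q) (hy : 0 ≤ y) (j : ℕ) :
    HasDerivAt (fun q => gg C j q y) (gq1 C j q y) q := by
  have hm := mu_pos hC (by linarith : -1 < q)
  have h := (hasDerivAt_GG_q hC hq hy j).div (hasDerivAt_mu hC hq) hm.ne'
  refine h.congr_deriv ?_
  unfold gq1 gg
  field_simp

theorem hasDerivAt_gq1_q (hC : 0 < C) (hq : 0 < q) (hy : 0 ≤ y) (j : ℕ) :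
    HasDerivAt (fun q => gq1 C j q y) (gq2 C j q y) q := by
  have hm := mu_pos hC (by linarith : -1 < q)
  have h := ((hasDerivAt_GG1_q hC hq hy j).sub
    ((hasDerivAt_mu1 hC hq).mul (hasDerivAt_gg_q hC hq hy j))).div (hasDerivAt_mu hC hq) hm.ne'
  refine h.congr_deriv ?_
  have e : GG1 C j q y - mu1 C q * gg C j q y = gq1 C j q y * mu C q := by
    unfold gq1
    field_simp
  simp only [Pi.sub_apply, Pi.mul_apply]
  rw [e]
  unfold gq2
  field_simp
  ring

theorem abs_gq2_le (hC : 0 < C) (hq : 0 < q) (j : ℕ) (y c0 : ℝ) {M m0 m1 n1 : ℝ} (h0 : 0 < m0)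
    (hm : m0 ≤ mu C q) (h1 : |mu1 C q| ≤ m1) (hn : nu C q ≤ n1)
    (hM : |GG2 C j q y - c0 * nu C q| ≤ M) :
    |gq2 C j q y| ≤ M / m0 + 2 * m1 / m0 * |gq1 C j q y| + n1 / m0 * |gg C j q y - c0| := by
  have hp := mu_pos hC (by linarith : -1 < q)
  have hnu := nu_nonneg hC q
  have e : gq2 C j q y = ((GG2 C j q y - c0 * nu C q) - 2 * (mu1 C q * gq1 C j q y) -
      nu C q * (gg C j q y - c0)) / mu C q := by
    unfold gq2
    ring
  have h2 : |(GG2 C j q y - c0 * nu C q) - 2 * (mu1 C q * gq1 C j q y) -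
      nu C q * (gg C j q y - c0)| ≤ M + 2 * (m1 * |gq1 C j q y|) + n1 * |gg C j q y - c0| := by
    refine (abs_sub _ _).trans (add_le_add ((abs_sub _ _).trans (add_le_add hM ?_)) ?_)
    · rw [abs_mul, abs_mul, abs_two]
      gcongr
    · rw [abs_mul, abs_of_nonneg hnu]
      gcongr
  rw [e, abs_div, abs_of_pos hp]
  calc _ ≤ (M + 2 * (m1 * |gq1 C j q y|) + n1 * |gg C j q y - c0|) / m0 :=
        div_le_div₀ ((abs_nonneg _).trans h2) h2 h0 hm
    _ = _ := by ring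

/-- A crude global bound for the first derivative in `q`. -/
theorem abs_gq1_le (hC : 0 < C) (hq : 0 < q) (hy : 0 ≤ y) {m0 m1 n1 : ℝ} (h0 : 0 < m0)
    (hm : m0 ≤ mu C q) (h1 : |mu1 C q| ≤ m1) (hn : nu C q ≤ n1) :
    |gq1 C 0 q y| ≤ 1 / 2 + n1 / (2 * m0) + m1 / m0 := by
  have hp := mu_pos hC (by linarith : -1 < q)
  have hnu := nu_nonneg hC q
  obtain ⟨i1, e1⟩ := mu_int hC (by linarith : -1 < q)
  have i2 := int_nu hC hq.le
  have hG : |GG1 C 0 q y| ≤ (mu C q + nu C q) / 2 := by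
    have e : (mu C q + nu C q) / 2 = ∫ w in Ioi (0 : ℝ), (1 / 2) * (Real.exp (-w) * (w / C) ^ q +
        Real.exp (-w) * ((w / C) ^ q * Real.log (w / C) ^ 2)) := by
      rw [integral_const_mul, integral_add i1 i2, e1, nu]
      ring
    rw [e, GG1, ← Real.norm_eq_abs]
    refine norm_integral_le_of_norm_le ((i1.add i2).const_mul (1 / 2))
      ((ae_restrict_iff' measurableSet_Ioi).2 (Filter.Eventually.of_forall fun w hw => ?_))
    have hR := Real.rpow_pos_of_pos (div_pos hw hC) q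
    have h2 : |CC 0 (((w / C) ^ q) ^ 2 * y)| ≤ 1 := abs_CC 0 _
    have h3 : |Real.log (w / C)| ≤ (1 + Real.log (w / C) ^ 2) / 2 := by
      rw [abs_le]
      constructor <;> nlinarith [sq_nonneg (Real.log (w / C) - 1), sq_nonneg (Real.log (w / C) + 1)]
    rw [Real.norm_eq_abs, abs_mul, abs_mul, abs_mul, abs_of_pos (Real.exp_pos _), mul_zero,
      zero_add, pow_one, abs_of_pos hR]
    calc Real.exp (-w) * (|Real.log (w / C)| * ((w / C) ^ q * |CC 0 (((w / C) ^ q) ^ 2 * y)|))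
        ≤ Real.exp (-w) * ((1 + Real.log (w / C) ^ 2) / 2 * ((w / C) ^ q * 1)) := by gcongr
      _ = _ := by ring
  have hg : |gg C 0 q y| ≤ 1 := (gg_sm hC hq).bd y hy
  have hm1 : 0 ≤ m1 := (abs_nonneg _).trans h1
  have h2 : |GG1 C 0 q y - mu1 C q * gg C 0 q y| ≤ (mu C q + nu C q) / 2 + m1 := by
    refine (abs_sub _ _).trans (add_le_add hG ?_)
    rw [abs_mul]
    calc _ ≤ m1 * 1 := by gcongr
      _ = m1 := mul_one _
  rw [gq1, abs_div, abs_of_pos hp]
  calc _ ≤ ((mu C q + nu C q) / 2 + m1) / mu C q := by gcongr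
    _ = 1 / 2 + nu C q / (2 * mu C q) + m1 / mu C q := by field_simp
    _ ≤ _ := by gcongr; exact hnu.trans hn

end Pool.Agent.MP_39fec4_gt.Full
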