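import Pool.Agent.MP_39fec4_gt.Point

set_option autoImplicit false

namespace Pool.Agent.MP_39fec4_gt

open MeasureTheory Set Filter Topology

noncomputable def W (a x : ℝ) : ℝ := x ^ a * gg x

noncomputable def EE (s : ℝ) : ℝ := Real.exp (s ^ 2 / 4)

noncomputable def Z2 : ℝ := √Real.pi / 2

variable {a x η : ℝ}

theorem EE_pos (s : ℝ) : 0 < EE s := Real.exp_pos _

theorem one_le_EE (s : ℝ) : 1 ≤ EE s := Real.one_le_exp (by positivity)

theorem Z2_bounds : 4 / 5 ≤ Z2 ∧ Z2 ≤ 1 := by
  have h1 : 8 / 5 ≤ √Real.pi := Real.le_sqrt_of_sq_le (by linarith [Real.pi_gt_three])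
  have h2 : √Real.pi ≤ 2 := Real.sqrt_le_iff.2 ⟨by norm_num, by linarith [Real.pi_lt_four]⟩
  unfold Z2; constructor <;> linarith

theorem int_W (ha : -1 < a) : IntegrableOn (W a) (Ioi 0) := by
  have := integrableOn_rpow_mul_exp_neg_mul_sq (b := 1) one_pos ha
  refine this.congr_fun (fun x _ => ?_) measurableSet_Ioi
  simp [W, gg]

theorem W_pos (a : ℝ) (hx : 0 < x) : 0 < W a x := mul_pos (Real.rpow_pos_of_pos hx a) (gg_pos x)

theorem W_succ (a : ℝ) (hx : 0 < x) : W (a + 1) x = x * W a x := by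
  rw [W, W, Real.rpow_add_one hx.ne']; ring

theorem W_zero (x : ℝ) : W 0 x = gg x := by simp [W]

theorem W_one (x : ℝ) : W 1 x = x * gg x := by simp [W]

theorem W_two (x : ℝ) : W 2 x = x ^ 2 * gg x := by simp [W]

theorem W_add_two (a : ℝ) (hx : 0 < x) : W (2 + a) x = x ^ 2 * x ^ a * gg x := by
  rw [W, Real.rpow_add hx, Real.rpow_two]

theorem hasDerivAt_W (a : ℝ) (hx : 0 < x) :
    HasDerivAt (W a) (a * W (a - 1) x + (-2) * W (a + 1) x) x := by
  refine ((hasDerivAt_u a hx).mul (hasDerivAt_gg x)).congr_deriv ?_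
  rw [W, W, Real.rpow_add_one hx.ne', Real.rpow_sub_one hx.ne']; ring

theorem tendsto_W (ha : 0 < a) : Tendsto (W a) (𝓝[>] 0) (𝓝 0) := by
  have h1 : Continuous (W a) := by
    have : Continuous fun x : ℝ => x ^ a := Real.continuous_rpow_const ha.le
    unfold W gg; fun_prop
  have := (h1.tendsto 0).mono_left (nhdsWithin_le_nhds (s := Ioi 0))
  rwa [W, Real.zero_rpow ha.ne', zero_mul] at this

theorem parts_cos_W (ha : 0 < a) (s : ℝ) :
    s * cosT (W a) s = -(a * sinT (W (a - 1)) s + (-2) * sinT (W (a + 1)) s) := by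
  have i1 := int_W (a := a - 1) (by linarith)
  have i2 := int_W (a := a + 1) (by linarith)
  rw [parts_cos (int_W (by linarith)) ((i1.const_mul a).add (i2.const_mul (-2)))
    (fun x hx => hasDerivAt_W a hx) (tendsto_W ha) s, ← sinT_lin i1 i2]
  rfl

theorem parts_sin_W (ha : 0 < a) (s : ℝ) :
    s * sinT (W a) s = a * cosT (W (a - 1)) s + (-2) * cosT (W (a + 1)) s := by
  have i1 := int_W (a := a - 1) (by linarith)
  have i2 := int_W (a := a + 1) (by linarith)
  rw [parts_sin (int_W (by linarith)) ((i1.const_mul a).add (i2.const_mul (-2)))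
    (fun x hx => hasDerivAt_W a hx) (tendsto_W ha) s, ← cosT_lin i1 i2]
  rfl

theorem parts_cos_W0 (s : ℝ) : s * cosT (W 0) s = 2 * sinT (W 1) s := by
  have i2 := int_W (a := 1) (by norm_num)
  have hc : Continuous (W 0) := by
    have : W 0 = gg := funext W_zero
    rw [this]; unfold gg; fun_prop
  have := parts_cos (k := W 0) (k' := fun x => (-2) * W 1 x + 0 * W 1 x) (int_W (by norm_num))
    ((i2.const_mul _).add (i2.const_mul _))
    (fun x hx => (hasDerivAt_W 0 hx).congr_deriv (by simp))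
    ((hc.tendsto 0).mono_left nhdsWithin_le_nhds) s
  rw [sinT_lin i2 i2] at this
  linarith

theorem hasDerivAt_EE (s : ℝ) : HasDerivAt EE (s / 2 * EE s) s := by
  refine ((hasDerivAt_pow 2 s).div_const 4).exp.congr_deriv ?_
  simp [EE]; ring

theorem hasDerivAt_C (ha : -1 < a) (s : ℝ) :
    HasDerivAt (cosT (W a)) (-sinT (W (a + 1)) s) s :=
  hasDerivAt_cosT (int_W ha) (int_W (by linarith)) (fun _ hx => W_succ a hx) s

theorem hasDerivAt_S (ha : -1 < a) (s : ℝ) :
    HasDerivAt (sinT (W a)) (cosT (W (a + 1)) s) s :=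
  hasDerivAt_sinT (int_W ha) (int_W (by linarith)) (fun _ hx => W_succ a hx) s

theorem hasDerivAt_EC (ha : 0 < a) (s : ℝ) :
    HasDerivAt (fun s => EE s * cosT (W a) s) (-(a / 2) * (EE s * sinT (W (a - 1)) s)) s := by
  refine ((hasDerivAt_EE s).mul (hasDerivAt_C (by linarith) s)).congr_deriv ?_
  have := parts_cos_W ha s
  linear_combination EE s / 2 * this

theorem hasDerivAt_ES (ha : 0 < a) (s : ℝ) :
    HasDerivAt (fun s => EE s * sinT (W a) s) (a / 2 * (EE s * cosT (W (a - 1)) s)) s := by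
  refine ((hasDerivAt_EE s).mul (hasDerivAt_S (by linarith) s)).congr_deriv ?_
  have := parts_sin_W ha s
  linear_combination EE s / 2 * this

theorem EE_mul_C0 (s : ℝ) : EE s * cosT (W 0) s = Z2 := by
  have hd : ∀ s, HasDerivAt (fun s => EE s * cosT (W 0) s) 0 s := fun s => by
    refine ((hasDerivAt_EE s).mul (hasDerivAt_C (by norm_num) s)).congr_deriv ?_
    have := parts_cos_W0 s
    rw [zero_add]
    linear_combination EE s / 2 * this
  have := is_const_of_deriv_eq_zero (fun s => (hd s).differentiableAt) (fun s => (hd s).deriv) s 0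
  rw [this, cosT_zero]
  have h := integral_gaussian_Ioi 1
  simp only [neg_mul, one_mul, div_one] at h
  simp [EE, W_zero, gg, h, Z2]

theorem C0_eq (s : ℝ) : cosT (W 0) s = Z2 * Real.exp (-s ^ 2 / 4) := by
  rw [← EE_mul_C0 s, EE, mul_right_comm, ← Real.exp_add]
  simp [neg_div]

theorem S1_eq (s : ℝ) : sinT (W 1) s = s / 2 * (Z2 * Real.exp (-s ^ 2 / 4)) := by
  rw [← C0_eq]; linarith [parts_cos_W0 s]

theorem C2_eq (s : ℝ) : cosT (W 2) s = (1 / 2 - s ^ 2 / 4) * (Z2 * Real.exp (-s ^ 2 / 4)) := by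
  have := parts_sin_W one_pos s
  rw [sub_self, one_add_one_eq_two, S1_eq, C0_eq] at this
  linarith

/-- The integration by parts against `1 - cos`. -/
theorem sin_lower (h0 : 0 < η) (h1 : η ≤ 1) (s : ℝ) :
    cosT (W η) 0 ≤ s / 2 * sinT (W (η - 1)) s + cosT (W η) s := by
  have i0 := int_W (a := η) (by linarith)
  have i1 := int_W (a := η - 1) (by linarith)
  have c0 : ∀ a, ContinuousOn (W a) (Ioi 0) := fun a => (contOn_rpow a).mul contOn_gg
  have hW : ∀ x, 0 < x → x ^ 2 * W (η - 1 - 1) x = W η x := fun x hx => by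
    have a1 := W_succ (η - 1 - 1) hx
    have a2 := W_succ (η - 1) hx
    rw [sub_add_cancel] at a1 a2
    rw [a2, a1]; ring
  have i2 : IntegrableOn (fun x => W (η - 1 - 1) x * (1 - Real.cos (s * x))) (Ioi 0) := by
    refine (i0.const_mul (s ^ 2)).mono'
      (((c0 _).mul (by fun_prop)).aestronglyMeasurable measurableSet_Ioi)
      ((ae_restrict_iff' measurableSet_Ioi).2 (Eventually.of_forall fun x hx => ?_))
    have hp := W_pos (η - 1 - 1) hx
    rw [Real.norm_eq_abs, abs_mul, abs_of_pos hp, abs_sub_comm, ← hW x hx]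
    calc _ ≤ W (η - 1 - 1) x * ((s * x) ^ 2 / 2) := by gcongr; exact abs_one_sub_cos_le _
      _ = s ^ 2 * (x ^ 2 * W (η - 1 - 1) x) / 2 := by ring
      _ ≤ _ := half_le_self (by positivity)
  have i3 := int_cos i0 s
  have i4 := int_sin i1 s
  have hinf : Tendsto (W (η - 1)) atTop (𝓝 0) := by
    have h2 := tendsto_zero_of_hasDerivAt_of_integrableOn_Ioi
      (fun x (hx : x ∈ Ioi (0 : ℝ)) => hasDerivAt_W η hx)
      ((i1.const_mul η).add ((int_W (a := η + 1) (by linarith)).const_mul (-2))) i0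
    refine squeeze_zero' ?_ ?_ h2
    · filter_upwards [eventually_gt_atTop 0] with x hx using (W_pos _ hx).le
    · filter_upwards [eventually_ge_atTop 1] with x hx
      have a2 := W_succ (η - 1) (by linarith : 0 < x)
      rw [sub_add_cancel] at a2
      rw [a2]
      exact le_mul_of_one_le_left (W_pos _ (by linarith)).le hx
  have key := integral_Ioi_deriv_mul_eq_sub (u := W (η - 1))
    (u' := fun x => (η - 1) * W (η - 1 - 1) x + (-2) * W η x)
    (v := fun x => 1 - Real.cos (s * x)) (v' := fun x => s * Real.sin (s * x))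
    (a := 0) (a' := 0) (b' := 0)
    (fun x hx => by simpa only [sub_add_cancel] using hasDerivAt_W (η - 1) hx)
    (fun x _ => by
      have := ((hasDerivAt_id x).const_mul s).cos.const_sub 1
      refine this.congr_deriv ?_
      simp; ring)
    ((((i2.const_mul (η - 1)).add (i0.const_mul (-2))).add ((i3.const_mul 2).add
      (i4.const_mul s))).congr (Eventually.of_forall fun x => by simp; ring))
    (by
      refine squeeze_zero_norm' ?_ (by simpa using (tendsto_W (a := η + 1) (by linarith)).const_mul (s ^ 2))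
      filter_upwards [self_mem_nhdsWithin] with x hx
      have hx : 0 < x := hx
      have hp := W_pos (η - 1) hx
      have a2 := W_succ (η - 1) hx
      rw [sub_add_cancel] at a2
      rw [Pi.mul_apply, Real.norm_eq_abs, abs_mul, abs_of_pos hp, abs_sub_comm, W_succ η hx, a2]
      calc _ ≤ W (η - 1) x * ((s * x) ^ 2 / 2) := by gcongr; exact abs_one_sub_cos_le _
        _ = s ^ 2 * (x * (x * W (η - 1) x)) / 2 := by ring
        _ ≤ _ := half_le_self (by positivity))
    (tendsto_mul_bdd_atTop hinf (B := 2) fun x => by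
      have := Real.cos_le_one (s * x)
      have := Real.neg_one_le_cos (s * x)
      rw [abs_le]; constructor <;> linarith)
  have e : ∫ x in Ioi (0 : ℝ), (((η - 1) * W (η - 1 - 1) x + (-2) * W η x) *
      (1 - Real.cos (s * x)) + W (η - 1) x * (s * Real.sin (s * x))) =
      ((η - 1) * (∫ x in Ioi (0 : ℝ), W (η - 1 - 1) x * (1 - Real.cos (s * x))) +
        (-2) * cosT (W η) 0) + (2 * cosT (W η) s + s * sinT (W (η - 1)) s) := by
    rw [cosT_zero]
    unfold cosT sinT
    rw [← integral_const_mul, ← integral_const_mul, ← integral_const_mul, ← integral_const_mul,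
      ← integral_add (i2.const_mul _) (i0.const_mul _),
      ← integral_add (i3.const_mul _) (i4.const_mul _)]
    refine Eq.trans ?_ (integral_add ((i2.const_mul _).add (i0.const_mul _))
        ((i3.const_mul _).add (i4.const_mul _)))
    congr 1; funext x; simp; ring
  rw [e] at key
  have hpos : 0 ≤ ∫ x in Ioi (0 : ℝ), W (η - 1 - 1) x * (1 - Real.cos (s * x)) :=
    setIntegral_nonneg measurableSet_Ioi fun x hx =>
      mul_nonneg (W_pos _ hx).le (by linarith [Real.cos_le_one (s * x)])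
  nlinarith

theorem ES_lower (h0 : 0 < η) (h1 : η ≤ 1) {m : ℝ} (hm : 0 ≤ m) (hm' : m ≤ cosT (W η) 0) {s : ℝ}
    (hs : 0 ≤ s) : m * s ≤ EE s * sinT (W (η - 1)) s := by
  have := nonneg_of_deriv (f := fun s => EE s * sinT (W (η - 1)) s - m * s)
    (f' := fun s => EE s * (s / 2 * sinT (W (η - 1)) s + cosT (W η) s) - m) (fun s => by
      have := ((hasDerivAt_EE s).mul (hasDerivAt_S (a := η - 1) (by linarith) s)).sub
        ((hasDerivAt_id s).const_mul m)
      refine this.congr_deriv ?_
      rw [sub_add_cancel]; ring) (by simp [sinT_zero]) (fun s _ => by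
      have := sin_lower h0 h1 s
      have := one_le_EE s
      nlinarith) hs
  linarith

/-- The first order term. -/
noncomputable def h0f (η s : ℝ) : ℝ :=
  EE s * cosT (W 0) s + EE s * cosT (W 2) s - EE s * cosT (W (2 + η)) s

noncomputable def h1f (η s : ℝ) : ℝ := -(s / 2 * Z2) + (2 + η) / 2 * (EE s * sinT (W (1 + η)) s)

noncomputable def h2f (η s : ℝ) : ℝ :=
  -(Z2 / 2) + (2 + η) / 2 * ((1 + η) / 2 * (EE s * cosT (W η) s))

theorem hasDerivAt_h0f (h0 : 0 < η) (s : ℝ) : HasDerivAt (h0f η) (h1f η s) s := by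
  have e : h0f η = fun s => Z2 + (1 / 2 - s ^ 2 / 4) * Z2 - EE s * cosT (W (2 + η)) s := by
    funext s
    rw [h0f, EE_mul_C0, C2_eq, ← C0_eq, mul_left_comm, EE_mul_C0]
  rw [e]
  have := (((((hasDerivAt_pow 2 s).div_const 4).const_sub (1 / 2)).mul_const Z2).const_add Z2).sub
    (hasDerivAt_EC (a := 2 + η) (by linarith) s)
  refine this.congr_deriv ?_
  rw [h1f, show 2 + η - 1 = 1 + η by ring]; push_cast; ring

theorem hasDerivAt_h1f (h0 : 0 < η) (s : ℝ) : HasDerivAt (h1f η) (h2f η s) s := by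
  have := ((((hasDerivAt_id s).div_const 2).mul_const Z2).neg).add
    ((hasDerivAt_ES (a := 1 + η) (by linarith) s).const_mul ((2 + η) / 2))
  refine this.congr_deriv ?_
  rw [h2f, show 1 + η - 1 = η by ring]; ring

theorem h0f_conc (h0 : 0 < η) (h1 : η ≤ 1) {m : ℝ} (hm : 0 ≤ m) (hm' : m ≤ cosT (W η) 0) {s : ℝ}
    (hs : 0 ≤ s) : s * h2f η s - h1f η s ≤ -(η * m / 12 * s ^ 3) := by
  have := nonneg_of_deriv (f := fun s => h1f η s - s * h2f η s - η * m / 12 * s ^ 3)
    (f' := fun s => s * ((2 + η) / 2 * ((1 + η) / 2 * (η / 2 * (EE s * sinT (W (η - 1)) s)))) -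
      η * m / 4 * s ^ 2) (fun s => by
      have h2 : HasDerivAt (h2f η)
          ((2 + η) / 2 * ((1 + η) / 2 * (-(η / 2) * (EE s * sinT (W (η - 1)) s)))) s :=
        (((hasDerivAt_EC h0 s).const_mul _).const_mul _).const_add _
      have := ((hasDerivAt_h1f h0 s).sub ((hasDerivAt_id s).mul h2)).sub
        ((hasDerivAt_pow 3 s).const_mul (η * m / 12))
      refine this.congr_deriv ?_
      simp; ring) (by simp [h1f, sinT_zero]) (fun s hs => by
      have h := ES_lower h0 h1 hm hm' hs.le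
      have hms : 0 ≤ m * s := by positivity
      have : s * (2 / 2 * (1 / 2 * (η / 2 * (m * s)))) ≤
          s * ((2 + η) / 2 * ((1 + η) / 2 * (η / 2 * (EE s * sinT (W (η - 1)) s)))) := by
        gcongr <;> linarith
      nlinarith) hs
  linarith

end Pool.Agent.MP_39fec4_gt
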