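set_option autoImplicit false

/-! Fixed point arithmetic with forty fractional bits. -/

namespace Pool.Agent.MP_39fec4_gt.K

/-- One in fixed point. -/
def SS : Nat := 1099511627776

/-- A very large value marking a bound that is not available. -/
def BIG : Nat := 1267650600228229401496703205376

/-- Evaluate a number before passing it on. -/
@[inline] def forceN {α : Type} (n : Nat) (f : Nat → α) : α :=
  Nat.casesOn (motive := fun _ => α) n (f 0) (fun k => f (Nat.succ k))

@[inline] def forceI {α : Type} (z : Int) (f : Int → α) : α :=
  Int.casesOn (motive := fun _ => α) z (fun k => forceN k (fun k => f (Int.ofNat k)))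
    (fun k => forceN k (fun k => f (Int.negSucc k)))

theorem forceN_eq {α : Type} (n : Nat) (f : Nat → α) : forceN n f = f n := by
  cases n <;> rfl

theorem forceI_eq {α : Type} (z : Int) (f : Int → α) : forceI z f = f z := by
  cases z <;> simp [forceI, forceN_eq]

def lfS {α β : Type} : List β → α → (β → α → α) → α
  | [], z, _ => z
  | a :: l, z, f => f a (lfS l z f)

/-- Right fold written with the recursor. -/
noncomputable def lf {α β : Type} (l : List β) (z : α) (f : β → α → α) : α :=
  List.rec z (fun a _ ih => f a ih) l

theorem lf_nil {α β : Type} (z : α) (f : β → α → α) : lf [] z f = z := rfl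

theorem lf_cons {α β : Type} (a : β) (l : List β) (z : α) (f : β → α → α) :
    lf (a :: l) z f = f a (lf l z f) := rfl

@[csimp] theorem lf_eq : @lf = @lfS := by
  funext α β l z f
  induction l with
  | nil => rfl
  | cons a l ih => rw [lf_cons, ih]; rfl

/-- The entry of a list, zero beyond its end. -/
def nth (l : List Nat) (i : Nat) : Nat :=
  lf (α := Nat → Nat) l (fun _ => 0)
    (fun a ih j => Nat.casesOn (motive := fun _ => Nat) j a (fun j' => ih j')) i

/-- Drop entries. -/
def drp (l : List Nat) (i : Nat) : List Nat :=
  Nat.rec (motive := fun _ => List Nat → List Nat) (fun l => l)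
    (fun _ ih l => List.casesOn (motive := fun _ => List Nat) l [] (fun _ t => ih t)) i l

def mulU (a b : Nat) : Nat := (a * b) >>> 40 + 1

def mulD (a b : Nat) : Nat := (a * b) >>> 40

def powU (a k : Nat) : Nat := ((a ^ k) <<< 40) >>> (40 * k) + 1

def powD (a k : Nat) : Nat := ((a ^ k) <<< 40) >>> (40 * k)

/-- Upper quotient; `BIG` when the divisor vanishes. -/
def divU (a b : Nat) : Nat := bif Nat.beq b 0 then BIG else (a <<< 40) / b + 1

def divD (a b : Nat) : Nat := (a <<< 40) / b

/-- Newton iteration for the integer square root. -/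
def isq (n : Nat) : Nat :=
  Nat.rec (motive := fun _ => Nat → Nat) (fun r => r)
    (fun _ ih r => forceN ((r + n / r) / 2) ih) 7 (1 <<< ((Nat.log2 n) / 2 + 1))

/-- A number whose square is at most `n`. -/
def isqL (n : Nat) : Nat := forceN (isq n) fun r => bif Nat.ble (r * r) n then r else r - 1

/-- A number whose square is at least `n`. -/
def isqU (n : Nat) : Nat :=
  forceN (isq n + 1) fun r => bif Nat.ble n (r * r) then r else n + 1

def sqrtL (y : Nat) : Nat := forceN (isqL (y <<< 40)) fun r =>
  bif Nat.ble (r * r) (y <<< 40) then r else 0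

def sqrtU (y : Nat) : Nat := isqU (y <<< 40)

/-- Bounds for `log 2`. -/
def LN2L : Nat := 762123384785

def LN2H : Nat := 762123384786

/-- Upper bound for `exp (-x)`. -/
def expU (x : Nat) : Nat := forceN x fun x => forceN (x / LN2H) fun e => forceN (x - e * LN2H) fun f =>
  forceN (mulD f f) fun f2 => (divD SS (SS + f + f2 / 2 + mulD f2 f / 6) + 1) >>> e + 1

/-- Lower bound for `-log a` when `0 < a`. -/
def nlogL (a : Nat) : Nat := forceN (39 - Nat.log2 a) fun e => forceN (SS - (a <<< e)) fun x =>
  forceN (mulD x x) fun x2 => e * LN2L + x + x2 / 2 + mulD x2 x / 3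

/-- Field `i` of width `w` in a packed number. -/
def fld (t w i : Nat) : Nat := (t >>> (w * i)) % (1 <<< w)

def absI (z : Int) : Nat := Int.natAbs z

/-- Positive and negative parts. -/
def posI (z : Int) : Nat := Int.toNat z

def negI (z : Int) : Nat := Int.toNat (-z)

def mulI (a : Int) (b : Int) : Int := Int.shiftRight (a * b) 40

end Pool.Agent.MP_39fec4_gt.K
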