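import Pool.Agent.MP_39fec4_gt.KVert

set_option autoImplicit false

/-! Data of a block of exponents, enclosures on the cells of a grid and range queries. -/

namespace Pool.Agent.MP_39fec4_gt.K

/-- The data of a block: `q` runs over `[m0 / 4096, (m0 + st * (nv - 1)) / 4096]`. -/
structure Blk where
  R : Nat
  m0 : Nat
  st : Nat
  nv : Nat
  lam : Nat
  lamh : Nat
  z2 : Nat
  Zc : Nat
  Z2 : Nat
  gam : Nat
  mL : Nat
  mH : Nat
  m1 : Nat
  n1 : Nat
  n2 : Nat
  n3 : Nat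
  n4 : Nat
  n5 : Nat
  nr : Nat
  be : Nat
  fac : Nat
  m2r : Nat
  m5r : Nat
  a5 : Nat
  c3r : Nat
  tau : Nat
  tauL : Nat
  kh : Nat
  kl : Nat
  d1g : Nat
  Yc : Nat
  Yp : Nat

/-- Numerator of the vertex `v`. -/
def Blk.qv (B : Blk) (v : Nat) : Nat := B.m0 + B.st * v

def Blk.m9 (B : Blk) : Nat := B.m0 + B.st * (B.nv - 1)

def Blk.dm (B : Blk) : Nat := B.st * (B.nv - 1)

def mL40 (G : Nat → Nat) (R m : Nat) : Nat := muL G R m >>> 216

def mH40 (G : Nat → Nat) (R m : Nat) : Nat := muH G R m >>> 216 + 1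

def nuH (G : Nat → Nat) (R m : Nat) : Nat :=
  (mH40 G R (m + 128) + mH40 G R (m - 128) - 2 * mL40 G R m) * 1024

/-- Bounds for `2 ^ (-1 / 4096)` with eighty fractional bits. -/
def THL : Nat := 1208721255985473650526259

def THH : Nat := 1208721255985473650526260

/-- Bounds for `2 ^ (-m / 4096)` in fixed point, for `m < 2 ^ 12`. -/
def twoL (m : Nat) : Nat :=
  Nat.rec (motive := fun _ => Nat → Nat) (fun a => a >>> 40)
    (fun i ih a => forceN ((a * a) >>> 80) fun a2 =>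
      forceN (bif Nat.beq ((m >>> i) % 2) 1 then (a2 * THL) >>> 80 else a2) ih) 12 (1 <<< 80)

def twoH (m : Nat) : Nat :=
  Nat.rec (motive := fun _ => Nat → Nat) (fun a => a >>> 40 + 1)
    (fun i ih a => forceN ((a * a) >>> 80 + 1) fun a2 =>
      forceN (bif Nat.beq ((m >>> i) % 2) 1 then (a2 * THH) >>> 80 + 1 else a2) ih) 12 (1 <<< 80)

/-- Bounds for `pi / sqrt 2`. -/
def PI2L : Nat := 2442500725676

def PI2H : Nat := 2442500725677

/-- Bounds for `kap` at a vertex. -/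
def kapL (G : Nat → Nat) (B : Blk) (v : Nat) : Nat :=
  divD (mulD PI2L (twoL (B.qv v))) (mH40 G B.R (B.qv v))

def kapH (G : Nat → Nat) (B : Blk) (v : Nat) : Nat :=
  divU (mulU PI2H (twoH (B.qv v))) (mL40 G B.R (B.qv v))

/-- Upper bound for `c3 (a / 4096) (b / 4096)`. -/
def c3U (a b : Nat) : Nat :=
  forceN ((4096 <<< 40) / a + 1) fun p => forceN (SS - (227 * a * SS) / 4096000) fun z =>
  mulU (mulU z z) (2 * mulU (mulU p p) (55 * SS / 100 + 1 - (36 * a * SS) / 409600) +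
    2 * mulU (mulU p (p - SS)) (37 * SS / 100 + 1 + (126 * b * SS) / 409600 + 1))

def scalChk (G : Nat → Nat) (B : Blk) : Bool :=
  forceN B.m0 fun a => forceN B.m9 fun b => forceN B.R fun R =>
  forceN ((mH40 G R (a - 16) - mL40 G R a) * 256) fun m1a =>
  forceN ((mL40 G R b - mH40 G R (b + 16)) * 256) fun m1b =>
  forceN (mulU B.be (B.dm <<< 27) + mulU B.nr ((B.dm * B.dm) <<< 13)) fun rh =>
  Nat.ble 128 a && Nat.blt b 2048 && Nat.ble 2 B.nv && Nat.blt 0 B.st && Nat.blt 0 R &&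
  Nat.ble (mH40 G R (b + 16)) (mL40 G R b) && Nat.blt 0 B.mL && Nat.ble B.mL (mL40 G R b) &&
  Nat.ble (mH40 G R a) B.mH && Nat.ble m1a B.m1 &&
  Nat.ble (LN2H - divD m1b B.mH) B.tau && Nat.ble (divU m1a B.mL - LN2L) B.tau &&
  (Nat.beq B.tauL 0 || Nat.ble (B.tauL + divU m1a B.mL) LN2L) &&
  Nat.ble (max (nuH G R a) (nuH G R b)) B.n1 &&
  Nat.ble (max (nuH G R (2 * a)) (nuH G R (2 * b))) B.n2 &&
  Nat.ble (max (nuH G R (3 * a)) (nuH G R (3 * b))) B.n3 &&
  Nat.ble (max (nuH G R (4 * a)) (nuH G R (4 * b))) B.n4 &&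
  Nat.ble (max (nuH G R (5 * a)) (nuH G R (5 * b))) B.n5 &&
  Nat.ble (divU B.n1 B.mL) B.nr && Nat.ble (divU (2 * B.m1) B.mL) B.be &&
  Nat.blt rh SS && Nat.ble (divU SS (SS - rh)) B.fac &&
  Nat.ble (divU (max (mH40 G R (2 * a)) (mH40 G R (2 * b))) B.mL) B.m2r &&
  Nat.ble (divU (max (mH40 G R (5 * a)) (mH40 G R (5 * b))) B.mL) B.m5r &&
  Nat.ble (divU (max (mH40 G R (11 * a)) (mH40 G R (11 * b))) B.mL / 332640 + 1) B.a5 &&
  Nat.blt 0 (powD B.mL 3) && Nat.ble (divU (c3U a b) (powD B.mL 3)) B.c3r &&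
  Nat.ble (divU (mulU PI2H (twoH a)) B.mL) B.kh && Nat.ble B.kl (divD (mulD PI2L (twoL b)) B.mH) &&
  Nat.ble (SS / 2 + divU B.n1 (2 * B.mL) + divU B.m1 B.mL) B.d1g && Nat.ble B.lam SS &&
  Nat.ble (max (mH40 G R (3 * a)) (mH40 G R (3 * b))) (6 * B.mL) &&
  Nat.ble (B.n1 + B.n2 + B.n3 + B.n4 + B.n5 + B.a5) 1152921504606846976

/-- Left end of the cell `i`; the cell `680` is unbounded. -/
def Yb (i : Nat) : Nat :=
  bif Nat.blt i 272 then
    (bif Nat.blt i 80 then (bif Nat.blt i 32 then i <<< 37 else (i - 16) <<< 38)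
      else (bif Nat.blt i 176 then (i - 48) <<< 39 else (i - 144) <<< 41))
  else bif Nat.blt i 656 then (bif Nat.blt i 464 then (i - 208) <<< 42 else (i - 400) <<< 44)
  else bif Nat.blt i 668 then (bif Nat.blt i 662 then (i - 654) <<< 51 else (i - 660) <<< 53)
  else bif Nat.blt i 674 then (i - 666) <<< 55 else (i - 672) <<< 57

/-- The cell containing a point. -/
def cidx (y : Nat) : Nat :=
  bif Nat.blt y 70368744177664 then
    (bif Nat.blt y 4398046511104 then y >>> 37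
      else bif Nat.blt y 17592186044416 then y >>> 38 + 16 else y >>> 39 + 48)
  else bif Nat.blt y 1125899906842624 then
    (bif Nat.blt y 281474976710656 then y >>> 41 + 144 else y >>> 42 + 208)
  else bif Nat.blt y 18014398509481984 then
    (bif Nat.blt y 4503599627370496 then y >>> 44 + 400 else y >>> 51 + 654)
  else bif Nat.blt y 72057594037927936 then y >>> 53 + 660
  else bif Nat.blt y 288230376151711744 then y >>> 55 + 666 else min (y >>> 57 + 672) 680

def OFF : Nat := 36028797018963968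

def INV : Nat := 72057594037927935

/-- Value at `d` of a polynomial of degree four, rounded down. -/
def hor4 (a0 a1 a2 a3 a4 d : Int) : Int :=
  Int.shiftRight ((((a4 * d + a3 * 1099511627776) * d + a2 * 1208925819614629174706176) * d +
    a1 * 1329227995784915872903807060280344576) * d +
    a0 * 1461501637330902918203684832716283019655932542976) 160

/-- Enclosures on `[d0, d1]` of a polynomial `p` with coefficients `c0 ... c4`: of `p`, `|p'|`,
`p''`, `p' + lam p` and `p'' + 2 lam p' + lam ^ 2 p`; `hh` bounds `(d1 - d0) ^ 2 / 8`. -/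
def encl {α : Type} (c0 c1 c2 c3 c4 d0 d1 : Int) (hh lam : Nat)
    (k : Int → Int → Nat → Int → Int → Int → Int → Int → Int → α) : α :=
  forceI (hor4 c0 c1 c2 c3 c4 d0) fun u0 => forceI (hor4 c0 c1 c2 c3 c4 d1) fun v0 =>
  forceI (hor4 c1 (2 * c2) (3 * c3) (4 * c4) 0 d0) fun u1 =>
  forceI (hor4 c1 (2 * c2) (3 * c3) (4 * c4) 0 d1) fun v1 =>
  forceI (hor4 (2 * c2) (6 * c3) (12 * c4) 0 0 d0) fun u2 =>
  forceI (hor4 (2 * c2) (6 * c3) (12 * c4) 0 0 d1) fun v2 =>
  forceN (absI (24 * c4)) fun p4 =>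
  forceN (max (absI (hor4 (6 * c3) (24 * c4) 0 0 0 d0)) (absI (hor4 (6 * c3) (24 * c4) 0 0 0 d1))
    + 1) fun p3 =>
  forceN (mulU p4 hh + 1) fun x2 => forceN (max (absI u2) (absI v2) + x2) fun p2 =>
  forceN (mulU p2 hh + 1) fun x0 => forceN (mulU p3 hh + 1) fun x1 =>
  forceN (x1 + mulU lam x0 + 1) fun y1 =>
  forceN (x2 + 2 * mulU lam x1 + mulU lam (mulU lam x0) + 4) fun y2 =>
  forceI (u1 + mulI lam u0) fun a1 => forceI (v1 + mulI lam v0) fun b1 =>
  forceI (u2 + mulI lam (u1 + a1)) fun a2 => forceI (v2 + mulI lam (v1 + b1)) fun b2 =>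
  k (min u0 v0 - x0) (max u0 v0 + x0) (max (absI u1) (absI v1) + x1) (min u2 v2 - x2)
    (max u2 v2 + x2) (min a1 b1 - y1) (max a1 b1 + y1) (min a2 b2 - y2) (max a2 b2 + y2)

/-- Bound for the fifth derivative on the cell of the coarse grid with left end `y`. -/
def b5 (B : Blk) (y : Nat) : Nat := min B.a5 (divU B.m5r (4 * powD y 3))

/-- Distance between the profile and its stored Taylor polynomial, and two derivatives. -/
def rem0 (b d : Nat) : Nat :=
  mulU b (powU d 5) / 120 + 1 + mulU 2 (SS + d + powU d 2 + powU d 3 + powU d 4)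

def rem1 (b d : Nat) : Nat :=
  mulU b (powU d 4) / 24 + 1 + mulU 2 (SS + 2 * d + 3 * powU d 2 + 4 * powU d 3)

def rem2 (b d : Nat) : Nat := mulU b (powU d 3) / 6 + 1 + mulU 2 (2 * SS + 6 * d + 12 * powU d 2)

/-- Bound for the second derivative in `q`. -/
def dq (B : Blk) (M s A : Nat) : Nat := mulU B.fac (divU M B.mL + mulU B.be s + mulU B.nr A)

def m0a (B : Blk) (y1 : Nat) : Nat := forceN (sqrtU (SS + y1)) fun c =>
  divU (mulU (SS + mulU c c) B.n1 + mulU y1 B.n3) (2 * c)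

def ofs (z : Int) : Nat := Int.toNat (z + (OFF : Int))

/-- Pack fifteen fields; zero when one of them does not fit. -/
def pk15 (f0 f1 f2 f3 f4 f5 f6 f7 f8 f9 f10 f11 f12 f13 f14 : Nat) : Nat :=
  bif Nat.blt 0 f0 && Nat.blt 0 f1 && Nat.blt 0 f3 && Nat.blt 0 f4 && Nat.blt 0 f7 &&
    Nat.ble (max (max (max (max f0 f1) (max f2 f3)) (max (max f4 f5) (max f6 f7)))
      (max (max (max f8 f9) (max f10 f11)) (max (max f12 f13) f14))) INV then
    f0 + (f1 <<< 56) + (f2 <<< 112) + (f3 <<< 168) + (f4 <<< 224) + (f5 <<< 280) + (f6 <<< 336) +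
      (f7 <<< 392) + (f8 <<< 448) + (f9 <<< 504) + (f10 <<< 560) + (f11 <<< 616) + (f12 <<< 672) +
      (f13 <<< 728) + (f14 <<< 784)
  else 0

/-- The field that encodes the lower bound for minus the second logarithmic derivative. -/
def ncf (lo hi l1h l2h : Int) : Nat :=
  bif Nat.beq (posI hi) 0 then INV else
    forceN (divD (negI l1h) (posI hi)) fun x => forceN (mulD x x) fun t =>
      bif Nat.beq (posI l2h) 0 then OFF - (divD (negI l2h) (posI hi) + t)
      else bif Nat.beq (posI lo) 0 then INV else min (OFF + divU (posI l2h) (posI lo) - t) INV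

/-- The record of the cell `[y0, y1]` from the tables at the two ends of the block. -/
def mkCell (B : Blk) (Va Vb : Nat → Nat) (y0 y1 : Nat) : Nat :=
  forceN (vidx y0) fun iv => forceN (vctr y0) fun ct => forceN (vhw y0) fun hw =>
  forceN (Va iv) fun ra => forceN (Vb iv) fun rb =>
  forceI (Int.subNatNat y0 ct) fun d0 => forceI (Int.subNatNat y1 ct) fun d1 =>
  forceN (mulU (y1 - y0) (y1 - y0) / 8 + 1) fun hh => forceN B.lam fun lam =>
  forceN (b5 B (ct - hw)) fun b =>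
  forceN (rem0 b hw) fun r0 => forceN (rem1 b hw) fun r1 => forceN (rem2 b hw) fun r2 =>
  encl (vco ra 0) (vco ra 1) (vco ra 2) (vco ra 3) (vco ra 4) d0 d1 hh lam
    fun alo ahi ak1 a2l a2h a1L a1H aLL aLH =>
  encl (vco rb 0) (vco rb 1) (vco rb 2) (vco rb 3) (vco rb 4) d0 d1 hh lam
    fun blo bhi bk1 b2l b2h b1L b1H bLL bLH =>
  encl (vco rb 0 - vco ra 0) (vco rb 1 - vco ra 1) (vco rb 2 - vco ra 2) (vco rb 3 - vco ra 3)
    (vco rb 4 - vco ra 4) d0 d1 hh lam fun clo chi ck1 c2l c2h _ _ _ _ =>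
  forceI (min alo blo) fun lo => forceI (max ahi bhi) fun hi => forceN (max ak1 bk1) fun k1 =>
  forceI (min a2l b2l) fun l2 => forceI (max a2h b2h) fun h2 =>
  forceN ((max (negI clo) (posI chi) + 2 * r0) * 4096 / B.dm + 1) fun s0 =>
  forceN ((ck1 + 2 * r1) * 4096 / B.dm + 1) fun s1 =>
  forceN ((max (negI c2l) (posI c2h) + 2 * r2) * 4096 / B.dm + 1) fun s2 =>
  forceN (sqrtL y0) fun ul =>
  forceN (min (dq B (m0a B y1) s0 (max (negI lo) (posI hi) + r0))
    (dq B (3 * mulU y1 B.n3 / 2 + 1) s0 (posI ((SS : Int) - lo) + r0))) fun D0 =>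
  forceN (dq B (min (3 * B.n3 / 2 + 1) (B.n3 / 2 + 1 + divU B.n2 ul)) s1 (k1 + r1)) fun D1 =>
  forceN (dq B (min (5 * B.n5 / 12 + 1) (divU B.n4 (4 * ul) + divU (3 * B.n3) (5 * mulD ul ul)))
    s2 (max (negI l2) (posI h2) + r2)) fun D2 =>
  forceN ((B.dm * B.dm) <<< 13) fun dd =>
  forceN (r0 + mulU D0 dd) fun e0 => forceN (r1 + mulU D1 dd) fun e1 =>
  forceN (r2 + mulU D2 dd) fun e2 =>
  forceN (e1 + mulU lam e0) fun f1 =>
  forceN (e2 + 2 * mulU lam e1 + mulU lam (mulU lam e0)) fun f2 =>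
  forceI (max (lo - e0) (-(SS : Int))) fun lo' => forceI (min (hi + e0) (SS : Int)) fun hi' =>
  forceI (min a1L b1L - f1) fun l1l => forceI (max a1H b1H + f1) fun l1h =>
  forceI (min aLL bLL - f2) fun l2l => forceI (max aLH bLH + f2) fun l2h =>
  bif Nat.ble y1 (ct + hw) && Nat.ble y0 y1 then
    pk15 (ofs (-lo')) (ofs hi') (k1 + e1) (ofs (-(l2 - e2))) (ofs (h2 + e2))
      (max (negI l1l) (posI l1h)) (max (negI l2l) (posI l2h)) (ncf lo' hi' l1h l2h)
      (s0 + mulU D0 (B.dm <<< 27)) D0 (r0 + 2) (posI l2h) (s1 + mulU D1 (B.dm <<< 27))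
      (s2 + mulU D2 (B.dm <<< 27)) (posI l1h)
  else 0

/-- Cubic decay bound at `y`. -/
def farc (B : Blk) (y : Nat) : Nat := divU B.c3r (mulD y (sqrtL y))

/-- Best decay bound at `y`. -/
def far0 (B : Blk) (y : Nat) : Nat := min (divU SS (mulD B.mL (sqrtL y))) (farc B y)

def far1 (y : Nat) : Nat := divU (3 * SS) (5 * y)

def far2 (B : Blk) (y : Nat) : Nat := divU B.m2r (3 * mulD y (sqrtL y))

/-- A better bound for the first derivative, from an inequality of Landau. -/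
def far1b (B : Blk) (y : Nat) : Nat := forceN (farc B y) fun a => forceN (far2 B y) fun b =>
  bif Nat.blt a BIG && Nat.blt b BIG then min (far1 y) (2 * isqU (a * b)) else far1 y

/-- The record of a cell beyond the tables. -/
def mkFar (B : Blk) (y0 y1 : Nat) : Nat :=
  forceN (min (far0 B y0) SS) fun f0 => forceN (far1b B y0) fun k1 => forceN (far2 B y0) fun k2 =>
  pk15 (OFF + f0) (OFF + f0) k1 (OFF + k2) (OFF + k2) (k1 + mulU B.lam f0)
    (k2 + 2 * mulU B.lam k1 + mulU B.lam (mulU B.lam f0)) INV B.d1g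
    (divU (m0a B y1) B.mL + mulU B.be B.d1g + mulU B.nr f0) 0 1 0 0 1

def gNeg (r : Nat) : Nat := fld r 56 0 - OFF
def gLop (r : Nat) : Nat := OFF - fld r 56 0
def gHip (r : Nat) : Nat := fld r 56 1 - OFF
def gHin (r : Nat) : Nat := OFF - fld r 56 1
def gAB (r : Nat) : Nat := max (fld r 56 0) (fld r 56 1) - OFF
def gK1 (r : Nat) : Nat := fld r 56 2
def gK2 (r : Nat) : Nat := max (fld r 56 3) (fld r 56 4) - OFF
def gL1 (r : Nat) : Nat := fld r 56 5
def gL2 (r : Nat) : Nat := fld r 56 6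
def gD1 (r : Nat) : Nat := fld r 56 8
def gD2 (r : Nat) : Nat := fld r 56 9
def gPe (r : Nat) : Nat := fld r 56 10

/-- Everything that is checked for the cell `i`; `T` is the table of records and `E` the table of
exponential envelopes. -/
def cellChk (B : Blk) (Va Vb T E : Nat → Nat) (i : Nat) : Bool :=
  forceN (Yb i) fun y0 => forceN (Yb (i + 1)) fun y1 => forceN (T i) fun r =>
  forceN (bif Nat.ble y1 B.Z2 then gNeg r else gAB r) fun a =>
  Nat.blt 0 r && Nat.beq r (bif Nat.blt y0 B.Yc then mkCell B Va Vb y0 y1 else mkFar B y0 y1) &&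
  (Nat.ble B.z2 y0 || Nat.blt 0 (gLop r)) && (Nat.ble B.Zc y0 || Nat.beq (fld r 56 11) 0) &&
  (Nat.ble y1 B.Zc || Nat.ble B.Z2 y0 || Nat.beq (gHip r) 0) &&
  Nat.ble (E i) (Nat.casesOn (motive := fun _ => Nat) i B.lam (fun i' => E i')) &&
  (Nat.beq a 0 || Nat.beq (E i) 0 || Nat.ble (mulU (E i) y1) (nlogL a)) &&
  (Nat.ble B.Yc y0 || Nat.ble (mulU (mulU a a) (SS + mulU B.gam y1)) SS)

/-- The cells `i0`, ..., `i0 + n - 1`. -/
def cellsChk (B : Blk) (Va Vb T E : Nat → Nat) (i0 n : Nat) : Bool :=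
  Nat.rec (motive := fun _ => Bool) true
    (fun i ih => forceN (i0 + i) (cellChk B Va Vb T E) && ih) n

/-- The remaining global conditions of a block. -/
def restChk (B : Blk) (Va Vb E : Nat → Nat) : Bool :=
  forceN (mkCell B Va Vb 0 0) fun r =>
  Nat.blt 0 r && Nat.beq (fld r 56 14) 0 && Nat.ble (gK1 r) B.lamh && Nat.ble B.lamh SS &&
  Nat.blt 0 B.lam && Nat.blt 0 B.z2 && Nat.ble B.z2 B.Zc && Nat.blt B.Zc B.Z2 &&
  Nat.ble B.Z2 B.Yc && Nat.ble B.Yp B.Yc && Nat.ble B.Yc 4503599627370496 &&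
  Nat.beq (Yb (cidx B.Yc)) B.Yc && Nat.ble B.gam (2 * B.lam) &&
  Nat.ble SS (mulD (mulD B.mL B.mL - B.gam) B.Yc) && Nat.beq (E 680) 0

/-- Fieldwise maximum of the first eleven fields. -/
def mrg (a b : Nat) : Nat :=
  max (fld a 56 0) (fld b 56 0) + (max (fld a 56 1) (fld b 56 1) <<< 56) +
    (max (fld a 56 2) (fld b 56 2) <<< 112) + (max (fld a 56 3) (fld b 56 3) <<< 168) +
    (max (fld a 56 4) (fld b 56 4) <<< 224) + (max (fld a 56 5) (fld b 56 5) <<< 280) +
    (max (fld a 56 6) (fld b 56 6) <<< 336) + (max (fld a 56 7) (fld b 56 7) <<< 392) +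
    (max (fld a 56 8) (fld b 56 8) <<< 448) + (max (fld a 56 9) (fld b 56 9) <<< 504) +
    (max (fld a 56 10) (fld b 56 10) <<< 560)

/-- The record of the `2 ^ L` cells starting at `i`. -/
def lv (T : Nat → Nat) (L i : Nat) : Nat :=
  Nat.rec (motive := fun _ => Nat → Nat) T
    (fun L ih i => forceN (ih i) fun a => forceN (i + (1 <<< L)) fun i' => forceN (ih i') fun b =>
      forceN (mrg a b) fun r => r) L i

/-- The record of the cells `ia`, ..., `ib`. -/
def rq2 (F : Nat → Nat → Nat) (ia ib : Nat) : Nat :=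
  bif Nat.beq ia ib then F 0 ia else
    forceN (Nat.log2 (ib + 1 - ia)) fun L => forceN (F L ia) fun a =>
      forceN (ib + 1 - (1 <<< L)) fun j => forceN (F L j) fun b => forceN (mrg a b) fun r => r

/-- The record of the interval `[a, b]`. -/
def rq (Q : Nat → Nat → Nat) (a b : Nat) : Nat :=
  forceN (cidx a) fun ia => forceN (max ia (cidx (b - 1))) fun ib => Q ia ib

/-- The record of the half line starting at `a`. -/
def rqI (Q : Nat → Nat → Nat) (a : Nat) : Nat := forceN (cidx a) fun ia => Q ia 680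

/-- Slope of an exponential envelope valid on `[0, y]`. -/
def envb (E : Nat → Nat) (y : Nat) : Nat := forceN (cidx (y - 1)) E

/-- Access to packed tables. -/
def tget (t w : Nat) (i : Nat) : Nat := fld t w i

def vget (l : List Nat) (v i : Nat) : Nat := fld (nth l v) 240 i

end Pool.Agent.MP_39fec4_gt.K
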