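import Pool.Agent.MP_39fec4_gt.KFast

set_option autoImplicit false

/-! Bounds for the integral of the difference between a product and the power of the value at
the mean. The variable `s` is cut at multiples of `1 / 64`. -/

namespace Pool.Agent.MP_39fec4_gt.K

/-- Run through the cells of a schedule, a list of numbers `count * 65536 + step`; the state
consists of three numbers. -/
def sweep {α : Type} (sch : List Nat)
    (cell : Nat → Nat → Nat → Nat → Nat → (Nat → Nat → Nat → α) → α)
    (fin : Nat → Nat → Nat → Nat → α) : α :=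
  lf (α := Nat → Nat → Nat → Nat → α) sch fin
    (fun c ih => forceN (c % 65536) fun ds =>
      Nat.rec (motive := fun _ => Nat → Nat → Nat → Nat → α) ih
        (fun _ ih2 s a b g => forceN (s + ds) fun s' => cell s s' a b g fun a' b' g' =>
          forceN a' fun a' => forceN b' fun b' => forceN g' fun g' => ih2 s' a' b' g')
        (c / 65536)) 0 0 0 0

def tS (s : Nat) : Nat := (s * s) <<< 28

def dS (sa sb : Nat) : Nat := (sb - sa) <<< 34

def t2L (sa sb : Nat) : Nat := ((sb ^ 3 - sa ^ 3) <<< 22) / 3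

def t4L (sa sb : Nat) : Nat := ((sb ^ 5 - sa ^ 5) <<< 10) / 5

def ev (k : Nat) : Bool := Nat.beq (k % 2) 0

/-- Parts of the range of a product of two factors. -/
def oHi (a b : Nat) : Nat := max (mulU (gHip a) (gHip b)) (mulU (gNeg a) (gNeg b))

def oNeg (a b : Nat) : Nat :=
  bif Nat.beq (gNeg a) 0 && Nat.beq (gNeg b) 0 then 0
  else max (mulU (gHip a) (gNeg b)) (mulU (gNeg a) (gHip b))

def oLop (a b : Nat) : Nat := max (mulD (gLop a) (gLop b)) (mulD (gHin a) (gHin b))

def oHin (a b : Nat) : Nat := max (mulD (gLop a) (gHin b)) (mulD (gHin a) (gLop b))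

/-- Parts of the range of a power. -/
def pHi (w k : Nat) : Nat := powU (bif ev k then gAB w else gHip w) k

def pNeg (w k : Nat) : Nat := bif ev k || Nat.beq (gNeg w) 0 then 0 else powU (gNeg w) k

def pLop (w k : Nat) : Nat := powD (bif ev k then max (gLop w) (gHin w) else gLop w) k

def pHin (w k : Nat) : Nat := bif ev k then 0 else powD (gHin w) k

/-- Sharper range on a short interval from the tables at the two ends of the block. -/
def fine (B : Blk) (Va Vb : Nat → Nat) (r a b : Nat) : Nat :=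
  bif Nat.blt b B.Yp then
    forceI (pev Va a) fun u1 => forceI (pev Va b) fun u2 => forceI (pev Vb a) fun u3 =>
    forceI (pev Vb b) fun u4 =>
    forceN (gPe r + mulU (gD2 r) ((B.dm * B.dm) <<< 13) +
      mulU (gK2 r) (mulU (b - a) (b - a)) / 8 + 1) fun e =>
    min (fld r 56 0) (ofs (-(min (min u1 u2) (min u3 u4))) + e) +
      (min (fld r 56 1) (ofs (max (max u1 u2) (max u3 u4)) + e) <<< 56) + ((r >>> 112) <<< 112)
  else r

/-- The same with natural numbers only. -/
def fineN (B : Blk) (Va Vb : Nat → Nat) (r a b : Nat) : Nat :=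
  bif Nat.blt b B.Yp then
    forceN (pevN Va a) fun u1 => forceN (pevN Va b) fun u2 => forceN (pevN Vb a) fun u3 =>
    forceN (pevN Vb b) fun u4 =>
    forceN (gPe r + mulU (gD2 r) ((B.dm * B.dm) <<< 13) +
      mulU (gK2 r) (mulU (b - a) (b - a)) / 8 + 1) fun e =>
    min (fld r 56 0) (2 * OFF - min (min u1 u2) (min u3 u4) + e) +
      (min (fld r 56 1) (max (max u1 u2) (max u3 u4) + e) <<< 56) + ((r >>> 112) <<< 112)
  else r

/-- Parameters of a run: `k` numbers with sum in `[ra, rb]`, the smallest in `[xa0, xa1]`, the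
largest in `[xb0, xb1]`, and the ranges of two outer coordinates when `ho` holds. -/
structure EP where
  k : Nat
  ra : Nat
  rb : Nat
  xa0 : Nat
  xa1 : Nat
  xb0 : Nat
  xb1 : Nat
  ho : Bool
  x1l : Nat
  x1h : Nat
  x2l : Nat
  x2h : Nat
  Vh : Nat
  sV : Nat
  Vs : Nat
  uni : Bool
  fin : Bool

/-- Envelope bound when the product is positive but not all factors lie in the first lobe. -/
def envUp (B : Blk) (Q : Nat → Nat → Nat) (b ym tl th ng : Nat) : Nat :=
  forceN (expU (mulD b tl)) fun e0 =>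
  max (bif Nat.blt th (2 * B.z2) || Nat.ble ym B.z2 then 0
      else min e0 (mulU (mulU ng ng) (expU (mulD b (tl - 2 * ym)))))
    (bif Nat.ble ym B.Z2 then 0 else min e0 (mulU (gAB (rqI Q B.Z2)) (expU (mulD b (tl - ym)))))

def envDn (B : Blk) (b ym tl ng : Nat) : Nat :=
  bif Nat.ble ym B.z2 then 0 else min (expU (mulD b tl)) (mulU ng (expU (mulD b (tl - ym))))

/-- The crude upper bound for a fixed number of factors. -/
def crUp (B : Blk) (Q : Nat → Nat → Nat) (P : EP) (R b ta tb ylo ym tl th : Nat) : Nat :=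
  forceN P.k fun k => forceN (gNeg R) fun ng => forceN (gAB R) fun bb =>
  forceN (max P.xa0 (P.ra - P.xa1 - (k - 2) * P.xb1)) fun lo2 =>
  forceN (rq Q ylo (min ym (mulU P.xa1 tb))) fun ra =>
  forceN (rq Q (mulD lo2 ta) ym) fun rm => forceN (rq Q (mulD (max lo2 P.xb0) ta) ym) fun rb =>
  bif Nat.beq (gNeg ra) 0 && Nat.beq (gHip rb) 0 && Nat.beq (gHip rm) 0 && ev k then 0 else
  forceN (min (envUp B Q b ym tl th ng)
    (bif Nat.ble ym B.Z2 then mulU (mulU ng ng) (powU bb (k - 2)) else powU bb k)) fun r1 =>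
  forceN (min r1 (mulU (mulU (gAB ra) (gAB rb)) (powU (gAB rm) (k - 2)))) fun r2 =>
  bif Nat.ble ym B.Z2 && Nat.beq (gNeg ra) 0 then
    (bif Nat.beq k 2 then 0 else
      forceN (max (gNeg rm) (gNeg rb)) fun nn =>
        min r2 (mulU (mulU (gAB ra) (mulU nn nn)) (powU (max (gAB rm) (gAB rb)) (k - 3))))
  else r2

/-- Second order bounds with 120 fractional bits. -/
def hess {α : Type} (B : Blk) (P : EP) (R Rn w ym tb : Nat) (kk : Nat → Nat → α) : α :=
  forceN P.k fun k => forceN ((gK1 R + gK1 Rn) / 2 + 1) fun k1 => forceN (gK1 R) fun kf =>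
  forceN ((fld R 56 4 + 3 * fld Rn 56 4) / 4 + 1 - OFF) fun kh =>
  forceN ((fld R 56 3 + 3 * fld Rn 56 3) / 4 + 1 - OFF) fun kl =>
  forceN (gAB R) fun bb => forceN (gAB w) fun wb =>
  forceN (mulU (mulU tb tb) P.Vh) fun wm =>
  forceN (min bb (wb + mulU (max kh kl) wm / (2 * k) + 1)) fun b0 =>
  forceN (bif Nat.blt 0 (gLop R) then min SS (divU (2 * b0 - gLop R) (2 * b0))
    else bif Nat.blt 0 (gHin R) then min SS (divU (2 * b0 - gHin R) (2 * b0)) else SS) fun cc =>
  forceN (powU b0 (k - 1)) fun am => forceN ((am * kh) <<< 39) fun ah =>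
  forceN ((am * kl) <<< 39) fun al => forceN (mulU cc (powU b0 (k - 2)) * k1 * k1) fun cw =>
  forceN (bif P.uni then powU wb (k - 2) * k1 * k1
    else (powU wb (k - 2) * (k - 1) / k + 1) * k1 * k1) fun wk =>
  Bool.casesOn (motive := fun _ => α) (Nat.beq (gLop R) 0 && Nat.beq (gHin R) 0)
    (kk
      (max (bif Nat.ble ym B.Z2 || Nat.beq (gHip R) 0 then 0 else ah)
        (bif Nat.beq (gNeg R) 0 then 0
          else bif P.uni then max al (ah + cw) else bif ev k then al else ah + cw))
      (max (bif Nat.beq (gHip R) 0 then 0 else al + cw)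
        (bif Nat.beq (gNeg R) 0 then 0 else bif ev k then ah + cw else al)))
    (forceN (max (max (bif Nat.ble ym B.Z2 || Nat.beq (gHip R) 0 then 0 else ah)
        (bif Nat.beq (gNeg R) 0 then 0
          else bif P.uni then max al (ah + cw) else bif ev k then al else ah + cw))
        ((bif Nat.beq k 2 then 0 else mulU (gNeg R) (powU bb (k - 3)) * kf * kf / 2 + 1) +
          (bif Nat.beq (gNeg w) 0 || (ev k && !P.uni) then 0 else wk))) fun up =>
      kk up
        (max (max (bif Nat.beq (gHip R) 0 then 0 else al + cw)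
          (bif Nat.beq (gNeg R) 0 then 0 else bif ev k then ah + cw else al))
          (powU bb (k - 2) * kf * kf / 2 + 1 +
            (bif !ev k && Nat.beq (gHip w) 0 then 0 else wk))))

/-- The special bound for three factors. -/
def hess3 (P : EP) (R Rn w tb : Nat) : Nat :=
  forceN ((gK1 R + gK1 Rn) / 2 + 1) fun k1 =>
  forceN ((fld R 56 4 + 3 * fld Rn 56 4) / 4 + 1 - OFF) fun kh =>
  forceN ((fld R 56 3 + 3 * fld Rn 56 3) / 4 + 1 - OFF) fun kl =>
  forceN (mulU (mulU tb tb) P.Vh) fun wm =>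
  forceN (min (gAB R) (gAB w + mulU (max kh kl) wm / 6 + 1)) fun b0 =>
  b0 * b0 * kh / 2 + 1 + (mulU kl wm / 6 + 1 + gNeg w - gLop w) * k1 * k1 / 2 + 1 +
    (k1 * k1 * k1 * (mulU tb P.sV * 1361 / 10000 + 1)) >>> 40 + 1

def R07 : Nat := 769658139443

/-- One cell of the exact or uniform run; the state is crude part, second order part, gain. -/
def cellE {α : Type} (B : Blk) (Q : Nat → Nat → Nat) (E Va Vb : Nat → Nat) (P : EP)
    (sa sb sc sh sg : Nat) (kk : Nat → Nat → Nat → α) : α :=
  forceN P.k fun k => forceN (tS sa) fun ta => forceN (tS sb) fun tb =>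
  forceN (mulD P.xa0 ta) fun ylo => forceN (mulU P.xb1 tb) fun ym =>
  forceN (mulD P.ra ta) fun tl => forceN (mulU P.rb tb) fun th =>
  forceN (max ylo (tl / k)) fun wa => forceN (min ym (th / k + 1)) fun wb =>
  forceN (rq Q ylo ym) fun R =>
  forceN (rq Q (bif P.uni then (bif Nat.ble ym B.z2 then 0 else (ylo + wa) / 2) else (ylo + wa) / 2)
    ((ym + wb) / 2 + 1 |> min ym)) fun Rn =>
  forceN (bif P.fin then fineN B Va Vb (rq Q wa (wb + 1)) wa wb else rq Q wa wb) fun w =>
  forceN (bif P.ho then rq Q (mulD P.x1l ta) (mulU P.x1h tb) else 0) fun c1 =>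
  forceN (bif P.ho then rq Q (mulD P.x2l ta) (mulU P.x2h tb) else 0) fun c2 =>
  forceN (bif P.ho then oHi c1 c2 else SS) fun oh => forceN (bif P.ho then oNeg c1 c2 else 0) fun ol =>
  Bool.casesOn (motive := fun _ => α) (Nat.ble ym B.z2 && Nat.beq ol 0)
    (forceN (envb E ym) fun b =>
      forceN (bif P.uni then
          (bif Nat.ble (2 * ym) tl && Nat.ble (5 * SS) (2 * k * mulD b wa) && Nat.ble (gNeg w) R07
            then mulU (envUp B Q b ym tl BIG (gNeg R) + powU (gNeg w) k) (dS sa sb) else BIG)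
        else mulU (max (mulU oh (crUp B Q P R b ta tb ylo ym tl th + pNeg w k - pLop w k))
          (bif Nat.beq ol 0 then 0 else mulU ol (pHi w k +
            min (envDn B b ym tl (gNeg R)) (mulU (gNeg R) (powU (gAB R) (k - 1))) - pHin w k)))
          (dS sa sb)) fun c =>
      hess B P R Rn w ym tb fun up dn =>
      forceN (bif P.uni && !(Nat.ble (max (gAB R) (gAB w)) R07) then BIG else
        (max (oh * (bif Nat.beq k 3 && P.fin then min up (hess3 P R Rn w tb) else up)) (ol * dn) *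
          (t4L sa sb + 1)) >>> 160 + 1) fun h =>
      Bool.casesOn (motive := fun _ => α) (Nat.ble c (mulD P.Vs h)) (kk sc (sh + h) sg)
        (kk (sc + c) sh sg))
    (forceN (bif P.uni then rq Q 0 ym else R) fun Rg =>
      forceN (bif Nat.blt (max (fld Rg 56 7) (fld Rn 56 7)) INV then
        OFF - ((fld Rg 56 7 + 3 * fld Rn 56 7) / 4 + 1) else 0) fun c =>
      kk sc sh (sg + divD (mulD (mulD (mulD (bif P.ho then oLop c1 c2 else SS) (powD (gLop w) k)) c)
        (t4L sa sb)) (2 * SS + mulU c (mulU (mulU tb tb) P.Vh))))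

/-- Upper bound for the integral of the absolute value of the outer product beyond `s`. -/
def oTail (B : Blk) (Q : Nat → Nat → Nat) (x1l x2l s : Nat) : Nat :=
  forceN (mulD x1l (tS s)) fun y1 => forceN (mulD x2l (tS s)) fun y2 =>
  forceN (farc B y1) fun fc => forceN (far0 B y1) fun f1 => forceN (far0 B y2) fun f2 =>
  min (bif Nat.blt f1 BIG && Nat.blt f2 BIG then mulU (mulU f1 f2) (s <<< 34) else BIG)
    (bif Nat.blt fc BIG then mulU (mulU fc (gAB (rqI Q y2))) (s <<< 33) else BIG)

/-- Bound for the product of the inner factors beyond `s`. -/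
def pTail (B : Blk) (ra xb1 s : Nat) : Nat :=
  min SS (sqrtU (powU (divU SS (SS + mulD B.gam (mulD xb1 (tS s)))) (ra / xb1)))

/-- The tail of the exact or uniform run. -/
def finE {α : Type} (B : Blk) (Q : Nat → Nat → Nat) (P : EP) (kk : Nat → Nat → Nat → α)
    (s sc sh sg : Nat) : α :=
  forceN P.k fun k => forceN (tS s) fun t => forceN (mulD P.xa0 t) fun ylo =>
  forceN (mulD P.ra t / k) fun wa => forceN (mulD B.gam (mulD P.xb1 t)) fun z =>
  Bool.casesOn (motive := fun _ => α) P.ho
    (forceN (far0 B wa) fun fw => forceN (far0 B ylo) fun fy =>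
      forceN (min
        (bif Nat.ble (64 * SS) z && (bif P.uni then Nat.ble (2 * k * P.xb1) (3 * SS) && Nat.ble 8 k
            else Nat.ble (4 * P.xb1) P.ra) then powU (divU SS z) 2 else BIG)
        (bif Nat.blt fy BIG && !P.uni then powU fy k else BIG)) fun x =>
      forceN (bif Nat.ble fw R07 && Nat.ble 3 k && Nat.blt x BIG then
        mulU (powU fw k + x) (s <<< 34) else BIG) fun c =>
      forceN (bif Nat.ble 4 k then fy else farc B ylo) fun fb =>
      forceN (far1b B ylo) fun k1 => forceN (far2 B ylo) fun k2 =>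
      forceN (bif Nat.ble fb R07 && Nat.ble 3 k && Nat.blt k1 BIG && Nat.blt k2 BIG then
        ((((powU fb (k - 1) * k2) <<< 39) + 2 * powU fb (k - 2) * k1 * k1) * t * t * s) >>> 166 + 1
        else BIG) fun h =>
      Bool.casesOn (motive := fun _ => α) (Nat.ble c (mulD P.Vs h)) (kk sc (sh + h) sg)
        (kk (sc + c) sh sg))
    (forceN (oTail B Q P.x1l P.x2l s) fun o =>
      kk (sc + (bif Nat.blt o BIG then mulU o (pTail B P.ra P.xb1 s + powU (gAB (rqI Q wa)) k)
        else BIG)) sh sg)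

def runE {α : Type} (B : Blk) (Q : Nat → Nat → Nat) (E Va Vb : Nat → Nat) (P : EP)
    (sch : List Nat) (kk : Nat → Nat → Nat → α) : α :=
  sweep sch (cellE B Q E Va Vb P) (finE B Q P kk)

/-- A lower bound, valid when positive, for a product of factors with arguments in `[0, ym]` and
sum at most `th`; `R` is a record of `[0, ym]`. -/
def prodLo (B : Blk) (R ym th : Nat) : Nat :=
  max (SS - mulU B.lamh th) (bif Nat.ble ym B.z2 && Nat.blt 0 ym && Nat.ble (th / ym) 200 then
    powD (gLop R) (th / ym + 1) else 0)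

/-- One cell of the run for an unknown number of inner factors; the state consists of the
bounds used against the diagonal and against the Ball point. -/
def cellP {α : Type} (B : Blk) (Q : Nat → Nat → Nat) (E : Nat → Nat)
    (k ra rb x1l x1h x2l x2h : Nat) (sa sb e1 e2 e3 : Nat) (kk : Nat → Nat → Nat → α) : α :=
  forceN (tS sa) fun ta => forceN (tS sb) fun tb =>
  forceN (mulU (min (min x1h x2h) rb) tb) fun ym =>
  forceN (mulD ra ta) fun tl => forceN (mulU rb tb) fun th => forceN (th / k + 1) fun wb =>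
  forceN (rq Q 0 ym) fun R => forceN (rq Q (tl / k) wb) fun w =>
  forceN (mulU x1h tb) fun y1 =>
  forceN (rq Q (mulD x1l ta) y1) fun c1 => forceN (rq Q (mulD x2l ta) (mulU x2h tb)) fun c2 =>
  forceN (oNeg c1 c2) fun ol => forceN (envb E ym) fun b =>
  forceN (expU (mulD B.lam tl) + pNeg w k - pLop w k) fun p0 =>
  forceN (bif Nat.ble wb B.z2 then
    min p0 (mulU (B.lamh - B.lam) th + powU (mulU B.lamh th) 2 / k + 1) else p0) fun p1 =>
  forceN (max (mulU (oHi c1 c2)
      (max p1 (envUp B Q b ym tl th (gNeg R) + pNeg w k - pLop w k)))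
    (bif Nat.beq ol 0 then 0 else forceN (prodLo B R ym th) fun lo =>
      mulU ol (bif Nat.beq lo 0 then pHi w k + envDn B b ym tl (gNeg R) - pHin w k
        else pHi w k - lo))) fun cp =>
  forceN (mulU cp (dS sa sb)) fun c =>
  kk (bif Nat.ble y1 B.z2 then e1 else e1 + c +
      (bif Nat.ble (tb / (k + 2) + 1) B.z2 then 0
        else mulU (powU (gAB (rq Q (max B.z2 (ta / (k + 2))) (tb / (k + 2) + 1))) (k + 2)) (dS sa sb)))
    (e2 + c) e3

/-- Bound for the integral of the negative part of the diagonal integrand, for `n ≥ N`. -/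
def delN (B : Blk) (Q : Nat → Nat → Nat) (N : Nat) : Nat :=
  forceN (gNeg (rqI Q B.z2)) fun b =>
  bif Nat.ble b R07 then divU (mulU (sqrtU (N * SS)) (powU b (N - 2)))
    (mulD (mulD B.mL B.mL) (sqrtL B.z2)) else BIG

def finP {α : Type} (B : Blk) (Q : Nat → Nat → Nat) (k ra rb x1l x1h x2l x2h : Nat)
    (kk : Nat → Nat → α) (s e1 e2 _e3 : Nat) : α :=
  forceN (oTail B Q x1l x2l s) fun o => forceN (far0 B (tS s / (k + 2))) fun f =>
  forceN (bif Nat.blt o BIG then mulU o (pTail B ra (min (min x1h x2h) rb) s +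
    powU (gAB (rqI Q (mulD ra (tS s) / k))) k) else BIG) fun c =>
  kk (e1 + c + delN B Q (k + 2) +
    (bif Nat.blt f BIG then mulU (powU f (k + 2)) (s <<< 34) else BIG)) (e2 + c)

def runP {α : Type} (B : Blk) (Q : Nat → Nat → Nat) (E : Nat → Nat)
    (k ra rb x1l x1h x2l x2h : Nat) (sch : List Nat) (kk : Nat → Nat → α) : α :=
  sweep sch (cellP B Q E k ra rb x1l x1h x2l x2h) (finP B Q k ra rb x1l x1h x2l x2h kk)

/-- One cell for small largest coordinate `x1 ≤ xs` and `n ≥ n0`. -/
def cellF {α : Type} (B : Blk) (Q : Nat → Nat → Nat) (E : Nat → Nat) (xs n0 : Nat)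
    (sa sb sc sh sg : Nat) (kk : Nat → Nat → Nat → α) : α :=
  forceN (tS sa) fun ta => forceN (tS sb) fun tb => forceN (mulU xs tb) fun ym =>
  forceN (rq Q 0 ym) fun R =>
  Bool.casesOn (motive := fun _ => α) (Nat.ble ym B.z2)
    (forceN (envb E ym) fun b =>
      kk (sc + (bif Nat.ble (2 * ym) ta && Nat.ble (5 * SS) (2 * mulD b ta) then
        mulU (envUp B Q b ym ta BIG (gNeg R)) (dS sa sb) else BIG)) sh sg)
    (forceN (rq Q 0 (min ym ((ym + tb / n0 + 1) / 2 + 1))) fun Rn =>
      forceN (bif Nat.blt (max (fld R 56 7) (fld Rn 56 7)) INV then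
        OFF - ((fld R 56 7 + 3 * fld Rn 56 7) / 4 + 1) else 0) fun c =>
      kk sc sh (sg + divD (mulD (mulD (powD (gLop (rq Q (ta / n0) (min ym (tb / n0 + 1)))) n0) c)
        (t4L sa sb)) (2 * SS + mulU c (mulU (mulU tb tb) xs))))

/-- The check for `3 / (2 n) < x1 ≤ xs`. -/
def farChk (B : Blk) (Q : Nat → Nat → Nat) (E : Nat → Nat) (xs n0 : Nat) (sch : List Nat) : Bool :=
  Nat.ble (20 * xs) (3 * SS) && Nat.blt 0 xs && Nat.ble SS (n0 * xs) &&
  Nat.ble (2 * (n0 - 1) * xs) (3 * SS) && Nat.ble 8 n0 &&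
  sweep sch (cellF B Q E xs n0) fun s sc _ sg =>
    forceN (mulD B.gam (mulD xs (tS s))) fun z => Nat.ble (64 * SS) z && Nat.blt sc BIG &&
      Nat.blt (delN B Q n0) BIG && Nat.blt 0 (mulD xs xs) &&
      Nat.blt (divU (9 * (sc + mulU (powU (divU SS z) 2) (s <<< 34))) (mulD xs xs) +
        4 * n0 * n0 * delN B Q n0) sg

/-- One cell near the Ball point: `r ∈ [ra, rb]`, `x1 - x2 ≤ d0`; the state is gain and loss. -/
def cellB {α : Type} (B : Blk) (Q : Nat → Nat → Nat) (E Va Vb : Nat → Nat) (ra rb d0 : Nat)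
    (sa sb gp gn e3 : Nat) (kk : Nat → Nat → Nat → α) : α :=
  forceN (tS sa) fun ta => forceN (tS sb) fun tb =>
  forceN (mulD ((SS - rb - d0) / 2) ta) fun ya => forceN (mulU ((SS - ra + d0) / 2 + 1) tb) fun yb =>
  forceN (mulD ((SS - rb) / 2) ta) fun wa => forceN (mulU ((SS - ra) / 2 + 1) tb) fun wb =>
  forceN (rq Q ya yb) fun R => forceN (fineN B Va Vb (rq Q wa (wb + 1)) wa wb) fun w =>
  forceN (mulU rb tb) fun ym => forceN (envb E ym) fun b => forceN (mulU b ym) fun x =>
  forceN (max (gLop w) (gHin w)) fun wl =>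
  forceN (bif Nat.beq ra 0 then mulU B.lamh (t2L sa sb + 1)
    else min (mulU B.lamh (t2L sa sb + 1)) (divU (2 * dS sa sb) ra)) fun lf =>
  forceN (mulD (mulD (mulD wl wl) (divD (mulD b (SS + x / 2)) (SS + x + mulU x x / 2 + 1)))
    (t2L sa sb)) fun g1 =>
  forceN (mulU d0 tb) fun dt =>
  forceN (((((gAB R * gK2 R) + 3 * gK1 R * gK1 R) * dt * dt * lf) >>> 162) + 1) fun l1 =>
  forceN (mulU (mulU (gNeg R) (gHip R)) lf) fun l2 =>
  Bool.casesOn (motive := fun _ => α) (Nat.ble l1 (g1 + l2)) (kk gp (gn + l2) e3)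
    (kk (gp + g1) (gn + l1) e3)

def ballRun (B : Blk) (Q : Nat → Nat → Nat) (E Va Vb : Nat → Nat) (ra rb d0 : Nat)
    (sch : List Nat) : Bool :=
  Nat.blt (rb + d0) SS &&
  sweep sch (cellB B Q E Va Vb ra rb d0) fun s gp gn _ =>
    forceN (farc B (mulD ((SS - rb - d0) / 2) (tS s))) fun f => Nat.blt f BIG &&
      Nat.blt (gn + mulU (mulU (mulU (mulU B.lamh (tS s)) f) f) ((s <<< 34) / 3 + 1) +
        divU B.kh (2 * (SS - rb))) gp

/-- A staircase near the Ball point: each step has the largest `r`, the largest difference and a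
schedule. -/
def ballChk (B : Blk) (Q : Nat → Nat → Nat) (E Va Vb : Nat → Nat)
    (bl : List (Nat × Nat × List Nat)) : Bool :=
  lf (α := Nat → Bool) bl (fun _ => true)
    (fun c ih ra => ballRun B Q E Va Vb ra c.1 c.2.1 c.2.2 && ih c.1) 0

/-- The set `rl ≤ r ≤ rh`, `x1 - x2 ≤ dm` lies under the staircase. -/
def inBall (bl : List (Nat × Nat × List Nat)) (rl rh dm : Nat) : Bool :=
  lf bl false fun c ih => (Nat.blt c.1 rl || Nat.ble dm c.2.1) && (Nat.ble rh c.1 || ih)

end Pool.Agent.MP_39fec4_gt.K
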