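import Pool.Agent.MP_39fec4_gt.KCell

set_option autoImplicit false

/-! Faster versions of some functions, using natural numbers only. -/

namespace Pool.Agent.MP_39fec4_gt.K

/-- Approximation from below of `SG (f / 4096) 160 460 * 2 ^ 256`. -/
def gamA (f : Nat) : Nat :=
  Nat.rec (motive := fun _ => Nat → Nat) (fun r => r)
    (fun i ih r => ih ((655360 * (115792089237316195423570985008687907853269984665640564039457584007913129639936 + r)) / (f + 4096 * (i + 1)))) 460 0

def gamOne (g lo : Nat) : Bool :=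
  Nat.ble (g <<< 256) lo && Nat.blt (lo + 1) ((g + 1) * 115792089237316195423570985008687907853269984665640564039457584007913129639935)

def gamChkA (c t : Nat) : Bool :=
  Nat.rec (motive := fun _ => Bool) true
    (fun i ih => forceN (256 * c + i) (fun f => gamOne (fld t 240 i) (gamA f)) && ih) 256

/-- Maximum of the fields selected by the mask `M`; `H` holds one bit above each of them. -/
def mrgH (a b M H : Nat) : Nat :=
  forceN (b &&& M) fun b' => forceN ((a &&& M) + H - b') fun t => forceN (t &&& H) fun g =>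
    b' + (t &&& (g - (g >>> 56)))

def mrgF (a b : Nat) : Nat :=
  mrgH a b 271942652322184750755106736933322637325446821626240647133505031976872167328601173707867676246829268400342001666836578902346344565864730224905386752449211252261922934280350619703743348735 271942652322184754529069161754863989567001402614510264889150548000203145028615361958166176326724920567688848477230054877445382505279706706324949551769437505227726468345486052884182204416 +
    mrgH a b 3773962424821541299867304854649999697544610366781734455320155174574583524912968125862129335030121629617511104055013455881672287476679281471933318676387370708440501452800 3773962424821541352241554580988269617755645516023330977700014188250298500079895652167346846810393475975099037939414976481419562799320226252965803534065135433180438855680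

/-- The offset used for signed numbers. -/
def OO : Nat := 1267650600228229401496703205376

/-- `hor4` for numbers given modulo `2 ^ 288`, with the offset `OO` added to the result. -/
def hor4N (a0 a1 a2 a3 a4 d : Nat) : Nat :=
  (((((a4 * d + (a3 <<< 40)) * d + (a2 <<< 80)) * d + (a1 <<< 120)) * d + (a0 <<< 160) +
    1852673427797059126777135760139006525652319754650249024631321344126610074238976) &&& 497323236409786642155382248146820840100456150797347717440463976893159497012533375533055) >>> 160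

/-- The same for degree three, two and one. -/
def hor3N (a0 a1 a2 a3 d : Nat) : Nat :=
  ((((a3 * d + (a2 <<< 40)) * d + (a1 <<< 80)) * d + (a0 <<< 120) +
    1684996666696914987166688442938726917102321526408785780068975640576) &&& 497323236409786642155382248146820840100456150797347717440463976893159497012533375533055) >>> 120

def hor2N (a0 a1 a2 d : Nat) : Nat :=
  (((a2 * d + (a1 <<< 40)) * d + (a0 <<< 80) +
    1532495540865888858358347027150309183618739122183602176) &&& 497323236409786642155382248146820840100456150797347717440463976893159497012533375533055) >>> 80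

def hor1N (a0 a1 d : Nat) : Nat :=
  ((a1 * d + (a0 <<< 40) + 1393796574908163946345982392040522594123776) &&&
    497323236409786642155382248146820840100456150797347717440463976893159497012533375533055) >>> 40

/-- The modulus `2 ^ 288`. -/
def MM : Nat := 497323236409786642155382248146820840100456150797347717440463976893159497012533375533056

/-- Coefficient `j` of a record modulo `MM`. -/
def vcoN (r j : Nat) : Nat := fld r 48 j + 497323236409786642155382248146820840100456150797347717440463976893159496871795887177728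

def absO (a : Nat) : Nat := (a - OO) + (OO - a)

/-- Product of `lam ≤ SS` and a number with offset. -/
def mulO (lam a : Nat) : Nat := (lam * a + (SS - lam) * OO) >>> 40

/-- `ofs (pev V y)`. -/
def pevN (V : Nat → Nat) (y : Nat) : Nat :=
  forceN (bandOf y) fun j => forceN (y >>> (39 + j)) fun u => forceN (u + (4 <<< j) - 4) fun i =>
    forceN (V i) fun r => hor4N (vcoN r 0) (vcoN r 1) (vcoN r 2) (vcoN r 3) (vcoN r 4)
      (y + MM - ((2 * u + 1) <<< (38 + j))) - (OO - OFF)

/-- `encl` with coefficients modulo `MM` and results with offset; `p4` is `|24 c4|`. -/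
def enclN {α : Type} (c0 c1 c2 c3 c4 p4 d0 d1 hh lam : Nat)
    (k : Nat → Nat → Nat → Nat → Nat → Nat → Nat → Nat → Nat → α) : α :=
  forceN (hor4N c0 c1 c2 c3 c4 d0) fun u0 => forceN (hor4N c0 c1 c2 c3 c4 d1) fun v0 =>
  forceN (hor3N c1 (2 * c2) (3 * c3) (4 * c4) d0) fun u1 =>
  forceN (hor3N c1 (2 * c2) (3 * c3) (4 * c4) d1) fun v1 =>
  forceN (hor2N (2 * c2) (6 * c3) (12 * c4) d0) fun u2 =>
  forceN (hor2N (2 * c2) (6 * c3) (12 * c4) d1) fun v2 =>
  forceN (max (absO (hor1N (6 * c3) (24 * c4) d0)) (absO (hor1N (6 * c3) (24 * c4) d1)) + 1) fun p3 =>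
  forceN (mulU p4 hh + 1) fun x2 => forceN (max (absO u2) (absO v2) + x2) fun p2 =>
  forceN (mulU p2 hh + 1) fun x0 => forceN (mulU p3 hh + 1) fun x1 =>
  forceN (x1 + mulU lam x0 + 1) fun y1 =>
  forceN (x2 + 2 * mulU lam x1 + mulU lam (mulU lam x0) + 4) fun y2 =>
  forceN (u1 + mulO lam u0 - OO) fun a1 => forceN (v1 + mulO lam v0 - OO) fun b1 =>
  forceN (u2 + mulO lam (u1 + a1 - OO) - OO) fun a2 =>
  forceN (v2 + mulO lam (v1 + b1 - OO) - OO) fun b2 =>
  k (min u0 v0 - x0) (max u0 v0 + x0) (max (absO u1) (absO v1) + x1) (min u2 v2 - x2)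
    (max u2 v2 + x2) (min a1 b1 - y1) (max a1 b1 + y1) (min a2 b2 - y2) (max a2 b2 + y2)

/-- `ncf` from the positive and negative parts. -/
def ncfN (plo phi nl1 pl2 nl2 : Nat) : Nat :=
  bif Nat.beq phi 0 then INV else
    forceN (divD nl1 phi) fun x => forceN (mulD x x) fun t =>
      bif Nat.beq pl2 0 then OFF - (divD nl2 phi + t)
      else bif Nat.beq plo 0 then INV else min (OFF + divU pl2 plo - t) INV

def dist (a b : Nat) : Nat := (a - b) + (b - a)

def mkCellN (B : Blk) (Va Vb : Nat → Nat) (y0 y1 : Nat) : Nat :=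
  forceN (vidx y0) fun iv => forceN (vctr y0) fun ct => forceN (vhw y0) fun hw =>
  bif Nat.ble y1 (ct + hw) && Nat.ble y0 y1 && Nat.ble B.lam SS then
  forceN (Va iv) fun ra => forceN (Vb iv) fun rb =>
  forceN (y0 + MM - ct) fun d0 => forceN (y1 + MM - ct) fun d1 =>
  forceN (mulU (y1 - y0) (y1 - y0) / 8 + 1) fun hh => forceN B.lam fun lam =>
  forceN (b5 B (ct - hw)) fun b =>
  forceN (rem0 b hw) fun r0 => forceN (rem1 b hw) fun r1 => forceN (rem2 b hw) fun r2 =>
  enclN (vcoN ra 0) (vcoN ra 1) (vcoN ra 2) (vcoN ra 3) (vcoN ra 4) (24 * dist (fld ra 48 4) OFV)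
    d0 d1 hh lam fun alo ahi ak1 a2l a2h a1L a1H aLL aLH =>
  enclN (vcoN rb 0) (vcoN rb 1) (vcoN rb 2) (vcoN rb 3) (vcoN rb 4) (24 * dist (fld rb 48 4) OFV)
    d0 d1 hh lam fun blo bhi bk1 b2l b2h b1L b1H bLL bLH =>
  enclN (fld rb 48 0 + MM - fld ra 48 0) (fld rb 48 1 + MM - fld ra 48 1)
    (fld rb 48 2 + MM - fld ra 48 2) (fld rb 48 3 + MM - fld ra 48 3)
    (fld rb 48 4 + MM - fld ra 48 4) (24 * dist (fld rb 48 4) (fld ra 48 4)) d0 d1 hh lam
    fun clo chi ck1 c2l c2h _ _ _ _ =>
  forceN (min alo blo) fun lo => forceN (max ahi bhi) fun hi => forceN (max ak1 bk1) fun k1 =>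
  forceN (min a2l b2l) fun l2 => forceN (max a2h b2h) fun h2 =>
  forceN ((max (OO - clo) (chi - OO) + 2 * r0) * 4096 / B.dm + 1) fun s0 =>
  forceN ((ck1 + 2 * r1) * 4096 / B.dm + 1) fun s1 =>
  forceN ((max (OO - c2l) (c2h - OO) + 2 * r2) * 4096 / B.dm + 1) fun s2 =>
  forceN (sqrtL y0) fun ul =>
  forceN (min (dq B (m0a B y1) s0 (max (OO - lo) (hi - OO) + r0))
    (dq B (3 * mulU y1 B.n3 / 2 + 1) s0 (SS + OO - lo + r0))) fun D0 =>
  forceN (dq B (min (3 * B.n3 / 2 + 1) (B.n3 / 2 + 1 + divU B.n2 ul)) s1 (k1 + r1)) fun D1 =>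
  forceN (dq B (min (5 * B.n5 / 12 + 1) (divU B.n4 (4 * ul) + divU (3 * B.n3) (5 * mulD ul ul)))
    s2 (max (OO - l2) (h2 - OO) + r2)) fun D2 =>
  forceN ((B.dm * B.dm) <<< 13) fun dd =>
  forceN (r0 + mulU D0 dd) fun e0 => forceN (r1 + mulU D1 dd) fun e1 =>
  forceN (r2 + mulU D2 dd) fun e2 =>
  forceN (e1 + mulU lam e0) fun f1 =>
  forceN (e2 + 2 * mulU lam e1 + mulU lam (mulU lam e0)) fun f2 =>
  forceN (max (lo - e0) (OO - SS)) fun lo' => forceN (min (hi + e0) (OO + SS)) fun hi' =>
  forceN (max a1H b1H + f1) fun l1h => forceN (max aLH bLH + f2) fun l2h =>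
    pk15 (OFF + OO - lo') (hi' + OFF - OO) (k1 + e1) (OFF + OO + e2 - l2) (h2 + e2 + OFF - OO)
      (max (OO + f1 - min a1L b1L) (l1h - OO)) (max (OO + f2 - min aLL bLL) (l2h - OO))
      (ncfN (lo' - OO) (hi' - OO) (OO - l1h) (l2h - OO) (OO - l2h))
      (s0 + mulU D0 (B.dm <<< 27)) D0 (r0 + 2) (l2h - OO) (s1 + mulU D1 (B.dm <<< 27))
      (s2 + mulU D2 (B.dm <<< 27)) (l1h - OO)
  else 0

def cellChkN (B : Blk) (Va Vb T E : Nat → Nat) (i : Nat) : Bool :=
  forceN (Yb i) fun y0 => forceN (Yb (i + 1)) fun y1 => forceN (T i) fun r =>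
  forceN (bif Nat.ble y1 B.Z2 then gNeg r else gAB r) fun a =>
  Nat.blt 0 r && Nat.beq r (bif Nat.blt y0 B.Yc then mkCellN B Va Vb y0 y1 else mkFar B y0 y1) &&
  (Nat.ble B.z2 y0 || Nat.blt 0 (gLop r)) && (Nat.ble B.Zc y0 || Nat.beq (fld r 56 11) 0) &&
  (Nat.ble y1 B.Zc || Nat.ble B.Z2 y0 || Nat.beq (gHip r) 0) &&
  Nat.ble (E i) (Nat.casesOn (motive := fun _ => Nat) i B.lam (fun i' => E i')) &&
  (Nat.beq a 0 || Nat.beq (E i) 0 || Nat.ble (mulU (E i) y1) (nlogL a)) &&
  (Nat.ble B.Yc y0 || Nat.ble (mulU (mulU a a) (SS + mulU B.gam y1)) SS)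

def cellsChkN (B : Blk) (Va Vb T E : Nat → Nat) (i0 n : Nat) : Bool :=
  Nat.rec (motive := fun _ => Bool) true
    (fun i ih => forceN (i0 + i) (cellChkN B Va Vb T E) && ih) n

def restChkN (B : Blk) (Va Vb E : Nat → Nat) : Bool :=
  forceN (mkCellN B Va Vb 0 0) fun r =>
  Nat.blt 0 r && Nat.beq (fld r 56 14) 0 && Nat.ble (gK1 r) B.lamh && Nat.ble B.lamh SS &&
  Nat.blt 0 B.lam && Nat.blt 0 B.z2 && Nat.ble B.z2 B.Zc && Nat.blt B.Zc B.Z2 &&
  Nat.ble B.Z2 B.Yc && Nat.ble B.Yp B.Yc && Nat.ble B.Yc 4503599627370496 &&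
  Nat.beq (Yb (cidx B.Yc)) B.Yc && Nat.ble B.gam (2 * B.lam) &&
  Nat.ble SS (mulD (mulD B.mL B.mL - B.gam) B.Yc) && Nat.beq (E 680) 0

/-- Horner scheme modulo `M = 2 ^ (5 W)` at the point `Z = Y + 2 ^ W`. -/
def hornM (l : List Nat) (od : Bool) (Z M : Nat) : Nat :=
  lf (α := Bool → Nat → Nat) l (fun _ D => D)
    (fun a ih od D => Bool.casesOn (motive := fun _ => Nat) od
      (ih true ((D * Z + a) &&& (M - 1))) (ih false ((D * Z + (M - a)) &&& (M - 1)))) od 0

/-- Digit `j` of `D`, shifted; the digits carry the offset `2 ^ (W - 1)`. -/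
def digM (D W j sh : Nat) : Nat := (fld D W j >>> sh) + OFV - (1 <<< (W - 1 - sh))

def vrecM (l : List Nat) (od : Bool) (P W Y : Nat) : Nat :=
  forceN (hornM l od (Y + (1 <<< W)) (1 <<< (5 * W)) + ((1 <<< (W - 1)) + (1 <<< (2 * W - 1)) +
    (1 <<< (3 * W - 1)) + (1 <<< (4 * W - 1)) + (1 <<< (5 * W - 1)))) fun D =>
    forceN (digM D W 0 (P - 40)) fun a0 => forceN (digM D W 1 (P - 42)) fun a1 =>
    forceN (digM D W 2 (P - 44)) fun a2 => forceN (digM D W 3 (P - 46)) fun a3 =>
    forceN (digM D W 4 (P - 48)) fun a4 =>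
    bif lt48 a0 && lt48 a1 && lt48 a2 && lt48 a3 && lt48 a4 then pk5 a0 a1 a2 a3 a4 else 0

def vbandM (la lr : List Nat) (n P V j cnt N : Nat) : Bool :=
  Nat.ble (N + 2) n && Nat.ble 4 N && Nat.ble (bandA j + cnt) (8 <<< j) &&
  hornN (drp lr (n - N - 1)) (nth la (n - N - 2) + nth lr (n - N - 2)) ((2 * (bandA j + cnt)) <<< j)
    (fun e0 e1 e2 e3 e4 => Nat.ble e0 (1 <<< (P - 40)) && Nat.ble e1 (1 <<< (P - 42)) &&
      Nat.ble e2 (1 <<< (P - 44)) && Nat.ble e3 (1 <<< (P - 46)) && Nat.ble e4 (1 <<< (P - 48))) &&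
  hornN (drp la (n - N - 1)) 0 ((2 * (bandA j + cnt)) <<< j) fun e0 e1 e2 e3 e4 =>
    forceN (Nat.log2 (e0 + e1 + e2 + e3 + e4 + (1 <<< P)) + 2) fun W =>
    Nat.rec (motive := fun _ => Bool) true
      (fun i ih => forceN (vrecM (drp la (n - N - 1)) (Nat.beq (N % 2) 1) P W
          ((2 * (bandA j + i) + 1) <<< j)) (fun r =>
        Nat.blt 0 r && Nat.beq (fld V 240 (bandI j + i)) r) && ih) cnt

def vchkM (G : Nat → Nat) (R m P n Y V : Nat) (Ns : List Nat) : Bool :=
  forceN (vidx (Y - 1) + 1) fun nv =>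
  Nat.ble Y 4503599627370496 &&
  Nat.ble 48 P && Nat.ble nv 380 && Nat.blt 0 m && Nat.blt m 2048 && Nat.blt 0 R &&
  Nat.blt 0 (muL G R m) &&
  Prod.casesOn (motive := fun _ => Bool) (coefs G R m P n) fun la lr =>
    Nat.rec (motive := fun _ => Bool) true
      (fun j ih => (Nat.beq (bandC nv j) 0 || vbandM la lr n P V j (bandC nv j) (nth Ns j)) && ih) 6

end Pool.Agent.MP_39fec4_gt.K
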