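import Pool.Agent.MP_39fec4_gt.KArith

set_option autoImplicit false

/-! Moments. The exponents are multiples of `1 / 4096`, the truncation point of the Gamma
integral is `160`, and `C = 160 / rho ^ 4096` with `rho = R / 2 ^ 32`. -/

namespace Pool.Agent.MP_39fec4_gt.K

/-- Integer part of the partial sum `SG (f / 4096) 160 460`. -/
def gamE (f : Nat) : Nat :=
  Nat.rec (motive := fun _ => Nat → Nat → Nat) (fun n d => n / d)
    (fun i ih n d => forceN (655360 * (d + n)) fun n' =>
      forceN ((f + 4096 * (i + 1)) * d) fun d' => ih n' d') 460 0 1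

/-- The packed number `t` holds the entries `256 c`, ..., `256 c + 255`. -/
def gamChk (c t : Nat) : Bool :=
  Nat.rec (motive := fun _ => Bool) true
    (fun i ih => Nat.beq (fld t 240 i) (gamE (256 * c + i)) && ih) 256

/-- Access to the table given as a list of sixteen packed numbers. -/
def gamGet (l : List Nat) (f : Nat) : Nat := fld (nth l (f / 256)) 240 (f % 256)

/-- Lower bound for `rho ^ m` with 256 fractional bits, for `m < 2 ^ 16`. -/
def rpowL (R m : Nat) : Nat :=
  Nat.rec (motive := fun _ => Nat → Nat) (fun a => a)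
    (fun i ih a => forceN ((a * a) >>> 256) fun a2 =>
      forceN (bif Nat.beq ((m >>> i) % 2) 1 then (a2 * R) >>> 32 else a2) ih) 16 (1 <<< 256)

def rpowH (R m : Nat) : Nat :=
  Nat.rec (motive := fun _ => Nat → Nat) (fun a => a)
    (fun i ih a => forceN ((a * a) >>> 256 + 1) fun a2 =>
      forceN (bif Nat.beq ((m >>> i) % 2) 1 then (a2 * R) >>> 32 + 1 else a2) ih) 16 (1 <<< 256)

/-- The product of `f + 4096 (j + 1)` over `j < I`. -/
def rise (f I : Nat) : Nat :=
  Nat.rec (motive := fun _ => Nat → Nat) (fun a => a)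
    (fun j ih a => forceN (a * (f + 4096 * (j + 1))) ih) I 1

/-- Lower bound for `mu C (m / 4096)` with 256 fractional bits, given one for `rho ^ m`. -/
def muL0 (G : Nat → Nat) (rl m : Nat) : Nat :=
  (G (m % 4096) * rise (m % 4096) (m / 4096) * rl) / ((G 0 + 4) * 655360 ^ (m / 4096))

def muH0 (G : Nat → Nat) (rh m : Nat) : Nat :=
  ((G (m % 4096) + 4) * rise (m % 4096) (m / 4096) * rh) / (G 0 * 655360 ^ (m / 4096)) + 1

def muL (G : Nat → Nat) (R m : Nat) : Nat := muL0 G (rpowL R m) m

def muH (G : Nat → Nat) (R m : Nat) : Nat := muH0 G (rpowH R m) m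

/-- Lower ends and widths of enclosures of `aa C q i * 2 ^ P / 4 ^ i` for `i < n`, the largest
index first. -/
def coefs (G : Nat → Nat) (R m P n : Nat) : List Nat × List Nat :=
  forceN (rpowL R (2 * m)) fun r2l => forceN (rpowH R (2 * m)) fun r2h =>
  forceN (muL G R m) fun m0l => forceN (muH G R m) fun m0h =>
  Nat.rec (motive := fun _ => Nat → Nat → Nat → Nat → List Nat → List Nat → List Nat × List Nat)
    (fun _ _ _ _ la lr => (la, lr))
    (fun _ ih i rl rh fa la lr =>
      forceN ((muL0 G rl ((2 * i + 1) * m) <<< P) / (m0h * fa)) fun lo =>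
      forceN ((muH0 G rh ((2 * i + 1) * m) <<< P) / (m0l * fa) + 1 - lo) fun ra =>
      forceN (i + 1) fun i' => forceN ((rl * r2l) >>> 256) fun rl' =>
      forceN ((rh * r2h) >>> 256 + 1) fun rh' =>
      forceN (fa * (4 * (2 * i + 2) * (2 * i + 3))) fun fa' =>
      ih i' rl' rh' fa' (lo :: la) (ra :: lr))
    n 0 (rpowL R m) (rpowH R m) 1 [] []

end Pool.Agent.MP_39fec4_gt.K
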