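import Pool.Agent.MP_39fec4_gt.KExc

set_option autoImplicit false

/-! Thresholds, tests on boxes and certificate trees. -/

namespace Pool.Agent.MP_39fec4_gt.K

/-- Numbers of either sign are stored with the offset `OFF`. -/
def sgn (neg : Bool) (m : Nat) : Nat := bif neg then OFF - m else OFF + m

/-- The node `((m + 1) H / 16) ^ 2` in fixed point. -/
def tN (H m : Nat) : Nat := ((m + 1) * H * ((m + 1) * H)) <<< 32

/-- Bound for the change of a power when the base moves by `e`. -/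
def powE (A e k : Nat) : Nat := powU (A + e) k - powD A k + 1

/-- Approximate diagonal integrand, with offset. -/
def dNode (V : Nat → Nat) (N y : Nat) : Nat := forceN (pevN V y) fun a =>
  sgn (!ev N && Nat.blt a OFF) (powD (dist a OFF) N)

/-- Approximate sum over `M` nodes, with offset `M * OFF`, and a bound for the error. -/
def dSum (V : Nat → Nat) (N H M : Nat) : Nat :=
  Nat.rec (motive := fun _ => Nat) 0 (fun m ih => ih + dNode V N (tN H m / N)) M

def dErr (Q : Nat → Nat → Nat) (N H M : Nat) : Nat :=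
  Nat.rec (motive := fun _ => Nat) 0
    (fun m ih => forceN (tN H m / N) fun y => forceN (rq Q y (y + 1)) fun r =>
      ih + powE (gAB r) (gPe r) N) M

/-- The tail of the diagonal sum. -/
def dTail (B : Blk) (N H M : Nat) : Nat := forceN (far0 B (tN H (M - 1) / N)) fun f =>
  bif Nat.blt f BIG then mulU (powU f N) ((M * H) <<< 36) else BIG

def dOK (B : Blk) (N H M : Nat) : Bool :=
  Nat.ble 2 N && Nat.blt 0 H && Nat.blt 0 M && Nat.blt (tN H (M - 1) / N + 1) B.Yp &&
    Nat.blt (dTail B N H M) BIG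

/-- The aliasing term of the Poisson formula. -/
def dAli (B : Blk) (N H : Nat) : Nat := forceN (divD (80 * SS) (B.mH * H)) fun a =>
  bif Nat.ble (2 * SS) a then forceN (expU (mulD a a / 2)) fun e =>
    mulU (mulU (divU (4 * 3 ^ N * SS) B.mL) e) e else BIG

/-- Lower bound, valid when positive, and upper bound for the diagonal integral at a vertex. -/
def dLo (B : Blk) (Q : Nat → Nat → Nat) (V : Nat → Nat) (N H M : Nat) : Nat :=
  (H * (SS / 2 + dSum V N H M - (M * OFF + dErr Q N H M))) >>> 4 - (dTail B N H M + dAli B N H)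

def dHi (B : Blk) (Q : Nat → Nat → Nat) (V : Nat → Nat) (N H M : Nat) : Nat :=
  (H * (SS / 2 + dSum V N H M + dErr Q N H M - M * OFF)) >>> 4 + (dTail B N H M + 1)

/-- Second derivative of a power. -/
def pw2 (k A a b : Nat) : Nat :=
  k * mulU (powU A (k - 1)) b + k * (k - 1) * mulU (mulU (powU A (k - 2)) a) a

def cellM {α : Type} (Q : Nat → Nat → Nat) (N : Nat) (sa sb e1 e2 e3 : Nat)
    (kk : Nat → Nat → Nat → α) : α :=
  forceN (rq Q (tS sa / N) (tS sb / N + 1)) fun r =>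
  kk (bif Nat.ble (tS sb / N + 1) 1152921504606846976 then
    e1 + mulU (pw2 N (gAB r) (gD1 r) (gD2 r)) (dS sa sb) else BIG) e2 e3

/-- Bound for the integral of the second derivative in `q` of the diagonal integrand. -/
def dM (B : Blk) (Q : Nat → Nat → Nat) (N : Nat) (sch : List Nat) : Nat :=
  sweep sch (cellM Q N) fun s e _ _ =>
    forceN (tS s / N) fun y => forceN (farc B y) fun f =>
    bif Nat.ble 3 N && Nat.ble SS y && Nat.blt f BIG && Nat.blt e BIG then
      forceN (e + mulU (pw2 N f B.d1g (mulU (divU (B.n1 + B.n3 / 2 + 1) B.mL + mulU B.be B.d1g + B.nr)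
        (sqrtU (y + 1)))) (s <<< 34)) fun r => r
    else BIG

/-- Bound for the second derivative of `kap`. -/
def kM (B : Blk) : Nat := mulU B.kh (max (mulU B.tau B.tau) B.nr)

/-- A class of dimensions with its numerical parameters. -/
structure Cls where
  N : Nat
  plus : Bool
  H : Nat
  H1 : Nat
  M1 : Nat
  bl : List (Nat × Nat × List Nat)
  sch : List Nat
  schM : List Nat

/-- Second derivative of a product of two factors and a power, with 280 fractional bits. The
bounds `a` and `b` for the derivatives are scaled by `c` and `c ^ 2`; `R0`, `P1`, `P2` are the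
powers with their constant factors. -/
def m3s (A1 A2 R0 P1 P2 c1 c2 c3 a1 b1 a2 b2 a3 b3 : Nat) : Nat :=
  forceN (c1 * a1) fun u1 => forceN (c2 * a2) fun u2 => forceN (c3 * a3) fun u3 =>
  (c1 * c1 * b1 * A2 + 2 * (u1 * u2) + A1 * (c2 * c2 * b2)) * R0 +
    2 * ((u1 * A2 + A1 * u2) * u3 * P1) + A1 * A2 * (P1 * (c3 * c3 * b3) + P2 * u3 * u3)

/-- The case `c1 = 0`, without the factor `A1`. -/
def m2s (A2 R0 P1 P2 c2 c3 a2 b2 a3 b3 : Nat) : Nat :=
  forceN (c3 * a3) fun u3 =>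
  c2 * c2 * b2 * R0 + 2 * (c2 * a2 * u3 * P1) + A2 * (P1 * (c3 * c3 * b3) + P2 * u3 * u3)

/-- Coordinates of a corner: `x` and `xi` have twenty fractional bits. -/
def cX1 (x : Nat) : Nat := x <<< 20

def cX2 (x xi : Nat) : Nat := xi * (1048576 - x)

def cR (x xi : Nat) : Nat := (1048576 - xi) * (1048576 - x)

/-- Approximate integrand at a corner, with offset. -/
def pNode (V : Nat → Nat) (k x xi t : Nat) : Nat :=
  forceN (pevN V (mulD (cX1 x) t)) fun a => forceN (pevN V (mulD (cX2 x xi) t)) fun b =>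
  forceN (pevN V (mulD (cR x xi) t / k)) fun c =>
  sgn (xor (xor (Nat.blt a OFF) (Nat.blt b OFF)) (!ev k && Nat.blt c OFF))
    ((dist a OFF * dist b OFF * powD (dist c OFF) k) >>> 80)

def vSum (V : Nat → Nat) (k H x xi M : Nat) : Nat :=
  Nat.rec (motive := fun _ => Nat) 0 (fun m ih => ih + pNode V k x xi (tN H m)) M

/-- Error terms of a smooth node on the box; `dq` is the width in `q` in units of `1 / 4096`. -/
def eNode (B : Blk) (Q : Nat → Nat → Nat) (k xl xh ya yb dq t : Nat) : Nat :=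
  forceN (mulU (cX1 xh) t) fun y1 => forceN (mulU (cX2 xl yb) t) fun y2 =>
  forceN (mulU (cR xl ya) t / k + 1) fun y3 =>
  forceN (rq Q (mulD (cX1 xl) t) y1) fun c1 => forceN (rq Q (mulD (cX2 xh ya) t) y2) fun c2 =>
  forceN (rq Q (mulD (cR xh yb) t / k) y3) fun c3 =>
  forceN (gAB c1) fun A1 => forceN (gAB c2) fun A2 => forceN (gAB c3) fun A3 =>
  forceN (powU A3 k <<< 80) fun R0 => forceN ((k * powU A3 (k - 1)) <<< 40) fun P1 =>
  forceN (k * (k - 1) * powU A3 (k - 2)) fun P2 =>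
  forceN (((xh - xl) * t) >>> 20 + 1) fun u => forceN ((yb * u) >>> 20 + 1) fun u2 =>
  forceN ((((1048576 - ya) * u) >>> 20 + 1) / k + 1) fun u3 =>
  forceN (mulU ((yb - ya) * (1048576 - xl)) t) fun v2 => forceN (v2 / k + 1) fun v3 =>
  forceN (dq <<< 28) fun w =>
  bif Nat.blt (max y1 (max y2 y3)) B.Yp then
    (min (m3s A1 A2 R0 P1 P2 u u2 u3 (gK1 c1) (gK2 c1) (gK1 c2) (gK2 c2) (gK1 c3) (gK2 c3))
        (m3s A1 A2 R0 P1 P2 u u2 u3 (gL1 c1) (gL2 c1) (gL1 c2) (gL2 c2) (gL1 c3) (gL2 c3)) +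
      A1 * min (m2s A2 R0 P1 P2 v2 v3 (gK1 c2) (gK2 c2) (gK1 c3) (gK2 c3))
        (m2s A2 R0 P1 P2 v2 v3 (gL1 c2) (gL2 c2) (gL1 c3) (gL2 c3)) +
      m3s A1 A2 R0 P1 P2 w w w (gD1 c1) (gD2 c1) (gD1 c2) (gD2 c2) (gD1 c3) (gD2 c3)) >>> 243 + 1 +
    (mulU (mulU (A1 + gPe c1) (A2 + gPe c2)) (powU (A3 + gPe c3) k + 1) -
      mulD (mulD A1 A2) (powD A3 k) + 1)
  else BIG

def eSum (B : Blk) (Q : Nat → Nat → Nat) (k H xl xh ya yb dq M : Nat) : Nat :=
  Nat.rec (motive := fun _ => Nat) 0 (fun m ih => ih + eNode B Q k xl xh ya yb dq (tN H m)) M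

/-- Upper bound for the integrand at a node from the ranges alone, with offset. -/
def zNode (Q : Nat → Nat → Nat) (k xl xh ya yb t : Nat) : Nat :=
  forceN (rq Q (mulD (cX1 xl) t) (mulU (cX1 xh) t)) fun c1 =>
  forceN (rq Q (mulD (cX2 xh ya) t) (mulU (cX2 xl yb) t)) fun c2 =>
  forceN (rq Q (mulD (cR xh yb) t / k) (mulU (cR xl ya) t / k + 1)) fun c3 =>
  forceN (max (mulD (oLop c1 c2) (pHin c3 k)) (mulD (oHin c1 c2) (pLop c3 k))) fun zn =>
  bif Nat.beq zn 0 then OFF + max (mulU (oHi c1 c2) (pHi c3 k)) (mulU (oNeg c1 c2) (pNeg c3 k))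
  else OFF - zn

/-- The nodes `M1`, ..., `M1 + n - 1`. -/
def zSum (Q : Nat → Nat → Nat) (k H xl xh ya yb M1 n : Nat) : Nat :=
  Nat.rec (motive := fun _ => Nat) 0 (fun m ih => ih + zNode Q k xl xh ya yb (tN H (M1 + m))) n

/-- The tail of the Poisson sum on the box. -/
def tailP (B : Blk) (Q : Nat → Nat → Nat) (k H xl xh ya yb M : Nat) : Nat :=
  forceN (tN H (M - 1)) fun t => forceN (mulD (cX1 xl) t) fun y1 =>
  forceN (mulD (cX2 xh ya) t) fun y2 => forceN (mulD (cR xh yb) t / k) fun y3 =>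
  forceN (far0 B y1) fun f1 => forceN (far0 B y2) fun f2 => forceN (far0 B y3) fun f3 =>
  forceN (farc B y1) fun fc => forceN (gAB (rqI Q y2)) fun s2 =>
  forceN (powU (gAB (rqI Q y3)) k) fun s3 =>
  min (min (bif Nat.blt f1 BIG && Nat.blt f2 BIG then mulU (mulU (mulU f1 f2) s3) ((M * H) <<< 36)
      else BIG)
    (bif Nat.blt fc BIG then mulU (mulU (mulU fc s2) s3) ((M * H) <<< 35) else BIG))
    (bif Nat.blt f1 BIG && Nat.blt f3 BIG then mulU (mulU (mulU f1 s2) (powU f3 k)) ((M * H) <<< 36)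
      else BIG)

/-- The largest of the four corner sums. -/
def vMax (V : Nat → Nat) (k H xl xh ya yb M : Nat) : Nat :=
  max (max (vSum V k H xl ya M) (vSum V k H xl yb M)) (max (vSum V k H xh ya M) (vSum V k H xh yb M))

/-- Threshold at a vertex: the diagonal value or the Ball value. -/
def thr (G : Nat → Nat) (B : Blk) (Q VV : Nat → Nat → Nat) (c : Cls) (two : Bool) (v : Nat) : Nat :=
  bif two then kapL G B v else dLo B Q (VV v) c.N c.H1 c.M1

def thrM (B : Blk) (Q : Nat → Nat → Nat) (c : Cls) (two : Bool) : Nat :=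
  bif two then kM B else dM B Q c.N c.schM

/-- The main test with `M1` smooth nodes out of `M`; `e` bounds the excess, with offset. -/
def mainT (G : Nat → Nat) (B : Blk) (Q VV : Nat → Nat → Nat) (c : Cls) (two : Bool)
    (xl xh ya yb a b M1 M e : Nat) : Bool :=
  forceN (c.N - 2) fun k => forceN c.H fun H => forceN (B.st * (b - a)) fun dq =>
  forceN (eSum B Q k H xl xh ya yb dq M1) fun es => forceN (tailP B Q k H xl xh ya yb M) fun tp =>
  forceN (thrM B Q c two) fun tm => forceN (thr G B Q VV c two a) fun ta =>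
  forceN (thr G B Q VV c two b) fun tb =>
  Nat.blt 0 xl && Nat.ble M1 M && Nat.blt 0 M && Nat.blt 0 H && Nat.ble 3 c.N && Nat.blt es BIG &&
  Nat.blt tp BIG && Nat.blt tm BIG && Nat.blt 0 ta && Nat.blt 0 tb &&
  (two || (dOK B c.N c.H1 c.M1 && Nat.blt (dAli B c.N c.H1) BIG)) &&
  forceN (H * (SS / 2 + es + zSum Q k H xl xh ya yb M1 (M - M1)) +
    16 * (tp + mulU tm ((dq * dq) <<< 13) + e)) fun z => forceN ((H * M + 16) * OFF) fun o =>
    Nat.blt (H * vMax (VV a) k H xl xh ya yb M1 + z) (16 * ta + o) &&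
    Nat.blt (H * vMax (VV b) k H xl xh ya yb M1 + z) (16 * tb + o)

/-- Lower bound for `(a / 2 ^ 40) ^ (i / 256)`. -/
def rpw (a i : Nat) : Nat :=
  forceN (Nat.rec (motive := fun _ => Nat → Nat) (fun r => r)
    (fun _ ih r => forceN (sqrtL r) ih) 8 a) fun r =>
  mulD (powD a (i / 256)) (powD r (i % 256))

/-- The test with the two largest coordinates alone. -/
def twoT (B : Blk) (xl xh ya yb b : Nat) : Bool :=
  forceN (min (524288 / B.qv b) 4096) fun i => forceN (SS - cR xl ya) fun u =>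
  forceN (cX1 xl - cX2 xl yb) fun d =>
  Nat.ble 256 i && Nat.blt (2 * SS) (rpw (u + d) i + rpw (u - d) i)

/-- Parameters of the run for a box and a range of the smallest coordinate. -/
def boxEP (k xl xh ya yb p0 p1 vs : Nat) : EP :=
  forceN (cR xh yb) fun ra => forceN (cR xl ya) fun rb =>
  forceN (min (min (cX1 xh) (cX2 xl yb)) rb) fun xm =>
  forceN (k * mulU (xm - ra / k) (rb / k + 1 - p0)) fun vh =>
  { k := k, ra := ra, rb := rb, xa0 := p0, xa1 := p1, xb0 := ra / k, xb1 := xm, ho := true,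
    x1l := cX1 xl, x1h := cX1 xh, x2l := cX2 xh ya, x2h := min (cX1 xh) (cX2 xl yb), Vh := vh,
    sV := 0, Vs := vh >>> (2 * vs), uni := false, fin := false }

/-- Lower bound for the sum of squared deviations. -/
def vLo (k ra rb xa1 xb0 : Nat) (uni : Bool) : Nat :=
  forceN (ra / k - xa1) fun d1 => forceN (xb0 - (rb / k + 1)) fun d2 =>
  max (mulD d1 d1 + mulD d2 d2)
    (bif uni then 0 else mulD (max d1 d2) (max d1 d2) * k / (k - 1))

/-- The bound of one run with offset, or `BIG`. -/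
def excOne (B : Blk) (Q : Nat → Nat → Nat) (E : Nat → Nat) (P : EP) (sch : List Nat) : Nat :=
  runE B Q E E E P sch fun sc sh sg =>
    bif Nat.blt sc BIG && Nat.blt sh BIG then
      (bif Nat.ble sg sh then OFF + sc + mulU P.Vh (sh - sg)
        else OFF + sc - mulD (vLo P.k P.ra P.rb P.xa1 P.xb0 false) (sg - sh))
    else BIG

/-- The excess on a box for a fixed dimension. The code `w` holds three choices of the
threshold and, in the next digit, the number of ranges of the smallest coordinate. -/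
def excE (B : Blk) (Q : Nat → Nat → Nat) (E : Nat → Nat) (k xl xh ya yb w : Nat)
    (sch : List Nat) : Nat :=
  bif Nat.beq k 1 then OFF else
  forceN (cR xh yb) fun ra => forceN (cR xl ya / k + 1) fun p3 =>
  forceN (ra - (k - 1) * min (min (cX1 xh) (cX2 xl yb)) (cR xl ya)) fun p0 =>
  forceN (p0 + (ra / k - p0) * 2 / 5) fun p1 => forceN (p0 + (ra / k - p0) * 7 / 10) fun p2 =>
  bif Nat.beq (w / 64) 0 then excOne B Q E (boxEP k xl xh ya yb p0 p3 (w % 4)) sch
  else bif Nat.beq (w / 64) 1 then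
    max (excOne B Q E (boxEP k xl xh ya yb p0 p2 (w % 4)) sch)
      (excOne B Q E (boxEP k xl xh ya yb p2 p3 (w / 4 % 4)) sch)
  else max (max (excOne B Q E (boxEP k xl xh ya yb p0 p1 (w % 4)) sch)
      (excOne B Q E (boxEP k xl xh ya yb p1 p2 (w / 4 % 4)) sch))
    (excOne B Q E (boxEP k xl xh ya yb p2 p3 (w / 16 % 4)) sch)

/-- Certificate trees. -/
inductive Tr where
  | l (w : Nat) : Tr
  | x (a b : Tr) : Tr
  | y (a b : Tr) : Tr
  | q (a b : Tr) : Tr
  | e (w : Nat) (a : Tr) : Tr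

/-- The test at a leaf; the code is `kind + 8 * M1 + 1024 * M`. -/
def leafT (G : Nat → Nat) (B : Blk) (Q VV : Nat → Nat → Nat) (c : Cls) (w : Nat)
    (xl xh ya yb a b e1 e2 : Nat) : Bool :=
  forceN (w % 8) fun kd =>
  bif Nat.beq kd 0 then Nat.blt (cX1 xh) (cX2 xh ya)
  else bif Nat.beq kd 1 then inBall c.bl (cR xh yb) (cR xl ya) (cX1 xh - cX2 xh ya)
  else bif Nat.beq kd 2 then twoT B xl xh ya yb b
  else bif Nat.beq kd 3 then
    Nat.blt e1 BIG && mainT G B Q VV c false xl xh ya yb a b (w / 8 % 128) (w / 1024) e1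
  else Nat.blt e2 BIG && mainT G B Q VV c true xl xh ya yb a b (w / 8 % 128) (w / 1024) e2

/-- The excess bounds of a box. -/
def excB {α : Type} (B : Blk) (Q : Nat → Nat → Nat) (E : Nat → Nat) (c : Cls) (w : Nat)
    (xl xh ya yb : Nat) (kk : Nat → Nat → α) : α :=
  Bool.casesOn (motive := fun _ => α) c.plus
    (forceN (excE B Q E (c.N - 2) xl xh ya yb w c.sch) fun e => kk e e)
    (runP B Q E (c.N - 2) (cR xh yb) (cR xl ya) (cX1 xl) (cX1 xh) (cX2 xh ya)
      (min (cX1 xh) (cX2 xl yb)) c.sch fun e1 e2 =>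
        forceN (OFF + e1) fun e1 => forceN (OFF + e2) fun e2 => kk e1 e2)

/-- The check of a tree on a box. -/
noncomputable def treeT (G : Nat → Nat) (B : Blk) (Q VV : Nat → Nat → Nat) (E : Nat → Nat)
    (c : Cls) (t : Tr) : Nat → Nat → Nat → Nat → Nat → Nat → Nat → Nat → Bool :=
  Tr.rec (motive := fun _ => Nat → Nat → Nat → Nat → Nat → Nat → Nat → Nat → Bool)
    (fun w => leafT G B Q VV c w)
    (fun _ _ i1 i2 xl xh ya yb a b e1 e2 => forceN ((xl + xh) / 2) fun m =>
      i1 xl m ya yb a b e1 e2 && i2 m xh ya yb a b e1 e2)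
    (fun _ _ i1 i2 xl xh ya yb a b e1 e2 => forceN ((ya + yb) / 2) fun m =>
      i1 xl xh ya m a b e1 e2 && i2 xl xh m yb a b e1 e2)
    (fun _ _ i1 i2 xl xh ya yb a b e1 e2 => forceN ((a + b) / 2) fun m =>
      i1 xl xh ya yb a m e1 e2 && i2 xl xh ya yb m b e1 e2)
    (fun w _ i1 xl xh ya yb a b _ _ => excB B Q E c w xl xh ya yb (i1 xl xh ya yb a b)) t

/-- Parameters of the run near the diagonal. -/
def nearEP (n : Nat) (uni fin : Bool) (a0 a1 b0 b1 w : Nat) : EP :=
  forceN (n * mulU (b1 - SS / n) (SS / n + 1 - a0)) fun vh =>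
  { k := n, ra := SS, rb := SS, xa0 := a0, xa1 := a1, xb0 := b0, xb1 := b1, ho := false,
    x1l := 0, x1h := 0, x2l := 0, x2h := 0, Vh := vh, sV := sqrtU vh,
    Vs := vLo n SS SS a1 b0 uni * w / 4, uni := uni, fin := fin }

def nearL (B : Blk) (Q : Nat → Nat → Nat) (E Va Vb : Nat → Nat) (n : Nat) (uni fin : Bool)
    (sch : List Nat) (w a0 a1 b0 b1 : Nat) : Bool :=
  bif Nat.beq w 0 then
    !uni && (Nat.blt (a1 + (n - 1) * b1) SS || Nat.blt SS (b0 + (n - 1) * a0))
  else runE B Q E Va Vb (nearEP n uni fin a0 a1 b0 b1 (w - 1)) sch fun sc sh sg =>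
    Nat.blt sc BIG && Nat.blt sh BIG && Nat.blt sh sg &&
      (Nat.beq sc 0 || Nat.blt sc (mulD (vLo n SS SS a1 b0 uni) (sg - sh)))

noncomputable def nearT (B : Blk) (Q : Nat → Nat → Nat) (E Va Vb : Nat → Nat) (n : Nat)
    (uni fin : Bool) (sch : List Nat) (t : Tr) : Nat → Nat → Nat → Nat → Bool :=
  Tr.rec (motive := fun _ => Nat → Nat → Nat → Nat → Bool)
    (fun w => nearL B Q E Va Vb n uni fin sch w)
    (fun _ _ i1 i2 a0 a1 b0 b1 => forceN ((a0 + a1) / 2) fun m => i1 a0 m b0 b1 && i2 m a1 b0 b1)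
    (fun _ _ i1 i2 a0 a1 b0 b1 => forceN ((b0 + b1) / 2) fun m => i1 a0 a1 b0 m && i2 a0 a1 m b1)
    (fun _ _ _ _ _ _ _ _ => false) (fun _ _ _ _ _ _ _ => false) t

/-- Sign or monotonicity of the gap between the vertices `v` and `v + 1`; `pos` allows only
the positive sign. -/
def crossT (G : Nat → Nat) (B : Blk) (Q VV : Nat → Nat → Nat) (c : Cls) (pos : Bool) (v : Nat) :
    Bool :=
  forceN (mulU (dM B Q c.N c.schM + kM B) ((B.st * B.st) <<< 13)) fun e => forceN (v + 1) fun v' =>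
  forceN (dLo B Q (VV v) c.N c.H1 c.M1) fun l => forceN (dLo B Q (VV v') c.N c.H1 c.M1) fun l' =>
  forceN (dHi B Q (VV v) c.N c.H1 c.M1) fun h => forceN (dHi B Q (VV v') c.N c.H1 c.M1) fun h' =>
  Nat.blt (kapH G B v + kapH G B v') BIG &&
  ((Nat.blt (kapH G B v + e) l && Nat.blt (kapH G B v' + e) l') ||
  (!pos && ((Nat.blt (h + e) (kapL G B v) && Nat.blt (h' + e) (kapL G B v')) ||
    (Nat.blt 0 l' && Nat.blt (h + kapH G B v' + 4 * e) (l' + kapL G B v)))))

def crossChk (G : Nat → Nat) (B : Blk) (Q VV : Nat → Nat → Nat) (c : Cls) (pos : Bool) : Bool :=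
  dOK B c.N c.H1 c.M1 && Nat.blt (dAli B c.N c.H1) BIG && Nat.blt (dM B Q c.N c.schM) BIG &&
  Nat.rec (motive := fun _ => Bool) true (fun v ih => crossT G B Q VV c pos v && ih) (B.nv - 1)

/-- Monotonicity of the gap for all `n ≥ 8`; the first `i1` cells lie below `Y1`. -/
def incChk (B : Blk) (Q : Nat → Nat → Nat) (T E Va Vb : Nat → Nat) (i1 L : Nat) : Bool :=
  forceN (Yb i1) fun Y1 => forceN (envb E Y1) fun lam =>
  forceN (Nat.rec (motive := fun _ => Nat) 0 (fun i ih => max ih (fld (T i) 56 13)) i1) fun be2 =>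
  forceN (gAB (rqI Q Y1)) fun b1 =>
  Nat.blt 0 i1 && Nat.ble Y1 B.Yc && Nat.blt 0 lam && Nat.ble b1 R07 &&
  Nat.ble (8 * SS) (7 * mulD lam (mulD L L)) && Nat.blt 0 (mulD (mulD B.mL B.mL) (sqrtL Y1)) &&
  Nat.blt (45 * mulU (fld (mkCellN B Va Vb 0 0) 56 12) (powU L 3) / 100 + 1 +
      42 * mulU be2 (powU L 5) / 1000 + 1 +
      divU (23 * mulU B.d1g (powU b1 5)) (mulD (mulD B.mL B.mL) (sqrtL Y1)))
    (mulD B.kl B.tauL)

end Pool.Agent.MP_39fec4_gt.K
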