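import Pool.Agent.MP_39fec4_gt.KLeaf

set_option autoImplicit false

/-! The certificate of a block of exponents. -/

namespace Pool.Agent.MP_39fec4_gt.K

/-- Parameters and tree of a class. -/
structure Cl where
  H : Nat
  H1 : Nat
  M1 : Nat
  sch : List Nat
  schM : List Nat
  t : Tr

/-- Parameters and tree near the diagonal. -/
structure Nr where
  use : Bool
  fin : Bool
  sch : List Nat
  t : Tr

/-- A fixed dimension: the tree starts at `x1 = xl / 2 ^ 20`. -/
structure Ex where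
  c : Cl
  xl : Nat
  n : Nr

structure Cert where
  B : Blk
  VL : List Nat
  vp : Nat → Nat × Nat × List Nat
  T : Nat
  E : Nat
  bl : List (Nat × Nat × List Nat)
  e3 : Ex
  e4 : Ex
  e5 : Ex
  e6 : Ex
  e7 : Ex
  p8 : Cl
  p9 : Cl
  p10 : Cl
  p14 : Cl
  u : Nr
  schF : List Nat
  inc : Bool
  i1 : Nat
  L : Nat

def Cert.Q (c : Cert) : Nat → Nat → Nat := rq2 (lv (tget c.T 840))

def Cert.VV (c : Cert) : Nat → Nat → Nat := vget c.VL

def Cert.Ef (c : Cert) : Nat → Nat := tget c.E 48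

def Cert.Va (c : Cert) : Nat → Nat := vget c.VL 0

def Cert.Vb (c : Cert) : Nat → Nat := forceN (c.B.nv - 1) (vget c.VL)

def Cert.cls (c : Cert) (p : Cl) (N : Nat) (plus : Bool) : Cls :=
  { N := N, plus := plus, H := p.H, H1 := p.H1, M1 := p.M1, bl := c.bl, sch := p.sch,
    schM := p.schM }

/-- The tables at the vertices `v0`, ..., `v0 + n - 1`; the two ends reach `Yc`. -/
def Cert.vt (G : Nat → Nat) (c : Cert) (v0 n : Nat) : Bool :=
  Nat.rec (motive := fun _ => Bool) true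
    (fun i ih => forceN (v0 + i) (fun v => vchkM G c.B.R (c.B.qv v) (c.vp v).1 (c.vp v).2.1
      (bif Nat.beq v 0 || Nat.beq (v + 1) c.B.nv then c.B.Yc else c.B.Yp) (nth c.VL v)
      (c.vp v).2.2) && ih) n

def Cert.cells (c : Cert) : Bool :=
  cellsChkN c.B c.Va c.Vb (tget c.T 840) c.Ef 0 681 && restChkN c.B c.Va c.Vb c.Ef

noncomputable def Cert.tree (G : Nat → Nat) (c : Cert) (p : Cl) (N : Nat) (plus : Bool)
    (xl xh ya yb : Nat) : Bool :=
  treeT G c.B c.Q c.VV c.Ef (c.cls p N plus) p.t xl xh ya yb 0 (c.B.nv - 1) BIG BIG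

noncomputable def Cert.exT (G : Nat → Nat) (c : Cert) (e : Ex) (N : Nat) : Bool :=
  c.tree G e.c N false e.xl 1048576 (1048576 / (N - 1)) 1048576

noncomputable def Cert.exN (G : Nat → Nat) (c : Cert) (e : Ex) (N : Nat) : Bool :=
  crossChk G c.B c.Q c.VV (c.cls e.c N false) false &&
  (bif e.n.use then nearT c.B c.Q c.Ef c.Va c.Vb N false e.n.fin e.n.sch e.n.t
      (SS - (N - 1) * cX1 e.xl) (SS / N + 1) (SS / N) (cX1 e.xl)
    else Nat.ble (e.xl * N) 1048576)

/-- The remaining checks for `n ≥ 8`. -/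
noncomputable def Cert.big (G : Nat → Nat) (c : Cert) : Bool :=
  nearT c.B c.Q c.Ef c.Va c.Vb 8 true false c.u.sch c.u.t 0 (SS / 8) (SS / 8) (3 * SS / 16) &&
  farChk c.B c.Q c.Ef (cX1 157286) 11 c.schF &&
  (bif c.inc then incChk c.B c.Q (tget c.T 840) c.Ef c.Va c.Vb c.i1 c.L
    else crossChk G c.B c.Q c.VV (c.cls c.p8 8 true) true)

/-- All the checks of a block. -/
structure Cert.OK (G : Nat → Nat) (c : Cert) : Prop where
  sc : scalChk G c.B = true
  vt : c.vt G 0 c.B.nv = true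
  ce : c.cells = true
  ba : ballChk c.B c.Q c.Ef c.Va c.Vb c.bl = true
  t3 : c.exT G c.e3 3 = true
  t4 : c.exT G c.e4 4 = true
  t5 : c.exT G c.e5 5 = true
  t6 : c.exT G c.e6 6 = true
  t7 : c.exT G c.e7 7 = true
  n3 : c.exN G c.e3 3 = true
  n4 : c.exN G c.e4 4 = true
  n5 : c.exN G c.e5 5 = true
  n6 : c.exN G c.e6 6 = true
  n7 : c.exN G c.e7 7 = true
  p8 : c.tree G c.p8 8 true 196608 1048576 83886 1048576 = true
  p9 : c.tree G c.p9 9 true 174762 196608 83886 1048576 = true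
  p10 : c.tree G c.p10 10 true 157286 174762 83886 1048576 = true
  p14 : c.tree G c.p14 14 true 157286 1048576 0 83886 = true
  bg : c.big G = true

end Pool.Agent.MP_39fec4_gt.K
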