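import Pool.Agent.MP_39fec4_gt.KGam

set_option autoImplicit false

/-! Tables of Taylor coefficients at the centres of a grid. Band `j` covers `[4 ^ j, 4 ^ (j + 1))`
(band zero starts at zero) with cells of width `2 ^ j / 2`. -/

namespace Pool.Agent.MP_39fec4_gt.K

def OFV : Nat := 140737488355328

/-- The shifted Taylor coefficient stored in a record. -/
def encV (d : Int) (sh : Nat) : Nat := Int.toNat (Int.shiftRight d sh + (OFV : Int))

/-- Horner scheme for the first five Taylor coefficients at `Y` of the alternating polynomial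
whose absolute coefficients are listed from the top; `od` tells if the top index is odd. -/
def horn {α : Type} (l : List Nat) (od : Bool) (Y : Int) (k : Int → Int → Int → Int → Int → α) : α :=
  lf (α := Bool → Int → Int → Int → Int → Int → α) l (fun _ => k)
    (fun a ih od d0 d1 d2 d3 d4 =>
      forceI (d4 * Y + d3) fun e4 => forceI (d3 * Y + d2) fun e3 => forceI (d2 * Y + d1) fun e2 =>
      forceI (d1 * Y + d0) fun e1 =>
      Bool.casesOn (motive := fun _ => α) od
        (forceI (d0 * Y + Int.ofNat a) fun e0 => ih true e0 e1 e2 e3 e4)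
        (forceI (d0 * Y - Int.ofNat a) fun e0 => ih false e0 e1 e2 e3 e4))
    od 0 0 0 0 0

/-- The same scheme for nonnegative coefficients, started with `top`. -/
def hornN {α : Type} (l : List Nat) (top Y : Nat) (k : Nat → Nat → Nat → Nat → Nat → α) : α :=
  lf (α := Nat → Nat → Nat → Nat → Nat → α) l k
    (fun a ih d0 d1 d2 d3 d4 =>
      forceN (d4 * Y + d3) fun e4 => forceN (d3 * Y + d2) fun e3 => forceN (d2 * Y + d1) fun e2 =>
      forceN (d1 * Y + d0) fun e1 => forceN (d0 * Y + a) fun e0 => ih e0 e1 e2 e3 e4)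
    top 0 0 0 0

def pk5 (a0 a1 a2 a3 a4 : Nat) : Nat :=
  a0 + (a1 <<< 48) + (a2 <<< 96) + (a3 <<< 144) + (a4 <<< 192)

def lt48 (a : Nat) : Bool := Nat.blt 0 a && Nat.blt a 281474976710656

/-- The record at the centre `Y / 4`, or zero when it does not fit. -/
def vrec (l : List Nat) (od : Bool) (P Y : Nat) : Nat :=
  horn l od (Int.ofNat Y) fun d0 d1 d2 d3 d4 =>
    forceN (encV d0 (P - 40)) fun a0 => forceN (encV d1 (P - 42)) fun a1 =>
    forceN (encV d2 (P - 44)) fun a2 => forceN (encV d3 (P - 46)) fun a3 =>
    forceN (encV d4 (P - 48)) fun a4 =>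
    bif lt48 a0 && lt48 a1 && lt48 a2 && lt48 a3 && lt48 a4 then pk5 a0 a1 a2 a3 a4 else 0

/-- First value of `2 y / 2 ^ j` in band `j`. -/
def bandA (j : Nat) : Nat := bif Nat.beq j 0 then 0 else 2 <<< j

/-- Index of the first cell of band `j`. -/
def bandI (j : Nat) : Nat := bandA j + (4 <<< j) - 4

/-- The first `cnt` cells of band `j` are checked with the series cut after the index `N`;
`la` and `lr` hold `n` entries. -/
def vband (la lr : List Nat) (n P V j cnt N : Nat) : Bool :=
  Nat.ble (N + 2) n && Nat.ble 4 N && Nat.ble (bandA j + cnt) (8 <<< j) &&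
  hornN (drp lr (n - N - 1)) (nth la (n - N - 2) + nth lr (n - N - 2)) ((2 * (bandA j + cnt)) <<< j)
    (fun e0 e1 e2 e3 e4 => Nat.ble e0 (1 <<< (P - 40)) && Nat.ble e1 (1 <<< (P - 42)) &&
      Nat.ble e2 (1 <<< (P - 44)) && Nat.ble e3 (1 <<< (P - 46)) && Nat.ble e4 (1 <<< (P - 48))) &&
  Nat.rec (motive := fun _ => Bool) true
    (fun i ih => forceN (vrec (drp la (n - N - 1)) (Nat.beq (N % 2) 1) P
        ((2 * (bandA j + i) + 1) <<< j)) (fun r =>
      Nat.blt 0 r && Nat.beq (fld V 240 (bandI j + i)) r) && ih) cnt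

/-- Number of cells of band `j` among the first `nv` cells. -/
def bandC (nv j : Nat) : Nat := min (nv - bandI j) ((8 <<< j) - bandA j)

/-- The table `V` with `nv` cells is correct for `q = m / 4096`; `Ns` lists the cut of the series
in the six bands and `n` is the number of coefficients computed. -/
def vchk (G : Nat → Nat) (R m P n nv V : Nat) (Ns : List Nat) : Bool :=
  Nat.ble 48 P && Nat.ble nv 380 && Nat.blt 0 m && Nat.blt m 2048 && Nat.blt 0 R &&
  Nat.blt 0 (muL G R m) &&
  Prod.casesOn (motive := fun _ => Bool) (coefs G R m P n) fun la lr =>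
    Nat.rec (motive := fun _ => Bool) true
      (fun j ih => (Nat.beq (bandC nv j) 0 || vband la lr n P V j (bandC nv j) (nth Ns j)) && ih) 6

/-- Band of a point given in fixed point. -/
def bandOf (y : Nat) : Nat :=
  bif Nat.blt y 70368744177664 then
    (bif Nat.blt y 4398046511104 then 0 else bif Nat.blt y 17592186044416 then 1 else 2)
  else (bif Nat.blt y 281474976710656 then 3 else bif Nat.blt y 1125899906842624 then 4 else 5)

/-- Index of the cell containing a point. -/
def vidx (y : Nat) : Nat := forceN (bandOf y) fun j => (y >>> (39 + j)) + (4 <<< j) - 4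

/-- Centre of the cell containing a point. -/
def vctr (y : Nat) : Nat := forceN (bandOf y) fun j => (2 * (y >>> (39 + j)) + 1) <<< (38 + j)

/-- Half the width of that cell. -/
def vhw (y : Nat) : Nat := 1 <<< (38 + bandOf y)

/-- The table `V` is correct on all the cells that meet `[0, Y)`. -/
def vchkY (G : Nat → Nat) (R m P n Y V : Nat) (Ns : List Nat) : Bool :=
  Nat.ble Y 4503599627370496 && vchk G R m P n (vidx (Y - 1) + 1) V Ns

/-- Coefficient `j` of a record. -/
def vco (r j : Nat) : Int := Int.subNatNat (fld r 48 j) OFV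

/-- Value of the Taylor polynomial of the record `r` at the offset `d`. -/
def pol0 (r : Nat) (d : Int) : Int :=
  Int.shiftRight ((((vco r 4 * d + Int.subNatNat (fld r 48 3 <<< 40) (OFV <<< 40)) * d +
    Int.subNatNat (fld r 48 2 <<< 80) (OFV <<< 80)) * d +
    Int.subNatNat (fld r 48 1 <<< 120) (OFV <<< 120)) * d +
    Int.subNatNat (fld r 48 0 <<< 160) (OFV <<< 160)) 160

/-- Approximate value of the profile at a point. -/
def pev (V : Nat → Nat) (y : Nat) : Int :=
  forceN (vidx y) fun i => forceN (V i) fun r => forceI (Int.subNatNat y (vctr y)) fun d =>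
    forceI (pol0 r d) fun v => v

end Pool.Agent.MP_39fec4_gt.K
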