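import Pool.Agent.MP_39fec4_gt.P4Tower

set_option autoImplicit false

namespace Pool.Agent.MP_39fec4_gt.P4

open MeasureTheory Set Filter Topology Complex

theorem gg0_eq (τ : ℝ) :
    gg 0 (τ ^ 2) = (∫ x in Ioi (0 : ℝ), Real.exp (-x ^ 4) * Real.cos (τ * x)) / mm 0 := by
  rw [gg]
  congr 1
  refine setIntegral_congr_fun measurableSet_Ioi fun x _ => ?_
  simp only [ww, CC, mul_zero, pow_zero, one_mul]
  rw [← mul_pow, Real.sqrt_sq_eq_abs, Real.cos_abs]

noncomputable def hh (τ : ℝ) (z : ℂ) : ℂ := Complex.exp (-z ^ 4 + I * τ * z)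

noncomputable def hh' (τ : ℝ) (z : ℂ) : ℂ := hh τ z * (-(4 * z ^ 3) + I * τ)

theorem hasDerivAt_hh (τ : ℝ) (z : ℂ) : HasDerivAt (hh τ) (hh' τ z) z := by
  have h1 : HasDerivAt (fun z : ℂ => -z ^ 4 + I * τ * z) (-(4 * z ^ 3) + I * τ) z := by
    have := ((hasDerivAt_id z).pow 4).neg.add ((hasDerivAt_id z).const_mul (I * τ))
    refine this.congr_deriv ?_
    simp
  exact h1.cexp

theorem norm_hh (τ x y : ℝ) :
    ‖hh τ (x + y * I)‖ = Real.exp (-x ^ 4 + 6 * x ^ 2 * y ^ 2 - y ^ 4 - τ * y) := by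
  rw [hh, Complex.norm_exp]
  congr 1
  simp [pow_succ]
  ring

theorem norm_hh_le {τ : ℝ} (hτ : 0 ≤ τ) (x : ℝ) {y : ℝ} (hy : |y| ≤ 2) :
    ‖hh τ (x + y * I)‖ ≤ Real.exp (2 * τ + 169) * Real.exp (-2 * x ^ 2) := by
  rw [norm_hh, ← Real.exp_add]
  refine Real.exp_le_exp.2 ?_
  have h1 : y ^ 2 ≤ 4 := by nlinarith [abs_nonneg y, sq_abs y]
  have h2 : -(τ * y) ≤ 2 * τ := by nlinarith [(abs_le.1 hy).1]
  nlinarith [sq_nonneg (x ^ 2 - 13), sq_nonneg (y ^ 2), mul_le_mul_of_nonneg_left h1 (sq_nonneg x)]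

theorem norm_hh'_le {τ : ℝ} (hτ : 0 ≤ τ) (x : ℝ) {y : ℝ} (hy : |y| ≤ 2) :
    ‖hh' τ (x + y * I)‖ ≤
      (Real.exp (2 * τ + 169) * (24 * Real.exp 3 + τ)) * Real.exp (-1 * x ^ 2) := by
  rw [hh', norm_mul]
  have h1 : ‖(x : ℂ) + y * I‖ ≤ |x| + 2 := by
    refine (norm_add_le _ _).trans ?_
    simp [hy]
  have h2 : (|x| + 2) ^ 3 ≤ 6 * (Real.exp 3 * Real.exp (x ^ 2)) := by
    have h3 := Real.pow_div_factorial_le_exp (|x| + 2) (by positivity) 3
    have h4 : Real.exp (|x| + 2) ≤ Real.exp 3 * Real.exp (x ^ 2) := by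
      rw [← Real.exp_add]
      refine Real.exp_le_exp.2 ?_
      nlinarith [sq_abs x, sq_nonneg (|x| - 1 / 2)]
    norm_num [Nat.factorial] at h3
    linarith
  have h5 : ‖-(4 * ((x : ℂ) + y * I) ^ 3) + I * τ‖ ≤ (24 * Real.exp 3 + τ) * Real.exp (x ^ 2) := by
    refine (norm_add_le _ _).trans ?_
    rw [norm_neg, norm_mul, norm_pow, norm_mul, Complex.norm_I, Complex.norm_real,
      Real.norm_eq_abs, abs_of_nonneg hτ]
    have h6 := pow_le_pow_left₀ (norm_nonneg _) h1 3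
    have h7 : 1 ≤ Real.exp (x ^ 2) := Real.one_le_exp (sq_nonneg x)
    have h8 : ‖(4 : ℂ)‖ = 4 := by simp
    rw [h8]
    nlinarith [mul_le_mul_of_nonneg_left h7 hτ]
  calc _ ≤ (Real.exp (2 * τ + 169) * Real.exp (-2 * x ^ 2)) *
        ((24 * Real.exp 3 + τ) * Real.exp (x ^ 2)) :=
        mul_le_mul (norm_hh_le hτ x hy) h5 (norm_nonneg _) (by positivity)
    _ = _ := by
      have : Real.exp (-1 * x ^ 2) = Real.exp (-2 * x ^ 2) * Real.exp (x ^ 2) := by
        rw [← Real.exp_add]; congr 1; ring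
      rw [this]; ring

theorem cont_hh (τ y : ℝ) : Continuous fun x : ℝ => hh τ (x + y * I) := by unfold hh; fun_prop

theorem cont_hh' (τ y : ℝ) : Continuous fun x : ℝ => hh' τ (x + y * I) := by
  unfold hh' hh; fun_prop

theorem int_hh {τ : ℝ} (hτ : 0 ≤ τ) {y : ℝ} (hy : |y| ≤ 2) :
    Integrable fun x : ℝ => hh τ (x + y * I) :=
  ((integrable_exp_neg_mul_sq (b := 2) (by norm_num)).const_mul _).mono'
    (cont_hh τ y).aestronglyMeasurable (Eventually.of_forall fun x => norm_hh_le hτ x hy)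

theorem int_hh' {τ : ℝ} (hτ : 0 ≤ τ) {y : ℝ} (hy : |y| ≤ 2) :
    Integrable fun x : ℝ => hh' τ (x + y * I) :=
  ((integrable_exp_neg_mul_sq (b := 1) (by norm_num)).const_mul _).mono'
    (cont_hh' τ y).aestronglyMeasurable (Eventually.of_forall fun x => norm_hh'_le hτ x hy)

theorem integral_hh' {τ : ℝ} (hτ : 0 ≤ τ) {y : ℝ} (hy : |y| ≤ 2) :
    ∫ x : ℝ, hh' τ (x + y * I) = 0 := by
  refine integral_eq_zero_of_hasDerivAt_of_integrable (f := fun x : ℝ => hh τ (x + y * I))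
    (fun x => ?_) (int_hh' hτ hy) (int_hh hτ hy)
  have h1 : HasDerivAt (fun z : ℂ => hh τ (z + y * I)) (hh' τ (x + y * I)) (x : ℂ) := by
    have := (hasDerivAt_hh τ ((x : ℂ) + y * I)).comp (x : ℂ) ((hasDerivAt_id' _).add_const (y * I))
    rw [mul_one] at this
    exact this
  exact h1.comp_ofReal

theorem shift_deriv {τ : ℝ} (hτ : 0 ≤ τ) {y : ℝ} (hy : |y| ≤ 1) :
    HasDerivAt (fun y : ℝ => ∫ x : ℝ, hh τ (x + y * I)) 0 y := by
  have hy2 : |y| ≤ 2 := by linarith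
  have hb : ∀ z ∈ Metric.ball y 1, |z| ≤ 2 := fun z hz => by
    rw [Metric.mem_ball, Real.dist_eq] at hz
    have := abs_sub_abs_le_abs_sub z y
    linarith
  have := hasDerivAt_integral_of_dominated_loc_of_deriv_le (μ := volume)
    (F := fun (y : ℝ) (x : ℝ) => hh τ (x + y * I))
    (F' := fun (y : ℝ) (x : ℝ) => hh' τ (x + y * I) * I) (x₀ := y)
    (bound := fun x => (Real.exp (2 * τ + 169) * (24 * Real.exp 3 + τ)) * Real.exp (-1 * x ^ 2))
    (s := Metric.ball y 1) (Metric.ball_mem_nhds y one_pos)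
    (Eventually.of_forall fun z => (cont_hh τ z).aestronglyMeasurable) (int_hh hτ hy2)
    ((cont_hh' τ y).mul continuous_const).aestronglyMeasurable
    (Eventually.of_forall fun x z hz => by
      rw [norm_mul, Complex.norm_I, mul_one]; exact norm_hh'_le hτ x (hb z hz))
    ((integrable_exp_neg_mul_sq (b := 1) (by norm_num)).const_mul _)
    (Eventually.of_forall fun x z _ => by
      have h1 : HasDerivAt (fun w : ℂ => hh τ (x + w * I)) (hh' τ (x + z * I) * I) (z : ℂ) := by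
        have := (hasDerivAt_hh τ ((x : ℂ) + z * I)).comp (z : ℂ)
          (((hasDerivAt_id' _).mul_const I).const_add (x : ℂ))
        rw [one_mul] at this
        exact this
      exact h1.comp_ofReal)
  have h2 := this.2
  rwa [integral_mul_const, integral_hh' hτ hy2, zero_mul] at h2

theorem shift_eq {τ : ℝ} (hτ : 0 ≤ τ) :
    ∫ x : ℝ, hh τ (x + ((3 / 4 : ℝ) : ℂ) * I) = ∫ x : ℝ, hh τ (x + ((0 : ℝ) : ℂ) * I) := by
  have := constant_of_has_deriv_right_zero (f := fun y : ℝ => ∫ x : ℝ, hh τ (x + y * I))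
    (a := 0) (b := 3 / 4)
    (fun y hy => (shift_deriv hτ (by rw [abs_le]; constructor <;> linarith [hy.1, hy.2])
      ).continuousAt.continuousWithinAt)
    (fun y hy => (shift_deriv hτ (by rw [abs_le]; constructor <;> linarith [hy.1, hy.2])
      ).hasDerivWithinAt) (3 / 4) (by norm_num)
  exact this

theorem exp_three_le : Real.exp 3 ≤ 20.1 := by
  have h := Real.exp_one_lt_d9
  have : Real.exp 3 = Real.exp 1 ^ 3 := by rw [← Real.exp_nat_mul]; norm_num
  rw [this]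
  exact (pow_le_pow_left₀ (Real.exp_pos 1).le h.le 3).trans (by norm_num)

/-- Exponential decay of the transform. -/
theorem decay {τ : ℝ} (hτ : 0 ≤ τ) : |gg 0 (τ ^ 2)| ≤ 34 * Real.exp (-(3 / 4) * τ) := by
  have h0 := mm_pos 0
  have hm : mm 0 = ∫ x in Ioi (0 : ℝ), Real.exp (-x ^ 4) := by simp [mm, ww]
  have hint : Integrable fun x : ℝ => Real.exp (-x ^ 4) := by
    refine ((integrable_exp_neg_mul_sq (b := 2) (by norm_num)).const_mul (Real.exp 1)).mono'
      (Continuous.aestronglyMeasurable (by fun_prop)) (Eventually.of_forall fun x => ?_)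
    rw [Real.norm_eq_abs, abs_of_pos (Real.exp_pos _), ← Real.exp_add]
    exact Real.exp_le_exp.2 (by nlinarith [sq_nonneg (x ^ 2 - 1)])
  have hfull : ∫ x : ℝ, Real.exp (-x ^ 4) = 2 * mm 0 := by
    rw [hm, ← integral_comp_abs (f := fun x => Real.exp (-x ^ 4))]
    congr 1; funext x; rw [show (4 : ℕ) = 2 * 2 from rfl, pow_mul, pow_mul, sq_abs]
  have h1 : (∫ x : ℝ, hh τ (x + ((0 : ℝ) : ℂ) * I)).re =
      2 * ∫ x in Ioi (0 : ℝ), Real.exp (-x ^ 4) * Real.cos (τ * x) := by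
    rw [← integral_comp_abs (f := fun x => Real.exp (-x ^ 4) * Real.cos (τ * x))]
    have := integral_re (int_hh hτ (y := 0) (by norm_num))
    simp only [RCLike.re_to_complex] at this
    rw [← this]
    congr 1; funext x
    rw [hh, Complex.exp_re]
    have e1 : (-((x : ℂ) + ((0 : ℝ) : ℂ) * I) ^ 4 + I * τ * (x + ((0 : ℝ) : ℂ) * I)).re = -|x| ^ 4 := by
      rw [show (4 : ℕ) = 2 * 2 from rfl, pow_mul |x|, sq_abs]
      simp [pow_succ]; ring
    have e2 : (-((x : ℂ) + ((0 : ℝ) : ℂ) * I) ^ 4 + I * τ * (x + ((0 : ℝ) : ℂ) * I)).im = τ * x := by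
      simp [pow_succ]
    rw [e1, e2, ← Real.cos_abs (τ * x), ← Real.cos_abs (τ * |x|), abs_mul, abs_mul, abs_abs]
  have h2 : ‖∫ x : ℝ, hh τ (x + ((3 / 4 : ℝ) : ℂ) * I)‖ ≤
      ∫ x : ℝ, (Real.exp 3 * Real.exp (-(3 / 4) * τ)) * Real.exp (-(3 / 5 * x) ^ 4) := by
    refine norm_integral_le_of_norm_le
      ((hint.comp_mul_left' (R := 3 / 5) (by norm_num)).const_mul _)
      (Eventually.of_forall fun x => ?_)
    rw [norm_hh, ← Real.exp_add, ← Real.exp_add]
    refine Real.exp_le_exp.2 ?_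
    nlinarith [sq_nonneg (x ^ 2 - 1939 / 1000)]
  rw [integral_const_mul, Measure.integral_comp_mul_left (fun x => Real.exp (-x ^ 4)), hfull,
    shift_eq hτ] at h2
  have h3 := (Complex.abs_re_le_norm _).trans h2
  rw [h1, abs_mul, smul_eq_mul] at h3
  rw [gg0_eq, abs_div, abs_of_pos h0, div_le_iff₀ h0]
  have h4 := exp_three_le
  have h5 := Real.exp_pos (-(3 / 4) * τ)
  norm_num at h3 h5 ⊢
  nlinarith [mul_pos h5 h0]

end Pool.Agent.MP_39fec4_gt.P4
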