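import Pool.Agent.MP_39fec4_gt.P4Num
import Pool.Agent.MP_39fec4_gt.P4Decay

set_option autoImplicit false

namespace Pool.Agent.MP_39fec4_gt.P4

open MeasureTheory Set Filter Topology

def eV (y : ℚ) : ℚ := eU (y / 8) ^ 8

theorem eV_sound {y : ℚ} {x : ℝ} (hy : 0 ≤ y) (hx : (y : ℝ) ≤ x) : Real.exp (-x) ≤ eV y := by
  have h := eU_sound (y := y / 8) (x := x / 8) (by positivity) (by push_cast; linarith)
  have e : Real.exp (-x) = Real.exp (-(x / 8)) ^ 8 := by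
    rw [← Real.exp_nat_mul]; congr 1; push_cast; ring
  rw [e, eV]
  push_cast
  exact pow_le_pow_left₀ (Real.exp_pos _).le h 8

def absQ (e : ℚ × ℚ) : ℚ := max (-e.1) e.2

theorem absQ_sound {e : ℚ × ℚ} {x : ℝ} (h : (e.1 : ℝ) ≤ x ∧ x ≤ e.2) : |x| ≤ absQ e := by
  rw [absQ]; push_cast
  rw [abs_le]
  exact ⟨by linarith [le_max_left (-(e.1 : ℝ)) e.2, h.1], h.2.trans (le_max_right _ _)⟩

def supOK (F j p q d N : ℕ) (c : ℚ) : Bool :=
  allLt (fun i => decide (absQ (encl F j (p + i * d) q d) ≤ c)) N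

theorem sup_sound {F j p q d N : ℕ} {c : ℚ} (h : supOK F j p q d N c = true) (hN : 0 < N)
    (hq : 0 < q) {s : ℝ} (h1 : (p : ℝ) / q ≤ s) (h2 : s ≤ ((p : ℝ) + N * d) / q) :
    |gg j s| ≤ c := by
  obtain ⟨i, hi, h3, h4⟩ := seg_cell hN hq p d h1 h2
  have h5 := of_decide_eq_true (allLt_sound h i hi)
  exact (absQ_sound (encl_sound F j _ d hq h3 h4)).trans (by exact_mod_cast h5)

/-- Enclosure on a cell of the unsquared variable. -/
def enclT (F n m i : ℕ) : ℚ × ℚ := encl F 0 (i * i) (n * (m * m)) (2 * i + 1)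

theorem enclT_sound (F : ℕ) {n m : ℕ} (i : ℕ) (hn : 0 < n) (hm : 0 < m) {t : ℝ}
    (h1 : (i : ℝ) / m ≤ t) (h2 : t ≤ ((i : ℝ) + 1) / m) :
    ((enclT F n m i).1 : ℝ) ≤ gg 0 (t ^ 2 / n) ∧ gg 0 (t ^ 2 / n) ≤ (enclT F n m i).2 := by
  have hn' : (0 : ℝ) < n := by exact_mod_cast hn
  have hm' : (0 : ℝ) < m := by exact_mod_cast hm
  have h0 : (0 : ℝ) ≤ (i : ℝ) / m := by positivity
  refine encl_sound F 0 (i * i) (2 * i + 1) (by positivity) ?_ ?_
  · calc ((i * i : ℕ) : ℝ) / ((n * (m * m) : ℕ) : ℝ) = ((i : ℝ) / m) ^ 2 / n := by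
          push_cast; field_simp
      _ ≤ t ^ 2 / n := by gcongr
  · calc t ^ 2 / n ≤ (((i : ℝ) + 1) / m) ^ 2 / n := by
          have : 0 ≤ t := h0.trans h1
          gcongr
      _ = _ := by push_cast; field_simp; ring

theorem integral_le_of_check {f : ℝ → ℝ} (hf : Continuous f) {m : ℕ} (hm : 0 < m) (i0 N : ℕ)
    (c : ℕ → ℚ) (hc : ∀ i : ℕ, ∀ t : ℝ, (i : ℝ) / m ≤ t → t ≤ ((i : ℝ) + 1) / m → f t ≤ c i)
    {w : ℚ} (h : sumQ (fun i => c (i0 + i)) N ≤ w * m) :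
    ∫ t in ((i0 : ℝ) / m)..(((i0 : ℝ) + N) / m), f t ≤ w := by
  have hm' : (0 : ℝ) < m := by exact_mod_cast hm
  have h1 := cells_integral_le hf (a := (i0 : ℝ) / m) (h := 1 / m) (by positivity)
    (fun i => c (i0 + i)) N fun i _ t h1 h2 => hc (i0 + i) t
      (le_trans (le_of_eq (by push_cast; field_simp)) h1)
      (h2.trans (le_of_eq (by push_cast; field_simp; ring)))
  have e : (i0 : ℝ) / m + N * (1 / m) = ((i0 : ℝ) + N) / m := by field_simp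
  rw [e] at h1
  refine h1.trans ?_
  have h2 := le_sumQ (fun i => c (i0 + i)) N
  have h3 : (sumQ (fun i => c (i0 + i)) N : ℝ) ≤ w * m := by exact_mod_cast h
  rw [one_div, inv_mul_le_iff₀ hm']
  linarith

def sqOK (i0 N : ℕ) (w : ℚ) : Bool :=
  decide (sumQ (fun i => absQ (enclT 12 1 40 (i0 + i)) ^ 2) N ≤ w * (40 : ℕ))

theorem sq_sound {i0 N : ℕ} {w : ℚ} (h : sqOK i0 N w = true) :
    ∫ t in ((i0 : ℝ) / 40)..(((i0 : ℝ) + N) / 40), gg 0 (t ^ 2) ^ 2 ≤ w := by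
  have hg := cont_gg 0
  have := integral_le_of_check (f := fun t => gg 0 (t ^ 2) ^ 2) (by fun_prop) (m := 40)
    (by norm_num) i0 N (fun i => absQ (enclT 12 1 40 i) ^ 2)
    (fun i t h1 h2 => by
      have h3 := absQ_sound (enclT_sound 12 (n := 1) i one_pos (by norm_num) h1 h2)
      simp only [Nat.cast_one, div_one] at h3
      push_cast
      rw [← sq_abs]
      exact pow_le_pow_left₀ (abs_nonneg _) h3 2)
    (of_decide_eq_true h)
  simpa using this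

def gainC (n : ℕ) (k x : ℚ) (i : ℕ) : ℚ :=
  -(max (enclT 8 n 40 i).1 0 ^ n *
    max (1 - eU ((19 / 5000 + k * ((i : ℚ) / 40) ^ 2) * ((i : ℚ) / 40) ^ 4 * x)) 0)

def gainOK (n : ℕ) (k x : ℚ) (N : ℕ) (w : ℚ) : Bool :=
  decide (sumQ (fun i => gainC n k x (0 + i)) N ≤ -w * (40 : ℕ))

/-- The gain integrand. -/
noncomputable def gainF (n : ℕ) (k x t : ℝ) : ℝ :=
  max (gg 0 (t ^ 2 / n)) 0 ^ n * (1 - Real.exp (-((19 / 5000 + k * t ^ 2) * t ^ 4 * x)))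

theorem cont_gainF (n : ℕ) (k x : ℝ) : Continuous (gainF n k x) := by
  have hg := cont_gg 0
  unfold gainF; fun_prop

theorem gain_sound {n N : ℕ} {k x w : ℚ} (hn : 0 < n) (hk : 0 ≤ k) (hx : 0 ≤ x)
    (h : gainOK n k x N w = true) : (w : ℝ) ≤ ∫ t in (0 : ℝ)..(N / 40), gainF n k x t := by
  have hk' : (0 : ℝ) ≤ k := by exact_mod_cast hk
  have hx' : (0 : ℝ) ≤ x := by exact_mod_cast hx
  have := integral_le_of_check (f := fun t => -gainF n k x t) (cont_gainF n k x).neg (m := 40)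
    (by norm_num) 0 N (gainC n k x)
    (fun i t h1 h2 => by
      have h3 := (enclT_sound 8 i hn (by norm_num) h1 h2).1
      have h0 : (0 : ℝ) ≤ (i : ℝ) / ((40 : ℕ) : ℝ) := by positivity
      have h4 := eU_sound (y := (19 / 5000 + k * ((i : ℚ) / 40) ^ 2) * ((i : ℚ) / 40) ^ 4 * x)
        (x := (19 / 5000 + k * t ^ 2) * t ^ 4 * x) (by positivity)
        (by push_cast at h0 h1 ⊢; gcongr)
      have h5 : Real.exp (-((19 / 5000 + k * t ^ 2) * t ^ 4 * x)) ≤ 1 :=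
        Real.exp_le_one_iff.2 (by
          have : (0 : ℝ) ≤ (19 / 5000 + k * t ^ 2) * t ^ 4 * x := by positivity
          linarith)
      rw [gainC, gainF]
      push_cast at h4 ⊢
      refine neg_le_neg (mul_le_mul (pow_le_pow_left₀ (le_max_right _ _) (max_le_max_right _ h3) n)
        (max_le (by linarith) (by linarith)) (le_max_right _ _) (by positivity)))
    (w := -w) (of_decide_eq_true h)
  rw [intervalIntegral.integral_neg] at this
  simp only [Nat.cast_zero, zero_div, zero_add, Nat.cast_ofNat, Rat.cast_neg] at this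
  linarith

def concOK (p q N : ℕ) : Bool :=
  allLt (fun i => decide ((encl 8 2 (p + i * 1) q 1).2 +
    2 * (16899 / 100000) * (encl 8 1 (p + i * 1) q 1).2 +
    (16899 / 100000) ^ 2 * (encl 8 0 (p + i * 1) q 1).2 ≤
    -((19 / 2500 + 11 / 10000 * ((((p + i * 1 : ℕ) : ℚ) + 1) / q)) *
      eU (16899 / 100000 * (((p + i * 1 : ℕ) : ℚ) / q))))) N

theorem conc_sound {p q N : ℕ} (h : concOK p q N = true) (hN : 0 < N) (hq : 0 < q) {s : ℝ}
    (h1 : (p : ℝ) / q ≤ s) (h2 : s ≤ ((p : ℝ) + N * (1 : ℕ)) / q) :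
    gg 2 s + 2 * 0.16899 * gg 1 s + 0.16899 ^ 2 * gg 0 s ≤
      -((0.0076 + 0.0011 * s) * Real.exp (-(0.16899 * s))) := by
  obtain ⟨i, hi, h3, h4⟩ := seg_cell hN hq p 1 h1 h2
  have h5 := (Rat.cast_le (K := ℝ)).2 (of_decide_eq_true (allLt_sound h i hi))
  have e0 := (encl_sound 8 0 _ 1 hq h3 h4).2
  have e1 := (encl_sound 8 1 _ 1 hq h3 h4).2
  have e2 := (encl_sound 8 2 _ 1 hq h3 h4).2
  have h6 := eU_sound (y := 16899 / 100000 * (((p + i * 1 : ℕ) : ℚ) / q)) (x := 0.16899 * s)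
    (by positivity) (by push_cast at h3 ⊢; linarith)
  have hs : 0 ≤ s := le_trans (by positivity) h1
  have h7 : (0.0076 + 0.0011 * s) * Real.exp (-(0.16899 * s)) ≤
      (19 / 2500 + 11 / 10000 * ((((p + i * 1 : ℕ) : ℝ) + 1) / q)) *
        (eU (16899 / 100000 * (((p + i * 1 : ℕ) : ℚ) / q)) : ℝ) :=
    mul_le_mul (by push_cast at h4 ⊢; linarith) h6 (Real.exp_pos _).le (by positivity)
  simp only [Rat.cast_add, Rat.cast_mul, Rat.cast_neg, Rat.cast_pow, Rat.cast_div,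
    Rat.cast_ofNat, Rat.cast_natCast, Rat.cast_one] at h5 h7
  linarith

def lobeOK (p q N : ℕ) : Bool :=
  allLt (fun i => decide (0 ≤ (encl 12 2 (p + i * 1) q 1).1 +
    2 * (2 / 25) * (encl 12 1 (p + i * 1) q 1).1 + (2 / 25) ^ 2 * (encl 12 0 (p + i * 1) q 1).1)) N

theorem lobe_sound {p q N : ℕ} (h : lobeOK p q N = true) (hN : 0 < N) (hq : 0 < q) {s : ℝ}
    (h1 : (p : ℝ) / q ≤ s) (h2 : s ≤ ((p : ℝ) + N * (1 : ℕ)) / q) :
    0 ≤ gg 2 s + 2 * 0.08 * gg 1 s + 0.08 ^ 2 * gg 0 s := by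
  obtain ⟨i, hi, h3, h4⟩ := seg_cell hN hq p 1 h1 h2
  have h5 := (Rat.cast_le (K := ℝ)).2 (of_decide_eq_true (allLt_sound h i hi))
  have e0 := (encl_sound 12 0 _ 1 hq h3 h4).1
  have e1 := (encl_sound 12 1 _ 1 hq h3 h4).1
  have e2 := (encl_sound 12 2 _ 1 hq h3 h4).1
  simp only [Rat.cast_add, Rat.cast_mul, Rat.cast_pow, Rat.cast_div,
    Rat.cast_ofNat, Rat.cast_zero] at h5
  linarith

def envOK (p q N : ℕ) : Bool :=
  allLt (fun i => decide (absQ (encl 12 0 (p + i * 1) q 1) ≤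
    min (13 / 125) (eL (17 / 200 * ((((p + i * 1 : ℕ) : ℚ) + 1) / q)))) &&
    decide (17 / 200 * ((((p + i * 1 : ℕ) : ℚ) + 1) / q) ≤ 256)) N

theorem env_sound {p q N : ℕ} (h : envOK p q N = true) (hN : 0 < N) (hq : 0 < q) {s : ℝ}
    (h1 : (p : ℝ) / q ≤ s) (h2 : s ≤ ((p : ℝ) + N * (1 : ℕ)) / q) :
    |gg 0 s| ≤ 0.104 ∧ |gg 0 s| ≤ Real.exp (-(0.085 * s)) := by
  obtain ⟨i, hi, h3, h4⟩ := seg_cell hN hq p 1 h1 h2
  have h5 := allLt_sound h i hi
  simp only [Bool.and_eq_true, decide_eq_true_eq, le_min_iff] at h5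
  obtain ⟨⟨h6, h7⟩, h8⟩ := h5
  have e0 := absQ_sound (encl_sound 12 0 _ 1 hq h3 h4)
  have h9 := eL_sound (x := 0.085 * s) h8 (by push_cast at h4 ⊢; linarith)
  have h6' := (Rat.cast_le (K := ℝ)).2 h6
  have h7' := (Rat.cast_le (K := ℝ)).2 h7
  exact ⟨e0.trans (h6'.trans (by norm_num)), e0.trans (h7'.trans h9)⟩

end Pool.Agent.MP_39fec4_gt.P4
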