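import Pool.Agent.MP_39fec4_gt.P4FactB

set_option autoImplicit false

namespace Pool.Agent.MP_39fec4_gt.P4

open MeasureTheory Set Filter Topology

theorem dev_le {n : ℕ} {u : Fin n → ℝ} (hs : ∑ j, u j = 1) (S : Finset (Fin n))
    (h0 : 0 < S.card) (h1 : S.card < n) :
    (∑ j ∈ S, u j - S.card / n) ^ 2 * n / (S.card * (n - S.card)) ≤ ∑ j, (u j - 1 / n) ^ 2 := by
  have hn' : (0 : ℝ) < n := by exact_mod_cast h0.trans h1
  have hm : (0 : ℝ) < S.card := by exact_mod_cast h0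
  have hm' : (0 : ℝ) < n - S.card := sub_pos.2 (by exact_mod_cast h1)
  have c1 := sq_sum_le_card_mul_sum_sq (s := S) (f := fun j => u j - 1 / n)
  have c2 := sq_sum_le_card_mul_sum_sq (s := Sᶜ) (f := fun j => u j - 1 / n)
  have e1 := Finset.sum_add_sum_compl S fun j => (u j - 1 / n) ^ 2
  have e2 := Finset.sum_add_sum_compl S u
  have e3 : ((Sᶜ.card : ℕ) : ℝ) = n - S.card := by
    rw [Finset.card_compl, Fintype.card_fin, Nat.cast_sub h1.le]
  simp only [Finset.sum_sub_distrib, Finset.sum_const, nsmul_eq_mul, e3] at c1 c2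
  have e4 : ∑ j ∈ Sᶜ, u j - (n - S.card) * (1 / n) = -(∑ j ∈ S, u j - S.card / n) := by
    rw [hs] at e2
    rw [← sub_eq_iff_eq_add'.2 e2.symm]; field_simp; ring
  rw [e4, neg_sq] at c2
  rw [mul_one_div] at c1
  rw [div_le_iff₀ (by positivity), ← e1]
  nlinarith [mul_le_mul_of_nonneg_left c1 hm'.le, mul_le_mul_of_nonneg_left c2 hm.le]

theorem f1 : eV (763 / 100) ≤ 49 / 100000 ∧ eV (201 / 40) ≤ 658 / 100000 ∧
    eV (45 / 8) ≤ 361 / 100000 := by decide +kernel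

theorem exp_763 : Real.exp (-(7.63 : ℝ)) ≤ 0.00049 :=
  (eV_sound (y := 763 / 100) (x := 7.63) (by norm_num) (by norm_num)).trans
    (((Rat.cast_le (K := ℝ)).2 f1.1).trans (by norm_num))

theorem exp_5025 : Real.exp (-(5.025 : ℝ)) ≤ 0.00658 :=
  (eV_sound (y := 201 / 40) (x := 5.025) (by norm_num) (by norm_num)).trans
    (((Rat.cast_le (K := ℝ)).2 f1.2.1).trans (by norm_num))

theorem exp_5625 : Real.exp (-(5.625 : ℝ)) ≤ 0.00361 :=
  (eV_sound (y := 45 / 8) (x := 5.625) (by norm_num) (by norm_num)).trans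
    (((Rat.cast_le (K := ℝ)).2 f1.2.2).trans (by norm_num))

theorem le_mul_exp {a w c : ℝ} (ha : 0 < a) (hw : 0 ≤ w) (hc : 1 ≤ c * a) :
    a + w ≤ a * Real.exp (c * w) := by
  nlinarith [mul_le_mul_of_nonneg_left (Real.add_one_le_exp (c * w)) ha.le]

theorem sqrt_le_one (y : ℝ) (hy : 0 ≤ y) : √(1 + y) ≤ 1 + y / 2 := by
  rw [Real.sqrt_le_left (by positivity)]; nlinarith

theorem ineq_b {n m r V : ℝ} (hm : 4 ≤ m) (hmn : m ≤ n) (h1 : 1 ≤ r) (h2 : r ≤ n)
    (hV1 : 0.04 / (n * (n - 1)) ≤ V) (hV2 : (n - r) ^ 2 / (r ^ 2 * (n * (n - 1))) ≤ V) :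
    √r * Real.exp (-(3.81565 * (r - 1))) ≤ m / (m - 1) * V := by
  have hn1 : 0 < n - 1 := by linarith
  have hn0 : 0 < n := by linarith
  have hm1 : 0 < m - 1 := by linarith
  have hr : 0 < r := by linarith
  have hV0 : 0 ≤ V := le_trans (by positivity) hV1
  rcases le_total r 3 with h | h
  · obtain ⟨y, rfl⟩ : ∃ y, r = 1 + y := ⟨r - 1, by ring⟩
    have hy : 0 ≤ y := by linarith
    have k1 : √(1 + y) ≤ Real.exp (0.5 * y) :=
      (sqrt_le_one y hy).trans (by linarith [Real.add_one_le_exp (0.5 * y)])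
    have k2 : 1 + y ≤ Real.exp y := by linarith [Real.add_one_le_exp y]
    have k3 : 1 ≤ (1 - y / 3) * Real.exp (0.657 * y) := by
      have := Real.quadratic_le_exp_of_nonneg (x := 0.657 * y) (by positivity)
      nlinarith [mul_le_mul_of_nonneg_left this (show 0 ≤ 1 - y / 3 by linarith),
        mul_nonneg hy (show 0 ≤ 2 - y by linarith), mul_nonneg (mul_nonneg hy hy)
          (show 0 ≤ 2 - y by linarith)]
    have k4 : √(1 + y) * Real.exp (-(3.81565 * (1 + y - 1))) * (1 + y) ^ 2 ≤ (1 - y / 3) ^ 2 := by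
      calc _ ≤ Real.exp (0.5 * y) * Real.exp (-(3.81565 * (1 + y - 1))) * Real.exp y ^ 2 *
            ((1 - y / 3) * Real.exp (0.657 * y)) ^ 2 := by
            refine le_trans (by gcongr) (le_mul_of_one_le_right (by positivity) (one_le_pow₀ k3))
        _ = (1 - y / 3) ^ 2 * Real.exp (-0.00165 * y) := by
            rw [mul_pow, ← Real.exp_nat_mul, ← Real.exp_nat_mul, ← Real.exp_add, ← Real.exp_add,
              mul_left_comm, ← Real.exp_add]
            congr 2; push_cast; ring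
        _ ≤ _ := mul_le_of_le_one_right (sq_nonneg _) (Real.exp_le_one_iff.2 (by linarith))
    have k5 : (1 - y / 3) ^ 2 * (n * (n - 1)) ≤ m / (m - 1) * (n - (1 + y)) ^ 2 := by
      have a1 : (1 - y / 3) * (n - 1) ≤ n - (1 + y) := by nlinarith
      have a2 : n ≤ m / (m - 1) * (n - 1) := by
        rw [div_mul_eq_mul_div, le_div_iff₀ hm1]; nlinarith
      calc (1 - y / 3) ^ 2 * (n * (n - 1)) ≤ (1 - y / 3) ^ 2 * (m / (m - 1) * (n - 1) * (n - 1)) := by
            gcongr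
        _ = m / (m - 1) * ((1 - y / 3) * (n - 1)) ^ 2 := by ring
        _ ≤ _ := by
          have : 0 ≤ (1 - y / 3) * (n - 1) := mul_nonneg (by linarith) hn1.le
          gcongr
    rw [div_le_iff₀ (by positivity)] at hV2
    refine le_of_mul_le_mul_right ?_ (show 0 < (1 + y) ^ 2 * (n * (n - 1)) by positivity)
    calc _ = √(1 + y) * Real.exp (-(3.81565 * (1 + y - 1))) * (1 + y) ^ 2 * (n * (n - 1)) := by ring
      _ ≤ (1 - y / 3) ^ 2 * (n * (n - 1)) := by gcongr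
      _ ≤ m / (m - 1) * (n - (1 + y)) ^ 2 := k5
      _ ≤ m / (m - 1) * (V * ((1 + y) ^ 2 * (n * (n - 1)))) := by gcongr
      _ = _ := by ring
  · obtain ⟨w, rfl⟩ : ∃ w, r = 3 + w := ⟨r - 3, by ring⟩
    have hw : 0 ≤ w := by linarith
    have k0 : √(3 + w) ≤ 3 + w := by rw [Real.sqrt_le_left (by positivity)]; nlinarith
    have k1 := le_mul_exp (a := 3) (c := 0.34) (by norm_num) hw (by norm_num)
    have k2 := le_mul_exp (a := 4) (c := 0.25) (by norm_num) hw (by norm_num)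
    have k3 : (3 + w) ^ 4 * (4 + w) * Real.exp (-(3.81565 * (3 + w - 1))) ≤ 0.16 := by
      calc _ ≤ (3 * Real.exp (0.34 * w)) ^ 4 * (4 * Real.exp (0.25 * w)) *
            Real.exp (-(3.81565 * (3 + w - 1))) := by gcongr
        _ = 324 * Real.exp (-(7.6313 + 2.20565 * w)) := by
            rw [mul_pow, ← Real.exp_nat_mul, mul_mul_mul_comm, ← Real.exp_add, mul_assoc,
              ← Real.exp_add]
            congr 1
            · norm_num
            · congr 1; push_cast; ring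
        _ ≤ 324 * Real.exp (-(7.63 : ℝ)) := by gcongr; linarith
        _ ≤ _ := by linarith [exp_763]
    have k4 : V ≤ m / (m - 1) * V := le_mul_of_one_le_left hV0 ((one_le_div hm1).2 (by linarith))
    refine le_trans ?_ k4
    set E := Real.exp (-(3.81565 * (3 + w - 1)))
    have hE : 0 < E := Real.exp_pos _
    refine (mul_le_mul_of_nonneg_right k0 hE.le).trans ?_
    rcases le_total n (3 + w + 1) with h3 | h3
    · refine le_trans ?_ hV1
      rw [le_div_iff₀ (by positivity)]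
      have a1 : n * (n - 1) ≤ (4 + w) * (3 + w) := by nlinarith
      have a2 : 9 ≤ (3 + w) ^ 2 := by nlinarith
      have a3 : 0 ≤ (3 + w) ^ 2 * (4 + w) * E := by positivity
      nlinarith [mul_le_mul_of_nonneg_left a1 (show 0 ≤ (3 + w) * E by positivity),
        mul_le_mul_of_nonneg_left a2 a3]
    · refine le_trans ?_ hV2
      rw [le_div_iff₀ (by positivity)]
      have a1 : n ≤ (n - (3 + w)) * (4 + w) := by nlinarith
      have a2 : n - 1 ≤ (n - (3 + w)) * (3 + w) := by nlinarith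
      calc (3 + w) * E * ((3 + w) ^ 2 * (n * (n - 1))) ≤ (3 + w) * E * ((3 + w) ^ 2 *
            ((n - (3 + w)) * (4 + w) * ((n - (3 + w)) * (3 + w)))) := by
            gcongr
        _ = (3 + w) ^ 4 * (4 + w) * E * (n - (3 + w)) ^ 2 := by ring
        _ ≤ 1 * (n - (3 + w)) ^ 2 := by gcongr; linarith
        _ = _ := one_mul _

theorem sqrt_le_two {ρ : ℝ} (h : 0 ≤ ρ) : √(2 + ρ) ≤ 1.41422 * (1 + ρ / 4) ∧
    √(2 + ρ) ≤ 0.238 * (2 + ρ) + 1.0505 := by
  constructor <;> rw [Real.sqrt_le_left (by positivity)]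
  · nlinarith
  · nlinarith [sq_nonneg (0.238 * (2 + ρ) - 1.0505)]

/-- Bound for the weighted integral of the second lobe in dimension at least five. -/
noncomputable def K5 (ρ : ℝ) : ℝ :=
  0.0001393 * Real.exp (-(2.01 * ρ)) + 0.0161724 * Real.exp (-(2.25 * ρ))

theorem K5_bound {ρ : ℝ} (h : 0 ≤ ρ) : ∑ l ∈ Finset.range 12,
    (gw l : ℝ) * Real.exp (-(ρ * min (0.16899 * ((gi l : ℝ) / 40) ^ 2) 2.25)) ≤ K5 ρ := by
  have h1 : Real.exp (-(ρ * (0.16899 * ((138 : ℝ) / 40) ^ 2))) ≤ Real.exp (-(2.01 * ρ)) :=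
    Real.exp_le_exp.2 (by nlinarith)
  simp only [Finset.sum_range_succ, Finset.sum_range_zero, gi, gw, K5]
  push_cast
  rw [min_eq_left (by norm_num)]
  iterate 11 rw [min_eq_right (by norm_num)]
  rw [mul_comm ρ 2.25]
  linarith

def a5OK (i : ℕ) : Bool := decide (
  min (141422 / 100000 * (1 + ((i : ℚ) + 1) / 50 / 4)) 
    (119 / 500 * (2 + ((i : ℚ) + 1) / 50) + 2101 / 2000) *
    (1393 / 10000000 * eV (201 / 100 * ((i : ℚ) / 50)) + 161724 / 10000000 * eV (9 / 4 * ((i : ℚ) / 50))) *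
    (2 + ((i : ℚ) + 1) / 50) ^ 2 ≤ 81 / 1000 * (6 / 5 * (1 - ((i : ℚ) + 1) / 50 / 3) ^ 2))

theorem f2 : allLt a5OK 125 = true := by decide +kernel

theorem a5_cell {ρ : ℝ} (h0 : 0 ≤ ρ) (h1 : ρ ≤ 2.5) :
    √(2 + ρ) * K5 ρ * (2 + ρ) ^ 2 ≤ 0.081 * (1.2 * (1 - ρ / 3) ^ 2) := by
  obtain ⟨i, hi, h2, h3⟩ := exists_cell (N := 125) (by norm_num) (a := 0) (h := 1 / 50) h0
    (by norm_num; linarith)
  have h4 := (Rat.cast_le (K := ℝ)).2 (of_decide_eq_true (allLt_sound f2 i hi))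
  have hi' : (i : ℝ) + 1 ≤ 125 := by exact_mod_cast hi
  have e1 := eV_sound (y := 201 / 100 * ((i : ℚ) / 50)) (x := 2.01 * ρ) (by positivity)
    (by push_cast; linarith)
  have e2 := eV_sound (y := 9 / 4 * ((i : ℚ) / 50)) (x := 2.25 * ρ) (by positivity)
    (by push_cast; linarith)
  obtain ⟨s1, s2⟩ := sqrt_le_two h0
  simp only [Rat.cast_mul, Rat.cast_add, Rat.cast_sub, Rat.cast_div, Rat.cast_pow, Rat.cast_min,
    Rat.cast_ofNat, Rat.cast_natCast, Rat.cast_one] at h4 e1 e2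
  refine le_trans ?_ (h4.trans ?_)
  · have p1 := (Real.exp_pos _).le.trans e1
    have p2 := (Real.exp_pos _).le.trans e2
    refine mul_le_mul (mul_le_mul (le_min (by linarith) (by linarith)) (by rw [K5]; linarith)
      (by rw [K5]; positivity) (by positivity)) (by gcongr; linarith) (by positivity)
      (by positivity)
  · have : (1 - ((i : ℝ) + 1) / 50 / 3) ^ 2 ≤ (1 - ρ / 3) ^ 2 :=
      pow_le_pow_left₀ (by linarith) (by linarith) 2
    linarith

theorem K5_le {ρ : ℝ} (h : 0 ≤ ρ) : √(2 + ρ) * K5 ρ ≤ 0.02307 := by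
  have h1 : Real.exp (-(2.25 * ρ)) ≤ Real.exp (-(2.01 * ρ)) := Real.exp_le_exp.2 (by linarith)
  have h2 : (1 + ρ / 4) * Real.exp (-(2.01 * ρ)) ≤ 1 := by
    calc _ ≤ Real.exp (ρ / 4) * Real.exp (-(2.01 * ρ)) := by
          gcongr; linarith [Real.add_one_le_exp (ρ / 4)]
      _ ≤ 1 := by rw [← Real.exp_add]; exact Real.exp_le_one_iff.2 (by linarith)
  calc √(2 + ρ) * K5 ρ ≤ 1.41422 * (1 + ρ / 4) * (0.0163117 * Real.exp (-(2.01 * ρ))) :=
        mul_le_mul (sqrt_le_two h).1 (by rw [K5]; linarith) (by rw [K5]; positivity)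
          (by positivity)
    _ ≤ _ := by linarith

theorem ineq_a5 {n ρ V : ℝ} (hn : 5 ≤ n) (h1 : 0 ≤ ρ) (h2 : 2 + ρ ≤ n)
    (hV1 : 0.04 / (n * (n - 1)) ≤ V)
    (hV2 : 2 * (n - (2 + ρ)) ^ 2 / ((2 + ρ) ^ 2 * (n * (n - 2))) ≤ V) :
    √(2 + ρ) * K5 ρ ≤ 0.081 * V := by
  have hn2 : 0 < n - 2 := by linarith
  have hn1 : 0 < n - 1 := by linarith
  have hn0 : 0 < n := by linarith
  rw [div_le_iff₀ (by positivity)] at hV1 hV2
  rcases le_total ρ 2.5 with h | h
  · have k1 := a5_cell h1 h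
    have k5 : 1.2 * (1 - ρ / 3) ^ 2 * (n * (n - 2)) ≤ 2 * (n - (2 + ρ)) ^ 2 := by
      have a1 : (1 - ρ / 3) * (n - 2) ≤ n - (2 + ρ) := by nlinarith
      calc 1.2 * (1 - ρ / 3) ^ 2 * (n * (n - 2)) ≤
            1.2 * (1 - ρ / 3) ^ 2 * (5 / 3 * (n - 2) * (n - 2)) := by gcongr; linarith
        _ = 2 * ((1 - ρ / 3) * (n - 2)) ^ 2 := by ring
        _ ≤ _ := by
          have : 0 ≤ (1 - ρ / 3) * (n - 2) := mul_nonneg (by linarith) hn2.le
          gcongr
    refine le_of_mul_le_mul_right ?_ (show 0 < (2 + ρ) ^ 2 * (n * (n - 2)) by positivity)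
    calc _ = √(2 + ρ) * K5 ρ * (2 + ρ) ^ 2 * (n * (n - 2)) := by ring
      _ ≤ 0.081 * (1.2 * (1 - ρ / 3) ^ 2) * (n * (n - 2)) := by gcongr
      _ ≤ _ := by linarith
  · obtain ⟨w, rfl⟩ : ∃ w, ρ = 2.5 + w := ⟨ρ - 2.5, by ring⟩
    have hw : 0 ≤ w := by linarith
    have k0 : √(2 + (2.5 + w)) ≤ 2.1215 * Real.exp (0.12 * w) := by
      linarith [(sqrt_le_two h1).2, Real.add_one_le_exp (0.12 * w)]
    have k1 := le_mul_exp (a := 4.5) (c := 0.23) (by norm_num) hw (by norm_num)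
    have k2 := le_mul_exp (a := 5) (c := 0.2) (by norm_num) hw (by norm_num)
    have k3 := le_mul_exp (a := 3) (c := 0.34) (by norm_num) hw (by norm_num)
    have k4 : K5 (2.5 + w) ≤ 0.0000594 * Real.exp (-(2.01 * w)) := by
      have e1 : Real.exp (-(2.01 * (2.5 + w))) =
          Real.exp (-(5.025 : ℝ)) * Real.exp (-(2.01 * w)) := by
        rw [← Real.exp_add]; congr 1; ring
      have e2 : Real.exp (-(2.25 * (2.5 + w))) ≤
          Real.exp (-(5.625 : ℝ)) * Real.exp (-(2.01 * w)) := by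
        rw [← Real.exp_add]; exact Real.exp_le_exp.2 (by linarith)
      have p := (Real.exp_pos (-(2.01 * w))).le
      rw [K5, e1]
      nlinarith [mul_le_mul_of_nonneg_right exp_5025 p, mul_le_mul_of_nonneg_right exp_5625 p]
    have k5 : √(2 + (2.5 + w)) * K5 (2.5 + w) * ((4.5 + w) ^ 2 * ((5 + w) * (3 + w))) ≤ 0.0383 := by
      calc _ ≤ 2.1215 * Real.exp (0.12 * w) * (0.0000594 * Real.exp (-(2.01 * w))) *
            ((4.5 * Real.exp (0.23 * w)) ^ 2 * (5 * Real.exp (0.2 * w) *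
              (3 * Real.exp (0.34 * w)))) := by
            have : 0 ≤ K5 (2.5 + w) := by rw [K5]; positivity
            gcongr
        _ = 2.1215 * 0.0000594 * 4.5 ^ 2 * 15 * (Real.exp (0.12 * w) * Real.exp (-(2.01 * w)) *
            Real.exp (0.23 * w) * Real.exp (0.23 * w) * Real.exp (0.2 * w) *
              Real.exp (0.34 * w)) := by ring
        _ ≤ 2.1215 * 0.0000594 * 4.5 ^ 2 * 15 * 1 := by
            gcongr
            simp only [← Real.exp_add]
            exact Real.exp_le_one_iff.2 (by linarith)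
        _ ≤ _ := by norm_num
    have hV0 : 0 ≤ V := by
      by_contra hV
      nlinarith [mul_pos hn0 hn1]
    have k6 : 0.5 ≤ V * ((4.5 + w) ^ 2 * ((5 + w) * (3 + w))) := by
      rcases le_total n (5 + w) with h3 | h3
      · have a1 : n * (n - 1) ≤ (5 + w) * (4 + w) := by nlinarith
        have a2 : 12.5 * (4 + w) ≤ (4.5 + w) ^ 2 * (3 + w) := by nlinarith [mul_nonneg hw hw]
        calc (0.5 : ℝ) ≤ 12.5 * (V * (n * (n - 1))) := by linarith
          _ ≤ 12.5 * (V * ((5 + w) * (4 + w))) := by gcongr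
          _ = V * ((5 + w) * (12.5 * (4 + w))) := by ring
          _ ≤ V * ((5 + w) * ((4.5 + w) ^ 2 * (3 + w))) := by gcongr
          _ = _ := by ring
      · have a1 : n ≤ 2 * (n - (4.5 + w)) * (5 + w) := by nlinarith
        have a2 : n - 2 ≤ 2 * (n - (4.5 + w)) * (3 + w) := by nlinarith
        have a3 : 0 < n - (4.5 + w) := by linarith
        refine le_of_mul_le_mul_right ?_ (show 0 < 4 * (n - (4.5 + w)) ^ 2 by positivity)
        calc 0.5 * (4 * (n - (4.5 + w)) ^ 2) = 2 * (n - (2 + (2.5 + w))) ^ 2 := by ring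
          _ ≤ V * ((2 + (2.5 + w)) ^ 2 * (n * (n - 2))) := hV2
          _ ≤ V * ((2 + (2.5 + w)) ^ 2 * (2 * (n - (4.5 + w)) * (5 + w) *
              (2 * (n - (4.5 + w)) * (3 + w)))) := by gcongr
          _ = _ := by ring
    refine le_of_mul_le_mul_right ?_
      (show 0 < (4.5 + w) ^ 2 * ((5 + w) * (3 + w)) by positivity)
    linarith

def K4q (a : ℚ) : ℕ → ℚ
  | 0 => 0
  | (l + 1) => K4q a l + gw l * eU (a * (16899 / 100000 * ((gi l : ℚ) / 40) ^ 2) / 2) ^ 2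

theorem gw_nonneg (l : ℕ) : (0 : ℚ) ≤ gw l := by unfold gw; split <;> norm_num

theorem K4q_sound {a : ℚ} {ρ : ℝ} (ha : 0 ≤ a) (h : (a : ℝ) ≤ ρ) (k : ℕ) :
    ∑ l ∈ Finset.range k, (gw l : ℝ) * Real.exp (-(ρ * (0.16899 * ((gi l : ℝ) / 40) ^ 2))) ≤
      K4q a k := by
  induction k with
  | zero => simp [K4q]
  | succ k ih =>
    rw [Finset.sum_range_succ, K4q]
    have h1 := eU_sound (y := a * (16899 / 100000 * ((gi k : ℚ) / 40) ^ 2) / 2)
      (x := ρ * (0.16899 * ((gi k : ℝ) / 40) ^ 2) / 2) (by positivity)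
      (by push_cast; norm_num; gcongr)
    have e : Real.exp (-(ρ * (0.16899 * ((gi k : ℝ) / 40) ^ 2))) =
        Real.exp (-(ρ * (0.16899 * ((gi k : ℝ) / 40) ^ 2) / 2)) ^ 2 := by
      rw [← Real.exp_nat_mul]; congr 1; push_cast; ring
    rw [Rat.cast_add, Rat.cast_mul, Rat.cast_pow, e]
    have : (0 : ℝ) ≤ gw k := by exact_mod_cast gw_nonneg k
    gcongr

def a4OK (i : ℕ) : Bool := decide (
  141422 / 100000 * (1 + ((i : ℚ) + 1) / 50 / 4) * K4q ((i : ℚ) / 50) 12 ≤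
    97 / 1000 * max (1 / 300) ((2 - ((i : ℚ) + 1) / 50) ^ 2 / (4 * (2 + ((i : ℚ) + 1) / 50) ^ 2)))

theorem f3 : allLt a4OK 100 = true := by decide +kernel

theorem ineq_a4 {ρ V : ℝ} (h0 : 0 ≤ ρ) (h1 : ρ ≤ 2) (hV1 : 1 / 300 ≤ V)
    (hV2 : (2 - ρ) ^ 2 / (4 * (2 + ρ) ^ 2) ≤ V) : √(2 + ρ) *
      ∑ l ∈ Finset.range 12, (gw l : ℝ) * Real.exp (-(ρ * (0.16899 * ((gi l : ℝ) / 40) ^ 2))) ≤
      0.097 * V := by
  obtain ⟨i, hi, h2, h3⟩ := exists_cell (N := 100) (by norm_num) (a := 0) (h := 1 / 50) h0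
    (by norm_num; linarith)
  have h4 := (Rat.cast_le (K := ℝ)).2 (of_decide_eq_true (allLt_sound f3 i hi))
  have hi' : (i : ℝ) + 1 ≤ 100 := by exact_mod_cast hi
  have e1 := K4q_sound (a := (i : ℚ) / 50) (ρ := ρ) (by positivity) (by push_cast; linarith) 12
  simp only [Rat.cast_mul, Rat.cast_add, Rat.cast_sub, Rat.cast_div, Rat.cast_pow, Rat.cast_max,
    Rat.cast_ofNat, Rat.cast_natCast, Rat.cast_one] at h4
  refine le_trans ?_ (h4.trans ?_)
  · refine mul_le_mul (by linarith [(sqrt_le_two h0).1]) e1 (Finset.sum_nonneg fun l _ =>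
      mul_nonneg (by exact_mod_cast gw_nonneg l) (Real.exp_pos _).le) (by positivity)
  · have : (2 - ((i : ℝ) + 1) / 50) ^ 2 / (4 * (2 + ((i : ℝ) + 1) / 50) ^ 2) ≤
        (2 - ρ) ^ 2 / (4 * (2 + ρ) ^ 2) := by
      have : 0 ≤ 2 - ((i : ℝ) + 1) / 50 := by linarith
      gcongr <;> linarith
    have := max_le hV1 (this.trans hV2)
    linarith

end Pool.Agent.MP_39fec4_gt.P4
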