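import Pool.Agent.MP_39fec4_gt.P4Near
import Pool.Agent.MP_39fec4_gt.P4OneD

set_option autoImplicit false

namespace Pool.Agent.MP_39fec4_gt.P4

open MeasureTheory Set Filter Topology

theorem exists_top {n : ℕ} (hn : 2 ≤ n) {u : Fin n → ℝ} (hu : ∀ j, 0 ≤ u j) (hs : ∑ j, u j = 1) :
    ∃ i j, j ≠ i ∧ (∀ k, u k ≤ u i) ∧ (∀ k, k ≠ i → u k ≤ u j) ∧ 1 / n ≤ u i ∧ u i ≤ 1 ∧
      2 / n ≤ u i + u j ∧ u i + u j ≤ 1 := by
  have hn' : (2 : ℝ) ≤ n := by exact_mod_cast hn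
  obtain ⟨i, -, hi⟩ := Finset.exists_max_image Finset.univ u ⟨⟨0, by omega⟩, Finset.mem_univ _⟩
  obtain ⟨j, hj, hj'⟩ := Finset.exists_max_image (Finset.univ.erase i) u
    (Finset.card_pos.1 (by simp; omega))
  have hij := Finset.ne_of_mem_erase hj
  have h1 : 1 ≤ n * u i := by
    rw [← hs]
    simpa using Finset.sum_le_card_nsmul Finset.univ u (u i) hi
  have h2 := sum_split u hij
  have h3 : ∑ k ∈ (Finset.univ.erase i).erase j, u k ≤ (n - 2) * u j := by
    have := Finset.sum_le_card_nsmul ((Finset.univ.erase i).erase j) u (u j)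
      fun k hk => hj' k (Finset.mem_of_mem_erase hk)
    rw [Finset.card_erase_of_mem hj, Finset.card_erase_of_mem (Finset.mem_univ _),
      Finset.card_univ, Fintype.card_fin, nsmul_eq_mul, Nat.sub_sub, Nat.cast_sub hn] at this
    exact_mod_cast this
  have h4 : 0 ≤ ∑ k ∈ (Finset.univ.erase i).erase j, u k := Finset.sum_nonneg fun k _ => hu k
  refine ⟨i, j, hij, fun k => hi k (Finset.mem_univ _), fun k hk => hj' k (by simp [hk]),
    ?_, by linarith [hu j], ?_, by linarith⟩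
  · rw [div_le_iff₀ (by linarith)]; linarith
  · rw [div_le_iff₀ (by linarith)]
    nlinarith [hi j (Finset.mem_univ _)]

theorem integrable_prod {n : ℕ} (hn : 2 ≤ n) {u : Fin n → ℝ} (hu : ∀ j, 0 ≤ u j)
    (hs : ∑ j, u j = 1) : IntegrableOn (fun t : ℝ => ∏ j, gg 0 (u j * t ^ 2)) (Ioi 0) := by
  obtain ⟨i, -, -, -, -, hi, -⟩ := exists_top hn hu hs
  have hn' : (0 : ℝ) < n := by exact_mod_cast (by omega : 0 < n)
  have hi0 : 0 < u i := lt_of_lt_of_le (by positivity) hi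
  have hg := cont_gg 0
  refine ((exp_neg_integrableOn_Ioi 0 (b := 3 / 4 * √(u i)) (by positivity)).const_mul 34).mono'
    (Continuous.aestronglyMeasurable (by fun_prop))
    ((ae_restrict_iff' measurableSet_Ioi).2 (Eventually.of_forall fun t ht => ?_))
  have ht' : (0 : ℝ) < t := ht
  have h1 := decay (τ := √(u i) * t) (by positivity)
  rw [mul_pow, Real.sq_sqrt hi0.le] at h1
  rw [Real.norm_eq_abs, ← Finset.mul_prod_erase _ _ (Finset.mem_univ i), abs_mul, Finset.abs_prod]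
  refine (mul_le_of_le_one_right (abs_nonneg _) (Finset.prod_le_one (fun _ _ => abs_nonneg _)
    fun k _ => MM_zero ▸ abs_gg 0 _)).trans (h1.trans (le_of_eq ?_))
  congr 2; ring

theorem integrable_diag {n : ℕ} (hn : 2 ≤ n) :
    IntegrableOn (fun t : ℝ => gg 0 (t ^ 2 / n) ^ n) (Ioi 0) := by
  have hn' : (0 : ℝ) < n := by exact_mod_cast (by omega : 0 < n)
  have := integrable_prod hn (u := fun _ => 1 / n) (fun _ => by positivity)
    (by simp; field_simp)
  simpa only [Fin.prod_const, one_div_mul_eq_div] using this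

theorem integrable_diff {n : ℕ} (hn : 2 ≤ n) {u : Fin n → ℝ} (hu : ∀ j, 0 ≤ u j)
    (hs : ∑ j, u j = 1) :
    IntegrableOn (fun t : ℝ => ∏ j, gg 0 (u j * t ^ 2) - gg 0 (t ^ 2 / n) ^ n) (Ioi 0) :=
  (integrable_prod hn hu hs).sub (integrable_diag hn)

theorem var_le {n : ℕ} (hn : 0 < n) {u : Fin n → ℝ} (hu : ∀ j, 0 ≤ u j) (hs : ∑ j, u j = 1) :
    ∑ j, (u j - 1 / n) ^ 2 ≤ 1 - 1 / (n : ℝ) := by
  rw [var_nonneg hn u hs]
  have : ∑ j, u j ^ 2 ≤ ∑ j, u j := Finset.sum_le_sum fun j _ => by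
    have := Finset.single_le_sum (f := u) (fun k _ => hu k) (Finset.mem_univ j)
    nlinarith [hu j]
  linarith

theorem dev_one {n : ℕ} (hn : 2 ≤ n) {u : Fin n → ℝ} (hs : ∑ j, u j = 1) (i : Fin n) :
    (u i - 1 / n) ^ 2 * n / (n - 1) ≤ ∑ j, (u j - 1 / n) ^ 2 := by
  simpa using dev_le hs {i} (by simp) (by simp; omega)

theorem dev_two {n : ℕ} (hn : 3 ≤ n) {u : Fin n → ℝ} (hs : ∑ j, u j = 1) {i j : Fin n}
    (h : j ≠ i) : (u i + u j - 2 / n) ^ 2 * n / (2 * (n - 2)) ≤ ∑ j, (u j - 1 / n) ^ 2 := by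
  have := dev_le hs {i, j} (by simp) (by rw [Finset.card_pair h.symm]; omega)
  rw [Finset.card_pair h.symm, Finset.sum_pair h.symm] at this
  exact_mod_cast this

theorem dev_far {n : ℕ} (hn : 2 ≤ n) {u : Fin n → ℝ} (hs : ∑ j, u j = 1) {i : Fin n}
    (h : 0.2 / n < |u i - 1 / n|) : 0.04 / ((n : ℝ) * (n - 1)) ≤ ∑ j, (u j - 1 / n) ^ 2 := by
  have hn' : (2 : ℝ) ≤ n := by exact_mod_cast hn
  have h1 : 0 < (n : ℝ) - 1 := by linarith
  refine le_trans ?_ (dev_one hn hs i)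
  rw [← sq_abs]
  calc 0.04 / ((n : ℝ) * (n - 1)) = (0.2 / n) ^ 2 * n / (n - 1) := by field_simp; norm_num
    _ ≤ _ := by gcongr

theorem maj_b_term {n m : ℕ} (hm : 4 ≤ m) (hmn : m ≤ n) {u : Fin n → ℝ} (hs : ∑ j, u j = 1)
    {i : Fin n} (h1 : 1 / n ≤ u i) (h2 : u i ≤ 1)
    (hV : 0.04 / ((n : ℝ) * (n - 1)) ≤ ∑ j, (u j - 1 / n) ^ 2) :
    Maj (fun t => Real.exp (-(3.81565 * (1 / u i - 1))) * phiB (t / √(1 / u i)))
      (0.03033 * (m / (m - 1) * ∑ j, (u j - 1 / n) ^ 2)) := by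
  have hn' : (4 : ℝ) ≤ n := by exact_mod_cast hm.trans hmn
  have hi0 : 0 < u i := lt_of_lt_of_le (by positivity) h1
  have h3 := ineq_b (n := n) (m := m) (r := 1 / u i) (by exact_mod_cast hm) (by exact_mod_cast hmn)
    ((one_le_div hi0).2 h2) ((one_div_le hi0 (by linarith)).2 h1) hV
    (le_trans (le_of_eq (by
      have : (n : ℝ) - 1 ≠ 0 := by linarith
      field_simp)) (dev_one (by omega) hs i))
  refine ((maj_b.scale (c := √(1 / u i)) (by positivity)).smul (Real.exp_pos _).le).mono ?_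
  linarith

theorem maj_GI {m N : ℕ} {k x w : ℚ} (hm : 0 < m) (hk : 0 ≤ k) (hx : 0 ≤ x)
    (h : gainOK m k x N w = true) {c : ℝ} (hc : 0 ≤ c) :
    Maj (fun t => c * GI m k x (N / 40) t) (c * -w) := (maj_gain hm hk hx h).smul hc

theorem maj_phiA {ψ : ℝ → ℝ} (hψ : Continuous ψ) (hm : Monotone ψ) {ρ : ℝ} (hρ : 0 ≤ ρ) :
    Maj (phiA fun τ => Real.exp (-(ρ * ψ (τ ^ 2))))
      (∑ l ∈ Finset.range 12, gw l * Real.exp (-(ρ * ψ (((gi l : ℝ) / 40) ^ 2)))) :=
  maj_a (E := fun τ => Real.exp (-(ρ * ψ (τ ^ 2)))) (by fun_prop) (fun _ => (Real.exp_pos _).le)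
    fun s t hs hst => Real.exp_le_exp.2 (neg_le_neg (mul_le_mul_of_nonneg_left
      (hm (pow_le_pow_left₀ hs hst 2)) hρ))

theorem far4 {u : Fin 4 → ℝ} (hu : ∀ j, 0 ≤ u j) (hs : ∑ j, u j = 1)
    (hV : 0.04 / (((4 : ℕ) : ℝ) * ((4 : ℕ) - 1)) ≤ ∑ j, (u j - 1 / (4 : ℕ)) ^ 2) :
    ∫ t in Ioi (0 : ℝ), (∏ j, gg 0 (u j * t ^ 2) - gg 0 (t ^ 2 / (4 : ℕ)) ^ 4) ≤
      -0.001 * ∑ j, (u j - 1 / (4 : ℕ)) ^ 2 := by
  obtain ⟨i, j, hij, hi, hj, h1, h2, h3, h4⟩ := exists_top (by norm_num) hu hs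
  have hi0 : 0 < u i := lt_of_lt_of_le (by norm_num) h1
  have hU : 0 < u i + u j := by linarith [hu j]
  have hVx := var_le (by norm_num) hu hs
  have hd := dev_two (by norm_num) hs hij
  have hρ : 0 ≤ 2 / (u i + u j) - 2 := by rw [sub_nonneg, le_div_iff₀ hU]; linarith
  have hρ' : 2 / (u i + u j) - 2 ≤ 2 := by
    rw [sub_le_iff_le_add, div_le_iff₀ hU]; norm_num at h3; linarith
  have m1 := maj_GI (m := 4) (by norm_num) (by norm_num) (by norm_num) d3
    (c := (∑ j, (u j - 1 / (4 : ℕ)) ^ 2) / (3 / 4)) (by positivity)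
  have m2 := (maj_phiA (ψ := fun y => 0.16899 * y) (by fun_prop)
    (fun a b h => by simp only; linarith) hρ).scale (c := √(2 / (u i + u j))) (by positivity)
  have m3 := maj_b_term (m := 4) le_rfl le_rfl hs h1 h2 hV
  have h5 := ineq_a4 hρ hρ' (V := ∑ j, (u j - 1 / (4 : ℕ)) ^ 2) (le_trans (by norm_num) hV)
    (le_trans (le_of_eq (by push_cast; field_simp; ring)) hd)
  rw [add_sub_cancel] at h5
  refine (((m1.add m2).add m3).bound
    (integrable_diff (by norm_num) hu hs) fun t ht => ?_).trans ?_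
  · have := far_point4 (k := 11 / 120000) (x := 3 / 4) (by norm_num) (by norm_num) hu hs
      (by norm_num) (hVx.trans (by norm_num)) hij hi hj hi0 ht
    convert this using 5 <;> norm_num
  · have : 0 ≤ ∑ j, (u j - 1 / ((4 : ℕ) : ℝ)) ^ 2 := by positivity
    push_cast at h5 this ⊢
    linarith

theorem sum_gw : ∑ l ∈ Finset.range 12, (gw l : ℝ) * 1 ≤ 0.0163117 := by
  simp only [Finset.sum_range_succ, Finset.sum_range_zero, gw]
  norm_num

theorem sqrt_five : √((5 : ℕ) : ℝ) ≤ 2.2361 := by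
  rw [Real.sqrt_le_left (by norm_num)]; norm_num

theorem rho_bound {n : ℕ} (hn : 5 ≤ n) :
    √n * (0.104 ^ (n - 2) * 0.0163117 + 0.0146 ^ (n - 1) * 0.03033) * (n * (n - 1)) ≤ 0.000822 := by
  have h1 : (0.0146 : ℝ) ^ (n - 1) ≤ 0.104 ^ (n - 5) * 0.0146 ^ 4 := by
    rw [show n - 1 = n - 5 + 4 by omega, pow_add]; gcongr; norm_num
  have h2 : √n * (0.104 : ℝ) ^ (n - 5) * (n * (n - 1)) ≤ 44.722 := by
    rcases hn.eq_or_lt with rfl | h
    · have := sqrt_five
      norm_num at this ⊢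
      linarith
    · have := (dim_decay (m := 6) (n := n) (B := 0.104) (r := 3) (by norm_num) h (by norm_num)
        (by norm_num) (by rw [Real.sqrt_le_left (by norm_num)]; norm_num)).1
      rw [show n - 5 = n - 6 + 1 by omega, pow_succ]
      calc √n * ((0.104 : ℝ) ^ (n - 6) * 0.104) * (n * (n - 1)) ≤
            √n * ((0.104 : ℝ) ^ (n - 6) * 0.104) * (n * n) := by gcongr; linarith
        _ = 0.104 * (√n * n ^ 2 * 0.104 ^ (n - 6)) := by ring
        _ ≤ _ := by norm_num at this ⊢; linarith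
  have hn' : (5 : ℝ) ≤ n := by exact_mod_cast hn
  have : 0 ≤ (n : ℝ) * (n - 1) := mul_nonneg (by linarith) (by linarith)
  rw [show n - 2 = n - 5 + 3 by omega, pow_add]
  calc _ ≤ √n * (0.104 ^ (n - 5) * 0.104 ^ 3 * 0.0163117 +
        0.104 ^ (n - 5) * 0.0146 ^ 4 * 0.03033) * (n * (n - 1)) := by gcongr
    _ = (0.104 ^ 3 * 0.0163117 + 0.0146 ^ 4 * 0.03033) *
        (√n * (0.104 : ℝ) ^ (n - 5) * (n * (n - 1))) := by ring
    _ ≤ _ := by nlinarith

theorem far5 {n : ℕ} (hn : 5 ≤ n) {u : Fin n → ℝ} (hu : ∀ j, 0 ≤ u j) (hs : ∑ j, u j = 1)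
    (hV : 0.04 / ((n : ℝ) * (n - 1)) ≤ ∑ j, (u j - 1 / n) ^ 2) :
    ∫ t in Ioi (0 : ℝ), (∏ j, gg 0 (u j * t ^ 2) - gg 0 (t ^ 2 / n) ^ n) ≤
      -0.001 * ∑ j, (u j - 1 / n) ^ 2 := by
  obtain ⟨i, j, hij, hi, hj, h1, h2, h3, h4⟩ := exists_top (by omega) hu hs
  have hn' : (5 : ℝ) ≤ n := by exact_mod_cast hn
  have hn0 : (0 : ℝ) < n := by linarith
  have hi0 : 0 < u i := lt_of_lt_of_le (by positivity) h1
  have hU : 0 < u i + u j := by linarith [hu j]
  have hVx : ∑ j, (u j - 1 / n) ^ 2 ≤ 1 :=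
    (var_le (by omega) hu hs).trans (sub_le_self _ (by positivity))
  have hd := dev_two (by omega) hs hij
  have hρ : 0 ≤ 2 / (u i + u j) - 2 := by rw [sub_nonneg, le_div_iff₀ hU]; linarith
  have hρ' : 2 + (2 / (u i + u j) - 2) ≤ n := by
    rw [add_sub_cancel, div_le_iff₀ hU]; rw [div_le_iff₀ hn0] at h3; linarith
  have m2 := ((maj_phiA (ψ := fun y => min (0.16899 * y) 2.25) (by fun_prop)
    (fun a b h => min_le_min_right _ (by linarith)) hρ).mono (K5_bound hρ)).scale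
    (c := √(2 / (u i + u j))) (by positivity)
  have m3 := maj_b_term (m := 5) (by norm_num) hn hs h1 h2 hV
  have m4 := ((((maj_a (E := fun _ => 1) continuous_const (fun _ => zero_le_one)
    (fun _ _ _ _ => le_rfl)).mono sum_gw).smul (c := 0.104 ^ (n - 2)) (by positivity)).add
    (maj_b.smul (c := 0.0146 ^ (n - 1)) (by positivity))).scale (c := √n) (by positivity)
  have h5 := ineq_a5 hn' hρ hρ' hV (le_trans (le_of_eq (by
    have : (n : ℝ) - 2 ≠ 0 := by linarith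
    rw [add_sub_cancel]; field_simp)) hd)
  have h6 := K5_le hρ
  rw [add_sub_cancel] at h5 h6
  have h7 := rho_bound hn
  have hk : (0 : ℝ) ≤ 0.0011 / 3 / n := by positivity
  have hI := integrable_diff (n := n) (by omega) hu hs
  set V := ∑ j, (u j - 1 / n) ^ 2 with hVdef
  set R := √n * (0.104 ^ (n - 2) * 0.0163117 + 0.0146 ^ (n - 1) * 0.03033)
  have hR0 : 0 ≤ R := by positivity
  have hV0 : 0 ≤ V := by positivity
  have hnn : 20 ≤ (n : ℝ) * (n - 1) := by nlinarith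
  rcases le_total V (3 / 10) with h | h
  · have m1 := maj_GI (m := 5) (by norm_num) le_rfl (by norm_num) d4 (c := V / (3 / 10))
      (by positivity)
    refine ((((m1.add m4).add m2).add m3).bound hI fun t ht => ?_).trans ?_
    · have := far_point (m := 5) (k := 0) (x := 3 / 10) (T := 6.5) (by norm_num) hn le_rfl hk
        (by norm_num) hu hs (by norm_num) h hij hi hj hi0 ht
      have e : GI 5 ((0 : ℚ) : ℝ) ((3 / 10 : ℚ) : ℝ) (((260 : ℕ) : ℝ) / 40) t =
          GI 5 0 (3 / 10) 6.5 t := by norm_num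
      have e' := neg_part_le (n := n) (by omega) ht
      rw [← hVdef] at this
      rw [e]
      unfold phiA at e'
      linarith
    · rw [div_le_iff₀ (by linarith)] at hV
      have : R ≤ 0.02055 * V := le_of_mul_le_mul_right (a := (n : ℝ) * (n - 1))
        (by linarith) (by linarith)
      push_cast
      linarith
  · have m1 := maj_GI (m := 5) (by norm_num) le_rfl (by norm_num) d5 (c := V / 1)
      (by positivity)
    refine ((((m1.add m4).add m2).add m3).bound hI fun t ht => ?_).trans ?_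
    · have := far_point (m := 5) (k := 0) (x := 1) (T := 6.5) (by norm_num) hn le_rfl hk
        (by norm_num) hu hs (by norm_num) hVx hij hi hj hi0 ht
      have e : GI 5 ((0 : ℚ) : ℝ) ((1 : ℚ) : ℝ) (((260 : ℕ) : ℝ) / 40) t =
          GI 5 0 1 6.5 t := by norm_num
      have e' := neg_part_le (n := n) (by omega) ht
      rw [← hVdef] at this
      rw [e]
      unfold phiA at e'
      linarith
    · have : R ≤ 0.0000411 := by nlinarith
      push_cast
      linarith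

theorem near_var {n : ℕ} (hn : 0 < n) {u : Fin n → ℝ} (hN : ∀ j, |u j - 1 / n| ≤ 0.2 / n) :
    ∑ j, (u j - 1 / n) ^ 2 ≤ 3 / 10 := by
  have hn' : (1 : ℝ) ≤ n := by exact_mod_cast hn
  have : ∑ j, (u j - 1 / n) ^ 2 ≤ ∑ _j : Fin n, (0.2 / (n : ℝ)) ^ 2 :=
    Finset.sum_le_sum fun j _ => by rw [← sq_abs]; exact pow_le_pow_left₀ (abs_nonneg _) (hN j) 2
  refine this.trans ?_
  simp only [Finset.sum_const, Finset.card_univ, Fintype.card_fin, nsmul_eq_mul]
  rw [div_pow, ← mul_div_assoc, div_le_iff₀ (by positivity)]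
  nlinarith

theorem GI_zero {m n : ℕ} (hm : 0 < m) (hmn : m ≤ n) (k x : ℝ) {T t : ℝ}
    (hT : T ^ 2 < 11.9025 * m) (h : 3.45 ≤ t / √n) : GI m k x T t = 0 := by
  have hn : 0 < n := hm.trans_le hmn
  have hn' : (0 : ℝ) < n := by exact_mod_cast hn
  have hmn' : (m : ℝ) ≤ n := by exact_mod_cast hmn
  have h1 := pow_le_pow_left₀ (by norm_num) h 2
  rw [tau_sq hn, le_div_iff₀ hn'] at h1
  refine indicator_of_notMem (fun ht => ?_) _
  nlinarith [pow_le_pow_left₀ ht.1 ht.2 2]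

theorem Maj.scale' {φ : ℝ → ℝ} {w V : ℝ} (h : Maj φ w) (hV : 0 ≤ V) {n : ℕ} (hn : 0 < n) :
    Maj (fun t => V / √n * φ (t / √n)) (V * w) := by
  have hq : 0 < √(n : ℝ) := Real.sqrt_pos.2 (by exact_mod_cast hn)
  refine ((h.scale hq).smul (c := V / √n) (by positivity)).mono (le_of_eq ?_)
  field_simp

theorem near4 {u : Fin 4 → ℝ} (hs : ∑ j, u j = 1)
    (hN : ∀ j, |u j - 1 / (4 : ℕ)| ≤ 0.2 / (4 : ℕ)) :
    ∫ t in Ioi (0 : ℝ), (∏ j, gg 0 (u j * t ^ 2) - gg 0 (t ^ 2 / (4 : ℕ)) ^ 4) ≤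
      -0.001 * ∑ j, (u j - 1 / (4 : ℕ)) ^ 2 := by
  have hu := near_nonneg hN
  have hVx := near_var (by norm_num) hN
  have hr : √((4 : ℕ) : ℝ) ≤ 2 := by rw [Real.sqrt_le_left (by norm_num)]; norm_num
  have hI := integrable_diff (n := 4) (by norm_num) hu hs
  set V := ∑ j, (u j - 1 / ((4 : ℕ) : ℝ)) ^ 2 with hVdef
  have hV0 : 0 ≤ V := by positivity
  have m1 := maj_GI (m := 4) (by norm_num) (by norm_num) (by norm_num) d3
    (c := V / (3 / 4)) (by positivity)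
  have m2 := (maj_box (a := 3.14) (b := 3.45) (2 * ((4 : ℕ) : ℝ) ^ 2 * 3.45 ^ 4 *
    (0.0289 ^ 2 * 0.169 ^ (4 - 2) / 2)) (by norm_num) (by norm_num)).scale' hV0 (n := 4)
    (by norm_num)
  have m3 := (maj_box (a := 3.45) (b := 3.88) (2 * 3600 * (0.0443 ^ 2 * 0.0955 ^ 2 / 2))
    (by norm_num) (by norm_num)).scale' hV0 (n := 4) (by norm_num)
  have m4 := (maj_tailF 2 4).scale' hV0 (n := 4) (by norm_num)
  refine ((((m1.add m2).add m3).add m4).bound hI fun t ht => ?_).trans ?_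
  · have e : GI 4 ((11 / 120000 : ℚ) : ℝ) ((3 / 4 : ℚ) : ℝ) (((240 : ℕ) : ℝ) / 40) t =
        GI 4 (11 / 120000) (3 / 4) 6 t := by norm_num
    have hc : 0 ≤ V / √((4 : ℕ) : ℝ) := by positivity
    have p2 := mul_nonneg hc (box_nonneg 3.14 3.45 (c := 2 * ((4 : ℕ) : ℝ) ^ 2 * 3.45 ^ 4 *
      (0.0289 ^ 2 * 0.169 ^ (4 - 2) / 2)) (by positivity) (t / √((4 : ℕ) : ℝ)))
    have p3 := mul_nonneg hc (box_nonneg 3.45 3.88
      (c := 2 * 3600 * (0.0443 ^ 2 * 0.0955 ^ 2 / 2)) (by positivity) (t / √((4 : ℕ) : ℝ)))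
    have p4 := mul_nonneg hc (tailF_nonneg (r := 2) 4 (by norm_num) (t / √((4 : ℕ) : ℝ)))
    rw [e]
    rcases le_total (t / √((4 : ℕ) : ℝ)) 3.45 with h1 | h1
    · have := near_head (m := 4) (k := 11 / 120000) (x := 3 / 4) (T := 6) le_rfl le_rfl hr
        (by norm_num) (by norm_num) (by norm_num) hs hN (by norm_num) (hVx.trans (by norm_num)) ht h1
      rw [← hVdef] at this; linarith
    rw [GI_zero (by norm_num) le_rfl _ _ (by norm_num) h1]
    rcases le_total (t / √((4 : ℕ) : ℝ)) 6.1 with h2 | h2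
    · have := near_mid4 hs hN h1 h2
      rw [← hVdef] at this; linarith
    · have := near_tail (m := 4) le_rfl le_rfl hr hs hN h2
      rw [← hVdef] at this; linarith
  · simp only [hz]
    norm_num
    linarith

theorem near5 {n : ℕ} (hn : 5 ≤ n) {u : Fin n → ℝ} (hs : ∑ j, u j = 1)
    (hN : ∀ j, |u j - 1 / n| ≤ 0.2 / n) :
    ∫ t in Ioi (0 : ℝ), (∏ j, gg 0 (u j * t ^ 2) - gg 0 (t ^ 2 / n) ^ n) ≤
      -0.001 * ∑ j, (u j - 1 / n) ^ 2 := by
  have hu := near_nonneg hN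
  have hn0 : 0 < n := by omega
  have hVx := near_var hn0 hN
  have hr := sqrt_five
  have hI := integrable_diff (n := n) (by omega) hu hs
  set V := ∑ j, (u j - 1 / (n : ℝ)) ^ 2 with hVdef
  have hV0 : 0 ≤ V := by positivity
  have m1 := maj_GI (m := 5) (by norm_num) le_rfl (by norm_num) d4 (c := V / (3 / 10))
    (by positivity)
  have m2 := (maj_box (a := 3.14) (b := 3.45) (2.2361 * ((5 : ℕ) : ℝ) ^ 2 * 3.45 ^ 4 *
    (0.0289 ^ 2 * 0.169 ^ (5 - 2) / 2)) (by norm_num) (by norm_num)).scale' hV0 hn0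
  have m3 := (maj_box (a := 3.45) (b := 3.8) (hz 2.2361 5 3.8 0.0923 0.0443 0.0074)
    (by norm_num) (by norm_num)).scale' hV0 hn0
  have m4 := (maj_box (a := 3.8) (b := 4.25) (hz 2.2361 5 4.25 0.104 0.0312 0.0058)
    (by norm_num) (by norm_num)).scale' hV0 hn0
  have m5 := (maj_box (a := 4.25) (b := 5) (hz 2.2361 5 5 0.104 0.0188 0.00421)
    (by norm_num) (by norm_num)).scale' hV0 hn0
  have m6 := (maj_box (a := 5) (b := 6.1) (hz 2.2361 5 6.1 0.104 0.00562 0.00175)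
    (by norm_num) (by norm_num)).scale' hV0 hn0
  have m7 := (maj_tailF 2.2361 5).scale' hV0 hn0
  refine (((((((m1.add m2).add m3).add m4).add m5).add m6).add m7).bound hI fun t ht => ?_).trans ?_
  · have e : GI 5 ((0 : ℚ) : ℝ) ((3 / 10 : ℚ) : ℝ) (((260 : ℕ) : ℝ) / 40) t =
        GI 5 0 (3 / 10) 6.5 t := by norm_num
    have hc : 0 ≤ V / √(n : ℝ) := by positivity
    have p2 := mul_nonneg hc (box_nonneg 3.14 3.45 (c := 2.2361 * ((5 : ℕ) : ℝ) ^ 2 * 3.45 ^ 4 *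
      (0.0289 ^ 2 * 0.169 ^ (5 - 2) / 2)) (by positivity) (t / √(n : ℝ)))
    have p3 := mul_nonneg hc (box_nonneg 3.45 3.8 (hz_nonneg (r := 2.2361) (b := 3.8) (B := 0.0923)
      (k1 := 0.0443) (k2 := 0.0074) 5 (by norm_num) (by norm_num) (by norm_num)) (t / √(n : ℝ)))
    have p4 := mul_nonneg hc (box_nonneg 3.8 4.25 (hz_nonneg (r := 2.2361) (b := 4.25) (B := 0.104)
      (k1 := 0.0312) (k2 := 0.0058) 5 (by norm_num) (by norm_num) (by norm_num)) (t / √(n : ℝ)))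
    have p5 := mul_nonneg hc (box_nonneg 4.25 5 (hz_nonneg (r := 2.2361) (b := 5) (B := 0.104)
      (k1 := 0.0188) (k2 := 0.00421) 5 (by norm_num) (by norm_num) (by norm_num)) (t / √(n : ℝ)))
    have p6 := mul_nonneg hc (box_nonneg 5 6.1 (hz_nonneg (r := 2.2361) (b := 6.1) (B := 0.104)
      (k1 := 0.00562) (k2 := 0.00175) 5 (by norm_num) (by norm_num) (by norm_num)) (t / √(n : ℝ)))
    have p7 := mul_nonneg hc (tailF_nonneg (r := 2.2361) 5 (by norm_num) (t / √(n : ℝ)))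
    rw [e]
    rcases le_total (t / √(n : ℝ)) 3.45 with h1 | h1
    · have := near_head (m := 5) (k := 0) (x := 3 / 10) (T := 6.5) (by norm_num) hn hr
        le_rfl (by positivity) (by norm_num) hs hN (by norm_num) hVx ht h1
      rw [← hVdef] at this; linarith
    rw [GI_zero (by norm_num) hn _ _ (by norm_num) h1]
    rcases le_total (t / √(n : ℝ)) 3.8 with h2 | h2
    · have := hess' (m := 5) (by norm_num) hn hr hs hN z1 (by norm_num) (by norm_num) (by norm_num)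
        (by norm_num) (by norm_num) (by norm_num) (by norm_num) h1 h2
      rw [← hVdef] at this; rw [box_eq _ h1 h2]; linarith
    rcases le_total (t / √(n : ℝ)) 4.25 with h3 | h3
    · have := hess' (m := 5) (by norm_num) hn hr hs hN z2 (by norm_num) (by norm_num) (by norm_num)
        (by norm_num) (by norm_num) (by norm_num) (by norm_num) h2 h3
      rw [← hVdef] at this; rw [box_eq _ h2 h3]; linarith
    rcases le_total (t / √(n : ℝ)) 5 with h4 | h4
    · have := hess' (m := 5) (by norm_num) hn hr hs hN z3 (by norm_num) (by norm_num) (by norm_num)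
        (by norm_num) (by norm_num) (by norm_num) (by norm_num) h3 h4
      rw [← hVdef] at this; rw [box_eq _ h3 h4]; linarith
    rcases le_total (t / √(n : ℝ)) 6.1 with h5 | h5
    · have := hess' (m := 5) (by norm_num) hn hr hs hN z4 (by norm_num) (by norm_num) (by norm_num)
        (by norm_num) (by norm_num) (by norm_num) (by norm_num) h4 h5
      rw [← hVdef] at this; rw [box_eq _ h4 h5]; linarith
    · have := near_tail (m := 5) (by norm_num) hn hr hs hN h5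
      rw [← hVdef] at this; linarith
  · simp only [hz]
    norm_num
    linarith

/-- The comparison in dimension at least four. -/
theorem compare {n : ℕ} (hn : 4 ≤ n) {u : Fin n → ℝ} (hu : ∀ j, 0 ≤ u j) (hs : ∑ j, u j = 1)
    (hne : ∃ j, u j ≠ 1 / n) :
    ∫ t in Ioi (0 : ℝ), ∏ j, gg 0 (u j * t ^ 2) < ∫ t in Ioi (0 : ℝ), gg 0 (t ^ 2 / n) ^ n := by
  have hV : 0 < ∑ j, (u j - 1 / n) ^ 2 := by
    obtain ⟨j, hj⟩ := hne
    exact Finset.sum_pos' (fun _ _ => sq_nonneg _)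
      ⟨j, Finset.mem_univ _, pow_pos (abs_pos.2 (sub_ne_zero.2 hj)) 2 |>.trans_eq (sq_abs _)⟩
  have key : ∫ t in Ioi (0 : ℝ), (∏ j, gg 0 (u j * t ^ 2) - gg 0 (t ^ 2 / n) ^ n) ≤
      -0.001 * ∑ j, (u j - 1 / n) ^ 2 := by
    by_cases hN : ∀ j, |u j - 1 / n| ≤ 0.2 / n
    · rcases hn.eq_or_lt with rfl | h
      · exact near4 hs hN
      · exact near5 h hs hN
    · push Not at hN
      obtain ⟨i, hi⟩ := hN
      have := dev_far (by omega) hs hi
      rcases hn.eq_or_lt with rfl | h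
      · exact far4 hu hs this
      · exact far5 h hu hs this
  rw [integral_sub (integrable_prod (by omega) hu hs) (integrable_diag (by omega))] at key
  linarith

end Pool.Agent.MP_39fec4_gt.P4
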