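import Pool.Agent.MP_39fec4_gt.P4FactA
import Pool.Agent.MP_39fec4_gt.Tails

set_option autoImplicit false

namespace Pool.Agent.MP_39fec4_gt.P4

open MeasureTheory Set Filter Topology

theorem g_zero : gg 0 0 = 1 := by simp [gg_zero, MM_zero]

theorem hasDerivAt_E (c : ℝ) (j : ℕ) {x : ℝ} (hx : 0 < x) :
    HasDerivAt (fun x => Real.exp (c * x) * gg j x)
      (Real.exp (c * x) * gg (j + 1) x + c * (Real.exp (c * x) * gg j x)) x := by
  have := (((hasDerivAt_id' x).const_mul c).exp).mul (hasDerivAt_gg j hx)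
  refine this.congr_deriv ?_
  ring

noncomputable def QQ (c x : ℝ) : ℝ := Real.exp (c * x) * gg 0 x
noncomputable def Q1 (c x : ℝ) : ℝ := Real.exp (c * x) * gg 1 x + c * (Real.exp (c * x) * gg 0 x)

theorem cont_QQ (c : ℝ) : Continuous (QQ c) := by have := cont_gg 0; unfold QQ; fun_prop
theorem cont_Q1 (c : ℝ) : Continuous (Q1 c) := by
  have := cont_gg 0; have := cont_gg 1; unfold Q1; fun_prop

theorem hasDerivAt_QQ (c : ℝ) {x : ℝ} (hx : 0 < x) : HasDerivAt (QQ c) (Q1 c x) x :=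
  hasDerivAt_E c 0 hx

theorem hasDerivAt_Q1 (c : ℝ) {x : ℝ} (hx : 0 < x) : HasDerivAt (Q1 c)
    (Real.exp (c * x) * (gg 2 x + 2 * c * gg 1 x + c ^ 2 * gg 0 x)) x := by
  have := (hasDerivAt_E c 1 hx).add ((hasDerivAt_E c 0 hx).const_mul c)
  refine this.congr_deriv ?_
  ring

theorem Q2_le {x : ℝ} (h0 : 0 ≤ x) (h1 : x ≤ 12) :
    Real.exp (0.16899 * x) * (gg 2 x + 2 * 0.16899 * gg 1 x + 0.16899 ^ 2 * gg 0 x) ≤
      -(0.0076 + 0.0011 * x) := by
  have h := mul_le_mul_of_nonneg_left (fact_conc h0 h1) (Real.exp_pos (0.16899 * x)).le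
  have e : Real.exp (0.16899 * x) * Real.exp (-(0.16899 * x)) = 1 := by
    rw [← Real.exp_add]; simp
  calc _ ≤ _ := h
    _ = -((0.0076 + 0.0011 * x) * (Real.exp (0.16899 * x) * Real.exp (-(0.16899 * x)))) := by ring
    _ = _ := by rw [e, mul_one]

theorem concave_phi : ConcaveOn ℝ (Icc 0 12)
    fun x => QQ 0.16899 x + (0.0038 * x ^ 2 + 0.0011 / 6 * x ^ 3) := by
  have hc := cont_QQ 0.16899
  refine concaveOn_of_hasDerivWithinAt2_nonpos (convex_Icc _ _)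
    (f' := fun x => Q1 0.16899 x + (0.0076 * x + 0.0011 / 2 * x ^ 2))
    (f'' := fun x => Real.exp (0.16899 * x) *
      (gg 2 x + 2 * 0.16899 * gg 1 x + 0.16899 ^ 2 * gg 0 x) + (0.0076 + 0.0011 * x))
    (Continuous.continuousOn (by fun_prop)) (fun x hx => ?_) (fun x hx => ?_) (fun x hx => ?_)
  · rw [interior_Icc] at hx ⊢
    refine ((hasDerivAt_QQ _ hx.1).add ?_).hasDerivWithinAt
    have := (((hasDerivAt_id' x).pow 2).const_mul 0.0038).add
      (((hasDerivAt_id' x).pow 3).const_mul (0.0011 / 6))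
    refine this.congr_deriv ?_
    norm_num; ring
  · rw [interior_Icc] at hx ⊢
    refine ((hasDerivAt_Q1 _ hx.1).add ?_).hasDerivWithinAt
    have := ((hasDerivAt_id' x).const_mul 0.0076).add
      (((hasDerivAt_id' x).pow 2).const_mul (0.0011 / 2))
    refine this.congr_deriv ?_
    norm_num; ring
  · rw [interior_Icc] at hx
    linarith [Q2_le hx.1.le hx.2.le]

theorem Q1_nonpos {x : ℝ} (h0 : 0 ≤ x) (h1 : x ≤ 12) : Q1 0.16899 x ≤ 0 := by
  have h := antitoneOn_of_hasDerivWithinAt_nonpos (convex_Icc (0 : ℝ) 12) (f := Q1 0.16899)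
    (cont_Q1 _).continuousOn
    (fun x hx => by rw [interior_Icc] at hx ⊢; exact (hasDerivAt_Q1 _ hx.1).hasDerivWithinAt)
    (fun x hx => by rw [interior_Icc] at hx; linarith [Q2_le hx.1.le hx.2.le, hx.1])
    (left_mem_Icc.2 (by norm_num)) ⟨h0, h1⟩ h0
  have h2 : Q1 0.16899 0 ≤ 0 := by
    have := sig_ge
    simp only [Q1, mul_zero, Real.exp_zero, one_mul, g_zero, gg_zero 1, sig] at this ⊢
    linarith
  exact h.trans h2

theorem QQ_anti : AntitoneOn (QQ 0.16899) (Icc 0 12) :=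
  antitoneOn_of_hasDerivWithinAt_nonpos (convex_Icc (0 : ℝ) 12) (cont_QQ _).continuousOn
    (fun x hx => by rw [interior_Icc] at hx ⊢; exact (hasDerivAt_QQ _ hx.1).hasDerivWithinAt)
    (fun x hx => by rw [interior_Icc] at hx; exact Q1_nonpos hx.1.le hx.2.le)

theorem QQ_le_one {x : ℝ} (h0 : 0 ≤ x) (h1 : x ≤ 12) : QQ 0.16899 x ≤ 1 := by
  have := QQ_anti (left_mem_Icc.2 (by norm_num)) ⟨h0, h1⟩ h0
  simpa [QQ, g_zero] using this

theorem g_eq (c x : ℝ) : gg 0 x = Real.exp (-(c * x)) * QQ c x := by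
  rw [QQ, ← mul_assoc, ← Real.exp_add]; simp

theorem g_le_exp {x : ℝ} (h0 : 0 ≤ x) (h1 : x ≤ 12) : gg 0 x ≤ Real.exp (-(0.16899 * x)) := by
  rw [g_eq 0.16899]
  exact mul_le_of_le_one_right (Real.exp_pos _).le (QQ_le_one h0 h1)

theorem g_pos {x : ℝ} (h0 : 0 ≤ x) (h1 : x ≤ 11.9025) : 0 < gg 0 x := by
  have h := QQ_anti ⟨h0, by linarith⟩ (show (11.9025 : ℝ) ∈ Icc 0 12 by norm_num) h1
  rw [g_eq 0.16899]
  exact mul_pos (Real.exp_pos _) ((mul_pos (Real.exp_pos _) fact_sA).trans_le h)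

theorem concave_P : ConcaveOn ℝ (Icc 11.5 45) fun x => -QQ 0.08 x := by
  have hc := cont_QQ 0.08
  refine concaveOn_of_hasDerivWithinAt2_nonpos (convex_Icc _ _) (f' := fun x => -Q1 0.08 x)
    (f'' := fun x => -(Real.exp (0.08 * x) *
      (gg 2 x + 2 * 0.08 * gg 1 x + 0.08 ^ 2 * gg 0 x)))
    (Continuous.continuousOn (by fun_prop)) (fun x hx => ?_) (fun x hx => ?_) (fun x hx => ?_)
  · rw [interior_Icc] at hx ⊢
    exact (hasDerivAt_QQ _ (by linarith [hx.1])).neg.hasDerivWithinAt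
  · rw [interior_Icc] at hx ⊢
    exact (hasDerivAt_Q1 _ (by linarith [hx.1])).neg.hasDerivWithinAt
  · rw [interior_Icc] at hx
    exact neg_nonpos.2 (mul_nonneg (Real.exp_pos _).le (fact_lobe hx.1.le hx.2.le))

theorem g_neg {x : ℝ} (h0 : 12 ≤ x) (h1 : x ≤ 44.89) : gg 0 x < 0 := by
  have h := concave_P.min_le_of_mem_Icc (x := 12) (y := 44.89) (z := x) (by norm_num)
    (by norm_num) ⟨h0, h1⟩
  have h2 : 0 < -QQ 0.08 12 := neg_pos.2 (mul_neg_of_pos_of_neg (Real.exp_pos _) fact_12)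
  have h3 : 0 < -QQ 0.08 44.89 := neg_pos.2 (mul_neg_of_pos_of_neg (Real.exp_pos _) fact_s2)
  rw [g_eq 0.08]
  exact mul_neg_of_pos_of_neg (Real.exp_pos _) (neg_pos.1 ((lt_min h2 h3).trans_le h))

theorem g_neg_mono {x y : ℝ} (h0 : 0 ≤ x) (hxy : x ≤ y) (h1 : y ≤ 44.89) (h : gg 0 x < 0) :
    gg 0 y < 0 := by
  rcases le_total y 12 with h2 | h2
  · have h3 := QQ_anti ⟨h0, by linarith⟩ ⟨by linarith, h2⟩ hxy
    rw [g_eq 0.16899]
    exact mul_neg_of_pos_of_neg (Real.exp_pos _)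
      (h3.trans_lt (mul_neg_of_pos_of_neg (Real.exp_pos _) h))
  · exact g_neg h2 h1

theorem lt_of_g_neg {x : ℝ} (h0 : 0 ≤ x) (h : gg 0 x < 0) : 11.9025 < x := by
  by_contra h1
  linarith [g_pos h0 (not_lt.1 h1)]

theorem le_of_g_nonneg {x : ℝ} (h1 : x ≤ 44.89) (h : 0 ≤ gg 0 x) : x ≤ 12 := by
  by_contra h2
  linarith [g_neg (not_le.1 h2).le h1]

theorem e1 : (13 / 125 : ℚ) ≤ eL (9 / 4) ∧ (73 / 5000 : ℚ) ≤ eL (76313 / 20000) := by
  decide +kernel

theorem env1 {x : ℝ} (h0 : 0 ≤ x) : |gg 0 x| ≤ Real.exp (-min (0.16899 * x) 2.25) := by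
  rcases le_total x 11.9025 with h | h
  · rw [abs_of_pos (g_pos h0 h)]
    exact (g_le_exp h0 (by linarith)).trans (Real.exp_le_exp.2 (neg_le_neg (min_le_left _ _)))
  · have h1 := eL_sound (y := 9 / 4) (x := 2.25) (by norm_num) (by norm_num)
    have h2 := (Rat.cast_le (K := ℝ)).2 e1.1
    refine (fact_m0 (by linarith)).trans (le_trans (by norm_num) (h2.trans (h1.trans ?_)))
    exact Real.exp_le_exp.2 (neg_le_neg (min_le_right _ _))

theorem env2 {x : ℝ} (h0 : 0 ≤ x) : |gg 0 x| ≤ Real.exp (-(0.085 * min x 44.89)) := by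
  rcases le_total x 11.9025 with h | h
  · rw [abs_of_pos (g_pos h0 h), min_eq_left (by linarith)]
    exact (g_le_exp h0 (by linarith)).trans (Real.exp_le_exp.2 (by linarith))
  rcases le_total x 44.89 with h' | h'
  · rw [min_eq_left h']
    exact (fact_env (by linarith) (by linarith)).2
  · rw [min_eq_right h']
    have h1 := eL_sound (y := 76313 / 20000) (x := 0.085 * 44.89) (by norm_num) (by norm_num)
    have h2 := (Rat.cast_le (K := ℝ)).2 e1.2
    exact (fact_44 (by linarith)).trans (le_trans (by norm_num) (h2.trans h1))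

theorem prod_QQ {n : ℕ} (c : ℝ) (x : Fin n → ℝ) :
    ∏ j, gg 0 (x j) = Real.exp (-(c * ∑ j, x j)) * ∏ j, QQ c (x j) := by
  simp_rw [g_eq c]
  rw [Finset.prod_mul_distrib, ← Real.exp_sum, Finset.mul_sum, Finset.sum_neg_distrib]

theorem pow_QQ {n : ℕ} (hn : 0 < n) (c s : ℝ) :
    gg 0 (s / n) ^ n = Real.exp (-(c * s)) * QQ c (s / n) ^ n := by
  have hn' : (n : ℝ) ≠ 0 := by positivity
  rw [g_eq c, mul_pow, ← Real.exp_nat_mul]
  congr 2; field_simp

/-- The main region. -/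
theorem main_region {n : ℕ} (hn : 0 < n) {u : Fin n → ℝ} (hu : ∀ j, 0 ≤ u j) (hs : ∑ j, u j = 1)
    {s : ℝ} (hs0 : 0 ≤ s) (h12 : ∀ j, u j * s ≤ 12) (hg : ∀ j, 0 ≤ gg 0 (u j * s)) :
    0 ≤ gg 0 (s / n) ∧ ∏ j, gg 0 (u j * s) ≤ gg 0 (s / n) ^ n *
      Real.exp (-((0.0038 + 0.0011 / 3 * (s / n)) * s ^ 2 * ∑ j, (u j - 1 / n) ^ 2)) := by
  have hn' : (0 : ℝ) < n := by exact_mod_cast hn
  have hsum : ∑ j, u j * s = s := by rw [← Finset.sum_mul, hs, one_mul]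
  have hJ := jensen_mean hn concave_phi (fun j => u j * s)
    fun j => ⟨mul_nonneg (hu j) hs0, h12 j⟩
  simp only [hsum] at hJ
  set x := s / n with hx
  have hx0 : 0 ≤ x := by positivity
  have hx12 : x ≤ 12 := by
    rw [hx, div_le_iff₀ hn', ← hsum]
    calc ∑ j, u j * s ≤ ∑ _j : Fin n, (12 : ℝ) := Finset.sum_le_sum fun j _ => h12 j
      _ = _ := by simp [mul_comm]
  set V := ∑ j, (u j - 1 / n) ^ 2 with hV
  have hV0 : 0 ≤ V := by positivity
  have key : ∑ j, (QQ 0.16899 (u j * s) + (0.0038 * x ^ 2 + 0.0011 / 6 * x ^ 3) +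
      (0.0076 * x + 0.0011 / 2 * x ^ 2) * (u j * s - x) +
      (0.0038 + 0.0011 / 3 * x) * s ^ 2 * (u j - 1 / n) ^ 2) ≤
      ∑ j, (QQ 0.16899 (u j * s) + (0.0038 * (u j * s) ^ 2 + 0.0011 / 6 * (u j * s) ^ 3)) := by
    refine Finset.sum_le_sum fun j _ => ?_
    have e : s ^ 2 * (u j - 1 / n) ^ 2 = (u j * s - x) ^ 2 := by rw [hx]; ring
    rw [mul_assoc _ (s ^ 2), e]
    nlinarith [mul_nonneg (mul_nonneg (hu j) hs0) (sq_nonneg (u j * s - x))]
  simp only [Finset.sum_add_distrib, ← Finset.mul_sum, Finset.sum_sub_distrib, hsum,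
    Finset.sum_const, Finset.card_univ, Fintype.card_fin, nsmul_eq_mul, ← hV] at key hJ
  have hnx : (n : ℝ) * x = s := by rw [hx]; field_simp
  set b := (0.0038 + 0.0011 / 3 * x) * s ^ 2 * V with hb
  have hb0 : 0 ≤ b := by positivity
  have hQ0 : ∀ j, 0 ≤ QQ 0.16899 (u j * s) := fun j => mul_nonneg (Real.exp_pos _).le (hg j)
  have hm : (∑ j, QQ 0.16899 (u j * s)) / n ≤ QQ 0.16899 x - b / n := by
    rw [div_le_iff₀ hn'] at hJ ⊢
    rw [sub_mul, div_mul_cancel₀ _ hn'.ne']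
    rw [hnx, sub_self, mul_zero] at key
    linarith
  have hm0 : 0 ≤ (∑ j, QQ 0.16899 (u j * s)) / n :=
    div_nonneg (Finset.sum_nonneg fun j _ => hQ0 j) hn'.le
  have hbn : 0 ≤ b / n := by positivity
  have ha0 : 0 ≤ QQ 0.16899 x := by linarith
  have ha1 := QQ_le_one hx0 hx12
  have h3 : QQ 0.16899 x - b / n ≤ QQ 0.16899 x * Real.exp (-(b / n)) := by
    have := Real.add_one_le_exp (-(b / n))
    nlinarith [mul_le_mul_of_nonneg_left this ha0]
  refine ⟨by rw [g_eq 0.16899]; positivity, ?_⟩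
  rw [prod_QQ 0.16899, hsum, hx, pow_QQ hn 0.16899, mul_assoc]
  refine mul_le_mul_of_nonneg_left ?_ (Real.exp_pos _).le
  refine (prod_le_mean_pow hn _ hQ0).trans ((pow_le_pow_left₀ hm0 (hm.trans h3) n).trans ?_)
  rw [mul_pow, ← Real.exp_nat_mul]
  refine le_of_eq ?_
  congr 2; field_simp

/-- All arguments in the negative lobe, dimension four. -/
theorem lobe_four {u : Fin 4 → ℝ} (hu : ∀ j, 0 ≤ u j) (hs : ∑ j, u j = 1)
    {s : ℝ} (hs0 : 0 ≤ s) (h45 : ∀ j, u j * s ≤ 44.89) (hg : ∀ j, gg 0 (u j * s) < 0) :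
    ∏ j, gg 0 (u j * s) ≤ gg 0 (s / (4 : ℕ)) ^ 4 := by
  have hsum : ∑ j, u j * s = s := by rw [← Finset.sum_mul, hs, one_mul]
  have hJ := jensen_mean (n := 4) (by norm_num) concave_P (fun j => u j * s)
    fun j => ⟨by linarith [lt_of_g_neg (mul_nonneg (hu j) hs0) (hg j)], by linarith [h45 j]⟩
  simp only [hsum] at hJ
  have hP0 : ∀ j, 0 ≤ -QQ 0.08 (u j * s) := fun j =>
    neg_nonneg.2 (mul_neg_of_pos_of_neg (Real.exp_pos _) (hg j)).le
  have h1 := (prod_le_mean_pow (n := 4) (by norm_num) _ hP0).trans (pow_le_pow_left₀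
    (div_nonneg (Finset.sum_nonneg fun j _ => hP0 j) (by norm_num)) hJ 4)
  rw [prod_QQ 0.08, hsum, pow_QQ (n := 4) (by norm_num) 0.08]
  refine mul_le_mul_of_nonneg_left ?_ (Real.exp_pos _).le
  rw [Fin.prod_univ_four] at h1 ⊢
  nlinarith [h1]

theorem lobe_two {x y : ℝ} (hx0 : 0 ≤ x) (hy0 : 0 ≤ y) (hx : x ≤ 44.89) (hy : y ≤ 44.89)
    (gx : gg 0 x < 0) (gy : gg 0 y < 0) : gg 0 x * gg 0 y ≤ gg 0 ((x + y) / 2) ^ 2 := by
  have hx' : x ∈ Icc (11.5 : ℝ) 45 := ⟨by linarith [lt_of_g_neg hx0 gx], by linarith⟩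
  have hy' : y ∈ Icc (11.5 : ℝ) 45 := ⟨by linarith [lt_of_g_neg hy0 gy], by linarith⟩
  have hJ := concave_P.2 hx' hy' (show (0 : ℝ) ≤ 1 / 2 by norm_num)
    (show (0 : ℝ) ≤ 1 / 2 by norm_num) (by norm_num)
  simp only [smul_eq_mul] at hJ
  rw [show 1 / 2 * x + 1 / 2 * y = (x + y) / 2 by ring] at hJ
  have h1 : 0 ≤ -QQ 0.08 x := neg_nonneg.2 (mul_neg_of_pos_of_neg (Real.exp_pos _) gx).le
  have h2 : 0 ≤ -QQ 0.08 y := neg_nonneg.2 (mul_neg_of_pos_of_neg (Real.exp_pos _) gy).le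
  have h3 : QQ 0.08 x * QQ 0.08 y ≤ QQ 0.08 ((x + y) / 2) ^ 2 := by
    nlinarith [sq_nonneg (QQ 0.08 x - QQ 0.08 y)]
  have e : Real.exp (-(0.08 * x)) * Real.exp (-(0.08 * y)) =
      Real.exp (-(0.08 * ((x + y) / 2))) ^ 2 := by
    rw [← Real.exp_add, ← Real.exp_nat_mul]; congr 1; push_cast; ring
  rw [g_eq 0.08 x, g_eq 0.08 y, g_eq 0.08 ((x + y) / 2), mul_pow, ← e, mul_mul_mul_comm]
  exact mul_le_mul_of_nonneg_left h3 (by positivity)

/-- Comparison of the diagonal integrand with a lower dimension. -/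
theorem diag_mono {n m : ℕ} (hm : 0 < m) (hmn : m ≤ n) {s : ℝ} (hs : 0 ≤ s)
    (h : s / m ≤ 11.9025) : gg 0 (s / m) ^ m ≤ gg 0 (s / n) ^ n := by
  have hn : 0 < n := hm.trans_le hmn
  have hm' : (0 : ℝ) < m := by exact_mod_cast hm
  have hn' : (0 : ℝ) < n := by exact_mod_cast hn
  have hmn' : (m : ℝ) ≤ n := by exact_mod_cast hmn
  classical
  let u : Fin n → ℝ := fun j => if j.val < m then 1 / m else 0
  have hu : ∀ j, 0 ≤ u j := fun j => by simp only [u]; split_ifs <;> positivity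
  have hcard : (Finset.univ.filter fun j : Fin n => j.val < m).card = m := by
    rw [Fin.card_filter_val_lt, min_eq_right hmn]
  have hs1 : ∑ j, u j = 1 := by
    simp only [u]
    rw [← Finset.sum_filter, Finset.sum_const, hcard, nsmul_eq_mul]
    field_simp
  have h0 : 0 ≤ s / m := by positivity
  have hx : ∀ j, 0 ≤ u j * s ∧ u j * s ≤ 11.9025 := fun j => by
    simp only [u]; split_ifs
    · rw [one_div_mul_eq_div]; exact ⟨h0, h⟩
    · norm_num
  obtain ⟨h1, h2⟩ := main_region hn hu hs1 hs (fun j => by linarith [(hx j).2])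
    fun j => (g_pos (hx j).1 (hx j).2).le
  have h3 : ∏ j, gg 0 (u j * s) = gg 0 (s / m) ^ m := by
    have : ∀ j, gg 0 (u j * s) = if j.val < m then gg 0 (s / m) else 1 := fun j => by
      simp only [u]; split_ifs
      · rw [one_div_mul_eq_div]
      · simp [g_zero]
    simp only [this]
    rw [← Finset.prod_filter, Finset.prod_const, hcard]
  rw [← h3]
  refine h2.trans (mul_le_of_le_one_right (pow_nonneg h1 _) (Real.exp_le_one_iff.2 ?_))
  have : 0 ≤ (0.0038 + 0.0011 / 3 * (s / n)) * s ^ 2 * ∑ j, (u j - 1 / n) ^ 2 := by positivity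
  linarith

end Pool.Agent.MP_39fec4_gt.P4
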