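import Pool.Agent.MP_39fec4_gt.P4Chk

set_option autoImplicit false

namespace Pool.Agent.MP_39fec4_gt.P4

open MeasureTheory Set Filter Topology

theorem c1 : concOK 0 80 80 = true := by decide +kernel
theorem c2 : concOK 32 32 32 = true := by decide +kernel
theorem c3 : concOK 40 20 40 = true := by decide +kernel
theorem c4 : concOK 32 8 64 = true := by decide +kernel

theorem fact_conc {s : ℝ} (h1 : 0 ≤ s) (h2 : s ≤ 12) :
    gg 2 s + 2 * 0.16899 * gg 1 s + 0.16899 ^ 2 * gg 0 s ≤
      -((0.0076 + 0.0011 * s) * Real.exp (-(0.16899 * s))) := by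
  rcases le_total s 1 with h3 | h3
  · exact conc_sound c1 (by norm_num) (by norm_num) (by simpa using h1) (by norm_num; linarith)
  rcases le_total s 2 with h4 | h4
  · exact conc_sound c2 (by norm_num) (by norm_num) (by norm_num; linarith) (by norm_num; linarith)
  rcases le_total s 4 with h5 | h5
  · exact conc_sound c3 (by norm_num) (by norm_num) (by norm_num; linarith) (by norm_num; linarith)
  · exact conc_sound c4 (by norm_num) (by norm_num) (by norm_num; linarith) (by norm_num; linarith)

theorem c5 : lobeOK 23 2 67 = true := by decide +kernel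

theorem fact_lobe {s : ℝ} (h1 : 11.5 ≤ s) (h2 : s ≤ 45) :
    0 ≤ gg 2 s + 2 * 0.08 * gg 1 s + 0.08 ^ 2 * gg 0 s :=
  lobe_sound c5 (by norm_num) (by norm_num) (by norm_num; linarith) (by norm_num; linarith)

theorem c6 : 0 < (encl 12 0 119025 10000 0).1 ∧ (encl 12 0 12 1 0).2 < 0 ∧
    (encl 12 0 4489 100 0).2 < 0 := by decide +kernel

theorem fact_sA : 0 < gg 0 11.9025 := by
  have h := (encl_sound 12 0 119025 0 (q := 10000) (by norm_num) (s := 11.9025) (by norm_num)
    (by norm_num)).1
  exact lt_of_lt_of_le (by exact_mod_cast c6.1) h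

theorem fact_12 : gg 0 12 < 0 := by
  have h := (encl_sound 12 0 12 0 (q := 1) (by norm_num) (s := 12) (by norm_num)
    (by norm_num)).2
  exact lt_of_le_of_lt h (by exact_mod_cast c6.2.1)

theorem fact_s2 : gg 0 44.89 < 0 := by
  have h := (encl_sound 12 0 4489 0 (q := 100) (by norm_num) (s := 44.89) (by norm_num)
    (by norm_num)).2
  exact lt_of_le_of_lt h (by exact_mod_cast c6.2.2)

theorem c7 : envOK 47 4 133 = true := by decide +kernel

theorem fact_env {s : ℝ} (h1 : 11.75 ≤ s) (h2 : s ≤ 45) :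
    |gg 0 s| ≤ 0.104 ∧ |gg 0 s| ≤ Real.exp (-(0.085 * s)) :=
  env_sound c7 (by norm_num) (by norm_num) (by norm_num; linarith) (by norm_num; linarith)

theorem c8 : supOK 16 0 44 1 1 67 (73 / 5000) = true := by decide +kernel
theorem c9 : supOK 18 0 111 1 1 85 (11 / 5000) = true := by decide +kernel
theorem c10 : eV (21 / 2) ≤ 141 / 5000000 := by decide +kernel

theorem exp_tail : Real.exp (-(10.5 : ℝ)) ≤ 0.0000282 :=
  (eV_sound (y := 21 / 2) (x := 10.5) (by norm_num) (by norm_num)).trans
    (((Rat.cast_le (K := ℝ)).2 c10).trans (by norm_num))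

theorem decay' {s : ℝ} (hs : 0 ≤ s) : |gg 0 s| ≤ 34 * Real.exp (-(3 / 4) * √s) := by
  have := decay (Real.sqrt_nonneg s)
  rwa [Real.sq_sqrt hs] at this

theorem fact_111 {s : ℝ} (h1 : 111 ≤ s) : |gg 0 s| ≤ 0.0022 := by
  rcases le_total s 196 with h2 | h2
  · exact (sup_sound c9 (by norm_num) (by norm_num) (by norm_num; linarith)
      (by norm_num; linarith)).trans (by norm_num)
  · have h3 : 14 ≤ √s := Real.le_sqrt_of_sq_le (by linarith)
    have h4 : Real.exp (-(3 / 4) * √s) ≤ Real.exp (-(10.5 : ℝ)) := Real.exp_le_exp.2 (by linarith)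
    linarith [decay' (s := s) (by linarith), exp_tail]

theorem fact_44 {s : ℝ} (h1 : 44 ≤ s) : |gg 0 s| ≤ 0.0146 := by
  rcases le_total s 111 with h2 | h2
  · exact (sup_sound c8 (by norm_num) (by norm_num) (by norm_num; linarith)
      (by norm_num; linarith)).trans (by norm_num)
  · linarith [fact_111 h2]

theorem fact_m0 {s : ℝ} (h1 : 11.75 ≤ s) : |gg 0 s| ≤ 0.104 := by
  rcases le_total s 45 with h2 | h2
  · exact (fact_env h1 h2).1
  · linarith [fact_44 (s := s) (by linarith)]

/-- Landau type bound for the first derivative far out. -/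
theorem fact_111' {s : ℝ} (h1 : 111 ≤ s) : |gg 1 s| ≤ 0.0136 := by
  have h := taylor 2 0 s (s + 0.65) (by linarith) (by linarith)
  have h2 := abs_le.1 (fact_111 h1)
  have h3 := abs_le.1 (fact_111 (s := s + 0.65) (by linarith))
  have h4 := MM_le 2
  simp only [Finset.sum_range_succ, Finset.sum_range_zero, Nat.factorial, add_sub_cancel_left,
    zero_add] at h
  norm_num [Wd] at h h4
  rw [abs_le] at h ⊢
  constructor <;> nlinarith [h.1, h.2]

theorem fact_g2 (s : ℝ) : |gg 2 s| ≤ 0.0209 := by
  have h4 := MM_le 2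
  norm_num [Wd] at h4
  linarith [abs_gg 2 s]

end Pool.Agent.MP_39fec4_gt.P4
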