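import Pool.Agent.MP_39fec4_gt.P4FactA

set_option autoImplicit false

namespace Pool.Agent.MP_39fec4_gt.P4

open MeasureTheory Set Filter Topology

/-- Integrable on the half line with a bound for the integral. -/
def Maj (φ : ℝ → ℝ) (w : ℝ) : Prop := IntegrableOn φ (Ioi 0) ∧ ∫ t in Ioi (0 : ℝ), φ t ≤ w

theorem Maj.add {φ ψ : ℝ → ℝ} {v w : ℝ} (h : Maj φ v) (h' : Maj ψ w) :
    Maj (fun t => φ t + ψ t) (v + w) :=
  ⟨h.1.add h'.1, by rw [integral_add h.1 h'.1]; exact add_le_add h.2 h'.2⟩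

theorem Maj.smul {φ : ℝ → ℝ} {w c : ℝ} (h : Maj φ w) (hc : 0 ≤ c) :
    Maj (fun t => c * φ t) (c * w) :=
  ⟨h.1.const_mul c, by rw [integral_const_mul]; exact mul_le_mul_of_nonneg_left h.2 hc⟩

theorem Maj.scale {φ : ℝ → ℝ} {w c : ℝ} (h : Maj φ w) (hc : 0 < c) :
    Maj (fun t => φ (t / c)) (c * w) := by
  have hc' : 0 < c⁻¹ := inv_pos.2 hc
  have h1 := (integrableOn_Ioi_comp_mul_left_iff φ 0 hc').2 (by simpa using h.1)
  have h2 := integral_comp_mul_left_Ioi φ 0 hc'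
  simp only [mul_zero, inv_inv, smul_eq_mul] at h2
  simp only [div_eq_inv_mul]
  exact ⟨h1, h2 ▸ mul_le_mul_of_nonneg_left h.2 hc.le⟩

theorem Maj.mono {φ : ℝ → ℝ} {v w : ℝ} (h : Maj φ v) (hw : v ≤ w) : Maj φ w :=
  ⟨h.1, h.2.trans hw⟩

theorem Maj.bound {φ f : ℝ → ℝ} {w : ℝ} (h : Maj φ w) (hf : IntegrableOn f (Ioi 0))
    (hle : ∀ t, 0 < t → f t ≤ φ t) : ∫ t in Ioi (0 : ℝ), f t ≤ w :=
  (setIntegral_mono_on hf h.1 measurableSet_Ioi hle).trans h.2

theorem maj_Icc {f : ℝ → ℝ} (hf : Continuous f) {a b w : ℝ} (ha : 0 ≤ a) (hab : a ≤ b)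
    (h : ∫ t in a..b, f t ≤ w) : Maj (indicator (Icc a b) f) w := by
  refine ⟨((integrable_indicator_iff measurableSet_Icc).2 hf.integrableOn_Icc).integrableOn, ?_⟩
  rw [setIntegral_indicator measurableSet_Icc]
  have : (Ioi 0 ∩ Icc a b : Set ℝ) =ᵐ[volume] Ioc a b := by
    have h1 : (Ioi 0 ∩ Icc a b : Set ℝ) =ᵐ[volume] (Ioi 0 ∩ Ioc a b : Set ℝ) :=
      (ae_eq_refl _).inter Ioc_ae_eq_Icc.symm
    have h2 : Ioc a b ⊆ Ioi 0 := fun x hx => ha.trans_lt hx.1
    rwa [inter_eq_right.2 h2] at h1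
  rw [setIntegral_congr_set this, ← intervalIntegral.integral_of_le hab]
  exact h

theorem maj_const {a b : ℝ} (e : ℝ) (ha : 0 ≤ a) (hab : a ≤ b) :
    Maj (indicator (Icc a b) fun _ => e) (e * (b - a)) :=
  maj_Icc continuous_const ha hab (by simp [mul_comm])

theorem maj_exp {a l : ℝ} (ha : 0 < a) (hl : 0 < l) :
    Maj (indicator (Ici a) fun t => Real.exp (-l * t)) (Real.exp (-l * a) / l) := by
  have hi : IntegrableOn (fun t => Real.exp (-l * t)) (Ici a) :=
    (integrableOn_Ici_iff_integrableOn_Ioi).2 (exp_neg_integrableOn_Ioi a hl)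
  refine ⟨((integrable_indicator_iff measurableSet_Ici).2 hi).integrableOn, ?_⟩
  have h2 : Ici a ⊆ Ioi 0 := fun x hx => ha.trans_le hx
  rw [setIntegral_indicator measurableSet_Ici, inter_eq_right.2 h2,
    integral_Ici_eq_integral_Ioi, integral_exp_mul_Ioi (by linarith)]
  rw [neg_div_neg_eq]

def gi : ℕ → ℕ
  | 0 => 138 | 1 => 147 | 2 => 154 | 3 => 160 | 4 => 168 | 5 => 176 | 6 => 184 | 7 => 192
  | 8 => 200 | 9 => 212 | 10 => 224 | 11 => 240 | _ => 268

def gw : ℕ → ℚ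
  | 0 => 1393 / 10000000 | 1 => 4995 / 10000000 | 2 => 7842 / 10000000 | 3 => 15218 / 10000000
  | 4 => 19211 / 10000000 | 5 => 21117 / 10000000 | 6 => 21054 / 10000000
  | 7 => 19376 / 10000000 | 8 => 23486 / 10000000 | 9 => 15670 / 10000000
  | 10 => 10405 / 10000000 | _ => 3350 / 10000000

theorem d1 : allLt (fun k => sqOK (gi k) (gi (k + 1) - gi k) (gw k) &&
    decide (gi k ≤ gi (k + 1))) 12 = true := by decide +kernel

theorem groups {E : ℝ → ℝ} (hE : Continuous E) (h0 : ∀ t, 0 ≤ E t)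
    (hm : ∀ s t, 0 ≤ s → s ≤ t → E t ≤ E s) : ∀ k ≤ 12,
    ∫ t in ((gi 0 : ℝ) / 40)..((gi k : ℝ) / 40), gg 0 (t ^ 2) ^ 2 * E t ≤
      ∑ l ∈ Finset.range k, gw l * E (gi l / 40) := by
  have hg := cont_gg 0
  have hc : Continuous fun t => gg 0 (t ^ 2) ^ 2 * E t := by fun_prop
  intro k
  induction k with
  | zero => simp
  | succ k ih =>
    intro hk
    have h := allLt_sound d1 k (by omega)
    simp only [Bool.and_eq_true, decide_eq_true_eq] at h
    have h1 := sq_sound h.1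
    rw [Nat.cast_sub h.2, add_sub_cancel] at h1
    have hle : (gi k : ℝ) / 40 ≤ (gi (k + 1) : ℝ) / 40 := by gcongr; exact h.2
    rw [← intervalIntegral.integral_add_adjacent_intervals (b := (gi k : ℝ) / 40)
      (hc.intervalIntegrable _ _) (hc.intervalIntegrable _ _), Finset.sum_range_succ]
    refine add_le_add (ih (by omega)) ?_
    have h2 : ∫ t in ((gi k : ℝ) / 40)..((gi (k + 1) : ℝ) / 40), gg 0 (t ^ 2) ^ 2 * E t ≤
        ∫ t in ((gi k : ℝ) / 40)..((gi (k + 1) : ℝ) / 40), gg 0 (t ^ 2) ^ 2 * E (gi k / 40) :=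
      intervalIntegral.integral_mono_on hle (hc.intervalIntegrable _ _)
        (Continuous.intervalIntegrable (by fun_prop) _ _) fun t ht =>
        mul_le_mul_of_nonneg_left (hm _ _ (by positivity) ht.1) (sq_nonneg _)
    rw [intervalIntegral.integral_mul_const] at h2
    exact h2.trans (mul_le_mul_of_nonneg_right h1 (h0 _))

theorem maj_a {E : ℝ → ℝ} (hE : Continuous E) (h0 : ∀ t, 0 ≤ E t)
    (hm : ∀ s t, 0 ≤ s → s ≤ t → E t ≤ E s) :
    Maj (indicator (Icc 3.45 6.7) fun t => gg 0 (t ^ 2) ^ 2 * E t)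
      (∑ l ∈ Finset.range 12, gw l * E (gi l / 40)) := by
  have hg := cont_gg 0
  have h := groups hE h0 hm 12 le_rfl
  refine maj_Icc (by fun_prop) (by norm_num) (by norm_num) ?_
  convert h using 2 <;> norm_num [gi]

theorem d2 : sumQ (fun i => absQ (enclT 18 1 20 (134 + i))) 146 ≤ (2905 / 100000) * (20 : ℕ) := by
  decide +kernel

/-- Majorant of the transform beyond 6.7. -/
noncomputable def phiB (t : ℝ) : ℝ :=
  indicator (Icc 6.7 14) (fun t => |gg 0 (t ^ 2)|) t +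
    34 * indicator (Ici 14) (fun t => Real.exp (-(3 / 4) * t)) t

theorem maj_b : Maj phiB 0.03033 := by
  have hg := cont_gg 0
  have h := integral_le_of_check (f := fun t => |gg 0 (t ^ 2)|) (by fun_prop) (m := 20)
    (by norm_num) 134 146 (fun i => absQ (enclT 18 1 20 i))
    (fun i t h1 h2 => by
      simpa using absQ_sound (enclT_sound 18 (n := 1) i one_pos (by norm_num) h1 h2)) d2
  have h1 : Maj (indicator (Icc 6.7 14) fun t => |gg 0 (t ^ 2)|) 0.02905 := by
    refine maj_Icc (by fun_prop) (by norm_num) (by norm_num) ?_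
    convert h using 2 <;> norm_num
  have h2 := (maj_exp (a := 14) (l := 3 / 4) (by norm_num) (by norm_num)).smul (c := 34)
    (by norm_num)
  refine (h1.add h2).mono ?_
  have := exp_tail
  norm_num at this ⊢
  linarith

theorem phiB_nonneg (t : ℝ) : 0 ≤ phiB t :=
  add_nonneg (indicator_nonneg (fun _ _ => abs_nonneg _) _)
    (mul_nonneg (by norm_num) (indicator_nonneg (fun _ _ => (Real.exp_pos _).le) _))

theorem le_phiB {t : ℝ} (ht : 6.7 ≤ t) : |gg 0 (t ^ 2)| ≤ phiB t := by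
  rw [phiB]
  rcases le_total t 14 with h | h
  · rw [indicator_of_mem (show t ∈ Icc 6.7 14 from ⟨ht, h⟩)]
    exact le_add_of_nonneg_right
      (mul_nonneg (by norm_num) (indicator_nonneg (fun _ _ => (Real.exp_pos _).le) _))
  · rw [indicator_of_mem (show t ∈ Ici 14 from h)]
    exact le_add_of_nonneg_of_le (indicator_nonneg (fun _ _ => abs_nonneg _) _)
      (decay (by linarith))

theorem d3 : gainOK 4 (11 / 120000) (3 / 4) 240 (1088 / 10000) = true := by decide +kernel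
theorem d4 : gainOK 5 0 (3 / 10) 260 (4405 / 100000) = true := by decide +kernel
theorem d5 : gainOK 5 0 1 260 (123 / 1000) = true := by decide +kernel

theorem maj_gain {n N : ℕ} {k x w : ℚ} (hn : 0 < n) (hk : 0 ≤ k) (hx : 0 ≤ x)
    (h : gainOK n k x N w = true) :
    Maj (indicator (Icc 0 ((N : ℝ) / 40)) fun t => -gainF n k x t) (-w) := by
  refine maj_Icc (f := fun t => -gainF n k x t) (cont_gainF n k x).neg le_rfl (by positivity) ?_
  rw [intervalIntegral.integral_neg]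
  linarith [gain_sound hn hk hx h]

end Pool.Agent.MP_39fec4_gt.P4
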