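import Pool.Agent.MP_39fec4_gt.P4FactA

set_option autoImplicit false

namespace Pool.Agent.MP_39fec4_gt.P4

/-- Bounds for the first three functions of the tower on an interval. -/
def Zone (lo hi B k1 k2 : ℝ) : Prop :=
  ∀ x, lo ≤ x → x ≤ hi → |gg 0 x| ≤ B ∧ |gg 1 x| ≤ k1 ∧ |gg 2 x| ≤ k2

theorem z1c0 : supOK 10 0 19 2 1 16 (923 / 10000) = true := by decide +kernel
theorem z1c1 : supOK 10 1 19 2 1 16 (443 / 10000) = true := by decide +kernel
theorem z1c2 : supOK 10 2 19 2 1 16 (74 / 10000) = true := by decide +kernel

theorem z1 : Zone 9.5 17.5 0.0923 0.0443 0.0074 := fun x h1 h2 =>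
  ⟨(sup_sound z1c0 (by norm_num) (by norm_num) (by norm_num; linarith)
      (by norm_num; linarith)).trans (by norm_num),
    (sup_sound z1c1 (by norm_num) (by norm_num) (by norm_num; linarith)
      (by norm_num; linarith)).trans (by norm_num),
    (sup_sound z1c2 (by norm_num) (by norm_num) (by norm_num; linarith)
      (by norm_num; linarith)).trans (by norm_num)⟩

theorem z2c0 : supOK 10 0 23 2 1 21 (104 / 1000) = true := by decide +kernel
theorem z2c1 : supOK 10 1 23 2 1 21 (312 / 10000) = true := by decide +kernel
theorem z2c2 : supOK 10 2 23 2 1 21 (58 / 10000) = true := by decide +kernel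

theorem z2 : Zone 11.5 22 0.104 0.0312 0.0058 := fun x h1 h2 =>
  ⟨(sup_sound z2c0 (by norm_num) (by norm_num) (by norm_num; linarith)
      (by norm_num; linarith)).trans (by norm_num),
    (sup_sound z2c1 (by norm_num) (by norm_num) (by norm_num; linarith)
      (by norm_num; linarith)).trans (by norm_num),
    (sup_sound z2c2 (by norm_num) (by norm_num) (by norm_num; linarith)
      (by norm_num; linarith)).trans (by norm_num)⟩

theorem z3c1 : supOK 10 1 28 2 1 32 (188 / 10000) = true := by decide +kernel
theorem z3c2 : supOK 10 2 28 2 1 32 (421 / 100000) = true := by decide +kernel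

theorem z3 : Zone 14 30 0.104 0.0188 0.00421 := fun x h1 h2 =>
  ⟨fact_m0 (by linarith),
    (sup_sound z3c1 (by norm_num) (by norm_num) (by norm_num; linarith)
      (by norm_num; linarith)).trans (by norm_num),
    (sup_sound z3c2 (by norm_num) (by norm_num) (by norm_num; linarith)
      (by norm_num; linarith)).trans (by norm_num)⟩

theorem z4c1 : supOK 12 1 20 1 1 25 (562 / 100000) = true := by decide +kernel
theorem z4c2 : supOK 12 2 20 1 1 25 (175 / 100000) = true := by decide +kernel

theorem z4 : Zone 20 45 0.104 0.00562 0.00175 := fun x h1 h2 =>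
  ⟨fact_m0 (by linarith),
    (sup_sound z4c1 (by norm_num) (by norm_num) (by norm_num; linarith)
      (by norm_num; linarith)).trans (by norm_num),
    (sup_sound z4c2 (by norm_num) (by norm_num) (by norm_num; linarith)
      (by norm_num; linarith)).trans (by norm_num)⟩

theorem z5c0 : supOK 12 0 59 2 1 43 (726 / 10000) = true := by decide +kernel
theorem z5c1 : supOK 12 1 59 2 1 43 (56 / 10000) = true := by decide +kernel
theorem z5c2 : supOK 12 2 59 2 1 43 (27 / 100000) = true := by decide +kernel

theorem z5 : Zone 29.5 51 0.0726 0.0056 0.00027 := fun x h1 h2 =>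
  ⟨(sup_sound z5c0 (by norm_num) (by norm_num) (by norm_num; linarith)
      (by norm_num; linarith)).trans (by norm_num),
    (sup_sound z5c1 (by norm_num) (by norm_num) (by norm_num; linarith)
      (by norm_num; linarith)).trans (by norm_num),
    (sup_sound z5c2 (by norm_num) (by norm_num) (by norm_num; linarith)
      (by norm_num; linarith)).trans (by norm_num)⟩

theorem z6c0 : supOK 14 0 33 1 1 26 (533 / 10000) = true := by decide +kernel
theorem z6c1 : supOK 14 1 33 1 1 26 (55 / 10000) = true := by decide +kernel
theorem z6c2 : supOK 14 2 33 1 1 26 (27 / 100000) = true := by decide +kernel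

theorem z6 : Zone 33 59 0.0533 0.0055 0.00027 := fun x h1 h2 =>
  ⟨(sup_sound z6c0 (by norm_num) (by norm_num) (by norm_num; linarith)
      (by norm_num; linarith)).trans (by norm_num),
    (sup_sound z6c1 (by norm_num) (by norm_num) (by norm_num; linarith)
      (by norm_num; linarith)).trans (by norm_num),
    (sup_sound z6c2 (by norm_num) (by norm_num) (by norm_num; linarith)
      (by norm_num; linarith)).trans (by norm_num)⟩

theorem z7c0 : supOK 14 0 39 1 1 38 (237 / 10000) = true := by decide +kernel
theorem z7c1 : supOK 14 1 39 1 1 38 (43 / 10000) = true := by decide +kernel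
theorem z7c2 : supOK 14 2 39 1 1 38 (27 / 100000) = true := by decide +kernel

theorem z7 : Zone 39 77 0.0237 0.0043 0.00027 := fun x h1 h2 =>
  ⟨(sup_sound z7c0 (by norm_num) (by norm_num) (by norm_num; linarith)
      (by norm_num; linarith)).trans (by norm_num),
    (sup_sound z7c1 (by norm_num) (by norm_num) (by norm_num; linarith)
      (by norm_num; linarith)).trans (by norm_num),
    (sup_sound z7c2 (by norm_num) (by norm_num) (by norm_num; linarith)
      (by norm_num; linarith)).trans (by norm_num)⟩

theorem z8c1 : supOK 18 1 51 1 2 59 (137 / 100000) = true := by decide +kernel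
theorem z8c2 : supOK 18 2 51 1 2 59 (2 / 10000) = true := by decide +kernel

theorem z8 : Zone 51 169 0.0146 0.00137 0.0002 := fun x h1 h2 =>
  ⟨fact_44 (by linarith),
    (sup_sound z8c1 (by norm_num) (by norm_num) (by norm_num; linarith)
      (by norm_num; linarith)).trans (by norm_num),
    (sup_sound z8c2 (by norm_num) (by norm_num) (by norm_num; linarith)
      (by norm_num; linarith)).trans (by norm_num)⟩

theorem z9 (hi : ℝ) : Zone 111 hi 0.0022 0.0136 0.0209 := fun x h1 _ =>
  ⟨fact_111 h1, fact_111' h1, fact_g2 x⟩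

theorem y1c : supOK 10 1 119 10 2 12 (289 / 10000) = true := by decide +kernel

theorem y1 {x : ℝ} (h1 : 11.9 ≤ x) (h2 : x ≤ 14.3) : |gg 1 x| ≤ 0.0289 :=
  (sup_sound y1c (by norm_num) (by norm_num) (by norm_num; linarith)
      (by norm_num; linarith)).trans (by norm_num)

theorem y2c : supOK 10 0 79 10 2 32 (169 / 1000) = true := by decide +kernel

theorem y2 {x : ℝ} (h1 : 7.9 ≤ x) (h2 : x ≤ 14.3) : |gg 0 x| ≤ 0.169 :=
  (sup_sound y2c (by norm_num) (by norm_num) (by norm_num; linarith)
      (by norm_num; linarith)).trans (by norm_num)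

theorem y3c : supOK 10 1 19 2 1 17 (443 / 10000) = true := by decide +kernel

theorem y3 {x : ℝ} (h1 : 9.5 ≤ x) (h2 : x ≤ 18) : |gg 1 x| ≤ 0.0443 :=
  (sup_sound y3c (by norm_num) (by norm_num) (by norm_num; linarith)
      (by norm_num; linarith)).trans (by norm_num)

theorem y4c : supOK 10 0 19 2 1 17 (955 / 10000) = true := by decide +kernel

theorem y4 {x : ℝ} (h1 : 9.5 ≤ x) (h2 : x ≤ 18) : |gg 0 x| ≤ 0.0955 :=
  (sup_sound y4c (by norm_num) (by norm_num) (by norm_num; linarith)
      (by norm_num; linarith)).trans (by norm_num)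

end Pool.Agent.MP_39fec4_gt.P4
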