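import Pool.Agent.MP_39fec4_gt.P4Core
import Pool.Agent.MP_39fec4_gt.P4FactB

set_option autoImplicit false

namespace Pool.Agent.MP_39fec4_gt.P4

open MeasureTheory Set Filter Topology

theorem le_of_sq {a b : ℝ} (hb : 0 ≤ b) (h : a ^ 2 ≤ b ^ 2) : a ≤ b :=
  (abs_le_of_sq_le_sq' h hb).2

/-- The gain, as a nonpositive function. -/
noncomputable def GI (m : ℕ) (k x T t : ℝ) : ℝ := indicator (Icc 0 T) (fun t => -gainF m k x t) t

theorem gain_le {n m : ℕ} (hm : 0 < m) (hmn : m ≤ n) {k x T t V : ℝ} (hk0 : 0 ≤ k)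
    (hk : k ≤ 0.0011 / 3 / n) (hT : T ^ 2 / m ≤ 11.9025) (hV : 0 ≤ V) (hx : 0 < x) (hVx : V ≤ x)
    (ht : t ∈ Icc 0 T) : 0 ≤ gg 0 (t ^ 2 / n) ^ n ∧ V / x * gainF m k x t ≤ gg 0 (t ^ 2 / n) ^ n *
      (1 - Real.exp (-((0.0038 + 0.0011 / 3 * (t ^ 2 / n)) * (t ^ 2) ^ 2 * V))) := by
  have hm' : (0 : ℝ) < m := by exact_mod_cast hm
  have hn' : (0 : ℝ) < n := by exact_mod_cast hm.trans_le hmn
  have h1 : t ^ 2 / m ≤ 11.9025 :=
    le_trans (by have := ht.1; have := ht.2; gcongr) hT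
  have h2 := g_pos (by positivity) h1
  have h3 := diag_mono hm hmn (sq_nonneg t) h1
  have h4 : 0 ≤ gg 0 (t ^ 2 / n) ^ n := (pow_nonneg h2.le _).trans h3
  refine ⟨h4, ?_⟩
  set c := (19 / 5000 + k * t ^ 2) * t ^ 4 with hc
  have hc0 : 0 ≤ c := by positivity
  have hθ0 : 0 ≤ V / x := by positivity
  have hθ1 : V / x ≤ 1 := (div_le_one hx).2 hVx
  have h5 := convexOn_exp.2 (mem_univ (-(c * x))) (mem_univ 0) hθ0 (sub_nonneg.2 hθ1) (by ring)
  simp only [smul_eq_mul, mul_zero, add_zero, Real.exp_zero, mul_one] at h5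
  have e : V / x * -(c * x) = -(c * V) := by field_simp
  rw [e] at h5
  have h6 : Real.exp (-((0.0038 + 0.0011 / 3 * (t ^ 2 / n)) * (t ^ 2) ^ 2 * V)) ≤
      Real.exp (-(c * V)) := by
    refine Real.exp_le_exp.2 (neg_le_neg (mul_le_mul_of_nonneg_right ?_ hV))
    have : k * t ^ 2 ≤ 0.0011 / 3 * (t ^ 2 / n) := by
      calc k * t ^ 2 ≤ 0.0011 / 3 / n * t ^ 2 := by gcongr
        _ = _ := by ring
    rw [hc, ← pow_mul]
    exact mul_le_mul_of_nonneg_right (by linarith) (by positivity)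
  have h7 : Real.exp (-(c * x)) ≤ 1 := Real.exp_le_one_iff.2 (neg_nonpos.2 (by positivity))
  rw [gainF, max_eq_left h2.le, ← hc, mul_left_comm]
  exact mul_le_mul h3 (by linarith) (mul_nonneg hθ0 (by linarith)) h4

theorem main_gain {n m : ℕ} (hm : 0 < m) (hmn : m ≤ n) {k x T t : ℝ} (hk0 : 0 ≤ k)
    (hk : k ≤ 0.0011 / 3 / n) (hT : T ^ 2 / m ≤ 11.9025) {u : Fin n → ℝ} (hu : ∀ j, 0 ≤ u j)
    (hs : ∑ j, u j = 1) (hx : 0 < x) (hVx : ∑ j, (u j - 1 / n) ^ 2 ≤ x)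
    (h12 : ∀ j, u j * t ^ 2 ≤ 12) (hg : ∀ j, 0 ≤ gg 0 (u j * t ^ 2)) :
    ∏ j, gg 0 (u j * t ^ 2) - gg 0 (t ^ 2 / n) ^ n ≤
      (∑ j, (u j - 1 / n) ^ 2) / x * GI m k x T t := by
  obtain ⟨h1, h2⟩ := main_region (hm.trans_le hmn) hu hs (sq_nonneg t) h12 hg
  rw [GI]
  by_cases ht : t ∈ Icc 0 T
  · rw [indicator_of_mem ht]
    have := (gain_le hm hmn hk0 hk hT (by positivity) hx hVx ht).2
    linarith
  · rw [indicator_of_notMem ht, mul_zero, sub_nonpos]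
    refine h2.trans (mul_le_of_le_one_right (pow_nonneg h1 _) (Real.exp_le_one_iff.2 ?_))
    exact neg_nonpos.2 (by positivity)

theorem rest_gain {n m : ℕ} (hm : 0 < m) (hmn : m ≤ n) {k x T t V : ℝ} (hk0 : 0 ≤ k)
    (hk : k ≤ 0.0011 / 3 / n) (hT : T ^ 2 / m ≤ 11.9025) (hV : 0 ≤ V) (hx : 0 < x) (hVx : V ≤ x) :
    -gg 0 (t ^ 2 / n) ^ n ≤ V / x * GI m k x T t + max (-gg 0 (t ^ 2 / n) ^ n) 0 := by
  rw [GI]
  by_cases ht : t ∈ Icc 0 T
  · rw [indicator_of_mem ht]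
    obtain ⟨h1, h2⟩ := gain_le hm hmn hk0 hk hT hV hx hVx ht
    have h3 := mul_nonneg h1
      (Real.exp_pos (-((0.0038 + 0.0011 / 3 * (t ^ 2 / n)) * (t ^ 2) ^ 2 * V))).le
    nlinarith [le_max_right (-gg 0 (t ^ 2 / n) ^ n) 0]
  · rw [indicator_of_notMem ht, mul_zero, zero_add]
    exact le_max_left _ _

theorem two_neg {n : ℕ} {y : Fin n → ℝ} {j : Fin n} (hj : y j < 0) (hP : 0 < ∏ i, y i) :
    ∃ i, i ≠ j ∧ y i < 0 := by
  by_contra h
  push Not at h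
  rw [← Finset.mul_prod_erase _ _ (Finset.mem_univ j)] at hP
  have : 0 ≤ ∏ i ∈ Finset.univ.erase j, y i :=
    Finset.prod_nonneg fun i hi => h i (Finset.ne_of_mem_erase hi)
  nlinarith

theorem prod_split {n : ℕ} (y : Fin n → ℝ) {i j : Fin n} (h : j ≠ i) :
    ∏ k, y k = y i * y j * ∏ k ∈ (Finset.univ.erase i).erase j, y k := by
  rw [← Finset.mul_prod_erase _ _ (Finset.mem_univ i),
    ← Finset.mul_prod_erase _ _ (Finset.mem_erase.2 ⟨h, Finset.mem_univ j⟩), mul_assoc]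

theorem sum_split {n : ℕ} (y : Fin n → ℝ) {i j : Fin n} (h : j ≠ i) :
    ∑ k, y k = y i + y j + ∑ k ∈ (Finset.univ.erase i).erase j, y k := by
  rw [← Finset.add_sum_erase _ _ (Finset.mem_univ i),
    ← Finset.add_sum_erase _ _ (Finset.mem_erase.2 ⟨h, Finset.mem_univ j⟩), add_assoc]

theorem prod_le_exp {ι : Type*} (S : Finset ι) (y z : ι → ℝ) (c : ℝ)
    (h : ∀ k ∈ S, |y k| ≤ Real.exp (-(c * z k))) :
    |∏ k ∈ S, y k| ≤ Real.exp (-(c * ∑ k ∈ S, z k)) := by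
  rw [Finset.abs_prod, Finset.mul_sum, ← Finset.sum_neg_distrib, Real.exp_sum]
  exact Finset.prod_le_prod (fun _ _ => abs_nonneg _) h

theorem min_scale {a b x y : ℝ} (hb : 0 ≤ b) (hx : 0 ≤ x) (hxy : x ≤ y) (hy : 0 < y) :
    min (a * y) b / y * x ≤ min (a * x) b := by
  refine le_min ?_ ?_
  · calc min (a * y) b / y * x ≤ a * y / y * x := by gcongr; exact min_le_left _ _
      _ = a * x := by field_simp
  · calc min (a * y) b / y * x ≤ b / y * y := by gcongr; exact min_le_right _ _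
      _ = b := by field_simp

/-- The largest argument lies beyond the second lobe. -/
theorem bad_b {n : ℕ} {u : Fin n → ℝ} (hu : ∀ j, 0 ≤ u j) (hs : ∑ j, u j = 1) {i : Fin n}
    (hi : ∀ j, u j ≤ u i) (hi0 : 0 < u i) {t : ℝ} (ht : 0 < t) (h : 44.89 ≤ u i * t ^ 2) :
    ∏ j, gg 0 (u j * t ^ 2) ≤
      Real.exp (-(3.81565 * (1 / u i - 1))) * phiB (t / √(1 / u i)) := by
  have e : (t / √(1 / u i)) ^ 2 = u i * t ^ 2 := by
    rw [div_pow, Real.sq_sqrt (by positivity)]; field_simp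
  have h1 : |gg 0 (u i * t ^ 2)| ≤ phiB (t / √(1 / u i)) := by
    rw [← e]
    exact le_phiB (le_of_sq (by positivity) (by rw [e]; linarith))
  have h2 := prod_le_exp (Finset.univ.erase i) (fun j => gg 0 (u j * t ^ 2)) u (3.81565 / u i)
    fun k _ => (env2 (mul_nonneg (hu k) (sq_nonneg t))).trans (Real.exp_le_exp.2 (neg_le_neg (by
      have h3 := min_scale (a := 1) (b := 44.89) (x := u k * t ^ 2) (y := u i * t ^ 2)
        (by norm_num) (mul_nonneg (hu k) (sq_nonneg t))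
        (mul_le_mul_of_nonneg_right (hi k) (sq_nonneg t)) (by positivity)
      rw [one_mul, one_mul, min_eq_right h] at h3
      calc 3.81565 / u i * u k = 0.085 * (44.89 / (u i * t ^ 2) * (u k * t ^ 2)) := by
            field_simp; ring
        _ ≤ _ := by gcongr)))
  have h4 : ∑ k ∈ Finset.univ.erase i, u k = 1 - u i := by
    rw [← hs, ← Finset.add_sum_erase _ _ (Finset.mem_univ i)]; ring
  rw [h4, show 3.81565 / u i * (1 - u i) = 3.81565 * (1 / u i - 1) by field_simp] at h2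
  rw [← Finset.mul_prod_erase _ _ (Finset.mem_univ i), mul_comm (Real.exp _)]
  refine (le_abs_self _).trans ?_
  rw [abs_mul]
  exact mul_le_mul h1 h2 (abs_nonneg _) (phiB_nonneg _)

/-- The integrand of the second lobe with a weight. -/
noncomputable def phiA (E : ℝ → ℝ) (t : ℝ) : ℝ :=
  indicator (Icc 3.45 6.7) (fun t => gg 0 (t ^ 2) ^ 2 * E t) t

theorem phiA_nonneg {E : ℝ → ℝ} (h : ∀ t, 0 ≤ E t) (t : ℝ) : 0 ≤ phiA E t :=
  indicator_nonneg (fun _ _ => mul_nonneg (sq_nonneg _) (h _)) _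

theorem phiA_eq (E : ℝ → ℝ) {τ : ℝ} (h0 : 0 ≤ τ) (h1 : 11.9025 ≤ τ ^ 2) (h2 : τ ^ 2 ≤ 44.89) :
    phiA E τ = gg 0 (τ ^ 2) ^ 2 * E τ := by
  rw [phiA, indicator_of_mem]
  exact ⟨le_of_sq h0 (by linarith), le_of_sq (by norm_num) (by linarith)⟩

theorem top_two {n : ℕ} {u : Fin n → ℝ} (hu : ∀ j, 0 ≤ u j) {i j : Fin n}
    (hi : ∀ k, u k ≤ u i) (hj : ∀ k, k ≠ i → u k ≤ u j) {s : ℝ} (hs : 0 ≤ s)
    (h : u i * s ≤ 44.89) {l : Fin n} (hl : gg 0 (u l * s) < 0) (hP : 0 < ∏ k, gg 0 (u k * s)) :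
    gg 0 (u i * s) < 0 ∧ gg 0 (u j * s) < 0 := by
  have hm : ∀ a b, u a ≤ u b → gg 0 (u a * s) < 0 → gg 0 (u b * s) < 0 := fun a b hab =>
    g_neg_mono (mul_nonneg (hu a) hs) (mul_le_mul_of_nonneg_right hab hs)
      ((mul_le_mul_of_nonneg_right (hi b) hs).trans h)
  have h1 := hm l i (hi l) hl
  obtain ⟨k, hk, hk'⟩ := two_neg (y := fun k => gg 0 (u k * s)) h1 hP
  exact ⟨h1, hm k j (hj k hk) hk'⟩

/-- Two arguments in the second lobe. -/
theorem bad_a {n : ℕ} {u : Fin n → ℝ} (hu : ∀ j, 0 ≤ u j) (hs : ∑ j, u j = 1) {i j : Fin n}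
    (hij : j ≠ i) (hi : ∀ k, u k ≤ u i) (hi0 : 0 < u i) {t : ℝ} (ht : 0 < t)
    (h : u i * t ^ 2 ≤ 44.89) (g1 : gg 0 (u i * t ^ 2) < 0) (g2 : gg 0 (u j * t ^ 2) < 0)
    {ψ : ℝ → ℝ} (hψ : ∀ k ∈ (Finset.univ.erase i).erase j, |gg 0 (u k * t ^ 2)| ≤
      Real.exp (-(ψ ((u i + u j) / 2 * t ^ 2) / ((u i + u j) / 2) * u k))) :
    ∏ k, gg 0 (u k * t ^ 2) ≤
      phiA (fun τ => Real.exp (-((2 / (u i + u j) - 2) * ψ (τ ^ 2)))) (t / √(2 / (u i + u j))) := by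
  have hU : 0 < u i + u j := by linarith [hu j]
  have e : (t / √(2 / (u i + u j))) ^ 2 = (u i + u j) / 2 * t ^ 2 := by
    rw [div_pow, Real.sq_sqrt (by positivity)]; field_simp
  have hx : 0 ≤ u i * t ^ 2 := mul_nonneg (hu i) (sq_nonneg t)
  have hy : 0 ≤ u j * t ^ 2 := mul_nonneg (hu j) (sq_nonneg t)
  have hy' : u j * t ^ 2 ≤ u i * t ^ 2 := mul_le_mul_of_nonneg_right (hi j) (sq_nonneg t)
  have h1 := lobe_two hx hy h (hy'.trans h) g1 g2
  have h2 := prod_le_exp _ (fun k => gg 0 (u k * t ^ 2)) u _ hψ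
  have h3 : ∑ k ∈ (Finset.univ.erase i).erase j, u k = 1 - (u i + u j) := by
    rw [← hs, sum_split u hij]; ring
  rw [phiA_eq _ (by positivity) (by rw [e]; linarith [lt_of_g_neg hy g2])
    (by rw [e]; linarith), e, prod_split _ hij]
  rw [h3, show ψ ((u i + u j) / 2 * t ^ 2) / ((u i + u j) / 2) * (1 - (u i + u j)) =
    (2 / (u i + u j) - 2) * ψ ((u i + u j) / 2 * t ^ 2) by field_simp] at h2
  rw [show (u i * t ^ 2 + u j * t ^ 2) / 2 = (u i + u j) / 2 * t ^ 2 by ring] at h1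
  calc _ ≤ gg 0 (u i * t ^ 2) * gg 0 (u j * t ^ 2) *
        Real.exp (-((2 / (u i + u j) - 2) * ψ ((u i + u j) / 2 * t ^ 2))) :=
        mul_le_mul_of_nonneg_left ((le_abs_self _).trans h2) (mul_pos_of_neg_of_neg g1 g2).le
    _ ≤ _ := mul_le_mul_of_nonneg_right h1 (Real.exp_pos _).le

theorem neg_part_le {n : ℕ} (hn : 2 ≤ n) {t : ℝ} (ht : 0 < t) :
    max (-gg 0 (t ^ 2 / n) ^ n) 0 ≤
      0.104 ^ (n - 2) * phiA (fun _ => 1) (t / √n) + 0.0146 ^ (n - 1) * phiB (t / √n) := by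
  have hn' : (0 : ℝ) < n := by exact_mod_cast (by omega : 0 < n)
  have e : (t / √n) ^ 2 = t ^ 2 / n := by rw [div_pow, Real.sq_sqrt hn'.le]
  have p1 : 0 ≤ 0.104 ^ (n - 2) * phiA (fun _ => 1) (t / √n) :=
    mul_nonneg (by positivity) (phiA_nonneg (fun _ => zero_le_one) _)
  have p2 : 0 ≤ 0.0146 ^ (n - 1) * phiB (t / √n) := mul_nonneg (by positivity) (phiB_nonneg _)
  refine max_le ?_ (add_nonneg p1 p2)
  rcases le_or_gt 0 (gg 0 (t ^ 2 / n)) with h | h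
  · linarith [pow_nonneg h n]
  have h1 := lt_of_g_neg (by positivity) h
  have h2 : -gg 0 (t ^ 2 / n) ^ n ≤ |gg 0 (t ^ 2 / n)| ^ n := by
    rw [← abs_pow]; exact neg_le_abs _
  rcases le_total (t ^ 2 / n) 44.89 with h3 | h3
  · rw [phiA_eq _ (by positivity) (e ▸ h1.le) (e ▸ h3), e, mul_one]
    have : |gg 0 (t ^ 2 / n)| ^ n ≤ 0.104 ^ (n - 2) * gg 0 (t ^ 2 / n) ^ 2 := by
      rw [← sq_abs (gg 0 (t ^ 2 / n))]
      calc |gg 0 (t ^ 2 / n)| ^ n = |gg 0 (t ^ 2 / n)| ^ (n - 2) * |gg 0 (t ^ 2 / n)| ^ 2 := by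
            rw [← pow_add]; congr 1; omega
        _ ≤ _ := by gcongr; exact fact_m0 (by linarith)
    linarith
  · have h4 := le_phiB (t := t / √n) (le_of_sq (by positivity) (by rw [e]; linarith))
    rw [e] at h4
    have : |gg 0 (t ^ 2 / n)| ^ n ≤ 0.0146 ^ (n - 1) * phiB (t / √n) := by
      calc |gg 0 (t ^ 2 / n)| ^ n = |gg 0 (t ^ 2 / n)| ^ (n - 1) * |gg 0 (t ^ 2 / n)| := by
            rw [← pow_succ]; congr 1; omega
        _ ≤ _ := by gcongr; exact fact_44 (by linarith)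
    linarith

/-- Pointwise bound away from the diagonal, any dimension. -/
theorem far_point {n m : ℕ} (hm : 0 < m) (hmn : m ≤ n) {k x T t : ℝ} (hk0 : 0 ≤ k)
    (hk : k ≤ 0.0011 / 3 / n) (hT : T ^ 2 / m ≤ 11.9025) {u : Fin n → ℝ} (hu : ∀ j, 0 ≤ u j)
    (hs : ∑ j, u j = 1) (hx : 0 < x) (hVx : ∑ j, (u j - 1 / n) ^ 2 ≤ x) {i j : Fin n}
    (hij : j ≠ i) (hi : ∀ k, u k ≤ u i) (hj : ∀ k, k ≠ i → u k ≤ u j) (hi0 : 0 < u i)
    (ht : 0 < t) :
    ∏ j, gg 0 (u j * t ^ 2) - gg 0 (t ^ 2 / n) ^ n ≤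
      (∑ j, (u j - 1 / n) ^ 2) / x * GI m k x T t + max (-gg 0 (t ^ 2 / n) ^ n) 0 +
      phiA (fun τ => Real.exp (-((2 / (u i + u j) - 2) * min (0.16899 * τ ^ 2) 2.25)))
        (t / √(2 / (u i + u j))) +
      Real.exp (-(3.81565 * (1 / u i - 1))) * phiB (t / √(1 / u i)) := by
  have p1 := phiA_nonneg
    (E := fun τ => Real.exp (-((2 / (u i + u j) - 2) * min (0.16899 * τ ^ 2) 2.25)))
    (fun _ => (Real.exp_pos _).le) (t / √(2 / (u i + u j)))
  have p2 : 0 ≤ Real.exp (-(3.81565 * (1 / u i - 1))) * phiB (t / √(1 / u i)) :=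
    mul_nonneg (Real.exp_pos _).le (phiB_nonneg _)
  have p3 := le_max_right (-gg 0 (t ^ 2 / n) ^ n) 0
  have hr := rest_gain (t := t) hm hmn hk0 hk hT (by positivity) hx hVx
  rcases le_total 44.89 (u i * t ^ 2) with h | h
  · linarith [bad_b hu hs hi hi0 ht h]
  by_cases hg : ∀ l, 0 ≤ gg 0 (u l * t ^ 2)
  · linarith [main_gain hm hmn hk0 hk hT hu hs hx hVx (fun l => le_of_g_nonneg
      ((mul_le_mul_of_nonneg_right (hi l) (sq_nonneg t)).trans h) (hg l)) hg]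
  push Not at hg
  obtain ⟨l, hl⟩ := hg
  rcases le_or_gt (∏ j, gg 0 (u j * t ^ 2)) 0 with hP | hP
  · linarith
  obtain ⟨g1, g2⟩ := top_two hu hi hj (sq_nonneg t) h hl hP
  have hU : 0 < u i + u j := by linarith [hu j]
  have := bad_a hu hs hij hi hi0 ht h g1 g2 (ψ := fun y => min (0.16899 * y) 2.25) fun k hk =>
    (env1 (mul_nonneg (hu k) (sq_nonneg t))).trans (Real.exp_le_exp.2 (neg_le_neg (by
      have hki : k ≠ i := Finset.ne_of_mem_erase (Finset.mem_of_mem_erase hk)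
      have h3 := min_scale (a := 0.16899) (b := 2.25) (x := u k * t ^ 2)
        (y := (u i + u j) / 2 * t ^ 2) (by norm_num) (mul_nonneg (hu k) (sq_nonneg t))
        (mul_le_mul_of_nonneg_right (by linarith [hj k hki, hi k]) (sq_nonneg t)) (by positivity)
      refine le_trans (le_of_eq ?_) h3
      field_simp)))
  linarith

/-- Pointwise bound away from the diagonal, dimension four. -/
theorem far_point4 {k x t : ℝ} (hk0 : 0 ≤ k) (hk : k ≤ 0.0011 / 3 / (4 : ℕ))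
    {u : Fin 4 → ℝ} (hu : ∀ j, 0 ≤ u j)
    (hs : ∑ j, u j = 1) (hx : 0 < x) (hVx : ∑ j, (u j - 1 / (4 : ℕ)) ^ 2 ≤ x) {i j : Fin 4}
    (hij : j ≠ i) (hi : ∀ k, u k ≤ u i) (hj : ∀ k, k ≠ i → u k ≤ u j) (hi0 : 0 < u i)
    (ht : 0 < t) :
    ∏ j, gg 0 (u j * t ^ 2) - gg 0 (t ^ 2 / (4 : ℕ)) ^ 4 ≤
      (∑ j, (u j - 1 / (4 : ℕ)) ^ 2) / x * GI 4 k x 6 t +
      phiA (fun τ => Real.exp (-((2 / (u i + u j) - 2) * (0.16899 * τ ^ 2))))
        (t / √(2 / (u i + u j))) +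
      Real.exp (-(3.81565 * (1 / u i - 1))) * phiB (t / √(1 / u i)) := by
  have hT : (6 : ℝ) ^ 2 / (4 : ℕ) ≤ 11.9025 := by norm_num
  have p1 := phiA_nonneg
    (E := fun τ => Real.exp (-((2 / (u i + u j) - 2) * (0.16899 * τ ^ 2))))
    (fun _ => (Real.exp_pos _).le) (t / √(2 / (u i + u j)))
  have p2 : 0 ≤ Real.exp (-(3.81565 * (1 / u i - 1))) * phiB (t / √(1 / u i)) :=
    mul_nonneg (Real.exp_pos _).le (phiB_nonneg _)
  have hr := rest_gain (t := t) (n := 4) (m := 4) (by norm_num) le_rfl hk0 hk hT (by positivity)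
    hx hVx
  rw [max_eq_right (neg_nonpos.2 (by positivity)), add_zero] at hr
  rcases le_total 44.89 (u i * t ^ 2) with h | h
  · linarith [bad_b hu hs hi hi0 ht h]
  have h45 : ∀ l, u l * t ^ 2 ≤ 44.89 := fun l =>
    (mul_le_mul_of_nonneg_right (hi l) (sq_nonneg t)).trans h
  by_cases hg : ∀ l, 0 ≤ gg 0 (u l * t ^ 2)
  · linarith [main_gain (n := 4) (m := 4) (by norm_num) le_rfl hk0 hk hT hu hs hx hVx
      (fun l => le_of_g_nonneg (h45 l) (hg l)) hg]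
  push Not at hg
  obtain ⟨l, hl⟩ := hg
  rcases le_or_gt (∏ j, gg 0 (u j * t ^ 2)) 0 with hP | hP
  · linarith
  obtain ⟨g1, g2⟩ := top_two hu hi hj (sq_nonneg t) h hl hP
  have hU : 0 < u i + u j := by linarith [hu j]
  by_cases hR : ∀ k ∈ (Finset.univ.erase i).erase j, 0 ≤ gg 0 (u k * t ^ 2)
  · have := bad_a hu hs hij hi hi0 ht h g1 g2 (ψ := fun y => 0.16899 * y) fun k hk => by
      rw [abs_of_nonneg (hR k hk)]
      refine (g_le_exp (mul_nonneg (hu k) (sq_nonneg t))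
        (le_of_g_nonneg (h45 k) (hR k hk))).trans (le_of_eq ?_)
      congr 2
      field_simp
    linarith
  push Not at hR
  obtain ⟨a, ha, ga⟩ := hR
  have hall : ∀ l, gg 0 (u l * t ^ 2) < 0 := by
    intro b
    by_contra hb
    have hb' := not_lt.1 hb
    have hai : a ≠ i := Finset.ne_of_mem_erase (Finset.mem_of_mem_erase ha)
    have haj : a ≠ j := Finset.ne_of_mem_erase ha
    have hbi : b ≠ i := fun e => hb (e ▸ g1)
    have hbj : b ≠ j := fun e => hb (e ▸ g2)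
    have hba : b ≠ a := fun e => hb (e ▸ ga)
    have hR2 : (Finset.univ.erase i).erase j = {a, b} := by
      symm
      refine Finset.eq_of_subset_of_card_le (fun c hc => ?_) ?_
      · rcases Finset.mem_insert.1 hc with rfl | hc
        · exact ha
        · rw [Finset.mem_singleton.1 hc]; simp [hbi, hbj]
      · rw [Finset.card_erase_of_mem (by simp [hij]), Finset.card_erase_of_mem (by simp),
          Finset.card_pair hba.symm]
        simp
    rw [prod_split _ hij, hR2, Finset.prod_pair hba.symm] at hP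
    nlinarith [mul_pos_of_neg_of_neg g1 g2, mul_nonpos_of_nonpos_of_nonneg ga.le hb']
  have h1 := lobe_four hu hs (sq_nonneg t) h45 hall
  have h2 : 6 < t := by
    by_contra h3
    have h4 : t ^ 2 ≤ 6 ^ 2 := pow_le_pow_left₀ ht.le (not_lt.1 h3) 2
    have h5 : ∑ l, u l * t ^ 2 = t ^ 2 := by rw [← Finset.sum_mul, hs, one_mul]
    rw [Fin.sum_univ_four] at h5
    have := fun l => lt_of_g_neg (mul_nonneg (hu l) (sq_nonneg t)) (hall l)
    linarith [this 0, this 1, this 2, this 3]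
  rw [GI, indicator_of_notMem (fun h => by linarith [h.2]), mul_zero]
  linarith

end Pool.Agent.MP_39fec4_gt.P4
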