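import Pool.Agent.MP_39fec4_gt.P4Compare
import Pool.Agent.MP_39fec4_gt.Slice

set_option autoImplicit false

namespace Pool.Agent.MP_39fec4_gt.P4

open MeasureTheory Set Filter Topology Module WithLp
open scoped FourierTransform RealInnerProductSpace

/-- The integral of the quartic exponential over the hyperplane orthogonal to `a`. -/
noncomputable def II {n : ℕ} (a : EuclideanSpace ℝ (Fin n)) : ℝ :=
  ∫ y : (ℝ ∙ a)ᗮ, Real.exp (-∑ j, (y : EuclideanSpace ℝ (Fin n)) j ^ 4)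

theorem sum_sq {n : ℕ} {b : EuclideanSpace ℝ (Fin n)} (hb : ‖b‖ = 1) : ∑ j, b j ^ 2 = 1 := by
  rw [← EuclideanSpace.real_norm_sq_eq, hb, one_pow]

theorem II_eq {n : ℕ} (hn : 2 ≤ n) (a : EuclideanSpace ℝ (Fin n)) (ha : ‖a‖ = 1) :
    II a = (2 * mm 0) ^ n / Real.pi * ∫ s in Ioi (0 : ℝ), ∏ j, gg 0 (a j ^ 2 * s ^ 2) := by
  have hi := integrable_prod hn (u := fun j => a j ^ 2) (fun j => sq_nonneg _) (sum_sq ha)
  have hZ := mm_pos 0
  have hπ : 0 < 2 * Real.pi := by positivity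
  have hk : IntegrableOn (fun x : ℝ => Real.exp (-x ^ 4)) (Ioi 0) := by
    simpa [ww] using (show IntegrableOn (fun x => ww 0 x) (Ioi 0) from int_ww 0)
  set P : ℝ → ℝ := fun s => ∏ j, gg 0 (a j ^ 2 * s ^ 2) with hP
  have hF : ∀ w : ℝ, 𝓕 (fun x : EuclideanSpace ℝ (Fin n) =>
      ∏ j, ((Real.exp (-|x j| ^ 4) : ℝ) : ℂ)) (w • a) =
      (((2 * mm 0) ^ n * P |2 * Real.pi * w| : ℝ) : ℂ) := fun w => by
    rw [fourier_prod (fun t => ((Real.exp (-|t| ^ 4) : ℝ) : ℂ))]
    simp_rw [fourier_even hk]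
    rw [← Complex.ofReal_prod, hP]
    congr 1
    rw [← Fin.prod_const, ← Finset.prod_mul_distrib]
    refine Finset.prod_congr rfl fun j _ => ?_
    rw [sq_abs, ← mul_pow, gg0_eq, mul_assoc 2 (mm 0), mul_div_cancel₀ _ hZ.ne']
    simp only [PiLp.smul_apply, smul_eq_mul]
    congr 2; funext x; congr 2; ring
  have iP : Integrable fun w => P |2 * Real.pi * w| :=
    (integrable_comp_abs' hi).comp_mul_left' hπ.ne'
  have := slice a ha (F := fun x : EuclideanSpace ℝ (Fin n) =>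
      ∏ j, ((Real.exp (-|x j| ^ 4) : ℝ) : ℂ))
    (by fun_prop) (C := Real.exp 1 ^ n) (fun x => by
      rw [← Complex.ofReal_prod, Complex.norm_real, Real.norm_eq_abs,
        abs_of_nonneg (Finset.prod_nonneg fun j _ => (Real.exp_pos _).le),
        EuclideanSpace.real_norm_sq_eq, ← Finset.sum_neg_distrib, Real.exp_sum, ← Fin.prod_const,
        ← Finset.prod_mul_distrib]
      refine Finset.prod_le_prod (fun j _ => (Real.exp_pos _).le) fun j _ => ?_
      rw [← Real.exp_add, Real.exp_le_exp, Even.pow_abs (by decide)]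
      nlinarith [sq_nonneg (x j ^ 2 - 1 / 2)])
    (by simp_rw [hF]; exact (iP.const_mul _).ofReal)
  simp_rw [hF, ← Complex.ofReal_prod] at this
  rw [integral_complex_ofReal, integral_complex_ofReal, Complex.ofReal_inj, integral_const_mul,
    Measure.integral_comp_mul_left (fun s => P |s|), integral_comp_abs] at this
  have e : II a = ∫ y : (ℝ ∙ a)ᗮ, ∏ j, Real.exp (-|(y : EuclideanSpace ℝ (Fin n)) j| ^ 4) := by
    unfold II
    congr 1; funext y
    rw [← Finset.sum_neg_distrib, Real.exp_sum]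
    refine Finset.prod_congr rfl fun j _ => ?_
    rw [Even.pow_abs (by decide)]
  rw [e, this, abs_of_pos (inv_pos.2 hπ), smul_eq_mul]
  field_simp

theorem II_lt_four {n : ℕ} (hn : 4 ≤ n) {a d : EuclideanSpace ℝ (Fin n)} (ha : ‖a‖ = 1)
    (hd1 : ‖d‖ = 1) (hd : ∀ j, d j ^ 2 = 1 / n) (hne : ∃ j, a j ^ 2 ≠ 1 / n) : II a < II d := by
  rw [II_eq (by omega) a ha, II_eq (by omega) d hd1]
  have := mm_pos 0
  have := Real.pi_pos
  refine mul_lt_mul_of_pos_left ?_ (by positivity)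
  simp only [hd, Fin.prod_const, one_div_mul_eq_div]
  exact compare hn (fun j => sq_nonneg (a j)) (sum_sq ha) hne

theorem II_congr {n : ℕ} (hn : 2 ≤ n) {a d : EuclideanSpace ℝ (Fin n)} (ha : ‖a‖ = 1)
    (hd : ‖d‖ = 1) (h : ∀ j, a j ^ 2 = d j ^ 2) : II a = II d := by
  rw [II_eq hn a ha, II_eq hn d hd]
  simp only [h]

end Pool.Agent.MP_39fec4_gt.P4
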