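import Mathlib

set_option autoImplicit false

namespace Pool.Agent.MP_39fec4_gt.P4

open MeasureTheory Set Filter Topology

theorem quad_pos {a b c : ℝ} (ha : 0 < a) (hD : 0 < a * c - b ^ 2) (t : ℝ) :
    0 < a * t ^ 2 + 2 * b * t + c :=
  (pos_iff_pos_of_mul_pos (a := a) (by nlinarith [sq_nonneg (a * t + b)])).1 ha

theorem quad_int {a b c r : ℝ} (ha : 0 < a) (hr : 0 < r) (hD : a * c - b ^ 2 = r ^ 2) :
    Integrable (fun t : ℝ => (a * t ^ 2 + 2 * b * t + c)⁻¹) ∧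
      ∫ t : ℝ, (a * t ^ 2 + 2 * b * t + c)⁻¹ = Real.pi / r := by
  have e : (fun t : ℝ => (a * t ^ 2 + 2 * b * t + c)⁻¹) =
      fun t => a / r ^ 2 * (1 + (a / r * (t + b / a)) ^ 2)⁻¹ := by
    funext t
    have h1 := quad_pos ha (hD ▸ pow_pos hr 2) t
    have h2 : 1 + (a / r * (t + b / a)) ^ 2 = a / r ^ 2 * (a * t ^ 2 + 2 * b * t + c) := by
      field_simp; linear_combination -hD
    rw [h2, mul_inv, ← mul_assoc, mul_inv_cancel₀ (by positivity), one_mul]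
  have hne : a / r ≠ 0 := by positivity
  rw [e]
  refine ⟨((integrable_inv_one_add_sq.comp_mul_left' hne).comp_add_right (b / a)).const_mul _, ?_⟩
  rw [integral_const_mul, integral_add_right_eq_self (fun t => (1 + (a / r * t) ^ 2)⁻¹),
    Measure.integral_comp_mul_left (fun t : ℝ => (1 + t ^ 2)⁻¹), integral_univ_inv_one_add_sq,
    abs_of_pos (by positivity), smul_eq_mul]
  field_simp

theorem exists_cross {α β γ : ℝ} (h : α * γ < β ^ 2) : ∃ t, α * t ^ 2 + 2 * β * t + γ = 0 := by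
  rcases eq_or_ne α 0 with rfl | hα
  · have : β ≠ 0 := fun h0 => by simp [h0] at h
    exact ⟨-γ / (2 * β), by field_simp; ring⟩
  · obtain ⟨t, ht⟩ := exists_quadratic_eq_zero (a := α) (b := 2 * β) (c := γ) hα
      ⟨_, (Real.mul_self_sqrt (by unfold discrim; linarith)).symm⟩
    exact ⟨t, by linear_combination ht⟩

theorem polar_ge {a b c a' b' c' : ℝ} (ha : 0 < a) (ha' : 0 < a') (hD : a * c - b ^ 2 = 1)
    (hD' : a' * c' - b' ^ 2 = 1) : 1 ≤ (a * c' + a' * c - 2 * b * b') / 2 := by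
  have : (a * c' + a' * c - 2 * b * b' - 2) * (a * a') = (a - a') ^ 2 + (a * b' - a' * b) ^ 2 := by
    linear_combination a ^ 2 * hD' + a' ^ 2 * hD
  have h2 := nonneg_of_mul_nonneg_left (this.symm ▸ (by positivity) :
    0 ≤ (a * c' + a' * c - 2 * b * b' - 2) * (a * a')) (mul_pos ha ha')
  linarith

theorem two_quad_lt {d a b c a' b' c' h : ℝ} (hd : 0 < d) (ha : 0 < a) (ha' : 0 < a')
    (hD : a * c - b ^ 2 = 1) (hD' : a' * c' - b' ^ 2 = 1)
    (hh : h = (a * c' + a' * c - 2 * b * b') / 2) (hs : 1 ≤ 2 * d ^ 2 * (1 + h))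
    (hst : 1 < 2 * d ^ 2 * (1 + h) ∨ 1 < h) :
    ∫ t : ℝ, (√(d * ((a * t ^ 2 + 2 * b * t + c) * (a' * t ^ 2 + 2 * b' * t + c'))))⁻¹ <
      Real.pi * √2 := by
  have h1 : 1 ≤ h := hh ▸ polar_ge ha ha' hD hD'
  have hπ := Real.pi_pos
  obtain ⟨r, hr, hr2⟩ : ∃ r : ℝ, 0 < r ∧ r ^ 2 = (1 + h) / 2 :=
    ⟨√((1 + h) / 2), by positivity, Real.sq_sqrt (by positivity)⟩
  obtain ⟨q, hq, hq2, hq3⟩ : ∃ q : ℝ, 0 < q ∧ q ^ 2 = 2 ∧ √2 = q :=
    ⟨√2, by positivity, Real.sq_sqrt (by positivity), rfl⟩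
  have e0 : (2 * r * d) ^ 2 = 2 * d ^ 2 * (1 + h) := by linear_combination 4 * d ^ 2 * hr2
  have hrd : 1 ≤ 2 * r * d := by
    refine (pow_le_pow_iff_left₀ (by positivity) (by positivity) two_ne_zero).1 ?_
    rw [e0]; linarith
  obtain ⟨i1, e1⟩ := quad_int ha one_pos (hD.trans (one_pow 2).symm)
  obtain ⟨i2, e2⟩ := quad_int ha' one_pos (hD'.trans (one_pow 2).symm)
  have hDQ : (a + a') / 2 * ((c + c') / 2) - ((b + b') / 2) ^ 2 = r ^ 2 := by
    rw [hr2, hh]; linear_combination hD / 4 + hD' / 4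
  obtain ⟨i3, e3⟩ := quad_int (by positivity) hr hDQ
  have p1 := quad_pos ha (hD ▸ one_pos)
  have p2 := quad_pos ha' (hD' ▸ one_pos)
  have p3 := quad_pos (a := (a + a') / 2) (by positivity) (hDQ ▸ pow_pos hr 2)
  set P : ℝ → ℝ := fun t => a * t ^ 2 + 2 * b * t + c with hP
  set P' : ℝ → ℝ := fun t => a' * t ^ 2 + 2 * b' * t + c' with hP'
  set Q : ℝ → ℝ := fun t => (a + a') / 2 * t ^ 2 + 2 * ((b + b') / 2) * t + (c + c') / 2 with hQ
  have hQP : ∀ t, Q t = (P t + P' t) / 2 := fun t => by simp only [hP, hP', hQ]; ring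
  change ∀ t, 0 < P t at p1
  change ∀ t, 0 < P' t at p2
  change ∀ t, 0 < Q t at p3
  change Integrable fun t => (P t)⁻¹ at i1
  change Integrable fun t => (P' t)⁻¹ at i2
  change Integrable fun t => (Q t)⁻¹ at i3
  change ∫ t, (P t)⁻¹ = _ at e1
  change ∫ t, (P' t)⁻¹ = _ at e2
  change ∫ t, (Q t)⁻¹ = _ at e3
  change ∫ t, (√(d * (P t * P' t)))⁻¹ < _
  have hw : ∀ t, 0 < √(d * (P t * P' t)) := fun t => by have := p1 t; have := p2 t; positivity
  have hw2 : ∀ t, √(d * (P t * P' t)) ^ 2 = d * (P t * P' t) := fun t =>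
    Real.sq_sqrt (by have := p1 t; have := p2 t; positivity)
  have key : ∀ t, (q * r / 2 * (Q t)⁻¹ + (4 * q * r * d)⁻¹ * ((P t)⁻¹ + (P' t)⁻¹)) -
      (√(d * (P t * P' t)))⁻¹ = (q * r * √(d * (P t * P' t)) - Q t) ^ 2 /
        (2 * q * r * Q t * √(d * (P t * P' t)) ^ 2) := fun t => by
    have e : (4 * q * r * d)⁻¹ * ((P t)⁻¹ + (P' t)⁻¹) =
        Q t / (2 * q * r * √(d * (P t * P' t)) ^ 2) := by
      have := p1 t; have := p2 t
      rw [hw2, hQP]; field_simp; ring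
    have h5 := hw t
    have := p3 t
    rw [e]
    generalize √(d * (P t * P' t)) = w at h5
    field_simp; ring
  have i12 : Integrable fun t => (P t)⁻¹ + (P' t)⁻¹ := i1.add i2
  have iB : Integrable fun t => q * r / 2 * (Q t)⁻¹ + (4 * q * r * d)⁻¹ * ((P t)⁻¹ + (P' t)⁻¹) :=
    (i3.const_mul _).add (i12.const_mul _)
  have cP : Continuous P := by fun_prop
  have cP' : Continuous P' := by fun_prop
  have cQ : Continuous Q := by fun_prop
  have cK : Continuous fun t => (√(d * (P t * P' t)))⁻¹ :=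
    Continuous.inv₀ (by fun_prop) fun t => (hw t).ne'
  have nG : ∀ t, 0 ≤ (q * r / 2 * (Q t)⁻¹ + (4 * q * r * d)⁻¹ * ((P t)⁻¹ + (P' t)⁻¹)) -
      (√(d * (P t * P' t)))⁻¹ := fun t => by rw [key]; have := p3 t; positivity
  have iK : Integrable fun t => (√(d * (P t * P' t)))⁻¹ :=
    iB.mono' cK.aestronglyMeasurable (Eventually.of_forall fun t => by
      rw [Real.norm_eq_abs, abs_of_pos (inv_pos.2 (hw t))]; linarith [nG t])
  have eG : ∫ t, ((q * r / 2 * (Q t)⁻¹ + (4 * q * r * d)⁻¹ * ((P t)⁻¹ + (P' t)⁻¹)) -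
      (√(d * (P t * P' t)))⁻¹) = Real.pi * q / 2 + Real.pi * q / 2 / (2 * r * d) -
        ∫ t, (√(d * (P t * P' t)))⁻¹ := by
    rw [integral_sub iB iK, integral_add (i3.const_mul _) (i12.const_mul _),
      integral_const_mul, integral_const_mul, integral_add i1 i2, e1, e2, e3]
    congr 1
    field_simp
    linear_combination (-4) * hq2
  have hle : Real.pi * q / 2 / (2 * r * d) ≤ Real.pi * q / 2 := div_le_self (by positivity) hrd
  rw [hq3]
  rcases hst with hst | hst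
  · have : 1 < 2 * r * d := by
      refine lt_of_pow_lt_pow_left₀ 2 (by positivity) ?_; rw [e0]; linarith
    have h2 := div_lt_self (a := Real.pi * q / 2) (by positivity) this
    have h3 : 0 ≤ Real.pi * q / 2 + Real.pi * q / 2 / (2 * r * d) -
        ∫ t, (√(d * (P t * P' t)))⁻¹ := by rw [← eG]; exact integral_nonneg nG
    linarith
  · obtain ⟨t, ht⟩ := exists_cross (α := a - a') (β := b - b') (γ := c - c') (by linarith)
    have e4 : P' t = P t := by simp only [hP, hP']; linarith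
    have e5 : Q t = P t := by rw [hQP, e4]; ring
    have hr1 : 1 < r := by
      refine lt_of_pow_lt_pow_left₀ 2 (by positivity) ?_; linarith
    have h3 := integral_pos_of_integrable_nonneg_nonzero (μ := volume) (x := t)
      (((continuous_const.mul (cQ.inv₀ fun t => (p3 t).ne')).add (continuous_const.mul
        ((cP.inv₀ fun t => (p1 t).ne').add (cP'.inv₀ fun t => (p2 t).ne')))).sub cK)
      (iB.sub iK) nG (by
        have h4 := key t
        have h5 := hw2 t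
        have h6 := hw t
        have h7 := p3 t
        refine ne_of_eq_of_ne h4 (div_ne_zero (pow_ne_zero 2 fun h0 => ?_) (by positivity))
        have h8 : (q * r * √(d * (P t * P' t))) ^ 2 = Q t ^ 2 := by rw [sub_eq_zero.1 h0]
        rw [mul_pow, mul_pow, h5, hq2, e4, ← e5] at h8
        have h9 : (2 * r ^ 2 * d - 1) * Q t ^ 2 = 0 := by linear_combination h8
        have h10 : 0 < 2 * r ^ 2 * d - 1 := by
          linarith [mul_le_mul_of_nonneg_left hrd hr.le]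
        exact absurd h9 (by positivity))
    have h4 := h3.trans_eq eG
    linarith

theorem factor {A B C D E : ℝ} (hA : 0 < A)
    (hpos : ∀ t : ℝ, 0 < A * t ^ 4 + 4 * B * t ^ 3 + 6 * C * t ^ 2 + 4 * D * t + E) :
    ∃ d a b c a' b' c' : ℝ, 0 < d ∧ 0 < a ∧ 0 < a' ∧ a * c - b ^ 2 = 1 ∧ a' * c' - b' ^ 2 = 1 ∧
      A = d * (a * a') ∧ B = d * (a * b' + a' * b) / 2 ∧
      C = d * (a * c' + 4 * b * b' + a' * c) / 6 ∧ D = d * (b * c' + b' * c) / 2 ∧
      E = d * (c * c') := by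
  obtain ⟨z, hz⟩ : ∃ z : ℂ, A * z ^ 4 + 4 * B * z ^ 3 + 6 * C * z ^ 2 + 4 * D * z + E = 0 := by
    obtain ⟨z, hz⟩ := Complex.exists_root (f := Polynomial.C (A : ℂ) * Polynomial.X ^ 4 +
      Polynomial.C (4 * B : ℂ) * Polynomial.X ^ 3 + Polynomial.C (6 * C : ℂ) * Polynomial.X ^ 2 +
      Polynomial.C (4 * D : ℂ) * Polynomial.X + Polynomial.C (E : ℂ))
      (lt_of_lt_of_eq (b := 4) (by norm_num) (Eq.symm (by compute_degree!; exact hA.ne')))
    exact ⟨z, by simpa using hz⟩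
  obtain ⟨x, y0, rfl⟩ : ∃ x y : ℝ, z = x + y * Complex.I := ⟨_, _, (Complex.re_add_im z).symm⟩
  have hy0 : y0 ≠ 0 := by
    rintro rfl
    have : A * x ^ 4 + 4 * B * x ^ 3 + 6 * C * x ^ 2 + 4 * D * x + E = 0 := by
      simp only [Complex.ofReal_zero, zero_mul, add_zero] at hz
      exact_mod_cast hz
    exact (hpos x).ne' this
  obtain ⟨B', hB'⟩ : ∃ B', B' = 4 * B + 2 * x * A := ⟨_, rfl⟩
  obtain ⟨C', hC'⟩ : ∃ C', C' = 6 * C + 2 * x * B' - (x ^ 2 + y0 ^ 2) * A := ⟨_, rfl⟩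
  obtain ⟨R, hR⟩ : ∃ R, R = 4 * D + 2 * x * C' - (x ^ 2 + y0 ^ 2) * B' := ⟨_, rfl⟩
  obtain ⟨S, hS⟩ : ∃ S, S = E - (x ^ 2 + y0 ^ 2) * C' := ⟨_, rfl⟩
  have hRS : (R : ℂ) * (x + y0 * Complex.I) + S = 0 := by
    rw [← hz, hS, hR, hC', hB']
    push_cast
    linear_combination (-(y0 : ℂ) ^ 2 * (A * (x + y0 * Complex.I) ^ 2 +
      (4 * B + 2 * x * A) * (x + y0 * Complex.I) + (6 * C + 2 * x * (4 * B + 2 * x * A) -
        (x ^ 2 + y0 ^ 2) * A))) * Complex.I_sq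
  have hR0 : R = 0 := by simpa [hy0] using congrArg Complex.im hRS
  have hS0 : S = 0 := by simpa [hR0] using hRS
  have hfac : ∀ t : ℝ, A * t ^ 4 + 4 * B * t ^ 3 + 6 * C * t ^ 2 + 4 * D * t + E =
      ((t - x) ^ 2 + y0 ^ 2) * (A * t ^ 2 + B' * t + C') := fun t => by
    linear_combination -t ^ 3 * hB' - t ^ 2 * hC' - t * hR - hS + t * hR0 + hS0
  obtain ⟨y, hy, hy2⟩ : ∃ y : ℝ, 0 < y ∧ y0 ^ 2 = y ^ 2 := ⟨|y0|, abs_pos.2 hy0, (sq_abs _).symm⟩
  rw [hy2] at hC' hR hS hfac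
  have hdisc : 0 < A * C' - B' ^ 2 / 4 := by
    have h1 := hpos (-B' / (2 * A))
    rw [hfac] at h1
    have h2 := (pos_iff_pos_of_mul_pos h1).1 (by positivity)
    have h3 : A * C' - B' ^ 2 / 4 = A * (A * (-B' / (2 * A)) ^ 2 + B' * (-B' / (2 * A)) + C') := by
      field_simp; ring
    rw [h3]; positivity
  obtain ⟨w, hw, hw2⟩ : ∃ w : ℝ, 0 < w ∧ w ^ 2 = A * C' - B' ^ 2 / 4 :=
    ⟨_, Real.sqrt_pos.2 hdisc, Real.sq_sqrt hdisc.le⟩
  refine ⟨y * w, 1 / y, -x / y, (x ^ 2 + y ^ 2) / y, A / w, B' / 2 / w, C' / w, by positivity,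
    by positivity, by positivity, by field_simp; ring, by field_simp; linarith, by field_simp,
    ?_, ?_, ?_, ?_⟩ <;> field_simp <;> linarith

theorem quartic_lt {A B C D E I J : ℝ} (hA : 0 < A)
    (hpos : ∀ t : ℝ, 0 < A * t ^ 4 + 4 * B * t ^ 3 + 6 * C * t ^ 2 + 4 * D * t + E)
    (hI : A * E - 4 * B * D + 3 * C ^ 2 = I)
    (hJ : A * C * E + 2 * B * C * D - A * D ^ 2 - B ^ 2 * E - C ^ 3 = J) (hI3 : 1 / 3 < I)
    (hJ0 : 0 ≤ J) (hS : (1 - 2 * I) * (1 + I) ≤ 12 * J) :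
    ∫ t : ℝ, (√(A * t ^ 4 + 4 * B * t ^ 3 + 6 * C * t ^ 2 + 4 * D * t + E))⁻¹ < Real.pi * √2 := by
  obtain ⟨d, a, b, c, a', b', c', hd, ha, ha', hD, hD', rfl, rfl, rfl, rfl, rfl⟩ := factor hA hpos
  obtain ⟨h, hh⟩ : ∃ h, h = (a * c' + a' * c - 2 * b * b') / 2 := ⟨_, rfl⟩
  have h1 : 1 ≤ h := hh ▸ polar_ge ha ha' hD hD'
  have eI : I = d ^ 2 * (1 + h ^ 2 / 3) := by
    have : I = d ^ 2 * ((a * c - b ^ 2) * (a' * c' - b' ^ 2) + h ^ 2 / 3) := by rw [← hI, hh]; ring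
    rw [this, hD, hD', one_mul]
  have eJ : J = d ^ 3 * (h * (9 - h ^ 2) / 27) := by
    have : J = d ^ 3 * (h * (9 * ((a * c - b ^ 2) * (a' * c' - b' ^ 2)) - h ^ 2) / 27) := by
      rw [← hJ, hh]; ring
    rw [this, hD, hD', one_mul, mul_one]
  have hs : 1 ≤ 2 * d ^ 2 * (1 + h) := by
    by_contra! hs
    obtain ⟨y, hy⟩ : ∃ y, y = d * (3 + h) / 6 := ⟨_, rfl⟩
    have hy0 : 0 < y := by rw [hy]; positivity
    have e1 : 2 * d ^ 2 * (1 + h) = 12 * y ^ 2 - I := by rw [hy, eI]; ring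
    have e2 : 3 * J = y * (12 * y ^ 2 - 3 * I) := by rw [hy, eI, eJ]; ring
    have h2 : 0 ≤ 12 * y ^ 2 - 3 * I := nonneg_of_mul_nonneg_right (by linarith) hy0
    have h3 : 0 < 1 - 2 * I := by linarith
    have h4 : (1 - 2 * I) * (1 + I) < (1 - 2 * I) * (4 * y) := by
      linarith [mul_lt_mul_of_pos_left (show 12 * y ^ 2 - 3 * I < 1 - 2 * I by linarith) hy0]
    have h5 := lt_of_mul_lt_mul_left h4 h3.le
    linarith [mul_lt_mul_of_pos_left h5 hy0, mul_lt_mul_of_pos_left (show 1 / 3 < y by linarith)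
      (show 0 < 1 + I by linarith)]
  have := two_quad_lt hd ha ha' hD hD' hh hs (by
    rcases h1.eq_or_lt with h2 | h2
    · left; rw [← h2] at eI ⊢; linarith
    · exact Or.inr h2)
  refine lt_of_eq_of_lt ?_ this
  congr 1; funext t; congr 2; ring

end Pool.Agent.MP_39fec4_gt.P4
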