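import Pool.Agent.MP_39fec4_gt.P4Fourier
import Pool.Agent.MP_39fec4_gt.P4Quartic

set_option autoImplicit false

namespace Pool.Agent.MP_39fec4_gt.P4

open MeasureTheory Set Filter Topology Module WithLp
open scoped RealInnerProductSpace

theorem exists_frame {n m : ℕ} (hnm : n = m + 1) (a : EuclideanSpace ℝ (Fin n)) (ha : ‖a‖ = 1) :
    ∃ v : Fin m → Fin n → ℝ, (∀ i, ∑ j, a j * v i j = 0) ∧ (∀ i, ∑ j, v i j ^ 2 = 1) ∧
      (∀ i k, i ≠ k → ∑ j, v i j * v k j = 0) ∧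
      II a = ∫ x : Fin m → ℝ, Real.exp (-∑ j, (∑ i, x i * v i j) ^ 4) := by
  subst hnm
  have ha0 : a ≠ 0 := fun h => by simp [h] at ha
  have : Fact (finrank ℝ (EuclideanSpace ℝ (Fin (m + 1))) = m + 1) := ⟨by simp⟩
  let v := OrthonormalBasis.fromOrthogonalSpanSingleton (𝕜 := ℝ) m ha0
  refine ⟨fun i j => (v i : EuclideanSpace ℝ (Fin (m + 1))) j, fun i => ?_, fun i => ?_,
    fun i k h => ?_, ?_⟩
  · have := Submodule.mem_orthogonal_singleton_iff_inner_right.1 (v i).2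
    simpa [PiLp.inner_apply, mul_comm] using this
  · exact sum_sq (v.orthonormal.1 i)
  · have := v.orthonormal.2 h
    simpa [Submodule.coe_inner, PiLp.inner_apply, mul_comm] using this
  · have h1 := v.measurePreserving_repr_symm.comp (PiLp.volume_preserving_toLp (Fin m))
    rw [II, ← h1.integral_comp (v.repr.symm.toHomeomorph.measurableEmbedding.comp
      (MeasurableEquiv.toLp 2 _).measurableEmbedding)]
    congr 1; funext x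
    simp [← v.sum_repr_symm]

theorem II_two (a : EuclideanSpace ℝ (Fin 2)) (ha : ‖a‖ = 1) :
    II a = 2 * ((a 0 ^ 4 + a 1 ^ 4) ^ (-1 / 4 : ℝ) * Real.Gamma (1 / 4 + 1)) := by
  obtain ⟨v, h1, h2, -, h3⟩ := exists_frame (n := 2) (m := 1) rfl a ha
  have h4 := sum_sq ha
  have h5 := h1 0
  have h6 := h2 0
  simp only [Fin.sum_univ_two] at h4 h5 h6
  have e0 : v 0 0 ^ 2 = a 1 ^ 2 := by
    linear_combination (-v 0 0 ^ 2) * h4 + a 1 ^ 2 * h6 + (a 0 * v 0 0 - a 1 * v 0 1) * h5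
  have e1 : v 0 1 ^ 2 = a 0 ^ 2 := by linarith
  have hB : 0 < a 0 ^ 4 + a 1 ^ 4 := by nlinarith [sq_nonneg (a 0 ^ 2 - a 1 ^ 2)]
  rw [h3, ← integral_exp_neg_mul_rpow (by norm_num) hB,
    ← integral_comp_abs (f := fun x => Real.exp (-(a 0 ^ 4 + a 1 ^ 4) * x ^ (4 : ℝ))),
    ← (volume_preserving_funUnique (Fin 1) ℝ).integral_comp']
  congr 1; funext x
  have : |x 0| ^ (4 : ℝ) = x 0 ^ 4 := by
    rw [← Even.pow_abs (by decide : Even 4), ← Real.rpow_natCast]; norm_num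
  simp only [Fin.sum_univ_two, Fin.sum_univ_one, MeasurableEquiv.funUnique_apply,
    Fin.default_eq_zero, this]
  congr 1
  linear_combination -x 0 ^ 4 * ((v 0 0 ^ 2 + a 1 ^ 2) * e0 + (v 0 1 ^ 2 + a 0 ^ 2) * e1)

theorem II_lt_two {a d : EuclideanSpace ℝ (Fin 2)} (ha : ‖a‖ = 1) (hd1 : ‖d‖ = 1)
    (hd : ∀ j, d j ^ 2 = 1 / (2 : ℕ)) (hne : ∃ j, a j ^ 2 ≠ 1 / (2 : ℕ)) : II a < II d := by
  rw [II_two a ha, II_two d hd1]
  have h4 := sum_sq ha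
  simp only [Fin.sum_univ_two] at h4
  have h1 : d 0 ^ 4 + d 1 ^ 4 = 1 / 2 := by
    rw [show d 0 ^ 4 + d 1 ^ 4 = (d 0 ^ 2) ^ 2 + (d 1 ^ 2) ^ 2 by ring, hd, hd]; norm_num
  have h2 : a 0 ^ 2 - a 1 ^ 2 ≠ 0 := fun h => by
    obtain ⟨j, hj⟩ := hne
    fin_cases j <;> apply hj <;> simp <;> linarith
  have h3 : 1 / 2 < a 0 ^ 4 + a 1 ^ 4 := by nlinarith [pow_pos (abs_pos.2 h2) 2, sq_abs (a 0 ^ 2 - a 1 ^ 2)]
  have := Real.Gamma_pos_of_pos (s := 1 / 4 + 1) (by norm_num)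
  rw [h1]
  gcongr 2 * (?_ * _)
  exact Real.rpow_lt_rpow_of_neg (by norm_num) h3 (by norm_num)

theorem plane_int {f : ℝ × ℝ → ℝ} {F : ℝ → ℝ} (hF : Continuous F) (hF0 : ∀ t, 0 < F t)
    (hf : ∀ t y, f (t * y, y) = y ^ 4 * F t) (hi : Integrable fun z => Real.exp (-f z)) :
    ∫ z, Real.exp (-f z) = Real.Gamma (1 / 2) / 2 * ∫ t, (√(F t))⁻¹ := by
  have hy : ∀ᵐ y : ℝ, y ≠ 0 := by simp [ae_iff]
  have e1 : ∀ y : ℝ, y ≠ 0 → ∫ t, |y| * Real.exp (-(y ^ 4 * F t)) = ∫ x, Real.exp (-f (x, y)) :=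
    fun y hy => by
      have := Measure.integral_comp_mul_right (fun x => Real.exp (-f (x, y))) y
      simp only [hf] at this
      rw [integral_const_mul, this, smul_eq_mul, ← mul_assoc, ← abs_mul, mul_inv_cancel₀ hy]
      simp
  have i2 : Integrable (Function.uncurry fun y t : ℝ => |y| * Real.exp (-(y ^ 4 * F t)))
      (volume.prod volume) := by
    refine (integrable_prod_iff (Continuous.aestronglyMeasurable (by fun_prop))).2 ⟨?_, ?_⟩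
    · filter_upwards [hy, hi.prod_left_ae] with y hy h
      simpa only [hf, Function.uncurry] using (h.comp_mul_right' hy).const_mul |y|
    · refine hi.integral_prod_right.congr ?_
      filter_upwards [hy] with y hy
      rw [← e1 y hy]
      congr 1; funext t
      exact (Real.norm_of_nonneg (by positivity)).symm
  rw [Measure.volume_eq_prod, integral_prod_symm _ hi,
    ← integral_congr_ae (hy.mono fun y hy => e1 y hy), integral_integral_swap i2,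
    ← integral_const_mul]
  congr 1; funext t
  have h1 := integral_rpow_mul_exp_neg_mul_rpow (p := 4) (q := 1) (by norm_num) (by norm_num)
    (hF0 t)
  have h2 := integral_comp_abs (f := fun x => x ^ (1 : ℝ) * Real.exp (-F t * x ^ (4 : ℝ)))
  have h3 : ∀ y : ℝ, |y| ^ (1 : ℝ) * Real.exp (-F t * |y| ^ (4 : ℝ)) =
      |y| * Real.exp (-(y ^ 4 * F t)) := fun y => by
    have : |y| ^ (4 : ℝ) = y ^ 4 := by
      rw [← Even.pow_abs (by decide : Even 4), ← Real.rpow_natCast]; norm_num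
    rw [this, Real.rpow_one]; congr 2; ring
  simp only [h3] at h2
  rw [h2, h1, Real.sqrt_eq_rpow, ← Real.rpow_neg (hF0 t).le]
  norm_num
  ring

theorem four_low (p q r : ℝ) : (p ^ 2 + q ^ 2 + r ^ 2) ^ 2 / 3 ≤ p ^ 4 + q ^ 4 + r ^ 4 := by
  nlinarith [sq_nonneg (p ^ 2 - q ^ 2), sq_nonneg (p ^ 2 - r ^ 2), sq_nonneg (q ^ 2 - r ^ 2)]

theorem schur_four {u v w : ℝ} (h : u + v + w = 1) :
    (1 - 2 * (u ^ 2 + v ^ 2 + w ^ 2)) * (1 + (u ^ 2 + v ^ 2 + w ^ 2)) ≤ 12 * (u * v * w) := by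
  obtain rfl : w = 1 - u - v := by linarith
  linarith [sq_nonneg ((u - v) * (u + v - (1 - u - v))),
    sq_nonneg ((v - (1 - u - v)) * (v + (1 - u - v) - u)),
    sq_nonneg (((1 - u - v) - u) * ((1 - u - v) + u - v))]

theorem II_three (a : EuclideanSpace ℝ (Fin 3)) (ha : ‖a‖ = 1) :
    ∃ b c : Fin 3 → ℝ, a 0 * b 0 + a 1 * b 1 + a 2 * b 2 = 0 ∧
      a 0 * c 0 + a 1 * c 1 + a 2 * c 2 = 0 ∧ b 0 ^ 2 + b 1 ^ 2 + b 2 ^ 2 = 1 ∧
      c 0 ^ 2 + c 1 ^ 2 + c 2 ^ 2 = 1 ∧ b 0 * c 0 + b 1 * c 1 + b 2 * c 2 = 0 ∧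
      (∀ t : ℝ, 0 < (t * b 0 + c 0) ^ 4 + (t * b 1 + c 1) ^ 4 + (t * b 2 + c 2) ^ 4) ∧
      II a = Real.Gamma (1 / 2) / 2 *
        ∫ t : ℝ, (√((t * b 0 + c 0) ^ 4 + (t * b 1 + c 1) ^ 4 + (t * b 2 + c 2) ^ 4))⁻¹ := by
  obtain ⟨v, h1, h2, h3, h4⟩ := exists_frame (n := 3) (m := 2) rfl a ha
  have h5 := h1 0
  have h6 := h1 1
  have h7 := h2 0
  have h8 := h2 1
  have h9 := h3 0 1 (by decide)
  simp only [Fin.sum_univ_three] at h5 h6 h7 h8 h9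
  have hsq : ∀ x y : ℝ, (x * v 0 0 + y * v 1 0) ^ 2 + (x * v 0 1 + y * v 1 1) ^ 2 +
      (x * v 0 2 + y * v 1 2) ^ 2 = x ^ 2 + y ^ 2 := fun x y => by
    linear_combination x ^ 2 * h7 + y ^ 2 * h8 + 2 * x * y * h9
  have hlow := four_low
  have hpos : ∀ t : ℝ, 0 < (t * v 0 0 + v 1 0) ^ 4 + (t * v 0 1 + v 1 1) ^ 4 +
      (t * v 0 2 + v 1 2) ^ 4 := fun t => by
    have := hsq t 1
    simp only [one_mul] at this
    refine lt_of_lt_of_le ?_ (hlow _ _ _)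
    rw [this]; positivity
  refine ⟨v 0, v 1, h5, h6, h7, h8, h9, hpos, ?_⟩
  rw [h4, ← plane_int (f := fun z => (z.1 * v 0 0 + z.2 * v 1 0) ^ 4 +
    (z.1 * v 0 1 + z.2 * v 1 1) ^ 4 + (z.1 * v 0 2 + z.2 * v 1 2) ^ 4) (by fun_prop) hpos
    (fun t y => by ring) ?_, ← (volume_preserving_finTwoArrow ℝ).integral_comp']
  · simp [Fin.sum_univ_three, Fin.sum_univ_two]
  · have i1 := integrable_exp_neg_mul_sq (b := 1) one_pos
    refine ((i1.mul_prod i1).const_mul (Real.exp 1)).mono'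
      (Continuous.aestronglyMeasurable (by fun_prop)) (Eventually.of_forall fun z => ?_)
    rw [Real.norm_of_nonneg (Real.exp_pos _).le, ← Real.exp_add, ← Real.exp_add, Real.exp_le_exp]
    have h10 := hlow (z.1 * v 0 0 + z.2 * v 1 0) (z.1 * v 0 1 + z.2 * v 1 1)
      (z.1 * v 0 2 + z.2 * v 1 2)
    rw [hsq] at h10
    linarith [sq_nonneg (z.1 ^ 2 + z.2 ^ 2 - 3 / 2)]

theorem II_lt_three {a d : EuclideanSpace ℝ (Fin 3)} (ha : ‖a‖ = 1) (hd1 : ‖d‖ = 1)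
    (hd : ∀ j, d j ^ 2 = 1 / (3 : ℕ)) (hne : ∃ j, a j ^ 2 ≠ 1 / (3 : ℕ)) : II a < II d := by
  have hG := Real.Gamma_pos_of_pos (s := 1 / 2) (by norm_num)
  have eD : II d = Real.Gamma (1 / 2) / 2 * (Real.pi * √2) := by
    obtain ⟨b, c, h1, h2, h3, h4, h5, -, h6⟩ := II_three d hd1
    rw [h6, ← integral_univ_inv_one_add_sq, ← integral_mul_const]
    congr 2; funext t
    have d0 := hd 0
    have d1 := hd 1
    have d2 := hd 2
    have e : (t * b 0 + c 0) ^ 4 + (t * b 1 + c 1) ^ 4 + (t * b 2 + c 2) ^ 4 =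
        (1 + t ^ 2) ^ 2 / 2 := by
      obtain ⟨p, hp⟩ : ∃ p, p = t * b 0 + c 0 := ⟨_, rfl⟩
      obtain ⟨q, hq⟩ : ∃ q, q = t * b 1 + c 1 := ⟨_, rfl⟩
      obtain ⟨r, hr⟩ : ∃ r, r = t * b 2 + c 2 := ⟨_, rfl⟩
      have e1 : 1 + t ^ 2 = p ^ 2 + q ^ 2 + r ^ 2 := by
        rw [hp, hq, hr]; linear_combination -t ^ 2 * h3 - h4 - 2 * t * h5
      have e2 : d 2 * r = -(d 0 * p + d 1 * q) := by
        rw [hp, hq, hr]; linear_combination t * h1 + h2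
      have e3 : (d 0 * p) ^ 4 + (d 1 * q) ^ 4 + (d 2 * r) ^ 4 =
          ((d 0 * p) ^ 2 + (d 1 * q) ^ 2 + (d 2 * r) ^ 2) ^ 2 / 2 := by rw [e2]; ring
      simp only [mul_pow, show ∀ x : ℝ, x ^ 4 = (x ^ 2) ^ 2 from fun x => by ring, d0, d1, d2]
        at e3
      rw [← hp, ← hq, ← hr, e1]
      push_cast at e3
      linear_combination 9 * e3
    rw [e, Real.sqrt_div (by positivity), Real.sqrt_sq (by positivity), inv_div, div_eq_inv_mul]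
  obtain ⟨b, c, h1, h2, h3, h4, h5, hpos, h6⟩ := II_three a ha
  rw [eD, h6]
  refine mul_lt_mul_of_pos_left ?_ (by positivity)
  have h0 := sum_sq ha
  simp only [Fin.sum_univ_three] at h0
  obtain ⟨x, hx⟩ : ∃ x, x = b 1 * c 2 - b 2 * c 1 := ⟨_, rfl⟩
  obtain ⟨y, hy⟩ : ∃ y, y = b 2 * c 0 - b 0 * c 2 := ⟨_, rfl⟩
  obtain ⟨z, hz⟩ : ∃ z, z = b 0 * c 1 - b 1 * c 0 := ⟨_, rfl⟩
  have hw : x ^ 2 + y ^ 2 + z ^ 2 = 1 := by
    rw [hx, hy, hz]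
    linear_combination (c 0 ^ 2 + c 1 ^ 2 + c 2 ^ 2) * h3 + h4 -
      (b 0 * c 0 + b 1 * c 1 + b 2 * c 2) * h5
  have exy : a 0 * y = a 1 * x := by rw [hx, hy]; linear_combination b 2 * h2 - c 2 * h1
  have eyz : a 1 * z = a 2 * y := by rw [hz, hy]; linear_combination b 0 * h2 - c 0 * h1
  have ezx : a 2 * x = a 0 * z := by rw [hx, hz]; linear_combination b 1 * h2 - c 1 * h1
  have ex : x ^ 2 = a 0 ^ 2 := by
    linear_combination -x ^ 2 * h0 + a 0 ^ 2 * hw - (a 0 * y + a 1 * x) * exy +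
      (a 2 * x + a 0 * z) * ezx
  have ey : y ^ 2 = a 1 ^ 2 := by
    linear_combination -y ^ 2 * h0 + a 1 ^ 2 * hw + (a 0 * y + a 1 * x) * exy -
      (a 1 * z + a 2 * y) * eyz
  have ez : z ^ 2 = a 2 ^ 2 := by linarith
  obtain ⟨u, hu⟩ : ∃ u, u = a 0 ^ 2 := ⟨_, rfl⟩
  obtain ⟨v, hv⟩ : ∃ v, v = a 1 ^ 2 := ⟨_, rfl⟩
  obtain ⟨w, hw'⟩ : ∃ w, w = a 2 ^ 2 := ⟨_, rfl⟩
  have hne' : 0 < (u - 1 / 3) ^ 2 + (v - 1 / 3) ^ 2 + (w - 1 / 3) ^ 2 := by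
    obtain ⟨j, hj⟩ := hne
    have := Finset.sum_pos' (s := Finset.univ) (f := fun j => (a j ^ 2 - 1 / (3 : ℕ)) ^ 2)
      (fun _ _ => sq_nonneg _) ⟨j, Finset.mem_univ _, sq_pos_of_ne_zero (sub_ne_zero.2 hj)⟩
    rw [Fin.sum_univ_three] at this
    rw [hu, hv, hw']
    simpa only [Nat.cast_ofNat] using this
  have hJ0 : 0 ≤ u * v * w := by rw [hu, hv, hw']; positivity
  rw [← hu] at ex h0; rw [← hv] at ey h0; rw [← hw'] at ez h0
  have e : ∀ t : ℝ, (t * b 0 + c 0) ^ 4 + (t * b 1 + c 1) ^ 4 + (t * b 2 + c 2) ^ 4 =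
      (b 0 ^ 4 + b 1 ^ 4 + b 2 ^ 4) * t ^ 4 +
      4 * (b 0 ^ 3 * c 0 + b 1 ^ 3 * c 1 + b 2 ^ 3 * c 2) * t ^ 3 +
      6 * (b 0 ^ 2 * c 0 ^ 2 + b 1 ^ 2 * c 1 ^ 2 + b 2 ^ 2 * c 2 ^ 2) * t ^ 2 +
      4 * (b 0 * c 0 ^ 3 + b 1 * c 1 ^ 3 + b 2 * c 2 ^ 3) * t + (c 0 ^ 4 + c 1 ^ 4 + c 2 ^ 4) :=
    fun t => by ring
  simp only [e] at hpos ⊢
  refine quartic_lt (I := u ^ 2 + v ^ 2 + w ^ 2) (J := u * v * w) ?_ hpos ?_ ?_ ?_ hJ0 ?_
  · exact lt_of_lt_of_le (by rw [h3]; norm_num) (four_low _ _ _)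
  · rw [← ex, ← ey, ← ez, hx, hy, hz]; ring
  · rw [← ex, ← ey, ← ez, hx, hy, hz]; ring
  · linarith [show (u - 1 / 3) ^ 2 + (v - 1 / 3) ^ 2 + (w - 1 / 3) ^ 2 =
      u ^ 2 + v ^ 2 + w ^ 2 - 2 / 3 * (u + v + w) + 1 / 3 by ring]
  · exact schur_four h0

end Pool.Agent.MP_39fec4_gt.P4
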