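import Pool.Agent.MP_39fec4_gt.Defs
import Pool.Agent.MP_39fec4_gt.P4Low

set_option autoImplicit false

namespace Pool.Agent.MP_39fec4_gt.P4

open MeasureTheory Set Filter Topology Module WithLp
open scoped RealInnerProductSpace

theorem section_eq' {p : ℝ} (hp : 1 ≤ p) {n : ℕ} (hn : 2 ≤ n) (a : EuclideanSpace ℝ (Fin n))
    (ha : ‖a‖ = 1) : sectionVol p a = ENNReal.ofReal
      ((∫ y : (ℝ ∙ a)ᗮ, ∏ j, Real.exp (-|(y : EuclideanSpace ℝ (Fin n)) j| ^ p)) /
        Real.Gamma (((n - 1 : ℕ) : ℝ) / p + 1)) := by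
  have h₁ : 0 < p := by linarith
  have ha0 : a ≠ 0 := fun h => by simp [h] at ha
  have hrank : finrank ℝ (ℝ ∙ a)ᗮ = n - 1 := by
    have := (ℝ ∙ a).finrank_add_finrank_orthogonal
    rw [finrank_span_singleton ha0, finrank_euclideanSpace_fin] at this
    omega
  have : Nontrivial (ℝ ∙ a)ᗮ := Module.nontrivial_of_finrank_pos (R := ℝ) (by omega)
  have hset : {x : EuclideanSpace ℝ (Fin n) | pNorm p x ≤ 1 ∧ ∑ j, x j * a j = 0} =
      Subtype.val '' {y : (ℝ ∙ a)ᗮ | pNorm p (y : EuclideanSpace ℝ (Fin n)) ≤ 1} := by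
    ext x
    simp only [mem_ofPred_eq, mem_image, Subtype.exists, exists_and_right, exists_eq_right,
      Submodule.mem_orthogonal_singleton_iff_inner_right, PiLp.inner_apply, exists_prop]
    simp [and_comm]
  have htr : (ENNReal.ofReal p).toReal = p := ENNReal.toReal_ofReal h₁.le
  have : Fact (1 ≤ ENNReal.ofReal p) :=
    fact_iff.mpr (ENNReal.ofReal_one ▸ (ENNReal.ofReal_le_ofReal hp))
  have eq_norm : ∀ x : EuclideanSpace ℝ (Fin n), pNorm p x = ‖toLp (.ofReal p) (ofLp x)‖ :=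
    fun x => by simp [pNorm, PiLp.norm_eq_sum (f := toLp (.ofReal p) (ofLp x)) (htr.symm ▸ h₁), htr]
  have g1 : pNorm p ((0 : (ℝ ∙ a)ᗮ) : EuclideanSpace ℝ (Fin n)) = 0 := by simp [eq_norm]
  have g2 : ∀ y : (ℝ ∙ a)ᗮ, pNorm p ((-y : (ℝ ∙ a)ᗮ) : EuclideanSpace ℝ (Fin n)) =
      pNorm p (y : EuclideanSpace ℝ (Fin n)) := fun y => by simp [eq_norm]
  have g3 : ∀ y z : (ℝ ∙ a)ᗮ, pNorm p ((y + z : (ℝ ∙ a)ᗮ) : EuclideanSpace ℝ (Fin n)) ≤
      pNorm p (y : EuclideanSpace ℝ (Fin n)) + pNorm p (z : EuclideanSpace ℝ (Fin n)) :=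
    fun y z => by
      simp only [eq_norm, Submodule.coe_add, ofLp_add, toLp_add]
      exact norm_add_le _ _
  have g4 : ∀ {y : (ℝ ∙ a)ᗮ}, pNorm p (y : EuclideanSpace ℝ (Fin n)) = 0 → y = 0 := fun h => by
    simpa [eq_norm] using h
  have g5 : ∀ (r : ℝ) (y : (ℝ ∙ a)ᗮ), pNorm p ((r • y : (ℝ ∙ a)ᗮ) : EuclideanSpace ℝ (Fin n)) ≤
      |r| * pNorm p (y : EuclideanSpace ℝ (Fin n)) := fun r y => by
    simp only [eq_norm, Submodule.coe_smul, ofLp_smul, toLp_smul]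
    exact norm_smul_le r _
  rw [sectionVol, hset, isometry_subtype_coe.euclideanHausdorffMeasure_image, ← hrank,
    InnerProductSpace.euclideanHausdorffMeasure_eq_volume,
    measure_le_eq_lt volume (g := fun y : (ℝ ∙ a)ᗮ => pNorm p (y : EuclideanSpace ℝ (Fin n)))
      g1 g2 g3 g4 g5 1,
    measure_lt_one_eq_integral_div_gamma volume
      (g := fun y : (ℝ ∙ a)ᗮ => pNorm p (y : EuclideanSpace ℝ (Fin n))) g1 g2 g3 g4 g5 h₁]
  congr 3
  funext y
  rw [pNorm, ← Real.rpow_mul (by positivity), one_div_mul_cancel h₁.ne', Real.rpow_one,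
    ← Finset.sum_neg_distrib, Real.exp_sum]

theorem II_lt {n : ℕ} (hn : 2 ≤ n) {a d : EuclideanSpace ℝ (Fin n)} (ha : ‖a‖ = 1)
    (hd1 : ‖d‖ = 1) (hd : ∀ j, d j ^ 2 = 1 / n) (hne : ∃ j, a j ^ 2 ≠ 1 / n) : II a < II d := by
  rcases hn.eq_or_lt with rfl | hn
  · exact II_lt_two ha hd1 hd hne
  rcases (Nat.succ_le_of_lt hn).eq_or_lt with rfl | hn
  · exact II_lt_three ha hd1 hd hne
  · exact II_lt_four hn ha hd1 hd hne

theorem main (n : ℕ) (hn : 2 ≤ n) (a : EuclideanSpace ℝ (Fin n)) (ha : ‖a‖ = 1) :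
    (∀ b : EuclideanSpace ℝ (Fin n), ‖b‖ = 1 → sectionVol 4 b ≤ sectionVol 4 a) ↔
      ∀ j, |a j| = 1 / √n := by
  have hn0 : (0 : ℝ) < n := by exact_mod_cast (by omega : 0 < n)
  have hΓ : 0 < Real.Gamma (((n - 1 : ℕ) : ℝ) / 4 + 1) := Real.Gamma_pos_of_pos (by positivity)
  have hV : ∀ b : EuclideanSpace ℝ (Fin n), ‖b‖ = 1 →
      sectionVol 4 b = ENNReal.ofReal (II b / Real.Gamma (((n - 1 : ℕ) : ℝ) / 4 + 1)) :=
    fun b hb => by
      rw [section_eq' (by norm_num) hn b hb, II]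
      congr 3; funext y
      rw [← Finset.sum_neg_distrib, Real.exp_sum]
      refine Finset.prod_congr rfl fun j _ => ?_
      rw [← Even.pow_abs (by decide : Even 4), ← Real.rpow_natCast]; norm_num
  have hsq : ∀ t : ℝ, |t| = 1 / √n ↔ t ^ 2 = 1 / n := fun t => by
    rw [← sq_eq_sq₀ (abs_nonneg t) (by positivity), sq_abs, div_pow, Real.sq_sqrt hn0.le, one_pow]
  simp only [hsq]
  constructor
  · intro hmax
    by_contra hne
    push Not at hne
    let d : EuclideanSpace ℝ (Fin n) := toLp 2 fun _ => 1 / √n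
    have hd : ∀ j, d j ^ 2 = 1 / n := fun j => (hsq _).1 (abs_of_pos (by positivity))
    have hd1 : ‖d‖ = 1 := by
      rw [← sq_eq_sq₀ (norm_nonneg _) zero_le_one, EuclideanSpace.real_norm_sq_eq]
      simp only [hd, Finset.sum_const, Finset.card_univ, Fintype.card_fin, nsmul_eq_mul]
      field_simp
    have h2 := hmax d hd1
    have h3 : 0 ≤ II a := integral_nonneg fun y => (Real.exp_pos _).le
    rw [hV d hd1, hV a ha, ENNReal.ofReal_le_ofReal_iff (by positivity),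
      div_le_div_iff_of_pos_right hΓ] at h2
    exact absurd h2 (not_le.2 (II_lt hn ha hd1 hd hne))
  · intro h b hb
    rw [hV b hb, hV a ha]
    refine ENNReal.ofReal_le_ofReal (div_le_div_of_nonneg_right ?_ hΓ.le)
    by_cases hb' : ∀ j, b j ^ 2 = 1 / n
    · exact (II_congr hn hb ha fun j => (hb' j).trans (h j).symm).le
    · push Not at hb'
      exact (II_lt hn hb ha h hb').le

end Pool.Agent.MP_39fec4_gt.P4
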