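import Pool.Agent.MP_39fec4_gt.P4Far
import Pool.Agent.MP_39fec4_gt.P4FactC

set_option autoImplicit false

namespace Pool.Agent.MP_39fec4_gt.P4

open MeasureTheory Set Filter Topology

theorem window {n : ℕ} {u : Fin n → ℝ} (hN : ∀ j, |u j - 1 / n| ≤ 0.2 / n) (t : ℝ) (j : Fin n) :
    0.8 * (t ^ 2 / n) ≤ u j * t ^ 2 ∧ u j * t ^ 2 ≤ 1.2 * (t ^ 2 / n) := by
  have h := abs_le.1 (hN j)
  have h1 := mul_le_mul_of_nonneg_right h.1 (sq_nonneg t)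
  have h2 := mul_le_mul_of_nonneg_right h.2 (sq_nonneg t)
  have e1 : 0.2 / n * t ^ 2 = 0.2 * (t ^ 2 / n) := by ring
  have e2 : (u j - 1 / n) * t ^ 2 = u j * t ^ 2 - t ^ 2 / n := by ring
  rw [neg_mul, e1, e2] at h1
  rw [e1, e2] at h2
  constructor <;> linarith

theorem sum_sq_dev {n : ℕ} (u : Fin n → ℝ) (t : ℝ) :
    ∑ j, (u j * t ^ 2 - t ^ 2 / n) ^ 2 = (t ^ 2) ^ 2 * ∑ j, (u j - 1 / n) ^ 2 := by
  rw [Finset.mul_sum]
  exact Finset.sum_congr rfl fun j _ => by ring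

theorem hess {n : ℕ} (hn : 2 ≤ n) {u : Fin n → ℝ} (hs : ∑ j, u j = 1)
    (hN : ∀ j, |u j - 1 / n| ≤ 0.2 / n) {t lo hi B k1 k2 : ℝ} (hZ : Zone lo hi B k1 k2)
    (hlo : 0 < lo) (hB : 0 < B) (h1 : lo ≤ 0.8 * (t ^ 2 / n)) (h2 : 1.2 * (t ^ 2 / n) ≤ hi) :
    ∏ j, gg 0 (u j * t ^ 2) - gg 0 (t ^ 2 / n) ^ n ≤
      (t ^ 2) ^ 2 * (∑ j, (u j - 1 / n) ^ 2) * (k2 * B ^ (n - 1) + n * k1 ^ 2 * B ^ (n - 2) / 2) := by
  have hn' : (0 : ℝ) < n := by exact_mod_cast (by omega : 0 < n)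
  have hx0 : 0 ≤ t ^ 2 / n := by positivity
  have hx : t ^ 2 / n ∈ Icc lo hi := ⟨by linarith, by linarith⟩
  have hy : ∀ j, u j * t ^ 2 ∈ Icc lo hi := fun j =>
    ⟨h1.trans (window hN t j).1, (window hN t j).2.trans h2⟩
  have d0 : ∀ z ∈ Icc lo hi, HasDerivAt (gg 0) (gg 1 z) z := fun z hz =>
    hasDerivAt_gg 0 (hlo.trans_le hz.1)
  have d1 : ∀ z ∈ Icc lo hi, HasDerivAt (gg 1) (gg 2 z) z := fun z hz =>
    hasDerivAt_gg 1 (hlo.trans_le hz.1)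
  have h3 := prod_sub_pow_le hn (fun j => gg 0 (u j * t ^ 2)) (gg 0 (t ^ 2 / n)) B hB
    (fun j => (hZ _ (hy j).1 (hy j).2).1) (hZ _ hx.1 hx.2).1
  have h4 : |∑ j, (gg 0 (u j * t ^ 2) - gg 0 (t ^ 2 / n))| ≤
      k2 * ((t ^ 2) ^ 2 * ∑ j, (u j - 1 / n) ^ 2) := by
    have e : ∑ j, (gg 0 (u j * t ^ 2) - gg 0 (t ^ 2 / n)) = ∑ j, (gg 0 (u j * t ^ 2) -
        gg 0 (t ^ 2 / n) - gg 1 (t ^ 2 / n) * (u j * t ^ 2 - t ^ 2 / n)) := by
      rw [Finset.sum_sub_distrib (f := fun j => gg 0 (u j * t ^ 2) - gg 0 (t ^ 2 / n)),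
        ← Finset.mul_sum, Finset.sum_sub_distrib (f := fun j => u j * t ^ 2), ← Finset.sum_mul, hs]
      simp only [Finset.sum_const, Finset.card_univ, Fintype.card_fin, nsmul_eq_mul]
      rw [mul_div_cancel₀ _ hn'.ne']
      ring
    rw [e, ← sum_sq_dev, Finset.mul_sum]
    exact (Finset.abs_sum_le_sum_abs _ _).trans (Finset.sum_le_sum fun j _ =>
      taylor2 d0 d1 (fun z hz => (hZ z hz.1 hz.2).2.2) hx (hy j))
  have h5 : ∑ j, (gg 0 (u j * t ^ 2) - gg 0 (t ^ 2 / n)) ^ 2 ≤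
      k1 ^ 2 * ((t ^ 2) ^ 2 * ∑ j, (u j - 1 / n) ^ 2) := by
    rw [← sum_sq_dev, Finset.mul_sum]
    refine Finset.sum_le_sum fun j _ => ?_
    have := abs_sub_le_of_deriv d0 (fun z hz => (hZ z hz.1 hz.2).2.1) hx (hy j)
    rw [← sq_abs, ← sq_abs (u j * t ^ 2 - t ^ 2 / n), ← mul_pow]
    exact pow_le_pow_left₀ (abs_nonneg _) this 2
  have h6 : |gg 0 (t ^ 2 / n)| * B ^ (n - 2) ≤ B ^ (n - 1) := by
    rw [show n - 1 = n - 2 + 1 by omega, pow_succ' B]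
    exact mul_le_mul_of_nonneg_right (hZ _ hx.1 hx.2).1 (pow_nonneg hB.le _)
  have hk2 := (abs_nonneg _).trans h4
  calc _ ≤ _ := h3
    _ ≤ B ^ (n - 1) * (k2 * ((t ^ 2) ^ 2 * ∑ j, (u j - 1 / n) ^ 2)) +
        B ^ (n - 2) * (n * (k1 ^ 2 * ((t ^ 2) ^ 2 * ∑ j, (u j - 1 / n) ^ 2))) / 2 := by
      gcongr
    _ = _ := by ring

theorem opp {n : ℕ} {u : Fin n → ℝ} {t L B : ℝ} {i j : Fin n} (hij : j ≠ i)
    (hB : ∀ k, |gg 0 (u k * t ^ 2)| ≤ B)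
    (hi : |gg 0 (u i * t ^ 2)| ≤ L * |u i * t ^ 2 - t ^ 2 / n|)
    (hj : |gg 0 (u j * t ^ 2)| ≤ L * |u j * t ^ 2 - t ^ 2 / n|) :
    ∏ k, gg 0 (u k * t ^ 2) ≤
      (t ^ 2) ^ 2 * (∑ j, (u j - 1 / n) ^ 2) * (L ^ 2 * B ^ (n - 2) / 2) := by
  have hB0 : 0 ≤ B := (abs_nonneg _).trans (hB i)
  have h1 : |∏ k ∈ (Finset.univ.erase i).erase j, gg 0 (u k * t ^ 2)| ≤ B ^ (n - 2) := by
    rw [Finset.abs_prod]
    refine (Finset.prod_le_prod (fun _ _ => abs_nonneg _) fun k _ => hB k).trans (le_of_eq ?_)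
    rw [Finset.prod_const, Finset.card_erase_of_mem (by simp [hij]), Finset.card_erase_of_mem (by simp)]
    simp [Nat.sub_sub]
  have h2 : (u i * t ^ 2 - t ^ 2 / n) ^ 2 + (u j * t ^ 2 - t ^ 2 / n) ^ 2 ≤
      (t ^ 2) ^ 2 * ∑ j, (u j - 1 / n) ^ 2 := by
    rw [← sum_sq_dev, sum_split _ hij]
    exact le_add_of_nonneg_right (by positivity)
  have h3 : |gg 0 (u i * t ^ 2) * gg 0 (u j * t ^ 2)| ≤
      L ^ 2 * ((t ^ 2) ^ 2 * ∑ j, (u j - 1 / n) ^ 2) / 2 := by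
    rw [abs_mul]
    refine (mul_le_mul hi hj (abs_nonneg _) ((abs_nonneg _).trans hi)).trans ?_
    rw [← sq_abs (u i * t ^ 2 - t ^ 2 / n), ← sq_abs (u j * t ^ 2 - t ^ 2 / n)] at h2
    nlinarith [mul_le_mul_of_nonneg_left h2 (sq_nonneg L), mul_nonneg (sq_nonneg L)
      (sq_nonneg (|u i * t ^ 2 - t ^ 2 / n| - |u j * t ^ 2 - t ^ 2 / n|))]
  rw [prod_split _ hij]
  refine (le_abs_self _).trans ?_
  rw [abs_mul]
  calc _ ≤ L ^ 2 * ((t ^ 2) ^ 2 * ∑ j, (u j - 1 / n) ^ 2) / 2 * B ^ (n - 2) :=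
        mul_le_mul h3 h1 (abs_nonneg _) (by positivity)
    _ = _ := by ring

theorem dim_decay {m n : ℕ} (hm : 4 ≤ m) (hmn : m ≤ n) {B r : ℝ} (hB0 : 0 ≤ B) (hB : B ≤ 1 / 3)
    (hr : √m ≤ r) : √n * n ^ 2 * B ^ (n - m) ≤ r * m ^ 2 ∧
      √n * n ^ 3 * B ^ (n - m) ≤ r * m ^ 3 := by
  induction n, hmn using Nat.le_induction with
  | base => simp only [Nat.sub_self, pow_zero, mul_one]; constructor <;> gcongr
  | succ n hn ih =>
    have hn' : (4 : ℝ) ≤ n := by exact_mod_cast hm.trans hn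
    have h1 : ((n + 1 : ℕ) : ℝ) ≤ 1.25 * n := by push_cast; linarith
    have h2 : √((n + 1 : ℕ) : ℝ) ≤ 1.12 * √n := by
      rw [Real.sqrt_le_left (by positivity), mul_pow, Real.sq_sqrt (by positivity)]
      nlinarith
    rw [show n + 1 - m = n - m + 1 by omega, pow_succ B]
    have p1 : 0 ≤ √n * n ^ 2 * B ^ (n - m) := by positivity
    have p2 : 0 ≤ √n * n ^ 3 * B ^ (n - m) := by positivity
    constructor
    · calc _ ≤ 1.12 * √n * (1.25 * n) ^ 2 * (B ^ (n - m) * (1 / 3)) := by gcongr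
        _ = 1.12 * 1.25 ^ 2 / 3 * (√n * n ^ 2 * B ^ (n - m)) := by ring
        _ ≤ _ := by linarith [ih.1]
    · calc _ ≤ 1.12 * √n * (1.25 * n) ^ 3 * (B ^ (n - m) * (1 / 3)) := by gcongr
        _ = 1.12 * 1.25 ^ 3 / 3 * (√n * n ^ 3 * B ^ (n - m)) := by ring
        _ ≤ _ := by linarith [ih.2]

/-- The constant of a zone. -/
noncomputable def hz (r : ℝ) (m : ℕ) (b B k1 k2 : ℝ) : ℝ :=
  r * m ^ 2 * b ^ 4 * (k2 * B ^ (m - 1) + m * k1 ^ 2 * B ^ (m - 2) / 2)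

theorem tau_sq {n : ℕ} (hn : 0 < n) (t : ℝ) : (t / √n) ^ 2 = t ^ 2 / n := by
  rw [div_pow, Real.sq_sqrt (by positivity)]

theorem hess' {m n : ℕ} (hm : 4 ≤ m) (hmn : m ≤ n) {r : ℝ} (hr : √m ≤ r) {u : Fin n → ℝ}
    (hs : ∑ j, u j = 1) (hN : ∀ j, |u j - 1 / n| ≤ 0.2 / n) {t lo hi B k1 k2 a b : ℝ}
    (hZ : Zone lo hi B k1 k2) (hlo : 0 < lo) (hB : 0 < B) (hB' : B ≤ 1 / 3) (hk : 0 ≤ k2)
    (ha : 0 ≤ a) (h1 : lo ≤ 0.8 * a ^ 2) (h2 : 1.2 * b ^ 2 ≤ hi) (hta : a ≤ t / √n)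
    (htb : t / √n ≤ b) :
    ∏ j, gg 0 (u j * t ^ 2) - gg 0 (t ^ 2 / n) ^ n ≤
      (∑ j, (u j - 1 / n) ^ 2) / √n * hz r m b B k1 k2 := by
  have hn : 0 < n := by omega
  have hn' : (0 : ℝ) < n := by exact_mod_cast hn
  have hq : 0 < √(n : ℝ) := Real.sqrt_pos.2 hn'
  have e := tau_sq hn t
  have q1 : a ^ 2 ≤ t ^ 2 / n := e ▸ pow_le_pow_left₀ ha hta 2
  have q2 : t ^ 2 / n ≤ b ^ 2 := e ▸ pow_le_pow_left₀ (ha.trans hta) htb 2
  refine (hess (by omega) hs hN hZ hlo hB (by linarith) (by linarith)).trans ?_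
  obtain ⟨d1, d2⟩ := dim_decay hm hmn hB.le hB' hr
  have q3 : (t ^ 2) ^ 2 ≤ n ^ 2 * b ^ 4 := by
    rw [div_le_iff₀ hn'] at q2
    calc (t ^ 2) ^ 2 ≤ (b ^ 2 * n) ^ 2 := by gcongr
      _ = _ := by ring
  rw [div_mul_eq_mul_div, le_div_iff₀ hq, show n - 1 = n - m + (m - 1) by omega,
    show n - 2 = n - m + (m - 2) by omega, pow_add, pow_add, hz]
  set V := ∑ j, (u j - 1 / n) ^ 2
  have hV : 0 ≤ V := by positivity
  calc _ ≤ n ^ 2 * b ^ 4 * V * (k2 * (B ^ (n - m) * B ^ (m - 1)) +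
        n * k1 ^ 2 * (B ^ (n - m) * B ^ (m - 2)) / 2) * √n := by gcongr
    _ = V * b ^ 4 * ((√n * n ^ 2 * B ^ (n - m)) * (k2 * B ^ (m - 1)) +
        (√n * n ^ 3 * B ^ (n - m)) * (k1 ^ 2 * B ^ (m - 2) / 2)) := by ring
    _ ≤ V * b ^ 4 * ((r * m ^ 2) * (k2 * B ^ (m - 1)) +
        (r * m ^ 3) * (k1 ^ 2 * B ^ (m - 2) / 2)) := by gcongr
    _ = _ := by ring

noncomputable def box (a b c t : ℝ) : ℝ := indicator (Icc a b) (fun _ => c) t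

theorem box_nonneg (a b : ℝ) {c : ℝ} (hc : 0 ≤ c) (t : ℝ) : 0 ≤ box a b c t :=
  indicator_nonneg (fun _ _ => hc) _

theorem box_eq {a b t : ℝ} (c : ℝ) (h1 : a ≤ t) (h2 : t ≤ b) : box a b c t = c :=
  indicator_of_mem (show t ∈ Icc a b from ⟨h1, h2⟩) _

theorem maj_box {a b : ℝ} (c : ℝ) (ha : 0 ≤ a) (hab : a ≤ b) : Maj (box a b c) (c * (b - a)) :=
  maj_const c ha hab

theorem hz_nonneg {r b B k1 k2 : ℝ} (m : ℕ) (hr : 0 ≤ r) (hB : 0 ≤ B) (hk : 0 ≤ k2) :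
    0 ≤ hz r m b B k1 k2 := by unfold hz; positivity

/-- Majorant beyond 6.1. -/
noncomputable def tailF (r : ℝ) (m : ℕ) (τ : ℝ) : ℝ :=
  box 6.1 6.5 (hz r m 6.5 0.0726 0.0056 0.00027) τ + box 6.5 7 (hz r m 7 0.0533 0.0055 0.00027) τ +
  box 7 8 (hz r m 8 0.0237 0.0043 0.00027) τ + box 8 11.8 (hz r m 11.8 0.0146 0.00137 0.0002) τ +
  box 11.8 15.7 (hz r m 15.7 0.0022 0.0136 0.0209) τ +
  28000 * indicator (Ici 15.7) (fun τ => Real.exp (-1 * τ)) τ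

theorem far_tail {n : ℕ} (hn : 4 ≤ n) {u : Fin n → ℝ}
    (hs : ∑ j, u j = 1) (hN : ∀ j, |u j - 1 / n| ≤ 0.2 / n) {t : ℝ} (ht : 15.7 ≤ t / √n) :
    ∏ j, gg 0 (u j * t ^ 2) - gg 0 (t ^ 2 / n) ^ n ≤
      (∑ j, (u j - 1 / n) ^ 2) / √n * (28000 * Real.exp (-1 * (t / √n))) := by
  set τ := t / √n with hτ
  have hB : 34 * Real.exp (-(0.67 * τ)) ≤ 0.001 := by
    have : Real.exp (-(0.67 * τ)) ≤ Real.exp (-(10.5 : ℝ)) := Real.exp_le_exp.2 (by linarith)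
    linarith [exp_tail]
  have hZ : Zone (0.8 * τ ^ 2) (1.2 * τ ^ 2) (34 * Real.exp (-(0.67 * τ))) 0.0136 0.0209 := by
    intro x h1 _
    have h2 : 111 ≤ x := by nlinarith
    refine ⟨(decay' (by linarith)).trans ?_, fact_111' h2, fact_g2 x⟩
    have h3 : 0.894 * τ ≤ √x := Real.le_sqrt_of_sq_le (by nlinarith)
    gcongr
    linarith
  have h := hess' (m := 4) (r := 2) le_rfl hn
    (by rw [Real.sqrt_le_left (by norm_num)]; norm_num) hs hN hZ (by positivity)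
    (by positivity) (by linarith) (by norm_num) (a := τ) (b := τ) (by linarith) le_rfl le_rfl
    le_rfl le_rfl
  refine h.trans (mul_le_mul_of_nonneg_left ?_ (by positivity))
  have h1 := Real.pow_div_factorial_le_exp (0.34 * τ) (by linarith) 4
  have e : Real.exp (-(0.67 * τ)) ^ 2 * Real.exp (0.34 * τ) = Real.exp (-1 * τ) := by
    rw [← Real.exp_nat_mul, ← Real.exp_add]; congr 1; push_cast; ring
  set E := Real.exp (-(0.67 * τ))
  have hE : 0 < E := Real.exp_pos _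
  have h2 : τ ^ 4 ≤ 1796 * Real.exp (0.34 * τ) := by
    norm_num [Nat.factorial, mul_pow] at h1 ⊢
    linarith [Real.exp_pos (17 / 50 * τ)]
  rw [← e, hz]
  norm_num
  calc _ = 32 * 34 ^ 2 * (209 / 10000 * (34 * E) + 2 * (17 / 1250) ^ 2) * (E ^ 2 * τ ^ 4) := by ring
    _ ≤ 32 * 34 ^ 2 * (209 / 10000 * 0.001 + 2 * (17 / 1250) ^ 2) *
        (E ^ 2 * (1796 * Real.exp (0.34 * τ))) := by gcongr
    _ ≤ _ := by
      have : 0 ≤ E ^ 2 * Real.exp (17 / 50 * τ) := by positivity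
      norm_num
      linarith

theorem near_tail {m n : ℕ} (hm : 4 ≤ m) (hmn : m ≤ n) {r : ℝ} (hr : √m ≤ r) {u : Fin n → ℝ}
    (hs : ∑ j, u j = 1) (hN : ∀ j, |u j - 1 / n| ≤ 0.2 / n) {t : ℝ} (ht : 6.1 ≤ t / √n) :
    ∏ j, gg 0 (u j * t ^ 2) - gg 0 (t ^ 2 / n) ^ n ≤
      (∑ j, (u j - 1 / n) ^ 2) / √n * tailF r m (t / √n) := by
  have hr0 : 0 ≤ r := (Real.sqrt_nonneg _).trans hr
  have hc : 0 ≤ (∑ j, (u j - 1 / n) ^ 2) / √n := by positivity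
  set τ := t / √n with hτ
  have p5 := box_nonneg 6.1 6.5 (hz_nonneg (b := 6.5) (B := 0.0726) (k1 := 0.0056) (k2 := 0.00027)
    m hr0 (by norm_num) (by norm_num)) τ
  have p6 := box_nonneg 6.5 7 (hz_nonneg (b := 7) (B := 0.0533) (k1 := 0.0055) (k2 := 0.00027)
    m hr0 (by norm_num) (by norm_num)) τ
  have p7 := box_nonneg 7 8 (hz_nonneg (b := 8) (B := 0.0237) (k1 := 0.0043) (k2 := 0.00027)
    m hr0 (by norm_num) (by norm_num)) τ
  have p8 := box_nonneg 8 11.8 (hz_nonneg (b := 11.8) (B := 0.0146) (k1 := 0.00137) (k2 := 0.0002)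
    m hr0 (by norm_num) (by norm_num)) τ
  have p9 := box_nonneg 11.8 15.7 (hz_nonneg (b := 15.7) (B := 0.0022) (k1 := 0.0136)
    (k2 := 0.0209) m hr0 (by norm_num) (by norm_num)) τ
  have p0 : 0 ≤ indicator (Ici 15.7) (fun τ => Real.exp (-1 * τ)) τ :=
    indicator_nonneg (fun _ _ => (Real.exp_pos _).le) _
  rw [tailF]
  rcases le_total τ 6.5 with h1 | h1
  · refine (hess' hm hmn hr hs hN z5 (by norm_num) (by norm_num) (by norm_num) (by norm_num)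
      (by norm_num) (by norm_num) (by norm_num) ht h1).trans (mul_le_mul_of_nonneg_left ?_ hc)
    rw [box_eq _ ht h1]; linarith
  rcases le_total τ 7 with h2 | h2
  · refine (hess' hm hmn hr hs hN z6 (by norm_num) (by norm_num) (by norm_num) (by norm_num)
      (by norm_num) (by norm_num) (by norm_num) h1 h2).trans (mul_le_mul_of_nonneg_left ?_ hc)
    rw [box_eq _ h1 h2]; linarith
  rcases le_total τ 8 with h3 | h3
  · refine (hess' hm hmn hr hs hN z7 (by norm_num) (by norm_num) (by norm_num) (by norm_num)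
      (by norm_num) (by norm_num) (by norm_num) h2 h3).trans (mul_le_mul_of_nonneg_left ?_ hc)
    rw [box_eq _ h2 h3]; linarith
  rcases le_total τ 11.8 with h4 | h4
  · refine (hess' hm hmn hr hs hN z8 (by norm_num) (by norm_num) (by norm_num) (by norm_num)
      (by norm_num) (by norm_num) (by norm_num) h3 h4).trans (mul_le_mul_of_nonneg_left ?_ hc)
    rw [box_eq _ h3 h4]; linarith
  rcases le_total τ 15.7 with h5 | h5
  · refine (hess' hm hmn hr hs hN (z9 300) (by norm_num) (by norm_num) (by norm_num) (by norm_num)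
      (by norm_num) (by norm_num) (by norm_num) h4 h5).trans (mul_le_mul_of_nonneg_left ?_ hc)
    rw [box_eq _ h4 h5]; linarith
  · refine (far_tail (hm.trans hmn) hs hN h5).trans (mul_le_mul_of_nonneg_left ?_ hc)
    rw [indicator_of_mem (show τ ∈ Ici 15.7 from h5)]; linarith

theorem tailF_nonneg {r : ℝ} (m : ℕ) (hr0 : 0 ≤ r) (τ : ℝ) : 0 ≤ tailF r m τ := by
  have p0 : 0 ≤ indicator (Ici 15.7) (fun τ => Real.exp (-1 * τ)) τ :=
    indicator_nonneg (fun _ _ => (Real.exp_pos _).le) _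
  unfold tailF
  refine add_nonneg (add_nonneg (add_nonneg (add_nonneg (add_nonneg ?_ ?_) ?_) ?_) ?_)
    (by positivity) <;> exact box_nonneg _ _ (hz_nonneg m hr0 (by norm_num) (by norm_num)) _

theorem e2 : eV (157 / 10) ≤ 175 / 1000000000 := by decide +kernel

theorem maj_tailF (r : ℝ) (m : ℕ) : Maj (tailF r m)
    (hz r m 6.5 0.0726 0.0056 0.00027 * (6.5 - 6.1) + hz r m 7 0.0533 0.0055 0.00027 * (7 - 6.5) +
      hz r m 8 0.0237 0.0043 0.00027 * (8 - 7) + hz r m 11.8 0.0146 0.00137 0.0002 * (11.8 - 8) +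
      hz r m 15.7 0.0022 0.0136 0.0209 * (15.7 - 11.8) + 0.0049) := by
  have h0 := ((maj_exp (a := 15.7) (l := 1) (by norm_num) (by norm_num)).smul (c := 28000)
    (by norm_num)).mono (w := 0.0049) (by
      have := (eV_sound (y := 157 / 10) (x := 15.7) (by norm_num) (by norm_num)).trans
        ((Rat.cast_le (K := ℝ)).2 e2)
      norm_num at this ⊢
      linarith)
  exact ((((((maj_box _ (by norm_num) (by norm_num)).add
    (maj_box _ (by norm_num) (by norm_num))).add (maj_box _ (by norm_num) (by norm_num))).add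
    (maj_box _ (by norm_num) (by norm_num))).add (maj_box _ (by norm_num) (by norm_num))).add h0)

theorem near_nonneg {n : ℕ} {u : Fin n → ℝ} (hN : ∀ j, |u j - 1 / n| ≤ 0.2 / n) (j : Fin n) :
    0 ≤ u j := by
  have h := (window hN 1 j).1
  have : (0 : ℝ) ≤ 0.8 * (1 ^ 2 / n) := by positivity
  linarith

/-- Near the diagonal, before the first zero. -/
theorem near_head {n m : ℕ} (hm : 4 ≤ m) (hmn : m ≤ n) {k x T t r : ℝ} (hr : √m ≤ r) (hk0 : 0 ≤ k)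
    (hk : k ≤ 0.0011 / 3 / n) (hT : T ^ 2 / m ≤ 11.9025) {u : Fin n → ℝ}
    (hs : ∑ j, u j = 1) (hN : ∀ j, |u j - 1 / n| ≤ 0.2 / n) (hx : 0 < x)
    (hVx : ∑ j, (u j - 1 / n) ^ 2 ≤ x) (ht : 0 < t) (h : t / √n ≤ 3.45) :
    ∏ j, gg 0 (u j * t ^ 2) - gg 0 (t ^ 2 / n) ^ n ≤
      (∑ j, (u j - 1 / n) ^ 2) / x * GI m k x T t + (∑ j, (u j - 1 / n) ^ 2) / √n *
        box 3.14 3.45 (r * m ^ 2 * 3.45 ^ 4 * (0.0289 ^ 2 * 0.169 ^ (m - 2) / 2)) (t / √n) := by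
  have hn : 0 < n := by omega
  have hn' : (0 : ℝ) < n := by exact_mod_cast hn
  have hq : 0 < √(n : ℝ) := Real.sqrt_pos.2 hn'
  have hr0 : 0 ≤ r := (Real.sqrt_nonneg _).trans hr
  have hu := near_nonneg hN
  have e := tau_sq hn t
  have q2 : t ^ 2 / n ≤ 11.9025 :=
    e ▸ (pow_le_pow_left₀ (by positivity) h 2).trans (by norm_num)
  have p1 : 0 ≤ (∑ j, (u j - 1 / n) ^ 2) / √n *
      box 3.14 3.45 (r * m ^ 2 * 3.45 ^ 4 * (0.0289 ^ 2 * 0.169 ^ (m - 2) / 2)) (t / √n) :=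
    mul_nonneg (by positivity) (box_nonneg _ _ (by positivity) _)
  have hw := window hN t
  by_cases hg : ∀ l, 0 ≤ gg 0 (u l * t ^ 2)
  · linarith [main_gain (by omega) hmn hk0 hk hT hu hs hx hVx (fun l => le_of_g_nonneg
      (by linarith [(hw l).2]) (hg l)) hg]
  push Not at hg
  obtain ⟨l, hl⟩ := hg
  have hrg := rest_gain (t := t) (by omega) hmn hk0 hk hT (by positivity) hx hVx
  rw [max_eq_right (neg_nonpos.2 (pow_nonneg (g_pos (by positivity) q2).le _)), add_zero] at hrg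
  rcases le_or_gt (∏ j, gg 0 (u j * t ^ 2)) 0 with hP | hP
  · linarith
  obtain ⟨i, hil, hi⟩ := two_neg (y := fun k => gg 0 (u k * t ^ 2)) hl hP
  have q1 : 11.9025 < 1.2 * (t ^ 2 / n) :=
    (lt_of_g_neg (mul_nonneg (hu l) (sq_nonneg t)) hl).trans_le (hw l).2
  have hL : ∀ a, gg 0 (u a * t ^ 2) < 0 →
      |gg 0 (u a * t ^ 2)| ≤ 0.0289 * |u a * t ^ 2 - t ^ 2 / n| := fun a ha => by
    have h1 := lt_of_g_neg (mul_nonneg (hu a) (sq_nonneg t)) ha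
    have h2 := abs_sub_le_of_deriv (a := 11.9) (b := 14.3) (x := 11.9025) (y := u a * t ^ 2)
      (fun z hz => hasDerivAt_gg 0 (by linarith [hz.1])) (fun z hz => y1 hz.1 hz.2)
      (by norm_num) ⟨by linarith, by linarith [(hw a).2]⟩
    rw [abs_of_neg (by linarith [fact_sA]), abs_of_pos (by linarith)] at h2
    rw [abs_of_neg ha, abs_of_pos (by linarith)]
    linarith [fact_sA]
  have h3 := opp hil (fun a => y2 (by linarith [(hw a).1]) (by linarith [(hw a).2])) (hL l hl)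
    (hL i hi)
  rw [box_eq _ (le_of_sq (by positivity) (by rw [e]; linarith)) h]
  obtain ⟨d1, -⟩ := dim_decay hm hmn (B := 0.169) (by norm_num) (by norm_num) hr
  have q3 : (t ^ 2) ^ 2 ≤ n ^ 2 * 3.45 ^ 4 := by
    rw [div_le_iff₀ hn'] at q2
    calc (t ^ 2) ^ 2 ≤ (11.9025 * n) ^ 2 := by gcongr
      _ = _ := by ring
  have h4 : (t ^ 2) ^ 2 * (∑ j, (u j - 1 / n) ^ 2) * (0.0289 ^ 2 * 0.169 ^ (n - 2) / 2) ≤
      (∑ j, (u j - 1 / n) ^ 2) / √n *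
        (r * m ^ 2 * 3.45 ^ 4 * (0.0289 ^ 2 * 0.169 ^ (m - 2) / 2)) := by
    rw [div_mul_eq_mul_div, le_div_iff₀ hq, show n - 2 = n - m + (m - 2) by omega, pow_add]
    set V := ∑ j, (u j - 1 / n) ^ 2
    have hV : 0 ≤ V := by positivity
    calc _ ≤ n ^ 2 * 3.45 ^ 4 * V * (0.0289 ^ 2 * (0.169 ^ (n - m) * 0.169 ^ (m - 2)) / 2) * √n := by
          gcongr
      _ = V * ((√n * n ^ 2 * 0.169 ^ (n - m)) * 3.45 ^ 4 * (0.0289 ^ 2 * 0.169 ^ (m - 2) / 2)) := by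
          ring
      _ ≤ _ := by gcongr
  linarith

/-- Near the diagonal, dimension four, between 3.45 and 6.1. -/
theorem near_mid4 {u : Fin 4 → ℝ} (hs : ∑ j, u j = 1)
    (hN : ∀ j, |u j - 1 / (4 : ℕ)| ≤ 0.2 / (4 : ℕ)) {t : ℝ} (h1 : 3.45 ≤ t / √(4 : ℕ))
    (h2 : t / √(4 : ℕ) ≤ 6.1) :
    ∏ j, gg 0 (u j * t ^ 2) - gg 0 (t ^ 2 / (4 : ℕ)) ^ 4 ≤ (∑ j, (u j - 1 / (4 : ℕ)) ^ 2) /
      √(4 : ℕ) * box 3.45 3.88 (2 * 3600 * (0.0443 ^ 2 * 0.0955 ^ 2 / 2)) (t / √(4 : ℕ)) := by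
  have hu := near_nonneg hN
  have e := tau_sq (n := 4) (by norm_num) t
  have q1 : 11.9025 ≤ t ^ 2 / (4 : ℕ) :=
    e ▸ le_trans (by norm_num) (pow_le_pow_left₀ (by norm_num) h1 2)
  have q2 : t ^ 2 / (4 : ℕ) ≤ 37.21 :=
    e ▸ (pow_le_pow_left₀ (by linarith) h2 2).trans (by norm_num)
  have p1 : 0 ≤ (∑ j, (u j - 1 / (4 : ℕ)) ^ 2) /
      √(4 : ℕ) * box 3.45 3.88 (2 * 3600 * (0.0443 ^ 2 * 0.0955 ^ 2 / 2)) (t / √(4 : ℕ)) :=
    mul_nonneg (by positivity) (box_nonneg _ _ (by positivity) _)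
  have p2 : 0 ≤ gg 0 (t ^ 2 / (4 : ℕ)) ^ 4 := by positivity
  have hw := window hN t
  have h45 : ∀ l, u l * t ^ 2 ≤ 44.89 := fun l => by linarith [(hw l).2]
  by_cases hall : ∀ l, gg 0 (u l * t ^ 2) < 0
  · linarith [lobe_four hu hs (sq_nonneg t) h45 hall]
  by_cases hg : ∀ l, 0 ≤ gg 0 (u l * t ^ 2)
  · obtain ⟨-, h3⟩ := main_region (by norm_num) hu hs (sq_nonneg t)
      (fun l => le_of_g_nonneg (h45 l) (hg l)) hg
    have := h3.trans (mul_le_of_le_one_right p2 (Real.exp_le_one_iff.2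
      (neg_nonpos.2 (by positivity))))
    linarith
  rcases le_or_gt (∏ j, gg 0 (u j * t ^ 2)) 0 with hP | hP
  · linarith
  push Not at hall hg
  obtain ⟨a, ha⟩ := hall
  obtain ⟨b, hb⟩ := hg
  have q3 : t ^ 2 / (4 : ℕ) ≤ 15 := by linarith [le_of_g_nonneg (h45 a) ha, (hw a).1]
  have hL : ∀ c, gg 0 (u c * t ^ 2) * gg 0 (t ^ 2 / (4 : ℕ)) ≤ 0 →
      |gg 0 (u c * t ^ 2)| ≤ 0.0443 * |u c * t ^ 2 - t ^ 2 / (4 : ℕ)| := fun c hc => by
    have h2 := abs_sub_le_of_deriv (a := 9.5) (b := 18) (x := t ^ 2 / (4 : ℕ)) (y := u c * t ^ 2)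
      (fun z hz => hasDerivAt_gg 0 (by linarith [hz.1])) (fun z hz => y3 hz.1 hz.2)
      ⟨by linarith, by linarith⟩ ⟨by linarith [(hw c).1], by linarith [(hw c).2]⟩
    refine le_trans (sq_le_sq.1 ?_) h2
    nlinarith [sq_nonneg (gg 0 (t ^ 2 / (4 : ℕ)))]
  have hpair : ∃ c d, d ≠ c ∧ gg 0 (u c * t ^ 2) * gg 0 (t ^ 2 / (4 : ℕ)) ≤ 0 ∧
      gg 0 (u d * t ^ 2) * gg 0 (t ^ 2 / (4 : ℕ)) ≤ 0 := by
    rcases le_total 0 (gg 0 (t ^ 2 / (4 : ℕ))) with hm | hm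
    · obtain ⟨c, hc, hc'⟩ := two_neg (y := fun k => gg 0 (u k * t ^ 2)) hb hP
      exact ⟨b, c, hc, mul_nonpos_of_nonpos_of_nonneg hb.le hm,
        mul_nonpos_of_nonpos_of_nonneg hc'.le hm⟩
    · have ha' : 0 < gg 0 (u a * t ^ 2) := lt_of_le_of_ne ha fun h0 =>
        hP.ne' (Finset.prod_eq_zero (Finset.mem_univ a) h0.symm)
      obtain ⟨c, hc, hc'⟩ := two_neg (y := fun k => -gg 0 (u k * t ^ 2)) (j := a) (neg_neg_of_pos ha')
        (by rw [Fin.prod_univ_four] at hP ⊢; linarith)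
      exact ⟨a, c, hc, mul_nonpos_of_nonneg_of_nonpos ha hm,
        mul_nonpos_of_nonneg_of_nonpos (by linarith) hm⟩
  obtain ⟨c, d, hcd, hc, hd⟩ := hpair
  have h3 := opp hcd (fun l => y4 (by linarith [(hw l).1]) (by linarith [(hw l).2])) (hL c hc)
    (hL d hd)
  have hs4 : √((4 : ℕ) : ℝ) = 2 := by
    rw [show ((4 : ℕ) : ℝ) = 2 ^ 2 by norm_num, Real.sqrt_sq (by norm_num)]
  rw [box_eq _ h1 (le_of_sq (by norm_num) (by rw [e]; linarith)), hs4]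
  have q4 : (t ^ 2) ^ 2 ≤ 3600 := by
    have : t ^ 2 ≤ 60 := by norm_num at q3; linarith
    nlinarith [sq_nonneg t]
  have hV : 0 ≤ ∑ j, (u j - 1 / (4 : ℕ)) ^ 2 := by positivity
  have := mul_le_mul_of_nonneg_right q4 hV
  norm_num at h3 this ⊢ p2
  linarith

end Pool.Agent.MP_39fec4_gt.P4
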