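import Pool.Agent.MP_39fec4_gt.P4Tower

set_option autoImplicit false

namespace Pool.Agent.MP_39fec4_gt.P4

open MeasureTheory Set Filter Topology

/-- Scale of the fixed point arithmetic. -/
def SS : ℕ := 79228162514264337593543950336

def Wd : ℕ → ℕ
  | 0 => 1
  | 1 => 2
  | (k + 2) => Wd k * (16 * (2 * k + 3))

theorem Wd_pos : ∀ k, 0 < Wd k
  | 0 => by simp [Wd]
  | 1 => by simp [Wd]
  | (k + 2) => by have := Wd_pos k; rw [Wd]; positivity

noncomputable def sig : ℝ := 2 * MM 1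

theorem sig_pos : 0 < sig := by have := MM_pos 1; unfold sig; positivity

theorem MM_eq : ∀ k, MM k = (if k % 2 = 0 then 1 else sig) / Wd k
  | 0 => by simp [Wd, MM_zero]
  | 1 => by simp [Wd, sig]
  | (k + 2) => by
    rw [MM_succ, MM_eq k, Wd, Nat.add_mod_right]
    push_cast
    rw [div_div]

noncomputable def TT (j i : ℕ) (s : ℝ) : ℝ := s ^ i / (Wd (j + i) * i.factorial)

theorem TT_succ (j i : ℕ) (s : ℝ) :
    TT j (i + 2) s = TT j i s * s ^ 2 / (((i + 1) * (i + 2) * (16 * (2 * (j + i) + 3)) : ℕ) : ℝ) := by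
  have h1 : (0 : ℝ) < Wd (j + i) := by exact_mod_cast Wd_pos _
  have h2 : (0 : ℝ) < i.factorial := by positivity
  have e : Wd (j + (i + 2)) = Wd (j + i) * (16 * (2 * (j + i) + 3)) := by
    rw [← add_assoc, Wd]
  rw [TT, TT, e, Nat.factorial_succ, Nat.factorial_succ]
  push_cast
  field_simp
  ring

def chLo (a b j : ℕ) : ℕ → ℕ → ℕ → ℕ → ℕ
  | 0, _, _, acc => acc
  | (f + 1), i, t, acc =>
    chLo a b j f (i + 2) (t * a / (b * ((i + 1) * (i + 2) * (16 * (2 * (j + i) + 3))))) (acc + t)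

def chHi (a b j : ℕ) : ℕ → ℕ → ℕ → ℕ → ℕ × ℕ
  | 0, _, t, acc => (acc, t)
  | (f + 1), i, t, acc =>
    chHi a b j f (i + 2) (t * a / (b * ((i + 1) * (i + 2) * (16 * (2 * (j + i) + 3)))) + 1) (acc + t)

theorem cast_div_succ (x y : ℕ) (hy : 0 < y) : (x : ℝ) / y ≤ ((x / y + 1 : ℕ) : ℝ) := by
  have hy' : (0 : ℝ) < y := by exact_mod_cast hy
  rw [div_le_iff₀ hy']
  have := Nat.lt_div_mul_add (a := x) hy
  have h2 : x ≤ (x / y + 1) * y := by rw [add_mul, one_mul]; exact this.le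
  exact_mod_cast h2

theorem chLo_sound {a b j : ℕ} {s c : ℝ} (hb : 0 < b) (hs : s ^ 2 = (a : ℝ) / b) :
    ∀ (f i t acc : ℕ), (t : ℝ) ≤ c * TT j i s →
      (chLo a b j f i t acc : ℝ) ≤ acc + c * ∑ l ∈ Finset.range f, TT j (i + 2 * l) s := by
  intro f
  induction f with
  | zero => intro i t acc _; simp [chLo]
  | succ f ih =>
    intro i t acc ht
    rw [chLo, Finset.sum_range_succ']
    have hb' : (0 : ℝ) < b := by exact_mod_cast hb
    have hd : (0 : ℝ) < (((i + 1) * (i + 2) * (16 * (2 * (j + i) + 3)) : ℕ) : ℝ) := by positivity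
    have h1 := ih (i + 2) (t * a / (b * ((i + 1) * (i + 2) * (16 * (2 * (j + i) + 3))))) (acc + t)
      (by
        refine Nat.cast_div_le.trans ?_
        rw [TT_succ, hs, Nat.cast_mul t a, Nat.cast_mul b]
        calc (t : ℝ) * a / (b * (((i + 1) * (i + 2) * (16 * (2 * (j + i) + 3)) : ℕ) : ℝ)) ≤
            (c * TT j i s) * a / (b * (((i + 1) * (i + 2) * (16 * (2 * (j + i) + 3)) : ℕ) : ℝ)) := by
              gcongr
          _ = _ := by field_simp)
    have e : ∀ l, i + 2 + 2 * l = i + 2 * (l + 1) := fun l => by ring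
    simp only [e] at h1
    push_cast at h1
    simp only [mul_zero, add_zero]
    linarith

theorem chHi_sound {a b j : ℕ} {s c : ℝ} (hb : 0 < b) (hs : s ^ 2 = (a : ℝ) / b) :
    ∀ (f i t acc : ℕ), c * TT j i s ≤ (t : ℝ) →
      acc + c * ∑ l ∈ Finset.range f, TT j (i + 2 * l) s ≤ ((chHi a b j f i t acc).1 : ℝ) ∧
      c * TT j (i + 2 * f) s ≤ ((chHi a b j f i t acc).2 : ℝ) := by
  intro f
  induction f with
  | zero => intro i t acc ht; simpa [chHi] using ht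
  | succ f ih =>
    intro i t acc ht
    rw [chHi, Finset.sum_range_succ']
    have hb' : (0 : ℝ) < b := by exact_mod_cast hb
    have hd : (0 : ℝ) < (((i + 1) * (i + 2) * (16 * (2 * (j + i) + 3)) : ℕ) : ℝ) := by positivity
    have h1 := ih (i + 2)
      (t * a / (b * ((i + 1) * (i + 2) * (16 * (2 * (j + i) + 3)))) + 1) (acc + t)
      (by
        refine le_trans ?_ (cast_div_succ _ _ (by positivity))
        rw [TT_succ, hs, Nat.cast_mul t a, Nat.cast_mul b]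
        calc c * (TT j i s * ((a : ℝ) / b) /
              (((i + 1) * (i + 2) * (16 * (2 * (j + i) + 3)) : ℕ) : ℝ)) =
            (c * TT j i s) * a / (b * (((i + 1) * (i + 2) * (16 * (2 * (j + i) + 3)) : ℕ) : ℝ)) := by
              field_simp
          _ ≤ _ := by gcongr)
    have e : ∀ l, i + 2 + 2 * l = i + 2 * (l + 1) := fun l => by ring
    simp only [e] at h1
    push_cast at h1
    simp only [mul_zero, add_zero]
    exact ⟨by linarith [h1.1], h1.2⟩

theorem sum_two_mul (c : ℕ → ℝ) (F : ℕ) : ∑ i ∈ Finset.range (2 * F), c i =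
    ∑ l ∈ Finset.range F, c (0 + 2 * l) + ∑ l ∈ Finset.range F, c (1 + 2 * l) := by
  induction F with
  | zero => simp
  | succ F ih =>
    rw [show 2 * (F + 1) = 2 * F + 1 + 1 by ring, Finset.sum_range_succ, Finset.sum_range_succ, ih,
      Finset.sum_range_succ, Finset.sum_range_succ, zero_add, add_comm 1 (2 * F)]
    ring

/-- The even and odd chains. -/
noncomputable def AA (j F : ℕ) (s : ℝ) : ℝ := ∑ l ∈ Finset.range F, TT j (0 + 2 * l) s
noncomputable def BB (j F : ℕ) (s : ℝ) : ℝ := ∑ l ∈ Finset.range F, TT j (1 + 2 * l) s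

theorem series (j F : ℕ) {s : ℝ} (hs : 0 ≤ s) :
    |gg j s - (if j % 2 = 0 then AA j F s - sig * BB j F s else BB j F s - sig * AA j F s)| ≤
      (if j % 2 = 0 then 1 else sig) * TT j (0 + 2 * F) s := by
  have h := taylor (2 * F) j 0 s le_rfl hs
  rw [sum_two_mul] at h
  simp only [gg_zero, MM_eq, sub_zero] at h
  have e0 : ∀ l, (j + (0 + 2 * l)) % 2 = j % 2 := fun l => by omega
  have e1 : ∀ l, (j + (1 + 2 * l)) % 2 = (j + 1) % 2 := fun l => by omega
  have e2 : (j + 2 * F) % 2 = j % 2 := by omega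
  have p0 : ∀ l, (-1 : ℝ) ^ (j + (0 + 2 * l)) = (-1) ^ j := fun l => by
    rw [pow_add, zero_add, pow_mul]; simp
  have p1 : ∀ l, (-1 : ℝ) ^ (j + (1 + 2 * l)) = -(-1) ^ j := fun l => by
    rw [pow_add, pow_add, pow_mul]; simp
  simp only [e0, e1, e2, p0, p1] at h
  rcases Nat.mod_two_eq_zero_or_one j with hj | hj
  · have hj1 : (j + 1) % 2 = 1 := by omega
    have hp : (-1 : ℝ) ^ j = 1 := Even.neg_one_pow (Nat.even_iff.2 hj)
    simp only [hj, hj1, hp, if_true, one_ne_zero, if_false] at h ⊢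
    convert h using 2
    · congr 1
      rw [AA, BB, Finset.mul_sum, sub_eq_add_neg, ← Finset.sum_neg_distrib]
      congr 1 <;> refine Finset.sum_congr rfl fun l _ => ?_ <;> rw [TT] <;> ring
    · rw [TT, zero_add]; ring
  · have hj1 : (j + 1) % 2 = 0 := by omega
    have hp : (-1 : ℝ) ^ j = -1 := Odd.neg_one_pow (Nat.odd_iff.2 hj)
    simp only [hj, hj1, hp, if_true, one_ne_zero, if_false] at h ⊢
    convert h using 2
    · congr 1
      rw [AA, BB, Finset.mul_sum, sub_eq_add_neg, ← Finset.sum_neg_distrib, add_comm]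
      congr 1 <;> refine Finset.sum_congr rfl fun l _ => ?_ <;> rw [TT] <;> ring
    · rw [TT, zero_add]; ring

def aLo (F j p q : ℕ) : ℕ := chLo (p * p) (q * q) j F 0 (SS / Wd j) 0
def aHi (F j p q : ℕ) : ℕ × ℕ := chHi (p * p) (q * q) j F 0 (SS / Wd j + 1) 0
def bLo (F j p q : ℕ) : ℕ := chLo (p * p) (q * q) j F 1 (SS * p / (q * Wd (j + 1))) 0
def bHi (F j p q : ℕ) : ℕ := (chHi (p * p) (q * q) j F 1 (SS * p / (q * Wd (j + 1)) + 1) 0).1

theorem chains_sound (F j p : ℕ) {q : ℕ} (hq : 0 < q) :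
    (aLo F j p q : ℝ) ≤ SS * AA j F (p / q) ∧ SS * AA j F (p / q) ≤ (aHi F j p q).1 ∧
    SS * TT j (0 + 2 * F) (p / q) ≤ (aHi F j p q).2 ∧
    (bLo F j p q : ℝ) ≤ SS * BB j F (p / q) ∧ SS * BB j F (p / q) ≤ bHi F j p q := by
  have hq' : (0 : ℝ) < q := by exact_mod_cast hq
  have hs : ((p : ℝ) / q) ^ 2 = ((p * p : ℕ) : ℝ) / ((q * q : ℕ) : ℝ) := by push_cast; field_simp
  have hqq : 0 < q * q := Nat.mul_pos hq hq
  have hw := Wd_pos j
  have hw1 := Wd_pos (j + 1)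
  have hw1' : (0 : ℝ) < Wd (j + 1) := by exact_mod_cast hw1
  have t0 : (SS : ℝ) * TT j 0 (p / q) = (SS : ℝ) / Wd j := by simp [TT, div_eq_mul_inv]
  have t1 : (SS : ℝ) * TT j 1 (p / q) = ((SS * p : ℕ) : ℝ) / ((q * Wd (j + 1) : ℕ) : ℝ) := by
    simp only [TT]; push_cast; simp; field_simp
  have h1 := chLo_sound (j := j) (c := SS) hqq hs F 0 (SS / Wd j) 0 (t0 ▸ Nat.cast_div_le)
  have h2 := chHi_sound (j := j) (c := SS) hqq hs F 0 (SS / Wd j + 1) 0 (t0 ▸ cast_div_succ _ _ hw)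
  have h3 := chLo_sound (j := j) (c := SS) hqq hs F 1 (SS * p / (q * Wd (j + 1))) 0
    (t1 ▸ Nat.cast_div_le)
  have h4 := chHi_sound (j := j) (c := SS) hqq hs F 1 (SS * p / (q * Wd (j + 1)) + 1) 0
    (t1 ▸ cast_div_succ _ _ (Nat.mul_pos hq hw1))
  simp only [Nat.cast_zero, zero_add] at h1 h2 h3 h4
  simp only [aLo, aHi, bLo, bHi, AA, BB, zero_add]
  exact ⟨h1, h2.1, h2.2, h3, h4.1⟩

def sl : ℕ := 26778256930078613612000000000
def su : ℕ := 26778256930078613652000000000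

theorem SS_pos : (0 : ℝ) < SS := by norm_num [SS]

theorem sig_check : sl * bHi 90 0 900 1 + SS * (SS + (aHi 90 0 900 1).2) ≤ SS * aLo 90 0 900 1 ∧
    SS * ((aHi 90 0 900 1).1 + (SS + (aHi 90 0 900 1).2)) ≤ su * bLo 90 0 900 1 ∧
    0 < bLo 90 0 900 1 := by decide +kernel

theorem sig_aux {S l u al ah r bl bh : ℕ} {A B T g : ℝ} (hS : (0 : ℝ) < S)
    (h1 : (al : ℝ) ≤ S * A) (h2 : S * A ≤ ah) (h3 : S * T ≤ r) (h4 : (bl : ℝ) ≤ S * B)
    (h5 : S * B ≤ bh) (h6 : |g - (A - sig * B)| ≤ T) (h7 : |g| ≤ 1)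
    (c : l * bh + S * (S + r) ≤ S * al ∧ S * (ah + (S + r)) ≤ u * bl ∧ 0 < bl) :
    (l : ℝ) ≤ S * sig ∧ S * sig ≤ u := by
  obtain ⟨c1, c2, c3⟩ := c
  have c1' := (Nat.cast_le (α := ℝ)).2 c1
  have c2' := (Nat.cast_le (α := ℝ)).2 c2
  have c3' := (Nat.cast_lt (α := ℝ)).2 c3
  push_cast at c1' c2' c3'
  have hσ := sig_pos
  have hsl : (0 : ℝ) ≤ l := Nat.cast_nonneg _
  have hsu : (0 : ℝ) ≤ u := Nat.cast_nonneg _
  rw [abs_le] at h6 h7
  have hB : 0 < S * B := by linarith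
  have k1 : S * A - S - S * T ≤ sig * (S * B) := by nlinarith [h6.1, h7.2]
  have k2 : sig * (S * B) ≤ S * A + S + S * T := by nlinarith [h6.2, h7.1]
  constructor
  · refine le_of_mul_le_mul_right ?_ hB
    nlinarith [mul_le_mul_of_nonneg_left h5 hsl, mul_le_mul_of_nonneg_left k1 hS.le,
      mul_le_mul_of_nonneg_left h1 hS.le, mul_le_mul_of_nonneg_left h3 hS.le]
  · refine le_of_mul_le_mul_right ?_ hB
    nlinarith [mul_le_mul_of_nonneg_left h4 hsu, mul_le_mul_of_nonneg_left k2 hS.le,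
      mul_le_mul_of_nonneg_left h2 hS.le, mul_le_mul_of_nonneg_left h3 hS.le]

theorem sig_bounds : (sl : ℝ) ≤ SS * sig ∧ SS * sig ≤ su := by
  obtain ⟨h1, h2, h3, h4, h5⟩ := chains_sound 90 0 900 (q := 1) one_pos
  have h6 := series 0 90 (s := ((900 : ℕ) : ℝ) / ((1 : ℕ) : ℝ)) (by positivity)
  have h7 := abs_gg 0 (((900 : ℕ) : ℝ) / ((1 : ℕ) : ℝ))
  rw [MM_zero] at h7
  rw [if_pos (Nat.zero_mod 2), if_pos (Nat.zero_mod 2), one_mul] at h6
  exact sig_aux SS_pos h1 h2 h3 h4 h5 h6 h7 sig_check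

theorem sig_le_one : sig ≤ 1 := by
  have h := sig_bounds.2
  norm_num [SS, su] at h
  linarith

theorem sig_ge : 0.33798 ≤ sig := by
  have h := sig_bounds.1
  norm_num [SS, sl] at h ⊢
  linarith

theorem MM_le (k : ℕ) : MM k ≤ 1 / Wd k := by
  rw [MM_eq]
  have := sig_le_one
  split_ifs <;> gcongr

/-- Enclosure from the four chains. -/
def comb (elo ehi olo ohi r : ℕ) : ℤ × ℤ :=
  ((elo : ℤ) - ((su * ohi / SS + 1 : ℕ) : ℤ) - r, (ehi : ℤ) - ((sl * olo / SS : ℕ) : ℤ) + r)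

theorem comb_sound {elo ehi olo ohi r : ℕ} {E O R g : ℝ} (h1 : (elo : ℝ) ≤ SS * E)
    (h2 : SS * E ≤ ehi) (h3 : (olo : ℝ) ≤ SS * O) (h4 : SS * O ≤ ohi) (h5 : SS * R ≤ r)
    (h : |g - (E - sig * O)| ≤ R) :
    ((comb elo ehi olo ohi r).1 : ℝ) ≤ SS * g ∧ SS * g ≤ (comb elo ehi olo ohi r).2 := by
  have hS := SS_pos
  have hσ := sig_pos
  obtain ⟨s1, s2⟩ := sig_bounds
  have hS0 : 0 < SS := by norm_num [SS]
  unfold comb
  generalize SS = SS at *
  generalize su = su at *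
  generalize sl = sl at *
  have k1 := cast_div_succ (su * ohi) SS hS0
  have k2 : ((sl * olo / SS : ℕ) : ℝ) ≤ ((sl * olo : ℕ) : ℝ) / SS := Nat.cast_div_le
  have k3 : sig * (SS * O) ≤ ((su * ohi : ℕ) : ℝ) / SS := by
    rw [le_div_iff₀ hS]; push_cast
    have : (0 : ℝ) ≤ ohi := Nat.cast_nonneg _
    nlinarith [mul_le_mul_of_nonneg_left h4 (mul_pos hS hσ).le, mul_le_mul_of_nonneg_right s2 this]
  have k4 : ((sl * olo : ℕ) : ℝ) / SS ≤ sig * (SS * O) := by
    rw [div_le_iff₀ hS]; push_cast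
    have : (0 : ℝ) ≤ olo := Nat.cast_nonneg _
    nlinarith [mul_le_mul_of_nonneg_left h3 (mul_pos hS hσ).le, mul_le_mul_of_nonneg_right s1 this]
  rw [abs_le] at h
  simp only [Int.cast_sub, Int.cast_add, Int.cast_natCast]
  constructor <;> nlinarith [mul_le_mul_of_nonneg_left h.1 hS.le, mul_le_mul_of_nonneg_left h.2 hS.le]

/-- Enclosure at a point. -/
def pt (F j p q : ℕ) : ℤ × ℤ :=
  match aHi F j p q with
  | (ah, r) =>
    if j % 2 = 0 then comb (aLo F j p q) ah (bLo F j p q) (bHi F j p q) r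
    else comb (bLo F j p q) (bHi F j p q) (aLo F j p q) ah r

theorem TT_nonneg (j i : ℕ) {s : ℝ} (hs : 0 ≤ s) : 0 ≤ TT j i s := by unfold TT; positivity

theorem pt_sound (F j p : ℕ) {q : ℕ} (hq : 0 < q) :
    ((pt F j p q).1 : ℝ) ≤ SS * gg j (p / q) ∧ SS * gg j (p / q) ≤ (pt F j p q).2 := by
  obtain ⟨h1, h2, h3, h4, h5⟩ := chains_sound F j p hq
  have h6 := series j F (s := (p : ℝ) / q) (by positivity)
  have h7 := TT_nonneg j (0 + 2 * F) (s := (p : ℝ) / q) (by positivity)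
  unfold pt
  split_ifs at h6 ⊢ with hj
  · exact comb_sound h1 h2 h4 h5 h3 (by linarith)
  · exact comb_sound h4 h5 h1 h2 h3 (h6.trans (mul_le_of_le_one_left h7 sig_le_one))

def up (z : ℤ) (a b : ℕ) : ℕ := z.toNat * a / b + 1

theorem up_sound {z : ℤ} {a b : ℕ} (hb : 0 < b) {v x : ℝ} (hv : v ≤ z) (hx : 0 ≤ x)
    (hxa : x ≤ (a : ℝ) / b) : v * x ≤ up z a b := by
  refine le_trans ?_ (cast_div_succ _ _ hb)
  have h1 : (z : ℝ) ≤ z.toNat := by exact_mod_cast Int.self_le_toNat z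
  push_cast
  rw [mul_div_assoc]
  exact (mul_le_mul_of_nonneg_right (hv.trans h1) hx).trans
    (mul_le_mul_of_nonneg_left hxa (Nat.cast_nonneg _))

def encl0 (P0 P1 P2 P3 : ℤ × ℤ) (j q d : ℕ) : ℤ × ℤ :=
  (P0.1 - (up (-P1.1) d q + up (-P2.1) (d ^ 2) (q ^ 2 * 2) + up (-P3.1) (d ^ 3) (q ^ 3 * 6) +
      up SS (d ^ 4) (q ^ 4 * (Wd (j + 4) * 24)) : ℕ),
   P0.2 + (up P1.2 d q + up P2.2 (d ^ 2) (q ^ 2 * 2) + up P3.2 (d ^ 3) (q ^ 3 * 6) +
      up SS (d ^ 4) (q ^ 4 * (Wd (j + 4) * 24)) : ℕ))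

/-- Enclosure on the cell from p/q to (p+d)/q. -/
def encl (F j p q d : ℕ) : ℚ × ℚ :=
  match encl0 (pt F j p q) (pt F (j + 1) p q) (pt F (j + 2) p q) (pt F (j + 3) p q) j q d with
  | (l, h) => ((l : ℚ) / SS, (h : ℚ) / SS)

theorem encl_sound (F j p d : ℕ) {q : ℕ} (hq : 0 < q) {s : ℝ} (h1 : (p : ℝ) / q ≤ s)
    (h2 : s ≤ ((p : ℝ) + d) / q) :
    ((encl F j p q d).1 : ℝ) ≤ gg j s ∧ gg j s ≤ (encl F j p q d).2 := by
  have hS := SS_pos
  have hq' : (0 : ℝ) < q := by exact_mod_cast hq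
  have ht := taylor 4 j (p / q) s (by positivity) h1
  set x := s - p / q with hx
  have hx0 : 0 ≤ x := by linarith
  have hxd : x ≤ (d : ℝ) / q := by rw [add_div] at h2; linarith
  have hw : (0 : ℝ) < Wd (j + 4) := by exact_mod_cast Wd_pos _
  have x2 : x ^ 2 / 2 ≤ ((d ^ 2 : ℕ) : ℝ) / ((q ^ 2 * 2 : ℕ) : ℝ) := by
    push_cast; rw [← div_div, ← div_pow]; gcongr
  have x3 : x ^ 3 / 6 ≤ ((d ^ 3 : ℕ) : ℝ) / ((q ^ 3 * 6 : ℕ) : ℝ) := by
    push_cast; rw [← div_div, ← div_pow]; gcongr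
  have x4 : x ^ 4 / (Wd (j + 4) * 24) ≤
      ((d ^ 4 : ℕ) : ℝ) / ((q ^ 4 * (Wd (j + 4) * 24) : ℕ) : ℝ) := by
    push_cast; rw [← div_div ((d : ℝ) ^ 4), ← div_pow]; gcongr
  obtain ⟨a0, b0⟩ := pt_sound F j p hq
  obtain ⟨a1, b1⟩ := pt_sound F (j + 1) p hq
  obtain ⟨a2, b2⟩ := pt_sound F (j + 2) p hq
  obtain ⟨a3, b3⟩ := pt_sound F (j + 3) p hq
  have u1 := up_sound hq b1 hx0 hxd
  have u2 := up_sound (by positivity) b2 (by positivity) x2
  have u3 := up_sound (by positivity) b3 (by positivity) x3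
  have u4 := up_sound (z := SS) (v := SS) (by have := Wd_pos (j + 4); positivity) (by simp)
    (by positivity) x4
  have l1 := up_sound (z := -(pt F (j + 1) p q).1) (v := -(SS * gg (j + 1) (p / q))) hq
    (by push_cast; linarith) hx0 hxd
  have l2 := up_sound (z := -(pt F (j + 2) p q).1) (v := -(SS * gg (j + 2) (p / q)))
    (by positivity) (by push_cast; linarith) (by positivity) x2
  have l3 := up_sound (z := -(pt F (j + 3) p q).1) (v := -(SS * gg (j + 3) (p / q)))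
    (by positivity) (by push_cast; linarith) (by positivity) x3
  have hr : MM (j + 4) * x ^ 4 / (4 : ℕ).factorial ≤ x ^ 4 / (Wd (j + 4) * 24) := by
    have := MM_le (j + 4)
    calc MM (j + 4) * x ^ 4 / (4 : ℕ).factorial ≤ 1 / Wd (j + 4) * x ^ 4 / (4 : ℕ).factorial := by
          gcongr
      _ = _ := by simp [Nat.factorial]; field_simp
  have ht' := abs_le.1 (ht.trans hr)
  simp only [Finset.sum_range_succ, Finset.sum_range_zero, Nat.factorial] at ht'
  simp only [encl, encl0]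
  push_cast at ht' ⊢
  rw [div_le_iff₀ hS, le_div_iff₀ hS]
  simp only [add_zero, pow_zero, mul_one, div_one, zero_add, pow_one] at ht'
  constructor <;>
    nlinarith [mul_le_mul_of_nonneg_left ht'.1 hS.le, mul_le_mul_of_nonneg_left ht'.2 hS.le]

theorem exists_cell {N : ℕ} (hN : 0 < N) {a h s : ℝ} (h1 : a ≤ s) (h2 : s ≤ a + N * h) :
    ∃ i < N, a + i * h ≤ s ∧ s ≤ a + (i + 1) * h := by
  induction N with
  | zero => omega
  | succ N ih =>
    rcases Nat.eq_zero_or_pos N with rfl | hN'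
    · exact ⟨0, by omega, by simpa using h1, by simpa using h2⟩
    · by_cases h3 : s ≤ a + N * h
      · obtain ⟨i, hi, h⟩ := ih hN' h3
        exact ⟨i, by omega, h⟩
      · exact ⟨N, by omega, (not_le.1 h3).le, by simpa using h2⟩

/-- Cells of a uniform grid with common denominator. -/
theorem seg_cell {N q : ℕ} (hN : 0 < N) (hq : 0 < q) (p d : ℕ) {s : ℝ} (h1 : (p : ℝ) / q ≤ s)
    (h2 : s ≤ ((p : ℝ) + N * d) / q) :
    ∃ i < N, ((p + i * d : ℕ) : ℝ) / q ≤ s ∧ s ≤ (((p + i * d : ℕ) : ℝ) + d) / q := by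
  have hq' : (0 : ℝ) < q := by exact_mod_cast hq
  obtain ⟨i, hi, h3, h4⟩ := exists_cell hN (a := (p : ℝ) / q) (h := (d : ℝ) / q) h1
    (h2.trans (le_of_eq (by field_simp)))
  refine ⟨i, hi, le_trans (le_of_eq ?_) h3, h4.trans (le_of_eq ?_)⟩ <;> push_cast <;> field_simp
  ring

theorem cells_integral_le {f : ℝ → ℝ} (hf : Continuous f) {a h : ℝ} (hh : 0 ≤ h) (c : ℕ → ℝ)
    (N : ℕ) (hc : ∀ i < N, ∀ t, a + i * h ≤ t → t ≤ a + (i + 1) * h → f t ≤ c i) :
    ∫ t in a..(a + N * h), f t ≤ h * ∑ i ∈ Finset.range N, c i := by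
  induction N with
  | zero => simp
  | succ N ih =>
    have h1 := ih fun i hi => hc i (by omega)
    rw [← intervalIntegral.integral_add_adjacent_intervals (b := a + N * h)
      (hf.intervalIntegrable _ _) (hf.intervalIntegrable _ _), Finset.sum_range_succ, mul_add]
    refine add_le_add h1 ?_
    have h2 : ∫ t in (a + N * h)..(a + ((N + 1 : ℕ) : ℝ) * h), f t ≤
        ∫ _ in (a + N * h)..(a + ((N + 1 : ℕ) : ℝ) * h), c N :=
      intervalIntegral.integral_mono_on (by push_cast; linarith) (hf.intervalIntegrable _ _)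
        intervalIntegrable_const fun t ht => hc N (by omega) t ht.1 (by simpa using ht.2)
    refine h2.trans (le_of_eq ?_)
    simp; ring_nf; simp

/-- Rounding upward. -/
def rup (x : ℚ) : ℚ := (⌈x * 1099511627776⌉ : ℚ) / 1099511627776

theorem le_rup (x : ℚ) : x ≤ rup x := by
  rw [rup, le_div_iff₀ (by norm_num)]; exact Int.le_ceil _

def sumQ (c : ℕ → ℚ) : ℕ → ℚ
  | 0 => 0
  | (n + 1) => sumQ c n + rup (c n)

theorem le_sumQ (c : ℕ → ℚ) (N : ℕ) : ∑ i ∈ Finset.range N, (c i : ℝ) ≤ sumQ c N := by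
  induction N with
  | zero => simp [sumQ]
  | succ N ih =>
    rw [Finset.sum_range_succ, sumQ]
    push_cast
    exact add_le_add ih (by exact_mod_cast le_rup _)

def allLt (P : ℕ → Bool) : ℕ → Bool
  | 0 => true
  | (n + 1) => P n && allLt P n

theorem allLt_sound {P : ℕ → Bool} {N : ℕ} (h : allLt P N = true) : ∀ i < N, P i = true := by
  induction N with
  | zero => intro i hi; omega
  | succ N ih =>
    simp only [allLt, Bool.and_eq_true] at h
    intro i hi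
    rcases Nat.lt_succ_iff_lt_or_eq.1 hi with h1 | rfl
    · exact ih h.2 i h1
    · exact h.1

/-- Upper bound for the exponential of the negative. -/
def eU (y : ℚ) : ℚ := 1 / (1 + y + y ^ 2 / 2 + y ^ 3 / 6 + y ^ 4 / 24 + y ^ 5 / 120)

theorem eU_sound {y : ℚ} {x : ℝ} (hy : 0 ≤ y) (hx : (y : ℝ) ≤ x) : Real.exp (-x) ≤ eU y := by
  have hy' : (0 : ℝ) ≤ y := by exact_mod_cast hy
  have h := Real.sum_le_exp_of_nonneg hy' 6
  simp only [Finset.sum_range_succ, Finset.sum_range_zero, Nat.factorial] at h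
  rw [Real.exp_neg, eU]
  push_cast at h ⊢
  rw [← one_div]
  refine one_div_le_one_div_of_le (by positivity) ?_
  have := Real.exp_le_exp.2 hx
  linarith

/-- Lower bound for the exponential of the negative. -/
def eL (y : ℚ) : ℚ := (1 - y / 256) ^ 256

theorem eL_sound {y : ℚ} {x : ℝ} (hy : y ≤ 256) (hx : x ≤ y) : (eL y : ℝ) ≤ Real.exp (-x) := by
  have hy' : (y : ℝ) ≤ ((256 : ℕ) : ℝ) := by exact_mod_cast hy
  have h := Real.one_sub_div_pow_le_exp_neg hy'
  rw [eL]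
  push_cast at h ⊢
  exact h.trans (Real.exp_le_exp.2 (by linarith))

end Pool.Agent.MP_39fec4_gt.P4
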