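import Pool.Agent.MP_39fec4_gt.Trig

set_option autoImplicit false

namespace Pool.Agent.MP_39fec4_gt

open MeasureTheory Set Filter Topology

noncomputable def gg (x : ℝ) : ℝ := Real.exp (-x ^ 2)

noncomputable def kk (η x : ℝ) : ℝ := Real.exp (-(x ^ 2 * x ^ η))

noncomputable def dd (η x : ℝ) : ℝ := kk η x - gg x

noncomputable def dd1 (η x : ℝ) : ℝ := -(x * ((2 + η) * x ^ η * kk η x - 2 * gg x))

noncomputable def dd2 (η x : ℝ) : ℝ :=
  x ^ 2 * ((2 + η) ^ 2 * (x ^ η) ^ 2 * kk η x - 4 * gg x) -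
    ((2 + η) * (1 + η) * x ^ η * kk η x - 2 * gg x)

noncomputable def rr (η x : ℝ) : ℝ := kk η x - gg x * (1 - (x ^ 2 * x ^ η - x ^ 2))

noncomputable def BB (x : ℝ) : ℝ := (1 + 1 / √x) * (1 + x) ^ 12 * gg x

theorem gg_pos (x : ℝ) : 0 < gg x := Real.exp_pos _

theorem kk_pos (η x : ℝ) : 0 < kk η x := Real.exp_pos _

theorem BB_pos {x : ℝ} (hx : 0 < x) : 0 < BB x := by
  have := gg_pos x
  unfold BB; positivity

theorem contOn_gg : ContinuousOn gg (Ioi 0) := by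
  unfold gg; fun_prop

theorem contOn_rpow (a : ℝ) : ContinuousOn (fun x : ℝ => x ^ a) (Ioi 0) :=
  continuousOn_id.rpow_const fun _ hx => Or.inl (ne_of_gt hx)

theorem contOn_kk (η : ℝ) : ContinuousOn (kk η) (Ioi 0) := by
  have := contOn_rpow η
  unfold kk; fun_prop

theorem integrableOn_BB : IntegrableOn BB (Ioi 0) := by
  have h1 := Real.GammaIntegral_convergent (s := 1) one_pos
  have h2 := Real.GammaIntegral_convergent (s := 1 / 2) (by norm_num)
  have hc : ContinuousOn BB (Ioi 0) := by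
    have := contOn_gg
    unfold BB
    refine (ContinuousOn.mul (continuousOn_const.add (continuousOn_const.div (by fun_prop) ?_))
      (by fun_prop)).mul this
    intro x hx
    exact (Real.sqrt_pos.2 hx).ne'
  refine ((h1.add h2).const_mul (Real.exp 49)).mono' (hc.aestronglyMeasurable measurableSet_Ioi)
    ((ae_restrict_iff' measurableSet_Ioi).2 (Eventually.of_forall fun x hx => ?_))
  have hx : 0 < x := hx
  rw [Real.norm_eq_abs, abs_of_pos (BB_pos hx)]
  have e1 : x ^ ((1 : ℝ) / 2 - 1) = 1 / √x := by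
    rw [Real.sqrt_eq_rpow, one_div (x ^ _), ← Real.rpow_neg hx.le]; norm_num
  have h3 : (1 + x) ^ 12 * gg x ≤ Real.exp 49 * Real.exp (-x) := by
    have : (1 + x) ^ 12 ≤ Real.exp x ^ 12 := by
      gcongr; linarith [Real.add_one_le_exp x]
    calc (1 + x) ^ 12 * gg x ≤ Real.exp x ^ 12 * gg x := by have := gg_pos x; gcongr
      _ ≤ _ := by
        rw [gg, ← Real.exp_nat_mul, ← Real.exp_add, ← Real.exp_add]
        apply Real.exp_le_exp.2
        push_cast
        nlinarith [sq_nonneg (x - 7)]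
  simp only [Pi.add_apply, e1, sub_self, Real.rpow_zero]
  calc BB x = (1 + 1 / √x) * ((1 + x) ^ 12 * gg x) := by unfold BB; ring
    _ ≤ (1 + 1 / √x) * (Real.exp 49 * Real.exp (-x)) := by gcongr
    _ = _ := by ring

variable {η x : ℝ}

theorem rpow_le_one_add (h0 : 0 < η) (h1 : η ≤ 1) (hx : 0 < x) : x ^ η ≤ 1 + x := by
  rcases le_total x 1 with h | h
  · linarith [Real.rpow_le_one hx.le h h0.le]
  · have := Real.rpow_le_rpow_of_exponent_le h h1
    rw [Real.rpow_one] at this; linarith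

theorem delta_le (h0 : 0 < η) (h1 : η ≤ 1) (hx : 0 < x) :
    |x ^ η - 1| ≤ 2 * η * (1 + 1 / √x) * (1 + x) ^ 2 ∧ x ^ 2 * |x ^ η - 1| ≤ η * (1 + x) ^ 4 ∧
      -1 ≤ x ^ 2 * (x ^ η - 1) := by
  have hu : 0 < x ^ η := Real.rpow_pos_of_pos hx η
  have hs : 0 < √x := Real.sqrt_pos.2 hx
  have hv : 0 < 1 / √x := by positivity
  have hy2 : 1 ≤ (1 + x) ^ 2 := one_le_pow₀ (by linarith)
  rcases le_total x 1 with h | h
  · have a1 : x ^ η ≤ 1 := Real.rpow_le_one hx.le h h0.le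
    have a2 : 1 + Real.log x * η ≤ x ^ η := by
      rw [Real.rpow_def_of_pos hx]; linarith [Real.add_one_le_exp (Real.log x * η)]
    have a3 : -Real.log x ≤ 2 * (1 / √x) := by
      have := Real.log_le_sub_one_of_pos hv
      rw [Real.log_div one_ne_zero hs.ne', Real.log_one, Real.log_sqrt hx.le] at this
      linarith
    have a4 : -Real.log x * x ≤ 1 := by
      have := (abs_lt.1 (Real.abs_log_mul_self_lt x hx h)).1
      linarith
    rw [abs_sub_comm, abs_of_nonneg (by linarith)]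
    refine ⟨?_, ?_, ?_⟩
    · calc 1 - x ^ η ≤ η * (2 * (1 / √x)) := by nlinarith
        _ ≤ 2 * η * (1 + 1 / √x) * 1 := by nlinarith
        _ ≤ _ := by gcongr
    · have : x ≤ (1 + x) ^ 4 := le_trans (by linarith) (le_self_pow₀ (by linarith) (by norm_num))
      calc x ^ 2 * (1 - x ^ η) ≤ x ^ 2 * (-Real.log x * η) := by gcongr; linarith
        _ = η * x * (-Real.log x * x) := by ring
        _ ≤ η * x * 1 := by gcongr
        _ ≤ _ := by rw [mul_one]; gcongr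
    · have : x ^ 2 ≤ 1 := pow_le_one₀ hx.le h
      nlinarith [mul_pos (pow_pos hx 2) hu]
  · have a1 : 1 ≤ x ^ η := Real.one_le_rpow h h0.le
    have a2 : x ^ η ≤ x := by
      have := Real.rpow_le_rpow_of_exponent_le h h1
      rwa [Real.rpow_one] at this
    have a3 : x ^ η - 1 ≤ η * Real.log x * x ^ η := by
      have h3 := Real.add_one_le_exp (-(Real.log x * η))
      have h4 : Real.exp (-(Real.log x * η)) * x ^ η = 1 := by
        rw [Real.rpow_def_of_pos hx, ← Real.exp_add]; simp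
      nlinarith
    have a4 : Real.log x ≤ x := (Real.log_le_sub_one_of_pos hx).trans (by linarith)
    have a5 : x ^ η - 1 ≤ η * x ^ 2 := by
      calc x ^ η - 1 ≤ η * Real.log x * x ^ η := a3
        _ ≤ η * x * x := by gcongr
        _ = _ := by ring
    rw [abs_of_nonneg (by linarith)]
    refine ⟨?_, ?_, ?_⟩
    · calc x ^ η - 1 ≤ η * x ^ 2 := a5
        _ ≤ η * (1 + x) ^ 2 := by gcongr; linarith
        _ ≤ 2 * η * (1 + 1 / √x) * (1 + x) ^ 2 := by gcongr; nlinarith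
    · calc x ^ 2 * (x ^ η - 1) ≤ x ^ 2 * (η * x ^ 2) := by gcongr
        _ = η * x ^ 4 := by ring
        _ ≤ _ := by gcongr; linarith
    · nlinarith [mul_nonneg (sq_nonneg x) (sub_nonneg.2 a1)]

theorem exp_neg_bounds {t : ℝ} (ht : -1 ≤ t) :
    Real.exp (-t) ≤ 3 ∧ |Real.exp (-t) - 1| ≤ 3 * |t| ∧ |Real.exp (-t) - 1 + t| ≤ t ^ 2 := by
  have a1 : Real.exp (-t) ≤ 3 :=
    (Real.exp_le_exp.2 (by linarith : -t ≤ 1)).trans (by linarith [Real.exp_one_lt_d9])
  have a2 := Real.add_one_le_exp (-t)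
  have a3 := Real.exp_pos (-t)
  refine ⟨a1, ?_, ?_⟩
  · rcases le_total 0 t with h | h
    · have : Real.exp (-t) ≤ 1 := Real.exp_le_one_iff.2 (by linarith)
      rw [abs_sub_comm, abs_of_nonneg (by linarith), abs_of_nonneg h]; linarith
    · have h3 := Real.add_one_le_exp t
      have h4 : Real.exp t * Real.exp (-t) = 1 := by rw [← Real.exp_add]; simp
      rw [abs_of_nonneg (by linarith), abs_of_nonpos h]; nlinarith
  · rcases le_total t 1 with h | h
    · have := Real.abs_exp_sub_one_sub_id_le (x := -t) (abs_le.2 ⟨by linarith, by linarith⟩)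
      simpa using this
    · have : Real.exp (-t) ≤ 1 := Real.exp_le_one_iff.2 (by linarith)
      rw [abs_of_nonneg (by linarith)]; nlinarith

theorem kk_eq (η x : ℝ) : kk η x = gg x * Real.exp (-(x ^ 2 * (x ^ η - 1))) := by
  rw [kk, gg, ← Real.exp_add]; congr 1; ring

theorem kk_le (h0 : 0 < η) (h1 : η ≤ 1) (hx : 0 < x) : kk η x ≤ 3 * gg x := by
  have := (exp_neg_bounds (delta_le h0 h1 hx).2.2).1
  rw [kk_eq, mul_comm]; have := gg_pos x; gcongr

theorem dd_le0 (h0 : 0 < η) (h1 : η ≤ 1) (hx : 0 < x) :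
    |dd η x| ≤ 3 * η * (1 + x) ^ 4 * gg x := by
  obtain ⟨-, a2, a3⟩ := delta_le h0 h1 hx
  have b := (exp_neg_bounds a3).2.1
  have g := gg_pos x
  have e : dd η x = gg x * (Real.exp (-(x ^ 2 * (x ^ η - 1))) - 1) := by
    rw [dd, kk_eq]; ring
  rw [e, abs_mul, abs_of_pos g]
  rw [abs_mul, abs_of_nonneg (sq_nonneg x)] at b
  calc _ ≤ gg x * (3 * (η * (1 + x) ^ 4)) := by gcongr; linarith
    _ = _ := by ring

theorem le_BB {f c : ℝ} {m : ℕ} (hx : 0 < x) (hc : 0 ≤ c) (hm : m ≤ 8)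
    (h : |f| ≤ c * (1 + 1 / √x) * (1 + x) ^ m * gg x) {j : ℕ} (hj : j ≤ 4) :
    x ^ j * |f| ≤ c * BB x := by
  have g := gg_pos x
  have h1 : x ^ j ≤ (1 + x) ^ 4 :=
    (pow_le_pow_left₀ hx.le (by linarith) j).trans (pow_le_pow_right₀ (by linarith) hj)
  have h2 : (1 + x) ^ m ≤ (1 + x) ^ 8 := pow_le_pow_right₀ (by linarith) hm
  calc x ^ j * |f| ≤ (1 + x) ^ 4 * (c * (1 + 1 / √x) * (1 + x) ^ 8 * gg x) := by
        gcongr; exact h.trans (by gcongr)
    _ = _ := by unfold BB; ring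

theorem rr_le (h0 : 0 < η) (h1 : η ≤ 1) (hx : 0 < x) {j : ℕ} (hj : j ≤ 4) :
    x ^ j * |rr η x| ≤ η ^ 2 * BB x := by
  obtain ⟨-, a2, a3⟩ := delta_le h0 h1 hx
  have b := (exp_neg_bounds a3).2.2
  have g := gg_pos x
  have e : rr η x = gg x * (Real.exp (-(x ^ 2 * (x ^ η - 1))) - 1 + x ^ 2 * (x ^ η - 1)) := by
    rw [rr, kk_eq]; ring
  refine le_BB hx (by positivity) le_rfl ?_ hj
  rw [e, abs_mul, abs_of_pos g]
  have c : (x ^ 2 * (x ^ η - 1)) ^ 2 ≤ (η * (1 + x) ^ 4) ^ 2 := by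
    rw [← sq_abs, abs_mul, abs_of_nonneg (sq_nonneg x)]; gcongr
  have hv : 1 ≤ 1 + 1 / √x := le_add_of_nonneg_right (by positivity)
  calc _ ≤ gg x * (η * (1 + x) ^ 4) ^ 2 := by gcongr; exact b.trans c
    _ = η ^ 2 * 1 * (1 + x) ^ 8 * gg x := by ring
    _ ≤ _ := by gcongr

theorem dd_le (h0 : 0 < η) (h1 : η ≤ 1) (hx : 0 < x) {j : ℕ} (hj : j ≤ 4) :
    x ^ j * |dd η x| ≤ 3 * η * BB x := by
  have g := gg_pos x
  have hv : 1 ≤ 1 + 1 / √x := le_add_of_nonneg_right (by positivity)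
  refine le_BB (m := 4) hx (by positivity) (by norm_num) ((dd_le0 h0 h1 hx).trans ?_) hj
  calc 3 * η * (1 + x) ^ 4 * gg x = 3 * η * 1 * (1 + x) ^ 4 * gg x := by ring
    _ ≤ _ := by gcongr

theorem delta_gg_le (h0 : 0 < η) (h1 : η ≤ 1) (hx : 0 < x) :
    |x ^ η * gg x - gg x| ≤ 2 * η * BB x := by
  have g := gg_pos x
  have := le_BB (f := x ^ η * gg x - gg x) (m := 2) (j := 0) hx (c := 2 * η) (by positivity)
    (by norm_num) (by
      rw [← sub_one_mul, abs_mul, abs_of_pos g]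
      gcongr; exact (delta_le h0 h1 hx).1) (by norm_num)
  simpa using this

theorem aux_le (h0 : 0 < η) (h1 : η ≤ 1) (hx : 0 < x) {a b : ℝ} (ha : |a| ≤ 5 * η * (1 + x) ^ 2)
    (hb : |b| ≤ 12 * (1 + x)) {c : ℝ} (hc : |c| ≤ 4) :
    |a * kk η x + b * (x ^ η - 1) * kk η x + c * dd η x| ≤
      99 * η * (1 + 1 / √x) * (1 + x) ^ 4 * gg x := by
  have g := gg_pos x
  have k := kk_pos η x
  have hv : 1 ≤ 1 + 1 / √x := le_add_of_nonneg_right (by positivity)
  have hy : 1 ≤ 1 + x := by linarith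
  have b1 := kk_le h0 h1 hx
  have b2 := dd_le0 h0 h1 hx
  have b3 := (delta_le h0 h1 hx).1
  have y24 : (1 + x) ^ 2 ≤ (1 + x) ^ 4 := pow_le_pow_right₀ hy (by norm_num)
  have y34 : (1 + x) ^ 3 ≤ (1 + x) ^ 4 := pow_le_pow_right₀ hy (by norm_num)
  set v := 1 + 1 / √x
  have t1 : |a * kk η x| ≤ 15 * η * v * (1 + x) ^ 4 * gg x := by
    rw [abs_mul, abs_of_pos k]
    calc _ ≤ 5 * η * (1 + x) ^ 4 * (3 * gg x) := by gcongr; exact ha.trans (by gcongr)
      _ = 15 * η * 1 * (1 + x) ^ 4 * gg x := by ring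
      _ ≤ _ := by gcongr
  have t2 : |b * (x ^ η - 1) * kk η x| ≤ 72 * η * v * (1 + x) ^ 4 * gg x := by
    rw [abs_mul, abs_mul, abs_of_pos k]
    calc _ ≤ 12 * (1 + x) * (2 * η * v * (1 + x) ^ 2) * (3 * gg x) := by gcongr
      _ = 72 * η * v * (1 + x) ^ 3 * gg x := by ring
      _ ≤ _ := by gcongr
  have t3 : |c * dd η x| ≤ 12 * η * v * (1 + x) ^ 4 * gg x := by
    rw [abs_mul]
    calc _ ≤ 4 * (3 * η * (1 + x) ^ 4 * gg x) := by gcongr
      _ = 12 * η * 1 * (1 + x) ^ 4 * gg x := by ring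
      _ ≤ _ := by gcongr
  have := abs_add_three (a * kk η x) (b * (x ^ η - 1) * kk η x) (c * dd η x)
  linarith

theorem dd1_le (h0 : 0 < η) (h1 : η ≤ 1) (hx : 0 < x) {j : ℕ} (hj : j ≤ 4) :
    x ^ j * |dd1 η x| ≤ 99 * η * BB x := by
  have g := gg_pos x
  have hu : 0 < x ^ η := Real.rpow_pos_of_pos hx η
  have hy := rpow_le_one_add h0 h1 hx
  refine le_BB (m := 5) hx (by positivity) (by norm_num) ?_ hj
  have := aux_le h0 h1 hx (a := η * x ^ η) (b := 2) (c := 2)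
    (by rw [abs_of_pos (by positivity)]
        have : x ^ η ≤ (1 + x) ^ 2 := hy.trans (le_self_pow₀ (by linarith) (by norm_num))
        nlinarith [mul_nonneg h0.le (sq_nonneg (1 + x))])
    (by rw [abs_two]; linarith) (by rw [abs_two]; norm_num)
  have e : dd1 η x = -(x * (η * x ^ η * kk η x + 2 * (x ^ η - 1) * kk η x + 2 * dd η x)) := by
    unfold dd1 dd; ring
  rw [e, abs_neg, abs_mul, abs_of_pos hx]
  calc _ ≤ (1 + x) * (99 * η * (1 + 1 / √x) * (1 + x) ^ 4 * gg x) := by gcongr; linarith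
    _ = _ := by ring

theorem dd2_le (h0 : 0 < η) (h1 : η ≤ 1) (hx : 0 < x) {j : ℕ} (hj : j ≤ 4) :
    x ^ j * |dd2 η x| ≤ 198 * η * BB x := by
  have g := gg_pos x
  have hu : 0 < x ^ η := Real.rpow_pos_of_pos hx η
  have hy := rpow_le_one_add h0 h1 hx
  have hy1 : 1 ≤ 1 + x := by linarith
  refine le_BB (m := 6) hx (by positivity) (by norm_num) ?_ hj
  have a1 := aux_le h0 h1 hx (a := (4 * η + η ^ 2) * (x ^ η) ^ 2) (b := 4 * (x ^ η + 1)) (c := 4)
    (by rw [abs_of_pos (by positivity)]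
        have : 4 * η + η ^ 2 ≤ 5 * η := by nlinarith
        gcongr)
    (by rw [abs_of_pos (by positivity)]; linarith) (by rw [abs_of_pos (by norm_num)])
  have a2 := aux_le h0 h1 hx (a := (3 * η + η ^ 2) * x ^ η) (b := 2) (c := 2)
    (by rw [abs_of_pos (by positivity)]
        have : x ^ η ≤ (1 + x) ^ 2 := hy.trans (le_self_pow₀ (by linarith) (by norm_num))
        have : 3 * η + η ^ 2 ≤ 5 * η := by nlinarith
        gcongr)
    (by rw [abs_two]; linarith) (by rw [abs_two]; norm_num)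
  have e : dd2 η x = x ^ 2 * ((4 * η + η ^ 2) * (x ^ η) ^ 2 * kk η x +
      4 * (x ^ η + 1) * (x ^ η - 1) * kk η x + 4 * dd η x) -
      ((3 * η + η ^ 2) * x ^ η * kk η x + 2 * (x ^ η - 1) * kk η x + 2 * dd η x) := by
    unfold dd2 dd; ring
  rw [e]
  refine (abs_sub _ _).trans ?_
  rw [abs_mul, abs_of_nonneg (sq_nonneg x)]
  have y2 : 1 ≤ (1 + x) ^ 2 := one_le_pow₀ hy1
  calc _ ≤ (1 + x) ^ 2 * (99 * η * (1 + 1 / √x) * (1 + x) ^ 4 * gg x) +
        (1 + x) ^ 2 * (99 * η * (1 + 1 / √x) * (1 + x) ^ 4 * gg x) := by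
        refine add_le_add (by gcongr; linarith) (a2.trans (le_mul_of_one_le_left ?_ y2))
        positivity
    _ = _ := by ring

theorem hasDerivAt_gg (x : ℝ) : HasDerivAt gg (-(2 * x * gg x)) x := by
  have := (hasDerivAt_pow 2 x).neg.exp
  refine this.congr_deriv ?_
  simp [gg]; ring

theorem hasDerivAt_u (η : ℝ) (hx : 0 < x) : HasDerivAt (fun x : ℝ => x ^ η) (η * x ^ η / x) x := by
  refine (Real.hasDerivAt_rpow_const (p := η) (Or.inl hx.ne')).congr_deriv ?_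
  rw [Real.rpow_sub_one hx.ne']; ring

theorem hasDerivAt_kk (η : ℝ) (hx : 0 < x) :
    HasDerivAt (kk η) (-((2 + η) * x * x ^ η * kk η x)) x := by
  have := ((hasDerivAt_pow 2 x).mul (hasDerivAt_u η hx)).neg.exp
  refine this.congr_deriv ?_
  simp only [kk, Pi.neg_apply, Pi.mul_apply]
  field_simp; ring

theorem hasDerivAt_dd (η : ℝ) (hx : 0 < x) : HasDerivAt (dd η) (dd1 η x) x := by
  refine ((hasDerivAt_kk η hx).sub (hasDerivAt_gg x)).congr_deriv ?_
  unfold dd1; ring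

theorem hasDerivAt_dd1 (η : ℝ) (hx : 0 < x) : HasDerivAt (dd1 η) (dd2 η x) x := by
  have := ((hasDerivAt_id x).mul (((((hasDerivAt_u η hx).const_mul (2 + η)).mul
    (hasDerivAt_kk η hx))).sub ((hasDerivAt_gg x).const_mul 2))).neg
  refine this.congr_deriv ?_
  simp only [dd2, Pi.sub_apply, Pi.mul_apply, id]
  field_simp; ring

end Pool.Agent.MP_39fec4_gt
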