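import Pool.Agent.MP_39fec4_gt.ZGam
import Pool.Agent.MP_39fec4_gt.KFast

set_option autoImplicit false

/-! Fast merge and fast check of the Gamma table. -/

namespace Pool.Agent.MP_39fec4_gt.K

open Set Full

namespace ZFastAX

theorem and_split {w x0 y0 : ℕ} (x1 y1 : ℕ) (hx : x0 < 2 ^ w) (hy : y0 < 2 ^ w) :
    (2 ^ w * x1 + x0) &&& (2 ^ w * y1 + y0) = 2 ^ w * (x1 &&& y1) + (x0 &&& y0) := by
  apply Nat.eq_of_testBit_eq
  intro j
  rw [Nat.testBit_and, Nat.testBit_two_pow_mul_add _ hx, Nat.testBit_two_pow_mul_add _ hy,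
    Nat.testBit_two_pow_mul_add _ (Nat.and_le_left.trans_lt hx)]
  split_ifs <;> rw [Nat.testBit_and]

theorem and_scale (w x y : ℕ) : (2 ^ w * x) &&& (2 ^ w * y) = 2 ^ w * (x &&& y) := by
  simpa using and_split (w := w) (x0 := 0) (y0 := 0) x y (by positivity) (by positivity)

theorem and_scale' (w a y : ℕ) : a &&& (2 ^ w * y) = 2 ^ w * ((a / 2 ^ w) &&& y) := by
  have h := and_split (w := w) (x0 := a % 2 ^ w) (y0 := 0) (a / 2 ^ w) y
    (Nat.mod_lt _ (by positivity)) (by positivity)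
  rw [Nat.div_add_mod] at h
  simpa using h

/-- Digits in slots of width 112. -/
def pk : ℕ → (ℕ → ℕ) → ℕ
  | 0, _ => 0
  | n + 1, d => 2 ^ 112 * pk n (fun i => d (i + 1)) + d 0

theorem pk_and (n : ℕ) : ∀ x y : ℕ → ℕ, (∀ i, x i < 2 ^ 112) → (∀ i, y i < 2 ^ 112) →
    pk n x &&& pk n y = pk n fun i => x i &&& y i := by
  induction n with
  | zero => intro x y _ _; simp [pk]
  | succ n ih =>
    intro x y hx hy
    rw [pk, pk, pk, and_split _ _ (hx 0) (hy 0), ih _ _ (fun i => hx _) fun i => hy _]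

theorem pk_add (n : ℕ) : ∀ x y : ℕ → ℕ, pk n x + pk n y = pk n fun i => x i + y i := by
  induction n with
  | zero => intro x y; rfl
  | succ n ih =>
    intro x y
    rw [pk, pk, pk, ← ih]
    ring

theorem pk_mul (c n : ℕ) : ∀ x : ℕ → ℕ, c * pk n x = pk n fun i => c * x i := by
  induction n with
  | zero => intro x; rfl
  | succ n ih =>
    intro x
    rw [pk, pk, ← ih]
    ring

theorem pk_sub (n : ℕ) {x y z : ℕ → ℕ} (h : ∀ i, z i + y i = x i) : pk n x - pk n y = pk n z := by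
  have e : x = fun i => z i + y i := funext fun i => (h i).symm
  rw [e, ← pk_add, Nat.add_sub_cancel]

theorem fld_div (a k i : ℕ) : fld (a / 2 ^ (56 * k)) 56 i = fld a 56 (k + i) := by
  rw [fld_eq, fld_eq, Nat.div_div_eq_div_mul, ← pow_add, ← mul_add]

theorem pk_mask (n : ℕ) : ∀ a : ℕ,
    a &&& pk n (fun _ => 2 ^ 56 - 1) = pk n fun i => fld a 56 (2 * i) := by
  induction n with
  | zero => intro a; simp [pk]
  | succ n ih =>
    intro a
    have h := and_split (w := 112) (x0 := a % 2 ^ 112) (y0 := 2 ^ 56 - 1) (a / 2 ^ 112)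
      (pk n fun _ => 2 ^ 56 - 1) (Nat.mod_lt _ (by positivity)) (by norm_num)
    rw [Nat.div_add_mod] at h
    rw [pk, pk, h, ih, Nat.and_two_pow_sub_one_eq_mod,
      Nat.mod_mod_of_dvd _ (pow_dvd_pow 2 (by norm_num)), fld_eq, mul_zero, mul_zero, pow_zero,
      Nat.div_one]
    congr 3
    funext i
    have := fld_div a 2 (2 * i)
    rw [show 56 * 2 = 112 from rfl] at this
    rw [this]
    congr 1
    ring

theorem guard {x y : ℕ} (hx : x < 2 ^ 56) (hy : y < 2 ^ 56) :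
    (x + 2 ^ 56 - y) &&& 2 ^ 56 = 2 ^ 56 * if y ≤ x then 1 else 0 := by
  have h := and_scale' 56 (x + 2 ^ 56 - y) 1
  rw [mul_one] at h
  rw [h]
  congr 1
  split_ifs with hxy
  · rw [show (x + 2 ^ 56 - y) / 2 ^ 56 = 1 by omega]
    rfl
  · rw [show (x + 2 ^ 56 - y) / 2 ^ 56 = 0 by omega]
    rfl

theorem core (s n : ℕ) (x y : ℕ → ℕ) (hx : ∀ i, x i < 2 ^ 56) (hy : ∀ i, y i < 2 ^ 56)
    {t g : ℕ} (ht : t = 2 ^ s * pk n x + 2 ^ s * pk n (fun _ => 2 ^ 56) - 2 ^ s * pk n y)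
    (hg : g = t &&& 2 ^ s * pk n fun _ => 2 ^ 56) :
    2 ^ s * pk n y + (t &&& (g - (g >>> 56))) = 2 ^ s * pk n fun i => max (x i) (y i) := by
  have h1 : t = 2 ^ s * pk n fun i => x i + 2 ^ 56 - y i := by
    rw [ht, ← mul_add, ← Nat.mul_sub, pk_add,
      pk_sub n (z := fun i => x i + 2 ^ 56 - y i) fun i => by have := hy i; omega]
  have hb : ∀ i, x i + 2 ^ 56 - y i < 2 ^ 112 := fun i => by have := hx i; omega
  have h2 : g = 2 ^ 56 * (2 ^ s * pk n fun i => if y i ≤ x i then 1 else 0) := by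
    rw [hg, h1, and_scale, pk_and n _ _ hb fun _ => by norm_num, mul_left_comm, pk_mul (2 ^ 56)]
    simp only [guard (hx _) (hy _)]
  have h3 : g - (g >>> 56) = 2 ^ s * pk n fun i => if y i ≤ x i then 2 ^ 56 - 1 else 0 := by
    rw [Nat.shiftRight_eq_div_pow, h2, Nat.mul_div_cancel_left _ (by positivity),
      ← Nat.sub_one_mul, mul_left_comm, pk_mul (2 ^ 56 - 1)]
    simp only [mul_ite, mul_one, mul_zero]
  rw [h3, h1, and_scale, pk_and n _ _ hb fun i => by split_ifs <;> norm_num, ← mul_add, pk_add]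
  congr 2
  funext i
  have h4 := hx i
  have h5 := hy i
  split_ifs with hxy
  · rw [Nat.and_two_pow_sub_one_eq_mod]
    omega
  · rw [Nat.and_zero]
    omega

theorem mrgH_eq (k n a b : ℕ) :
    mrgH a b (2 ^ (56 * k) * pk n fun _ => 2 ^ 56 - 1) (2 ^ (56 * k) * pk n fun _ => 2 ^ 56) =
      2 ^ (56 * k) * pk n fun i => max (fld a 56 (k + 2 * i)) (fld b 56 (k + 2 * i)) := by
  simp only [mrgH, forceN_eq]
  rw [and_scale' _ a, and_scale' _ b, pk_mask, pk_mask]
  simp only [fld_div]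
  exact core _ n _ _ (fun i => fld_lt _ _ _) (fun i => fld_lt _ _ _) rfl rfl

theorem pk_sum (m : ℕ → ℕ) :
    (2 ^ (56 * 0) * pk 6 fun i => m (0 + 2 * i)) + (2 ^ (56 * 1) * pk 5 fun i => m (1 + 2 * i)) =
      m 0 + (m 1 <<< 56) + (m 2 <<< 112) + (m 3 <<< 168) + (m 4 <<< 224) + (m 5 <<< 280) +
        (m 6 <<< 336) + (m 7 <<< 392) + (m 8 <<< 448) + (m 9 <<< 504) + (m 10 <<< 560) := by
  have p : ∀ k x : ℕ, x <<< (56 * k) = x * (2 ^ 56) ^ k := fun k x => by
    rw [Nat.shiftLeft_eq, pow_mul]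
  have p1 : (2 : ℕ) ^ 112 = (2 ^ 56) ^ 2 := by rw [← pow_mul]
  change _ = m 0 + (m 1 <<< (56 * 1)) + (m 2 <<< (56 * 2)) + (m 3 <<< (56 * 3)) +
    (m 4 <<< (56 * 4)) + (m 5 <<< (56 * 5)) + (m 6 <<< (56 * 6)) + (m 7 <<< (56 * 7)) +
    (m 8 <<< (56 * 8)) + (m 9 <<< (56 * 9)) + (m 10 <<< (56 * 10))
  rw [p, p, p, p, p, p, p, p, p, p, pow_mul, pow_mul]
  simp only [pk]
  rw [p1]
  generalize (2 : ℕ) ^ 56 = u
  ring

theorem gamA_rec (f c : ℕ) (k : ℕ) : ∀ r : ℕ,
    ((Nat.rec (motive := fun _ => ℕ → ℕ) (fun r => r)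
      (fun i ih r => ih ((655360 * (c + r)) / (f + 4096 * (i + 1)))) k r : ℕ) : ℝ) ≤
      SG ((f : ℝ) / 4096) 160 k * c +
        r * (160 ^ k / ∏ j ∈ Finset.range k, ((f : ℝ) / 4096 + 1 + j)) ∧
    SG ((f : ℝ) / 4096) 160 k * c +
        (r + 1) * (160 ^ k / ∏ j ∈ Finset.range k, ((f : ℝ) / 4096 + 1 + j)) ≤
      ((Nat.rec (motive := fun _ => ℕ → ℕ) (fun r => r)
        (fun i ih r => ih ((655360 * (c + r)) / (f + 4096 * (i + 1)))) k r : ℕ) : ℝ) + 1 +
        SG ((f : ℝ) / 4096) 160 k := by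
  induction k with
  | zero =>
    intro r
    simp [SG]
  | succ k ih =>
    intro r
    obtain ⟨h1, h2⟩ := ih ((655360 * (c + r)) / (f + 4096 * (k + 1)))
    have h3 := ZGamX.div_le' (655360 * (c + r)) (f + 4096 * (k + 1))
    have h4 := ZGamX.div_lt' (655360 * (c + r)) (f + 4096 * (k + 1))
    have hP : 0 < ∏ j ∈ Finset.range k, ((f : ℝ) / 4096 + 1 + j) :=
      Finset.prod_pos fun j _ => by positivity
    have hS : SG ((f : ℝ) / 4096) 160 (k + 1) = SG ((f : ℝ) / 4096) 160 k +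
        160 ^ (k + 1) / ∏ j ∈ Finset.range (k + 1), ((f : ℝ) / 4096 + 1 + j) := by
      unfold SG
      rw [Finset.sum_range_succ]
    have hQ : (160 : ℝ) ^ (k + 1) / ∏ j ∈ Finset.range (k + 1), ((f : ℝ) / 4096 + 1 + j) =
        (160 ^ k / ∏ j ∈ Finset.range k, ((f : ℝ) / 4096 + 1 + j)) *
          (655360 / (f + 4096 * (k + 1))) := by
      rw [Finset.prod_range_succ, pow_succ]
      field_simp
      ring
    have hT : (0 : ℝ) ≤ 160 ^ k / ∏ j ∈ Finset.range k, ((f : ℝ) / 4096 + 1 + j) := by positivity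
    rw [hS, hQ]
    change ((Nat.rec (motive := fun _ => ℕ → ℕ) (fun r => r)
      (fun i ih r => ih ((655360 * (c + r)) / (f + 4096 * (i + 1)))) k
        ((655360 * (c + r)) / (f + 4096 * (k + 1))) : ℕ) : ℝ) ≤ _ ∧ _ ≤
      ((Nat.rec (motive := fun _ => ℕ → ℕ) (fun r => r)
      (fun i ih r => ih ((655360 * (c + r)) / (f + 4096 * (i + 1)))) k
        ((655360 * (c + r)) / (f + 4096 * (k + 1))) : ℕ) : ℝ) + 1 + _
    generalize ((Nat.rec (motive := fun _ => ℕ → ℕ) (fun r => r)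
      (fun i ih r => ih ((655360 * (c + r)) / (f + 4096 * (i + 1)))) k
        ((655360 * (c + r)) / (f + 4096 * (k + 1))) : ℕ) : ℝ) = L at h1 h2 ⊢
    rw [Nat.cast_add_one] at h4
    generalize (((655360 * (c + r)) / (f + 4096 * (k + 1)) : ℕ) : ℝ) = q at h1 h2 h3 h4 ⊢
    generalize (160 : ℝ) ^ k / ∏ j ∈ Finset.range k, ((f : ℝ) / 4096 + 1 + j) = T at *
    generalize SG ((f : ℝ) / 4096) 160 k = S at *
    have e : ((655360 * (c + r) : ℕ) : ℝ) / ((f + 4096 * (k + 1) : ℕ) : ℝ) =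
        (655360 / (f + 4096 * (k + 1))) * (c + r) := by
      push_cast
      ring
    rw [e] at h3 h4
    generalize (655360 : ℝ) / (f + 4096 * (k + 1)) = u at *
    have h5 := mul_le_mul_of_nonneg_left h3 hT
    have h6 := mul_le_mul_of_nonneg_left h4 hT
    constructor <;> nlinarith

end ZFastAX

open ZFastAX

theorem mrgF_eqA (a b M0 H0 M1 H1 : ℕ) (e1 : (2 ^ (56 * 0) * pk 6 fun _ => 2 ^ 56 - 1) = M0)
    (e2 : (2 ^ (56 * 0) * pk 6 fun _ => 2 ^ 56) = H0)
    (e3 : (2 ^ (56 * 1) * pk 5 fun _ => 2 ^ 56 - 1) = M1)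
    (e4 : (2 ^ (56 * 1) * pk 5 fun _ => 2 ^ 56) = H1) :
    mrgH a b M0 H0 + mrgH a b M1 H1 = mrg a b := by
  rw [← e1, ← e2, ← e3, ← e4, mrgH_eq, mrgH_eq]
  exact pk_sum fun i => max (fld a 56 i) (fld b 56 i)

theorem mrgF_eq : mrgF = mrg :=
  funext fun a => funext fun b => mrgF_eqA a b _ _ _ _ (by decide +kernel) (by decide +kernel)
    (by decide +kernel) (by decide +kernel)

theorem gamOne_sound {g f : ℕ} (h : gamOne g (gamA f) = true) : g = gamE f := by
  rw [gamOne, Bool.and_eq_true, Nat.ble_eq, Nat.blt_eq, Nat.shiftLeft_eq] at h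
  obtain ⟨h1, h2⟩ := h
  obtain ⟨h3, h4⟩ := gamA_rec f
    115792089237316195423570985008687907853269984665640564039457584007913129639936 460 0
  have hT : (0 : ℝ) ≤ 160 ^ 460 / ∏ j ∈ Finset.range 460, ((f : ℝ) / 4096 + 1 + j) :=
    div_nonneg (by positivity) (Finset.prod_nonneg fun j _ => by positivity)
  change ((gamA f : ℕ) : ℝ) ≤ _ at h3
  change _ ≤ ((gamA f : ℕ) : ℝ) + 1 + _ at h4
  have hS := ZGamX.SG_nonneg (ph := (f : ℝ) / 4096) (by positivity) 460
  rw [ZGamX.gamE_eq]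
  generalize gamA f = lo at h1 h2 h3 h4
  generalize (160 : ℝ) ^ 460 / ∏ j ∈ Finset.range 460, ((f : ℝ) / 4096 + 1 + j) = T at h3 h4 hT
  generalize SG ((f : ℝ) / 4096) 160 460 = S at h3 h4 hS ⊢
  have e : (2 : ℕ) ^ 256 =
      115792089237316195423570985008687907853269984665640564039457584007913129639936 := by
    decide +kernel
  rw [e] at h1
  have h5 : (g : ℝ) *
      115792089237316195423570985008687907853269984665640564039457584007913129639936 ≤ lo := by
    exact_mod_cast h1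
  have h6 : (lo : ℝ) + 1 < ((g : ℝ) + 1) *
      115792089237316195423570985008687907853269984665640564039457584007913129639935 := by
    exact_mod_cast h2
  push_cast at h3 h4
  symm
  rw [Nat.floor_eq_iff hS]
  constructor <;> linarith

theorem gamChkA_sound {c t : ℕ} (h : gamChkA c t = true) : gamChk c t = true := by
  unfold gamChkA at h
  unfold gamChk
  generalize 256 * c = d at h ⊢
  generalize 256 = n at h ⊢
  induction n with
  | zero => rfl
  | succ n ih =>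
    simp only [forceN_eq, Bool.and_eq_true] at h ih ⊢
    exact ⟨Nat.beq_eq ▸ gamOne_sound h.1, ih h.2⟩

end Pool.Agent.MP_39fec4_gt.K
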