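import Pool.Agent.MP_39fec4_gt.RCopy
import Pool.Agent.MP_39fec4_gt.ZFastA

set_option autoImplicit false
set_option maxRecDepth 100000

/-! The copies agree with the originals. -/

namespace Pool.Agent.MP_39fec4_gt.R

theorem mx_eq : mx = @Max.max Nat _ := by
  funext a b
  show a + (b - a) = max a b
  omega

theorem mn_eq : mn = @Min.min Nat _ := by
  funext a b
  show a - (a - b) = min a b
  omega

theorem bx_eq : bx = Bool.xor := by
  funext a b
  cases a <;> cases b <;> rfl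

theorem fr_eq : @fr = fun (α : Type) (n : Nat) (f : Nat → α) => f n := rfl

theorem force_eq : @K.forceN = fun (α : Type) (n : Nat) (f : Nat → α) => f n := by
  funext α n f
  exact K.forceN_eq n f

theorem cond_eq : @cond.{1} = fun (α : Type) (c : Bool) (a b : α) =>
    @Bool.rec (fun _ => α) b a c := by
  funext α c a b
  cases c <;> rfl

theorem and_eq : and = fun (a b : Bool) => @Bool.rec (fun _ => Bool) false b a := by
  funext a b
  cases a <;> rfl

theorem or_eq : or = fun (a b : Bool) => @Bool.rec (fun _ => Bool) b true a := by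
  funext a b
  cases a <;> rfl

theorem not_eq : not = fun (a : Bool) => @Bool.rec (fun _ => Bool) true false a := by
  funext a
  cases a <;> rfl

theorem blt_eq : Nat.blt = fun (a b : Nat) => Nat.ble (Nat.succ a) b := rfl

theorem gamA_eq : @gamA = @K.gamA := by
  delta gamA K.gamA
  generalize @Nat.rec.{1} = r0
  revert r0
  as_aux_lemma => intro r0; eq_refl

theorem gamOne_eq : @gamOne = @K.gamOne := by
  delta gamOne K.gamOne
  rewrite [and_eq, blt_eq]
  generalize @Bool.rec.{1} = r0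
  revert r0
  as_aux_lemma => intro r0; eq_refl

theorem gamChkA_eq : @gamChkA = @K.gamChkA := by
  delta gamChkA K.gamChkA K.fld
  rewrite [gamA_eq, gamOne_eq, fr_eq, force_eq, and_eq]
  generalize @Nat.rec.{1} = r0, @Bool.rec.{1} = r1
  revert r0 r1
  as_aux_lemma => intro r0 r1; eq_refl

theorem Blk_m9_eq : @Blk_m9 = @K.Blk.m9 := by
  delta Blk_m9 K.Blk.m9
  eq_refl

theorem rpowH_eq : @rpowH = @K.rpowH := by
  delta rpowH K.rpowH
  rewrite [fr_eq, force_eq, cond_eq]
  generalize @Nat.rec.{1} = r0, @Bool.rec.{1} = r1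
  revert r0 r1
  as_aux_lemma => intro r0 r1; eq_refl

theorem rise_eq : @rise = @K.rise := by
  delta rise K.rise
  rewrite [fr_eq, force_eq]
  generalize @Nat.rec.{1} = r0
  revert r0
  as_aux_lemma => intro r0; eq_refl

theorem muH0_eq : @muH0 = @K.muH0 := by
  delta muH0 K.muH0
  rewrite [rise_eq]
  eq_refl

theorem muH_eq : @muH = @K.muH := by
  delta muH K.muH
  rewrite [rpowH_eq, muH0_eq]
  eq_refl

theorem mH40_eq : @mH40 = @K.mH40 := by
  delta mH40 K.mH40
  rewrite [muH_eq]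
  eq_refl

theorem rpowL_eq : @rpowL = @K.rpowL := by
  delta rpowL K.rpowL
  rewrite [fr_eq, force_eq, cond_eq]
  generalize @Nat.rec.{1} = r0, @Bool.rec.{1} = r1
  revert r0 r1
  as_aux_lemma => intro r0 r1; eq_refl

theorem muL0_eq : @muL0 = @K.muL0 := by
  delta muL0 K.muL0
  rewrite [rise_eq]
  eq_refl

theorem muL_eq : @muL = @K.muL := by
  delta muL K.muL
  rewrite [rpowL_eq, muL0_eq]
  eq_refl

theorem mL40_eq : @mL40 = @K.mL40 := by
  delta mL40 K.mL40
  rewrite [muL_eq]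
  eq_refl

theorem Blk_dm_eq : @Blk_dm = @K.Blk.dm := by
  delta Blk_dm K.Blk.dm
  eq_refl

theorem divU_eq : @divU = @K.divU := by
  delta divU K.divU
  rewrite [cond_eq]
  generalize @Bool.rec.{1} = r0
  revert r0
  as_aux_lemma => intro r0; eq_refl

theorem twoL_eq : @twoL = @K.twoL := by
  delta twoL K.twoL
  rewrite [fr_eq, force_eq, cond_eq]
  generalize @Nat.rec.{1} = r0, @Bool.rec.{1} = r1
  revert r0 r1
  as_aux_lemma => intro r0 r1; eq_refl

theorem twoH_eq : @twoH = @K.twoH := by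
  delta twoH K.twoH
  rewrite [fr_eq, force_eq, cond_eq]
  generalize @Nat.rec.{1} = r0, @Bool.rec.{1} = r1
  revert r0 r1
  as_aux_lemma => intro r0 r1; eq_refl

theorem c3U_eq : @c3U = @K.c3U := by
  delta c3U K.c3U K.mulU
  rewrite [force_eq]
  eq_refl

theorem nuH_eq : @nuH = @K.nuH := by
  delta nuH K.nuH
  rewrite [mH40_eq, mL40_eq]
  eq_refl

theorem scalChk_eq : @scalChk = @K.scalChk := by
  delta scalChk K.scalChk K.mulU K.mulD K.divD K.powD
  rewrite [Blk_m9_eq, mH40_eq, mL40_eq, Blk_dm_eq, divU_eq, twoL_eq, twoH_eq, c3U_eq, nuH_eq, mx_eq,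
    force_eq, and_eq, or_eq, blt_eq]
  generalize @Bool.rec.{1} = r0
  revert r0
  as_aux_lemma => intro r0; eq_refl

theorem Blk_qv_eq : @Blk_qv = @K.Blk.qv := by
  delta Blk_qv K.Blk.qv
  eq_refl

theorem nth_eq : @nth = @K.nth := by
  delta nth K.nth K.lf Nat.casesOn
  generalize @List.rec.{1,0} = r0, @Nat.rec.{1} = r1
  revert r0 r1
  as_aux_lemma => intro r0 r1; eq_refl

theorem bandOf_eq : @bandOf = @K.bandOf := by
  delta bandOf K.bandOf
  rewrite [cond_eq, blt_eq]
  generalize @Bool.rec.{1} = r0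
  revert r0
  as_aux_lemma => intro r0; eq_refl

theorem vidx_eq : @vidx = @K.vidx := by
  delta vidx K.vidx
  rewrite [bandOf_eq, force_eq]
  eq_refl

theorem bandA_eq : @bandA = @K.bandA := by
  delta bandA K.bandA
  rewrite [cond_eq]
  generalize @Bool.rec.{1} = r0
  revert r0
  as_aux_lemma => intro r0; eq_refl

theorem bandI_eq : @bandI = @K.bandI := by
  delta bandI K.bandI
  rewrite [bandA_eq]
  eq_refl

theorem bandC_eq : @bandC = @K.bandC := by
  delta bandC K.bandC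
  rewrite [bandI_eq, bandA_eq, mn_eq]
  eq_refl

theorem drp_eq : @drp = @K.drp := by
  delta drp K.drp List.casesOn
  generalize @Nat.rec.{1} = r0, @List.rec.{1,0} = r1
  revert r0 r1
  as_aux_lemma => intro r0 r1; eq_refl

theorem hornM_eq : @hornM = @K.hornM := by
  delta hornM K.hornM K.lf Bool.casesOn
  generalize @List.rec.{1,0} = r0, @Bool.rec.{1} = r1
  revert r0 r1
  as_aux_lemma => intro r0 r1; eq_refl

theorem vrecM_eq : @vrecM = @K.vrecM := by
  delta vrecM K.vrecM K.lt48 K.pk5 K.digM K.fld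
  rewrite [hornM_eq, force_eq, cond_eq, and_eq, blt_eq]
  generalize @Bool.rec.{1} = r0
  revert r0
  as_aux_lemma => intro r0; eq_refl

theorem hornN_eq : @hornN = @K.hornN := by
  delta hornN K.hornN K.lf
  rewrite [force_eq]
  generalize @List.rec.{1,0} = r0
  revert r0
  as_aux_lemma => intro r0; eq_refl

theorem vbandM_eq : @vbandM = @K.vbandM := by
  delta vbandM K.vbandM K.fld
  rewrite [drp_eq, bandA_eq, vrecM_eq, bandI_eq, hornN_eq, nth_eq, fr_eq, force_eq, and_eq, blt_eq]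
  generalize @Bool.rec.{1} = r0, @Nat.rec.{1} = r1
  revert r0 r1
  as_aux_lemma => intro r0 r1; eq_refl

theorem coefs_eq : @coefs = @K.coefs := by
  delta coefs K.coefs
  rewrite [rpowL_eq, rpowH_eq, muL_eq, muH_eq, muL0_eq, muH0_eq, fr_eq, force_eq]
  generalize @Nat.rec.{1} = r0
  revert r0
  as_aux_lemma => intro r0; eq_refl

theorem vchkM_eq : @vchkM = @K.vchkM := by
  delta vchkM K.vchkM Prod.casesOn
  rewrite [vidx_eq, bandC_eq, nth_eq, vbandM_eq, coefs_eq, muL_eq, fr_eq, force_eq, and_eq, or_eq, blt_eq]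
  generalize @Bool.rec.{1} = r0, @Prod.rec.{1,0,0} = r1, @Nat.rec.{1} = r2
  revert r0 r1 r2
  as_aux_lemma => intro r0 r1 r2; eq_refl

theorem Cert_vt_eq : @Cert_vt = @K.Cert.vt := by
  delta Cert_vt K.Cert.vt
  rewrite [Blk_qv_eq, nth_eq, vchkM_eq, fr_eq, force_eq, cond_eq, and_eq, or_eq]
  generalize @Nat.rec.{1} = r0, @Bool.rec.{1} = r1
  revert r0 r1
  as_aux_lemma => intro r0 r1; eq_refl

theorem vget_eq : @vget = @K.vget := by
  delta vget K.vget K.fld
  rewrite [nth_eq]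
  eq_refl

theorem Cert_Va_eq : @Cert_Va = @K.Cert.Va := by
  delta Cert_Va K.Cert.Va
  rewrite [vget_eq]
  eq_refl

theorem Cert_Vb_eq : @Cert_Vb = @K.Cert.Vb := by
  delta Cert_Vb K.Cert.Vb
  rewrite [vget_eq, fr_eq, force_eq]
  eq_refl

theorem tget_eq : @tget = @K.tget := by
  delta tget K.tget K.fld
  eq_refl

theorem Cert_Ef_eq : @Cert_Ef = @K.Cert.Ef := by
  delta Cert_Ef K.Cert.Ef K.tget K.fld
  rewrite [tget_eq]
  eq_refl

theorem vctr_eq : @vctr = @K.vctr := by
  delta vctr K.vctr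
  rewrite [bandOf_eq, force_eq]
  eq_refl

theorem vhw_eq : @vhw = @K.vhw := by
  delta vhw K.vhw
  rewrite [bandOf_eq]
  eq_refl

theorem b5_eq : @b5 = @K.b5 := by
  delta b5 K.b5 K.powD
  rewrite [divU_eq, mn_eq]
  eq_refl

theorem rem0_eq : @rem0 = @K.rem0 := by
  delta rem0 K.rem0 K.mulU K.powU
  eq_refl

theorem rem1_eq : @rem1 = @K.rem1 := by
  delta rem1 K.rem1 K.mulU K.powU
  eq_refl

theorem rem2_eq : @rem2 = @K.rem2 := by
  delta rem2 K.rem2 K.mulU K.powU
  eq_refl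

theorem dist_eq : @dist = @K.dist := by
  delta dist K.dist
  eq_refl

theorem isq_eq : @isq = @K.isq := by
  delta isq K.isq
  rewrite [fr_eq, force_eq]
  generalize @Nat.rec.{1} = r0
  revert r0
  as_aux_lemma => intro r0; eq_refl

theorem isqL_eq : @isqL = @K.isqL := by
  delta isqL K.isqL
  rewrite [isq_eq, force_eq, cond_eq]
  generalize @Bool.rec.{1} = r0
  revert r0
  as_aux_lemma => intro r0; eq_refl

theorem sqrtL_eq : @sqrtL = @K.sqrtL := by
  delta sqrtL K.sqrtL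
  rewrite [isqL_eq, force_eq, cond_eq]
  generalize @Bool.rec.{1} = r0
  revert r0
  as_aux_lemma => intro r0; eq_refl

theorem isqU_eq : @isqU = @K.isqU := by
  delta isqU K.isqU
  rewrite [isq_eq, force_eq, cond_eq]
  generalize @Bool.rec.{1} = r0
  revert r0
  as_aux_lemma => intro r0; eq_refl

theorem sqrtU_eq : @sqrtU = @K.sqrtU := by
  delta sqrtU K.sqrtU
  rewrite [isqU_eq]
  eq_refl

theorem m0a_eq : @m0a = @K.m0a := by
  delta m0a K.m0a K.mulU
  rewrite [sqrtU_eq, divU_eq, force_eq]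
  eq_refl

theorem dq_eq : @dq = @K.dq := by
  delta dq K.dq K.mulU
  rewrite [divU_eq]
  eq_refl

theorem ncfN_eq : @ncfN = @K.ncfN := by
  delta ncfN K.ncfN K.mulD K.divD
  rewrite [divU_eq, mn_eq, force_eq, cond_eq]
  generalize @Bool.rec.{1} = r0
  revert r0
  as_aux_lemma => intro r0; eq_refl

theorem pk15_eq : @pk15 = @K.pk15 := by
  delta pk15 K.pk15
  rewrite [mx_eq, cond_eq, and_eq, blt_eq]
  generalize @Bool.rec.{1} = r0
  revert r0
  as_aux_lemma => intro r0; eq_refl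

theorem hor4N_eq : @hor4N = @K.hor4N := by
  delta hor4N K.hor4N
  eq_refl

theorem hor3N_eq : @hor3N = @K.hor3N := by
  delta hor3N K.hor3N
  eq_refl

theorem hor2N_eq : @hor2N = @K.hor2N := by
  delta hor2N K.hor2N
  eq_refl

theorem hor1N_eq : @hor1N = @K.hor1N := by
  delta hor1N K.hor1N
  eq_refl

theorem absO_eq : @absO = @K.absO := by
  delta absO K.absO
  eq_refl

theorem enclN_eq : @enclN = @K.enclN := by
  delta enclN K.enclN K.mulU K.mulO
  rewrite [hor4N_eq, hor3N_eq, hor2N_eq, hor1N_eq, absO_eq, mx_eq, mn_eq, force_eq]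
  eq_refl

theorem mkCellN_eq : @mkCellN = @K.mkCellN := by
  delta mkCellN K.mkCellN K.mulU K.mulD K.fld K.vcoN
  rewrite [vidx_eq, vctr_eq, vhw_eq, b5_eq, rem0_eq, rem1_eq, rem2_eq, dist_eq, Blk_dm_eq, sqrtL_eq,
    m0a_eq, dq_eq, divU_eq, ncfN_eq, pk15_eq, enclN_eq, mx_eq, mn_eq, fr_eq, force_eq, cond_eq,
    and_eq]
  generalize @Bool.rec.{1} = r0
  revert r0
  as_aux_lemma => intro r0; eq_refl

theorem cidx_eq : @cidx = @K.cidx := by
  delta cidx K.cidx
  rewrite [mn_eq, cond_eq, blt_eq]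
  generalize @Bool.rec.{1} = r0
  revert r0
  as_aux_lemma => intro r0; eq_refl

theorem Yb_eq : @Yb = @K.Yb := by
  delta Yb K.Yb
  rewrite [cond_eq, blt_eq]
  generalize @Bool.rec.{1} = r0
  revert r0
  as_aux_lemma => intro r0; eq_refl

theorem restChkN_eq : @restChkN = @K.restChkN := by
  delta restChkN K.restChkN K.mulD K.fld K.gK1
  rewrite [mkCellN_eq, cidx_eq, Yb_eq, force_eq, and_eq, blt_eq]
  generalize @Bool.rec.{1} = r0
  revert r0
  as_aux_lemma => intro r0; eq_refl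

theorem nlogL_eq : @nlogL = @K.nlogL := by
  delta nlogL K.nlogL K.mulD
  rewrite [force_eq]
  eq_refl

theorem farc_eq : @farc = @K.farc := by
  delta farc K.farc K.mulD
  rewrite [sqrtL_eq, divU_eq]
  eq_refl

theorem far0_eq : @far0 = @K.far0 := by
  delta far0 K.far0 K.mulD
  rewrite [sqrtL_eq, divU_eq, farc_eq, mn_eq]
  eq_refl

theorem far2_eq : @far2 = @K.far2 := by
  delta far2 K.far2 K.mulD
  rewrite [sqrtL_eq, divU_eq]
  eq_refl

theorem far1_eq : @far1 = @K.far1 := by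
  delta far1 K.far1
  rewrite [divU_eq]
  eq_refl

theorem far1b_eq : @far1b = @K.far1b := by
  delta far1b K.far1b
  rewrite [farc_eq, far2_eq, far1_eq, isqU_eq, mn_eq, force_eq, cond_eq, and_eq, blt_eq]
  generalize @Bool.rec.{1} = r0
  revert r0
  as_aux_lemma => intro r0; eq_refl

theorem mkFar_eq : @mkFar = @K.mkFar := by
  delta mkFar K.mkFar K.mulU
  rewrite [far0_eq, far1b_eq, far2_eq, m0a_eq, divU_eq, pk15_eq, mn_eq, force_eq]
  eq_refl

theorem cellChkN_eq : @cellChkN = @K.cellChkN := by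
  delta cellChkN K.cellChkN K.mulU K.fld K.gNeg K.gLop K.gHip K.gAB Nat.casesOn
  rewrite [Yb_eq, nlogL_eq, mkFar_eq, mkCellN_eq, mx_eq, force_eq, cond_eq, and_eq, or_eq, blt_eq]
  generalize @Bool.rec.{1} = r0, @Nat.rec.{1} = r1
  revert r0 r1
  as_aux_lemma => intro r0 r1; eq_refl

theorem cellsChkN_eq : @cellsChkN = @K.cellsChkN := by
  delta cellsChkN K.cellsChkN
  rewrite [cellChkN_eq, fr_eq, force_eq, and_eq]
  generalize @Nat.rec.{1} = r0, @Bool.rec.{1} = r1
  revert r0 r1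
  as_aux_lemma => intro r0 r1; eq_refl

theorem Cert_cells_eq : @Cert_cells = @K.Cert.cells := by
  delta Cert_cells K.Cert.cells K.tget K.fld
  rewrite [Cert_Va_eq, Cert_Vb_eq, Cert_Ef_eq, restChkN_eq, tget_eq, cellsChkN_eq, and_eq]
  generalize @Bool.rec.{1} = r0
  revert r0
  as_aux_lemma => intro r0; eq_refl

theorem rq_eq : @rq = @K.rq := by
  delta rq K.rq
  rewrite [cidx_eq, mx_eq, fr_eq, force_eq]
  eq_refl

theorem pevN_eq : @pevN = @K.pevN := by
  delta pevN K.pevN K.vcoN K.fld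
  rewrite [bandOf_eq, hor4N_eq, fr_eq, force_eq]
  eq_refl

theorem fineN_eq : @fineN = @K.fineN := by
  delta fineN K.fineN K.mulU K.fld K.gD2 K.gPe K.gK2
  rewrite [pevN_eq, Blk_dm_eq, mx_eq, mn_eq, force_eq, cond_eq, blt_eq]
  generalize @Bool.rec.{1} = r0
  revert r0
  as_aux_lemma => intro r0; eq_refl

theorem envb_eq : @envb = @K.envb := by
  delta envb K.envb
  rewrite [cidx_eq, fr_eq, force_eq]
  eq_refl

theorem t2L_eq : @t2L = @K.t2L := by
  delta t2L K.t2L
  eq_refl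

theorem cellB_eq : @cellB = @K.cellB := by
  delta cellB K.cellB K.mulU K.mulD K.gNeg K.gLop K.gHip K.gHin K.gK1 K.divD K.dS K.tS K.gAB K.gK2
    Bool.casesOn K.fld
  rewrite [rq_eq, fineN_eq, envb_eq, t2L_eq, divU_eq, mx_eq, mn_eq, force_eq, cond_eq]
  generalize @Bool.rec.{1} = r0
  revert r0
  as_aux_lemma => intro r0; eq_refl

theorem sweep_eq : @sweep = @K.sweep := by
  delta sweep K.sweep K.lf
  rewrite [fr_eq, force_eq]
  generalize @List.rec.{1,0} = r0, @Nat.rec.{1} = r1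
  revert r0 r1
  as_aux_lemma => intro r0 r1; eq_refl

theorem ballRun_eq : @ballRun = @K.ballRun := by
  delta ballRun K.ballRun K.mulU K.mulD K.tS
  rewrite [cellB_eq, farc_eq, divU_eq, sweep_eq, force_eq, and_eq, blt_eq]
  generalize @Bool.rec.{1} = r0
  revert r0
  as_aux_lemma => intro r0; eq_refl

theorem ballChk_eq : @ballChk = @K.ballChk := by
  delta ballChk K.ballChk K.lf
  rewrite [ballRun_eq, and_eq]
  generalize @List.rec.{1,0} = r0, @Bool.rec.{1} = r1
  revert r0 r1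
  as_aux_lemma => intro r0 r1; eq_refl

theorem mrgF_eq : @mrgF = @K.mrgF := by
  delta mrgF K.mrgF K.mrgH
  rewrite [force_eq]
  eq_refl

theorem mrg_eq : @mrgF = @K.mrg := mrgF_eq.trans K.mrgF_eq

theorem lv_eq : @lv = @K.lv := by
  delta lv K.lv
  rewrite [mrg_eq, fr_eq, force_eq]
  generalize @Nat.rec.{1} = r0
  revert r0
  as_aux_lemma => intro r0; eq_refl

theorem rq2_eq : @rq2 = @K.rq2 := by
  delta rq2 K.rq2
  rewrite [mrg_eq, fr_eq, force_eq, cond_eq]
  generalize @Bool.rec.{1} = r0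
  revert r0
  as_aux_lemma => intro r0; eq_refl

theorem Cert_Q_eq : @Cert_Q = @K.Cert.Q := by
  delta Cert_Q K.Cert.Q K.tget K.fld
  rewrite [tget_eq, lv_eq, rq2_eq]
  eq_refl

theorem Cert_VV_eq : @Cert_VV = @K.Cert.VV := by
  delta Cert_VV K.Cert.VV
  rewrite [vget_eq]
  eq_refl

theorem Cert_cls_eq : @Cert_cls = @K.Cert.cls := by
  delta Cert_cls K.Cert.cls
  eq_refl

theorem m3s_eq : @m3s = @K.m3s := by
  delta m3s K.m3s
  rewrite [force_eq]
  eq_refl

theorem m2s_eq : @m2s = @K.m2s := by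
  delta m2s K.m2s
  rewrite [force_eq]
  eq_refl

theorem eNode_eq : @eNode = @K.eNode := by
  delta eNode K.eNode K.mulU K.mulD K.gK1 K.gL1 K.gL2 K.gD1 K.gD2 K.gPe K.cX1 K.powU K.powD K.gAB K.gK2
    K.cX2 K.cR K.fld
  rewrite [rq_eq, m3s_eq, m2s_eq, mx_eq, mn_eq, force_eq, cond_eq, blt_eq]
  generalize @Bool.rec.{1} = r0
  revert r0
  as_aux_lemma => intro r0; eq_refl

theorem eSum_eq : @eSum = @K.eSum := by
  delta eSum K.eSum K.tN
  rewrite [eNode_eq]
  generalize @Nat.rec.{1} = r0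
  revert r0
  as_aux_lemma => intro r0; eq_refl

theorem rqI_eq : @rqI = @K.rqI := by
  delta rqI K.rqI
  rewrite [cidx_eq, fr_eq, force_eq]
  eq_refl

theorem tailP_eq : @tailP = @K.tailP := by
  delta tailP K.tailP K.mulU K.mulD K.cX1 K.powU K.gAB K.cX2 K.cR K.tN K.fld
  rewrite [far0_eq, farc_eq, rqI_eq, mx_eq, mn_eq, force_eq, cond_eq, and_eq, blt_eq]
  generalize @Bool.rec.{1} = r0
  revert r0
  as_aux_lemma => intro r0; eq_refl

theorem pw2_eq : @pw2 = @K.pw2 := by
  delta pw2 K.pw2 K.mulU K.powU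
  eq_refl

theorem cellM_eq : @cellM = @K.cellM := by
  delta cellM K.cellM K.mulU K.gD1 K.gD2 K.dS K.tS K.gAB K.fld
  rewrite [rq_eq, pw2_eq, mx_eq, force_eq, cond_eq]
  generalize @Bool.rec.{1} = r0
  revert r0
  as_aux_lemma => intro r0; eq_refl

theorem dM_eq : @dM = @K.dM := by
  delta dM K.dM K.mulU K.tS
  rewrite [cellM_eq, farc_eq, divU_eq, sqrtU_eq, pw2_eq, sweep_eq, force_eq, cond_eq, and_eq, blt_eq]
  generalize @Bool.rec.{1} = r0
  revert r0
  as_aux_lemma => intro r0; eq_refl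

theorem kM_eq : @kM = @K.kM := by
  delta kM K.kM K.mulU
  rewrite [mx_eq]
  eq_refl

theorem thrM_eq : @thrM = @K.thrM := by
  delta thrM K.thrM
  rewrite [dM_eq, kM_eq, cond_eq]
  generalize @Bool.rec.{1} = r0
  revert r0
  as_aux_lemma => intro r0; eq_refl

theorem dNode_eq : @dNode = @K.dNode := by
  delta dNode K.dNode K.ev K.powD K.sgn
  rewrite [pevN_eq, dist_eq, force_eq, cond_eq, and_eq, not_eq, blt_eq]
  generalize @Bool.rec.{1} = r0
  revert r0
  as_aux_lemma => intro r0; eq_refl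

theorem dSum_eq : @dSum = @K.dSum := by
  delta dSum K.dSum K.tN
  rewrite [dNode_eq]
  generalize @Nat.rec.{1} = r0
  revert r0
  as_aux_lemma => intro r0; eq_refl

theorem powE_eq : @powE = @K.powE := by
  delta powE K.powE K.powU K.powD
  eq_refl

theorem dErr_eq : @dErr = @K.dErr := by
  delta dErr K.dErr K.gPe K.gAB K.tN K.fld
  rewrite [rq_eq, powE_eq, mx_eq, force_eq]
  generalize @Nat.rec.{1} = r0
  revert r0
  as_aux_lemma => intro r0; eq_refl

theorem dTail_eq : @dTail = @K.dTail := by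
  delta dTail K.dTail K.mulU K.powU K.tN
  rewrite [far0_eq, force_eq, cond_eq, blt_eq]
  generalize @Bool.rec.{1} = r0
  revert r0
  as_aux_lemma => intro r0; eq_refl

theorem expU_eq : @expU = @K.expU := by
  delta expU K.expU K.mulD K.divD
  rewrite [force_eq]
  eq_refl

theorem dAli_eq : @dAli = @K.dAli := by
  delta dAli K.dAli K.mulU K.mulD K.divD
  rewrite [expU_eq, divU_eq, force_eq, cond_eq]
  generalize @Bool.rec.{1} = r0
  revert r0
  as_aux_lemma => intro r0; eq_refl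

theorem dLo_eq : @dLo = @K.dLo := by
  delta dLo K.dLo
  rewrite [dSum_eq, dErr_eq, dTail_eq, dAli_eq]
  eq_refl

theorem kapL_eq : @kapL = @K.kapL := by
  delta kapL K.kapL K.mulD K.divD
  rewrite [Blk_qv_eq, twoL_eq, mH40_eq]
  eq_refl

theorem thr_eq : @thr = @K.thr := by
  delta thr K.thr
  rewrite [dLo_eq, kapL_eq, cond_eq]
  generalize @Bool.rec.{1} = r0
  revert r0
  as_aux_lemma => intro r0; eq_refl

theorem oLop_eq : @oLop = @K.oLop := by
  delta oLop K.oLop K.mulD K.gLop K.gHin K.fld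
  rewrite [mx_eq]
  eq_refl

theorem pHin_eq : @pHin = @K.pHin := by
  delta pHin K.pHin K.gHin K.ev K.powD K.fld
  rewrite [cond_eq]
  generalize @Bool.rec.{1} = r0
  revert r0
  as_aux_lemma => intro r0; eq_refl

theorem oHin_eq : @oHin = @K.oHin := by
  delta oHin K.oHin K.mulD K.gLop K.gHin K.fld
  rewrite [mx_eq]
  eq_refl

theorem pLop_eq : @pLop = @K.pLop := by
  delta pLop K.pLop K.gLop K.gHin K.ev K.powD K.fld
  rewrite [mx_eq, cond_eq]
  generalize @Bool.rec.{1} = r0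
  revert r0
  as_aux_lemma => intro r0; eq_refl

theorem oHi_eq : @oHi = @K.oHi := by
  delta oHi K.oHi K.mulU K.gNeg K.gHip K.fld
  rewrite [mx_eq]
  eq_refl

theorem pHi_eq : @pHi = @K.pHi := by
  delta pHi K.pHi K.gHip K.ev K.powU K.gAB K.fld
  rewrite [mx_eq, cond_eq]
  generalize @Bool.rec.{1} = r0
  revert r0
  as_aux_lemma => intro r0; eq_refl

theorem oNeg_eq : @oNeg = @K.oNeg := by
  delta oNeg K.oNeg K.mulU K.gNeg K.gHip K.fld
  rewrite [mx_eq, cond_eq, and_eq]
  generalize @Bool.rec.{1} = r0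
  revert r0
  as_aux_lemma => intro r0; eq_refl

theorem pNeg_eq : @pNeg = @K.pNeg := by
  delta pNeg K.pNeg K.gNeg K.ev K.powU K.fld
  rewrite [cond_eq, or_eq]
  generalize @Bool.rec.{1} = r0
  revert r0
  as_aux_lemma => intro r0; eq_refl

theorem zNode_eq : @zNode = @K.zNode := by
  delta zNode K.zNode K.mulU K.mulD K.cX1 K.cX2 K.cR
  rewrite [rq_eq, oLop_eq, pHin_eq, oHin_eq, pLop_eq, oHi_eq, pHi_eq, oNeg_eq, pNeg_eq, mx_eq, force_eq,
    cond_eq]
  generalize @Bool.rec.{1} = r0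
  revert r0
  as_aux_lemma => intro r0; eq_refl

theorem zSum_eq : @zSum = @K.zSum := by
  delta zSum K.zSum K.tN
  rewrite [zNode_eq]
  generalize @Nat.rec.{1} = r0
  revert r0
  as_aux_lemma => intro r0; eq_refl

theorem pNode_eq : @pNode = @K.pNode := by
  delta pNode K.pNode K.mulD K.cX1 K.ev K.powD K.sgn K.cX2 K.cR
  rewrite [pevN_eq, dist_eq, bx_eq, force_eq, cond_eq, and_eq, not_eq, blt_eq]
  generalize @Bool.rec.{1} = r0
  revert r0
  as_aux_lemma => intro r0; eq_refl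

theorem vSum_eq : @vSum = @K.vSum := by
  delta vSum K.vSum K.tN
  rewrite [pNode_eq]
  generalize @Nat.rec.{1} = r0
  revert r0
  as_aux_lemma => intro r0; eq_refl

theorem vMax_eq : @vMax = @K.vMax := by
  delta vMax K.vMax
  rewrite [vSum_eq, mx_eq]
  eq_refl

theorem dOK_eq : @dOK = @K.dOK := by
  delta dOK K.dOK K.tN
  rewrite [dTail_eq, and_eq, blt_eq]
  generalize @Bool.rec.{1} = r0
  revert r0
  as_aux_lemma => intro r0; eq_refl

theorem mainT_eq : @mainT = @K.mainT := by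
  delta mainT K.mainT K.mulU
  rewrite [eSum_eq, tailP_eq, thrM_eq, thr_eq, zSum_eq, vMax_eq, dAli_eq, dOK_eq, fr_eq, force_eq, and_eq,
    or_eq, blt_eq]
  generalize @Bool.rec.{1} = r0
  revert r0
  as_aux_lemma => intro r0; eq_refl

theorem rpw_eq : @rpw = @K.rpw := by
  delta rpw K.rpw K.mulD K.powD
  rewrite [sqrtL_eq, fr_eq, force_eq]
  generalize @Nat.rec.{1} = r0
  revert r0
  as_aux_lemma => intro r0; eq_refl

theorem twoT_eq : @twoT = @K.twoT := by
  delta twoT K.twoT K.cX1 K.cX2 K.cR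
  rewrite [Blk_qv_eq, rpw_eq, mn_eq, force_eq, and_eq, blt_eq]
  generalize @Bool.rec.{1} = r0
  revert r0
  as_aux_lemma => intro r0; eq_refl

theorem inBall_eq : @inBall = @K.inBall := by
  delta inBall K.inBall K.lf
  rewrite [and_eq, or_eq, blt_eq]
  generalize @List.rec.{1,0} = r0, @Bool.rec.{1} = r1
  revert r0 r1
  as_aux_lemma => intro r0 r1; eq_refl

theorem leafT_eq : @leafT = @K.leafT := by
  delta leafT K.leafT K.cX1 K.cX2 K.cR
  rewrite [mainT_eq, twoT_eq, inBall_eq, force_eq, cond_eq, and_eq, blt_eq]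
  generalize @Bool.rec.{1} = r0
  revert r0
  as_aux_lemma => intro r0; eq_refl

theorem boxEP_eq : @boxEP = @K.boxEP := by
  delta boxEP K.boxEP K.mulU K.cX1 K.cX2 K.cR
  rewrite [mn_eq, force_eq]
  eq_refl

theorem vLo_eq : @vLo = @K.vLo := by
  delta vLo K.vLo K.mulD
  rewrite [mx_eq, force_eq, cond_eq]
  generalize @Bool.rec.{1} = r0
  revert r0
  as_aux_lemma => intro r0; eq_refl

theorem envUp_eq : @envUp = @K.envUp := by
  delta envUp K.envUp K.mulU K.mulD K.gAB K.fld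
  rewrite [expU_eq, rqI_eq, mx_eq, mn_eq, force_eq, cond_eq, or_eq, blt_eq]
  generalize @Bool.rec.{1} = r0
  revert r0
  as_aux_lemma => intro r0; eq_refl

theorem crUp_eq : @crUp = @K.crUp := by
  delta crUp K.crUp K.mulU K.mulD K.gNeg K.gHip K.ev K.powU K.gAB K.fld
  rewrite [rq_eq, envUp_eq, mx_eq, mn_eq, force_eq, cond_eq, and_eq]
  generalize @Bool.rec.{1} = r0
  revert r0
  as_aux_lemma => intro r0; eq_refl

theorem envDn_eq : @envDn = @K.envDn := by
  delta envDn K.envDn K.mulU K.mulD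
  rewrite [expU_eq, mn_eq, cond_eq]
  generalize @Bool.rec.{1} = r0
  revert r0
  as_aux_lemma => intro r0; eq_refl

theorem hess3_eq : @hess3 = @K.hess3 := by
  delta hess3 K.hess3 K.mulU K.fld K.gNeg K.gLop K.gK1 K.gAB
  rewrite [mx_eq, mn_eq, force_eq]
  eq_refl

theorem t4L_eq : @t4L = @K.t4L := by
  delta t4L K.t4L
  eq_refl

theorem hess_eq : @hess = @K.hess := by
  delta hess K.hess K.mulU K.fld K.gNeg K.gLop K.gHip K.gHin K.gK1 K.ev K.powU K.gAB Bool.casesOn
  rewrite [divU_eq, mx_eq, mn_eq, force_eq, cond_eq, and_eq, or_eq, not_eq, blt_eq]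
  generalize @Bool.rec.{1} = r0
  revert r0
  as_aux_lemma => intro r0; eq_refl

theorem cellE_eq : @cellE = @K.cellE := by
  delta cellE K.cellE K.mulU K.mulD K.fld K.gNeg K.gLop K.divD K.dS K.tS K.powU K.powD K.gAB
    Bool.casesOn
  rewrite [rq_eq, fineN_eq, oHi_eq, oNeg_eq, envb_eq, crUp_eq, pNeg_eq, pLop_eq, pHi_eq, envDn_eq, pHin_eq,
    envUp_eq, hess3_eq, t4L_eq, hess_eq, oLop_eq, mx_eq, mn_eq, force_eq, cond_eq, and_eq,
    not_eq, blt_eq]
  generalize @Bool.rec.{1} = r0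
  revert r0
  as_aux_lemma => intro r0; eq_refl

theorem oTail_eq : @oTail = @K.oTail := by
  delta oTail K.oTail K.mulU K.mulD K.tS K.gAB K.fld
  rewrite [farc_eq, far0_eq, rqI_eq, mx_eq, mn_eq, force_eq, cond_eq, and_eq, blt_eq]
  generalize @Bool.rec.{1} = r0
  revert r0
  as_aux_lemma => intro r0; eq_refl

theorem pTail_eq : @pTail = @K.pTail := by
  delta pTail K.pTail K.mulD K.tS K.powU
  rewrite [divU_eq, sqrtU_eq, mn_eq]
  eq_refl

theorem finE_eq : @finE = @K.finE := by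
  delta finE K.finE K.mulU K.mulD K.tS K.powU K.gAB Bool.casesOn K.fld
  rewrite [far0_eq, divU_eq, farc_eq, far1b_eq, far2_eq, oTail_eq, pTail_eq, rqI_eq, mx_eq, mn_eq,
    force_eq, cond_eq, and_eq, not_eq, blt_eq]
  generalize @Bool.rec.{1} = r0
  revert r0
  as_aux_lemma => intro r0; eq_refl

theorem runE_eq : @runE = @K.runE := by
  delta runE K.runE
  rewrite [cellE_eq, finE_eq, sweep_eq]
  eq_refl

theorem excOne_eq : @excOne = @K.excOne := by
  delta excOne K.excOne K.mulU K.mulD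
  rewrite [vLo_eq, runE_eq, cond_eq, and_eq, blt_eq]
  generalize @Bool.rec.{1} = r0
  revert r0
  as_aux_lemma => intro r0; eq_refl

theorem excE_eq : @excE = @K.excE := by
  delta excE K.excE K.cX1 K.cX2 K.cR
  rewrite [boxEP_eq, excOne_eq, mx_eq, mn_eq, force_eq, cond_eq]
  generalize @Bool.rec.{1} = r0
  revert r0
  as_aux_lemma => intro r0; eq_refl

theorem prodLo_eq : @prodLo = @K.prodLo := by
  delta prodLo K.prodLo K.mulU K.gLop K.powD K.fld
  rewrite [mx_eq, cond_eq, and_eq, blt_eq]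
  generalize @Bool.rec.{1} = r0
  revert r0
  as_aux_lemma => intro r0; eq_refl

theorem cellP_eq : @cellP = @K.cellP := by
  delta cellP K.cellP K.mulU K.mulD K.gNeg K.dS K.tS K.powU K.gAB K.fld
  rewrite [rq_eq, oNeg_eq, envb_eq, expU_eq, pNeg_eq, pLop_eq, oHi_eq, envUp_eq, prodLo_eq, pHi_eq,
    envDn_eq, pHin_eq, mx_eq, mn_eq, force_eq, cond_eq]
  generalize @Bool.rec.{1} = r0
  revert r0
  as_aux_lemma => intro r0; eq_refl

theorem delN_eq : @delN = @K.delN := by
  delta delN K.delN K.mulU K.mulD K.gNeg K.powU K.fld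
  rewrite [rqI_eq, sqrtU_eq, sqrtL_eq, divU_eq, force_eq, cond_eq]
  generalize @Bool.rec.{1} = r0
  revert r0
  as_aux_lemma => intro r0; eq_refl

theorem finP_eq : @finP = @K.finP := by
  delta finP K.finP K.mulU K.mulD K.tS K.powU K.gAB K.fld
  rewrite [oTail_eq, far0_eq, pTail_eq, rqI_eq, delN_eq, mx_eq, mn_eq, force_eq, cond_eq, blt_eq]
  generalize @Bool.rec.{1} = r0
  revert r0
  as_aux_lemma => intro r0; eq_refl

theorem runP_eq : @runP = @K.runP := by
  delta runP K.runP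
  rewrite [cellP_eq, finP_eq, sweep_eq]
  eq_refl

theorem excB_eq : @excB = @K.excB := by
  delta excB K.excB K.cX1 K.cX2 K.cR Bool.casesOn
  rewrite [excE_eq, runP_eq, mn_eq, fr_eq, force_eq]
  generalize @Bool.rec.{1} = r0
  revert r0
  as_aux_lemma => intro r0; eq_refl

theorem treeT_eq : @treeT = @K.treeT := by
  delta treeT K.treeT
  rewrite [leafT_eq, excB_eq, fr_eq, force_eq, and_eq]
  generalize @K.Tr.rec.{1} = r0, @Bool.rec.{1} = r1
  revert r0 r1
  as_aux_lemma => intro r0 r1; eq_refl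

theorem Cert_tree_eq : @Cert_tree = @K.Cert.tree := by
  delta Cert_tree K.Cert.tree
  rewrite [Cert_Q_eq, Cert_VV_eq, Cert_Ef_eq, Cert_cls_eq, treeT_eq]
  eq_refl

theorem Cert_exT_eq : @Cert_exT = @K.Cert.exT := by
  delta Cert_exT K.Cert.exT
  rewrite [Cert_tree_eq]
  eq_refl

theorem nearEP_eq : @nearEP = @K.nearEP := by
  delta nearEP K.nearEP K.mulU
  rewrite [sqrtU_eq, vLo_eq, force_eq]
  eq_refl

theorem nearL_eq : @nearL = @K.nearL := by
  delta nearL K.nearL K.mulD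
  rewrite [nearEP_eq, vLo_eq, runE_eq, cond_eq, and_eq, or_eq, not_eq, blt_eq]
  generalize @Bool.rec.{1} = r0
  revert r0
  as_aux_lemma => intro r0; eq_refl

theorem nearT_eq : @nearT = @K.nearT := by
  delta nearT K.nearT
  rewrite [nearL_eq, fr_eq, force_eq, and_eq]
  generalize @K.Tr.rec.{1} = r0, @Bool.rec.{1} = r1
  revert r0 r1
  as_aux_lemma => intro r0 r1; eq_refl

theorem dHi_eq : @dHi = @K.dHi := by
  delta dHi K.dHi
  rewrite [dSum_eq, dErr_eq, dTail_eq]
  eq_refl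

theorem kapH_eq : @kapH = @K.kapH := by
  delta kapH K.kapH K.mulU
  rewrite [Blk_qv_eq, twoH_eq, mL40_eq, divU_eq]
  eq_refl

theorem crossT_eq : @crossT = @K.crossT := by
  delta crossT K.crossT K.mulU
  rewrite [dM_eq, kM_eq, dLo_eq, dHi_eq, kapH_eq, kapL_eq, fr_eq, force_eq, and_eq, or_eq, not_eq, blt_eq]
  generalize @Bool.rec.{1} = r0
  revert r0
  as_aux_lemma => intro r0; eq_refl

theorem crossChk_eq : @crossChk = @K.crossChk := by
  delta crossChk K.crossChk
  rewrite [crossT_eq, dM_eq, dAli_eq, dOK_eq, and_eq, blt_eq]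
  generalize @Bool.rec.{1} = r0, @Nat.rec.{1} = r1
  revert r0 r1
  as_aux_lemma => intro r0 r1; eq_refl

theorem Cert_exN_eq : @Cert_exN = @K.Cert.exN := by
  delta Cert_exN K.Cert.exN K.cX1
  rewrite [Cert_Q_eq, Cert_Ef_eq, Cert_Va_eq, Cert_Vb_eq, nearT_eq, Cert_VV_eq, Cert_cls_eq, crossChk_eq,
    cond_eq, and_eq]
  generalize @Bool.rec.{1} = r0
  revert r0
  as_aux_lemma => intro r0; eq_refl

theorem incChk_eq : @incChk = @K.incChk := by
  delta incChk K.incChk K.mulU K.mulD K.fld K.powU K.gAB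
  rewrite [Yb_eq, envb_eq, rqI_eq, mkCellN_eq, sqrtL_eq, divU_eq, mx_eq, force_eq, and_eq, blt_eq]
  generalize @Bool.rec.{1} = r0, @Nat.rec.{1} = r1
  revert r0 r1
  as_aux_lemma => intro r0 r1; eq_refl

theorem cellF_eq : @cellF = @K.cellF := by
  delta cellF K.cellF K.mulU K.mulD K.fld K.gNeg K.gLop K.divD K.dS K.tS K.powD Bool.casesOn
  rewrite [rq_eq, envb_eq, envUp_eq, t4L_eq, mx_eq, mn_eq, force_eq, cond_eq, and_eq, blt_eq]
  generalize @Bool.rec.{1} = r0
  revert r0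
  as_aux_lemma => intro r0; eq_refl

theorem farChk_eq : @farChk = @K.farChk := by
  delta farChk K.farChk K.mulU K.mulD K.tS K.powU
  rewrite [cellF_eq, divU_eq, delN_eq, sweep_eq, force_eq, and_eq, blt_eq]
  generalize @Bool.rec.{1} = r0
  revert r0
  as_aux_lemma => intro r0; eq_refl

theorem Cert_big_eq : @Cert_big = @K.Cert.big := by
  delta Cert_big K.Cert.big K.cX1 K.tget K.fld
  rewrite [Cert_Q_eq, Cert_VV_eq, Cert_cls_eq, crossChk_eq, tget_eq, Cert_Ef_eq, Cert_Va_eq, Cert_Vb_eq,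
    incChk_eq, farChk_eq, nearT_eq, cond_eq, and_eq]
  generalize @Bool.rec.{1} = r0
  revert r0
  as_aux_lemma => intro r0; eq_refl

theorem gamGet_eq : @gamGet = @K.gamGet := by
  delta gamGet K.gamGet K.fld
  rewrite [nth_eq]
  eq_refl

end Pool.Agent.MP_39fec4_gt.R
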