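import Pool.Agent.MP_39fec4_gt.ZScal

set_option autoImplicit false

/-! An inequality of Landau and the better bound for the first derivative. -/

namespace Pool.Agent.MP_39fec4_gt.K

open Set Full

namespace ZLandauX

theorem taylor {f f1 f2 : ℝ → ℝ} {v C : ℝ}
    (h1 : ∀ y, v ≤ y → HasDerivAt f (f1 y) y) (h2 : ∀ y, v ≤ y → HasDerivAt f1 (f2 y) y)
    (hC : ∀ y, v ≤ y → |f2 y| ≤ C) {y : ℝ} (hy : v ≤ y) :
    |f y - f v - (y - v) * f1 v| ≤ C * (y - v) ^ 2 / 2 := by
  have a1 : ∀ x ∈ Icc v y, ‖f1 x - f1 v‖ ≤ C * (x - v) :=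
    norm_image_sub_le_of_norm_deriv_right_le_segment
      (fun x hx => (h2 x hx.1).continuousAt.continuousWithinAt)
      (fun x hx => (h2 x hx.1).hasDerivWithinAt) fun x hx => hC x hx.1
  have a2 : ∀ x, v ≤ x → HasDerivAt (fun x => f x - f v - (x - v) * f1 v) (f1 x - f1 v) x :=
    fun x hx => by
      simpa using ((h1 x hx).sub_const (f v)).fun_sub
        (((hasDerivAt_id' x).sub_const v).mul_const (f1 v))
  refine image_norm_le_of_norm_deriv_right_le_deriv_boundary
    (f := fun x => f x - f v - (x - v) * f1 v) (f' := fun x => f1 x - f1 v) (a := v) (b := y)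
    (fun x hx => (a2 x hx.1).continuousAt.continuousWithinAt)
    (fun x hx => (a2 x hx.1).hasDerivWithinAt) (B := fun x => C * (x - v) ^ 2 / 2)
    (B' := fun x => C * (x - v)) (by simp) (fun x => ?_) (fun x hx => a1 x ⟨hx.1, hx.2.le⟩)
    ⟨hy, le_rfl⟩
  refine (((((hasDerivAt_id' x).sub_const v).fun_pow 2).const_mul C).div_const 2).congr_deriv ?_
  norm_num
  ring

theorem isqU_sq (n : ℕ) : n ≤ isqU n * isqU n := by
  unfold isqU
  rw [forceN_eq]
  generalize isq n + 1 = r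
  cases hb : Nat.ble n (r * r)
  · simp only [cond_false]
    nlinarith
  · simp only [cond_true]
    exact Nat.le_of_ble_eq_true hb

end ZLandauX

open ZLandauX

theorem landau {f f1 f2 : ℝ → ℝ} {v A C : ℝ} (hc : ContinuousOn f (Ici v))
    (h1 : ∀ y, v ≤ y → HasDerivAt f (f1 y) y) (h2 : ∀ y, v ≤ y → HasDerivAt f1 (f2 y) y)
    (hA : ∀ y, v ≤ y → |f y| ≤ A) (hC : ∀ y, v ≤ y → |f2 y| ≤ C) : |f1 v| ≤ 2 * √(A * C) := by
  have key : ∀ h, 0 ≤ h → h * |f1 v| ≤ 2 * A + C * h ^ 2 / 2 := by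
    intro h hh
    have a1 := abs_le.1 (taylor h1 h2 hC (y := v + h) (by linarith))
    have a2 := abs_le.1 (hA (v + h) (by linarith))
    have a3 := abs_le.1 (hA v le_rfl)
    rw [add_sub_cancel_left] at a1
    rw [← abs_of_nonneg hh, ← abs_mul, abs_of_nonneg hh, abs_le]
    constructor <;> linarith [a1.1, a1.2, a2.1, a2.2, a3.1, a3.2]
  have hA0 : 0 ≤ A := (abs_nonneg _).trans (hA v le_rfl)
  have hC0 : 0 ≤ C := (abs_nonneg _).trans (hC v le_rfl)
  rcases (abs_nonneg (f1 v)).eq_or_lt with h0 | h0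
  · rw [← h0]
    positivity
  rcases hC0.eq_or_lt with h3 | h3
  · have := key ((2 * A + 1) / |f1 v|) (by positivity)
    rw [div_mul_cancel₀ _ h0.ne', ← h3] at this
    linarith
  have h4 := mul_le_mul_of_nonneg_left (key (|f1 v| / C) (by positivity)) h3.le
  have h5 : |f1 v| ^ 2 ≤ 4 * (A * C) := by
    have e1 : C * (|f1 v| / C * |f1 v|) = |f1 v| ^ 2 := by field_simp
    have e2 : C * (2 * A + C * (|f1 v| / C) ^ 2 / 2) = 2 * (A * C) + |f1 v| ^ 2 / 2 := by
      field_simp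
    linarith
  refine abs_le_of_sq_le_sq' ?_ (by positivity) |>.2
  rw [mul_pow, Real.sq_sqrt (by positivity)]
  linarith

theorem far1b_bd {B : Blk} (hs : ScalOK B) {y : ℕ} (h : far1b B y < BIG) {q : ℝ} (hq : q ∈ B.I)
    {c v : ℝ} (hc : 1 ≤ c) (hv : rr y * c ^ 2 ≤ v) : |B.g 1 q v| ≤ rr (far1b B y) / c ^ 2 := by
  simp only [far1b, forceN_eq] at h ⊢
  cases hb : (Nat.blt (farc B y) BIG && Nat.blt (far2 B y) BIG)
  · simp only [hb, cond_false] at h ⊢
    exact hs.far.f1 y h q hq c v hc hv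
  simp only [hb, cond_true] at h ⊢
  rcases le_total (far1 y) (2 * isqU (farc B y * far2 B y)) with h1 | h1
  · rw [min_eq_left h1] at h ⊢
    exact hs.far.f1 y h q hq c v hc hv
  rw [min_eq_right h1]
  simp only [Bool.and_eq_true, Nat.blt_eq] at hb
  have c0 : 0 < c := by linarith
  have y0 : 0 < rr y := by
    refine rr_pos (Nat.pos_of_ne_zero fun hy => ?_)
    have := divU_pos hb.2
    rw [hy] at this
    simp [mulD] at this
  have v0 : 0 < v := (mul_pos y0 (pow_pos c0 2)).trans_le hv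
  have hS := hs.sm_g hq
  have h2 := landau (v := v) hS.c0.continuousOn (fun u hu => hS.d0 u (v0.trans_le hu))
    (fun u hu => hS.d1 u (v0.trans_le hu))
    (fun u hu => hs.far.fc y hb.1 q hq c u hc (hv.trans hu))
    fun u hu => hs.far.f2 y hb.2 q hq c u hc (hv.trans hu)
  refine h2.trans ?_
  have h3 := rr_le.2 (isqU_sq (farc B y * far2 B y))
  rw [rr_mul, rr_mul] at h3
  have h4 := le_of_mul_le_mul_right h3 (by positivity)
  have r0 := rr_nonneg (isqU (farc B y * far2 B y))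
  rw [rr_nmul, Nat.cast_ofNat, mul_div_assoc]
  refine mul_le_mul_of_nonneg_left ((Real.sqrt_le_iff.2
    ⟨by positivity, ?_⟩ : _ ≤ rr (isqU (farc B y * far2 B y)) / c ^ 3).trans ?_) zero_le_two
  · rw [div_mul_div_comm, div_pow, sq, sq]
    exact div_le_div_of_nonneg_right h4 (by positivity)
  · exact div_le_div_of_nonneg_left r0 (pow_pos c0 2) (pow_le_pow_right₀ hc (by norm_num))

end Pool.Agent.MP_39fec4_gt.K
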