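import Pool.Agent.MP_39fec4_gt.YSweep
import Pool.Agent.MP_39fec4_gt.FHess
import Pool.Agent.MP_39fec4_gt.ZLandau

set_option autoImplicit false

namespace Pool.Agent.MP_39fec4_gt.K

open Set MeasureTheory Full

variable {B : Blk} {Q : ℕ → ℕ → ℕ} {E : ℕ → ℕ} {q : ℝ} {ι : Type} {T : Finset ι}

namespace YGainX

theorem ab (r : ℕ) : -rr (gAB r) ≤ -ro (fld r 56 0) ∧ ro (fld r 56 1) ≤ rr (gAB r) := by
  have h0 : ro (fld r 56 0) ≤ ro (max (fld r 56 0) (fld r 56 1)) := ro_le.2 (le_max_left _ _)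
  have h1 : ro (fld r 56 1) ≤ ro (max (fld r 56 0) (fld r 56 1)) := ro_le.2 (le_max_right _ _)
  have h2 := le_max_left (ro (max (fld r 56 0) (fld r 56 1))) 0
  rw [← rr_sub_OFF] at h2
  unfold gAB
  exact ⟨by linarith, by linarith⟩

theorem lo (r : ℕ) : -ro (fld r 56 0) = rr (gLop r) - rr (gNeg r) := by
  unfold gLop gNeg
  rw [rr_sub_OFF, rr_OFF_sub]
  rcases le_total (ro (fld r 56 0)) 0 with h | h
  · rw [max_eq_left (neg_nonneg.2 h), max_eq_right h, sub_zero]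
  · rw [max_eq_right (neg_nonpos.2 h), max_eq_left h, zero_sub]

theorem avg (u v : ℕ) : ro u / 4 + 3 * ro v / 4 ≤ ro ((u + 3 * v) / 4 + 1) := by
  have h := rr_div_lt (k := 4) (u + 3 * v) (by norm_num)
  rw [rr_add, rr_nmul] at h
  rw [ro_eq, ro_eq, ro_eq]
  push_cast at h
  linarith

theorem avg' (u v : ℕ) : ro u / 4 + 3 * ro v / 4 ≤ rr ((u + 3 * v) / 4 + 1 - OFF) := by
  rw [rr_sub_OFF]
  exact (avg u v).trans (le_max_left _ _)

theorem num (b0 kh zn k1 m : ℕ) {sW : ℝ} (h : sW ≤ rr m) :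
    rr b0 ^ 2 * rr kh / 2 + rr zn * rr k1 ^ 2 / 2 + 0.1361 * rr k1 ^ 3 * sW ≤
      (Nat.cast (b0 * b0 * kh / 2 + 1 + zn * k1 * k1 / 2 + 1 +
        (k1 * k1 * k1 * (m * 1361 / 10000 + 1)) >>> (40 : ℕ) + 1) : ℝ) / 2 ^ 120 := by
  have h1 := rr_div_lt (k := 2) (b0 * b0 * kh) (by norm_num)
  have h2 := rr_div_lt (k := 2) (zn * k1 * k1) (by norm_num)
  have h3 := rr_div_lt (k := 10000) (m * 1361) (by norm_num)
  have h4 := rr_shr_lt (k1 * k1 * k1 * (m * 1361 / 10000 + 1)) 40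
  rw [rr_muln] at h3
  generalize m * 1361 / 10000 + 1 = u at h3 h4 ⊢
  rw [rr_mul, rr_mul] at h1 h2
  rw [rr_mul, rr_mul, rr_mul] at h4
  have e : ∀ n : ℕ, (n : ℝ) / 2 ^ 120 = rr n / 2 ^ 80 := fun n => by
    unfold rr
    rw [div_div, ← pow_add]
  have e2 : b0 * b0 * kh / 2 + 1 + zn * k1 * k1 / 2 + 1 + (k1 * k1 * k1 * u) >>> 40 + 1 =
      (b0 * b0 * kh / 2 + 1) + (zn * k1 * k1 / 2 + 1) + ((k1 * k1 * k1 * u) >>> 40 + 1) := by
    ring
  rw [e, e2, rr_add, rr_add]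
  generalize rr (b0 * b0 * kh / 2 + 1) = x1 at h1 ⊢
  generalize rr (zn * k1 * k1 / 2 + 1) = x2 at h2 ⊢
  generalize rr ((k1 * k1 * k1 * u) >>> 40 + 1) = x3 at h4 ⊢
  have h5 : 0.1361 * sW ≤ rr u := by
    push_cast at h3
    linarith
  have h6 := mul_le_mul_of_nonneg_left h5 (pow_nonneg (rr_nonneg k1) 3)
  push_cast at h1 h2
  rw [le_div_iff₀ (by positivity)]
  have h7 : rr k1 * rr k1 * 2 ^ 40 * rr k1 * 2 ^ 40 * rr u * 2 ^ 40 / 2 ^ 40 =
      rr k1 ^ 3 * rr u * 2 ^ 80 := by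
    field_simp
  rw [h7] at h4
  linarith

theorem far_num {Bb fb f1 f2 c W : ℝ} {k n : ℕ} (hc : 0 < c) (hk : 3 ≤ k) (hn : k ≤ n)
    (b0 : 0 ≤ Bb) (b7 : Bb ≤ 0.7) (e1 : Bb ^ (k - 1) * c ^ 3 ≤ fb ^ (k - 1))
    (e2 : Bb ^ (k - 2) * c ^ 2 ≤ fb ^ (k - 2)) (p2 : 0 ≤ f2) (hW : 0 ≤ W) :
    (Bb ^ (n - 1) / 2 * (f2 / c ^ 3) + Bb ^ (n - 2) * ((f1 / c ^ 2) ^ 2 + (f1 / c ^ 2) ^ 2 / 2)) *
      W * c ^ 6 ≤ (fb ^ (k - 1) * f2 / 2 + 2 * fb ^ (k - 2) * f1 ^ 2) * 0.7 ^ (n - k) * W := by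
  have a1 : Bb ^ (n - k) ≤ 0.7 ^ (n - k) := pow_le_pow_left₀ b0 b7 _
  have a0 : 0 ≤ Bb ^ (n - k) := pow_nonneg b0 _
  rw [show n - 1 = k - 1 + (n - k) by omega, show n - 2 = k - 2 + (n - k) by omega, pow_add,
    pow_add]
  have q1 : 0 ≤ Bb ^ (k - 1) * c ^ 3 := by positivity
  have q2 : 0 ≤ Bb ^ (k - 2) * c ^ 2 := by positivity
  have e : (Bb ^ (k - 1) * Bb ^ (n - k) / 2 * (f2 / c ^ 3) + Bb ^ (k - 2) * Bb ^ (n - k) *
      ((f1 / c ^ 2) ^ 2 + (f1 / c ^ 2) ^ 2 / 2)) * W * c ^ 6 =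
      (Bb ^ (k - 1) * c ^ 3 * f2 / 2 + 3 / 2 * (Bb ^ (k - 2) * c ^ 2) * f1 ^ 2) * Bb ^ (n - k) *
        W := by
    field_simp
    ring
  rw [e]
  refine mul_le_mul_of_nonneg_right (mul_le_mul ?_ a1 a0 ?_) hW
  · have := mul_le_mul_of_nonneg_right e1 p2
    have := mul_le_mul_of_nonneg_right e2 (sq_nonneg f1)
    have := mul_nonneg q2 (sq_nonneg f1)
    linarith
  · have := mul_nonneg (q1.trans e1) p2
    have := mul_nonneg (q2.trans e2) (sq_nonneg f1)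
    linarith

theorem pw {fb c : ℝ} (hc : 1 ≤ c) (h0 : 0 ≤ fb) {e m d : ℕ} (h : d ≤ e * m) :
    (fb / c ^ e) ^ m * c ^ d ≤ fb ^ m := by
  have c0 : 0 < c := by linarith
  rw [div_pow, ← pow_mul, div_mul_eq_mul_div, div_le_iff₀ (by positivity)]
  exact mul_le_mul_of_nonneg_left (pow_le_pow_right₀ hc h) (pow_nonneg h0 _)

end YGainX

open YGainX

theorem hess3_spec (h : BOK B Q E) (hq : q ∈ B.I) {P : EP} {R Rn w ym tb : ℕ} {y : ι → ℝ} {a : ℝ}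
    (hy : HIn B P R Rn w ym tb q T y a) (hu : P.uni = false) (h3 : P.k = 3)
    (hs : rr P.Vh ≤ rr P.sV ^ 2) : ∏ j ∈ T, B.g 0 q (y j) - B.g 0 q (mean T y) ^ T.card ≤
      (hess3 P R Rn w tb : ℝ) / 2 ^ 120 * Var T y := by
  have hc : T.card = 3 := (hy.ex hu).trans h3
  have hT : T.Nonempty := Finset.card_pos.1 (by omega)
  have hyI : ∀ j ∈ T, y j ∈ Icc a (rr ym) := fun j hj => hy.rng j hj
  have hm : mean T y ∈ Icc a (rr ym) := FHeadX.mean_mem T hT y hyI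
  have hW := Full.var_nonneg T y
  have hV : Var T y ≤ rr tb ^ 2 * rr P.Vh := by
    have := hy.var
    rw [hc, h3] at this
    push_cast at this
    linarith
  obtain ⟨b1, b2, b3, b4⟩ := breg (h.sc.sm_g hq) T hT y (na := (a + mean T y) / 2)
    (nb := (rr ym + mean T y) / 2) hy.a0 hyI
    (fun v hv => ⟨(hy.hR v hv.1 hv.2).k1, (hy.hR v hv.1 hv.2).k2l, (hy.hR v hv.1 hv.2).k2h⟩)
    (fun v hv _ => ⟨(hy.hRn v hv.1 hv.2).k1, (hy.hRn v hv.1 hv.2).k2l, (hy.hRn v hv.1 hv.2).k2h⟩)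
    le_rfl le_rfl
  simp only [hess3, forceN_eq]
  have c1 := rr_div_lt (k := 2) (gK1 R + gK1 Rn) (by norm_num)
  have c2 := avg' (fld R 56 4) (fld Rn 56 4)
  have c3 := avg' (fld R 56 3) (fld Rn 56 3)
  have c4 : Var T y ≤ rr (mulU (mulU tb tb) P.Vh) :=
    hV.trans (le_mulU (by rw [sq]; exact mulU_ge tb tb) le_rfl (rr_nonneg _))
  rw [rr_add] at c1
  generalize (gK1 R + gK1 Rn) / 2 + 1 = k1 at c1 ⊢
  generalize (fld R 56 4 + 3 * fld Rn 56 4) / 4 + 1 - OFF = kh at c2 ⊢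
  generalize (fld R 56 3 + 3 * fld Rn 56 3) / 4 + 1 - OFF = kl at c3 ⊢
  generalize mulU (mulU tb tb) P.Vh = wm at c4 ⊢
  have c5 := rr_div_lt (k := 6) (mulU (max kh kl) wm) (by norm_num)
  have c6 : max (rr kh) (rr kl) * Var T y ≤ rr (mulU (max kh kl) wm) :=
    le_mulU (rr_max kh kl).ge c4 hW
  have c7 := rr_div_lt (k := 6) (mulU kl wm) (by norm_num)
  have c8 : rr kl * Var T y ≤ rr (mulU kl wm) := le_mulU le_rfl c4 hW
  have c9 := rr_sub_ge (mulU kl wm / 6 + 1 + gNeg w) (gLop w)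
  rw [rr_add] at c9
  push_cast at c1 c5 c7
  have hb : HB T (fun j => B.g 0 q (y j)) (fun j => y j - mean T y) (B.g 0 q (mean T y)) (Var T y)
      (-ro (fld R 56 0)) (ro (fld R 56 1)) (-ro (fld w 56 0)) (ro (fld w 56 1)) (rr k1)
      (rr (gK1 R)) (rr kh) (rr kl) (rr (gAB R)) (rr (gAB w))
      (rr (min (gAB R) (gAB w + mulU (max kh kl) wm / 6 + 1))) 1 1 := by
    refine ⟨by omega, FHeadX.sum_dev T hT y, rfl, fun j hj => ?_, hy.hw, ?_, fun j hj => ?_,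
      fun i hi l hl => by rw [sub_sub_sub_cancel_right]; exact b2 i hi l hl, ?_, ?_,
      rr_nonneg _, rr_nonneg _, rr_nonneg _, rr_nonneg _, ab R, ab w, ?_, Or.inl le_rfl,
      by linarith⟩
    · exact (hy.hR _ (hyI j hj).1 (hyI j hj).2).inR
    · exact (hy.hR _ hm.1 hm.2).inR
    · exact (b1 j hj).trans (mul_le_mul_of_nonneg_right c1.le (abs_nonneg _))
    · refine le_trans ?_ b3
      have := mul_le_mul_of_nonneg_right c3 hW
      linarith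
    · refine b4.trans ?_
      have := mul_le_mul_of_nonneg_right c2 hW
      linarith
    · rcases le_total (gAB R) (gAB w + mulU (max kh kl) wm / 6 + 1) with e | e
      · rw [min_eq_left e]
        exact Or.inl le_rfl
      · rw [min_eq_right e, hc, add_assoc, rr_add]
        push_cast
        exact Or.inr (by linarith)
  have h7 := hb.three hc (zn := rr (mulU kl wm / 6 + 1 + gNeg w - gLop w)) (sW := rr tb * rr P.sV)
    (rr_nonneg _) (by rw [lo]; linarith) (mul_nonneg (rr_nonneg _) (rr_nonneg _))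
    (hV.trans (by rw [mul_pow]; exact mul_le_mul_of_nonneg_left hs (sq_nonneg _)))
  exact h7.trans (mul_le_mul_of_nonneg_right (num _ _ _ _ _ (mulU_ge tb P.sV)) hW)

theorem gain_spec (h : BOK B Q E) (hq : q ∈ B.I) {Rg Rn : ℕ} {y : ι → ℝ} {a b lw Wm : ℝ}
    (hT : T.Nonempty) (ha : 0 ≤ a) (hb : b ≤ rr B.z2) (hy : ∀ j ∈ T, a ≤ y j ∧ y j ≤ b)
    (hR : ∀ v, a ≤ v → v ≤ b → PtOK B Rg q v)
    (hRn : ∀ v, (a + mean T y) / 2 ≤ v → v ≤ (b + mean T y) / 2 → PtOK B Rn q v)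
    (h0 : 0 ≤ lw) (hl : lw ≤ B.g 0 q (mean T y) ^ T.card) (hW : Var T y ≤ Wm) :
    ∏ j ∈ T, B.g 0 q (y j) - B.g 0 q (mean T y) ^ T.card ≤
      -(lw * rr (gainC Rg Rn) / (2 + rr (gainC Rg Rn) * Wm) * Var T y) := by
  rcases Nat.eq_zero_or_pos (gainC Rg Rn) with e | e
  · rw [e, rr_zero, mul_zero, zero_div, zero_mul, neg_zero, sub_nonpos]
    exact FL.jensen h hq hT (FL.of_le h hq fun j hj => ⟨ha.trans (hy j hj).1, (hy j hj).2.trans hb⟩)
  have hv : max (fld Rg 56 7) (fld Rn 56 7) < INV ∧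
      gainC Rg Rn = OFF - ((fld Rg 56 7 + 3 * fld Rn 56 7) / 4 + 1) := by
    unfold gainC at e ⊢
    cases hb : Nat.blt (max (fld Rg 56 7) (fld Rn 56 7)) INV
    · rw [hb, cond_false] at e
      exact absurd e (lt_irrefl 0)
    · exact ⟨Nat.blt_eq.mp hb, cond_true _ _⟩
  have c0 := rr_pos e
  have c1 : rr (gainC Rg Rn) ≤ -ro (fld Rg 56 7) / 4 + 3 * -ro (fld Rn 56 7) / 4 := by
    rw [hv.2, rr_OFF_sub] at c0 ⊢
    have c2 := avg (fld Rg 56 7) (fld Rn 56 7)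
    rcases le_total (-ro ((fld Rg 56 7 + 3 * fld Rn 56 7) / 4 + 1)) 0 with e1 | e1
    · rw [max_eq_right e1] at c0
      exact absurd c0 (lt_irrefl 0)
    · rw [max_eq_left e1]
      linarith
  have pos : ∀ v ∈ Icc a b, 0 < B.g 0 q v := fun v hv =>
    (h.hd q hq).pos v (ha.trans hv.1) (hv.2.trans hb)
  have h1 := gain (h.sc.sm_g hq) T hT y (na := (a + mean T y) / 2) (nb := (b + mean T y) / 2)
    (cf := -ro (fld Rg 56 7)) (cn := -ro (fld Rn 56 7)) ha (fun j hj => hy j hj) pos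
    (fun v hv' => by
      rw [neg_neg]
      exact (hR v hv'.1 hv'.2).nc ((le_max_left _ _).trans_lt hv.1) (pos v hv'))
    (fun v hv' hv'' => by
      rw [neg_neg]
      exact (hRn v hv'.1 hv'.2).nc ((le_max_right _ _).trans_lt hv.1) (pos v hv''))
    le_rfl le_rfl (c0.le.trans c1)
  change _ ≤ B.g 0 q (mean T y) ^ T.card / _ at h1
  have hV := Full.var_nonneg T y
  generalize -ro (fld Rg 56 7) / 4 + 3 * -ro (fld Rn 56 7) / 4 = C at c1 h1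
  generalize rr (gainC Rg Rn) = c at c0 c1 ⊢
  generalize B.g 0 q (mean T y) ^ T.card = G at hl h1 ⊢
  generalize Var T y = V at hW hV h1 ⊢
  have C0 : 0 < C := c0.trans_le c1
  have d1 : 0 < 2 + C * V := by positivity
  have d2 : 0 < 2 + c * Wm := by
    have := mul_nonneg c0.le (hV.trans hW)
    linarith
  have e1 : G / (1 + C * V / 2) = G - G * (C / (2 + C * V)) * V := by
    field_simp
    ring
  have e2 : c / (2 + c * Wm) ≤ C / (2 + C * V) := by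
    rw [div_le_div_iff₀ d2 d1]
    have := mul_le_mul_of_nonneg_left hW (mul_pos c0 C0).le
    linarith
  have e3 := mul_le_mul_of_nonneg_right (mul_le_mul hl e2 (div_pos c0 d2).le (h0.trans hl)) hV
  rw [mul_div_assoc]
  linarith

/-- The simple second order bound far out; `c` is the ratio of the point to the start of the
tail. -/
theorem far_hess (h : BOK B Q E) (hq : q ∈ B.I) {y : ι → ℝ} {k ylo : ℕ} {c : ℝ} (hc : 1 ≤ c)
    (hk : 3 ≤ k) (hn : k ≤ T.card) (hy : ∀ j ∈ T, rr ylo * c ^ 2 ≤ y j) {fb : ℕ}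
    (hf : fb = bif Nat.ble 4 k then far0 B ylo else farc B ylo) (h7 : fb ≤ R07)
    (h1 : far1b B ylo < BIG) (h2 : far2 B ylo < BIG) :
    |∏ j ∈ T, B.g 0 q (y j) - B.g 0 q (mean T y) ^ T.card| * c ^ 6 ≤
      (rr fb ^ (k - 1) * rr (far2 B ylo) / 2 + 2 * rr fb ^ (k - 2) * rr (far1b B ylo) ^ 2) *
        0.7 ^ (T.card - k) * Var T y := by
  have c0 : 0 < c := by linarith
  have hT : T.Nonempty := Finset.card_pos.1 (by omega)
  have a0 : 0 ≤ rr ylo * c ^ 2 := mul_nonneg (rr_nonneg _) (sq_nonneg c)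
  have hbig : fb < BIG := h7.trans_lt (by decide)
  obtain ⟨e, e1, e2, e3⟩ : ∃ e : ℕ, 3 ≤ e * (k - 1) ∧ 2 ≤ e * (k - 2) ∧
      ∀ v, rr ylo * c ^ 2 ≤ v → |B.g 0 q v| ≤ rr fb / c ^ e := by
    cases hb : Nat.ble 4 k
    · rw [hb, cond_false] at hf
      subst hf
      exact ⟨3, by omega, by omega, fun v hv => h.far.fc ylo hbig q hq c v hc hv⟩
    · rw [hb, cond_true] at hf
      subst hf
      have := Nat.le_of_ble_eq_true hb
      exact ⟨1, by omega, by omega, fun v hv => by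
        rw [pow_one]
        exact h.far.f0 ylo hbig q hq c v hc hv⟩
  have hyI : ∀ j ∈ T, y j ∈ Icc (rr ylo * c ^ 2) (∑ i ∈ T, y i) := fun j hj =>
    ⟨hy j hj, Finset.single_le_sum (fun i hi => a0.trans (hy i hi)) hj⟩
  have hm : mean T y ∈ Icc (rr ylo * c ^ 2) (∑ i ∈ T, y i) := FHeadX.mean_mem T hT y hyI
  have hd : ∀ v ∈ Icc (rr ylo * c ^ 2) (∑ i ∈ T, y i), |B.g 1 q v| ≤ rr (far1b B ylo) / c ^ 2 ∧
      -(rr (far2 B ylo) / c ^ 3) ≤ B.g 2 q v ∧ B.g 2 q v ≤ rr (far2 B ylo) / c ^ 3 := fun v hv =>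
    ⟨far1b_bd h.sc h1 hq hc hv.1, abs_le.1 (h.far.f2 ylo h2 q hq c v hc hv.1)⟩
  obtain ⟨b1, b2, b3, b4⟩ := breg (h.sc.sm_g hq) T hT y a0 hyI hd (fun v _ hv => hd v hv)
    le_rfl le_rfl
  have p0 := rr_nonneg fb
  have p1 : 0 ≤ rr (far1b B ylo) / c ^ 2 := div_nonneg (rr_nonneg _) (by positivity)
  have p2 : 0 ≤ rr (far2 B ylo) / c ^ 3 := div_nonneg (rr_nonneg _) (by positivity)
  have hb : HB T (fun j => B.g 0 q (y j)) (fun j => y j - mean T y) (B.g 0 q (mean T y)) (Var T y)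
      (-(rr fb / c ^ e)) (rr fb / c ^ e) (-(rr fb / c ^ e)) (rr fb / c ^ e)
      (rr (far1b B ylo) / c ^ 2) (rr (far1b B ylo) / c ^ 2) (rr (far2 B ylo) / c ^ 3)
      (rr (far2 B ylo) / c ^ 3) (rr fb / c ^ e) (rr fb / c ^ e) (rr fb / c ^ e) 1 1 := by
    refine ⟨by omega, FHeadX.sum_dev T hT y, rfl, fun j hj => abs_le.1 (e3 _ (hy j hj)),
      abs_le.1 (e3 _ hm.1), abs_le.1 (e3 _ hm.1), fun j hj => ?_,
      fun i hi l hl => by rw [sub_sub_sub_cancel_right]; exact b2 i hi l hl, ?_, ?_, p1, p1, p2, p2,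
      ⟨le_rfl, le_rfl⟩, ⟨le_rfl, le_rfl⟩, Or.inl le_rfl, Or.inl le_rfl, by linarith⟩
    · exact (b1 j hj).trans (le_of_eq (by rw [add_self_div_two]; rfl))
    · exact le_trans (le_of_eq (by ring)) b3
    · exact b4.trans (le_of_eq (by ring))
  have h3 := mul_le_mul_of_nonneg_right hb.simple (pow_pos c0 6).le
  rw [max_self] at h3
  refine h3.trans (far_num c0 hk hn (by positivity) ?_ (pw hc p0 e1) (pw hc p0 e2) (rr_nonneg _)
    (Full.var_nonneg T y))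
  exact (div_le_self p0 (one_le_pow₀ hc)).trans ((rr_le.2 h7).trans R07_le)

end Pool.Agent.MP_39fec4_gt.K
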