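import Pool.Agent.MP_39fec4_gt.YSweep

set_option autoImplicit false

namespace Pool.Agent.MP_39fec4_gt.K

open Set MeasureTheory Full

variable {B : Blk} {Q : ℕ → ℕ → ℕ} {E : ℕ → ℕ} {q : ℝ} {ι : Type} {T : Finset ι}

namespace YTailX

lemma farc_pos {y : ℕ} (hf : farc B y < BIG) : 0 < y :=
  (ZFineX.mulD_pos (divU_pos hf)).1

lemma far0_pos {y : ℕ} (hf : far0 B y < BIG) : 0 < y := by
  rcases min_lt_iff.1 hf with h | h
  · have h1 := rr_pos (ZFineX.mulD_pos (divU_pos h)).2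
    have h2 := sqrtL_sq y
    have h3 : rr 0 < rr y := by
      rw [rr_zero]
      exact lt_of_lt_of_le (pow_pos h1 2) h2
    exact rr_lt.1 h3
  · exact farc_pos h

lemma s_pos {y s : ℕ} {m : ℝ} (hy : rr y ≤ m * sR s ^ 2) (h0 : 0 < y) : 0 < sR s := by
  rcases (sR_nonneg s).eq_or_lt with h | h
  · rw [← h] at hy
    have := rr_pos h0
    simp at hy
    linarith
  · exact h

lemma scale {y s : ℕ} {m u : ℝ} (hy : rr y ≤ m * sR s ^ 2) (hs : 0 < sR s) :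
    rr y * (u / sR s) ^ 2 ≤ m * u ^ 2 := by
  have e : m * u ^ 2 = m * sR s ^ 2 * (u / sR s) ^ 2 := by
    field_simp
  rw [e]
  exact mul_le_mul_of_nonneg_right hy (sq_nonneg _)

lemma node {a s : ℕ} {x : ℝ} (h : rr a ≤ x) : rr (mulD a (tS s)) ≤ x * sR s ^ 2 :=
  mulD_le_of h (tS_eq s).le

/-- The envelope at the point `u`. -/
lemma env_u (h : BOK B Q E) (hq : q ∈ B.I) {x : ι → ℝ} {xb m : ℕ}
    (hx : ∀ j ∈ T, 0 ≤ x j ∧ x j ≤ rr xb) (hm : m * rr xb ≤ ∑ j ∈ T, x j) (u : ℝ) :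
    (∏ j ∈ T, B.g 0 q (x j * u ^ 2)) ^ 2 * (1 + rr B.gam * (rr xb * u ^ 2)) ^ m ≤ 1 := by
  classical
  have hu : 0 ≤ u ^ 2 := sq_nonneg u
  refine alg_env (rr_nonneg _) (h.alg q hq) T (fun j => x j * u ^ 2)
    (mul_nonneg (rr_nonneg _) hu) (fun j hj => ⟨mul_nonneg (hx j hj).1 hu,
      mul_le_mul_of_nonneg_right (hx j hj).2 hu⟩) m ?_
  rw [← Finset.sum_mul, ← mul_assoc]
  exact mul_le_mul_of_nonneg_right hm hu

lemma z_le (ga xb s : ℕ) : rr (mulD ga (mulD xb (tS s))) ≤ rr ga * (rr xb * sR s ^ 2) :=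
  mulD_le_of le_rfl (node le_rfl)

lemma fac_one {N n : ℕ} (hN : 1 ≤ N) (hn : N ≤ n) : √((n : ℝ) / N) * 0.7 ^ (n - N) ≤ 1 := by
  have hN' : (1 : ℝ) ≤ N := by exact_mod_cast hN
  have h := scale_nat (rho := (0.7 : ℝ) ^ 5) (by positivity) hN hn (by
    have h1 : ((0.7 : ℝ) ^ 2 * (N + 1)) ^ 5 ≤ (N : ℝ) ^ 5 :=
      pow_le_pow_left₀ (by positivity) (by norm_num; linarith) 5
    calc ((0.7 : ℝ) ^ 5) ^ 2 * (N + 1) ^ 5 = ((0.7 : ℝ) ^ 2 * (N + 1)) ^ 5 := by ring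
      _ ≤ _ := h1)
  rw [← pow_mul, mul_comm 5 (n - N), pow_mul, ← mul_pow] at h
  exact (pow_le_one_iff_of_nonneg (by positivity) (by norm_num)).1 h

lemma fac_sq {N n : ℕ} (hN : 8 ≤ N) (hn : N ≤ n) :
    (n : ℝ) ^ 2 * (√((n : ℝ) / N) * 0.7 ^ (n - N)) ≤ (N : ℝ) ^ 2 := by
  have hN' : (8 : ℝ) ≤ N := by exact_mod_cast hN
  have hN0 : (0 : ℝ) < N := by linarith
  have h := scale_nat (rho := (0.7 : ℝ)) (by positivity) (by omega : 1 ≤ N) hn (by
    have h1 : ((N : ℝ) + 1) ^ 5 ≤ (9 / 8 * (N : ℝ)) ^ 5 :=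
      pow_le_pow_left₀ (by positivity) (by linarith) 5
    have h2 : 0 ≤ (N : ℝ) ^ 5 := by positivity
    rw [mul_pow] at h1
    nlinarith)
  have hs : √((n : ℝ) / N) ^ 2 = (n : ℝ) / N := Real.sq_sqrt (by positivity)
  have e : (n : ℝ) ^ 2 * (√((n : ℝ) / N) * 0.7 ^ (n - N)) =
      (N : ℝ) ^ 2 * (√((n : ℝ) / N) ^ 5 * 0.7 ^ (n - N)) := by
    have e5 : √((n : ℝ) / N) ^ 5 = (√((n : ℝ) / N) ^ 2) ^ 2 * √((n : ℝ) / N) := by ring
    rw [e5, hs]
    field_simp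
  rw [e]
  exact mul_le_of_le_one_right (by positivity) h

end YTailX

open YTailX

/-- The decay bounds in the variable `u`. -/
theorem far0_sq (h : BOK B Q E) (hq : q ∈ B.I) {y s : ℕ} {m u : ℝ} (hy : rr y ≤ m * sR s ^ 2)
    (hf : far0 B y < BIG) (hu : sR s ≤ u) :
    0 < sR s ∧ |B.g 0 q (m * u ^ 2)| ≤ rr (far0 B y) * (sR s / u) := by
  have hs := s_pos hy (far0_pos hf)
  refine ⟨hs, ?_⟩
  have h1 := h.far.f0 y hf q hq (u / sR s) (m * u ^ 2) ((one_le_div hs).2 hu) (scale hy hs)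
  rwa [div_div_eq_mul_div, mul_div_assoc] at h1

theorem farc_sq (h : BOK B Q E) (hq : q ∈ B.I) {y s : ℕ} {m u : ℝ} (hy : rr y ≤ m * sR s ^ 2)
    (hf : farc B y < BIG) (hu : sR s ≤ u) :
    0 < sR s ∧ |B.g 0 q (m * u ^ 2)| ≤ rr (farc B y) * (sR s / u) ^ 3 := by
  have hs := s_pos hy (farc_pos hf)
  refine ⟨hs, ?_⟩
  have h1 := h.far.fc y hf q hq (u / sR s) (m * u ^ 2) ((one_le_div hs).2 hu) (scale hy hs)
  rwa [div_pow, div_div_eq_mul_div, mul_div_assoc, ← div_pow] at h1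

theorem oTail_spec (h : BOK B Q E) (hq : q ∈ B.I) {x1l x2l s : ℕ} {x1 x2 : ℝ}
    (h1 : rr x1l ≤ x1) (h2 : rr x2l ≤ x2) (ho : oTail B Q x1l x2l s < BIG) :
    0 < sR s ∧ ∃ A2 A3 : ℝ, 0 ≤ A2 ∧ 0 ≤ A3 ∧ (A2 + A3 / 2) * sR s ≤ rr (oTail B Q x1l x2l s) ∧
      ∀ u, sR s ≤ u → |B.g 0 q (x1 * u ^ 2) * B.g 0 q (x2 * u ^ 2)| ≤
        A2 * (sR s / u) ^ 2 + A3 * (sR s / u) ^ 3 := by
  have n1 := node (s := s) h1
  have n2 := node (s := s) h2
  simp only [oTail, forceN_eq] at ho ⊢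
  generalize mulD x1l (tS s) = y1 at *
  generalize mulD x2l (tS s) = y2 at *
  rcases min_choice (bif Nat.blt (far0 B y1) BIG && Nat.blt (far0 B y2) BIG then
      mulU (mulU (far0 B y1) (far0 B y2)) (s <<< 34) else BIG)
    (bif Nat.blt (farc B y1) BIG then mulU (mulU (farc B y1) (gAB (rqI Q y2))) (s <<< 33)
      else BIG) with e | e
  · rw [e] at ho ⊢
    cases hc : (Nat.blt (far0 B y1) BIG && Nat.blt (far0 B y2) BIG)
    · rw [hc] at ho
      exact absurd ho (lt_irrefl BIG)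
    · rw [Bool.and_eq_true, Nat.blt_eq, Nat.blt_eq] at hc
      have hs := s_pos n1 (far0_pos hc.1)
      refine ⟨hs, rr (far0 B y1) * rr (far0 B y2), 0,
        mul_nonneg (rr_nonneg _) (rr_nonneg _), le_rfl, ?_, fun u hu => ?_⟩
      · rw [zero_div, add_zero, cond_true]
        exact le_mulU (mulU_ge _ _) (shl34 s).ge hs.le
      · have a1 := (far0_sq h hq n1 hc.1 hu).2
        have a2 := (far0_sq h hq n2 hc.2 hu).2
        rw [abs_mul, zero_mul, add_zero]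
        refine (mul_le_mul a1 a2 (abs_nonneg _) ((abs_nonneg _).trans a1)).trans (le_of_eq ?_)
        ring
  · rw [e] at ho ⊢
    cases hc : Nat.blt (farc B y1) BIG
    · rw [hc] at ho
      exact absurd ho (lt_irrefl BIG)
    · rw [Nat.blt_eq] at hc
      have hs := s_pos n1 (farc_pos hc)
      refine ⟨hs, 0, rr (farc B y1) * rr (gAB (rqI Q y2)), le_rfl,
        mul_nonneg (rr_nonneg _) (rr_nonneg _), ?_, fun u hu => ?_⟩
      · rw [zero_add, cond_true, div_mul_eq_mul_div, mul_div_assoc]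
        exact le_mulU (mulU_ge _ _) (shl33 s).ge (by positivity)
      · have a1 := (farc_sq h hq n1 hc hu).2
        have hx2 : 0 ≤ x2 := (rr_nonneg _).trans h2
        have hl : rr y2 ≤ x2 * u ^ 2 :=
          n2.trans (mul_le_mul_of_nonneg_left (pow_le_pow_left₀ hs.le hu 2) hx2)
        have a2 := ((h.qok.rqI y2 (x2 * u ^ 2)).pt q hq (x2 * u ^ 2) (by positivity) hl
          le_rfl).inR.abs
        rw [abs_mul, zero_mul, zero_add]
        refine (mul_le_mul a1 a2 (abs_nonneg _) ((abs_nonneg _).trans a1)).trans (le_of_eq ?_)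
        ring

theorem pTail_spec (h : BOK B Q E) (hq : q ∈ B.I) {x : ι → ℝ} {ra xb1 s : ℕ}
    (hx : ∀ j ∈ T, 0 ≤ x j ∧ x j ≤ rr xb1) (hr : rr ra ≤ ∑ j ∈ T, x j) {u : ℝ} (hu : sR s ≤ u) :
    |∏ j ∈ T, B.g 0 q (x j * u ^ 2)| ≤ rr (pTail B ra xb1 s) := by
  have hm : ((ra / xb1 : ℕ) : ℝ) * rr xb1 ≤ ∑ j ∈ T, x j := by
    rw [← rr_nmul]
    exact (rr_le.2 (Nat.div_mul_le_self ra xb1)).trans hr
  have he := env_u h hq hx hm u
  have hz := z_le B.gam xb1 s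
  have hz0 := rr_nonneg (mulD B.gam (mulD xb1 (tS s)))
  have hW : rr B.gam * (rr xb1 * sR s ^ 2) ≤ rr B.gam * (rr xb1 * u ^ 2) :=
    mul_le_mul_of_nonneg_left (mul_le_mul_of_nonneg_left
      (pow_le_pow_left₀ (sR_nonneg s) hu 2) (rr_nonneg _)) (rr_nonneg _)
  unfold pTail
  generalize ∏ j ∈ T, B.g 0 q (x j * u ^ 2) = P at *
  generalize rr B.gam * (rr xb1 * u ^ 2) = W at *
  generalize mulD B.gam (mulD xb1 (tS s)) = z at *
  generalize ra / xb1 = m at *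
  have hW0 : 0 ≤ W := hz0.trans (hz.trans hW)
  have hP : P ^ 2 ≤ (1 / (1 + W)) ^ m := by
    rw [one_div, inv_pow, ← one_div, le_div_iff₀ (by positivity)]
    exact he
  have hd : 1 / (1 + W) ≤ rr (divU SS (SS + z)) :=
    le_divU (by unfold SS; omega) rr_SS.ge (by rw [rr_add, rr_SS]; linarith)
  rw [rr_min, rr_SS]
  refine le_min ?_ ?_
  · have : (1 / (1 + W)) ^ m ≤ 1 :=
      pow_le_one₀ (by positivity) (by rw [div_le_one (by positivity)]; linarith)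
    exact (sq_le_one_iff_abs_le_one P).1 (hP.trans this)
  · refine abs_le_of_sq_le_sq' ?_ (rr_nonneg _) |>.elim (fun a b => abs_le.2 ⟨a, b⟩)
    exact (hP.trans (le_powU (by positivity) hd m)).trans (sqrtU_sq _)

/-- The algebraic envelope far out: `m` copies of the largest value fit into the sum. -/
theorem alg_tail (h : BOK B Q E) (hq : q ∈ B.I) {x : ι → ℝ} {xb s m : ℕ}
    (hx : ∀ j ∈ T, 0 ≤ x j ∧ x j ≤ rr xb) (hm : m * rr xb ≤ ∑ j ∈ T, x j) (h4 : 4 ≤ m)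
    (hz : 64 * SS ≤ mulD B.gam (mulD xb (tS s))) {u : ℝ} (hu : sR s ≤ u) :
    0 < sR s ∧ |∏ j ∈ T, B.g 0 q (x j * u ^ 2)| * √65 ^ (m - 4) ≤
      rr (powU (divU SS (mulD B.gam (mulD xb (tS s)))) 2) * (sR s / u) ^ 2 := by
  have he := env_u h hq hx hm u
  have hzl := z_le B.gam xb s
  rw [← mul_assoc] at hzl he
  generalize mulD B.gam (mulD xb (tS s)) = z at *
  have hz0 : 0 < z := lt_of_lt_of_le (by unfold SS; omega) hz
  have hz64 : 64 ≤ rr z := by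
    have := rr_le.2 hz
    rw [rr_nmul, rr_SS] at this
    simpa using this
  have hs := s_pos hzl hz0
  refine ⟨hs, ?_⟩
  have hW := scale (u := u) hzl hs
  have hc : 1 ≤ u / sR s := (one_le_div hs).2 hu
  have hi : sR s / u = (u / sR s)⁻¹ := by rw [inv_div]
  rw [hi]
  generalize ∏ j ∈ T, B.g 0 q (x j * u ^ 2) = P at *
  generalize rr B.gam * rr xb * u ^ 2 = W at *
  generalize u / sR s = c at *
  have hc2 : 1 ≤ c ^ 2 := one_le_pow₀ hc
  have hW64 : 64 ≤ W := by nlinarith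
  obtain ⟨k, rfl⟩ := Nat.exists_eq_add_of_le' h4
  rw [Nat.add_sub_cancel]
  have h65 : (√65 ^ k) ^ 2 = (65 : ℝ) ^ k := by
    rw [← pow_mul, mul_comm k 2, pow_mul, Real.sq_sqrt (by norm_num)]
  have hA : (|P| * √65 ^ k * W ^ 2) ^ 2 ≤ 1 := by
    refine le_trans ?_ he
    rw [mul_pow, mul_pow, sq_abs, h65, pow_add, mul_assoc, ← pow_mul]
    refine mul_le_mul_of_nonneg_left ?_ (sq_nonneg P)
    exact mul_le_mul (pow_le_pow_left₀ (by norm_num) (by linarith) k)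
      (pow_le_pow_left₀ (by linarith) (by linarith) 4) (by positivity) (by positivity)
  have hB : |P| * √65 ^ k * W ^ 2 ≤ 1 :=
    (pow_le_one_iff_of_nonneg (by positivity) (by norm_num)).1 hA
  have hd : (1 / rr z) ^ 2 ≤ rr (powU (divU SS z) 2) :=
    le_powU (by positivity) (le_divU hz0 rr_SS.ge le_rfl) 2
  refine le_trans ?_ (mul_le_mul_of_nonneg_right hd (sq_nonneg _))
  have hc0 : 0 < c := by linarith
  have hzr : 0 < rr z := by linarith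
  have e : (1 / rr z) ^ 2 * c⁻¹ ^ 2 = 1 / (rr z * c) ^ 2 := by field_simp
  rw [e, le_div_iff₀ (by positivity)]
  refine le_trans (mul_le_mul_of_nonneg_left ?_ (by positivity)) hB
  refine pow_le_pow_left₀ (by positivity) (le_trans ?_ hW) 2
  exact mul_le_mul_of_nonneg_left (by nlinarith) hzr.le

theorem int_ngp (h : BOK B Q E) (hq : q ∈ B.I) {n : ℕ} (hn : 1 ≤ n) :
    IntegrableOn (ngp (B.g 0 q) n) (Ioi 0) := by
  have hn0 : (0 : ℝ) < n := by exact_mod_cast hn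
  have h1 := int_pow h.sc hq (m := 1 / (n : ℝ)) (by positivity) hn
  have e : ngp (B.g 0 q) n = fun s => max (-(B.g 0 q (1 / (n : ℝ) * s ^ 2) ^ n)) 0 := by
    funext s
    rw [ngp, one_div_mul_eq_div]
  rw [e]
  exact Integrable.neg_part h1

theorem delN_spec (h : BOK B Q E) (hq : q ∈ B.I) {N n : ℕ} (hN : 2 ≤ N) (hn : N ≤ n)
    (hd : delN B Q N < BIG) : ∫ s in Ioi (0 : ℝ), ngp (B.g 0 q) n s ≤
      rr (delN B Q N) * (√((n : ℝ) / N) * 0.7 ^ (n - N)) := by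
  simp only [delN, forceN_eq] at hd ⊢
  have hB : ∀ v, rr B.z2 ≤ v → -rr (gNeg (rqI Q B.z2)) ≤ B.g 0 q v := fun v hv =>
    ((h.qok.rqI B.z2 v).pt q hq v ((rr_nonneg _).trans hv) hv le_rfl).inR.neg
  generalize gNeg (rqI Q B.z2) = b at *
  cases hc : Nat.ble b R07
  · rw [hc] at hd
    exact absurd hd (lt_irrefl BIG)
  rw [hc, cond_true] at hd
  rw [cond_true]
  rw [Nat.ble_eq] at hc
  have hb : rr b ≤ 0.7 := (rr_le.2 hc).trans R07_le
  have hb0 := rr_nonneg b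
  have hp := divU_pos hd
  have hz := rr_pos (ZFineX.mulD_pos hp).2
  have hm := rr_pos h.sc.mL0
  have key := (neg_part_le (h.sc.sm_g hq).c0 (h.hd q hq).pos hb0 hB hm
    (fun v hv => h.sc.dec hq hv) hz (sqrtL_sq _) (hN.trans hn)).2
  refine le_trans key ?_
  have hN0 : (0 : ℝ) < N := by exact_mod_cast (by omega : 0 < N)
  have h1 : √(N : ℝ) * rr b ^ (N - 2) / (rr B.mL ^ 2 * rr (sqrtL B.z2)) ≤
      rr (divU (mulU (sqrtU (N * SS)) (powU b (N - 2))) (mulD (mulD B.mL B.mL) (sqrtL B.z2))) := by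
    refine le_divU hp (le_mulU ?_ (powU_ge _ _) (by positivity)) (mulD_le_of ?_ le_rfl)
    · have := sqrtU_ge (N * SS)
      rwa [rr_nmul, rr_SS, mul_one] at this
    · rw [sq]
      exact mulD_le _ _
  refine le_trans ?_ (mul_le_mul_of_nonneg_right h1 (by positivity))
  have e1 : √(n : ℝ) = √(N : ℝ) * √((n : ℝ) / N) := by
    rw [← Real.sqrt_mul hN0.le, mul_div_cancel₀ _ hN0.ne']
  have e2 : n - 2 = (N - 2) + (n - N) := by omega
  rw [e1, e2, pow_add, div_mul_eq_mul_div]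
  refine div_le_div_of_nonneg_right ?_ (by positivity)
  have h2 : rr b ^ (n - N) ≤ 0.7 ^ (n - N) := pow_le_pow_left₀ hb0 hb _
  calc √(N : ℝ) * √((n : ℝ) / N) * (rr b ^ (N - 2) * rr b ^ (n - N))
      = √(N : ℝ) * rr b ^ (N - 2) * (√((n : ℝ) / N) * rr b ^ (n - N)) := by ring
    _ ≤ _ := by gcongr

theorem delN_le (h : BOK B Q E) (hq : q ∈ B.I) {N n : ℕ} (hN : 2 ≤ N) (hn : N ≤ n)
    (hd : delN B Q N < BIG) : ∫ s in Ioi (0 : ℝ), ngp (B.g 0 q) n s ≤ rr (delN B Q N) :=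
  (delN_spec h hq hN hn hd).trans
    (mul_le_of_le_one_right (rr_nonneg _) (fac_one (by omega) hn))

theorem delN_sq (h : BOK B Q E) (hq : q ∈ B.I) {N n : ℕ} (hN : 8 ≤ N) (hn : N ≤ n)
    (hd : delN B Q N < BIG) : (n : ℝ) ^ 2 * ∫ s in Ioi (0 : ℝ), ngp (B.g 0 q) n s ≤
      (N : ℝ) ^ 2 * rr (delN B Q N) := by
  refine (mul_le_mul_of_nonneg_left (delN_spec h hq (by omega) hn hd) (sq_nonneg _)).trans ?_
  rw [mul_left_comm, mul_comm ((N : ℝ) ^ 2)]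
  exact mul_le_mul_of_nonneg_left (fac_sq hN hn) (rr_nonneg _)

end Pool.Agent.MP_39fec4_gt.K
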