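import Pool.Agent.MP_39fec4_gt.YEnv
import Pool.Agent.MP_39fec4_gt.YTail
import Pool.Agent.MP_39fec4_gt.YGain

set_option autoImplicit false

namespace Pool.Agent.MP_39fec4_gt.K

open Set MeasureTheory Full

variable {B : Blk} {Q : ℕ → ℕ → ℕ} {E : ℕ → ℕ} {q : ℝ} {ι : Type} {T : Finset ι}

namespace YFarX

/-- The integrand without the negative part of the diagonal term. -/
noncomputable def FF (g : ℝ → ℝ) (T : Finset ι) (x : ι → ℝ) (s : ℝ) : ℝ :=
  FE g false 0 0 T x s - ngp g T.card s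

/-- The coordinates of the run, with the scaling factor `k`. -/
structure Ctx (T : Finset ι) (x : ι → ℝ) (xs n0 : ℕ) (k : ℝ) : Prop where
  h0 : ∀ j ∈ T, 0 ≤ x j
  h1 : ∑ j ∈ T, x j = 1
  k1 : 1 ≤ k
  hx : ∀ j ∈ T, x j * k ^ 2 ≤ rr xs
  n8 : 8 ≤ n0
  nc : n0 ≤ T.card
  one : 1 ≤ n0 * rr xs
  var : Var T x ≤ rr xs

variable {x : ι → ℝ} {xs n0 : ℕ} {k : ℝ}

theorem Ctx.ne (c : Ctx T x xs n0 k) : T.Nonempty :=
  Finset.card_pos.1 (by have := c.n8; have := c.nc; omega)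

theorem Ctx.le (c : Ctx T x xs n0 k) {j : ι} (hj : j ∈ T) : x j ≤ rr xs := by
  have h1 := c.hx j hj
  have h2 := c.h0 j hj
  have h3 : 1 ≤ k ^ 2 := one_le_pow₀ c.k1
  nlinarith

theorem Ctx.avg (c : Ctx T x xs n0 k) (t : ℝ) : mean T (fun j => x j * t) = t / T.card := by
  rw [mean_mul, mean, c.h1]
  ring

theorem Ctx.int (c : Ctx T x xs n0 k) (h : BOK B Q E) (hq : q ∈ B.I) :
    IntegrableOn (FF (B.g 0 q) T x) (Ioi 0) :=
  (int_FE_in h.sc hq 0 0 c.h0 (by rw [c.h1]; exact one_pos)).sub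
    (int_ngp h hq (by have := c.n8; have := c.nc; omega))

theorem le_diff (T : Finset ι) (x : ι → ℝ) (g : ℝ → ℝ) (s : ℝ) :
    FF g T x s ≤ ∏ j ∈ T, g (x j * s ^ 2) - g (mean T fun j => x j * s ^ 2) ^ T.card := by
  have h1 : 0 ≤ ngp g T.card s := le_max_right _ _
  unfold FF FE
  rw [cond_false, one_mul, mean_mul]
  linarith

theorem Ctx.le_prod (c : Ctx T x xs n0 k) (g : ℝ → ℝ) (s : ℝ) :
    FF g T x s ≤ ∏ j ∈ T, g (x j * s ^ 2) := by
  have h1 : -(g (s ^ 2 / T.card) ^ T.card) ≤ ngp g T.card s := le_max_left _ _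
  unfold FF FE
  rw [cond_false, one_mul, ← mean_mul, c.avg]
  linarith

theorem Ctx.fl (c : Ctx T x xs n0 k) (h : BOK B Q E) (hq : q ∈ B.I) {s : ℝ}
    (hf : FL B q T fun j => x j * s ^ 2) : FF (B.g 0 q) T x s ≤ 0 := by
  have h1 := FL.jensen h hq c.ne hf
  have h2 := le_diff T x (B.g 0 q) s
  linarith

/-- A lower bound for the power at the mean. -/
theorem Ctx.low (c : Ctx T x xs n0 k) (h : BOK B Q E) (hq : q ∈ B.I) {ta tb : ℕ} {t : ℝ}
    (h1 : rr ta ≤ t) (h2 : t ≤ rr tb) (hz : mulU xs tb ≤ B.z2) :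
    rr (powD (gLop (rq Q (ta / n0) (min (mulU xs tb) (tb / n0 + 1)))) n0) ≤
      B.g 0 q (t / T.card) ^ T.card := by
  have hn : 0 < n0 := by have := c.n8; omega
  have hn' : (0 : ℝ) < n0 := by exact_mod_cast hn
  have t0 : 0 ≤ t := (rr_nonneg _).trans h1
  have e1 : t / n0 ≤ rr (mulU xs tb) := by
    refine le_trans ?_ (le_mulU (le_refl (rr xs)) h2 t0)
    rw [div_le_iff₀ hn']
    nlinarith only [mul_le_mul_of_nonneg_left c.one t0]
  have e2 : t / n0 ≤ rr B.z2 := e1.trans (rr_le.2 hz)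
  have e3 : t / n0 ≤ rr (tb / n0 + 1) :=
    (div_le_div_of_nonneg_right h2 hn'.le).trans (rr_div_lt tb hn).le
  have e4 : rr (ta / n0) ≤ t / n0 :=
    (rr_div_le ta n0).trans (div_le_div_of_nonneg_right h1 hn'.le)
  have e0 : 0 ≤ t / n0 := div_nonneg t0 hn'.le
  have hw := ((h.qok.rq (ta / n0) (min (mulU xs tb) (tb / n0 + 1))).pt q hq (t / n0) e0 e4
    (by rw [rr_min]; exact le_min e1 e3)).inR
  generalize rq Q (ta / n0) (min (mulU xs tb) (tb / n0 + 1)) = w at hw ⊢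
  refine le_trans (powD_le_of ?_ n0) ((h.hd q hq).pow_mono (h.sc.sm_g hq) hn c.nc t0 e2)
  rcases Nat.eq_zero_or_pos (gLop w) with h0 | h0
  · rw [h0, rr_zero]
    exact ((h.hd q hq).pos _ e0 e2).le
  · exact hw.lop (Or.inl h0)

/-- The gain on a cell inside the first lobe. -/
theorem Ctx.gain (c : Ctx T x xs n0 k) (h : BOK B Q E) (hq : q ∈ B.I) {sa sb : ℕ} (hab : sa ≤ sb)
    (hz : mulU xs (tS sb) ≤ B.z2) {cc : ℕ} (hc : cc = gainC (rq Q 0 (mulU xs (tS sb)))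
      (rq Q 0 (min (mulU xs (tS sb)) ((mulU xs (tS sb) + tS sb / n0 + 1) / 2 + 1)))) :
    ∫ u in sR sa..sR sb, FF (B.g 0 q) T x u ≤ -(Var T x * rr (divD (mulD (mulD (powD (gLop
      (rq Q (tS sa / n0) (min (mulU xs (tS sb)) (tS sb / n0 + 1)))) n0) cc) (t4L sa sb))
      (2 * SS + mulU cc (mulU (mulU (tS sb) (tS sb)) xs)))) := by
  have hn : 0 < n0 := by have := c.n8; omega
  have hn' : (0 : ℝ) < n0 := by exact_mod_cast hn
  have hN : (n0 : ℝ) ≤ T.card := by exact_mod_cast c.nc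
  have hlow := fun t h1 h2 => c.low h hq (ta := tS sa) (tb := tS sb) (t := t) h1 h2 hz
  generalize powD (gLop (rq Q (tS sa / n0) (min (mulU xs (tS sb)) (tS sb / n0 + 1)))) n0 = lw
    at hlow ⊢
  have hV := Full.var_nonneg T x
  have hW : ∀ t, 0 ≤ t → t ≤ rr (tS sb) → t ^ 2 * Var T x ≤ rr (mulU (mulU (tS sb) (tS sb)) xs) :=
    fun t h1 h2 => le_mulU (by rw [sq]; exact le_mulU h2 h2 h1) c.var hV
  generalize mulU (mulU (tS sb) (tS sb)) xs = Wm at hW ⊢
  have hD : 0 < 2 + rr cc * rr Wm := by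
    linarith only [mul_nonneg (rr_nonneg cc) (rr_nonneg Wm)]
  have key : ∀ u, sR sa ≤ u → u ≤ sR sb → FF (B.g 0 q) T x u ≤
      0 + 0 * u ^ 2 + -(rr lw * rr cc / (2 + rr cc * rr Wm) * Var T x) * u ^ 4 := by
    intro u h1 h2
    obtain ⟨t1, t2⟩ := tS_mem h1 h2
    have t0 : 0 ≤ u ^ 2 := sq_nonneg u
    have m1 : u ^ 2 / T.card ≤ u ^ 2 / n0 := div_le_div_of_nonneg_left t0 hn' hN
    have m2 : u ^ 2 / n0 ≤ rr (mulU xs (tS sb)) := by
      refine le_trans ?_ (le_mulU (le_refl (rr xs)) t2 t0)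
      rw [div_le_iff₀ hn']
      nlinarith only [mul_le_mul_of_nonneg_left c.one t0]
    have m3 : u ^ 2 / n0 ≤ rr (tS sb / n0 + 1) :=
      (div_le_div_of_nonneg_right t2 hn'.le).trans (rr_div_lt _ hn).le
    have m0 : 0 ≤ u ^ 2 / T.card := by positivity
    have g1 := gain_spec h hq (Rg := rq Q 0 (mulU xs (tS sb)))
      (Rn := rq Q 0 (min (mulU xs (tS sb)) ((mulU xs (tS sb) + tS sb / n0 + 1) / 2 + 1)))
      (y := fun j => x j * u ^ 2) (a := 0) (b := rr (mulU xs (tS sb))) (lw := rr lw)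
      (Wm := rr Wm) c.ne le_rfl (rr_le.2 hz)
      (fun j hj => ⟨mul_nonneg (c.h0 j hj) t0, le_mulU (c.le hj) t2 t0⟩)
      (fun v v0 v1 => (h.qok.rq 0 _).pt q hq v v0 (by rw [rr_zero]; exact v0) v1)
      (fun v v0 v1 => by
        rw [c.avg] at v0 v1
        have v2 : 0 ≤ v := le_trans (by linarith only [m0]) v0
        refine (h.qok.rq 0 _).pt q hq v v2 (by rw [rr_zero]; exact v2) ?_
        rw [rr_min]
        refine le_min (by linarith only [v1, m1, m2]) ?_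
        have v3 := rr_div_lt (k := 2) (mulU xs (tS sb) + tS sb / n0 + 1) two_pos
        rw [Nat.add_assoc, rr_add] at v3
        rw [Nat.add_assoc]
        push_cast at v3
        linarith only [v1, v3, m1, m3])
      (rr_nonneg _) (by rw [c.avg]; exact hlow _ t1 t2)
      (by rw [var_smul]; exact hW _ t0 t2)
    rw [← hc, var_smul] at g1
    refine (le_diff T x _ u).trans (g1.trans (le_of_eq ?_))
    ring
  have h1 := cell_int (c.int h hq) (sR_nonneg sa) (sR_mono hab) key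
  have h2 : rr (divD (mulD (mulD lw cc) (t4L sa sb)) (2 * SS + mulU cc Wm)) ≤
      rr lw * rr cc * ((sR sb ^ 5 - sR sa ^ 5) / 5) / (2 + rr cc * rr Wm) := by
    refine divD_le_of (mulD_le_of (mulD_le _ _) (t4L_encl hab).1) hD ?_
    rw [rr_add, rr_nmul, rr_SS]
    push_cast
    linarith only [mulU_ge cc Wm]
  have h3 := mul_le_mul_of_nonneg_left h2 hV
  refine h1.trans (le_trans (le_of_eq ?_) (neg_le_neg h3))
  ring

/-- Nothing is lost between a point and its rescaled image inside the first lobe. -/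
theorem Ctx.zero (c : Ctx T x xs n0 k) (h : BOK B Q E) (hq : q ∈ B.I) {s : ℕ}
    (hz : mulU xs (tS s) ≤ B.z2) : ∫ u in sR s..k * sR s, FF (B.g 0 q) T x u ≤ 0 := by
  have s0 := sR_nonneg s
  have k1 := c.k1
  have hab : sR s ≤ k * sR s := le_mul_of_one_le_left s0 k1
  have key : ∀ u, sR s ≤ u → u ≤ k * sR s →
      FF (B.g 0 q) T x u ≤ 0 + 0 * u ^ 2 + 0 * u ^ 4 := by
    intro u h1 h2
    have t0 : 0 ≤ u ^ 2 := sq_nonneg u
    have h3 : u ^ 2 ≤ (k * sR s) ^ 2 := pow_le_pow_left₀ (s0.trans h1) h2 2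
    have h4 := c.fl h hq (s := u) (FL.of_le h hq fun j hj => ⟨mul_nonneg (c.h0 j hj) t0, by
      refine le_trans ?_ (rr_le.2 hz)
      refine le_trans ?_ (le_mulU (c.hx j hj) (tS_eq s).ge (sq_nonneg _))
      have := mul_le_mul_of_nonneg_left h3 (c.h0 j hj)
      linarith only [this]⟩)
    linarith only [h4]
  have h1 := cell_int (c.int h hq) s0 hab key
  linarith only [h1]

/-- The envelope bound on a rescaled cell. -/
theorem Ctx.env (c : Ctx T x xs n0 k) (h : BOK B Q E) (hq : q ∈ B.I) {sa sb : ℕ} (hab : sa ≤ sb)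
    {ym b : ℕ} (hym : ym = mulU xs (tS sb)) (hb : b = envb E ym) (h2 : 2 * ym ≤ tS sa)
    (h5 : 5 * SS ≤ 2 * mulD b (tS sa)) :
    ∫ u in k * sR sa..k * sR sb, FF (B.g 0 q) T x u ≤
      1 / k ^ 4 * rr (mulU (envUp B Q b ym (tS sa) BIG (gNeg (rq Q 0 ym))) (dS sa sb)) := by
  have k1 := c.k1
  have k0 : 0 < k := one_pos.trans_le k1
  have k2 : 1 ≤ k ^ 2 := one_le_pow₀ k1
  have hR := (h.qok.rq 0 ym).pt q hq
  generalize rq Q 0 ym = R at hR ⊢
  have hup := fun (y : ι → ℝ) => envUp_spec h hq (T := T) (y := y) (b := b) (ym := ym)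
    (tl := tS sa) (th := BIG) (ng := gNeg R) (de := (k ^ 2 - 1) * rr (tS sa))
    (by rw [hb]; exact h.envOK hq ym)
  generalize envUp B Q b ym (tS sa) BIG (gNeg R) = en at hup ⊢
  have e0 := rr_nonneg en
  have a0 := rr_nonneg (tS sa)
  have hs : k * Real.exp (-(rr b * ((k ^ 2 - 1) * rr (tS sa)))) ≤ 1 / k ^ 4 := by
    have h6 : (5 : ℝ) ≤ 2 * (rr b * rr (tS sa)) * 1 := by
      have h7 := rr_le.2 h5
      rw [rr_nmul, rr_nmul, rr_SS] at h7
      have h8 := mulD_le b (tS sa)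
      push_cast at h7
      linarith only [h7, h8]
    have h9 := scale_exp one_pos k2 h6
    rw [div_one, Real.sqrt_sq k0.le] at h9
    rw [le_div_iff₀ (pow_pos k0 4)]
    refine le_trans (le_of_eq ?_) h9
    rw [show rr b * ((k ^ 2 - 1) * rr (tS sa)) = rr b * rr (tS sa) * (k ^ 2 - 1) by ring]
    ring
  have key : ∀ u, sR sa ≤ u → u ≤ sR sb →
      k * FF (B.g 0 q) T x (k * u) ≤ 1 / k ^ 4 * rr en + 0 * u ^ 4 := by
    intro u h1 h3
    obtain ⟨t1, t2⟩ := tS_mem h1 h3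
    have t0 : 0 ≤ u ^ 2 := sq_nonneg u
    have hy : ∀ j ∈ T, 0 ≤ x j * (k * u) ^ 2 ∧ x j * (k * u) ^ 2 ≤ rr ym := fun j hj =>
      ⟨mul_nonneg (c.h0 j hj) (sq_nonneg _), by
        rw [hym, mul_pow, ← mul_assoc]
        exact le_mulU (c.hx j hj) t2 t0⟩
    have h4 := hup (fun j => x j * (k * u) ^ 2) hy
      (by
        rw [← Finset.sum_mul, c.h1, mul_pow]
        linarith only [mul_le_mul_of_nonneg_left t1 (sq_nonneg k)])
      (Or.inr h.z2_le.2) (mul_nonneg (sub_nonneg.2 k2) a0) (Or.inr h2)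
      (fun j hj => (hR _ (hy j hj).1 (by rw [rr_zero]; exact (hy j hj).1) (hy j hj).2).inR.neg)
    rcases h4 with h4 | h4
    · have h6 := mul_le_mul_of_nonneg_left ((c.le_prod (B.g 0 q) (k * u)).trans h4) k0.le
      have h7 := mul_le_mul_of_nonneg_left hs e0
      linarith only [h6, h7]
    · have h6 := mul_nonpos_of_nonneg_of_nonpos k0.le (c.fl h hq h4)
      have h7 : 0 ≤ 1 / k ^ 4 * rr en := mul_nonneg (one_div_pos.2 (pow_pos k0 4)).le e0
      linarith only [h6, h7]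
  have h1 := cell_scale (c.int h hq) k0 (sR_nonneg sa) (sR_mono hab) key
  have h3 := mulU_ge en (dS sa sb)
  rw [dS_eq hab] at h3
  have h4 := mul_le_mul_of_nonneg_left h3 (one_div_pos.2 (pow_pos k0 4)).le
  refine h1.trans (le_trans (le_of_eq ?_) h4)
  ring

/-- The tail. -/
theorem Ctx.tail (c : Ctx T x xs n0 k) (h : BOK B Q E) (hq : q ∈ B.I) {s m : ℕ}
    (hm : (m + 4 : ℕ) * rr xs ≤ k ^ 2) (hk : k ^ 2 ≤ m + 1)
    (hz : 64 * SS ≤ mulD B.gam (mulD xs (tS s))) :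
    ∫ u in Ioi (k * sR s), FF (B.g 0 q) T x u ≤
      (1 : ℝ) / k ^ 4 * rr (mulU (powU (divU SS (mulD B.gam (mulD xs (tS s)))) 2) (s <<< 34)) := by
  have k1 := c.k1
  have k0 : 0 < k := one_pos.trans_le k1
  have ht := fun u hu => alg_tail h hq (T := T) (x := fun j => x j * k ^ 2) (xb := xs) (s := s)
    (m := m + 4) (fun j hj => ⟨mul_nonneg (c.h0 j hj) (sq_nonneg _), c.hx j hj⟩)
    (by rw [← Finset.sum_mul, c.h1, one_mul]; exact hm) (by omega) hz (u := u) hu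
  generalize powU (divU SS (mulD B.gam (mulD xs (tS s)))) 2 = A at ht ⊢
  have s0 := (ht _ le_rfl).1
  have hs : k ^ 5 ≤ √65 ^ m := by
    refine le_of_sq_le_sq ?_ (by positivity)
    have h1 : (m : ℝ) + 1 ≤ 2 ^ m := by exact_mod_cast Nat.lt_two_pow_self
    calc (k ^ 5) ^ 2 = (k ^ 2) ^ 5 := by ring
      _ ≤ ((2 : ℝ) ^ m) ^ 5 := pow_le_pow_left₀ (sq_nonneg _) (hk.trans h1) 5
      _ = ((2 : ℝ) ^ 5) ^ m := by rw [← pow_mul, ← pow_mul, mul_comm]
      _ ≤ (65 : ℝ) ^ m := pow_le_pow_left₀ (by norm_num) (by norm_num) m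
      _ = (√65 ^ m) ^ 2 := by
        rw [← pow_mul, mul_comm, pow_mul, Real.sq_sqrt (by norm_num)]
  have key : ∀ u, sR s ≤ u → k * FF (B.g 0 q) T x (k * u) ≤
      1 / k ^ 4 * rr A * (sR s / u) ^ 2 + 0 * (sR s / u) ^ 3 := by
    intro u hu
    have h1 := (ht u hu).2
    rw [Nat.add_sub_cancel] at h1
    have h2 := c.le_prod (B.g 0 q) (k * u)
    have h3 : ∏ j ∈ T, B.g 0 q (x j * (k * u) ^ 2) = ∏ j ∈ T, B.g 0 q (x j * k ^ 2 * u ^ 2) :=
      Finset.prod_congr rfl fun j _ => by rw [mul_pow, mul_assoc]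
    rw [h3] at h2
    generalize ∏ j ∈ T, B.g 0 q (x j * k ^ 2 * u ^ 2) = P at h1 h2
    have h4 := mul_le_mul_of_nonneg_left hs (abs_nonneg P)
    have h5 : FF (B.g 0 q) T x (k * u) * k ^ 5 ≤ |P| * k ^ 5 :=
      mul_le_mul_of_nonneg_right (h2.trans (le_abs_self P)) (by positivity)
    rw [zero_mul, add_zero, mul_assoc, one_div, inv_mul_eq_div, le_div_iff₀ (by positivity)]
    linarith only [h1, h4, h5]
  have h1 := tail_scale (c.int h hq) k0 s0 key
  have h3 := mulU_ge A (s <<< 34)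
  rw [shl34] at h3
  have h4 := mul_le_mul_of_nonneg_left h3 (one_div_pos.2 (pow_pos k0 4)).le
  refine h1.trans (le_trans (le_of_eq ?_) h4)
  ring

/-- The invariant of the run. -/
def Inv (F : ℝ → ℝ) (k V : ℝ) (xs z2 s sc sg : ℕ) : Prop :=
  sc < BIG → (∫ u in (0 : ℝ)..k * sR s, F u ≤ 1 / k ^ 4 * rr sc - V * rr sg) ∧
    (mulU xs (tS s) ≤ z2 → ∫ u in (0 : ℝ)..sR s, F u ≤ 1 / k ^ 4 * rr sc - V * rr sg)

theorem Ctx.step (c : Ctx T x xs n0 k) (h : BOK B Q E) (hq : q ∈ B.I) {α : Type}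
    (s s' sc sh sg : ℕ) (kk : ℕ → ℕ → ℕ → α) (hab : s ≤ s')
    (hI : Inv (FF (B.g 0 q) T x) k (Var T x) xs B.z2 s sc sg) :
    ∃ a b g, cellF B Q E xs n0 s s' sc sh sg kk = kk a b g ∧
      Inv (FF (B.g 0 q) T x) k (Var T x) xs B.z2 s' a g := by
  have k1 := c.k1
  have k0 : 0 < k := one_pos.trans_le k1
  have hi := c.int h hq
  unfold cellF
  simp only [forceN_eq]
  cases hz : Nat.ble (mulU xs (tS s')) B.z2 with
  | false =>
    refine ⟨_, _, _, rfl, fun hlt => ?_⟩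
    have hz' : ¬mulU xs (tS s') ≤ B.z2 := fun h1 => by
      rw [Nat.ble_eq_true_of_le h1] at hz
      exact Bool.noConfusion hz
    refine ⟨?_, fun h1 => absurd h1 hz'⟩
    have h1 := (hI (lt_of_le_of_lt (Nat.le_add_right _ _) hlt)).1
    cases hb : (Nat.ble (2 * mulU xs (tS s')) (tS s) &&
        Nat.ble (5 * SS) (2 * mulD (envb E (mulU xs (tS s'))) (tS s))) with
    | false =>
      rw [hb, cond_false] at hlt
      exact absurd hlt (not_lt.2 (Nat.le_add_left _ _))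
    | true =>
      rw [cond_true]
      rw [Bool.and_eq_true, Nat.ble_eq, Nat.ble_eq] at hb
      have h2 := c.env h hq hab rfl rfl hb.1 hb.2
      rw [int_add hi (mul_nonneg k0.le (sR_nonneg s))
        (mul_le_mul_of_nonneg_left (sR_mono hab) k0.le), rr_add]
      linarith only [h1, h2]
  | true =>
    refine ⟨_, _, _, rfl, fun hlt => ?_⟩
    have hz' : mulU xs (tS s') ≤ B.z2 := Nat.le_of_ble_eq_true hz
    have h1 := (hI hlt).2 ((mulU_mono le_rfl (tS_mono hab)).trans hz')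
    have h2 := c.gain h hq hab hz' rfl
    have h3 := c.zero h hq hz'
    have h4 := int_add hi (sR_nonneg s) (sR_mono hab)
    have h5 := int_add hi (sR_nonneg s') (le_mul_of_one_le_left (sR_nonneg s') k1)
    unfold gainC at h2
    rw [rr_add]
    exact ⟨by linarith only [h1, h2, h3, h4, h5], fun _ => by linarith only [h1, h2, h4]⟩

end YFarX

open YFarX in
theorem farChk_sound (h : BOK B Q E) {xs n0 : ℕ} {sch : List ℕ}
    (ok : farChk B Q E xs n0 sch = true) (hq : q ∈ B.I) {x : ι → ℝ} (h0 : ∀ j ∈ T, 0 ≤ x j)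
    (h1 : ∑ j ∈ T, x j = 1) {i : ι} (hi : i ∈ T) (hm : ∀ j ∈ T, x j ≤ x i) (hs : x i ≤ rr xs)
    (h3 : 3 < 2 * T.card * x i) : IG (B.g 0 q) T x < DG (B.g 0 q) T.card := by
  unfold farChk at ok
  simp only [Bool.and_eq_true, Nat.ble_eq, Nat.blt_eq] at ok
  obtain ⟨⟨⟨⟨⟨o1, o2⟩, o3⟩, o4⟩, o5⟩, o6⟩ := ok
  have hT : T.Nonempty := ⟨i, hi⟩
  have n0' : (0 : ℝ) < T.card := by exact_mod_cast hT.card_pos
  have x0 : 0 < x i := by
    by_contra hc
    have := mul_nonpos_of_nonneg_of_nonpos (show (0 : ℝ) ≤ 2 * T.card by positivity) (not_lt.1 hc)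
    linarith only [this, h3]
  have X0 := rr_pos o2
  have X1 : 20 * rr xs ≤ 3 := by
    have := rr_le.2 o1
    rw [rr_nmul, rr_nmul, rr_SS] at this
    push_cast at this
    linarith only [this]
  have X2 : 1 ≤ n0 * rr xs := by
    have := rr_le.2 o3
    rwa [rr_nmul, rr_SS] at this
  have X3 : n0 ≤ T.card := by
    have h4 := rr_le.2 o4
    rw [rr_nmul, rr_nmul, rr_SS] at h4
    have h5 : ((2 * (n0 - 1) : ℕ) : ℝ) * rr xs < ((2 * T.card : ℕ) : ℝ) * rr xs := by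
      have h6 := mul_le_mul_of_nonneg_left hs (show (0 : ℝ) ≤ 2 * T.card by positivity)
      push_cast at h4 ⊢
      linarith only [h3, h4, h6]
    have h7 : 2 * (n0 - 1) < 2 * T.card := by exact_mod_cast lt_of_mul_lt_mul_right h5 X0.le
    omega
  have hk2 : √(rr xs / x i) ^ 2 = rr xs / x i := Real.sq_sqrt (by positivity)
  have hk1 : 1 ≤ √(rr xs / x i) := Real.one_le_sqrt.2 ((one_le_div x0).2 hs)
  generalize √(rr xs / x i) = k at hk1 hk2
  have hk3 : x i * k ^ 2 = rr xs := by rw [hk2]; field_simp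
  have hn1 : 1 / (T.card : ℝ) < 2 * x i / 3 := by
    rw [div_lt_iff₀ n0']
    linarith only [h3]
  have hn0 : 0 < 1 / (T.card : ℝ) := by positivity
  have V1 : Var T x ≤ rr xs := by
    have h4 := var_le T hT x (a := 0) (b := x i) fun j hj => ⟨h0 j hj, hm j hj⟩
    rw [h1] at h4
    have h5 : (T.card : ℝ) * (x i - 1 / T.card) * (1 / T.card - 0) = x i - 1 / T.card := by
      field_simp
      ring
    linarith only [h4, h5, hs, hn0]
  have V2 : x i ^ 2 ≤ 9 * Var T x := by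
    have h4 : (x i - (∑ j ∈ T, x j) / T.card) ^ 2 ≤ Var T x :=
      Finset.single_le_sum (f := fun j => (x j - (∑ j ∈ T, x j) / T.card) ^ 2)
        (fun j _ => sq_nonneg _) hi
    rw [h1] at h4
    have h5 : (x i / 3) ^ 2 ≤ (x i - 1 / T.card) ^ 2 :=
      pow_le_pow_left₀ (by positivity) (by linarith only [hn1]) 2
    linarith only [h4, h5]
  have V0 : 0 < Var T x := by linarith only [V2, pow_pos x0 2]
  have c : Ctx T x xs n0 k := ⟨h0, h1, hk1, fun j hj => by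
    rw [← hk3]; exact mul_le_mul_of_nonneg_right (hm j hj) (sq_nonneg k), o5, X3, X2, V1⟩
  obtain ⟨s, sc, sh, sg, e, hI⟩ := sweep_ind sch (cellF B Q E xs n0) _
    (fun s a _ g => Inv (FF (B.g 0 q) T x) k (Var T x) xs B.z2 s a g)
    (fun _ => by simp [sR_zero, rr_zero]) (fun s s' a b g kk => c.step h hq s s' a b g kk)
  rw [e] at o6
  simp only [forceN_eq, Bool.and_eq_true, Nat.ble_eq, Nat.blt_eq] at o6
  obtain ⟨⟨⟨⟨p1, p2⟩, p3⟩, p4⟩, p5⟩ := o6
  obtain ⟨m, hm1, hm2⟩ : ∃ m : ℕ, (m + 4 : ℕ) * x i ≤ 1 ∧ 1 ≤ (m + 5) * x i := by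
    have f1 : (⌊1 / x i⌋₊ : ℝ) ≤ 1 / x i := Nat.floor_le (by positivity)
    have f2 : 1 / x i < ⌊1 / x i⌋₊ + 1 := Nat.lt_floor_add_one _
    have f3 : 4 ≤ ⌊1 / x i⌋₊ := by
      refine Nat.le_floor ?_
      rw [le_div_iff₀ x0]
      push_cast
      linarith only [hs, X1, x0]
    obtain ⟨m, hm⟩ := Nat.exists_eq_add_of_le' f3
    rw [hm] at f1 f2
    rw [le_div_iff₀ x0] at f1
    rw [div_lt_iff₀ x0] at f2
    push_cast at f2
    exact ⟨m, f1, by linarith only [f2]⟩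
  have k2 : 0 ≤ k ^ 2 := sq_nonneg k
  have t1 := c.tail h hq (s := s) (m := m)
    (by
      rw [← hk3, ← mul_assoc]
      exact mul_le_of_le_one_left k2 hm1)
    (by
      have h4 := mul_le_mul_of_nonneg_right hm2 k2
      rw [mul_assoc, hk3] at h4
      have h5 : (0 : ℝ) ≤ m := Nat.cast_nonneg m
      linarith only [h4, h5, mul_le_mul_of_nonneg_left X1 h5, X1])
    p1
  have t2 := (hI p2).1
  have t3 := int_all (c.int h hq) (mul_nonneg (zero_le_one.trans hk1) (sR_nonneg s))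
  have t4 := delN_sq h hq o5 X3 p3
  have t5 := IG_sub h.sc hq h0 h1 0 0
  have i1 := int_FE_in h.sc hq 0 0 h0 (by rw [h1]; exact one_pos)
  have i2 := int_ngp h hq (n := T.card) hT.card_pos
  have t6 : ∫ u in Ioi (0 : ℝ), FF (B.g 0 q) T x u = (∫ u in Ioi (0 : ℝ),
      FE (B.g 0 q) false 0 0 T x u) - ∫ u in Ioi (0 : ℝ), ngp (B.g 0 q) T.card u :=
    integral_sub i1 i2
  have t7 : 0 ≤ ∫ u in Ioi (0 : ℝ), ngp (B.g 0 q) T.card u :=
    integral_nonneg fun u => le_max_right _ _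
  have q5 := rr_lt.2 p5
  generalize mulU (powU (divU SS (mulD B.gam (mulD xs (tS s)))) 2) (s <<< 34) = A at t1 q5
  have q6 := le_divU (a := 9 * (sc + A)) p4 le_rfl (mulD_le xs xs)
  rw [rr_add, rr_nmul (4 * n0 * n0)] at q5
  rw [rr_nmul, rr_add] at q6
  push_cast at q5 q6
  generalize rr (divU (9 * (sc + A)) (mulD xs xs)) = D at q5 q6
  generalize ∫ u in Ioi (0 : ℝ), ngp (B.g 0 q) T.card u = N at t4 t6 t7
  have u1 : 1 / k ^ 4 ≤ Var T x * (9 / (rr xs * rr xs)) := by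
    have k0 : 0 < k := one_pos.trans_le hk1
    rw [← hk3, div_le_iff₀ (by positivity)]
    have : Var T x * (9 / (x i * k ^ 2 * (x i * k ^ 2))) * k ^ 4 = 9 * Var T x / x i ^ 2 := by
      field_simp
    rw [this, le_div_iff₀ (by positivity)]
    linarith only [V2]
  have u2 : 1 / k ^ 4 * (rr sc + rr A) ≤ Var T x * D := by
    have h4 : 0 ≤ rr sc + rr A := add_nonneg (rr_nonneg _) (rr_nonneg _)
    have h5 := mul_le_mul_of_nonneg_right u1 h4
    have h6 := mul_le_mul_of_nonneg_left q6 V0.le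
    refine h5.trans (le_trans (le_of_eq ?_) h6)
    ring
  have u3 : N ≤ Var T x * (4 * n0 * n0 * rr (delN B Q n0)) := by
    have h4 : 1 ≤ 4 * Var T x * (T.card : ℝ) ^ 2 := by
      have h5 := mul_le_mul_of_nonneg_right V2 (sq_nonneg (T.card : ℝ))
      have h6 : (3 : ℝ) ^ 2 ≤ (2 * T.card * x i) ^ 2 := pow_le_pow_left₀ (by norm_num) h3.le 2
      linarith only [h5, h6]
    have h5 := mul_le_mul_of_nonneg_right h4 t7
    have h6 := mul_le_mul_of_nonneg_left t4 (show 0 ≤ 4 * Var T x by positivity)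
    linarith only [h5, h6]
  have u4 := mul_lt_mul_of_pos_left q5 V0
  linarith only [t1, t2, t3, t5, t6, u2, u3, u4]

end Pool.Agent.MP_39fec4_gt.K
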