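import Pool.Agent.MP_39fec4_gt.YCross

set_option autoImplicit false

namespace Pool.Agent.MP_39fec4_gt.K

open Set MeasureTheory Full

variable {B : Blk} {Q : ℕ → ℕ → ℕ} {E : ℕ → ℕ} {q : ℝ} {ι : Type} {T : Finset ι}

namespace YIncX

theorem mvt {f f1 : ℝ → ℝ} {a b : ℝ} (hab : a < b) (hd : ∀ t ∈ Icc a b, HasDerivAt f (f1 t) t) :
    ∃ t ∈ Icc a b, f b - f a = f1 t * (b - a) := by
  obtain ⟨t, ht, h⟩ := exists_hasDerivAt_eq_slope f f1 hab
    (fun t ht => (hd t ht).continuousAt.continuousWithinAt) (fun t ht => hd t (Ioo_subset_Icc_self ht))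
  refine ⟨t, Ioo_subset_Icc_self ht, ?_⟩
  rw [h, div_mul_cancel₀ _ (sub_pos.2 hab).ne']

theorem lip (hs : ScalOK B) {q' : ℝ} (hq : q ∈ B.I) (hq' : q' ∈ B.I) (hlt : q < q') (j : ℕ)
    {y M : ℝ} (hy : 0 ≤ y) (hM : ∀ t ∈ B.I, |gq1 B.C j t y| ≤ M) :
    |B.g j q' y - B.g j q y| ≤ M * (q' - q) := by
  have hsub : Icc q q' ⊆ B.I := Icc_subset_Icc hq.1 hq'.2
  obtain ⟨t, ht, h⟩ := mvt (f := fun t => Full.gg B.C j t y) (f1 := fun t => gq1 B.C j t y) hlt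
    (fun t ht => hasDerivAt_gg_q hs.C_pos (hs.q_pos (hsub ht)).1 hy j)
  have e : B.g j q' y - B.g j q y = gq1 B.C j t y * (q' - q) := h
  rw [e, abs_mul, abs_of_pos (sub_pos.2 hlt)]
  exact mul_le_mul_of_nonneg_right (hM t (hsub ht)) (sub_pos.2 hlt).le

theorem kap_dec (hs : ScalOK B) {q' : ℝ} (hq : q ∈ B.I) (hq' : q' ∈ B.I) (hlt : q < q')
    (h0 : B.tauL ≠ 0) : rr B.kl * rr B.tauL * (q' - q) ≤ kap B.C q - kap B.C q' := by
  have hsub : Icc q q' ⊆ B.I := Icc_subset_Icc hq.1 hq'.2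
  obtain ⟨t, ht, h⟩ := mvt (f := kap B.C)
    (f1 := fun t => -(kap B.C t * (Real.log 2 + mu1 B.C t / mu B.C t))) hlt
    (fun t ht => hasDerivAt_kap hs.C_pos (hs.q_pos (hsub ht)).1)
  have h1 := (hs.tauL.resolve_left h0) t (hsub ht)
  have h2 := (hs.hkap t (hsub ht)).1
  have h3 : rr B.kl * rr B.tauL ≤ kap B.C t * (Real.log 2 + mu1 B.C t / mu B.C t) :=
    mul_le_mul h2 h1 (rr_nonneg _) ((rr_nonneg _).trans h2)
  have h4 := mul_le_mul_of_nonneg_right h3 (sub_pos.2 hlt).le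
  linarith

theorem rec_ge (F : ℕ → ℕ) (n : ℕ) {i : ℕ} (hi : i < n) :
    F i ≤ Nat.rec (motive := fun _ => ℕ) 0 (fun i ih => max ih (F i)) n := by
  induction n with
  | zero => omega
  | succ n ih =>
    show F i ≤ max (Nat.rec (motive := fun _ => ℕ) 0 (fun i ih => max ih (F i)) n) (F n)
    rcases Nat.lt_succ_iff_lt_or_eq.1 hi with h | h
    · exact (ih h).trans (le_max_left _ _)
    · rw [h]
      exact le_max_right _ _

theorem idx_le {i : ℕ} (h : Yb i ≤ 2 ^ 52) : i ≤ 680 := by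
  rw [ZGridX.Yb_eq] at h
  split_ifs at h <;> omega

theorem cell {i1 : ℕ} (h0 : 0 < i1) (h1 : i1 ≤ 680) {y : ℝ} (hy : 0 ≤ y) (hy1 : y ≤ rr (Yb i1)) :
    ∃ i, i < i1 ∧ Yb i < Yb i1 ∧ rr (Yb i) ≤ y ∧ y ≤ rr (Yb (i + 1)) := by
  obtain ⟨i, hi, ha, hb⟩ := cell_le hy hy1
  have hp : 0 < Yb i1 := by
    have a := Yb_lt (i := 0) (by omega)
    have b : Yb (0 + 1) ≤ Yb i1 := Yb_mono (by omega) (by omega)
    omega
  have hc : cidx (Yb i1 - 1) < i1 := by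
    by_contra hc
    have a := (Yb_cidx (Yb i1 - 1)).1
    have b := cidx_le (Yb i1 - 1)
    have c : Yb i1 ≤ Yb (cidx (Yb i1 - 1)) := Yb_mono (by omega) (by omega)
    omega
  have hi1 : i < i1 := by omega
  refine ⟨i, hi1, ?_, ha, hb (by omega)⟩
  have a := Yb_lt (i := i) (by omega)
  have b : Yb (i + 1) ≤ Yb i1 := Yb_mono (by omega) (by omega)
  omega

theorem num {al be2 d b1 mL y1 L kl tl : ℕ} (hp : 0 < mulD (mulD mL mL) y1)
    (hlt : 45 * mulU al (powU L 3) / 100 + 1 + 42 * mulU be2 (powU L 5) / 1000 + 1 +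
      divU (23 * mulU d (powU b1 5)) (mulD (mulD mL mL) y1) < mulD kl tl) :
    0.45 * rr al * rr L ^ 3 + 0.084 * (rr be2 / 2) * rr L ^ 5 +
      23 * rr d * rr b1 ^ 5 / (rr mL ^ 2 * rr y1) < rr kl * rr tl := by
  have a1 : rr al * rr L ^ 3 ≤ rr (mulU al (powU L 3)) :=
    le_mulU' le_rfl (powU_ge L 3) (rr_nonneg _)
  have a2 : rr be2 * rr L ^ 5 ≤ rr (mulU be2 (powU L 5)) :=
    le_mulU' le_rfl (powU_ge L 5) (rr_nonneg _)
  have a3 : rr d * rr b1 ^ 5 ≤ rr (mulU d (powU b1 5)) :=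
    le_mulU' le_rfl (powU_ge b1 5) (rr_nonneg _)
  have b1' := rr_div_lt (k := 100) (45 * mulU al (powU L 3)) (by norm_num)
  have b2 := rr_div_lt (k := 1000) (42 * mulU be2 (powU L 5)) (by norm_num)
  have b3 : 23 * rr d * rr b1 ^ 5 / (rr mL ^ 2 * rr y1) ≤
      rr (divU (23 * mulU d (powU b1 5)) (mulD (mulD mL mL) y1)) := by
    refine le_divU hp ?_ (mulD_le_of ((mulD_le mL mL).trans (le_of_eq (by ring))) le_rfl)
    rw [rr_nmul]
    push_cast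
    linarith
  have c := rr_lt.2 hlt
  have c2 := mulD_le kl tl
  rw [rr_nmul] at b1' b2
  rw [Nat.add_assoc _ (42 * mulU be2 (powU L 5) / 1000) 1, rr_add, rr_add _ (_ + 1)] at c
  push_cast at b1' b2
  linarith

end YIncX

open YIncX

theorem incChk_sound (h : BOK B Q E) {Tb Va Vb : ℕ → ℕ} {i1 L : ℕ}
    (hm : ∀ i, i ≤ 680 → Yb i < B.Yc → MkOK B (Tb i) (rr (Yb i)) (rr (Yb (i + 1))))
    (hz : MkOK B (mkCellN B Va Vb 0 0) 0 0) (ok : incChk B Q Tb E Va Vb i1 L = true) {n : ℕ}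
    (hn : 8 ≤ n) : Cross n B.qa B.qb := by
  unfold incChk at ok
  simp only [forceN_eq, Bool.and_eq_true, Nat.ble_eq, Nat.blt_eq] at ok
  obtain ⟨⟨⟨⟨⟨⟨o1, o2⟩, o3⟩, o4⟩, o5⟩, o6⟩, o7⟩ := ok
  have hbe := fun i (hi : i < i1) => rec_ge (fun i => fld (Tb i) 56 13) i1 hi
  generalize Nat.rec (motive := fun _ => ℕ) 0 (fun i ih => max ih (fld (Tb i) 56 13)) i1 = be2
    at o7 hbe
  generalize mkCellN B Va Vb 0 0 = R0 at hz o7
  have hi1 : i1 ≤ 680 := idx_le (o2.trans h.yc)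
  have hnum := num o6 o7
  have htau : B.tauL ≠ 0 := by
    intro h0
    rw [h0] at o7
    have : mulD B.kl 0 = 0 := by simp [mulD]
    omega
  intro q q' ha hlt hb hle
  have hq : q ∈ B.I := ⟨ha, hlt.le.trans hb⟩
  have hq' : q' ∈ B.I := ⟨ha.trans hlt.le, hb⟩
  have he : 0 < q' - q := sub_pos.2 hlt
  have sg := h.sc.sm_g hq'
  have sh := h.sc.sm_g hq
  have hm0 := rr_pos h.sc.mL0
  have hy1 : 0 < rr (sqrtL (Yb i1)) := by
    refine rr_pos (Nat.pos_of_ne_zero fun h0 => ?_)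
    rw [h0] at o6
    simp [mulD] at o6
  have hB1 : rr (gAB (rqI Q (Yb i1))) ≤ 0.8 := by
    refine (rr_le.2 o4).trans ?_
    unfold rr R07
    norm_num
  have hL : 8 ≤ 7 * rr (envb E (Yb i1)) * rr L ^ 2 := by
    have a := rr_le.2 o5
    rw [rr_nmul, rr_nmul, rr_SS] at a
    have b : rr (mulD (envb E (Yb i1)) (mulD L L)) ≤ rr (envb E (Yb i1)) * (rr L * rr L) :=
      mulD_le_of le_rfl (mulD_le L L)
    push_cast at a
    nlinarith
  have near : ∀ y, 0 ≤ y → y ≤ rr (Yb i1) → |B.g 0 q' y - B.g 0 q y| ≤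
      (rr (fld R0 56 12) * y + rr be2 / 2 * y ^ 2) * (q' - q) := by
    intro y hy hyY
    have k := diff_near sg sh (al := rr (fld R0 56 12) * (q' - q)) (be := rr be2 / 2 * (q' - q))
      (Y1 := rr (Yb i1))
      (lip h.sc hq hq' hlt 1 le_rfl fun t ht => (hz.ex t ht 0 le_rfl le_rfl le_rfl).2.1)
      (fun v hv hvY => by
        obtain ⟨i, hi, hiY, ha', hb'⟩ := cell o1 hi1 hv hvY
        have k2 := lip h.sc hq hq' hlt 2 hv (M := rr be2) fun t ht =>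
          ((hm i (by omega) (hiY.trans_le o2)).ex t ht v hv ha' hb').2.2.1.trans
            (rr_le.2 (hbe i hi))
        exact k2.trans (le_of_eq (by ring))) hy hyY
    exact k.trans (le_of_eq (by ring))
  have key := diag_lip sg.c0 sh.c0 (e := q' - q) he.le (rr_nonneg (fld R0 56 12))
    (be := rr be2 / 2) (div_nonneg (rr_nonneg _) (by norm_num)) (rr_nonneg B.d1g) (rr_pos o3) hy1
    (sqrtL_sq (Yb i1)) (rr_nonneg _) hB1 hm0 (rr_nonneg L) hL near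
    (fun y hy => lip h.sc hq hq' hlt 0 hy fun t ht => h.sc.d1g t ht y hy)
    (fun y hy hyY => ⟨(h.env (Yb i1)).2 q' hq' y hy hyY, (h.env (Yb i1)).2 q hq y hy hyY⟩)
    (fun y hy => ⟨((h.qok.rqI (Yb i1) y).pt q' hq' y ((rr_nonneg _).trans hy) hy le_rfl).inR.abs,
      ((h.qok.rqI (Yb i1) y).pt q hq y ((rr_nonneg _).trans hy) hy le_rfl).inR.abs⟩)
    (fun y hy => ⟨h.sc.dec hq' hy, h.sc.dec hq hy⟩) hn
  have k1 := ((gap_iff h.sc hq n).1).1 hle
  have k2 := kap_dec h.sc hq hq' hlt htau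
  have k3 := mul_lt_mul_of_pos_right hnum he
  refine ((gap_iff h.sc hq' n).2).2 ?_
  have k4 := (abs_le.1 key).1
  linarith

end Pool.Agent.MP_39fec4_gt.K
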