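import Pool.Agent.MP_39fec4_gt.YExc

set_option autoImplicit false

namespace Pool.Agent.MP_39fec4_gt.K

open Set MeasureTheory Full

variable {B : Blk} {Q : ℕ → ℕ → ℕ} {E : ℕ → ℕ} {q : ℝ} {ι : Type} {T : Finset ι}

namespace YNearX

variable {n a0 a1 b0 b1 : ℕ} {uni : Bool} {x : ι → ℝ}

theorem two_le (h : NearIn n uni a0 a1 b0 b1 T x) : 2 ≤ n ∧ n ≤ T.card := by
  cases uni
  · have := h.ex rfl
    omega
  · have := h.un rfl
    omega

theorem npos (h : NearIn n uni a0 a1 b0 b1 T x) : (0 : ℝ) < n := by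
  have := (two_le h).1
  exact_mod_cast (by omega : 0 < n)

theorem cpos (h : NearIn n uni a0 a1 b0 b1 T x) : (0 : ℝ) < T.card := by
  have := two_le h
  exact_mod_cast (by omega : 0 < T.card)

theorem rng (h : NearIn n uni a0 a1 b0 b1 T x) :
    ∀ j ∈ T, rr a0 ≤ x j * T.card / n ∧ x j * T.card / n ≤ rr b1 := by
  obtain ⟨i, _, hi, hi0, _⟩ := h.mn
  obtain ⟨l, _, hl, _, hl1⟩ := h.mx
  have hn := npos h
  have hc := cpos h
  intro j hj
  refine ⟨hi0.trans ?_, le_trans ?_ hl1⟩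
  · have := hi j hj
    gcongr
  · have := hl j hj
    gcongr

theorem nonneg (h : NearIn n uni a0 a1 b0 b1 T x) : ∀ j ∈ T, 0 ≤ x j := by
  intro j hj
  have h1 := (rr_nonneg a0).trans (rng h j hj).1
  have hn := npos h
  have hc := cpos h
  by_contra hx
  have h2 : x j * T.card / n < 0 :=
    div_neg_of_neg_of_pos (mul_neg_of_neg_of_pos (not_le.1 hx) hc) hn
  linarith

theorem var_pos (h : NearIn n uni a0 a1 b0 b1 T x) : 0 < Var T x := by
  obtain ⟨j, hj, hne⟩ := h.nd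
  unfold Var
  rw [h.sum]
  exact Finset.sum_pos' (fun _ _ => sq_nonneg _)
    ⟨j, hj, lt_of_le_of_ne (sq_nonneg _) (pow_ne_zero 2 (sub_ne_zero.2 hne)).symm⟩

/-- The smallest coordinate lies below the mean. -/
theorem min_le (h : NearIn n uni a0 a1 b0 b1 T x) {i : ι} (hi : ∀ j ∈ T, x i ≤ x j) :
    x i * T.card ≤ 1 := by
  have h1 := Finset.card_nsmul_le_sum T x (x i) hi
  rw [h.sum, nsmul_eq_mul] at h1
  linarith

theorem le_max (h : NearIn n uni a0 a1 b0 b1 T x) {l : ι} (hl : ∀ j ∈ T, x j ≤ x l) :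
    1 ≤ x l * T.card := by
  have h1 := Finset.sum_le_card_nsmul T x (x l) hl
  rw [h.sum, nsmul_eq_mul] at h1
  linarith

theorem ne_of (h : NearIn n uni a0 a1 b0 b1 T x) {i l : ι} (hi : ∀ j ∈ T, x i ≤ x j)
    (hl : ∀ j ∈ T, x j ≤ x l) : i ≠ l := by
  rintro rfl
  obtain ⟨j, hj, hne⟩ := h.nd
  have h1 := min_le h hi
  have h2 := le_max h hl
  have h3 : x j = x i := le_antisymm (hl j hj) (hi j hj)
  apply hne
  rw [eq_div_iff (cpos h).ne', h3]
  linarith

theorem sum_xi (h : NearIn n uni a0 a1 b0 b1 T x) :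
    (∑ j ∈ T, x j * (T.card / n : ℝ)) / T.card = 1 / n := by
  have hn := npos h
  have hc := cpos h
  rw [← Finset.sum_mul, h.sum]
  field_simp

theorem SSn_le (n : ℕ) : rr (SS / n) ≤ 1 / n := by
  have := rr_div_le SS n
  rwa [rr_SS] at this

theorem lt_SSn (hn : 0 < n) : (1 : ℝ) / n < rr (SS / n + 1) := by
  have := rr_div_lt SS hn
  rwa [rr_SS] at this

theorem var_up (h : NearIn n uni a0 a1 b0 b1 T x) :
    Var T x * T.card ≤ rr (n * mulU (b1 - SS / n) (SS / n + 1 - a0)) * n := by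
  have hn := npos h
  have hc := cpos h
  have hn' : 0 < n := by exact_mod_cast hn
  have hT : T.Nonempty := Finset.card_pos.1 (by exact_mod_cast hc)
  have h1 := Full.var_le T hT (fun j => x j * (T.card / n : ℝ)) (a := rr a0) (b := rr b1)
    (fun j hj => by
      have := rng h j hj
      rw [mul_div_assoc] at this
      exact this)
  rw [sum_xi h, var_smul] at h1
  obtain ⟨i, _, hi, hi0, _⟩ := h.mn
  have h2 : rr a0 ≤ 1 / n := by
    refine hi0.trans ?_
    have := min_le h hi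
    gcongr
  have h3 : (rr b1 - 1 / n) * (1 / n - rr a0) ≤ rr (mulU (b1 - SS / n) (SS / n + 1 - a0)) := by
    refine le_mulU ?_ ?_ (by linarith)
    · have := rr_sub_ge b1 (SS / n)
      have := SSn_le n
      linarith
    · have := rr_sub_ge (SS / n + 1) a0
      have := lt_SSn hn'
      linarith
  rw [rr_nmul]
  generalize rr (mulU (b1 - SS / n) (SS / n + 1 - a0)) = u at *
  have h4 : ((T.card : ℝ) / n) ^ 2 * Var T x ≤ T.card * u := by
    refine h1.trans ?_
    rw [mul_assoc]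
    exact mul_le_mul_of_nonneg_left h3 hc.le
  have h5 : Var T x * T.card = ((T.card : ℝ) / n) ^ 2 * Var T x * (n ^ 2 / T.card) := by
    field_simp
  have h6 : (n : ℝ) * u * n = T.card * u * (n ^ 2 / T.card) := by
    field_simp
  rw [h5, h6]
  exact mul_le_mul_of_nonneg_right h4 (by positivity)

theorem sq_of {d : ℕ} {z : ℝ} (h : rr d ≤ z) : rr (mulD d d) ≤ z ^ 2 := by
  rw [sq]
  exact mulD_le_of h h

theorem var_low (h : NearIn n uni a0 a1 b0 b1 T x) :
    rr (vLo n SS SS a1 b0 true) ≤ ((T.card : ℝ) / n) ^ 2 * Var T x := by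
  have hn := npos h
  have hn' : 0 < n := by exact_mod_cast hn
  obtain ⟨i, hiT, hi, _, hi1⟩ := h.mn
  obtain ⟨l, hlT, hl, hl0, _⟩ := h.mx
  have h1 := var_ge_two T (fun j => x j * (T.card / n : ℝ)) hiT hlT (ne_of h hi hl)
  rw [sum_xi h, var_smul] at h1
  refine le_trans ?_ h1
  have e : vLo n SS SS a1 b0 true =
      mulD (SS / n - a1) (SS / n - a1) + mulD (b0 - (SS / n + 1)) (b0 - (SS / n + 1)) := by
    unfold vLo
    rw [forceN_eq, forceN_eq, cond_true, Nat.max_zero]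
  rw [e, rr_add]
  rw [mul_div_assoc] at hi1 hl0
  have m1 : x i * (T.card / n : ℝ) ≤ 1 / n := by
    rw [← mul_div_assoc]
    have := min_le h hi
    gcongr
  have m2 : 1 / n ≤ x l * (T.card / n : ℝ) := by
    rw [← mul_div_assoc]
    have := le_max h hl
    gcongr
  have p1 : rr (SS / n - a1) ≤ 1 / n - x i * (T.card / n : ℝ) := by
    rw [rr_sub_eq]
    have := SSn_le n
    exact max_le (by linarith) (by linarith)
  have p2 : rr (b0 - (SS / n + 1)) ≤ x l * (T.card / n : ℝ) - 1 / n := by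
    rw [rr_sub_eq]
    have := lt_SSn hn'
    exact max_le (by linarith) (by linarith)
  have q1 := sq_of p1
  have q2 := sq_of p2
  have e1 : (1 / n - x i * (T.card / n : ℝ)) ^ 2 = (x i * (T.card / n : ℝ) - 1 / n) ^ 2 := by
    ring
  rw [e1] at q1
  exact add_le_add q1 q2

theorem EP_eq (n : ℕ) (uni fin : Bool) (a0 a1 b0 b1 w : ℕ) : nearEP n uni fin a0 a1 b0 b1 w =
    { k := n, ra := SS, rb := SS, xa0 := a0, xa1 := a1, xb0 := b0, xb1 := b1, ho := false,
      x1l := 0, x1h := 0, x2l := 0, x2h := 0, Vh := n * mulU (b1 - SS / n) (SS / n + 1 - a0),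
      sV := sqrtU (n * mulU (b1 - SS / n) (SS / n + 1 - a0)),
      Vs := vLo n SS SS a1 b0 uni * w / 4, uni := uni, fin := fin } := by
  unfold nearEP
  rw [forceN_eq]

theorem cancel (h : NearIn n false a0 a1 b0 b1 T x) (j : ι) : x j * T.card / n = x j := by
  have hn := npos h
  rw [(h.ex rfl).2]
  field_simp

theorem inE_aux (h : NearIn n false a0 a1 b0 b1 T x) (fin : Bool) {ra vh sv : ℕ} (vs : ℕ)
    (h0 : rr ra = 1) (h1 : Var T x ≤ rr vh) (h2 : rr vh ≤ rr sv ^ 2) :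
    InE ⟨n, ra, ra, a0, a1, b0, b1, false, 0, 0, 0, 0, vh, sv, vs, false, fin⟩ T x 0 0 := by
  obtain ⟨i, hiT, hi, _, hi1⟩ := h.mn
  obtain ⟨l, hlT, hl, hl0, _⟩ := h.mx
  rw [cancel h] at hi1 hl0
  have hs := h.sum
  refine ⟨rfl, (h.ex rfl).1, (h.ex rfl).2, ⟨?_, ?_⟩, fun j hj => ?_,
    ⟨i, hiT, l, hlT, ne_of h hi hl, hi1, hl0⟩, fun hh => ?_, ?_, h1, fun _ => h2⟩
  · exact (h0.trans hs.symm).le
  · exact (hs.trans h0.symm).le
  · have := rng h j hj
    rw [cancel h] at this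
    exact this
  · exact absurd hh Bool.false_ne_true
  · rw [hs]
    exact one_pos

theorem inE (h : NearIn n false a0 a1 b0 b1 T x) (fin : Bool) (w : ℕ) :
    InE (nearEP n false fin a0 a1 b0 b1 w) T x 0 0 := by
  have h1 := var_up h
  rw [(h.ex rfl).2] at h1
  have h2 := le_of_mul_le_mul_right h1 (npos h)
  rw [EP_eq]
  exact inE_aux h fin _ rr_SS h2 (sqrtU_sq _)

theorem inU (h : NearIn n true a0 a1 b0 b1 T x) (fin : Bool) (w : ℕ) :
    InU (nearEP n true fin a0 a1 b0 b1 w) T x := by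
  rw [EP_eq]
  exact ⟨rfl, rfl, (h.un rfl).1, (h.un rfl).2, rfl, rfl, h.sum, rng h, var_up h⟩

/-- The last step: the state of the run is negative. -/
theorem phi_neg {c V : ℝ} {sc sh sg v : ℕ} (hc : 0 < c) (hV : 0 < V) (hv : rr v * c ≤ V)
    (h1 : sh < sg) (h2 : sc = 0 ∨ sc < mulD v (sg - sh)) : PhiE c V sc sh sg < 0 := by
  unfold PhiE
  have h3 : rr sh < rr sg := rr_lt.2 h1
  rcases h2 with rfl | h2
  · rw [rr_zero]
    nlinarith
  · have h4 := (rr_lt.2 h2).trans_le (mulD_le v (sg - sh))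
    rw [rr_sub h1.le] at h4
    have h5 := mul_lt_mul_of_pos_left h4 hc
    have h6 := mul_le_mul_of_nonneg_right hv (sub_pos.2 h3).le
    nlinarith

theorem empty_box (h : NearIn n false a0 a1 b0 b1 T x)
    (hh : a1 + (n - 1) * b1 < SS ∨ SS < b0 + (n - 1) * a0) : False := by
  classical
  obtain ⟨i, hiT, _, _, hi1⟩ := h.mn
  obtain ⟨l, hlT, _, hl0, _⟩ := h.mx
  rw [cancel h] at hi1 hl0
  have hr : ∀ j ∈ T, rr a0 ≤ x j ∧ x j ≤ rr b1 := fun j hj => by
    have := rng h j hj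
    rwa [cancel h] at this
  have hs := h.sum
  rcases hh with hh | hh
  · have h1 := rr_lt.2 hh
    rw [rr_add, rr_nmul, rr_SS] at h1
    have h2 := Finset.sum_le_card_nsmul (T.erase i) x (rr b1)
      (fun j hj => (hr j (Finset.mem_of_mem_erase hj)).2)
    rw [Finset.card_erase_of_mem hiT, (h.ex rfl).2, nsmul_eq_mul] at h2
    rw [← Finset.add_sum_erase T _ hiT] at hs
    linarith
  · have h1 := rr_lt.2 hh
    rw [rr_add, rr_nmul, rr_SS] at h1
    have h2 := Finset.card_nsmul_le_sum (T.erase l) x (rr a0)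
      (fun j hj => (hr j (Finset.mem_of_mem_erase hj)).1)
    rw [Finset.card_erase_of_mem hlT, (h.ex rfl).2, nsmul_eq_mul] at h2
    rw [← Finset.add_sum_erase T _ hlT] at hs
    linarith

theorem split_a {m : ℕ} (h1 : NearOK B n uni a0 m b0 b1) (h2 : NearOK B n uni m a1 b0 b1) :
    NearOK B n uni a0 a1 b0 b1 := by
  intro q hq ι T x h
  obtain ⟨i, hiT, hi, hi0, hi1⟩ := h.mn
  rcases le_total (x i * T.card / n) (rr m) with hm | hm
  · exact h1 q hq ι T x ⟨h.ex, h.un, h.sum, h.nd, ⟨i, hiT, hi, hi0, hm⟩, h.mx⟩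
  · exact h2 q hq ι T x ⟨h.ex, h.un, h.sum, h.nd, ⟨i, hiT, hi, hm, hi1⟩, h.mx⟩

theorem split_b {m : ℕ} (h1 : NearOK B n uni a0 a1 b0 m) (h2 : NearOK B n uni a0 a1 m b1) :
    NearOK B n uni a0 a1 b0 b1 := by
  intro q hq ι T x h
  obtain ⟨i, hiT, hi, hi0, hi1⟩ := h.mx
  rcases le_total (x i * T.card / n) (rr m) with hm | hm
  · exact h1 q hq ι T x ⟨h.ex, h.un, h.sum, h.nd, h.mn, ⟨i, hiT, hi, hi0, hm⟩⟩
  · exact h2 q hq ι T x ⟨h.ex, h.un, h.sum, h.nd, h.mn, ⟨i, hiT, hi, hm, hi1⟩⟩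

end YNearX

open YNearX in
theorem nearL_sound (h : BOK B Q E) {Va Vb : ℕ → ℕ} (hV : EndOK B Va Vb B.Yp) {n : ℕ}
    {uni fin : Bool} {sch : List ℕ} {w a0 a1 b0 b1 : ℕ}
    (ok : nearL B Q E Va Vb n uni fin sch w a0 a1 b0 b1 = true) :
    NearOK B n uni a0 a1 b0 b1 := by
  intro q hq ι T x hx
  unfold nearL at ok
  cases hw : Nat.beq w 0
  · rw [hw, cond_false] at ok
    have hs := IG_sub h.sc hq (nonneg hx) hx.sum 0 0
    rw [← sub_neg, hs]
    cases uni
    · obtain ⟨sc, sh, sg, e, hb⟩ := runE_exact h (Va := Va) (Vb := Vb)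
        (P := nearEP n false fin a0 a1 b0 b1 (w - 1)) (fun _ => hV) sch
        (fun sc sh sg => Nat.blt sc BIG && Nat.blt sh BIG && Nat.blt sh sg &&
          (Nat.beq sc 0 || Nat.blt sc (mulD (vLo n SS SS a1 b0 false) (sg - sh))))
      rw [e] at ok
      simp only [Bool.and_eq_true, Bool.or_eq_true, Nat.blt_eq, Nat.beq_eq] at ok
      obtain ⟨⟨⟨o1, o2⟩, o3⟩, o4⟩ := ok
      have hP := inE hx fin (w - 1)
      have h1 := hb o1 o2 q hq ι T x 0 0 hP
      have h2 := vLo_le hP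
      rw [EP_eq] at h1 h2
      exact lt_of_le_of_lt h1
        (phi_neg one_pos (var_pos hx) (by rw [mul_one]; exact h2) o3 o4)
    · obtain ⟨sc, sh, sg, e, hb⟩ := runE_uni h (Va := Va) (Vb := Vb)
        (P := nearEP n true fin a0 a1 b0 b1 (w - 1)) (fun _ => hV) sch
        (fun sc sh sg => Nat.blt sc BIG && Nat.blt sh BIG && Nat.blt sh sg &&
          (Nat.beq sc 0 || Nat.blt sc (mulD (vLo n SS SS a1 b0 true) (sg - sh))))
      rw [e] at ok
      simp only [Bool.and_eq_true, Bool.or_eq_true, Nat.blt_eq, Nat.beq_eq] at ok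
      obtain ⟨⟨⟨o1, o2⟩, o3⟩, o4⟩ := ok
      have h1 := hb o1 o2 q hq ι T x (inU hx fin (w - 1))
      rw [EP_eq] at h1
      have hn := npos hx
      have hc := cpos hx
      refine lt_of_le_of_lt h1 (phi_neg (by positivity) (var_pos hx) ?_ o3 o4)
      have h2 := mul_le_mul_of_nonneg_right (var_low hx) (sq_nonneg ((n : ℝ) / T.card))
      refine h2.trans (le_of_eq ?_)
      field_simp
  · rw [hw, cond_true] at ok
    cases uni
    · simp only [Bool.not_false, Bool.true_and, Bool.or_eq_true, Nat.blt_eq] at ok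
      exact (empty_box hx ok).elim
    · simp only [Bool.not_true, Bool.false_and] at ok
      exact absurd ok Bool.false_ne_true

theorem nearT_sound (h : BOK B Q E) {Va Vb : ℕ → ℕ} (hV : EndOK B Va Vb B.Yp) {n : ℕ}
    {uni fin : Bool} {sch : List ℕ} (t : Tr) {a0 a1 b0 b1 : ℕ}
    (ok : nearT B Q E Va Vb n uni fin sch t a0 a1 b0 b1 = true) :
    NearOK B n uni a0 a1 b0 b1 := by
  induction t generalizing a0 a1 b0 b1 with
  | l w => exact nearL_sound h hV (w := w) ok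
  | x a b i1 i2 =>
    have e : nearT B Q E Va Vb n uni fin sch (Tr.x a b) a0 a1 b0 b1 =
        forceN ((a0 + a1) / 2) fun m => nearT B Q E Va Vb n uni fin sch a a0 m b0 b1 &&
          nearT B Q E Va Vb n uni fin sch b m a1 b0 b1 := rfl
    rw [e, forceN_eq, Bool.and_eq_true] at ok
    exact YNearX.split_a (i1 ok.1) (i2 ok.2)
  | y a b i1 i2 =>
    have e : nearT B Q E Va Vb n uni fin sch (Tr.y a b) a0 a1 b0 b1 =
        forceN ((b0 + b1) / 2) fun m => nearT B Q E Va Vb n uni fin sch a a0 a1 b0 m &&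
          nearT B Q E Va Vb n uni fin sch b a0 a1 m b1 := rfl
    rw [e, forceN_eq, Bool.and_eq_true] at ok
    exact YNearX.split_b (i1 ok.1) (i2 ok.2)
  | q a b _ _ => exact absurd ok Bool.false_ne_true
  | e w a _ => exact absurd ok Bool.false_ne_true

end Pool.Agent.MP_39fec4_gt.K
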