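import Pool.Agent.MP_39fec4_gt.YRunE

set_option autoImplicit false

namespace Pool.Agent.MP_39fec4_gt.K

open Set MeasureTheory Full

variable {B : Blk} {Q : ℕ → ℕ → ℕ} {E : ℕ → ℕ} {q : ℝ} {ι : Type} {T : Finset ι}

namespace YExcX

theorem sq_of {d : ℕ} {z : ℝ} (h : rr d ≤ |z|) : rr (mulD d d) ≤ z ^ 2 := by
  rw [← sq_abs, sq]
  exact mulD_le_of h h

theorem var_nonneg (T : Finset ι) (x : ι → ℝ) : 0 ≤ Var T x :=
  Finset.sum_nonneg fun _ _ => sq_nonneg _

theorem boxEP_eq (k xl xh ya yb p0 p1 vs : ℕ) : boxEP k xl xh ya yb p0 p1 vs =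
    { k := k, ra := cR xh yb, rb := cR xl ya, xa0 := p0, xa1 := p1, xb0 := cR xh yb / k,
      xb1 := min (min (cX1 xh) (cX2 xl yb)) (cR xl ya), ho := true,
      x1l := cX1 xl, x1h := cX1 xh, x2l := cX2 xh ya, x2h := min (cX1 xh) (cX2 xl yb),
      Vh := k * mulU (min (min (cX1 xh) (cX2 xl yb)) (cR xl ya) - cR xh yb / k)
        (cR xl ya / k + 1 - p0),
      sV := 0,
      Vs := (k * mulU (min (min (cX1 xh) (cX2 xl yb)) (cR xl ya) - cR xh yb / k)
        (cR xl ya / k + 1 - p0)) >>> (2 * vs), uni := false, fin := false } := by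
  unfold boxEP
  rw [forceN_eq, forceN_eq, forceN_eq, forceN_eq]

theorem sum_pos {x : ι → ℝ} {x1 xi : ℝ} (hp : Pt T x x1 xi) : 0 < ∑ j ∈ T, x j := by
  rw [hp.sum]
  exact mul_pos (sub_pos.2 hp.l2) (sub_pos.2 hp.l1)

theorem le_xm {x : ι → ℝ} {x1 xi : ℝ} (hp : Pt T x x1 xi) {xl xh ya yb : ℕ}
    (hb : Box xl xh ya yb x1 xi) {j : ι} (hj : j ∈ T) :
    x j ≤ rr (min (min (cX1 xh) (cX2 xl yb)) (cR xl ya)) := by
  obtain ⟨-, b2, -, b4, -, b6⟩ := hb.bounds hp.l1.le hp.l2.le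
  have h1 := (hp.rng j hj).2
  have h2 : x j ≤ ∑ i ∈ T, x i := Finset.single_le_sum (fun i hi => (hp.rng i hi).1) hj
  rw [rr_min, rr_min]
  refine le_min (le_min (h1.trans (hp.le.trans b2)) (h1.trans b4)) ?_
  rw [hp.sum] at h2
  exact h2.trans b6

theorem min_le_mean {x : ι → ℝ} {i : ι} (hi : i ∈ T) (hm : ∀ j ∈ T, x i ≤ x j) :
    x i ≤ (∑ j ∈ T, x j) / T.card := by
  have hc : (0 : ℝ) < T.card := by exact_mod_cast Finset.card_pos.2 ⟨i, hi⟩
  rw [le_div_iff₀ hc, mul_comm, ← nsmul_eq_mul]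
  exact Finset.card_nsmul_le_sum T x _ hm

theorem mean_le_max {x : ι → ℝ} {i : ι} (hi : i ∈ T) (hm : ∀ j ∈ T, x j ≤ x i) :
    (∑ j ∈ T, x j) / T.card ≤ x i := by
  have hc : (0 : ℝ) < T.card := by exact_mod_cast Finset.card_pos.2 ⟨i, hi⟩
  rw [div_le_iff₀ hc, mul_comm, ← nsmul_eq_mul]
  exact Finset.sum_le_card_nsmul T x _ hm

theorem mean_bd {x : ι → ℝ} {x1 xi : ℝ} (hp : Pt T x x1 xi) {xl xh ya yb : ℕ}
    (hb : Box xl xh ya yb x1 xi) (hk : 0 < T.card) :
    rr (cR xh yb / T.card) ≤ (∑ j ∈ T, x j) / T.card ∧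
      (∑ j ∈ T, x j) / T.card ≤ rr (cR xl ya / T.card + 1) := by
  obtain ⟨-, -, -, -, b5, b6⟩ := hb.bounds hp.l1.le hp.l2.le
  have hc : (0 : ℝ) ≤ T.card := Nat.cast_nonneg _
  rw [hp.sum]
  exact ⟨(rr_div_le _ _).trans (div_le_div_of_nonneg_right b5 hc),
    (div_le_div_of_nonneg_right b6 hc).trans (rr_div_lt _ hk).le⟩

theorem inE_box {x : ι → ℝ} {x1 xi : ℝ} (hp : Pt T x x1 xi) {xl xh ya yb : ℕ}
    (hb : Box xl xh ya yb x1 xi) (hk : 2 ≤ T.card) {i : ι} (hi : i ∈ T)
    (hm : ∀ j ∈ T, x i ≤ x j) {pa pb : ℕ} (ha : rr pa ≤ x i) (hb' : x i ≤ rr pb) (vs : ℕ) :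
    InE (boxEP T.card xl xh ya yb pa pb vs) T x x1 (xi * (1 - x1)) := by
  classical
  obtain ⟨b1, b2, b3, b4, b5, b6⟩ := hb.bounds hp.l1.le hp.l2.le
  obtain ⟨m1, m2⟩ := mean_bd hp hb (by omega)
  rw [boxEP_eq]
  refine ⟨rfl, hk, rfl, ?_, fun j hj => ⟨ha.trans (hm j hj), le_xm hp hb hj⟩, ?_,
    fun _ => ⟨hp.p1, b1, b2, b3, ?_⟩, sum_pos hp, ?_, fun hf => absurd hf Bool.false_ne_true⟩
  · rw [hp.sum]
    exact ⟨b5, b6⟩
  · have hne : (T.erase i).Nonempty := by
      rw [← Finset.card_pos, Finset.card_erase_of_mem hi]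
      omega
    obtain ⟨l, hl, hl'⟩ := Finset.exists_max_image (T.erase i) x hne
    have hlT := Finset.mem_of_mem_erase hl
    refine ⟨i, hi, l, hlT, (Finset.ne_of_mem_erase hl).symm, hb', ?_⟩
    refine m1.trans (mean_le_max hlT fun j hj => ?_)
    by_cases e : j = i
    · rw [e]
      exact hm l hlT
    · exact hl' j (Finset.mem_erase.2 ⟨e, hj⟩)
  · show xi * (1 - x1) ≤ rr (min (cX1 xh) (cX2 xl yb))
    rw [rr_min]
    exact le_min (hp.le.trans b2) b4
  · show Var T x ≤ rr (T.card * mulU (min (min (cX1 xh) (cX2 xl yb)) (cR xl ya) -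
      cR xh yb / T.card) (cR xl ya / T.card + 1 - pa))
    have h1 := Full.var_le T ⟨i, hi⟩ x (a := rr pa)
      (b := rr (min (min (cX1 xh) (cX2 xl yb)) (cR xl ya)))
      fun j hj => ⟨ha.trans (hm j hj), le_xm hp hb hj⟩
    have h2 := min_le_mean hi hm
    rw [rr_nmul]
    refine h1.trans ?_
    rw [mul_assoc]
    refine mul_le_mul_of_nonneg_left (le_mulU ?_ ?_ (by linarith)) (Nat.cast_nonneg _)
    · have := rr_sub_ge (min (min (cX1 xh) (cX2 xl yb)) (cR xl ya)) (cR xh yb / T.card)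
      linarith
    · have := rr_sub_ge (cR xl ya / T.card + 1) pa
      linarith

theorem p0_le {x : ι → ℝ} {x1 xi : ℝ} (hp : Pt T x x1 xi) {xl xh ya yb : ℕ}
    (hb : Box xl xh ya yb x1 xi) {i : ι} (hi : i ∈ T) :
    rr (cR xh yb - (T.card - 1) * min (min (cX1 xh) (cX2 xl yb)) (cR xl ya)) ≤ x i := by
  classical
  obtain ⟨-, -, -, -, b5, -⟩ := hb.bounds hp.l1.le hp.l2.le
  rw [rr_sub_eq, rr_nmul]
  refine max_le ?_ (hp.rng i hi).1
  have h1 := Finset.sum_le_card_nsmul (T.erase i) x _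
    fun j hj => le_xm hp hb (Finset.mem_of_mem_erase hj)
  rw [Finset.card_erase_of_mem hi, nsmul_eq_mul] at h1
  have h2 := Finset.add_sum_erase T x hi
  rw [hp.sum] at h2
  linarith

end YExcX

theorem vLo_le {P : EP} {x : ι → ℝ} {x1 x2 : ℝ} (hP : InE P T x x1 x2) :
    rr (vLo P.k P.ra P.rb P.xa1 P.xb0 false) ≤ Var T x := by
  obtain ⟨i, hi, l, hl, hil, h1, h2⟩ := hP.two
  have hk := hP.k2
  have hc := hP.card
  have hk0 : (0 : ℝ) ≤ P.k := Nat.cast_nonneg _
  have m1 : rr (P.ra / P.k) ≤ (∑ j ∈ T, x j) / T.card := by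
    rw [hc]
    exact (rr_div_le _ _).trans (div_le_div_of_nonneg_right hP.sum.1 hk0)
  have m2 : (∑ j ∈ T, x j) / T.card ≤ rr (P.rb / P.k + 1) := by
    rw [hc]
    exact (div_le_div_of_nonneg_right hP.sum.2 hk0).trans (rr_div_lt _ (by omega)).le
  have p1 : rr (P.ra / P.k - P.xa1) ≤ |x i - (∑ j ∈ T, x j) / T.card| := by
    rw [rr_sub_eq]
    have := neg_le_abs (x i - (∑ j ∈ T, x j) / T.card)
    exact max_le (by linarith) (abs_nonneg _)
  have p2 : rr (P.xb0 - (P.rb / P.k + 1)) ≤ |x l - (∑ j ∈ T, x j) / T.card| := by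
    rw [rr_sub_eq]
    have := le_abs_self (x l - (∑ j ∈ T, x j) / T.card)
    exact max_le (by linarith) (abs_nonneg _)
  have one : ∀ (d : ℕ) (j : ι), j ∈ T → rr d ≤ |x j - (∑ j ∈ T, x j) / T.card| →
      rr (mulD d d * P.k / (P.k - 1)) ≤ Var T x := by
    intro d j hj hd
    have q1 := YExcX.sq_of hd
    have q2 := var_ge_one T (by omega) x hj
    have e : ((P.k - 1 : ℕ) : ℝ) = P.k - 1 := by
      rw [Nat.cast_sub (by omega), Nat.cast_one]
    have hk1 : (0 : ℝ) < P.k - 1 := by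
      have : (2 : ℝ) ≤ P.k := by exact_mod_cast hk
      linarith
    refine (rr_div_le _ _).trans ?_
    rw [e, div_le_iff₀ hk1, rr_muln]
    generalize (x j - (∑ j ∈ T, x j) / T.card) ^ 2 = z at q1 q2
    rw [hc] at q2
    exact (mul_le_mul_of_nonneg_right q1 hk0).trans q2
  unfold vLo
  rw [forceN_eq, forceN_eq, cond_false, rr_max]
  refine max_le ?_ ?_
  · rw [rr_add]
    exact (add_le_add (YExcX.sq_of p1) (YExcX.sq_of p2)).trans (var_ge_two T x hi hl hil)
  · rcases le_total (P.ra / P.k - P.xa1) (P.xb0 - (P.rb / P.k + 1)) with hh | hh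
    · rw [max_eq_right hh]
      exact one _ l hl p2
    · rw [max_eq_left hh]
      exact one _ i hi p1

theorem excOne_spec (h : BOK B Q E) (hq : q ∈ B.I) {P : EP} {x : ι → ℝ} {x1 x2 : ℝ}
    (hP : InE P T x x1 x2) (hf : P.fin = false) {sch : List ℕ} (he : excOne B Q E P sch < BIG) :
    ∫ u in Ioi (0 : ℝ), FE (B.g 0 q) P.ho x1 x2 T x u ≤ ro (excOne B Q E P sch) := by
  obtain ⟨sc, sh, sg, e, hI⟩ := runE_exact h (Va := E) (Vb := E) (P := P)
    (fun h1 => absurd (hf.symm.trans h1) Bool.false_ne_true) sch fun sc sh sg =>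
    bif Nat.blt sc BIG && Nat.blt sh BIG then
      (bif Nat.ble sg sh then OFF + sc + mulU P.Vh (sh - sg)
        else OFF + sc - mulD (vLo P.k P.ra P.rb P.xa1 P.xb0 false) (sg - sh))
    else BIG
  have e' : excOne B Q E P sch = bif Nat.blt sc BIG && Nat.blt sh BIG then
      (bif Nat.ble sg sh then OFF + sc + mulU P.Vh (sh - sg)
        else OFF + sc - mulD (vLo P.k P.ra P.rb P.xa1 P.xb0 false) (sg - sh))
    else BIG := e
  rw [e'] at he ⊢
  have hv := vLo_le hP
  have hV := hP.var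
  have h0 := YExcX.var_nonneg T x
  generalize vLo P.k P.ra P.rb P.xa1 P.xb0 false = v at he hv ⊢
  cases hc : (Nat.blt sc BIG && Nat.blt sh BIG) with
  | false =>
    rw [hc, cond_false] at he
    exact absurd he (lt_irrefl _)
  | true =>
    rw [cond_true]
    rw [Bool.and_eq_true, Nat.blt_eq, Nat.blt_eq] at hc
    refine (hI hc.1 hc.2 q hq ι T x x1 x2 hP).trans ?_
    unfold PhiE
    cases hd : Nat.ble sg sh with
    | true =>
      rw [cond_true, ro_add, ro_OFF]
      have h1 : Var T x * (rr sh - rr sg) ≤ rr (mulU P.Vh (sh - sg)) :=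
        le_mulU' hV (rr_sub_ge sh sg) h0
      linarith
    | false =>
      have hlt : sh ≤ sg := by
        rcases le_total sg sh with hh | hh
        · rw [Nat.ble_eq_true_of_le hh] at hd
          exact absurd hd (by decide)
        · exact hh
      rw [cond_false, ro_eq]
      have h1 := rr_sub_ge (OFF + sc) (mulD v (sg - sh))
      have h2 : rr (mulD v (sg - sh)) ≤ Var T x * (rr sg - rr sh) :=
        mulD_le_of hv (rr_sub hlt).le
      rw [rr_add] at h1
      linarith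

theorem excE_spec (h : BOK B Q E) (hq : q ∈ B.I) {x : ι → ℝ} {x1 xi : ℝ} (hp : Pt T x x1 xi)
    {xl xh ya yb w : ℕ} (hb : Box xl xh ya yb x1 xi) {sch : List ℕ}
    (he : excE B Q E T.card xl xh ya yb w sch < BIG) :
    IX (B.g 0 q) x1 (xi * (1 - x1)) T x ≤
      IP (B.g 0 q) T.card x1 xi + ro (excE B Q E T.card xl xh ya yb w sch) := by
  rw [← sub_le_iff_le_add', IX_sub h.sc hq hp]
  have hT : T.Nonempty := by
    rcases T.eq_empty_or_nonempty with e | e
    · have := YExcX.sum_pos hp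
      rw [e, Finset.sum_empty] at this
      exact absurd this (lt_irrefl _)
    · exact e
  unfold excE at he ⊢
  cases hk : Nat.beq T.card 1 with
  | true =>
    rw [cond_true]
    obtain ⟨j, e⟩ := Finset.card_eq_one.1 (Nat.eq_of_beq_eq_true hk)
    have h0 : ro OFF = 0 := by rw [ro_eq, sub_self]
    have h1 : ∀ s : ℝ, FE (B.g 0 q) true x1 (xi * (1 - x1)) T x s = 0 := fun s => by
      simp [FE, mean, e]
    rw [h0]
    simp only [h1, integral_zero, le_refl]
  | false =>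
    have hk2 : 2 ≤ T.card := by
      have h1 := hT.card_pos
      have h2 := Nat.ne_of_beq_eq_false hk
      omega
    rw [hk, cond_false] at he
    rw [cond_false]
    simp only [forceN_eq] at he ⊢
    obtain ⟨i, hi, hm⟩ := Finset.exists_min_image T x hT
    have l0 := YExcX.p0_le hp hb hi
    have l3 := (YExcX.min_le_mean hi hm).trans (YExcX.mean_bd hp hb hT.card_pos).2
    have key : ∀ pa pb vs : ℕ, rr pa ≤ x i → x i ≤ rr pb →
        excOne B Q E (boxEP T.card xl xh ya yb pa pb vs) sch < BIG →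
        ∫ u in Ioi (0 : ℝ), FE (B.g 0 q) true x1 (xi * (1 - x1)) T x u ≤
          ro (excOne B Q E (boxEP T.card xl xh ya yb pa pb vs) sch) := by
      intro pa pb vs ha hb' hlt
      have h1 := excOne_spec h hq (YExcX.inE_box hp hb hk2 hi hm ha hb' vs)
        (by rw [YExcX.boxEP_eq]) hlt
      have h2 : (boxEP T.card xl xh ya yb pa pb vs).ho = true := by rw [YExcX.boxEP_eq]
      rwa [h2] at h1
    generalize cR xh yb - (T.card - 1) * min (min (cX1 xh) (cX2 xl yb)) (cR xl ya) = p0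
      at he l0 ⊢
    generalize p0 + (cR xh yb / T.card - p0) * 2 / 5 = p1 at he ⊢
    generalize p0 + (cR xh yb / T.card - p0) * 7 / 10 = p2 at he ⊢
    generalize cR xl ya / T.card + 1 = p3 at he l3 ⊢
    cases h0 : Nat.beq (w / 64) 0 with
    | true =>
      rw [h0, cond_true] at he
      rw [cond_true]
      exact key _ _ _ l0 l3 he
    | false =>
      rw [h0, cond_false] at he
      rw [cond_false]
      cases h1 : Nat.beq (w / 64) 1 with
      | true =>
        rw [h1, cond_true, max_lt_iff] at he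
        rw [cond_true]
        rcases le_total (x i) (rr p2) with c | c
        · exact (key _ _ _ l0 c he.1).trans (ro_le.2 (le_max_left _ _))
        · exact (key _ _ _ c l3 he.2).trans (ro_le.2 (le_max_right _ _))
      | false =>
        rw [h1, cond_false, max_lt_iff, max_lt_iff] at he
        rw [cond_false]
        rcases le_total (x i) (rr p1) with c | c
        · exact (key _ _ _ l0 c he.1.1).trans
            (ro_le.2 ((le_max_left _ _).trans (le_max_left _ _)))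
        · rcases le_total (x i) (rr p2) with d | d
          · exact (key _ _ _ c d he.1.2).trans
              (ro_le.2 ((le_max_right _ _).trans (le_max_left _ _)))
          · exact (key _ _ _ d l3 he.2).trans (ro_le.2 (le_max_right _ _))

end Pool.Agent.MP_39fec4_gt.K
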