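import Pool.Agent.MP_39fec4_gt.YCellP
import Pool.Agent.MP_39fec4_gt.YExc

set_option autoImplicit false

namespace Pool.Agent.MP_39fec4_gt.K

open Set MeasureTheory Full

variable {B : Blk} {Q : ℕ → ℕ → ℕ} {E : ℕ → ℕ} {q : ℝ} {ι : Type} {T : Finset ι}

namespace YRunPX

/-- The pointwise bound beyond the last node. -/
theorem fp2_tail (h : BOK B Q E) (hq : q ∈ B.I) {k ra rb x1l x1h x2l x2h s : ℕ} {x : ι → ℝ}
    {x1 x2 : ℝ} (hP : InP k ra rb x1l x1h x2l x2h T x x1 x2) {u : ℝ} (hu : sR s ≤ u) :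
    FP2 (B.g 0 q) k x1 x2 T x u ≤ |B.g 0 q (x1 * u ^ 2) * B.g 0 q (x2 * u ^ 2)| *
      rr (pTail B ra (min (min x1h x2h) rb) s + powU (gAB (rqI Q (mulD ra (tS s) / k))) k) := by
  have hk0 : (0 : ℝ) < k := by
    have := hP.k1
    exact_mod_cast (by omega : 0 < k)
  have hx : ∀ j ∈ T, 0 ≤ x j ∧ x j ≤ rr (min (min x1h x2h) rb) := fun j hj => by
    refine ⟨(hP.rng j hj).1, ?_⟩
    rw [rr_min, rr_min]
    exact le_min (le_min (((hP.rng j hj).2.trans hP.le).trans hP.o1.2)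
      ((hP.rng j hj).2.trans hP.o2.2))
      ((Finset.single_le_sum (fun i hi => (hP.rng i hi).1) hj).trans hP.sum.2)
  have a1 := pTail_spec h hq hx hP.sum.1 hu
  have s0 : 0 ≤ ∑ j ∈ T, x j := (rr_nonneg _).trans hP.sum.1
  have a2 : rr (mulD ra (tS s) / k) ≤ (∑ j ∈ T, x j) / k * u ^ 2 := by
    have b1 : rr (mulD ra (tS s)) ≤ (∑ j ∈ T, x j) * u ^ 2 :=
      mulD_le_of hP.sum.1 ((tS_eq s).le.trans (pow_le_pow_left₀ (sR_nonneg s) hu 2))
    refine (rr_div_le _ k).trans ?_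
    rw [div_mul_eq_mul_div]
    exact div_le_div_of_nonneg_right b1 hk0.le
  have a3 := abs_le_powU ((h.qok.rqI (mulD ra (tS s) / k) _).pt q hq _
    ((rr_nonneg _).trans a2) a2 le_rfl).inR.abs k
  have e : FP2 (B.g 0 q) k x1 x2 T x u = B.g 0 q (x1 * u ^ 2) * B.g 0 q (x2 * u ^ 2) *
      (∏ j ∈ T, B.g 0 q (x j * u ^ 2) - B.g 0 q ((∑ j ∈ T, x j) / k * u ^ 2) ^ k) := by
    simp only [FP2, P3]
    ring
  rw [e, rr_add]
  refine (le_abs_self _).trans ?_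
  rw [abs_mul]
  exact mul_le_mul_of_nonneg_left ((abs_sub _ _).trans (add_le_add a1 a3)) (abs_nonneg _)

/-- The diagonal terms beyond the last node. -/
theorem diag_tail (h : BOK B Q E) (hq : q ∈ B.I) {k s : ℕ} (n : ℕ)
    (hf : far0 B (tS s / (k + 2)) < BIG) {u : ℝ} (hu : sR s ≤ u) :
    B.g 0 q (u ^ 2 / ((k + 2 : ℕ) : ℝ)) ^ (k + 2) - B.g 0 q (u ^ 2 / (n : ℝ)) ^ n -
      ngp (B.g 0 q) n u ≤ rr (powU (far0 B (tS s / (k + 2))) (k + 2)) * (sR s / u) ^ 2 := by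
  have a0 : rr (tS s / (k + 2)) ≤ 1 / ((k + 2 : ℕ) : ℝ) * sR s ^ 2 := by
    rw [one_div_mul_eq_div, ← tS_eq]
    exact rr_div_le _ _
  obtain ⟨hs, a1⟩ := far0_sq h hq a0 hf hu
  rw [one_div_mul_eq_div] at a1
  have a2 : -(B.g 0 q (u ^ 2 / (n : ℝ)) ^ n) ≤ ngp (B.g 0 q) n u := le_max_left _ _
  have r0 : 0 ≤ sR s / u := div_nonneg hs.le (hs.le.trans hu)
  have r1 : sR s / u ≤ 1 := (div_le_one (hs.trans_le hu)).2 hu
  have a3 : B.g 0 q (u ^ 2 / ((k + 2 : ℕ) : ℝ)) ^ (k + 2) ≤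
      rr (powU (far0 B (tS s / (k + 2))) (k + 2)) * (sR s / u) ^ 2 := by
    refine (le_abs_self _).trans ?_
    rw [abs_pow]
    refine (pow_le_pow_left₀ (abs_nonneg _) a1 _).trans ?_
    rw [mul_pow]
    exact mul_le_mul (powU_ge _ _) (pow_le_pow_of_le_one r0 r1 (by omega)) (pow_nonneg r0 _)
      (rr_nonneg _)
  linarith

/-- The two tail integrals. -/
theorem tail_int (h : BOK B Q E) (hq : q ∈ B.I) {k ra rb x1l x1h x2l x2h s : ℕ} {x : ι → ℝ}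
    {x1 x2 : ℝ} (hP : InP k ra rb x1l x1h x2l x2h T x x1 x2) (ho : oTail B Q x1l x2l s < BIG) :
    (far0 B (tS s / (k + 2)) < BIG → ∫ u in Ioi (sR s), FP1 (B.g 0 q) k x1 x2 T x u ≤
      rr (mulU (oTail B Q x1l x2l s) (pTail B ra (min (min x1h x2h) rb) s +
        powU (gAB (rqI Q (mulD ra (tS s) / k))) k)) +
      rr (mulU (powU (far0 B (tS s / (k + 2))) (k + 2)) (s <<< 34))) ∧
    ∫ u in Ioi (sR s), FP2 (B.g 0 q) k x1 x2 T x u ≤
      rr (mulU (oTail B Q x1l x2l s) (pTail B ra (min (min x1h x2h) rb) s +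
        powU (gAB (rqI Q (mulD ra (tS s) / k))) k)) := by
  obtain ⟨i1, i2⟩ := hP.int h hq
  obtain ⟨hs, A2, A3, -, -, hA, hO⟩ := oTail_spec h hq hP.o1.1 hP.o2.1 ho
  have p2 := fun u (hu : sR s ≤ u) => fp2_tail (s := s) h hq hP hu
  generalize pTail B ra (min (min x1h x2h) rb) s +
    powU (gAB (rqI Q (mulD ra (tS s) / k))) k = M at p2 ⊢
  have p3 : ∀ u, sR s ≤ u → FP2 (B.g 0 q) k x1 x2 T x u ≤
      A2 * rr M * (sR s / u) ^ 2 + A3 * rr M * (sR s / u) ^ 3 := fun u hu =>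
    ((p2 u hu).trans (mul_le_mul_of_nonneg_right (hO u hu) (rr_nonneg M))).trans
      (le_of_eq (by ring))
  have m1 : (A2 + A3 / 2) * sR s * rr M ≤ rr (mulU (oTail B Q x1l x2l s) M) :=
    le_mulU hA le_rfl (rr_nonneg M)
  refine ⟨fun hf => ?_, ?_⟩
  · have p4 := fun u (hu : sR s ≤ u) => diag_tail h hq (T.card + 2) hf hu
    generalize powU (far0 B (tS s / (k + 2))) (k + 2) = F at p4 ⊢
    have m2 : rr F * sR s ≤ rr (mulU F (s <<< 34)) := le_mulU le_rfl (shl34 s).ge hs.le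
    have a := int_tail (A2 := A2 * rr M + rr F) (A3 := A3 * rr M) hs
      (int_split hs.le i1).2.1 fun u hu => by
        have b1 := p3 u hu
        have b2 := p4 u hu
        unfold FP1
        linarith
    linarith
  · have a := int_tail hs (int_split hs.le i2).2.1 p3
    linarith

/-- The integrals of the two integrands. -/
theorem int_eq (h : BOK B Q E) (hq : q ∈ B.I) {k : ℕ} {x : ι → ℝ} {x1 : ℝ} (h1 : 0 < x1)
    (x2 : ℝ) :
    ∫ u in Ioi (0 : ℝ), FP2 (B.g 0 q) k x1 x2 T x u = IX (B.g 0 q) x1 x2 T x -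
      (∫ s in Ioi (0 : ℝ), P3 (B.g 0 q) x1 x2 ((∑ j ∈ T, x j) / k) k (s ^ 2)) ∧
    ∫ u in Ioi (0 : ℝ), FP1 (B.g 0 q) k x1 x2 T x u =
      (∫ u in Ioi (0 : ℝ), FP2 (B.g 0 q) k x1 x2 T x u) + DG (B.g 0 q) (k + 2) -
        DG (B.g 0 q) (T.card + 2) - ∫ u in Ioi (0 : ℝ), ngp (B.g 0 q) (T.card + 2) u := by
  have a1 := int_IX h.sc hq h1 x2 T x
  have a2 : IntegrableOn
      (fun s : ℝ => P3 (B.g 0 q) x1 x2 ((∑ j ∈ T, x j) / k) k (s ^ 2)) (Ioi 0) := by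
    refine (int_IX h.sc hq h1 x2 (Finset.range k) (fun _ => (∑ j ∈ T, x j) / k)).congr_fun
      (fun s _ => ?_) measurableSet_Ioi
    simp only [P3, Finset.prod_const, Finset.card_range]
  have a3 : IntegrableOn (FP2 (B.g 0 q) k x1 x2 T x) (Ioi 0) := a1.sub a2
  have a4 : ∀ n : ℕ, IntegrableOn
      (fun s : ℝ => B.g 0 q (s ^ 2 / ((n + 2 : ℕ) : ℝ)) ^ (n + 2)) (Ioi 0) := fun n => by
    have hn : (0 : ℝ) < 1 / ((n + 2 : ℕ) : ℝ) := by positivity
    refine (int_pow h.sc hq hn (k := n + 2) (by omega)).congr_fun (fun s _ => ?_)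
      measurableSet_Ioi
    simp only [one_div_mul_eq_div]
  have a5 := int_ngp h hq (n := T.card + 2) (by omega)
  refine ⟨integral_sub a1 a2, ?_⟩
  have b1 := integral_add a3 (a4 k)
  have b2 := integral_sub (a3.add (a4 k)) (a4 T.card)
  have b3 := integral_sub ((a3.add (a4 k)).sub (a4 T.card)) a5
  simp only [Pi.add_apply, Pi.sub_apply] at b2 b3
  rw [b2, b1] at b3
  exact b3

theorem bif_lt {a b : ℕ} (h : (bif Nat.blt a BIG then b else BIG) < BIG) :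
    a < BIG ∧ (bif Nat.blt a BIG then b else BIG) = b := by
  cases hc : Nat.blt a BIG
  · rw [hc] at h
    exact absurd h (lt_irrefl BIG)
  · exact ⟨Nat.blt_eq.mp hc, rfl⟩

end YRunPX

theorem runP_spec {α : Type} (h : BOK B Q E) (k ra rb x1l x1h x2l x2h : ℕ) (sch : List ℕ)
    (kk : ℕ → ℕ → α) :
    ∃ e1 e2, runP B Q E k ra rb x1l x1h x2l x2h sch kk = kk e1 e2 ∧
      ∀ q ∈ B.I, ∀ (ι : Type) (T : Finset ι) (x : ι → ℝ) (x1 x2 : ℝ),
        InP k ra rb x1l x1h x2l x2h T x x1 x2 →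
        (e1 < BIG → IX (B.g 0 q) x1 x2 T x - DG (B.g 0 q) (T.card + 2) ≤
          (∫ s in Ioi (0 : ℝ), P3 (B.g 0 q) x1 x2 ((∑ j ∈ T, x j) / k) k (s ^ 2)) -
            DG (B.g 0 q) (k + 2) + rr e1) ∧
        (e2 < BIG → IX (B.g 0 q) x1 x2 T x ≤
          (∫ s in Ioi (0 : ℝ), P3 (B.g 0 q) x1 x2 ((∑ j ∈ T, x j) / k) k (s ^ 2)) + rr e2) := by
  obtain ⟨s, a, b, g, he, hI⟩ := sweep_ind sch (cellP B Q E k ra rb x1l x1h x2l x2h)
    (finP B Q k ra rb x1l x1h x2l x2h kk)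
    (fun s a b _ => ∀ q ∈ B.I, ∀ (ι : Type) (T : Finset ι) (x : ι → ℝ) (x1 x2 : ℝ),
      InP k ra rb x1l x1h x2l x2h T x x1 x2 →
      ∫ u in (0 : ℝ)..sR s, FP1 (B.g 0 q) k x1 x2 T x u ≤ rr a ∧
        ∫ u in (0 : ℝ)..sR s, FP2 (B.g 0 q) k x1 x2 T x u ≤ rr b)
    (fun q _ ι T x x1 x2 _ => by
      rw [sR_zero, intervalIntegral.integral_same, intervalIntegral.integral_same, rr_zero]
      exact ⟨le_rfl, le_rfl⟩)
    (fun s s' a b g kk' hs hI => by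
      obtain ⟨a', b', he, hc⟩ := cellP_spec h k ra rb x1l x1h x2l x2h hs a b g kk'
      refine ⟨a', b', g, he, fun q hq ι T x x1 x2 hx => ?_⟩
      obtain ⟨i1, i2⟩ := hx.int h hq
      rw [int_add i1 (sR_nonneg s) (sR_mono hs), int_add i2 (sR_nonneg s) (sR_mono hs)]
      have h1 := hI q hq ι T x x1 x2 hx
      have h2 := hc q hq ι T x x1 x2 hx
      exact ⟨by linarith [h1.1, h2.1], by linarith [h1.2, h2.2]⟩)
  refine ⟨a + (bif Nat.blt (oTail B Q x1l x2l s) BIG then mulU (oTail B Q x1l x2l s)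
        (pTail B ra (min (min x1h x2h) rb) s + powU (gAB (rqI Q (mulD ra (tS s) / k))) k)
        else BIG) + delN B Q (k + 2) +
      (bif Nat.blt (far0 B (tS s / (k + 2))) BIG then
        mulU (powU (far0 B (tS s / (k + 2))) (k + 2)) (s <<< 34) else BIG),
    b + (bif Nat.blt (oTail B Q x1l x2l s) BIG then mulU (oTail B Q x1l x2l s)
        (pTail B ra (min (min x1h x2h) rb) s + powU (gAB (rqI Q (mulD ra (tS s) / k))) k)
        else BIG), he.trans ?_, fun q hq ι T x x1 x2 hx => ?_⟩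
  · unfold finP
    simp only [forceN_eq]
  obtain ⟨i1, i2⟩ := hx.int h hq
  obtain ⟨e2, e1⟩ := YRunPX.int_eq (k := k) (T := T) (x := x) h hq hx.p1 x2
  obtain ⟨h1, h2⟩ := hI q hq ι T x x1 x2 hx
  rw [int_all i1 (sR_nonneg s), e2] at e1
  rw [int_all i2 (sR_nonneg s)] at e2
  refine ⟨fun hlt => ?_, fun hlt => ?_⟩
  · obtain ⟨ho, eo⟩ := YRunPX.bif_lt (lt_of_le_of_lt (((Nat.le_add_left _ a).trans
      (Nat.le_add_right _ _)).trans (Nat.le_add_right _ _)) hlt)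
    obtain ⟨hf, ef⟩ := YRunPX.bif_lt (lt_of_le_of_lt (Nat.le_add_left _ _) hlt)
    have hd : delN B Q (k + 2) < BIG :=
      lt_of_le_of_lt ((Nat.le_add_left _ _).trans (Nat.le_add_right _ _)) hlt
    have t1 := (YRunPX.tail_int h hq hx ho).1 hf
    have t2 := delN_le h hq (N := k + 2) (n := T.card + 2) (by omega)
      (Nat.add_le_add_right hx.card 2) hd
    rw [eo, ef, rr_add, rr_add, rr_add]
    linarith
  · obtain ⟨ho, eo⟩ := YRunPX.bif_lt (lt_of_le_of_lt (Nat.le_add_left _ b) hlt)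
    have t1 := (YRunPX.tail_int h hq hx ho).2
    rw [eo, rr_add]
    linarith

theorem excB_spec {α : Type} (h : BOK B Q E) (c : Cls) (w xl xh ya yb : ℕ) (kk : ℕ → ℕ → α) :
    ∃ e1 e2, excB B Q E c w xl xh ya yb kk = kk e1 e2 ∧ ExcOK B c xl xh ya yb e1 e2 := by
  unfold excB
  cases hc : c.plus
  · refine ⟨_, _, forceN_eq _ _, fun q hq ι T x x1 xi hp hd hb => ?_⟩
    have e1 := hd.ex hc
    have e2 : T.card + 2 = c.N := by
      have := hd.n3
      omega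
    rw [e2, ← e1]
    exact ⟨fun hlt => by linarith [excE_spec h hq hp hb hlt], fun hlt => excE_spec h hq hp hb hlt⟩
  · obtain ⟨e1, e2, he, hs⟩ := runP_spec h (c.N - 2) (cR xh yb) (cR xl ya) (cX1 xl) (cX1 xh)
      (cX2 xh ya) (min (cX1 xh) (cX2 xl yb)) c.sch fun e1 e2 =>
        forceN (OFF + e1) fun e1 => forceN (OFF + e2) fun e2 => kk e1 e2
    refine ⟨OFF + e1, OFF + e2, he.trans (by simp only [forceN_eq]),
      fun q hq ι T x x1 xi hp hd hb => ?_⟩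
    have n3 := hd.n3
    obtain ⟨c1, c2⟩ := hd.pl hc
    obtain ⟨b1, b2, b3, b4, b5, b6⟩ := hb.bounds hp.l1.le hp.l2.le
    have eN : c.N - 2 + 2 = c.N := by omega
    have hP : InP (c.N - 2) (cR xh yb) (cR xl ya) (cX1 xl) (cX1 xh) (cX2 xh ya)
        (min (cX1 xh) (cX2 xl yb)) T x x1 (xi * (1 - x1)) :=
      { k1 := by omega
        card := c1
        sum := by rw [hp.sum]; exact ⟨b5, b6⟩
        one := by rw [hp.sum]; ring
        rng := hp.rng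
        p1 := hp.p1
        le := hp.le
        o1 := ⟨b1, b2⟩
        o2 := ⟨b3, by rw [rr_min]; exact le_min (hp.le.trans b2) b4⟩
        big := by
          have : ((c.N - 2 : ℕ) : ℝ) + 2 = c.N := by exact_mod_cast eN
          rwa [this] }
    obtain ⟨s1, s2⟩ := hs q hq ι T x x1 _ hP
    rw [hp.sum, eN] at s1
    rw [hp.sum] at s2
    rw [ro_OFF, ro_OFF]
    exact ⟨fun hlt => s1 (lt_of_le_of_lt (Nat.le_add_left _ _) hlt),
      fun hlt => s2 (lt_of_le_of_lt (Nat.le_add_left _ _) hlt)⟩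

end Pool.Agent.MP_39fec4_gt.K
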