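import Pool.Agent.MP_39fec4_gt.YSweep
import Pool.Agent.MP_39fec4_gt.FTwo

set_option autoImplicit false

namespace Pool.Agent.MP_39fec4_gt.K

open Set MeasureTheory Full

variable {B : Blk} {Q : ℕ → ℕ → ℕ} {E : ℕ → ℕ} {q : ℝ} {ι : Type} {T : Finset ι}

namespace YTwoX

theorem root_le (k : ℕ) : ∀ a : ℕ, rr (Nat.rec (motive := fun _ => ℕ → ℕ) (fun r => r)
    (fun _ ih r => forceN (sqrtL r) ih) k a) ≤ rr a ^ ((1 : ℝ) / 2 ^ k) := by
  induction k with
  | zero => intro a; simp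
  | succ k ih =>
    intro a
    have h1 := ih (sqrtL a)
    have h2 : rr (sqrtL a) ^ ((1 : ℝ) / 2 ^ k) ≤ √(rr a) ^ ((1 : ℝ) / 2 ^ k) :=
      Real.rpow_le_rpow (rr_nonneg _) (sqrtL_le a) (by positivity)
    rw [Real.sqrt_eq_rpow, ← Real.rpow_mul (rr_nonneg _),
      show (1 : ℝ) / 2 * (1 / 2 ^ k) = 1 / 2 ^ (k + 1) by rw [pow_succ]; field_simp] at h2
    have e : (Nat.rec (motive := fun _ => ℕ → ℕ) (fun r => r)
        (fun _ ih r => forceN (sqrtL r) ih) (k + 1) a : ℕ) =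
        Nat.rec (motive := fun _ => ℕ → ℕ) (fun r => r)
        (fun _ ih r => forceN (sqrtL r) ih) k (sqrtL a) := forceN_eq _ _
    rw [e]
    exact h1.trans h2

/-- The vector with two further coordinates. -/
def ext (x1 x2 : ℝ) (T : Finset ι) (x : ι → ℝ) : Option (Option T) → ℝ
  | none => x1
  | some none => x2
  | some (some j) => x j

end YTwoX

open YTwoX

theorem rpw_le (a i : ℕ) (hi : 0 < i) : rr (rpw a i) ≤ rr a ^ ((i : ℝ) / 256) := by
  have h := root_le 8 a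
  rw [rpw, forceN_eq]
  refine (mulD_le_of (powD_le a (i / 256)) (powD_le_of h (i % 256))).trans (le_of_eq ?_)
  have e : ((i : ℝ) / 256) = ((i / 256 : ℕ) : ℝ) + 1 / 2 ^ 8 * ((i % 256 : ℕ) : ℝ) := by
    have : (i : ℝ) = 256 * ((i / 256 : ℕ) : ℝ) + ((i % 256 : ℕ) : ℝ) := by
      exact_mod_cast (Nat.div_add_mod i 256).symm
    rw [this]; ring
  have hp : (0 : ℝ) < (i : ℝ) / 256 := by
    have : (0 : ℝ) < i := Nat.cast_pos.2 hi
    positivity
  rw [← Real.rpow_natCast (rr a), ← Real.rpow_natCast (rr a ^ _), ← Real.rpow_mul (rr_nonneg _),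
    ← Real.rpow_add' (rr_nonneg _) (e ▸ hp.ne'), ← e]

theorem two_ltX (hs : ScalOK B) (hq : q ∈ B.I) {x : ι → ℝ} {x1 x2 : ℝ} (h0 : ∀ j ∈ T, 0 ≤ x j)
    (h1 : 0 ≤ x1) (h2 : 0 ≤ x2) (hsum : x1 + x2 + ∑ j ∈ T, x j = 1)
    (h : 2 < (2 * x1) ^ (1 / q / 2) + (2 * x2) ^ (1 / q / 2)) :
    IX (B.g 0 q) x1 x2 T x < kap B.C q := by
  classical
  obtain ⟨q0, q2⟩ := hs.q_pos hq
  have hC := hs.C_pos
  have hp : 2 < 1 / q := by rw [lt_div_iff₀ q0]; linarith
  set e := Fintype.equivFin (Option (Option T)) with he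
  set y : Fin (Fintype.card (Option (Option T))) → ℝ := fun k => ext x1 x2 T x (e.symm k) with hy
  have y0 : ∀ k, 0 ≤ y k := by
    intro k
    simp only [hy]
    rcases e.symm k with _ | _ | j
    · exact h1
    · exact h2
    · exact h0 j j.2
  have hS : Smp y := by
    refine ⟨y0, ?_⟩
    rw [hy, Equiv.sum_comp e.symm (ext x1 x2 T x), Fintype.sum_option, Fintype.sum_option]
    simp only [YTwoX.ext]
    rw [Finset.sum_coe_sort T x]
    linarith
  have hne : e none ≠ e (some none) := fun hh => by simpa using e.injective hh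
  have h3 := two_lt hp hS hne (by simpa only [hy, Equiv.symm_apply_apply, YTwoX.ext] using h)
  rw [II_eq_IG hC q0 q2 y y0, Bl_eq_kap hC q0] at h3
  have hm : 0 < mu B.C q := (rr_pos hs.mL0).trans_le (hs.hmu q hq).1
  have h4 := lt_of_mul_lt_mul_left h3 hm.le
  refine lt_of_eq_of_lt ?_ h4
  unfold IX IG
  congr 1
  funext s
  rw [hy, Equiv.prod_comp e.symm (fun k => Full.gg B.C 0 q (ext x1 x2 T x k * s ^ 2)),
    Fintype.prod_option, Fintype.prod_option]
  simp only [YTwoX.ext]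
  rw [Finset.prod_coe_sort T (fun j => Full.gg B.C 0 q (x j * s ^ 2)), mul_assoc]
  rfl

theorem twoT_sound (hs : ScalOK B) (hq : q ∈ B.I) {xl xh ya yb b : ℕ} (hb : q ≤ B.q b)
    (ok : twoT B xl xh ya yb b = true) {x : ι → ℝ} {x1 xi : ℝ} (hp : Pt T x x1 xi)
    (hx : Box xl xh ya yb x1 xi) : IX (B.g 0 q) x1 (xi * (1 - x1)) T x < kap B.C q := by
  obtain ⟨q0, -⟩ := hs.q_pos hq
  obtain ⟨b1, -, -, b4, -, b6⟩ := hx.bounds hp.l1.le hp.l2.le
  simp only [twoT, forceN_eq, Bool.and_eq_true, Nat.ble_eq, Nat.blt_eq] at ok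
  obtain ⟨i0, ok⟩ := ok
  have i1 : min (524288 / B.qv b) 4096 ≤ 524288 / B.qv b := min_le_left _ _
  generalize min (524288 / B.qv b) 4096 = i at i0 i1 ok
  have u1 := rr_sub_eq SS (cR xl ya)
  have d1 := rr_sub_eq (cX1 xl) (cX2 xl yb)
  generalize SS - cR xl ya = u at u1 ok
  generalize cX1 xl - cX2 xl yb = d at d1 ok
  have p1 := hp.p1
  have l1 := hp.l1
  have p2 := hp.p2
  have l2 := hp.l2
  have x2 : 0 ≤ xi * (1 - x1) := mul_nonneg p2 (by linarith)
  have s1 : (1 : ℝ) ≤ (i : ℝ) / 256 := by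
    rw [le_div_iff₀ (by norm_num), one_mul]; exact_mod_cast i0
  have k1 := rpw_le (u + d) i (by omega)
  have k2 := rpw_le (u - d) i (by omega)
  have k3 := rr_lt.2 ok
  rw [rr_add, rr_nmul, rr_SS] at k3
  rw [rr_add] at k1
  rw [rr_sub_eq] at k2
  have k4 := rpow_sum_spread (a := 2 * x1) (b := 2 * (xi * (1 - x1))) (u := rr u) (d := rr d)
    (by linarith) (rr_nonneg _) (rr_nonneg _) s1
    (by
      rw [u1, rr_SS]
      have : max (1 - rr (cR xl ya)) 0 ≤ x1 + xi * (1 - x1) := max_le (by nlinarith) (by linarith)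
      linarith)
    (by
      rw [d1]
      have : max (rr (cX1 xl) - rr (cX2 xl yb)) 0 ≤ x1 - xi * (1 - x1) :=
        max_le (by linarith) (by linarith [hp.le])
      linarith)
  have k5 : (i : ℝ) / 256 ≤ 1 / q / 2 := by
    have a1 : (i : ℝ) ≤ 524288 / (B.qv b : ℝ) :=
      (Nat.cast_le.2 i1).trans (by exact_mod_cast Nat.cast_div_le (α := ℝ) (m := 524288) (n := B.qv b))
    have a2 : q ≤ (B.qv b : ℝ) / 4096 := hb
    have a3 : (0 : ℝ) < B.qv b := by linarith
    rw [le_div_iff₀ a3] at a1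
    rw [div_div, div_le_div_iff₀ (by norm_num) (by positivity)]
    have a4 : (0 : ℝ) ≤ i := Nat.cast_nonneg _
    nlinarith
  refine two_ltX hs hq (fun j hj => (hp.rng j hj).1) p1.le x2 (by rw [hp.sum]; ring) ?_
  refine rpow_sum_mono (by linarith) (by linarith) (by linarith) k5 ?_
  push_cast at k3
  linarith

/-- The integral over the simplex seen from two coordinates. -/
theorem IG_eq_IX (g : ℝ → ℝ) {n : ℕ} (x : Fin n → ℝ) {i j : Fin n} (hij : i ≠ j) :
    IG g Finset.univ x = IX g (x i) (x j) ((Finset.univ.erase i).erase j) x := by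
  unfold IG IX
  congr 1
  funext s
  have mj : j ∈ Finset.univ.erase i := Finset.mem_erase.2 ⟨hij.symm, Finset.mem_univ j⟩
  rw [← Finset.mul_prod_erase Finset.univ _ (Finset.mem_univ i),
    ← Finset.mul_prod_erase (Finset.univ.erase i) _ mj, mul_assoc]

end Pool.Agent.MP_39fec4_gt.K
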