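import Pool.Agent.MP_39fec4_gt.YMain
import Pool.Agent.MP_39fec4_gt.YTwo
import Pool.Agent.MP_39fec4_gt.YRunP

set_option autoImplicit false

namespace Pool.Agent.MP_39fec4_gt.K

open Set MeasureTheory Full

variable {B : Blk} {Q : ℕ → ℕ → ℕ} {E : ℕ → ℕ} {q : ℝ} {ι : Type} {T : Finset ι}

theorem YTreeX.memI (h : BOK B Q E) {xl xh ya yb a b : ℕ} (wf : Wf B xl xh ya yb a b)
    (hq : q ∈ Icc (B.q a) (B.q b)) : q ∈ B.I := by
  have ha := h.sc.q_mem (v := a) (lt_of_le_of_lt wf.q.1 wf.q.2)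
  have hb := h.sc.q_mem (v := b) wf.q.2
  exact ⟨ha.1.trans hq.1, hq.2.trans hb.2⟩

theorem YTreeX.r20_mono {a b : ℕ} (h : a ≤ b) : r20 a ≤ r20 b := by
  unfold r20
  have : (a : ℝ) ≤ b := by exact_mod_cast h
  gcongr

theorem YTreeX.exc_mono {c : Cls} {xl xh ya yb xl' xh' ya' yb' e1 e2 : ℕ}
    (he : ExcOK B c xl xh ya yb e1 e2) (h1 : xl ≤ xl') (h2 : xh' ≤ xh) (h3 : ya ≤ ya')
    (h4 : yb' ≤ yb) : ExcOK B c xl' xh' ya' yb' e1 e2 := by
  intro q hq ι T x x1 xi hp hc hb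
  exact he q hq ι T x x1 xi hp hc
    ⟨⟨(YTreeX.r20_mono h1).trans hb.x.1, hb.x.2.trans (YTreeX.r20_mono h2)⟩,
      ⟨(YTreeX.r20_mono h3).trans hb.y.1, hb.y.2.trans (YTreeX.r20_mono h4)⟩⟩

theorem leafT_sound {G : ℕ → ℕ} (hG : GamOK G) (h : BOK B Q E) {VV : ℕ → ℕ → ℕ}
    (hV : VVOK B VV) {c : Cls} (hb : BallOK B c.bl) {w xl xh ya yb a b e1 e2 : ℕ}
    (wf : Wf B xl xh ya yb a b) (he : ExcOK B c xl xh ya yb e1 e2)
    (ok : leafT G B Q VV c w xl xh ya yb a b e1 e2 = true) : BoxOK B c xl xh ya yb a b := by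
  intro q hq ι T x x1 xi hp hc hx
  have hqI := YTreeX.memI h wf hq
  obtain ⟨b1, b2, b3, b4, b5, b6⟩ := hx.bounds hp.l1.le hp.l2.le
  unfold leafT at ok
  rw [forceN_eq] at ok
  generalize w % 8 = kd at ok
  cases h0 : Nat.beq kd 0 with
  | true =>
    rw [h0, cond_true, Nat.blt_eq] at ok
    have := rr_lt.2 ok
    have := hp.le
    exfalso
    linarith
  | false =>
    rw [h0, cond_false] at ok
    cases h1 : Nat.beq kd 1 with
    | true =>
      rw [h1, cond_true] at ok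
      refine lt_max_of_lt_right (hb _ _ _ ok q hqI ι T x x1 _ (fun j hj => (hp.rng j hj).1)
        ?_ ?_ ?_ ?_ ?_)
      · rw [hp.sum]
        exact mul_pos (sub_pos.2 hp.l2) (sub_pos.2 hp.l1)
      · rw [hp.sum]; exact b5
      · rw [hp.sum]; exact b6
      · rw [hp.sum]; ring
      · rw [abs_of_nonneg (sub_nonneg.2 hp.le)]
        have := rr_sub_ge (cX1 xh) (cX2 xh ya)
        linarith
    | false =>
      rw [h1, cond_false] at ok
      cases h2 : Nat.beq kd 2 with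
      | true =>
        rw [h2, cond_true] at ok
        exact lt_max_of_lt_right (twoT_sound h.sc hqI hq.2 ok hp hx)
      | false =>
        rw [h2, cond_false] at ok
        obtain ⟨k1, k2⟩ := he q hqI ι T x x1 xi hp hc hx
        cases h3 : Nat.beq kd 3 with
        | true =>
          rw [h3, cond_true, Bool.and_eq_true, Nat.blt_eq] at ok
          have m := mainT_sound hG h hV wf ok.2 hq hx
          have k := k1 ok.1
          unfold Th at m
          rw [cond_false] at m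
          exact lt_max_of_lt_left (by linarith)
        | false =>
          rw [h3, cond_false, Bool.and_eq_true, Nat.blt_eq] at ok
          have m := mainT_sound hG h hV wf ok.2 hq hx
          have k := k2 ok.1
          unfold Th at m
          rw [cond_true] at m
          exact lt_max_of_lt_right (by linarith)

theorem treeT_sound {G : ℕ → ℕ} (hG : GamOK G) (h : BOK B Q E) {VV : ℕ → ℕ → ℕ}
    (hV : VVOK B VV) {c : Cls} (hb : BallOK B c.bl) (t : Tr) {xl xh ya yb a b e1 e2 : ℕ}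
    (wf : Wf B xl xh ya yb a b) (he : ExcOK B c xl xh ya yb e1 e2)
    (ok : treeT G B Q VV E c t xl xh ya yb a b e1 e2 = true) : BoxOK B c xl xh ya yb a b := by
  induction t generalizing xl xh ya yb a b e1 e2 with
  | l w => exact leafT_sound hG h hV hb wf he ok
  | x s t ihs iht =>
    have ok' : (forceN ((xl + xh) / 2) fun m => treeT G B Q VV E c s xl m ya yb a b e1 e2 &&
        treeT G B Q VV E c t m xh ya yb a b e1 e2) = true := ok
    rw [forceN_eq, Bool.and_eq_true] at ok'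
    have w1 := wf.x
    have m1 : xl ≤ (xl + xh) / 2 := by omega
    have m2 : (xl + xh) / 2 ≤ xh := by omega
    have r1 := ihs ⟨⟨m1, m2.trans w1.2⟩, wf.y, wf.q⟩
      (YTreeX.exc_mono he le_rfl m2 le_rfl le_rfl) ok'.1
    have r2 := iht ⟨⟨m2, w1.2⟩, wf.y, wf.q⟩
      (YTreeX.exc_mono he m1 le_rfl le_rfl le_rfl) ok'.2
    intro q hq ι T x x1 xi hp hc hx
    rcases le_total x1 (r20 ((xl + xh) / 2)) with k | k
    · exact r1 q hq ι T x x1 xi hp hc ⟨⟨hx.x.1, k⟩, hx.y⟩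
    · exact r2 q hq ι T x x1 xi hp hc ⟨⟨k, hx.x.2⟩, hx.y⟩
  | y s t ihs iht =>
    have ok' : (forceN ((ya + yb) / 2) fun m => treeT G B Q VV E c s xl xh ya m a b e1 e2 &&
        treeT G B Q VV E c t xl xh m yb a b e1 e2) = true := ok
    rw [forceN_eq, Bool.and_eq_true] at ok'
    have w1 := wf.y
    have m1 : ya ≤ (ya + yb) / 2 := by omega
    have m2 : (ya + yb) / 2 ≤ yb := by omega
    have r1 := ihs ⟨wf.x, ⟨m1, m2.trans w1.2⟩, wf.q⟩
      (YTreeX.exc_mono he le_rfl le_rfl le_rfl m2) ok'.1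
    have r2 := iht ⟨wf.x, ⟨m2, w1.2⟩, wf.q⟩
      (YTreeX.exc_mono he le_rfl le_rfl m1 le_rfl) ok'.2
    intro q hq ι T x x1 xi hp hc hx
    rcases le_total xi (r20 ((ya + yb) / 2)) with k | k
    · exact r1 q hq ι T x x1 xi hp hc ⟨hx.x, ⟨hx.y.1, k⟩⟩
    · exact r2 q hq ι T x x1 xi hp hc ⟨hx.x, ⟨k, hx.y.2⟩⟩
  | q s t ihs iht =>
    have ok' : (forceN ((a + b) / 2) fun m => treeT G B Q VV E c s xl xh ya yb a m e1 e2 &&
        treeT G B Q VV E c t xl xh ya yb m b e1 e2) = true := ok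
    rw [forceN_eq, Bool.and_eq_true] at ok'
    have w1 := wf.q
    have m1 : a ≤ (a + b) / 2 := by omega
    have m2 : (a + b) / 2 ≤ b := by omega
    have r1 := ihs ⟨wf.x, wf.y, ⟨m1, lt_of_le_of_lt m2 w1.2⟩⟩ he ok'.1
    have r2 := iht ⟨wf.x, wf.y, ⟨m2, w1.2⟩⟩ he ok'.2
    intro q hq ι T x x1 xi hp hc hx
    rcases le_total q (B.q ((a + b) / 2)) with k | k
    · exact r1 q ⟨hq.1, k⟩ ι T x x1 xi hp hc hx
    · exact r2 q ⟨k, hq.2⟩ ι T x x1 xi hp hc hx
  | e w s ihs =>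
    have ok' : excB B Q E c w xl xh ya yb (treeT G B Q VV E c s xl xh ya yb a b) = true := ok
    obtain ⟨f1, f2, hf, he'⟩ := excB_spec h c w xl xh ya yb (treeT G B Q VV E c s xl xh ya yb a b)
    rw [hf] at ok'
    exact ihs wf he' ok'

end Pool.Agent.MP_39fec4_gt.K
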