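import Pool.Agent.MP_39fec4_gt.YBase
import Pool.Agent.MP_39fec4_gt.YTree
import Pool.Agent.MP_39fec4_gt.YNear
import Pool.Agent.MP_39fec4_gt.YFar
import Pool.Agent.MP_39fec4_gt.YInc

set_option autoImplicit false

namespace Pool.Agent.MP_39fec4_gt.K

open Set MeasureTheory Full

namespace YBlockX

theorem rr_cX1 (a : ℕ) : rr (cX1 a) = r20 a := by
  have h : rr (a <<< 20) = rr a * 2 ^ 20 := rr_shl a 20
  have h2 : rr a * 2 ^ 20 = r20 a := by unfold rr r20; ring
  exact h.trans h2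

theorem r20_top : r20 1048576 = 1 := by rw [r20]; norm_num

theorem rr_eighth : rr (SS / 8) = 1 / 8 := by rw [rr, SS]; norm_num

theorem rr_316 : rr (3 * SS / 16) = 3 / 16 := by rw [rr, SS]; norm_num

theorem box_ok {G : ℕ → ℕ} (hG : GamOK G) {c : Cert} (hb : c.Base) {p : Cl} {N : ℕ} {plus : Bool}
    {xl xh ya yb : ℕ} (h1 : xl ≤ xh) (h2 : xh ≤ 1048576) (h3 : ya ≤ yb) (h4 : yb ≤ 1048576)
    (ok : c.tree G p N plus xl xh ya yb = true) :
    BoxOK c.B (c.cls p N plus) xl xh ya yb 0 (c.B.nv - 1) := by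
  have hn := hb.bok.sc.nv
  refine treeT_sound hG hb.bok hb.vv (c := c.cls p N plus) hb.ball p.t
    ⟨⟨h1, h2⟩, ⟨h3, h4⟩, ⟨Nat.zero_le _, by omega⟩⟩ ?_ ok
  intro q _ ι T x x1 xi _ _ _
  exact ⟨fun h => absurd h (lt_irrefl _), fun h => absurd h (lt_irrefl _)⟩

/-- The data of a point of the simplex that is not on an edge. -/
structure Dat {n : ℕ} (x : Fin n → ℝ) (i j m : Fin n) (xi : ℝ) : Prop where
  hx : Smp x
  nd : ¬IsDiag x
  ij : i ≠ j
  mx : ∀ k, x k ≤ x i
  mn : ∀ k, x m ≤ x k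
  pt : Pt ((Finset.univ.erase i).erase j) x (x i) xi
  e2 : xi * (1 - x i) = x j
  lo : 1 ≤ ((n : ℝ) - 1) * xi
  card : ((Finset.univ.erase i).erase j).card = n - 2

variable {n : ℕ} {x : Fin n → ℝ} {i j m : Fin n} {xi : ℝ}

theorem max_ge (hx : Smp x) (mx : ∀ k, x k ≤ x i) : 1 ≤ (n : ℝ) * x i := by
  have := Finset.sum_le_card_nsmul Finset.univ x (x i) fun k _ => mx k
  rw [hx.2, Finset.card_univ, Fintype.card_fin, nsmul_eq_mul] at this
  exact this

theorem min_le (hx : Smp x) (mn : ∀ k, x m ≤ x k) : (n : ℝ) * x m ≤ 1 := by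
  have := Finset.card_nsmul_le_sum Finset.univ x (x m) fun k _ => mn k
  rw [hx.2, Finset.card_univ, Fintype.card_fin, nsmul_eq_mul] at this
  exact this

theorem rest_le (hx : Smp x) (m : Fin n) {b : ℝ} (h : ∀ k, k ≠ m → x k ≤ b) :
    1 - x m ≤ ((n : ℝ) - 1) * b := by
  have h1 := Finset.sum_le_card_nsmul (Finset.univ.erase m) x b
    fun k hk => h k (Finset.ne_of_mem_erase hk)
  have h2 := Finset.add_sum_erase Finset.univ x (Finset.mem_univ m)
  have h3 : 1 ≤ n := m.pos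
  rw [Finset.card_erase_of_mem (Finset.mem_univ m), Finset.card_univ, Fintype.card_fin,
    nsmul_eq_mul, Nat.cast_sub h3, Nat.cast_one] at h1
  rw [hx.2] at h2
  linarith

theorem exists_dat (hn : 3 ≤ n) (hx : Smp x) (nd : ¬IsDiag x)
    (he : ∀ i j : Fin n, i ≠ j → x i + x j ≠ 1) : ∃ i j m xi, Dat x i j m xi := by
  have ne : (Finset.univ : Finset (Fin n)).Nonempty := ⟨⟨0, by omega⟩, Finset.mem_univ _⟩
  obtain ⟨i, -, hi⟩ := Finset.exists_max_image Finset.univ x ne
  obtain ⟨m, -, hm⟩ := Finset.exists_min_image Finset.univ x ne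
  have c1 : (Finset.univ.erase i).card = n - 1 := by
    rw [Finset.card_erase_of_mem (Finset.mem_univ i), Finset.card_univ, Fintype.card_fin]
  have ne2 : (Finset.univ.erase i).Nonempty := by
    rw [← Finset.card_pos]; omega
  obtain ⟨j, hj, hj2⟩ := Finset.exists_max_image _ x ne2
  have ij : i ≠ j := (Finset.ne_of_mem_erase hj).symm
  have mx : ∀ k, x k ≤ x i := fun k => hi k (Finset.mem_univ k)
  have s1 := Finset.add_sum_erase Finset.univ x (Finset.mem_univ i)
  have s2 := Finset.add_sum_erase _ x hj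
  rw [hx.2] at s1
  have s3 : 0 ≤ ∑ k ∈ (Finset.univ.erase i).erase j, x k := Finset.sum_nonneg fun k _ => hx.1 k
  have s4 : x i + x j < 1 := lt_of_le_of_ne (by linarith) (he i j ij)
  have xj := hx.1 j
  have d0 : 0 < 1 - x i := by linarith
  have e2 : x j / (1 - x i) * (1 - x i) = x j := div_mul_cancel₀ _ d0.ne'
  have p1 : 0 < x i := by
    have := max_ge hx mx
    by_contra h0
    have h1 : (n : ℝ) * x i ≤ 0 := mul_nonpos_of_nonneg_of_nonpos (Nat.cast_nonneg n) (not_lt.1 h0)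
    linarith
  refine ⟨i, j, m, x j / (1 - x i), hx, nd, ij, mx, fun k => hm k (Finset.mem_univ k),
    ⟨p1, by linarith, div_nonneg xj d0.le, (div_lt_one d0).2 (by linarith), by rw [e2]; exact mx j,
      by rw [sub_mul, e2]; linarith, fun k hk => ⟨hx.1 k, ?_⟩⟩, e2, ?_, ?_⟩
  · rw [e2]; exact hj2 k (Finset.mem_of_mem_erase hk)
  · have := rest_le hx i (b := x j) fun k hk => hj2 k (Finset.mem_erase.2 ⟨hk, Finset.mem_univ k⟩)
    rw [← mul_div_assoc, le_div_iff₀ d0]
    linarith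
  · rw [Finset.card_erase_of_mem hj, c1]; omega

theorem use_box {B : Blk} (hs : ScalOK B) {q : ℝ} (hq : q ∈ B.I) (hn : 3 ≤ n) (d : Dat x i j m xi)
    {c : Cls} {xl xh ya yb : ℕ} (hb : BoxOK B c xl xh ya yb 0 (B.nv - 1))
    (hc : Cd c ((Finset.univ.erase i).erase j) (x i) xi) (hx : Box xl xh ya yb (x i) xi) :
    IG (B.g 0 q) Finset.univ x < max (DG (B.g 0 q) n) (kap B.C q) := by
  have hq' : q ∈ Icc (B.q 0) (B.q (B.nv - 1)) := by
    rw [hs.q_ends.1, hs.q_ends.2]; exact hq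
  have := hb q hq' _ _ x (x i) xi d.pt hc hx
  rw [d.e2, d.card, show n - 2 + 2 = n by omega] at this
  rw [IG_eq_IX _ x d.ij]
  exact this

theorem nd_ex (nd : ¬IsDiag x) :
    ∃ k ∈ (Finset.univ : Finset (Fin n)), x k ≠ 1 / ((Finset.univ : Finset (Fin n)).card : ℝ) := by
  rw [Finset.card_univ, Fintype.card_fin]
  by_contra h
  exact nd fun k => by_contra fun hk => h ⟨k, Finset.mem_univ k, hk⟩

theorem small {G : ℕ → ℕ} (hG : GamOK G) {c : Cert} (hb : c.Base) {q : ℝ} (hq : q ∈ c.B.I)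
    (hn : 3 ≤ n) (d : Dat x i j m xi) {e : Ex} (ht : c.exT G e n = true)
    (hN : c.exN G e n = true) :
    IG (c.B.g 0 q) Finset.univ x < max (DG (c.B.g 0 q) n) (kap c.B.C q) := by
  have n3 : (3 : ℝ) ≤ n := by exact_mod_cast hn
  have n0 : (0 : ℝ) < n := by linarith
  have hM := max_ge d.hx d.mx
  have hm := min_le d.hx d.mn
  have l1 := d.pt.l1
  by_cases hx : r20 e.xl ≤ x i
  · have hl : e.xl ≤ 1048576 := by
      have h1 : (e.xl : ℝ) / 2 ^ 20 ≤ 1 := le_trans hx l1.le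
      rw [div_le_one (by positivity)] at h1
      have h2 : (e.xl : ℝ) ≤ ((1048576 : ℕ) : ℝ) := by push_cast; linarith
      exact_mod_cast h2
    refine use_box hb.bok.sc hq hn d
      (box_ok hG hb hl le_rfl (Nat.div_le_self _ _) le_rfl ht)
      ⟨hn, fun _ => d.card, fun h => absurd h Bool.false_ne_true⟩
      ⟨⟨hx, by rw [r20_top]; exact l1.le⟩, ?_, by rw [r20_top]; exact d.pt.l2.le⟩
    have h1 : ((1048576 / (n - 1) : ℕ) : ℝ) ≤ ((1048576 : ℕ) : ℝ) / ((n - 1 : ℕ) : ℝ) :=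
      Nat.cast_div_le
    rw [Nat.cast_sub (by omega : 1 ≤ n), Nat.cast_one, le_div_iff₀ (by linarith)] at h1
    rw [r20, div_le_iff₀ (by positivity)]
    have h2 := d.lo
    push_cast at h1
    have h3 : (0 : ℝ) < (n : ℝ) - 1 := by linarith
    refine le_of_mul_le_mul_right ?_ h3
    nlinarith
  · have hx' := not_le.1 hx
    rw [Cert.exN, Bool.and_eq_true] at hN
    have h2 := hN.2
    cases hu : e.n.use
    · rw [hu, cond_false, Nat.ble_eq] at h2
      have h3 : (e.xl : ℝ) * n ≤ ((1048576 : ℕ) : ℝ) := by exact_mod_cast h2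
      rw [r20, lt_div_iff₀ (by positivity)] at hx'
      push_cast at h3
      nlinarith
    · rw [hu, cond_true] at h2
      have cd : (Finset.univ : Finset (Fin n)).card = n := by
        rw [Finset.card_univ, Fintype.card_fin]
      have ee : ∀ k, x k * ((Finset.univ : Finset (Fin n)).card : ℝ) / n = x k := fun k => by
        rw [cd, mul_div_assoc, div_self n0.ne', mul_one]
      have := nearT_sound hb.bok hb.ends _ h2 q hq _ Finset.univ x
        ⟨fun _ => ⟨by omega, cd⟩, fun h => absurd h Bool.false_ne_true, d.hx.2, nd_ex d.nd,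
          ⟨m, Finset.mem_univ m, fun k _ => d.mn k, ?_, ?_⟩,
          ⟨i, Finset.mem_univ i, fun k _ => d.mx k, ?_, ?_⟩⟩
      · rw [cd] at this
        exact this.trans_le (le_max_left _ _)
      · rw [ee, rr_sub_eq, rr_SS, rr_nmul, rr_cX1, Nat.cast_sub (by omega : 1 ≤ n), Nat.cast_one]
        refine max_le ?_ (d.hx.1 m)
        have := rest_le d.hx m (b := r20 e.xl) fun k _ => (d.mx k).trans hx'.le
        linarith
      · rw [ee]
        have h4 := rr_div_lt SS (k := n) (by omega)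
        rw [rr_SS] at h4
        refine le_trans ?_ h4.le
        rw [le_div_iff₀ n0]; linarith
      · rw [ee]
        have h4 := rr_div_le SS n
        rw [rr_SS] at h4
        refine h4.trans ?_
        rw [div_le_iff₀ n0]; linarith
      · rw [ee, rr_cX1]; exact hx'.le

theorem cd_plus {c : Cert} {p : Cl} {N : ℕ} (d : Dat x i j m xi) (h3 : 3 ≤ N) (hN : N ≤ n)
    (h : 2 ≤ (N : ℝ) * (x i + xi * (1 - x i))) :
    Cd (c.cls p N true) ((Finset.univ.erase i).erase j) (x i) xi :=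
  ⟨h3, fun h => absurd h.symm Bool.false_ne_true,
    fun _ => ⟨by rw [d.card]; exact Nat.sub_le_sub_right hN 2, h⟩⟩

theorem large {G : ℕ → ℕ} (hG : GamOK G) {c : Cert} (h : c.OK G) {q : ℝ} (hq : q ∈ c.B.I)
    (hn : 8 ≤ n) (d : Dat x i j m xi) :
    IG (c.B.g 0 q) Finset.univ x < max (DG (c.B.g 0 q) n) (kap c.B.C q) := by
  have hb := h.base hG
  have n8 : (8 : ℝ) ≤ n := by exact_mod_cast hn
  have hM := max_ge d.hx d.mx
  have hm := min_le d.hx d.mn
  have l1 := d.pt.l1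
  have l2 := d.pt.l2
  have p2 := d.pt.p2
  have cd : (Finset.univ : Finset (Fin n)).card = n := by
    rw [Finset.card_univ, Fintype.card_fin]
  have bg := h.bg
  rw [Cert.big, Bool.and_eq_true, Bool.and_eq_true] at bg
  by_cases h1 : 2 * (n : ℝ) * x i ≤ 3
  · have := nearT_sound hb.bok hb.ends _ bg.1.1 q hq _ Finset.univ x
      ⟨fun h => absurd h.symm Bool.false_ne_true, fun _ => ⟨le_rfl, by omega⟩, d.hx.2, nd_ex d.nd,
        ⟨m, Finset.mem_univ m, fun k _ => d.mn k, ?_, ?_⟩,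
        ⟨i, Finset.mem_univ i, fun k _ => d.mx k, ?_, ?_⟩⟩
    · rw [cd] at this
      exact this.trans_le (le_max_left _ _)
    · rw [rr_zero]
      exact div_nonneg (mul_nonneg (d.hx.1 m) (Nat.cast_nonneg _)) (Nat.cast_nonneg _)
    · rw [rr_eighth, cd]; push_cast; linarith
    · rw [rr_eighth, cd]; push_cast; linarith
    · rw [rr_316, cd]; push_cast; linarith
  have h1' := not_le.1 h1
  by_cases h2 : x i ≤ r20 157286
  · have := farChk_sound hb.bok bg.1.2 hq (T := Finset.univ) (x := x) (fun k _ => d.hx.1 k) d.hx.2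
      (Finset.mem_univ i) (fun k _ => d.mx k) (by rw [rr_cX1]; exact h2) (by rw [cd]; exact h1')
    rw [cd] at this
    exact this.trans_le (le_max_left _ _)
  have h2' := (not_le.1 h2).le
  have t1 : x i ≤ r20 1048576 := by rw [r20_top]; exact l1.le
  have t2 : xi ≤ r20 1048576 := by rw [r20_top]; exact l2.le
  have v1 : (0.1499 : ℝ) ≤ x i := le_trans (by rw [r20]; norm_num) h2'
  have w0 : 0 ≤ xi * (1 - x i) := mul_nonneg p2 (by linarith)
  by_cases h3 : xi ≤ r20 83886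
  · have n14 : 14 ≤ n := by
      by_contra hh
      have a1 : (n : ℝ) ≤ 13 := by exact_mod_cast (by omega : n ≤ 13)
      have a2 := d.lo
      have a3 : xi ≤ 0.08 := h3.trans (by rw [r20]; norm_num)
      nlinarith
    refine use_box hb.bok.sc hq (by omega) d
      (box_ok hG hb (by norm_num) le_rfl (by norm_num) (by norm_num) h.p14)
      (cd_plus d (by norm_num) n14 (by push_cast; linarith))
      ⟨⟨h2', t1⟩, by rw [r20]; simpa using p2, h3⟩
  have h3' := (not_le.1 h3).le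
  have v2 : (0.0799 : ℝ) ≤ xi := le_trans (by rw [r20]; norm_num) h3'
  have w1 : 0.0799 * (1 - x i) ≤ xi * (1 - x i) := mul_le_mul_of_nonneg_right v2 (by linarith)
  by_cases h4 : r20 196608 ≤ x i
  · have v3 : (0.1875 : ℝ) ≤ x i := le_trans (by rw [r20]; norm_num) h4
    exact use_box hb.bok.sc hq (by omega) d
      (box_ok hG hb (by norm_num) le_rfl (by norm_num) le_rfl h.p8)
      (cd_plus d (by norm_num) hn (by push_cast; linarith)) ⟨⟨h4, t1⟩, h3', t2⟩
  have h4' := not_le.1 h4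
  have p1 := d.pt.p1
  have n9 : 9 ≤ n := by
    by_contra hh
    have a1 : (n : ℝ) ≤ 8 := by exact_mod_cast (by omega : n ≤ 8)
    have a3 : x i ≤ 0.1875 := h4'.le.trans (by rw [r20]; norm_num)
    nlinarith
  by_cases h5 : r20 174762 ≤ x i
  · have v3 : (0.1666 : ℝ) ≤ x i := le_trans (by rw [r20]; norm_num) h5
    exact use_box hb.bok.sc hq (by omega) d
      (box_ok hG hb (by norm_num) (by norm_num) (by norm_num) le_rfl h.p9)
      (cd_plus d (by norm_num) n9 (by push_cast; linarith)) ⟨⟨h5, h4'.le⟩, h3', t2⟩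
  have h5' := not_le.1 h5
  have n10 : 10 ≤ n := by
    by_contra hh
    have a1 : (n : ℝ) ≤ 9 := by exact_mod_cast (by omega : n ≤ 9)
    have a3 : x i ≤ 1 / 6 := h5'.le.trans (by rw [r20]; norm_num)
    nlinarith
  exact use_box hb.bok.sc hq (by omega) d
    (box_ok hG hb (by norm_num) (by norm_num) (by norm_num) le_rfl h.p10)
    (cd_plus d (by norm_num) n10 (by push_cast; linarith)) ⟨⟨h2', h5'.le⟩, h3', t2⟩

theorem cross_small {G : ℕ → ℕ} (hG : GamOK G) {c : Cert} (hb : c.Base) {e : Ex} {N : ℕ}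
    (hN : c.exN G e N = true) : Cross N c.B.qa c.B.qb := by
  rw [Cert.exN, Bool.and_eq_true] at hN
  exact (crossChk_sound hG hb.bok hb.vv hN.1).1

end YBlockX

open YBlockX

theorem Cert.OK.core {G : ℕ → ℕ} (hG : GamOK G) {c : Cert} (h : c.OK G) {q : ℝ}
    (hq : q ∈ c.B.I) : Core (1 / q) := by
  intro n hn x hx nd nb
  have hb := h.base hG
  have hs := hb.bok.sc
  obtain ⟨q0, q1⟩ := hs.q_pos hq
  have hC := hs.C_pos
  by_cases he : ∀ i j : Fin n, i ≠ j → x i + x j ≠ 1
  · obtain ⟨i, j, m, xi, d⟩ := exists_dat hn hx nd he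
    have key : IG (c.B.g 0 q) Finset.univ x < max (DG (c.B.g 0 q) n) (kap c.B.C q) := by
      by_cases h8 : 8 ≤ n
      · exact large hG h hq h8 d
      have : n = 3 ∨ n = 4 ∨ n = 5 ∨ n = 6 ∨ n = 7 := by omega
      rcases this with rfl | rfl | rfl | rfl | rfl
      · exact small hG hb hq hn d h.t3 h.n3
      · exact small hG hb hq hn d h.t4 h.n4
      · exact small hG hb hq hn d h.t5 h.n5
      · exact small hG hb hq hn d h.t6 h.n6
      · exact small hG hb hq hn d h.t7 h.n7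
    have hm := FLinkX.mu_pos' hC q0
    rw [II_eq_IG hC q0 q1 x hx.1, Dg_eq_DG hC q0 q1, Bl_eq_kap hC q0,
      ← mul_max_of_nonneg _ _ hm.le]
    exact mul_lt_mul_of_pos_left key hm
  · simp only [not_forall, not_not] at he
    obtain ⟨i, j, ij, hs1⟩ := he
    refine (two_lt_of_sum (FLinkX.two_lt_inv q0 q1) hx ij hs1 fun h2 => nb ⟨i, j, ij, h2, ?_⟩).trans_le
      (le_max_right _ _)
    linarith

theorem Cert.OK.rng {G : ℕ → ℕ} (hG : GamOK G) {c : Cert} (h : c.OK G) :
    Rng c.B.m0 c.B.m9 := by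
  have hb := h.base hG
  refine ⟨fun q h1 h2 => h.core hG ⟨h1, h2⟩, fun n hn => ?_⟩
  change Cross n c.B.qa c.B.qb
  by_cases h8 : 8 ≤ n
  · have bg := h.bg
    rw [Cert.big, Bool.and_eq_true] at bg
    have h3 := bg.2
    cases hi : c.inc
    · rw [hi, cond_false] at h3
      have hp := (crossChk_sound hG hb.bok hb.vv h3).2 rfl
      intro q q' ha hlt hq' _
      have hI : q' ∈ c.B.I := ⟨ha.trans hlt.le, hq'⟩
      obtain ⟨q0, q1⟩ := hb.bok.sc.q_pos hI
      exact pos_of_core (FLinkX.two_lt_inv q0 q1) (h.core hG hI) (N := 8) (by norm_num) h8 (hp q' hI)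
    · rw [hi, cond_true] at h3
      exact incChk_sound hb.bok hb.mk1 hb.mk0 h3 h8
  have : n = 3 ∨ n = 4 ∨ n = 5 ∨ n = 6 ∨ n = 7 := by omega
  rcases this with rfl | rfl | rfl | rfl | rfl
  · exact cross_small hG hb h.n3
  · exact cross_small hG hb h.n4
  · exact cross_small hG hb h.n5
  · exact cross_small hG hb h.n6
  · exact cross_small hG hb h.n7

theorem Rng.trans {a b b' c : ℕ} (h1 : Rng a b) (h2 : Rng b' c) (h : b' ≤ b) : Rng a c := by
  have hb : (b' : ℝ) / 4096 ≤ (b : ℝ) / 4096 := by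
    have : (b' : ℝ) ≤ b := by exact_mod_cast h
    linarith
  refine ⟨fun q ha hc => ?_, fun n hn q q' ha hlt hc hh => ?_⟩
  · rcases le_total q ((b : ℝ) / 4096) with hq | hq
    · exact h1.1 q ha hq
    · exact h2.1 q (hb.trans hq) hc
  · rcases le_or_gt q' ((b : ℝ) / 4096) with hq | hq
    · exact h1.2 n hn q q' ha hlt hq hh
    rcases le_or_gt ((b' : ℝ) / 4096) q with hr | hr
    · exact h2.2 n hn q q' hr hlt hc hh
    exact h2.2 n hn _ q' hb hq hc (h1.2 n hn q _ ha (hr.trans_le hb) le_rfl hh).le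

end Pool.Agent.MP_39fec4_gt.K
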