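import Pool.Agent.MP_39fec4_gt.ROk
import Pool.Agent.MP_39fec4_gt.REq
import Pool.Agent.MP_39fec4_gt.YBlock

set_option autoImplicit false

/-! From the primitive checks to the statement about a block. -/

namespace Pool.Agent.MP_39fec4_gt.R

theorem ok_of {G : ℕ → ℕ} {c : K.Cert} (a : OKa G c) (b : OKb G c) (d : OKc G c) : c.OK G := by
  obtain ⟨a1, a2, a3, a4, a5⟩ := a
  obtain ⟨b1, b2, b3, b4, b5, b6⟩ := b
  obtain ⟨d1, d2, d3, d4, d5, d6, d7, d8⟩ := d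
  rewrite [scalChk_eq] at a1
  rewrite [Cert_vt_eq] at a2
  rewrite [Cert_cells_eq] at a3
  rewrite [ballChk_eq, Cert_Q_eq, Cert_Ef_eq, Cert_Va_eq, Cert_Vb_eq] at a4
  rewrite [Cert_big_eq] at a5
  rewrite [Cert_exT_eq] at b1 b2 b3 d1 d2
  rewrite [Cert_exN_eq] at b4 b5 b6 d3 d4
  rewrite [Cert_tree_eq] at d5 d6 d7 d8
  exact ⟨a1, a2, a3, a4, b1, b2, b3, d1, d2, b4, b5, b6, d3, d4, d5, d6, d7, d8, a5⟩

theorem gam_of {l : List ℕ} (h : ∀ c, c < 16 → gamChkA c (nth l c) = true) :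
    K.GamOK (gamGet l) := by
  rewrite [gamChkA_eq, nth_eq] at h
  rewrite [gamGet_eq]
  exact K.gamOK_of fun c hc => K.gamChkA_sound (h c hc)

theorem rng_of {G : ℕ → ℕ} (hG : K.GamOK G) {c : K.Cert} (a : OKa G c) (b : OKb G c)
    (d : OKc G c) {m m' : ℕ} (h : Nat.beq c.B.m0 m = true) (h' : Nat.beq c.B.m9 m' = true) :
    K.Rng m m' := by
  rewrite [← Nat.eq_of_beq_eq_true h, ← Nat.eq_of_beq_eq_true h']
  exact (ok_of a b d).rng hG

end Pool.Agent.MP_39fec4_gt.R
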