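import Pool.Agent.MP_39fec4_gt.KTop

set_option autoImplicit false
set_option maxRecDepth 100000
set_option linter.unusedVariables false

/-! Copies of the checking functions written with the primitive operations only. -/

namespace Pool.Agent.MP_39fec4_gt.R

def mx (a b : Nat) : Nat := Nat.add a (Nat.sub b a)

def mn (a b : Nat) : Nat := Nat.sub a (Nat.sub a b)

noncomputable def bx (a b : Bool) : Bool :=
  @Bool.rec (fun _ => Bool) b (@Bool.rec (fun _ => Bool) true false b) a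

noncomputable def fr {α : Type} (n : Nat) (f : Nat → α) : α :=
  @Nat.rec (fun _ => α) (f n) (fun k _ => f k) (Nat.add n (nat_lit 1))

noncomputable def gamA : ((x0 : Nat) → Nat) :=
    (fun (x100 : Nat) => (@Nat.rec.{1} (fun (x101 : Nat) => ((x102 : Nat) → Nat)) (fun (x103 : Nat)
    => x103) (fun (x104 : Nat) => (fun (x105 : ((x106 : Nat) → Nat)) => (fun (x107 : Nat) =>
    (x105 (Nat.div (Nat.mul (nat_lit 655360) (Nat.add (nat_lit
    115792089237316195423570985008687907853269984665640564039457584007913129639936) x107))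
    (Nat.add x100 (Nat.mul (nat_lit 4096) (Nat.succ x104)))))))) (nat_lit 460) (nat_lit 0)))

noncomputable def gamOne : ((x0 : Nat) → ((x1 : Nat) → Bool)) :=
    (fun (x100 : Nat) => (fun (x101 : Nat) => (@Bool.rec.{1} (fun (x102 : Bool) => Bool)
    (@Bool.false) (Nat.ble (Nat.succ (Nat.succ x101)) (Nat.mul (Nat.succ x100) (nat_lit
    115792089237316195423570985008687907853269984665640564039457584007913129639935))) (Nat.ble
    (Nat.shiftLeft x100 (nat_lit 256)) x101))))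

noncomputable def gamChkA : ((x0 : Nat) → ((x1 : Nat) → Bool)) :=
    (fun (x100 : Nat) => (fun (x101 : Nat) => (@Nat.rec.{1} (fun (x102 : Nat) => Bool) (@Bool.true)
    (fun (x103 : Nat) => (fun (x104 : Bool) => (@Bool.rec.{1} (fun (x105 : Bool) => Bool)
    (@Bool.false) x104 (@fr Bool (Nat.add (Nat.mul (nat_lit 256) x100) x103) (fun (x106 : Nat) =>
    (@gamOne (Nat.mod (Nat.shiftRight x101 (Nat.mul (nat_lit 240) x103)) (nat_lit
    1766847064778384329583297500742918515827483896875618958121606201292619776)) (@gamA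
    x106))))))) (nat_lit 256))))

noncomputable def Blk_m9 : ((x0 : @K.Blk) → Nat) :=
    (fun (x100 : @K.Blk) => (Nat.add (@K.Blk.m0 x100) (Nat.mul (@K.Blk.st x100) (Nat.sub (@K.Blk.nv
    x100) (nat_lit 1)))))

noncomputable def rpowH : ((x0 : Nat) → ((x1 : Nat) → Nat)) :=
    (fun (x100 : Nat) => (fun (x101 : Nat) => (@Nat.rec.{1} (fun (x102 : Nat) => ((x103 : Nat) →
    Nat)) (fun (x104 : Nat) => x104) (fun (x105 : Nat) => (fun (x106 : ((x107 : Nat) → Nat)) =>
    (fun (x108 : Nat) => (@fr Nat (Nat.succ (Nat.shiftRight (Nat.mul x108 x108) (nat_lit 256)))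
    (fun (x109 : Nat) => (@fr Nat (@Bool.rec.{1} (fun (x110 : Bool) => Nat) x109 (Nat.succ
    (Nat.shiftRight (Nat.mul x109 x100) (nat_lit 32))) (Nat.beq (Nat.mod (Nat.shiftRight x101
    x105) (nat_lit 2)) (@OfNat.ofNat.{0} Nat (nat_lit 1) (@instOfNatNat (nat_lit 1)))))
    x106)))))) (nat_lit 16) (nat_lit
    115792089237316195423570985008687907853269984665640564039457584007913129639936))))

noncomputable def rise : ((x0 : Nat) → ((x1 : Nat) → Nat)) :=
    (fun (x100 : Nat) => (fun (x101 : Nat) => (@Nat.rec.{1} (fun (x102 : Nat) => ((x103 : Nat) →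
    Nat)) (fun (x104 : Nat) => x104) (fun (x105 : Nat) => (fun (x106 : ((x107 : Nat) → Nat)) =>
    (fun (x108 : Nat) => (@fr Nat (Nat.mul x108 (Nat.add x100 (Nat.mul (nat_lit 4096) (Nat.succ
    x105)))) x106)))) x101 (nat_lit 1))))

noncomputable def muH0 : ((x0 : ((x1 : Nat) → Nat)) → ((x2 : Nat) → ((x3 : Nat) → Nat))) :=
    (fun (x100 : ((x101 : Nat) → Nat)) => (fun (x102 : Nat) => (fun (x103 : Nat) => (Nat.succ
    (Nat.div (Nat.mul (Nat.mul (Nat.add (x100 (Nat.mod x103 (nat_lit 4096))) (nat_lit 4)) (@rise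
    (Nat.mod x103 (nat_lit 4096)) (Nat.div x103 (nat_lit 4096)))) x102) (Nat.mul (x100 (nat_lit
    0)) (Nat.pow (nat_lit 655360) (Nat.div x103 (nat_lit 4096)))))))))

noncomputable def muH : ((x0 : ((x1 : Nat) → Nat)) → ((x2 : Nat) → ((x3 : Nat) → Nat))) :=
    (fun (x100 : ((x101 : Nat) → Nat)) => (fun (x102 : Nat) => (fun (x103 : Nat) => (@muH0 x100
    (@rpowH x102 x103) x103))))

noncomputable def mH40 : ((x0 : ((x1 : Nat) → Nat)) → ((x2 : Nat) → ((x3 : Nat) → Nat))) :=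
    (fun (x100 : ((x101 : Nat) → Nat)) => (fun (x102 : Nat) => (fun (x103 : Nat) => (Nat.succ
    (Nat.shiftRight (@muH x100 x102 x103) (nat_lit 216))))))

noncomputable def rpowL : ((x0 : Nat) → ((x1 : Nat) → Nat)) :=
    (fun (x100 : Nat) => (fun (x101 : Nat) => (@Nat.rec.{1} (fun (x102 : Nat) => ((x103 : Nat) →
    Nat)) (fun (x104 : Nat) => x104) (fun (x105 : Nat) => (fun (x106 : ((x107 : Nat) → Nat)) =>
    (fun (x108 : Nat) => (@fr Nat (Nat.shiftRight (Nat.mul x108 x108) (nat_lit 256)) (fun (x109 :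
    Nat) => (@fr Nat (@Bool.rec.{1} (fun (x110 : Bool) => Nat) x109 (Nat.shiftRight (Nat.mul x109
    x100) (nat_lit 32)) (Nat.beq (Nat.mod (Nat.shiftRight x101 x105) (nat_lit 2))
    (@OfNat.ofNat.{0} Nat (nat_lit 1) (@instOfNatNat (nat_lit 1))))) x106)))))) (nat_lit 16)
    (nat_lit 115792089237316195423570985008687907853269984665640564039457584007913129639936))))

noncomputable def muL0 : ((x0 : ((x1 : Nat) → Nat)) → ((x2 : Nat) → ((x3 : Nat) → Nat))) :=
    (fun (x100 : ((x101 : Nat) → Nat)) => (fun (x102 : Nat) => (fun (x103 : Nat) => (Nat.div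
    (Nat.mul (Nat.mul (x100 (Nat.mod x103 (nat_lit 4096))) (@rise (Nat.mod x103 (nat_lit 4096))
    (Nat.div x103 (nat_lit 4096)))) x102) (Nat.mul (Nat.add (x100 (nat_lit 0)) (nat_lit 4))
    (Nat.pow (nat_lit 655360) (Nat.div x103 (nat_lit 4096))))))))

noncomputable def muL : ((x0 : ((x1 : Nat) → Nat)) → ((x2 : Nat) → ((x3 : Nat) → Nat))) :=
    (fun (x100 : ((x101 : Nat) → Nat)) => (fun (x102 : Nat) => (fun (x103 : Nat) => (@muL0 x100
    (@rpowL x102 x103) x103))))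

noncomputable def mL40 : ((x0 : ((x1 : Nat) → Nat)) → ((x2 : Nat) → ((x3 : Nat) → Nat))) :=
    (fun (x100 : ((x101 : Nat) → Nat)) => (fun (x102 : Nat) => (fun (x103 : Nat) => (Nat.shiftRight
    (@muL x100 x102 x103) (nat_lit 216)))))

noncomputable def Blk_dm : ((x0 : @K.Blk) → Nat) :=
    (fun (x100 : @K.Blk) => (Nat.mul (@K.Blk.st x100) (Nat.sub (@K.Blk.nv x100) (nat_lit 1))))

noncomputable def divU : ((x0 : Nat) → ((x1 : Nat) → Nat)) :=
    (fun (x100 : Nat) => (fun (x101 : Nat) => (@Bool.rec.{1} (fun (x102 : Bool) => Nat) (Nat.succ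
    (Nat.div (Nat.shiftLeft x100 (nat_lit 40)) x101)) (nat_lit 1267650600228229401496703205376)
    (Nat.beq x101 (@OfNat.ofNat.{0} Nat (nat_lit 0) (@instOfNatNat (nat_lit 0)))))))

noncomputable def twoL : ((x0 : Nat) → Nat) :=
    (fun (x100 : Nat) => (@Nat.rec.{1} (fun (x101 : Nat) => ((x102 : Nat) → Nat)) (fun (x103 : Nat)
    => (Nat.shiftRight x103 (nat_lit 40))) (fun (x104 : Nat) => (fun (x105 : ((x106 : Nat) →
    Nat)) => (fun (x107 : Nat) => (@fr Nat (Nat.shiftRight (Nat.mul x107 x107) (nat_lit 80)) (fun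
    (x108 : Nat) => (@fr Nat (@Bool.rec.{1} (fun (x109 : Bool) => Nat) x108 (Nat.shiftRight
    (Nat.mul x108 (nat_lit 1208721255985473650526259)) (nat_lit 80)) (Nat.beq (Nat.mod
    (Nat.shiftRight x100 x104) (nat_lit 2)) (@OfNat.ofNat.{0} Nat (nat_lit 1) (@instOfNatNat
    (nat_lit 1))))) x105)))))) (nat_lit 12) (nat_lit 1208925819614629174706176)))

noncomputable def twoH : ((x0 : Nat) → Nat) :=
    (fun (x100 : Nat) => (@Nat.rec.{1} (fun (x101 : Nat) => ((x102 : Nat) → Nat)) (fun (x103 : Nat)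
    => (Nat.succ (Nat.shiftRight x103 (nat_lit 40)))) (fun (x104 : Nat) => (fun (x105 : ((x106 :
    Nat) → Nat)) => (fun (x107 : Nat) => (@fr Nat (Nat.succ (Nat.shiftRight (Nat.mul x107 x107)
    (nat_lit 80))) (fun (x108 : Nat) => (@fr Nat (@Bool.rec.{1} (fun (x109 : Bool) => Nat) x108
    (Nat.succ (Nat.shiftRight (Nat.mul x108 (nat_lit 1208721255985473650526260)) (nat_lit 80)))
    (Nat.beq (Nat.mod (Nat.shiftRight x100 x104) (nat_lit 2)) (@OfNat.ofNat.{0} Nat (nat_lit 1)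
    (@instOfNatNat (nat_lit 1))))) x105)))))) (nat_lit 12) (nat_lit 1208925819614629174706176)))

noncomputable def c3U : ((x0 : Nat) → ((x1 : Nat) → Nat)) :=
    (fun (x100 : Nat) => (fun (x101 : Nat) => ((fun (x102 : Nat) => (fun (x103 : Nat) => (Nat.succ
    (Nat.shiftRight (Nat.mul (Nat.succ (Nat.shiftRight (Nat.mul x103 x103) (nat_lit 40)))
    (Nat.add (Nat.mul (nat_lit 2) (Nat.succ (Nat.shiftRight (Nat.mul (Nat.succ (Nat.shiftRight
    (Nat.mul x102 x102) (nat_lit 40))) (Nat.sub (nat_lit 604731395277) (Nat.div (Nat.mul (Nat.mul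
    (nat_lit 36) x100) (nat_lit 1099511627776)) (nat_lit 409600)))) (nat_lit 40)))) (Nat.mul
    (nat_lit 2) (Nat.succ (Nat.shiftRight (Nat.mul (Nat.succ (Nat.shiftRight (Nat.mul x102
    (Nat.sub x102 (nat_lit 1099511627776))) (nat_lit 40))) (Nat.succ (Nat.add (nat_lit
    406819302278) (Nat.div (Nat.mul (Nat.mul (nat_lit 126) x101) (nat_lit 1099511627776))
    (nat_lit 409600))))) (nat_lit 40)))))) (nat_lit 40))))) (Nat.succ (Nat.div (nat_lit
    4503599627370496) x100)) (Nat.sub (nat_lit 1099511627776) (Nat.div (Nat.mul (Nat.mul (nat_lit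
    227) x100) (nat_lit 1099511627776)) (nat_lit 4096000))))))

noncomputable def nuH : ((x0 : ((x1 : Nat) → Nat)) → ((x2 : Nat) → ((x3 : Nat) → Nat))) :=
    (fun (x100 : ((x101 : Nat) → Nat)) => (fun (x102 : Nat) => (fun (x103 : Nat) => (Nat.mul
    (Nat.sub (Nat.add (@mH40 x100 x102 (Nat.add x103 (nat_lit 128))) (@mH40 x100 x102 (Nat.sub
    x103 (nat_lit 128)))) (Nat.mul (nat_lit 2) (@mL40 x100 x102 x103))) (nat_lit 1024)))))

noncomputable def scalChk : ((x0 : ((x1 : Nat) → Nat)) → ((x2 : @K.Blk) → Bool)) :=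
    (fun (x100 : ((x101 : Nat) → Nat)) => (fun (x102 : @K.Blk) => ((fun (x103 : Nat) => (fun (x104 :
    Nat) => (fun (x105 : Nat) => (fun (x106 : Nat) => ((fun (x107 : Nat) => (@Bool.rec.{1} (fun
    (x108 : Bool) => Bool) (@Bool.false) (Nat.ble (Nat.add (Nat.add (Nat.add (Nat.add (Nat.add
    (@K.Blk.n1 x102) (@K.Blk.n2 x102)) (@K.Blk.n3 x102)) (@K.Blk.n4 x102)) (@K.Blk.n5 x102))
    (@K.Blk.a5 x102)) (@OfNat.ofNat.{0} Nat (nat_lit 1152921504606846976) (@instOfNatNat (nat_lit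
    1152921504606846976)))) (@Bool.rec.{1} (fun (x109 : Bool) => Bool) (@Bool.false) (Nat.ble (mx
    (@mH40 x100 x105 (Nat.mul (nat_lit 3) x103)) (@mH40 x100 x105 (Nat.mul (nat_lit 3) x104)))
    (Nat.mul (nat_lit 6) (@K.Blk.mL x102))) (@Bool.rec.{1} (fun (x110 : Bool) => Bool)
    (@Bool.false) (Nat.ble (@K.Blk.lam x102) (nat_lit 1099511627776)) (@Bool.rec.{1} (fun (x111 :
    Bool) => Bool) (@Bool.false) (Nat.ble (Nat.add (Nat.add (nat_lit 549755813888) (@divU
    (@K.Blk.n1 x102) (Nat.mul (nat_lit 2) (@K.Blk.mL x102)))) (@divU (@K.Blk.m1 x102) (@K.Blk.mL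
    x102))) (@K.Blk.d1g x102)) (@Bool.rec.{1} (fun (x112 : Bool) => Bool) (@Bool.false) (Nat.ble
    (@K.Blk.kl x102) (Nat.div (Nat.shiftLeft (Nat.shiftRight (Nat.mul (nat_lit 2442500725676)
    (@twoL x104)) (nat_lit 40)) (nat_lit 40)) (@K.Blk.mH x102))) (@Bool.rec.{1} (fun (x113 :
    Bool) => Bool) (@Bool.false) (Nat.ble (@divU (Nat.succ (Nat.shiftRight (Nat.mul (nat_lit
    2442500725677) (@twoH x103)) (nat_lit 40))) (@K.Blk.mL x102)) (@K.Blk.kh x102))
    (@Bool.rec.{1} (fun (x114 : Bool) => Bool) (@Bool.false) (Nat.ble (@divU (@c3U x103 x104)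
    (Nat.shiftRight (Nat.shiftLeft (Nat.pow (@K.Blk.mL x102) (nat_lit 3)) (nat_lit 40)) (nat_lit
    120))) (@K.Blk.c3r x102)) (@Bool.rec.{1} (fun (x115 : Bool) => Bool) (@Bool.false) (Nat.ble
    (nat_lit 1) (Nat.shiftRight (Nat.shiftLeft (Nat.pow (@K.Blk.mL x102) (nat_lit 3)) (nat_lit
    40)) (nat_lit 120))) (@Bool.rec.{1} (fun (x116 : Bool) => Bool) (@Bool.false) (Nat.ble
    (Nat.succ (Nat.div (@divU (mx (@mH40 x100 x105 (Nat.mul (nat_lit 11) x103)) (@mH40 x100 x105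
    (Nat.mul (nat_lit 11) x104))) (@K.Blk.mL x102)) (nat_lit 332640))) (@K.Blk.a5 x102))
    (@Bool.rec.{1} (fun (x117 : Bool) => Bool) (@Bool.false) (Nat.ble (@divU (mx (@mH40 x100 x105
    (Nat.mul (nat_lit 5) x103)) (@mH40 x100 x105 (Nat.mul (nat_lit 5) x104))) (@K.Blk.mL x102))
    (@K.Blk.m5r x102)) (@Bool.rec.{1} (fun (x118 : Bool) => Bool) (@Bool.false) (Nat.ble (@divU
    (mx (@mH40 x100 x105 (Nat.mul (nat_lit 2) x103)) (@mH40 x100 x105 (Nat.mul (nat_lit 2)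
    x104))) (@K.Blk.mL x102)) (@K.Blk.m2r x102)) (@Bool.rec.{1} (fun (x119 : Bool) => Bool)
    (@Bool.false) (Nat.ble (@divU (nat_lit 1099511627776) (Nat.sub (nat_lit 1099511627776) x106))
    (@K.Blk.fac x102)) (@Bool.rec.{1} (fun (x120 : Bool) => Bool) (@Bool.false) (Nat.ble
    (Nat.succ x106) (nat_lit 1099511627776)) (@Bool.rec.{1} (fun (x121 : Bool) => Bool)
    (@Bool.false) (Nat.ble (@divU (Nat.mul (nat_lit 2) (@K.Blk.m1 x102)) (@K.Blk.mL x102))
    (@K.Blk.be x102)) (@Bool.rec.{1} (fun (x122 : Bool) => Bool) (@Bool.false) (Nat.ble (@divU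
    (@K.Blk.n1 x102) (@K.Blk.mL x102)) (@K.Blk.nr x102)) (@Bool.rec.{1} (fun (x123 : Bool) =>
    Bool) (@Bool.false) (Nat.ble (mx (@nuH x100 x105 (Nat.mul (nat_lit 5) x103)) (@nuH x100 x105
    (Nat.mul (nat_lit 5) x104))) (@K.Blk.n5 x102)) (@Bool.rec.{1} (fun (x124 : Bool) => Bool)
    (@Bool.false) (Nat.ble (mx (@nuH x100 x105 (Nat.mul (nat_lit 4) x103)) (@nuH x100 x105
    (Nat.mul (nat_lit 4) x104))) (@K.Blk.n4 x102)) (@Bool.rec.{1} (fun (x125 : Bool) => Bool)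
    (@Bool.false) (Nat.ble (mx (@nuH x100 x105 (Nat.mul (nat_lit 3) x103)) (@nuH x100 x105
    (Nat.mul (nat_lit 3) x104))) (@K.Blk.n3 x102)) (@Bool.rec.{1} (fun (x126 : Bool) => Bool)
    (@Bool.false) (Nat.ble (mx (@nuH x100 x105 (Nat.mul (nat_lit 2) x103)) (@nuH x100 x105
    (Nat.mul (nat_lit 2) x104))) (@K.Blk.n2 x102)) (@Bool.rec.{1} (fun (x127 : Bool) => Bool)
    (@Bool.false) (Nat.ble (mx (@nuH x100 x105 x103) (@nuH x100 x105 x104)) (@K.Blk.n1 x102))
    (@Bool.rec.{1} (fun (x128 : Bool) => Bool) (@Bool.false) (@Bool.rec.{1} (fun (x129 : Bool) =>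
    Bool) (Nat.ble (Nat.add (@K.Blk.tauL x102) (@divU x107 (@K.Blk.mL x102))) (nat_lit
    762123384785)) (@Bool.true) (Nat.beq (@K.Blk.tauL x102) (@OfNat.ofNat.{0} Nat (nat_lit 0)
    (@instOfNatNat (nat_lit 0))))) (@Bool.rec.{1} (fun (x130 : Bool) => Bool) (@Bool.false)
    (Nat.ble (Nat.sub (@divU x107 (@K.Blk.mL x102)) (nat_lit 762123384785)) (@K.Blk.tau x102))
    (@Bool.rec.{1} (fun (x131 : Bool) => Bool) (@Bool.false) (Nat.ble (Nat.sub (nat_lit
    762123384786) (Nat.div (Nat.shiftLeft (Nat.mul (Nat.sub (@mL40 x100 x105 x104) (@mH40 x100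
    x105 (Nat.add x104 (nat_lit 16)))) (nat_lit 256)) (nat_lit 40)) (@K.Blk.mH x102)))
    (@K.Blk.tau x102)) (@Bool.rec.{1} (fun (x132 : Bool) => Bool) (@Bool.false) (Nat.ble x107
    (@K.Blk.m1 x102)) (@Bool.rec.{1} (fun (x133 : Bool) => Bool) (@Bool.false) (Nat.ble (@mH40
    x100 x105 x103) (@K.Blk.mH x102)) (@Bool.rec.{1} (fun (x134 : Bool) => Bool) (@Bool.false)
    (Nat.ble (@K.Blk.mL x102) (@mL40 x100 x105 x104)) (@Bool.rec.{1} (fun (x135 : Bool) => Bool)
    (@Bool.false) (Nat.ble (nat_lit 1) (@K.Blk.mL x102)) (@Bool.rec.{1} (fun (x136 : Bool) =>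
    Bool) (@Bool.false) (Nat.ble (@mH40 x100 x105 (Nat.add x104 (nat_lit 16))) (@mL40 x100 x105
    x104)) (@Bool.rec.{1} (fun (x137 : Bool) => Bool) (@Bool.false) (Nat.ble (nat_lit 1) x105)
    (@Bool.rec.{1} (fun (x138 : Bool) => Bool) (@Bool.false) (Nat.ble (nat_lit 1) (@K.Blk.st
    x102)) (@Bool.rec.{1} (fun (x139 : Bool) => Bool) (@Bool.false) (Nat.ble (@OfNat.ofNat.{0}
    Nat (nat_lit 2) (@instOfNatNat (nat_lit 2))) (@K.Blk.nv x102)) (@Bool.rec.{1} (fun (x140 :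
    Bool) => Bool) (@Bool.false) (Nat.ble (Nat.succ x104) (nat_lit 2048)) (Nat.ble
    (@OfNat.ofNat.{0} Nat (nat_lit 128) (@instOfNatNat (nat_lit 128)))
    x103)))))))))))))))))))))))))))))))))) (Nat.mul (Nat.sub (@mH40 x100 x105 (Nat.sub x103
    (nat_lit 16))) (@mL40 x100 x105 x103)) (nat_lit 256))))))) (@K.Blk.m0 x102) (@Blk_m9 x102)
    (@K.Blk.R x102) (Nat.add (Nat.succ (Nat.shiftRight (Nat.mul (@K.Blk.be x102) (Nat.shiftLeft
    (@Blk_dm x102) (nat_lit 27))) (nat_lit 40))) (Nat.succ (Nat.shiftRight (Nat.mul (@K.Blk.nr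
    x102) (Nat.shiftLeft (Nat.mul (@Blk_dm x102) (@Blk_dm x102)) (nat_lit 13))) (nat_lit
    40)))))))

noncomputable def Blk_qv : ((x0 : @K.Blk) → ((x1 : Nat) → Nat)) :=
    (fun (x100 : @K.Blk) => (fun (x101 : Nat) => (Nat.add (@K.Blk.m0 x100) (Nat.mul (@K.Blk.st x100)
    x101))))

noncomputable def nth : ((x0 : (@List.{0} Nat)) → ((x1 : Nat) → Nat)) :=
    (fun (x100 : (@List.{0} Nat)) => (fun (x101 : Nat) => (@List.rec.{1,0} Nat (fun (x102 :
    (@List.{0} Nat)) => ((x103 : Nat) → Nat)) (fun (x104 : Nat) => (nat_lit 0)) (fun (x105 : Nat)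
    => (fun (x106 : (@List.{0} Nat)) => (fun (x107 : ((x108 : Nat) → Nat)) => (fun (x109 : Nat)
    => (@Nat.rec.{1} (fun (x110 : Nat) => Nat) x105 (fun (x111 : Nat) => (fun (x112 : Nat) =>
    (x107 x111))) x109))))) x100 x101)))

noncomputable def bandOf : ((x0 : Nat) → Nat) :=
    (fun (x100 : Nat) => (@Bool.rec.{1} (fun (x101 : Bool) => Nat) (@Bool.rec.{1} (fun (x102 : Bool)
    => Nat) (@Bool.rec.{1} (fun (x103 : Bool) => Nat) (nat_lit 5) (nat_lit 4) (Nat.ble (Nat.succ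
    x100) (nat_lit 1125899906842624))) (nat_lit 3) (Nat.ble (Nat.succ x100) (nat_lit
    281474976710656))) (@Bool.rec.{1} (fun (x104 : Bool) => Nat) (@Bool.rec.{1} (fun (x105 :
    Bool) => Nat) (nat_lit 2) (nat_lit 1) (Nat.ble (Nat.succ x100) (nat_lit 17592186044416)))
    (nat_lit 0) (Nat.ble (Nat.succ x100) (nat_lit 4398046511104))) (Nat.ble (Nat.succ x100)
    (nat_lit 70368744177664))))

noncomputable def vidx : ((x0 : Nat) → Nat) :=
    (fun (x100 : Nat) => ((fun (x101 : Nat) => (Nat.sub (Nat.add (Nat.shiftRight x100 (Nat.add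
    (nat_lit 39) x101)) (Nat.shiftLeft (nat_lit 4) x101)) (nat_lit 4))) (@bandOf x100)))

noncomputable def bandA : ((x0 : Nat) → Nat) :=
    (fun (x100 : Nat) => (@Bool.rec.{1} (fun (x101 : Bool) => Nat) (Nat.shiftLeft (nat_lit 2) x100)
    (nat_lit 0) (Nat.beq x100 (@OfNat.ofNat.{0} Nat (nat_lit 0) (@instOfNatNat (nat_lit 0))))))

noncomputable def bandI : ((x0 : Nat) → Nat) :=
    (fun (x100 : Nat) => (Nat.sub (Nat.add (@bandA x100) (Nat.shiftLeft (nat_lit 4) x100)) (nat_lit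
    4)))

noncomputable def bandC : ((x0 : Nat) → ((x1 : Nat) → Nat)) :=
    (fun (x100 : Nat) => (fun (x101 : Nat) => (mn (Nat.sub x100 (@bandI x101)) (Nat.sub
    (Nat.shiftLeft (nat_lit 8) x101) (@bandA x101)))))

noncomputable def drp : ((x0 : (@List.{0} Nat)) → ((x1 : Nat) → (@List.{0} Nat))) :=
    (fun (x100 : (@List.{0} Nat)) => (fun (x101 : Nat) => (@Nat.rec.{1} (fun (x102 : Nat) => ((x103
    : (@List.{0} Nat)) → (@List.{0} Nat))) (fun (x104 : (@List.{0} Nat)) => x104) (fun (x105 :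
    Nat) => (fun (x106 : ((x107 : (@List.{0} Nat)) → (@List.{0} Nat))) => (fun (x108 : (@List.{0}
    Nat)) => (@List.rec.{1,0} Nat (fun (x109 : (@List.{0} Nat)) => (@List.{0} Nat))
    (@List.nil.{0} Nat) (fun (x110 : Nat) => (fun (x111 : (@List.{0} Nat)) => (fun (x112 :
    (@List.{0} Nat)) => (x106 x111)))) x108)))) x101 x100)))

noncomputable def hornM : ((x0 : (@List.{0} Nat)) → ((x1 : Bool) → ((x2 : Nat) → ((x3 : Nat) → Nat)))) :=
    (fun (x100 : (@List.{0} Nat)) => (fun (x101 : Bool) => (fun (x102 : Nat) => (fun (x103 : Nat) =>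
    (@List.rec.{1,0} Nat (fun (x104 : (@List.{0} Nat)) => ((x105 : Bool) → ((x106 : Nat) → Nat)))
    (fun (x107 : Bool) => (fun (x108 : Nat) => x108)) (fun (x109 : Nat) => (fun (x110 :
    (@List.{0} Nat)) => (fun (x111 : ((x112 : Bool) → ((x113 : Nat) → Nat))) => (fun (x114 :
    Bool) => (fun (x115 : Nat) => (@Bool.rec.{1} (fun (x116 : Bool) => Nat) (x111 (@Bool.true)
    (Nat.land (Nat.add (Nat.mul x115 x102) x109) (Nat.sub x103 (nat_lit 1)))) (x111 (@Bool.false)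
    (Nat.land (Nat.add (Nat.mul x115 x102) (Nat.sub x103 x109)) (Nat.sub x103 (nat_lit 1))))
    x114)))))) x100 x101 (nat_lit 0))))))

noncomputable def vrecM : ((x0 : (@List.{0} Nat)) → ((x1 : Bool) → ((x2 : Nat) → ((x3 : Nat) → ((x4 : Nat) → Nat))))) :=
    (fun (x100 : (@List.{0} Nat)) => (fun (x101 : Bool) => (fun (x102 : Nat) => (fun (x103 : Nat) =>
    (fun (x104 : Nat) => ((fun (x105 : Nat) => ((fun (x106 : Nat) => (fun (x107 : Nat) => (fun
    (x108 : Nat) => (fun (x109 : Nat) => (fun (x110 : Nat) => (@Bool.rec.{1} (fun (x111 : Bool)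
    => Nat) (nat_lit 0) (Nat.add (Nat.add (Nat.add (Nat.add x106 (Nat.shiftLeft x107 (nat_lit
    48))) (Nat.shiftLeft x108 (nat_lit 96))) (Nat.shiftLeft x109 (nat_lit 144))) (Nat.shiftLeft
    x110 (nat_lit 192))) (@Bool.rec.{1} (fun (x112 : Bool) => Bool) (@Bool.false) (@Bool.rec.{1}
    (fun (x113 : Bool) => Bool) (@Bool.false) (Nat.ble (Nat.succ x110) (nat_lit 281474976710656))
    (Nat.ble (nat_lit 1) x110)) (@Bool.rec.{1} (fun (x114 : Bool) => Bool) (@Bool.false)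
    (@Bool.rec.{1} (fun (x115 : Bool) => Bool) (@Bool.false) (Nat.ble (Nat.succ x109) (nat_lit
    281474976710656)) (Nat.ble (nat_lit 1) x109)) (@Bool.rec.{1} (fun (x116 : Bool) => Bool)
    (@Bool.false) (@Bool.rec.{1} (fun (x117 : Bool) => Bool) (@Bool.false) (Nat.ble (Nat.succ
    x108) (nat_lit 281474976710656)) (Nat.ble (nat_lit 1) x108)) (@Bool.rec.{1} (fun (x118 :
    Bool) => Bool) (@Bool.false) (@Bool.rec.{1} (fun (x119 : Bool) => Bool) (@Bool.false)
    (Nat.ble (Nat.succ x107) (nat_lit 281474976710656)) (Nat.ble (nat_lit 1) x107))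
    (@Bool.rec.{1} (fun (x120 : Bool) => Bool) (@Bool.false) (Nat.ble (Nat.succ x106) (nat_lit
    281474976710656)) (Nat.ble (nat_lit 1) x106)))))))))))) (Nat.sub (Nat.add (Nat.shiftRight
    (Nat.mod (Nat.shiftRight x105 (Nat.mul x103 (nat_lit 0))) (Nat.shiftLeft (nat_lit 1) x103))
    (Nat.sub x102 (nat_lit 40))) (nat_lit 140737488355328)) (Nat.shiftLeft (nat_lit 1) (Nat.sub
    (Nat.sub x103 (nat_lit 1)) (Nat.sub x102 (nat_lit 40))))) (Nat.sub (Nat.add (Nat.shiftRight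
    (Nat.mod (Nat.shiftRight x105 (Nat.mul x103 (nat_lit 1))) (Nat.shiftLeft (nat_lit 1) x103))
    (Nat.sub x102 (nat_lit 42))) (nat_lit 140737488355328)) (Nat.shiftLeft (nat_lit 1) (Nat.sub
    (Nat.sub x103 (nat_lit 1)) (Nat.sub x102 (nat_lit 42))))) (Nat.sub (Nat.add (Nat.shiftRight
    (Nat.mod (Nat.shiftRight x105 (Nat.mul x103 (nat_lit 2))) (Nat.shiftLeft (nat_lit 1) x103))
    (Nat.sub x102 (nat_lit 44))) (nat_lit 140737488355328)) (Nat.shiftLeft (nat_lit 1) (Nat.sub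
    (Nat.sub x103 (nat_lit 1)) (Nat.sub x102 (nat_lit 44))))) (Nat.sub (Nat.add (Nat.shiftRight
    (Nat.mod (Nat.shiftRight x105 (Nat.mul x103 (nat_lit 3))) (Nat.shiftLeft (nat_lit 1) x103))
    (Nat.sub x102 (nat_lit 46))) (nat_lit 140737488355328)) (Nat.shiftLeft (nat_lit 1) (Nat.sub
    (Nat.sub x103 (nat_lit 1)) (Nat.sub x102 (nat_lit 46))))) (Nat.sub (Nat.add (Nat.shiftRight
    (Nat.mod (Nat.shiftRight x105 (Nat.mul x103 (nat_lit 4))) (Nat.shiftLeft (nat_lit 1) x103))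
    (Nat.sub x102 (nat_lit 48))) (nat_lit 140737488355328)) (Nat.shiftLeft (nat_lit 1) (Nat.sub
    (Nat.sub x103 (nat_lit 1)) (Nat.sub x102 (nat_lit 48))))))) (Nat.add (@hornM x100 x101
    (Nat.add x104 (Nat.shiftLeft (nat_lit 1) x103)) (Nat.shiftLeft (nat_lit 1) (Nat.mul (nat_lit
    5) x103))) (Nat.add (Nat.add (Nat.add (Nat.add (Nat.shiftLeft (nat_lit 1) (Nat.sub x103
    (nat_lit 1))) (Nat.shiftLeft (nat_lit 1) (Nat.sub (Nat.mul (nat_lit 2) x103) (nat_lit 1))))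
    (Nat.shiftLeft (nat_lit 1) (Nat.sub (Nat.mul (nat_lit 3) x103) (nat_lit 1)))) (Nat.shiftLeft
    (nat_lit 1) (Nat.sub (Nat.mul (nat_lit 4) x103) (nat_lit 1)))) (Nat.shiftLeft (nat_lit 1)
    (Nat.sub (Nat.mul (nat_lit 5) x103) (nat_lit 1)))))))))))

noncomputable def hornN : ((x0 : Sort 1) → ((x1 : (@List.{0} Nat)) → ((x2 : Nat) → ((x3 : Nat) → ((x4 : ((x5 : Nat) → ((x6
    : Nat) → ((x7 : Nat) → ((x8 : Nat) → ((x9 : Nat) → x0)))))) → x0))))) :=
    (fun (x100 : Sort 1) => (fun (x101 : (@List.{0} Nat)) => (fun (x102 : Nat) => (fun (x103 : Nat)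
    => (fun (x104 : ((x105 : Nat) → ((x106 : Nat) → ((x107 : Nat) → ((x108 : Nat) → ((x109 : Nat)
    → x100)))))) => (@List.rec.{1,0} Nat (fun (x110 : (@List.{0} Nat)) => ((x111 : Nat) → ((x112
    : Nat) → ((x113 : Nat) → ((x114 : Nat) → ((x115 : Nat) → x100)))))) x104 (fun (x116 : Nat) =>
    (fun (x117 : (@List.{0} Nat)) => (fun (x118 : ((x119 : Nat) → ((x120 : Nat) → ((x121 : Nat) →
    ((x122 : Nat) → ((x123 : Nat) → x100)))))) => (fun (x124 : Nat) => (fun (x125 : Nat) => (fun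
    (x126 : Nat) => (fun (x127 : Nat) => (fun (x128 : Nat) => (x118 (Nat.add (Nat.mul x124 x103)
    x116) (Nat.add (Nat.mul x125 x103) x124) (Nat.add (Nat.mul x126 x103) x125) (Nat.add (Nat.mul
    x127 x103) x126) (Nat.add (Nat.mul x128 x103) x127)))))))))) x101 x102 (nat_lit 0) (nat_lit
    0) (nat_lit 0) (nat_lit 0)))))))

noncomputable def vbandM : ((x0 : (@List.{0} Nat)) → ((x1 : (@List.{0} Nat)) → ((x2 : Nat) → ((x3 : Nat) → ((x4 : Nat) →
    ((x5 : Nat) → ((x6 : Nat) → ((x7 : Nat) → Bool)))))))) :=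
    (fun (x100 : (@List.{0} Nat)) => (fun (x101 : (@List.{0} Nat)) => (fun (x102 : Nat) => (fun
    (x103 : Nat) => (fun (x104 : Nat) => (fun (x105 : Nat) => (fun (x106 : Nat) => (fun (x107 :
    Nat) => (@Bool.rec.{1} (fun (x108 : Bool) => Bool) (@Bool.false) (@hornN Bool (@drp x100
    (Nat.sub (Nat.sub x102 x107) (nat_lit 1))) (nat_lit 0) (Nat.shiftLeft (Nat.mul (nat_lit 2)
    (Nat.add (@bandA x105) x106)) x105) (fun (x109 : Nat) => (fun (x110 : Nat) => (fun (x111 :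
    Nat) => (fun (x112 : Nat) => (fun (x113 : Nat) => (@fr Bool (Nat.add (Nat.log2 (Nat.add
    (Nat.add (Nat.add (Nat.add (Nat.add x109 x110) x111) x112) x113) (Nat.shiftLeft (nat_lit 1)
    x103))) (nat_lit 2)) (fun (x114 : Nat) => (@Nat.rec.{1} (fun (x115 : Nat) => Bool)
    (@Bool.true) (fun (x116 : Nat) => (fun (x117 : Bool) => (@Bool.rec.{1} (fun (x118 : Bool) =>
    Bool) (@Bool.false) x117 ((fun (x119 : Nat) => (@Bool.rec.{1} (fun (x120 : Bool) => Bool)
    (@Bool.false) (Nat.beq (Nat.mod (Nat.shiftRight x104 (Nat.mul (nat_lit 240) (Nat.add (@bandI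
    x105) x116))) (nat_lit
    1766847064778384329583297500742918515827483896875618958121606201292619776)) x119) (Nat.ble
    (nat_lit 1) x119))) (@vrecM (@drp x100 (Nat.sub (Nat.sub x102 x107) (nat_lit 1))) (Nat.beq
    (Nat.mod x107 (nat_lit 2)) (@OfNat.ofNat.{0} Nat (nat_lit 1) (@instOfNatNat (nat_lit 1))))
    x103 x114 (Nat.shiftLeft (Nat.succ (Nat.mul (nat_lit 2) (Nat.add (@bandA x105) x116)))
    x105)))))) x106))))))))) (@Bool.rec.{1} (fun (x121 : Bool) => Bool) (@Bool.false) (@hornN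
    Bool (@drp x101 (Nat.sub (Nat.sub x102 x107) (nat_lit 1))) (Nat.add (@nth x100 (Nat.sub
    (Nat.sub x102 x107) (nat_lit 2))) (@nth x101 (Nat.sub (Nat.sub x102 x107) (nat_lit 2))))
    (Nat.shiftLeft (Nat.mul (nat_lit 2) (Nat.add (@bandA x105) x106)) x105) (fun (x122 : Nat) =>
    (fun (x123 : Nat) => (fun (x124 : Nat) => (fun (x125 : Nat) => (fun (x126 : Nat) =>
    (@Bool.rec.{1} (fun (x127 : Bool) => Bool) (@Bool.false) (Nat.ble x126 (Nat.shiftLeft
    (nat_lit 1) (Nat.sub x103 (nat_lit 48)))) (@Bool.rec.{1} (fun (x128 : Bool) => Bool)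
    (@Bool.false) (Nat.ble x125 (Nat.shiftLeft (nat_lit 1) (Nat.sub x103 (nat_lit 46))))
    (@Bool.rec.{1} (fun (x129 : Bool) => Bool) (@Bool.false) (Nat.ble x124 (Nat.shiftLeft
    (nat_lit 1) (Nat.sub x103 (nat_lit 44)))) (@Bool.rec.{1} (fun (x130 : Bool) => Bool)
    (@Bool.false) (Nat.ble x123 (Nat.shiftLeft (nat_lit 1) (Nat.sub x103 (nat_lit 42)))) (Nat.ble
    x122 (Nat.shiftLeft (nat_lit 1) (Nat.sub x103 (nat_lit 40)))))))))))))) (@Bool.rec.{1} (fun
    (x131 : Bool) => Bool) (@Bool.false) (Nat.ble (Nat.add (@bandA x105) x106) (Nat.shiftLeft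
    (nat_lit 8) x105)) (@Bool.rec.{1} (fun (x132 : Bool) => Bool) (@Bool.false) (Nat.ble
    (@OfNat.ofNat.{0} Nat (nat_lit 4) (@instOfNatNat (nat_lit 4))) x107) (Nat.ble (Nat.add x107
    (nat_lit 2)) x102)))))))))))))

noncomputable def coefs : ((x0 : ((x1 : Nat) → Nat)) → ((x2 : Nat) → ((x3 : Nat) → ((x4 : Nat) → ((x5 : Nat) →
    (@Prod.{0,0} (@List.{0} Nat) (@List.{0} Nat))))))) :=
    (fun (x100 : ((x101 : Nat) → Nat)) => (fun (x102 : Nat) => (fun (x103 : Nat) => (fun (x104 :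
    Nat) => (fun (x105 : Nat) => (@fr (@Prod.{0,0} (@List.{0} Nat) (@List.{0} Nat)) (@rpowL x102
    (Nat.mul (nat_lit 2) x103)) (fun (x106 : Nat) => (@fr (@Prod.{0,0} (@List.{0} Nat) (@List.{0}
    Nat)) (@rpowH x102 (Nat.mul (nat_lit 2) x103)) (fun (x107 : Nat) => (@fr (@Prod.{0,0}
    (@List.{0} Nat) (@List.{0} Nat)) (@muL x100 x102 x103) (fun (x108 : Nat) => (@fr (@Prod.{0,0}
    (@List.{0} Nat) (@List.{0} Nat)) (@muH x100 x102 x103) (fun (x109 : Nat) => (@Nat.rec.{1}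
    (fun (x110 : Nat) => ((x111 : Nat) → ((x112 : Nat) → ((x113 : Nat) → ((x114 : Nat) → ((x115 :
    (@List.{0} Nat)) → ((x116 : (@List.{0} Nat)) → (@Prod.{0,0} (@List.{0} Nat) (@List.{0}
    Nat))))))))) (fun (x117 : Nat) => (fun (x118 : Nat) => (fun (x119 : Nat) => (fun (x120 : Nat)
    => (fun (x121 : (@List.{0} Nat)) => (fun (x122 : (@List.{0} Nat)) => (@Prod.mk.{0,0}
    (@List.{0} Nat) (@List.{0} Nat) x121 x122))))))) (fun (x123 : Nat) => (fun (x124 : ((x125 :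
    Nat) → ((x126 : Nat) → ((x127 : Nat) → ((x128 : Nat) → ((x129 : (@List.{0} Nat)) → ((x130 :
    (@List.{0} Nat)) → (@Prod.{0,0} (@List.{0} Nat) (@List.{0} Nat))))))))) => (fun (x131 : Nat)
    => (fun (x132 : Nat) => (fun (x133 : Nat) => (fun (x134 : Nat) => (fun (x135 : (@List.{0}
    Nat)) => (fun (x136 : (@List.{0} Nat)) => (@fr (@Prod.{0,0} (@List.{0} Nat) (@List.{0} Nat))
    (Nat.div (Nat.shiftLeft (@muL0 x100 x132 (Nat.mul (Nat.succ (Nat.mul (nat_lit 2) x131))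
    x103)) x104) (Nat.mul x109 x134)) (fun (x137 : Nat) => (@fr (@Prod.{0,0} (@List.{0} Nat)
    (@List.{0} Nat)) (Nat.sub (Nat.succ (Nat.div (Nat.shiftLeft (@muH0 x100 x133 (Nat.mul
    (Nat.succ (Nat.mul (nat_lit 2) x131)) x103)) x104) (Nat.mul x108 x134))) x137) (fun (x138 :
    Nat) => (@fr (@Prod.{0,0} (@List.{0} Nat) (@List.{0} Nat)) (Nat.succ x131) (fun (x139 : Nat)
    => (@fr (@Prod.{0,0} (@List.{0} Nat) (@List.{0} Nat)) (Nat.shiftRight (Nat.mul x132 x106)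
    (nat_lit 256)) (fun (x140 : Nat) => (@fr (@Prod.{0,0} (@List.{0} Nat) (@List.{0} Nat))
    (Nat.succ (Nat.shiftRight (Nat.mul x133 x107) (nat_lit 256))) (fun (x141 : Nat) => (@fr
    (@Prod.{0,0} (@List.{0} Nat) (@List.{0} Nat)) (Nat.mul x134 (Nat.mul (Nat.mul (nat_lit 4)
    (Nat.add (Nat.mul (nat_lit 2) x131) (nat_lit 2))) (Nat.add (Nat.mul (nat_lit 2) x131)
    (nat_lit 3)))) (fun (x142 : Nat) => (x124 x139 x140 x141 x142 (@List.cons.{0} Nat x137 x135)
    (@List.cons.{0} Nat x138 x136)))))))))))))))))))))) x105 (nat_lit 0) (@rpowL x102 x103)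
    (@rpowH x102 x103) (nat_lit 1) (@List.nil.{0} Nat) (@List.nil.{0} Nat)))))))))))))))

noncomputable def vchkM : ((x0 : ((x1 : Nat) → Nat)) → ((x2 : Nat) → ((x3 : Nat) → ((x4 : Nat) → ((x5 : Nat) → ((x6 : Nat)
    → ((x7 : Nat) → ((x8 : (@List.{0} Nat)) → Bool)))))))) :=
    (fun (x100 : ((x101 : Nat) → Nat)) => (fun (x102 : Nat) => (fun (x103 : Nat) => (fun (x104 :
    Nat) => (fun (x105 : Nat) => (fun (x106 : Nat) => (fun (x107 : Nat) => (fun (x108 :
    (@List.{0} Nat)) => (@fr Bool (Nat.succ (@vidx (Nat.sub x106 (nat_lit 1)))) (fun (x109 : Nat)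
    => (@Bool.rec.{1} (fun (x110 : Bool) => Bool) (@Bool.false) (@Prod.rec.{1,0,0} (@List.{0}
    Nat) (@List.{0} Nat) (fun (x111 : (@Prod.{0,0} (@List.{0} Nat) (@List.{0} Nat))) => Bool)
    (fun (x112 : (@List.{0} Nat)) => (fun (x113 : (@List.{0} Nat)) => (@Nat.rec.{1} (fun (x114 :
    Nat) => Bool) (@Bool.true) (fun (x115 : Nat) => (fun (x116 : Bool) => (@Bool.rec.{1} (fun
    (x117 : Bool) => Bool) (@Bool.false) x116 (@Bool.rec.{1} (fun (x118 : Bool) => Bool) (@vbandM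
    x112 x113 x105 x104 x107 x115 (@bandC x109 x115) (@nth x108 x115)) (@Bool.true) (Nat.beq
    (@bandC x109 x115) (@OfNat.ofNat.{0} Nat (nat_lit 0) (@instOfNatNat (nat_lit 0))))))))
    (nat_lit 6)))) (@coefs x100 x102 x103 x104 x105)) (@Bool.rec.{1} (fun (x119 : Bool) => Bool)
    (@Bool.false) (Nat.ble (nat_lit 1) (@muL x100 x102 x103)) (@Bool.rec.{1} (fun (x120 : Bool)
    => Bool) (@Bool.false) (Nat.ble (nat_lit 1) x102) (@Bool.rec.{1} (fun (x121 : Bool) => Bool)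
    (@Bool.false) (Nat.ble (Nat.succ x103) (nat_lit 2048)) (@Bool.rec.{1} (fun (x122 : Bool) =>
    Bool) (@Bool.false) (Nat.ble (nat_lit 1) x103) (@Bool.rec.{1} (fun (x123 : Bool) => Bool)
    (@Bool.false) (Nat.ble x109 (@OfNat.ofNat.{0} Nat (nat_lit 380) (@instOfNatNat (nat_lit
    380)))) (@Bool.rec.{1} (fun (x124 : Bool) => Bool) (@Bool.false) (Nat.ble (@OfNat.ofNat.{0}
    Nat (nat_lit 48) (@instOfNatNat (nat_lit 48))) x104) (Nat.ble x106 (@OfNat.ofNat.{0} Nat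
    (nat_lit 4503599627370496) (@instOfNatNat (nat_lit 4503599627370496)))))))))))))))))))))

noncomputable def Cert_vt : ((x0 : ((x1 : Nat) → Nat)) → ((x2 : @K.Cert) → ((x3 : Nat) → ((x4 : Nat) → Bool)))) :=
    (fun (x100 : ((x101 : Nat) → Nat)) => (fun (x102 : @K.Cert) => (fun (x103 : Nat) => (fun (x104 :
    Nat) => (@Nat.rec.{1} (fun (x105 : Nat) => Bool) (@Bool.true) (fun (x106 : Nat) => (fun (x107
    : Bool) => (@Bool.rec.{1} (fun (x108 : Bool) => Bool) (@Bool.false) x107 (@fr Bool (Nat.add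
    x103 x106) (fun (x109 : Nat) => (@vchkM x100 (@K.Blk.R (@K.Cert.B x102)) (@Blk_qv (@K.Cert.B
    x102) x109) (@Prod.fst.{0,0} Nat (@Prod.{0,0} Nat (@List.{0} Nat)) (@K.Cert.vp x102 x109))
    (@Prod.fst.{0,0} Nat (@List.{0} Nat) (@Prod.snd.{0,0} Nat (@Prod.{0,0} Nat (@List.{0} Nat))
    (@K.Cert.vp x102 x109))) (@Bool.rec.{1} (fun (x110 : Bool) => Nat) (@K.Blk.Yp (@K.Cert.B
    x102)) (@K.Blk.Yc (@K.Cert.B x102)) (@Bool.rec.{1} (fun (x111 : Bool) => Bool) (Nat.beq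
    (Nat.succ x109) (@K.Blk.nv (@K.Cert.B x102))) (@Bool.true) (Nat.beq x109 (@OfNat.ofNat.{0}
    Nat (nat_lit 0) (@instOfNatNat (nat_lit 0)))))) (@nth (@K.Cert.VL x102) x109)
    (@Prod.snd.{0,0} Nat (@List.{0} Nat) (@Prod.snd.{0,0} Nat (@Prod.{0,0} Nat (@List.{0} Nat))
    (@K.Cert.vp x102 x109))))))))) x104)))))

noncomputable def vget : ((x0 : (@List.{0} Nat)) → ((x1 : Nat) → ((x2 : Nat) → Nat))) :=
    (fun (x100 : (@List.{0} Nat)) => (fun (x101 : Nat) => (fun (x102 : Nat) => (Nat.mod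
    (Nat.shiftRight (@nth x100 x101) (Nat.mul (nat_lit 240) x102)) (nat_lit
    1766847064778384329583297500742918515827483896875618958121606201292619776)))))

noncomputable def Cert_Va : ((x0 : @K.Cert) → ((x1 : Nat) → Nat)) :=
    (fun (x100 : @K.Cert) => (@vget (@K.Cert.VL x100) (nat_lit 0)))

noncomputable def Cert_Vb : ((x0 : @K.Cert) → ((x1 : Nat) → Nat)) :=
    (fun (x100 : @K.Cert) => (@fr ((x101 : Nat) → Nat) (Nat.sub (@K.Blk.nv (@K.Cert.B x100))
    (nat_lit 1)) (@vget (@K.Cert.VL x100))))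

noncomputable def tget : ((x0 : Nat) → ((x1 : Nat) → ((x2 : Nat) → Nat))) :=
    (fun (x100 : Nat) => (fun (x101 : Nat) => (fun (x102 : Nat) => (Nat.mod (Nat.shiftRight x100
    (Nat.mul x101 x102)) (Nat.shiftLeft (nat_lit 1) x101)))))

noncomputable def Cert_Ef : ((x0 : @K.Cert) → ((x1 : Nat) → Nat)) :=
    (fun (x100 : @K.Cert) => (@tget (@K.Cert.E x100) (nat_lit 48)))

noncomputable def vctr : ((x0 : Nat) → Nat) :=
    (fun (x100 : Nat) => ((fun (x101 : Nat) => (Nat.shiftLeft (Nat.succ (Nat.mul (nat_lit 2)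
    (Nat.shiftRight x100 (Nat.add (nat_lit 39) x101)))) (Nat.add (nat_lit 38) x101))) (@bandOf
    x100)))

noncomputable def vhw : ((x0 : Nat) → Nat) :=
    (fun (x100 : Nat) => (Nat.shiftLeft (nat_lit 1) (Nat.add (nat_lit 38) (@bandOf x100))))

noncomputable def b5 : ((x0 : @K.Blk) → ((x1 : Nat) → Nat)) :=
    (fun (x100 : @K.Blk) => (fun (x101 : Nat) => (mn (@K.Blk.a5 x100) (@divU (@K.Blk.m5r x100)
    (Nat.mul (nat_lit 4) (Nat.shiftRight (Nat.shiftLeft (Nat.pow x101 (nat_lit 3)) (nat_lit 40))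
    (nat_lit 120)))))))

noncomputable def rem0 : ((x0 : Nat) → ((x1 : Nat) → Nat)) :=
    (fun (x100 : Nat) => (fun (x101 : Nat) => (Nat.add (Nat.succ (Nat.div (Nat.succ (Nat.shiftRight
    (Nat.mul x100 (Nat.succ (Nat.shiftRight (Nat.shiftLeft (Nat.pow x101 (nat_lit 5)) (nat_lit
    40)) (nat_lit 200)))) (nat_lit 40))) (nat_lit 120))) (Nat.succ (Nat.shiftRight (Nat.mul
    (nat_lit 2) (Nat.add (Nat.add (Nat.add (Nat.add (nat_lit 1099511627776) x101) (Nat.succ
    (Nat.shiftRight (Nat.shiftLeft (Nat.pow x101 (nat_lit 2)) (nat_lit 40)) (nat_lit 80))))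
    (Nat.succ (Nat.shiftRight (Nat.shiftLeft (Nat.pow x101 (nat_lit 3)) (nat_lit 40)) (nat_lit
    120)))) (Nat.succ (Nat.shiftRight (Nat.shiftLeft (Nat.pow x101 (nat_lit 4)) (nat_lit 40))
    (nat_lit 160))))) (nat_lit 40))))))

noncomputable def rem1 : ((x0 : Nat) → ((x1 : Nat) → Nat)) :=
    (fun (x100 : Nat) => (fun (x101 : Nat) => (Nat.add (Nat.succ (Nat.div (Nat.succ (Nat.shiftRight
    (Nat.mul x100 (Nat.succ (Nat.shiftRight (Nat.shiftLeft (Nat.pow x101 (nat_lit 4)) (nat_lit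
    40)) (nat_lit 160)))) (nat_lit 40))) (nat_lit 24))) (Nat.succ (Nat.shiftRight (Nat.mul
    (nat_lit 2) (Nat.add (Nat.add (Nat.add (nat_lit 1099511627776) (Nat.mul (nat_lit 2) x101))
    (Nat.mul (nat_lit 3) (Nat.succ (Nat.shiftRight (Nat.shiftLeft (Nat.pow x101 (nat_lit 2))
    (nat_lit 40)) (nat_lit 80))))) (Nat.mul (nat_lit 4) (Nat.succ (Nat.shiftRight (Nat.shiftLeft
    (Nat.pow x101 (nat_lit 3)) (nat_lit 40)) (nat_lit 120)))))) (nat_lit 40))))))

noncomputable def rem2 : ((x0 : Nat) → ((x1 : Nat) → Nat)) :=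
    (fun (x100 : Nat) => (fun (x101 : Nat) => (Nat.add (Nat.succ (Nat.div (Nat.succ (Nat.shiftRight
    (Nat.mul x100 (Nat.succ (Nat.shiftRight (Nat.shiftLeft (Nat.pow x101 (nat_lit 3)) (nat_lit
    40)) (nat_lit 120)))) (nat_lit 40))) (nat_lit 6))) (Nat.succ (Nat.shiftRight (Nat.mul
    (nat_lit 2) (Nat.add (Nat.add (nat_lit 2199023255552) (Nat.mul (nat_lit 6) x101)) (Nat.mul
    (nat_lit 12) (Nat.succ (Nat.shiftRight (Nat.shiftLeft (Nat.pow x101 (nat_lit 2)) (nat_lit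
    40)) (nat_lit 80)))))) (nat_lit 40))))))

noncomputable def dist : ((x0 : Nat) → ((x1 : Nat) → Nat)) :=
    (fun (x100 : Nat) => (fun (x101 : Nat) => (Nat.add (Nat.sub x100 x101) (Nat.sub x101 x100))))

noncomputable def isq : ((x0 : Nat) → Nat) :=
    (fun (x100 : Nat) => (@Nat.rec.{1} (fun (x101 : Nat) => ((x102 : Nat) → Nat)) (fun (x103 : Nat)
    => x103) (fun (x104 : Nat) => (fun (x105 : ((x106 : Nat) → Nat)) => (fun (x107 : Nat) => (@fr
    Nat (Nat.div (Nat.add x107 (Nat.div x100 x107)) (nat_lit 2)) x105)))) (nat_lit 7)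
    (Nat.shiftLeft (nat_lit 1) (Nat.succ (Nat.div (Nat.log2 x100) (nat_lit 2))))))

noncomputable def isqL : ((x0 : Nat) → Nat) :=
    (fun (x100 : Nat) => ((fun (x101 : Nat) => (@Bool.rec.{1} (fun (x102 : Bool) => Nat) (Nat.sub
    x101 (nat_lit 1)) x101 (Nat.ble (Nat.mul x101 x101) x100))) (@isq x100)))

noncomputable def sqrtL : ((x0 : Nat) → Nat) :=
    (fun (x100 : Nat) => ((fun (x101 : Nat) => (@Bool.rec.{1} (fun (x102 : Bool) => Nat) (nat_lit 0)
    x101 (Nat.ble (Nat.mul x101 x101) (Nat.shiftLeft x100 (nat_lit 40))))) (@isqL (Nat.shiftLeft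
    x100 (nat_lit 40)))))

noncomputable def isqU : ((x0 : Nat) → Nat) :=
    (fun (x100 : Nat) => ((fun (x101 : Nat) => (@Bool.rec.{1} (fun (x102 : Bool) => Nat) (Nat.succ
    x100) x101 (Nat.ble x100 (Nat.mul x101 x101)))) (Nat.succ (@isq x100))))

noncomputable def sqrtU : ((x0 : Nat) → Nat) :=
    (fun (x100 : Nat) => (@isqU (Nat.shiftLeft x100 (nat_lit 40))))

noncomputable def m0a : ((x0 : @K.Blk) → ((x1 : Nat) → Nat)) :=
    (fun (x100 : @K.Blk) => (fun (x101 : Nat) => ((fun (x102 : Nat) => (@divU (Nat.add (Nat.succ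
    (Nat.shiftRight (Nat.mul (Nat.add (nat_lit 1099511627776) (Nat.succ (Nat.shiftRight (Nat.mul
    x102 x102) (nat_lit 40)))) (@K.Blk.n1 x100)) (nat_lit 40))) (Nat.succ (Nat.shiftRight
    (Nat.mul x101 (@K.Blk.n3 x100)) (nat_lit 40)))) (Nat.mul (nat_lit 2) x102))) (@sqrtU (Nat.add
    (nat_lit 1099511627776) x101)))))

noncomputable def dq : ((x0 : @K.Blk) → ((x1 : Nat) → ((x2 : Nat) → ((x3 : Nat) → Nat)))) :=
    (fun (x100 : @K.Blk) => (fun (x101 : Nat) => (fun (x102 : Nat) => (fun (x103 : Nat) => (Nat.succ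
    (Nat.shiftRight (Nat.mul (@K.Blk.fac x100) (Nat.add (Nat.add (@divU x101 (@K.Blk.mL x100))
    (Nat.succ (Nat.shiftRight (Nat.mul (@K.Blk.be x100) x102) (nat_lit 40)))) (Nat.succ
    (Nat.shiftRight (Nat.mul (@K.Blk.nr x100) x103) (nat_lit 40))))) (nat_lit 40)))))))

noncomputable def ncfN : ((x0 : Nat) → ((x1 : Nat) → ((x2 : Nat) → ((x3 : Nat) → ((x4 : Nat) → Nat))))) :=
    (fun (x100 : Nat) => (fun (x101 : Nat) => (fun (x102 : Nat) => (fun (x103 : Nat) => (fun (x104 :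
    Nat) => (@Bool.rec.{1} (fun (x105 : Bool) => Nat) ((fun (x106 : Nat) => ((fun (x107 : Nat) =>
    (@Bool.rec.{1} (fun (x108 : Bool) => Nat) (@Bool.rec.{1} (fun (x109 : Bool) => Nat) (mn
    (Nat.sub (Nat.add (nat_lit 36028797018963968) (@divU x103 x100)) x107) (nat_lit
    72057594037927935)) (nat_lit 72057594037927935) (Nat.beq x100 (@OfNat.ofNat.{0} Nat (nat_lit
    0) (@instOfNatNat (nat_lit 0))))) (Nat.sub (nat_lit 36028797018963968) (Nat.add (Nat.div
    (Nat.shiftLeft x104 (nat_lit 40)) x101) x107)) (Nat.beq x103 (@OfNat.ofNat.{0} Nat (nat_lit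
    0) (@instOfNatNat (nat_lit 0)))))) (Nat.shiftRight (Nat.mul x106 x106) (nat_lit 40))))
    (Nat.div (Nat.shiftLeft x102 (nat_lit 40)) x101)) (nat_lit 72057594037927935) (Nat.beq x101
    (@OfNat.ofNat.{0} Nat (nat_lit 0) (@instOfNatNat (nat_lit 0))))))))))

noncomputable def pk15 : ((x0 : Nat) → ((x1 : Nat) → ((x2 : Nat) → ((x3 : Nat) → ((x4 : Nat) → ((x5 : Nat) → ((x6 : Nat)
    → ((x7 : Nat) → ((x8 : Nat) → ((x9 : Nat) → ((x10 : Nat) → ((x11 : Nat) → ((x12 : Nat) →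
    ((x13 : Nat) → ((x14 : Nat) → Nat))))))))))))))) :=
    (fun (x100 : Nat) => (fun (x101 : Nat) => (fun (x102 : Nat) => (fun (x103 : Nat) => (fun (x104 :
    Nat) => (fun (x105 : Nat) => (fun (x106 : Nat) => (fun (x107 : Nat) => (fun (x108 : Nat) =>
    (fun (x109 : Nat) => (fun (x110 : Nat) => (fun (x111 : Nat) => (fun (x112 : Nat) => (fun
    (x113 : Nat) => (fun (x114 : Nat) => (@Bool.rec.{1} (fun (x115 : Bool) => Nat) (nat_lit 0)
    (Nat.add (Nat.add (Nat.add (Nat.add (Nat.add (Nat.add (Nat.add (Nat.add (Nat.add (Nat.add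
    (Nat.add (Nat.add (Nat.add (Nat.add x100 (Nat.shiftLeft x101 (nat_lit 56))) (Nat.shiftLeft
    x102 (nat_lit 112))) (Nat.shiftLeft x103 (nat_lit 168))) (Nat.shiftLeft x104 (nat_lit 224)))
    (Nat.shiftLeft x105 (nat_lit 280))) (Nat.shiftLeft x106 (nat_lit 336))) (Nat.shiftLeft x107
    (nat_lit 392))) (Nat.shiftLeft x108 (nat_lit 448))) (Nat.shiftLeft x109 (nat_lit 504)))
    (Nat.shiftLeft x110 (nat_lit 560))) (Nat.shiftLeft x111 (nat_lit 616))) (Nat.shiftLeft x112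
    (nat_lit 672))) (Nat.shiftLeft x113 (nat_lit 728))) (Nat.shiftLeft x114 (nat_lit 784)))
    (@Bool.rec.{1} (fun (x116 : Bool) => Bool) (@Bool.false) (Nat.ble (mx (mx (mx (mx x100 x101)
    (mx x102 x103)) (mx (mx x104 x105) (mx x106 x107))) (mx (mx (mx x108 x109) (mx x110 x111))
    (mx (mx x112 x113) x114))) (nat_lit 72057594037927935)) (@Bool.rec.{1} (fun (x117 : Bool) =>
    Bool) (@Bool.false) (Nat.ble (nat_lit 1) x107) (@Bool.rec.{1} (fun (x118 : Bool) => Bool)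
    (@Bool.false) (Nat.ble (nat_lit 1) x104) (@Bool.rec.{1} (fun (x119 : Bool) => Bool)
    (@Bool.false) (Nat.ble (nat_lit 1) x103) (@Bool.rec.{1} (fun (x120 : Bool) => Bool)
    (@Bool.false) (Nat.ble (nat_lit 1) x101) (Nat.ble (nat_lit 1) x100))))))))))))))))))))))

noncomputable def hor4N : ((x0 : Nat) → ((x1 : Nat) → ((x2 : Nat) → ((x3 : Nat) → ((x4 : Nat) → ((x5 : Nat) → Nat)))))) :=
    (fun (x100 : Nat) => (fun (x101 : Nat) => (fun (x102 : Nat) => (fun (x103 : Nat) => (fun (x104 :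
    Nat) => (fun (x105 : Nat) => (Nat.shiftRight (Nat.land (Nat.add (Nat.add (Nat.mul (Nat.add
    (Nat.mul (Nat.add (Nat.mul (Nat.add (Nat.mul x104 x105) (Nat.shiftLeft x103 (nat_lit 40)))
    x105) (Nat.shiftLeft x102 (nat_lit 80))) x105) (Nat.shiftLeft x101 (nat_lit 120))) x105)
    (Nat.shiftLeft x100 (nat_lit 160))) (nat_lit
    1852673427797059126777135760139006525652319754650249024631321344126610074238976)) (nat_lit
    497323236409786642155382248146820840100456150797347717440463976893159497012533375533055))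
    (nat_lit 160))))))))

noncomputable def hor3N : ((x0 : Nat) → ((x1 : Nat) → ((x2 : Nat) → ((x3 : Nat) → ((x4 : Nat) → Nat))))) :=
    (fun (x100 : Nat) => (fun (x101 : Nat) => (fun (x102 : Nat) => (fun (x103 : Nat) => (fun (x104 :
    Nat) => (Nat.shiftRight (Nat.land (Nat.add (Nat.add (Nat.mul (Nat.add (Nat.mul (Nat.add
    (Nat.mul x103 x104) (Nat.shiftLeft x102 (nat_lit 40))) x104) (Nat.shiftLeft x101 (nat_lit
    80))) x104) (Nat.shiftLeft x100 (nat_lit 120))) (nat_lit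
    1684996666696914987166688442938726917102321526408785780068975640576)) (nat_lit
    497323236409786642155382248146820840100456150797347717440463976893159497012533375533055))
    (nat_lit 120)))))))

noncomputable def hor2N : ((x0 : Nat) → ((x1 : Nat) → ((x2 : Nat) → ((x3 : Nat) → Nat)))) :=
    (fun (x100 : Nat) => (fun (x101 : Nat) => (fun (x102 : Nat) => (fun (x103 : Nat) =>
    (Nat.shiftRight (Nat.land (Nat.add (Nat.add (Nat.mul (Nat.add (Nat.mul x102 x103)
    (Nat.shiftLeft x101 (nat_lit 40))) x103) (Nat.shiftLeft x100 (nat_lit 80))) (nat_lit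
    1532495540865888858358347027150309183618739122183602176)) (nat_lit
    497323236409786642155382248146820840100456150797347717440463976893159497012533375533055))
    (nat_lit 80))))))

noncomputable def hor1N : ((x0 : Nat) → ((x1 : Nat) → ((x2 : Nat) → Nat))) :=
    (fun (x100 : Nat) => (fun (x101 : Nat) => (fun (x102 : Nat) => (Nat.shiftRight (Nat.land
    (Nat.add (Nat.add (Nat.mul x101 x102) (Nat.shiftLeft x100 (nat_lit 40))) (nat_lit
    1393796574908163946345982392040522594123776)) (nat_lit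
    497323236409786642155382248146820840100456150797347717440463976893159497012533375533055))
    (nat_lit 40)))))

noncomputable def absO : ((x0 : Nat) → Nat) :=
    (fun (x100 : Nat) => (Nat.add (Nat.sub x100 (nat_lit 1267650600228229401496703205376)) (Nat.sub
    (nat_lit 1267650600228229401496703205376) x100)))

noncomputable def enclN : ((x0 : Sort 1) → ((x1 : Nat) → ((x2 : Nat) → ((x3 : Nat) → ((x4 : Nat) → ((x5 : Nat) → ((x6 :
    Nat) → ((x7 : Nat) → ((x8 : Nat) → ((x9 : Nat) → ((x10 : Nat) → ((x11 : ((x12 : Nat) → ((x13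
    : Nat) → ((x14 : Nat) → ((x15 : Nat) → ((x16 : Nat) → ((x17 : Nat) → ((x18 : Nat) → ((x19 :
    Nat) → ((x20 : Nat) → x0)))))))))) → x0)))))))))))) :=
    (fun (x100 : Sort 1) => (fun (x101 : Nat) => (fun (x102 : Nat) => (fun (x103 : Nat) => (fun
    (x104 : Nat) => (fun (x105 : Nat) => (fun (x106 : Nat) => (fun (x107 : Nat) => (fun (x108 :
    Nat) => (fun (x109 : Nat) => (fun (x110 : Nat) => (fun (x111 : ((x112 : Nat) → ((x113 : Nat)
    → ((x114 : Nat) → ((x115 : Nat) → ((x116 : Nat) → ((x117 : Nat) → ((x118 : Nat) → ((x119 :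
    Nat) → ((x120 : Nat) → x100)))))))))) => ((fun (x121 : Nat) => (fun (x122 : Nat) => (fun
    (x123 : Nat) => (fun (x124 : Nat) => (fun (x125 : Nat) => (fun (x126 : Nat) => (fun (x127 :
    Nat) => (fun (x128 : Nat) => ((fun (x129 : Nat) => (fun (x130 : Nat) => (fun (x131 : Nat) =>
    ((fun (x132 : Nat) => (fun (x133 : Nat) => (fun (x134 : Nat) => (fun (x135 : Nat) => (x111
    (Nat.sub (mn x121 x122) x129) (Nat.add (mx x121 x122) x129) (Nat.add (mx (@absO x123) (@absO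
    x124)) x128) (Nat.sub (mn x125 x126) x127) (Nat.add (mx x125 x126) x127) (Nat.sub (mn x130
    x131) x132) (Nat.add (mx x130 x131) x132) (Nat.sub (mn x134 x135) x133) (Nat.add (mx x134
    x135) x133)))))) (Nat.succ (Nat.add x128 (Nat.succ (Nat.shiftRight (Nat.mul x110 x129)
    (nat_lit 40))))) (Nat.add (Nat.add (Nat.add x127 (Nat.mul (nat_lit 2) (Nat.succ
    (Nat.shiftRight (Nat.mul x110 x128) (nat_lit 40))))) (Nat.succ (Nat.shiftRight (Nat.mul x110
    (Nat.succ (Nat.shiftRight (Nat.mul x110 x129) (nat_lit 40)))) (nat_lit 40)))) (nat_lit 4))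
    (Nat.sub (Nat.add x125 (Nat.shiftRight (Nat.add (Nat.mul x110 (Nat.sub (Nat.add x123 x130)
    (nat_lit 1267650600228229401496703205376))) (Nat.mul (Nat.sub (nat_lit 1099511627776) x110)
    (nat_lit 1267650600228229401496703205376))) (nat_lit 40))) (nat_lit
    1267650600228229401496703205376)) (Nat.sub (Nat.add x126 (Nat.shiftRight (Nat.add (Nat.mul
    x110 (Nat.sub (Nat.add x124 x131) (nat_lit 1267650600228229401496703205376))) (Nat.mul
    (Nat.sub (nat_lit 1099511627776) x110) (nat_lit 1267650600228229401496703205376))) (nat_lit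
    40))) (nat_lit 1267650600228229401496703205376)))))) (Nat.succ (Nat.succ (Nat.shiftRight
    (Nat.mul (Nat.add (mx (@absO x125) (@absO x126)) x127) x109) (nat_lit 40)))) (Nat.sub
    (Nat.add x123 (Nat.shiftRight (Nat.add (Nat.mul x110 x121) (Nat.mul (Nat.sub (nat_lit
    1099511627776) x110) (nat_lit 1267650600228229401496703205376))) (nat_lit 40))) (nat_lit
    1267650600228229401496703205376)) (Nat.sub (Nat.add x124 (Nat.shiftRight (Nat.add (Nat.mul
    x110 x122) (Nat.mul (Nat.sub (nat_lit 1099511627776) x110) (nat_lit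
    1267650600228229401496703205376))) (nat_lit 40))) (nat_lit
    1267650600228229401496703205376))))))))))) (@hor4N x101 x102 x103 x104 x105 x107) (@hor4N
    x101 x102 x103 x104 x105 x108) (@hor3N x102 (Nat.mul (nat_lit 2) x103) (Nat.mul (nat_lit 3)
    x104) (Nat.mul (nat_lit 4) x105) x107) (@hor3N x102 (Nat.mul (nat_lit 2) x103) (Nat.mul
    (nat_lit 3) x104) (Nat.mul (nat_lit 4) x105) x108) (@hor2N (Nat.mul (nat_lit 2) x103)
    (Nat.mul (nat_lit 6) x104) (Nat.mul (nat_lit 12) x105) x107) (@hor2N (Nat.mul (nat_lit 2)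
    x103) (Nat.mul (nat_lit 6) x104) (Nat.mul (nat_lit 12) x105) x108) (Nat.succ (Nat.succ
    (Nat.shiftRight (Nat.mul x106 x109) (nat_lit 40)))) (Nat.succ (Nat.succ (Nat.shiftRight
    (Nat.mul (Nat.succ (mx (@absO (@hor1N (Nat.mul (nat_lit 6) x104) (Nat.mul (nat_lit 24) x105)
    x107)) (@absO (@hor1N (Nat.mul (nat_lit 6) x104) (Nat.mul (nat_lit 24) x105) x108)))) x109)
    (nat_lit 40)))))))))))))))))

noncomputable def mkCellN : ((x0 : @K.Blk) → ((x1 : ((x2 : Nat) → Nat)) → ((x3 : ((x4 : Nat) → Nat)) → ((x5 : Nat) → ((x6 :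
    Nat) → Nat))))) :=
    (fun (x100 : @K.Blk) => (fun (x101 : ((x102 : Nat) → Nat)) => (fun (x103 : ((x104 : Nat) → Nat))
    => (fun (x105 : Nat) => (fun (x106 : Nat) => (@fr Nat (@vidx x105) (fun (x107 : Nat) => ((fun
    (x108 : Nat) => (fun (x109 : Nat) => (@Bool.rec.{1} (fun (x110 : Bool) => Nat) (nat_lit 0)
    ((fun (x111 : Nat) => (fun (x112 : Nat) => (fun (x113 : Nat) => (fun (x114 : Nat) => (fun
    (x115 : Nat) => (fun (x116 : Nat) => (fun (x117 : Nat) => ((fun (x118 : Nat) => (fun (x119 :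
    Nat) => (fun (x120 : Nat) => (@enclN Nat (Nat.add (Nat.mod (Nat.shiftRight x111 (nat_lit 0))
    (nat_lit 281474976710656)) (nat_lit
    497323236409786642155382248146820840100456150797347717440463976893159496871795887177728))
    (Nat.add (Nat.mod (Nat.shiftRight x111 (nat_lit 48)) (nat_lit 281474976710656)) (nat_lit
    497323236409786642155382248146820840100456150797347717440463976893159496871795887177728))
    (Nat.add (Nat.mod (Nat.shiftRight x111 (nat_lit 96)) (nat_lit 281474976710656)) (nat_lit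
    497323236409786642155382248146820840100456150797347717440463976893159496871795887177728))
    (Nat.add (Nat.mod (Nat.shiftRight x111 (nat_lit 144)) (nat_lit 281474976710656)) (nat_lit
    497323236409786642155382248146820840100456150797347717440463976893159496871795887177728))
    (Nat.add (Nat.mod (Nat.shiftRight x111 (nat_lit 192)) (nat_lit 281474976710656)) (nat_lit
    497323236409786642155382248146820840100456150797347717440463976893159496871795887177728))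
    (Nat.mul (nat_lit 24) (@dist (Nat.mod (Nat.shiftRight x111 (nat_lit 192)) (nat_lit
    281474976710656)) (nat_lit 140737488355328))) x113 x114 x115 x116 (fun (x121 : Nat) => (fun
    (x122 : Nat) => (fun (x123 : Nat) => (fun (x124 : Nat) => (fun (x125 : Nat) => (fun (x126 :
    Nat) => (fun (x127 : Nat) => (fun (x128 : Nat) => (fun (x129 : Nat) => (@enclN Nat (Nat.add
    (Nat.mod (Nat.shiftRight x112 (nat_lit 0)) (nat_lit 281474976710656)) (nat_lit
    497323236409786642155382248146820840100456150797347717440463976893159496871795887177728))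
    (Nat.add (Nat.mod (Nat.shiftRight x112 (nat_lit 48)) (nat_lit 281474976710656)) (nat_lit
    497323236409786642155382248146820840100456150797347717440463976893159496871795887177728))
    (Nat.add (Nat.mod (Nat.shiftRight x112 (nat_lit 96)) (nat_lit 281474976710656)) (nat_lit
    497323236409786642155382248146820840100456150797347717440463976893159496871795887177728))
    (Nat.add (Nat.mod (Nat.shiftRight x112 (nat_lit 144)) (nat_lit 281474976710656)) (nat_lit
    497323236409786642155382248146820840100456150797347717440463976893159496871795887177728))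
    (Nat.add (Nat.mod (Nat.shiftRight x112 (nat_lit 192)) (nat_lit 281474976710656)) (nat_lit
    497323236409786642155382248146820840100456150797347717440463976893159496871795887177728))
    (Nat.mul (nat_lit 24) (@dist (Nat.mod (Nat.shiftRight x112 (nat_lit 192)) (nat_lit
    281474976710656)) (nat_lit 140737488355328))) x113 x114 x115 x116 (fun (x130 : Nat) => (fun
    (x131 : Nat) => (fun (x132 : Nat) => (fun (x133 : Nat) => (fun (x134 : Nat) => (fun (x135 :
    Nat) => (fun (x136 : Nat) => (fun (x137 : Nat) => (fun (x138 : Nat) => (@enclN Nat (Nat.sub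
    (Nat.add (Nat.mod (Nat.shiftRight x112 (nat_lit 0)) (nat_lit 281474976710656)) (nat_lit
    497323236409786642155382248146820840100456150797347717440463976893159497012533375533056))
    (Nat.mod (Nat.shiftRight x111 (nat_lit 0)) (nat_lit 281474976710656))) (Nat.sub (Nat.add
    (Nat.mod (Nat.shiftRight x112 (nat_lit 48)) (nat_lit 281474976710656)) (nat_lit
    497323236409786642155382248146820840100456150797347717440463976893159497012533375533056))
    (Nat.mod (Nat.shiftRight x111 (nat_lit 48)) (nat_lit 281474976710656))) (Nat.sub (Nat.add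
    (Nat.mod (Nat.shiftRight x112 (nat_lit 96)) (nat_lit 281474976710656)) (nat_lit
    497323236409786642155382248146820840100456150797347717440463976893159497012533375533056))
    (Nat.mod (Nat.shiftRight x111 (nat_lit 96)) (nat_lit 281474976710656))) (Nat.sub (Nat.add
    (Nat.mod (Nat.shiftRight x112 (nat_lit 144)) (nat_lit 281474976710656)) (nat_lit
    497323236409786642155382248146820840100456150797347717440463976893159497012533375533056))
    (Nat.mod (Nat.shiftRight x111 (nat_lit 144)) (nat_lit 281474976710656))) (Nat.sub (Nat.add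
    (Nat.mod (Nat.shiftRight x112 (nat_lit 192)) (nat_lit 281474976710656)) (nat_lit
    497323236409786642155382248146820840100456150797347717440463976893159497012533375533056))
    (Nat.mod (Nat.shiftRight x111 (nat_lit 192)) (nat_lit 281474976710656))) (Nat.mul (nat_lit
    24) (@dist (Nat.mod (Nat.shiftRight x112 (nat_lit 192)) (nat_lit 281474976710656)) (Nat.mod
    (Nat.shiftRight x111 (nat_lit 192)) (nat_lit 281474976710656)))) x113 x114 x115 x116 (fun
    (x139 : Nat) => (fun (x140 : Nat) => (fun (x141 : Nat) => (fun (x142 : Nat) => (fun (x143 :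
    Nat) => (fun (x144 : Nat) => (fun (x145 : Nat) => (fun (x146 : Nat) => (fun (x147 : Nat) =>
    ((fun (x148 : Nat) => (fun (x149 : Nat) => (fun (x150 : Nat) => (fun (x151 : Nat) => (fun
    (x152 : Nat) => (fun (x153 : Nat) => (fun (x154 : Nat) => (fun (x155 : Nat) => (fun (x156 :
    Nat) => (fun (x157 : Nat) => ((fun (x158 : Nat) => (fun (x159 : Nat) => (fun (x160 : Nat) =>
    ((fun (x161 : Nat) => (fun (x162 : Nat) => (fun (x163 : Nat) => ((fun (x164 : Nat) => (fun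
    (x165 : Nat) => (fun (x166 : Nat) => (fun (x167 : Nat) => ((fun (x168 : Nat) => (fun (x169 :
    Nat) => (@pk15 (Nat.sub (nat_lit 1267650600228265430293722169344) x166) (Nat.sub (Nat.add
    x167 (nat_lit 36028797018963968)) (nat_lit 1267650600228229401496703205376)) (Nat.add x150
    x162) (Nat.sub (Nat.add (nat_lit 1267650600228265430293722169344) x163) x151) (Nat.sub
    (Nat.add (Nat.add x152 x163) (nat_lit 36028797018963968)) (nat_lit
    1267650600228229401496703205376)) (mx (Nat.sub (Nat.add (nat_lit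
    1267650600228229401496703205376) x164) (mn x126 x135)) (Nat.sub x168 (nat_lit
    1267650600228229401496703205376))) (mx (Nat.sub (Nat.add (nat_lit
    1267650600228229401496703205376) x165) (mn x128 x137)) (Nat.sub x169 (nat_lit
    1267650600228229401496703205376))) (@ncfN (Nat.sub x166 (nat_lit
    1267650600228229401496703205376)) (Nat.sub x167 (nat_lit 1267650600228229401496703205376))
    (Nat.sub (nat_lit 1267650600228229401496703205376) x168) (Nat.sub x169 (nat_lit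
    1267650600228229401496703205376)) (Nat.sub (nat_lit 1267650600228229401496703205376) x169))
    (Nat.add x153 (Nat.succ (Nat.shiftRight (Nat.mul x158 (Nat.shiftLeft (@Blk_dm x100) (nat_lit
    27))) (nat_lit 40)))) x158 (Nat.add x118 (nat_lit 2)) (Nat.sub x169 (nat_lit
    1267650600228229401496703205376)) (Nat.add x154 (Nat.succ (Nat.shiftRight (Nat.mul x159
    (Nat.shiftLeft (@Blk_dm x100) (nat_lit 27))) (nat_lit 40)))) (Nat.add x155 (Nat.succ
    (Nat.shiftRight (Nat.mul x160 (Nat.shiftLeft (@Blk_dm x100) (nat_lit 27))) (nat_lit 40))))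
    (Nat.sub x168 (nat_lit 1267650600228229401496703205376))))) (Nat.add (mx x127 x136) x164)
    (Nat.add (mx x129 x138) x165)))))) (Nat.add x162 (Nat.succ (Nat.shiftRight (Nat.mul x116
    x161) (nat_lit 40)))) (Nat.add (Nat.add x163 (Nat.mul (nat_lit 2) (Nat.succ (Nat.shiftRight
    (Nat.mul x116 x162) (nat_lit 40))))) (Nat.succ (Nat.shiftRight (Nat.mul x116 (Nat.succ
    (Nat.shiftRight (Nat.mul x116 x161) (nat_lit 40)))) (nat_lit 40)))) (mx (Nat.sub x148 x161)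
    (nat_lit 1267650600228229400397191577600)) (mn (Nat.add x149 x161) (nat_lit
    1267650600228229402596214833152)))))) (Nat.add x118 (Nat.succ (Nat.shiftRight (Nat.mul x158
    x157) (nat_lit 40)))) (Nat.add x119 (Nat.succ (Nat.shiftRight (Nat.mul x159 x157) (nat_lit
    40)))) (Nat.add x120 (Nat.succ (Nat.shiftRight (Nat.mul x160 x157) (nat_lit 40)))))))) (mn
    (@dq x100 (@m0a x100 x106) x153 (Nat.add (mx (Nat.sub (nat_lit
    1267650600228229401496703205376) x148) (Nat.sub x149 (nat_lit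
    1267650600228229401496703205376))) x118)) (@dq x100 (Nat.succ (Nat.div (Nat.mul (nat_lit 3)
    (Nat.succ (Nat.shiftRight (Nat.mul x106 (@K.Blk.n3 x100)) (nat_lit 40)))) (nat_lit 2))) x153
    (Nat.add (Nat.sub (nat_lit 1267650600228229402596214833152) x148) x118))) (@dq x100 (mn
    (Nat.succ (Nat.div (Nat.mul (nat_lit 3) (@K.Blk.n3 x100)) (nat_lit 2))) (Nat.add (Nat.succ
    (Nat.div (@K.Blk.n3 x100) (nat_lit 2))) (@divU (@K.Blk.n2 x100) x156))) x154 (Nat.add x150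
    x119)) (@dq x100 (mn (Nat.succ (Nat.div (Nat.mul (nat_lit 5) (@K.Blk.n5 x100)) (nat_lit 12)))
    (Nat.add (@divU (@K.Blk.n4 x100) (Nat.mul (nat_lit 4) x156)) (@divU (Nat.mul (nat_lit 3)
    (@K.Blk.n3 x100)) (Nat.mul (nat_lit 5) (Nat.shiftRight (Nat.mul x156 x156) (nat_lit 40))))))
    x155 (Nat.add (mx (Nat.sub (nat_lit 1267650600228229401496703205376) x151) (Nat.sub x152
    (nat_lit 1267650600228229401496703205376))) x120))))))))))))) (mn x121 x130) (mx x122 x131)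
    (mx x123 x132) (mn x124 x133) (mx x125 x134) (Nat.succ (Nat.div (Nat.mul (Nat.add (mx
    (Nat.sub (nat_lit 1267650600228229401496703205376) x139) (Nat.sub x140 (nat_lit
    1267650600228229401496703205376))) (Nat.mul (nat_lit 2) x118)) (nat_lit 4096)) (@Blk_dm
    x100))) (Nat.succ (Nat.div (Nat.mul (Nat.add x141 (Nat.mul (nat_lit 2) x119)) (nat_lit 4096))
    (@Blk_dm x100))) (Nat.succ (Nat.div (Nat.mul (Nat.add (mx (Nat.sub (nat_lit
    1267650600228229401496703205376) x142) (Nat.sub x143 (nat_lit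
    1267650600228229401496703205376))) (Nat.mul (nat_lit 2) x120)) (nat_lit 4096)) (@Blk_dm
    x100))) (@sqrtL x105) (Nat.shiftLeft (Nat.mul (@Blk_dm x100) (@Blk_dm x100)) (nat_lit
    13)))))))))))))))))))))))))))))))))))) (@rem0 x117 x109) (@rem1 x117 x109) (@rem2 x117
    x109))))))))) (x101 x107) (x103 x107) (Nat.sub (Nat.add x105 (nat_lit
    497323236409786642155382248146820840100456150797347717440463976893159497012533375533056))
    x108) (Nat.sub (Nat.add x106 (nat_lit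
    497323236409786642155382248146820840100456150797347717440463976893159497012533375533056))
    x108) (Nat.succ (Nat.div (Nat.succ (Nat.shiftRight (Nat.mul (Nat.sub x106 x105) (Nat.sub x106
    x105)) (nat_lit 40))) (nat_lit 8))) (@K.Blk.lam x100) (@b5 x100 (Nat.sub x108 x109)))
    (@Bool.rec.{1} (fun (x170 : Bool) => Bool) (@Bool.false) (Nat.ble (@K.Blk.lam x100) (nat_lit
    1099511627776)) (@Bool.rec.{1} (fun (x171 : Bool) => Bool) (@Bool.false) (Nat.ble x105 x106)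
    (Nat.ble x106 (Nat.add x108 x109))))))) (@vctr x105) (@vhw x105)))))))))

noncomputable def cidx : ((x0 : Nat) → Nat) :=
    (fun (x100 : Nat) => (@Bool.rec.{1} (fun (x101 : Bool) => Nat) (@Bool.rec.{1} (fun (x102 : Bool)
    => Nat) (@Bool.rec.{1} (fun (x103 : Bool) => Nat) (@Bool.rec.{1} (fun (x104 : Bool) => Nat)
    (@Bool.rec.{1} (fun (x105 : Bool) => Nat) (mn (Nat.add (Nat.shiftRight x100 (nat_lit 57))
    (nat_lit 672)) (nat_lit 680)) (Nat.add (Nat.shiftRight x100 (nat_lit 55)) (nat_lit 666))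
    (Nat.ble (Nat.succ x100) (nat_lit 288230376151711744))) (Nat.add (Nat.shiftRight x100
    (nat_lit 53)) (nat_lit 660)) (Nat.ble (Nat.succ x100) (nat_lit 72057594037927936)))
    (@Bool.rec.{1} (fun (x106 : Bool) => Nat) (Nat.add (Nat.shiftRight x100 (nat_lit 51))
    (nat_lit 654)) (Nat.add (Nat.shiftRight x100 (nat_lit 44)) (nat_lit 400)) (Nat.ble (Nat.succ
    x100) (nat_lit 4503599627370496))) (Nat.ble (Nat.succ x100) (nat_lit 18014398509481984)))
    (@Bool.rec.{1} (fun (x107 : Bool) => Nat) (Nat.add (Nat.shiftRight x100 (nat_lit 42))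
    (nat_lit 208)) (Nat.add (Nat.shiftRight x100 (nat_lit 41)) (nat_lit 144)) (Nat.ble (Nat.succ
    x100) (nat_lit 281474976710656))) (Nat.ble (Nat.succ x100) (nat_lit 1125899906842624)))
    (@Bool.rec.{1} (fun (x108 : Bool) => Nat) (@Bool.rec.{1} (fun (x109 : Bool) => Nat) (Nat.add
    (Nat.shiftRight x100 (nat_lit 39)) (nat_lit 48)) (Nat.add (Nat.shiftRight x100 (nat_lit 38))
    (nat_lit 16)) (Nat.ble (Nat.succ x100) (nat_lit 17592186044416))) (Nat.shiftRight x100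
    (nat_lit 37)) (Nat.ble (Nat.succ x100) (nat_lit 4398046511104))) (Nat.ble (Nat.succ x100)
    (nat_lit 70368744177664))))

noncomputable def Yb : ((x0 : Nat) → Nat) :=
    (fun (x100 : Nat) => (@Bool.rec.{1} (fun (x101 : Bool) => Nat) (@Bool.rec.{1} (fun (x102 : Bool)
    => Nat) (@Bool.rec.{1} (fun (x103 : Bool) => Nat) (@Bool.rec.{1} (fun (x104 : Bool) => Nat)
    (Nat.shiftLeft (Nat.sub x100 (nat_lit 672)) (nat_lit 57)) (Nat.shiftLeft (Nat.sub x100
    (nat_lit 666)) (nat_lit 55)) (Nat.ble (Nat.succ x100) (nat_lit 674))) (@Bool.rec.{1} (fun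
    (x105 : Bool) => Nat) (Nat.shiftLeft (Nat.sub x100 (nat_lit 660)) (nat_lit 53))
    (Nat.shiftLeft (Nat.sub x100 (nat_lit 654)) (nat_lit 51)) (Nat.ble (Nat.succ x100) (nat_lit
    662))) (Nat.ble (Nat.succ x100) (nat_lit 668))) (@Bool.rec.{1} (fun (x106 : Bool) => Nat)
    (Nat.shiftLeft (Nat.sub x100 (nat_lit 400)) (nat_lit 44)) (Nat.shiftLeft (Nat.sub x100
    (nat_lit 208)) (nat_lit 42)) (Nat.ble (Nat.succ x100) (nat_lit 464))) (Nat.ble (Nat.succ
    x100) (nat_lit 656))) (@Bool.rec.{1} (fun (x107 : Bool) => Nat) (@Bool.rec.{1} (fun (x108 :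
    Bool) => Nat) (Nat.shiftLeft (Nat.sub x100 (nat_lit 144)) (nat_lit 41)) (Nat.shiftLeft
    (Nat.sub x100 (nat_lit 48)) (nat_lit 39)) (Nat.ble (Nat.succ x100) (nat_lit 176)))
    (@Bool.rec.{1} (fun (x109 : Bool) => Nat) (Nat.shiftLeft (Nat.sub x100 (nat_lit 16)) (nat_lit
    38)) (Nat.shiftLeft x100 (nat_lit 37)) (Nat.ble (Nat.succ x100) (nat_lit 32))) (Nat.ble
    (Nat.succ x100) (nat_lit 80))) (Nat.ble (Nat.succ x100) (nat_lit 272))))

noncomputable def restChkN : ((x0 : @K.Blk) → ((x1 : ((x2 : Nat) → Nat)) → ((x3 : ((x4 : Nat) → Nat)) → ((x5 : ((x6 : Nat) →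
    Nat)) → Bool)))) :=
    (fun (x100 : @K.Blk) => (fun (x101 : ((x102 : Nat) → Nat)) => (fun (x103 : ((x104 : Nat) → Nat))
    => (fun (x105 : ((x106 : Nat) → Nat)) => ((fun (x107 : Nat) => (@Bool.rec.{1} (fun (x108 :
    Bool) => Bool) (@Bool.false) (Nat.beq (x105 (nat_lit 680)) (@OfNat.ofNat.{0} Nat (nat_lit 0)
    (@instOfNatNat (nat_lit 0)))) (@Bool.rec.{1} (fun (x109 : Bool) => Bool) (@Bool.false)
    (Nat.ble (nat_lit 1099511627776) (Nat.shiftRight (Nat.mul (Nat.sub (Nat.shiftRight (Nat.mul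
    (@K.Blk.mL x100) (@K.Blk.mL x100)) (nat_lit 40)) (@K.Blk.gam x100)) (@K.Blk.Yc x100))
    (nat_lit 40))) (@Bool.rec.{1} (fun (x110 : Bool) => Bool) (@Bool.false) (Nat.ble (@K.Blk.gam
    x100) (Nat.mul (nat_lit 2) (@K.Blk.lam x100))) (@Bool.rec.{1} (fun (x111 : Bool) => Bool)
    (@Bool.false) (Nat.beq (@Yb (@cidx (@K.Blk.Yc x100))) (@K.Blk.Yc x100)) (@Bool.rec.{1} (fun
    (x112 : Bool) => Bool) (@Bool.false) (Nat.ble (@K.Blk.Yc x100) (@OfNat.ofNat.{0} Nat (nat_lit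
    4503599627370496) (@instOfNatNat (nat_lit 4503599627370496)))) (@Bool.rec.{1} (fun (x113 :
    Bool) => Bool) (@Bool.false) (Nat.ble (@K.Blk.Yp x100) (@K.Blk.Yc x100)) (@Bool.rec.{1} (fun
    (x114 : Bool) => Bool) (@Bool.false) (Nat.ble (@K.Blk.Z2 x100) (@K.Blk.Yc x100))
    (@Bool.rec.{1} (fun (x115 : Bool) => Bool) (@Bool.false) (Nat.ble (Nat.succ (@K.Blk.Zc x100))
    (@K.Blk.Z2 x100)) (@Bool.rec.{1} (fun (x116 : Bool) => Bool) (@Bool.false) (Nat.ble
    (@K.Blk.z2 x100) (@K.Blk.Zc x100)) (@Bool.rec.{1} (fun (x117 : Bool) => Bool) (@Bool.false)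
    (Nat.ble (nat_lit 1) (@K.Blk.z2 x100)) (@Bool.rec.{1} (fun (x118 : Bool) => Bool)
    (@Bool.false) (Nat.ble (nat_lit 1) (@K.Blk.lam x100)) (@Bool.rec.{1} (fun (x119 : Bool) =>
    Bool) (@Bool.false) (Nat.ble (@K.Blk.lamh x100) (nat_lit 1099511627776)) (@Bool.rec.{1} (fun
    (x120 : Bool) => Bool) (@Bool.false) (Nat.ble (Nat.mod (Nat.shiftRight x107 (nat_lit 112))
    (nat_lit 72057594037927936)) (@K.Blk.lamh x100)) (@Bool.rec.{1} (fun (x121 : Bool) => Bool)
    (@Bool.false) (Nat.beq (Nat.mod (Nat.shiftRight x107 (nat_lit 784)) (nat_lit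
    72057594037927936)) (@OfNat.ofNat.{0} Nat (nat_lit 0) (@instOfNatNat (nat_lit 0)))) (Nat.ble
    (nat_lit 1) x107)))))))))))))))) (@mkCellN x100 x101 x103 (nat_lit 0) (nat_lit 0)))))))

noncomputable def nlogL : ((x0 : Nat) → Nat) :=
    (fun (x100 : Nat) => ((fun (x101 : Nat) => ((fun (x102 : Nat) => ((fun (x103 : Nat) => (Nat.add
    (Nat.add (Nat.add (Nat.mul x101 (nat_lit 762123384785)) x102) (Nat.div x103 (nat_lit 2)))
    (Nat.div (Nat.shiftRight (Nat.mul x103 x102) (nat_lit 40)) (nat_lit 3)))) (Nat.shiftRight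
    (Nat.mul x102 x102) (nat_lit 40)))) (Nat.sub (nat_lit 1099511627776) (Nat.shiftLeft x100
    x101)))) (Nat.sub (nat_lit 39) (Nat.log2 x100))))

noncomputable def farc : ((x0 : @K.Blk) → ((x1 : Nat) → Nat)) :=
    (fun (x100 : @K.Blk) => (fun (x101 : Nat) => (@divU (@K.Blk.c3r x100) (Nat.shiftRight (Nat.mul
    x101 (@sqrtL x101)) (nat_lit 40)))))

noncomputable def far0 : ((x0 : @K.Blk) → ((x1 : Nat) → Nat)) :=
    (fun (x100 : @K.Blk) => (fun (x101 : Nat) => (mn (@divU (nat_lit 1099511627776) (Nat.shiftRight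
    (Nat.mul (@K.Blk.mL x100) (@sqrtL x101)) (nat_lit 40))) (@farc x100 x101))))

noncomputable def far2 : ((x0 : @K.Blk) → ((x1 : Nat) → Nat)) :=
    (fun (x100 : @K.Blk) => (fun (x101 : Nat) => (@divU (@K.Blk.m2r x100) (Nat.mul (nat_lit 3)
    (Nat.shiftRight (Nat.mul x101 (@sqrtL x101)) (nat_lit 40))))))

noncomputable def far1 : ((x0 : Nat) → Nat) :=
    (fun (x100 : Nat) => (@divU (nat_lit 3298534883328) (Nat.mul (nat_lit 5) x100)))

noncomputable def far1b : ((x0 : @K.Blk) → ((x1 : Nat) → Nat)) :=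
    (fun (x100 : @K.Blk) => (fun (x101 : Nat) => ((fun (x102 : Nat) => (fun (x103 : Nat) =>
    (@Bool.rec.{1} (fun (x104 : Bool) => Nat) (@far1 x101) (mn (@far1 x101) (Nat.mul (nat_lit 2)
    (@isqU (Nat.mul x102 x103)))) (@Bool.rec.{1} (fun (x105 : Bool) => Bool) (@Bool.false)
    (Nat.ble (Nat.succ x103) (nat_lit 1267650600228229401496703205376)) (Nat.ble (Nat.succ x102)
    (nat_lit 1267650600228229401496703205376)))))) (@farc x100 x101) (@far2 x100 x101))))

noncomputable def mkFar : ((x0 : @K.Blk) → ((x1 : Nat) → ((x2 : Nat) → Nat))) :=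
    (fun (x100 : @K.Blk) => (fun (x101 : Nat) => (fun (x102 : Nat) => ((fun (x103 : Nat) => (fun
    (x104 : Nat) => (fun (x105 : Nat) => (@pk15 (Nat.add (nat_lit 36028797018963968) x103)
    (Nat.add (nat_lit 36028797018963968) x103) x104 (Nat.add (nat_lit 36028797018963968) x105)
    (Nat.add (nat_lit 36028797018963968) x105) (Nat.add x104 (Nat.succ (Nat.shiftRight (Nat.mul
    (@K.Blk.lam x100) x103) (nat_lit 40)))) (Nat.add (Nat.add x105 (Nat.mul (nat_lit 2) (Nat.succ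
    (Nat.shiftRight (Nat.mul (@K.Blk.lam x100) x104) (nat_lit 40))))) (Nat.succ (Nat.shiftRight
    (Nat.mul (@K.Blk.lam x100) (Nat.succ (Nat.shiftRight (Nat.mul (@K.Blk.lam x100) x103)
    (nat_lit 40)))) (nat_lit 40)))) (nat_lit 72057594037927935) (@K.Blk.d1g x100) (Nat.add
    (Nat.add (@divU (@m0a x100 x102) (@K.Blk.mL x100)) (Nat.succ (Nat.shiftRight (Nat.mul
    (@K.Blk.be x100) (@K.Blk.d1g x100)) (nat_lit 40)))) (Nat.succ (Nat.shiftRight (Nat.mul
    (@K.Blk.nr x100) x103) (nat_lit 40)))) (nat_lit 0) (nat_lit 1) (nat_lit 0) (nat_lit 0)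
    (nat_lit 1))))) (mn (@far0 x100 x101) (nat_lit 1099511627776)) (@far1b x100 x101) (@far2 x100
    x101)))))

noncomputable def cellChkN : ((x0 : @K.Blk) → ((x1 : ((x2 : Nat) → Nat)) → ((x3 : ((x4 : Nat) → Nat)) → ((x5 : ((x6 : Nat) →
    Nat)) → ((x7 : ((x8 : Nat) → Nat)) → ((x9 : Nat) → Bool)))))) :=
    (fun (x100 : @K.Blk) => (fun (x101 : ((x102 : Nat) → Nat)) => (fun (x103 : ((x104 : Nat) → Nat))
    => (fun (x105 : ((x106 : Nat) → Nat)) => (fun (x107 : ((x108 : Nat) → Nat)) => (fun (x109 :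
    Nat) => ((fun (x110 : Nat) => (fun (x111 : Nat) => (fun (x112 : Nat) => ((fun (x113 : Nat) =>
    (@Bool.rec.{1} (fun (x114 : Bool) => Bool) (@Bool.false) (@Bool.rec.{1} (fun (x115 : Bool) =>
    Bool) (Nat.ble (Nat.succ (Nat.shiftRight (Nat.mul (Nat.succ (Nat.shiftRight (Nat.mul x113
    x113) (nat_lit 40))) (Nat.add (nat_lit 1099511627776) (Nat.succ (Nat.shiftRight (Nat.mul
    (@K.Blk.gam x100) x111) (nat_lit 40))))) (nat_lit 40))) (nat_lit 1099511627776)) (@Bool.true)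
    (Nat.ble (@K.Blk.Yc x100) x110)) (@Bool.rec.{1} (fun (x116 : Bool) => Bool) (@Bool.false)
    (@Bool.rec.{1} (fun (x117 : Bool) => Bool) (Nat.ble (Nat.succ (Nat.shiftRight (Nat.mul (x107
    x109) x111) (nat_lit 40))) (@nlogL x113)) (@Bool.true) (@Bool.rec.{1} (fun (x118 : Bool) =>
    Bool) (Nat.beq (x107 x109) (@OfNat.ofNat.{0} Nat (nat_lit 0) (@instOfNatNat (nat_lit 0))))
    (@Bool.true) (Nat.beq x113 (@OfNat.ofNat.{0} Nat (nat_lit 0) (@instOfNatNat (nat_lit 0))))))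
    (@Bool.rec.{1} (fun (x119 : Bool) => Bool) (@Bool.false) (Nat.ble (x107 x109) (@Nat.rec.{1}
    (fun (x120 : Nat) => Nat) (@K.Blk.lam x100) (fun (x121 : Nat) => (fun (x122 : Nat) => (x107
    x121))) x109)) (@Bool.rec.{1} (fun (x123 : Bool) => Bool) (@Bool.false) (@Bool.rec.{1} (fun
    (x124 : Bool) => Bool) (Nat.beq (Nat.sub (Nat.mod (Nat.shiftRight x112 (nat_lit 56)) (nat_lit
    72057594037927936)) (nat_lit 36028797018963968)) (@OfNat.ofNat.{0} Nat (nat_lit 0)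
    (@instOfNatNat (nat_lit 0)))) (@Bool.true) (@Bool.rec.{1} (fun (x125 : Bool) => Bool)
    (Nat.ble (@K.Blk.Z2 x100) x110) (@Bool.true) (Nat.ble x111 (@K.Blk.Zc x100)))) (@Bool.rec.{1}
    (fun (x126 : Bool) => Bool) (@Bool.false) (@Bool.rec.{1} (fun (x127 : Bool) => Bool) (Nat.beq
    (Nat.mod (Nat.shiftRight x112 (nat_lit 616)) (nat_lit 72057594037927936)) (@OfNat.ofNat.{0}
    Nat (nat_lit 0) (@instOfNatNat (nat_lit 0)))) (@Bool.true) (Nat.ble (@K.Blk.Zc x100) x110))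
    (@Bool.rec.{1} (fun (x128 : Bool) => Bool) (@Bool.false) (@Bool.rec.{1} (fun (x129 : Bool) =>
    Bool) (Nat.ble (nat_lit 1) (Nat.sub (nat_lit 36028797018963968) (Nat.mod (Nat.shiftRight x112
    (nat_lit 0)) (nat_lit 72057594037927936)))) (@Bool.true) (Nat.ble (@K.Blk.z2 x100) x110))
    (@Bool.rec.{1} (fun (x130 : Bool) => Bool) (@Bool.false) (Nat.beq x112 (@Bool.rec.{1} (fun
    (x131 : Bool) => Nat) (@mkFar x100 x110 x111) (@mkCellN x100 x101 x103 x110 x111) (Nat.ble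
    (Nat.succ x110) (@K.Blk.Yc x100)))) (Nat.ble (nat_lit 1) x112))))))))) (@Bool.rec.{1} (fun
    (x132 : Bool) => Nat) (Nat.sub (mx (Nat.mod (Nat.shiftRight x112 (nat_lit 0)) (nat_lit
    72057594037927936)) (Nat.mod (Nat.shiftRight x112 (nat_lit 56)) (nat_lit 72057594037927936)))
    (nat_lit 36028797018963968)) (Nat.sub (Nat.mod (Nat.shiftRight x112 (nat_lit 0)) (nat_lit
    72057594037927936)) (nat_lit 36028797018963968)) (Nat.ble x111 (@K.Blk.Z2 x100))))))) (@Yb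
    x109) (@Yb (Nat.succ x109)) (x105 x109))))))))

noncomputable def cellsChkN : ((x0 : @K.Blk) → ((x1 : ((x2 : Nat) → Nat)) → ((x3 : ((x4 : Nat) → Nat)) → ((x5 : ((x6 : Nat) →
    Nat)) → ((x7 : ((x8 : Nat) → Nat)) → ((x9 : Nat) → ((x10 : Nat) → Bool))))))) :=
    (fun (x100 : @K.Blk) => (fun (x101 : ((x102 : Nat) → Nat)) => (fun (x103 : ((x104 : Nat) → Nat))
    => (fun (x105 : ((x106 : Nat) → Nat)) => (fun (x107 : ((x108 : Nat) → Nat)) => (fun (x109 :
    Nat) => (fun (x110 : Nat) => (@Nat.rec.{1} (fun (x111 : Nat) => Bool) (@Bool.true) (fun (x112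
    : Nat) => (fun (x113 : Bool) => (@Bool.rec.{1} (fun (x114 : Bool) => Bool) (@Bool.false) x113
    (@fr Bool (Nat.add x109 x112) (@cellChkN x100 x101 x103 x105 x107))))) x110))))))))

noncomputable def Cert_cells : ((x0 : @K.Cert) → Bool) :=
    (fun (x100 : @K.Cert) => (@Bool.rec.{1} (fun (x101 : Bool) => Bool) (@Bool.false) (@restChkN
    (@K.Cert.B x100) (@Cert_Va x100) (@Cert_Vb x100) (@Cert_Ef x100)) (@cellsChkN (@K.Cert.B
    x100) (@Cert_Va x100) (@Cert_Vb x100) (@tget (@K.Cert.T x100) (nat_lit 840)) (@Cert_Ef x100)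
    (nat_lit 0) (nat_lit 681))))

noncomputable def rq : ((x0 : ((x1 : Nat) → ((x2 : Nat) → Nat))) → ((x3 : Nat) → ((x4 : Nat) → Nat))) :=
    (fun (x100 : ((x101 : Nat) → ((x102 : Nat) → Nat))) => (fun (x103 : Nat) => (fun (x104 : Nat) =>
    (@fr Nat (@cidx x103) (fun (x105 : Nat) => (@fr Nat (mx x105 (@cidx (Nat.sub x104 (nat_lit
    1)))) (fun (x106 : Nat) => (x100 x105 x106))))))))

noncomputable def pevN : ((x0 : ((x1 : Nat) → Nat)) → ((x2 : Nat) → Nat)) :=
    (fun (x100 : ((x101 : Nat) → Nat)) => (fun (x102 : Nat) => ((fun (x103 : Nat) => ((fun (x104 :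
    Nat) => (@fr Nat (Nat.sub (Nat.add x104 (Nat.shiftLeft (nat_lit 4) x103)) (nat_lit 4)) (fun
    (x105 : Nat) => ((fun (x106 : Nat) => (Nat.sub (@hor4N (Nat.add (Nat.mod (Nat.shiftRight x106
    (nat_lit 0)) (nat_lit 281474976710656)) (nat_lit
    497323236409786642155382248146820840100456150797347717440463976893159496871795887177728))
    (Nat.add (Nat.mod (Nat.shiftRight x106 (nat_lit 48)) (nat_lit 281474976710656)) (nat_lit
    497323236409786642155382248146820840100456150797347717440463976893159496871795887177728))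
    (Nat.add (Nat.mod (Nat.shiftRight x106 (nat_lit 96)) (nat_lit 281474976710656)) (nat_lit
    497323236409786642155382248146820840100456150797347717440463976893159496871795887177728))
    (Nat.add (Nat.mod (Nat.shiftRight x106 (nat_lit 144)) (nat_lit 281474976710656)) (nat_lit
    497323236409786642155382248146820840100456150797347717440463976893159496871795887177728))
    (Nat.add (Nat.mod (Nat.shiftRight x106 (nat_lit 192)) (nat_lit 281474976710656)) (nat_lit
    497323236409786642155382248146820840100456150797347717440463976893159496871795887177728))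
    (Nat.sub (Nat.add x102 (nat_lit
    497323236409786642155382248146820840100456150797347717440463976893159497012533375533056))
    (Nat.shiftLeft (Nat.succ (Nat.mul (nat_lit 2) x104)) (Nat.add (nat_lit 38) x103)))) (nat_lit
    1267650600228193372699684241408))) (x100 x105))))) (Nat.shiftRight x102 (Nat.add (nat_lit 39)
    x103)))) (@bandOf x102))))

noncomputable def fineN : ((x0 : @K.Blk) → ((x1 : ((x2 : Nat) → Nat)) → ((x3 : ((x4 : Nat) → Nat)) → ((x5 : Nat) → ((x6 :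
    Nat) → ((x7 : Nat) → Nat)))))) :=
    (fun (x100 : @K.Blk) => (fun (x101 : ((x102 : Nat) → Nat)) => (fun (x103 : ((x104 : Nat) → Nat))
    => (fun (x105 : Nat) => (fun (x106 : Nat) => (fun (x107 : Nat) => (@Bool.rec.{1} (fun (x108 :
    Bool) => Nat) x105 ((fun (x109 : Nat) => (fun (x110 : Nat) => (fun (x111 : Nat) => (fun (x112
    : Nat) => (fun (x113 : Nat) => (Nat.add (Nat.add (mn (Nat.mod (Nat.shiftRight x105 (nat_lit
    0)) (nat_lit 72057594037927936)) (Nat.add (Nat.sub (nat_lit 72057594037927936) (mn (mn x109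
    x110) (mn x111 x112))) x113)) (Nat.shiftLeft (mn (Nat.mod (Nat.shiftRight x105 (nat_lit 56))
    (nat_lit 72057594037927936)) (Nat.add (mx (mx x109 x110) (mx x111 x112)) x113)) (nat_lit
    56))) (Nat.shiftLeft (Nat.shiftRight x105 (nat_lit 112)) (nat_lit 112)))))))) (@pevN x101
    x106) (@pevN x101 x107) (@pevN x103 x106) (@pevN x103 x107) (Nat.succ (Nat.add (Nat.add
    (Nat.mod (Nat.shiftRight x105 (nat_lit 560)) (nat_lit 72057594037927936)) (Nat.succ
    (Nat.shiftRight (Nat.mul (Nat.mod (Nat.shiftRight x105 (nat_lit 504)) (nat_lit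
    72057594037927936)) (Nat.shiftLeft (Nat.mul (@Blk_dm x100) (@Blk_dm x100)) (nat_lit 13)))
    (nat_lit 40)))) (Nat.div (Nat.succ (Nat.shiftRight (Nat.mul (Nat.sub (mx (Nat.mod
    (Nat.shiftRight x105 (nat_lit 168)) (nat_lit 72057594037927936)) (Nat.mod (Nat.shiftRight
    x105 (nat_lit 224)) (nat_lit 72057594037927936))) (nat_lit 36028797018963968)) (Nat.succ
    (Nat.shiftRight (Nat.mul (Nat.sub x107 x106) (Nat.sub x107 x106)) (nat_lit 40)))) (nat_lit
    40))) (nat_lit 8))))) (Nat.ble (Nat.succ x107) (@K.Blk.Yp x100)))))))))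

noncomputable def envb : ((x0 : ((x1 : Nat) → Nat)) → ((x2 : Nat) → Nat)) :=
    (fun (x100 : ((x101 : Nat) → Nat)) => (fun (x102 : Nat) => (@fr Nat (@cidx (Nat.sub x102
    (nat_lit 1))) x100)))

noncomputable def t2L : ((x0 : Nat) → ((x1 : Nat) → Nat)) :=
    (fun (x100 : Nat) => (fun (x101 : Nat) => (Nat.div (Nat.shiftLeft (Nat.sub (Nat.pow x101
    (nat_lit 3)) (Nat.pow x100 (nat_lit 3))) (nat_lit 22)) (nat_lit 3))))

noncomputable def cellB : ((x0 : Sort 1) → ((x1 : @K.Blk) → ((x2 : ((x3 : Nat) → ((x4 : Nat) → Nat))) → ((x5 : ((x6 : Nat)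
    → Nat)) → ((x7 : ((x8 : Nat) → Nat)) → ((x9 : ((x10 : Nat) → Nat)) → ((x11 : Nat) → ((x12 :
    Nat) → ((x13 : Nat) → ((x14 : Nat) → ((x15 : Nat) → ((x16 : Nat) → ((x17 : Nat) → ((x18 :
    Nat) → ((x19 : ((x20 : Nat) → ((x21 : Nat) → ((x22 : Nat) → x0)))) → x0))))))))))))))) :=
    (fun (x100 : Sort 1) => (fun (x101 : @K.Blk) => (fun (x102 : ((x103 : Nat) → ((x104 : Nat) →
    Nat))) => (fun (x105 : ((x106 : Nat) → Nat)) => (fun (x107 : ((x108 : Nat) → Nat)) => (fun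
    (x109 : ((x110 : Nat) → Nat)) => (fun (x111 : Nat) => (fun (x112 : Nat) => (fun (x113 : Nat)
    => (fun (x114 : Nat) => (fun (x115 : Nat) => (fun (x116 : Nat) => (fun (x117 : Nat) => (fun
    (x118 : Nat) => (fun (x119 : ((x120 : Nat) → ((x121 : Nat) → ((x122 : Nat) → x100)))) =>
    ((fun (x123 : Nat) => (fun (x124 : Nat) => (fun (x125 : Nat) => ((fun (x126 : Nat) => (fun
    (x127 : Nat) => (fun (x128 : Nat) => (fun (x129 : Nat) => (fun (x130 : Nat) => ((fun (x131 :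
    Nat) => (fun (x132 : Nat) => (fun (x133 : Nat) => (fun (x134 : Nat) => ((fun (x135 : Nat) =>
    (fun (x136 : Nat) => ((fun (x137 : Nat) => (@Bool.rec.{1} (fun (x138 : Bool) => x100) (x119
    x116 (Nat.add x117 x134) x118) (x119 (Nat.add x116 x137) (Nat.add x117 x133) x118) (Nat.ble
    x133 (Nat.add x137 x134)))) (Nat.shiftRight (Nat.mul (Nat.shiftRight (Nat.mul (Nat.shiftRight
    (Nat.mul x136 x136) (nat_lit 40)) (Nat.div (Nat.shiftLeft (Nat.shiftRight (Nat.mul x132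
    (Nat.add (nat_lit 1099511627776) (Nat.div x135 (nat_lit 2)))) (nat_lit 40)) (nat_lit 40))
    (Nat.succ (Nat.add (Nat.add (nat_lit 1099511627776) x135) (Nat.div (Nat.succ (Nat.shiftRight
    (Nat.mul x135 x135) (nat_lit 40))) (nat_lit 2)))))) (nat_lit 40)) (@t2L x114 x115)) (nat_lit
    40))))) (Nat.succ (Nat.shiftRight (Nat.mul x132 x129) (nat_lit 40))) (mx (Nat.sub (nat_lit
    36028797018963968) (Nat.mod (Nat.shiftRight x131 (nat_lit 0)) (nat_lit 72057594037927936)))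
    (Nat.sub (nat_lit 36028797018963968) (Nat.mod (Nat.shiftRight x131 (nat_lit 56)) (nat_lit
    72057594037927936))))))))) (@fineN x101 x107 x109 (@rq x102 x126 (Nat.succ x127)) x126 x127)
    (@envb x105 x129) (Nat.succ (Nat.shiftRight (Nat.mul (Nat.mul (Nat.mul (Nat.add (Nat.mul
    (Nat.sub (mx (Nat.mod (Nat.shiftRight x128 (nat_lit 0)) (nat_lit 72057594037927936)) (Nat.mod
    (Nat.shiftRight x128 (nat_lit 56)) (nat_lit 72057594037927936))) (nat_lit 36028797018963968))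
    (Nat.sub (mx (Nat.mod (Nat.shiftRight x128 (nat_lit 168)) (nat_lit 72057594037927936))
    (Nat.mod (Nat.shiftRight x128 (nat_lit 224)) (nat_lit 72057594037927936))) (nat_lit
    36028797018963968))) (Nat.mul (Nat.mul (nat_lit 3) (Nat.mod (Nat.shiftRight x128 (nat_lit
    112)) (nat_lit 72057594037927936))) (Nat.mod (Nat.shiftRight x128 (nat_lit 112)) (nat_lit
    72057594037927936)))) x130) x130) x125) (nat_lit 162))) (Nat.succ (Nat.shiftRight (Nat.mul
    (Nat.succ (Nat.shiftRight (Nat.mul (Nat.sub (Nat.mod (Nat.shiftRight x128 (nat_lit 0))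
    (nat_lit 72057594037927936)) (nat_lit 36028797018963968)) (Nat.sub (Nat.mod (Nat.shiftRight
    x128 (nat_lit 56)) (nat_lit 72057594037927936)) (nat_lit 36028797018963968))) (nat_lit 40)))
    x125) (nat_lit 40))))))))) (Nat.shiftRight (Nat.mul (Nat.div (Nat.sub (nat_lit 1099511627776)
    x112) (nat_lit 2)) x123) (nat_lit 40)) (Nat.succ (Nat.shiftRight (Nat.mul (Nat.succ (Nat.div
    (Nat.sub (nat_lit 1099511627776) x111) (nat_lit 2))) x124) (nat_lit 40))) (@rq x102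
    (Nat.shiftRight (Nat.mul (Nat.div (Nat.sub (Nat.sub (nat_lit 1099511627776) x112) x113)
    (nat_lit 2)) x123) (nat_lit 40)) (Nat.succ (Nat.shiftRight (Nat.mul (Nat.succ (Nat.div
    (Nat.add (Nat.sub (nat_lit 1099511627776) x111) x113) (nat_lit 2))) x124) (nat_lit 40))))
    (Nat.succ (Nat.shiftRight (Nat.mul x112 x124) (nat_lit 40))) (Nat.succ (Nat.shiftRight
    (Nat.mul x113 x124) (nat_lit 40))))))) (Nat.shiftLeft (Nat.mul x114 x114) (nat_lit 28))
    (Nat.shiftLeft (Nat.mul x115 x115) (nat_lit 28)) (@Bool.rec.{1} (fun (x139 : Bool) => Nat)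
    (mn (Nat.succ (Nat.shiftRight (Nat.mul (@K.Blk.lamh x101) (Nat.succ (@t2L x114 x115)))
    (nat_lit 40))) (@divU (Nat.mul (nat_lit 2) (Nat.shiftLeft (Nat.sub x115 x114) (nat_lit 34)))
    x111)) (Nat.succ (Nat.shiftRight (Nat.mul (@K.Blk.lamh x101) (Nat.succ (@t2L x114 x115)))
    (nat_lit 40))) (Nat.beq x111 (@OfNat.ofNat.{0} Nat (nat_lit 0) (@instOfNatNat (nat_lit
    0)))))))))))))))))))))

noncomputable def sweep : ((x0 : Sort 1) → ((x1 : (@List.{0} Nat)) → ((x2 : ((x3 : Nat) → ((x4 : Nat) → ((x5 : Nat) → ((x6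
    : Nat) → ((x7 : Nat) → ((x8 : ((x9 : Nat) → ((x10 : Nat) → ((x11 : Nat) → x0)))) → x0)))))))
    → ((x12 : ((x13 : Nat) → ((x14 : Nat) → ((x15 : Nat) → ((x16 : Nat) → x0))))) → x0)))) :=
    (fun (x100 : Sort 1) => (fun (x101 : (@List.{0} Nat)) => (fun (x102 : ((x103 : Nat) → ((x104 :
    Nat) → ((x105 : Nat) → ((x106 : Nat) → ((x107 : Nat) → ((x108 : ((x109 : Nat) → ((x110 : Nat)
    → ((x111 : Nat) → x100)))) → x100))))))) => (fun (x112 : ((x113 : Nat) → ((x114 : Nat) →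
    ((x115 : Nat) → ((x116 : Nat) → x100))))) => (@List.rec.{1,0} Nat (fun (x117 : (@List.{0}
    Nat)) => ((x118 : Nat) → ((x119 : Nat) → ((x120 : Nat) → ((x121 : Nat) → x100))))) x112 (fun
    (x122 : Nat) => (fun (x123 : (@List.{0} Nat)) => (fun (x124 : ((x125 : Nat) → ((x126 : Nat) →
    ((x127 : Nat) → ((x128 : Nat) → x100))))) => (@Nat.rec.{1} (fun (x129 : Nat) => ((x130 : Nat)
    → ((x131 : Nat) → ((x132 : Nat) → ((x133 : Nat) → x100))))) x124 (fun (x134 : Nat) => (fun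
    (x135 : ((x136 : Nat) → ((x137 : Nat) → ((x138 : Nat) → ((x139 : Nat) → x100))))) => (fun
    (x140 : Nat) => (fun (x141 : Nat) => (fun (x142 : Nat) => (fun (x143 : Nat) => (@fr x100
    (Nat.add x140 (Nat.mod x122 (nat_lit 65536))) (fun (x144 : Nat) => (x102 x140 x144 x141 x142
    x143 (fun (x145 : Nat) => (fun (x146 : Nat) => (fun (x147 : Nat) => (@fr x100 x145 (fun (x148
    : Nat) => (@fr x100 x146 (fun (x149 : Nat) => (@fr x100 x147 (fun (x150 : Nat) => (x135 x144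
    x148 x149 x150))))))))))))))))))) (Nat.div x122 (nat_lit 65536)))))) x101 (nat_lit 0)
    (nat_lit 0) (nat_lit 0) (nat_lit 0))))))

noncomputable def ballRun : ((x0 : @K.Blk) → ((x1 : ((x2 : Nat) → ((x3 : Nat) → Nat))) → ((x4 : ((x5 : Nat) → Nat)) → ((x6 :
    ((x7 : Nat) → Nat)) → ((x8 : ((x9 : Nat) → Nat)) → ((x10 : Nat) → ((x11 : Nat) → ((x12 : Nat)
    → ((x13 : (@List.{0} Nat)) → Bool))))))))) :=
    (fun (x100 : @K.Blk) => (fun (x101 : ((x102 : Nat) → ((x103 : Nat) → Nat))) => (fun (x104 :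
    ((x105 : Nat) → Nat)) => (fun (x106 : ((x107 : Nat) → Nat)) => (fun (x108 : ((x109 : Nat) →
    Nat)) => (fun (x110 : Nat) => (fun (x111 : Nat) => (fun (x112 : Nat) => (fun (x113 :
    (@List.{0} Nat)) => (@Bool.rec.{1} (fun (x114 : Bool) => Bool) (@Bool.false) (@sweep Bool
    x113 (@cellB Bool x100 x101 x104 x106 x108 x110 x111 x112) (fun (x115 : Nat) => (fun (x116 :
    Nat) => (fun (x117 : Nat) => (fun (x118 : Nat) => ((fun (x119 : Nat) => (@Bool.rec.{1} (fun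
    (x120 : Bool) => Bool) (@Bool.false) (Nat.ble (Nat.succ (Nat.add (Nat.add x117 (Nat.succ
    (Nat.shiftRight (Nat.mul (Nat.succ (Nat.shiftRight (Nat.mul (Nat.succ (Nat.shiftRight
    (Nat.mul (Nat.succ (Nat.shiftRight (Nat.mul (@K.Blk.lamh x100) (Nat.shiftLeft (Nat.mul x115
    x115) (nat_lit 28))) (nat_lit 40))) x119) (nat_lit 40))) x119) (nat_lit 40))) (Nat.succ
    (Nat.div (Nat.shiftLeft x115 (nat_lit 34)) (nat_lit 3)))) (nat_lit 40)))) (@divU (@K.Blk.kh
    x100) (Nat.mul (nat_lit 2) (Nat.sub (nat_lit 1099511627776) x111))))) x116) (Nat.ble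
    (Nat.succ x119) (nat_lit 1267650600228229401496703205376)))) (@farc x100 (Nat.shiftRight
    (Nat.mul (Nat.div (Nat.sub (Nat.sub (nat_lit 1099511627776) x111) x112) (nat_lit 2))
    (Nat.shiftLeft (Nat.mul x115 x115) (nat_lit 28))) (nat_lit 40))))))))) (Nat.ble (Nat.succ
    (Nat.add x111 x112)) (nat_lit 1099511627776))))))))))))

noncomputable def ballChk : ((x0 : @K.Blk) → ((x1 : ((x2 : Nat) → ((x3 : Nat) → Nat))) → ((x4 : ((x5 : Nat) → Nat)) → ((x6 :
    ((x7 : Nat) → Nat)) → ((x8 : ((x9 : Nat) → Nat)) → ((x10 : (@List.{0} (@Prod.{0,0} Nat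
    (@Prod.{0,0} Nat (@List.{0} Nat))))) → Bool)))))) :=
    (fun (x100 : @K.Blk) => (fun (x101 : ((x102 : Nat) → ((x103 : Nat) → Nat))) => (fun (x104 :
    ((x105 : Nat) → Nat)) => (fun (x106 : ((x107 : Nat) → Nat)) => (fun (x108 : ((x109 : Nat) →
    Nat)) => (fun (x110 : (@List.{0} (@Prod.{0,0} Nat (@Prod.{0,0} Nat (@List.{0} Nat))))) =>
    (@List.rec.{1,0} (@Prod.{0,0} Nat (@Prod.{0,0} Nat (@List.{0} Nat))) (fun (x111 : (@List.{0}
    (@Prod.{0,0} Nat (@Prod.{0,0} Nat (@List.{0} Nat))))) => ((x112 : Nat) → Bool)) (fun (x113 :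
    Nat) => @Bool.true) (fun (x114 : (@Prod.{0,0} Nat (@Prod.{0,0} Nat (@List.{0} Nat)))) => (fun
    (x115 : (@List.{0} (@Prod.{0,0} Nat (@Prod.{0,0} Nat (@List.{0} Nat))))) => (fun (x116 :
    ((x117 : Nat) → Bool)) => (fun (x118 : Nat) => (@Bool.rec.{1} (fun (x119 : Bool) => Bool)
    (@Bool.false) (x116 (@Prod.fst.{0,0} Nat (@Prod.{0,0} Nat (@List.{0} Nat)) x114)) (@ballRun
    x100 x101 x104 x106 x108 x118 (@Prod.fst.{0,0} Nat (@Prod.{0,0} Nat (@List.{0} Nat)) x114)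
    (@Prod.fst.{0,0} Nat (@List.{0} Nat) (@Prod.snd.{0,0} Nat (@Prod.{0,0} Nat (@List.{0} Nat))
    x114)) (@Prod.snd.{0,0} Nat (@List.{0} Nat) (@Prod.snd.{0,0} Nat (@Prod.{0,0} Nat (@List.{0}
    Nat)) x114)))))))) x110 (nat_lit 0))))))))

noncomputable def mrgF : ((x0 : Nat) → ((x1 : Nat) → Nat)) :=
    (fun (x100 : Nat) => (fun (x101 : Nat) => (Nat.add ((fun (x102 : Nat) => ((fun (x103 : Nat) =>
    (Nat.add (Nat.land x101 (nat_lit
    271942652322184750755106736933322637325446821626240647133505031976872167328601173707867676246829268400342001666836578902346344565864730224905386752449211252261922934280350619703743348735))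
    (Nat.land x102 (Nat.sub x103 (Nat.shiftRight x103 (nat_lit 56)))))) (Nat.land x102 (nat_lit
    271942652322184754529069161754863989567001402614510264889150548000203145028615361958166176326724920567688848477230054877445382505279706706324949551769437505227726468345486052884182204416))))
    (Nat.sub (Nat.add (Nat.land x100 (nat_lit
    271942652322184750755106736933322637325446821626240647133505031976872167328601173707867676246829268400342001666836578902346344565864730224905386752449211252261922934280350619703743348735))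
    (nat_lit
    271942652322184754529069161754863989567001402614510264889150548000203145028615361958166176326724920567688848477230054877445382505279706706324949551769437505227726468345486052884182204416))
    (Nat.land x101 (nat_lit
    271942652322184750755106736933322637325446821626240647133505031976872167328601173707867676246829268400342001666836578902346344565864730224905386752449211252261922934280350619703743348735))))
    ((fun (x104 : Nat) => ((fun (x105 : Nat) => (Nat.add (Nat.land x101 (nat_lit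
    3773962424821541299867304854649999697544610366781734455320155174574583524912968125862129335030121629617511104055013455881672287476679281471933318676387370708440501452800))
    (Nat.land x104 (Nat.sub x105 (Nat.shiftRight x105 (nat_lit 56)))))) (Nat.land x104 (nat_lit
    3773962424821541352241554580988269617755645516023330977700014188250298500079895652167346846810393475975099037939414976481419562799320226252965803534065135433180438855680))))
    (Nat.sub (Nat.add (Nat.land x100 (nat_lit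
    3773962424821541299867304854649999697544610366781734455320155174574583524912968125862129335030121629617511104055013455881672287476679281471933318676387370708440501452800))
    (nat_lit
    3773962424821541352241554580988269617755645516023330977700014188250298500079895652167346846810393475975099037939414976481419562799320226252965803534065135433180438855680))
    (Nat.land x101 (nat_lit
    3773962424821541299867304854649999697544610366781734455320155174574583524912968125862129335030121629617511104055013455881672287476679281471933318676387370708440501452800)))))))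

noncomputable def lv : ((x0 : ((x1 : Nat) → Nat)) → ((x2 : Nat) → ((x3 : Nat) → Nat))) :=
    (fun (x100 : ((x101 : Nat) → Nat)) => (fun (x102 : Nat) => (fun (x103 : Nat) => (@Nat.rec.{1}
    (fun (x104 : Nat) => ((x105 : Nat) → Nat)) x100 (fun (x106 : Nat) => (fun (x107 : ((x108 :
    Nat) → Nat)) => (fun (x109 : Nat) => (@fr Nat (Nat.add x109 (Nat.shiftLeft (nat_lit 1) x106))
    (fun (x110 : Nat) => (@mrgF (x107 x109) (x107 x110))))))) x102 x103))))

noncomputable def rq2 : ((x0 : ((x1 : Nat) → ((x2 : Nat) → Nat))) → ((x3 : Nat) → ((x4 : Nat) → Nat))) :=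
    (fun (x100 : ((x101 : Nat) → ((x102 : Nat) → Nat))) => (fun (x103 : Nat) => (fun (x104 : Nat) =>
    (@Bool.rec.{1} (fun (x105 : Bool) => Nat) (@fr Nat (Nat.log2 (Nat.sub (Nat.succ x104) x103))
    (fun (x106 : Nat) => (@fr Nat (Nat.sub (Nat.succ x104) (Nat.shiftLeft (nat_lit 1) x106)) (fun
    (x107 : Nat) => (@mrgF (x100 x106 x103) (x100 x106 x107)))))) (x100 (nat_lit 0) x103)
    (Nat.beq x103 x104)))))

noncomputable def Cert_Q : ((x0 : @K.Cert) → ((x1 : Nat) → ((x2 : Nat) → Nat))) :=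
    (fun (x100 : @K.Cert) => (@rq2 (@lv (@tget (@K.Cert.T x100) (nat_lit 840)))))

noncomputable def Cert_VV : ((x0 : @K.Cert) → ((x1 : Nat) → ((x2 : Nat) → Nat))) :=
    (fun (x100 : @K.Cert) => (@vget (@K.Cert.VL x100)))

noncomputable def Cert_cls : ((x0 : @K.Cert) → ((x1 : @K.Cl) → ((x2 : Nat) → ((x3 : Bool) → @K.Cls)))) :=
    (fun (x100 : @K.Cert) => (fun (x101 : @K.Cl) => (fun (x102 : Nat) => (fun (x103 : Bool) =>
    (@K.Cls.mk x102 x103 (@K.Cl.H x101) (@K.Cl.H1 x101) (@K.Cl.M1 x101) (@K.Cert.bl x100)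
    (@K.Cl.sch x101) (@K.Cl.schM x101))))))

noncomputable def m3s : ((x0 : Nat) → ((x1 : Nat) → ((x2 : Nat) → ((x3 : Nat) → ((x4 : Nat) → ((x5 : Nat) → ((x6 : Nat)
    → ((x7 : Nat) → ((x8 : Nat) → ((x9 : Nat) → ((x10 : Nat) → ((x11 : Nat) → ((x12 : Nat) →
    ((x13 : Nat) → Nat)))))))))))))) :=
    (fun (x100 : Nat) => (fun (x101 : Nat) => (fun (x102 : Nat) => (fun (x103 : Nat) => (fun (x104 :
    Nat) => (fun (x105 : Nat) => (fun (x106 : Nat) => (fun (x107 : Nat) => (fun (x108 : Nat) =>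
    (fun (x109 : Nat) => (fun (x110 : Nat) => (fun (x111 : Nat) => (fun (x112 : Nat) => (fun
    (x113 : Nat) => ((fun (x114 : Nat) => (fun (x115 : Nat) => (fun (x116 : Nat) => (Nat.add
    (Nat.add (Nat.mul (Nat.add (Nat.add (Nat.mul (Nat.mul (Nat.mul x105 x105) x109) x101)
    (Nat.mul (nat_lit 2) (Nat.mul x114 x115))) (Nat.mul x100 (Nat.mul (Nat.mul x106 x106) x111)))
    x102) (Nat.mul (nat_lit 2) (Nat.mul (Nat.mul (Nat.add (Nat.mul x114 x101) (Nat.mul x100
    x115)) x116) x103))) (Nat.mul (Nat.mul x100 x101) (Nat.add (Nat.mul x103 (Nat.mul (Nat.mul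
    x107 x107) x113)) (Nat.mul (Nat.mul x104 x116) x116))))))) (Nat.mul x105 x108) (Nat.mul x106
    x110) (Nat.mul x107 x112))))))))))))))))

noncomputable def m2s : ((x0 : Nat) → ((x1 : Nat) → ((x2 : Nat) → ((x3 : Nat) → ((x4 : Nat) → ((x5 : Nat) → ((x6 : Nat)
    → ((x7 : Nat) → ((x8 : Nat) → ((x9 : Nat) → Nat)))))))))) :=
    (fun (x100 : Nat) => (fun (x101 : Nat) => (fun (x102 : Nat) => (fun (x103 : Nat) => (fun (x104 :
    Nat) => (fun (x105 : Nat) => (fun (x106 : Nat) => (fun (x107 : Nat) => (fun (x108 : Nat) =>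
    (fun (x109 : Nat) => ((fun (x110 : Nat) => (Nat.add (Nat.add (Nat.mul (Nat.mul (Nat.mul x104
    x104) x107) x101) (Nat.mul (nat_lit 2) (Nat.mul (Nat.mul (Nat.mul x104 x106) x110) x102)))
    (Nat.mul x100 (Nat.add (Nat.mul x102 (Nat.mul (Nat.mul x105 x105) x109)) (Nat.mul (Nat.mul
    x103 x110) x110))))) (Nat.mul x105 x108))))))))))))

noncomputable def eNode : ((x0 : @K.Blk) → ((x1 : ((x2 : Nat) → ((x3 : Nat) → Nat))) → ((x4 : Nat) → ((x5 : Nat) → ((x6 :
    Nat) → ((x7 : Nat) → ((x8 : Nat) → ((x9 : Nat) → ((x10 : Nat) → Nat))))))))) :=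
    (fun (x100 : @K.Blk) => (fun (x101 : ((x102 : Nat) → ((x103 : Nat) → Nat))) => (fun (x104 : Nat)
    => (fun (x105 : Nat) => (fun (x106 : Nat) => (fun (x107 : Nat) => (fun (x108 : Nat) => (fun
    (x109 : Nat) => (fun (x110 : Nat) => ((fun (x111 : Nat) => (fun (x112 : Nat) => (fun (x113 :
    Nat) => (fun (x114 : Nat) => (fun (x115 : Nat) => (fun (x116 : Nat) => ((fun (x117 : Nat) =>
    (fun (x118 : Nat) => (fun (x119 : Nat) => (fun (x120 : Nat) => (fun (x121 : Nat) => (fun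
    (x122 : Nat) => ((fun (x123 : Nat) => (fun (x124 : Nat) => (fun (x125 : Nat) => ((fun (x126 :
    Nat) => (fun (x127 : Nat) => (fun (x128 : Nat) => (@Bool.rec.{1} (fun (x129 : Bool) => Nat)
    (nat_lit 1267650600228229401496703205376) (Nat.add (Nat.succ (Nat.shiftRight (Nat.add
    (Nat.add (mn (@m3s x123 x124 x126 x127 x128 x114 x120 x121 (Nat.mod (Nat.shiftRight x117
    (nat_lit 112)) (nat_lit 72057594037927936)) (Nat.sub (mx (Nat.mod (Nat.shiftRight x117
    (nat_lit 168)) (nat_lit 72057594037927936)) (Nat.mod (Nat.shiftRight x117 (nat_lit 224))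
    (nat_lit 72057594037927936))) (nat_lit 36028797018963968)) (Nat.mod (Nat.shiftRight x118
    (nat_lit 112)) (nat_lit 72057594037927936)) (Nat.sub (mx (Nat.mod (Nat.shiftRight x118
    (nat_lit 168)) (nat_lit 72057594037927936)) (Nat.mod (Nat.shiftRight x118 (nat_lit 224))
    (nat_lit 72057594037927936))) (nat_lit 36028797018963968)) (Nat.mod (Nat.shiftRight x119
    (nat_lit 112)) (nat_lit 72057594037927936)) (Nat.sub (mx (Nat.mod (Nat.shiftRight x119
    (nat_lit 168)) (nat_lit 72057594037927936)) (Nat.mod (Nat.shiftRight x119 (nat_lit 224))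
    (nat_lit 72057594037927936))) (nat_lit 36028797018963968))) (@m3s x123 x124 x126 x127 x128
    x114 x120 x121 (Nat.mod (Nat.shiftRight x117 (nat_lit 280)) (nat_lit 72057594037927936))
    (Nat.mod (Nat.shiftRight x117 (nat_lit 336)) (nat_lit 72057594037927936)) (Nat.mod
    (Nat.shiftRight x118 (nat_lit 280)) (nat_lit 72057594037927936)) (Nat.mod (Nat.shiftRight
    x118 (nat_lit 336)) (nat_lit 72057594037927936)) (Nat.mod (Nat.shiftRight x119 (nat_lit 280))
    (nat_lit 72057594037927936)) (Nat.mod (Nat.shiftRight x119 (nat_lit 336)) (nat_lit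
    72057594037927936)))) (Nat.mul x123 (mn (@m2s x124 x126 x127 x128 x115 x122 (Nat.mod
    (Nat.shiftRight x118 (nat_lit 112)) (nat_lit 72057594037927936)) (Nat.sub (mx (Nat.mod
    (Nat.shiftRight x118 (nat_lit 168)) (nat_lit 72057594037927936)) (Nat.mod (Nat.shiftRight
    x118 (nat_lit 224)) (nat_lit 72057594037927936))) (nat_lit 36028797018963968)) (Nat.mod
    (Nat.shiftRight x119 (nat_lit 112)) (nat_lit 72057594037927936)) (Nat.sub (mx (Nat.mod
    (Nat.shiftRight x119 (nat_lit 168)) (nat_lit 72057594037927936)) (Nat.mod (Nat.shiftRight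
    x119 (nat_lit 224)) (nat_lit 72057594037927936))) (nat_lit 36028797018963968))) (@m2s x124
    x126 x127 x128 x115 x122 (Nat.mod (Nat.shiftRight x118 (nat_lit 280)) (nat_lit
    72057594037927936)) (Nat.mod (Nat.shiftRight x118 (nat_lit 336)) (nat_lit 72057594037927936))
    (Nat.mod (Nat.shiftRight x119 (nat_lit 280)) (nat_lit 72057594037927936)) (Nat.mod
    (Nat.shiftRight x119 (nat_lit 336)) (nat_lit 72057594037927936)))))) (@m3s x123 x124 x126
    x127 x128 x116 x116 x116 (Nat.mod (Nat.shiftRight x117 (nat_lit 448)) (nat_lit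
    72057594037927936)) (Nat.mod (Nat.shiftRight x117 (nat_lit 504)) (nat_lit 72057594037927936))
    (Nat.mod (Nat.shiftRight x118 (nat_lit 448)) (nat_lit 72057594037927936)) (Nat.mod
    (Nat.shiftRight x118 (nat_lit 504)) (nat_lit 72057594037927936)) (Nat.mod (Nat.shiftRight
    x119 (nat_lit 448)) (nat_lit 72057594037927936)) (Nat.mod (Nat.shiftRight x119 (nat_lit 504))
    (nat_lit 72057594037927936)))) (nat_lit 243))) (Nat.succ (Nat.sub (Nat.succ (Nat.shiftRight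
    (Nat.mul (Nat.succ (Nat.shiftRight (Nat.mul (Nat.add x123 (Nat.mod (Nat.shiftRight x117
    (nat_lit 560)) (nat_lit 72057594037927936))) (Nat.add x124 (Nat.mod (Nat.shiftRight x118
    (nat_lit 560)) (nat_lit 72057594037927936)))) (nat_lit 40))) (Nat.succ (Nat.succ
    (Nat.shiftRight (Nat.shiftLeft (Nat.pow (Nat.add x125 (Nat.mod (Nat.shiftRight x119 (nat_lit
    560)) (nat_lit 72057594037927936))) x104) (nat_lit 40)) (Nat.mul (nat_lit 40) x104)))))
    (nat_lit 40))) (Nat.shiftRight (Nat.mul (Nat.shiftRight (Nat.mul x123 x124) (nat_lit 40))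
    (Nat.shiftRight (Nat.shiftLeft (Nat.pow x125 x104) (nat_lit 40)) (Nat.mul (nat_lit 40)
    x104))) (nat_lit 40))))) (Nat.ble (Nat.succ (mx x111 (mx x112 x113))) (@K.Blk.Yp x100))))))
    (Nat.shiftLeft (Nat.succ (Nat.shiftRight (Nat.shiftLeft (Nat.pow x125 x104) (nat_lit 40))
    (Nat.mul (nat_lit 40) x104))) (nat_lit 80)) (Nat.shiftLeft (Nat.mul x104 (Nat.succ
    (Nat.shiftRight (Nat.shiftLeft (Nat.pow x125 (Nat.sub x104 (nat_lit 1))) (nat_lit 40))
    (Nat.mul (nat_lit 40) (Nat.sub x104 (nat_lit 1)))))) (nat_lit 40)) (Nat.mul (Nat.mul x104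
    (Nat.sub x104 (nat_lit 1))) (Nat.succ (Nat.shiftRight (Nat.shiftLeft (Nat.pow x125 (Nat.sub
    x104 (nat_lit 2))) (nat_lit 40)) (Nat.mul (nat_lit 40) (Nat.sub x104 (nat_lit 2))))))))))
    (Nat.sub (mx (Nat.mod (Nat.shiftRight x117 (nat_lit 0)) (nat_lit 72057594037927936)) (Nat.mod
    (Nat.shiftRight x117 (nat_lit 56)) (nat_lit 72057594037927936))) (nat_lit 36028797018963968))
    (Nat.sub (mx (Nat.mod (Nat.shiftRight x118 (nat_lit 0)) (nat_lit 72057594037927936)) (Nat.mod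
    (Nat.shiftRight x118 (nat_lit 56)) (nat_lit 72057594037927936))) (nat_lit 36028797018963968))
    (Nat.sub (mx (Nat.mod (Nat.shiftRight x119 (nat_lit 0)) (nat_lit 72057594037927936)) (Nat.mod
    (Nat.shiftRight x119 (nat_lit 56)) (nat_lit 72057594037927936))) (nat_lit
    36028797018963968))))))))) (@rq x101 (Nat.shiftRight (Nat.mul (Nat.shiftLeft x105 (nat_lit
    20)) x110) (nat_lit 40)) x111) (@rq x101 (Nat.shiftRight (Nat.mul (Nat.mul x107 (Nat.sub
    (nat_lit 1048576) x106)) x110) (nat_lit 40)) x112) (@rq x101 (Nat.div (Nat.shiftRight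
    (Nat.mul (Nat.mul (Nat.sub (nat_lit 1048576) x108) (Nat.sub (nat_lit 1048576) x106)) x110)
    (nat_lit 40)) x104) x113) (Nat.succ (Nat.shiftRight (Nat.mul x108 x114) (nat_lit 20)))
    (Nat.succ (Nat.div (Nat.succ (Nat.shiftRight (Nat.mul (Nat.sub (nat_lit 1048576) x107) x114)
    (nat_lit 20))) x104)) (Nat.succ (Nat.div x115 x104))))))))) (Nat.succ (Nat.shiftRight
    (Nat.mul (Nat.shiftLeft x106 (nat_lit 20)) x110) (nat_lit 40))) (Nat.succ (Nat.shiftRight
    (Nat.mul (Nat.mul x108 (Nat.sub (nat_lit 1048576) x105)) x110) (nat_lit 40))) (Nat.succ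
    (Nat.div (Nat.succ (Nat.shiftRight (Nat.mul (Nat.mul (Nat.sub (nat_lit 1048576) x107)
    (Nat.sub (nat_lit 1048576) x105)) x110) (nat_lit 40))) x104)) (Nat.succ (Nat.shiftRight
    (Nat.mul (Nat.sub x106 x105) x110) (nat_lit 20))) (Nat.succ (Nat.shiftRight (Nat.mul (Nat.mul
    (Nat.sub x108 x107) (Nat.sub (nat_lit 1048576) x105)) x110) (nat_lit 40))) (Nat.shiftLeft
    x109 (nat_lit 28))))))))))))

noncomputable def eSum : ((x0 : @K.Blk) → ((x1 : ((x2 : Nat) → ((x3 : Nat) → Nat))) → ((x4 : Nat) → ((x5 : Nat) → ((x6 :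
    Nat) → ((x7 : Nat) → ((x8 : Nat) → ((x9 : Nat) → ((x10 : Nat) → ((x11 : Nat) → Nat)))))))))) :=
    (fun (x100 : @K.Blk) => (fun (x101 : ((x102 : Nat) → ((x103 : Nat) → Nat))) => (fun (x104 : Nat)
    => (fun (x105 : Nat) => (fun (x106 : Nat) => (fun (x107 : Nat) => (fun (x108 : Nat) => (fun
    (x109 : Nat) => (fun (x110 : Nat) => (fun (x111 : Nat) => (@Nat.rec.{1} (fun (x112 : Nat) =>
    Nat) (nat_lit 0) (fun (x113 : Nat) => (fun (x114 : Nat) => (Nat.add x114 (@eNode x100 x101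
    x104 x106 x107 x108 x109 x110 (Nat.shiftLeft (Nat.mul (Nat.mul (Nat.succ x113) x105) (Nat.mul
    (Nat.succ x113) x105)) (nat_lit 32)))))) x111)))))))))))

noncomputable def rqI : ((x0 : ((x1 : Nat) → ((x2 : Nat) → Nat))) → ((x3 : Nat) → Nat)) :=
    (fun (x100 : ((x101 : Nat) → ((x102 : Nat) → Nat))) => (fun (x103 : Nat) => (@fr Nat (@cidx
    x103) (fun (x104 : Nat) => (x100 x104 (nat_lit 680))))))

noncomputable def tailP : ((x0 : @K.Blk) → ((x1 : ((x2 : Nat) → ((x3 : Nat) → Nat))) → ((x4 : Nat) → ((x5 : Nat) → ((x6 :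
    Nat) → ((x7 : Nat) → ((x8 : Nat) → ((x9 : Nat) → ((x10 : Nat) → Nat))))))))) :=
    (fun (x100 : @K.Blk) => (fun (x101 : ((x102 : Nat) → ((x103 : Nat) → Nat))) => (fun (x104 : Nat)
    => (fun (x105 : Nat) => (fun (x106 : Nat) => (fun (x107 : Nat) => (fun (x108 : Nat) => (fun
    (x109 : Nat) => (fun (x110 : Nat) => ((fun (x111 : Nat) => ((fun (x112 : Nat) => (fun (x113 :
    Nat) => (fun (x114 : Nat) => ((fun (x115 : Nat) => (fun (x116 : Nat) => (fun (x117 : Nat) =>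
    (fun (x118 : Nat) => (fun (x119 : Nat) => (fun (x120 : Nat) => (mn (mn (@Bool.rec.{1} (fun
    (x121 : Bool) => Nat) (nat_lit 1267650600228229401496703205376) (Nat.succ (Nat.shiftRight
    (Nat.mul (Nat.succ (Nat.shiftRight (Nat.mul (Nat.succ (Nat.shiftRight (Nat.mul x115 x116)
    (nat_lit 40))) x120) (nat_lit 40))) (Nat.shiftLeft (Nat.mul x110 x105) (nat_lit 36)))
    (nat_lit 40))) (@Bool.rec.{1} (fun (x122 : Bool) => Bool) (@Bool.false) (Nat.ble (Nat.succ
    x116) (nat_lit 1267650600228229401496703205376)) (Nat.ble (Nat.succ x115) (nat_lit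
    1267650600228229401496703205376)))) (@Bool.rec.{1} (fun (x123 : Bool) => Nat) (nat_lit
    1267650600228229401496703205376) (Nat.succ (Nat.shiftRight (Nat.mul (Nat.succ (Nat.shiftRight
    (Nat.mul (Nat.succ (Nat.shiftRight (Nat.mul x118 x119) (nat_lit 40))) x120) (nat_lit 40)))
    (Nat.shiftLeft (Nat.mul x110 x105) (nat_lit 35))) (nat_lit 40))) (Nat.ble (Nat.succ x118)
    (nat_lit 1267650600228229401496703205376)))) (@Bool.rec.{1} (fun (x124 : Bool) => Nat)
    (nat_lit 1267650600228229401496703205376) (Nat.succ (Nat.shiftRight (Nat.mul (Nat.succ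
    (Nat.shiftRight (Nat.mul (Nat.succ (Nat.shiftRight (Nat.mul x115 x119) (nat_lit 40)))
    (Nat.succ (Nat.shiftRight (Nat.shiftLeft (Nat.pow x117 x104) (nat_lit 40)) (Nat.mul (nat_lit
    40) x104)))) (nat_lit 40))) (Nat.shiftLeft (Nat.mul x110 x105) (nat_lit 36))) (nat_lit 40)))
    (@Bool.rec.{1} (fun (x125 : Bool) => Bool) (@Bool.false) (Nat.ble (Nat.succ x117) (nat_lit
    1267650600228229401496703205376)) (Nat.ble (Nat.succ x115) (nat_lit
    1267650600228229401496703205376))))))))))) (@far0 x100 x112) (@far0 x100 x113) (@far0 x100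
    x114) (@farc x100 x112) (Nat.sub (mx (Nat.mod (Nat.shiftRight (@rqI x101 x113) (nat_lit 0))
    (nat_lit 72057594037927936)) (Nat.mod (Nat.shiftRight (@rqI x101 x113) (nat_lit 56)) (nat_lit
    72057594037927936))) (nat_lit 36028797018963968)) (Nat.succ (Nat.shiftRight (Nat.shiftLeft
    (Nat.pow (Nat.sub (mx (Nat.mod (Nat.shiftRight (@rqI x101 x114) (nat_lit 0)) (nat_lit
    72057594037927936)) (Nat.mod (Nat.shiftRight (@rqI x101 x114) (nat_lit 56)) (nat_lit
    72057594037927936))) (nat_lit 36028797018963968)) x104) (nat_lit 40)) (Nat.mul (nat_lit 40)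
    x104))))))) (Nat.shiftRight (Nat.mul (Nat.shiftLeft x106 (nat_lit 20)) x111) (nat_lit 40))
    (Nat.shiftRight (Nat.mul (Nat.mul x108 (Nat.sub (nat_lit 1048576) x107)) x111) (nat_lit 40))
    (Nat.div (Nat.shiftRight (Nat.mul (Nat.mul (Nat.sub (nat_lit 1048576) x109) (Nat.sub (nat_lit
    1048576) x107)) x111) (nat_lit 40)) x104))) (Nat.shiftLeft (Nat.mul (Nat.mul (Nat.succ
    (Nat.sub x110 (nat_lit 1))) x105) (Nat.mul (Nat.succ (Nat.sub x110 (nat_lit 1))) x105))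
    (nat_lit 32))))))))))))

noncomputable def pw2 : ((x0 : Nat) → ((x1 : Nat) → ((x2 : Nat) → ((x3 : Nat) → Nat)))) :=
    (fun (x100 : Nat) => (fun (x101 : Nat) => (fun (x102 : Nat) => (fun (x103 : Nat) => (Nat.add
    (Nat.mul x100 (Nat.succ (Nat.shiftRight (Nat.mul (Nat.succ (Nat.shiftRight (Nat.shiftLeft
    (Nat.pow x101 (Nat.sub x100 (nat_lit 1))) (nat_lit 40)) (Nat.mul (nat_lit 40) (Nat.sub x100
    (nat_lit 1))))) x103) (nat_lit 40)))) (Nat.mul (Nat.mul x100 (Nat.sub x100 (nat_lit 1)))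
    (Nat.succ (Nat.shiftRight (Nat.mul (Nat.succ (Nat.shiftRight (Nat.mul (Nat.succ
    (Nat.shiftRight (Nat.shiftLeft (Nat.pow x101 (Nat.sub x100 (nat_lit 2))) (nat_lit 40))
    (Nat.mul (nat_lit 40) (Nat.sub x100 (nat_lit 2))))) x102) (nat_lit 40))) x102) (nat_lit
    40)))))))))

noncomputable def cellM : ((x0 : Sort 1) → ((x1 : ((x2 : Nat) → ((x3 : Nat) → Nat))) → ((x4 : Nat) → ((x5 : Nat) → ((x6 :
    Nat) → ((x7 : Nat) → ((x8 : Nat) → ((x9 : Nat) → ((x10 : ((x11 : Nat) → ((x12 : Nat) → ((x13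
    : Nat) → x0)))) → x0))))))))) :=
    (fun (x100 : Sort 1) => (fun (x101 : ((x102 : Nat) → ((x103 : Nat) → Nat))) => (fun (x104 : Nat)
    => (fun (x105 : Nat) => (fun (x106 : Nat) => (fun (x107 : Nat) => (fun (x108 : Nat) => (fun
    (x109 : Nat) => (fun (x110 : ((x111 : Nat) → ((x112 : Nat) → ((x113 : Nat) → x100)))) =>
    ((fun (x114 : Nat) => (x110 (@Bool.rec.{1} (fun (x115 : Bool) => Nat) (nat_lit
    1267650600228229401496703205376) (Nat.add x107 (Nat.succ (Nat.shiftRight (Nat.mul (@pw2 x104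
    (Nat.sub (mx (Nat.mod (Nat.shiftRight x114 (nat_lit 0)) (nat_lit 72057594037927936)) (Nat.mod
    (Nat.shiftRight x114 (nat_lit 56)) (nat_lit 72057594037927936))) (nat_lit 36028797018963968))
    (Nat.mod (Nat.shiftRight x114 (nat_lit 448)) (nat_lit 72057594037927936)) (Nat.mod
    (Nat.shiftRight x114 (nat_lit 504)) (nat_lit 72057594037927936))) (Nat.shiftLeft (Nat.sub
    x106 x105) (nat_lit 34))) (nat_lit 40)))) (Nat.ble (Nat.succ (Nat.div (Nat.shiftLeft (Nat.mul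
    x106 x106) (nat_lit 28)) x104)) (@OfNat.ofNat.{0} Nat (nat_lit 1152921504606846976)
    (@instOfNatNat (nat_lit 1152921504606846976))))) x108 x109)) (@rq x101 (Nat.div
    (Nat.shiftLeft (Nat.mul x105 x105) (nat_lit 28)) x104) (Nat.succ (Nat.div (Nat.shiftLeft
    (Nat.mul x106 x106) (nat_lit 28)) x104)))))))))))))

noncomputable def dM : ((x0 : @K.Blk) → ((x1 : ((x2 : Nat) → ((x3 : Nat) → Nat))) → ((x4 : Nat) → ((x5 : (@List.{0}
    Nat)) → Nat)))) :=
    (fun (x100 : @K.Blk) => (fun (x101 : ((x102 : Nat) → ((x103 : Nat) → Nat))) => (fun (x104 : Nat)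
    => (fun (x105 : (@List.{0} Nat)) => (@sweep Nat x105 (@cellM Nat x101 x104) (fun (x106 : Nat)
    => (fun (x107 : Nat) => (fun (x108 : Nat) => (fun (x109 : Nat) => ((fun (x110 : Nat) => ((fun
    (x111 : Nat) => (@Bool.rec.{1} (fun (x112 : Bool) => Nat) (nat_lit
    1267650600228229401496703205376) (Nat.add x107 (Nat.succ (Nat.shiftRight (Nat.mul (@pw2 x104
    x111 (@K.Blk.d1g x100) (Nat.succ (Nat.shiftRight (Nat.mul (Nat.add (Nat.add (@divU (Nat.succ
    (Nat.add (@K.Blk.n1 x100) (Nat.div (@K.Blk.n3 x100) (nat_lit 2)))) (@K.Blk.mL x100))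
    (Nat.succ (Nat.shiftRight (Nat.mul (@K.Blk.be x100) (@K.Blk.d1g x100)) (nat_lit 40))))
    (@K.Blk.nr x100)) (@sqrtU (Nat.succ x110))) (nat_lit 40)))) (Nat.shiftLeft x106 (nat_lit
    34))) (nat_lit 40)))) (@Bool.rec.{1} (fun (x113 : Bool) => Bool) (@Bool.false) (Nat.ble
    (Nat.succ x107) (nat_lit 1267650600228229401496703205376)) (@Bool.rec.{1} (fun (x114 : Bool)
    => Bool) (@Bool.false) (Nat.ble (Nat.succ x111) (nat_lit 1267650600228229401496703205376))
    (@Bool.rec.{1} (fun (x115 : Bool) => Bool) (@Bool.false) (Nat.ble (nat_lit 1099511627776)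
    x110) (Nat.ble (@OfNat.ofNat.{0} Nat (nat_lit 3) (@instOfNatNat (nat_lit 3))) x104))))))
    (@farc x100 x110))) (Nat.div (Nat.shiftLeft (Nat.mul x106 x106) (nat_lit 28)) x104)))))))))))

noncomputable def kM : ((x0 : @K.Blk) → Nat) :=
    (fun (x100 : @K.Blk) => (Nat.succ (Nat.shiftRight (Nat.mul (@K.Blk.kh x100) (mx (Nat.succ
    (Nat.shiftRight (Nat.mul (@K.Blk.tau x100) (@K.Blk.tau x100)) (nat_lit 40))) (@K.Blk.nr
    x100))) (nat_lit 40))))

noncomputable def thrM : ((x0 : @K.Blk) → ((x1 : ((x2 : Nat) → ((x3 : Nat) → Nat))) → ((x4 : @K.Cls) → ((x5 : Bool) →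
    Nat)))) :=
    (fun (x100 : @K.Blk) => (fun (x101 : ((x102 : Nat) → ((x103 : Nat) → Nat))) => (fun (x104 :
    @K.Cls) => (fun (x105 : Bool) => (@Bool.rec.{1} (fun (x106 : Bool) => Nat) (@dM x100 x101
    (@K.Cls.N x104) (@K.Cls.schM x104)) (@kM x100) x105)))))

noncomputable def dNode : ((x0 : ((x1 : Nat) → Nat)) → ((x2 : Nat) → ((x3 : Nat) → Nat))) :=
    (fun (x100 : ((x101 : Nat) → Nat)) => (fun (x102 : Nat) => (fun (x103 : Nat) => ((fun (x104 :
    Nat) => (@Bool.rec.{1} (fun (x105 : Bool) => Nat) (Nat.add (nat_lit 36028797018963968)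
    (Nat.shiftRight (Nat.shiftLeft (Nat.pow (@dist x104 (nat_lit 36028797018963968)) x102)
    (nat_lit 40)) (Nat.mul (nat_lit 40) x102))) (Nat.sub (nat_lit 36028797018963968)
    (Nat.shiftRight (Nat.shiftLeft (Nat.pow (@dist x104 (nat_lit 36028797018963968)) x102)
    (nat_lit 40)) (Nat.mul (nat_lit 40) x102))) (@Bool.rec.{1} (fun (x106 : Bool) => Bool)
    (@Bool.false) (Nat.ble (Nat.succ x104) (nat_lit 36028797018963968)) (@Bool.rec.{1} (fun (x107
    : Bool) => Bool) (@Bool.true) (@Bool.false) (Nat.beq (Nat.mod x102 (nat_lit 2))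
    (@OfNat.ofNat.{0} Nat (nat_lit 0) (@instOfNatNat (nat_lit 0)))))))) (@pevN x100 x103)))))

noncomputable def dSum : ((x0 : ((x1 : Nat) → Nat)) → ((x2 : Nat) → ((x3 : Nat) → ((x4 : Nat) → Nat)))) :=
    (fun (x100 : ((x101 : Nat) → Nat)) => (fun (x102 : Nat) => (fun (x103 : Nat) => (fun (x104 :
    Nat) => (@Nat.rec.{1} (fun (x105 : Nat) => Nat) (nat_lit 0) (fun (x106 : Nat) => (fun (x107 :
    Nat) => (Nat.add x107 (@dNode x100 x102 (Nat.div (Nat.shiftLeft (Nat.mul (Nat.mul (Nat.succ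
    x106) x103) (Nat.mul (Nat.succ x106) x103)) (nat_lit 32)) x102))))) x104)))))

noncomputable def powE : ((x0 : Nat) → ((x1 : Nat) → ((x2 : Nat) → Nat))) :=
    (fun (x100 : Nat) => (fun (x101 : Nat) => (fun (x102 : Nat) => (Nat.succ (Nat.sub (Nat.succ
    (Nat.shiftRight (Nat.shiftLeft (Nat.pow (Nat.add x100 x101) x102) (nat_lit 40)) (Nat.mul
    (nat_lit 40) x102))) (Nat.shiftRight (Nat.shiftLeft (Nat.pow x100 x102) (nat_lit 40))
    (Nat.mul (nat_lit 40) x102)))))))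

noncomputable def dErr : ((x0 : ((x1 : Nat) → ((x2 : Nat) → Nat))) → ((x3 : Nat) → ((x4 : Nat) → ((x5 : Nat) → Nat)))) :=
    (fun (x100 : ((x101 : Nat) → ((x102 : Nat) → Nat))) => (fun (x103 : Nat) => (fun (x104 : Nat) =>
    (fun (x105 : Nat) => (@Nat.rec.{1} (fun (x106 : Nat) => Nat) (nat_lit 0) (fun (x107 : Nat) =>
    (fun (x108 : Nat) => ((fun (x109 : Nat) => ((fun (x110 : Nat) => (Nat.add x108 (@powE
    (Nat.sub (mx (Nat.mod (Nat.shiftRight x110 (nat_lit 0)) (nat_lit 72057594037927936)) (Nat.mod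
    (Nat.shiftRight x110 (nat_lit 56)) (nat_lit 72057594037927936))) (nat_lit 36028797018963968))
    (Nat.mod (Nat.shiftRight x110 (nat_lit 560)) (nat_lit 72057594037927936)) x103))) (@rq x100
    x109 (Nat.succ x109)))) (Nat.div (Nat.shiftLeft (Nat.mul (Nat.mul (Nat.succ x107) x104)
    (Nat.mul (Nat.succ x107) x104)) (nat_lit 32)) x103)))) x105)))))

noncomputable def dTail : ((x0 : @K.Blk) → ((x1 : Nat) → ((x2 : Nat) → ((x3 : Nat) → Nat)))) :=
    (fun (x100 : @K.Blk) => (fun (x101 : Nat) => (fun (x102 : Nat) => (fun (x103 : Nat) => ((fun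
    (x104 : Nat) => (@Bool.rec.{1} (fun (x105 : Bool) => Nat) (nat_lit
    1267650600228229401496703205376) (Nat.succ (Nat.shiftRight (Nat.mul (Nat.succ (Nat.shiftRight
    (Nat.shiftLeft (Nat.pow x104 x101) (nat_lit 40)) (Nat.mul (nat_lit 40) x101))) (Nat.shiftLeft
    (Nat.mul x103 x102) (nat_lit 36))) (nat_lit 40))) (Nat.ble (Nat.succ x104) (nat_lit
    1267650600228229401496703205376)))) (@far0 x100 (Nat.div (Nat.shiftLeft (Nat.mul (Nat.mul
    (Nat.succ (Nat.sub x103 (nat_lit 1))) x102) (Nat.mul (Nat.succ (Nat.sub x103 (nat_lit 1)))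
    x102)) (nat_lit 32)) x101)))))))

noncomputable def expU : ((x0 : Nat) → Nat) :=
    (fun (x100 : Nat) => ((fun (x101 : Nat) => ((fun (x102 : Nat) => ((fun (x103 : Nat) => (Nat.succ
    (Nat.shiftRight (Nat.succ (Nat.div (nat_lit 1208925819614629174706176) (Nat.add (Nat.add
    (Nat.add (nat_lit 1099511627776) x102) (Nat.div x103 (nat_lit 2))) (Nat.div (Nat.shiftRight
    (Nat.mul x103 x102) (nat_lit 40)) (nat_lit 6))))) x101))) (Nat.shiftRight (Nat.mul x102 x102)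
    (nat_lit 40)))) (Nat.sub x100 (Nat.mul x101 (nat_lit 762123384786))))) (Nat.div x100 (nat_lit
    762123384786))))

noncomputable def dAli : ((x0 : @K.Blk) → ((x1 : Nat) → ((x2 : Nat) → Nat))) :=
    (fun (x100 : @K.Blk) => (fun (x101 : Nat) => (fun (x102 : Nat) => ((fun (x103 : Nat) =>
    (@Bool.rec.{1} (fun (x104 : Bool) => Nat) (nat_lit 1267650600228229401496703205376) ((fun
    (x105 : Nat) => (Nat.succ (Nat.shiftRight (Nat.mul (Nat.succ (Nat.shiftRight (Nat.mul (@divU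
    (Nat.mul (Nat.mul (nat_lit 4) (Nat.pow (nat_lit 3) x101)) (nat_lit 1099511627776)) (@K.Blk.mL
    x100)) x105) (nat_lit 40))) x105) (nat_lit 40)))) (@expU (Nat.div (Nat.shiftRight (Nat.mul
    x103 x103) (nat_lit 40)) (nat_lit 2)))) (Nat.ble (nat_lit 2199023255552) x103))) (Nat.div
    (nat_lit 96714065569170333976494080) (Nat.mul (@K.Blk.mH x100) x102))))))

noncomputable def dLo : ((x0 : @K.Blk) → ((x1 : ((x2 : Nat) → ((x3 : Nat) → Nat))) → ((x4 : ((x5 : Nat) → Nat)) → ((x6 :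
    Nat) → ((x7 : Nat) → ((x8 : Nat) → Nat)))))) :=
    (fun (x100 : @K.Blk) => (fun (x101 : ((x102 : Nat) → ((x103 : Nat) → Nat))) => (fun (x104 :
    ((x105 : Nat) → Nat)) => (fun (x106 : Nat) => (fun (x107 : Nat) => (fun (x108 : Nat) =>
    (Nat.sub (Nat.shiftRight (Nat.mul x107 (Nat.sub (Nat.add (nat_lit 549755813888) (@dSum x104
    x106 x107 x108)) (Nat.add (Nat.mul x108 (nat_lit 36028797018963968)) (@dErr x101 x106 x107
    x108)))) (nat_lit 4)) (Nat.add (@dTail x100 x106 x107 x108) (@dAli x100 x106 x107)))))))))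

noncomputable def kapL : ((x0 : ((x1 : Nat) → Nat)) → ((x2 : @K.Blk) → ((x3 : Nat) → Nat))) :=
    (fun (x100 : ((x101 : Nat) → Nat)) => (fun (x102 : @K.Blk) => (fun (x103 : Nat) => (Nat.div
    (Nat.shiftLeft (Nat.shiftRight (Nat.mul (nat_lit 2442500725676) (@twoL (@Blk_qv x102 x103)))
    (nat_lit 40)) (nat_lit 40)) (@mH40 x100 (@K.Blk.R x102) (@Blk_qv x102 x103))))))

noncomputable def thr : ((x0 : ((x1 : Nat) → Nat)) → ((x2 : @K.Blk) → ((x3 : ((x4 : Nat) → ((x5 : Nat) → Nat))) → ((x6 :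
    ((x7 : Nat) → ((x8 : Nat) → Nat))) → ((x9 : @K.Cls) → ((x10 : Bool) → ((x11 : Nat) →
    Nat))))))) :=
    (fun (x100 : ((x101 : Nat) → Nat)) => (fun (x102 : @K.Blk) => (fun (x103 : ((x104 : Nat) →
    ((x105 : Nat) → Nat))) => (fun (x106 : ((x107 : Nat) → ((x108 : Nat) → Nat))) => (fun (x109 :
    @K.Cls) => (fun (x110 : Bool) => (fun (x111 : Nat) => (@Bool.rec.{1} (fun (x112 : Bool) =>
    Nat) (@dLo x102 x103 (x106 x111) (@K.Cls.N x109) (@K.Cls.H1 x109) (@K.Cls.M1 x109)) (@kapL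
    x100 x102 x111) x110))))))))

noncomputable def oLop : ((x0 : Nat) → ((x1 : Nat) → Nat)) :=
    (fun (x100 : Nat) => (fun (x101 : Nat) => (mx (Nat.shiftRight (Nat.mul (Nat.sub (nat_lit
    36028797018963968) (Nat.mod (Nat.shiftRight x100 (nat_lit 0)) (nat_lit 72057594037927936)))
    (Nat.sub (nat_lit 36028797018963968) (Nat.mod (Nat.shiftRight x101 (nat_lit 0)) (nat_lit
    72057594037927936)))) (nat_lit 40)) (Nat.shiftRight (Nat.mul (Nat.sub (nat_lit
    36028797018963968) (Nat.mod (Nat.shiftRight x100 (nat_lit 56)) (nat_lit 72057594037927936)))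
    (Nat.sub (nat_lit 36028797018963968) (Nat.mod (Nat.shiftRight x101 (nat_lit 56)) (nat_lit
    72057594037927936)))) (nat_lit 40)))))

noncomputable def pHin : ((x0 : Nat) → ((x1 : Nat) → Nat)) :=
    (fun (x100 : Nat) => (fun (x101 : Nat) => (@Bool.rec.{1} (fun (x102 : Bool) => Nat)
    (Nat.shiftRight (Nat.shiftLeft (Nat.pow (Nat.sub (nat_lit 36028797018963968) (Nat.mod
    (Nat.shiftRight x100 (nat_lit 56)) (nat_lit 72057594037927936))) x101) (nat_lit 40)) (Nat.mul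
    (nat_lit 40) x101)) (nat_lit 0) (Nat.beq (Nat.mod x101 (nat_lit 2)) (@OfNat.ofNat.{0} Nat
    (nat_lit 0) (@instOfNatNat (nat_lit 0)))))))

noncomputable def oHin : ((x0 : Nat) → ((x1 : Nat) → Nat)) :=
    (fun (x100 : Nat) => (fun (x101 : Nat) => (mx (Nat.shiftRight (Nat.mul (Nat.sub (nat_lit
    36028797018963968) (Nat.mod (Nat.shiftRight x100 (nat_lit 0)) (nat_lit 72057594037927936)))
    (Nat.sub (nat_lit 36028797018963968) (Nat.mod (Nat.shiftRight x101 (nat_lit 56)) (nat_lit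
    72057594037927936)))) (nat_lit 40)) (Nat.shiftRight (Nat.mul (Nat.sub (nat_lit
    36028797018963968) (Nat.mod (Nat.shiftRight x100 (nat_lit 56)) (nat_lit 72057594037927936)))
    (Nat.sub (nat_lit 36028797018963968) (Nat.mod (Nat.shiftRight x101 (nat_lit 0)) (nat_lit
    72057594037927936)))) (nat_lit 40)))))

noncomputable def pLop : ((x0 : Nat) → ((x1 : Nat) → Nat)) :=
    (fun (x100 : Nat) => (fun (x101 : Nat) => (Nat.shiftRight (Nat.shiftLeft (Nat.pow (@Bool.rec.{1}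
    (fun (x102 : Bool) => Nat) (Nat.sub (nat_lit 36028797018963968) (Nat.mod (Nat.shiftRight x100
    (nat_lit 0)) (nat_lit 72057594037927936))) (mx (Nat.sub (nat_lit 36028797018963968) (Nat.mod
    (Nat.shiftRight x100 (nat_lit 0)) (nat_lit 72057594037927936))) (Nat.sub (nat_lit
    36028797018963968) (Nat.mod (Nat.shiftRight x100 (nat_lit 56)) (nat_lit 72057594037927936))))
    (Nat.beq (Nat.mod x101 (nat_lit 2)) (@OfNat.ofNat.{0} Nat (nat_lit 0) (@instOfNatNat (nat_lit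
    0))))) x101) (nat_lit 40)) (Nat.mul (nat_lit 40) x101))))

noncomputable def oHi : ((x0 : Nat) → ((x1 : Nat) → Nat)) :=
    (fun (x100 : Nat) => (fun (x101 : Nat) => (mx (Nat.succ (Nat.shiftRight (Nat.mul (Nat.sub
    (Nat.mod (Nat.shiftRight x100 (nat_lit 56)) (nat_lit 72057594037927936)) (nat_lit
    36028797018963968)) (Nat.sub (Nat.mod (Nat.shiftRight x101 (nat_lit 56)) (nat_lit
    72057594037927936)) (nat_lit 36028797018963968))) (nat_lit 40))) (Nat.succ (Nat.shiftRight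
    (Nat.mul (Nat.sub (Nat.mod (Nat.shiftRight x100 (nat_lit 0)) (nat_lit 72057594037927936))
    (nat_lit 36028797018963968)) (Nat.sub (Nat.mod (Nat.shiftRight x101 (nat_lit 0)) (nat_lit
    72057594037927936)) (nat_lit 36028797018963968))) (nat_lit 40))))))

noncomputable def pHi : ((x0 : Nat) → ((x1 : Nat) → Nat)) :=
    (fun (x100 : Nat) => (fun (x101 : Nat) => (Nat.succ (Nat.shiftRight (Nat.shiftLeft (Nat.pow
    (@Bool.rec.{1} (fun (x102 : Bool) => Nat) (Nat.sub (Nat.mod (Nat.shiftRight x100 (nat_lit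
    56)) (nat_lit 72057594037927936)) (nat_lit 36028797018963968)) (Nat.sub (mx (Nat.mod
    (Nat.shiftRight x100 (nat_lit 0)) (nat_lit 72057594037927936)) (Nat.mod (Nat.shiftRight x100
    (nat_lit 56)) (nat_lit 72057594037927936))) (nat_lit 36028797018963968)) (Nat.beq (Nat.mod
    x101 (nat_lit 2)) (@OfNat.ofNat.{0} Nat (nat_lit 0) (@instOfNatNat (nat_lit 0))))) x101)
    (nat_lit 40)) (Nat.mul (nat_lit 40) x101)))))

noncomputable def oNeg : ((x0 : Nat) → ((x1 : Nat) → Nat)) :=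
    (fun (x100 : Nat) => (fun (x101 : Nat) => (@Bool.rec.{1} (fun (x102 : Bool) => Nat) (mx
    (Nat.succ (Nat.shiftRight (Nat.mul (Nat.sub (Nat.mod (Nat.shiftRight x100 (nat_lit 56))
    (nat_lit 72057594037927936)) (nat_lit 36028797018963968)) (Nat.sub (Nat.mod (Nat.shiftRight
    x101 (nat_lit 0)) (nat_lit 72057594037927936)) (nat_lit 36028797018963968))) (nat_lit 40)))
    (Nat.succ (Nat.shiftRight (Nat.mul (Nat.sub (Nat.mod (Nat.shiftRight x100 (nat_lit 0))
    (nat_lit 72057594037927936)) (nat_lit 36028797018963968)) (Nat.sub (Nat.mod (Nat.shiftRight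
    x101 (nat_lit 56)) (nat_lit 72057594037927936)) (nat_lit 36028797018963968))) (nat_lit 40))))
    (nat_lit 0) (@Bool.rec.{1} (fun (x103 : Bool) => Bool) (@Bool.false) (Nat.beq (Nat.sub
    (Nat.mod (Nat.shiftRight x101 (nat_lit 0)) (nat_lit 72057594037927936)) (nat_lit
    36028797018963968)) (@OfNat.ofNat.{0} Nat (nat_lit 0) (@instOfNatNat (nat_lit 0)))) (Nat.beq
    (Nat.sub (Nat.mod (Nat.shiftRight x100 (nat_lit 0)) (nat_lit 72057594037927936)) (nat_lit
    36028797018963968)) (@OfNat.ofNat.{0} Nat (nat_lit 0) (@instOfNatNat (nat_lit 0))))))))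

noncomputable def pNeg : ((x0 : Nat) → ((x1 : Nat) → Nat)) :=
    (fun (x100 : Nat) => (fun (x101 : Nat) => (@Bool.rec.{1} (fun (x102 : Bool) => Nat) (Nat.succ
    (Nat.shiftRight (Nat.shiftLeft (Nat.pow (Nat.sub (Nat.mod (Nat.shiftRight x100 (nat_lit 0))
    (nat_lit 72057594037927936)) (nat_lit 36028797018963968)) x101) (nat_lit 40)) (Nat.mul
    (nat_lit 40) x101))) (nat_lit 0) (@Bool.rec.{1} (fun (x103 : Bool) => Bool) (Nat.beq (Nat.sub
    (Nat.mod (Nat.shiftRight x100 (nat_lit 0)) (nat_lit 72057594037927936)) (nat_lit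
    36028797018963968)) (@OfNat.ofNat.{0} Nat (nat_lit 0) (@instOfNatNat (nat_lit 0))))
    (@Bool.true) (Nat.beq (Nat.mod x101 (nat_lit 2)) (@OfNat.ofNat.{0} Nat (nat_lit 0)
    (@instOfNatNat (nat_lit 0))))))))

noncomputable def zNode : ((x0 : ((x1 : Nat) → ((x2 : Nat) → Nat))) → ((x3 : Nat) → ((x4 : Nat) → ((x5 : Nat) → ((x6 :
    Nat) → ((x7 : Nat) → ((x8 : Nat) → Nat))))))) :=
    (fun (x100 : ((x101 : Nat) → ((x102 : Nat) → Nat))) => (fun (x103 : Nat) => (fun (x104 : Nat) =>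
    (fun (x105 : Nat) => (fun (x106 : Nat) => (fun (x107 : Nat) => (fun (x108 : Nat) => ((fun
    (x109 : Nat) => (fun (x110 : Nat) => (fun (x111 : Nat) => ((fun (x112 : Nat) =>
    (@Bool.rec.{1} (fun (x113 : Bool) => Nat) (Nat.sub (nat_lit 36028797018963968) x112) (Nat.add
    (nat_lit 36028797018963968) (mx (Nat.succ (Nat.shiftRight (Nat.mul (@oHi x109 x110) (@pHi
    x111 x103)) (nat_lit 40))) (Nat.succ (Nat.shiftRight (Nat.mul (@oNeg x109 x110) (@pNeg x111
    x103)) (nat_lit 40))))) (Nat.beq x112 (@OfNat.ofNat.{0} Nat (nat_lit 0) (@instOfNatNat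
    (nat_lit 0)))))) (mx (Nat.shiftRight (Nat.mul (@oLop x109 x110) (@pHin x111 x103)) (nat_lit
    40)) (Nat.shiftRight (Nat.mul (@oHin x109 x110) (@pLop x111 x103)) (nat_lit 40))))))) (@rq
    x100 (Nat.shiftRight (Nat.mul (Nat.shiftLeft x104 (nat_lit 20)) x108) (nat_lit 40)) (Nat.succ
    (Nat.shiftRight (Nat.mul (Nat.shiftLeft x105 (nat_lit 20)) x108) (nat_lit 40)))) (@rq x100
    (Nat.shiftRight (Nat.mul (Nat.mul x106 (Nat.sub (nat_lit 1048576) x105)) x108) (nat_lit 40))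
    (Nat.succ (Nat.shiftRight (Nat.mul (Nat.mul x107 (Nat.sub (nat_lit 1048576) x104)) x108)
    (nat_lit 40)))) (@rq x100 (Nat.div (Nat.shiftRight (Nat.mul (Nat.mul (Nat.sub (nat_lit
    1048576) x107) (Nat.sub (nat_lit 1048576) x105)) x108) (nat_lit 40)) x103) (Nat.succ (Nat.div
    (Nat.succ (Nat.shiftRight (Nat.mul (Nat.mul (Nat.sub (nat_lit 1048576) x106) (Nat.sub
    (nat_lit 1048576) x104)) x108) (nat_lit 40))) x103)))))))))))

noncomputable def zSum : ((x0 : ((x1 : Nat) → ((x2 : Nat) → Nat))) → ((x3 : Nat) → ((x4 : Nat) → ((x5 : Nat) → ((x6 :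
    Nat) → ((x7 : Nat) → ((x8 : Nat) → ((x9 : Nat) → ((x10 : Nat) → Nat))))))))) :=
    (fun (x100 : ((x101 : Nat) → ((x102 : Nat) → Nat))) => (fun (x103 : Nat) => (fun (x104 : Nat) =>
    (fun (x105 : Nat) => (fun (x106 : Nat) => (fun (x107 : Nat) => (fun (x108 : Nat) => (fun
    (x109 : Nat) => (fun (x110 : Nat) => (@Nat.rec.{1} (fun (x111 : Nat) => Nat) (nat_lit 0) (fun
    (x112 : Nat) => (fun (x113 : Nat) => (Nat.add x113 (@zNode x100 x103 x105 x106 x107 x108
    (Nat.shiftLeft (Nat.mul (Nat.mul (Nat.succ (Nat.add x109 x112)) x104) (Nat.mul (Nat.succ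
    (Nat.add x109 x112)) x104)) (nat_lit 32)))))) x110))))))))))

noncomputable def pNode : ((x0 : ((x1 : Nat) → Nat)) → ((x2 : Nat) → ((x3 : Nat) → ((x4 : Nat) → ((x5 : Nat) → Nat))))) :=
    (fun (x100 : ((x101 : Nat) → Nat)) => (fun (x102 : Nat) => (fun (x103 : Nat) => (fun (x104 :
    Nat) => (fun (x105 : Nat) => ((fun (x106 : Nat) => (fun (x107 : Nat) => (fun (x108 : Nat) =>
    (@Bool.rec.{1} (fun (x109 : Bool) => Nat) (Nat.add (nat_lit 36028797018963968)
    (Nat.shiftRight (Nat.mul (Nat.mul (@dist x106 (nat_lit 36028797018963968)) (@dist x107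
    (nat_lit 36028797018963968))) (Nat.shiftRight (Nat.shiftLeft (Nat.pow (@dist x108 (nat_lit
    36028797018963968)) x102) (nat_lit 40)) (Nat.mul (nat_lit 40) x102))) (nat_lit 80))) (Nat.sub
    (nat_lit 36028797018963968) (Nat.shiftRight (Nat.mul (Nat.mul (@dist x106 (nat_lit
    36028797018963968)) (@dist x107 (nat_lit 36028797018963968))) (Nat.shiftRight (Nat.shiftLeft
    (Nat.pow (@dist x108 (nat_lit 36028797018963968)) x102) (nat_lit 40)) (Nat.mul (nat_lit 40)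
    x102))) (nat_lit 80))) (@bx (@bx (Nat.ble (Nat.succ x106) (nat_lit 36028797018963968))
    (Nat.ble (Nat.succ x107) (nat_lit 36028797018963968))) (@Bool.rec.{1} (fun (x110 : Bool) =>
    Bool) (@Bool.false) (Nat.ble (Nat.succ x108) (nat_lit 36028797018963968)) (@Bool.rec.{1} (fun
    (x111 : Bool) => Bool) (@Bool.true) (@Bool.false) (Nat.beq (Nat.mod x102 (nat_lit 2))
    (@OfNat.ofNat.{0} Nat (nat_lit 0) (@instOfNatNat (nat_lit 0))))))))))) (@pevN x100
    (Nat.shiftRight (Nat.mul (Nat.shiftLeft x103 (nat_lit 20)) x105) (nat_lit 40))) (@pevN x100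
    (Nat.shiftRight (Nat.mul (Nat.mul x104 (Nat.sub (nat_lit 1048576) x103)) x105) (nat_lit 40)))
    (@pevN x100 (Nat.div (Nat.shiftRight (Nat.mul (Nat.mul (Nat.sub (nat_lit 1048576) x104)
    (Nat.sub (nat_lit 1048576) x103)) x105) (nat_lit 40)) x102))))))))

noncomputable def vSum : ((x0 : ((x1 : Nat) → Nat)) → ((x2 : Nat) → ((x3 : Nat) → ((x4 : Nat) → ((x5 : Nat) → ((x6 : Nat)
    → Nat)))))) :=
    (fun (x100 : ((x101 : Nat) → Nat)) => (fun (x102 : Nat) => (fun (x103 : Nat) => (fun (x104 :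
    Nat) => (fun (x105 : Nat) => (fun (x106 : Nat) => (@Nat.rec.{1} (fun (x107 : Nat) => Nat)
    (nat_lit 0) (fun (x108 : Nat) => (fun (x109 : Nat) => (Nat.add x109 (@pNode x100 x102 x104
    x105 (Nat.shiftLeft (Nat.mul (Nat.mul (Nat.succ x108) x103) (Nat.mul (Nat.succ x108) x103))
    (nat_lit 32)))))) x106)))))))

noncomputable def vMax : ((x0 : ((x1 : Nat) → Nat)) → ((x2 : Nat) → ((x3 : Nat) → ((x4 : Nat) → ((x5 : Nat) → ((x6 : Nat)
    → ((x7 : Nat) → ((x8 : Nat) → Nat)))))))) :=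
    (fun (x100 : ((x101 : Nat) → Nat)) => (fun (x102 : Nat) => (fun (x103 : Nat) => (fun (x104 :
    Nat) => (fun (x105 : Nat) => (fun (x106 : Nat) => (fun (x107 : Nat) => (fun (x108 : Nat) =>
    (mx (mx (@vSum x100 x102 x103 x104 x106 x108) (@vSum x100 x102 x103 x104 x107 x108)) (mx
    (@vSum x100 x102 x103 x105 x106 x108) (@vSum x100 x102 x103 x105 x107 x108)))))))))))

noncomputable def dOK : ((x0 : @K.Blk) → ((x1 : Nat) → ((x2 : Nat) → ((x3 : Nat) → Bool)))) :=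
    (fun (x100 : @K.Blk) => (fun (x101 : Nat) => (fun (x102 : Nat) => (fun (x103 : Nat) =>
    (@Bool.rec.{1} (fun (x104 : Bool) => Bool) (@Bool.false) (Nat.ble (Nat.succ (@dTail x100 x101
    x102 x103)) (nat_lit 1267650600228229401496703205376)) (@Bool.rec.{1} (fun (x105 : Bool) =>
    Bool) (@Bool.false) (Nat.ble (Nat.succ (Nat.succ (Nat.div (Nat.shiftLeft (Nat.mul (Nat.mul
    (Nat.succ (Nat.sub x103 (nat_lit 1))) x102) (Nat.mul (Nat.succ (Nat.sub x103 (nat_lit 1)))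
    x102)) (nat_lit 32)) x101))) (@K.Blk.Yp x100)) (@Bool.rec.{1} (fun (x106 : Bool) => Bool)
    (@Bool.false) (Nat.ble (nat_lit 1) x103) (@Bool.rec.{1} (fun (x107 : Bool) => Bool)
    (@Bool.false) (Nat.ble (nat_lit 1) x102) (Nat.ble (@OfNat.ofNat.{0} Nat (nat_lit 2)
    (@instOfNatNat (nat_lit 2))) x101)))))))))

noncomputable def mainT : ((x0 : ((x1 : Nat) → Nat)) → ((x2 : @K.Blk) → ((x3 : ((x4 : Nat) → ((x5 : Nat) → Nat))) → ((x6 :
    ((x7 : Nat) → ((x8 : Nat) → Nat))) → ((x9 : @K.Cls) → ((x10 : Bool) → ((x11 : Nat) → ((x12 :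
    Nat) → ((x13 : Nat) → ((x14 : Nat) → ((x15 : Nat) → ((x16 : Nat) → ((x17 : Nat) → ((x18 :
    Nat) → ((x19 : Nat) → Bool))))))))))))))) :=
    (fun (x100 : ((x101 : Nat) → Nat)) => (fun (x102 : @K.Blk) => (fun (x103 : ((x104 : Nat) →
    ((x105 : Nat) → Nat))) => (fun (x106 : ((x107 : Nat) → ((x108 : Nat) → Nat))) => (fun (x109 :
    @K.Cls) => (fun (x110 : Bool) => (fun (x111 : Nat) => (fun (x112 : Nat) => (fun (x113 : Nat)
    => (fun (x114 : Nat) => (fun (x115 : Nat) => (fun (x116 : Nat) => (fun (x117 : Nat) => (fun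
    (x118 : Nat) => (fun (x119 : Nat) => (@fr Bool (Nat.sub (@K.Cls.N x109) (nat_lit 2)) (fun
    (x120 : Nat) => (@fr Bool (@K.Cls.H x109) (fun (x121 : Nat) => ((fun (x122 : Nat) => (fun
    (x123 : Nat) => (fun (x124 : Nat) => (fun (x125 : Nat) => (fun (x126 : Nat) => ((fun (x127 :
    Nat) => (@Bool.rec.{1} (fun (x128 : Bool) => Bool) (@Bool.false) ((fun (x129 : Nat) => (fun
    (x130 : Nat) => (@Bool.rec.{1} (fun (x131 : Bool) => Bool) (@Bool.false) (Nat.ble (Nat.succ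
    (Nat.add (Nat.mul x121 (@vMax (x106 x116) x120 x121 x111 x112 x113 x114 x117)) x129))
    (Nat.add (Nat.mul (nat_lit 16) x126) x130)) (Nat.ble (Nat.succ (Nat.add (Nat.mul x121 (@vMax
    (x106 x115) x120 x121 x111 x112 x113 x114 x117)) x129)) (Nat.add (Nat.mul (nat_lit 16) x125)
    x130))))) (Nat.add (Nat.mul x121 (Nat.add (Nat.add (nat_lit 549755813888) x127) (@zSum x103
    x120 x121 x111 x112 x113 x114 x117 (Nat.sub x118 x117)))) (Nat.mul (nat_lit 16) (Nat.add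
    (Nat.add x123 (Nat.succ (Nat.shiftRight (Nat.mul x124 (Nat.shiftLeft (Nat.mul x122 x122)
    (nat_lit 13))) (nat_lit 40)))) x119))) (Nat.mul (Nat.add (Nat.mul x121 x118) (nat_lit 16))
    (nat_lit 36028797018963968))) (@Bool.rec.{1} (fun (x132 : Bool) => Bool) (@Bool.false)
    (@Bool.rec.{1} (fun (x133 : Bool) => Bool) (@Bool.rec.{1} (fun (x134 : Bool) => Bool)
    (@Bool.false) (Nat.ble (Nat.succ (@dAli x102 (@K.Cls.N x109) (@K.Cls.H1 x109))) (nat_lit
    1267650600228229401496703205376)) (@dOK x102 (@K.Cls.N x109) (@K.Cls.H1 x109) (@K.Cls.M1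
    x109))) (@Bool.true) x110) (@Bool.rec.{1} (fun (x135 : Bool) => Bool) (@Bool.false) (Nat.ble
    (nat_lit 1) x126) (@Bool.rec.{1} (fun (x136 : Bool) => Bool) (@Bool.false) (Nat.ble (nat_lit
    1) x125) (@Bool.rec.{1} (fun (x137 : Bool) => Bool) (@Bool.false) (Nat.ble (Nat.succ x124)
    (nat_lit 1267650600228229401496703205376)) (@Bool.rec.{1} (fun (x138 : Bool) => Bool)
    (@Bool.false) (Nat.ble (Nat.succ x123) (nat_lit 1267650600228229401496703205376))
    (@Bool.rec.{1} (fun (x139 : Bool) => Bool) (@Bool.false) (Nat.ble (Nat.succ x127) (nat_lit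
    1267650600228229401496703205376)) (@Bool.rec.{1} (fun (x140 : Bool) => Bool) (@Bool.false)
    (Nat.ble (@OfNat.ofNat.{0} Nat (nat_lit 3) (@instOfNatNat (nat_lit 3))) (@K.Cls.N x109))
    (@Bool.rec.{1} (fun (x141 : Bool) => Bool) (@Bool.false) (Nat.ble (nat_lit 1) x121)
    (@Bool.rec.{1} (fun (x142 : Bool) => Bool) (@Bool.false) (Nat.ble (nat_lit 1) x118)
    (@Bool.rec.{1} (fun (x143 : Bool) => Bool) (@Bool.false) (Nat.ble x117 x118) (Nat.ble
    (nat_lit 1) x111))))))))))))) (@eSum x102 x103 x120 x121 x111 x112 x113 x114 x122 x117)))))))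
    (Nat.mul (@K.Blk.st x102) (Nat.sub x116 x115)) (@tailP x102 x103 x120 x121 x111 x112 x113
    x114 x118) (@thrM x102 x103 x109 x110) (@thr x100 x102 x103 x106 x109 x110 x115) (@thr x100
    x102 x103 x106 x109 x110 x116)))))))))))))))))))))

noncomputable def rpw : ((x0 : Nat) → ((x1 : Nat) → Nat)) :=
    (fun (x100 : Nat) => (fun (x101 : Nat) => (@fr Nat (@Nat.rec.{1} (fun (x102 : Nat) => ((x103 :
    Nat) → Nat)) (fun (x104 : Nat) => x104) (fun (x105 : Nat) => (fun (x106 : ((x107 : Nat) →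
    Nat)) => (fun (x108 : Nat) => (@fr Nat (@sqrtL x108) x106)))) (nat_lit 8) x100) (fun (x109 :
    Nat) => (Nat.shiftRight (Nat.mul (Nat.shiftRight (Nat.shiftLeft (Nat.pow x100 (Nat.div x101
    (nat_lit 256))) (nat_lit 40)) (Nat.mul (nat_lit 40) (Nat.div x101 (nat_lit 256))))
    (Nat.shiftRight (Nat.shiftLeft (Nat.pow x109 (Nat.mod x101 (nat_lit 256))) (nat_lit 40))
    (Nat.mul (nat_lit 40) (Nat.mod x101 (nat_lit 256))))) (nat_lit 40))))))

noncomputable def twoT : ((x0 : @K.Blk) → ((x1 : Nat) → ((x2 : Nat) → ((x3 : Nat) → ((x4 : Nat) → ((x5 : Nat) →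
    Bool)))))) :=
    (fun (x100 : @K.Blk) => (fun (x101 : Nat) => (fun (x102 : Nat) => (fun (x103 : Nat) => (fun
    (x104 : Nat) => (fun (x105 : Nat) => ((fun (x106 : Nat) => (fun (x107 : Nat) => (fun (x108 :
    Nat) => (@Bool.rec.{1} (fun (x109 : Bool) => Bool) (@Bool.false) (Nat.ble (nat_lit
    2199023255553) (Nat.add (@rpw (Nat.add x107 x108) x106) (@rpw (Nat.sub x107 x108) x106)))
    (Nat.ble (@OfNat.ofNat.{0} Nat (nat_lit 256) (@instOfNatNat (nat_lit 256))) x106))))) (mn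
    (Nat.div (nat_lit 524288) (@Blk_qv x100 x105)) (nat_lit 4096)) (Nat.sub (nat_lit
    1099511627776) (Nat.mul (Nat.sub (nat_lit 1048576) x103) (Nat.sub (nat_lit 1048576) x101)))
    (Nat.sub (Nat.shiftLeft x101 (nat_lit 20)) (Nat.mul x104 (Nat.sub (nat_lit 1048576)
    x101))))))))))

noncomputable def inBall : ((x0 : (@List.{0} (@Prod.{0,0} Nat (@Prod.{0,0} Nat (@List.{0} Nat))))) → ((x1 : Nat) → ((x2 :
    Nat) → ((x3 : Nat) → Bool)))) :=
    (fun (x100 : (@List.{0} (@Prod.{0,0} Nat (@Prod.{0,0} Nat (@List.{0} Nat))))) => (fun (x101 :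
    Nat) => (fun (x102 : Nat) => (fun (x103 : Nat) => (@List.rec.{1,0} (@Prod.{0,0} Nat
    (@Prod.{0,0} Nat (@List.{0} Nat))) (fun (x104 : (@List.{0} (@Prod.{0,0} Nat (@Prod.{0,0} Nat
    (@List.{0} Nat))))) => Bool) (@Bool.false) (fun (x105 : (@Prod.{0,0} Nat (@Prod.{0,0} Nat
    (@List.{0} Nat)))) => (fun (x106 : (@List.{0} (@Prod.{0,0} Nat (@Prod.{0,0} Nat (@List.{0}
    Nat))))) => (fun (x107 : Bool) => (@Bool.rec.{1} (fun (x108 : Bool) => Bool) (@Bool.false)
    (@Bool.rec.{1} (fun (x109 : Bool) => Bool) x107 (@Bool.true) (Nat.ble x102 (@Prod.fst.{0,0}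
    Nat (@Prod.{0,0} Nat (@List.{0} Nat)) x105))) (@Bool.rec.{1} (fun (x110 : Bool) => Bool)
    (Nat.ble x103 (@Prod.fst.{0,0} Nat (@List.{0} Nat) (@Prod.snd.{0,0} Nat (@Prod.{0,0} Nat
    (@List.{0} Nat)) x105))) (@Bool.true) (Nat.ble (Nat.succ (@Prod.fst.{0,0} Nat (@Prod.{0,0}
    Nat (@List.{0} Nat)) x105)) x101)))))) x100)))))

noncomputable def leafT : ((x0 : ((x1 : Nat) → Nat)) → ((x2 : @K.Blk) → ((x3 : ((x4 : Nat) → ((x5 : Nat) → Nat))) → ((x6 :
    ((x7 : Nat) → ((x8 : Nat) → Nat))) → ((x9 : @K.Cls) → ((x10 : Nat) → ((x11 : Nat) → ((x12 :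
    Nat) → ((x13 : Nat) → ((x14 : Nat) → ((x15 : Nat) → ((x16 : Nat) → ((x17 : Nat) → ((x18 :
    Nat) → Bool)))))))))))))) :=
    (fun (x100 : ((x101 : Nat) → Nat)) => (fun (x102 : @K.Blk) => (fun (x103 : ((x104 : Nat) →
    ((x105 : Nat) → Nat))) => (fun (x106 : ((x107 : Nat) → ((x108 : Nat) → Nat))) => (fun (x109 :
    @K.Cls) => (fun (x110 : Nat) => (fun (x111 : Nat) => (fun (x112 : Nat) => (fun (x113 : Nat)
    => (fun (x114 : Nat) => (fun (x115 : Nat) => (fun (x116 : Nat) => (fun (x117 : Nat) => (fun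
    (x118 : Nat) => ((fun (x119 : Nat) => (@Bool.rec.{1} (fun (x120 : Bool) => Bool)
    (@Bool.rec.{1} (fun (x121 : Bool) => Bool) (@Bool.rec.{1} (fun (x122 : Bool) => Bool)
    (@Bool.rec.{1} (fun (x123 : Bool) => Bool) (@Bool.rec.{1} (fun (x124 : Bool) => Bool)
    (@Bool.false) (@mainT x100 x102 x103 x106 x109 (@Bool.true) x111 x112 x113 x114 x115 x116
    (Nat.mod (Nat.div x110 (nat_lit 8)) (nat_lit 128)) (Nat.div x110 (nat_lit 1024)) x118)
    (Nat.ble (Nat.succ x118) (nat_lit 1267650600228229401496703205376))) (@Bool.rec.{1} (fun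
    (x125 : Bool) => Bool) (@Bool.false) (@mainT x100 x102 x103 x106 x109 (@Bool.false) x111 x112
    x113 x114 x115 x116 (Nat.mod (Nat.div x110 (nat_lit 8)) (nat_lit 128)) (Nat.div x110 (nat_lit
    1024)) x117) (Nat.ble (Nat.succ x117) (nat_lit 1267650600228229401496703205376))) (Nat.beq
    x119 (@OfNat.ofNat.{0} Nat (nat_lit 3) (@instOfNatNat (nat_lit 3))))) (@twoT x102 x111 x112
    x113 x114 x116) (Nat.beq x119 (@OfNat.ofNat.{0} Nat (nat_lit 2) (@instOfNatNat (nat_lit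
    2))))) (@inBall (@K.Cls.bl x109) (Nat.mul (Nat.sub (nat_lit 1048576) x114) (Nat.sub (nat_lit
    1048576) x112)) (Nat.mul (Nat.sub (nat_lit 1048576) x113) (Nat.sub (nat_lit 1048576) x111))
    (Nat.sub (Nat.shiftLeft x112 (nat_lit 20)) (Nat.mul x113 (Nat.sub (nat_lit 1048576) x112))))
    (Nat.beq x119 (@OfNat.ofNat.{0} Nat (nat_lit 1) (@instOfNatNat (nat_lit 1))))) (Nat.ble
    (Nat.succ (Nat.shiftLeft x112 (nat_lit 20))) (Nat.mul x113 (Nat.sub (nat_lit 1048576) x112)))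
    (Nat.beq x119 (@OfNat.ofNat.{0} Nat (nat_lit 0) (@instOfNatNat (nat_lit 0)))))) (Nat.mod x110
    (nat_lit 8)))))))))))))))))

noncomputable def boxEP : ((x0 : Nat) → ((x1 : Nat) → ((x2 : Nat) → ((x3 : Nat) → ((x4 : Nat) → ((x5 : Nat) → ((x6 : Nat)
    → ((x7 : Nat) → @K.EP)))))))) :=
    (fun (x100 : Nat) => (fun (x101 : Nat) => (fun (x102 : Nat) => (fun (x103 : Nat) => (fun (x104 :
    Nat) => (fun (x105 : Nat) => (fun (x106 : Nat) => (fun (x107 : Nat) => ((fun (x108 : Nat) =>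
    (fun (x109 : Nat) => ((fun (x110 : Nat) => ((fun (x111 : Nat) => (@K.EP.mk x100 x108 x109
    x105 x106 (Nat.div x108 x100) x110 (@Bool.true) (Nat.shiftLeft x101 (nat_lit 20))
    (Nat.shiftLeft x102 (nat_lit 20)) (Nat.mul x103 (Nat.sub (nat_lit 1048576) x102)) (mn
    (Nat.shiftLeft x102 (nat_lit 20)) (Nat.mul x104 (Nat.sub (nat_lit 1048576) x101))) x111
    (nat_lit 0) (Nat.shiftRight x111 (Nat.mul (nat_lit 2) x107)) (@Bool.false) (@Bool.false)))
    (Nat.mul x100 (Nat.succ (Nat.shiftRight (Nat.mul (Nat.sub x110 (Nat.div x108 x100)) (Nat.sub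
    (Nat.succ (Nat.div x109 x100)) x105)) (nat_lit 40)))))) (mn (mn (Nat.shiftLeft x102 (nat_lit
    20)) (Nat.mul x104 (Nat.sub (nat_lit 1048576) x101))) x109)))) (Nat.mul (Nat.sub (nat_lit
    1048576) x104) (Nat.sub (nat_lit 1048576) x102)) (Nat.mul (Nat.sub (nat_lit 1048576) x103)
    (Nat.sub (nat_lit 1048576) x101)))))))))))

noncomputable def vLo : ((x0 : Nat) → ((x1 : Nat) → ((x2 : Nat) → ((x3 : Nat) → ((x4 : Nat) → ((x5 : Bool) → Nat)))))) :=
    (fun (x100 : Nat) => (fun (x101 : Nat) => (fun (x102 : Nat) => (fun (x103 : Nat) => (fun (x104 :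
    Nat) => (fun (x105 : Bool) => ((fun (x106 : Nat) => (fun (x107 : Nat) => (mx (Nat.add
    (Nat.shiftRight (Nat.mul x106 x106) (nat_lit 40)) (Nat.shiftRight (Nat.mul x107 x107)
    (nat_lit 40))) (@Bool.rec.{1} (fun (x108 : Bool) => Nat) (Nat.div (Nat.mul (Nat.shiftRight
    (Nat.mul (mx x106 x107) (mx x106 x107)) (nat_lit 40)) x100) (Nat.sub x100 (nat_lit 1)))
    (nat_lit 0) x105)))) (Nat.sub (Nat.div x101 x100) x103) (Nat.sub x104 (Nat.succ (Nat.div x102
    x100))))))))))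

noncomputable def envUp : ((x0 : @K.Blk) → ((x1 : ((x2 : Nat) → ((x3 : Nat) → Nat))) → ((x4 : Nat) → ((x5 : Nat) → ((x6 :
    Nat) → ((x7 : Nat) → ((x8 : Nat) → Nat))))))) :=
    (fun (x100 : @K.Blk) => (fun (x101 : ((x102 : Nat) → ((x103 : Nat) → Nat))) => (fun (x104 : Nat)
    => (fun (x105 : Nat) => (fun (x106 : Nat) => (fun (x107 : Nat) => (fun (x108 : Nat) => ((fun
    (x109 : Nat) => (mx (@Bool.rec.{1} (fun (x110 : Bool) => Nat) (mn x109 (Nat.succ
    (Nat.shiftRight (Nat.mul (Nat.succ (Nat.shiftRight (Nat.mul x108 x108) (nat_lit 40))) (@expU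
    (Nat.shiftRight (Nat.mul x104 (Nat.sub x106 (Nat.mul (nat_lit 2) x105))) (nat_lit 40))))
    (nat_lit 40)))) (nat_lit 0) (@Bool.rec.{1} (fun (x111 : Bool) => Bool) (Nat.ble x105
    (@K.Blk.z2 x100)) (@Bool.true) (Nat.ble (Nat.succ x107) (Nat.mul (nat_lit 2) (@K.Blk.z2
    x100))))) (@Bool.rec.{1} (fun (x112 : Bool) => Nat) (mn x109 (Nat.succ (Nat.shiftRight
    (Nat.mul (Nat.sub (mx (Nat.mod (Nat.shiftRight (@rqI x101 (@K.Blk.Z2 x100)) (nat_lit 0))
    (nat_lit 72057594037927936)) (Nat.mod (Nat.shiftRight (@rqI x101 (@K.Blk.Z2 x100)) (nat_lit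
    56)) (nat_lit 72057594037927936))) (nat_lit 36028797018963968)) (@expU (Nat.shiftRight
    (Nat.mul x104 (Nat.sub x106 x105)) (nat_lit 40)))) (nat_lit 40)))) (nat_lit 0) (Nat.ble x105
    (@K.Blk.Z2 x100))))) (@expU (Nat.shiftRight (Nat.mul x104 x106) (nat_lit 40)))))))))))

noncomputable def crUp : ((x0 : @K.Blk) → ((x1 : ((x2 : Nat) → ((x3 : Nat) → Nat))) → ((x4 : @K.EP) → ((x5 : Nat) → ((x6
    : Nat) → ((x7 : Nat) → ((x8 : Nat) → ((x9 : Nat) → ((x10 : Nat) → ((x11 : Nat) → ((x12 : Nat)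
    → Nat))))))))))) :=
    (fun (x100 : @K.Blk) => (fun (x101 : ((x102 : Nat) → ((x103 : Nat) → Nat))) => (fun (x104 :
    @K.EP) => (fun (x105 : Nat) => (fun (x106 : Nat) => (fun (x107 : Nat) => (fun (x108 : Nat) =>
    (fun (x109 : Nat) => (fun (x110 : Nat) => (fun (x111 : Nat) => (fun (x112 : Nat) => ((fun
    (x113 : Nat) => (fun (x114 : Nat) => (fun (x115 : Nat) => (fun (x116 : Nat) => ((fun (x117 :
    Nat) => ((fun (x118 : Nat) => (fun (x119 : Nat) => (@Bool.rec.{1} (fun (x120 : Bool) => Nat)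
    ((fun (x121 : Nat) => (@Bool.rec.{1} (fun (x122 : Bool) => Nat) x121 (@Bool.rec.{1} (fun
    (x123 : Bool) => Nat) ((fun (x124 : Nat) => (mn x121 (Nat.succ (Nat.shiftRight (Nat.mul
    (Nat.succ (Nat.shiftRight (Nat.mul (Nat.sub (mx (Nat.mod (Nat.shiftRight x116 (nat_lit 0))
    (nat_lit 72057594037927936)) (Nat.mod (Nat.shiftRight x116 (nat_lit 56)) (nat_lit
    72057594037927936))) (nat_lit 36028797018963968)) (Nat.succ (Nat.shiftRight (Nat.mul x124
    x124) (nat_lit 40)))) (nat_lit 40))) (Nat.succ (Nat.shiftRight (Nat.shiftLeft (Nat.pow (mx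
    (Nat.sub (mx (Nat.mod (Nat.shiftRight x118 (nat_lit 0)) (nat_lit 72057594037927936)) (Nat.mod
    (Nat.shiftRight x118 (nat_lit 56)) (nat_lit 72057594037927936))) (nat_lit 36028797018963968))
    (Nat.sub (mx (Nat.mod (Nat.shiftRight x119 (nat_lit 0)) (nat_lit 72057594037927936)) (Nat.mod
    (Nat.shiftRight x119 (nat_lit 56)) (nat_lit 72057594037927936))) (nat_lit
    36028797018963968))) (Nat.sub x113 (nat_lit 3))) (nat_lit 40)) (Nat.mul (nat_lit 40) (Nat.sub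
    x113 (nat_lit 3)))))) (nat_lit 40))))) (mx (Nat.sub (Nat.mod (Nat.shiftRight x118 (nat_lit
    0)) (nat_lit 72057594037927936)) (nat_lit 36028797018963968)) (Nat.sub (Nat.mod
    (Nat.shiftRight x119 (nat_lit 0)) (nat_lit 72057594037927936)) (nat_lit 36028797018963968))))
    (nat_lit 0) (Nat.beq x113 (@OfNat.ofNat.{0} Nat (nat_lit 2) (@instOfNatNat (nat_lit 2)))))
    (@Bool.rec.{1} (fun (x125 : Bool) => Bool) (@Bool.false) (Nat.beq (Nat.sub (Nat.mod
    (Nat.shiftRight x116 (nat_lit 0)) (nat_lit 72057594037927936)) (nat_lit 36028797018963968))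
    (@OfNat.ofNat.{0} Nat (nat_lit 0) (@instOfNatNat (nat_lit 0)))) (Nat.ble x110 (@K.Blk.Z2
    x100))))) (mn (mn (@envUp x100 x101 x106 x110 x111 x112 x114) (@Bool.rec.{1} (fun (x126 :
    Bool) => Nat) (Nat.succ (Nat.shiftRight (Nat.shiftLeft (Nat.pow x115 x113) (nat_lit 40))
    (Nat.mul (nat_lit 40) x113))) (Nat.succ (Nat.shiftRight (Nat.mul (Nat.succ (Nat.shiftRight
    (Nat.mul x114 x114) (nat_lit 40))) (Nat.succ (Nat.shiftRight (Nat.shiftLeft (Nat.pow x115
    (Nat.sub x113 (nat_lit 2))) (nat_lit 40)) (Nat.mul (nat_lit 40) (Nat.sub x113 (nat_lit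
    2)))))) (nat_lit 40))) (Nat.ble x110 (@K.Blk.Z2 x100)))) (Nat.succ (Nat.shiftRight (Nat.mul
    (Nat.succ (Nat.shiftRight (Nat.mul (Nat.sub (mx (Nat.mod (Nat.shiftRight x116 (nat_lit 0))
    (nat_lit 72057594037927936)) (Nat.mod (Nat.shiftRight x116 (nat_lit 56)) (nat_lit
    72057594037927936))) (nat_lit 36028797018963968)) (Nat.sub (mx (Nat.mod (Nat.shiftRight x119
    (nat_lit 0)) (nat_lit 72057594037927936)) (Nat.mod (Nat.shiftRight x119 (nat_lit 56))
    (nat_lit 72057594037927936))) (nat_lit 36028797018963968))) (nat_lit 40))) (Nat.succ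
    (Nat.shiftRight (Nat.shiftLeft (Nat.pow (Nat.sub (mx (Nat.mod (Nat.shiftRight x118 (nat_lit
    0)) (nat_lit 72057594037927936)) (Nat.mod (Nat.shiftRight x118 (nat_lit 56)) (nat_lit
    72057594037927936))) (nat_lit 36028797018963968)) (Nat.sub x113 (nat_lit 2))) (nat_lit 40))
    (Nat.mul (nat_lit 40) (Nat.sub x113 (nat_lit 2)))))) (nat_lit 40))))) (nat_lit 0)
    (@Bool.rec.{1} (fun (x127 : Bool) => Bool) (@Bool.false) (Nat.beq (Nat.mod x113 (nat_lit 2))
    (@OfNat.ofNat.{0} Nat (nat_lit 0) (@instOfNatNat (nat_lit 0)))) (@Bool.rec.{1} (fun (x128 :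
    Bool) => Bool) (@Bool.false) (Nat.beq (Nat.sub (Nat.mod (Nat.shiftRight x118 (nat_lit 56))
    (nat_lit 72057594037927936)) (nat_lit 36028797018963968)) (@OfNat.ofNat.{0} Nat (nat_lit 0)
    (@instOfNatNat (nat_lit 0)))) (@Bool.rec.{1} (fun (x129 : Bool) => Bool) (@Bool.false)
    (Nat.beq (Nat.sub (Nat.mod (Nat.shiftRight x119 (nat_lit 56)) (nat_lit 72057594037927936))
    (nat_lit 36028797018963968)) (@OfNat.ofNat.{0} Nat (nat_lit 0) (@instOfNatNat (nat_lit 0))))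
    (Nat.beq (Nat.sub (Nat.mod (Nat.shiftRight x116 (nat_lit 0)) (nat_lit 72057594037927936))
    (nat_lit 36028797018963968)) (@OfNat.ofNat.{0} Nat (nat_lit 0) (@instOfNatNat (nat_lit
    0)))))))))) (@rq x101 (Nat.shiftRight (Nat.mul x117 x107) (nat_lit 40)) x110) (@rq x101
    (Nat.shiftRight (Nat.mul (mx x117 (@K.EP.xb0 x104)) x107) (nat_lit 40)) x110))) (mx
    (@K.EP.xa0 x104) (Nat.sub (Nat.sub (@K.EP.ra x104) (@K.EP.xa1 x104)) (Nat.mul (Nat.sub x113
    (nat_lit 2)) (@K.EP.xb1 x104))))))))) (@K.EP.k x104) (Nat.sub (Nat.mod (Nat.shiftRight x105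
    (nat_lit 0)) (nat_lit 72057594037927936)) (nat_lit 36028797018963968)) (Nat.sub (mx (Nat.mod
    (Nat.shiftRight x105 (nat_lit 0)) (nat_lit 72057594037927936)) (Nat.mod (Nat.shiftRight x105
    (nat_lit 56)) (nat_lit 72057594037927936))) (nat_lit 36028797018963968)) (@rq x101 x109 (mn
    x110 (Nat.succ (Nat.shiftRight (Nat.mul (@K.EP.xa1 x104) x108) (nat_lit 40)))))))))))))))))

noncomputable def envDn : ((x0 : @K.Blk) → ((x1 : Nat) → ((x2 : Nat) → ((x3 : Nat) → ((x4 : Nat) → Nat))))) :=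
    (fun (x100 : @K.Blk) => (fun (x101 : Nat) => (fun (x102 : Nat) => (fun (x103 : Nat) => (fun
    (x104 : Nat) => (@Bool.rec.{1} (fun (x105 : Bool) => Nat) (mn (@expU (Nat.shiftRight (Nat.mul
    x101 x103) (nat_lit 40))) (Nat.succ (Nat.shiftRight (Nat.mul x104 (@expU (Nat.shiftRight
    (Nat.mul x101 (Nat.sub x103 x102)) (nat_lit 40)))) (nat_lit 40)))) (nat_lit 0) (Nat.ble x102
    (@K.Blk.z2 x100))))))))

noncomputable def hess3 : ((x0 : @K.EP) → ((x1 : Nat) → ((x2 : Nat) → ((x3 : Nat) → ((x4 : Nat) → Nat))))) :=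
    (fun (x100 : @K.EP) => (fun (x101 : Nat) => (fun (x102 : Nat) => (fun (x103 : Nat) => (fun (x104
    : Nat) => ((fun (x105 : Nat) => (fun (x106 : Nat) => (fun (x107 : Nat) => (fun (x108 : Nat)
    => ((fun (x109 : Nat) => (Nat.succ (Nat.add (Nat.succ (Nat.add (Nat.succ (Nat.div (Nat.mul
    (Nat.mul x109 x109) x106) (nat_lit 2))) (Nat.div (Nat.mul (Nat.mul (Nat.sub (Nat.add
    (Nat.succ (Nat.div (Nat.succ (Nat.shiftRight (Nat.mul x107 x108) (nat_lit 40))) (nat_lit 6)))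
    (Nat.sub (Nat.mod (Nat.shiftRight x103 (nat_lit 0)) (nat_lit 72057594037927936)) (nat_lit
    36028797018963968))) (Nat.sub (nat_lit 36028797018963968) (Nat.mod (Nat.shiftRight x103
    (nat_lit 0)) (nat_lit 72057594037927936)))) x105) x105) (nat_lit 2)))) (Nat.shiftRight
    (Nat.mul (Nat.mul (Nat.mul x105 x105) x105) (Nat.succ (Nat.div (Nat.mul (Nat.succ
    (Nat.shiftRight (Nat.mul x104 (@K.EP.sV x100)) (nat_lit 40))) (nat_lit 1361)) (nat_lit
    10000)))) (nat_lit 40))))) (mn (Nat.sub (mx (Nat.mod (Nat.shiftRight x101 (nat_lit 0))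
    (nat_lit 72057594037927936)) (Nat.mod (Nat.shiftRight x101 (nat_lit 56)) (nat_lit
    72057594037927936))) (nat_lit 36028797018963968)) (Nat.succ (Nat.add (Nat.sub (mx (Nat.mod
    (Nat.shiftRight x103 (nat_lit 0)) (nat_lit 72057594037927936)) (Nat.mod (Nat.shiftRight x103
    (nat_lit 56)) (nat_lit 72057594037927936))) (nat_lit 36028797018963968)) (Nat.div (Nat.succ
    (Nat.shiftRight (Nat.mul (mx x106 x107) x108) (nat_lit 40))) (nat_lit 6)))))))))) (Nat.succ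
    (Nat.div (Nat.add (Nat.mod (Nat.shiftRight x101 (nat_lit 112)) (nat_lit 72057594037927936))
    (Nat.mod (Nat.shiftRight x102 (nat_lit 112)) (nat_lit 72057594037927936))) (nat_lit 2)))
    (Nat.sub (Nat.succ (Nat.div (Nat.add (Nat.mod (Nat.shiftRight x101 (nat_lit 224)) (nat_lit
    72057594037927936)) (Nat.mul (nat_lit 3) (Nat.mod (Nat.shiftRight x102 (nat_lit 224))
    (nat_lit 72057594037927936)))) (nat_lit 4))) (nat_lit 36028797018963968)) (Nat.sub (Nat.succ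
    (Nat.div (Nat.add (Nat.mod (Nat.shiftRight x101 (nat_lit 168)) (nat_lit 72057594037927936))
    (Nat.mul (nat_lit 3) (Nat.mod (Nat.shiftRight x102 (nat_lit 168)) (nat_lit
    72057594037927936)))) (nat_lit 4))) (nat_lit 36028797018963968)) (Nat.succ (Nat.shiftRight
    (Nat.mul (Nat.succ (Nat.shiftRight (Nat.mul x104 x104) (nat_lit 40))) (@K.EP.Vh x100))
    (nat_lit 40)))))))))

noncomputable def t4L : ((x0 : Nat) → ((x1 : Nat) → Nat)) :=
    (fun (x100 : Nat) => (fun (x101 : Nat) => (Nat.div (Nat.shiftLeft (Nat.sub (Nat.pow x101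
    (nat_lit 5)) (Nat.pow x100 (nat_lit 5))) (nat_lit 10)) (nat_lit 5))))

noncomputable def hess : ((x0 : Sort 1) → ((x1 : @K.Blk) → ((x2 : @K.EP) → ((x3 : Nat) → ((x4 : Nat) → ((x5 : Nat) → ((x6
    : Nat) → ((x7 : Nat) → ((x8 : ((x9 : Nat) → ((x10 : Nat) → x0))) → x0))))))))) :=
    (fun (x100 : Sort 1) => (fun (x101 : @K.Blk) => (fun (x102 : @K.EP) => (fun (x103 : Nat) => (fun
    (x104 : Nat) => (fun (x105 : Nat) => (fun (x106 : Nat) => (fun (x107 : Nat) => (fun (x108 :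
    ((x109 : Nat) → ((x110 : Nat) → x100))) => ((fun (x111 : Nat) => (fun (x112 : Nat) => (fun
    (x113 : Nat) => (fun (x114 : Nat) => (fun (x115 : Nat) => (fun (x116 : Nat) => (fun (x117 :
    Nat) => ((fun (x118 : Nat) => (fun (x119 : Nat) => ((fun (x120 : Nat) => (fun (x121 : Nat) =>
    ((fun (x122 : Nat) => (fun (x123 : Nat) => (@Bool.rec.{1} (fun (x124 : Bool) => x100) (x108
    (mx (@Bool.rec.{1} (fun (x125 : Bool) => Nat) x122 (nat_lit 0) (@Bool.rec.{1} (fun (x126 :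
    Bool) => Bool) (Nat.beq (Nat.sub (Nat.mod (Nat.shiftRight x103 (nat_lit 56)) (nat_lit
    72057594037927936)) (nat_lit 36028797018963968)) (@OfNat.ofNat.{0} Nat (nat_lit 0)
    (@instOfNatNat (nat_lit 0)))) (@Bool.true) (Nat.ble x106 (@K.Blk.Z2 x101)))) (@Bool.rec.{1}
    (fun (x127 : Bool) => Nat) (@Bool.rec.{1} (fun (x128 : Bool) => Nat) (@Bool.rec.{1} (fun
    (x129 : Bool) => Nat) (Nat.add x122 x121) x123 (Nat.beq (Nat.mod x111 (nat_lit 2))
    (@OfNat.ofNat.{0} Nat (nat_lit 0) (@instOfNatNat (nat_lit 0))))) (mx x123 (Nat.add x122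
    x121)) (@K.EP.uni x102)) (nat_lit 0) (Nat.beq (Nat.sub (Nat.mod (Nat.shiftRight x103 (nat_lit
    0)) (nat_lit 72057594037927936)) (nat_lit 36028797018963968)) (@OfNat.ofNat.{0} Nat (nat_lit
    0) (@instOfNatNat (nat_lit 0)))))) (mx (@Bool.rec.{1} (fun (x130 : Bool) => Nat) (Nat.add
    x123 x121) (nat_lit 0) (Nat.beq (Nat.sub (Nat.mod (Nat.shiftRight x103 (nat_lit 56)) (nat_lit
    72057594037927936)) (nat_lit 36028797018963968)) (@OfNat.ofNat.{0} Nat (nat_lit 0)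
    (@instOfNatNat (nat_lit 0))))) (@Bool.rec.{1} (fun (x131 : Bool) => Nat) (@Bool.rec.{1} (fun
    (x132 : Bool) => Nat) x123 (Nat.add x122 x121) (Nat.beq (Nat.mod x111 (nat_lit 2))
    (@OfNat.ofNat.{0} Nat (nat_lit 0) (@instOfNatNat (nat_lit 0))))) (nat_lit 0) (Nat.beq
    (Nat.sub (Nat.mod (Nat.shiftRight x103 (nat_lit 0)) (nat_lit 72057594037927936)) (nat_lit
    36028797018963968)) (@OfNat.ofNat.{0} Nat (nat_lit 0) (@instOfNatNat (nat_lit 0))))))) (x108
    (mx (mx (@Bool.rec.{1} (fun (x133 : Bool) => Nat) x122 (nat_lit 0) (@Bool.rec.{1} (fun (x134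
    : Bool) => Bool) (Nat.beq (Nat.sub (Nat.mod (Nat.shiftRight x103 (nat_lit 56)) (nat_lit
    72057594037927936)) (nat_lit 36028797018963968)) (@OfNat.ofNat.{0} Nat (nat_lit 0)
    (@instOfNatNat (nat_lit 0)))) (@Bool.true) (Nat.ble x106 (@K.Blk.Z2 x101)))) (@Bool.rec.{1}
    (fun (x135 : Bool) => Nat) (@Bool.rec.{1} (fun (x136 : Bool) => Nat) (@Bool.rec.{1} (fun
    (x137 : Bool) => Nat) (Nat.add x122 x121) x123 (Nat.beq (Nat.mod x111 (nat_lit 2))
    (@OfNat.ofNat.{0} Nat (nat_lit 0) (@instOfNatNat (nat_lit 0))))) (mx x123 (Nat.add x122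
    x121)) (@K.EP.uni x102)) (nat_lit 0) (Nat.beq (Nat.sub (Nat.mod (Nat.shiftRight x103 (nat_lit
    0)) (nat_lit 72057594037927936)) (nat_lit 36028797018963968)) (@OfNat.ofNat.{0} Nat (nat_lit
    0) (@instOfNatNat (nat_lit 0)))))) (Nat.add (@Bool.rec.{1} (fun (x138 : Bool) => Nat)
    (Nat.succ (Nat.div (Nat.mul (Nat.mul (Nat.succ (Nat.shiftRight (Nat.mul (Nat.sub (Nat.mod
    (Nat.shiftRight x103 (nat_lit 0)) (nat_lit 72057594037927936)) (nat_lit 36028797018963968))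
    (Nat.succ (Nat.shiftRight (Nat.shiftLeft (Nat.pow x116 (Nat.sub x111 (nat_lit 3))) (nat_lit
    40)) (Nat.mul (nat_lit 40) (Nat.sub x111 (nat_lit 3)))))) (nat_lit 40))) x113) x113) (nat_lit
    2))) (nat_lit 0) (Nat.beq x111 (@OfNat.ofNat.{0} Nat (nat_lit 2) (@instOfNatNat (nat_lit
    2))))) (@Bool.rec.{1} (fun (x139 : Bool) => Nat) x119 (nat_lit 0) (@Bool.rec.{1} (fun (x140 :
    Bool) => Bool) (@Bool.rec.{1} (fun (x141 : Bool) => Bool) (@Bool.false) (@Bool.rec.{1} (fun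
    (x142 : Bool) => Bool) (@Bool.true) (@Bool.false) (@K.EP.uni x102)) (Nat.beq (Nat.mod x111
    (nat_lit 2)) (@OfNat.ofNat.{0} Nat (nat_lit 0) (@instOfNatNat (nat_lit 0))))) (@Bool.true)
    (Nat.beq (Nat.sub (Nat.mod (Nat.shiftRight x105 (nat_lit 0)) (nat_lit 72057594037927936))
    (nat_lit 36028797018963968)) (@OfNat.ofNat.{0} Nat (nat_lit 0) (@instOfNatNat (nat_lit
    0)))))))) (mx (mx (@Bool.rec.{1} (fun (x143 : Bool) => Nat) (Nat.add x123 x121) (nat_lit 0)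
    (Nat.beq (Nat.sub (Nat.mod (Nat.shiftRight x103 (nat_lit 56)) (nat_lit 72057594037927936))
    (nat_lit 36028797018963968)) (@OfNat.ofNat.{0} Nat (nat_lit 0) (@instOfNatNat (nat_lit 0)))))
    (@Bool.rec.{1} (fun (x144 : Bool) => Nat) (@Bool.rec.{1} (fun (x145 : Bool) => Nat) x123
    (Nat.add x122 x121) (Nat.beq (Nat.mod x111 (nat_lit 2)) (@OfNat.ofNat.{0} Nat (nat_lit 0)
    (@instOfNatNat (nat_lit 0))))) (nat_lit 0) (Nat.beq (Nat.sub (Nat.mod (Nat.shiftRight x103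
    (nat_lit 0)) (nat_lit 72057594037927936)) (nat_lit 36028797018963968)) (@OfNat.ofNat.{0} Nat
    (nat_lit 0) (@instOfNatNat (nat_lit 0)))))) (Nat.add (Nat.succ (Nat.div (Nat.mul (Nat.mul
    (Nat.succ (Nat.shiftRight (Nat.shiftLeft (Nat.pow x116 (Nat.sub x111 (nat_lit 2))) (nat_lit
    40)) (Nat.mul (nat_lit 40) (Nat.sub x111 (nat_lit 2))))) x113) x113) (nat_lit 2)))
    (@Bool.rec.{1} (fun (x146 : Bool) => Nat) x119 (nat_lit 0) (@Bool.rec.{1} (fun (x147 : Bool)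
    => Bool) (@Bool.false) (Nat.beq (Nat.sub (Nat.mod (Nat.shiftRight x105 (nat_lit 56)) (nat_lit
    72057594037927936)) (nat_lit 36028797018963968)) (@OfNat.ofNat.{0} Nat (nat_lit 0)
    (@instOfNatNat (nat_lit 0)))) (@Bool.rec.{1} (fun (x148 : Bool) => Bool) (@Bool.true)
    (@Bool.false) (Nat.beq (Nat.mod x111 (nat_lit 2)) (@OfNat.ofNat.{0} Nat (nat_lit 0)
    (@instOfNatNat (nat_lit 0)))))))))) (@Bool.rec.{1} (fun (x149 : Bool) => Bool) (@Bool.false)
    (Nat.beq (Nat.sub (nat_lit 36028797018963968) (Nat.mod (Nat.shiftRight x103 (nat_lit 56))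
    (nat_lit 72057594037927936))) (@OfNat.ofNat.{0} Nat (nat_lit 0) (@instOfNatNat (nat_lit 0))))
    (Nat.beq (Nat.sub (nat_lit 36028797018963968) (Nat.mod (Nat.shiftRight x103 (nat_lit 0))
    (nat_lit 72057594037927936))) (@OfNat.ofNat.{0} Nat (nat_lit 0) (@instOfNatNat (nat_lit
    0)))))))) (Nat.shiftLeft (Nat.mul x120 x114) (nat_lit 39)) (Nat.shiftLeft (Nat.mul x120 x115)
    (nat_lit 39))))) (Nat.succ (Nat.shiftRight (Nat.shiftLeft (Nat.pow x118 (Nat.sub x111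
    (nat_lit 1))) (nat_lit 40)) (Nat.mul (nat_lit 40) (Nat.sub x111 (nat_lit 1))))) (Nat.mul
    (Nat.mul (Nat.succ (Nat.shiftRight (Nat.mul (@Bool.rec.{1} (fun (x150 : Bool) => Nat)
    (@Bool.rec.{1} (fun (x151 : Bool) => Nat) (nat_lit 1099511627776) (mn (nat_lit 1099511627776)
    (@divU (Nat.sub (Nat.mul (nat_lit 2) x118) (Nat.sub (nat_lit 36028797018963968) (Nat.mod
    (Nat.shiftRight x103 (nat_lit 56)) (nat_lit 72057594037927936)))) (Nat.mul (nat_lit 2)
    x118))) (Nat.ble (nat_lit 1) (Nat.sub (nat_lit 36028797018963968) (Nat.mod (Nat.shiftRight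
    x103 (nat_lit 56)) (nat_lit 72057594037927936))))) (mn (nat_lit 1099511627776) (@divU
    (Nat.sub (Nat.mul (nat_lit 2) x118) (Nat.sub (nat_lit 36028797018963968) (Nat.mod
    (Nat.shiftRight x103 (nat_lit 0)) (nat_lit 72057594037927936)))) (Nat.mul (nat_lit 2) x118)))
    (Nat.ble (nat_lit 1) (Nat.sub (nat_lit 36028797018963968) (Nat.mod (Nat.shiftRight x103
    (nat_lit 0)) (nat_lit 72057594037927936))))) (Nat.succ (Nat.shiftRight (Nat.shiftLeft
    (Nat.pow x118 (Nat.sub x111 (nat_lit 2))) (nat_lit 40)) (Nat.mul (nat_lit 40) (Nat.sub x111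
    (nat_lit 2)))))) (nat_lit 40))) x112) x112)))) (mn x116 (Nat.succ (Nat.add x117 (Nat.div
    (Nat.succ (Nat.shiftRight (Nat.mul (mx x114 x115) (Nat.succ (Nat.shiftRight (Nat.mul
    (Nat.succ (Nat.shiftRight (Nat.mul x107 x107) (nat_lit 40))) (@K.EP.Vh x102)) (nat_lit 40))))
    (nat_lit 40))) (Nat.mul (nat_lit 2) x111))))) (@Bool.rec.{1} (fun (x152 : Bool) => Nat)
    (Nat.mul (Nat.mul (Nat.succ (Nat.div (Nat.mul (Nat.succ (Nat.shiftRight (Nat.shiftLeft
    (Nat.pow x117 (Nat.sub x111 (nat_lit 2))) (nat_lit 40)) (Nat.mul (nat_lit 40) (Nat.sub x111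
    (nat_lit 2))))) (Nat.sub x111 (nat_lit 1))) x111)) x112) x112) (Nat.mul (Nat.mul (Nat.succ
    (Nat.shiftRight (Nat.shiftLeft (Nat.pow x117 (Nat.sub x111 (nat_lit 2))) (nat_lit 40))
    (Nat.mul (nat_lit 40) (Nat.sub x111 (nat_lit 2))))) x112) x112) (@K.EP.uni x102))))))))))
    (@K.EP.k x102) (Nat.succ (Nat.div (Nat.add (Nat.mod (Nat.shiftRight x103 (nat_lit 112))
    (nat_lit 72057594037927936)) (Nat.mod (Nat.shiftRight x104 (nat_lit 112)) (nat_lit
    72057594037927936))) (nat_lit 2))) (Nat.mod (Nat.shiftRight x103 (nat_lit 112)) (nat_lit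
    72057594037927936)) (Nat.sub (Nat.succ (Nat.div (Nat.add (Nat.mod (Nat.shiftRight x103
    (nat_lit 224)) (nat_lit 72057594037927936)) (Nat.mul (nat_lit 3) (Nat.mod (Nat.shiftRight
    x104 (nat_lit 224)) (nat_lit 72057594037927936)))) (nat_lit 4))) (nat_lit 36028797018963968))
    (Nat.sub (Nat.succ (Nat.div (Nat.add (Nat.mod (Nat.shiftRight x103 (nat_lit 168)) (nat_lit
    72057594037927936)) (Nat.mul (nat_lit 3) (Nat.mod (Nat.shiftRight x104 (nat_lit 168))
    (nat_lit 72057594037927936)))) (nat_lit 4))) (nat_lit 36028797018963968)) (Nat.sub (mx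
    (Nat.mod (Nat.shiftRight x103 (nat_lit 0)) (nat_lit 72057594037927936)) (Nat.mod
    (Nat.shiftRight x103 (nat_lit 56)) (nat_lit 72057594037927936))) (nat_lit 36028797018963968))
    (Nat.sub (mx (Nat.mod (Nat.shiftRight x105 (nat_lit 0)) (nat_lit 72057594037927936)) (Nat.mod
    (Nat.shiftRight x105 (nat_lit 56)) (nat_lit 72057594037927936))) (nat_lit
    36028797018963968))))))))))))

noncomputable def cellE : ((x0 : Sort 1) → ((x1 : @K.Blk) → ((x2 : ((x3 : Nat) → ((x4 : Nat) → Nat))) → ((x5 : ((x6 : Nat)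
    → Nat)) → ((x7 : ((x8 : Nat) → Nat)) → ((x9 : ((x10 : Nat) → Nat)) → ((x11 : @K.EP) → ((x12 :
    Nat) → ((x13 : Nat) → ((x14 : Nat) → ((x15 : Nat) → ((x16 : Nat) → ((x17 : ((x18 : Nat) →
    ((x19 : Nat) → ((x20 : Nat) → x0)))) → x0))))))))))))) :=
    (fun (x100 : Sort 1) => (fun (x101 : @K.Blk) => (fun (x102 : ((x103 : Nat) → ((x104 : Nat) →
    Nat))) => (fun (x105 : ((x106 : Nat) → Nat)) => (fun (x107 : ((x108 : Nat) → Nat)) => (fun
    (x109 : ((x110 : Nat) → Nat)) => (fun (x111 : @K.EP) => (fun (x112 : Nat) => (fun (x113 :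
    Nat) => (fun (x114 : Nat) => (fun (x115 : Nat) => (fun (x116 : Nat) => (fun (x117 : ((x118 :
    Nat) → ((x119 : Nat) → ((x120 : Nat) → x100)))) => ((fun (x121 : Nat) => (fun (x122 : Nat) =>
    (fun (x123 : Nat) => ((fun (x124 : Nat) => (fun (x125 : Nat) => (fun (x126 : Nat) => (fun
    (x127 : Nat) => (fun (x128 : Nat) => (fun (x129 : Nat) => ((fun (x130 : Nat) => (fun (x131 :
    Nat) => (fun (x132 : Nat) => (fun (x133 : Nat) => (fun (x134 : Nat) => ((fun (x135 : Nat) =>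
    (fun (x136 : Nat) => (@Bool.rec.{1} (fun (x137 : Bool) => x100) ((fun (x138 : Nat) => ((fun
    (x139 : Nat) => (@hess x100 x101 x111 x132 x135 x136 x125 x123 (fun (x140 : Nat) => (fun
    (x141 : Nat) => ((fun (x142 : Nat) => (@Bool.rec.{1} (fun (x143 : Bool) => x100) (x117 x114
    (Nat.add x115 x142) x116) (x117 (Nat.add x114 x139) x115 x116) (Nat.ble x139 (Nat.shiftRight
    (Nat.mul (@K.EP.Vs x111) x142) (nat_lit 40))))) (@Bool.rec.{1} (fun (x144 : Bool) => Nat)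
    (Nat.succ (Nat.shiftRight (Nat.mul (mx (Nat.mul x133 (@Bool.rec.{1} (fun (x145 : Bool) =>
    Nat) x140 (mn x140 (@hess3 x111 x132 x135 x136 x123)) (@Bool.rec.{1} (fun (x146 : Bool) =>
    Bool) (@Bool.false) (@K.EP.fin x111) (Nat.beq x121 (@OfNat.ofNat.{0} Nat (nat_lit 3)
    (@instOfNatNat (nat_lit 3))))))) (Nat.mul x134 x141)) (Nat.succ (@t4L x112 x113))) (nat_lit
    160))) (nat_lit 1267650600228229401496703205376) (@Bool.rec.{1} (fun (x147 : Bool) => Bool)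
    (@Bool.false) (@Bool.rec.{1} (fun (x148 : Bool) => Bool) (@Bool.true) (@Bool.false) (Nat.ble
    (mx (Nat.sub (mx (Nat.mod (Nat.shiftRight x132 (nat_lit 0)) (nat_lit 72057594037927936))
    (Nat.mod (Nat.shiftRight x132 (nat_lit 56)) (nat_lit 72057594037927936))) (nat_lit
    36028797018963968)) (Nat.sub (mx (Nat.mod (Nat.shiftRight x136 (nat_lit 0)) (nat_lit
    72057594037927936)) (Nat.mod (Nat.shiftRight x136 (nat_lit 56)) (nat_lit 72057594037927936)))
    (nat_lit 36028797018963968))) (nat_lit 769658139443))) (@K.EP.uni x111)))))))) (@Bool.rec.{1}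
    (fun (x149 : Bool) => Nat) (Nat.succ (Nat.shiftRight (Nat.mul (mx (Nat.succ (Nat.shiftRight
    (Nat.mul x133 (Nat.sub (Nat.add (@crUp x101 x102 x111 x132 x138 x122 x123 x124 x125 x126
    x127) (@pNeg x136 x121)) (@pLop x136 x121))) (nat_lit 40))) (@Bool.rec.{1} (fun (x150 : Bool)
    => Nat) (Nat.succ (Nat.shiftRight (Nat.mul x134 (Nat.sub (Nat.add (@pHi x136 x121) (mn
    (@envDn x101 x138 x125 x126 (Nat.sub (Nat.mod (Nat.shiftRight x132 (nat_lit 0)) (nat_lit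
    72057594037927936)) (nat_lit 36028797018963968))) (Nat.succ (Nat.shiftRight (Nat.mul (Nat.sub
    (Nat.mod (Nat.shiftRight x132 (nat_lit 0)) (nat_lit 72057594037927936)) (nat_lit
    36028797018963968)) (Nat.succ (Nat.shiftRight (Nat.shiftLeft (Nat.pow (Nat.sub (mx (Nat.mod
    (Nat.shiftRight x132 (nat_lit 0)) (nat_lit 72057594037927936)) (Nat.mod (Nat.shiftRight x132
    (nat_lit 56)) (nat_lit 72057594037927936))) (nat_lit 36028797018963968)) (Nat.sub x121
    (nat_lit 1))) (nat_lit 40)) (Nat.mul (nat_lit 40) (Nat.sub x121 (nat_lit 1)))))) (nat_lit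
    40))))) (@pHin x136 x121))) (nat_lit 40))) (nat_lit 0) (Nat.beq x134 (@OfNat.ofNat.{0} Nat
    (nat_lit 0) (@instOfNatNat (nat_lit 0)))))) (Nat.shiftLeft (Nat.sub x113 x112) (nat_lit 34)))
    (nat_lit 40))) (@Bool.rec.{1} (fun (x151 : Bool) => Nat) (nat_lit
    1267650600228229401496703205376) (Nat.succ (Nat.shiftRight (Nat.mul (Nat.add (@envUp x101
    x102 x138 x125 x126 (nat_lit 1267650600228229401496703205376) (Nat.sub (Nat.mod
    (Nat.shiftRight x132 (nat_lit 0)) (nat_lit 72057594037927936)) (nat_lit 36028797018963968)))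
    (Nat.succ (Nat.shiftRight (Nat.shiftLeft (Nat.pow (Nat.sub (Nat.mod (Nat.shiftRight x136
    (nat_lit 0)) (nat_lit 72057594037927936)) (nat_lit 36028797018963968)) x121) (nat_lit 40))
    (Nat.mul (nat_lit 40) x121)))) (Nat.shiftLeft (Nat.sub x113 x112) (nat_lit 34))) (nat_lit
    40))) (@Bool.rec.{1} (fun (x152 : Bool) => Bool) (@Bool.false) (Nat.ble (Nat.sub (Nat.mod
    (Nat.shiftRight x136 (nat_lit 0)) (nat_lit 72057594037927936)) (nat_lit 36028797018963968))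
    (nat_lit 769658139443)) (@Bool.rec.{1} (fun (x153 : Bool) => Bool) (@Bool.false) (Nat.ble
    (nat_lit 5497558138880) (Nat.mul (Nat.mul (nat_lit 2) x121) (Nat.shiftRight (Nat.mul x138
    x130) (nat_lit 40)))) (Nat.ble (Nat.mul (nat_lit 2) x125) x126)))) (@K.EP.uni x111)))) (@envb
    x105 x125)) ((fun (x154 : Nat) => ((fun (x155 : Nat) => (x117 x114 x115 (Nat.add x116
    (Nat.div (Nat.shiftLeft (Nat.shiftRight (Nat.mul (Nat.shiftRight (Nat.mul (Nat.shiftRight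
    (Nat.mul (@Bool.rec.{1} (fun (x156 : Bool) => Nat) (nat_lit 1099511627776) (@oLop x128 x129)
    (@K.EP.ho x111)) (Nat.shiftRight (Nat.shiftLeft (Nat.pow (Nat.sub (nat_lit 36028797018963968)
    (Nat.mod (Nat.shiftRight x136 (nat_lit 0)) (nat_lit 72057594037927936))) x121) (nat_lit 40))
    (Nat.mul (nat_lit 40) x121))) (nat_lit 40)) x155) (nat_lit 40)) (@t4L x112 x113)) (nat_lit
    40)) (nat_lit 40)) (Nat.add (nat_lit 2199023255552) (Nat.succ (Nat.shiftRight (Nat.mul x155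
    (Nat.succ (Nat.shiftRight (Nat.mul (Nat.succ (Nat.shiftRight (Nat.mul x123 x123) (nat_lit
    40))) (@K.EP.Vh x111)) (nat_lit 40)))) (nat_lit 40)))))))) (@Bool.rec.{1} (fun (x157 : Bool)
    => Nat) (nat_lit 0) (Nat.sub (nat_lit 36028797018963968) (Nat.succ (Nat.div (Nat.add (Nat.mod
    (Nat.shiftRight x154 (nat_lit 392)) (nat_lit 72057594037927936)) (Nat.mul (nat_lit 3)
    (Nat.mod (Nat.shiftRight x135 (nat_lit 392)) (nat_lit 72057594037927936)))) (nat_lit 4))))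
    (Nat.ble (Nat.succ (mx (Nat.mod (Nat.shiftRight x154 (nat_lit 392)) (nat_lit
    72057594037927936)) (Nat.mod (Nat.shiftRight x135 (nat_lit 392)) (nat_lit
    72057594037927936)))) (nat_lit 72057594037927935))))) (@Bool.rec.{1} (fun (x158 : Bool) =>
    Nat) x132 (@rq x102 (nat_lit 0) x125) (@K.EP.uni x111))) (@Bool.rec.{1} (fun (x159 : Bool) =>
    Bool) (@Bool.false) (Nat.beq x134 (@OfNat.ofNat.{0} Nat (nat_lit 0) (@instOfNatNat (nat_lit
    0)))) (Nat.ble x125 (@K.Blk.z2 x101)))))) (@rq x102 (@Bool.rec.{1} (fun (x160 : Bool) => Nat)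
    (Nat.div (Nat.add x124 x130) (nat_lit 2)) (@Bool.rec.{1} (fun (x161 : Bool) => Nat) (Nat.div
    (Nat.add x124 x130) (nat_lit 2)) (nat_lit 0) (Nat.ble x125 (@K.Blk.z2 x101))) (@K.EP.uni
    x111)) (mn x125 (Nat.succ (Nat.div (Nat.add x125 x131) (nat_lit 2))))) (@Bool.rec.{1} (fun
    (x162 : Bool) => Nat) (@rq x102 x130 x131) (@fineN x101 x107 x109 (@rq x102 x130 (Nat.succ
    x131)) x130 x131) (@K.EP.fin x111)))))))) (mx x124 (Nat.div x126 x121)) (mn x125 (Nat.succ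
    (Nat.div x127 x121))) (@rq x102 x124 x125) (@Bool.rec.{1} (fun (x163 : Bool) => Nat) (nat_lit
    1099511627776) (@oHi x128 x129) (@K.EP.ho x111)) (@Bool.rec.{1} (fun (x164 : Bool) => Nat)
    (nat_lit 0) (@oNeg x128 x129) (@K.EP.ho x111))))))))) (Nat.shiftRight (Nat.mul (@K.EP.xa0
    x111) x122) (nat_lit 40)) (Nat.succ (Nat.shiftRight (Nat.mul (@K.EP.xb1 x111) x123) (nat_lit
    40))) (Nat.shiftRight (Nat.mul (@K.EP.ra x111) x122) (nat_lit 40)) (Nat.succ (Nat.shiftRight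
    (Nat.mul (@K.EP.rb x111) x123) (nat_lit 40))) (@Bool.rec.{1} (fun (x165 : Bool) => Nat)
    (nat_lit 0) (@rq x102 (Nat.shiftRight (Nat.mul (@K.EP.x1l x111) x122) (nat_lit 40)) (Nat.succ
    (Nat.shiftRight (Nat.mul (@K.EP.x1h x111) x123) (nat_lit 40)))) (@K.EP.ho x111))
    (@Bool.rec.{1} (fun (x166 : Bool) => Nat) (nat_lit 0) (@rq x102 (Nat.shiftRight (Nat.mul
    (@K.EP.x2l x111) x122) (nat_lit 40)) (Nat.succ (Nat.shiftRight (Nat.mul (@K.EP.x2h x111)
    x123) (nat_lit 40)))) (@K.EP.ho x111)))))) (@K.EP.k x111) (Nat.shiftLeft (Nat.mul x112 x112)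
    (nat_lit 28)) (Nat.shiftLeft (Nat.mul x113 x113) (nat_lit 28))))))))))))))))

noncomputable def oTail : ((x0 : @K.Blk) → ((x1 : ((x2 : Nat) → ((x3 : Nat) → Nat))) → ((x4 : Nat) → ((x5 : Nat) → ((x6 :
    Nat) → Nat))))) :=
    (fun (x100 : @K.Blk) => (fun (x101 : ((x102 : Nat) → ((x103 : Nat) → Nat))) => (fun (x104 : Nat)
    => (fun (x105 : Nat) => (fun (x106 : Nat) => ((fun (x107 : Nat) => (fun (x108 : Nat) => ((fun
    (x109 : Nat) => (fun (x110 : Nat) => (fun (x111 : Nat) => (mn (@Bool.rec.{1} (fun (x112 :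
    Bool) => Nat) (nat_lit 1267650600228229401496703205376) (Nat.succ (Nat.shiftRight (Nat.mul
    (Nat.succ (Nat.shiftRight (Nat.mul x110 x111) (nat_lit 40))) (Nat.shiftLeft x106 (nat_lit
    34))) (nat_lit 40))) (@Bool.rec.{1} (fun (x113 : Bool) => Bool) (@Bool.false) (Nat.ble
    (Nat.succ x111) (nat_lit 1267650600228229401496703205376)) (Nat.ble (Nat.succ x110) (nat_lit
    1267650600228229401496703205376)))) (@Bool.rec.{1} (fun (x114 : Bool) => Nat) (nat_lit
    1267650600228229401496703205376) (Nat.succ (Nat.shiftRight (Nat.mul (Nat.succ (Nat.shiftRight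
    (Nat.mul x109 (Nat.sub (mx (Nat.mod (Nat.shiftRight (@rqI x101 x108) (nat_lit 0)) (nat_lit
    72057594037927936)) (Nat.mod (Nat.shiftRight (@rqI x101 x108) (nat_lit 56)) (nat_lit
    72057594037927936))) (nat_lit 36028797018963968))) (nat_lit 40))) (Nat.shiftLeft x106
    (nat_lit 33))) (nat_lit 40))) (Nat.ble (Nat.succ x109) (nat_lit
    1267650600228229401496703205376))))))) (@farc x100 x107) (@far0 x100 x107) (@far0 x100
    x108)))) (Nat.shiftRight (Nat.mul x104 (Nat.shiftLeft (Nat.mul x106 x106) (nat_lit 28)))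
    (nat_lit 40)) (Nat.shiftRight (Nat.mul x105 (Nat.shiftLeft (Nat.mul x106 x106) (nat_lit 28)))
    (nat_lit 40))))))))

noncomputable def pTail : ((x0 : @K.Blk) → ((x1 : Nat) → ((x2 : Nat) → ((x3 : Nat) → Nat)))) :=
    (fun (x100 : @K.Blk) => (fun (x101 : Nat) => (fun (x102 : Nat) => (fun (x103 : Nat) => (mn
    (nat_lit 1099511627776) (@sqrtU (Nat.succ (Nat.shiftRight (Nat.shiftLeft (Nat.pow (@divU
    (nat_lit 1099511627776) (Nat.add (nat_lit 1099511627776) (Nat.shiftRight (Nat.mul (@K.Blk.gam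
    x100) (Nat.shiftRight (Nat.mul x102 (Nat.shiftLeft (Nat.mul x103 x103) (nat_lit 28)))
    (nat_lit 40))) (nat_lit 40)))) (Nat.div x101 x102)) (nat_lit 40)) (Nat.mul (nat_lit 40)
    (Nat.div x101 x102))))))))))

noncomputable def finE : ((x0 : Sort 1) → ((x1 : @K.Blk) → ((x2 : ((x3 : Nat) → ((x4 : Nat) → Nat))) → ((x5 : @K.EP) →
    ((x6 : ((x7 : Nat) → ((x8 : Nat) → ((x9 : Nat) → x0)))) → ((x10 : Nat) → ((x11 : Nat) → ((x12
    : Nat) → ((x13 : Nat) → x0))))))))) :=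
    (fun (x100 : Sort 1) => (fun (x101 : @K.Blk) => (fun (x102 : ((x103 : Nat) → ((x104 : Nat) →
    Nat))) => (fun (x105 : @K.EP) => (fun (x106 : ((x107 : Nat) → ((x108 : Nat) → ((x109 : Nat) →
    x100)))) => (fun (x110 : Nat) => (fun (x111 : Nat) => (fun (x112 : Nat) => (fun (x113 : Nat)
    => ((fun (x114 : Nat) => (fun (x115 : Nat) => ((fun (x116 : Nat) => (fun (x117 : Nat) => (fun
    (x118 : Nat) => (@Bool.rec.{1} (fun (x119 : Bool) => x100) ((fun (x120 : Nat) => (fun (x121 :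
    Nat) => (fun (x122 : Nat) => (fun (x123 : Nat) => ((fun (x124 : Nat) => (fun (x125 : Nat) =>
    ((fun (x126 : Nat) => (fun (x127 : Nat) => (@Bool.rec.{1} (fun (x128 : Bool) => x100) (x106
    x111 (Nat.add x112 x127) x113) (x106 (Nat.add x111 x126) x112 x113) (Nat.ble x126
    (Nat.shiftRight (Nat.mul (@K.EP.Vs x105) x127) (nat_lit 40)))))) (@Bool.rec.{1} (fun (x129 :
    Bool) => Nat) (nat_lit 1267650600228229401496703205376) (Nat.succ (Nat.shiftRight (Nat.mul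
    (Nat.add (Nat.succ (Nat.shiftRight (Nat.shiftLeft (Nat.pow x120 x114) (nat_lit 40)) (Nat.mul
    (nat_lit 40) x114))) x124) (Nat.shiftLeft x110 (nat_lit 34))) (nat_lit 40))) (@Bool.rec.{1}
    (fun (x130 : Bool) => Bool) (@Bool.false) (Nat.ble (Nat.succ x124) (nat_lit
    1267650600228229401496703205376)) (@Bool.rec.{1} (fun (x131 : Bool) => Bool) (@Bool.false)
    (Nat.ble (@OfNat.ofNat.{0} Nat (nat_lit 3) (@instOfNatNat (nat_lit 3))) x114) (Nat.ble x120
    (nat_lit 769658139443))))) (@Bool.rec.{1} (fun (x132 : Bool) => Nat) (nat_lit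
    1267650600228229401496703205376) (Nat.succ (Nat.shiftRight (Nat.mul (Nat.mul (Nat.mul
    (Nat.add (Nat.shiftLeft (Nat.mul (Nat.succ (Nat.shiftRight (Nat.shiftLeft (Nat.pow x125
    (Nat.sub x114 (nat_lit 1))) (nat_lit 40)) (Nat.mul (nat_lit 40) (Nat.sub x114 (nat_lit 1)))))
    x123) (nat_lit 39)) (Nat.mul (Nat.mul (Nat.mul (nat_lit 2) (Nat.succ (Nat.shiftRight
    (Nat.shiftLeft (Nat.pow x125 (Nat.sub x114 (nat_lit 2))) (nat_lit 40)) (Nat.mul (nat_lit 40)
    (Nat.sub x114 (nat_lit 2)))))) x122) x122)) x115) x115) x110) (nat_lit 166))) (@Bool.rec.{1}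
    (fun (x133 : Bool) => Bool) (@Bool.false) (Nat.ble (Nat.succ x123) (nat_lit
    1267650600228229401496703205376)) (@Bool.rec.{1} (fun (x134 : Bool) => Bool) (@Bool.false)
    (Nat.ble (Nat.succ x122) (nat_lit 1267650600228229401496703205376)) (@Bool.rec.{1} (fun (x135
    : Bool) => Bool) (@Bool.false) (Nat.ble (@OfNat.ofNat.{0} Nat (nat_lit 3) (@instOfNatNat
    (nat_lit 3))) x114) (Nat.ble x125 (nat_lit 769658139443))))))))) (mn (@Bool.rec.{1} (fun
    (x136 : Bool) => Nat) (nat_lit 1267650600228229401496703205376) (Nat.succ (Nat.shiftRight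
    (Nat.shiftLeft (Nat.pow (@divU (nat_lit 1099511627776) x118) (nat_lit 2)) (nat_lit 40))
    (nat_lit 80))) (@Bool.rec.{1} (fun (x137 : Bool) => Bool) (@Bool.false) (@Bool.rec.{1} (fun
    (x138 : Bool) => Bool) (Nat.ble (Nat.mul (nat_lit 4) (@K.EP.xb1 x105)) (@K.EP.ra x105))
    (@Bool.rec.{1} (fun (x139 : Bool) => Bool) (@Bool.false) (Nat.ble (@OfNat.ofNat.{0} Nat
    (nat_lit 8) (@instOfNatNat (nat_lit 8))) x114) (Nat.ble (Nat.mul (Nat.mul (nat_lit 2) x114)
    (@K.EP.xb1 x105)) (nat_lit 3298534883328))) (@K.EP.uni x105)) (Nat.ble (nat_lit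
    70368744177664) x118))) (@Bool.rec.{1} (fun (x140 : Bool) => Nat) (nat_lit
    1267650600228229401496703205376) (Nat.succ (Nat.shiftRight (Nat.shiftLeft (Nat.pow x121 x114)
    (nat_lit 40)) (Nat.mul (nat_lit 40) x114))) (@Bool.rec.{1} (fun (x141 : Bool) => Bool)
    (@Bool.false) (@Bool.rec.{1} (fun (x142 : Bool) => Bool) (@Bool.true) (@Bool.false)
    (@K.EP.uni x105)) (Nat.ble (Nat.succ x121) (nat_lit 1267650600228229401496703205376)))))
    (@Bool.rec.{1} (fun (x143 : Bool) => Nat) (@farc x101 x116) x121 (Nat.ble (@OfNat.ofNat.{0}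
    Nat (nat_lit 4) (@instOfNatNat (nat_lit 4))) x114))))))) (@far0 x101 x117) (@far0 x101 x116)
    (@far1b x101 x116) (@far2 x101 x116)) ((fun (x144 : Nat) => (x106 (Nat.add x111
    (@Bool.rec.{1} (fun (x145 : Bool) => Nat) (nat_lit 1267650600228229401496703205376) (Nat.succ
    (Nat.shiftRight (Nat.mul x144 (Nat.add (@pTail x101 (@K.EP.ra x105) (@K.EP.xb1 x105) x110)
    (Nat.succ (Nat.shiftRight (Nat.shiftLeft (Nat.pow (Nat.sub (mx (Nat.mod (Nat.shiftRight (@rqI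
    x102 x117) (nat_lit 0)) (nat_lit 72057594037927936)) (Nat.mod (Nat.shiftRight (@rqI x102
    x117) (nat_lit 56)) (nat_lit 72057594037927936))) (nat_lit 36028797018963968)) x114) (nat_lit
    40)) (Nat.mul (nat_lit 40) x114))))) (nat_lit 40))) (Nat.ble (Nat.succ x144) (nat_lit
    1267650600228229401496703205376)))) x112 x113)) (@oTail x101 x102 (@K.EP.x1l x105) (@K.EP.x2l
    x105) x110)) (@K.EP.ho x105))))) (Nat.shiftRight (Nat.mul (@K.EP.xa0 x105) x115) (nat_lit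
    40)) (Nat.div (Nat.shiftRight (Nat.mul (@K.EP.ra x105) x115) (nat_lit 40)) x114)
    (Nat.shiftRight (Nat.mul (@K.Blk.gam x101) (Nat.shiftRight (Nat.mul (@K.EP.xb1 x105) x115)
    (nat_lit 40))) (nat_lit 40))))) (@K.EP.k x105) (Nat.shiftLeft (Nat.mul x110 x110) (nat_lit
    28))))))))))))

noncomputable def runE : ((x0 : Sort 1) → ((x1 : @K.Blk) → ((x2 : ((x3 : Nat) → ((x4 : Nat) → Nat))) → ((x5 : ((x6 : Nat)
    → Nat)) → ((x7 : ((x8 : Nat) → Nat)) → ((x9 : ((x10 : Nat) → Nat)) → ((x11 : @K.EP) → ((x12 :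
    (@List.{0} Nat)) → ((x13 : ((x14 : Nat) → ((x15 : Nat) → ((x16 : Nat) → x0)))) → x0))))))))) :=
    (fun (x100 : Sort 1) => (fun (x101 : @K.Blk) => (fun (x102 : ((x103 : Nat) → ((x104 : Nat) →
    Nat))) => (fun (x105 : ((x106 : Nat) → Nat)) => (fun (x107 : ((x108 : Nat) → Nat)) => (fun
    (x109 : ((x110 : Nat) → Nat)) => (fun (x111 : @K.EP) => (fun (x112 : (@List.{0} Nat)) => (fun
    (x113 : ((x114 : Nat) → ((x115 : Nat) → ((x116 : Nat) → x100)))) => (@sweep x100 x112 (@cellE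
    x100 x101 x102 x105 x107 x109 x111) (@finE x100 x101 x102 x111 x113)))))))))))

noncomputable def excOne : ((x0 : @K.Blk) → ((x1 : ((x2 : Nat) → ((x3 : Nat) → Nat))) → ((x4 : ((x5 : Nat) → Nat)) → ((x6 :
    @K.EP) → ((x7 : (@List.{0} Nat)) → Nat))))) :=
    (fun (x100 : @K.Blk) => (fun (x101 : ((x102 : Nat) → ((x103 : Nat) → Nat))) => (fun (x104 :
    ((x105 : Nat) → Nat)) => (fun (x106 : @K.EP) => (fun (x107 : (@List.{0} Nat)) => (@runE Nat
    x100 x101 x104 x104 x104 x106 x107 (fun (x108 : Nat) => (fun (x109 : Nat) => (fun (x110 :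
    Nat) => (@Bool.rec.{1} (fun (x111 : Bool) => Nat) (nat_lit 1267650600228229401496703205376)
    (@Bool.rec.{1} (fun (x112 : Bool) => Nat) (Nat.sub (Nat.add (nat_lit 36028797018963968) x108)
    (Nat.shiftRight (Nat.mul (@vLo (@K.EP.k x106) (@K.EP.ra x106) (@K.EP.rb x106) (@K.EP.xa1
    x106) (@K.EP.xb0 x106) (@Bool.false)) (Nat.sub x110 x109)) (nat_lit 40))) (Nat.add (Nat.add
    (nat_lit 36028797018963968) x108) (Nat.succ (Nat.shiftRight (Nat.mul (@K.EP.Vh x106) (Nat.sub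
    x109 x110)) (nat_lit 40)))) (Nat.ble x110 x109)) (@Bool.rec.{1} (fun (x113 : Bool) => Bool)
    (@Bool.false) (Nat.ble (Nat.succ x109) (nat_lit 1267650600228229401496703205376)) (Nat.ble
    (Nat.succ x108) (nat_lit 1267650600228229401496703205376)))))))))))))

noncomputable def excE : ((x0 : @K.Blk) → ((x1 : ((x2 : Nat) → ((x3 : Nat) → Nat))) → ((x4 : ((x5 : Nat) → Nat)) → ((x6 :
    Nat) → ((x7 : Nat) → ((x8 : Nat) → ((x9 : Nat) → ((x10 : Nat) → ((x11 : Nat) → ((x12 :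
    (@List.{0} Nat)) → Nat)))))))))) :=
    (fun (x100 : @K.Blk) => (fun (x101 : ((x102 : Nat) → ((x103 : Nat) → Nat))) => (fun (x104 :
    ((x105 : Nat) → Nat)) => (fun (x106 : Nat) => (fun (x107 : Nat) => (fun (x108 : Nat) => (fun
    (x109 : Nat) => (fun (x110 : Nat) => (fun (x111 : Nat) => (fun (x112 : (@List.{0} Nat)) =>
    (@Bool.rec.{1} (fun (x113 : Bool) => Nat) ((fun (x114 : Nat) => (fun (x115 : Nat) => ((fun
    (x116 : Nat) => ((fun (x117 : Nat) => (fun (x118 : Nat) => (@Bool.rec.{1} (fun (x119 : Bool)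
    => Nat) (@Bool.rec.{1} (fun (x120 : Bool) => Nat) (mx (mx (@excOne x100 x101 x104 (@boxEP
    x106 x107 x108 x109 x110 x116 x117 (Nat.mod x111 (nat_lit 4))) x112) (@excOne x100 x101 x104
    (@boxEP x106 x107 x108 x109 x110 x117 x118 (Nat.mod (Nat.div x111 (nat_lit 4)) (nat_lit 4)))
    x112)) (@excOne x100 x101 x104 (@boxEP x106 x107 x108 x109 x110 x118 x115 (Nat.mod (Nat.div
    x111 (nat_lit 16)) (nat_lit 4))) x112)) (mx (@excOne x100 x101 x104 (@boxEP x106 x107 x108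
    x109 x110 x116 x118 (Nat.mod x111 (nat_lit 4))) x112) (@excOne x100 x101 x104 (@boxEP x106
    x107 x108 x109 x110 x118 x115 (Nat.mod (Nat.div x111 (nat_lit 4)) (nat_lit 4))) x112))
    (Nat.beq (Nat.div x111 (nat_lit 64)) (@OfNat.ofNat.{0} Nat (nat_lit 1) (@instOfNatNat
    (nat_lit 1))))) (@excOne x100 x101 x104 (@boxEP x106 x107 x108 x109 x110 x116 x115 (Nat.mod
    x111 (nat_lit 4))) x112) (Nat.beq (Nat.div x111 (nat_lit 64)) (@OfNat.ofNat.{0} Nat (nat_lit
    0) (@instOfNatNat (nat_lit 0))))))) (Nat.add x116 (Nat.div (Nat.mul (Nat.sub (Nat.div x114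
    x106) x116) (nat_lit 2)) (nat_lit 5))) (Nat.add x116 (Nat.div (Nat.mul (Nat.sub (Nat.div x114
    x106) x116) (nat_lit 7)) (nat_lit 10))))) (Nat.sub x114 (Nat.mul (Nat.sub x106 (nat_lit 1))
    (mn (mn (Nat.shiftLeft x108 (nat_lit 20)) (Nat.mul x110 (Nat.sub (nat_lit 1048576) x107)))
    (Nat.mul (Nat.sub (nat_lit 1048576) x109) (Nat.sub (nat_lit 1048576) x107)))))))) (Nat.mul
    (Nat.sub (nat_lit 1048576) x110) (Nat.sub (nat_lit 1048576) x108)) (Nat.succ (Nat.div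
    (Nat.mul (Nat.sub (nat_lit 1048576) x109) (Nat.sub (nat_lit 1048576) x107)) x106))) (nat_lit
    36028797018963968) (Nat.beq x106 (@OfNat.ofNat.{0} Nat (nat_lit 1) (@instOfNatNat (nat_lit
    1)))))))))))))))

noncomputable def prodLo : ((x0 : @K.Blk) → ((x1 : Nat) → ((x2 : Nat) → ((x3 : Nat) → Nat)))) :=
    (fun (x100 : @K.Blk) => (fun (x101 : Nat) => (fun (x102 : Nat) => (fun (x103 : Nat) => (mx
    (Nat.sub (nat_lit 1099511627776) (Nat.succ (Nat.shiftRight (Nat.mul (@K.Blk.lamh x100) x103)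
    (nat_lit 40)))) (@Bool.rec.{1} (fun (x104 : Bool) => Nat) (nat_lit 0) (Nat.shiftRight
    (Nat.shiftLeft (Nat.pow (Nat.sub (nat_lit 36028797018963968) (Nat.mod (Nat.shiftRight x101
    (nat_lit 0)) (nat_lit 72057594037927936))) (Nat.succ (Nat.div x103 x102))) (nat_lit 40))
    (Nat.mul (nat_lit 40) (Nat.succ (Nat.div x103 x102)))) (@Bool.rec.{1} (fun (x105 : Bool) =>
    Bool) (@Bool.false) (Nat.ble (Nat.div x103 x102) (@OfNat.ofNat.{0} Nat (nat_lit 200)
    (@instOfNatNat (nat_lit 200)))) (@Bool.rec.{1} (fun (x106 : Bool) => Bool) (@Bool.false)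
    (Nat.ble (nat_lit 1) x102) (Nat.ble x102 (@K.Blk.z2 x100))))))))))

noncomputable def cellP : ((x0 : Sort 1) → ((x1 : @K.Blk) → ((x2 : ((x3 : Nat) → ((x4 : Nat) → Nat))) → ((x5 : ((x6 : Nat)
    → Nat)) → ((x7 : Nat) → ((x8 : Nat) → ((x9 : Nat) → ((x10 : Nat) → ((x11 : Nat) → ((x12 :
    Nat) → ((x13 : Nat) → ((x14 : Nat) → ((x15 : Nat) → ((x16 : Nat) → ((x17 : Nat) → ((x18 :
    Nat) → ((x19 : ((x20 : Nat) → ((x21 : Nat) → ((x22 : Nat) → x0)))) → x0))))))))))))))))) :=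
    (fun (x100 : Sort 1) => (fun (x101 : @K.Blk) => (fun (x102 : ((x103 : Nat) → ((x104 : Nat) →
    Nat))) => (fun (x105 : ((x106 : Nat) → Nat)) => (fun (x107 : Nat) => (fun (x108 : Nat) =>
    (fun (x109 : Nat) => (fun (x110 : Nat) => (fun (x111 : Nat) => (fun (x112 : Nat) => (fun
    (x113 : Nat) => (fun (x114 : Nat) => (fun (x115 : Nat) => (fun (x116 : Nat) => (fun (x117 :
    Nat) => (fun (x118 : Nat) => (fun (x119 : ((x120 : Nat) → ((x121 : Nat) → ((x122 : Nat) →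
    x100)))) => ((fun (x123 : Nat) => (fun (x124 : Nat) => ((fun (x125 : Nat) => (fun (x126 :
    Nat) => (fun (x127 : Nat) => (fun (x128 : Nat) => (fun (x129 : Nat) => ((fun (x130 : Nat) =>
    (fun (x131 : Nat) => (fun (x132 : Nat) => (fun (x133 : Nat) => ((fun (x134 : Nat) => (fun
    (x135 : Nat) => ((fun (x136 : Nat) => ((fun (x137 : Nat) => (x119 (@Bool.rec.{1} (fun (x138 :
    Bool) => Nat) (Nat.add (Nat.add x116 x137) (@Bool.rec.{1} (fun (x139 : Bool) => Nat)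
    (Nat.succ (Nat.shiftRight (Nat.mul (Nat.succ (Nat.shiftRight (Nat.shiftLeft (Nat.pow (Nat.sub
    (mx (Nat.mod (Nat.shiftRight (@rq x102 (mx (@K.Blk.z2 x101) (Nat.div x123 (Nat.add x107
    (nat_lit 2)))) (Nat.succ (Nat.div x124 (Nat.add x107 (nat_lit 2))))) (nat_lit 0)) (nat_lit
    72057594037927936)) (Nat.mod (Nat.shiftRight (@rq x102 (mx (@K.Blk.z2 x101) (Nat.div x123
    (Nat.add x107 (nat_lit 2)))) (Nat.succ (Nat.div x124 (Nat.add x107 (nat_lit 2))))) (nat_lit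
    56)) (nat_lit 72057594037927936))) (nat_lit 36028797018963968)) (Nat.add x107 (nat_lit 2)))
    (nat_lit 40)) (Nat.mul (nat_lit 40) (Nat.add x107 (nat_lit 2))))) (Nat.shiftLeft (Nat.sub
    x115 x114) (nat_lit 34))) (nat_lit 40))) (nat_lit 0) (Nat.ble (Nat.succ (Nat.div x124
    (Nat.add x107 (nat_lit 2)))) (@K.Blk.z2 x101)))) x116 (Nat.ble x128 (@K.Blk.z2 x101)))
    (Nat.add x117 x137) x118)) (Nat.succ (Nat.shiftRight (Nat.mul (mx (Nat.succ (Nat.shiftRight
    (Nat.mul (@oHi x132 x129) (mx (@Bool.rec.{1} (fun (x140 : Bool) => Nat) x136 (mn x136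
    (Nat.succ (Nat.add (Nat.succ (Nat.shiftRight (Nat.mul (Nat.sub (@K.Blk.lamh x101) (@K.Blk.lam
    x101)) x127) (nat_lit 40))) (Nat.div (Nat.succ (Nat.shiftRight (Nat.shiftLeft (Nat.pow
    (Nat.succ (Nat.shiftRight (Nat.mul (@K.Blk.lamh x101) x127) (nat_lit 40))) (nat_lit 2))
    (nat_lit 40)) (nat_lit 80))) x107)))) (Nat.ble x130 (@K.Blk.z2 x101))) (Nat.sub (Nat.add
    (@envUp x101 x102 x133 x125 x126 x127 (Nat.sub (Nat.mod (Nat.shiftRight x131 (nat_lit 0))
    (nat_lit 72057594037927936)) (nat_lit 36028797018963968))) (@pNeg x134 x107)) (@pLop x134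
    x107)))) (nat_lit 40))) (@Bool.rec.{1} (fun (x141 : Bool) => Nat) ((fun (x142 : Nat) =>
    (Nat.succ (Nat.shiftRight (Nat.mul x135 (@Bool.rec.{1} (fun (x143 : Bool) => Nat) (Nat.sub
    (@pHi x134 x107) x142) (Nat.sub (Nat.add (@pHi x134 x107) (@envDn x101 x133 x125 x126
    (Nat.sub (Nat.mod (Nat.shiftRight x131 (nat_lit 0)) (nat_lit 72057594037927936)) (nat_lit
    36028797018963968)))) (@pHin x134 x107)) (Nat.beq x142 (@OfNat.ofNat.{0} Nat (nat_lit 0)
    (@instOfNatNat (nat_lit 0)))))) (nat_lit 40)))) (@prodLo x101 x131 x125 x127)) (nat_lit 0)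
    (Nat.beq x135 (@OfNat.ofNat.{0} Nat (nat_lit 0) (@instOfNatNat (nat_lit 0))))))
    (Nat.shiftLeft (Nat.sub x115 x114) (nat_lit 34))) (nat_lit 40))))) (Nat.sub (Nat.add (@expU
    (Nat.shiftRight (Nat.mul (@K.Blk.lam x101) x126) (nat_lit 40))) (@pNeg x134 x107)) (@pLop
    x134 x107))))) (@rq x102 (Nat.div x126 x107) x130) (@oNeg x132 x129)))))) (Nat.succ (Nat.div
    x127 x107)) (@rq x102 (nat_lit 0) x125) (@rq x102 (Nat.shiftRight (Nat.mul x110 x123)
    (nat_lit 40)) x128) (@envb x105 x125))))))) (Nat.succ (Nat.shiftRight (Nat.mul (mn (mn x111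
    x113) x109) x124) (nat_lit 40))) (Nat.shiftRight (Nat.mul x108 x123) (nat_lit 40)) (Nat.succ
    (Nat.shiftRight (Nat.mul x109 x124) (nat_lit 40))) (Nat.succ (Nat.shiftRight (Nat.mul x111
    x124) (nat_lit 40))) (@rq x102 (Nat.shiftRight (Nat.mul x112 x123) (nat_lit 40)) (Nat.succ
    (Nat.shiftRight (Nat.mul x113 x124) (nat_lit 40))))))) (Nat.shiftLeft (Nat.mul x114 x114)
    (nat_lit 28)) (Nat.shiftLeft (Nat.mul x115 x115) (nat_lit 28))))))))))))))))))))

noncomputable def delN : ((x0 : @K.Blk) → ((x1 : ((x2 : Nat) → ((x3 : Nat) → Nat))) → ((x4 : Nat) → Nat))) :=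
    (fun (x100 : @K.Blk) => (fun (x101 : ((x102 : Nat) → ((x103 : Nat) → Nat))) => (fun (x104 : Nat)
    => ((fun (x105 : Nat) => (@Bool.rec.{1} (fun (x106 : Bool) => Nat) (nat_lit
    1267650600228229401496703205376) (@divU (Nat.succ (Nat.shiftRight (Nat.mul (@sqrtU (Nat.mul
    x104 (nat_lit 1099511627776))) (Nat.succ (Nat.shiftRight (Nat.shiftLeft (Nat.pow x105
    (Nat.sub x104 (nat_lit 2))) (nat_lit 40)) (Nat.mul (nat_lit 40) (Nat.sub x104 (nat_lit
    2)))))) (nat_lit 40))) (Nat.shiftRight (Nat.mul (Nat.shiftRight (Nat.mul (@K.Blk.mL x100)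
    (@K.Blk.mL x100)) (nat_lit 40)) (@sqrtL (@K.Blk.z2 x100))) (nat_lit 40))) (Nat.ble x105
    (nat_lit 769658139443)))) (Nat.sub (Nat.mod (Nat.shiftRight (@rqI x101 (@K.Blk.z2 x100))
    (nat_lit 0)) (nat_lit 72057594037927936)) (nat_lit 36028797018963968))))))

noncomputable def finP : ((x0 : Sort 1) → ((x1 : @K.Blk) → ((x2 : ((x3 : Nat) → ((x4 : Nat) → Nat))) → ((x5 : Nat) → ((x6
    : Nat) → ((x7 : Nat) → ((x8 : Nat) → ((x9 : Nat) → ((x10 : Nat) → ((x11 : Nat) → ((x12 :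
    ((x13 : Nat) → ((x14 : Nat) → x0))) → ((x15 : Nat) → ((x16 : Nat) → ((x17 : Nat) → ((x18 :
    Nat) → x0))))))))))))))) :=
    (fun (x100 : Sort 1) => (fun (x101 : @K.Blk) => (fun (x102 : ((x103 : Nat) → ((x104 : Nat) →
    Nat))) => (fun (x105 : Nat) => (fun (x106 : Nat) => (fun (x107 : Nat) => (fun (x108 : Nat) =>
    (fun (x109 : Nat) => (fun (x110 : Nat) => (fun (x111 : Nat) => (fun (x112 : ((x113 : Nat) →
    ((x114 : Nat) → x100))) => (fun (x115 : Nat) => (fun (x116 : Nat) => (fun (x117 : Nat) =>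
    (fun (x118 : Nat) => ((fun (x119 : Nat) => (fun (x120 : Nat) => ((fun (x121 : Nat) => (x112
    (Nat.add (Nat.add (Nat.add x116 x121) (@delN x101 x102 (Nat.add x105 (nat_lit 2))))
    (@Bool.rec.{1} (fun (x122 : Bool) => Nat) (nat_lit 1267650600228229401496703205376) (Nat.succ
    (Nat.shiftRight (Nat.mul (Nat.succ (Nat.shiftRight (Nat.shiftLeft (Nat.pow x120 (Nat.add x105
    (nat_lit 2))) (nat_lit 40)) (Nat.mul (nat_lit 40) (Nat.add x105 (nat_lit 2)))))
    (Nat.shiftLeft x115 (nat_lit 34))) (nat_lit 40))) (Nat.ble (Nat.succ x120) (nat_lit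
    1267650600228229401496703205376)))) (Nat.add x117 x121))) (@Bool.rec.{1} (fun (x123 : Bool)
    => Nat) (nat_lit 1267650600228229401496703205376) (Nat.succ (Nat.shiftRight (Nat.mul x119
    (Nat.add (@pTail x101 x106 (mn (mn x109 x111) x107) x115) (Nat.succ (Nat.shiftRight
    (Nat.shiftLeft (Nat.pow (Nat.sub (mx (Nat.mod (Nat.shiftRight (@rqI x102 (Nat.div
    (Nat.shiftRight (Nat.mul x106 (Nat.shiftLeft (Nat.mul x115 x115) (nat_lit 28))) (nat_lit 40))
    x105)) (nat_lit 0)) (nat_lit 72057594037927936)) (Nat.mod (Nat.shiftRight (@rqI x102 (Nat.div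
    (Nat.shiftRight (Nat.mul x106 (Nat.shiftLeft (Nat.mul x115 x115) (nat_lit 28))) (nat_lit 40))
    x105)) (nat_lit 56)) (nat_lit 72057594037927936))) (nat_lit 36028797018963968)) x105)
    (nat_lit 40)) (Nat.mul (nat_lit 40) x105))))) (nat_lit 40))) (Nat.ble (Nat.succ x119)
    (nat_lit 1267650600228229401496703205376)))))) (@oTail x101 x102 x108 x110 x115) (@far0 x101
    (Nat.div (Nat.shiftLeft (Nat.mul x115 x115) (nat_lit 28)) (Nat.add x105 (nat_lit
    2))))))))))))))))))))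

noncomputable def runP : ((x0 : Sort 1) → ((x1 : @K.Blk) → ((x2 : ((x3 : Nat) → ((x4 : Nat) → Nat))) → ((x5 : ((x6 : Nat)
    → Nat)) → ((x7 : Nat) → ((x8 : Nat) → ((x9 : Nat) → ((x10 : Nat) → ((x11 : Nat) → ((x12 :
    Nat) → ((x13 : Nat) → ((x14 : (@List.{0} Nat)) → ((x15 : ((x16 : Nat) → ((x17 : Nat) → x0)))
    → x0))))))))))))) :=
    (fun (x100 : Sort 1) => (fun (x101 : @K.Blk) => (fun (x102 : ((x103 : Nat) → ((x104 : Nat) →
    Nat))) => (fun (x105 : ((x106 : Nat) → Nat)) => (fun (x107 : Nat) => (fun (x108 : Nat) =>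
    (fun (x109 : Nat) => (fun (x110 : Nat) => (fun (x111 : Nat) => (fun (x112 : Nat) => (fun
    (x113 : Nat) => (fun (x114 : (@List.{0} Nat)) => (fun (x115 : ((x116 : Nat) → ((x117 : Nat) →
    x100))) => (@sweep x100 x114 (@cellP x100 x101 x102 x105 x107 x108 x109 x110 x111 x112 x113)
    (@finP x100 x101 x102 x107 x108 x109 x110 x111 x112 x113 x115)))))))))))))))

noncomputable def excB : ((x0 : Sort 1) → ((x1 : @K.Blk) → ((x2 : ((x3 : Nat) → ((x4 : Nat) → Nat))) → ((x5 : ((x6 : Nat)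
    → Nat)) → ((x7 : @K.Cls) → ((x8 : Nat) → ((x9 : Nat) → ((x10 : Nat) → ((x11 : Nat) → ((x12 :
    Nat) → ((x13 : ((x14 : Nat) → ((x15 : Nat) → x0))) → x0))))))))))) :=
    (fun (x100 : Sort 1) => (fun (x101 : @K.Blk) => (fun (x102 : ((x103 : Nat) → ((x104 : Nat) →
    Nat))) => (fun (x105 : ((x106 : Nat) → Nat)) => (fun (x107 : @K.Cls) => (fun (x108 : Nat) =>
    (fun (x109 : Nat) => (fun (x110 : Nat) => (fun (x111 : Nat) => (fun (x112 : Nat) => (fun
    (x113 : ((x114 : Nat) → ((x115 : Nat) → x100))) => (@Bool.rec.{1} (fun (x116 : Bool) => x100)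
    (@fr x100 (@excE x101 x102 x105 (Nat.sub (@K.Cls.N x107) (nat_lit 2)) x109 x110 x111 x112
    x108 (@K.Cls.sch x107)) (fun (x117 : Nat) => (x113 x117 x117))) (@runP x100 x101 x102 x105
    (Nat.sub (@K.Cls.N x107) (nat_lit 2)) (Nat.mul (Nat.sub (nat_lit 1048576) x112) (Nat.sub
    (nat_lit 1048576) x110)) (Nat.mul (Nat.sub (nat_lit 1048576) x111) (Nat.sub (nat_lit 1048576)
    x109)) (Nat.shiftLeft x109 (nat_lit 20)) (Nat.shiftLeft x110 (nat_lit 20)) (Nat.mul x111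
    (Nat.sub (nat_lit 1048576) x110)) (mn (Nat.shiftLeft x110 (nat_lit 20)) (Nat.mul x112
    (Nat.sub (nat_lit 1048576) x109))) (@K.Cls.sch x107) (fun (x118 : Nat) => (fun (x119 : Nat)
    => (@fr x100 (Nat.add (nat_lit 36028797018963968) x118) (fun (x120 : Nat) => (@fr x100
    (Nat.add (nat_lit 36028797018963968) x119) (fun (x121 : Nat) => (x113 x120 x121))))))))
    (@K.Cls.plus x107)))))))))))))

noncomputable def treeT : ((x0 : ((x1 : Nat) → Nat)) → ((x2 : @K.Blk) → ((x3 : ((x4 : Nat) → ((x5 : Nat) → Nat))) → ((x6 :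
    ((x7 : Nat) → ((x8 : Nat) → Nat))) → ((x9 : ((x10 : Nat) → Nat)) → ((x11 : @K.Cls) → ((x12 :
    @K.Tr) → ((x13 : Nat) → ((x14 : Nat) → ((x15 : Nat) → ((x16 : Nat) → ((x17 : Nat) → ((x18 :
    Nat) → ((x19 : Nat) → ((x20 : Nat) → Bool))))))))))))))) :=
    (fun (x100 : ((x101 : Nat) → Nat)) => (fun (x102 : @K.Blk) => (fun (x103 : ((x104 : Nat) →
    ((x105 : Nat) → Nat))) => (fun (x106 : ((x107 : Nat) → ((x108 : Nat) → Nat))) => (fun (x109 :
    ((x110 : Nat) → Nat)) => (fun (x111 : @K.Cls) => (fun (x112 : @K.Tr) => (@K.Tr.rec.{1} (fun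
    (x113 : @K.Tr) => ((x114 : Nat) → ((x115 : Nat) → ((x116 : Nat) → ((x117 : Nat) → ((x118 :
    Nat) → ((x119 : Nat) → ((x120 : Nat) → ((x121 : Nat) → Bool))))))))) (fun (x122 : Nat) =>
    (@leafT x100 x102 x103 x106 x111 x122)) (fun (x123 : @K.Tr) => (fun (x124 : @K.Tr) => (fun
    (x125 : ((x126 : Nat) → ((x127 : Nat) → ((x128 : Nat) → ((x129 : Nat) → ((x130 : Nat) →
    ((x131 : Nat) → ((x132 : Nat) → ((x133 : Nat) → Bool))))))))) => (fun (x134 : ((x135 : Nat) →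
    ((x136 : Nat) → ((x137 : Nat) → ((x138 : Nat) → ((x139 : Nat) → ((x140 : Nat) → ((x141 : Nat)
    → ((x142 : Nat) → Bool))))))))) => (fun (x143 : Nat) => (fun (x144 : Nat) => (fun (x145 :
    Nat) => (fun (x146 : Nat) => (fun (x147 : Nat) => (fun (x148 : Nat) => (fun (x149 : Nat) =>
    (fun (x150 : Nat) => (@fr Bool (Nat.div (Nat.add x143 x144) (nat_lit 2)) (fun (x151 : Nat) =>
    (@Bool.rec.{1} (fun (x152 : Bool) => Bool) (@Bool.false) (x134 x151 x144 x145 x146 x147 x148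
    x149 x150) (x125 x143 x151 x145 x146 x147 x148 x149 x150)))))))))))))))) (fun (x153 : @K.Tr)
    => (fun (x154 : @K.Tr) => (fun (x155 : ((x156 : Nat) → ((x157 : Nat) → ((x158 : Nat) → ((x159
    : Nat) → ((x160 : Nat) → ((x161 : Nat) → ((x162 : Nat) → ((x163 : Nat) → Bool))))))))) =>
    (fun (x164 : ((x165 : Nat) → ((x166 : Nat) → ((x167 : Nat) → ((x168 : Nat) → ((x169 : Nat) →
    ((x170 : Nat) → ((x171 : Nat) → ((x172 : Nat) → Bool))))))))) => (fun (x173 : Nat) => (fun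
    (x174 : Nat) => (fun (x175 : Nat) => (fun (x176 : Nat) => (fun (x177 : Nat) => (fun (x178 :
    Nat) => (fun (x179 : Nat) => (fun (x180 : Nat) => (@fr Bool (Nat.div (Nat.add x175 x176)
    (nat_lit 2)) (fun (x181 : Nat) => (@Bool.rec.{1} (fun (x182 : Bool) => Bool) (@Bool.false)
    (x164 x173 x174 x181 x176 x177 x178 x179 x180) (x155 x173 x174 x175 x181 x177 x178 x179
    x180)))))))))))))))) (fun (x183 : @K.Tr) => (fun (x184 : @K.Tr) => (fun (x185 : ((x186 : Nat)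
    → ((x187 : Nat) → ((x188 : Nat) → ((x189 : Nat) → ((x190 : Nat) → ((x191 : Nat) → ((x192 :
    Nat) → ((x193 : Nat) → Bool))))))))) => (fun (x194 : ((x195 : Nat) → ((x196 : Nat) → ((x197 :
    Nat) → ((x198 : Nat) → ((x199 : Nat) → ((x200 : Nat) → ((x201 : Nat) → ((x202 : Nat) →
    Bool))))))))) => (fun (x203 : Nat) => (fun (x204 : Nat) => (fun (x205 : Nat) => (fun (x206 :
    Nat) => (fun (x207 : Nat) => (fun (x208 : Nat) => (fun (x209 : Nat) => (fun (x210 : Nat) =>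
    (@fr Bool (Nat.div (Nat.add x207 x208) (nat_lit 2)) (fun (x211 : Nat) => (@Bool.rec.{1} (fun
    (x212 : Bool) => Bool) (@Bool.false) (x194 x203 x204 x205 x206 x211 x208 x209 x210) (x185
    x203 x204 x205 x206 x207 x211 x209 x210)))))))))))))))) (fun (x213 : Nat) => (fun (x214 :
    @K.Tr) => (fun (x215 : ((x216 : Nat) → ((x217 : Nat) → ((x218 : Nat) → ((x219 : Nat) → ((x220
    : Nat) → ((x221 : Nat) → ((x222 : Nat) → ((x223 : Nat) → Bool))))))))) => (fun (x224 : Nat)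
    => (fun (x225 : Nat) => (fun (x226 : Nat) => (fun (x227 : Nat) => (fun (x228 : Nat) => (fun
    (x229 : Nat) => (fun (x230 : Nat) => (fun (x231 : Nat) => (@excB Bool x102 x103 x109 x111
    x213 x224 x225 x226 x227 (x215 x224 x225 x226 x227 x228 x229))))))))))))) x112))))))))

noncomputable def Cert_tree : ((x0 : ((x1 : Nat) → Nat)) → ((x2 : @K.Cert) → ((x3 : @K.Cl) → ((x4 : Nat) → ((x5 : Bool) → ((x6
    : Nat) → ((x7 : Nat) → ((x8 : Nat) → ((x9 : Nat) → Bool))))))))) :=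
    (fun (x100 : ((x101 : Nat) → Nat)) => (fun (x102 : @K.Cert) => (fun (x103 : @K.Cl) => (fun (x104
    : Nat) => (fun (x105 : Bool) => (fun (x106 : Nat) => (fun (x107 : Nat) => (fun (x108 : Nat)
    => (fun (x109 : Nat) => (@treeT x100 (@K.Cert.B x102) (@Cert_Q x102) (@Cert_VV x102)
    (@Cert_Ef x102) (@Cert_cls x102 x103 x104 x105) (@K.Cl.t x103) x106 x107 x108 x109 (nat_lit
    0) (Nat.sub (@K.Blk.nv (@K.Cert.B x102)) (nat_lit 1)) (nat_lit
    1267650600228229401496703205376) (nat_lit 1267650600228229401496703205376)))))))))))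

noncomputable def Cert_exT : ((x0 : ((x1 : Nat) → Nat)) → ((x2 : @K.Cert) → ((x3 : @K.Ex) → ((x4 : Nat) → Bool)))) :=
    (fun (x100 : ((x101 : Nat) → Nat)) => (fun (x102 : @K.Cert) => (fun (x103 : @K.Ex) => (fun (x104
    : Nat) => (@Cert_tree x100 x102 (@K.Ex.c x103) x104 (@Bool.false) (@K.Ex.xl x103) (nat_lit
    1048576) (Nat.div (nat_lit 1048576) (Nat.sub x104 (nat_lit 1))) (nat_lit 1048576))))))

noncomputable def nearEP : ((x0 : Nat) → ((x1 : Bool) → ((x2 : Bool) → ((x3 : Nat) → ((x4 : Nat) → ((x5 : Nat) → ((x6 :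
    Nat) → ((x7 : Nat) → @K.EP)))))))) :=
    (fun (x100 : Nat) => (fun (x101 : Bool) => (fun (x102 : Bool) => (fun (x103 : Nat) => (fun (x104
    : Nat) => (fun (x105 : Nat) => (fun (x106 : Nat) => (fun (x107 : Nat) => ((fun (x108 : Nat)
    => (@K.EP.mk x100 (nat_lit 1099511627776) (nat_lit 1099511627776) x103 x104 x105 x106
    (@Bool.false) (nat_lit 0) (nat_lit 0) (nat_lit 0) (nat_lit 0) x108 (@sqrtU x108) (Nat.div
    (Nat.mul (@vLo x100 (nat_lit 1099511627776) (nat_lit 1099511627776) x104 x105 x101) x107)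
    (nat_lit 4)) x101 x102)) (Nat.mul x100 (Nat.succ (Nat.shiftRight (Nat.mul (Nat.sub x106
    (Nat.div (nat_lit 1099511627776) x100)) (Nat.sub (Nat.succ (Nat.div (nat_lit 1099511627776)
    x100)) x103)) (nat_lit 40)))))))))))))

noncomputable def nearL : ((x0 : @K.Blk) → ((x1 : ((x2 : Nat) → ((x3 : Nat) → Nat))) → ((x4 : ((x5 : Nat) → Nat)) → ((x6 :
    ((x7 : Nat) → Nat)) → ((x8 : ((x9 : Nat) → Nat)) → ((x10 : Nat) → ((x11 : Bool) → ((x12 :
    Bool) → ((x13 : (@List.{0} Nat)) → ((x14 : Nat) → ((x15 : Nat) → ((x16 : Nat) → ((x17 : Nat)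
    → ((x18 : Nat) → Bool)))))))))))))) :=
    (fun (x100 : @K.Blk) => (fun (x101 : ((x102 : Nat) → ((x103 : Nat) → Nat))) => (fun (x104 :
    ((x105 : Nat) → Nat)) => (fun (x106 : ((x107 : Nat) → Nat)) => (fun (x108 : ((x109 : Nat) →
    Nat)) => (fun (x110 : Nat) => (fun (x111 : Bool) => (fun (x112 : Bool) => (fun (x113 :
    (@List.{0} Nat)) => (fun (x114 : Nat) => (fun (x115 : Nat) => (fun (x116 : Nat) => (fun (x117
    : Nat) => (fun (x118 : Nat) => (@Bool.rec.{1} (fun (x119 : Bool) => Bool) (@runE Bool x100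
    x101 x104 x106 x108 (@nearEP x110 x111 x112 x115 x116 x117 x118 (Nat.sub x114 (nat_lit 1)))
    x113 (fun (x120 : Nat) => (fun (x121 : Nat) => (fun (x122 : Nat) => (@Bool.rec.{1} (fun (x123
    : Bool) => Bool) (@Bool.false) (@Bool.rec.{1} (fun (x124 : Bool) => Bool) (Nat.ble (Nat.succ
    x120) (Nat.shiftRight (Nat.mul (@vLo x110 (nat_lit 1099511627776) (nat_lit 1099511627776)
    x116 x117 x111) (Nat.sub x122 x121)) (nat_lit 40))) (@Bool.true) (Nat.beq x120
    (@OfNat.ofNat.{0} Nat (nat_lit 0) (@instOfNatNat (nat_lit 0))))) (@Bool.rec.{1} (fun (x125 :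
    Bool) => Bool) (@Bool.false) (Nat.ble (Nat.succ x121) x122) (@Bool.rec.{1} (fun (x126 : Bool)
    => Bool) (@Bool.false) (Nat.ble (Nat.succ x121) (nat_lit 1267650600228229401496703205376))
    (Nat.ble (Nat.succ x120) (nat_lit 1267650600228229401496703205376))))))))) (@Bool.rec.{1}
    (fun (x127 : Bool) => Bool) (@Bool.false) (@Bool.rec.{1} (fun (x128 : Bool) => Bool) (Nat.ble
    (nat_lit 1099511627777) (Nat.add x117 (Nat.mul (Nat.sub x110 (nat_lit 1)) x115)))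
    (@Bool.true) (Nat.ble (Nat.succ (Nat.add x116 (Nat.mul (Nat.sub x110 (nat_lit 1)) x118)))
    (nat_lit 1099511627776))) (@Bool.rec.{1} (fun (x129 : Bool) => Bool) (@Bool.true)
    (@Bool.false) x111)) (Nat.beq x114 (@OfNat.ofNat.{0} Nat (nat_lit 0) (@instOfNatNat (nat_lit
    0)))))))))))))))))))

noncomputable def nearT : ((x0 : @K.Blk) → ((x1 : ((x2 : Nat) → ((x3 : Nat) → Nat))) → ((x4 : ((x5 : Nat) → Nat)) → ((x6 :
    ((x7 : Nat) → Nat)) → ((x8 : ((x9 : Nat) → Nat)) → ((x10 : Nat) → ((x11 : Bool) → ((x12 :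
    Bool) → ((x13 : (@List.{0} Nat)) → ((x14 : @K.Tr) → ((x15 : Nat) → ((x16 : Nat) → ((x17 :
    Nat) → ((x18 : Nat) → Bool)))))))))))))) :=
    (fun (x100 : @K.Blk) => (fun (x101 : ((x102 : Nat) → ((x103 : Nat) → Nat))) => (fun (x104 :
    ((x105 : Nat) → Nat)) => (fun (x106 : ((x107 : Nat) → Nat)) => (fun (x108 : ((x109 : Nat) →
    Nat)) => (fun (x110 : Nat) => (fun (x111 : Bool) => (fun (x112 : Bool) => (fun (x113 :
    (@List.{0} Nat)) => (fun (x114 : @K.Tr) => (@K.Tr.rec.{1} (fun (x115 : @K.Tr) => ((x116 :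
    Nat) → ((x117 : Nat) → ((x118 : Nat) → ((x119 : Nat) → Bool))))) (fun (x120 : Nat) => (@nearL
    x100 x101 x104 x106 x108 x110 x111 x112 x113 x120)) (fun (x121 : @K.Tr) => (fun (x122 :
    @K.Tr) => (fun (x123 : ((x124 : Nat) → ((x125 : Nat) → ((x126 : Nat) → ((x127 : Nat) →
    Bool))))) => (fun (x128 : ((x129 : Nat) → ((x130 : Nat) → ((x131 : Nat) → ((x132 : Nat) →
    Bool))))) => (fun (x133 : Nat) => (fun (x134 : Nat) => (fun (x135 : Nat) => (fun (x136 : Nat)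
    => (@fr Bool (Nat.div (Nat.add x133 x134) (nat_lit 2)) (fun (x137 : Nat) => (@Bool.rec.{1}
    (fun (x138 : Bool) => Bool) (@Bool.false) (x128 x137 x134 x135 x136) (x123 x133 x137 x135
    x136)))))))))))) (fun (x139 : @K.Tr) => (fun (x140 : @K.Tr) => (fun (x141 : ((x142 : Nat) →
    ((x143 : Nat) → ((x144 : Nat) → ((x145 : Nat) → Bool))))) => (fun (x146 : ((x147 : Nat) →
    ((x148 : Nat) → ((x149 : Nat) → ((x150 : Nat) → Bool))))) => (fun (x151 : Nat) => (fun (x152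
    : Nat) => (fun (x153 : Nat) => (fun (x154 : Nat) => (@fr Bool (Nat.div (Nat.add x153 x154)
    (nat_lit 2)) (fun (x155 : Nat) => (@Bool.rec.{1} (fun (x156 : Bool) => Bool) (@Bool.false)
    (x146 x151 x152 x155 x154) (x141 x151 x152 x153 x155)))))))))))) (fun (x157 : @K.Tr) => (fun
    (x158 : @K.Tr) => (fun (x159 : ((x160 : Nat) → ((x161 : Nat) → ((x162 : Nat) → ((x163 : Nat)
    → Bool))))) => (fun (x164 : ((x165 : Nat) → ((x166 : Nat) → ((x167 : Nat) → ((x168 : Nat) →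
    Bool))))) => (fun (x169 : Nat) => (fun (x170 : Nat) => (fun (x171 : Nat) => (fun (x172 : Nat)
    => @Bool.false)))))))) (fun (x173 : Nat) => (fun (x174 : @K.Tr) => (fun (x175 : ((x176 : Nat)
    → ((x177 : Nat) → ((x178 : Nat) → ((x179 : Nat) → Bool))))) => (fun (x180 : Nat) => (fun
    (x181 : Nat) => (fun (x182 : Nat) => (fun (x183 : Nat) => @Bool.false))))))) x114)))))))))))

noncomputable def dHi : ((x0 : @K.Blk) → ((x1 : ((x2 : Nat) → ((x3 : Nat) → Nat))) → ((x4 : ((x5 : Nat) → Nat)) → ((x6 :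
    Nat) → ((x7 : Nat) → ((x8 : Nat) → Nat)))))) :=
    (fun (x100 : @K.Blk) => (fun (x101 : ((x102 : Nat) → ((x103 : Nat) → Nat))) => (fun (x104 :
    ((x105 : Nat) → Nat)) => (fun (x106 : Nat) => (fun (x107 : Nat) => (fun (x108 : Nat) =>
    (Nat.add (Nat.shiftRight (Nat.mul x107 (Nat.sub (Nat.add (Nat.add (nat_lit 549755813888)
    (@dSum x104 x106 x107 x108)) (@dErr x101 x106 x107 x108)) (Nat.mul x108 (nat_lit
    36028797018963968)))) (nat_lit 4)) (Nat.succ (@dTail x100 x106 x107 x108)))))))))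

noncomputable def kapH : ((x0 : ((x1 : Nat) → Nat)) → ((x2 : @K.Blk) → ((x3 : Nat) → Nat))) :=
    (fun (x100 : ((x101 : Nat) → Nat)) => (fun (x102 : @K.Blk) => (fun (x103 : Nat) => (@divU
    (Nat.succ (Nat.shiftRight (Nat.mul (nat_lit 2442500725677) (@twoH (@Blk_qv x102 x103)))
    (nat_lit 40))) (@mL40 x100 (@K.Blk.R x102) (@Blk_qv x102 x103))))))

noncomputable def crossT : ((x0 : ((x1 : Nat) → Nat)) → ((x2 : @K.Blk) → ((x3 : ((x4 : Nat) → ((x5 : Nat) → Nat))) → ((x6 :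
    ((x7 : Nat) → ((x8 : Nat) → Nat))) → ((x9 : @K.Cls) → ((x10 : Bool) → ((x11 : Nat) →
    Bool))))))) :=
    (fun (x100 : ((x101 : Nat) → Nat)) => (fun (x102 : @K.Blk) => (fun (x103 : ((x104 : Nat) →
    ((x105 : Nat) → Nat))) => (fun (x106 : ((x107 : Nat) → ((x108 : Nat) → Nat))) => (fun (x109 :
    @K.Cls) => (fun (x110 : Bool) => (fun (x111 : Nat) => ((fun (x112 : Nat) => (@fr Bool
    (Nat.succ x111) (fun (x113 : Nat) => ((fun (x114 : Nat) => (fun (x115 : Nat) =>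
    (@Bool.rec.{1} (fun (x116 : Bool) => Bool) (@Bool.false) (@Bool.rec.{1} (fun (x117 : Bool) =>
    Bool) (@Bool.rec.{1} (fun (x118 : Bool) => Bool) (@Bool.false) (@Bool.rec.{1} (fun (x119 :
    Bool) => Bool) (@Bool.rec.{1} (fun (x120 : Bool) => Bool) (@Bool.false) (Nat.ble (Nat.succ
    (Nat.add (Nat.add x115 (@kapH x100 x102 x113)) (Nat.mul (nat_lit 4) x112))) (Nat.add x114
    (@kapL x100 x102 x111))) (Nat.ble (nat_lit 1) x114)) (@Bool.true) (@Bool.rec.{1} (fun (x121 :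
    Bool) => Bool) (@Bool.false) (Nat.ble (Nat.succ (Nat.add (@dHi x102 x103 (x106 x113)
    (@K.Cls.N x109) (@K.Cls.H1 x109) (@K.Cls.M1 x109)) x112)) (@kapL x100 x102 x113)) (Nat.ble
    (Nat.succ (Nat.add x115 x112)) (@kapL x100 x102 x111)))) (@Bool.rec.{1} (fun (x122 : Bool) =>
    Bool) (@Bool.true) (@Bool.false) x110)) (@Bool.true) (@Bool.rec.{1} (fun (x123 : Bool) =>
    Bool) (@Bool.false) (Nat.ble (Nat.succ (Nat.add (@kapH x100 x102 x113) x112)) x114) (Nat.ble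
    (Nat.succ (Nat.add (@kapH x100 x102 x111) x112)) (@dLo x102 x103 (x106 x111) (@K.Cls.N x109)
    (@K.Cls.H1 x109) (@K.Cls.M1 x109))))) (Nat.ble (Nat.succ (Nat.add (@kapH x100 x102 x111)
    (@kapH x100 x102 x113))) (nat_lit 1267650600228229401496703205376))))) (@dLo x102 x103 (x106
    x113) (@K.Cls.N x109) (@K.Cls.H1 x109) (@K.Cls.M1 x109)) (@dHi x102 x103 (x106 x111)
    (@K.Cls.N x109) (@K.Cls.H1 x109) (@K.Cls.M1 x109)))))) (Nat.succ (Nat.shiftRight (Nat.mul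
    (Nat.add (@dM x102 x103 (@K.Cls.N x109) (@K.Cls.schM x109)) (@kM x102)) (Nat.shiftLeft
    (Nat.mul (@K.Blk.st x102) (@K.Blk.st x102)) (nat_lit 13))) (nat_lit 40)))))))))))

noncomputable def crossChk : ((x0 : ((x1 : Nat) → Nat)) → ((x2 : @K.Blk) → ((x3 : ((x4 : Nat) → ((x5 : Nat) → Nat))) → ((x6 :
    ((x7 : Nat) → ((x8 : Nat) → Nat))) → ((x9 : @K.Cls) → ((x10 : Bool) → Bool)))))) :=
    (fun (x100 : ((x101 : Nat) → Nat)) => (fun (x102 : @K.Blk) => (fun (x103 : ((x104 : Nat) →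
    ((x105 : Nat) → Nat))) => (fun (x106 : ((x107 : Nat) → ((x108 : Nat) → Nat))) => (fun (x109 :
    @K.Cls) => (fun (x110 : Bool) => (@Bool.rec.{1} (fun (x111 : Bool) => Bool) (@Bool.false)
    (@Nat.rec.{1} (fun (x112 : Nat) => Bool) (@Bool.true) (fun (x113 : Nat) => (fun (x114 : Bool)
    => (@Bool.rec.{1} (fun (x115 : Bool) => Bool) (@Bool.false) x114 (@crossT x100 x102 x103 x106
    x109 x110 x113)))) (Nat.sub (@K.Blk.nv x102) (nat_lit 1))) (@Bool.rec.{1} (fun (x116 : Bool)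
    => Bool) (@Bool.false) (Nat.ble (Nat.succ (@dM x102 x103 (@K.Cls.N x109) (@K.Cls.schM x109)))
    (nat_lit 1267650600228229401496703205376)) (@Bool.rec.{1} (fun (x117 : Bool) => Bool)
    (@Bool.false) (Nat.ble (Nat.succ (@dAli x102 (@K.Cls.N x109) (@K.Cls.H1 x109))) (nat_lit
    1267650600228229401496703205376)) (@dOK x102 (@K.Cls.N x109) (@K.Cls.H1 x109) (@K.Cls.M1
    x109)))))))))))

noncomputable def Cert_exN : ((x0 : ((x1 : Nat) → Nat)) → ((x2 : @K.Cert) → ((x3 : @K.Ex) → ((x4 : Nat) → Bool)))) :=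
    (fun (x100 : ((x101 : Nat) → Nat)) => (fun (x102 : @K.Cert) => (fun (x103 : @K.Ex) => (fun (x104
    : Nat) => (@Bool.rec.{1} (fun (x105 : Bool) => Bool) (@Bool.false) (@Bool.rec.{1} (fun (x106
    : Bool) => Bool) (Nat.ble (Nat.mul (@K.Ex.xl x103) x104) (@OfNat.ofNat.{0} Nat (nat_lit
    1048576) (@instOfNatNat (nat_lit 1048576)))) (@nearT (@K.Cert.B x102) (@Cert_Q x102)
    (@Cert_Ef x102) (@Cert_Va x102) (@Cert_Vb x102) x104 (@Bool.false) (@K.Nr.fin (@K.Ex.n x103))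
    (@K.Nr.sch (@K.Ex.n x103)) (@K.Nr.t (@K.Ex.n x103)) (Nat.sub (nat_lit 1099511627776) (Nat.mul
    (Nat.sub x104 (nat_lit 1)) (Nat.shiftLeft (@K.Ex.xl x103) (nat_lit 20)))) (Nat.succ (Nat.div
    (nat_lit 1099511627776) x104)) (Nat.div (nat_lit 1099511627776) x104) (Nat.shiftLeft
    (@K.Ex.xl x103) (nat_lit 20))) (@K.Nr.use (@K.Ex.n x103))) (@crossChk x100 (@K.Cert.B x102)
    (@Cert_Q x102) (@Cert_VV x102) (@Cert_cls x102 (@K.Ex.c x103) x104 (@Bool.false))
    (@Bool.false)))))))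

noncomputable def incChk : ((x0 : @K.Blk) → ((x1 : ((x2 : Nat) → ((x3 : Nat) → Nat))) → ((x4 : ((x5 : Nat) → Nat)) → ((x6 :
    ((x7 : Nat) → Nat)) → ((x8 : ((x9 : Nat) → Nat)) → ((x10 : ((x11 : Nat) → Nat)) → ((x12 :
    Nat) → ((x13 : Nat) → Bool)))))))) :=
    (fun (x100 : @K.Blk) => (fun (x101 : ((x102 : Nat) → ((x103 : Nat) → Nat))) => (fun (x104 :
    ((x105 : Nat) → Nat)) => (fun (x106 : ((x107 : Nat) → Nat)) => (fun (x108 : ((x109 : Nat) →
    Nat)) => (fun (x110 : ((x111 : Nat) → Nat)) => (fun (x112 : Nat) => (fun (x113 : Nat) =>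
    ((fun (x114 : Nat) => ((fun (x115 : Nat) => (fun (x116 : Nat) => (@Bool.rec.{1} (fun (x117 :
    Bool) => Bool) (@Bool.false) (Nat.ble (Nat.succ (Nat.add (Nat.succ (Nat.add (Nat.succ
    (Nat.div (Nat.mul (nat_lit 45) (Nat.succ (Nat.shiftRight (Nat.mul (Nat.mod (Nat.shiftRight
    (@mkCellN x100 x108 x110 (nat_lit 0) (nat_lit 0)) (nat_lit 672)) (nat_lit 72057594037927936))
    (Nat.succ (Nat.shiftRight (Nat.shiftLeft (Nat.pow x113 (nat_lit 3)) (nat_lit 40)) (nat_lit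
    120)))) (nat_lit 40)))) (nat_lit 100))) (Nat.div (Nat.mul (nat_lit 42) (Nat.succ
    (Nat.shiftRight (Nat.mul (@Nat.rec.{1} (fun (x118 : Nat) => Nat) (nat_lit 0) (fun (x119 :
    Nat) => (fun (x120 : Nat) => (mx x120 (Nat.mod (Nat.shiftRight (x104 x119) (nat_lit 728))
    (nat_lit 72057594037927936))))) x112) (Nat.succ (Nat.shiftRight (Nat.shiftLeft (Nat.pow x113
    (nat_lit 5)) (nat_lit 40)) (nat_lit 200)))) (nat_lit 40)))) (nat_lit 1000)))) (@divU (Nat.mul
    (nat_lit 23) (Nat.succ (Nat.shiftRight (Nat.mul (@K.Blk.d1g x100) (Nat.succ (Nat.shiftRight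
    (Nat.shiftLeft (Nat.pow x116 (nat_lit 5)) (nat_lit 40)) (nat_lit 200)))) (nat_lit 40))))
    (Nat.shiftRight (Nat.mul (Nat.shiftRight (Nat.mul (@K.Blk.mL x100) (@K.Blk.mL x100)) (nat_lit
    40)) (@sqrtL x114)) (nat_lit 40))))) (Nat.shiftRight (Nat.mul (@K.Blk.kl x100) (@K.Blk.tauL
    x100)) (nat_lit 40))) (@Bool.rec.{1} (fun (x121 : Bool) => Bool) (@Bool.false) (Nat.ble
    (nat_lit 1) (Nat.shiftRight (Nat.mul (Nat.shiftRight (Nat.mul (@K.Blk.mL x100) (@K.Blk.mL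
    x100)) (nat_lit 40)) (@sqrtL x114)) (nat_lit 40))) (@Bool.rec.{1} (fun (x122 : Bool) => Bool)
    (@Bool.false) (Nat.ble (nat_lit 8796093022208) (Nat.mul (nat_lit 7) (Nat.shiftRight (Nat.mul
    x115 (Nat.shiftRight (Nat.mul x113 x113) (nat_lit 40))) (nat_lit 40)))) (@Bool.rec.{1} (fun
    (x123 : Bool) => Bool) (@Bool.false) (Nat.ble x116 (nat_lit 769658139443)) (@Bool.rec.{1}
    (fun (x124 : Bool) => Bool) (@Bool.false) (Nat.ble (nat_lit 1) x115) (@Bool.rec.{1} (fun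
    (x125 : Bool) => Bool) (@Bool.false) (Nat.ble x114 (@K.Blk.Yc x100)) (Nat.ble (nat_lit 1)
    x112))))))))) (@envb x106 x114) (Nat.sub (mx (Nat.mod (Nat.shiftRight (@rqI x101 x114)
    (nat_lit 0)) (nat_lit 72057594037927936)) (Nat.mod (Nat.shiftRight (@rqI x101 x114) (nat_lit
    56)) (nat_lit 72057594037927936))) (nat_lit 36028797018963968)))) (@Yb x112))))))))))

noncomputable def cellF : ((x0 : Sort 1) → ((x1 : @K.Blk) → ((x2 : ((x3 : Nat) → ((x4 : Nat) → Nat))) → ((x5 : ((x6 : Nat)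
    → Nat)) → ((x7 : Nat) → ((x8 : Nat) → ((x9 : Nat) → ((x10 : Nat) → ((x11 : Nat) → ((x12 :
    Nat) → ((x13 : Nat) → ((x14 : ((x15 : Nat) → ((x16 : Nat) → ((x17 : Nat) → x0)))) →
    x0)))))))))))) :=
    (fun (x100 : Sort 1) => (fun (x101 : @K.Blk) => (fun (x102 : ((x103 : Nat) → ((x104 : Nat) →
    Nat))) => (fun (x105 : ((x106 : Nat) → Nat)) => (fun (x107 : Nat) => (fun (x108 : Nat) =>
    (fun (x109 : Nat) => (fun (x110 : Nat) => (fun (x111 : Nat) => (fun (x112 : Nat) => (fun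
    (x113 : Nat) => (fun (x114 : ((x115 : Nat) → ((x116 : Nat) → ((x117 : Nat) → x100)))) =>
    ((fun (x118 : Nat) => (fun (x119 : Nat) => ((fun (x120 : Nat) => ((fun (x121 : Nat) =>
    (@Bool.rec.{1} (fun (x122 : Bool) => x100) ((fun (x123 : Nat) => (x114 (Nat.add x111
    (@Bool.rec.{1} (fun (x124 : Bool) => Nat) (nat_lit 1267650600228229401496703205376) (Nat.succ
    (Nat.shiftRight (Nat.mul (@envUp x101 x102 x123 x120 x118 (nat_lit
    1267650600228229401496703205376) (Nat.sub (Nat.mod (Nat.shiftRight x121 (nat_lit 0)) (nat_lit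
    72057594037927936)) (nat_lit 36028797018963968))) (Nat.shiftLeft (Nat.sub x110 x109) (nat_lit
    34))) (nat_lit 40))) (@Bool.rec.{1} (fun (x125 : Bool) => Bool) (@Bool.false) (Nat.ble
    (nat_lit 5497558138880) (Nat.mul (nat_lit 2) (Nat.shiftRight (Nat.mul x123 x118) (nat_lit
    40)))) (Nat.ble (Nat.mul (nat_lit 2) x120) x118)))) x112 x113)) (@envb x105 x120)) ((fun
    (x126 : Nat) => ((fun (x127 : Nat) => (x114 x111 x112 (Nat.add x113 (Nat.div (Nat.shiftLeft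
    (Nat.shiftRight (Nat.mul (Nat.shiftRight (Nat.mul (Nat.shiftRight (Nat.shiftLeft (Nat.pow
    (Nat.sub (nat_lit 36028797018963968) (Nat.mod (Nat.shiftRight (@rq x102 (Nat.div x118 x108)
    (mn x120 (Nat.succ (Nat.div x119 x108)))) (nat_lit 0)) (nat_lit 72057594037927936))) x108)
    (nat_lit 40)) (Nat.mul (nat_lit 40) x108)) x127) (nat_lit 40)) (@t4L x109 x110)) (nat_lit
    40)) (nat_lit 40)) (Nat.add (nat_lit 2199023255552) (Nat.succ (Nat.shiftRight (Nat.mul x127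
    (Nat.succ (Nat.shiftRight (Nat.mul (Nat.succ (Nat.shiftRight (Nat.mul x119 x119) (nat_lit
    40))) x107) (nat_lit 40)))) (nat_lit 40)))))))) (@Bool.rec.{1} (fun (x128 : Bool) => Nat)
    (nat_lit 0) (Nat.sub (nat_lit 36028797018963968) (Nat.succ (Nat.div (Nat.add (Nat.mod
    (Nat.shiftRight x121 (nat_lit 392)) (nat_lit 72057594037927936)) (Nat.mul (nat_lit 3)
    (Nat.mod (Nat.shiftRight x126 (nat_lit 392)) (nat_lit 72057594037927936)))) (nat_lit 4))))
    (Nat.ble (Nat.succ (mx (Nat.mod (Nat.shiftRight x121 (nat_lit 392)) (nat_lit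
    72057594037927936)) (Nat.mod (Nat.shiftRight x126 (nat_lit 392)) (nat_lit
    72057594037927936)))) (nat_lit 72057594037927935))))) (@rq x102 (nat_lit 0) (mn x120
    (Nat.succ (Nat.div (Nat.succ (Nat.add x120 (Nat.div x119 x108))) (nat_lit 2)))))) (Nat.ble
    x120 (@K.Blk.z2 x101)))) (@rq x102 (nat_lit 0) x120))) (Nat.succ (Nat.shiftRight (Nat.mul
    x107 x119) (nat_lit 40)))))) (Nat.shiftLeft (Nat.mul x109 x109) (nat_lit 28)) (Nat.shiftLeft
    (Nat.mul x110 x110) (nat_lit 28)))))))))))))))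

noncomputable def farChk : ((x0 : @K.Blk) → ((x1 : ((x2 : Nat) → ((x3 : Nat) → Nat))) → ((x4 : ((x5 : Nat) → Nat)) → ((x6 :
    Nat) → ((x7 : Nat) → ((x8 : (@List.{0} Nat)) → Bool)))))) :=
    (fun (x100 : @K.Blk) => (fun (x101 : ((x102 : Nat) → ((x103 : Nat) → Nat))) => (fun (x104 :
    ((x105 : Nat) → Nat)) => (fun (x106 : Nat) => (fun (x107 : Nat) => (fun (x108 : (@List.{0}
    Nat)) => (@Bool.rec.{1} (fun (x109 : Bool) => Bool) (@Bool.false) (@sweep Bool x108 (@cellF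
    Bool x100 x101 x104 x106 x107) (fun (x110 : Nat) => (fun (x111 : Nat) => (fun (x112 : Nat) =>
    (fun (x113 : Nat) => ((fun (x114 : Nat) => (@Bool.rec.{1} (fun (x115 : Bool) => Bool)
    (@Bool.false) (Nat.ble (Nat.succ (Nat.add (@divU (Nat.mul (nat_lit 9) (Nat.add x111 (Nat.succ
    (Nat.shiftRight (Nat.mul (Nat.succ (Nat.shiftRight (Nat.shiftLeft (Nat.pow (@divU (nat_lit
    1099511627776) x114) (nat_lit 2)) (nat_lit 40)) (nat_lit 80))) (Nat.shiftLeft x110 (nat_lit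
    34))) (nat_lit 40))))) (Nat.shiftRight (Nat.mul x106 x106) (nat_lit 40))) (Nat.mul (Nat.mul
    (Nat.mul (nat_lit 4) x107) x107) (@delN x100 x101 x107)))) x113) (@Bool.rec.{1} (fun (x116 :
    Bool) => Bool) (@Bool.false) (Nat.ble (nat_lit 1) (Nat.shiftRight (Nat.mul x106 x106)
    (nat_lit 40))) (@Bool.rec.{1} (fun (x117 : Bool) => Bool) (@Bool.false) (Nat.ble (Nat.succ
    (@delN x100 x101 x107)) (nat_lit 1267650600228229401496703205376)) (@Bool.rec.{1} (fun (x118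
    : Bool) => Bool) (@Bool.false) (Nat.ble (Nat.succ x111) (nat_lit
    1267650600228229401496703205376)) (Nat.ble (nat_lit 70368744177664) x114))))))
    (Nat.shiftRight (Nat.mul (@K.Blk.gam x100) (Nat.shiftRight (Nat.mul x106 (Nat.shiftLeft
    (Nat.mul x110 x110) (nat_lit 28))) (nat_lit 40))) (nat_lit 40)))))))) (@Bool.rec.{1} (fun
    (x119 : Bool) => Bool) (@Bool.false) (Nat.ble (@OfNat.ofNat.{0} Nat (nat_lit 8)
    (@instOfNatNat (nat_lit 8))) x107) (@Bool.rec.{1} (fun (x120 : Bool) => Bool) (@Bool.false)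
    (Nat.ble (Nat.mul (Nat.mul (nat_lit 2) (Nat.sub x107 (nat_lit 1))) x106) (nat_lit
    3298534883328)) (@Bool.rec.{1} (fun (x121 : Bool) => Bool) (@Bool.false) (Nat.ble (nat_lit
    1099511627776) (Nat.mul x107 x106)) (@Bool.rec.{1} (fun (x122 : Bool) => Bool) (@Bool.false)
    (Nat.ble (nat_lit 1) x106) (Nat.ble (Nat.mul (nat_lit 20) x106) (nat_lit
    3298534883328)))))))))))))

noncomputable def Cert_big : ((x0 : ((x1 : Nat) → Nat)) → ((x2 : @K.Cert) → Bool)) :=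
    (fun (x100 : ((x101 : Nat) → Nat)) => (fun (x102 : @K.Cert) => (@Bool.rec.{1} (fun (x103 : Bool)
    => Bool) (@Bool.false) (@Bool.rec.{1} (fun (x104 : Bool) => Bool) (@crossChk x100 (@K.Cert.B
    x102) (@Cert_Q x102) (@Cert_VV x102) (@Cert_cls x102 (@K.Cert.p8 x102) (nat_lit 8)
    (@Bool.true)) (@Bool.true)) (@incChk (@K.Cert.B x102) (@Cert_Q x102) (@tget (@K.Cert.T x102)
    (nat_lit 840)) (@Cert_Ef x102) (@Cert_Va x102) (@Cert_Vb x102) (@K.Cert.i1 x102) (@K.Cert.L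
    x102)) (@K.Cert.inc x102)) (@Bool.rec.{1} (fun (x105 : Bool) => Bool) (@Bool.false) (@farChk
    (@K.Cert.B x102) (@Cert_Q x102) (@Cert_Ef x102) (nat_lit 164926324736) (nat_lit 11)
    (@K.Cert.schF x102)) (@nearT (@K.Cert.B x102) (@Cert_Q x102) (@Cert_Ef x102) (@Cert_Va x102)
    (@Cert_Vb x102) (nat_lit 8) (@Bool.true) (@Bool.false) (@K.Nr.sch (@K.Cert.u x102)) (@K.Nr.t
    (@K.Cert.u x102)) (nat_lit 0) (nat_lit 137438953472) (nat_lit 137438953472) (nat_lit
    206158430208))))))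

noncomputable def gamGet : ((x0 : (@List.{0} Nat)) → ((x1 : Nat) → Nat)) :=
    (fun (x100 : (@List.{0} Nat)) => (fun (x101 : Nat) => (Nat.mod (Nat.shiftRight (@nth x100
    (Nat.div x101 (nat_lit 256))) (Nat.mul (nat_lit 240) (Nat.mod x101 (nat_lit 256)))) (nat_lit
    1766847064778384329583297500742918515827483896875618958121606201292619776))))

end Pool.Agent.MP_39fec4_gt.R
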