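import Pool.Agent.MP_39fec4_gt.RCopy

set_option autoImplicit false

/-! The checks of a block, stated with the primitive copies. -/

namespace Pool.Agent.MP_39fec4_gt.R

/-- Join numbers of width `w`, the first one being the lowest. -/
noncomputable def cat (w : Nat) (l : List Nat) : Nat :=
  @List.rec Nat (fun _ => Nat) (nat_lit 0) (fun a _ r => Nat.add a (Nat.shiftLeft r w)) l

/-- An entry of a list of parameters. -/
noncomputable def pick (l : List (Nat × Nat × List Nat)) : Nat → Nat × Nat × List Nat :=
  @List.rec (Nat × Nat × List Nat) (fun _ => Nat → Nat × Nat × List Nat) (fun _ => (0, 0, []))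
    (fun a _ r i => @Nat.rec (fun _ => Nat × Nat × List Nat) a (fun j _ => r j) i) l

structure OKa (G : Nat → Nat) (c : K.Cert) : Prop where
  sc : scalChk G c.B = true
  vt : Cert_vt G c 0 c.B.nv = true
  ce : Cert_cells c = true
  ba : ballChk c.B (Cert_Q c) (Cert_Ef c) (Cert_Va c) (Cert_Vb c) c.bl = true
  bg : Cert_big G c = true

structure OKb (G : Nat → Nat) (c : K.Cert) : Prop where
  t3 : Cert_exT G c c.e3 3 = true
  t4 : Cert_exT G c c.e4 4 = true
  t5 : Cert_exT G c c.e5 5 = true
  n3 : Cert_exN G c c.e3 3 = true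
  n4 : Cert_exN G c c.e4 4 = true
  n5 : Cert_exN G c c.e5 5 = true

structure OKc (G : Nat → Nat) (c : K.Cert) : Prop where
  t6 : Cert_exT G c c.e6 6 = true
  t7 : Cert_exT G c c.e7 7 = true
  n6 : Cert_exN G c c.e6 6 = true
  n7 : Cert_exN G c c.e7 7 = true
  p8 : Cert_tree G c c.p8 8 true 196608 1048576 83886 1048576 = true
  p9 : Cert_tree G c c.p9 9 true 174762 196608 83886 1048576 = true
  p10 : Cert_tree G c c.p10 10 true 157286 174762 83886 1048576 = true
  p14 : Cert_tree G c c.p14 14 true 157286 1048576 0 83886 = true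

end Pool.Agent.MP_39fec4_gt.R
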