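import Pool.Agent.MP_39fec4_gt.STr

set_option autoImplicit false

namespace Pool.Agent.MP_39fec4_gt.Small

open MeasureTheory Set Filter Topology Real

variable {η : ℝ}

namespace S2BigX

theorem four_rpow_le {θ : ℝ} (h0 : 0 < η) (h1 : η ≤ 0.4) (ht : η / 2.4 ≤ θ) :
    ((4 : ℝ) ^ θ)⁻¹ ≤ 1 - 0.51 * η := by
  have l2 := Real.log_two_gt_d9
  have l4 : Real.log 4 = 2 * Real.log 2 := by
    rw [show (4 : ℝ) = 2 ^ 2 by norm_num, Real.log_pow]; norm_num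
  have w : 0.5775 * η ≤ Real.log 4 * θ := by
    rw [l4]
    have t0 : 0 ≤ θ := le_trans (by positivity) ht
    have := mul_le_mul_of_nonneg_right l2.le t0
    rw [div_le_iff₀ (by norm_num)] at ht
    linarith
  have q := Real.quadratic_le_exp_of_nonneg (x := 0.5775 * η) (by positivity)
  have q2 := q.trans (Real.exp_le_exp.2 w)
  rw [← Real.rpow_def_of_pos (by norm_num)] at q2
  have p4 : (0 : ℝ) < 4 ^ θ := Real.rpow_pos_of_pos (by norm_num) θ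
  rw [inv_le_iff_one_le_mul₀ p4]
  have a : 0 ≤ 1 - 0.51 * η := by linarith
  refine le_trans ?_ (mul_le_mul_of_nonneg_left q2 a)
  nlinarith [mul_nonneg h0.le (sub_nonneg.2 h1), mul_nonneg (sq_nonneg η) (sub_nonneg.2 h1)]

theorem tangent {θ y : ℝ} (t0 : 0 ≤ θ) (t1 : θ ≤ 1) (y0 : 0 < y) :
    y ^ θ ≤ ((4 : ℝ) ^ θ)⁻¹ * (1 + θ * (4 * y - 1)) := by
  have p4 : (0 : ℝ) < 4 ^ θ := Real.rpow_pos_of_pos (by norm_num) θ
  have := rpow_le_lin t0 t1 (y := 4 * y) (by positivity)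
  rw [Real.mul_rpow (by norm_num) y0.le] at this
  rw [le_inv_mul_iff₀ p4]
  exact this

theorem quad {y z : ℝ} (h0 : 0 < η) (y0 : 0 < y) (z0 : 0 < z) :
    -(1 * (1 * (1 * (1 + 2) - 4 * (2 * 1 + 4 + η) * y + 16 * y ^ 2)) +
      -2 * (z * ((1 + η) * (1 + η + 2) - 4 * (2 * (1 + η) + 4 + η) * y + 16 * y ^ 2)) +
      1 * (z ^ 2 * ((1 + 2 * η) * (1 + 2 * η + 2) - 4 * (2 * (1 + 2 * η) + 4 + η) * y +
        16 * y ^ 2))) ≤
      ((4 + η) ^ 2 / 3 - 2) * (η ^ 2 * z ^ 2) + (24 + 4 * η) * (y * (1 - z) ^ 2) := by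
  have c3 : -(3 * (1 - z) ^ 2) - (4 * y * (1 - z)) ^ 2 + (8 + 2 * η) * (η * z * (1 - z)) -
      4 * (η * z) * (4 * y * (1 - z)) ≤ (4 + η) ^ 2 / 3 * (η * z) ^ 2 := by
    have C0 : 0 < η * z := by positivity
    generalize η * z = C at C0
    rcases le_total 0 (1 - z) with q | q
    · have : 0 ≤ C * (4 * y * (1 - z)) := by positivity
      nlinarith [sq_nonneg (4 * y * (1 - z)), sq_nonneg (3 * (1 - z) - (4 + η) * C)]
    · have : (8 + 2 * η) * (C * (1 - z)) ≤ 0 :=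
        mul_nonpos_of_nonneg_of_nonpos (by positivity) (mul_nonpos_of_nonneg_of_nonpos C0.le q)
      have h4 : 4 * C ^ 2 ≤ (4 + η) ^ 2 / 3 * C ^ 2 := by
        gcongr; nlinarith
      nlinarith [sq_nonneg (4 * y * (1 - z) + 2 * C), sq_nonneg (1 - z)]
  nlinarith [c3]

theorem fin (h0 : 0 < η) (h1 : η ≤ 0.4) :
    2 * (((4 + η) ^ 2 / 3 - 2) * (1 - 0.51 * η) ^ 2 +
      (6 - 3.88 * η) * (1 - 0.51 * η) * (11 / 16)) ≤ 15 - 11 * η := by
  nlinarith [mul_nonneg h0.le (sub_nonneg.2 h1), mul_nonneg (sq_nonneg η) (sub_nonneg.2 h1),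
    mul_nonneg (pow_pos h0 3).le (sub_nonneg.2 h1)]

theorem qle {θ : ℝ} (h0 : 0 < η) (h1 : η ≤ 0.4) (t0 : 0 < θ) (tm : θ * (2 + η) = η) :
    (1 - θ) + (6 * θ - 2) / 4 + (1 - 9 * θ) * (3 + η) / 16 +
      4 * θ * ((3 + η) * (5 + 2 * η)) / 64 ≤ 11 / 16 := by
  have : θ * (3 * η + 2 * η ^ 2) ≤ θ * 2 := by gcongr; nlinarith
  nlinarith

end S2BigX

theorem Psi_big2 (h0 : 0 < η) (h1 : η ≤ 0.4) (s : ℝ) :
    |s * Psi η s| ≤ (15 - 11 * η) * (η ^ 2 * m0 η) := by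
  have i1 := int_Hk h0 one_pos
  have i2 := int_Hk h0 (r := 1 + η) (by linarith)
  have i3 := int_Hk h0 (r := 1 + 2 * η) (by linarith)
  have e : ∀ s, s * Psi η s =
      cosT (fun x => 1 * Hk η 1 x + (-2) * Hk η (1 + η) x + 1 * Hk η (1 + 2 * η) x) s := fun s => by
    rw [cosT_lin3 i1 i2 i3, ← sT h0 one_pos (a := 2) (by ring),
      ← sT h0 (r := 1 + η) (by linarith) (a := 2 + η) (by ring),
      ← sT h0 (r := 1 + 2 * η) (by linarith) (a := 2 + 2 * η) (by ring), Psi]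
    ring
  obtain ⟨θ, hθ⟩ : ∃ θ, θ = η / (2 + η) := ⟨_, rfl⟩
  have t0 : 0 < θ := by rw [hθ]; positivity
  have tm : θ * (2 + η) = η := by rw [hθ]; field_simp
  have t1 : θ ≤ 1 / 6 := by rw [hθ, div_le_iff₀ (by positivity)]; linarith
  have t2 : η / 2.4 ≤ θ := by rw [hθ]; gcongr; linarith
  obtain ⟨ρ, hρ⟩ : ∃ ρ, ρ = 1 - 0.51 * η := ⟨_, rfl⟩
  have r0 : 0 < ρ := by linarith
  have r4 : ((4 : ℝ) ^ θ)⁻¹ ≤ ρ := hρ ▸ S2BigX.four_rpow_le h0 h1 t2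
  obtain ⟨A, hA⟩ : ∃ A, A = ((4 + η) ^ 2 / 3 - 2) * ρ ^ 2 := ⟨_, rfl⟩
  obtain ⟨B, hB⟩ : ∃ B, B = (6 - 3.88 * η) * ρ := ⟨_, rfl⟩
  have c1 : 0 ≤ (4 + η) ^ 2 / 3 - 2 := by nlinarith
  have A0 : 0 ≤ A := by rw [hA]; positivity
  have B0 : 0 ≤ B := by rw [hB]; exact mul_nonneg (by linarith) r0.le
  have bt : (24 + 4 * η) * θ ^ 2 ≤ η ^ 2 * (6 - 3.88 * η) := by
    refine le_of_mul_le_mul_right ?_ (by positivity : 0 < (2 + η) ^ 2)
    calc (24 + 4 * η) * θ ^ 2 * (2 + η) ^ 2 = (24 + 4 * η) * (θ * (2 + η)) ^ 2 := by ring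
      _ = η ^ 2 * (24 + 4 * η) := by rw [tm]; ring
      _ ≤ η ^ 2 * ((6 - 3.88 * η) * (2 + η) ^ 2) := by
        gcongr
        nlinarith [mul_nonneg h0.le (sub_nonneg.2 h1), mul_nonneg (sq_nonneg η) (sub_nonneg.2 h1)]
      _ = _ := by ring
  obtain ⟨m1, m2⟩ := mom3 h0 (η ^ 2 * (A * (1 - 2 * θ) + B * (1 - θ)))
    (η ^ 2 * (A * (8 * θ) + B * (6 * θ - 2))) (η ^ 2 * (B * (1 - 9 * θ))) (η ^ 2 * (B * (4 * θ)))
  have em : ∀ y : ℝ, η ^ 2 * (A * (1 - 2 * θ) + B * (1 - θ)) +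
      η ^ 2 * (A * (8 * θ) + B * (6 * θ - 2)) * y + η ^ 2 * (B * (1 - 9 * θ)) * y ^ 2 +
      η ^ 2 * (B * (4 * θ)) * y ^ 3 =
      η ^ 2 * (A * (1 + 2 * θ * (4 * y - 1)) + B * ((1 + θ * (4 * y - 1)) * (y - 1) ^ 2)) :=
    fun y => by ring
  have := abs_cosT_le_two (int_lin3 i1 i2 i3 1 (-2) 1) m1 (by rw [← e, zero_mul])
    (fun x hx => by
      have := kr_pos η x
      have y0 := Real.rpow_pos_of_pos hx (2 + η)
      have a1 : 0 ≤ 1 + 2 * θ * (4 * x ^ (2 + η) - 1) := by nlinarith [mul_pos t0 y0]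
      have a2 : 0 ≤ 1 + θ * (4 * x ^ (2 + η) - 1) := by nlinarith [mul_pos t0 y0]
      rw [em]; positivity) (fun x hx => by
      have k0 := kr_pos η x
      have y0 := Real.rpow_pos_of_pos hx (2 + η)
      have z0 := Real.rpow_pos_of_pos hx η
      have ez : x ^ η = (x ^ (2 + η)) ^ θ := by
        rw [← Real.rpow_mul hx.le, mul_comm, tm]
      rw [em, Hk_eq _ _ hx, Hk_eq _ _ hx, Hk_eq _ _ hx, sub_self, add_sub_cancel_left,
        add_sub_cancel_left, rpow_two_mul _ hx, Real.rpow_zero]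
      generalize x ^ (2 + η) = y at *
      generalize x ^ η = z at *
      have a1 : 0 ≤ 1 + 2 * θ * (4 * y - 1) := by nlinarith [mul_pos t0 y0]
      have a2 : 0 ≤ 1 + θ * (4 * y - 1) := by nlinarith [mul_pos t0 y0]
      have b1 : y * (1 - z) ^ 2 ≤ θ ^ 2 * z * (y - 1) ^ 2 := by
        rw [ez]; exact one_sub_rpow_sq_le t0.le (by linarith) y0
      have b2 : z ≤ ρ * (1 + θ * (4 * y - 1)) := by
        rw [ez]
        exact (S2BigX.tangent t0.le (by linarith) y0).trans (mul_le_mul_of_nonneg_right r4 a2)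
      have b3 : z ^ 2 ≤ ρ ^ 2 * (1 + 2 * θ * (4 * y - 1)) := by
        rw [ez, ← Real.rpow_mul_natCast y0.le, mul_comm θ]
        refine (S2BigX.tangent (θ := ((2 : ℕ) : ℝ) * θ) (by positivity) (by push_cast; linarith)
          y0).trans ?_
        rw [mul_comm _ θ, Real.rpow_mul_natCast (by norm_num), ← inv_pow]
        push_cast
        rw [mul_comm θ 2]
        gcongr
      have d1 : ((4 + η) ^ 2 / 3 - 2) * (η ^ 2 * z ^ 2) ≤
          η ^ 2 * (A * (1 + 2 * θ * (4 * y - 1))) := by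
        calc _ ≤ ((4 + η) ^ 2 / 3 - 2) * (η ^ 2 * (ρ ^ 2 * (1 + 2 * θ * (4 * y - 1)))) := by gcongr
          _ = _ := by rw [hA]; ring
      have d2 : (24 + 4 * η) * (y * (1 - z) ^ 2) ≤
          η ^ 2 * (B * ((1 + θ * (4 * y - 1)) * (y - 1) ^ 2)) := by
        calc _ ≤ (24 + 4 * η) * (θ ^ 2 * (ρ * (1 + θ * (4 * y - 1))) * (y - 1) ^ 2) := by
              exact mul_le_mul_of_nonneg_left (b1.trans (by gcongr)) (by positivity)
          _ = (24 + 4 * η) * θ ^ 2 * (ρ * (1 + θ * (4 * y - 1)) * (y - 1) ^ 2) := by ring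
          _ ≤ η ^ 2 * (6 - 3.88 * η) * (ρ * (1 + θ * (4 * y - 1)) * (y - 1) ^ 2) := by gcongr
          _ = _ := by rw [hB]; ring
      have := (S2BigX.quad h0 y0 z0).trans (add_le_add d1 d2)
      have := mul_le_mul_of_nonneg_left this k0.le
      linarith) s
  rw [e]
  refine this.trans ?_
  rw [m2]
  have mp := m0_pos h0
  have q := S2BigX.qle h0 h1 t0 tm
  have f : 2 * (A + B * (11 / 16)) ≤ 15 - 11 * η := by
    rw [hA, hB, hρ]
    exact S2BigX.fin h0 h1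
  have g := mul_le_mul_of_nonneg_left q B0
  have p : 0 ≤ η ^ 2 * m0 η := by positivity
  calc _ = 2 * (A + B * ((1 - θ) + (6 * θ - 2) / 4 + (1 - 9 * θ) * (3 + η) / 16 +
        4 * θ * ((3 + η) * (5 + 2 * η)) / 64)) * (η ^ 2 * m0 η) := by ring
    _ ≤ _ := by gcongr; linarith

end Pool.Agent.MP_39fec4_gt.Small
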