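import Pool.Agent.MP_39fec4_gt.SCmp

set_option autoImplicit false

namespace Pool.Agent.MP_39fec4_gt.Small

open MeasureTheory Set Filter Topology Real

/-- A concave decreasing function `E` with `E' = -D` and `D' = Q`. -/
structure Cv (E D Q : ℝ → ℝ) : Prop where
  cE : Continuous E
  cD : Continuous D
  dE : ∀ τ, 0 < τ → HasDerivAt E (-D τ) τ
  dD : ∀ τ, 0 < τ → HasDerivAt D (Q τ) τ
  E0 : E 0 = 1
  D0 : 0 ≤ D 0
  Qnn : ∀ τ, 0 < τ → 0 ≤ Q τ

/-- The data of the exchange argument. -/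
structure Ex (E D Q : ℝ → ℝ) (z1 t0 sg qm c th I0 La K : ℝ) : Prop extends Cv E D Q where
  sg0 : 0 ≤ sg
  sg1 : sg ^ 2 ≤ t0
  t1 : t0 ≤ z1
  Ez : 0 ≤ E z1
  Et : 0 < E t0
  qm0 : 0 ≤ qm
  th0 : 0 ≤ th
  Gm : ∀ τ, 0 ≤ τ → E τ < 0 → |GG E τ| ≤ GG E t0
  Qg : ∀ τ, 0 < τ → τ ≤ sg ^ 2 → qm ≤ Q τ
  Ob : ∀ u v β, z1 ≤ u → 0 < u → 0 ≤ v → v ≤ u → 0 ≤ β → β ≤ 1 → β * z1 ≤ v →
    u * (Real.exp (-(u + v)) * |Om E D u v|) ≤ (u - v) * (th * Real.exp (-(β * c))) / (u * √u)
  gain : ∀ β, 0 ≤ β → β ≤ 1 → Real.exp (-(β * c)) * I0 ≤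
    ∫ σ in (0 : ℝ)..sg, σ ^ 4 * Real.exp (-σ ^ 2) * GG E (σ ^ 2) * GG E (β * σ ^ 2)
  li : IntegrableOn (fun σ : ℝ => max (-GG E (σ ^ 2)) 0 / σ) (Ioi 0)
  loss : ∫ σ in Ioi (0 : ℝ), max (-GG E (σ ^ 2)) 0 / σ ≤ La
  fin : th * La < qm * I0
  dG : ∀ τ, 0 ≤ τ → (1 + τ) * |GG E τ| ≤ K
  dd : ∀ τ, 0 ≤ τ → (1 + τ) * (Real.exp (-τ) * D τ) ≤ K

variable {E D Q : ℝ → ℝ} {τ u v t z1 t0 sg qm c th I0 La K : ℝ}

namespace Cv

theorem D_mono (h : Cv E D Q) (hv : 0 ≤ v) (huv : v ≤ u) : D v ≤ D u :=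
  ge_of_deriv huv h.cD.continuousOn (fun x hx _ => h.dD x (by linarith))
    fun x hx _ => h.Qnn x (by linarith)

theorem D_nonneg (h : Cv E D Q) (hτ : 0 ≤ τ) : 0 ≤ D τ := h.D0.trans (h.D_mono le_rfl hτ)

theorem E_lip (h : Cv E D Q) (hv : 0 ≤ v) (huv : v ≤ u) :
    0 ≤ E v - E u ∧ E v - E u ≤ (u - v) * D u := by
  have c := h.cE
  have a := ge_of_deriv (f := fun x => -E x) (f' := D) huv h.cE.neg.continuousOn
    (fun x hx _ => (h.dE x (by linarith)).neg.congr_deriv (neg_neg _))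
    fun x hx _ => h.D_nonneg (by linarith)
  have b := ge_of_deriv (f := fun x => E x + x * D u) (f' := fun x => D u - D x) huv (by fun_prop)
    (fun x hx _ => ((h.dE x (by linarith)).add ((hasDerivAt_id x).mul_const (D u))).congr_deriv
      (by ring)) fun x hx hu => sub_nonneg.2 (h.D_mono (by linarith) hu.le)
  constructor <;> linarith

theorem E_anti (h : Cv E D Q) (hv : 0 ≤ v) (huv : v ≤ u) : E u ≤ E v :=
  sub_nonneg.1 (h.E_lip hv huv).1

theorem E_le_one (h : Cv E D Q) (hτ : 0 ≤ τ) : E τ ≤ 1 := h.E0 ▸ h.E_anti le_rfl hτ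

theorem Om_ge (h : Cv E D Q) (hv : 0 ≤ v) (huv : v ≤ u) : E v * (D u - D v) ≤ Om E D u v := by
  have := mul_nonneg (h.D_nonneg hv) (h.E_lip hv huv).1
  unfold Om; linarith

theorem G_anti (h : Cv E D Q) (hv : 0 ≤ v) (huv : v ≤ u) (hE : 0 ≤ E v) : GG E u ≤ GG E v :=
  (mul_le_mul_of_nonneg_left (h.E_anti hv huv) (Real.exp_pos _).le).trans
    (mul_le_mul_of_nonneg_right (Real.exp_le_exp.2 (neg_le_neg huv)) hE)

theorem cont_G (h : Cv E D Q) : Continuous (GG E) := by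
  have := h.cE
  unfold GG; fun_prop

theorem dE' (h : Cv E D Q) (hτ : 0 ≤ τ) : HasDerivWithinAt E (-D τ) (Ici 0) τ := by
  rcases hτ.eq_or_lt with rfl | hτ
  · refine hasDerivWithinAt_Ici_of_tendsto_deriv (s := Ioi 0)
      (fun y hy => (h.dE y hy).differentiableAt.differentiableWithinAt)
      h.cE.continuousWithinAt self_mem_nhdsWithin ?_
    refine ((h.cD.neg.tendsto 0).mono_left nhdsWithin_le_nhds).congr' ?_
    filter_upwards [self_mem_nhdsWithin] with y hy using (h.dE y hy).deriv.symm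
  · exact (h.dE τ hτ).hasDerivWithinAt

theorem dF (h : Cv E D Q) {a b δ : ℝ} (hb : 0 ≤ b) (ht : 0 ≤ t) (hδ : δ ∈ Icc 0 a) :
    HasDerivWithinAt (fun δ => GG E ((a - δ) * t) * GG E ((b + δ) * t))
      (t * (Real.exp (-((a - δ) * t + (b + δ) * t)) * Om E D ((a - δ) * t) ((b + δ) * t)))
      (Icc 0 a) δ := by
  have m1 : MapsTo (fun δ => (a - δ) * t) (Icc 0 a) (Ici 0) := fun y hy =>
    mul_nonneg (sub_nonneg.2 hy.2) ht
  have m2 : MapsTo (fun δ => (b + δ) * t) (Icc 0 a) (Ici 0) := fun y hy =>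
    mul_nonneg (add_nonneg hb hy.1) ht
  have d1 := (h.dE' (m1 hδ)).comp δ
    (((hasDerivAt_id δ).const_sub a).mul_const t).hasDerivWithinAt m1
  have d2 := (h.dE' (m2 hδ)).comp δ
    (((hasDerivAt_id δ).const_add b).mul_const t).hasDerivWithinAt m2
  have e : (fun δ => GG E ((a - δ) * t) * GG E ((b + δ) * t)) = fun δ =>
      Real.exp (-((a + b) * t)) * (E ((a - δ) * t) * E ((b + δ) * t)) := by
    funext y
    rw [GG, GG, show -((a + b) * t) = -((a - y) * t) + -((b + y) * t) by ring, Real.exp_add]; ring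
  rw [e, show (a - δ) * t + (b + δ) * t = (a + b) * t by ring]
  refine ((d1.mul d2).const_mul _).congr_deriv ?_
  simp only [Function.comp, Om, id]; ring

end Cv

theorem G_nonneg (hE : 0 ≤ E τ) : 0 ≤ GG E τ := mul_nonneg (Real.exp_pos _).le hE

variable {ι : Type*} {T : Finset ι} {x : ι → ℝ} {a b : ℝ} {k : ι}

namespace Ex

theorem t0_nonneg (h : Ex E D Q z1 t0 sg qm c th I0 La K) : 0 ≤ t0 := (sq_nonneg sg).trans h.sg1

theorem abs_G_le (h : Ex E D Q z1 t0 sg qm c th I0 La K) (hv : 0 ≤ v) (h1 : v ≤ t0) (h2 : v ≤ u) :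
    |GG E u| ≤ GG E v := by
  have e := h.Et.le.trans (h.E_anti hv h1)
  rcases le_or_gt 0 (E u) with d | d
  · rw [abs_of_nonneg (G_nonneg d)]; exact h.G_anti hv h2 e
  · exact (h.Gm u (hv.trans h2) d).trans (h.G_anti hv h1 e)

theorem G_le_one (h : Ex E D Q z1 t0 sg qm c th I0 La K) (hτ : 0 ≤ τ) : |GG E τ| ≤ 1 := by
  simpa [GG, h.E0] using h.abs_G_le le_rfl h.t0_nonneg hτ

theorem K_pos (h : Ex E D Q z1 t0 sg qm c th I0 La K) : 0 < K := by
  have := h.dG 0 le_rfl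
  simp only [GG, h.E0] at this
  norm_num at this
  linarith

theorem Om_t (h : Ex E D Q z1 t0 sg qm c th I0 La K) {a α β : ℝ} (ha : 0 < a) (hα : a / 2 ≤ α)
    (hβ : 0 ≤ β) (ht : 0 ≤ t) :
    |t * (Real.exp (-(α * t + β * t)) * Om E D (α * t) (β * t))| ≤ 2 * (K + K * K) / a := by
  have hu : 0 ≤ α * t := mul_nonneg (by linarith) ht
  have hv := mul_nonneg hβ ht
  have ht2 := mul_le_mul_of_nonneg_right hα ht
  generalize α * t = u at *
  generalize β * t = v at *
  have p : ∀ w, 0 ≤ w → 0 ≤ Real.exp (-w) * D w := fun w hw =>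
    mul_nonneg (Real.exp_pos _).le (h.D_nonneg hw)
  have d2 : Real.exp (-v) * D v ≤ K := by nlinarith [h.dd v hv, p v hv]
  have o : |Om E D u v| ≤ D u * |E v| + |E u| * D v := by
    refine (abs_sub _ _).trans (le_of_eq ?_)
    rw [abs_mul, abs_mul, abs_of_nonneg (h.D_nonneg hu), abs_of_nonneg (h.D_nonneg hv)]
  have K0 := h.K_pos
  have key : (1 + u) * (Real.exp (-(u + v)) * |Om E D u v|) ≤ K + K * K :=
    calc _ ≤ (1 + u) * (Real.exp (-(u + v)) * (D u * |E v| + |E u| * D v)) := by gcongr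
      _ = (1 + u) * (Real.exp (-u) * D u) * |GG E v| +
          (1 + u) * |GG E u| * (Real.exp (-v) * D v) := by
        rw [abs_GG, abs_GG, neg_add, Real.exp_add]; ring
      _ ≤ K * 1 + K * K := by
        gcongr
        exacts [h.dd u hu, h.G_le_one hv, p v hv, h.dG u hu]
      _ = _ := by ring
  rw [abs_mul, abs_mul, abs_of_nonneg ht, abs_of_pos (Real.exp_pos _), le_div_iff₀ ha]
  have p : 0 ≤ Real.exp (-(u + v)) * |Om E D u v| := by positivity
  nlinarith [mul_le_mul_of_nonneg_right ht2 p]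

theorem int_P (h : Ex E D Q z1 t0 sg qm c th I0 La K) (c : Cfg T x a b k) :
    IntegrableOn (fun s : ℝ => ∏ j ∈ T, GG E (x j * s ^ 2)) (Ioi 0) := by
  classical
  have cG := h.cont_G
  have b1 : ∀ (S : Finset ι) (s : ℝ), S ⊆ T → |∏ j ∈ S, GG E (x j * s ^ 2)| ≤ 1 := fun S s hS => by
    rw [Finset.abs_prod]
    exact Finset.prod_le_one (fun _ _ => abs_nonneg _) fun j hj =>
      h.G_le_one (mul_nonneg (c.h0 j (hS hj)) (sq_nonneg s))
  refine integrableOn_of_decay (by fun_prop) (fun s => b1 T s subset_rfl) (K := K / x k) (s1 := 0)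
    fun s _ => ?_
  have M0 := c.hM
  have := h.dG (x k * s ^ 2) (by positivity)
  rw [← Finset.mul_prod_erase T _ c.hk, abs_mul, le_div_iff₀ M0]
  have := mul_le_of_le_one_right (abs_nonneg (GG E (x k * s ^ 2)))
    (b1 _ s (Finset.erase_subset k T))
  nlinarith [mul_le_mul_of_nonneg_left this (mul_nonneg M0.le (sq_nonneg s)),
    abs_nonneg (GG E (x k * s ^ 2))]

theorem int_B (h : Ex E D Q z1 t0 sg qm c th I0 La K) (c : Cfg T x a b k) :
    IntegrableOn (fun s : ℝ => BB E D T x a b (s ^ 2)) (Ioi 0) := by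
  have a0 : 0 < a := c.hM.trans_le c.hMa
  have cE := h.cE
  have cD := h.cD
  have := (h.int_P c).bdd_mul (c := 2 * (K + K * K) / a) (f := fun s : ℝ => s ^ 2 *
    (Real.exp (-(a * s ^ 2 + b * s ^ 2)) * Om E D (a * s ^ 2) (b * s ^ 2)))
    (Continuous.aestronglyMeasurable (by unfold Om; fun_prop))
    (Eventually.of_forall fun s => h.Om_t a0 (by linarith) c.hb (sq_nonneg s))
  exact this

theorem B_nonneg (h : Ex E D Q z1 t0 sg qm c th I0 La K) (c : Cfg T x a b k) (ht : 0 ≤ t)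
    (hE : 0 ≤ E (x k * t)) : 0 ≤ BB E D T x a b t := by
  have v0 := mul_nonneg c.hb ht
  have uv := mul_le_mul_of_nonneg_right c.hab.le ht
  have e := hE.trans (h.E_anti v0 (mul_le_mul_of_nonneg_right c.hbM ht))
  have o := (mul_nonneg e (sub_nonneg.2 (h.D_mono v0 uv))).trans (h.Om_ge v0 uv)
  have : 0 ≤ ∏ j ∈ T, GG E (x j * t) := Finset.prod_nonneg fun j hj =>
    G_nonneg (hE.trans (h.E_anti (mul_nonneg (c.h0 j hj) ht)
      (mul_le_mul_of_nonneg_right (c.h1 j hj) ht)))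
  unfold BB; positivity

theorem ref_le (h : Ex E D Q z1 t0 sg qm c th I0 La K) (c : Cfg T x a b k) {j : ι} (hj : j ∈ T) :
    0 ≤ x j * (t0 / x k) ∧ x j * (t0 / x k) ≤ t0 := by
  have M0 := c.hM
  have := h.t0_nonneg
  have := c.h0 j hj
  refine ⟨by positivity, ?_⟩
  rw [mul_div_assoc', div_le_iff₀ M0]
  nlinarith [c.h1 j hj]

theorem B_head [DecidableEq ι] (h : Ex E D Q z1 t0 sg qm c th I0 La K) (c : Cfg T x a b k)
    (ht : 0 ≤ t) (h1 : a * t ≤ sg ^ 2) :
    (a - b) * qm * (∏ j ∈ T.erase k, GG E (x j * (t0 / x k))) * (t ^ 2 * Real.exp (-(a * t)) *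
      GG E (a * t) * GG E (b / x k * (a * t))) ≤ BB E D T x a b t := by
  have M0 := c.hM
  have v0 := mul_nonneg c.hb ht
  have uv := mul_le_mul_of_nonneg_right c.hab.le ht
  have u1 := h1.trans h.sg1
  have eu := h.Et.le.trans (h.E_anti (v0.trans uv) u1)
  have ev := eu.trans (h.E_anti v0 uv)
  have Mu := mul_le_mul_of_nonneg_right c.hMa ht
  have cD := h.cD
  have dg := ge_of_deriv (f := fun y => D y - y * qm) (f' := fun y => Q y - qm) uv
    (by fun_prop) (fun y hy _ => ((h.dD y (by linarith)).sub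
      ((hasDerivAt_id y).mul_const qm)).congr_deriv (by ring))
    fun y hy hu => sub_nonneg.2 (h.Qg y (by linarith) (by linarith))
  have o : E (b * t) * ((a - b) * t * qm) ≤ Om E D (a * t) (b * t) :=
    (mul_le_mul_of_nonneg_left (by linarith) ev).trans (h.Om_ge v0 uv)
  have b1 : b * t ≤ b / x k * (a * t) := by
    rw [div_mul_eq_mul_div, le_div_iff₀ M0]; nlinarith [c.hMa]
  have b2 : b / x k * (a * t) ≤ a * t :=
    mul_le_of_le_one_left (v0.trans uv) ((div_le_one M0).2 c.hbM)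
  have g1 := h.G_anti v0 b1 ev
  have g2 := G_nonneg (eu.trans (h.E_anti (v0.trans b1) b2))
  have g3 := h.G_anti (by positivity) Mu (eu.trans (h.E_anti (by positivity) Mu))
  have g4 := G_nonneg eu
  have tM : t ≤ t0 / x k := by rw [le_div_iff₀ M0]; linarith
  have p0 : ∀ j ∈ T.erase k, 0 ≤ GG E (x j * (t0 / x k)) := fun j hj => by
    obtain ⟨r0, r1⟩ := h.ref_le c (Finset.mem_of_mem_erase hj)
    exact G_nonneg (h.Et.le.trans (h.E_anti r0 r1))
  have p1 : ∏ j ∈ T.erase k, GG E (x j * (t0 / x k)) ≤ ∏ j ∈ T.erase k, GG E (x j * t) :=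
    Finset.prod_le_prod p0 fun j hj => by
      have m := Finset.mem_of_mem_erase hj
      have w0 := mul_nonneg (c.h0 j m) ht
      have w1 := mul_le_mul_of_nonneg_left tM (c.h0 j m)
      exact h.G_anti w0 w1 (h.Et.le.trans (h.E_anti w0 (w1.trans (h.ref_le c m).2)))
  have p2 := Finset.prod_nonneg p0
  have ab := sub_pos.2 c.hab
  have q0 := h.qm0
  rw [BB, ← Finset.mul_prod_erase T _ c.hk]
  calc _ ≤ (a - b) * qm * (∏ j ∈ T.erase k, GG E (x j * t)) * (t ^ 2 * Real.exp (-(a * t)) *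
        GG E (x k * t) * GG E (b * t)) := by
        have := p2.trans p1
        have := g4.trans g3
        gcongr
    _ = t * (Real.exp (-(a * t + b * t)) * (E (b * t) * ((a - b) * t * qm))) *
        (GG E (x k * t) * ∏ j ∈ T.erase k, GG E (x j * t)) := by
        rw [neg_add, Real.exp_add, GG.eq_1 E (b * t)]; ring
    _ ≤ _ := by
        have := mul_nonneg (g4.trans g3) (p2.trans p1)
        gcongr

theorem B_tail [DecidableEq ι] (h : Ex E D Q z1 t0 sg qm c th I0 La K) (cf : Cfg T x a b k) {s : ℝ}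
    (hs : 0 < s) (hE : E (x k * s ^ 2) < 0) :
    |BB E D T x a b (s ^ 2)| ≤ (a - b) * (th * Real.exp (-(b / x k * c))) / (a ^ 2 * √a) *
      (∏ j ∈ T.erase k, GG E (x j * (t0 / x k))) * (|GG E (x k * s ^ 2)| / s) := by
  have M0 := cf.hM
  have a0 : 0 < a := M0.trans_le cf.hMa
  have sa : 0 < √a := Real.sqrt_pos.2 a0
  have sq : √(a * s ^ 2) = √a * s := by rw [Real.sqrt_mul a0.le, Real.sqrt_sq hs.le]
  set t := s ^ 2 with ht
  have t0' : 0 < t := by positivity
  have zM : z1 ≤ x k * t := le_of_not_gt fun d =>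
    absurd (h.Ez.trans (h.E_anti (by positivity) d.le)) (not_le.2 hE)
  have tM : t0 / x k ≤ t := by rw [div_le_iff₀ M0]; linarith [h.t1]
  have o := h.Ob (a * t) (b * t) (b / x k) (zM.trans (mul_le_mul_of_nonneg_right cf.hMa t0'.le))
    (by positivity) (mul_nonneg cf.hb t0'.le) (mul_le_mul_of_nonneg_right cf.hab.le t0'.le)
    (div_nonneg cf.hb M0.le) ((div_le_one M0).2 cf.hbM) (by
      rw [div_mul_eq_mul_div, div_le_iff₀ M0]; nlinarith [cf.hb])
  have p1 : ∏ j ∈ T.erase k, |GG E (x j * t)| ≤ ∏ j ∈ T.erase k, GG E (x j * (t0 / x k)) :=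
    Finset.prod_le_prod (fun _ _ => abs_nonneg _) fun j hj => by
      have m := Finset.mem_of_mem_erase hj
      exact h.abs_G_le (h.ref_le cf m).1 (h.ref_le cf m).2
        (mul_le_mul_of_nonneg_left tM (cf.h0 j m))
  have o2 : t * (Real.exp (-(a * t + b * t)) * |Om E D (a * t) (b * t)|) ≤
      (a - b) * (th * Real.exp (-(b / x k * c))) / (a ^ 2 * √a) / s := by
    refine le_of_mul_le_mul_left (le_trans (le_of_eq (by ring)) (o.trans (le_of_eq ?_))) a0
    rw [sq]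
    field_simp
  have ab := sub_pos.2 cf.hab
  have := h.th0
  rw [BB, ← Finset.mul_prod_erase T _ cf.hk, abs_mul, abs_mul, abs_mul, abs_mul, Finset.abs_prod,
    abs_of_pos t0', abs_of_pos (Real.exp_pos _)]
  calc _ ≤ (a - b) * (th * Real.exp (-(b / x k * c))) / (a ^ 2 * √a) / s *
        (|GG E (x k * t)| * ∏ j ∈ T.erase k, GG E (x j * (t0 / x k))) := by gcongr
    _ = _ := by ring

theorem key (h : Ex E D Q z1 t0 sg qm c th I0 La K) (cf : Cfg T x a b k) :
    0 < ∫ s in Ioi (0 : ℝ), BB E D T x a b (s ^ 2) := by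
  classical
  have M0 := cf.hM
  have a0 : 0 < a := M0.trans_le cf.hMa
  have sa : 0 < √a := Real.sqrt_pos.2 a0
  have sM : 0 < √(x k) := Real.sqrt_pos.2 M0
  have ab := sub_pos.2 cf.hab
  have cG := h.cont_G
  have th0 := h.th0
  have P0 : 0 < ∏ j ∈ T.erase k, GG E (x j * (t0 / x k)) := Finset.prod_pos fun j hj => by
    obtain ⟨r0, r1⟩ := h.ref_le cf (Finset.mem_of_mem_erase hj)
    exact mul_pos (Real.exp_pos _) (h.Et.trans_le (h.E_anti r0 r1))
  have hB := fun s : ℝ => h.B_head cf (sq_nonneg s)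
  have hT := fun s : ℝ => h.B_tail cf (s := s)
  generalize ∏ j ∈ T.erase k, GG E (x j * (t0 / x k)) = P at *
  set β := b / x k with hβ
  set f := fun σ : ℝ => σ ^ 4 * Real.exp (-σ ^ 2) * GG E (σ ^ 2) * GG E (β * σ ^ 2) with hf
  set g := fun σ : ℝ => max (-GG E (σ ^ 2)) 0 / σ with hg
  set S := sg / √a with hS
  have S0 : 0 ≤ S := div_nonneg h.sg0 sa.le
  set A := (a - b) * qm * P / a ^ 2 with hA
  set C := (a - b) * (th * Real.exp (-(β * c))) / (a ^ 2 * √a) * P * √(x k) with hC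
  have C0 : 0 ≤ C := by positivity
  have cf' : Continuous fun s => A * f (√a * s) := by simp only [hf]; fun_prop
  have i1 : IntegrableOn ((Ioc 0 S).indicator fun s => A * f (√a * s)) (Ioi 0) :=
    ((integrable_indicator_iff measurableSet_Ioc).2 cf'.integrableOn_Ioc).integrableOn
  have i2 : IntegrableOn (fun s => C * g (√(x k) * s)) (Ioi 0) :=
    ((integrableOn_Ioi_comp_mul_left_iff g 0 sM).2 (by rw [mul_zero]; exact h.li)).const_mul C
  have e2 : ∀ w s : ℝ, 0 ≤ w → (√w * s) ^ 2 = w * s ^ 2 := fun w s hw => by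
    rw [mul_pow, Real.sq_sqrt hw]
  have le := setIntegral_mono_on (i1.sub i2) (h.int_B cf) measurableSet_Ioi fun s hs => by
    have hs : 0 < s := hs
    have g0 : 0 ≤ C * g (√(x k) * s) := mul_nonneg C0 (by simp only [hg]; positivity)
    simp only [Pi.sub_apply]
    by_cases d : s ∈ Ioc 0 S
    · rw [indicator_of_mem d]
      have d2 : a * s ^ 2 ≤ sg ^ 2 := by
        rw [← e2 a s a0.le]
        exact pow_le_pow_left₀ (by positivity) (by rw [← le_div_iff₀' sa]; exact d.2) 2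
      refine le_trans (sub_le_self _ g0) (le_trans (le_of_eq ?_) (hB s d2))
      simp only [hf, hA]
      rw [show (√a * s) ^ 4 = ((√a * s) ^ 2) ^ 2 by ring, e2 a s a0.le]
      field_simp
    · rw [indicator_of_notMem d, zero_sub]
      rcases le_or_gt 0 (E (x k * s ^ 2)) with d | d
      · exact (neg_nonpos.2 g0).trans (h.B_nonneg cf (sq_nonneg s) d)
      · refine le_trans (le_of_eq ?_) (neg_le_of_abs_le (hT s hs d))
        have n : GG E (x k * s ^ 2) < 0 := mul_neg_of_pos_of_neg (Real.exp_pos _) d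
        simp only [hg, hC]
        rw [e2 _ s M0.le, max_eq_left (neg_nonneg.2 n.le), abs_of_neg n]
        field_simp
  simp only [Pi.sub_apply] at le
  rw [integral_sub i1 i2, setIntegral_indicator measurableSet_Ioc,
    inter_eq_right.2 Ioc_subset_Ioi_self, ← intervalIntegral.integral_of_le S0,
    intervalIntegral.integral_const_mul, integral_const_mul,
    intervalIntegral.integral_comp_mul_left f sa.ne', integral_comp_mul_left_Ioi g 0 sM,
    mul_zero, mul_zero, hS, mul_div_cancel₀ _ sa.ne', smul_eq_mul, smul_eq_mul] at le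
  have b0 : 0 ≤ β := div_nonneg cf.hb M0.le
  have l1 := h.gain β b0 ((div_le_one M0).2 cf.hbM)
  have l2 := h.loss
  have q0 := h.qm0
  refine lt_of_lt_of_le ?_ le
  calc (0 : ℝ) < (a - b) * P * Real.exp (-(β * c)) / (a ^ 2 * √a) * (qm * I0 - th * La) := by
        have := sub_pos.2 h.fin
        positivity
    _ = A * ((√a)⁻¹ * (Real.exp (-(β * c)) * I0)) - C * ((√(x k))⁻¹ * La) := by
        rw [hA, hC]; field_simp
    _ ≤ _ := by gcongr

/-- The exchange step strictly increases the integral. -/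
theorem step (h : Ex E D Q z1 t0 sg qm c th I0 La K) (c : Cfg T x a b k) : ∃ δ, 0 < δ ∧ δ ≤ a ∧
    ∫ s in Ioi (0 : ℝ), GG E (a * s ^ 2) * GG E (b * s ^ 2) * ∏ j ∈ T, GG E (x j * s ^ 2) <
    ∫ s in Ioi (0 : ℝ), GG E ((a - δ) * s ^ 2) * GG E ((b + δ) * s ^ 2) *
      ∏ j ∈ T, GG E (x j * s ^ 2) := by
  have a0 : 0 < a := c.hM.trans_le c.hMa
  have cG := h.cont_G
  have iP := h.int_P c
  have K0 := h.K_pos
  set F : ℝ → ℝ → ℝ := fun s δ => GG E ((a - δ) * s ^ 2) * GG E ((b + δ) * s ^ 2) with hF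
  have ev : ∀ᶠ δ in 𝓝[>] (0 : ℝ), δ ∈ Ioo 0 (a / 2) := Ioo_mem_nhdsGT (by linarith)
  have lim := tendsto_integral_filter_of_dominated_convergence (μ := volume.restrict (Ioi (0 : ℝ)))
    (l := 𝓝[>] (0 : ℝ)) (F := fun δ s => slope (F s) 0 δ * ∏ j ∈ T, GG E (x j * s ^ 2))
    (f := fun s => BB E D T x a b (s ^ 2))
    (fun s => 2 * (K + K * K) / a * |∏ j ∈ T, GG E (x j * s ^ 2)|)
    (Eventually.of_forall fun δ => Continuous.aestronglyMeasurable (by
      simp only [slope_def_field, hF]; fun_prop))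
    (ev.mono fun δ hδ => Eventually.of_forall fun s => by
      have := (convex_Icc 0 (a / 2)).norm_image_sub_le_of_norm_hasDerivWithin_le (f := F s)
        (fun y hy => (h.dF c.hb (sq_nonneg s) ⟨hy.1, by linarith [hy.2]⟩).mono
          (Icc_subset_Icc_right (by linarith)))
        (fun y hy => h.Om_t a0 (by linarith [hy.2]) (add_nonneg c.hb hy.1) (sq_nonneg s))
        (left_mem_Icc.2 (by linarith)) (Ioo_subset_Icc_self hδ)
      rw [norm_mul, slope_def_field, norm_div]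
      exact mul_le_mul_of_nonneg_right (div_le_of_le_mul₀ (norm_nonneg _) (by positivity) this)
        (norm_nonneg _))
    (iP.abs.const_mul _) (Eventually.of_forall fun s => by
      have := (h.dF c.hb (sq_nonneg s) (left_mem_Icc.2 a0.le)).mono_of_mem_nhdsWithin
        (Icc_mem_nhdsGT a0)
      rw [hasDerivWithinAt_iff_tendsto_slope' (by simp), sub_zero, add_zero] at this
      exact this.mul_const _)
  obtain ⟨δ, h1, h2⟩ := ((lim.eventually (lt_mem_nhds (h.key c))).and ev).exists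
  refine ⟨δ, h2.1, by linarith [h2.2], ?_⟩
  have i : ∀ y, 0 ≤ y → y ≤ a → IntegrableOn (fun s => F s y * ∏ j ∈ T, GG E (x j * s ^ 2))
      (Ioi 0) := fun y y0 y1 =>
    iP.bdd_mul (c := 1) (Continuous.aestronglyMeasurable (by simp only [hF]; fun_prop))
      (Eventually.of_forall fun s => by
        simp only [hF, norm_mul, Real.norm_eq_abs]
        exact mul_le_one₀ (h.G_le_one (mul_nonneg (sub_nonneg.2 y1) (sq_nonneg s))) (abs_nonneg _)
          (h.G_le_one (mul_nonneg (add_nonneg c.hb y0) (sq_nonneg s))))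
  have e : ∀ s, slope (F s) 0 δ * ∏ j ∈ T, GG E (x j * s ^ 2) =
      (F s δ * ∏ j ∈ T, GG E (x j * s ^ 2) - F s 0 * ∏ j ∈ T, GG E (x j * s ^ 2)) / δ := fun s => by
    rw [slope_def_field, sub_zero]; ring
  simp only [e] at h1
  rw [integral_div, integral_sub (i δ h2.1.le (by linarith [h2.2])) (i 0 le_rfl a0.le),
    div_pos_iff_of_pos_right h2.1, sub_pos] at h1
  simpa only [hF, sub_zero, add_zero] using h1

end Ex

end Pool.Agent.MP_39fec4_gt.Small
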