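import Pool.Agent.MP_39fec4_gt.SAna

set_option autoImplicit false

namespace Pool.Agent.MP_39fec4_gt.Small

open MeasureTheory Set Filter Topology Real

variable {η : ℝ}

namespace S2D0X

variable {r : ℝ}

/-- Moments of the kernel. -/
noncomputable def I (η r : ℝ) : ℝ := ∫ x in Ioi (0 : ℝ), Wr η r x

theorem I_pos (h0 : 0 < η) (hr : -1 < r) : 0 < I η r := by
  refine (setIntegral_pos_iff_support_of_nonneg_ae ((ae_restrict_iff' measurableSet_Ioi).2
    (Eventually.of_forall fun x hx => (Wr_pos η r hx).le)) (int_Wr h0 hr)).2 ?_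
  have : Ioi 0 ⊆ Function.support (Wr η r) := fun x hx => (Wr_pos η r hx).ne'
  rw [inter_eq_right.2 this]
  simp

theorem I_rec (h0 : 0 < η) (hr : 0 ≤ r) : I η (r + (2 + η)) = (r + 1) / 4 * I η r := by
  have := P2 h0 (r := r + 1) (by linarith) (a := r) (b := r + (2 + η)) (by ring) (by ring) 0
  simp only [Cr, cosT_zero, zero_mul] at this
  unfold I; linarith

theorem W_eq (h0 : 0 < η) {c x : ℝ} (hc : 0 < c) (hx : 0 < x) : c ^ (η / (2 + η)) * Wr η (r + 2) x =
    (c / x ^ (2 + η)) ^ (η / (2 + η)) * Wr η (r + (2 + η)) x := by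
  rw [Real.div_rpow hc.le (Real.rpow_nonneg hx.le _), ← Real.rpow_mul hx.le,
    mul_div_cancel₀ _ (by positivity), ← add_assoc, Wr_add (r + 2) η hx]
  have := Real.rpow_pos_of_pos hx η
  field_simp

theorem I_up (h0 : 0 < η) (hr : 0 ≤ r) : η * Real.log ((r + 1) / 4) +
    (2 + η) * (Real.log (I η (r + 2)) - Real.log (I η (r + (2 + η)))) ≤ 0 := by
  have hc : 0 < (r + 1) / 4 := by positivity
  have t0 : 0 ≤ η / (2 + η) := by positivity
  have t1 : η / (2 + η) ≤ 1 := by rw [div_le_one (by positivity)]; linarith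
  have e := I_rec h0 hr
  have i0 := int_Wr h0 (r := r) (by linarith)
  have i1 := int_Wr h0 (r := r + (2 + η)) (by linarith)
  generalize (r + 1) / 4 = c at hc e ⊢
  have a := setIntegral_mono_on ((int_Wr h0 (r := r + 2) (by linarith)).const_mul
    (c ^ (η / (2 + η)))) ((i1.const_mul (1 - η / (2 + η))).add (i0.const_mul (η / (2 + η) * c)))
    measurableSet_Ioi fun x hx => by
      have y0 := Real.rpow_pos_of_pos (show 0 < x from hx) (2 + η)
      rw [W_eq h0 hc hx]
      refine (mul_le_mul_of_nonneg_right (rpow_le_lin t0 t1 (by positivity))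
        (Wr_pos _ _ hx).le).trans (le_of_eq ?_)
      rw [Pi.add_apply, Wr_add _ _ hx]
      field_simp; ring
  rw [integral_add' (i1.const_mul _) (i0.const_mul _)] at a
  simp only [integral_const_mul] at a
  have b : c ^ (η / (2 + η)) * I η (r + 2) ≤ I η (r + (2 + η)) := by
    unfold I at e ⊢; rw [e] at a ⊢; linarith
  have p := I_pos h0 (r := r + 2) (by linarith)
  have := Real.log_le_log (by positivity) b
  rw [Real.log_mul (by positivity) p.ne', Real.log_rpow hc] at this
  have := mul_le_mul_of_nonneg_left this (by positivity : 0 ≤ 2 + η)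
  rw [mul_add, ← mul_assoc, mul_div_cancel₀ _ (by positivity)] at this
  linarith

theorem I_lo (h0 : 0 < η) (hr : 0 ≤ r) : 0 ≤ η * Real.log ((r + (2 + η) + 1) / 4) +
    (2 + η) * (Real.log (I η (r + 2)) - Real.log (I η (r + (2 + η)))) := by
  have hc : 0 < (r + (2 + η) + 1) / 4 := by positivity
  have t0 : 0 ≤ η / (2 + η) := by positivity
  have e := I_rec h0 (r := r + (2 + η)) (by positivity)
  have i0 := int_Wr h0 (r := r + (2 + η) + (2 + η)) (by linarith)
  have i1 := int_Wr h0 (r := r + (2 + η)) (by linarith)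
  generalize (r + (2 + η) + 1) / 4 = c at hc e ⊢
  have a := setIntegral_mono_on ((i1.const_mul (1 + η / (2 + η))).add
    (i0.const_mul (-(η / (2 + η) / c)))) ((int_Wr h0 (r := r + 2) (by linarith)).const_mul
    (c ^ (η / (2 + η)))) measurableSet_Ioi fun x hx => by
      have y0 := Real.rpow_pos_of_pos (show 0 < x from hx) (2 + η)
      have q : 0 < c / x ^ (2 + η) := by positivity
      have l : 1 + η / (2 + η) * (1 - (c / x ^ (2 + η))⁻¹) ≤ (c / x ^ (2 + η)) ^ (η / (2 + η)) := by
        rw [Real.rpow_def_of_pos q]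
        have := mul_le_mul_of_nonneg_left (Real.one_sub_inv_le_log_of_pos q) t0
        linarith [Real.add_one_le_exp (Real.log (c / x ^ (2 + η)) * (η / (2 + η)))]
      rw [W_eq h0 hc hx]
      refine le_trans (le_of_eq ?_) (mul_le_mul_of_nonneg_right l (Wr_pos _ _ hx).le)
      rw [Pi.add_apply, Wr_add (r + (2 + η)) _ hx]
      field_simp; ring
  rw [integral_add' (i1.const_mul _) (i0.const_mul _)] at a
  simp only [integral_const_mul] at a
  have b : I η (r + (2 + η)) ≤ c ^ (η / (2 + η)) * I η (r + 2) := by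
    unfold I at e ⊢; rw [e] at a
    refine le_trans (le_of_eq ?_) a
    field_simp; ring
  have p := I_pos h0 (r := r + 2) (by linarith)
  have := Real.log_le_log (I_pos h0 (by linarith)) b
  rw [Real.log_mul (by positivity) p.ne', Real.log_rpow hc] at this
  have := mul_le_mul_of_nonneg_left this (by positivity : 0 ≤ 2 + η)
  rw [mul_add, ← mul_assoc, mul_div_cancel₀ _ (by positivity)] at this
  linarith

theorem tele (h0 : 0 < η) (n : ℕ) : Real.log (4 * I η 2 / m0 η) =
    Real.log (I η (n * (2 + η) + 2)) - Real.log (I η (n * (2 + η) + (2 + η))) +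
      ∑ j ∈ Finset.range n, Real.log (1 + η / (3 + j * (2 + η))) := by
  induction n with
  | zero =>
    have e : I η 0 = m0 η := by rw [I, Wr_zero, m0]
    have := m0_pos h0
    have := I_pos h0 (r := 2) (by norm_num)
    rw [Nat.cast_zero, zero_mul, I_rec h0 le_rfl, e, zero_add, Finset.sum_range_zero, add_zero,
      ← Real.log_div (by positivity) (by positivity)]
    congr 1; field_simp; ring
  | succ n ih =>
    have p1 := I_pos h0 (r := n * (2 + η) + 2) (by have : 0 ≤ n * (2 + η) := by positivity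
                                                   linarith)
    have p2 := I_pos h0 (r := n * (2 + η) + (2 + η)) (by have : 0 ≤ n * (2 + η) := by positivity
                                                         linarith)
    rw [ih, Finset.sum_range_succ, Nat.cast_succ,
      show (n + 1) * (2 + η) + 2 = n * (2 + η) + 2 + (2 + η) by ring,
      show (n + 1) * (2 + η) = n * (2 + η) + (2 + η) by ring, I_rec h0 (r := n * (2 + η) + 2)
      (by positivity), I_rec h0 (r := n * (2 + η) + (2 + η)) (by positivity),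
      Real.log_mul (by positivity) p1.ne', Real.log_mul (by positivity) p2.ne',
      show 1 + η / (3 + n * (2 + η)) = ((n * (2 + η) + (2 + η) + 1) / 4) /
        ((n * (2 + η) + 2 + 1) / 4) by field_simp; ring,
      Real.log_div (x := (n * (2 + η) + (2 + η) + 1) / 4) (by positivity) (by positivity)]
    ring

theorem log_up {y : ℝ} (hy : 1 ≤ y) : Real.log y ≤ (y - y⁻¹) / 2 := by
  have := Real.self_le_sinh_iff.2 (Real.log_nonneg hy)
  rwa [Real.sinh_log (by linarith)] at this

theorem up (h0 : 0 < η) {A B : ℝ} (hA : 0 < A) (hB : 0 ≤ B) (h : 2 * B ≤ A) :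
    (2 + η) / (A + B * η) ≤
      2.2 / (A + 0.2 * B) + (A - 2 * B) / (A + 0.2 * B) ^ 2 * (η - 0.2) := by
  have e : 2.2 / (A + 0.2 * B) + (A - 2 * B) / (A + 0.2 * B) ^ 2 * (η - 0.2) -
      (2 + η) / (A + B * η) =
      (A - 2 * B) * B * (η - 0.2) ^ 2 / ((A + 0.2 * B) ^ 2 * (A + B * η)) := by
    field_simp; ring
  have : 0 ≤ A - 2 * B := by linarith
  rw [← sub_nonneg, e]; positivity

theorem lo (h0 : 0 < η) (h1 : η ≤ 0.4) {A B : ℝ} (hA : 0 < A) (hB : 0 ≤ B) (h : 2 * B ≤ A) :
    2 / A + (A - 2 * B) / (A * (A + 0.4 * B)) * η ≤ (2 + η) / (A + B * η) := by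
  have e : (2 + η) / (A + B * η) - (2 / A + (A - 2 * B) / (A * (A + 0.4 * B)) * η) =
      (A - 2 * B) * B * η * (0.4 - η) / (A * (A + 0.4 * B) * (A + B * η)) := by
    field_simp; ring
  have : 0 ≤ A - 2 * B := by linarith
  have : 0 ≤ 0.4 - η := by linarith
  rw [← sub_nonneg, e]; positivity

theorem sum_up (h0 : 0 < η) : (2 + η) * ∑ j ∈ Finset.range 16,
    Real.log (1 + η / (3 + j * (2 + η))) ≤ η * (2.8001 + 0.4055 * η) := by
  have a : ∀ j ∈ Finset.range 16, (2 + η) * Real.log (1 + η / (3 + j * (2 + η))) ≤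
      η * ((2.2 / (3 + 2 * j + 0.2 * j) + 3 / (3 + 2 * j + 0.2 * j) ^ 2 * (η - 0.2) +
      (2.2 / (3 + 2 * j + 0.2 * (j + 1)) + 1 / (3 + 2 * j + 0.2 * (j + 1)) ^ 2 * (η - 0.2))) / 2) :=
    fun j _ => by
    have j0 : (0 : ℝ) ≤ j := j.cast_nonneg
    have u1 := up h0 (A := 3 + 2 * j) (B := j) (by positivity) j0 (by linarith)
    have u2 := up h0 (A := 3 + 2 * j) (B := j + 1) (by positivity) (by positivity) (by linarith)
    rw [show (3 : ℝ) + 2 * j - 2 * j = 3 by ring] at u1
    rw [show (3 : ℝ) + 2 * j - 2 * (j + 1) = 1 by ring] at u2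
    refine (mul_le_mul_of_nonneg_left (log_up (le_add_of_nonneg_right (by positivity)))
      (by positivity)).trans (le_trans (le_of_eq ?_) (mul_le_mul_of_nonneg_left
        (div_le_div_of_nonneg_right (add_le_add u1 u2) (by norm_num)) h0.le))
    field_simp; ring
  rw [Finset.mul_sum]
  refine (Finset.sum_le_sum a).trans ?_
  rw [← Finset.mul_sum]
  refine mul_le_mul_of_nonneg_left ?_ h0.le
  simp only [Finset.sum_range_succ, Finset.sum_range_zero]
  norm_num
  linarith

theorem sum_lo (h0 : 0 < η) (h1 : η ≤ 0.4) : η * (2.7968 + 0.3966 * η) ≤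
    (2 + η) * ∑ j ∈ Finset.range 16, Real.log (1 + η / (3 + j * (2 + η))) := by
  have a : ∀ j ∈ Finset.range 16, η * (2 / (3 + 2 * j) +
      2 / ((3 + 2 * j) * (3 + 2 * j + 0.4 * (j + 1 / 2))) * η) ≤
      (2 + η) * Real.log (1 + η / (3 + j * (2 + η))) := fun j _ => by
    have j0 : (0 : ℝ) ≤ j := j.cast_nonneg
    have u := lo h0 h1 (A := 3 + 2 * j) (B := j + 1 / 2) (by positivity) (by positivity)
      (by linarith)
    rw [show (3 : ℝ) + 2 * j - 2 * (j + 1 / 2) = 2 by ring] at u
    refine (mul_le_mul_of_nonneg_left u h0.le).trans (le_trans (le_of_eq ?_)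
      (mul_le_mul_of_nonneg_left (Real.le_log_one_add_of_nonneg (by positivity)) (by positivity)))
    field_simp; ring
  rw [Finset.mul_sum]
  refine le_trans ?_ (Finset.sum_le_sum a)
  rw [← Finset.mul_sum]
  refine mul_le_mul_of_nonneg_left ?_ h0.le
  simp only [Finset.sum_range_succ, Finset.sum_range_zero]
  norm_num
  linarith

theorem log8 {c y : ℝ} (hy : 0 < y) (h : c = 8 * y) : Real.log c = 3 * Real.log 2 + Real.log y := by
  rw [h, Real.log_mul (by norm_num) hy.ne', show (8 : ℝ) = 2 ^ 3 by norm_num, Real.log_pow]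
  norm_num

end S2D0X

open S2D0X

theorem Sn_zero2 (h0 : 0 < η) (h1 : η ≤ 0.4) :
    (1 + (0.29 - 0.11 * η) * η) * m0 η ≤ 4 * Sn η 0 ∧
      4 * Sn η 0 ≤ (1 + (0.365 - 0.125 * η) * η) * m0 η := by
  have m := m0_pos h0
  have p := I_pos h0 (r := 2) (by norm_num)
  have e : Sn η 0 = I η 2 := by simp [Sn, I]
  have t := tele h0 16
  have l2 := Real.log_two_lt_d9
  have l3 := Real.log_two_gt_d9
  have a0 : 0 ≤ (0.29 - 0.11 * η) * η := mul_nonneg (by linarith) h0.le
  have b0 : 0 ≤ (0.365 - 0.125 * η) * η := mul_nonneg (by linarith) h0.le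
  rw [e, ← le_div_iff₀ m, ← div_le_iff₀ m, ← Real.log_le_log_iff (by linarith) (by positivity),
    ← Real.log_le_log_iff (x := 4 * I η 2 / m0 η) (by positivity) (by linarith)]
  constructor
  · have a := I_lo h0 (r := (16 : ℕ) * (2 + η)) (by positivity)
    have b := sum_lo h0 h1
    have y1 : 1 ≤ (35 + 17 * η) / 32 := by linarith
    rw [log8 (y := (35 + 17 * η) / 32) (by positivity) (by push_cast; ring)] at a
    have c := log_up y1
    have d : 1.6 - 0.64 * ((35 + 17 * η) / 32) ≤ ((35 + 17 * η) / 32)⁻¹ := by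
      rw [inv_eq_one_div, le_div_iff₀ (by positivity)]
      nlinarith [sq_nonneg (0.8 * ((35 + 17 * η) / 32) - 1)]
    have f := Real.log_le_sub_one_of_pos (x := 1 + (0.29 - 0.11 * η) * η) (by linarith)
    have g : η * (3 * Real.log 2 + Real.log ((35 + 17 * η) / 32)) ≤ η * (2.1764 + 0.4357 * η) :=
      mul_le_mul_of_nonneg_left (by linarith) h0.le
    refine le_of_mul_le_mul_left ?_ (by positivity : 0 < 2 + η)
    have k : (2 + η) * (0.29 - 0.11 * η) ≤ 0.6204 - 0.0391 * η := by nlinarith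
    have := mul_le_mul_of_nonneg_left f (by positivity : 0 ≤ 2 + η)
    have := mul_le_mul_of_nonneg_left k h0.le
    rw [t]; linarith
  · have a := I_up h0 (r := (16 : ℕ) * (2 + η)) (by positivity)
    have b := sum_up h0
    rw [log8 (y := 1 + (1 + 16 * η) / 32) (by positivity) (by push_cast; ring)] at a
    have c := Real.le_log_one_add_of_nonneg (x := (1 + 16 * η) / 32) (by positivity)
    have d : 0.0307 + 0.4412 * η ≤ 2 * ((1 + 16 * η) / 32) / ((1 + 16 * η) / 32 + 2) := by
      rw [le_div_iff₀ (by positivity)]; nlinarith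
    have g : η * (2.1101 + 0.4412 * η) ≤ η * (3 * Real.log 2 + Real.log (1 + (1 + 16 * η) / 32)) :=
      mul_le_mul_of_nonneg_left (by linarith) h0.le
    have f := Real.le_log_one_add_of_nonneg b0
    have k : η * (0.69 - 0.0357 * η) / (2 + η) ≤ 2 * ((0.365 - 0.125 * η) * η) /
        ((0.365 - 0.125 * η) * η + 2) := by
      rw [div_le_div_iff₀ (by positivity) (by positivity)]
      have : (0.69 - 0.0357 * η) * ((0.365 - 0.125 * η) * η + 2) ≤
        2 * (0.365 - 0.125 * η) * (2 + η) := by nlinarith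
      nlinarith [mul_le_mul_of_nonneg_left this h0.le]
    refine le_trans ?_ (k.trans f)
    rw [le_div_iff₀ (by positivity), t]; linarith

theorem S1_le (h0 : 0 < η) (h1 : η ≤ 0.4) (s : ℝ) : |Sr η 1 s| ≤ 0.56 * m0 η := by
  have i2 := int_Wr h0 (r := 2) (by norm_num)
  have := abs_sinT_le (k := Wr η 1) ((i2.const_mul (10 / 11)).add ((int_kr h0).const_mul 0.275))
    (fun x hx => by
      rw [abs_of_pos (Wr_pos _ _ hx), Pi.add_apply, W_one, W_two]
      nlinarith [mul_nonneg (kr_pos η x).le (sq_nonneg (x - 0.55))]) s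
  rw [integral_add' (i2.const_mul _) ((int_kr h0).const_mul _), integral_const_mul,
    integral_const_mul, ← m0] at this
  have b := (Sn_zero2 h0 h1).2
  have e : Sn η 0 = ∫ x in Ioi (0 : ℝ), Wr η 2 x := by simp [Sn]
  have m := m0_pos h0
  have : (1 + (0.365 - 0.125 * η) * η) * m0 η ≤ 1.146 * m0 η := by gcongr; nlinarith
  rw [Sr]; linarith

end Pool.Agent.MP_39fec4_gt.Small
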