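import Pool.Agent.MP_39fec4_gt.KArith

set_option autoImplicit false

/-! The fixed point recursion on the grid of mesh `1 / 128`. -/

namespace Pool.Agent.MP_39fec4_gt.Small

open K

/-- One in fixed point. -/
def S1 : Int := 1099511627776

def mU (a b : Int) : Int := mulI a b + 1

/-- Lower bound for `y + ρ (x - y)` with `ρ` between `r` and `t`. -/
def lo (r t x y : Int) : Int := y + min (mulI r (x - y)) (mulI t (x - y))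

def hi (r t x y : Int) : Int := -lo r t (-x) (-y)

/-- The parameters of a range of exponents. -/
structure Pa where
  n : Nat
  (ib ig i0 iz ea eb a0 a1 a2 a3 a4 a5 c0 c1 m qm ka Li kd kq K1 K2 th tq td tG : Int)

/-- The state at a grid point. -/
structure St where
  (gl gh dl dh jl jh el eh ek I0 I1 La : Int)
  ok : Bool

def forceB {α : Type} (b : Bool) (f : Bool → α) : α :=
  Bool.casesOn (motive := fun _ => α) b (f false) (f true)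

def forceS {α : Type} (s : St) (f : St → α) : α :=
  St.casesOn (motive := fun _ => α) s fun a b c d e g h i j k l m o =>
    f ⟨a, b, c, d, e, g, h, i, j, k, l, m, o⟩

def step (P : Pa) (i : Int) (s : St) : St := forceS s fun s =>
  forceI (i + 1) fun b => forceI (i + b) fun k => forceI (i * i) fun i2 => forceI (b * b) fun b2 =>
  forceI ((32768 - k) * S1 / (32768 + k)) fun rL =>
  forceI (536870912 * S1 / (536870912 + 32768 * k + k * k) + 1) fun rH =>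
  forceI (i2 * i * S1 / (b2 * b)) fun cL =>
  forceI (P.a4 * 268435456 / (i2 * i2) + 1) fun f =>
  forceI (min s.jl (lo cL (cL + 1) s.jl (s.gl - 13743895348)) / 3 - if i = 0 then P.a0 else
    min (min P.a0 (P.a1 * 16384 / i2 + 1 + P.a2)) (min (P.a3 * 16384 / i2 + 1) f)) fun qr =>
  forceI (max s.jh (hi cL (cL + 1) s.jh (s.gh + 13743895348)) / 3 + 1 +
    if i = 0 then P.a5 else min P.a5 f) fun qh =>
  forceI (lo rL rH s.dl (max qr 0)) fun dl => forceI (hi rL rH s.dh qh) fun dh =>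
  forceI (min s.dl dl) fun dL => forceI (max s.dh dh) fun dH =>
  forceI (lo rL rH s.gl (-mU P.eb dH)) fun gl => forceI (hi rL rH s.gh (-mulI P.ea dL)) fun gh =>
  forceI (min s.gl gl) fun gL => forceI (max s.gh gh) fun gH => forceI (max gH (-gL)) fun gA =>
  forceI (lo cL (cL + 1) s.jl gL) fun jl => forceI (hi cL (cL + 1) s.jh gH) fun jh =>
  forceI (lo rL rH s.el 0) fun el => forceI (hi rL rH s.eh 0) fun eh =>
  forceI (if i < P.iz then mulI s.ek (S1 - (P.ka * k / 16384 + 1)) else s.ek) fun ek =>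
  forceI (if i < P.ig then mulI el gL * (i2 * i2) / 34359738368 else 0) fun w =>
  forceI (S1 - gl * S1 / eh) fun B => forceI ((P.ka * (P.iz * P.iz) - S1 * b2) / 16384) fun A =>
  forceI (s.I0 + w) fun I0 => forceI (s.I1 + mulI w (A - B - mU (max A 0) B)) fun I1 =>
  forceI (s.La + (max (-gL) 0 / max i P.iz + 1)) fun La =>
  forceB (s.ok && decide (i ≤ 16000 ∧ 0 ≤ dL ∧ (P.ib ≤ i ∨ 0 ≤ qr) ∧ 0 ≤ ek ∧ 0 ≤ w ∧ -P.m ≤ gL ∧
    (P.ig < i ∨ mU P.qm s.eh ≤ qr) ∧ (P.i0 < i ∨ P.m ≤ gL) ∧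
    (P.iz < i ∨ 0 ≤ gL ∧ qh * (P.iz * P.iz * P.iz) ≤ P.kq * (128 * (16384 + P.iz * P.iz - b2))) ∧
    (b < P.iz ∨ dH * (b2 * b) ≤ P.kd * 2097152 ∧ gA * (b2 * b) ≤ P.K2 * 2097152 ∧
      qh * (b2 * b) ≤ P.kq * 2097152) ∧
    mU (S1 + (P.Li * b2 / 16384 + 1)) (mU P.K1 gA + mU P.K2 dH) ≤ mulI P.th ek)) fun o =>
  ⟨gl, gh, dl, dh, jl, jh, el, eh, ek, I0, I1, La, o⟩

/-- The states. -/
def st (P : Pa) (k : Nat) : St :=
  Nat.rec (motive := fun _ => St) ⟨S1, S1, P.c0, P.c1, S1, S1, S1, S1, S1, 0, 0, 0, true⟩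
    (fun j s => step P (Int.ofNat j) s) k

/-- Conditions on the parameters. -/
abbrev Pa.good (P : Pa) : Prop :=
  0 ≤ P.ig ∧ P.ig ≤ P.i0 ∧ P.i0 ≤ P.iz ∧ 157 ≤ P.iz ∧ P.iz < P.n ∧ 0 ≤ P.ib ∧ P.ib ≤ P.n ∧
  0 ≤ P.a1 ∧ 0 ≤ P.a3 ∧ 0 ≤ P.a4 ∧ 0 ≤ P.c0 ∧ 0 < P.m ∧ 0 ≤ P.qm ∧ 0 ≤ P.ka ∧ 0 < P.Li ∧
  0 ≤ P.K1 ∧ 0 ≤ P.K2 ∧ 0 ≤ P.th ∧ 0 ≤ P.kq ∧ P.kd ≤ P.K1 ∧ P.kq ≤ mulI P.K1 P.Li ∧
  mU P.eb P.kd ≤ mulI P.K2 P.Li ∧ P.tq ≤ P.kq ∧ P.td ≤ P.kd ∧ P.tG ≤ P.K2 ∧ 0 ≤ P.td ∧ 0 ≤ P.tG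

/-- Conditions on the last state. -/
abbrev Pa.last (P : Pa) (n : Int) (s : St) : Prop :=
  s.gh ≤ 0 ∧ s.jh * (n * n * n * n) + P.a4 * 805306368 ≤ P.tq * (6291456 * n) ∧
  s.dh * (n * n * n) ≤ P.td * 2097152 ∧ -s.gl * (n * n * n) ≤ P.tG * 2097152 ∧
  P.tq * (n * n) ≤ P.td * (n * n - 24576) ∧ mU P.eb P.td * (n * n) ≤ P.tG * (n * n - 24576) ∧
  P.tG * 2097152 ≤ P.m * (n * n * n) ∧
  mU (S1 + (P.Li * (n * n) / 16384 + 1)) (mU P.K1 P.tG + mU P.K2 P.td) * 2097152 ≤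
    mulI P.th s.ek * (n * n * n) ∧
  0 ≤ s.I1 ∧ mU P.th (s.La + (P.tG * 2097152 / (3 * (n * n * n)) + 1)) < mulI P.qm s.I0

/-- Conditions on the analytic constants. -/
abbrev Pa.cst (P : Pa) : Prop :=
  249 ≤ P.ib ∧ 16 * (28 * S1 + 8 * P.eb) * P.eb ≤ 3000 * S1 * P.a0 ∧
  98 * (172 * S1 - 120 * P.eb) * P.eb ≤ 100000 * S1 * P.a1 ∧
  16 * (28 * S1 + 8 * P.eb) * P.eb ≤ 10000 * S1 * P.a2 ∧
  216 * (172 * S1 - 120 * P.eb) * P.eb ≤ 100000 * S1 * P.a3 ∧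
  (15 * S1 - 11 * P.eb) * P.eb ≤ 4 * S1 * P.a4 ∧
  48 * (28 * S1 + 8 * P.eb) * P.eb ≤ 100000 * S1 * P.a5 ∧
  100 * P.c0 ≤ 29 * S1 - 11 * P.eb ∧ 365 * S1 - 125 * P.ea ≤ 1000 * P.c1 ∧ 2 * P.eb ≤ S1

def chk (P : Pa) : Bool := forceS (st P P.n) fun s =>
  s.ok && decide (P.good ∧ P.cst ∧ P.last (Int.ofNat P.n) s)

end Pool.Agent.MP_39fec4_gt.Small
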