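import Pool.Agent.MP_39fec4_gt.S2Rec

set_option autoImplicit false

/-! From the recursion to the data of the exchange argument. -/

namespace Pool.Agent.MP_39fec4_gt.Small

open MeasureTheory Set Filter Topology Real K

variable {E D Q J ψ f f' : ℝ → ℝ} {η τ a c u v : ℝ} {P : Pa} {n x y : ℤ} {s : St}

theorem run (h : Sy E D Q J ψ η P) (g : P.good) (k : ℕ) (ok : (st P k).ok = true) :
    Iv E D J η P (tt k) (st P k) ∧ (∀ τ, 0 ≤ τ → τ < tt k → Pt E D Q η P τ) ∧
      (Cv E D Q → Ac E P k (st P k)) := by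
  induction k with
  | zero =>
    have e : tt ((0 : ℕ) : ℤ) = 0 := by simp [tt]
    obtain ⟨gg, -, -, gz, -⟩ := g
    rw [e]
    refine ⟨⟨?_, ?_, ?_, ?_, ?_, ?_, ?_, ?_, ?_, ?_⟩, fun τ a b => absurd a (not_le.2 b),
      fun _ => ⟨fun β _ _ => ?_, ?_⟩⟩ <;>
      simp [st, ri_S, ri_zero, h.E0, h.J0, h.D0.1, h.D0.2, tt_nonneg, gg]
    norm_num [S1]
  | succ k ih =>
    obtain ⟨a, b⟩ := cell h g (i := k) (s := st P k) (by omega) (s' := st P (k + 1)) rfl ok
    obtain ⟨a1, a2, a3⟩ := ih a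
    obtain ⟨b1, b2, b3⟩ := b a1
    push_cast
    exact ⟨b1, fun τ t0 t1 => (lt_or_ge τ (tt k)).elim (a2 τ t0) fun c => b2 τ ⟨c, t1.le⟩,
      fun cv => b3 cv (a3 cv)⟩

theorem env_mono2 (hv : 3 / 2 ≤ v) (huv : v ≤ u) : env v ≤ env u :=
  ge_of_deriv huv (contOn_env (by linarith)) (fun x hx _ => hasDerivAt_env (by linarith))
    fun x hx _ => le_trans (by norm_num) (env_deriv_ge (a := 3 / 2) (by norm_num) (by linarith))

theorem env_tail (ha : 0 < a) (hc : 0 ≤ c) (cf : Continuous f) (h0 : f a ≤ c * env a)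
    (hd : ∀ x, a < x → HasDerivAt f (f' x) x ∧ f' x ≤ c * (1 - 3 / (2 * a)) * env x) (hτ : a ≤ τ) :
    f τ ≤ c * env τ := by
  have := ge_of_deriv (f := fun x => c * env x - f x)
    (f' := fun x => c * (env x * (1 - 3 / (2 * x))) - f' x) hτ
    (((contOn_env ha).const_smul c).sub cf.continuousOn)
    (fun x hx _ => ((hasDerivAt_env (by linarith)).const_mul _).sub (hd x hx).1)
    fun x hx _ => by linarith [mul_le_mul_of_nonneg_left (env_deriv_ge ha hx) hc, (hd x hx).2]
  linarith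

theorem tt_ge (hn : 157 ≤ n) : 3 / 2 ≤ tt n :=
  le_trans (by norm_num [tt]) (tt_le (by norm_num) hn)

theorem cmp_tail (hn : 157 ≤ n) (h : x * (n * n) ≤ y * (n * n - 24576)) :
    ri x ≤ ri y * (1 - 3 / (2 * tt n)) := by
  have a := cmp h
  have n0 : (0 : ℝ) < n := by exact_mod_cast (by omega : 0 < n)
  push_cast at a
  refine le_of_mul_le_mul_right (a.trans_eq ?_) (mul_pos n0 n0)
  unfold tt; field_simp; ring

theorem tail (h : Sy E D Q J ψ η P) (g : P.good) (cv : Cv E D Q) (hn : 157 ≤ n)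
    (v : Iv E D J η P (tt n) s) (l : P.last n s) (hτ : tt n ≤ τ) : E τ ≤ 0 ∧
    -E τ ≤ ri P.tG * env τ ∧ D τ ≤ ri P.td * (η * env τ) ∧ Q τ ≤ ri P.tq * (η * env τ) := by
  obtain ⟨l1, l2, l3, l4, l5, l6, -⟩ := l
  obtain ⟨-, -, -, -, -, -, -, -, -, g4, -, -, -, -, -, -, -, -, -, -, -, -, -, -, -, gd, gG⟩ := g
  have t0 : 0 < tt n := by linarith [tt_ge hn]
  have n0 : (0 : ℝ) < n := by exact_mod_cast (by omega : 0 < n)
  have η0 := h.h0
  have ex := Real.exp_pos
  have hE : ∀ τ, tt n ≤ τ → E τ ≤ 0 := fun τ hτ => (cv.E_anti t0.le hτ).trans (v.gh.trans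
    (mul_nonpos_of_nonpos_of_nonneg (ri_zero ▸ ri_le.2 l1) (ex _).le))
  have hQ : ∀ τ, tt n ≤ τ → Q τ ≤ ri P.tq * (η * env τ) := fun τ hτ => by
    have τ0 := t0.trans_le hτ
    have a1 := ge_of_deriv (f := fun x => -J x) hτ h.cJ.neg.continuousOn
      (fun x hx _ => (h.dJ x (t0.trans hx)).neg) fun x hx _ => neg_nonneg.2
        (mul_nonpos_of_nonneg_of_nonpos (by positivity)
          (mul_nonpos_of_nonneg_of_nonpos (ex _).le (hE x hx.le)))
    have a2 := v.jh
    have a3 := ri_le.2 l2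
    have a4 := neg_le_of_abs_le (h.ps τ τ0).2.2.2.1
    have a5 := Real.sqrt_le_sqrt hτ
    have a6 := ri_nonneg g4
    rw [tt_cube (by omega)] at a2
    rw [sqrt_tt (by omega)] at a5
    rw [ri_add, ri_mul', ri_mul', ri_mul'] at a3
    push_cast at a3
    have a7 : ri P.a4 / τ ^ 2 ≤ ri P.a4 / (n / 128) / (τ * √τ) := by
      rw [div_div]
      gcongr
      calc _ ≤ √τ * (τ * √τ) := by gcongr
        _ = _ := by rw [mul_left_comm, Real.mul_self_sqrt τ0.le, sq]
    have a8 : J τ / 3 + ri P.a4 / (n / 128) ≤ ri P.tq := by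
      refine le_of_mul_le_mul_right ?_ n0
      rw [add_mul, show ri P.a4 / (n / 128) * n = 128 * ri P.a4 by field_simp]
      linarith only [a3, mul_le_mul_of_nonneg_right ((neg_le_neg_iff.1 a1).trans a2) n0.le]
    have a9 := div_le_div_of_nonneg_right a8 (by positivity : 0 ≤ τ * √τ)
    rw [add_div, div_div] at a9
    rw [h.Qe τ τ0, env]
    exact (mul_le_mul_of_nonneg_right (by linarith only [a4, a7, a9] : _ ≤ ri P.tq / (τ * √τ))
      (by positivity)).trans_eq (by ring)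
  have hD : ∀ τ, tt n ≤ τ → D τ ≤ ri P.td * η * env τ := fun τ =>
    env_tail t0 (mul_nonneg (ri_nonneg gd) η0.le) h.cD (by
      have := mul_le_mul_of_nonneg_left (to_env (nonneg_of_mul_nonneg_left ((cv.D_nonneg
        t0.le).trans v.dh) (by positivity)) t0 (by omega) le_rfl l3) η0.le
      linarith only [this, v.dh]) fun x hx => ⟨h.dD x (t0.trans hx), by
      linarith only [hQ x hx.le, mul_le_mul_of_nonneg_right (cmp_tail hn l5)
        (mul_pos η0 (env_pos (t0.trans hx))).le]⟩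
  refine ⟨hE τ hτ, env_tail (f := fun x => -E x) (f' := D) t0 (ri_nonneg gG) h.cE.neg ?_
    (fun x hx => ⟨(h.dE x (t0.trans hx)).neg.congr_deriv (neg_neg _), ?_⟩) hτ,
    by linarith only [hD τ hτ], hQ τ hτ⟩
  · have := to_env (x := -s.gl) (by
      rw [ri_neg]; exact neg_nonneg.2 (nonpos_of_mul_nonpos_left (v.gl.trans (hE _ le_rfl)) (ex _)))
      t0 (by omega) le_rfl l4
    rw [ri_neg] at this
    linarith only [this, v.gl]
  · linarith only [hD x hx.le, mul_le_mul_of_nonneg_right ((mul_le_mul_of_nonneg_right h.eb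
      (ri_nonneg gd)).trans ((mU_ge _ _).trans (cmp_tail hn l6))) (env_pos (t0.trans hx)).le]

theorem tail_pt (h : Sy E D Q J ψ η P) (g : P.good) (cv : Cv E D Q)
    (v : Iv E D J η P (tt P.n) s) (l : P.last P.n s) (hτ : tt P.n ≤ τ) : Pt E D Q η P τ := by
  have hn : 157 ≤ (P.n : ℤ) := by have := g.2.2.2.1; have := g.2.2.2.2.1; omega
  obtain ⟨a1, a2, a3, a4⟩ := tail h g cv hn v l hτ
  obtain ⟨-, -, -, -, -, -, l7, l8, -⟩ := l
  obtain ⟨gg, gi, g0, gz, gn, -, -, -, -, -, -, gm, -, -, gl, gK, gK', gt, -, -, -, -, g1, g2, g3,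
    gd, gG⟩ := g
  have t0 : 0 < tt P.n := by linarith [tt_ge hn]
  have τ0 := t0.trans_le hτ
  have η0 := h.h0
  have e0 := env_pos τ0
  have ex := Real.exp_pos τ
  have no : ∀ {k : ℤ} {p : Prop}, 0 ≤ k → k ≤ P.iz → τ ≤ tt k → p := fun k0 k1 c =>
    absurd (by omega) (le_of_tt k0 (hτ.trans c))
  have w : tt P.n * √(tt P.n) ≤ τ * √τ := by gcongr
  have e1 : env τ * (τ * √τ) = Real.exp τ := by rw [env]; field_simp
  refine ⟨cv.Qnn τ, fun _ => no gg (by omega), ?_, no (by omega) g0, no (by omega) le_rfl,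
    fun _ => ⟨a3.trans (mul_le_mul_of_nonneg_right (ri_le.2 g2) (by positivity)),
      (abs_of_nonpos a1).trans_le (a2.trans (mul_le_mul_of_nonneg_right (ri_le.2 g3) e0.le)),
      a4.trans (mul_le_mul_of_nonneg_right (ri_le.2 g1) (by positivity))⟩,
    fun _ => no (by omega) le_rfl, ?_⟩
  · have b1 := cmp l7
    have b2 := mul_le_mul_of_nonneg_left w (ri_nonneg gm.le)
    rw [tt_cube (by omega)] at b2
    push_cast at b1 b2
    have b3 := mul_le_mul_of_nonneg_right (by linarith only [b1, b2] :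
      ri P.tG ≤ ri P.m * (τ * √τ)) e0.le
    rw [mul_assoc, mul_comm (τ * √τ), e1] at b3
    exact le_G.1 (by linarith only [a2, b3])
  · have b1 := dv_ge (P.Li * (P.n * P.n)) (k := 16384) (by norm_num)
    have b2 := cmp l8
    have b3 := (mulI_le P.th s.ek).trans (mul_le_mul_of_nonneg_left v.ek (ri_nonneg gt))
    have b4 := mU_ge (S1 + (P.Li * (P.n * P.n) / 16384 + 1)) (mU P.K1 P.tG + mU P.K2 P.td)
    have b5 := mul_le_mul_of_nonneg_left (add_le_add (mU_ge P.K1 P.tG) (mU_ge P.K2 P.td))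
      (mul_pos η0 e0).le
    have b6 := mul_le_mul_of_nonneg_left (mul_le_mul_of_nonneg_left a2 η0.le) (ri_nonneg gK)
    have b7 := mul_le_mul_of_nonneg_left a3 (ri_nonneg gK')
    have b8 : τ * (tt P.n * √(tt P.n)) ≤ tt P.n * (τ * √τ) := by
      rw [mul_left_comm]; gcongr
    have L0 := ri_nonneg gl.le
    have V0 : 0 ≤ ri (mU P.K1 P.tG) + ri (mU P.K2 P.td) := le_trans (add_nonneg (mul_nonneg
      (ri_nonneg gK) (ri_nonneg gG)) (mul_nonneg (ri_nonneg gK') (ri_nonneg gd)))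
      (add_le_add (mU_ge _ _) (mU_ge _ _))
    rw [min_eq_right (tt_le (by omega) gn.le)] at b3
    rw [min_eq_right ((tt_le (by omega) gn.le).trans hτ), abs_of_nonpos a1]
    rw [ri_mul'] at b1
    rw [ri_add, ri_add (mU _ _), ri_S] at b4
    generalize ri (mU P.K1 P.tG) + ri (mU P.K2 P.td) = V at *
    have c1 : (1 + tt P.n * ri P.Li) * V ≤ ri P.th * Real.exp (-(ri P.ka * tt P.iz)) *
        (tt P.n * √(tt P.n)) := by
      have := mul_le_mul_of_nonneg_right b3 (by positivity : 0 ≤ tt P.n * √(tt P.n))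
      have d := mul_le_mul_of_nonneg_right b1 V0
      rw [tt_cube (by omega)] at this ⊢
      rw [tt]
      push_cast at b2 d this ⊢
      linarith only [b2, b4, d, this]
    generalize ri P.th * Real.exp (-(ri P.ka * tt P.iz)) = X at *
    have c2 : (1 + τ * ri P.Li) * V ≤ X * (τ * √τ) := by
      refine le_of_mul_le_mul_right ?_ (by positivity : 0 < tt P.n * √(tt P.n))
      linarith only [mul_le_mul_of_nonneg_right c1 (by positivity : 0 ≤ τ * √τ),
        mul_le_mul_of_nonneg_left w V0, mul_le_mul_of_nonneg_left b8 (mul_nonneg L0 V0)]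
    calc _ ≤ (1 + τ * ri P.Li) * (η * env τ * V) :=
          mul_le_mul_of_nonneg_left (by linarith only [b5, b6, b7]) (by positivity)
      _ ≤ η * env τ * (X * (τ * √τ)) := by rw [mul_left_comm]; gcongr
      _ = _ := by rw [← e1]; ring

theorem ob (h : Sy E D Q J ψ η P) (g : P.good) (cv : Cv E D Q) (pt : ∀ τ, 0 ≤ τ → Pt E D Q η P τ)
    (hu : tt P.iz ≤ u) (hv : 0 ≤ v) (huv : v ≤ u) : u * |Om E D u v| ≤
      (u - v) * env u * ((1 + v * ri P.Li) * (ri P.K1 * (η * |E v|) + ri P.K2 * D v)) := by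
  obtain ⟨-, -, -, gz, -, -, -, -, -, -, -, -, -, -, gl, gK, gK', -, gq, g1, g2, g3, -, g4, -,
    gd, -⟩ := g
  have z0 := tt_ge gz
  have u0 : 0 < u := by linarith
  have η0 := h.h0
  have e0 := env_pos u0
  have L0 : 0 < ri P.Li := ri_zero ▸ ri_lt.2 gl
  have k1 := ri_nonneg gK
  have k2 := ri_nonneg gK'
  have d0 := cv.D_nonneg hv
  have uv := sub_nonneg.2 huv
  have av := abs_nonneg (E v)
  obtain ⟨f1, f2, -⟩ := (pt u u0.le).far hu
  rcases le_total 1 ((u - v) * ri P.Li) with c | c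
  · have o : |Om E D u v| ≤ D u * |E v| + |E u| * D v := by
      refine (abs_sub _ _).trans (le_of_eq ?_)
      rw [abs_mul, abs_mul, abs_of_nonneg (cv.D_nonneg u0.le), abs_of_nonneg d0]
    have a1 := mul_le_mul_of_nonneg_right (f1.trans (mul_le_mul_of_nonneg_right (ri_le.2 g1)
      (by positivity))) av
    have a2 := mul_le_mul_of_nonneg_right f2 d0
    calc _ ≤ (u - v) * (1 + v * ri P.Li) * (env u * (ri P.K1 * (η * |E v|) + ri P.K2 * D v)) :=
          mul_le_mul (by linarith only [mul_le_mul_of_nonneg_left c hv]) (by linarith only [o, a1, a2])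
            (abs_nonneg _) (by positivity)
      _ = _ := by ring
  · have cD := h.cD
    have q0 := ri_nonneg gq
    have a1 := ge_of_deriv (f := fun x => x * (ri P.kq * (η * env u)) - D x)
      (f' := fun x => ri P.kq * (η * env u) - Q x) huv (by fun_prop)
      (fun x hx _ => (((hasDerivAt_id x).mul_const _).sub (h.dD x (hv.trans_lt hx))).congr_deriv
        (by ring)) fun x hx hx' => sub_nonneg.2 <| by
        have x0 := hv.trans_lt hx
        rcases le_total x (tt P.iz) with d | d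
        · exact ((pt x x0.le).near x0 d).trans (by gcongr; exact env_mono2 z0 hu)
        · exact ((pt x x0.le).far d).2.2.trans (by gcongr; exact env_mono2 (z0.trans d) hx'.le)
    have a2 := cv.E_lip hv huv
    have o : |Om E D u v| ≤ |E v| * (D u - D v) + D v * (E v - E u) := by
      rw [show Om E D u v = E v * (D u - D v) + D v * (E v - E u) by unfold Om; ring]
      refine (abs_add_le _ _).trans (le_of_eq ?_)
      rw [abs_mul, abs_of_nonneg (sub_nonneg.2 (cv.D_mono hv huv)), abs_of_nonneg (mul_nonneg d0 a2.1)]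
    have a3 := mul_le_mul_of_nonneg_left ((ri_le.2 g2).trans (mulI_le _ _))
      (by positivity : 0 ≤ |E v| * ((u - v) * (η * env u)))
    have a4 := mul_le_mul_of_nonneg_left ((mul_le_mul_of_nonneg_right h.eb (ri_nonneg (gd.trans
      g4))).trans ((mU_ge _ _).trans ((ri_le.2 g3).trans (mulI_le _ _))))
      (by positivity : 0 ≤ D v * ((u - v) * env u))
    have a5 := mul_le_mul_of_nonneg_left (a2.2.trans (mul_le_mul_of_nonneg_left f1 uv)) d0
    have a6 := mul_le_mul_of_nonneg_left (by linarith only [a1] :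
      D u - D v ≤ (u - v) * (ri P.kq * (η * env u))) av
    calc _ ≤ u * (ri P.Li * ((u - v) * env u * (ri P.K1 * (η * |E v|) + ri P.K2 * D v))) :=
          mul_le_mul_of_nonneg_left (by linarith only [o, a3, a4, a5, a6]) u0.le
      _ ≤ (1 + v * ri P.Li) * ((u - v) * env u * (ri P.K1 * (η * |E v|) + ri P.K2 * D v)) := by
          rw [← mul_assoc]
          exact mul_le_mul_of_nonneg_right (by linarith only [c]) (by positivity)
      _ = _ := by ring

theorem Sy.ex (h : Sy E D Q J ψ η P) (hc : chk P = true) :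
    ∃ z1 t0 sg qm c th I0 La K, Ex E D Q z1 t0 sg qm c th I0 La K := by
  rw [chk, forceS_eq, Bool.and_eq_true, decide_eq_true_eq] at hc
  obtain ⟨ok, g, -, l⟩ := hc
  obtain ⟨v, p1, ac⟩ := run h g P.n ok
  generalize st P P.n = s at *
  have g' := g
  obtain ⟨gg, gi, g0, gz, gn, gb, gb', -, -, -, gc, gm, gq, gk, gl, -, gK', gt, -, -, -, -, -, g4, -,
    gd, gG⟩ := g'
  have η0 := h.h0
  have cv : Cv E D Q := ⟨h.cE, h.cD, h.dE, h.dD, h.E0,
    (mul_nonneg (ri_nonneg gc) η0.le).trans h.D0.1, fun τ τ0 => (lt_or_ge τ (tt P.n)).elim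
      (fun c => (p1 τ τ0.le c).q0 τ0) fun c => h.Qb τ ((tt_le gb gb').trans c) τ0⟩
  have pt : ∀ τ, 0 ≤ τ → Pt E D Q η P τ := fun τ τ0 =>
    (lt_or_ge τ (tt P.n)).elim (p1 τ τ0) (tail_pt h g cv v l)
  have z0 := tt_ge gz
  have ex := Real.exp_pos
  have cG := cv.cont_G
  have m0 : 0 < ri P.m := ri_zero ▸ ri_lt.2 gm
  have n0 : (0 : ℝ) < (P.n : ℤ) / 128 := by
    have : (0 : ℝ) < (P.n : ℤ) := by exact_mod_cast (by omega : 0 < (P.n : ℤ))
    positivity
  have i0 : (0 : ℝ) < P.iz / 128 := by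
    have : (0 : ℝ) < P.iz := by exact_mod_cast (by omega : 0 < P.iz)
    positivity
  set F := fun σ : ℝ => max (-GG E (σ ^ 2)) 0 / max σ (P.iz / 128) with hF
  have cF : Continuous F := Continuous.div (by fun_prop) (by fun_prop)
    fun σ => (lt_max_of_lt_right i0).ne'
  have eF : EqOn F (fun σ => max (-GG E (σ ^ 2)) 0 / σ) (Ioi 0) := fun σ hσ => by
    rcases le_total σ (P.iz / 128) with c | c
    · simp only [hF, max_eq_right (neg_nonpos.2 (G_nonneg ((pt _ (sq_nonneg σ)).gz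
        (pow_le_pow_left₀ (le_of_lt hσ) c 2)))), zero_div]
    · simp only [hF, max_eq_left c]
  have i1 := (integrableOn_Ioi_rpow_of_lt (a := -4) (by norm_num) n0).const_mul (ri P.tG)
  have bF : ∀ σ ∈ Ioi (((P.n : ℤ) : ℝ) / 128), |F σ| ≤ ri P.tG * σ ^ (-4 : ℝ) := fun σ hσ => by
    have σ0 := n0.trans hσ
    obtain ⟨a1, a2, -⟩ := tail h g cv (by omega) v l (pow_le_pow_left₀ n0.le (le_of_lt hσ) 2)
    have a3 := mul_le_mul_of_nonneg_left a2 (ex (-σ ^ 2)).le
    simp only [eF σ0, GG]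
    rw [abs_of_nonneg (by positivity), max_eq_left (neg_nonneg.2
      (mul_nonpos_of_nonneg_of_nonpos (ex _).le a1)), div_le_iff₀ σ0, ← mul_neg]
    refine a3.trans_eq ?_
    rw [env, Real.sqrt_sq σ0.le, Real.rpow_neg σ0.le, Real.rpow_ofNat, Real.exp_neg]
    field_simp
  have i2 : IntegrableOn F (Ioi (((P.n : ℤ) : ℝ) / 128)) := i1.mono' cF.aestronglyMeasurable
    ((ae_restrict_iff' measurableSet_Ioi).2 (Eventually.of_forall bF))
  have k2 := ri_nonneg gK'
  have kd := ri_nonneg (gd.trans g4)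
  have dz := cv.D_nonneg (tt_nonneg P.iz)
  have eb : ∀ τ, tt P.iz ≤ τ → Real.exp (-τ) * ((1 + τ) * env τ) ≤ 2 := fun τ c => by
    have := mul_le_mul_of_nonneg_left (env_bound (a := 1) (c := 2) (τ := τ) one_pos (by linarith)
      (by norm_num)) (ex (-τ)).le
    linarith only [this, exp_neg_mul_exp τ]
  refine ⟨tt P.iz, tt P.i0, P.ig / 128, η * ri P.qm, ri P.ka * tt P.iz, η * ri P.th, ri s.I0,
    ri (s.La + (P.tG * 2097152 / (3 * (P.n * P.n * P.n)) + 1)),
    (1 + tt P.iz) * (1 + D (tt P.iz)) + 2 * (ri P.K2 + ri P.kd * η), cv, by positivity, tt_le gg gi,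
    tt_le (by omega) g0, (pt _ (tt_nonneg _)).gz le_rfl, ?_, mul_nonneg η0.le (ri_nonneg gq),
    mul_nonneg η0.le (ri_nonneg gt), fun τ τ0 c => ?_, fun τ τ0 => (pt τ τ0.le).qg τ0,
    fun u w β a1 a2 a3 a4 a5 a6 a7 => ?_, fun β b0 b1 => ?_, ?_, ?_, ?_, fun τ τ0 => ?_,
    fun τ τ0 => ?_⟩
  · exact (mul_pos m0 (ex _)).trans_le (le_G.2 ((pt _ (tt_nonneg _)).g0 le_rfl))
  · rw [abs_of_neg (a := GG E τ) (mul_neg_of_pos_of_neg (ex _) c)]
    exact (neg_le.1 (pt τ τ0).gm).trans ((pt _ (tt_nonneg _)).g0 le_rfl)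
  · have b1 := (ob h g cv pt a1 a3 a4).trans (mul_le_mul_of_nonneg_left (pt w a3).th
      (mul_nonneg (sub_nonneg.2 a4) (env_pos a2).le))
    have b2 : Real.exp (-(ri P.ka * min w (tt P.iz))) ≤ Real.exp (-(β * (ri P.ka * tt P.iz))) := by
      rw [Real.exp_le_exp, neg_le_neg_iff, mul_left_comm]
      exact mul_le_mul_of_nonneg_left (le_min a7 (mul_le_of_le_one_left (tt_nonneg _) a6))
        (ri_nonneg gk)
    have := ri_nonneg gt
    have := sub_nonneg.2 a4
    have := env_pos a2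
    rw [mul_left_comm]
    refine (mul_le_mul_of_nonneg_left (b1.trans (by gcongr : _ ≤ (u - w) * env u * (η * Real.exp w *
      (ri P.th * Real.exp (-(β * (ri P.ka * tt P.iz))))))) (ex _).le).trans_eq ?_
    rw [env, Real.exp_neg (u + w), Real.exp_add]
    field_simp
  · have a1 := (ac cv).g β b0 b1
    rw [min_eq_right (by omega)] at a1
    exact le_trans (mul_le_mul_of_nonneg_left (le_add_of_nonneg_right (mul_nonneg b0
      (ri_nonneg l.2.2.2.2.2.2.2.2.1))) (ex _).le) a1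
  · refine IntegrableOn.congr_fun ?_ eF measurableSet_Ioi
    rw [← Ioc_union_Ioi_eq_Ioi n0.le]
    exact cF.integrableOn_Ioc.union i2
  · have a1 := setIntegral_mono_on i2 i1 measurableSet_Ioi fun σ hσ => le_of_abs_le (bF σ hσ)
    have a2 := dv_ge (P.tG * 2097152) (k := 3 * (P.n * P.n * P.n))
      (by have : 0 < (P.n : ℤ) := by omega
          positivity)
    rw [integral_const_mul, integral_Ioi_rpow_of_lt (by norm_num) n0, show (-4 : ℝ) + 1 = -3 by
      norm_num, Real.rpow_neg n0.le, Real.rpow_ofNat] at a1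
    rw [← setIntegral_congr_fun measurableSet_Ioi eF,
      ← intervalIntegral.integral_interval_add_Ioi' (cF.intervalIntegrable 0 _) i2, ri_add]
    refine add_le_add (ac cv).l (a1.trans (le_of_mul_le_mul_right (le_of_eq_of_le ?_ a2) ?_))
    · have : ((P.n : ℤ) : ℝ) ≠ 0 := fun e => by rw [e] at n0; simp at n0
      rw [ri_mul']
      simp only [Int.cast_mul, Int.cast_ofNat]
      field_simp
      norm_num
    · have : 0 < (P.n : ℤ) := by omega
      positivity
  · rw [mul_assoc η, mul_assoc η]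
    exact mul_lt_mul_of_pos_left ((mU_ge _ _).trans_lt ((ri_lt.2 l.2.2.2.2.2.2.2.2.2).trans_le
      (mulI_le _ _))) η0
  · rcases le_total τ (tt P.iz) with c | c
    · have a1 := cv.G_anti le_rfl τ0 (by simp [h.E0])
      rw [abs_of_nonneg (G_nonneg ((pt τ τ0).gz c))]
      simp only [GG, h.E0, neg_zero, Real.exp_zero, mul_one] at a1
      refine le_add_of_le_of_nonneg (mul_le_mul (by linarith only [c]) (by unfold GG; linarith)
        (G_nonneg ((pt τ τ0).gz c)) (by linarith)) (by positivity)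
    · have a1 := mul_le_mul_of_nonneg_left ((pt τ τ0).far c).2.1
        (by positivity : 0 ≤ Real.exp (-τ) * (1 + τ))
      rw [abs_GG]
      linarith only [a1, mul_le_mul_of_nonneg_left (eb τ c) k2, (by positivity : 0 ≤ ri P.kd * η),
        (by positivity : 0 ≤ (1 + tt P.iz) * (1 + D (tt P.iz)))]
  · rcases le_total τ (tt P.iz) with c | c
    · have a1 := mul_le_mul (Real.exp_le_one_iff.2 (neg_nonpos.2 τ0)) (cv.D_mono τ0 c)
        (cv.D_nonneg τ0) zero_le_one
      refine le_add_of_le_of_nonneg (mul_le_mul (by linarith only [c]) (by linarith only [a1])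
        (mul_nonneg (ex _).le (cv.D_nonneg τ0)) (by linarith)) (by positivity)
    · have a1 := mul_le_mul_of_nonneg_left ((pt τ τ0).far c).1
        (by positivity : 0 ≤ Real.exp (-τ) * (1 + τ))
      linarith only [a1, mul_le_mul_of_nonneg_left (eb τ c) (by positivity : 0 ≤ ri P.kd * η), k2,
        (by positivity : 0 ≤ (1 + tt P.iz) * (1 + D (tt P.iz)))]

end Pool.Agent.MP_39fec4_gt.Small
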