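import Pool.Agent.MP_39fec4_gt.SAna
import Pool.Agent.MP_39fec4_gt.FGam

set_option autoImplicit false

namespace Pool.Agent.MP_39fec4_gt.Small

open MeasureTheory Set Filter Topology Real

variable {η s : ℝ}

namespace S2PosX

variable {r u y z x : ℝ}

/-- The second order part of the density. -/
noncomputable def TT (η y u : ℝ) : ℝ :=
  (3 - (24 + 4 * η) * y + 16 * y ^ 2) * u ^ 2 - (8 + 2 * η - 16 * y) * u

/-- The reduced density. -/
noncomputable def Th (η y u : ℝ) : ℝ :=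
  (1 - η ^ 2) / 4 + (2 + 5 * η) * y - 4 * y ^ 2 + η * y * TT η y u

theorem Kb (h0 : 0 < η) (h1 : η ≤ 0.4) (r0 : 0 < r) (u0 : 0 ≤ u)
    (h : r * (2 + η) ^ 2 * u ^ 2 ≤ 4 * (1 - r) ^ 2 * (1 + η * u)) :
    (24 + 4 * η) * r ^ 2 * u ^ 2 ≤ (24 - 15.5 * η) * (r * (1 - r) ^ 2) +
      (2.48 + 11.6 * η) * (r * (1 - r) ^ 2 * u) := by
  have g0 : 0 ≤ r * (1 - r) ^ 2 := by positivity
  have a : (24 + 4 * η) * r ^ 2 * u ^ 2 ≤ (24 - 15.5 * η) * (r * (1 - r) ^ 2 * (1 + η * u)) := by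
    refine le_of_mul_le_mul_left ?_ (by positivity : 0 < (2 + η) ^ 2)
    have b := mul_le_mul_of_nonneg_left h (by positivity : 0 ≤ (24 + 4 * η) * r)
    have c : 4 * (24 + 4 * η) ≤ (2 + η) ^ 2 * (24 - 15.5 * η) := by
      nlinarith [mul_nonneg h0.le (sub_nonneg.2 h1), mul_nonneg (sq_nonneg η) (sub_nonneg.2 h1)]
    have d := mul_le_mul_of_nonneg_right c (by positivity : 0 ≤ r * (1 - r) ^ 2 * (1 + η * u))
    linarith
  linarith [mul_nonneg (sq_nonneg (η - 0.4)) (mul_nonneg g0 u0)]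

theorem bern6 {a b t : ℝ} (ha : a ≤ t) (hb : t ≤ b) (i j : ℕ) : 0 ≤ (t - a) ^ i * (b - t) ^ j :=
  mul_nonneg (pow_nonneg (sub_nonneg.2 ha) i) (pow_nonneg (sub_nonneg.2 hb) j)

theorem algA (h0 : 0 < η) (h1 : η ≤ 0.4) (r0 : 0 < r) (r1 : r ≤ 0.55) (u0 : 0 ≤ u)
    (h : r * (2 + η) ^ 2 * u ^ 2 ≤ 4 * (1 - r) ^ 2 * (1 + η * u)) :
    -TT η (r ^ 2) u ≤ 10.5 - 20 * r ^ 2 := by
  have k := Kb h0 h1 r0 u0 h
  have p0 : (8 - 16 * r ^ 2 + 2.48 * (r * (1 - r) ^ 2)) ^ 2 ≤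
      12 * (10.5 - 20 * r ^ 2 - 24 * (r * (1 - r) ^ 2)) := by
    have b := bern6 r0.le r1
    linarith [b 0 6, b 1 5, b 2 4, b 3 3, b 4 2, b 5 1, b 6 0]
  have p1 : (8.8 - 16 * r ^ 2 + 7.12 * (r * (1 - r) ^ 2)) ^ 2 ≤
      12 * (10.5 - 20 * r ^ 2 - 17.8 * (r * (1 - r) ^ 2)) := by
    rcases le_total r 0.3 with c | c
    · have b := bern6 r0.le c
      linarith [b 0 6, b 1 5, b 2 4, b 3 3, b 4 2, b 5 1, b 6 0]
    · have b := bern6 c r1
      linarith [b 0 6, b 1 5, b 2 4, b 3 3, b 4 2, b 5 1, b 6 0]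
  unfold TT
  generalize r * (1 - r) ^ 2 = g at *
  generalize r ^ 2 = y at *
  have e0 : 0 ≤ 3 * u ^ 2 - (8 - 16 * y + 2.48 * g) * u + (10.5 - 20 * y - 24 * g) := by
    linarith [sq_nonneg (6 * u - (8 - 16 * y + 2.48 * g))]
  have e1 : 0 ≤ 3 * u ^ 2 - (8.8 - 16 * y + 7.12 * g) * u + (10.5 - 20 * y - 17.8 * g) := by
    linarith [sq_nonneg (6 * u - (8.8 - 16 * y + 7.12 * g))]
  linarith [mul_nonneg (sub_nonneg.2 h1) e0, mul_nonneg h0.le e1, sq_nonneg (y * u)]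

theorem algA2 {k : ℝ} (h0 : 0 < η) (h1 : η ≤ 0.4) (y0 : 0 ≤ y) (y1 : y ≤ 0.3025)
    (h : -TT η y u ≤ 10.5 - 20 * y) (hk : 1 - (2 - 0.8 * η) * y ≤ k) : 0.185 ≤ k * Th η y u := by
  have b := bern6 y0 y1
  have d := sub_nonneg.2 h1
  have a : 0.25 - 0.1 * η + (2 - 5.5 * η) * y + (20 * η - 4) * y ^ 2 ≤ Th η y u := by
    unfold Th
    linarith [mul_le_mul_of_nonneg_left h (mul_nonneg h0.le y0), mul_nonneg h0.le d]
  have q0 : 0 ≤ (1 - 2 * y) * (0.25 + 2 * y - 4 * y ^ 2) - 0.185 := by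
    linarith [b 0 3, b 1 2, b 2 1, b 3 0]
  have q1 : 0 ≤ (1 - 2 * y) * (0.21 - 0.2 * y + 4 * y ^ 2) +
      (1 - 1.68 * y) * (0.25 + 2 * y - 4 * y ^ 2) - 0.37 := by
    linarith [b 0 3, b 1 2, b 2 1, b 3 0]
  have q2 : 0 ≤ (1 - 1.68 * y) * (0.21 - 0.2 * y + 4 * y ^ 2) - 0.185 := by
    linarith [b 0 3, b 1 2, b 2 1, b 3 0, mul_nonneg (sq_nonneg (y - 0.075)) y0,
      mul_nonneg (sq_nonneg (y - 0.075)) (sub_nonneg.2 y1)]
  have c : 0.185 ≤ (1 - (2 - 0.8 * η) * y) *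
      (0.25 - 0.1 * η + (2 - 5.5 * η) * y + (20 * η - 4) * y ^ 2) := by
    linarith [mul_nonneg (sq_nonneg (0.4 - η)) q0, mul_nonneg (mul_nonneg h0.le d) q1,
      mul_nonneg (sq_nonneg η) q2]
  have k0 : 0 ≤ 1 - (2 - 0.8 * η) * y := by linarith [mul_nonneg h0.le y0]
  have t0 : 0 ≤ 0.25 - 0.1 * η + (2 - 5.5 * η) * y + (20 * η - 4) * y ^ 2 := by
    by_contra n
    linarith [mul_nonneg k0 (neg_nonneg.2 (not_le.1 n).le)]
  exact c.trans (mul_le_mul hk a t0 (k0.trans hk))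

theorem algB (h0 : 0 < η) (h1 : η ≤ 0.4) (r0 : 0.55 ≤ r) (r1 : r ≤ 1) (u0 : 0 ≤ u)
    (h : r * (2 + η) ^ 2 * u ^ 2 ≤ 4 * (1 - r) ^ 2 * (1 + η * u)) :
    -Th η (r ^ 2) u ≤ (1.9 - 1.75 * η) * (r ^ 2) ^ 4 := by
  have k := Kb h0 h1 (by linarith) u0 h
  have b := bern6 r0 r1
  have g0 : 0 ≤ r * (1 - r) ^ 2 := by positivity
  have g1 : r * (1 - r) ^ 2 ≤ 0.16 * (1 - r ^ 2) := by linarith [b 0 3, b 1 2, b 2 1, b 3 0]
  have y0 : 0.3025 ≤ r ^ 2 := by nlinarith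
  have y1 : r ^ 2 ≤ 1 := by nlinarith
  generalize r * (1 - r) ^ 2 = g at *
  generalize r ^ 2 = y at *
  have d := sub_nonneg.2 h1
  have d1 := sub_nonneg.2 y1
  have a : -TT η y u ≤ 6.5 * (1 - y) := by
    have a1 : (2.48 + 11.6 * η) * g ≤ 7.12 * 0.1116 := by gcongr <;> linarith
    have a2 : 4.46 ≤ 3 + 16 * y ^ 2 := by nlinarith
    unfold TT
    linarith [mul_le_mul_of_nonneg_right a1 u0, mul_le_mul_of_nonneg_right a2 (sq_nonneg u),
      mul_nonneg h0.le g0, mul_nonneg d u0, mul_nonneg (sub_nonneg.2 y0) u0,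
      mul_nonneg (sub_nonneg.2 y0) d1, sq_nonneg (u - 0.8 * (1 - y)), sq_nonneg u,
      sq_nonneg (1 - y)]
  have y2 : 0 ≤ y := by linarith
  have f0 : 0 ≤ 1.9 * y ^ 4 + 0.25 + 2 * y - 4 * y ^ 2 := by
    linarith [mul_nonneg (sq_nonneg (y - 0.87)) (sq_nonneg y), mul_nonneg (sq_nonneg (y - 0.87)) y2,
      sq_nonneg (y - 0.87)]
  have f1 : 0 ≤ 1.2 * y ^ 4 + 0.21 + 1.4 * (y * (1 - y)) := by positivity
  unfold Th
  linarith [mul_le_mul_of_nonneg_left a (mul_nonneg h0.le y2), mul_nonneg h0.le d, mul_nonneg d f0,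
    mul_nonneg h0.le f1]

theorem algC (h0 : 0 < η) (h1 : η ≤ 0.4) (y1 : 1 ≤ y) (u0 : u ≤ 0)
    (h : y * (2 + η) ^ 2 * u ^ 2 ≤ (y - 1) ^ 2) (hz : z ^ 2 ≤ 1 + (y - 1) / 3) :
    -(z ^ 2 * Th η y u) ≤ (1.9 - 1.75 * η) * y ^ 4 := by
  have d := sub_nonneg.2 h1
  have t0 := sub_nonneg.2 y1
  have y0 : 0 < y := by linarith
  have a1 : (2 + η) * (y * -u) ≤ (y ^ 2 - 1) / 2 := by
    refine (abs_le_of_sq_le_sq' ?_ (by nlinarith)).2
    nlinarith [mul_le_mul_of_nonneg_left h y0.le, sq_nonneg ((y - 1) ^ 2)]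
  have v0 : 0 ≤ y * -u := mul_nonneg y0.le (neg_nonneg.2 u0)
  have a2 : η * (y * -u) ≤ (0.028 + 0.35 * η) * ((y ^ 2 - 1) / 2) := by
    have : η ≤ (0.028 + 0.35 * η) * (2 + η) := by nlinarith [sq_nonneg (η - 0.4)]
    calc _ ≤ (0.028 + 0.35 * η) * (2 + η) * (y * -u) := by gcongr
      _ = (0.028 + 0.35 * η) * ((2 + η) * (y * -u)) := by ring
      _ ≤ _ := by gcongr
  have a3 : η * (y * u ^ 2) ≤ 0.07 * (y - 1) ^ 2 := by
    have : η ≤ 0.07 * (2 + η) ^ 2 := by nlinarith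
    linarith [mul_le_mul_of_nonneg_right this (by positivity : 0 ≤ y * u ^ 2)]
  have a4 : 0 ≤ 6.6 + (3 - (24 + 4 * η) * y + 16 * y ^ 2) := by
    linarith [mul_nonneg d y0.le, sq_nonneg (y - 1)]
  have G : -Th η y u ≤ -0.25 + 0.1 * η - (2 + 5 * η) * y + 4 * y ^ 2 + 0.462 * (y - 1) ^ 2 +
      (0.028 + 0.35 * η) * ((8 * y - 4) * (y ^ 2 - 1)) := by
    unfold Th TT
    linarith [mul_nonneg a4 (by positivity : 0 ≤ η * (y * u ^ 2)), mul_nonneg h0.le d,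
      mul_le_mul_of_nonneg_left a2 (by linarith : 0 ≤ 16 * y - 8), mul_nonneg (sq_nonneg η) v0]
  have f0 : (1 + (y - 1) / 3) * (-0.25 - 2 * y + 4 * y ^ 2 + 0.462 * (y - 1) ^ 2 +
      0.028 * ((8 * y - 4) * (y ^ 2 - 1))) ≤ 1.9 * y ^ 4 := by
    linarith [pow_nonneg t0 2, pow_nonneg t0 3, pow_nonneg t0 4]
  have f1 : (1 + (y - 1) / 3) * (-0.21 - 4 * y + 4 * y ^ 2 + 0.462 * (y - 1) ^ 2 +
      0.168 * ((8 * y - 4) * (y ^ 2 - 1))) ≤ 1.2 * y ^ 4 := by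
    linarith [mul_nonneg (sq_nonneg (y - 1.97)) (sq_nonneg (y - 1)),
      mul_nonneg (sq_nonneg (y - 1.97)) t0, sq_nonneg (y - 1.97)]
  have f := add_le_add (mul_le_mul_of_nonneg_left f0 d) (mul_le_mul_of_nonneg_left f1 h0.le)
  rcases le_total 0 (Th η y u) with c | c
  · have : 0 ≤ 1.9 - 1.75 * η := by linarith
    have : 0 ≤ z ^ 2 * Th η y u + (1.9 - 1.75 * η) * y ^ 4 := by positivity
    linarith
  · linarith [mul_le_mul hz G (neg_nonneg.2 c) (by linarith)]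

/-- The normalised defect of the small power. -/
noncomputable def uu (η x : ℝ) : ℝ := (1 - x ^ η) / (η * x ^ η)

theorem ptw (h0 : 0 < η) (h1 : η ≤ 0.4) (hx : 0 < x) :
    -((x ^ η) ^ 2 * Th η (x ^ (2 + η)) (uu η x)) ≤ (1.9 - 1.75 * η) * (x ^ (2 + η)) ^ 4 ∧
      (x ≤ 0.55 → 0.185 ≤ kr η x * Th η (x ^ (2 + η)) (uu η x)) := by
  have p0 : 0 < 2 + η := by linarith
  have z0 := Real.rpow_pos_of_pos hx η
  have r0 := Real.rpow_pos_of_pos hx ((2 + η) / 2)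
  have y0 := Real.rpow_pos_of_pos hx (2 + η)
  have al : 0 ≤ 1.9 - 1.75 * η := by linarith
  have ey : x ^ (2 + η) = (x ^ ((2 + η) / 2)) ^ 2 := by
    rw [← rpow_two_mul _ hx]; congr 1; ring
  have eu : 1 - x ^ η = η * x ^ η * uu η x := by unfold uu; field_simp
  have t1 : 2 * (η / (2 + η)) ≤ 1 / 3 := by rw [← mul_div_assoc, div_le_iff₀ p0]; linarith
  have t0 : 0 < η / (2 + η) := by positivity
  have et : η / (2 + η) * (2 + η) = η := by field_simp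
  have b1 := one_sub_rpow_sq_le (θ := 2 * (η / (2 + η))) (by positivity) (by linarith) r0
  have b2 := one_sub_rpow_sq_le t0.le (by linarith) y0
  have b3 := rpow_le_lin (θ := 2 * (η / (2 + η))) (by positivity) (by linarith) y0.le
  rw [← Real.rpow_mul hx.le, show (2 + η) / 2 * (2 * (η / (2 + η))) = η by field_simp] at b1
  rw [← Real.rpow_mul hx.le, mul_comm (2 + η), et] at b2
  rw [← Real.rpow_mul hx.le, show (2 + η) * (2 * (η / (2 + η))) = 2 * η by field_simp,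
    rpow_two_mul _ hx] at b3
  have lo : x ≤ 1 → x ^ η ≤ 1 ∧ x ^ ((2 + η) / 2) ≤ x := fun c => ⟨Real.rpow_le_one hx.le c h0.le,
    by simpa using Real.rpow_le_rpow_of_exponent_ge hx c (by linarith : 1 ≤ (2 + η) / 2)⟩
  have hi : 1 ≤ x → 1 ≤ x ^ η ∧ 1 ≤ x ^ (2 + η) := fun c =>
    ⟨Real.one_le_rpow c h0.le, Real.one_le_rpow c p0.le⟩
  have hk : 1 - (2 - 0.8 * η) * x ^ (2 + η) ≤ kr η x := by
    have : 4 / (2 + η) ≤ 2 - 0.8 * η := by
      rw [div_le_iff₀ p0]; nlinarith [mul_nonneg h0.le (sub_nonneg.2 h1)]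
    have := mul_le_mul_of_nonneg_right this y0.le
    linarith [Real.add_one_le_exp (-(4 / (2 + η)) * x ^ (2 + η)), kr.eq_1 η x]
  have k0 := kr_pos η x
  rw [eu] at b1 b2
  generalize uu η x = u at *
  generalize x ^ η = z at *
  generalize kr η x = k at *
  generalize x ^ (2 + η) = y at *
  generalize x ^ ((2 + η) / 2) = r at *
  generalize η / (2 + η) = θ at *
  have c1 : r * (2 + η) ^ 2 * u ^ 2 ≤ 4 * (1 - r) ^ 2 * (1 + η * u) := by
    refine le_of_mul_le_mul_left ?_ (by positivity : 0 < η ^ 2 * z ^ 2)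
    calc _ = (2 + η) ^ 2 * (r * (η * z * u) ^ 2) := by ring
      _ ≤ (2 + η) ^ 2 * ((2 * θ) ^ 2 * z * (r - 1) ^ 2) := by gcongr
      _ = (θ * (2 + η)) ^ 2 * (4 * z * (r - 1) ^ 2) := by ring
      _ = _ := by rw [et]; linear_combination η ^ 2 * (4 * z * (r - 1) ^ 2) * eu
  have u0 : z ≤ 1 → 0 ≤ u := fun c =>
    nonneg_of_mul_nonneg_right (eu ▸ sub_nonneg.2 c) (mul_pos h0 z0)
  have A : x ≤ 1 → r ≤ 0.55 → 0.185 ≤ k * Th η y u := fun c c2 =>
    algA2 h0 h1 y0.le (by nlinarith) (ey ▸ algA h0 h1 r0 c2 (u0 (lo c).1) c1) hk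
  refine ⟨?_, fun c => A (by linarith) ((lo (by linarith)).2.trans c)⟩
  rcases le_total x 1 with c | c
  · rcases le_total r 0.55 with c2 | c2
    · have := nonneg_of_mul_nonneg_right (le_trans (by norm_num) (A c c2)) k0
      have : 0 ≤ z ^ 2 * Th η y u + (1.9 - 1.75 * η) * y ^ 4 := by positivity
      linarith
    · have b := ey ▸ algB h0 h1 c2 ((lo c).2.trans c) (u0 (lo c).1) c1
      have z2 : z ^ 2 ≤ 1 := pow_le_one₀ z0.le (lo c).1
      have : 0 ≤ (1.9 - 1.75 * η) * y ^ 4 := by positivity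
      linarith [mul_le_mul_of_nonneg_left b (sq_nonneg z), mul_le_mul_of_nonneg_right z2 this]
  · obtain ⟨z1, y1⟩ := hi c
    refine algC h0 h1 y1 (nonpos_of_mul_nonpos_right (eu ▸ sub_nonpos.2 z1) (mul_pos h0 z0)) ?_
      (by nlinarith)
    refine le_of_mul_le_mul_left ?_ (by positivity : 0 < η ^ 2 * z ^ 2)
    calc _ = (2 + η) ^ 2 * (y * (η * z * u) ^ 2) := by ring
      _ ≤ (2 + η) ^ 2 * (θ ^ 2 * z * (y - 1) ^ 2) := by gcongr
      _ = (θ * (2 + η)) ^ 2 * (z * 1) * (y - 1) ^ 2 := by ring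
      _ ≤ (θ * (2 + η)) ^ 2 * (z * z) * (y - 1) ^ 2 := by gcongr
      _ = _ := by rw [et]; ring

theorem m0_le2 (h0 : 0 < η) (h1 : η ≤ 0.4) : m0 η ≤ 0.7325 := by
  have p0 : 0 < 2 + η := by linarith
  have q0 : 5 / 12 ≤ 1 / (2 + η) := by rw [le_div_iff₀ p0]; linarith
  have q1 : 1 / (2 + η) ≤ 1 / 2 := by rw [div_le_iff₀ p0]; linarith
  have g := Full.gamma_le (q := 1 / (2 + η)) (by positivity) q1
  have a : (4 / (2 + η)) ^ (-1 / (2 + η)) ≤ 0.809 := by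
    have b1 : (4 / (2 + η)) ^ (-1 / (2 + η)) ≤ (5 / 3 : ℝ) ^ (-1 / (2 + η)) :=
      Real.rpow_le_rpow_of_nonpos (by norm_num) (by rw [le_div_iff₀ p0]; linarith)
        (by rw [neg_div]; linarith)
    have b2 : (5 / 3 : ℝ) ^ (-1 / (2 + η)) ≤ (5 / 3 : ℝ) ^ (-(5 / 12) : ℝ) :=
      Real.rpow_le_rpow_of_exponent_le (by norm_num) (by rw [neg_div]; linarith)
    refine b1.trans (b2.trans (le_of_pow_le_pow_left₀ (n := 12) (by norm_num) (by norm_num) ?_))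
    rw [← Real.rpow_mul_natCast (by norm_num), show (-(5 / 12) * ((12 : ℕ) : ℝ) : ℝ) = -(5 : ℕ) by
      norm_num, Real.rpow_neg (by norm_num), Real.rpow_natCast]
    norm_num
  have e : m0 η = _ := integral_exp_neg_mul_rpow p0 (by positivity : 0 < 4 / (2 + η))
  rw [e, add_comm (1 / (2 + η))]
  calc _ ≤ 0.809 * (1 - 0.227 * (5 / 12)) :=
        mul_le_mul a (by linarith) (Real.Gamma_pos_of_pos (by positivity)).le (by norm_num)
    _ ≤ _ := by norm_num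

theorem low (h0 : 0 < η) (h1 : η ≤ 0.4) (s : ℝ) : ∃ F : ℝ → ℝ, IntegrableOn F (Ioi 0) ∧
    (∀ x, 0 < x → 0 ≤ F x) ∧
    (∀ x, 0 < x → x ≤ 0.55 → 0.185 * η * (x ^ (η - 2) * (1 - Real.cos (s * x))) ≤ F x) ∧
    ∫ x in Ioi (0 : ℝ), F x ≤
      s * Uf η s + 2 * (m0 η * (η * (1.9 - 1.75 * η) * ((3 + η) * (5 + 2 * η)) / 64)) := by
  have cW : ∀ r, ContinuousOn (Wr η r) (Ioi 0) := fun r =>
    (continuousOn_id.rpow_const fun x hx => Or.inl (ne_of_gt hx)).mul (cont_kr h0).continuousOn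
  have sq : ∀ r x, 0 < x → x ^ 2 * Wr η r x = Wr η (r + 2) x := fun r x hx => by
    rw [Wr_add _ _ hx, Real.rpow_two]
  obtain ⟨i, e⟩ := parts_one_sub (k := Wr η (η - 1)) (int_Wr h0 (by linarith))
    (fun x hx => hasDerivAt_Wr h0 (a := η - 2) (b := η - 2 + (2 + η)) (by ring) (by ring) hx)
    (((cW _).const_smul (η - 1)).add ((cW _).const_smul (-4 : ℝ)))
    (g := fun x => 1 * Wr η (η - 2 + 2) x + 4 * Wr η (η - 2 + (2 + η) + 2) x)
    (((int_Wr h0 (by linarith)).const_mul _).add ((int_Wr h0 (by linarith)).const_mul _))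
    (fun x hx => by
      have a := Wr_pos η (η - 2) hx
      have b := Wr_pos η (η - 2 + (2 + η)) hx
      rw [← sq _ x hx, ← sq _ x hx, abs_of_nonpos (by nlinarith)]
      nlinarith [mul_pos (mul_pos h0 a) (pow_pos hx 2)])
    ((tendsto_Wr h0 (r := η - 1 + 2) (by linarith)).congr' (by
      filter_upwards [self_mem_nhdsWithin] with x hx
      rw [← sq _ x hx, abs_of_pos (Wr_pos _ _ hx)])) s
  have i1 := int_Hk h0 one_pos
  have i2 := int_Hk h0 (r := 1 + η) (by linarith)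
  have i3 := int_Hk h0 (r := 1 + 2 * η) (by linarith)
  have i4 := int_Wr h0 (r := 2 * η) (by linarith)
  have i5 := int_Wr h0 (r := 2 * η + (2 + η)) (by linarith)
  have iH := int_lin3 i1 i2 i3 1 (-2) 1
  have iN := int_lin3 iH i4 i5 1 (η * (1 + 2 * η)) (η * -4)
  obtain ⟨iM, eM⟩ := mom3 h0 0 0 0 (η * (1.9 - 1.75 * η))
  set N := fun x => 1 * (1 * Hk η 1 x + (-2) * Hk η (1 + η) x + 1 * Hk η (1 + 2 * η) x) +
    η * (1 + 2 * η) * Wr η (2 * η) x + η * -4 * Wr η (2 * η + (2 + η)) x with hN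
  set M := fun x => kr η x * (0 + 0 * x ^ (2 + η) + 0 * (x ^ (2 + η)) ^ 2 +
    η * (1.9 - 1.75 * η) * (x ^ (2 + η)) ^ 3) with hM
  have eN : ∀ s, cosT N s = s * Psi η s + η * (s * Sr η (1 + 2 * η) s) := fun s => by
    rw [hN, cosT_lin3 iH i4 i5, cosT_lin3 i1 i2 i3, ← sT h0 one_pos (a := 2) (by ring),
      ← sT h0 (r := 1 + η) (by linarith) (a := 2 + η) (by ring),
      ← sT h0 (r := 1 + 2 * η) (by linarith) (a := 2 + 2 * η) (by ring), Psi,
      P2 h0 (r := 1 + 2 * η) (by linarith) (a := 2 * η) (b := 2 * η + (2 + η)) (by ring) (by ring),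
      Cr, Cr, Cr, Cr, Cr]
    ring
  have al : 0 ≤ 1.9 - 1.75 * η := by linarith
  have M0 : ∀ x, 0 < x → 0 ≤ M x := fun x hx => by
    have := kr_pos η x
    rw [hM]; positivity
  have key : ∀ x, 0 < x → η / 4 * (1 + η) * (-((η - 1) * Wr η (η - 2) x +
      -4 * Wr η (η - 2 + (2 + η)) x) * (1 - Real.cos (s * x))) +
      (N x + M x - (N x * Real.cos (s * x) + M x * Real.cos (s * x))) =
      (η * x ^ (η - 2) * (kr η x * Th η (x ^ (2 + η)) (uu η x)) + M x) *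
        (1 - Real.cos (s * x)) := fun x hx => by
    have z0 := Real.rpow_pos_of_pos hx η
    have e1 : 1 - x ^ η = η * x ^ η * uu η x := by unfold uu; field_simp
    have e2 : (x ^ η) ^ 2 = x ^ (η - 2) * x ^ (2 + η) := by
      rw [← rpow_two_mul _ hx, ← Real.rpow_add hx]; congr 1; ring
    simp only [hN]
    rw [Hk_eq _ _ hx, Hk_eq _ _ hx, Hk_eq _ _ hx, sub_self, add_sub_cancel_left,
      add_sub_cancel_left, Wr_add _ _ hx, Wr_add _ _ hx, Wr, Wr, rpow_two_mul _ hx, Real.rpow_zero]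
    unfold Th TT
    generalize uu η x = u at *
    generalize x ^ η = z at *
    generalize kr η x = k at *
    generalize x ^ (2 + η) = y at *
    linear_combination (1 - Real.cos (s * x)) * k * ((3 - (24 + 4 * η) * y + 16 * y ^ 2) *
      (1 - z + η * z * u) - η * z * (8 + 2 * η - 16 * y)) * e1 + (1 - Real.cos (s * x)) * η * k *
      (1 + 2 * η - 4 * y + η * ((3 - (24 + 4 * η) * y + 16 * y ^ 2) * u ^ 2 -
        (8 + 2 * η - 16 * y) * u + 2)) * e2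
  have j1 : IntegrableOn (fun x => N x + M x) (Ioi 0) := iN.add iM
  have j2 : IntegrableOn (fun x => N x * Real.cos (s * x) + M x * Real.cos (s * x)) (Ioi 0) :=
    (int_cos iN s).add (int_cos iM s)
  have j3 : IntegrableOn (fun x => N x + M x -
    (N x * Real.cos (s * x) + M x * Real.cos (s * x))) (Ioi 0) := j1.sub j2
  refine ⟨_, (i.const_mul (η / 4 * (1 + η))).add j3, fun x hx => ?_, fun x hx x1 => ?_, ?_⟩
  · rw [Pi.add_apply, key x hx]
    refine mul_nonneg ?_ (sub_nonneg.2 (Real.cos_le_one _))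
    have y0 := Real.rpow_pos_of_pos hx (2 + η)
    have e2 : (x ^ η) ^ 2 = x ^ (η - 2) * x ^ (2 + η) := by
      rw [← rpow_two_mul _ hx, ← Real.rpow_add hx]; congr 1; ring
    have a := mul_le_mul_of_nonneg_left (ptw h0 h1 hx).1 (mul_pos h0 (kr_pos η x)).le
    refine nonneg_of_mul_nonneg_right ?_ y0
    rw [e2] at a
    simp only [hM]
    linarith
  · rw [Pi.add_apply, key x hx, ← mul_assoc]
    refine mul_le_mul_of_nonneg_right ?_ (sub_nonneg.2 (Real.cos_le_one _))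
    linarith [M0 x hx, mul_le_mul_of_nonneg_left ((ptw h0 h1 hx).2 x1)
      (mul_pos h0 (Real.rpow_pos_of_pos hx (η - 2))).le]
  · have a := neg_le_of_abs_le (abs_cosT_le iM (fun x hx => (abs_of_nonneg (M0 x hx)).le) s)
    have b := eN 0
    have c := eN s
    have d := P1 h0 h0 (a := η - 1) (b := 1 + 2 * η) (by ring) (by ring) s
    simp only [Pi.add_apply]
    rw [integral_add (i.const_mul _) j3, integral_sub j1 j2, integral_add iN iM,
      integral_add (int_cos iN s) (int_cos iM s), integral_const_mul, ← e, ← cosT, ← cosT,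
      ← cosT_zero N, ← Sr, b, c, U_eq h0, Phi, d]
    rw [eM] at a ⊢
    linarith

end S2PosX

open S2PosX

theorem U_big2 (h0 : 0 < η) (h1 : η ≤ 0.4) (hs : 5.5 ≤ s) : 0 ≤ Uf η s := by
  have s0 : 0 < s := by linarith
  obtain ⟨F, i, F0, F1, e⟩ := low h0 h1 s
  set a := 3 / s with ha
  have a0 : 0 < a := by positivity
  have a1 : a ≤ 6 / 11 := by rw [ha, div_le_iff₀ s0]; linarith
  have j1 := intervalIntegral.intervalIntegrable_rpow' (a := 0) (b := a) (r := η) (by linarith)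
  have j2 := intervalIntegral.intervalIntegrable_rpow' (a := 0) (b := a) (r := η + 2) (by linarith)
  have e1 : ∫ x in Ioc (0 : ℝ) a, 0.185 * η * (s ^ 2 / 2 * x ^ η - s ^ 4 / 24 * x ^ (η + 2)) ≤
      ∫ x in Ioi (0 : ℝ), F x := by
    refine le_trans (setIntegral_mono_on (((j1.const_mul _).sub (j2.const_mul _)).const_mul _).1
      (i.mono_set Ioc_subset_Ioi_self) measurableSet_Ioc fun x hx => ?_)
      (setIntegral_mono_set i ((ae_restrict_iff' measurableSet_Ioi).2 (Eventually.of_forall F0))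
        Ioc_subset_Ioi_self.eventuallyLE)
    have x0 : 0 < x := hx.1
    have w0 := Real.rpow_pos_of_pos x0 (η - 2)
    have c := Ball.cos_le_quartic (s * x)
    refine le_trans ?_ (F1 x x0 (by linarith [hx.2]))
    rw [show x ^ η = x ^ (η - 2) * x ^ 2 by rw [← Real.rpow_two, ← Real.rpow_add x0]; ring_nf,
      show x ^ (η + 2) = x ^ (η - 2) * x ^ 4 by
        rw [← Real.rpow_natCast, ← Real.rpow_add x0]; congr 1; push_cast; ring]
    gcongr _ * ?_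
    linarith [mul_le_mul_of_nonneg_left c w0.le]
  rw [← intervalIntegral.integral_of_le a0.le, intervalIntegral.integral_const_mul,
    intervalIntegral.integral_sub (j1.const_mul _) (j2.const_mul _),
    intervalIntegral.integral_const_mul, intervalIntegral.integral_const_mul,
    integral_rpow (Or.inl (by linarith)), integral_rpow (Or.inl (by linarith)),
    Real.zero_rpow (by linarith), Real.zero_rpow (by linarith), Real.rpow_add_one a0.ne',
    Real.rpow_add_one a0.ne', Real.rpow_add a0, Real.rpow_two] at e1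
  have sa : s * a = 3 := by rw [ha]; field_simp
  have w : 11 / 6 * (1 - 0.6062 * η) * a ≤ a ^ η := by
    have b1 := Real.rpow_le_rpow_of_nonpos a0 a1 (by linarith : η - 1 ≤ 0)
    have l : Real.log (11 / 6) ≤ 0.6062 := by
      rw [Real.log_le_iff_le_exp (by norm_num)]
      refine le_trans ?_ (Real.sum_le_exp_of_nonneg (by norm_num) 7)
      norm_num [Finset.sum_range_succ, Nat.factorial]
    have b2 : 11 / 6 * (1 - 0.6062 * η) ≤ (6 / 11 : ℝ) ^ (η - 1) := by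
      rw [Real.rpow_sub_one (by norm_num), Real.rpow_def_of_pos (by norm_num),
        show (6 / 11 : ℝ) = (11 / 6)⁻¹ by norm_num, Real.log_inv, le_div_iff₀ (by norm_num)]
      nlinarith [Real.add_one_le_exp (-Real.log (11 / 6) * η)]
    rw [Real.rpow_sub_one a0.ne'] at b1
    exact (le_div_iff₀ a0).1 (b2.trans b1)
  have w2 : 5.5 * (1 - 0.6062 * η) ≤ s * a ^ η := by
    calc _ = 11 / 6 * (1 - 0.6062 * η) * (s * a) := by rw [sa]; ring
      _ ≤ _ := by linarith [mul_le_mul_of_nonneg_left w s0.le]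
  have e2 : s ^ 2 / 2 * ((a ^ η * a - 0) / (η + 1)) -
      s ^ 4 / 24 * ((a ^ η * a ^ 2 * a - 0) / (η + 2 + 1)) =
      (s * a ^ η) * (s * a / 2 / (η + 1) - (s * a) ^ 3 / 24 / (η + 3)) := by
    field_simp; ring
  have q : 0.74 ≤ (3 : ℝ) / 2 / (η + 1) - 3 ^ 3 / 24 / (η + 3) := by
    rw [div_sub_div _ _ (by positivity) (by positivity), le_div_iff₀ (by positivity)]
    linarith [mul_nonneg h0.le (sub_nonneg.2 h1)]
  rw [e2, sa] at e1
  have f1 : 5.5 * (1 - 0.6062 * η) * 0.74 ≤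
      s * a ^ η * (3 / 2 / (η + 1) - 3 ^ 3 / 24 / (η + 3)) :=
    mul_le_mul w2 q (by norm_num) (by positivity)
  have f2 : m0 η * (η * (1.9 - 1.75 * η) * ((3 + η) * (5 + 2 * η)) / 64) ≤
      0.7325 * (η * (1.9 - 1.75 * η) * ((3 + η) * (5 + 2 * η)) / 64) := by
    have : 0 ≤ 1.9 - 1.75 * η := by linarith
    gcongr; exact m0_le2 h0 h1
  have b := bern6 h0.le h1
  have f3 : 2 * (0.7325 * ((1.9 - 1.75 * η) * ((3 + η) * (5 + 2 * η)) / 64)) ≤
      0.185 * (5.5 * (1 - 0.6062 * η) * 0.74) := by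
    linarith [b 0 3, b 1 2, b 2 1, b 3 0]
  refine nonneg_of_mul_nonneg_right ?_ s0
  linarith [mul_le_mul_of_nonneg_left f1 h0.le, mul_le_mul_of_nonneg_left f3 h0.le]

end Pool.Agent.MP_39fec4_gt.Small
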