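import Pool.Agent.MP_39fec4_gt.STr

set_option autoImplicit false

namespace Pool.Agent.MP_39fec4_gt.Small

open MeasureTheory Set Filter Topology Real

variable {η s w : ℝ}

namespace S2PsiX

theorem sin_le5 (hw : 0 ≤ w) : Real.sin w ≤ w - w ^ 3 / 6 + w ^ 5 / 120 := by
  have := nonneg_of_deriv (f := fun y => y - y ^ 3 / 6 + y ^ 5 / 120 - Real.sin y)
    (f' := fun y => 1 - y ^ 2 / 2 + y ^ 4 / 24 - Real.cos y) (fun x => by
      have := (((hasDerivAt_id x).sub ((hasDerivAt_pow 3 x).div_const 6)).add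
        ((hasDerivAt_pow 5 x).div_const 120)).sub (Real.hasDerivAt_sin x)
      refine this.congr_deriv ?_
      simp; ring) (by simp) (fun x _ => by linarith [Ball.cos_le_quartic x]) hw
  linarith

theorem phi_le7 (hw : 0 ≤ w) :
    Real.sin w - w * Real.cos w ≤ w * (w ^ 2 / 3 - (w ^ 2) ^ 2 / 30 + (w ^ 2) ^ 3 / 840) := by
  have := nonneg_of_deriv
    (f := fun y => y ^ 3 / 3 - y ^ 5 / 30 + y ^ 7 / 840 - (Real.sin y - y * Real.cos y))
    (f' := fun y => y * (y - y ^ 3 / 6 + y ^ 5 / 120 - Real.sin y)) (fun x => by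
      have := ((((hasDerivAt_pow 3 x).div_const 3).sub ((hasDerivAt_pow 5 x).div_const 30)).add
        ((hasDerivAt_pow 7 x).div_const 840)).sub ((Real.hasDerivAt_sin x).sub
          ((hasDerivAt_id x).mul (Real.hasDerivAt_cos x)))
      refine this.congr_deriv ?_
      simp; ring) (by simp) (fun x hx => mul_nonneg hx.le (by linarith [sin_le5 hx.le])) hw
  linarith

theorem phi_sq (w : ℝ) : (Real.sin w - w * Real.cos w) ^ 2 ≤ 1 + w ^ 2 := by
  have := Real.sin_sq_add_cos_sq w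
  have e : (Real.sin w - w * Real.cos w) ^ 2 + (Real.cos w + w * Real.sin w) ^ 2 = 1 + w ^ 2 := by
    linear_combination (1 + w ^ 2) * this
  nlinarith [sq_nonneg (Real.cos w + w * Real.sin w)]

theorem mid {t : ℝ} (h0 : 0 ≤ t) (h1 : t ≤ 1.11) (h2 : 4.7123 + t ≤ w) (h3 : w ≤ 4.7124 + t) :
    Real.cos t + w * Real.sin t ≤ 0.03 * w ^ 3 := by
  have q : t ^ 2 ≤ 1.2321 := by nlinarith
  have a : Real.cos t ≤ 1 - 0.448 * t ^ 2 := by
    nlinarith [Ball.cos_le_quartic t, mul_le_mul_of_nonneg_left q (sq_nonneg t)]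
  have b : Real.sin t ≤ t - 0.156 * t ^ 3 := by
    nlinarith [sin_le5 h0, mul_le_mul_of_nonneg_left q (pow_nonneg h0 3), pow_nonneg h0 3]
  have b0 : 0 ≤ t - 0.156 * t ^ 3 := by nlinarith [mul_le_mul_of_nonneg_left q h0]
  have c : w * Real.sin t ≤ (4.7124 + t) * (t - 0.156 * t ^ 3) :=
    (mul_le_mul_of_nonneg_left b (by linarith)).trans (mul_le_mul_of_nonneg_right h3 b0)
  have d : (4.7123 + t) ^ 3 ≤ w ^ 3 := pow_le_pow_left₀ (by linarith) h2 3
  have e : 1 - 0.448 * t ^ 2 + (4.7124 + t) * (t - 0.156 * t ^ 3) ≤ 0.03 * (4.7123 + t) ^ 3 := by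
    nlinarith [mul_nonneg h0 (sq_nonneg (t - 1)), sq_nonneg (t ^ 2 - 1), sq_nonneg (t - 1)]
  linarith

/-- Pointwise bounds on `x ^ 2 (1 - z) ^ 2` and on `x ^ 2`. -/
theorem pw {x θ : ℝ} (h0 : 0 < η) (h1 : η ≤ 0.4) (hθ : θ = η / (2 + η)) (hx : 0 < x) :
    x ^ 2 * (1 - x ^ η) ^ 2 ≤ θ ^ 2 * (x ^ (2 + η) - 1) ^ 2 ∧
    x ^ 2 ≤ (1 + 1.56 * θ) * ((1 - θ) * x ^ (2 + η) + θ / 4) := by
  have t0 : 0 < θ := by rw [hθ]; positivity
  have t1 : 6 * θ ≤ 1 := by
    rw [hθ, ← mul_div_assoc, div_le_one (by positivity)]; linarith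
  have y0 := Real.rpow_pos_of_pos hx (2 + η)
  have z0 := Real.rpow_pos_of_pos hx η
  have ez : x ^ η = (x ^ (2 + η)) ^ θ := by
    rw [← Real.rpow_mul hx.le, hθ]; congr 1; field_simp
  have ey : x ^ (2 + η) = x ^ 2 * x ^ η := by rw [Real.rpow_add hx, Real.rpow_two]
  generalize x ^ (2 + η) = y at *
  generalize x ^ η = z at *
  constructor
  · have := one_sub_rpow_sq_le t0.le (by linarith) y0
    rw [← ez] at this
    refine le_of_mul_le_mul_left ?_ z0
    calc z * (x ^ 2 * (1 - z) ^ 2) = y * (1 - z) ^ 2 := by rw [ey]; ring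
      _ ≤ _ := this
      _ = _ := by ring
  · have inv : 1 ≤ z * (4 ^ θ * (1 + θ * ((4 * y)⁻¹ - 1))) := by
      have := rpow_le_lin t0.le (by linarith) (inv_pos.2 (mul_pos four_pos y0)).le
      have e : z * (4 ^ θ * (4 * y)⁻¹ ^ θ) = 1 := by
        rw [ez, Real.inv_rpow (by positivity), Real.mul_rpow four_pos.le y0.le]
        have := Real.rpow_pos_of_pos four_pos θ
        have := Real.rpow_pos_of_pos y0 θ
        field_simp
      have := Real.rpow_pos_of_pos four_pos θ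
      refine e.ge.trans ?_
      gcongr
    have := mul_le_mul_of_nonneg_left inv (sq_nonneg x)
    have e : x ^ 2 * (z * (4 ^ θ * (1 + θ * ((4 * y)⁻¹ - 1)))) =
        4 ^ θ * ((1 - θ) * y + θ / 4) := by
      rw [← mul_assoc, ← ey]; field_simp; ring
    have f : (4 : ℝ) ^ θ ≤ 1 + 1.56 * θ := by
      have a : (4 : ℝ) ^ θ ≤ ((1.26 : ℝ) ^ (6 : ℕ)) ^ θ :=
        Real.rpow_le_rpow (by norm_num) (by norm_num) t0.le
      rw [← Real.rpow_natCast_mul (by norm_num)] at a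
      have b := rpow_le_lin (θ := 6 * θ) (y := 1.26) (by positivity) t1 (by norm_num)
      push_cast at a
      linarith
    have g : 0 ≤ (1 - θ) * y + θ / 4 := by
      have : 0 ≤ 1 - θ := by linarith
      positivity
    rw [e, mul_one] at this
    exact this.trans (mul_le_mul_of_nonneg_right f g)

theorem core (h0 : 0 < η) (h1 : η ≤ 0.4) (hs : 0 ≤ s) {e a b : ℝ} (ha : 0 ≤ a) (hb : 0 ≤ b)
    (h : ∀ w : ℝ, 0 ≤ w → e * (Real.sin w - w * Real.cos w) ≤ a * w + b * w ^ 3) :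
    e * Psi η s ≤
      (a * s * (0.172 - 0.12 * η) + b * s ^ 3 * (0.028 + 0.008 * η)) * (η ^ 2 * m0 η) := by
  have i := fun r (hr : -1 < r) => int_Wr h0 hr
  have i1 := i 1 (by norm_num)
  have i2 := i (1 + η) (by linarith)
  have i3 := i (1 + 2 * η) (by linarith)
  have j1 := i 2 (by norm_num)
  have j2 := i (2 + η) (by linarith)
  have j3 := i (2 + 2 * η) (by linarith)
  have hk := int_lin3 i1 i2 i3 1 (-2) 1
  have hl := int_lin3 j1 j2 j3 1 (-2) 1
  obtain ⟨θ, hθ⟩ : ∃ θ, θ = η / (2 + η) := ⟨_, rfl⟩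
  have t0 : 0 < θ := by rw [hθ]; positivity
  obtain ⟨A, hA⟩ : ∃ A, A = a * s * θ ^ 2 := ⟨_, rfl⟩
  obtain ⟨B, hB⟩ : ∃ B, B = b * s ^ 3 * (θ ^ 2 * (1 + 1.56 * θ)) := ⟨_, rfl⟩
  obtain ⟨m1, m2⟩ := mom3 h0 (A + B * (θ / 4)) (-2 * A + B * (1 - θ - θ / 2))
    (A + B * (θ / 4 - 2 * (1 - θ))) (B * (1 - θ))
  have e1 : Psi η s = sinT (fun x => 1 * Wr η 1 x + (-2) * Wr η (1 + η) x +
      1 * Wr η (1 + 2 * η) x) s - s * cosT (fun x => 1 * Wr η 2 x + (-2) * Wr η (2 + η) x +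
      1 * Wr η (2 + 2 * η) x) s := by
    rw [sinT_lin3 i1 i2 i3, cosT_lin3 j1 j2 j3]; unfold Psi Sr Cr; ring
  rw [e1]
  unfold cosT sinT
  rw [← integral_const_mul, ← integral_sub (int_sin hk s) ((int_cos hl s).const_mul s),
    ← integral_const_mul]
  refine (setIntegral_mono_on (((int_sin hk s).sub ((int_cos hl s).const_mul s)).const_mul e) m1
    measurableSet_Ioi fun x hx => ?_).trans ?_
  · have hx : 0 < x := hx
    obtain ⟨p1, p2⟩ := pw h0 h1 hθ hx
    have k0 := kr_pos η x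
    have hw := h (s * x) (by positivity)
    simp only [Pi.sub_apply]
    rw [Wr_add 1 η hx, Wr_add 1 (2 * η) hx, Wr_add 2 η hx, Wr_add 2 (2 * η) hx,
      rpow_two_mul η hx, W_one, W_two]
    generalize x ^ (2 + η) = y at *
    generalize x ^ η = z at *
    have c1 : x ^ 2 * (x ^ 2 * (1 - z) ^ 2) ≤
        (1 + 1.56 * θ) * ((1 - θ) * y + θ / 4) * (θ ^ 2 * (y - 1) ^ 2) :=
      mul_le_mul p2 p1 (by positivity) ((sq_nonneg x).trans p2)
    have c2 := mul_le_mul_of_nonneg_left hw (by positivity : 0 ≤ x * (1 - z) ^ 2)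
    have c3 := mul_le_mul_of_nonneg_left p1 (by positivity : 0 ≤ a * s)
    have c4 := mul_le_mul_of_nonneg_left c1 (by positivity : 0 ≤ b * s ^ 3)
    have c5 : x * (1 - z) ^ 2 * (e * (Real.sin (s * x) - s * x * Real.cos (s * x))) ≤
        A + B * (θ / 4) + (-2 * A + B * (1 - θ - θ / 2)) * y +
          (A + B * (θ / 4 - 2 * (1 - θ))) * y ^ 2 + B * (1 - θ) * y ^ 3 := by
      rw [hA, hB]; linarith
    refine le_trans (le_of_eq ?_) (mul_le_mul_of_nonneg_left c5 k0.le)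
    ring
  · rw [m2]
    have m := m0_pos h0
    have p0 : 0 < 2 + η := by linarith
    have e2 : A + B * (θ / 4) + (-2 * A + B * (1 - θ - θ / 2)) / 4 +
        (A + B * (θ / 4 - 2 * (1 - θ))) * (3 + η) / 16 +
        B * (1 - θ) * ((3 + η) * (5 + 2 * η)) / 64 =
        η ^ 2 * (a * s * ((11 + η) / 16 / (2 + η) ^ 2) +
          b * s ^ 3 * ((2 + 2.56 * η) * (7 + 5 * η) / 64 / (2 + η) ^ 3)) := by
      rw [hA, hB, hθ]; field_simp; ring
    have f1 : (11 + η) / 16 / (2 + η) ^ 2 ≤ 0.172 - 0.12 * η := by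
      rw [div_le_iff₀ (by positivity)]
      nlinarith [mul_nonneg h0.le (sub_nonneg.2 h1), mul_nonneg (sq_nonneg η) (sub_nonneg.2 h1)]
    have f2 : (2 + 2.56 * η) * (7 + 5 * η) / 64 / (2 + η) ^ 3 ≤ 0.028 + 0.008 * η := by
      rw [div_le_iff₀ (by positivity)]
      nlinarith [sq_nonneg (η - 0.283), pow_pos h0 3, pow_pos h0 4]
    rw [e2]
    calc m0 η * (η ^ 2 * (a * s * ((11 + η) / 16 / (2 + η) ^ 2) +
          b * s ^ 3 * ((2 + 2.56 * η) * (7 + 5 * η) / 64 / (2 + η) ^ 3)))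
        ≤ m0 η * (η ^ 2 * (a * s * (0.172 - 0.12 * η) + b * s ^ 3 * (0.028 + 0.008 * η))) := by
          gcongr
      _ = _ := by ring

end S2PsiX

open S2PsiX

theorem phi_lo (hw : 0 ≤ w) : -(0.03 * w ^ 3) ≤ Real.sin w - w * Real.cos w := by
  have p1 := Real.pi_gt_d4
  have p2 := Real.pi_lt_d4
  have w3 := pow_nonneg hw 3
  rcases le_total w 2 with a | a
  · have q : w ^ 2 ≤ 4 := by nlinarith
    nlinarith [Real.sin_ge_sub_cube hw, mul_le_mul_of_nonneg_left (Ball.cos_le_quartic w) hw,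
      mul_le_mul_of_nonneg_left q w3]
  rcases le_total w (π + π / 2) with b | b
  · have c := mul_nonpos_of_nonneg_of_nonpos hw
      (Real.cos_nonpos_of_pi_div_two_le_of_le (x := w) (by linarith) b)
    rcases le_total w π with d | d
    · linarith [Real.sin_nonneg_of_nonneg_of_le_pi hw d]
    rcases le_total w 3.22 with f | f
    · have g := Real.sin_le (x := w - π) (by linarith)
      rw [Real.sin_sub_pi] at g
      have : (2 : ℝ) ^ 3 ≤ w ^ 3 := pow_le_pow_left₀ (by norm_num) a 3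
      linarith
    · have : (3.22 : ℝ) ^ 3 ≤ w ^ 3 := pow_le_pow_left₀ (by norm_num) f 3
      linarith [Real.neg_one_le_sin w]
  rcases le_total w 5.82 with c | c
  · have q1 := Real.pi_gt_d6
    have q2 := Real.pi_lt_d6
    have := mid (w := w) (t := w - (π + π / 2)) (by linarith) (by linarith) (by linarith)
      (by linarith)
    rw [← sub_sub, Real.cos_sub_pi_div_two, Real.sin_sub_pi_div_two, Real.sin_sub_pi,
      Real.cos_sub_pi] at this
    linarith
  · have q : (5.82 : ℝ) ^ 2 ≤ w ^ 2 := pow_le_pow_left₀ (by norm_num) c 2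
    have r : 1 + w ^ 2 ≤ (0.03 * w ^ 3) ^ 2 := by
      have e : (0.03 * w ^ 3) ^ 2 = 0.0009 * (w ^ 2) ^ 3 := by ring
      rw [e]
      generalize w ^ 2 = u at q
      have q' : 0 ≤ u - 33.87 := by norm_num at q; linarith
      nlinarith [pow_nonneg q' 2, pow_nonneg q' 3]
    exact neg_le_of_abs_le (abs_le_of_sq_le_sq ((phi_sq w).trans r) (by positivity))

theorem phi_lin (hw : 0 ≤ w) : Real.sin w - w * Real.cos w ≤ 1.08 * w + 0 * w ^ 3 := by
  rw [zero_mul, add_zero]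
  rcases le_total (w ^ 2) 6.05 with a | a
  · refine (phi_le7 hw).trans ?_
    rw [mul_comm 1.08]
    refine mul_le_mul_of_nonneg_left ?_ hw
    have := sq_nonneg w
    generalize w ^ 2 = u at *
    nlinarith [mul_nonneg (sub_nonneg.2 a) (sq_nonneg (u - 11)), sub_nonneg.2 a]
  · exact le_of_abs_le (abs_le_of_sq_le_sq ((phi_sq w).trans (by nlinarith)) (by positivity))

theorem phi_mix (hw : 0 ≤ w) : Real.sin w - w * Real.cos w ≤ 0.49 * w + 0.1 * w ^ 3 := by
  rcases le_total (w ^ 2) 5.9 with a | a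
  · refine (phi_le7 hw).trans ?_
    rw [show 0.49 * w + 0.1 * w ^ 3 = w * (0.49 + 0.1 * w ^ 2) by ring]
    refine mul_le_mul_of_nonneg_left ?_ hw
    have := sq_nonneg w
    generalize w ^ 2 = u at *
    nlinarith [mul_nonneg (sub_nonneg.2 a) (sq_nonneg (u - 14 / 3)), sq_nonneg (u - 14 / 3)]
  · nlinarith [phi_lin hw, mul_le_mul_of_nonneg_left a hw]

theorem Psi_lo (h0 : 0 < η) (h1 : η ≤ 0.4) (hs : 0 ≤ s) :
    -(0.03 * s ^ 3 * (0.028 + 0.008 * η) * (η ^ 2 * m0 η)) ≤ Psi η s := by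
  have := core h0 h1 hs (e := -1) (a := 0) (b := 0.03) le_rfl (by norm_num)
    fun w hw => by linarith [phi_lo hw]
  linarith

theorem Psi_hi (h0 : 0 < η) (h1 : η ≤ 0.4) (hs : 0 ≤ s) {a b : ℝ} (ha : 0 ≤ a) (hb : 0 ≤ b)
    (h : ∀ w : ℝ, 0 ≤ w → Real.sin w - w * Real.cos w ≤ a * w + b * w ^ 3) :
    Psi η s ≤ (a * s * (0.172 - 0.12 * η) + b * s ^ 3 * (0.028 + 0.008 * η)) * (η ^ 2 * m0 η) := by
  have := core h0 h1 hs (e := 1) ha hb fun w hw => by linarith [h w hw]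
  linarith

end Pool.Agent.MP_39fec4_gt.Small
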