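import Pool.Agent.MP_39fec4_gt.SPack
import Pool.Agent.MP_39fec4_gt.Elem

set_option autoImplicit false

namespace Pool.Agent.MP_39fec4_gt.Small

open MeasureTheory Set Filter Topology Real

/-- The profile `exp (-τ) E τ`. -/
noncomputable def GG (E : ℝ → ℝ) (τ : ℝ) : ℝ := Real.exp (-τ) * E τ

variable {E D Q : ℝ → ℝ} {η τ u v t : ℝ}

theorem abs_GG (E : ℝ → ℝ) (τ : ℝ) : |GG E τ| = Real.exp (-τ) * |E τ| := by
  rw [GG, abs_mul, abs_of_pos (Real.exp_pos _)]

theorem exp_neg_mul_exp (τ : ℝ) : Real.exp (-τ) * Real.exp τ = 1 := by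
  rw [← Real.exp_add, neg_add_cancel, Real.exp_zero]

theorem Pk.G_decay (h : Pk E D Q η) (hτ : 0 ≤ τ) : (1 + τ) * |GG E τ| ≤ 2 := by
  have a := mul_le_mul_of_nonneg_left (h.E_bound hτ) (Real.exp_pos (-τ)).le
  have b := mul_le_mul_of_nonneg_left (Real.add_one_le_exp τ) (Real.exp_pos (-τ)).le
  have c := exp_neg_mul_exp τ
  rw [abs_GG]
  nlinarith [h.h1]

theorem Pk.G_neg (h : Pk E D Q η) (hτ : 0 ≤ τ) (hE : E τ < 0) :
    |GG E τ| ≤ 2 * η / (τ * √τ) := by
  rw [abs_GG]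
  calc _ ≤ Real.exp (-τ) * (2 * η * env τ) := by gcongr; exact (h.E_neg hτ hE).2
    _ = 2 * η * (Real.exp (-τ) * Real.exp τ) / (τ * √τ) := by rw [env]; ring
    _ = _ := by rw [exp_neg_mul_exp, mul_one]

theorem Pk.G_small (h : Pk E D Q η) (hτ : 0 ≤ τ) {y : ℝ} (h1 : y ≤ τ) (h2 : y ≤ 1) :
    |GG E τ| ≤ Real.exp (-y) := by
  rcases le_or_gt 0 (E τ) with c | c
  · rw [abs_GG, abs_of_nonneg c]
    exact (mul_le_of_le_one_right (Real.exp_pos _).le (h.E_le_one hτ)).trans
      (Real.exp_le_exp.2 (by linarith))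
  · have a := (h.E_neg hτ c).1
    have b : 2 ≤ √τ := sqrt_four ▸ Real.sqrt_le_sqrt a
    refine (h.G_neg hτ c).trans (le_trans ?_ (Real.exp_le_exp.2 (neg_le_neg h2)))
    rw [div_le_iff₀ (by positivity)]
    have := Real.exp_neg_one_gt_d9
    have : 4 * 2 ≤ τ * √τ := by gcongr
    nlinarith [h.h1]

theorem Pk.G_le_one (h : Pk E D Q η) (hτ : 0 ≤ τ) : |GG E τ| ≤ 1 := by
  simpa using h.G_small hτ (y := 0) hτ zero_le_one

theorem Pk.cont_G (h : Pk E D Q η) : Continuous (GG E) := by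
  have := h.cE
  unfold GG; fun_prop

theorem Pk.Om_crude (h : Pk E D Q η) (hu : 0 ≤ u) (hv : 0 ≤ v) :
    (1 + u) * (Real.exp (-(u + v)) * |Om E D u v|) ≤ 3 := by
  have d : ∀ w, 0 ≤ w → (1 + w) * (Real.exp (-w) * D w) ≤ 1 := fun w hw => by
    have a := mul_le_mul_of_nonneg_left (h.D_bound hw) (Real.exp_pos (-w)).le
    have c := exp_neg_mul_exp w
    nlinarith [h.h1]
  have p : ∀ w, 0 ≤ w → 0 ≤ Real.exp (-w) * D w := fun w hw =>
    mul_nonneg (Real.exp_pos _).le (h.D_nonneg hw)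
  have d2 : Real.exp (-v) * D v ≤ 1 := by nlinarith [d v hv, p v hv]
  have o : |Om E D u v| ≤ D u * |E v| + |E u| * D v := by
    refine (abs_sub _ _).trans (le_of_eq ?_)
    rw [abs_mul, abs_mul, abs_of_nonneg (h.D_nonneg hu), abs_of_nonneg (h.D_nonneg hv)]
  calc _ ≤ (1 + u) * (Real.exp (-(u + v)) * (D u * |E v| + |E u| * D v)) := by gcongr
    _ = (1 + u) * (Real.exp (-u) * D u) * |GG E v| +
        (1 + u) * |GG E u| * (Real.exp (-v) * D v) := by
      rw [abs_GG, abs_GG, neg_add, Real.exp_add]; ring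
    _ ≤ 1 * 1 + 2 * 1 := by
      gcongr
      exacts [d u hu, h.G_le_one hv, p v hv, h.G_decay hu]
    _ = 3 := by norm_num

theorem one_sub_sum_le {ι : Type*} (T : Finset ι) {y z : ι → ℝ} (hy : ∀ k ∈ T, 0 ≤ y k)
    (hz : ∀ k ∈ T, 1 - y k ≤ z k) (h0 : ∀ k ∈ T, 0 ≤ z k) : 1 - ∑ k ∈ T, y k ≤ ∏ k ∈ T, z k := by
  classical
  induction T using Finset.induction_on with
  | empty => simp
  | insert i T hi ih =>
    have ih := ih (fun k hk => hy k (Finset.mem_insert_of_mem hk))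
      (fun k hk => hz k (Finset.mem_insert_of_mem hk)) fun k hk => h0 k (Finset.mem_insert_of_mem hk)
    have a := hy i (Finset.mem_insert_self i T)
    have b := hz i (Finset.mem_insert_self i T)
    have c := h0 i (Finset.mem_insert_self i T)
    have d : 0 ≤ ∑ k ∈ T, y k := Finset.sum_nonneg fun k hk => hy k (Finset.mem_insert_of_mem hk)
    have e : 0 ≤ ∏ k ∈ T, z k := Finset.prod_nonneg fun k hk => h0 k (Finset.mem_insert_of_mem hk)
    rw [Finset.sum_insert hi, Finset.prod_insert hi]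
    rcases le_total 1 (∑ k ∈ T, y k) with f | f
    · nlinarith [mul_nonneg c e]
    · nlinarith [mul_le_mul_of_nonneg_left ih c, mul_le_mul_of_nonneg_right b (sub_nonneg.2 f),
        mul_nonneg a d]

theorem factor_le {a M : ℝ} (hM : 0 < M) (hMa : M ≤ a) (hs : a + M ≤ 1) :
    Real.exp (-((1 - a - M) / M)) ≤ 6.1 * (a ^ 2 * √a) := by
  have a0 : 0 < a := hM.trans_le hMa
  rcases le_total (1 / 2) a with c | c
  · have s : 0.7 ≤ √a := Real.le_sqrt_of_sq_le (by linarith)
    have : (1 / 2) ^ 2 * 0.7 ≤ a ^ 2 * √a := by gcongr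
    have : Real.exp (-((1 - a - M) / M)) ≤ 1 :=
      Real.exp_le_one_iff.2 (neg_nonpos.2 (div_nonneg (by linarith) hM.le))
    linarith
  · have e1 : 1 / a - 2 ≤ (1 - a - M) / M := by
      rw [le_div_iff₀ hM]
      have : (1 / a - 1) * M ≤ (1 / a - 1) * a := by
        have : 0 ≤ 1 / a - 1 := by rw [sub_nonneg, le_div_iff₀ a0]; linarith
        gcongr
      have e : (1 / a - 1) * a = 1 - a := by field_simp
      linarith
    refine (Real.exp_le_exp.2 (neg_le_neg e1)).trans (le_of_sq_le_sq ?_ (by positivity))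
    rw [mul_pow, mul_pow, Real.sq_sqrt a0.le]
    have b : (2 / 5 * (1 / a)) ^ 5 ≤ Real.exp (2 / 5 * (1 / a) - 1) ^ 5 := by
      gcongr; linarith [Real.add_one_le_exp (2 / 5 * (1 / a) - 1)]
    have e2 : Real.exp (-(1 / a - 2)) ^ 2 * Real.exp (2 / 5 * (1 / a) - 1) ^ 5 = Real.exp (-1) := by
      rw [← Real.exp_nat_mul, ← Real.exp_nat_mul, ← Real.exp_add]; congr 1; push_cast; ring
    have e3 := Real.exp_neg_one_lt_d9
    have e4 := mul_le_mul_of_nonneg_left b (sq_nonneg (Real.exp (-(1 / a - 2))))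
    have e5 := mul_le_mul_of_nonneg_right (e4.trans (e2.le.trans e3.le)) (pow_pos a0 5).le
    have e6 : Real.exp (-(1 / a - 2)) ^ 2 * (2 / 5 * (1 / a)) ^ 5 * a ^ 5 =
        32 / 3125 * Real.exp (-(1 / a - 2)) ^ 2 := by field_simp; ring
    nlinarith [pow_pos a0 5]

/-- The configuration at which the exchange step is made. -/
structure Cfg {ι : Type*} (T : Finset ι) (x : ι → ℝ) (a b : ℝ) (k : ι) : Prop where
  hb : 0 ≤ b
  hab : b < a
  hk : k ∈ T
  hM : 0 < x k
  hbM : b ≤ x k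
  hMa : x k ≤ a
  h0 : ∀ j ∈ T, 0 ≤ x j
  h1 : ∀ j ∈ T, x j ≤ x k
  hs : a + b + ∑ j ∈ T, x j = 1

/-- The derivative of the integrand along the exchange. -/
noncomputable def BB {ι : Type*} (E D : ℝ → ℝ) (T : Finset ι) (x : ι → ℝ) (a b t : ℝ) : ℝ :=
  t * (Real.exp (-(a * t + b * t)) * Om E D (a * t) (b * t)) * ∏ j ∈ T, GG E (x j * t)

variable {ι : Type*} {T : Finset ι} {x : ι → ℝ} {a b : ℝ} {k : ι}

theorem Pk.B_nonneg (h : Pk E D Q η) (c : Cfg T x a b k) (ht : 0 ≤ t) (hE : 0 ≤ E (x k * t)) :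
    0 ≤ BB E D T x a b t := by
  have v0 := mul_nonneg c.hb ht
  have uv := mul_le_mul_of_nonneg_right c.hab.le ht
  have e := hE.trans (h.E_anti v0 (mul_le_mul_of_nonneg_right c.hbM ht))
  have o := (mul_nonneg e (sub_nonneg.2 (h.D_mono v0 uv))).trans (h.Om_ge v0 uv)
  have : 0 ≤ ∏ j ∈ T, GG E (x j * t) := Finset.prod_nonneg fun j hj =>
    mul_nonneg (Real.exp_pos _).le (hE.trans (h.E_anti (mul_nonneg (c.h0 j hj) ht)
      (mul_le_mul_of_nonneg_right (c.h1 j hj) ht)))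
  unfold BB; positivity

theorem Cfg.le_one (c : Cfg T x a b k) : a + x k ≤ 1 := by
  have := Finset.single_le_sum c.h0 c.hk
  linarith [c.hs, c.hb]

theorem Pk.B_head (h : Pk E D Q η) (c : Cfg T x a b k) (ht : 0 ≤ t) (h3 : t ≤ 2.89) :
    (a - b) * η * 0.0309 * (t ^ 2 * (3 - t)) ≤ BB E D T x a b t := by
  have h0 := h.h0
  have a1 : a ≤ 1 := by linarith [c.le_one, c.hM]
  have ab := sub_pos.2 c.hab
  have v0 := mul_nonneg c.hb ht
  have uv := mul_le_mul_of_nonneg_right c.hab.le ht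
  have u3 : a * t ≤ 3 := by nlinarith
  have x3 : ∀ j ∈ T, x j * t ≤ 3 := fun j hj =>
    (mul_le_mul_of_nonneg_right ((c.h1 j hj).trans c.hMa) ht).trans u3
  have ev := h.E_nonneg v0 (by linarith)
  have o := (mul_le_mul_of_nonneg_left (h.D_gain v0 uv u3) ev).trans (h.Om_ge v0 uv)
  have p := one_sub_sum_le T (y := fun j => 0.09 * (x j * t)) (z := fun j => E (x j * t))
    (fun j hj => by have := c.h0 j hj; positivity)
    (fun j hj => by linarith [h.E_head (mul_nonneg (c.h0 j hj) ht) (x3 j hj)])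
    fun j hj => h.E_nonneg (mul_nonneg (c.h0 j hj) ht) (by linarith [x3 j hj])
  rw [← Finset.mul_sum, ← Finset.sum_mul] at p
  have S0 : 0 ≤ ∑ j ∈ T, x j := Finset.sum_nonneg c.h0
  have eS : ∑ j ∈ T, x j = 1 - a - b := by linarith [c.hs]
  rw [eS] at p S0
  have q : 0.7399 ≤ E (b * t) * ∏ j ∈ T, E (x j * t) := by
    have e1 := h.E_head v0 (by linarith)
    have e2 : (1 - a - b) * t ≤ t - b * t := by nlinarith [mul_nonneg (c.hb.trans c.hab.le) ht]
    have e3 := mul_nonneg S0 ht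
    have : (1 - 0.09 * (b * t)) * (1 - 0.09 * ((1 - a - b) * t)) ≤
        E (b * t) * ∏ j ∈ T, E (x j * t) := by
      gcongr <;> linarith
    nlinarith [mul_nonneg v0 e3]
  have r : 0.135 * (3 - t) ≤ Real.exp (-t) := by
    have e1 := Real.add_one_le_exp (2 - t)
    have e2 : Real.exp (-t) = Real.exp (-1) ^ 2 * Real.exp (2 - t) := by
      rw [← Real.exp_nat_mul, ← Real.exp_add]; congr 1; push_cast; ring
    have e3 := pow_le_pow_left₀ (by norm_num) Real.exp_neg_one_gt_d9.le 2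
    rw [e2]
    gcongr <;> linarith
  have P0 : 0 ≤ ∏ j ∈ T, E (x j * t) := Finset.prod_nonneg fun j hj =>
    h.E_nonneg (mul_nonneg (c.h0 j hj) ht) (by linarith [x3 j hj])
  have e : BB E D T x a b t = t * Real.exp (-t) * (Om E D (a * t) (b * t) *
      ∏ j ∈ T, E (x j * t)) := by
    simp only [BB, GG, Finset.prod_mul_distrib]
    rw [← Real.exp_sum, Finset.sum_neg_distrib, ← Finset.sum_mul, eS,
      show -t = -(a * t + b * t) + -((1 - a - b) * t) by ring, Real.exp_add]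
    ring
  have t3 : 0 ≤ 3 - t := by linarith
  calc _ ≤ (a - b) * η * (0.135 * 0.31 * 0.7399) * (t ^ 2 * (3 - t)) := by gcongr; norm_num
    _ = t * (0.135 * (3 - t)) * ((a - b) * t * (0.31 * η) * 0.7399) := by ring
    _ ≤ t * Real.exp (-t) * ((a - b) * t * (0.31 * η) * (E (b * t) * ∏ j ∈ T, E (x j * t))) := by
      gcongr
    _ = t * Real.exp (-t) * (E (b * t) * ((a * t - b * t) * (0.31 * η)) *
        ∏ j ∈ T, E (x j * t)) := by ring
    _ ≤ _ := by rw [e]; gcongr

theorem Pk.B_tail (h : Pk E D Q η) (c : Cfg T x a b k) {s : ℝ} (hs : 0 < s)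
    (hE : E (x k * s ^ 2) < 0) :
    |BB E D T x a b (s ^ 2)| ≤ (a - b) * η * (1.17 / (x k * √(x k))) * (1 / s ^ 4) := by
  classical
  have h0 := h.h0
  have M0 := c.hM
  have a0 : 0 < a := M0.trans_le c.hMa
  have ab := sub_pos.2 c.hab
  set t := s ^ 2 with ht
  have t0 : 0 < t := by positivity
  have sq : ∀ w : ℝ, 0 ≤ w → √(w * t) = √w * s := fun w hw => by
    rw [Real.sqrt_mul hw, ht, Real.sqrt_sq hs.le]
  have m4 := (h.E_neg (by positivity) hE).1
  have v0 := mul_nonneg c.hb t0.le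
  have uv := mul_le_mul_of_nonneg_right c.hab.le t0.le
  have u4 := m4.trans (mul_le_mul_of_nonneg_right c.hMa t0.le)
  have dv : ∀ w : ℝ, 0 ≤ w → 4 * (w / x k) ≤ w * t := fun w hw => by
    rw [mul_div_assoc', div_le_iff₀ M0]; nlinarith
  have o := h.Om_abs v0 uv u4
  have f1 : (1.23 * (1 + b * t) + 0.232 * Real.exp (b * t)) * Real.exp (-(b * t)) ≤
      1.912 * Real.exp (-(b / x k)) := by
    have e1 := Real.add_one_le_exp (3 / 4 * (b * t) - 1 / 4)
    have e2 : Real.exp (3 / 4 * (b * t) - 1 / 4) * Real.exp (-(b * t)) ≤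
        Real.exp (-(1 / 4)) * Real.exp (-(b / x k)) := by
      rw [← Real.exp_add, ← Real.exp_add, Real.exp_le_exp]; linarith [dv b c.hb]
    have e3 : Real.exp (-(1 / 4)) ≤ 0.781 := by
      have := Real.quadratic_le_exp_of_nonneg (x := 1 / 4) (by norm_num)
      rw [Real.exp_neg, inv_le_comm₀ (Real.exp_pos _) (by norm_num)]
      exact le_trans (by norm_num) this
    have e4 : Real.exp (-1) ≤ Real.exp (-(b / x k)) :=
      Real.exp_le_exp.2 (neg_le_neg ((div_le_one M0).2 c.hbM))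
    have e5 := mul_le_mul_of_nonneg_right e1 (Real.exp_pos (-(b * t))).le
    have e6 := mul_le_mul_of_nonneg_right e3 (Real.exp_pos (-(b / x k))).le
    nlinarith [exp_neg_mul_exp (b * t), Real.exp_neg_one_gt_d9]
  have f2 : Real.exp (-(a * t + b * t)) * |Om E D (a * t) (b * t)| ≤
      (a - b) * η * 1.912 * Real.exp (-(b / x k)) / (a ^ 2 * √a * s ^ 3) := by
    have sa : 0 < √a := Real.sqrt_pos.2 a0
    have e1 : Real.exp (-(a * t + b * t)) * |Om E D (a * t) (b * t)| =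
        Real.exp (-(a * t + b * t)) * (a * t * |Om E D (a * t) (b * t)|) / (a * t) := by
      field_simp
    rw [e1]
    calc _ ≤ Real.exp (-(a * t + b * t)) * ((a * t - b * t) * (η * env (a * t)) *
          (1.23 * (1 + b * t) + 0.232 * Real.exp (b * t))) / (a * t) := by gcongr
      _ = (a - b) * η * ((1.23 * (1 + b * t) + 0.232 * Real.exp (b * t)) * Real.exp (-(b * t))) *
          (Real.exp (-(a * t)) * Real.exp (a * t)) / (a ^ 2 * √a * s ^ 3) := by
        rw [env, sq a a0.le, neg_add, Real.exp_add, ht]; field_simp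
      _ ≤ (a - b) * η * (1.912 * Real.exp (-(b / x k))) * 1 / (a ^ 2 * √a * s ^ 3) := by
        rw [exp_neg_mul_exp]; gcongr
      _ = _ := by ring
  have f3 : |∏ j ∈ T, GG E (x j * t)| ≤ 2 * η / (x k * √(x k) * s ^ 3) *
      Real.exp (-((1 - a - b - x k) / x k)) := by
    rw [← Finset.mul_prod_erase T _ c.hk, abs_mul, Finset.abs_prod]
    have e1 := h.G_neg (by positivity) hE
    rw [sq _ M0.le, show x k * t * (√(x k) * s) = x k * √(x k) * s ^ 3 by rw [ht]; ring] at e1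
    have e2 : ∏ j ∈ T.erase k, |GG E (x j * t)| ≤ ∏ j ∈ T.erase k, Real.exp (-(x j / x k)) :=
      Finset.prod_le_prod (fun _ _ => abs_nonneg _) fun j hj => by
        have m := Finset.mem_of_mem_erase hj
        have := dv _ (c.h0 j m)
        have := div_nonneg (c.h0 j m) M0.le
        exact h.G_small (mul_nonneg (c.h0 j m) t0.le) (by linarith) ((div_le_one M0).2 (c.h1 j m))
    have e3 : ∑ j ∈ T.erase k, x j = 1 - a - b - x k := by
      linarith [Finset.add_sum_erase T x c.hk, c.hs]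
    rw [← Real.exp_sum, Finset.sum_neg_distrib, ← Finset.sum_div, e3] at e2
    exact mul_le_mul e1 e2 (Finset.prod_nonneg fun _ _ => abs_nonneg _) (by positivity)
  have f4 := factor_le M0 c.hMa c.le_one
  have sa : 0 < √a := Real.sqrt_pos.2 a0
  have sM : 0 < √(x k) := Real.sqrt_pos.2 M0
  rw [BB, abs_mul, abs_mul, abs_mul, abs_of_pos t0, abs_of_pos (Real.exp_pos _)]
  calc _ ≤ t * ((a - b) * η * 1.912 * Real.exp (-(b / x k)) / (a ^ 2 * √a * s ^ 3)) *
        (2 * η / (x k * √(x k) * s ^ 3) * Real.exp (-((1 - a - b - x k) / x k))) := by gcongr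
    _ = (a - b) * η * (3.824 * η * Real.exp (-((1 - a - x k) / x k)) / (a ^ 2 * √a) /
        (x k * √(x k))) * (1 / s ^ 4) := by
      rw [show -((1 - a - x k) / x k) = -(b / x k) + -((1 - a - b - x k) / x k) by ring,
        Real.exp_add, ht]
      field_simp
      ring
    _ ≤ _ := by
      gcongr
      rw [div_le_iff₀ (by positivity)]
      nlinarith [h.h1, mul_le_mul_of_nonneg_left f4 h0.le, mul_pos (pow_pos a0 2) sa]

theorem Pk.int_P (h : Pk E D Q η) (c : Cfg T x a b k) :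
    IntegrableOn (fun s : ℝ => ∏ j ∈ T, GG E (x j * s ^ 2)) (Ioi 0) := by
  classical
  have cG := h.cont_G
  have b1 : ∀ (S : Finset ι) (s : ℝ), S ⊆ T → |∏ j ∈ S, GG E (x j * s ^ 2)| ≤ 1 := fun S s hS => by
    rw [Finset.abs_prod]
    exact Finset.prod_le_one (fun _ _ => abs_nonneg _) fun j hj =>
      h.G_le_one (mul_nonneg (c.h0 j (hS hj)) (sq_nonneg s))
  refine integrableOn_of_decay (by fun_prop) (fun s => b1 T s subset_rfl) (K := 2 / x k) (s1 := 0)
    fun s _ => ?_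
  have M0 := c.hM
  have := h.G_decay (τ := x k * s ^ 2) (by positivity)
  rw [← Finset.mul_prod_erase T _ c.hk, abs_mul, le_div_iff₀ M0]
  have := mul_le_of_le_one_right (abs_nonneg (GG E (x k * s ^ 2)))
    (b1 _ s (Finset.erase_subset k T))
  nlinarith [mul_le_mul_of_nonneg_left this (mul_nonneg M0.le (sq_nonneg s)),
    abs_nonneg (GG E (x k * s ^ 2))]

theorem Pk.Om_t (h : Pk E D Q η) {a α β : ℝ} (ha : 0 < a) (hα : a / 2 ≤ α) (hβ : 0 ≤ β)
    (ht : 0 ≤ t) : |t * (Real.exp (-(α * t + β * t)) * Om E D (α * t) (β * t))| ≤ 6 / a := by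
  have α0 : 0 ≤ α := by linarith
  have := h.Om_crude (mul_nonneg α0 ht) (mul_nonneg hβ ht)
  rw [abs_mul, abs_mul, abs_of_nonneg ht, abs_of_pos (Real.exp_pos _), le_div_iff₀ ha]
  have p : 0 ≤ Real.exp (-(α * t + β * t)) * |Om E D (α * t) (β * t)| := by positivity
  nlinarith [mul_le_mul_of_nonneg_right (mul_le_mul_of_nonneg_right hα ht) p]

theorem Pk.int_B (h : Pk E D Q η) (c : Cfg T x a b k) :
    IntegrableOn (fun s : ℝ => BB E D T x a b (s ^ 2)) (Ioi 0) := by
  have a0 : 0 < a := c.hM.trans_le c.hMa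
  have cE := h.cE
  have cD := h.cD
  have := (h.int_P c).bdd_mul (c := 6 / a) (f := fun s : ℝ => s ^ 2 *
    (Real.exp (-(a * s ^ 2 + b * s ^ 2)) * Om E D (a * s ^ 2) (b * s ^ 2)))
    (Continuous.aestronglyMeasurable (by unfold Om; fun_prop))
    (Eventually.of_forall fun s => h.Om_t a0 (by linarith) c.hb (sq_nonneg s))
  exact this

theorem Pk.key (h : Pk E D Q η) (c : Cfg T x a b k) :
    0 < ∫ s in Ioi (0 : ℝ), BB E D T x a b (s ^ 2) := by
  have h0 := h.h0
  have M0 := c.hM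
  have ab := sub_pos.2 c.hab
  have sM : 0 < √(x k) := Real.sqrt_pos.2 M0
  have sM2 : √(x k) ^ 2 = x k := Real.sq_sqrt M0.le
  have sM1 : √(x k) ≤ 1 := Real.sqrt_le_one.2 (by linarith [c.le_one, c.hMa])
  set S := 2 / √(x k) with hS
  have S2 : 2 ≤ S := by rw [hS, le_div_iff₀ sM]; linarith
  have iB := h.int_B c
  have nn : ∀ s, 0 < s → s ≤ S → 0 ≤ BB E D T x a b (s ^ 2) := fun s hs hsS =>
    h.B_nonneg c (sq_nonneg s) (h.E_nonneg (by positivity) (by
      rw [hS, le_div_iff₀ sM] at hsS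
      have := pow_le_pow_left₀ (by positivity) hsS 2
      nlinarith))
  have e1 := setIntegral_union (s := Ioc 0 S) (t := Ioi S) Ioc_disjoint_Ioi_same measurableSet_Ioi
    (iB.mono_set Ioc_subset_Ioi_self) (iB.mono_set (Ioi_subset_Ioi (by linarith)))
  rw [Ioc_union_Ioi_eq_Ioi (by linarith)] at e1
  have e2 : ∫ s in Ioc (0 : ℝ) 1.7, BB E D T x a b (s ^ 2) ≤
      ∫ s in Ioc (0 : ℝ) S, BB E D T x a b (s ^ 2) :=
    setIntegral_mono_set (iB.mono_set Ioc_subset_Ioi_self)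
      ((ae_restrict_iff' measurableSet_Ioc).2 (Eventually.of_forall fun s hs => nn s hs.1 hs.2))
      (Ioc_subset_Ioc_right (by linarith)).eventuallyLE
  have e3 : ∫ s in Ioc (0 : ℝ) 1.7, (a - b) * η * 0.0309 * (3 * s ^ 4 - s ^ 6) ≤
      ∫ s in Ioc (0 : ℝ) 1.7, BB E D T x a b (s ^ 2) :=
    setIntegral_mono_on (Continuous.integrableOn_Ioc (by fun_prop))
      (iB.mono_set Ioc_subset_Ioi_self) measurableSet_Ioc fun s hs =>
      le_trans (le_of_eq (by ring)) (h.B_head c (sq_nonneg s) (by nlinarith [hs.1, hs.2]))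
  rw [← intervalIntegral.integral_of_le (by norm_num), intervalIntegral.integral_const_mul,
    intervalIntegral.integral_sub (Continuous.intervalIntegrable (by fun_prop) _ _)
      (Continuous.intervalIntegrable (by fun_prop) _ _), intervalIntegral.integral_const_mul,
    integral_pow, integral_pow] at e3
  have S0 : 0 < S := by linarith
  have ee : ∀ s ∈ Ioi S, s ^ (-4 : ℝ) = 1 / s ^ 4 := fun s hs => by
    have hs : 0 < s := S0.trans hs
    rw [Real.rpow_neg hs.le, one_div]; norm_num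
  have i4 := (integrableOn_Ioi_rpow_of_lt (a := -4) (by norm_num) S0).congr_fun ee measurableSet_Ioi
  have v4 := integral_Ioi_rpow_of_lt (a := -4) (by norm_num) S0
  rw [setIntegral_congr_fun measurableSet_Ioi ee, show (-4 : ℝ) + 1 = -(3 : ℕ) by norm_num,
    Real.rpow_neg S0.le, Real.rpow_natCast] at v4
  have e4 : ∫ s in Ioi S, -((a - b) * η * (1.17 / (x k * √(x k)))) * (1 / s ^ 4) ≤
      ∫ s in Ioi S, BB E D T x a b (s ^ 2) :=
    setIntegral_mono_on (i4.const_mul _) (iB.mono_set (Ioi_subset_Ioi S0.le)) measurableSet_Ioi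
      fun s hs => by
        have hs : 0 < s := S0.trans hs
        rw [neg_mul]
        rcases le_or_gt 0 (E (x k * s ^ 2)) with d | d
        · exact le_trans (neg_nonpos.2 (by positivity)) (h.B_nonneg c (sq_nonneg s) d)
        · exact neg_le_of_abs_le (h.B_tail c hs d)
  have e5 : -((a - b) * η * (1.17 / (x k * √(x k)))) * (-(S ^ 3)⁻¹ / -((3 : ℕ) : ℝ)) =
      -((a - b) * η * (1.17 / 24)) := by
    rw [hS]
    generalize √(x k) = w at *
    rw [← sM2]
    field_simp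
    norm_num
  rw [integral_const_mul, v4, e5] at e4
  norm_num at e3
  nlinarith [mul_pos ab h0]

theorem Pk.dE' (h : Pk E D Q η) (hτ : 0 ≤ τ) : HasDerivWithinAt E (-D τ) (Ici 0) τ := by
  rcases hτ.eq_or_lt with rfl | hτ
  · refine hasDerivWithinAt_Ici_of_tendsto_deriv (s := Ioi 0)
      (fun y hy => (h.dE y hy).differentiableAt.differentiableWithinAt)
      h.cE.continuousWithinAt self_mem_nhdsWithin ?_
    refine ((h.cD.neg.tendsto 0).mono_left nhdsWithin_le_nhds).congr' ?_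
    filter_upwards [self_mem_nhdsWithin] with y hy using (h.dE y hy).deriv.symm
  · exact (h.dE τ hτ).hasDerivWithinAt

theorem Pk.dF (h : Pk E D Q η) {δ : ℝ} (hb : 0 ≤ b) (ht : 0 ≤ t) (hδ : δ ∈ Icc 0 a) :
    HasDerivWithinAt (fun δ => GG E ((a - δ) * t) * GG E ((b + δ) * t))
      (t * (Real.exp (-((a - δ) * t + (b + δ) * t)) * Om E D ((a - δ) * t) ((b + δ) * t)))
      (Icc 0 a) δ := by
  have m1 : MapsTo (fun δ => (a - δ) * t) (Icc 0 a) (Ici 0) := fun y hy =>
    mul_nonneg (sub_nonneg.2 hy.2) ht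
  have m2 : MapsTo (fun δ => (b + δ) * t) (Icc 0 a) (Ici 0) := fun y hy =>
    mul_nonneg (add_nonneg hb hy.1) ht
  have d1 := (h.dE' (m1 hδ)).comp δ
    (((hasDerivAt_id δ).const_sub a).mul_const t).hasDerivWithinAt m1
  have d2 := (h.dE' (m2 hδ)).comp δ
    (((hasDerivAt_id δ).const_add b).mul_const t).hasDerivWithinAt m2
  have e : (fun δ => GG E ((a - δ) * t) * GG E ((b + δ) * t)) = fun δ =>
      Real.exp (-((a + b) * t)) * (E ((a - δ) * t) * E ((b + δ) * t)) := by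
    funext y
    rw [GG, GG, show -((a + b) * t) = -((a - y) * t) + -((b + y) * t) by ring, Real.exp_add]; ring
  rw [e, show (a - δ) * t + (b + δ) * t = (a + b) * t by ring]
  refine ((d1.mul d2).const_mul _).congr_deriv ?_
  simp only [Function.comp, Om, id]; ring

/-- The exchange step strictly increases the integral. -/
theorem Pk.step (h : Pk E D Q η) (c : Cfg T x a b k) : ∃ δ, 0 < δ ∧ δ ≤ a ∧
    ∫ s in Ioi (0 : ℝ), GG E (a * s ^ 2) * GG E (b * s ^ 2) * ∏ j ∈ T, GG E (x j * s ^ 2) <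
    ∫ s in Ioi (0 : ℝ), GG E ((a - δ) * s ^ 2) * GG E ((b + δ) * s ^ 2) *
      ∏ j ∈ T, GG E (x j * s ^ 2) := by
  have a0 : 0 < a := c.hM.trans_le c.hMa
  have cG := h.cont_G
  have iP := h.int_P c
  set F : ℝ → ℝ → ℝ := fun s δ => GG E ((a - δ) * s ^ 2) * GG E ((b + δ) * s ^ 2) with hF
  have ev : ∀ᶠ δ in 𝓝[>] (0 : ℝ), δ ∈ Ioo 0 (a / 2) := Ioo_mem_nhdsGT (by linarith)
  have lim := tendsto_integral_filter_of_dominated_convergence (μ := volume.restrict (Ioi (0 : ℝ)))
    (l := 𝓝[>] (0 : ℝ)) (F := fun δ s => slope (F s) 0 δ * ∏ j ∈ T, GG E (x j * s ^ 2))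
    (f := fun s => BB E D T x a b (s ^ 2)) (fun s => 6 / a * |∏ j ∈ T, GG E (x j * s ^ 2)|)
    (Eventually.of_forall fun δ => Continuous.aestronglyMeasurable (by
      simp only [slope_def_field, hF]; fun_prop))
    (ev.mono fun δ hδ => Eventually.of_forall fun s => by
      have := (convex_Icc 0 (a / 2)).norm_image_sub_le_of_norm_hasDerivWithin_le (f := F s)
        (fun y hy => (h.dF c.hb (sq_nonneg s) ⟨hy.1, by linarith [hy.2]⟩).mono
          (Icc_subset_Icc_right (by linarith)))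
        (fun y hy => h.Om_t a0 (by linarith [hy.2]) (add_nonneg c.hb hy.1) (sq_nonneg s))
        (left_mem_Icc.2 (by linarith)) (Ioo_subset_Icc_self hδ)
      rw [norm_mul, slope_def_field, norm_div]
      exact mul_le_mul_of_nonneg_right (div_le_of_le_mul₀ (norm_nonneg _) (by positivity) this)
        (norm_nonneg _))
    (iP.abs.const_mul _) (Eventually.of_forall fun s => by
      have := (h.dF c.hb (sq_nonneg s) (left_mem_Icc.2 a0.le)).mono_of_mem_nhdsWithin
        (Icc_mem_nhdsGT a0)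
      rw [hasDerivWithinAt_iff_tendsto_slope' (by simp), sub_zero, add_zero] at this
      exact this.mul_const _)
  obtain ⟨δ, h1, h2⟩ := ((lim.eventually (lt_mem_nhds (h.key c))).and ev).exists
  refine ⟨δ, h2.1, by linarith [h2.2], ?_⟩
  have i : ∀ y, 0 ≤ y → y ≤ a → IntegrableOn (fun s => F s y * ∏ j ∈ T, GG E (x j * s ^ 2))
      (Ioi 0) := fun y y0 y1 =>
    iP.bdd_mul (c := 1) (Continuous.aestronglyMeasurable (by simp only [hF]; fun_prop))
      (Eventually.of_forall fun s => by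
        simp only [hF, norm_mul, Real.norm_eq_abs]
        exact mul_le_one₀ (h.G_le_one (mul_nonneg (sub_nonneg.2 y1) (sq_nonneg s))) (abs_nonneg _)
          (h.G_le_one (mul_nonneg (add_nonneg c.hb y0) (sq_nonneg s))))
  have e : ∀ s, slope (F s) 0 δ * ∏ j ∈ T, GG E (x j * s ^ 2) =
      (F s δ * ∏ j ∈ T, GG E (x j * s ^ 2) - F s 0 * ∏ j ∈ T, GG E (x j * s ^ 2)) / δ := fun s => by
    rw [slope_def_field, sub_zero]; ring
  simp only [e] at h1
  rw [integral_div, integral_sub (i δ h2.1.le (by linarith [h2.2])) (i 0 le_rfl a0.le),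
    div_pos_iff_of_pos_right h2.1, sub_pos] at h1
  simpa only [hF, sub_zero, add_zero] using h1

end Pool.Agent.MP_39fec4_gt.Small
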