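import Pool.Agent.MP_39fec4_gt.SAna
import Pool.Agent.MP_39fec4_gt.SCmp
import Pool.Agent.MP_39fec4_gt.BPhys

set_option autoImplicit false

namespace Pool.Agent.MP_39fec4_gt.Small

open MeasureTheory Set Filter Topology Real Ball

variable {η p : ℝ}

theorem ff_eq (h0 : 0 < η) : ∃ l : ℝ, 0 < l ∧ ∀ w s : ℝ, 0 ≤ w → 0 ≤ s →
    ff (2 + η) (√w * s) = GG (EE η) (w * (l * s) ^ 2) := by
  have hp : 2 < 2 + η := by linarith
  have b := bp_pos hp
  have m := m0_pos h0
  set ρ := (bp (2 + η) * (2 + η) / 4) ^ (2 + η)⁻¹ with hρ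
  have ρ0 : 0 < ρ := by positivity
  have ρp : ρ ^ (2 + η) = bp (2 + η) * (2 + η) / 4 :=
    Real.rpow_inv_rpow (by positivity) (by positivity)
  have e : ∀ s, ff (2 + η) s = Cr η 0 (s / ρ) / ρ := fun s => by
    rw [Cr, Wr_zero, cosT, ← integral_scale _ ρ0, ff, cosT]
    refine setIntegral_congr_fun measurableSet_Ioi fun y hy => ?_
    have hy : 0 < y := hy
    simp only [K, kr]
    rw [Real.mul_rpow ρ0.le hy.le, ρp]
    congr 2 <;> field_simp
  have e0 := e 0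
  rw [ff_zero hp, zero_div, C00, eq_div_iff ρ0.ne', one_mul] at e0
  refine ⟨1 / (√8 * ρ), by positivity, fun w s hw hs => ?_⟩
  have : (√w * s / ρ) ^ 2 / 8 = w * (1 / (√8 * ρ) * s) ^ 2 := by
    simp only [div_pow, mul_pow, Real.sq_sqrt hw, Real.sq_sqrt (by norm_num : (0 : ℝ) ≤ 8)]
    field_simp
  rw [e, C0_eq h0 (by positivity), this, e0, GG]
  field_simp

theorem two_lt (hp : 2 < p) {α β : ℝ} (hβ : 0 ≤ β) (hab : β < α) (hs : α + β = 1) :
    ∫ s in Ioi (0 : ℝ), ff p (√α * s) * ff p (√β * s) <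
      ∫ s in Ioi (0 : ℝ), ff p (√(1 / 2) * s) * ff p (√(1 / 2) * s) := by
  have hπ := Real.pi_pos
  have p0 : 0 < p := by linarith
  have α0 : 0 < α := by linarith
  have A0 := Real.sqrt_pos.2 α0
  have c0 : 0 < √(1 / 2 : ℝ) := by positivity
  have e1 := integral_scale (fun x => ff p x ^ 2) c0
  rw [integral_ff_sq hp] at e1
  simp only [sq] at e1
  have e2 : ∫ s in Ioi (0 : ℝ), ff p (√α * s) * ff p (√β * s) ≤
      π / (2 * √α) * (1 + (√β / √α) ^ p) ^ (-(1 / p)) := by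
    rcases hβ.eq_or_lt with rfl | hβ
    · have := one_phys hp A0 0
      rw [cosT_zero] at this
      simp [ff_zero hp, this, K_zero hp, Real.zero_rpow p0.ne']
    · have := two_phys hp A0 (Real.sqrt_pos.2 hβ) 0
      rwa [cosT_zero] at this
  have key : ∀ A w : ℝ, 0 < A → 0 < w → w ^ (-(1 / p)) / A = (A ^ p * w) ^ (-(1 / p)) :=
    fun A w hA hw => by
      rw [Real.mul_rpow (by positivity) hw.le, ← Real.rpow_mul hA.le,
        show p * -(1 / p) = -1 by field_simp, Real.rpow_neg_one]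
      ring
  have sq : ∀ w : ℝ, 0 ≤ w → √w ^ p = w ^ (p / 2) := fun w hw => by
    rw [Real.sqrt_eq_rpow, ← Real.rpow_mul hw]; congr 1; ring
  have cv := (strictConvexOn_rpow (p := p / 2) (by linarith)).2 (mem_Ici.2 α0.le) (mem_Ici.2 hβ)
    hab.ne' (show (0 : ℝ) < 1 / 2 by norm_num) (show (0 : ℝ) < 1 / 2 by norm_num) (by norm_num)
  simp only [smul_eq_mul] at cv
  rw [← mul_add, hs, mul_one] at cv
  have e3 : √(1 / 2) ^ p * 2 < √α ^ p * (1 + (√β / √α) ^ p) := by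
    have := Real.rpow_pos_of_pos A0 p
    rw [Real.div_rpow (Real.sqrt_nonneg _) A0.le, mul_add, mul_div_cancel₀ _ this.ne', sq _ α0.le,
      sq _ hβ, sq _ (by norm_num)]
    linarith
  have e4 := Real.rpow_lt_rpow_of_neg (by positivity) e3 (z := -(1 / p)) (by simpa using p0)
  rw [← key _ _ A0 (by positivity), ← key _ _ c0 (by norm_num)] at e4
  rw [e1]
  refine e2.trans_lt ?_
  calc _ = π / 2 * ((1 + (√β / √α) ^ p) ^ (-(1 / p)) / √α) := by ring
    _ < π / 2 * (2 ^ (-(1 / p)) / √(1 / 2)) := by gcongr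
    _ = _ := by ring

theorem improve (hp : 2 < p) (hp' : p ≤ 2.05) {ι : Type*} (T : Finset ι) (x : ι → ℝ) {a b : ℝ}
    (hb : 0 ≤ b) (hab : b < a) (hx : ∀ j ∈ T, b ≤ x j ∧ x j ≤ a) (hs : a + b + ∑ j ∈ T, x j = 1) :
    ∃ α β : ℝ, 0 ≤ α ∧ 0 ≤ β ∧ α + β = a + b ∧
      ∫ s in Ioi (0 : ℝ), ff p (√a * s) * ff p (√b * s) * ∏ j ∈ T, ff p (√(x j) * s) <
      ∫ s in Ioi (0 : ℝ), ff p (√α * s) * ff p (√β * s) * ∏ j ∈ T, ff p (√(x j) * s) := by
  have x0 : ∀ j ∈ T, 0 ≤ x j := fun j hj => hb.trans (hx j hj).1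
  by_cases hz : ∀ j ∈ T, x j = 0
  · have e : ∀ s, ∏ j ∈ T, ff p (√(x j) * s) = 1 := fun s => Finset.prod_eq_one fun j hj => by
      rw [hz j hj, Real.sqrt_zero, zero_mul, ff_zero hp]
    rw [Finset.sum_eq_zero hz, add_zero] at hs
    refine ⟨1 / 2, 1 / 2, by norm_num, by norm_num, by linarith, ?_⟩
    simpa only [e, mul_one] using two_lt hp hb hab hs
  push Not at hz
  obtain ⟨j, hj, hj0⟩ := hz
  obtain ⟨k, hk, hk2⟩ := Finset.exists_max_image T x ⟨j, hj⟩
  obtain ⟨η, rfl⟩ : ∃ η, p = 2 + η := ⟨p - 2, by ring⟩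
  have h0 : 0 < η := by linarith
  obtain ⟨δ, δ0, δ1, h⟩ := (pk h0 (by linarith)).step (T := T) (x := x) (k := k) ⟨hb, hab, hk,
    ((x0 j hj).lt_of_ne' hj0).trans_le (hk2 j hj), (hx k hk).1, (hx k hk).2, x0, hk2, hs⟩
  obtain ⟨l, l0, hl⟩ := ff_eq h0
  have e : ∀ α β : ℝ, 0 ≤ α → 0 ≤ β → ∫ s in Ioi (0 : ℝ), ff (2 + η) (√α * s) *
      ff (2 + η) (√β * s) * ∏ j ∈ T, ff (2 + η) (√(x j) * s) = (∫ s in Ioi (0 : ℝ),
      GG (EE η) (α * s ^ 2) * GG (EE η) (β * s ^ 2) * ∏ j ∈ T, GG (EE η) (x j * s ^ 2)) / l :=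
    fun α β hα hβ => by
      rw [← integral_scale _ l0]
      refine setIntegral_congr_fun measurableSet_Ioi fun s hs => ?_
      rw [hl _ _ hα (le_of_lt hs), hl _ _ hβ (le_of_lt hs),
        Finset.prod_congr rfl fun j hj => hl _ _ (x0 j hj) (le_of_lt hs)]
  refine ⟨a - δ, b + δ, by linarith, by linarith, by ring, ?_⟩
  rw [e _ _ (by linarith) hb, e _ _ (by linarith) (by linarith)]
  gcongr

theorem contOn_J (hp : 2 < p) (hp' : p ≤ 2.05) {n : ℕ} (hn : 2 ≤ n) :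
    ContinuousOn (fun x : Fin n → ℝ => ∫ s in Ioi (0 : ℝ), ∏ j, ff p (√(x j) * s))
      (stdSimplex ℝ (Fin n)) := by
  have c := cont_ff hp
  have n0 : (2 : ℝ) ≤ n := by exact_mod_cast hn
  obtain ⟨η, rfl⟩ : ∃ η, p = 2 + η := ⟨p - 2, by ring⟩
  have h0 : 0 < η := by linarith
  obtain ⟨l, l0, hl⟩ := ff_eq h0
  refine continuousOn_of_dominated (bound := fun s => 2 * n * (1 + (l * s) ^ 2)⁻¹)
    (fun x _ => Continuous.aestronglyMeasurable (by fun_prop))
    (fun x hx => (ae_restrict_iff' measurableSet_Ioi).2 (Eventually.of_forall fun s hs => ?_))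
    ((integrable_inv_one_add_sq.comp_mul_left' l0.ne').const_mul _).integrableOn
    (Eventually.of_forall fun s => Continuous.continuousOn (by fun_prop))
  have : Nonempty (Fin n) := ⟨⟨0, by omega⟩⟩
  obtain ⟨i, -, hi⟩ := Finset.exists_le_of_sum_le (s := Finset.univ) (f := fun _ => (1 : ℝ))
    (g := fun j => n * x j) Finset.univ_nonempty (by simp [← Finset.mul_sum, hx.2])
  have d := (pk h0 (by linarith)).G_decay (mul_nonneg (hx.1 i) (sq_nonneg (l * s)))
  rw [← hl _ _ (hx.1 i) (le_of_lt hs)] at d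
  rw [Real.norm_eq_abs, ← Finset.mul_prod_erase _ _ (Finset.mem_univ i), abs_mul]
  refine (mul_le_of_le_one_right (abs_nonneg _)
    (abs_prod_le_one _ fun j => abs_ff_le hp _)).trans ?_
  rw [← div_eq_mul_inv, le_div_iff₀ (by positivity)]
  have q := abs_nonneg (ff (2 + η) (√(x i) * s))
  nlinarith [mul_le_mul_of_nonneg_left d (by linarith : (0 : ℝ) ≤ n),
    mul_le_mul_of_nonneg_left hi (mul_nonneg q (sq_nonneg (l * s)))]

/-- For `2 < p ≤ 2.05` the main diagonal is the unique maximiser in every dimension. -/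
theorem regimeS (hp : 2 < p) (hp' : p ≤ 2.05) {n : ℕ} (hn : 2 ≤ n) (x : Fin n → ℝ)
    (hx : ∀ j, 0 ≤ x j) (hs : ∑ j, x j = 1) (hne : ∃ j, x j ≠ 1 / n) :
    ∫ s in Ioi (0 : ℝ), ∏ j, ff p (√(x j) * s) < ∫ s in Ioi (0 : ℝ), ff p (√(1 / n) * s) ^ n := by
  have n0 : (0 : ℝ) < n := by positivity
  set J := fun x : Fin n → ℝ => ∫ s in Ioi (0 : ℝ), ∏ j, ff p (√(x j) * s) with hJ
  have imp : ∀ z ∈ stdSimplex ℝ (Fin n), (∃ j, z j ≠ 1 / n) →
      ∃ y ∈ stdSimplex ℝ (Fin n), J z < J y := by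
    rintro z hz ⟨j0, hj0⟩
    obtain ⟨i, -, hi⟩ := Finset.exists_max_image Finset.univ z ⟨j0, Finset.mem_univ _⟩
    obtain ⟨j, -, hj⟩ := Finset.exists_min_image Finset.univ z ⟨j0, Finset.mem_univ _⟩
    have lt : z j < z i := by
      refine lt_of_not_ge fun h => hj0 ?_
      have e : ∀ l, z l = z j0 := fun l => le_antisymm
        ((hi l (Finset.mem_univ _)).trans (h.trans (hj j0 (Finset.mem_univ _))))
        ((hi j0 (Finset.mem_univ _)).trans (h.trans (hj l (Finset.mem_univ _))))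
      have := hz.2
      rw [Finset.sum_congr rfl fun l _ => e l] at this
      simp only [Finset.sum_const, Finset.card_univ, Fintype.card_fin, nsmul_eq_mul] at this
      rw [eq_div_iff n0.ne']; linarith
    have ne : j ≠ i := fun h => by rw [h] at lt; exact lt_irrefl _ lt
    have mj : j ∈ Finset.univ.erase i := Finset.mem_erase.2 ⟨ne, Finset.mem_univ j⟩
    have sm : ∀ y : Fin n → ℝ, ∑ l, y l = y i + y j + ∑ l ∈ (Finset.univ.erase i).erase j, y l :=
      fun y => by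
        rw [← Finset.add_sum_erase _ _ (Finset.mem_univ i), ← Finset.add_sum_erase _ _ mj,
          add_assoc]
    have pr : ∀ y : Fin n → ℝ, J y = ∫ s in Ioi (0 : ℝ), ff p (√(y i) * s) * ff p (√(y j) * s) *
        ∏ l ∈ (Finset.univ.erase i).erase j, ff p (√(y l) * s) := fun y => by
      simp only [hJ]
      congr 1; funext s
      rw [← Finset.mul_prod_erase _ _ (Finset.mem_univ i), ← Finset.mul_prod_erase _ _ mj,
        mul_assoc]
    obtain ⟨α, β, hα, hβ, e, h⟩ := improve hp hp' ((Finset.univ.erase i).erase j) z (hz.1 j) lt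
      (fun l _ => ⟨hj l (Finset.mem_univ _), hi l (Finset.mem_univ _)⟩) (by rw [← sm, hz.2])
    set y : Fin n → ℝ := fun l => if l = i then α else if l = j then β else z l with hy
    have yi : y i = α := by simp [hy]
    have yj : y j = β := by simp [hy, ne]
    have yl : ∀ l ∈ (Finset.univ.erase i).erase j, y l = z l := fun l hl => by
      simp only [Finset.mem_erase] at hl
      simp [hy, hl.1, hl.2.1]
    refine ⟨y, ⟨fun l => ?_, ?_⟩, ?_⟩
    · simp only [hy]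
      split_ifs
      exacts [hα, hβ, hz.1 l]
    · rw [sm, yi, yj, Finset.sum_congr rfl yl, e, ← sm, hz.2]
    · rw [pr z, pr y, yi, yj]
      refine h.trans_eq ?_
      congr 1; funext s
      congr 1
      exact Finset.prod_congr rfl fun l hl => by rw [yl l hl]
  obtain ⟨z, hz, hm⟩ := (isCompact_stdSimplex ℝ (Fin n)).exists_isMaxOn ⟨x, hx, hs⟩
    (contOn_J hp hp' hn)
  have ez : z = fun _ => 1 / (n : ℝ) := by
    by_contra h
    obtain ⟨y, hy, lt⟩ := imp z hz (Function.ne_iff.1 h)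
    exact absurd (hm hy) (not_le.2 lt)
  obtain ⟨y, hy, lt⟩ := imp x ⟨hx, hs⟩ hne
  have := lt.trans_le (hm hy)
  simpa only [hJ, ez, Fin.prod_const] using this

end Pool.Agent.MP_39fec4_gt.Small
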