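import Pool.Agent.MP_39fec4_gt.S2Fin
import Pool.Agent.MP_39fec4_gt.S2Psi
import Pool.Agent.MP_39fec4_gt.S2Big
import Pool.Agent.MP_39fec4_gt.S2D0
import Pool.Agent.MP_39fec4_gt.S2Pos
import Pool.Agent.MP_39fec4_gt.SMain

set_option autoImplicit false

namespace Pool.Agent.MP_39fec4_gt.Small

open MeasureTheory Set Filter Topology Real Ball K

variable {η p : ℝ} {P : Pa}

theorem sy (h0 : 0 < η) (h1 : η ≤ 0.4) (c : P.cst) (ea : ri P.ea ≤ η) (eb : η ≤ ri P.eb) :
    Sy (EE η) (DD η) (QQ η) (fun τ => 12 * Phi η √(8 * τ) / (m0 η * √8 ^ 3))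
      (fun τ => 16 * Psi η √(8 * τ) / (η * m0 η * √(8 * τ) ^ 3)) η P := by
  have m := m0_pos h0
  have d0 := dC h0 (r := 0) (by norm_num) (a := 1) (by ring)
  have d1 := dS h0 (r := 1) (by norm_num) (a := 2) (by ring)
  have cC : Continuous (Cr η 0) := continuous_iff_continuousAt.2 fun s => (d0 s).continuousAt
  have cP : Continuous (Phi η) := continuous_iff_continuousAt.2 fun s => (dPhi h0 s).continuousAt
  have cS := cont_Sn h0
  have ds : ∀ τ : ℝ, 0 < τ → HasDerivAt (fun τ => √(8 * τ)) (4 / √(8 * τ)) τ := fun τ hτ =>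
    (((hasDerivAt_id τ).const_mul 8).sqrt (by simp only [id]; positivity)).congr_deriv
      (by simp only [id]; ring)
  have eG : ∀ τ, GG (EE η) τ = Cr η 0 √(8 * τ) / m0 η := fun τ => by
    rw [GG, EE, Real.exp_neg]; field_simp
  have e8 : ∀ τ : ℝ, √(8 * τ) = √8 * √τ := fun τ => Real.sqrt_mul (by norm_num) τ
  have s8 : √(8 : ℝ) ^ 2 = 8 := Real.sq_sqrt (by norm_num)
  obtain ⟨z1, z2⟩ := Sn_zero2 h0 h1
  obtain ⟨cb, c0, c1, c2, c3, c4, c5, c6, c7, c8⟩ := c
  have b0 := mul_nonneg (sub_nonneg.2 eb) (h0.le.trans eb)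
  have b1 := mul_nonneg (sub_nonneg.2 eb) h0.le
  have b2 : 0 ≤ 1 - (η + ri P.eb) := by
    have := ri_le.2 c8
    rw [ri_mul, ri_S] at this
    push_cast at this
    linarith
  have b3 := mul_nonneg (sub_nonneg.2 eb) b2
  rw [← Int.cast_le (R := ℝ)] at c0 c1 c2 c3 c4 c5 c6 c7
  simp only [S1] at c0 c1 c2 c3 c4 c5 c6 c7
  push_cast at c0 c1 c2 c3 c4 c5 c6 c7
  refine ⟨h0, ea, eb, by unfold EE; fun_prop, by unfold DD; fun_prop, by fun_prop, fun τ hτ => ?_,
    fun τ hτ => ?_, fun τ hτ => ?_, by simp [EE, C00, m.ne'], by simp [Phi_zero], ?_,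
    fun u v hv huv => ?_, fun τ hτ => ?_, fun τ hτ => ?_, fun τ hτ τ0 => ?_⟩
  · have s0 : 0 < √(8 * τ) := by positivity
    refine (((Real.hasDerivAt_exp τ).mul ((d0 _).comp τ (ds τ hτ))).div_const _).congr_deriv ?_
    simp only [Function.comp, DD, Sn_eq η s0.ne']
    ring
  · have s0 : 0 < √(8 * τ) := by positivity
    have := ((Real.hasDerivAt_exp τ).mul ((((((d1 _).comp τ (ds τ hτ)).div (ds τ hτ)
      s0.ne').const_mul 4).sub ((d0 _).comp τ (ds τ hτ))))).div_const (m0 η)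
    refine (this.congr_of_eventuallyEq ?_).congr_deriv ?_
    · filter_upwards [lt_mem_nhds hτ] with y hy
      rw [DD, Sn_eq η (by positivity : √(8 * y) ≠ 0)]
      rfl
    · simp only [Function.comp, QQ, Uf, Pi.sub_apply, Pi.div_apply]
      field_simp
      ring
  · refine ((((dPhi h0 _).comp τ (ds τ hτ)).const_mul 12).div_const _).congr_deriv ?_
    rw [eG]
    generalize Cr η 0 √(8 * τ) = C
    have t0 := Real.sqrt_pos.2 hτ
    rw [e8, pow_succ _ 2, s8]
    field_simp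
    ring
  · simp only [DD, mul_zero, Real.sqrt_zero, Real.exp_zero, one_mul, C00]
    rw [le_div_iff₀ m, div_le_iff₀ m]
    have a1 : ri P.c0 ≤ 0.29 - 0.11 * η := by unfold ri at eb ⊢; linarith
    have a2 : 0.365 - 0.125 * η ≤ ri P.c1 := by unfold ri at ea ⊢; linarith
    constructor <;> linarith [mul_le_mul_of_nonneg_right a1 (mul_pos h0 m).le,
      mul_le_mul_of_nonneg_right a2 (mul_pos h0 m).le]
  · have := convex_univ.norm_image_sub_le_of_norm_hasDerivWithin_le (C := 0.56 * m0 η)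
      (fun s _ => (d0 s).hasDerivWithinAt) (fun s _ => by rw [norm_neg]; exact S1_le h0 h1 s)
      (mem_univ √(8 * v)) (mem_univ √(8 * u))
    have a1 := sub_nonneg.2 (Real.sqrt_le_sqrt huv)
    have a2 : √(8 : ℝ) ≤ 2.83 := Real.sqrt_le_iff.2 ⟨by norm_num, by norm_num⟩
    rw [eG, eG, ← sub_div, abs_div, abs_of_pos m, div_le_iff₀ m]
    refine le_trans this ?_
    rw [e8, e8, ← mul_sub, Real.norm_of_nonneg (by positivity)]
    linarith [mul_le_mul_of_nonneg_right a2 (mul_nonneg m.le a1), mul_nonneg m.le a1]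
  · rw [QQ, U_eq h0]
    generalize Phi η √(8 * τ) = A
    generalize Psi η √(8 * τ) = B
    have t0 := Real.sqrt_pos.2 hτ
    rw [e8, mul_pow, pow_succ √τ, Real.sq_sqrt hτ.le]
    field_simp
    ring
  · have s0 : 0 < √(8 * τ) := by positivity
    have s2 : √(8 * τ) ^ 2 = 8 * τ := Real.sq_sqrt (by positivity)
    have hi : ∀ {a b A B : ℝ}, 0 ≤ a → 0 ≤ b → (∀ w : ℝ, 0 ≤ w → Real.sin w - w * Real.cos w ≤
        a * w + b * w ^ 3) → 2 * a * ((0.172 - 0.12 * η) * η) ≤ A →
        16 * b * ((0.028 + 0.008 * η) * η) ≤ B →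
        16 * Psi η √(8 * τ) / (η * m0 η * √(8 * τ) ^ 3) ≤ A / τ + B := fun ha hb h hA hB => by
      refine le_trans ?_ (add_le_add (div_le_div_of_nonneg_right hA hτ.le) hB)
      rw [div_le_iff₀ (by positivity)]
      refine (mul_le_mul_of_nonneg_left (Psi_hi h0 h1 s0.le ha hb h) (by norm_num)).trans_eq ?_
      rw [pow_succ, s2]
      field_simp
      ring
    refine ⟨(hi (a := 0) (b := 1 / 3) (A := 0) (B := ri P.a0) le_rfl (by norm_num) (fun w hw => by
      linarith [le_of_abs_le (abs_sin_sub_le hw)]) (by simp) ?_).trans_eq (by simp),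
      hi (by norm_num) (by norm_num) (fun _ => phi_mix) ?_ ?_, (hi (B := 0) (by norm_num) le_rfl
        (fun _ => phi_lin) ?_ (by simp)).trans_eq (add_zero _), ?_, ?_⟩
    iterate 4 unfold ri at eb b0 b1 b3 ⊢; linarith
    · have a1 := Psi_big2 h0 h1 √(8 * τ)
      have a2 : (15 - 11 * η) * η ≤ 4 * ri P.a4 := by unfold ri at eb b0 b1 b3 ⊢; linarith
      rw [abs_mul, abs_of_pos s0] at a1
      rw [abs_div, abs_mul, abs_of_pos (by positivity : 0 < η * m0 η * √(8 * τ) ^ 3),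
        abs_of_pos (by norm_num : (0 : ℝ) < 16), div_le_div_iff₀ (by positivity) (by positivity)]
      refine le_of_mul_le_mul_left ?_ s0
      have a3 : √(8 * τ) * √(8 * τ) ^ 3 = 64 * τ ^ 2 := by
        rw [← pow_succ', show 3 + 1 = 2 * 2 by rfl, pow_mul, s2]; ring
      rw [mul_left_comm _ (ri P.a4), mul_left_comm _ (η * m0 η), a3]
      linarith [mul_le_mul_of_nonneg_left a1 (sq_nonneg τ),
        mul_le_mul_of_nonneg_left a2 (by positivity : 0 ≤ η * m0 η * τ ^ 2)]
    · have a2 : 0.48 * ((0.028 + 0.008 * η) * η) ≤ ri P.a5 := by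
        unfold ri at eb b0 b1 b3 ⊢; linarith
      rw [le_div_iff₀ (by positivity)]
      linarith [Psi_lo h0 h1 s0.le,
        mul_le_mul_of_nonneg_right a2 (by positivity : 0 ≤ η * m0 η * √(8 * τ) ^ 3)]
  · have a1 := (tt_le (by norm_num) cb).trans hτ
    have := U_big2 h0 h1 (s := √(8 * τ)) (Real.le_sqrt_of_sq_le (by
      norm_num [tt] at a1 ⊢; linarith))
    unfold QQ; positivity

def Ra : Pa := ⟨448, 249, 199, 199, 215, 54975581388, 329853488333, 53480245576, 43962872926,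
  16044073673, 96897760733, 964821453374, 4813222102, 282574488338, 394449796465, 25293782138,
  308288110734, 462894395293, 956097067632, 846026988590, 742060816720, 853796624199,
  296601237385, 1138684307850, 741689971733, 845604186495, 289223179821⟩

def Rb : Pa := ⟨512, 249, 186, 187, 203, 329853488332, 439804651111, 73183493945, 53445061203,
  21955048184, 117797277754, 1165482325444, 6586514456, 270479860432, 360090058097, 34800666151,
  288594713989, 504675837149, 999556025251, 754046114573, 685697043625, 754643881363,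
  361256705384, 1059882892992, 653207821562, 736815731595, 330534602951⟩

theorem chk0 : chk Ra = true := by decide +kernel

theorem chk1 : chk Rb = true := by decide +kernel

theorem ex2 (h0 : 0.05 ≤ η) (h1 : η ≤ 0.4) :
    ∃ z1 t0 sg qm c th I0 La K, Ex (EE η) (DD η) (QQ η) z1 t0 sg qm c th I0 La K := by
  have key : ∀ P : Pa, chk P = true → ri P.ea ≤ η → η ≤ ri P.eb → _ := fun P c a b =>
    (sy (by linarith) h1 (by
      rw [chk, forceS_eq, Bool.and_eq_true, decide_eq_true_eq] at c; exact c.2.2.1) a b).ex c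
  rcases le_total η 0.3 with c | c
  · exact key Ra chk0 (le_trans (by norm_num [ri, Ra]) h0) (c.trans (by norm_num [ri, Ra]))
  · exact key Rb chk1 (le_trans (by norm_num [ri, Rb]) c) (h1.trans (by norm_num [ri, Rb]))

theorem improve2 (hp : 2.05 ≤ p) (hp' : p ≤ 2.4) {ι : Type*} (T : Finset ι) (x : ι → ℝ) {a b : ℝ}
    (hb : 0 ≤ b) (hab : b < a) (hx : ∀ j ∈ T, b ≤ x j ∧ x j ≤ a) (hs : a + b + ∑ j ∈ T, x j = 1) :
    ∃ α β : ℝ, 0 ≤ α ∧ 0 ≤ β ∧ α + β = a + b ∧
      ∫ s in Ioi (0 : ℝ), ff p (√a * s) * ff p (√b * s) * ∏ j ∈ T, ff p (√(x j) * s) <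
      ∫ s in Ioi (0 : ℝ), ff p (√α * s) * ff p (√β * s) * ∏ j ∈ T, ff p (√(x j) * s) := by
  have h2 := hp
  replace hp : 2 < p := by linarith
  have x0 : ∀ j ∈ T, 0 ≤ x j := fun j hj => hb.trans (hx j hj).1
  by_cases hz : ∀ j ∈ T, x j = 0
  · have e : ∀ s, ∏ j ∈ T, ff p (√(x j) * s) = 1 := fun s => Finset.prod_eq_one fun j hj => by
      rw [hz j hj, Real.sqrt_zero, zero_mul, ff_zero hp]
    rw [Finset.sum_eq_zero hz, add_zero] at hs
    refine ⟨1 / 2, 1 / 2, by norm_num, by norm_num, by linarith, ?_⟩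
    simpa only [e, mul_one] using two_lt hp hb hab hs
  push Not at hz
  obtain ⟨j, hj, hj0⟩ := hz
  obtain ⟨k, hk, hk2⟩ := Finset.exists_max_image T x ⟨j, hj⟩
  obtain ⟨η, rfl⟩ : ∃ η, p = 2 + η := ⟨p - 2, by ring⟩
  have h0 : 0 < η := by linarith
  obtain ⟨_, _, _, _, _, _, _, _, _, X⟩ := ex2 (η := η) (by linarith) (by linarith)
  obtain ⟨δ, δ0, δ1, h⟩ := X.step (T := T) (x := x) (k := k) ⟨hb, hab, hk,
    ((x0 j hj).lt_of_ne' hj0).trans_le (hk2 j hj), (hx k hk).1, (hx k hk).2, x0, hk2, hs⟩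
  obtain ⟨l, l0, hl⟩ := ff_eq h0
  have e : ∀ α β : ℝ, 0 ≤ α → 0 ≤ β → ∫ s in Ioi (0 : ℝ), ff (2 + η) (√α * s) *
      ff (2 + η) (√β * s) * ∏ j ∈ T, ff (2 + η) (√(x j) * s) = (∫ s in Ioi (0 : ℝ),
      GG (EE η) (α * s ^ 2) * GG (EE η) (β * s ^ 2) * ∏ j ∈ T, GG (EE η) (x j * s ^ 2)) / l :=
    fun α β hα hβ => by
      rw [← integral_scale _ l0]
      refine setIntegral_congr_fun measurableSet_Ioi fun s hs => ?_
      rw [hl _ _ hα (le_of_lt hs), hl _ _ hβ (le_of_lt hs),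
        Finset.prod_congr rfl fun j hj => hl _ _ (x0 j hj) (le_of_lt hs)]
  refine ⟨a - δ, b + δ, by linarith, by linarith, by ring, ?_⟩
  rw [e _ _ (by linarith) hb, e _ _ (by linarith) (by linarith)]
  gcongr

theorem contOn_J2 (hp : 2.05 ≤ p) (hp' : p ≤ 2.4) {n : ℕ} (hn : 2 ≤ n) :
    ContinuousOn (fun x : Fin n → ℝ => ∫ s in Ioi (0 : ℝ), ∏ j, ff p (√(x j) * s))
      (stdSimplex ℝ (Fin n)) := by
  have h2 := hp
  replace hp : 2 < p := by linarith
  have c := cont_ff hp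
  have n0 : (2 : ℝ) ≤ n := by exact_mod_cast hn
  obtain ⟨η, rfl⟩ : ∃ η, p = 2 + η := ⟨p - 2, by ring⟩
  have h0 : 0 < η := by linarith
  obtain ⟨l, l0, hl⟩ := ff_eq h0
  obtain ⟨_, _, _, _, _, _, _, _, K, X⟩ := ex2 (η := η) (by linarith) (by linarith)
  refine continuousOn_of_dominated (bound := fun s => K * n * (1 + (l * s) ^ 2)⁻¹)
    (fun x _ => Continuous.aestronglyMeasurable (by fun_prop))
    (fun x hx => (ae_restrict_iff' measurableSet_Ioi).2 (Eventually.of_forall fun s hs => ?_))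
    ((integrable_inv_one_add_sq.comp_mul_left' l0.ne').const_mul _).integrableOn
    (Eventually.of_forall fun s => Continuous.continuousOn (by fun_prop))
  have : Nonempty (Fin n) := ⟨⟨0, by omega⟩⟩
  obtain ⟨i, -, hi⟩ := Finset.exists_le_of_sum_le (s := Finset.univ) (f := fun _ => (1 : ℝ))
    (g := fun j => n * x j) Finset.univ_nonempty (by simp [← Finset.mul_sum, hx.2])
  have d := X.dG _ (mul_nonneg (hx.1 i) (sq_nonneg (l * s)))
  rw [← hl _ _ (hx.1 i) (le_of_lt hs)] at d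
  rw [Real.norm_eq_abs, ← Finset.mul_prod_erase _ _ (Finset.mem_univ i), abs_mul]
  refine (mul_le_of_le_one_right (abs_nonneg _)
    (abs_prod_le_one _ fun j => abs_ff_le hp _)).trans ?_
  rw [← div_eq_mul_inv, le_div_iff₀ (by positivity)]
  have q := abs_nonneg (ff (2 + η) (√(x i) * s))
  nlinarith [mul_le_mul_of_nonneg_left d (by linarith : (0 : ℝ) ≤ n),
    mul_le_mul_of_nonneg_left hi (mul_nonneg q (sq_nonneg (l * s)))]

/-- For `2 < p ≤ 2.4` the main diagonal is the unique maximiser in every dimension. -/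
theorem regimeS2 (hp : 2 < p) (hp' : p ≤ 2.4) {n : ℕ} (hn : 2 ≤ n) (x : Fin n → ℝ)
    (hx : ∀ j, 0 ≤ x j) (hs : ∑ j, x j = 1) (hne : ∃ j, x j ≠ 1 / n) :
    ∫ s in Ioi (0 : ℝ), ∏ j, ff p (√(x j) * s) < ∫ s in Ioi (0 : ℝ), ff p (√(1 / n) * s) ^ n := by
  rcases le_total p 2.05 with c | c
  · exact regimeS hp c hn x hx hs hne
  have n0 : (0 : ℝ) < n := by positivity
  set J := fun x : Fin n → ℝ => ∫ s in Ioi (0 : ℝ), ∏ j, ff p (√(x j) * s) with hJ
  have imp : ∀ z ∈ stdSimplex ℝ (Fin n), (∃ j, z j ≠ 1 / n) →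
      ∃ y ∈ stdSimplex ℝ (Fin n), J z < J y := by
    rintro z hz ⟨j0, hj0⟩
    obtain ⟨i, -, hi⟩ := Finset.exists_max_image Finset.univ z ⟨j0, Finset.mem_univ _⟩
    obtain ⟨j, -, hj⟩ := Finset.exists_min_image Finset.univ z ⟨j0, Finset.mem_univ _⟩
    have lt : z j < z i := by
      refine lt_of_not_ge fun h => hj0 ?_
      have e : ∀ l, z l = z j0 := fun l => le_antisymm
        ((hi l (Finset.mem_univ _)).trans (h.trans (hj j0 (Finset.mem_univ _))))
        ((hi j0 (Finset.mem_univ _)).trans (h.trans (hj l (Finset.mem_univ _))))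
      have := hz.2
      rw [Finset.sum_congr rfl fun l _ => e l] at this
      simp only [Finset.sum_const, Finset.card_univ, Fintype.card_fin, nsmul_eq_mul] at this
      rw [eq_div_iff n0.ne']; linarith
    have ne : j ≠ i := fun h => by rw [h] at lt; exact lt_irrefl _ lt
    have mj : j ∈ Finset.univ.erase i := Finset.mem_erase.2 ⟨ne, Finset.mem_univ j⟩
    have sm : ∀ y : Fin n → ℝ, ∑ l, y l = y i + y j + ∑ l ∈ (Finset.univ.erase i).erase j, y l :=
      fun y => by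
        rw [← Finset.add_sum_erase _ _ (Finset.mem_univ i), ← Finset.add_sum_erase _ _ mj,
          add_assoc]
    have pr : ∀ y : Fin n → ℝ, J y = ∫ s in Ioi (0 : ℝ), ff p (√(y i) * s) * ff p (√(y j) * s) *
        ∏ l ∈ (Finset.univ.erase i).erase j, ff p (√(y l) * s) := fun y => by
      simp only [hJ]
      congr 1; funext s
      rw [← Finset.mul_prod_erase _ _ (Finset.mem_univ i), ← Finset.mul_prod_erase _ _ mj,
        mul_assoc]
    obtain ⟨α, β, hα, hβ, e, h⟩ := improve2 c hp' ((Finset.univ.erase i).erase j) z (hz.1 j) lt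
      (fun l _ => ⟨hj l (Finset.mem_univ _), hi l (Finset.mem_univ _)⟩) (by rw [← sm, hz.2])
    set y : Fin n → ℝ := fun l => if l = i then α else if l = j then β else z l with hy
    have yi : y i = α := by simp [hy]
    have yj : y j = β := by simp [hy, ne]
    have yl : ∀ l ∈ (Finset.univ.erase i).erase j, y l = z l := fun l hl => by
      simp only [Finset.mem_erase] at hl
      simp [hy, hl.1, hl.2.1]
    refine ⟨y, ⟨fun l => ?_, ?_⟩, ?_⟩
    · simp only [hy]
      split_ifs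
      exacts [hα, hβ, hz.1 l]
    · rw [sm, yi, yj, Finset.sum_congr rfl yl, e, ← sm, hz.2]
    · rw [pr z, pr y, yi, yj]
      refine h.trans_eq ?_
      congr 1; funext s
      congr 1
      exact Finset.prod_congr rfl fun l hl => by rw [yl l hl]
  obtain ⟨z, hz, hm⟩ := (isCompact_stdSimplex ℝ (Fin n)).exists_isMaxOn ⟨x, hx, hs⟩
    (contOn_J2 c hp' hn)
  have ez : z = fun _ => 1 / (n : ℝ) := by
    by_contra h
    obtain ⟨y, hy, lt⟩ := imp z hz (Function.ne_iff.1 h)
    exact absurd (hm hy) (not_le.2 lt)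
  obtain ⟨y, hy, lt⟩ := imp x ⟨hx, hs⟩ hne
  have := lt.trans_le (hm hy)
  simpa only [hJ, ez, Fin.prod_const] using this

end Pool.Agent.MP_39fec4_gt.Small
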