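import Pool.Agent.MP_39fec4_gt.S2Wt

set_option autoImplicit false

/-! Soundness of one step of the recursion. -/

namespace Pool.Agent.MP_39fec4_gt.Small

open MeasureTheory Set Filter Topology Real K

/-- The differential system. -/
structure Sy (E D Q J ψ : ℝ → ℝ) (η : ℝ) (P : Pa) : Prop where
  h0 : 0 < η
  ea : ri P.ea ≤ η
  eb : η ≤ ri P.eb
  cE : Continuous E
  cD : Continuous D
  cJ : Continuous J
  dE : ∀ τ, 0 < τ → HasDerivAt E (-D τ) τ
  dD : ∀ τ, 0 < τ → HasDerivAt D (Q τ) τ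
  dJ : ∀ τ, 0 < τ → HasDerivAt J (3 / 2 * √τ * GG E τ) τ
  E0 : E 0 = 1
  J0 : J 0 = 0
  D0 : ri P.c0 * η ≤ D 0 ∧ D 0 ≤ ri P.c1 * η
  lip : ∀ u v, 0 ≤ v → v ≤ u → |GG E u - GG E v| ≤ 1.6 * (√u - √v)
  Qe : ∀ τ, 0 < τ → Q τ = (J τ / (3 * (τ * √τ)) - ψ τ) * (η * Real.exp τ)
  ps : ∀ τ, 0 < τ → ψ τ ≤ ri P.a0 ∧ ψ τ ≤ ri P.a1 / τ + ri P.a2 ∧ ψ τ ≤ ri P.a3 / τ ∧
    |ψ τ| ≤ ri P.a4 / τ ^ 2 ∧ -ri P.a5 ≤ ψ τ
  Qb : ∀ τ, tt P.ib ≤ τ → 0 < τ → 0 ≤ Q τ

/-- The meaning of a state. -/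
structure Iv (E D J : ℝ → ℝ) (η : ℝ) (P : Pa) (τ : ℝ) (s : St) : Prop where
  gl : ri s.gl * Real.exp τ ≤ E τ
  gh : E τ ≤ ri s.gh * Real.exp τ
  dl : ri s.dl * (η * Real.exp τ) ≤ D τ
  dh : D τ ≤ ri s.dh * (η * Real.exp τ)
  jl : ri s.jl * (τ * √τ) ≤ J τ
  jh : J τ ≤ ri s.jh * (τ * √τ)
  el : ri s.el * Real.exp τ ≤ 1
  eh : 1 ≤ ri s.eh * Real.exp τ
  k0 : 0 ≤ s.ek
  ek : ri s.ek ≤ Real.exp (-(ri P.ka * min τ (tt P.iz)))

/-- Pointwise consequences. -/
structure Pt (E D Q : ℝ → ℝ) (η : ℝ) (P : Pa) (τ : ℝ) : Prop where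
  q0 : 0 < τ → 0 ≤ Q τ
  qg : 0 < τ → τ ≤ tt P.ig → η * ri P.qm ≤ Q τ
  gm : -ri P.m ≤ GG E τ
  g0 : τ ≤ tt P.i0 → ri P.m ≤ GG E τ
  gz : τ ≤ tt P.iz → 0 ≤ E τ
  far : tt P.iz ≤ τ → D τ ≤ ri P.kd * (η * env τ) ∧ |E τ| ≤ ri P.K2 * env τ ∧
    Q τ ≤ ri P.kq * (η * env τ)
  near : 0 < τ → τ ≤ tt P.iz → Q τ ≤ ri P.kq * (η * env (tt P.iz))
  th : (1 + τ * ri P.Li) * (ri P.K1 * (η * |E τ|) + ri P.K2 * D τ) ≤
    η * Real.exp τ * (ri P.th * Real.exp (-(ri P.ka * min τ (tt P.iz))))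

/-- The accumulated integrals. -/
structure Ac (E : ℝ → ℝ) (P : Pa) (i : ℤ) (s : St) : Prop where
  g : ∀ β, 0 ≤ β → β ≤ 1 → Real.exp (-(β * (ri P.ka * tt P.iz))) * (ri s.I0 + β * ri s.I1) ≤
    ∫ σ in (0 : ℝ)..(min i P.ig : ℤ) / 128,
      σ ^ 4 * Real.exp (-σ ^ 2) * GG E (σ ^ 2) * GG E (β * σ ^ 2)
  l : ∫ σ in (0 : ℝ)..i / 128, max (-GG E (σ ^ 2)) 0 / max σ (P.iz / 128) ≤ ri s.La

variable {E D Q J ψ f : ℝ → ℝ} {η τ a b c u : ℝ} {P : Pa} {i k x y : ℤ} {s : St}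

theorem le_G : c * Real.exp τ ≤ E τ ↔ c ≤ GG E τ := by
  rw [GG, Real.exp_neg, mul_comm _ (E τ), ← div_eq_mul_inv, le_div_iff₀ (Real.exp_pos τ)]

theorem G_le : E τ ≤ c * Real.exp τ ↔ GG E τ ≤ c := by
  rw [GG, Real.exp_neg, mul_comm _ (E τ), ← div_eq_mul_inv, div_le_iff₀ (Real.exp_pos τ)]

theorem int_step (hf : Continuous f) (hab : a ≤ b) (h : ∀ σ ∈ Icc a b, c ≤ f σ) :
    (∫ σ in (0 : ℝ)..a, f σ) + (b - a) * c ≤ ∫ σ in (0 : ℝ)..b, f σ := by
  rw [← intervalIntegral.integral_add_adjacent_intervals (hf.intervalIntegrable 0 a)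
    (hf.intervalIntegrable a b)]
  have := intervalIntegral.integral_mono_on (μ := volume) hab (continuous_const.intervalIntegrable a b)
    (hf.intervalIntegrable a b) h
  rw [intervalIntegral.integral_const, smul_eq_mul] at this
  linarith

theorem dv_tt (hx : 0 ≤ x) (hi : 0 < i) (hτ : tt i ≤ τ) :
    ri x / τ ≤ ri (x * 16384 / (i * i) + 1) ∧
      ri x / τ ^ 2 ≤ ri (x * 268435456 / (i * i * (i * i)) + 1) := by
  have a1 := dv_ge (x * 16384) (k := i * i) (by positivity)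
  have a2 := dv_ge (x * 268435456) (k := i * i * (i * i)) (by positivity)
  have t0 : 0 < tt i := by unfold tt; positivity
  have := ri_nonneg hx
  rw [ri_mul'] at a1 a2
  push_cast at a1 a2
  constructor
  · refine le_trans (by gcongr : _ ≤ ri x / tt i) ?_
    rw [div_le_iff₀ t0, tt]; linarith
  · refine le_trans (by gcongr : _ ≤ ri x / tt i ^ 2) ?_
    rw [div_le_iff₀ (by positivity), tt]; linarith

theorem to_env (hx : 0 ≤ ri x) (h0 : 0 < τ) (hk : 0 ≤ k) (h1 : τ ≤ tt k)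
    (h : x * (k * k * k) ≤ y * 2097152) : ri x * Real.exp τ ≤ ri y * env τ := by
  have a1 := cmp h
  have a2 : τ * √τ ≤ tt k * √(tt k) := by have := tt_nonneg k; gcongr
  rw [tt_cube hk] at a2
  push_cast at a1
  rw [env, mul_div_assoc', le_div_iff₀ (by positivity), mul_right_comm]
  exact mul_le_mul_of_nonneg_right (by linarith [mul_le_mul_of_nonneg_left a2 hx]) (Real.exp_pos _).le

theorem Cv.chord (h : Cv E D Q) (h0 : 0 ≤ τ) (b0 : 0 ≤ b) (b1 : b ≤ 1) :
    1 - b * (1 - E τ) ≤ E (b * τ) := by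
  have v0 := mul_nonneg b0 h0
  have v1 := mul_le_of_le_one_left h0 b1
  have a1 := (h.E_lip le_rfl v0).2
  have cE := h.cE
  have a2 := ge_of_deriv (f := fun x => -E x - x * D (b * τ)) (f' := fun x => D x - D (b * τ)) v1
    (by fun_prop) (fun x hx _ => ((h.dE x (by linarith)).neg.sub
      ((hasDerivAt_id x).mul_const _)).congr_deriv (by ring))
    fun x hx _ => sub_nonneg.2 (h.D_mono v0 hx.le)
  rw [h.E0] at a1
  linarith [mul_le_mul_of_nonneg_left a1 (sub_nonneg.2 b1), mul_le_mul_of_nonneg_left a2 b0]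

theorem gain_pt (h : Cv E D Q) {σ t A B β : ℝ} (h1 : σ ^ 2 ≤ t) (b0 : 0 ≤ β) (b1 : β ≤ 1)
    (hA : A ≤ c - t) (hB : 1 - E t ≤ B) (B1 : B ≤ 1) (hu : u ≤ A - B - max A 0 * B) :
    Real.exp (-(β * c)) * (1 + β * u) ≤ GG E (β * σ ^ 2) := by
  have t0 := (sq_nonneg σ).trans h1
  have B0 : 0 ≤ B := by linarith [h.E_le_one t0]
  have a1 : 1 - β * B ≤ E (β * σ ^ 2) := by
    linarith [h.chord t0 b0 b1, h.E_anti (by positivity) (mul_le_mul_of_nonneg_left h1 b0),
      mul_le_mul_of_nonneg_left hB b0]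
  have a2 : 0 ≤ 1 - β * B := sub_nonneg.2 (mul_le_one₀ b1 B0 B1)
  have a3 : 1 + β * A ≤ Real.exp (β * c - β * σ ^ 2) := by
    linarith [Real.add_one_le_exp (β * c - β * σ ^ 2), mul_le_mul_of_nonneg_left hA b0,
      mul_le_mul_of_nonneg_left h1 b0]
  have a4 : β * A ≤ max A 0 := (mul_le_mul_of_nonneg_left (le_max_left A 0) b0).trans
    (mul_le_of_le_one_left (le_max_right _ _) b1)
  have a5 : 1 + β * u ≤ (1 + β * A) * (1 - β * B) := by
    linarith [mul_le_mul_of_nonneg_left hu b0, mul_le_mul_of_nonneg_left a4 (mul_nonneg b0 B0)]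
  rw [GG, show -(β * σ ^ 2) = -(β * c) + (β * c - β * σ ^ 2) by ring, Real.exp_add, mul_assoc]
  exact mul_le_mul_of_nonneg_left (a5.trans (mul_le_mul a3 a1 a2 (Real.exp_pos _).le))
    (Real.exp_pos _).le

theorem allI {α : Type} {z : ℤ} {r : α} {f : ℤ → α} {p : Prop} (h : ∀ m, m = z → f m = r → p)
    (e : forceI z f = r) : p := h z rfl (forceI_eq z f ▸ e)

theorem forceS_eq {α : Type} (s : St) (f : St → α) : forceS s f = f s := by cases s; rfl

theorem forceB_eq {α : Type} (b : Bool) (f : Bool → α) : forceB b f = f b := by cases b <;> rfl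

theorem Sy.qb (h : Sy E D Q J ψ η P) (g1 : 0 ≤ P.a1) (g3 : 0 ≤ P.a3) (g4 : 0 ≤ P.a4) (i0 : 0 ≤ i)
    (h0 : 0 < τ) (h1 : tt i ≤ τ) (hx : ri x * (τ * √τ) ≤ J τ) (hy : J τ ≤ ri y * (τ * √τ))
    (hk : k = P.a4 * 268435456 / (i * i * (i * i)) + 1) :
    ri (x / 3 - if i = 0 then P.a0 else min (min P.a0 (P.a1 * 16384 / (i * i) + 1 + P.a2))
      (min (P.a3 * 16384 / (i * i) + 1) k)) * (η * Real.exp τ) ≤ Q τ ∧
    Q τ ≤ ri (y / 3 + 1 + if i = 0 then P.a5 else min P.a5 k) * (η * Real.exp τ) := by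
  obtain ⟨p0, p1, p3, p4, p5⟩ := h.ps τ h0
  have a1 := dv_le x (k := 3) (by norm_num)
  have a2 := dv_ge y (k := 3) (by norm_num)
  have w0 : 0 < τ * √τ := by positivity
  have b1 : ri x / 3 ≤ J τ / (3 * (τ * √τ)) := by rw [le_div_iff₀ (by positivity)]; linarith
  have b2 : J τ / (3 * (τ * √τ)) ≤ ri y / 3 := by rw [div_le_iff₀ (by positivity)]; linarith
  have e := (mul_pos h.h0 (Real.exp_pos τ)).le
  push_cast at a1 a2
  rw [h.Qe τ h0, ri_sub, ri_add]
  refine ⟨mul_le_mul_of_nonneg_right ?_ e, mul_le_mul_of_nonneg_right ?_ e⟩ <;> split_ifs with c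
  · linarith
  · have i1 : 0 < i := by omega
    have : ψ τ ≤ ri (min (min P.a0 (P.a1 * 16384 / (i * i) + 1 + P.a2))
        (min (P.a3 * 16384 / (i * i) + 1) k)) := by
      rw [ri_min, ri_min, ri_min, ri_add _ P.a2, hk]
      exact le_min (le_min p0 (by linarith [(dv_tt g1 i1 h1).1])) (le_min
        (p3.trans (dv_tt g3 i1 h1).1) ((le_of_abs_le p4).trans (dv_tt g4 i1 h1).2))
    linarith
  · linarith
  · have : -ψ τ ≤ ri (min P.a5 k) := by
      rw [ri_min, hk]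
      exact le_min (by linarith) (by linarith [neg_le_of_abs_le p4, (dv_tt g4 (by omega) h1).2])
    linarith

theorem cell (h : Sy E D Q J ψ η P) (g : P.good) (i0 : 0 ≤ i) {s' : St} (hs : step P i s = s')
    (ok : s'.ok = true) : s.ok = true ∧ (Iv E D J η P (tt i) s → Iv E D J η P (tt (i + 1)) s' ∧
      (∀ τ ∈ Icc (tt i) (tt (i + 1)), Pt E D Q η P τ) ∧
      (Cv E D Q → Ac E P i s → Ac E P (i + 1) s')) := by
  rw [step, forceS_eq] at hs
  revert hs
  refine allI fun b eb => allI fun k hk => allI fun i2 ei2 => allI fun b2 eb2 =>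
    allI fun rL erL => allI fun rH erH => allI fun cL ecL => allI fun f ef => allI fun qr eqr =>
    allI fun qh eqh => allI fun dl edl => allI fun dh edh => allI fun dL edL => allI fun dH edH =>
    allI fun gl egl => allI fun gh egh => allI fun gL egL => allI fun gH egH => allI fun gA egA =>
    allI fun jl ejl => allI fun jh ejh => allI fun el eel => allI fun eh eeh => allI fun ek eek =>
    allI fun w ew => allI fun B eB => allI fun A eA => allI fun I0 eI0 => allI fun I1 eI1 =>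
    allI fun La eLa => fun hs => ?_
  rw [forceB_eq] at hs
  subst hs eb ei2 eb2
  rw [Bool.and_eq_true, decide_eq_true_eq] at ok
  obtain ⟨ok, c1, c2, c3, c4, c5, c6, c7, c8, c9, c10, c11⟩ := ok
  obtain ⟨gg, gi, g0, gz, -, gb, -, g1, g3, g4, -, gm, gq, gk, gl', gK, gK', gt, gkq, -⟩ := g
  refine ⟨ok, fun v => ?_⟩
  have W := wt_exp i0 c1 hk
  rw [← erL, ← erH] at W
  have V := W.mul h.h0.le
  have U := wt_cube i0 ecL
  have t0 := tt_nonneg i
  have η0 := h.h0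
  have ex := Real.exp_pos
  have p : ∀ {τ}, tt i < τ → 0 < τ := fun h => t0.trans_lt h
  have m : ∀ {τ}, tt i < τ → τ < tt (i + 1) → τ ∈ Icc (tt i) (tt (i + 1)) := fun a b => ⟨a.le, b.le⟩
  have cr : ∀ τ ∈ Icc (tt i) (tt (i + 1)), ri (s.gl - 13743895348) ≤ GG E τ ∧
      GG E τ ≤ ri (s.gh + 13743895348) := fun τ hτ => by
    have a1 := abs_le.1 (h.lip τ _ t0 hτ.1)
    have a2 := Real.sqrt_le_sqrt hτ.2
    have a3 : 1.6 / 128 ≤ ri 13743895348 := by norm_num [ri]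
    rw [sqrt_tt (by omega)] at a2
    rw [sqrt_tt i0] at a1
    rw [ri_sub, ri_add]
    push_cast at a2
    constructor <;> linarith only [a1.1, a1.2, a2, a3, le_G.1 v.gl, G_le.1 v.gh]
  have jb : ∀ x y : ℤ, (∀ τ ∈ Icc (tt i) (tt (i + 1)), ri x ≤ GG E τ ∧ GG E τ ≤ ri y) → _ :=
    fun x y hx => And.intro
      (U.cvlo (y := x) h.cJ (fun τ a b => ⟨h.dJ τ (p a), (mul_comm _ _).trans_le
        (mul_le_mul_of_nonneg_left (hx τ (m a b)).1 (by positivity))⟩) v.jl)
      (U.cvhi (y := y) h.cJ (fun τ a b => ⟨h.dJ τ (p a), (mul_le_mul_of_nonneg_left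
        (hx τ (m a b)).2 (by positivity)).trans_eq (mul_comm _ _)⟩) v.jh)
  have q : ∀ τ ∈ Icc (tt i) (tt (i + 1)), 0 < τ → ri qr * (η * Real.exp τ) ≤ Q τ ∧
      Q τ ≤ ri qh * (η * Real.exp τ) ∧ 0 ≤ Q τ := fun τ hτ τ0 => by
    obtain ⟨a1, a2⟩ := h.qb g1 g3 g4 i0 τ0 hτ.1 ((jb _ _ cr).1.2 τ hτ) ((jb _ _ cr).2.2 τ hτ) ef
    rw [← eqr] at a1
    rw [← eqh] at a2
    exact ⟨a1, a2, c3.elim (fun c => h.Qb τ ((tt_le gb c).trans hτ.1) τ0) fun c =>
      (mul_nonneg (ri_nonneg c) (by positivity)).trans a1⟩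
  obtain ⟨d1, d2⟩ := V.cvlo (y := max qr 0) h.cD (fun τ a b => ⟨h.dD τ (p a), by
    rw [ri_max, max_mul_of_nonneg _ _ (by positivity), ri_zero, zero_mul]
    exact max_le (q τ (m a b) (p a)).1 (q τ (m a b) (p a)).2.2⟩) v.dl
  obtain ⟨d3, d4⟩ := V.cvhi (y := qh) h.cD
    (fun τ a b => ⟨h.dD τ (p a), (q τ (m a b) (p a)).2.1⟩) v.dh
  rw [← edl] at d1 d2
  rw [← edh] at d3 d4
  rw [← edL] at d2
  rw [← edH] at d4
  have L0 := ri_nonneg c2
  have H0 : 0 ≤ ri dH := L0.trans (le_of_mul_le_mul_right ((d2 _ ⟨le_rfl, W.ab⟩).trans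
    (d4 _ ⟨le_rfl, W.ab⟩)) (by positivity))
  obtain ⟨e1, e2⟩ := W.cvlo (y := -mU P.eb dH) h.cE (fun τ a b => ⟨h.dE τ (p a), by
    have := mul_le_mul_of_nonneg_right ((mul_le_mul_of_nonneg_right h.eb H0).trans (mU_ge _ _))
      (ex τ).le
    rw [ri_neg]; linarith only [this, d4 τ (m a b)]⟩) v.gl
  obtain ⟨e3, e4⟩ := W.cvhi (y := -mulI P.ea dL) h.cE (fun τ a b => ⟨h.dE τ (p a), by
    have := mul_le_mul_of_nonneg_right ((mulI_le _ _).trans (mul_le_mul_of_nonneg_right h.ea L0))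
      (ex τ).le
    rw [ri_neg]; linarith only [this, d2 τ (m a b)]⟩) v.gh
  rw [← egl] at e1 e2
  rw [← egh] at e3 e4
  rw [← egL] at e2
  rw [← egH] at e4
  obtain ⟨⟨j1, -⟩, j2, -⟩ := jb gL gH fun τ hτ => ⟨le_G.1 (e2 τ hτ), G_le.1 (e4 τ hτ)⟩
  obtain ⟨x1, -⟩ := W.cvlo (f := fun _ => 1) (f' := fun _ => 0) (y := 0) continuous_const
    (fun τ _ _ => ⟨hasDerivAt_const _ _, by simp [ri_zero]⟩) v.el
  obtain ⟨x2, -⟩ := W.cvhi (f := fun _ => 1) (f' := fun _ => 0) (y := 0) continuous_const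
    (fun τ _ _ => ⟨hasDerivAt_const _ _, by simp [ri_zero]⟩) v.eh
  rw [← eel] at x1
  rw [← eeh] at x2
  have κ0 := ri_nonneg gk
  have k1 : ri ek ≤ Real.exp (-(ri P.ka * min (tt (i + 1)) (tt P.iz))) := by
    rw [eek]
    split_ifs with c
    · have a1 := dv_ge (P.ka * k) (k := 16384) (by norm_num)
      have a2 := v.ek
      rw [ri_mul'] at a1
      rw [min_eq_left (tt_le i0 c.le)] at a2
      rw [min_eq_left (tt_le (by omega) (by omega)), tt_succ, ← hk, mul_add, neg_add, Real.exp_add]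
      refine (mulI_le _ _).trans ((mul_le_mul_of_nonneg_left ?_ (ri_nonneg v.k0)).trans
        (mul_le_mul_of_nonneg_right a2 (ex _).le))
      rw [ri_sub, ri_S]
      push_cast at a1
      linarith only [a1, Real.add_one_le_exp (-(ri P.ka * (k / 16384)))]
    · refine v.ek.trans (le_of_eq ?_)
      rw [min_eq_right (tt_le (by omega) (by omega)), min_eq_right (tt_le (by omega) (by omega))]
  have ga : ∀ τ ∈ Icc (tt i) (tt (i + 1)), |E τ| ≤ ri gA * Real.exp τ := fun τ hτ => by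
    have a1 := mul_le_mul_of_nonneg_right (ri_le.2 (le_max_left gH (-gL))) (ex τ).le
    have a2 := mul_le_mul_of_nonneg_right (ri_le.2 (le_max_right gH (-gL))) (ex τ).le
    rw [ri_neg, ← egA] at a2
    rw [← egA] at a1
    exact abs_le.2 ⟨by linarith only [a2, e2 τ hτ], by linarith only [a1, e4 τ hτ]⟩
  have A0 : 0 ≤ ri gA := nonneg_of_mul_nonneg_left ((abs_nonneg _).trans (ga _ ⟨le_rfl, W.ab⟩)) (ex _)
  have q0 : ∀ τ ∈ Icc (tt i) (tt (i + 1)), 0 < τ → 0 ≤ ri qh := fun τ hτ τ0 =>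
    nonneg_of_mul_nonneg_left ((q τ hτ τ0).2.2.trans (q τ hτ τ0).2.1) (by positivity)
  have z0 : (0 : ℝ) < P.iz := by exact_mod_cast (by omega : 0 < P.iz)
  refine ⟨⟨e1, e3, d1, d3, ejl ▸ j1, ejh ▸ j2, x1, x2, c4, k1⟩, fun τ hτ =>
    ⟨fun τ0 => (q τ hτ τ0).2.2, fun τ0 c => ?_, ?_, fun c => ?_, fun c => ?_, fun c => ?_,
      fun τ0 c => ?_, ?_⟩, fun cv ac => ⟨fun β b0 b1 => ?_, ?_⟩⟩
  · have a1 := (mU_ge _ _).trans (ri_le.2 (c7.resolve_left (le_of_tt gg (hτ.1.trans c))))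
    have a2 := mul_le_mul_of_nonneg_left v.eh (ri_nonneg gq)
    have a3 := mul_le_mul_of_nonneg_right a1 (ex (tt i)).le
    have a4 : 0 ≤ ri qr := nonneg_of_mul_nonneg_left (by linarith only [a2, a3, ri_nonneg gq])
      (ex (tt i))
    have a5 := mul_le_mul_of_nonneg_left (Real.exp_le_exp.2 hτ.1) a4
    have a6 := mul_le_mul_of_nonneg_left (by linarith only [a2, a3, a5] :
      ri P.qm ≤ ri qr * Real.exp τ) η0.le
    linarith only [a6, (q τ hτ τ0).1]
  · exact ri_neg P.m ▸ (ri_le.2 c6).trans (le_G.1 (e2 τ hτ))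
  · exact (ri_le.2 (c8.resolve_left (le_of_tt (by omega) (hτ.1.trans c)))).trans (le_G.1 (e2 τ hτ))
  · exact (mul_nonneg (ri_nonneg (c9.resolve_left (le_of_tt (by omega) (hτ.1.trans c))).1)
      (ex τ).le).trans (e2 τ hτ)
  · have τ0 : 0 < τ := lt_of_lt_of_le (by unfold tt; positivity) c
    obtain ⟨a1, a2, a3⟩ := c10.resolve_left (le_of_tt (by omega) (c.trans hτ.2))
    have b1 := mul_le_mul_of_nonneg_left (to_env H0 τ0 (by omega) hτ.2 a1) η0.le
    have b3 := mul_le_mul_of_nonneg_left (to_env (q0 τ hτ τ0) τ0 (by omega) hτ.2 a3) η0.le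
    exact ⟨by linarith only [b1, d4 τ hτ], (ga τ hτ).trans (to_env A0 τ0 (by omega) hτ.2 a2),
      by linarith only [b3, (q τ hτ τ0).2.1]⟩
  · have a1 := cmp (c9.resolve_left (le_of_tt (by omega) (hτ.1.trans c))).2
    have a2 := mul_le_mul_of_nonneg_left (Real.add_one_le_exp (tt P.iz - τ)) (ri_nonneg gkq)
    have a3 := mul_le_mul_of_nonneg_left hτ.2 (ri_nonneg gkq)
    have a4 : ri qh * Real.exp τ ≤ ri P.kq * env (tt P.iz) := by
      rw [env, tt_cube (by omega), mul_div_assoc', le_div_iff₀ (by positivity), mul_right_comm,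
        show Real.exp (tt P.iz) = Real.exp (tt P.iz - τ) * Real.exp τ by simp [← Real.exp_add],
        ← mul_assoc]
      refine mul_le_mul_of_nonneg_right ?_ (ex τ).le
      unfold tt at a2 a3 ⊢
      push_cast at a1 a3
      linarith only [a1, a2, a3]
    linarith only [mul_le_mul_of_nonneg_left a4 η0.le, (q τ hτ τ0).2.1]
  · have a1 := dv_ge (P.Li * ((i + 1) * (i + 1))) (k := 16384) (by norm_num)
    have a2 := mul_le_mul_of_nonneg_right hτ.2 (ri_nonneg gl'.le)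
    have a3 := (mU_ge _ _).trans ((ri_le.2 c11).trans ((mulI_le _ _).trans
      (mul_le_mul_of_nonneg_left (k1.trans (Real.exp_le_exp.2 (neg_le_neg (mul_le_mul_of_nonneg_left
        (min_le_min_right (tt P.iz) hτ.2) κ0)))) (ri_nonneg gt))))
    have a4 := mul_le_mul_of_nonneg_left (mul_le_mul_of_nonneg_left (ga τ hτ) η0.le) (ri_nonneg gK)
    have a5 := mul_le_mul_of_nonneg_left (d4 τ hτ) (ri_nonneg gK')
    have a6 := mul_le_mul_of_nonneg_left (add_le_add (mU_ge P.K1 gA) (mU_ge P.K2 dH))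
      (mul_pos η0 (ex τ)).le
    have a7 : 0 ≤ τ * ri P.Li := mul_nonneg (t0.trans hτ.1) (ri_nonneg gl'.le)
    rw [ri_mul'] at a1
    rw [tt] at a2
    rw [ri_add, ri_add (mU _ _), ri_S] at a3
    push_cast at a1 a2
    refine le_trans ?_ (mul_le_mul_of_nonneg_left a3 (by positivity))
    rw [mul_left_comm (η * _)]
    refine mul_le_mul (by linarith only [a1, a2]) (by linarith only [a4, a5, a6]) ?_
      (by linarith only [a1, a2, a7])
    have := (mul_nonneg L0 (by positivity)).trans (d2 τ hτ)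
    have := ri_nonneg gK
    have := ri_nonneg gK'
    positivity
  · have cG := cv.cont_G
    have a1 := ac.g β b0 b1
    have a2 := mul_le_mul_of_nonneg_left (mul_le_mul_of_nonneg_left (mulI_le w (A - B -
      mU (max A 0) B)) b0) (ex (-(β * (ri P.ka * tt P.iz)))).le
    simp only [eI0, eI1, ri_add]
    split_ifs at ew with c
    · have L1 := (c9.resolve_left (by omega)).1
      have h0 : 0 < ri eh := (pos_iff_pos_of_mul_pos (one_pos.trans_le x2)).2 (ex _)
      have h1 : 0 < eh := ri_lt.1 (ri_zero ▸ h0)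
      have a3 := dv_le (gl * S1) h1
      have a4 : 0 ≤ ri (gl * S1 / eh) := ri_nonneg (Int.ediv_nonneg
        (mul_nonneg (L1.trans (egL ▸ min_le_right _ _)) (by norm_num [S1])) h1.le)
      have a5 : ri (gl * S1 / eh) * ri eh ≤ ri gl := by
        rw [ri_mul, ri_S] at a3
        simp only [ri] at a3 ⊢
        linarith only [a3]
      have a6 := dv_le (P.ka * (P.iz * P.iz) - S1 * ((i + 1) * (i + 1))) (k := 16384) (by norm_num)
      have a7 := dv_le (mulI el gL * (i * i * (i * i))) (k := 34359738368) (by norm_num)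
      rw [← eA, ri_sub, ri_mul', ri_mul', ri_S] at a6
      rw [← ew, ri_mul'] at a7
      rw [min_eq_left c.le] at a1
      rw [min_eq_left (by omega)]
      refine le_trans ?_ (int_step (a := i / 128) (c := 128 * ri w * (Real.exp
        (-(β * (ri P.ka * tt P.iz))) * (1 + β * ri (A - B - mU (max A 0) B)))) (by fun_prop)
        (by push_cast; linarith only) fun σ hσ => ?_)
      · push_cast
        linarith only [a1, a2]
      · have s0 : 0 ≤ σ := le_trans (by positivity) hσ.1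
        have s1 : σ ^ 2 ∈ Icc (tt i) (tt (i + 1)) :=
          ⟨pow_le_pow_left₀ (by positivity) hσ.1 2, pow_le_pow_left₀ s0 hσ.2 2⟩
        have b2 : ri el ≤ Real.exp (-σ ^ 2) := by
          rw [Real.exp_neg, ← one_div, le_div_iff₀ (ex _)]
          rcases le_total 0 (ri el) with d | d
          · exact (mul_le_mul_of_nonneg_left (Real.exp_le_exp.2 s1.2) d).trans x1
          · exact (mul_nonpos_of_nonpos_of_nonneg d (ex _).le).trans zero_le_one
        have b3 := (mulI_le el gL).trans ((mul_le_mul_of_nonneg_right b2 (ri_nonneg L1)).trans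
          (mul_le_mul_of_nonneg_left (le_G.1 (e2 _ s1)) (ex _).le))
        have b4 := G_nonneg ((mul_nonneg (ri_nonneg L1) (ex _).le).trans (e2 _ s1))
        have b5 := mul_le_mul_of_nonneg_right (pow_le_pow_left₀ (by positivity) hσ.1 4)
          (mul_nonneg (ex (-σ ^ 2)).le b4)
        have b6 := mul_le_mul_of_nonneg_left b3 (by positivity : 0 ≤ ((i : ℝ) / 128) ^ 4)
        have b7 := gain_pt (c := ri P.ka * tt P.iz) (A := ri A) (B := ri B)
          (u := ri (A - B - mU (max A 0) B)) cv s1.2 b0 b1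
          (by unfold tt; push_cast at a6 ⊢; linarith only [a6]) (by
            rw [eB, ri_sub, ri_S]
            linarith only [e1, mul_le_mul_of_nonneg_left x2 a4,
              mul_le_mul_of_nonneg_right a5 (ex (tt (i + 1))).le])
          (by rw [eB, ri_sub, ri_S]; linarith only [a4])
          (by have := mU_ge (max A 0) B; rw [ri_max, ri_zero] at this; rw [ri_sub, ri_sub]
              linarith only [this])
        have b8 : 0 ≤ GG E (β * σ ^ 2) := G_nonneg ((le_trans (mul_nonneg (ri_nonneg L1) (ex _).le)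
          (e2 _ s1)).trans (cv.E_anti (by positivity) (mul_le_of_le_one_left (sq_nonneg σ) b1)))
        push_cast at a7
        exact (mul_le_mul_of_nonneg_left b7 (mul_nonneg (by norm_num) (ri_nonneg c5))).trans
          (mul_le_mul_of_nonneg_right (by linarith only [a7, b5, b6]) b8)
    · rw [min_eq_right (by omega)] at a1 ⊢
      rw [ew, ri_zero] at a2 ⊢
      linarith only [a1, a2]
  · have cG := cv.cont_G
    have a1 := dv_ge (max (-gL) 0) (k := max i P.iz) (by omega)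
    have a2 := int_step (a := i / 128) (b := (i + 1 : ℤ) / 128)
      (f := fun σ => -(max (-GG E (σ ^ 2)) 0 / max σ (P.iz / 128)))
      (c := -(128 * ri (max (-gL) 0 / max i P.iz + 1))) (Continuous.neg (Continuous.div
        (by fun_prop) (by fun_prop) fun σ => (lt_max_of_lt_right (by positivity)).ne'))
      (by push_cast; linarith only) fun σ hσ => by
        have s1 : σ ^ 2 ∈ Icc (tt i) (tt (i + 1)) := ⟨pow_le_pow_left₀ (by positivity) hσ.1 2,
          pow_le_pow_left₀ (le_trans (by positivity) hσ.1) hσ.2 2⟩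
        have b1 : max (-GG E (σ ^ 2)) 0 ≤ ri (max (-gL) 0) := by
          rw [ri_max, ri_neg, ri_zero]; exact max_le_max (neg_le_neg (le_G.1 (e2 _ s1))) le_rfl
        have b2 : ((max i P.iz : ℤ) : ℝ) / 128 ≤ max σ (P.iz / 128) := by
          rw [Int.cast_max, ← max_div_div_right (by norm_num)]; exact max_le_max hσ.1 le_rfl
        have b3 := mul_le_mul_of_nonneg_left b2 (ri_nonneg (z := max (-gL) 0 / max i P.iz + 1)
          (add_nonneg (Int.ediv_nonneg (le_max_right _ _) (by omega)) zero_le_one))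
        rw [neg_le_neg_iff, div_le_iff₀ (lt_max_of_lt_right (by positivity))]
        linarith only [a1, b1, b3]
    simp only [intervalIntegral.integral_neg] at a2
    simp only [eLa, ri_add s.La]
    push_cast at a2 ⊢
    linarith only [a2, ac.l]

end Pool.Agent.MP_39fec4_gt.Small
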