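import Pool.Agent.MP_39fec4_gt.ZDefs

set_option autoImplicit false

/-! Soundness of the fixed point arithmetic. -/

namespace Pool.Agent.MP_39fec4_gt.K

open Set Full

variable {a b k : ℕ} {x y : ℝ} {z w : ℤ}

theorem SS_eq : SS = 2 ^ 40 := by
  norm_num [SS]

theorem rr_SS : rr SS = 1 := by
  rw [rr, SS_eq]; norm_num

theorem rr_zero : rr 0 = 0 := by
  simp [rr]

theorem rr_one : rr 1 = 1 / 2 ^ 40 := by
  simp [rr]

theorem rr_nonneg (a : ℕ) : 0 ≤ rr a := by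
  unfold rr; positivity

theorem rr_pos (h : 0 < a) : 0 < rr a := by
  unfold rr
  have : (0 : ℝ) < a := by exact_mod_cast h
  positivity

theorem rr_le : rr a ≤ rr b ↔ a ≤ b := by
  unfold rr
  rw [div_le_div_iff_of_pos_right (by positivity)]
  exact Nat.cast_le

theorem rr_lt : rr a < rr b ↔ a < b := by
  unfold rr
  rw [div_lt_div_iff_of_pos_right (by positivity)]
  exact Nat.cast_lt

theorem rr_add (a b : ℕ) : rr (a + b) = rr a + rr b := by
  unfold rr; push_cast; ring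

theorem rr_succ (a : ℕ) : rr a ≤ rr (a + 1) :=
  rr_le.2 (Nat.le_succ a)

theorem rr_sub_ge (a b : ℕ) : rr a - rr b ≤ rr (a - b) := by
  rcases le_total b a with h | h
  · unfold rr; rw [Nat.cast_sub h]; apply le_of_eq; ring
  · have h1 := rr_le.2 h
    have h2 := rr_nonneg (a - b)
    linarith

theorem rr_sub (h : b ≤ a) : rr (a - b) = rr a - rr b := by
  unfold rr; rw [Nat.cast_sub h]; ring

theorem rr_sub_eq (a b : ℕ) : rr (a - b) = max (rr a - rr b) 0 := by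
  rcases le_total b a with h | h
  · rw [rr_sub h, max_eq_left]
    have := rr_le.2 h
    linarith
  · rw [Nat.sub_eq_zero_of_le h, rr_zero, max_eq_right]
    have := rr_le.2 h
    linarith

theorem rr_max (a b : ℕ) : rr (max a b) = max (rr a) (rr b) := by
  rcases le_total a b with h | h
  · rw [max_eq_right h, max_eq_right (rr_le.2 h)]
  · rw [max_eq_left h, max_eq_left (rr_le.2 h)]

theorem rr_min (a b : ℕ) : rr (min a b) = min (rr a) (rr b) := by
  rcases le_total a b with h | h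
  · rw [min_eq_left h, min_eq_left (rr_le.2 h)]
  · rw [min_eq_right h, min_eq_right (rr_le.2 h)]

theorem rr_nmul (k a : ℕ) : rr (k * a) = k * rr a := by
  unfold rr; push_cast; ring

theorem rr_muln (a k : ℕ) : rr (a * k) = rr a * k := by
  unfold rr; push_cast; ring

theorem rr_div_le (a k : ℕ) : rr (a / k) ≤ rr a / k := by
  unfold rr
  have h : ((a / k : ℕ) : ℝ) ≤ (a : ℝ) / k := Nat.cast_div_le
  calc ((a / k : ℕ) : ℝ) / 2 ^ 40 ≤ ((a : ℝ) / k) / 2 ^ 40 := by gcongr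
    _ = (a : ℝ) / 2 ^ 40 / k := by ring

theorem rr_div_lt (a : ℕ) (h : 0 < k) : rr a / k < rr (a / k + 1) := by
  unfold rr
  have hk : (0 : ℝ) < k := by exact_mod_cast h
  have h1 : a < (a / k + 1) * k := by
    rw [Nat.add_mul, Nat.one_mul]
    exact Nat.lt_div_mul_add h
  have h2 : (a : ℝ) < ((a / k + 1 : ℕ) : ℝ) * k := by exact_mod_cast h1
  have h3 : (a : ℝ) / k < ((a / k + 1 : ℕ) : ℝ) := by rwa [div_lt_iff₀ hk]
  calc (a : ℝ) / 2 ^ 40 / k = ((a : ℝ) / k) / 2 ^ 40 := by ring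
    _ < ((a / k + 1 : ℕ) : ℝ) / 2 ^ 40 := by gcongr

theorem rr_shl (a k : ℕ) : rr (a <<< k) = rr a * 2 ^ k := by
  rw [Nat.shiftLeft_eq, rr_muln]; push_cast; ring

theorem rr_shr_le (a k : ℕ) : rr (a >>> k) ≤ rr a / 2 ^ k := by
  rw [Nat.shiftRight_eq_div_pow]
  have := rr_div_le a (2 ^ k)
  push_cast at this
  exact this

theorem rr_shr_lt (a k : ℕ) : rr a / 2 ^ k < rr (a >>> k + 1) := by
  rw [Nat.shiftRight_eq_div_pow]
  have := rr_div_lt (k := 2 ^ k) a (by positivity)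
  push_cast at this
  exact this

/-- A product of two fixed point numbers has eighty fractional bits. -/
theorem rr_mul (a b : ℕ) : rr (a * b) = rr a * rr b * 2 ^ 40 := by
  unfold rr; push_cast; ring

theorem mulU_gt (a b : ℕ) : rr a * rr b < rr (mulU a b) := by
  have := rr_shr_lt (a * b) 40
  rw [rr_mul, mul_div_assoc, div_self (by positivity), mul_one] at this
  exact this

theorem mulU_ge (a b : ℕ) : rr a * rr b ≤ rr (mulU a b) :=
  (mulU_gt a b).le

theorem mulD_le (a b : ℕ) : rr (mulD a b) ≤ rr a * rr b := by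
  have := rr_shr_le (a * b) 40
  rw [rr_mul, mul_div_assoc, div_self (by positivity), mul_one] at this
  exact this

theorem mulD_lt (a b : ℕ) : rr a * rr b < rr (mulD a b + 1) :=
  mulU_gt a b

theorem mulU_eq (a b : ℕ) : mulU a b = mulD a b + 1 :=
  rfl

theorem mulD_mono {a' b' : ℕ} (h1 : a ≤ a') (h2 : b ≤ b') : mulD a b ≤ mulD a' b' := by
  unfold mulD
  rw [Nat.shiftRight_eq_div_pow, Nat.shiftRight_eq_div_pow]
  exact Nat.div_le_div_right (Nat.mul_le_mul h1 h2)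

theorem mulU_mono {a' b' : ℕ} (h1 : a ≤ a') (h2 : b ≤ b') : mulU a b ≤ mulU a' b' := by
  rw [mulU_eq, mulU_eq]
  exact Nat.succ_le_succ (mulD_mono h1 h2)

theorem le_mulU (h1 : x ≤ rr a) (h2 : y ≤ rr b) (h0 : 0 ≤ y) : x * y ≤ rr (mulU a b) :=
  (mul_le_mul h1 h2 h0 (rr_nonneg a)).trans (mulU_ge a b)

theorem le_mulU' (h1 : x ≤ rr a) (h2 : y ≤ rr b) (h0 : 0 ≤ x) : x * y ≤ rr (mulU a b) := by
  refine le_trans ?_ (mulU_ge a b)
  calc x * y ≤ x * rr b := mul_le_mul_of_nonneg_left h2 h0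
    _ ≤ rr a * rr b := mul_le_mul_of_nonneg_right h1 (rr_nonneg b)

theorem abs_le_mulU (h1 : |x| ≤ rr a) (h2 : |y| ≤ rr b) : |x * y| ≤ rr (mulU a b) := by
  rw [abs_mul]
  exact le_mulU h1 h2 (abs_nonneg y)

theorem mulD_le_of (h1 : rr a ≤ x) (h2 : rr b ≤ y) : rr (mulD a b) ≤ x * y :=
  (mulD_le a b).trans (mul_le_mul h1 h2 (rr_nonneg b) ((rr_nonneg a).trans h1))

theorem rr_pow_aux (a k : ℕ) : rr ((a ^ k) <<< 40) / 2 ^ (40 * k) = rr a ^ k := by
  rw [rr_shl]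
  unfold rr
  rw [div_pow, ← pow_mul]
  push_cast
  field_simp

theorem powD_lt' (a k : ℕ) : rr a ^ k < rr (powD a k + 1) := by
  have := rr_shr_lt ((a ^ k) <<< 40) (40 * k)
  rw [rr_pow_aux] at this
  exact this

theorem powU_ge (a k : ℕ) : rr a ^ k ≤ rr (powU a k) :=
  (powD_lt' a k).le

theorem powD_le (a k : ℕ) : rr (powD a k) ≤ rr a ^ k := by
  have := rr_shr_le ((a ^ k) <<< 40) (40 * k)
  rw [rr_pow_aux] at this
  exact this

theorem powD_lt (a k : ℕ) : rr a ^ k < rr (powD a k + 1) :=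
  powD_lt' a k

theorem le_powU (h0 : 0 ≤ x) (h : x ≤ rr a) (k : ℕ) : x ^ k ≤ rr (powU a k) :=
  (pow_le_pow_left₀ h0 h k).trans (powU_ge a k)

theorem abs_le_powU (h : |x| ≤ rr a) (k : ℕ) : |x ^ k| ≤ rr (powU a k) := by
  rw [abs_pow]
  exact le_powU (abs_nonneg x) h k

theorem powD_le_of (h : rr a ≤ x) (k : ℕ) : rr (powD a k) ≤ x ^ k :=
  (powD_le a k).trans (pow_le_pow_left₀ (rr_nonneg a) h k)

theorem rr_div_aux (a b : ℕ) : rr (a <<< 40) / (b : ℝ) = rr a / rr b := by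
  rw [rr_shl]
  unfold rr
  rw [div_div_eq_mul_div]

theorem divU_ge (a : ℕ) (h : 0 < b) : rr a / rr b ≤ rr (divU a b) := by
  have h1 : divU a b = (a <<< 40) / b + 1 := by
    unfold divU
    have : Nat.beq b 0 = false := by
      cases b with
      | zero => omega
      | succ n => rfl
    rw [this]; rfl
  rw [h1, ← rr_div_aux]
  exact (rr_div_lt _ h).le

theorem divU_pos (h : divU a b < BIG) : 0 < b := by
  rcases Nat.eq_zero_or_pos b with rfl | hb
  · exact absurd h (lt_irrefl BIG)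
  · exact hb

theorem divU_zero (a : ℕ) : divU a 0 = BIG :=
  rfl

theorem divD_le (a b : ℕ) : rr (divD a b) ≤ rr a / rr b := by
  rw [← rr_div_aux]
  exact rr_div_le _ _

theorem le_divU (h : 0 < b) (h1 : x ≤ rr a) (h2 : rr b ≤ y) : x / y ≤ rr (divU a b) := by
  have hb := rr_pos h
  refine le_trans ?_ (divU_ge a h)
  calc x / y ≤ rr a / y := div_le_div_of_nonneg_right h1 (hb.le.trans h2)
    _ ≤ rr a / rr b := div_le_div_of_nonneg_left (rr_nonneg a) hb h2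

theorem divD_le_of (h1 : rr a ≤ x) (h0 : 0 < y) (h2 : y ≤ rr b) : rr (divD a b) ≤ x / y := by
  refine (divD_le a b).trans ?_
  calc rr a / rr b ≤ rr a / y := div_le_div_of_nonneg_left (rr_nonneg a) h0 h2
    _ ≤ x / y := div_le_div_of_nonneg_right h1 h0.le

theorem sqrtL_sq (a : ℕ) : rr (sqrtL a) ^ 2 ≤ rr a := by
  have h : sqrtL a * sqrtL a ≤ a <<< 40 := by
    unfold sqrtL
    rw [forceN_eq]
    generalize isqL (a <<< 40) = r
    cases hb : Nat.ble (r * r) (a <<< 40)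
    · simp
    · simpa using Nat.le_of_ble_eq_true hb
  have h1 := rr_le.2 h
  rw [rr_mul, rr_shl] at h1
  have h2 := le_of_mul_le_mul_right h1 (by positivity)
  rw [sq]; exact h2

theorem sqrtL_le (a : ℕ) : rr (sqrtL a) ≤ √(rr a) :=
  Real.le_sqrt_of_sq_le (sqrtL_sq a)

theorem sqrtU_sq (a : ℕ) : rr a ≤ rr (sqrtU a) ^ 2 := by
  have h : a <<< 40 ≤ sqrtU a * sqrtU a := by
    unfold sqrtU isqU
    rw [forceN_eq]
    generalize isq (a <<< 40) + 1 = r
    generalize a <<< 40 = n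
    cases hb : Nat.ble n (r * r)
    · simp only [cond_false]
      nlinarith
    · simp only [cond_true]
      exact Nat.le_of_ble_eq_true hb
  have h1 := rr_le.2 h
  rw [rr_mul, rr_shl] at h1
  have h2 := le_of_mul_le_mul_right h1 (by positivity)
  rw [sq]; exact h2

theorem sqrtU_ge (a : ℕ) : √(rr a) ≤ rr (sqrtU a) :=
  Real.sqrt_le_iff.2 ⟨rr_nonneg _, sqrtU_sq a⟩

theorem LN2L_le : rr LN2L ≤ Real.log 2 := by
  have h := Real.sum_range_le_log_div (x := 1 / 3) (by norm_num) (by norm_num) 14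
  have e : ((1 : ℝ) + 1 / 3) / (1 - 1 / 3) = 2 := by norm_num
  rw [e] at h
  simp only [Finset.sum_range_succ, Finset.sum_range_zero] at h
  unfold rr LN2L
  norm_num at h ⊢
  linarith

theorem LN2H_ge : Real.log 2 ≤ rr LN2H := by
  have h := Real.log_div_le_sum_range_add (x := 1 / 3) (by norm_num) (by norm_num) 14
  have e : ((1 : ℝ) + 1 / 3) / (1 - 1 / 3) = 2 := by norm_num
  rw [e] at h
  simp only [Finset.sum_range_succ, Finset.sum_range_zero] at h
  unfold rr LN2H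
  norm_num at h ⊢
  linarith

theorem expU_ge (a : ℕ) : Real.exp (-rr a) ≤ rr (expU a) := by
  unfold expU
  simp only [forceN_eq]
  have hx : a / LN2H * LN2H ≤ a := Nat.div_mul_le_self a LN2H
  generalize a / LN2H = e at hx ⊢
  have hf : rr a = e * rr LN2H + rr (a - e * LN2H) := by
    rw [rr_sub hx, rr_nmul]; ring
  generalize a - e * LN2H = f at hf ⊢
  have f0 := rr_nonneg f
  have h2 : rr (mulD f f) ≤ rr f * rr f := mulD_le f f
  have h3 : rr (mulD (mulD f f) f) ≤ rr f * rr f * rr f := mulD_le_of h2 le_rfl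
  have h4 := rr_div_le (mulD f f) 2
  have h5 := rr_div_le (mulD (mulD f f) f) 6
  have hD : rr (SS + f + mulD f f / 2 + mulD (mulD f f) f / 6) ≤ Real.exp (rr f) := by
    have h := Real.sum_le_exp_of_nonneg f0 4
    simp only [Finset.sum_range_succ, Finset.sum_range_zero, Nat.factorial] at h
    rw [rr_add, rr_add, rr_add, rr_SS]
    push_cast at h h4 h5
    nlinarith
  have hD0 : 0 < SS + f + mulD f f / 2 + mulD (mulD f f) f / 6 := by
    have : 0 < SS := by rw [SS_eq]; positivity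
    omega
  generalize SS + f + mulD f f / 2 + mulD (mulD f f) f / 6 = D at hD hD0 ⊢
  have h6 : rr SS / rr D ≤ rr (divD SS D + 1) := by
    rw [← rr_div_aux]
    exact (rr_div_lt _ hD0).le
  have h7 : Real.exp (-rr f) ≤ rr (divD SS D + 1) := by
    refine le_trans ?_ h6
    rw [rr_SS, Real.exp_neg, one_div]
    exact inv_anti₀ (rr_pos hD0) hD
  have h8 : Real.exp (-(e * rr LN2H)) ≤ 1 / 2 ^ e := by
    have : Real.exp (-(e * rr LN2H)) ≤ Real.exp (-(e * Real.log 2)) := by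
      apply Real.exp_le_exp.2
      have := mul_le_mul_of_nonneg_left LN2H_ge (Nat.cast_nonneg (α := ℝ) e)
      linarith
    refine this.trans (le_of_eq ?_)
    rw [Real.exp_neg, Real.exp_nat_mul, Real.exp_log (by norm_num), one_div]
  refine le_trans ?_ (rr_shr_lt _ e).le
  rw [hf, neg_add, Real.exp_add]
  calc Real.exp (-(e * rr LN2H)) * Real.exp (-rr f) ≤ 1 / 2 ^ e * rr (divD SS D + 1) :=
        mul_le_mul h8 h7 (Real.exp_pos _).le (by positivity)
    _ = rr (divD SS D + 1) / 2 ^ e := by ring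

theorem le_expU (h : rr a ≤ x) : Real.exp (-x) ≤ rr (expU a) :=
  (Real.exp_le_exp.2 (neg_le_neg h)).trans (expU_ge a)

theorem nlogL_le (h0 : 0 < a) (h1 : a ≤ SS) : rr a ≤ Real.exp (-rr (nlogL a)) := by
  unfold nlogL
  simp only [forceN_eq]
  have hx : a <<< (39 - Nat.log2 a) ≤ SS := by
    rcases h1.eq_or_lt with h | h
    · have : 40 ≤ Nat.log2 a := by
        rw [Nat.le_log2 h0.ne', ← SS_eq]; exact h.ge
      rw [Nat.sub_eq_zero_of_le (by omega)]
      exact h1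
    · have h2 : Nat.log2 a < 40 := by
        rw [Nat.log2_lt h0.ne', ← SS_eq]; exact h
      have h3 : a < 2 ^ (Nat.log2 a + 1) := Nat.lt_log2_self
      rw [Nat.shiftLeft_eq, SS_eq]
      calc a * 2 ^ (39 - Nat.log2 a) ≤ 2 ^ (Nat.log2 a + 1) * 2 ^ (39 - Nat.log2 a) :=
            Nat.mul_le_mul_right _ h3.le
        _ = 2 ^ 40 := by rw [← pow_add]; congr 1; omega
  generalize 39 - Nat.log2 a = e at hx ⊢
  have hf : rr (SS - a <<< e) = 1 - rr a * 2 ^ e := by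
    rw [rr_sub hx, rr_SS, rr_shl]
  generalize SS - a <<< e = f at hf ⊢
  have f0 := rr_nonneg f
  have a0 := rr_pos h0
  have a1 : 0 < rr a * 2 ^ e := by positivity
  have f1 : |rr f| < 1 := by rw [abs_of_nonneg f0]; linarith
  have h2 : rr (mulD f f) ≤ rr f * rr f := mulD_le f f
  have h3 : rr (mulD (mulD f f) f) ≤ rr f * rr f * rr f := mulD_le_of h2 le_rfl
  have h4 := rr_div_le (mulD f f) 2
  have h5 := rr_div_le (mulD (mulD f f) f) 3
  have h6 := sum_le_hasSum (Finset.range 3) (fun i _ => by positivity)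
    (Real.hasSum_pow_div_log_of_abs_lt_one f1)
  simp only [Finset.sum_range_succ, Finset.sum_range_zero] at h6
  have h7 : Real.log (1 - rr f) = Real.log (rr a) + e * Real.log 2 := by
    rw [hf, sub_sub_cancel, Real.log_mul a0.ne' (by positivity), Real.log_pow]
  have h8 := mul_le_mul_of_nonneg_left LN2L_le (Nat.cast_nonneg (α := ℝ) e)
  rw [← Real.log_le_iff_le_exp a0, rr_add, rr_add, rr_add, rr_nmul]
  push_cast at h4 h5 h6
  nlinarith

theorem nlogL_big (h : SS ≤ a) : nlogL a = 0 := by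
  unfold nlogL
  simp only [forceN_eq]
  have h0 : a ≠ 0 := by
    have : 0 < SS := by rw [SS_eq]; positivity
    omega
  have h1 : 40 ≤ Nat.log2 a := by
    rw [Nat.le_log2 h0, ← SS_eq]; exact h
  rw [Nat.sub_eq_zero_of_le (show 39 ≤ Nat.log2 a by omega), Nat.shiftLeft_zero,
    Nat.sub_eq_zero_of_le h]
  simp [mulD]

theorem ri_nat (a : ℕ) : ri (a : ℤ) = rr a := by
  simp [ri, rr]

theorem ri_ofNat (a : ℕ) : ri (Int.ofNat a) = rr a :=
  ri_nat a

theorem ri_le : ri z ≤ ri w ↔ z ≤ w := by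
  unfold ri
  rw [div_le_div_iff_of_pos_right (by positivity)]
  exact Int.cast_le

theorem ri_lt : ri z < ri w ↔ z < w := by
  unfold ri
  rw [div_lt_div_iff_of_pos_right (by positivity)]
  exact Int.cast_lt

theorem ri_add (z w : ℤ) : ri (z + w) = ri z + ri w := by
  unfold ri; push_cast; ring

theorem ri_sub (z w : ℤ) : ri (z - w) = ri z - ri w := by
  unfold ri; push_cast; ring

theorem ri_neg (z : ℤ) : ri (-z) = -ri z := by
  unfold ri; push_cast; ring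

theorem ri_max (z w : ℤ) : ri (max z w) = max (ri z) (ri w) := by
  rcases le_total z w with h | h
  · rw [max_eq_right h, max_eq_right (ri_le.2 h)]
  · rw [max_eq_left h, max_eq_left (ri_le.2 h)]

theorem ri_min (z w : ℤ) : ri (min z w) = min (ri z) (ri w) := by
  rcases le_total z w with h | h
  · rw [min_eq_left h, min_eq_left (ri_le.2 h)]
  · rw [min_eq_right h, min_eq_right (ri_le.2 h)]

theorem ri_mul (z w : ℤ) : ri (z * w) = z * ri w := by
  unfold ri; push_cast; ring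

theorem ri_subNatNat (a b : ℕ) : ri (Int.subNatNat a b) = rr a - rr b := by
  rw [Int.subNatNat_eq_coe, ri_sub, ri_nat, ri_nat]

theorem ri_shr_le (z : ℤ) (k : ℕ) : ri (Int.shiftRight z k) ≤ ri z / 2 ^ k := by
  have e : Int.shiftRight z k = z / ((2 ^ k : ℕ) : ℤ) := Int.shiftRight_eq_div_pow z k
  rw [e]
  have h1 : z / ((2 ^ k : ℕ) : ℤ) * ((2 ^ k : ℕ) : ℤ) ≤ z :=
    Int.ediv_mul_le z (by positivity)
  generalize z / ((2 ^ k : ℕ) : ℤ) = u at h1 ⊢
  have h2 : (u : ℝ) * 2 ^ k ≤ z := by exact_mod_cast h1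
  unfold ri
  rw [le_div_iff₀ (by positivity), div_mul_eq_mul_div]
  gcongr

theorem ri_shr_lt (z : ℤ) (k : ℕ) : ri z / 2 ^ k < ri (Int.shiftRight z k) + 1 / 2 ^ 40 := by
  have e : Int.shiftRight z k = z / ((2 ^ k : ℕ) : ℤ) := Int.shiftRight_eq_div_pow z k
  rw [e]
  have h1 : z < (z / ((2 ^ k : ℕ) : ℤ) + 1) * ((2 ^ k : ℕ) : ℤ) :=
    Int.lt_ediv_add_one_mul_self z (by positivity)
  generalize z / ((2 ^ k : ℕ) : ℤ) = u at h1 ⊢
  have h2 : (z : ℝ) < (u + 1) * 2 ^ k := by exact_mod_cast h1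
  unfold ri
  rw [div_lt_iff₀ (by positivity), ← add_div, div_mul_eq_mul_div]
  gcongr

theorem mulI_le (z w : ℤ) : ri (mulI z w) ≤ ri z * ri w := by
  have h := ri_shr_le (z * w) 40
  rw [ri_mul] at h
  have e : (z : ℝ) * ri w / 2 ^ 40 = ri z * ri w := by unfold ri; ring
  rw [e] at h
  exact h

theorem mulI_lt (z w : ℤ) : ri z * ri w < ri (mulI z w) + 1 / 2 ^ 40 := by
  have h := ri_shr_lt (z * w) 40
  rw [ri_mul] at h
  have e : (z : ℝ) * ri w / 2 ^ 40 = ri z * ri w := by unfold ri; ring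
  rw [e] at h
  exact h

theorem rr_absI (z : ℤ) : rr (absI z) = |ri z| := by
  unfold rr ri absI
  rw [abs_div, abs_of_pos (show (0 : ℝ) < 2 ^ 40 by positivity), Nat.cast_natAbs, Int.cast_abs]

theorem rr_posI (z : ℤ) : rr (posI z) = max (ri z) 0 := by
  rw [← ri_nat, posI, Int.toNat_eq_max, ri_max]
  simp [ri]

theorem rr_negI (z : ℤ) : rr (negI z) = max (-ri z) 0 := by
  rw [← ri_neg, ← rr_posI]; rfl

theorem ro_eq (a : ℕ) : ro a = rr a - rr OFF := by
  unfold ro rr; ring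

theorem ro_le : ro a ≤ ro b ↔ a ≤ b := by
  rw [ro_eq, ro_eq, sub_le_sub_iff_right, rr_le]

theorem ro_add (a b : ℕ) : ro (a + b) = ro a + rr b := by
  rw [ro_eq, ro_eq, rr_add]; ring

theorem ro_OFF (a : ℕ) : ro (OFF + a) = rr a := by
  rw [ro_eq, rr_add]; ring

theorem ro_ofs (z : ℤ) : ri z ≤ ro (ofs z) := by
  have h : rr (ofs z) = max (ri (z + (OFF : ℤ))) 0 := rr_posI _
  rw [ro_eq, h, ri_add, ri_nat]
  have := le_max_left (ri z + rr OFF) 0
  linarith

theorem rr_sub_OFF (a : ℕ) : rr (a - OFF) = max (ro a) 0 := by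
  rw [rr_sub_eq, ro_eq]

theorem rr_OFF_sub (a : ℕ) : rr (OFF - a) = max (-ro a) 0 := by
  rw [rr_sub_eq, ro_eq, neg_sub]

theorem nth_eq (l : List ℕ) (i : ℕ) : nth l i = l.getD i 0 := by
  induction l generalizing i with
  | nil => rfl
  | cons a l ih =>
    cases i with
    | zero => rfl
    | succ j => exact ih j

theorem drp_eq (l : List ℕ) (i : ℕ) : drp l i = l.drop i := by
  induction i generalizing l with
  | zero => rfl
  | succ j ih =>
    cases l with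
    | nil => rfl
    | cons a l => exact ih l

theorem fld_eq (t w i : ℕ) : fld t w i = t / 2 ^ (w * i) % 2 ^ w := by
  unfold fld
  rw [Nat.shiftRight_eq_div_pow, Nat.one_shiftLeft]

theorem fld_lt (t w i : ℕ) : fld t w i < 2 ^ w := by
  rw [fld_eq]
  exact Nat.mod_lt _ (by positivity)

theorem fld_low {t w : ℕ} (h : a < 2 ^ w) : fld (a + (t <<< w)) w 0 = a := by
  rw [fld_eq, Nat.mul_zero, pow_zero, Nat.div_one, Nat.shiftLeft_eq, Nat.add_mul_mod_self_right,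
    Nat.mod_eq_of_lt h]

theorem fld_high {t w : ℕ} (h : a < 2 ^ w) (i : ℕ) :
    fld (a + (t <<< w)) w (i + 1) = fld t w i := by
  rw [fld_eq, fld_eq, Nat.shiftLeft_eq, Nat.mul_succ, Nat.add_comm (w * i) w, pow_add,
    ← Nat.div_div_eq_div_mul, Nat.add_mul_div_right _ _ (by positivity), Nat.div_eq_of_lt h,
    Nat.zero_add]

theorem nest15 (f0 f1 f2 f3 f4 f5 f6 f7 f8 f9 f10 f11 f12 f13 f14 : ℕ) :
    f0 + (f1 <<< 56) + (f2 <<< 112) + (f3 <<< 168) + (f4 <<< 224) + (f5 <<< 280) + (f6 <<< 336) + (f7 <<< 392) + (f8 <<< 448) + (f9 <<< 504) + (f10 <<< 560) + (f11 <<< 616) + (f12 <<< 672) + (f13 <<< 728) + (f14 <<< 784) =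
    f0 + ((f1 + ((f2 + ((f3 + ((f4 + ((f5 + ((f6 + ((f7 + ((f8 + ((f9 + ((f10 + ((f11 + ((f12 + ((f13 + ((f14 + (0 <<< 56)) <<< 56)) <<< 56)) <<< 56)) <<< 56)) <<< 56)) <<< 56)) <<< 56)) <<< 56)) <<< 56)) <<< 56)) <<< 56)) <<< 56)) <<< 56)) <<< 56) := by
  have e : ∀ f j : ℕ, f <<< (56 * j) = f * (2 ^ 56) ^ j := fun f j => by
    rw [Nat.shiftLeft_eq, pow_mul]
  have e2 : f2 <<< 112 = f2 * (2 ^ 56) ^ 2 := e f2 2
  have e3 : f3 <<< 168 = f3 * (2 ^ 56) ^ 3 := e f3 3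
  have e4 : f4 <<< 224 = f4 * (2 ^ 56) ^ 4 := e f4 4
  have e5 : f5 <<< 280 = f5 * (2 ^ 56) ^ 5 := e f5 5
  have e6 : f6 <<< 336 = f6 * (2 ^ 56) ^ 6 := e f6 6
  have e7 : f7 <<< 392 = f7 * (2 ^ 56) ^ 7 := e f7 7
  have e8 : f8 <<< 448 = f8 * (2 ^ 56) ^ 8 := e f8 8
  have e9 : f9 <<< 504 = f9 * (2 ^ 56) ^ 9 := e f9 9
  have e10 : f10 <<< 560 = f10 * (2 ^ 56) ^ 10 := e f10 10
  have e11 : f11 <<< 616 = f11 * (2 ^ 56) ^ 11 := e f11 11
  have e12 : f12 <<< 672 = f12 * (2 ^ 56) ^ 12 := e f12 12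
  have e13 : f13 <<< 728 = f13 * (2 ^ 56) ^ 13 := e f13 13
  have e14 : f14 <<< 784 = f14 * (2 ^ 56) ^ 14 := e f14 14
  rw [e2, e3, e4, e5, e6, e7, e8, e9, e10, e11, e12, e13, e14]
  simp only [Nat.shiftLeft_eq]
  generalize 2 ^ 56 = X
  ring

theorem INV_lt (h : a ≤ INV) : a < 2 ^ 56 := by
  unfold INV at h
  omega

theorem fld_pk {f0 f1 f2 f3 f4 f5 f6 f7 f8 f9 f10 f11 f12 f13 f14 r : ℕ}
    (h : r = f0 + (f1 <<< 56) + (f2 <<< 112) + (f3 <<< 168) + (f4 <<< 224) + (f5 <<< 280) + (f6 <<< 336) + (f7 <<< 392) + (f8 <<< 448) + (f9 <<< 504) + (f10 <<< 560) + (f11 <<< 616) + (f12 <<< 672) + (f13 <<< 728) + (f14 <<< 784))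
    (h0 : f0 < 2 ^ 56) (h1 : f1 < 2 ^ 56) (h2 : f2 < 2 ^ 56) (h3 : f3 < 2 ^ 56) (h4 : f4 < 2 ^ 56) (h5 : f5 < 2 ^ 56) (h6 : f6 < 2 ^ 56) (h7 : f7 < 2 ^ 56) (h8 : f8 < 2 ^ 56) (h9 : f9 < 2 ^ 56) (h10 : f10 < 2 ^ 56) (h11 : f11 < 2 ^ 56) (h12 : f12 < 2 ^ 56) (h13 : f13 < 2 ^ 56) (h14 : f14 < 2 ^ 56) :
    fld r 56 0 = f0 ∧ fld r 56 1 = f1 ∧ fld r 56 2 = f2 ∧ fld r 56 3 = f3 ∧ fld r 56 4 = f4 ∧ fld r 56 5 = f5 ∧ fld r 56 6 = f6 ∧ fld r 56 7 = f7 ∧ fld r 56 8 = f8 ∧ fld r 56 9 = f9 ∧ fld r 56 10 = f10 ∧ fld r 56 11 = f11 ∧ fld r 56 12 = f12 ∧ fld r 56 13 = f13 ∧ fld r 56 14 = f14 := by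
  rw [h, nest15]
  refine ⟨?_, ?_, ?_, ?_, ?_, ?_, ?_, ?_, ?_, ?_, ?_, ?_, ?_, ?_, ?_⟩
  · exact fld_low h0
  · exact (fld_high h0 0).trans (fld_low h1)
  · exact (fld_high h0 1).trans ((fld_high h1 0).trans (fld_low h2))
  · exact (fld_high h0 2).trans ((fld_high h1 1).trans ((fld_high h2 0).trans (fld_low h3)))
  · exact (fld_high h0 3).trans ((fld_high h1 2).trans ((fld_high h2 1).trans ((fld_high h3 0).trans (fld_low h4))))
  · exact (fld_high h0 4).trans ((fld_high h1 3).trans ((fld_high h2 2).trans ((fld_high h3 1).trans ((fld_high h4 0).trans (fld_low h5)))))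
  · exact (fld_high h0 5).trans ((fld_high h1 4).trans ((fld_high h2 3).trans ((fld_high h3 2).trans ((fld_high h4 1).trans ((fld_high h5 0).trans (fld_low h6))))))
  · exact (fld_high h0 6).trans ((fld_high h1 5).trans ((fld_high h2 4).trans ((fld_high h3 3).trans ((fld_high h4 2).trans ((fld_high h5 1).trans ((fld_high h6 0).trans (fld_low h7)))))))
  · exact (fld_high h0 7).trans ((fld_high h1 6).trans ((fld_high h2 5).trans ((fld_high h3 4).trans ((fld_high h4 3).trans ((fld_high h5 2).trans ((fld_high h6 1).trans ((fld_high h7 0).trans (fld_low h8))))))))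
  · exact (fld_high h0 8).trans ((fld_high h1 7).trans ((fld_high h2 6).trans ((fld_high h3 5).trans ((fld_high h4 4).trans ((fld_high h5 3).trans ((fld_high h6 2).trans ((fld_high h7 1).trans ((fld_high h8 0).trans (fld_low h9)))))))))
  · exact (fld_high h0 9).trans ((fld_high h1 8).trans ((fld_high h2 7).trans ((fld_high h3 6).trans ((fld_high h4 5).trans ((fld_high h5 4).trans ((fld_high h6 3).trans ((fld_high h7 2).trans ((fld_high h8 1).trans ((fld_high h9 0).trans (fld_low h10))))))))))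
  · exact (fld_high h0 10).trans ((fld_high h1 9).trans ((fld_high h2 8).trans ((fld_high h3 7).trans ((fld_high h4 6).trans ((fld_high h5 5).trans ((fld_high h6 4).trans ((fld_high h7 3).trans ((fld_high h8 2).trans ((fld_high h9 1).trans ((fld_high h10 0).trans (fld_low h11)))))))))))
  · exact (fld_high h0 11).trans ((fld_high h1 10).trans ((fld_high h2 9).trans ((fld_high h3 8).trans ((fld_high h4 7).trans ((fld_high h5 6).trans ((fld_high h6 5).trans ((fld_high h7 4).trans ((fld_high h8 3).trans ((fld_high h9 2).trans ((fld_high h10 1).trans ((fld_high h11 0).trans (fld_low h12))))))))))))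
  · exact (fld_high h0 12).trans ((fld_high h1 11).trans ((fld_high h2 10).trans ((fld_high h3 9).trans ((fld_high h4 8).trans ((fld_high h5 7).trans ((fld_high h6 6).trans ((fld_high h7 5).trans ((fld_high h8 4).trans ((fld_high h9 3).trans ((fld_high h10 2).trans ((fld_high h11 1).trans ((fld_high h12 0).trans (fld_low h13)))))))))))))
  · exact (fld_high h0 13).trans ((fld_high h1 12).trans ((fld_high h2 11).trans ((fld_high h3 10).trans ((fld_high h4 9).trans ((fld_high h5 8).trans ((fld_high h6 7).trans ((fld_high h7 6).trans ((fld_high h8 5).trans ((fld_high h9 4).trans ((fld_high h10 3).trans ((fld_high h11 2).trans ((fld_high h12 1).trans ((fld_high h13 0).trans (fld_low h14))))))))))))))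

/-- The fields of a packed record. -/
theorem pk15_fld {f0 f1 f2 f3 f4 f5 f6 f7 f8 f9 f10 f11 f12 f13 f14 r : ℕ}
    (h : r = pk15 f0 f1 f2 f3 f4 f5 f6 f7 f8 f9 f10 f11 f12 f13 f14) (h0 : 0 < r) :
    fld r 56 0 = f0 ∧ fld r 56 1 = f1 ∧ fld r 56 2 = f2 ∧ fld r 56 3 = f3 ∧ fld r 56 4 = f4 ∧
    fld r 56 5 = f5 ∧ fld r 56 6 = f6 ∧ fld r 56 7 = f7 ∧ fld r 56 8 = f8 ∧ fld r 56 9 = f9 ∧
    fld r 56 10 = f10 ∧ fld r 56 11 = f11 ∧ fld r 56 12 = f12 ∧ fld r 56 13 = f13 ∧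
    fld r 56 14 = f14 ∧ 0 < f0 ∧ 0 < f1 ∧ 0 < f3 ∧ 0 < f4 ∧ 0 < f7 ∧ f0 ≤ INV ∧ f1 ≤ INV ∧
    f2 ≤ INV ∧ f3 ≤ INV ∧ f4 ≤ INV ∧ f5 ≤ INV ∧ f6 ≤ INV ∧ f7 ≤ INV ∧ f8 ≤ INV ∧ f9 ≤ INV ∧
    f10 ≤ INV ∧ f11 ≤ INV ∧ f12 ≤ INV ∧ f13 ≤ INV ∧ f14 ≤ INV := by
  unfold pk15 at h
  rw [Bool.cond_eq_ite] at h
  split_ifs at h with hc
  · simp only [Bool.and_eq_true, Nat.blt_eq, Nat.ble_eq, max_le_iff] at hc
    obtain ⟨⟨⟨⟨⟨p0, p1⟩, p3⟩, p4⟩, p7⟩, ⟨⟨⟨q0, q1⟩, q2, q3⟩, ⟨q4, q5⟩, q6, q7⟩,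
      ⟨⟨q8, q9⟩, q10, q11⟩, ⟨q12, q13⟩, q14⟩ := hc
    obtain ⟨e0, e1, e2, e3, e4, e5, e6, e7, e8, e9, e10, e11, e12, e13, e14⟩ := fld_pk h
      (INV_lt q0) (INV_lt q1) (INV_lt q2) (INV_lt q3) (INV_lt q4) (INV_lt q5) (INV_lt q6)
      (INV_lt q7) (INV_lt q8) (INV_lt q9) (INV_lt q10) (INV_lt q11) (INV_lt q12) (INV_lt q13)
      (INV_lt q14)
    exact ⟨e0, e1, e2, e3, e4, e5, e6, e7, e8, e9, e10, e11, e12, e13, e14, p0, p1, p3, p4, p7,
      q0, q1, q2, q3, q4, q5, q6, q7, q8, q9, q10, q11, q12, q13, q14⟩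
  · omega

theorem pad11 (r s : ℕ) (h : r = s) :
    r = s + (0 <<< 616) + (0 <<< 672) + (0 <<< 728) + (0 <<< 784) := by
  rw [Nat.zero_shiftLeft, Nat.zero_shiftLeft, Nat.zero_shiftLeft, Nat.zero_shiftLeft]
  exact h

/-- The fields of a merged record. -/
theorem mrg_fld (a b : ℕ) {i : ℕ} (h : i ≤ 10) :
    fld (mrg a b) 56 i = max (fld a 56 i) (fld b 56 i) := by
  have m : ∀ j, max (fld a 56 j) (fld b 56 j) < 2 ^ 56 := fun j =>
    max_lt (fld_lt a 56 j) (fld_lt b 56 j)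
  have z0 : (0 : ℕ) < 2 ^ 56 := by positivity
  obtain ⟨e0, e1, e2, e3, e4, e5, e6, e7, e8, e9, e10, -⟩ :=
    fld_pk (r := mrg a b) (f11 := 0) (f12 := 0) (f13 := 0) (f14 := 0)
      (pad11 _ _ (rfl : mrg a b = _))
      (m 0) (m 1) (m 2) (m 3) (m 4) (m 5) (m 6) (m 7) (m 8) (m 9) (m 10) z0 z0 z0 z0
  interval_cases i
  exacts [e0, e1, e2, e3, e4, e5, e6, e7, e8, e9, e10]

/-- A loop of Boolean checks. -/
theorem all_rec {f : ℕ → Bool} {n : ℕ}
    (h : Nat.rec (motive := fun _ => Bool) true (fun i ih => f i && ih) n = true) :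
    ∀ i, i < n → f i = true := by
  induction n with
  | zero => intro i hi; omega
  | succ n ih =>
    have h' : (f n && Nat.rec (motive := fun _ => Bool) true (fun i ih => f i && ih) n) = true := h
    rw [Bool.and_eq_true] at h'
    intro i hi
    rcases Nat.lt_succ_iff_lt_or_eq.1 hi with h1 | h1
    · exact ih h'.2 i h1
    · rw [h1]; exact h'.1

end Pool.Agent.MP_39fec4_gt.K
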