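import Pool.Agent.MP_39fec4_gt.S2Cmp
import Pool.Agent.MP_39fec4_gt.S2Def
import Pool.Agent.MP_39fec4_gt.ZArith

set_option autoImplicit false

/-! Weighted one step bounds for the recursion. -/

namespace Pool.Agent.MP_39fec4_gt.Small

open MeasureTheory Set Filter Topology Real K

variable {f f' w w' : ℝ → ℝ} {a b c τ : ℝ} {i k r t x y z : ℤ}

theorem ri_S : ri S1 = 1 := by norm_num [ri, S1]

theorem ri_zero : ri 0 = 0 := by simp [ri]

theorem ri_nonneg (h : 0 ≤ z) : 0 ≤ ri z := ri_zero ▸ ri_le.2 h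

theorem ri_mul' (z k : ℤ) : ri (z * k) = ri z * k := by rw [mul_comm z, ri_mul, mul_comm]

theorem mU_ge (x y : ℤ) : ri x * ri y ≤ ri (mU x y) := by
  have := mulI_lt x y
  rw [mU, ri_add, show ri 1 = 1 / 2 ^ 40 by simp [ri]]; exact this.le

theorem dv_le (z : ℤ) (hk : 0 < k) : ri (z / k) * k ≤ ri z := by
  rw [← ri_mul']; exact ri_le.2 (Int.ediv_mul_le z hk.ne')

theorem dv_ge (z : ℤ) (hk : 0 < k) : ri z ≤ ri (z / k + 1) * k := by
  rw [← ri_mul']; exact ri_le.2 (Int.lt_ediv_add_one_mul_self z hk).le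

theorem cmp {u v : ℤ} (h : x * u ≤ y * v) : ri x * u ≤ ri y * v := by
  rw [← ri_mul', ← ri_mul']; exact ri_le.2 h

/-- An increasing weight on a cell. -/
structure Wt (w w' : ℝ → ℝ) (a b : ℝ) (r t : ℤ) : Prop where
  ab : a ≤ b
  c : ContinuousOn w (Icc a b)
  d : ∀ τ, a < τ → τ < b → HasDerivAt w (w' τ) τ
  w0 : 0 ≤ w a
  m : ∀ τ ∈ Icc a b, w a ≤ w τ ∧ w τ ≤ w b
  r0 : 0 ≤ ri r
  hr : ri r * w b ≤ w a
  ht : w a ≤ ri t * w b

theorem Wt.mul (W : Wt w w' a b r t) (hc : 0 ≤ c) :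
    Wt (fun τ => c * w τ) (fun τ => c * w' τ) a b r t :=
  ⟨W.ab, W.c.const_smul c, fun τ h1 h2 => (W.d τ h1 h2).const_mul c, mul_nonneg hc W.w0,
    fun τ h => ⟨mul_le_mul_of_nonneg_left (W.m τ h).1 hc, mul_le_mul_of_nonneg_left (W.m τ h).2 hc⟩,
    W.r0, by linarith [mul_le_mul_of_nonneg_left W.hr hc],
    by linarith [mul_le_mul_of_nonneg_left W.ht hc]⟩

theorem Wt.cvlo (W : Wt w w' a b r t) (cf : Continuous f)
    (hd : ∀ τ, a < τ → τ < b → HasDerivAt f (f' τ) τ ∧ ri y * w' τ ≤ f' τ) (h : ri x * w a ≤ f a) :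
    ri (lo r t x y) * w b ≤ f b ∧ ∀ τ ∈ Icc a b, ri (min x (lo r t x y)) * w τ ≤ f τ := by
  have key : ∀ τ ∈ Icc a b, ri y * w τ + (ri x - ri y) * w a ≤ f τ := fun τ hτ => by
    have := ge_of_deriv (f := fun u => f u - ri y * w u) (f' := fun u => f' u - ri y * w' u) hτ.1
      (cf.continuousOn.sub ((W.c.mono (Icc_subset_Icc_right hτ.2)).const_smul (ri y)))
      (fun u h1 h2 => (hd u h1 (h2.trans_le hτ.2)).1.sub
        ((W.d u h1 (h2.trans_le hτ.2)).const_mul _))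
      fun u h1 h2 => sub_nonneg.2 (hd u h1 (h2.trans_le hτ.2)).2
    linarith
  have a1 := mulI_le r (x - y)
  have a2 := mulI_le t (x - y)
  have l1 : ri (lo r t x y) ≤ ri y + ri r * (ri x - ri y) := by
    rw [lo, ri_add, ri_min, ← ri_sub]; linarith [min_le_left (ri (mulI r (x - y))) (ri (mulI t (x - y)))]
  have l2 : ri (lo r t x y) ≤ ri y + ri t * (ri x - ri y) := by
    rw [lo, ri_add, ri_min, ← ri_sub]
    linarith [min_le_right (ri (mulI r (x - y))) (ri (mulI t (x - y)))]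
  have p : ∀ τ ∈ Icc a b, 0 ≤ w τ := fun τ hτ => W.w0.trans (W.m τ hτ).1
  have hb := right_mem_Icc.2 W.ab
  rcases le_total 0 (ri x - ri y) with d | d
  · have q : ∀ τ ∈ Icc a b, ri (lo r t x y) * w τ ≤ f τ := fun τ hτ => by
      have := mul_le_mul_of_nonneg_left ((mul_le_mul_of_nonneg_left (W.m τ hτ).2 W.r0).trans W.hr) d
      linarith [key τ hτ, mul_le_mul_of_nonneg_right l1 (p τ hτ)]
    exact ⟨q b hb, fun τ hτ => (mul_le_mul_of_nonneg_right (ri_le.2 (min_le_right _ _))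
      (p τ hτ)).trans (q τ hτ)⟩
  · refine ⟨?_, fun τ hτ => (mul_le_mul_of_nonneg_right (ri_le.2 (min_le_left _ _))
      (p τ hτ)).trans ?_⟩
    · linarith [key b hb, mul_le_mul_of_nonneg_right l2 (p b hb), mul_le_mul_of_nonpos_left W.ht d]
    · linarith [key τ hτ, mul_le_mul_of_nonpos_left (W.m τ hτ).1 d]

theorem Wt.cvhi (W : Wt w w' a b r t) (cf : Continuous f)
    (hd : ∀ τ, a < τ → τ < b → HasDerivAt f (f' τ) τ ∧ f' τ ≤ ri y * w' τ) (h : f a ≤ ri x * w a) :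
    f b ≤ ri (hi r t x y) * w b ∧ ∀ τ ∈ Icc a b, f τ ≤ ri (max x (hi r t x y)) * w τ := by
  obtain ⟨h1, h2⟩ := W.cvlo (f := fun u => -f u) (f' := fun u => -f' u) (x := -x) (y := -y) cf.neg
    (fun u a1 a2 => ⟨(hd u a1 a2).1.neg, by rw [ri_neg]; linarith [(hd u a1 a2).2]⟩)
    (by rw [ri_neg]; linarith)
  refine ⟨by rw [hi, ri_neg]; linarith, fun τ hτ => ?_⟩
  have := h2 τ hτ
  rw [hi, ← neg_neg x, max_neg_neg, ri_neg, neg_neg]
  linarith

/-- The grid. -/
noncomputable def tt (i : ℤ) : ℝ := ((i : ℝ) / 128) ^ 2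

theorem tt_nonneg (i : ℤ) : 0 ≤ tt i := sq_nonneg _

theorem sqrt_tt (h : 0 ≤ i) : √(tt i) = i / 128 := Real.sqrt_sq (by positivity)

theorem tt_le (h : 0 ≤ i) (h1 : i ≤ k) : tt i ≤ tt k := by
  unfold tt; gcongr

theorem le_of_tt (h : 0 ≤ k) (h1 : tt i ≤ tt k) : ¬k < i := fun h2 => by
  have : tt k < tt i := by unfold tt; gcongr
  linarith

theorem tt_succ (i : ℤ) : tt (i + 1) = tt i + ((i + (i + 1) : ℤ) : ℝ) / 16384 := by
  unfold tt; push_cast; ring

theorem wt_exp (h0 : 0 ≤ i) (h1 : i ≤ 16000) (hk : k = i + (i + 1)) :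
    Wt Real.exp Real.exp (tt i) (tt (i + 1)) ((32768 - k) * S1 / (32768 + k))
      (536870912 * S1 / (536870912 + 32768 * k + k * k) + 1) := by
  have k0 : 0 < k := by omega
  have k1 : k < 32768 := by omega
  have a1 := dv_le ((32768 - k) * S1) (k := 32768 + k) (by omega)
  have a2 := dv_ge (536870912 * S1) (k := 536870912 + 32768 * k + k * k) (by positivity)
  have r0 : 0 ≤ ri ((32768 - k) * S1 / (32768 + k)) :=
    ri_nonneg (Int.ediv_nonneg (mul_nonneg (by omega) (by norm_num [S1])) (by omega))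
  have t0 : 0 ≤ ri (536870912 * S1 / (536870912 + 32768 * k + k * k) + 1) :=
    ri_nonneg (add_nonneg (Int.ediv_nonneg (by norm_num [S1]) (by positivity)) zero_le_one)
  rw [ri_mul, ri_S] at a1 a2
  push_cast at a1 a2
  have k2 : (0 : ℝ) < k := by exact_mod_cast k0
  have k3 : (k : ℝ) < 32768 := by exact_mod_cast k1
  have e := Real.exp_pos (tt i)
  refine ⟨tt_le h0 (by omega), Real.continuous_exp.continuousOn, fun τ _ _ => Real.hasDerivAt_exp τ,
    e.le, fun τ h => ⟨Real.exp_le_exp.2 h.1, Real.exp_le_exp.2 h.2⟩, r0, ?_, ?_⟩ <;>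
    rw [tt_succ, ← hk, Real.exp_add, mul_left_comm]
  · refine mul_le_of_le_one_right e.le ?_
    have := Real.exp_le_two_add_div_two_sub (x := k / 16384) (by positivity) (by linarith)
    rw [le_div_iff₀ (by linarith)] at this
    refine le_of_mul_le_mul_right ?_ (by linarith : 0 < 2 - (k : ℝ) / 16384)
    linarith [mul_le_mul_of_nonneg_left this r0]
  · refine le_mul_of_one_le_right e.le ?_
    have := Real.quadratic_le_exp_of_nonneg (x := k / 16384) (by positivity)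
    linarith [mul_le_mul_of_nonneg_left this t0]

theorem tt_cube (h : 0 ≤ i) : tt i * √(tt i) = (i : ℝ) * i * i / 2097152 := by
  rw [sqrt_tt h, tt]; ring

theorem wt_cube (h0 : 0 ≤ i) (hk : k = i * i * i * S1 / ((i + 1) * (i + 1) * (i + 1))) :
    Wt (fun τ => τ * √τ) (fun τ => 3 / 2 * √τ) (tt i) (tt (i + 1)) k (k + 1) := by
  have a1 := dv_le (i * i * i * S1) (k := (i + 1) * (i + 1) * (i + 1)) (by positivity)
  have a2 := dv_ge (i * i * i * S1) (k := (i + 1) * (i + 1) * (i + 1)) (by positivity)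
  rw [← hk, ri_mul, ri_S] at a1 a2
  have t0 := tt_nonneg i
  refine ⟨tt_le h0 (by omega), by fun_prop, fun τ h _ => ?_, by positivity, fun τ h => ⟨?_, ?_⟩,
    hk ▸ ri_nonneg (Int.ediv_nonneg (mul_nonneg (by positivity) (by norm_num [S1])) (by positivity)),
    ?_, ?_⟩
  · have τ0 := t0.trans_lt h
    have s0 := Real.sqrt_pos.2 τ0
    refine ((hasDerivAt_id τ).mul (Real.hasDerivAt_sqrt τ0.ne')).congr_deriv ?_
    simp only [id]
    nth_rewrite 2 [← Real.mul_self_sqrt τ0.le]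
    field_simp; ring
  · have := t0.trans h.1
    gcongr <;> exact h.1
  · have := t0.trans h.1
    have := tt_nonneg (i + 1)
    gcongr <;> exact h.2
  all_goals
    simp only [tt_cube h0, tt_cube (by omega : 0 ≤ i + 1)]
    push_cast at a1 a2 ⊢
    linarith

end Pool.Agent.MP_39fec4_gt.Small
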