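import Mathlib

set_option autoImplicit false

namespace Pool.Agent.MP_39fec4_gt.Small

open MeasureTheory Set Filter Topology Real

theorem ge_of_deriv {f f' : ℝ → ℝ} {a b : ℝ} (hab : a ≤ b) (hc : ContinuousOn f (Icc a b))
    (hd : ∀ x, a < x → x < b → HasDerivAt f (f' x) x) (h1 : ∀ x, a < x → x < b → 0 ≤ f' x) :
    f a ≤ f b := by
  refine monotoneOn_of_deriv_nonneg (convex_Icc a b) hc (fun x hx => ?_) (fun x hx => ?_)
    (left_mem_Icc.2 hab) (right_mem_Icc.2 hab) hab
  · rw [interior_Icc] at hx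
    exact (hd x hx.1 hx.2).differentiableAt.differentiableWithinAt
  · rw [interior_Icc] at hx
    rw [(hd x hx.1 hx.2).deriv]; exact h1 x hx.1 hx.2

/-- A function `E` with `E' = -D` and `D' = Q` on the half line. -/
structure Pre (E D Q : ℝ → ℝ) (η : ℝ) : Prop where
  h0 : 0 < η
  h1 : η ≤ 1 / 20
  cE : Continuous E
  cD : Continuous D
  dE : ∀ τ, 0 < τ → HasDerivAt E (-D τ) τ
  dD : ∀ τ, 0 < τ → HasDerivAt D (Q τ) τ
  E0 : E 0 = 1
  D0 : 0 ≤ D 0
  D1 : D 0 ≤ 0.72 * η

/-- The tail envelope. -/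
noncomputable def env (τ : ℝ) : ℝ := Real.exp τ / (τ * √τ)

/-- The concave case. -/
structure Pc (E D Q : ℝ → ℝ) (η : ℝ) : Prop extends Pre E D Q η where
  Qnn : ∀ τ, 0 < τ → 0 ≤ Q τ

/-- The concavity package. -/
structure Pk (E D Q : ℝ → ℝ) (η : ℝ) : Prop extends Pc E D Q η where
  Qlo : ∀ τ, 0 < τ → τ ≤ 3 → 0.31 * η ≤ Q τ
  Qhi : ∀ τ, 0 < τ → Q τ ≤ 0.2 * η + 0.142 * η * Real.exp τ
  Qtail : ∀ τ, 3 ≤ τ → Q τ ≤ 0.614 * η * env τ

variable {E D Q : ℝ → ℝ} {η τ u v : ℝ}

theorem Pre.D_le (h : Pre E D Q η) {α β : ℝ} (hQ : ∀ τ, 0 < τ → Q τ ≤ α + β * Real.exp τ)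
    (hτ : 0 ≤ τ) : D τ ≤ 0.72 * η + α * τ + β * (Real.exp τ - 1) := by
  have c := h.cD
  have := ge_of_deriv (f := fun x => α * x + β * Real.exp x - D x)
    (f' := fun x => α + β * Real.exp x - Q x) hτ (by fun_prop)
    (fun x hx _ => ((((hasDerivAt_id x).const_mul α).add ((Real.hasDerivAt_exp x).const_mul β)).sub
      (h.dD x hx)).congr_deriv (by simp)) (fun x hx _ => sub_nonneg.2 (hQ x hx))
  simp only [mul_zero, Real.exp_zero] at this
  linarith [h.D1]

theorem Pre.E_ge (h : Pre E D Q η) {α β : ℝ} (hQ : ∀ τ, 0 < τ → Q τ ≤ α + β * Real.exp τ)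
    (hτ : 0 ≤ τ) : 1 - E τ ≤ 0.72 * η * τ + α * τ ^ 2 / 2 + β * (Real.exp τ - 1 - τ) := by
  have c := h.cE
  have := ge_of_deriv
    (f := fun x => 0.72 * η * x + α * x ^ 2 / 2 + β * (Real.exp x - x) + E x)
    (f' := fun x => 0.72 * η + α * x + β * (Real.exp x - 1) - D x) hτ (by fun_prop)
    (fun x hx _ => (((((hasDerivAt_id x).const_mul (0.72 * η)).add
      (((hasDerivAt_pow 2 x).const_mul α).div_const 2)).add
      (((Real.hasDerivAt_exp x).sub (hasDerivAt_id x)).const_mul β)).add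
      (h.dE x hx)).congr_deriv (by simp; ring)) (fun x hx _ => sub_nonneg.2 (h.D_le hQ hx.le))
  simp only [mul_zero, Real.exp_zero, h.E0] at this
  linarith

theorem Pre.E_crude (h : Pre E D Q η) (hQ : ∀ τ, 0 < τ → Q τ ≤ 0.342 * η * Real.exp τ)
    (hτ : 0 ≤ τ) : 1 - 0.42 * η * Real.exp τ ≤ E τ := by
  have := h.E_ge (α := 0) (fun τ hτ => by simpa using hQ τ hτ) hτ
  have e := Real.sum_le_exp_of_nonneg hτ 4
  simp only [Finset.sum_range_succ, Finset.sum_range_zero, Nat.factorial] at e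
  norm_num at e
  have : 0.378 * τ - 0.342 ≤ 0.078 * Real.exp τ := by
    nlinarith [mul_nonneg hτ (sq_nonneg (τ - 2)), sq_nonneg (τ - 2)]
  nlinarith [h.h0]

theorem env_pos (hτ : 0 < τ) : 0 < env τ := by unfold env; positivity

theorem hasDerivAt_env (hτ : 0 < τ) : HasDerivAt env (env τ * (1 - 3 / (2 * τ))) τ := by
  have s0 : 0 < √τ := Real.sqrt_pos.2 hτ
  have s2 : √τ ^ 2 = τ := Real.sq_sqrt hτ.le
  have := (Real.hasDerivAt_exp τ).div ((hasDerivAt_id τ).mul (Real.hasDerivAt_sqrt hτ.ne'))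
    (by simp only [Pi.mul_apply, id]; positivity)
  refine this.congr_deriv ?_
  simp only [Pi.mul_apply, id, env]
  generalize √τ = s at *
  subst s2
  field_simp
  ring

theorem contOn_env {a b : ℝ} (ha : 0 < a) : ContinuousOn env (Icc a b) := fun _ hx =>
  (hasDerivAt_env (ha.trans_le hx.1)).continuousAt.continuousWithinAt

theorem env_deriv_ge {a : ℝ} (ha : 0 < a) (hτ : a < τ) :
    env τ * (1 - 3 / (2 * a)) ≤ env τ * (1 - 3 / (2 * τ)) := by
  have := env_pos (ha.trans hτ)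
  gcongr

theorem env_mono (hv : 3 ≤ v) (huv : v ≤ u) : env v ≤ env u :=
  ge_of_deriv huv (contOn_env (by linarith)) (fun x hx _ => hasDerivAt_env (by linarith))
    fun x hx _ => le_trans (by have := env_pos (τ := x) (by linarith); linarith)
      (env_deriv_ge (a := 3) (by norm_num) (by linarith))

theorem exp_three : 20.08 ≤ Real.exp 3 ∧ Real.exp 3 ≤ 20.09 := by
  have a := Real.exp_one_gt_d9
  have b := Real.exp_one_lt_d9
  have e : Real.exp 3 = Real.exp 1 ^ 3 := by rw [← Real.exp_nat_mul]; norm_num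
  rw [e]
  exact ⟨le_trans (by norm_num) (pow_le_pow_left₀ (by norm_num) a.le 3),
    (pow_le_pow_left₀ (Real.exp_pos 1).le b.le 3).trans (by norm_num)⟩

theorem exp_four : 54.59 ≤ Real.exp 4 ∧ Real.exp 4 ≤ 54.6 := by
  have a := Real.exp_one_gt_d9
  have b := Real.exp_one_lt_d9
  have e : Real.exp 4 = Real.exp 1 ^ 4 := by rw [← Real.exp_nat_mul]; norm_num
  rw [e]
  exact ⟨le_trans (by norm_num) (pow_le_pow_left₀ (by norm_num) a.le 4),
    (pow_le_pow_left₀ (Real.exp_pos 1).le b.le 4).trans (by norm_num)⟩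

theorem sqrt_three : 1.732 ≤ √(3 : ℝ) ∧ √(3 : ℝ) ≤ 1.7321 :=
  ⟨Real.le_sqrt_of_sq_le (by norm_num), Real.sqrt_le_iff.2 ⟨by norm_num, by norm_num⟩⟩

theorem sqrt_four : √(4 : ℝ) = 2 := by
  rw [show (4 : ℝ) = 2 ^ 2 by norm_num, Real.sqrt_sq (by norm_num)]

theorem Pc.D_mono (h : Pc E D Q η) (hv : 0 ≤ v) (huv : v ≤ u) : D v ≤ D u :=
  ge_of_deriv huv h.cD.continuousOn (fun x hx _ => h.dD x (by linarith))
    fun x hx _ => h.Qnn x (by linarith)

theorem Pc.D_nonneg (h : Pc E D Q η) (hτ : 0 ≤ τ) : 0 ≤ D τ := h.D0.trans (h.D_mono le_rfl hτ)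

theorem Pc.E_anti (h : Pc E D Q η) (hv : 0 ≤ v) (huv : v ≤ u) : E u ≤ E v := by
  have := ge_of_deriv (f := fun x => -E x) (f' := D) huv h.cE.neg.continuousOn
    (fun x hx _ => (h.dE x (by linarith)).neg.congr_deriv (neg_neg _))
    fun x hx _ => h.D_nonneg (by linarith)
  linarith

theorem Pc.E_le_one (h : Pc E D Q η) (hτ : 0 ≤ τ) : E τ ≤ 1 := h.E0 ▸ h.E_anti le_rfl hτ

theorem Pc.E_lip (h : Pc E D Q η) (hv : 0 ≤ v) (huv : v ≤ u) : E v - E u ≤ (u - v) * D u := by
  have c := h.cE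
  have := ge_of_deriv (f := fun x => E x + x * D u) (f' := fun x => D u - D x) huv (by fun_prop)
    (fun x hx _ => ((h.dE x (by linarith)).add ((hasDerivAt_id x).mul_const (D u))).congr_deriv
      (by ring)) fun x hx hu => sub_nonneg.2 (h.D_mono (by linarith) hu.le)
  linarith

theorem Pk.D_gain (h : Pk E D Q η) (hv : 0 ≤ v) (huv : v ≤ u) (hu : u ≤ 3) :
    (u - v) * (0.31 * η) ≤ D u - D v := by
  have c := h.cD
  have := ge_of_deriv (f := fun x => D x - x * (0.31 * η)) (f' := fun x => Q x - 0.31 * η) huv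
    (by fun_prop) (fun x hx _ => ((h.dD x (by linarith)).sub
      ((hasDerivAt_id x).mul_const (0.31 * η))).congr_deriv (by ring))
    fun x hx hu => sub_nonneg.2 (h.Qlo x (by linarith) (by linarith))
  linarith

theorem Pk.D_lip (h : Pk E D Q η) (hv : 3 ≤ v) (huv : v ≤ u) :
    D u - D v ≤ (u - v) * (0.614 * η * env u) := by
  have c := h.cD
  have := h.h0
  have := ge_of_deriv (f := fun x => x * (0.614 * η * env u) - D x)
    (f' := fun x => 0.614 * η * env u - Q x) huv (by fun_prop)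
    (fun x hx _ => (((hasDerivAt_id x).mul_const _).sub (h.dD x (by linarith))).congr_deriv
      (by ring)) fun x hx hu => sub_nonneg.2 ((h.Qtail x (by linarith)).trans (by
        have := env_mono (v := x) (by linarith) hu.le
        gcongr))
  linarith

theorem Pk.D_tail (h : Pk E D Q η) (hτ : 3 ≤ τ) : D τ ≤ 1.23 * η * env τ := by
  have c := h.cD
  have h0 := h.h0
  have := ge_of_deriv (f := fun x => 1.23 * η * env x - D x)
    (f' := fun x => 1.23 * η * (env x * (1 - 3 / (2 * x))) - Q x) hτ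
    (((contOn_env (by norm_num)).const_smul (1.23 * η)).sub c.continuousOn)
    (fun x hx _ => ((hasDerivAt_env (by linarith)).const_mul _).sub (h.dD x (by linarith)))
    fun x hx _ => by
      have a := env_deriv_ge (a := 3) (by norm_num) hx
      have b := h.Qtail x hx.le
      have c := env_pos (τ := x) (by linarith)
      nlinarith [mul_pos h0 c, mul_le_mul_of_nonneg_left a h0.le]
  have a := h.D_le h.Qhi (τ := 3) (by norm_num)
  have b : 3.86 ≤ env 3 := by
    rw [env, le_div_iff₀ (by positivity)]; linarith [exp_three.1, sqrt_three.2]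
  nlinarith [exp_three.2]

theorem Pk.E_four (h : Pk E D Q η) : 1 - E 4 ≤ 11.6 * η := by
  have a := h.E_ge h.Qhi (τ := 4) (by norm_num)
  nlinarith [exp_four.2, h.h0]

theorem Pk.E_nonneg (h : Pk E D Q η) (h0 : 0 ≤ τ) (h4 : τ ≤ 4) : 0 ≤ E τ := by
  linarith [h.E_anti h0 h4, h.E_four, h.h1]

theorem Pk.E_tail (h : Pk E D Q η) (hτ : 4 ≤ τ) : 1 - E τ ≤ 2 * η * env τ := by
  have c := h.cE
  have h0 := h.h0
  have := ge_of_deriv (f := fun x => 2 * η * env x + E x)
    (f' := fun x => 2 * η * (env x * (1 - 3 / (2 * x))) + -D x) hτ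
    (((contOn_env (by norm_num)).const_smul (2 * η)).add c.continuousOn)
    (fun x hx _ => ((hasDerivAt_env (by linarith)).const_mul _).add (h.dE x (by linarith)))
    fun x hx _ => by
      have a := env_deriv_ge (a := 4) (by norm_num) hx
      have b := h.D_tail (τ := x) (by linarith)
      have c := env_pos (τ := x) (by linarith)
      nlinarith [mul_pos h0 c, mul_le_mul_of_nonneg_left a h0.le]
  have b : 6.8 ≤ env 4 := by
    rw [env, sqrt_four, le_div_iff₀ (by positivity)]; linarith [exp_four.1]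
  nlinarith [h.E_four]

theorem exp_chord (h0 : 0 ≤ τ) (h3 : τ ≤ 3) : Real.exp τ - 1 - τ ≤ 5.37 * τ := by
  have b := convexOn_exp.2 (mem_univ 0) (mem_univ 3) (show 0 ≤ 1 - τ / 3 by linarith)
    (show 0 ≤ τ / 3 by linarith) (by ring)
  simp only [smul_eq_mul, mul_zero, zero_add, Real.exp_zero, mul_one] at b
  rw [div_mul_cancel₀ _ (by norm_num)] at b
  nlinarith [exp_three.2]

theorem Pk.E_head (h : Pk E D Q η) (h0 : 0 ≤ τ) (h3 : τ ≤ 3) : 1 - E τ ≤ 0.09 * τ := by
  have a := h.E_ge h.Qhi h0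
  have c := exp_chord h0 h3
  have d : 0.72 * η * τ + 0.2 * η * τ ^ 2 / 2 + 0.142 * η * (Real.exp τ - 1 - τ) ≤
      η * (1.8 * τ) := by
    have : 0.72 * τ + 0.2 * τ ^ 2 / 2 + 0.142 * (Real.exp τ - 1 - τ) ≤ 1.8 * τ := by nlinarith
    nlinarith [h.h0]
  nlinarith [h.h1]

theorem env_bound {a c : ℝ} (ha : 0 < a) (hτ : a ≤ τ) (hc : 1 + 1 / a ≤ c * √a) :
    (1 + τ) * env τ ≤ c * Real.exp τ := by
  have t0 : 0 < τ := ha.trans_le hτ
  have s1 : √a ≤ √τ := Real.sqrt_le_sqrt hτ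
  have s0 : 0 < √a := Real.sqrt_pos.2 ha
  have c0 : 0 < c := by
    have : 0 < c * √a := lt_of_lt_of_le (by positivity) hc
    exact (pos_iff_pos_of_mul_pos this).2 s0
  have : 1 + τ ≤ c * (τ * √τ) := by
    have b : 1 ≤ τ * (1 / a) := by rw [mul_one_div, le_div_iff₀ ha]; linarith
    calc 1 + τ ≤ τ * (1 + 1 / a) := by linarith
      _ ≤ τ * (c * √τ) := by gcongr; exact hc.trans (by gcongr)
      _ = _ := by ring
  rw [env, mul_div_assoc', div_le_iff₀ (by positivity)]
  nlinarith [Real.exp_pos τ]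

theorem Pk.D_bound (h : Pk E D Q η) (hv : 0 ≤ v) : (1 + v) * D v ≤ 1.55 * η * Real.exp v := by
  have h0 := h.h0
  rcases le_total v 3 with c | c
  · have a := h.D_le h.Qhi hv
    have e := Real.quadratic_le_exp_of_nonneg hv
    have b : (1 + v) * (0.72 + 0.2 * v + 0.142 * (Real.exp v - 1)) ≤ 1.55 * Real.exp v := by
      nlinarith [mul_le_mul_of_nonneg_right c (Real.exp_pos v).le]
    calc (1 + v) * D v ≤ (1 + v) * (η * (0.72 + 0.2 * v + 0.142 * (Real.exp v - 1))) := by
          gcongr; linarith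
      _ ≤ _ := by nlinarith
  · have a := h.D_tail c
    have b := env_bound (a := 3) (c := 0.77) (by norm_num) c (by linarith [sqrt_three.1])
    calc (1 + v) * D v ≤ (1 + v) * (1.23 * η * env v) := by gcongr
      _ ≤ _ := by nlinarith [Real.exp_pos v, mul_pos h0 (Real.exp_pos v)]

theorem Pk.E_neg (h : Pk E D Q η) (hv : 0 ≤ v) (hE : E v < 0) :
    4 ≤ v ∧ |E v| ≤ 2 * η * env v := by
  have a : 4 ≤ v := le_of_not_gt fun c => absurd (h.E_nonneg hv c.le) (not_le.2 hE)
  exact ⟨a, by rw [abs_of_neg hE]; linarith [h.E_tail a]⟩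

theorem Pk.E_bound (h : Pk E D Q η) (hv : 0 ≤ v) :
    (1 + v) * |E v| ≤ 1 + v + 1.25 * η * Real.exp v := by
  have h0 := h.h0
  rcases le_or_gt 0 (E v) with c | c
  · rw [abs_of_nonneg c]
    nlinarith [h.E_le_one hv, mul_pos h0 (Real.exp_pos v)]
  · obtain ⟨a, b⟩ := h.E_neg hv c
    have d := env_bound (a := 4) (c := 0.625) (by norm_num) a (by rw [sqrt_four]; norm_num)
    calc (1 + v) * |E v| ≤ (1 + v) * (2 * η * env v) := by gcongr
      _ ≤ _ := by nlinarith

/-- The Wronskian type quantity. -/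
def Om (E D : ℝ → ℝ) (u v : ℝ) : ℝ := D u * E v - E u * D v

theorem Pk.Om_ge (h : Pk E D Q η) (hv : 0 ≤ v) (huv : v ≤ u) :
    E v * (D u - D v) ≤ Om E D u v := by
  have := mul_nonneg (h.D_nonneg hv) (sub_nonneg.2 (h.E_anti hv huv))
  unfold Om; linarith

theorem Pk.Om_abs (h : Pk E D Q η) (hv : 0 ≤ v) (huv : v ≤ u) (hu : 4 ≤ u) :
    u * |Om E D u v| ≤ (u - v) * (η * env u) * (1.23 * (1 + v) + 0.232 * Real.exp v) := by
  have h0 := h.h0
  have e0 := env_pos (τ := u) (by linarith)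
  have w0 := mul_pos h0 e0
  have d1 := h.D_tail (τ := u) (by linarith)
  have d2 := h.E_tail hu
  have d3 := h.D_nonneg hv
  have d4 := h.D_mono hv huv
  have d5 := h.E_anti hv huv
  have uv := sub_nonneg.2 huv
  have key : u * (D u - D v) ≤ (u - v) * (1 + v) * (1.23 * (η * env u)) ∧
      u * (E v - E u) ≤ (u - v) * (1 + v) * (2 * (η * env u)) := by
    rcases le_total (u - v) 1 with c | c
    · have a1 := h.D_lip (by linarith) huv
      have a2 := h.E_lip hv huv
      have a3 : (u - v) * D u ≤ (u - v) * (2 * (η * env u)) := by gcongr; linarith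
      have a4 : (u - v) * (0.614 * η * env u) ≤ (u - v) * (1.23 * (η * env u)) :=
        mul_le_mul_of_nonneg_left (by linarith) uv
      constructor
      · calc u * (D u - D v) ≤ (1 + v) * ((u - v) * (1.23 * (η * env u))) := by
              gcongr <;> linarith
          _ = _ := by ring
      · calc u * (E v - E u) ≤ (1 + v) * ((u - v) * (2 * (η * env u))) := by
              gcongr <;> linarith
          _ = _ := by ring
    · have a : u ≤ (u - v) * (1 + v) := by nlinarith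
      constructor
      · gcongr; linarith
      · gcongr; linarith [h.E_le_one hv]
  have b1 := h.E_bound hv
  have b2 := h.D_bound hv
  have o : |Om E D u v| ≤ |E v| * (D u - D v) + D v * (E v - E u) := by
    rw [show Om E D u v = E v * (D u - D v) + D v * (E v - E u) by unfold Om; ring]
    refine (abs_add_le _ _).trans (le_of_eq ?_)
    rw [abs_mul, abs_of_nonneg (sub_nonneg.2 d4), abs_of_nonneg (mul_nonneg d3 (sub_nonneg.2 d5))]
  have ex := Real.exp_pos v
  calc u * |Om E D u v| ≤ u * (|E v| * (D u - D v) + D v * (E v - E u)) := by gcongr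
    _ = |E v| * (u * (D u - D v)) + D v * (u * (E v - E u)) := by ring
    _ ≤ |E v| * ((u - v) * (1 + v) * (1.23 * (η * env u))) +
        D v * ((u - v) * (1 + v) * (2 * (η * env u))) :=
      add_le_add (mul_le_mul_of_nonneg_left key.1 (abs_nonneg _))
        (mul_le_mul_of_nonneg_left key.2 d3)
    _ = (u - v) * (η * env u) * (1.23 * ((1 + v) * |E v|) + 2 * ((1 + v) * D v)) := by ring
    _ ≤ _ := mul_le_mul_of_nonneg_left (by linarith [mul_le_mul_of_nonneg_right h.h1 ex.le])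
      (by positivity)

end Pool.Agent.MP_39fec4_gt.Small
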