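import Pool.Agent.MP_39fec4_gt.STr
import Pool.Agent.MP_39fec4_gt.SPack

set_option autoImplicit false

namespace Pool.Agent.MP_39fec4_gt.Small

open MeasureTheory Set Filter Topology Real

variable {η r x s τ : ℝ}

theorem parts_one_sub {k k' g : ℝ → ℝ} (hk : IntegrableOn k (Ioi 0))
    (hd : ∀ x, 0 < x → HasDerivAt k (k' x) x) (hm : ContinuousOn k' (Ioi 0))
    (hg : IntegrableOn g (Ioi 0)) (hb : ∀ x, 0 < x → x ^ 2 * |k' x| ≤ g x)
    (h0 : Tendsto (fun x => x ^ 2 * |k x|) (𝓝[>] 0) (𝓝 0)) (s : ℝ) :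
    IntegrableOn (fun x => -k' x * (1 - Real.cos (s * x))) (Ioi 0) ∧
    s * sinT k s = ∫ x in Ioi (0 : ℝ), -k' x * (1 - Real.cos (s * x)) := by
  have b : ∀ (c x : ℝ), ‖c * (1 - Real.cos (s * x))‖ ≤ s ^ 2 / 2 * (x ^ 2 * |c|) := fun c x => by
    rw [Real.norm_eq_abs, abs_mul, abs_sub_comm]
    calc _ ≤ |c| * ((s * x) ^ 2 / 2) := by gcongr; exact abs_one_sub_cos_le _
      _ = _ := by ring
  have i2 : IntegrableOn (fun x => k' x * (1 - Real.cos (s * x))) (Ioi 0) :=
    (hg.const_mul (s ^ 2 / 2)).mono' ((hm.mul (by fun_prop)).aestronglyMeasurable measurableSet_Ioi)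
      ((ae_restrict_iff' measurableSet_Ioi).2 (Eventually.of_forall fun x hx =>
        (b _ x).trans (mul_le_mul_of_nonneg_left (hb x hx) (by positivity))))
  have i4 := (int_sin hk s).const_mul s
  have i5 : IntegrableOn (fun x => k x * (1 - Real.cos (s * x))) (Ioi 0) := by
    simp only [mul_sub, mul_one]; exact hk.sub (int_cos hk s)
  have d : ∀ x ∈ Ioi (0 : ℝ), HasDerivAt (fun x => k x * (1 - Real.cos (s * x)))
      (k' x * (1 - Real.cos (s * x)) + s * (k x * Real.sin (s * x))) x := fun x hx => by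
    refine ((hd x hx).mul (((hasDerivAt_id x).const_mul s).cos.const_sub 1)).congr_deriv ?_
    simp; ring
  have key := integral_Ioi_of_hasDerivAt_of_tendsto (continuousWithinAt_Ioi_iff_Ici.1 (by
    rw [ContinuousWithinAt, mul_zero, Real.cos_zero, sub_self, mul_zero]
    exact squeeze_zero_norm (fun x => b _ x) (by simpa using h0.const_mul (s ^ 2 / 2)))) d
    (i2.add i4) (tendsto_zero_of_hasDerivAt_of_integrableOn_Ioi d (i2.add i4) i5)
  rw [integral_add i2 i4, integral_const_mul, ← sinT] at key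
  simp only [neg_mul, integral_neg]
  refine ⟨i2.neg, ?_⟩
  simp only [mul_zero, Real.cos_zero, sub_self] at key
  linarith

theorem sS_lower (h0 : 0 < η) (h1 : η ≤ 1 / 20) (hs : 6.32 ≤ s) :
    6.4 ≤ (1 + η) * (s * Sr η (η - 1) s) := by
  have s0 : 0 < s := by linarith
  have cW : ∀ r, ContinuousOn (Wr η r) (Ioi 0) := fun r =>
    (continuousOn_id.rpow_const fun x hx => Or.inl (ne_of_gt hx)).mul (cont_kr h0).continuousOn
  have sq : ∀ r x, 0 < x → x ^ 2 * Wr η r x = Wr η (r + 2) x := fun r x hx => by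
    rw [Wr_add _ _ hx, Real.rpow_two]
  obtain ⟨i, e⟩ := parts_one_sub (k := Wr η (η - 1)) (int_Wr h0 (by linarith))
    (fun x hx => hasDerivAt_Wr h0 (a := η - 2) (b := η - 2 + (2 + η)) (by ring) (by ring) hx)
    (((cW _).const_smul (η - 1)).add ((cW _).const_smul (-4 : ℝ)))
    (g := fun x => 1 * Wr η (η - 2 + 2) x + 4 * Wr η (η - 2 + (2 + η) + 2) x)
    (((int_Wr h0 (by linarith)).const_mul _).add ((int_Wr h0 (by linarith)).const_mul _))
    (fun x hx => by
      have a := Wr_pos η (η - 2) hx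
      have b := Wr_pos η (η - 2 + (2 + η)) hx
      rw [← sq _ x hx, ← sq _ x hx, abs_of_nonpos (by nlinarith)]
      nlinarith [mul_pos (mul_pos h0 a) (pow_pos hx 2)])
    ((tendsto_Wr h0 (r := η - 1 + 2) (by linarith)).congr' (by
      filter_upwards [self_mem_nhdsWithin] with x hx
      rw [← sq _ x hx, abs_of_pos (Wr_pos _ _ hx)])) s
  set a := 3.16 / s with ha
  have a0 : 0 < a := by positivity
  have a1 : a ≤ 1 / 2 := by rw [ha, div_le_iff₀ s0]; linarith
  have j1 := intervalIntegral.intervalIntegrable_rpow' (a := 0) (b := a) (r := η) (by linarith)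
  have j2 := intervalIntegral.intervalIntegrable_rpow' (a := 0) (b := a) (r := η + 2) (by linarith)
  have e1 : ∫ x in Ioc (0 : ℝ) a, (1 - η) * (s ^ 2 / 2 * x ^ η - s ^ 4 / 24 * x ^ (η + 2)) ≤
      s * Sr η (η - 1) s := by
    rw [Sr, e]
    refine le_trans (setIntegral_mono_on (((j1.const_mul _).sub (j2.const_mul _)).const_mul _).1
      (i.mono_set Ioc_subset_Ioi_self) measurableSet_Ioc fun x hx => ?_)
      (setIntegral_mono_set i ((ae_restrict_iff' measurableSet_Ioi).2 (Eventually.of_forall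
        fun x hx => mul_nonneg ?_ (by linarith [Real.cos_le_one (s * x)])))
        Ioc_subset_Ioi_self.eventuallyLE)
    · have x0 : 0 < x := hx.1
      have w0 := Real.rpow_pos_of_pos x0 (η - 2)
      have y0 := Real.rpow_pos_of_pos x0 (2 + η)
      have y1 : x ^ (2 + η) ≤ 1 / 4 := by
        have := Real.rpow_le_rpow_of_exponent_ge x0 (by linarith [hx.2]) (by linarith : 2 ≤ 2 + η)
        rw [Real.rpow_two] at this
        nlinarith [hx.2]
      have k1 : 1 - 2 * x ^ (2 + η) ≤ kr η x := by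
        have : 4 / (2 + η) ≤ 2 := by rw [div_le_iff₀ (by positivity)]; linarith
        have := mul_le_mul_of_nonneg_right this y0.le
        linarith [Real.add_one_le_exp (-(4 / (2 + η)) * x ^ (2 + η)), kr.eq_1 η x]
      have c := Ball.cos_le_quartic (s * x)
      have c0 := Real.cos_le_one (s * x)
      rw [show x ^ η = x ^ (η - 2) * x ^ 2 by rw [← Real.rpow_two, ← Real.rpow_add x0]; ring_nf,
        show x ^ (η + 2) = x ^ (η - 2) * x ^ 4 by
          rw [← Real.rpow_natCast, ← Real.rpow_add x0]; congr 1; push_cast; ring,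
        Wr_add _ _ x0, Wr]
      generalize x ^ (2 + η) = y at *
      have f : 1 - η ≤ (1 - η + 4 * y) * kr η x := by
        nlinarith [mul_le_mul_of_nonneg_left k1 (by linarith : 0 ≤ 1 - η + 4 * y)]
      calc _ = x ^ (η - 2) * ((1 - η) * ((s * x) ^ 2 / 2 - (s * x) ^ 4 / 24)) := by ring
        _ ≤ x ^ (η - 2) * ((1 - η) * (1 - Real.cos (s * x))) := by
          gcongr _ * (_ * ?_) <;> linarith
        _ ≤ x ^ (η - 2) * ((1 - η + 4 * y) * kr η x * (1 - Real.cos (s * x))) := by gcongr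
        _ = _ := by ring
    · nlinarith [Wr_pos η (η - 2) hx, Wr_pos η (η - 2 + (2 + η)) hx]
  rw [← intervalIntegral.integral_of_le a0.le, intervalIntegral.integral_const_mul,
    intervalIntegral.integral_sub (j1.const_mul _) (j2.const_mul _),
    intervalIntegral.integral_const_mul, intervalIntegral.integral_const_mul,
    integral_rpow (Or.inl (by linarith)), integral_rpow (Or.inl (by linarith)),
    Real.zero_rpow (by linarith), Real.zero_rpow (by linarith), Real.rpow_add_one a0.ne',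
    Real.rpow_add_one a0.ne', Real.rpow_add a0, Real.rpow_two] at e1
  have sa : s * a = 3.16 := by rw [ha]; field_simp
  have w : 1.93 * a ≤ a ^ η := by
    have b1 := Real.rpow_le_rpow_of_nonpos a0 a1 (by linarith : η - 1 ≤ 0)
    have b2 : 1.93 ≤ (1 / 2 : ℝ) ^ (η - 1) := by
      rw [Real.rpow_sub_one (by norm_num), Real.rpow_def_of_pos (by norm_num), one_div,
        Real.log_inv, le_div_iff₀ (by norm_num)]
      nlinarith [Real.add_one_le_exp (-Real.log 2 * η), Real.log_two_lt_d9]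
    rw [Real.rpow_sub_one a0.ne'] at b1
    exact (le_div_iff₀ a0).1 (b2.trans b1)
  have w2 : 1.93 * 3.16 ≤ s * a ^ η := by rw [← sa]; nlinarith
  have e2 : (1 + η) * ((1 - η) * (s ^ 2 / 2 * ((a ^ η * a - 0) / (η + 1)) -
      s ^ 4 / 24 * ((a ^ η * a ^ 2 * a - 0) / (η + 2 + 1)))) =
      (1 - η) * (s * a ^ η) * (s * a / 2 - (1 + η) / (η + 3) * (s * a) ^ 3 / 24) := by
    field_simp; ring
  have q : (1 + η) / (η + 3) ≤ 0.35 := by rw [div_le_iff₀ (by positivity)]; linarith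
  refine le_trans ?_ (mul_le_mul_of_nonneg_left e1 (by linarith))
  rw [e2, sa]
  calc (6.4 : ℝ) ≤ 0.95 * (1.93 * 3.16) * (3.16 / 2 - 0.35 * 3.16 ^ 3 / 24) := by norm_num
    _ ≤ _ := by
      have : 0 ≤ 1 - η := by linarith
      gcongr; linarith

theorem U_big (h0 : 0 < η) (h1 : η ≤ 1 / 20) (hs : 6.32 ≤ s) : 0 ≤ Uf η s := by
  have a := sS_lower h0 h1 hs
  have b := le_of_abs_le (S2_le h0 h1 s)
  have c := le_of_abs_le (Psi_big h0 h1 s)
  have d := P1 h0 h0 (a := η - 1) (b := 1 + 2 * η) (by ring) (by ring) s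
  have m := m0_le h0 h1
  have m' := m0_pos h0
  have e : s * Uf η s = η / 4 * ((1 + η) * (s * Sr η (η - 1) s)) - η * (s * Sr η (1 + 2 * η) s) -
      s * Psi η s := by rw [U_eq h0, Phi, d]; ring
  refine le_of_mul_le_mul_left ?_ (by linarith : 0 < s)
  rw [e]
  have : 15.5 * η ^ 2 * m0 η ≤ η * (15.5 * (1 / 20) * 0.66) := by
    rw [show 15.5 * η ^ 2 * m0 η = η * (15.5 * η * m0 η) by ring]; gcongr
  nlinarith [mul_le_mul_of_nonneg_left a h0.le, mul_le_mul_of_nonneg_left b h0.le,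
    mul_le_mul_of_nonneg_left m h0.le]

/-- The sine transform divided by the frequency. -/
noncomputable def Sn (η s : ℝ) : ℝ := ∫ x in Ioi (0 : ℝ), Wr η 2 x * Real.sinc (s * x)

theorem Sn_eq (η : ℝ) (hs : s ≠ 0) : Sn η s = Sr η 1 s / s := by
  rw [Sn, Sr, sinT, ← integral_div]
  refine setIntegral_congr_fun measurableSet_Ioi fun x hx => ?_
  have hx : 0 < x := hx
  simp only [W_one, W_two, Real.sinc_of_ne_zero (mul_ne_zero hs hx.ne')]
  field_simp

theorem cont_Sn (h0 : 0 < η) : Continuous (Sn η) := by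
  have i := int_Wr h0 (r := 2) (by norm_num)
  exact continuous_of_dominated (bound := fun x => |Wr η 2 x|)
    (fun s => (int_mul_bdd i (by fun_prop) fun _ => Real.abs_sinc_le_one _).aestronglyMeasurable)
    (fun s => Eventually.of_forall fun x => by
      rw [Real.norm_eq_abs, abs_mul]
      exact mul_le_of_le_one_right (abs_nonneg _) (Real.abs_sinc_le_one _)) i.abs
    (Eventually.of_forall fun x => by fun_prop)

theorem Sn_zero (h0 : 0 < η) (h1 : η ≤ 1 / 20) :
    m0 η ≤ 4 * Sn η 0 ∧ 4 * Sn η 0 ≤ (1 + 0.72 * η) * m0 η := by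
  have i := int_Wr h0 (r := 2) (by norm_num)
  have m := m0_pos h0
  have e : Sn η 0 = ∫ x in Ioi (0 : ℝ), Wr η 2 x := by simp [Sn]
  have t0 : 0 < η / (2 + η) := by positivity
  obtain ⟨a1, a2⟩ := mom3 h0 0 (1 + η / (2 + η)) (-(η / (2 + η))) 0
  obtain ⟨b1, b2⟩ := mom3 h0 ((1 + 0.72 * η) * (η / (2 + η) / 4))
    ((1 + 0.72 * η) * (1 - η / (2 + η))) 0 0
  have a := setIntegral_mono_on a1 i measurableSet_Ioi fun x hx => by
    obtain ⟨θ, y, z, et, ey, -, t0, -, y0, -, e, -, b2, -, -, -⟩ := yz h0 h1 hx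
    rw [W_two, ← ey, ← et, mul_comm]
    refine mul_le_mul_of_nonneg_right ?_ (kr_pos η x).le
    nlinarith [mul_nonneg (sq_nonneg x) (sq_nonneg (1 - z)), mul_le_mul_of_nonneg_left b2 y0.le]
  have b := setIntegral_mono_on i b1 measurableSet_Ioi fun x hx => by
    obtain ⟨θ, y, z, et, ey, -, -, -, -, -, -, -, -, -, -, b5⟩ := yz h0 h1 hx
    rw [W_two, ← ey, ← et, mul_comm]
    exact mul_le_mul_of_nonneg_left (by linarith) (kr_pos η x).le
  rw [a2, ← e] at a
  rw [b2, ← e] at b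
  constructor
  · nlinarith [mul_nonneg (mul_pos m t0).le (by linarith : 0 ≤ 1 - η)]
  · linarith

/-- The function that is concave. -/
noncomputable def EE (η τ : ℝ) : ℝ := Real.exp τ * Cr η 0 √(8 * τ) / m0 η

/-- Minus its derivative. -/
noncomputable def DD (η τ : ℝ) : ℝ := Real.exp τ * (4 * Sn η √(8 * τ) - Cr η 0 √(8 * τ)) / m0 η

/-- Minus its second derivative. -/
noncomputable def QQ (η τ : ℝ) : ℝ := Real.exp τ * (16 * Uf η √(8 * τ) / (m0 η * √(8 * τ) ^ 3))

theorem pre (h0 : 0 < η) (h1 : η ≤ 1 / 20) : Pre (EE η) (DD η) (QQ η) η := by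
  have m := m0_pos h0
  have d0 := dC h0 (r := 0) (by norm_num) (a := 1) (by ring)
  have d1 := dS h0 (r := 1) (by norm_num) (a := 2) (by ring)
  have cC : Continuous (Cr η 0) := continuous_iff_continuousAt.2 fun s => (d0 s).continuousAt
  have cS := cont_Sn h0
  have ds : ∀ τ : ℝ, 0 < τ → HasDerivAt (fun τ => √(8 * τ)) (4 / √(8 * τ)) τ := fun τ hτ =>
    (((hasDerivAt_id τ).const_mul 8).sqrt (by simp only [id]; positivity)).congr_deriv
      (by simp only [id]; ring)
  obtain ⟨z1, z2⟩ := Sn_zero h0 h1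
  refine ⟨h0, h1, by unfold EE; fun_prop, by unfold DD; fun_prop, fun τ hτ => ?_, fun τ hτ => ?_,
    by simp [EE, C00, m.ne'], ?_, ?_⟩
  · have s0 : 0 < √(8 * τ) := by positivity
    refine (((Real.hasDerivAt_exp τ).mul ((d0 _).comp τ (ds τ hτ))).div_const _).congr_deriv ?_
    simp only [Function.comp, DD, Sn_eq η s0.ne']
    ring
  · have s0 : 0 < √(8 * τ) := by positivity
    have := ((Real.hasDerivAt_exp τ).mul ((((((d1 _).comp τ (ds τ hτ)).div (ds τ hτ)
      s0.ne').const_mul 4).sub ((d0 _).comp τ (ds τ hτ))))).div_const (m0 η)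
    refine (this.congr_of_eventuallyEq ?_).congr_deriv ?_
    · filter_upwards [lt_mem_nhds hτ] with y hy
      rw [DD, Sn_eq η (by positivity : √(8 * y) ≠ 0)]
      rfl
    · simp only [Function.comp, QQ, Uf, Pi.sub_apply, Pi.div_apply]
      field_simp
      ring
  · simp only [DD, mul_zero, Real.sqrt_zero, Real.exp_zero, one_mul, C00]
    exact div_nonneg (by linarith) m.le
  · simp only [DD, mul_zero, Real.sqrt_zero, Real.exp_zero, one_mul, C00]
    rw [div_le_iff₀ m]; linarith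

theorem C0_eq (h0 : 0 < η) (hs : 0 ≤ s) :
    Cr η 0 s = m0 η * (Real.exp (-(s ^ 2 / 8)) * EE η (s ^ 2 / 8)) := by
  have m := m0_pos h0
  rw [EE, show 8 * (s ^ 2 / 8) = s ^ 2 by ring, Real.sqrt_sq hs, Real.exp_neg]
  field_simp

theorem Phi_cmp (h0 : 0 < η) {e : ℝ} {f f' : ℝ → ℝ} (hf : ∀ s, HasDerivAt f (f' s) s)
    (f0 : f 0 = 0) (h : ∀ s, 0 < s → e * (s ^ 2 * Cr η 0 s) ≤ m0 η * f' s) (hs : 0 ≤ s) :
    e * (4 * Phi η s) ≤ m0 η * f s := by
  have := nonneg_of_deriv (f := fun s => m0 η * f s - e * (4 * Phi η s))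
    (f' := fun s => m0 η * f' s - e * (s ^ 2 * Cr η 0 s))
    (fun s => (((hf s).const_mul _).sub (((dPhi h0 s).const_mul 4).const_mul e)).congr_deriv
      (by ring)) (by simp [f0, Phi_zero]) (fun s hs => sub_nonneg.2 (h s hs)) hs
  linarith

theorem U_near (h0 : 0 < η) (h1 : η ≤ 1 / 20) (hs : 0 < s) :
    |16 * Uf η s / (m0 η * s ^ 3) - η * (4 * Phi η s / (m0 η * s ^ 3))| ≤ η * (0.026 / 3) := by
  have m := m0_pos h0
  have := Psi_small h0 h1 hs.le
  rw [U_eq h0, show 16 * (η / 4 * Phi η s - Psi η s) / (m0 η * s ^ 3) -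
    η * (4 * Phi η s / (m0 η * s ^ 3)) = -(16 * Psi η s / (m0 η * s ^ 3)) by ring, abs_neg, abs_div,
    abs_mul, abs_of_pos (by positivity : 0 < m0 η * s ^ 3), abs_of_pos (by norm_num : (0 : ℝ) < 16),
    div_le_iff₀ (by positivity)]
  nlinarith [mul_le_mul_of_nonneg_left h1 (by positivity : 0 ≤ η * (m0 η * s ^ 3))]

theorem dgauss (c s : ℝ) : HasDerivAt (fun s : ℝ => Real.exp (-(c * s ^ 2)))
    (-(2 * c * s) * Real.exp (-(c * s ^ 2))) s :=
  ((hasDerivAt_pow 2 s).const_mul c).neg.exp.congr_deriv (by simp; ring)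

theorem Q_lower (h0 : 0 < η) (h1 : η ≤ 1 / 20) (hτ : 0 < τ) :
    Real.exp τ * (η / 3 * (Real.exp (-(3 / 5 * τ)) - 0.047)) ≤ QQ η τ := by
  have m := m0_pos h0
  have crude : ∀ τ, 0 < τ → QQ η τ ≤ 0.342 * η * Real.exp τ := fun τ hτ => by
    have s0 : 0 < √(8 * τ) := by positivity
    have a := Phi_cmp h0 (e := 1) (f := fun s => s ^ 3 / 3) (f' := fun s => s ^ 2)
      (fun s => ((hasDerivAt_pow 3 s).div_const 3).congr_deriv (by simp)) (by simp)
      (fun s _ => by nlinarith [le_of_abs_le (abs_C0_le h0 s), sq_nonneg s]) s0.le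
    have b := le_of_abs_le (U_near h0 h1 s0)
    have c : 4 * Phi η √(8 * τ) / (m0 η * √(8 * τ) ^ 3) ≤ 1 / 3 := by
      rw [div_le_iff₀ (by positivity)]; linarith
    rw [QQ, mul_comm]
    gcongr
    nlinarith
  have s0 : 0 < √(8 * τ) := by positivity
  have a := Phi_cmp h0 (e := -1)
    (f := fun s => s ^ 3 / 3 * (0.42 * η - Real.exp (-(3 / 40 * s ^ 2))))
    (f' := fun s => s ^ 2 * (0.42 * η - Real.exp (-(3 / 40 * s ^ 2)) * (1 - s ^ 2 / 20)))
    (fun s => (((hasDerivAt_pow 3 s).div_const 3).mul ((dgauss (3 / 40) s).const_sub _)).congr_deriv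
      (by simp; ring)) (by simp) (fun s hs => by
      have e1 := mul_le_mul_of_nonneg_left ((pre h0 h1).E_crude crude
        (τ := s ^ 2 / 8) (by positivity)) (Real.exp_pos (-(s ^ 2 / 8))).le
      have e2 : Real.exp (-(s ^ 2 / 8)) * Real.exp (s ^ 2 / 8) = 1 := by
        rw [← Real.exp_add]; simp
      have e3 : Real.exp (-(3 / 40 * s ^ 2)) * (1 - s ^ 2 / 20) ≤ Real.exp (-(s ^ 2 / 8)) := by
        rw [show -(s ^ 2 / 8) = -(3 / 40 * s ^ 2) + -(s ^ 2 / 20) by ring, Real.exp_add]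
        gcongr; linarith [Real.add_one_le_exp (-(s ^ 2 / 20))]
      have e4 : Real.exp (-(3 / 40 * s ^ 2)) * (1 - s ^ 2 / 20) - 0.42 * η ≤
          Real.exp (-(s ^ 2 / 8)) * EE η (s ^ 2 / 8) := by nlinarith
      rw [C0_eq h0 hs.le]
      nlinarith [mul_le_mul_of_nonneg_left e4 (by positivity : 0 ≤ m0 η * s ^ 2)]) s0.le
  rw [Real.sq_sqrt (by positivity), show 3 / 40 * (8 * τ) = 3 / 5 * τ by ring] at a
  have b := neg_le_of_abs_le (U_near h0 h1 s0)
  have c : (Real.exp (-(3 / 5 * τ)) - 0.021) / 3 ≤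
      4 * Phi η √(8 * τ) / (m0 η * √(8 * τ) ^ 3) := by
    rw [le_div_iff₀ (by positivity)]
    nlinarith [mul_le_mul_of_nonneg_left h1 (by positivity : 0 ≤ m0 η * √(8 * τ) ^ 3)]
  rw [QQ]
  gcongr
  nlinarith

theorem pc (h0 : 0 < η) (h1 : η ≤ 1 / 20) : Pc (EE η) (DD η) (QQ η) η := by
  refine ⟨pre h0 h1, fun τ hτ => ?_⟩
  have m := m0_pos h0
  rcases le_total τ 5 with c | c
  · refine le_trans ?_ (Q_lower h0 h1 hτ)
    have a : Real.exp (-3) ≤ Real.exp (-(3 / 5 * τ)) := Real.exp_le_exp.2 (by linarith)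
    have b : 0.047 ≤ Real.exp (-3) := by
      rw [Real.exp_neg, le_inv_comm₀ (by norm_num) (Real.exp_pos _)]
      exact exp_three.2.trans (by norm_num)
    have : 0 ≤ Real.exp (-(3 / 5 * τ)) - 0.047 := by linarith
    positivity
  · have := U_big h0 h1 (s := √(8 * τ)) (Real.le_sqrt_of_sq_le (by linarith))
    unfold QQ; positivity

theorem pk (h0 : 0 < η) (h1 : η ≤ 1 / 20) : Pk (EE η) (DD η) (QQ η) η := by
  have m := m0_pos h0
  have G : ∀ s, 0 < s → 1 * (s ^ 2 * Cr η 0 s) ≤ m0 η * (s ^ 2 * Real.exp (-(1 / 8 * s ^ 2))) :=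
    fun s hs => by
      have := (pc h0 h1).E_le_one (τ := s ^ 2 / 8) (by positivity)
      rw [C0_eq h0 hs.le, show 1 / 8 * s ^ 2 = s ^ 2 / 8 by ring]
      nlinarith [mul_le_mul_of_nonneg_left this
        (by positivity : 0 ≤ m0 η * (s ^ 2 * Real.exp (-(s ^ 2 / 8))))]
  refine ⟨pc h0 h1, fun τ hτ h3 => le_trans ?_ (Q_lower h0 h1 hτ), fun τ hτ => ?_, fun τ h3 => ?_⟩
  · have a : Real.exp τ * Real.exp (-(3 / 5 * τ)) = Real.exp (2 / 5 * τ) := by
      rw [← Real.exp_add]; congr 1; ring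
    have b : 0.93 ≤ Real.exp τ * (Real.exp (-(3 / 5 * τ)) - 0.047) := by
      linarith [Real.add_one_le_exp (2 / 5 * τ), exp_chord hτ.le h3]
    nlinarith
  · have s0 : 0 < √(8 * τ) := by positivity
    have a := Phi_cmp h0 (e := 1)
      (f := fun s => s ^ 3 * (2 / 15 + Real.exp (-(1 / 8 * s ^ 2)) / 5))
      (f' := fun s => s ^ 2 * (2 / 5 + Real.exp (-(1 / 8 * s ^ 2)) * (3 / 5 - s ^ 2 / 20)))
      (fun s => ((hasDerivAt_pow 3 s).mul (((dgauss (1 / 8) s).div_const 5).const_add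
        _)).congr_deriv (by simp; ring)) (by simp) (fun s hs => (G s hs).trans (by
        have e1 := mul_le_mul_of_nonneg_left (Real.add_one_le_exp (1 / 8 * s ^ 2))
          (Real.exp_pos (-(1 / 8 * s ^ 2))).le
        rw [← Real.exp_add, neg_add_cancel, Real.exp_zero] at e1
        gcongr; linarith)) s0.le
    rw [Real.sq_sqrt (by positivity), show 1 / 8 * (8 * τ) = τ by ring] at a
    have b := le_of_abs_le (U_near h0 h1 s0)
    have c : 4 * Phi η √(8 * τ) / (m0 η * √(8 * τ) ^ 3) ≤ 2 / 15 + Real.exp (-τ) / 5 := by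
      rw [div_le_iff₀ (by positivity)]; linarith
    have e : Real.exp τ * Real.exp (-τ) = 1 := by rw [← Real.exp_add]; simp
    calc QQ η τ ≤ Real.exp τ * (η * (0.142 + Real.exp (-τ) / 5)) := by
          rw [QQ]; gcongr; nlinarith
      _ = _ := by linear_combination η / 5 * e
  · have t0 : 0 < τ := by linarith
    have s1 : 4.89 ≤ √(8 * τ) := Real.le_sqrt_of_sq_le (by linarith)
    have a := Phi_cmp h0 (e := 1)
      (f := fun s => 34 / 3 - (34 / 3 + 2 / 3 * s ^ 2) * Real.exp (-(1 / 8 * s ^ 2)))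
      (f' := fun s => (3 / 2 * s + s ^ 3 / 6) * Real.exp (-(1 / 8 * s ^ 2)))
      (fun s => (((((hasDerivAt_pow 2 s).const_mul (2 / 3)).const_add (34 / 3)).mul
        (dgauss (1 / 8) s)).const_sub _).congr_deriv (by simp; ring)) (by simp)
      (fun s hs => (G s hs).trans (by
        gcongr; nlinarith [mul_nonneg hs.le (sq_nonneg (s - 3))])) (s := √(8 * τ)) (by positivity)
    have a2 : 4 * Phi η √(8 * τ) ≤ m0 η * (34 / 3) := by
      have : 0 ≤ m0 η * ((34 / 3 + 2 / 3 * √(8 * τ) ^ 2) * Real.exp (-(1 / 8 * √(8 * τ) ^ 2))) := by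
        positivity
      linarith
    have b := neg_le_of_abs_le (Psi_big h0 h1 √(8 * τ))
    have b2 : -Psi η √(8 * τ) ≤ 0.1585 * η * m0 η := by
      refine le_of_mul_le_mul_left ?_ (by positivity : 0 < √(8 * τ))
      nlinarith [mul_le_mul_of_nonneg_left h1 (by positivity : 0 ≤ η * m0 η),
        mul_le_mul_of_nonneg_left s1 (by positivity : 0 ≤ η * m0 η)]
    have c : 16 * Uf η √(8 * τ) ≤ 13.87 * η * m0 η := by
      rw [U_eq h0]; nlinarith [mul_le_mul_of_nonneg_left a2 h0.le, mul_pos h0 m]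
    have d : 22.6 * (τ * √τ) ≤ √(8 * τ) ^ 3 := by
      have : 2.828 ≤ √(8 : ℝ) := Real.le_sqrt_of_sq_le (by norm_num)
      rw [pow_succ, Real.sq_sqrt (by positivity), Real.sqrt_mul (by norm_num)]
      nlinarith [mul_le_mul_of_nonneg_left this (by positivity : 0 ≤ τ * √τ),
        (by positivity : 0 ≤ τ * √τ)]
    calc QQ η τ ≤ Real.exp τ * (13.87 * η * m0 η / (m0 η * (22.6 * (τ * √τ)))) := by
          rw [QQ]; gcongr
      _ = 13.87 / 22.6 * η * env τ := by rw [env]; field_simp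
      _ ≤ _ := by have := env_pos t0; gcongr; norm_num

end Pool.Agent.MP_39fec4_gt.Small
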