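import Pool.Agent.MP_39fec4_gt.SKer
import Pool.Agent.MP_39fec4_gt.BFun

set_option autoImplicit false

namespace Pool.Agent.MP_39fec4_gt.Small

open MeasureTheory Set Filter Topology Real

variable {η r x s : ℝ}

theorem int_lin3 {f g h : ℝ → ℝ} (hf : IntegrableOn f (Ioi 0)) (hg : IntegrableOn g (Ioi 0))
    (hh : IntegrableOn h (Ioi 0)) (a b c : ℝ) :
    IntegrableOn (fun x => a * f x + b * g x + c * h x) (Ioi 0) :=
  ((hf.const_mul a).add (hg.const_mul b)).add (hh.const_mul c)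

theorem cosT_lin3 {f g h : ℝ → ℝ} (hf : IntegrableOn f (Ioi 0)) (hg : IntegrableOn g (Ioi 0))
    (hh : IntegrableOn h (Ioi 0)) (a b c s : ℝ) :
    cosT (fun x => a * f x + b * g x + c * h x) s = a * cosT f s + b * cosT g s + c * cosT h s := by
  have := cosT_lin (k := fun x => a * f x + b * g x) ((hf.const_mul a).add (hg.const_mul b)) hh 1 c s
  simpa only [one_mul, cosT_lin hf hg] using this

theorem sinT_lin3 {f g h : ℝ → ℝ} (hf : IntegrableOn f (Ioi 0)) (hg : IntegrableOn g (Ioi 0))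
    (hh : IntegrableOn h (Ioi 0)) (a b c s : ℝ) :
    sinT (fun x => a * f x + b * g x + c * h x) s = a * sinT f s + b * sinT g s + c * sinT h s := by
  have := sinT_lin (k := fun x => a * f x + b * g x) ((hf.const_mul a).add (hg.const_mul b)) hh 1 c s
  simpa only [one_mul, sinT_lin hf hg] using this

theorem abs_sin_sub_le {w : ℝ} (hw : 0 ≤ w) : |Real.sin w - w * Real.cos w| ≤ w ^ 3 / 3 := by
  have key : ∀ e : ℝ, |e| = 1 → 0 ≤ w ^ 3 / 3 + e * (Real.sin w - w * Real.cos w) := fun e he =>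
    nonneg_of_deriv (f := fun w => w ^ 3 / 3 + e * (Real.sin w - w * Real.cos w))
      (f' := fun w => w * (w + e * Real.sin w)) (fun w => by
        have := ((hasDerivAt_pow 3 w).div_const 3).add (((Real.hasDerivAt_sin w).sub
          ((hasDerivAt_id w).mul (Real.hasDerivAt_cos w))).const_mul e)
        refine this.congr_deriv ?_
        simp; ring) (by simp) (fun w hw => mul_nonneg hw.le (by
          have a : |e * Real.sin w| ≤ w := by
            rw [abs_mul, he, one_mul]; exact Real.abs_sin_le_abs.trans (abs_of_pos hw).le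
          linarith [neg_le_of_abs_le a])) hw
  have a := key 1 (by simp)
  have b := key (-1) (by simp)
  rw [abs_le]; constructor <;> linarith

theorem abs_T_le {k l g : ℝ → ℝ} (hk : IntegrableOn k (Ioi 0)) (hl : IntegrableOn l (Ioi 0))
    (hkl : ∀ x, 0 < x → l x = x * k x) (hg : IntegrableOn g (Ioi 0))
    (h : ∀ x, 0 < x → x ^ 3 * |k x| ≤ g x) (hs : 0 ≤ s) :
    |sinT k s - s * cosT l s| ≤ s ^ 3 / 3 * ∫ x in Ioi (0 : ℝ), g x := by
  unfold cosT sinT
  rw [← integral_const_mul, ← integral_const_mul,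
    ← integral_sub (int_sin hk s) ((int_cos hl s).const_mul s)]
  refine abs_integral_le (hg.const_mul _) fun x hx => ?_
  have e : k x * Real.sin (s * x) - s * (l x * Real.cos (s * x)) =
      k x * (Real.sin (s * x) - s * x * Real.cos (s * x)) := by rw [hkl x hx]; ring
  rw [e, abs_mul]
  calc |k x| * |Real.sin (s * x) - s * x * Real.cos (s * x)| ≤ |k x| * ((s * x) ^ 3 / 3) := by
        gcongr; exact abs_sin_sub_le (by positivity)
    _ = s ^ 3 / 3 * (x ^ 3 * |k x|) := by ring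
    _ ≤ _ := by gcongr; exact h x hx

theorem abs_cosT_le_two {g M : ℝ → ℝ} (hg : IntegrableOn g (Ioi 0)) (hM : IntegrableOn M (Ioi 0))
    (h0 : cosT g 0 = 0) (h1 : ∀ x, 0 < x → 0 ≤ M x) (h2 : ∀ x, 0 < x → -g x ≤ M x) (s : ℝ) :
    |cosT g s| ≤ 2 * ∫ x in Ioi (0 : ℝ), M x := by
  have := abs_cosT_le (k := g) (g := fun x => g x + 2 * M x) (hg.add (hM.const_mul 2))
    (fun x hx => by rw [abs_le]; constructor <;> linarith [h1 x hx, h2 x hx]) s
  rwa [integral_add hg (hM.const_mul 2), ← cosT_zero, h0, zero_add, integral_const_mul] at this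

/-- The main term. -/
noncomputable def Phi (η s : ℝ) : ℝ := Sr η (η - 1) s - s * Cr η η s

/-- The second order term. -/
noncomputable def Psi (η s : ℝ) : ℝ := 1 * (Sr η 1 s - s * Cr η 2 s) +
  (-2) * (Sr η (1 + η) s - s * Cr η (2 + η) s) + 1 * (Sr η (1 + 2 * η) s - s * Cr η (2 + 2 * η) s)

/-- The concavity defect. -/
noncomputable def Uf (η s : ℝ) : ℝ :=
  -Sr η 1 s + s * Cr η 2 s + s ^ 2 * Sr η 1 s / 2 - s ^ 3 * Cr η 0 s / 16

theorem U_eq (h0 : 0 < η) (s : ℝ) : Uf η s = η / 4 * Phi η s - Psi η s := by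
  have a := P0 h0 s
  have b := P2 h0 one_pos (a := 0) (b := 2 + η) (by ring) (by ring) s
  have c := P2 h0 (r := 1 + η) (by linarith) (a := η) (b := 2 + 2 * η) (by ring) (by ring) s
  have d := P1 h0 h0 (a := η - 1) (b := 1 + 2 * η) (by ring) (by ring) s
  unfold Uf Phi Psi
  linear_combination (1 / 2 - s ^ 2 / 16) * a + s / 2 * b - s / 4 * c - 1 / 4 * d

theorem dPhi (h0 : 0 < η) (s : ℝ) : HasDerivAt (Phi η) (s ^ 2 * Cr η 0 s / 4) s := by
  have := (dS h0 (r := η - 1) (by linarith) (a := η) (by ring) s).sub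
    ((hasDerivAt_id s).mul (dC h0 (r := η) (by linarith) (a := 1 + η) (by ring) s))
  refine this.congr_deriv ?_
  simp only [id]
  linear_combination -(s / 4) * P0 h0 s

theorem Phi_zero (η : ℝ) : Phi η 0 = 0 := by simp [Phi, Sr, sinT_zero]

theorem W_one (η x : ℝ) : Wr η 1 x = x * kr η x := by rw [Wr, Real.rpow_one]

theorem W_two (η x : ℝ) : Wr η 2 x = x ^ 2 * kr η x := by rw [Wr, Real.rpow_two]

theorem rpow_two_mul (η : ℝ) (hx : 0 < x) : x ^ (2 * η) = (x ^ η) ^ 2 := by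
  rw [← Real.rpow_mul_natCast hx.le, mul_comm]; norm_num

theorem Psi_small (h0 : 0 < η) (h1 : η ≤ 1 / 20) (hs : 0 ≤ s) :
    |Psi η s| ≤ s ^ 3 / 3 * (0.0325 * η ^ 2 * m0 η) := by
  have i := fun r (hr : -1 < r) => int_Wr h0 hr
  have i1 := i 1 (by norm_num)
  have i2 := i (1 + η) (by linarith)
  have i3 := i (1 + 2 * η) (by linarith)
  have j1 := i 2 (by norm_num)
  have j2 := i (2 + η) (by linarith)
  have j3 := i (2 + 2 * η) (by linarith)
  obtain ⟨m1, m2⟩ := mom3 h0 (η ^ 2 / 4 * (1 / 40)) (η ^ 2 / 4 * (19 / 20))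
    (η ^ 2 / 4 * (-79 / 40)) (η ^ 2 / 4)
  have := abs_T_le (int_lin3 i1 i2 i3 1 (-2) 1) (int_lin3 j1 j2 j3 1 (-2) 1) (fun x hx => by
    rw [Wr_succ (r := 1) (a := 2) (by ring) hx, Wr_succ (r := 1 + η) (a := 2 + η) (by ring) hx,
      Wr_succ (r := 1 + 2 * η) (a := 2 + 2 * η) (by ring) hx]; ring) m1 (fun x hx => by
    obtain ⟨θ, y, z, -, ey, ez, t0, t1, y0, z0, e, b1, -, -, b4, -⟩ := yz h0 h1 hx
    have k0 := kr_pos η x
    rw [Wr_add _ _ hx, Wr_add _ _ hx, rpow_two_mul η hx, W_one, ← ey, ← ez,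
      show 1 * (x * kr η x) + -2 * (z * (x * kr η x)) + 1 * (z ^ 2 * (x * kr η x)) =
        x * kr η x * (1 - z) ^ 2 by ring, abs_of_nonneg (by positivity)]
    have c1 : x ^ 4 * (1 - z) ^ 2 ≤ θ ^ 2 * ((y + θ) * (y - 1) ^ 2) := by
      refine le_of_mul_le_mul_left ?_ (pow_pos z0 2)
      calc z ^ 2 * (x ^ 4 * (1 - z) ^ 2) = y * (y * (1 - z) ^ 2) := by rw [e]; ring
        _ ≤ (y + θ) * z * (θ ^ 2 * z * (y - 1) ^ 2) := by gcongr
        _ = _ := by ring
    have c2 : θ ^ 2 * ((y + θ) * (y - 1) ^ 2) ≤ (η / 2) ^ 2 * ((y + 1 / 40) * (y - 1) ^ 2) := by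
      gcongr; linarith
    nlinarith [mul_le_mul_of_nonneg_left (c1.trans c2) k0.le]) hs
  rw [sinT_lin3 i1 i2 i3, cosT_lin3 j1 j2 j3, m2] at this
  refine le_trans (le_of_eq ?_) (this.trans ?_)
  · congr 1; unfold Psi Sr Cr; ring
  · have := m0_pos h0
    gcongr s ^ 3 / 3 * ?_
    have : 1 / 40 + 19 / 20 / 4 + -79 / 40 * (3 + η) / 16 + (3 + η) * (5 + 2 * η) / 64 ≤ 0.13 := by
      nlinarith
    nlinarith [mul_le_mul_of_nonneg_left this (by positivity : 0 ≤ η ^ 2 * m0 η)]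

/-- The kernel after two integrations by parts. -/
noncomputable def Hk (η r x : ℝ) : ℝ := r * (r + 2) * Wr η (r - 1) x +
  (-4 * (2 * r + 4 + η)) * Wr η (r + 1 + η) x + 16 * Wr η (r + 3 + 2 * η) x

theorem int_Hk (h0 : 0 < η) (hr : 0 < r) : IntegrableOn (Hk η r) (Ioi 0) :=
  int_lin3 (int_Wr h0 (by linarith)) (int_Wr h0 (by linarith)) (int_Wr h0 (by linarith)) _ _ _

theorem sT (h0 : 0 < η) (hr : 0 < r) {a : ℝ} (ha : a = r + 1) (s : ℝ) :
    s * (Sr η r s - s * Cr η a s) = cosT (Hk η r) s := by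
  have e := cosT_lin3 (int_Wr h0 (r := r - 1) (by linarith)) (int_Wr h0 (r := r + 1 + η)
    (by linarith)) (int_Wr h0 (r := r + 3 + 2 * η) (by linarith)) (r * (r + 2))
    (-4 * (2 * r + 4 + η)) 16 s
  have p1 := P1 h0 (r := a) (by linarith) (a := r) (b := r + 2 + η) (by linarith) (by linarith) s
  have p2 := P2 h0 hr rfl rfl s
  have p3 := P2 h0 (r := r + 2 + η) (by linarith) (a := r + 1 + η) (b := r + 3 + 2 * η) (by ring)
    (by ring) s
  refine Eq.trans ?_ e.symm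
  simp only [Cr] at p1 p2 p3 ⊢
  rw [p1, ha]
  linear_combination (r + 2) * p2 - 4 * p3

theorem Hk_eq (η r : ℝ) (hx : 0 < x) : Hk η r x = x ^ (r - 1) * kr η x * (r * (r + 2) -
    4 * (2 * r + 4 + η) * x ^ (2 + η) + 16 * (x ^ (2 + η)) ^ 2) := by
  rw [Hk, show r + 1 + η = r - 1 + (2 + η) by ring, show r + 3 + 2 * η = r - 1 + 2 * (2 + η) by ring,
    Wr_add _ _ hx, Wr_add _ _ hx, rpow_two_mul _ hx, Wr]
  ring

theorem Psi_big (h0 : 0 < η) (h1 : η ≤ 1 / 20) (s : ℝ) : |s * Psi η s| ≤ 15.5 * η ^ 2 * m0 η := by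
  have i1 := int_Hk h0 one_pos
  have i2 := int_Hk h0 (r := 1 + η) (by linarith)
  have i3 := int_Hk h0 (r := 1 + 2 * η) (by linarith)
  have e : ∀ s, s * Psi η s =
      cosT (fun x => 1 * Hk η 1 x + (-2) * Hk η (1 + η) x + 1 * Hk η (1 + 2 * η) x) s := fun s => by
    rw [cosT_lin3 i1 i2 i3, ← sT h0 one_pos (a := 2) (by ring),
      ← sT h0 (r := 1 + η) (by linarith) (a := 2 + η) (by ring),
      ← sT h0 (r := 1 + 2 * η) (by linarith) (a := 2 + 2 * η) (by ring), Psi]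
    ring
  obtain ⟨m1, m2⟩ := mom3 h0 (η ^ 2 * (6.05 + 3.5)) (η ^ 2 * (6.05 * (-79 / 40) + 3.5 / 20))
    (η ^ 2 * (6.05 * (19 / 20))) (η ^ 2 * (6.05 / 40))
  have em : ∀ y : ℝ, η ^ 2 * (6.05 + 3.5) + η ^ 2 * (6.05 * (-79 / 40) + 3.5 / 20) * y +
      η ^ 2 * (6.05 * (19 / 20)) * y ^ 2 + η ^ 2 * (6.05 / 40) * y ^ 3 =
      η ^ 2 * (6.05 * ((1 + y / 40) * (y - 1) ^ 2) + 3.5 * (1 + y / 20)) := fun y => by ring
  have := abs_cosT_le_two (int_lin3 i1 i2 i3 1 (-2) 1) m1 (by rw [← e, zero_mul])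
    (fun x hx => by
      have := kr_pos η x
      have := Real.rpow_pos_of_pos hx (2 + η)
      rw [em]; positivity) (fun x hx => by
      obtain ⟨θ, y, z, -, ey, ez, t0, t1, y0, z0, -, b1, b2, b3, -, -⟩ := yz h0 h1 hx
      have k0 := kr_pos η x
      rw [em, Hk_eq _ _ hx, Hk_eq _ _ hx, Hk_eq _ _ hx, sub_self, add_sub_cancel_left,
        add_sub_cancel_left, rpow_two_mul _ hx, Real.rpow_zero, ← ey, ← ez]
      have c1 : y * (1 - z) ^ 2 ≤ (η / 2) ^ 2 * (1 + y / 40) * (y - 1) ^ 2 := by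
        refine b1.trans ?_
        gcongr; nlinarith
      have c2 : z ^ 2 ≤ 1 + y / 20 := by nlinarith
      have c3 : -(3 * (1 - z) ^ 2) - (4 * y * (1 - z)) ^ 2 + (8 + 2 * η) * (η * z * (1 - z)) -
          4 * (η * z) * (4 * y * (1 - z)) ≤ 5.5 * (η * z) ^ 2 := by
        have C0 : 0 < η * z := by positivity
        generalize η * z = C at C0
        rcases le_total 0 (1 - z) with q | q
        · have : 0 ≤ C * (4 * y * (1 - z)) := by positivity
          nlinarith [sq_nonneg (4 * y * (1 - z)), sq_nonneg (1 - z - 1.35 * C),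
            mul_le_mul_of_nonneg_right h1 (mul_nonneg C0.le q)]
        · have : (8 + 2 * η) * (C * (1 - z)) ≤ 0 :=
            mul_nonpos_of_nonneg_of_nonpos (by positivity) (mul_nonpos_of_nonneg_of_nonpos C0.le q)
          nlinarith [sq_nonneg (4 * y * (1 - z) + 2 * C), sq_nonneg (1 - z), sq_nonneg C]
      have c4 : (6 + η) * (y * (1 - z) ^ 2) ≤
          6.05 * ((η / 2) ^ 2 * (1 + y / 40) * (y - 1) ^ 2) := by gcongr; linarith
      have c5 := mul_le_mul_of_nonneg_left c2 (sq_nonneg η)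
      have : -(1 * (1 * (1 * (1 + 2) - 4 * (2 * 1 + 4 + η) * y + 16 * y ^ 2)) +
          -2 * (z * ((1 + η) * (1 + η + 2) - 4 * (2 * (1 + η) + 4 + η) * y + 16 * y ^ 2)) +
          1 * (z ^ 2 * ((1 + 2 * η) * (1 + 2 * η + 2) - 4 * (2 * (1 + 2 * η) + 4 + η) * y +
            16 * y ^ 2))) ≤
          η ^ 2 * (6.05 * ((1 + y / 40) * (y - 1) ^ 2) + 3.5 * (1 + y / 20)) := by nlinarith
      nlinarith [mul_le_mul_of_nonneg_left this k0.le]) s
  rw [e]
  refine this.trans ?_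
  rw [m2]
  have := m0_pos h0
  have : 6.05 + 3.5 + (6.05 * (-79 / 40) + 3.5 / 20) / 4 + 6.05 * (19 / 20) * (3 + η) / 16 +
      6.05 / 40 * ((3 + η) * (5 + 2 * η)) / 64 ≤ 7.75 := by nlinarith
  nlinarith [mul_le_mul_of_nonneg_left this (by positivity : 0 ≤ η ^ 2 * m0 η)]

theorem S2_le (h0 : 0 < η) (h1 : η ≤ 1 / 20) (s : ℝ) :
    |s * Sr η (1 + 2 * η) s| ≤ 1.624 * m0 η := by
  have i1 := int_Wr h0 (r := 2 * η) (by linarith)
  have i2 := int_Wr h0 (r := 2 * η + (2 + η)) (by linarith)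
  have e : ∀ s, s * Sr η (1 + 2 * η) s =
      cosT (fun x => (1 + 2 * η) * Wr η (2 * η) x + (-4) * Wr η (2 * η + (2 + η)) x) s := fun s => by
    rw [cosT_lin i1 i2, P2 h0 (r := 1 + 2 * η) (by linarith) (a := 2 * η) (b := 2 * η + (2 + η))
      (by ring) (by ring), Cr, Cr]
    ring
  obtain ⟨m1, m2⟩ := mom3 h0 0 0 4 (1 / 5)
  have := abs_cosT_le_two ((i1.const_mul _).add (i2.const_mul _)) m1 ((e 0).symm.trans (zero_mul _))
    (fun x hx => by
      have := kr_pos η x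
      have := Real.rpow_pos_of_pos hx (2 + η)
      positivity) (fun x hx => by
      obtain ⟨θ, y, z, -, ey, ez, t0, t1, y0, z0, -, -, -, b3, -, -⟩ := yz h0 h1 hx
      have k0 := kr_pos η x
      rw [Pi.add_apply, Wr_add _ _ hx, Wr, rpow_two_mul _ hx, ← ey, ← ez]
      have c2 : z ^ 2 ≤ 1 + y / 20 := by nlinarith
      have c3 : z ^ 2 * (4 * y - 1 - 2 * η) ≤ z ^ 2 * (4 * y ^ 2) := by
        gcongr; nlinarith [sq_nonneg (2 * y - 1)]
      have c4 := mul_le_mul_of_nonneg_right c2 (sq_nonneg (2 * y))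
      nlinarith [mul_le_mul_of_nonneg_left c3 k0.le, mul_le_mul_of_nonneg_left c4 k0.le]) s
  rw [e]
  refine this.trans ?_
  rw [m2]
  have := m0_pos h0
  have : 4 * (3 + η) / 16 + 1 / 5 * ((3 + η) * (5 + 2 * η)) / 64 ≤ 0.812 := by nlinarith
  nlinarith

end Pool.Agent.MP_39fec4_gt.Small
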