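import Pool.Agent.MP_39fec4_gt.Elem

set_option autoImplicit false

namespace Pool.Agent.MP_39fec4_gt

open MeasureTheory Set Filter Topology

/-- Cosine transform on the half line. -/
noncomputable def cosT (k : ℝ → ℝ) (s : ℝ) : ℝ := ∫ x in Ioi (0 : ℝ), k x * Real.cos (s * x)

/-- Sine transform on the half line. -/
noncomputable def sinT (k : ℝ → ℝ) (s : ℝ) : ℝ := ∫ x in Ioi (0 : ℝ), k x * Real.sin (s * x)

variable {k k' l : ℝ → ℝ}

theorem int_mul_bdd (hk : IntegrableOn k (Ioi 0)) {g : ℝ → ℝ} (hg : Continuous g)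
    (h1 : ∀ x, |g x| ≤ 1) : IntegrableOn (fun x => k x * g x) (Ioi 0) :=
  hk.mul_bdd hg.aestronglyMeasurable (Eventually.of_forall h1)

theorem int_cos (hk : IntegrableOn k (Ioi 0)) (s : ℝ) :
    IntegrableOn (fun x => k x * Real.cos (s * x)) (Ioi 0) :=
  int_mul_bdd hk (by fun_prop) fun _ => Real.abs_cos_le_one _

theorem int_sin (hk : IntegrableOn k (Ioi 0)) (s : ℝ) :
    IntegrableOn (fun x => k x * Real.sin (s * x)) (Ioi 0) :=
  int_mul_bdd hk (by fun_prop) fun _ => Real.abs_sin_le_one _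

theorem cosT_congr (h : ∀ x, 0 < x → k x = l x) : cosT k = cosT l := by
  funext s
  exact setIntegral_congr_fun measurableSet_Ioi fun x hx => by simp only [h x hx]

theorem sinT_congr (h : ∀ x, 0 < x → k x = l x) : sinT k = sinT l := by
  funext s
  exact setIntegral_congr_fun measurableSet_Ioi fun x hx => by simp only [h x hx]

theorem cosT_lin (hk : IntegrableOn k (Ioi 0)) (hl : IntegrableOn l (Ioi 0)) (a b s : ℝ) :
    cosT (fun x => a * k x + b * l x) s = a * cosT k s + b * cosT l s := by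
  unfold cosT
  rw [← integral_const_mul, ← integral_const_mul, ← integral_add ((int_cos hk s).const_mul a)
    ((int_cos hl s).const_mul b)]
  congr 1; funext x; ring

theorem sinT_lin (hk : IntegrableOn k (Ioi 0)) (hl : IntegrableOn l (Ioi 0)) (a b s : ℝ) :
    sinT (fun x => a * k x + b * l x) s = a * sinT k s + b * sinT l s := by
  unfold sinT
  rw [← integral_const_mul, ← integral_const_mul, ← integral_add ((int_sin hk s).const_mul a)
    ((int_sin hl s).const_mul b)]
  congr 1; funext x; ring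

theorem sinT_zero (k : ℝ → ℝ) : sinT k 0 = 0 := by simp [sinT]

theorem cosT_zero (k : ℝ → ℝ) : cosT k 0 = ∫ x in Ioi (0 : ℝ), k x := by simp [cosT]

theorem cosT_abs (k : ℝ → ℝ) (s : ℝ) : cosT k |s| = cosT k s := by
  rcases abs_cases s with h | h
  · rw [h.1]
  · rw [h.1]; simp [cosT]

theorem hasDerivAt_cosT (hk : IntegrableOn k (Ioi 0)) (hl : IntegrableOn l (Ioi 0))
    (h : ∀ x, 0 < x → l x = x * k x) (s : ℝ) : HasDerivAt (cosT k) (-sinT l s) s := by
  have := (hasDerivAt_integral_of_dominated_loc_of_deriv_le (μ := volume.restrict (Ioi (0 : ℝ)))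
    (F := fun s x => k x * Real.cos (s * x)) (F' := fun s x => -(l x * Real.sin (s * x)))
    (bound := fun x => |l x|) (x₀ := s) (s := univ) univ_mem
    (Eventually.of_forall fun s => (int_cos hk s).aestronglyMeasurable) (int_cos hk s)
    (int_sin hl s).neg.aestronglyMeasurable
    (Eventually.of_forall fun x y _ => by
      rw [norm_neg, Real.norm_eq_abs, abs_mul]
      exact mul_le_of_le_one_right (abs_nonneg _) (Real.abs_sin_le_one _))
    hl.abs ((ae_restrict_iff' measurableSet_Ioi).2 (Eventually.of_forall fun x hx y _ => by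
      have := (((hasDerivAt_id y).mul_const x).cos).const_mul (k x)
      refine this.congr_deriv ?_
      rw [h x hx]; simp; ring))).2
  rwa [integral_neg] at this

theorem hasDerivAt_sinT (hk : IntegrableOn k (Ioi 0)) (hl : IntegrableOn l (Ioi 0))
    (h : ∀ x, 0 < x → l x = x * k x) (s : ℝ) : HasDerivAt (sinT k) (cosT l s) s :=
  (hasDerivAt_integral_of_dominated_loc_of_deriv_le (μ := volume.restrict (Ioi (0 : ℝ)))
    (F := fun s x => k x * Real.sin (s * x)) (F' := fun s x => l x * Real.cos (s * x))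
    (bound := fun x => |l x|) (x₀ := s) (s := univ) univ_mem
    (Eventually.of_forall fun s => (int_sin hk s).aestronglyMeasurable) (int_sin hk s)
    (int_cos hl s).aestronglyMeasurable
    (Eventually.of_forall fun x y _ => by
      rw [Real.norm_eq_abs, abs_mul]
      exact mul_le_of_le_one_right (abs_nonneg _) (Real.abs_cos_le_one _))
    hl.abs ((ae_restrict_iff' measurableSet_Ioi).2 (Eventually.of_forall fun x hx y _ => by
      have := (((hasDerivAt_id y).mul_const x).sin).const_mul (k x)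
      refine this.congr_deriv ?_
      rw [h x hx]; simp; ring))).2

theorem abs_integral_le {f g : ℝ → ℝ} (hg : IntegrableOn g (Ioi 0))
    (h : ∀ x, 0 < x → |f x| ≤ g x) : |∫ x in Ioi (0 : ℝ), f x| ≤ ∫ x in Ioi (0 : ℝ), g x :=
  norm_integral_le_of_norm_le (f := f) hg
    ((ae_restrict_iff' measurableSet_Ioi).2 (Eventually.of_forall fun x hx => h x hx))

theorem abs_cosT_le {g : ℝ → ℝ} (hg : IntegrableOn g (Ioi 0)) (h : ∀ x, 0 < x → |k x| ≤ g x)
    (s : ℝ) : |cosT k s| ≤ ∫ x in Ioi (0 : ℝ), g x :=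
  abs_integral_le hg fun x hx => by
    rw [abs_mul]
    exact (mul_le_of_le_one_right (abs_nonneg _) (Real.abs_cos_le_one _)).trans (h x hx)

theorem abs_sinT_le {g : ℝ → ℝ} (hg : IntegrableOn g (Ioi 0)) (h : ∀ x, 0 < x → |k x| ≤ g x)
    (s : ℝ) : |sinT k s| ≤ ∫ x in Ioi (0 : ℝ), g x :=
  abs_integral_le hg fun x hx => by
    rw [abs_mul]
    exact (mul_le_of_le_one_right (abs_nonneg _) (Real.abs_sin_le_one _)).trans (h x hx)

theorem abs_sinT_le' {g : ℝ → ℝ} (hg : IntegrableOn g (Ioi 0))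
    (h : ∀ x, 0 < x → x * |k x| ≤ g x) {s : ℝ} (hs : 0 ≤ s) :
    |sinT k s| ≤ s * ∫ x in Ioi (0 : ℝ), g x := by
  rw [← integral_const_mul]
  refine abs_integral_le (hg.const_mul s) fun x hx => ?_
  rw [abs_mul]
  calc |k x| * |Real.sin (s * x)| ≤ |k x| * |s * x| :=
        mul_le_mul_of_nonneg_left Real.abs_sin_le_abs (abs_nonneg _)
    _ = s * (x * |k x|) := by rw [abs_of_nonneg (by positivity : 0 ≤ s * x)]; ring
    _ ≤ _ := by gcongr; exact h x hx

theorem abs_one_sub_cos_le (y : ℝ) : |Real.cos y - 1| ≤ y ^ 2 / 2 := by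
  rw [abs_sub_comm, abs_of_nonneg (by linarith [Real.cos_le_one y])]
  linarith [Real.one_sub_sq_div_two_le_cos (x := y)]

theorem abs_cosT_sub_le {g : ℝ → ℝ} (hk : IntegrableOn k (Ioi 0)) (hg : IntegrableOn g (Ioi 0))
    (h : ∀ x, 0 < x → x ^ 2 * |k x| ≤ g x) (s : ℝ) :
    |cosT k s - cosT k 0| ≤ s ^ 2 * ∫ x in Ioi (0 : ℝ), g x := by
  unfold cosT
  rw [← integral_const_mul, ← integral_sub (int_cos hk s) (int_cos hk 0)]
  refine abs_integral_le (hg.const_mul _) fun x hx => ?_
  rw [zero_mul, Real.cos_zero, ← mul_sub, abs_mul]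
  calc |k x| * |Real.cos (s * x) - 1| ≤ |k x| * ((s * x) ^ 2 / 2) := by
        gcongr; exact abs_one_sub_cos_le _
    _ = s ^ 2 * (x ^ 2 * |k x|) / 2 := by ring
    _ ≤ s ^ 2 * (x ^ 2 * |k x|) := half_le_self (by positivity)
    _ ≤ _ := by gcongr; exact h x hx

theorem abs_sin_sub_mul_cos_le {w : ℝ} (hw : 0 ≤ w) : |Real.sin w - w * Real.cos w| ≤ w ^ 3 := by
  have := (convex_Icc 0 w).norm_image_sub_le_of_norm_hasDerivWithin_le
    (f := fun z => Real.sin z - z * Real.cos z) (f' := fun z => z * Real.sin z) (C := w ^ 2)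
    (x := 0) (y := w) (fun z _ => by
      have := (Real.hasDerivAt_sin z).sub ((hasDerivAt_id z).mul (Real.hasDerivAt_cos z))
      refine HasDerivAt.hasDerivWithinAt ?_
      refine this.congr_deriv ?_
      simp) (fun z hz => by
      rw [Real.norm_eq_abs, abs_mul, abs_of_nonneg hz.1]
      have : |Real.sin z| ≤ w := Real.abs_sin_le_abs.trans (by rw [abs_of_nonneg hz.1]; exact hz.2)
      rw [sq]; exact mul_le_mul hz.2 this (abs_nonneg _) hw) ⟨le_rfl, hw⟩ ⟨hw, le_rfl⟩
  simp only [Real.sin_zero, zero_mul, sub_zero, Real.norm_eq_abs, abs_of_nonneg hw] at this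
  calc _ ≤ w ^ 2 * w := this
    _ = _ := by ring

theorem abs_sinT_sub_cosT_le {g : ℝ → ℝ} (hk : IntegrableOn k (Ioi 0))
    (hl : IntegrableOn l (Ioi 0)) (hkl : ∀ x, 0 < x → l x = x * k x) (hg : IntegrableOn g (Ioi 0))
    (h : ∀ x, 0 < x → x ^ 3 * |k x| ≤ g x) {s : ℝ} (hs : 0 ≤ s) :
    |sinT k s - s * cosT l s| ≤ s ^ 3 * ∫ x in Ioi (0 : ℝ), g x := by
  unfold cosT sinT
  rw [← integral_const_mul, ← integral_const_mul,
    ← integral_sub (int_sin hk s) ((int_cos hl s).const_mul s)]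
  refine abs_integral_le (hg.const_mul _) fun x hx => ?_
  have e : k x * Real.sin (s * x) - s * (l x * Real.cos (s * x)) =
      k x * (Real.sin (s * x) - s * x * Real.cos (s * x)) := by rw [hkl x hx]; ring
  rw [e, abs_mul]
  calc |k x| * |Real.sin (s * x) - s * x * Real.cos (s * x)| ≤ |k x| * (s * x) ^ 3 := by
        gcongr; exact abs_sin_sub_mul_cos_le (by positivity)
    _ = s ^ 3 * (x ^ 3 * |k x|) := by ring
    _ ≤ _ := by gcongr; exact h x hx

theorem tendsto_mul_bdd_atTop (h : Tendsto k atTop (𝓝 0)) {g : ℝ → ℝ} {B : ℝ}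
    (h1 : ∀ x, |g x| ≤ B) : Tendsto (k * g) atTop (𝓝 0) :=
  h.zero_mul_isBoundedUnder_le (isBoundedUnder_of ⟨B, fun x => h1 x⟩)

theorem parts_cos (hk : IntegrableOn k (Ioi 0)) (hk' : IntegrableOn k' (Ioi 0))
    (hd : ∀ x, 0 < x → HasDerivAt k (k' x) x) {k0 : ℝ} (h0 : Tendsto k (𝓝[>] 0) (𝓝 k0)) (s : ℝ) :
    s * cosT k s = -sinT k' s := by
  have hinf := tendsto_zero_of_hasDerivAt_of_integrableOn_Ioi (fun x hx => hd x hx) hk' hk
  have i1 := int_sin hk' s
  have i2 := (int_cos hk s).const_mul s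
  have := integral_Ioi_deriv_mul_eq_sub (u := k) (u' := k') (v := fun x => Real.sin (s * x))
    (v' := fun x => s * Real.cos (s * x)) (a := 0) (a' := 0) (b' := 0) (fun x hx => hd x hx)
    (fun x _ => by
      have := ((hasDerivAt_id x).const_mul s).sin
      refine this.congr_deriv ?_
      simp; ring)
    ((i1.add i2).congr (Eventually.of_forall fun x => by simp; ring))
    (by
      have hc : Continuous fun x : ℝ => Real.sin (s * x) := by fun_prop
      have := h0.mul ((hc.tendsto 0).mono_left (nhdsWithin_le_nhds (s := Ioi 0)))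
      simp only [mul_zero, Real.sin_zero] at this
      exact this)
    (tendsto_mul_bdd_atTop hinf fun x => Real.abs_sin_le_one _)
  have e : ∫ x in Ioi (0 : ℝ), (k' x * Real.sin (s * x) + k x * (s * Real.cos (s * x))) =
      sinT k' s + s * cosT k s := by
    unfold sinT cosT
    rw [← integral_const_mul, ← integral_add i1 i2]
    congr 1; funext x; ring
  rw [e] at this
  linarith

theorem parts_sin (hk : IntegrableOn k (Ioi 0)) (hk' : IntegrableOn k' (Ioi 0))
    (hd : ∀ x, 0 < x → HasDerivAt k (k' x) x) (h0 : Tendsto k (𝓝[>] 0) (𝓝 0)) (s : ℝ) :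
    s * sinT k s = cosT k' s := by
  have hinf := tendsto_zero_of_hasDerivAt_of_integrableOn_Ioi (fun x hx => hd x hx) hk' hk
  have i1 := int_cos hk' s
  have i2 := (int_sin hk s).const_mul (-s)
  have := integral_Ioi_deriv_mul_eq_sub (u := k) (u' := k') (v := fun x => Real.cos (s * x))
    (v' := fun x => -s * Real.sin (s * x)) (a := 0) (a' := 0) (b' := 0) (fun x hx => hd x hx)
    (fun x _ => by
      have := ((hasDerivAt_id x).const_mul s).cos
      refine this.congr_deriv ?_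
      simp; ring)
    ((i1.add i2).congr (Eventually.of_forall fun x => by simp; ring))
    (by
      have hc : Continuous fun x : ℝ => Real.cos (s * x) := by fun_prop
      have := h0.mul ((hc.tendsto 0).mono_left (nhdsWithin_le_nhds (s := Ioi 0)))
      simp only [zero_mul] at this
      exact this)
    (tendsto_mul_bdd_atTop hinf fun x => Real.abs_cos_le_one _)
  have e : ∫ x in Ioi (0 : ℝ), (k' x * Real.cos (s * x) + k x * (-s * Real.sin (s * x))) =
      cosT k' s + -s * sinT k s := by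
    unfold sinT cosT
    rw [← integral_const_mul, ← integral_add i1 i2]
    congr 1; funext x; ring
  rw [e] at this
  linarith

theorem nonneg_of_deriv {f f' : ℝ → ℝ} (hf : ∀ x, HasDerivAt f (f' x) x) (h0 : f 0 = 0)
    (h1 : ∀ x, 0 < x → 0 ≤ f' x) {x : ℝ} (hx : 0 ≤ x) : 0 ≤ f x := by
  have hm : MonotoneOn f (Ici 0) := monotoneOn_of_deriv_nonneg (convex_Ici 0)
    (fun y _ => (hf y).continuousAt.continuousWithinAt)
    (fun y _ => (hf y).differentiableAt.differentiableWithinAt)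
    (fun y hy => by rw [(hf y).deriv]; exact h1 y (by simpa using hy))
  exact h0 ▸ hm (mem_Ici.2 le_rfl) hx hx

theorem hasDerivAt_comp_sqrt {h h1 h2 : ℝ → ℝ} (hd1 : ∀ s, HasDerivAt h (h1 s) s)
    (hd2 : ∀ s, HasDerivAt h1 (h2 s) s) {τ : ℝ} (hτ : 0 < τ) :
    HasDerivAt (fun τ => h (√τ)) (h1 (√τ) / (2 * √τ)) τ ∧
    HasDerivAt (fun τ => h1 (√τ) / (2 * √τ))
      ((√τ * h2 (√τ) - h1 (√τ)) / (4 * √τ ^ 3)) τ := by
  have hs := Real.hasDerivAt_sqrt hτ.ne'
  have hp : 0 < √τ := Real.sqrt_pos.2 hτ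
  constructor
  · refine ((hd1 (√τ)).comp τ hs).congr_deriv ?_
    ring
  · have := ((hd2 (√τ)).comp τ hs).div (hs.const_mul 2) (by positivity)
    refine this.congr_deriv ?_
    simp only [Function.comp]
    field_simp; ring

theorem concaveOn_comp_sqrt {h h1 h2 : ℝ → ℝ} (hd1 : ∀ s, HasDerivAt h (h1 s) s)
    (hd2 : ∀ s, HasDerivAt h1 (h2 s) s) {D : Set ℝ} (hD : Convex ℝ D)
    (hD0 : ∀ τ ∈ interior D, 0 < τ) {b : ℝ}
    (hb : ∀ τ ∈ interior D, √τ * h2 (√τ) - h1 (√τ) ≤ -8 * b * √τ ^ 3) :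
    ConcaveOn ℝ D (fun τ => h (√τ) + b * τ ^ 2) := by
  have hc : Continuous h := continuous_iff_continuousAt.2 fun s => (hd1 s).continuousAt
  refine concaveOn_of_hasDerivWithinAt2_nonpos hD (f' := fun τ => h1 (√τ) / (2 * √τ) + b * (2 * τ))
    (f'' := fun τ => (√τ * h2 (√τ) - h1 (√τ)) / (4 * √τ ^ 3) + b * 2) (by fun_prop)
    (fun τ hτ => ?_) (fun τ hτ => ?_) fun τ hτ => ?_
  · have := (hasDerivAt_comp_sqrt hd1 hd2 (hD0 τ hτ)).1.add ((hasDerivAt_pow 2 τ).const_mul b)
    refine HasDerivAt.hasDerivWithinAt ?_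
    refine this.congr_deriv ?_
    simp
  · have := (hasDerivAt_comp_sqrt hd1 hd2 (hD0 τ hτ)).2.add
      (((hasDerivAt_id τ).const_mul 2).const_mul b)
    refine HasDerivAt.hasDerivWithinAt ?_
    refine this.congr_deriv ?_
    simp
  · have hp : 0 < √τ := Real.sqrt_pos.2 (hD0 τ hτ)
    have : (√τ * h2 (√τ) - h1 (√τ)) / (4 * √τ ^ 3) ≤ -(b * 2) := by
      rw [div_le_iff₀ (by positivity)]; linarith [hb τ hτ]
    linarith

end Pool.Agent.MP_39fec4_gt
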