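import Pool.Agent.MP_39fec4_gt.YEnv
import Pool.Agent.MP_39fec4_gt.YTail

set_option autoImplicit false

namespace Pool.Agent.MP_39fec4_gt.K

open Set MeasureTheory Full

variable {B : Blk} {Q : ℕ → ℕ → ℕ} {E : ℕ → ℕ} {q : ℝ} {ι : Type} {T : Finset ι}

namespace YBallX

/-- Comparison of a product of two values with the square of the value at the midpoint. -/
theorem sym_ge {g g1 g2 : ℝ → ℝ} (hs : Sm g g1 g2) {lo hi y1 y2 D A0 A1 A2 : ℝ} (h0 : 0 ≤ lo)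
    (h1 : y1 ∈ Icc lo hi) (h2 : y2 ∈ Icc lo hi) (hD : |y1 - y2| ≤ D)
    (hb : ∀ y ∈ Icc lo hi, |g y| ≤ A0 ∧ |g1 y| ≤ A1 ∧ |g2 y| ≤ A2) :
    g ((y1 + y2) / 2) ^ 2 - (A0 * A2 + 3 * A1 * A1) * D * D / 4 ≤ g y1 * g y2 := by
  have hb' : ∀ y ∈ Icc lo hi, |g y| ≤ A0 ∧ |g1 y + 0 * g y| ≤ A1 ∧
      |g2 y + 2 * 0 * g1 y + 0 ^ 2 * g y| ≤ A2 := fun y hy => by simpa using hb y hy
  have e1 := D2.aff (a := 0) (b := 1) (c := y2 - y1) (d := y1) (c' := D) hs h0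
    (fun s hs => ⟨by nlinarith [hs.1, hs.2, h1.1, h2.1], by nlinarith [hs.1, hs.2, h1.2, h2.2]⟩)
    hb' (by rwa [abs_sub_comm])
  have e2 := D2.aff (a := 0) (b := 1) (c := y1 - y2) (d := y2) (c' := D) hs h0
    (fun s hs => ⟨by nlinarith [hs.1, hs.2, h1.1, h2.1], by nlinarith [hs.1, hs.2, h1.2, h2.2]⟩)
    hb' hD
  have e3 := e1.mul e2
  obtain ⟨b0, b1, b2⟩ := hb y1 h1
  have a0 := (abs_nonneg _).trans b0
  have a1 := (abs_nonneg _).trans b1
  have a2 := (abs_nonneg _).trans b2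
  have a3 := (abs_nonneg _).trans hD
  rw [zero_mul, zero_mul, add_zero] at e3
  have e4 := (e3.ch zero_le_one (by positivity)).1 (1 / 2) (by norm_num) (by norm_num)
  beta_reduce at e4
  rw [show (y2 - y1) * ((1 - 1 / 2) * 0 + 1 / 2 * 1) + y1 = (y1 + y2) / 2 by ring,
    show (y1 - y2) * ((1 - 1 / 2) * 0 + 1 / 2 * 1) + y2 = (y1 + y2) / 2 by ring,
    show (y2 - y1) * 0 + y1 = y1 by ring, show (y1 - y2) * 0 + y2 = y2 by ring,
    show (y2 - y1) * 1 + y1 = y2 by ring, show (y1 - y2) * 1 + y2 = y1 by ring] at e4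
  have a4 : 0 ≤ A1 * A1 * D * D := by positivity
  nlinarith

theorem exp_le {z x : ℝ} (h0 : 0 ≤ z) (h1 : z ≤ x) :
    z * ((1 + x / 2) / (1 + x + x ^ 2 / 2)) ≤ 1 - Real.exp (-z) := by
  have h2 : 1 + z + z ^ 2 / 2 ≤ Real.exp z := Real.quadratic_le_exp_of_nonneg h0
  have x0 := h0.trans h1
  have p : 0 < 1 + z + z ^ 2 / 2 := by positivity
  have px : 0 < 1 + x + x ^ 2 / 2 := by positivity
  have h3 : Real.exp (-z) ≤ 1 / (1 + z + z ^ 2 / 2) := by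
    rw [Real.exp_neg, ← one_div]
    exact one_div_le_one_div_of_le p h2
  have h4 : (1 + x / 2) / (1 + x + x ^ 2 / 2) ≤ (1 + z / 2) / (1 + z + z ^ 2 / 2) := by
    rw [div_le_div_iff₀ px p]
    nlinarith [mul_nonneg (add_nonneg h0 x0) (sub_nonneg.2 h1),
      mul_nonneg (mul_nonneg h0 x0) (sub_nonneg.2 h1)]
  have h5 : z * ((1 + z / 2) / (1 + z + z ^ 2 / 2)) = 1 - 1 / (1 + z + z ^ 2 / 2) := by
    field_simp
    ring
  linarith [mul_le_mul_of_nonneg_left h4 h0]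

theorem sqrt_bd {k kh r rb : ℝ} (hk : k ≤ kh) (h0 : 0 ≤ kh) (hr : 0 ≤ r) (h1 : r ≤ rb)
    (h2 : rb < 1) : k / √(1 - r) ≤ k + r * (kh / (2 * (1 - rb))) := by
  have p : 0 < 1 - r := by linarith
  have pb : 0 < 1 - rb := by linarith
  have s0 : 0 < √(1 - r) := Real.sqrt_pos.2 p
  have s2 : √(1 - r) * √(1 - r) = 1 - r := Real.mul_self_sqrt p.le
  have s1 : √(1 - r) ≤ 1 := Real.sqrt_le_one.2 (by linarith)
  generalize √(1 - r) = s at s0 s1 s2
  have e1 : 0 ≤ 1 / s - 1 := by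
    have := one_le_one_div s0 s1
    linarith
  have e2 : 1 / s - 1 ≤ r / (2 * (1 - r)) := by
    rw [div_sub_one s0.ne', div_le_div_iff₀ s0 (by positivity), ← s2,
      show r = 1 - s * s by linarith]
    nlinarith [mul_nonneg s0.le (sq_nonneg (1 - s))]
  have e3 : r / (2 * (1 - r)) ≤ r / (2 * (1 - rb)) :=
    div_le_div_of_nonneg_left hr (by positivity) (by linarith)
  have e4 := mul_le_mul_of_nonneg_right hk e1
  have e5 := mul_le_mul_of_nonneg_left (e2.trans e3) h0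
  have e6 : k / s = k + k * (1 / s - 1) := by ring
  have e7 : r * (kh / (2 * (1 - rb))) = kh * (r / (2 * (1 - rb))) := by ring
  linarith

/-- The coordinates of a step of the staircase. -/
structure In (ra rb d0 : ℕ) (T : Finset ι) (x : ι → ℝ) (x1 x2 : ℝ) : Prop where
  lt : rb + d0 < SS
  nn : ∀ j ∈ T, 0 ≤ x j
  pos : 0 < ∑ j ∈ T, x j
  lo : rr ra ≤ ∑ j ∈ T, x j
  hi : ∑ j ∈ T, x j ≤ rr rb
  sum : x1 + x2 + ∑ j ∈ T, x j = 1
  d : |x1 - x2| ≤ rr d0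

/-- The defect of the inner product, divided by the sum of the inner coordinates. -/
noncomputable def LL (g : ℝ → ℝ) (T : Finset ι) (x : ι → ℝ) (u : ℝ) : ℝ :=
  (1 - ∏ j ∈ T, g (x j * u ^ 2)) / ∑ j ∈ T, x j

noncomputable def FF (g : ℝ → ℝ) (x1 x2 : ℝ) (T : Finset ι) (x : ι → ℝ) (u : ℝ) : ℝ :=
  -(g (x1 * u ^ 2) * g (x2 * u ^ 2) * LL g T x u)

def lfB (B : Blk) (ra sa sb : ℕ) : ℕ :=
  bif Nat.beq ra 0 then mulU B.lamh (t2L sa sb + 1)
  else min (mulU B.lamh (t2L sa sb + 1)) (divU (2 * dS sa sb) ra)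

def slope (b x : ℕ) : ℕ := divD (mulD b (SS + x / 2)) (SS + x + mulU x x / 2 + 1)

variable {ra rb d0 : ℕ} {x : ι → ℝ} {x1 x2 : ℝ}

theorem prod_abs (hs : ScalOK B) (hq : q ∈ B.I) (hI : In ra rb d0 T x x1 x2) (u : ℝ) :
    |∏ j ∈ T, B.g 0 q (x j * u ^ 2)| ≤ 1 := by
  rw [Finset.abs_prod]
  exact Finset.prod_le_one (fun _ _ => abs_nonneg _) fun j hj =>
    (hs.sm_g hq).bd _ (mul_nonneg (hI.nn j hj) (sq_nonneg u))

theorem L_nonneg (hs : ScalOK B) (hq : q ∈ B.I) (hI : In ra rb d0 T x x1 x2) (u : ℝ) :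
    0 ≤ LL (B.g 0 q) T x u :=
  div_nonneg (sub_nonneg.2 (abs_le.1 (prod_abs hs hq hI u)).2) hI.pos.le

theorem L_two (hs : ScalOK B) (hq : q ∈ B.I) (hI : In ra rb d0 T x x1 x2) (h0 : 0 < ra) (u : ℝ) :
    LL (B.g 0 q) T x u ≤ 2 / rr ra :=
  div_le_div₀ (by norm_num) (by linarith [(abs_le.1 (prod_abs hs hq hI u)).1]) (rr_pos h0) hI.lo

theorem L_lin (h : BOK B Q E) (hq : q ∈ B.I) (hI : In ra rb d0 T x x1 x2) (u : ℝ) :
    LL (B.g 0 q) T x u ≤ rr B.lamh * u ^ 2 := by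
  have h1 := prod_ge_lin (h.sc.sm_g hq) (h.lin q hq) T (fun j => x j * u ^ 2)
    fun j hj => mul_nonneg (hI.nn j hj) (sq_nonneg u)
  rw [← Finset.sum_mul] at h1
  unfold LL
  rw [div_le_iff₀ hI.pos]
  linarith

theorem L_low (h : BOK B Q E) (hq : q ∈ B.I) (hI : In ra rb d0 T x x1 x2) {tb : ℕ} {u : ℝ}
    (hu : u ^ 2 ≤ rr tb) : rr (slope (envb E (mulU rb tb))
      (mulU (envb E (mulU rb tb)) (mulU rb tb))) * u ^ 2 ≤ LL (B.g 0 q) T x u := by
  classical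
  have he := h.envOK hq (mulU rb tb)
  have u0 := sq_nonneg u
  have hm : (∑ j ∈ T, x j) * u ^ 2 ≤ rr (mulU rb tb) := le_mulU hI.hi hu u0
  generalize mulU rb tb = ym at he hm
  generalize envb E ym = b at he
  have h1 := env_prod (g := B.g 0 q) T (fun j => x j * u ^ 2) (b := rr b) (Y := rr ym)
    (fun j hj => ⟨mul_nonneg (hI.nn j hj) u0, le_trans (mul_le_mul_of_nonneg_right
      (Finset.single_le_sum hI.nn hj) u0) hm⟩) he
  rw [← Finset.sum_mul] at h1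
  have r0 := hI.pos
  have b0 := rr_nonneg b
  have z0 : 0 ≤ (∑ j ∈ T, x j) * u ^ 2 := by positivity
  have h2 : rr b * ((∑ j ∈ T, x j) * u ^ 2) ≤ rr (mulU b ym) := le_mulU le_rfl hm z0
  generalize mulU b ym = c at h2
  have h3 := exp_le (mul_nonneg b0 z0) h2
  have c0 := rr_nonneg c
  have h4 : rr (slope b c) ≤ rr b * (1 + rr c / 2) / (1 + rr c + rr c ^ 2 / 2) := by
    refine divD_le_of (mulD_le_of le_rfl ?_) (by positivity) ?_
    · have := rr_div_le c 2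
      rw [rr_add, rr_SS]
      push_cast at this
      linarith
    · have a1 := rr_div_lt (k := 2) (mulU c c) (by norm_num)
      have a2 := mulU_ge c c
      rw [add_assoc (SS + c), rr_add (SS + c), rr_add, rr_SS]
      push_cast at a1
      nlinarith
  have h5 := mul_le_mul_of_nonneg_right h4 z0
  have h6 := (abs_le.1 h1).2
  unfold LL
  rw [le_div_iff₀ r0]
  have e : rr b * (1 + rr c / 2) / (1 + rr c + rr c ^ 2 / 2) * ((∑ j ∈ T, x j) * u ^ 2) =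
      rr b * ((∑ j ∈ T, x j) * u ^ 2) * ((1 + rr c / 2) / (1 + rr c + rr c ^ 2 / 2)) := by ring
  linarith

theorem In.rb_lt (hI : In ra rb d0 T x x1 x2) : rr rb + rr d0 < 1 := by
  rw [← rr_add, ← rr_SS, rr_lt]
  exact hI.lt

theorem In.x_pos (hI : In ra rb d0 T x x1 x2) : 0 < x1 ∧ 0 < x2 := by
  have := abs_le.1 hI.d
  constructor <;> linarith [hI.rb_lt, hI.hi, hI.sum]

theorem In.x_lo (hI : In ra rb d0 T x x1 x2) :
    rr ((SS - rb - d0) / 2) ≤ x1 ∧ rr ((SS - rb - d0) / 2) ≤ x2 := by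
  have h1 := abs_le.1 hI.d
  have h2 := rr_div_le (SS - rb - d0) 2
  have h3 := hI.lt
  rw [rr_sub (by omega), rr_sub (by omega), rr_SS] at h2
  push_cast at h2
  constructor <;> linarith [hI.hi, hI.sum]

theorem In.x_hi (hI : In ra rb d0 T x x1 x2) :
    x1 ≤ rr ((SS - ra + d0) / 2 + 1) ∧ x2 ≤ rr ((SS - ra + d0) / 2 + 1) := by
  have h1 := abs_le.1 hI.d
  have h2 := rr_div_lt (k := 2) (SS - ra + d0) (by norm_num)
  have h3 := rr_sub_ge SS ra
  rw [rr_add] at h2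
  rw [rr_SS] at h3
  push_cast at h2
  constructor <;> linarith [hI.lo, hI.sum]

theorem In.m_mem (hI : In ra rb d0 T x x1 x2) :
    rr ((SS - rb) / 2) ≤ (x1 + x2) / 2 ∧ (x1 + x2) / 2 ≤ rr ((SS - ra) / 2 + 1) := by
  have h1 := rr_div_le (SS - rb) 2
  have h2 := rr_div_lt (k := 2) (SS - ra) (by norm_num)
  have h3 := rr_sub_ge SS ra
  have h4 := hI.lt
  rw [rr_sub (by omega), rr_SS] at h1
  rw [rr_SS] at h3
  push_cast at h1 h2
  constructor <;> linarith [hI.lo, hI.hi, hI.sum]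

theorem FF_eq (hI : In ra rb d0 T x x1 x2) (g : ℝ → ℝ) (u : ℝ) :
    g (x1 * u ^ 2) * g (x2 * u ^ 2) * ∏ j ∈ T, g (x j * u ^ 2) =
      g (x1 * u ^ 2) * g (x2 * u ^ 2) + (∑ j ∈ T, x j) * FF g x1 x2 T x u := by
  have := hI.pos.ne'
  unfold FF LL
  field_simp
  ring

theorem int_O (hs : ScalOK B) (hq : q ∈ B.I) (hI : In ra rb d0 T x x1 x2) :
    IntegrableOn (fun u : ℝ => B.g 0 q (x1 * u ^ 2) * B.g 0 q (x2 * u ^ 2)) (Ioi 0) := by
  simpa using int_IX hs hq hI.x_pos.1 x2 (∅ : Finset ι) x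

theorem int_FF (hs : ScalOK B) (hq : q ∈ B.I) (hI : In ra rb d0 T x x1 x2) :
    IntegrableOn (FF (B.g 0 q) x1 x2 T x) (Ioi 0) := by
  have h1 := ((int_IX hs hq hI.x_pos.1 x2 T x).sub (int_O hs hq hI)).div_const (∑ j ∈ T, x j)
  refine IntegrableOn.congr_fun h1 (fun u _ => ?_) measurableSet_Ioi
  have := hI.pos.ne'
  simp only [Pi.sub_apply]
  rw [FF_eq hI]
  field_simp
  ring

/-- Integration of gain and loss over a cell. -/
theorem cell_bd (h : BOK B Q E) (hq : q ∈ B.I) (hI : In ra rb d0 T x x1 x2) {sa sb : ℕ}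
    (hab : sa ≤ sb) {e c : ℝ} (he : 0 ≤ e) (hF : ∀ u, sR sa ≤ u → u ≤ sR sb →
      FF (B.g 0 q) x1 x2 T x u ≤ e * LL (B.g 0 q) T x u - c * u ^ 2) :
    ∫ u in sR sa..sR sb, FF (B.g 0 q) x1 x2 T x u ≤
      e * rr (lfB B ra sa sb) - c * ((sR sb ^ 3 - sR sa ^ 3) / 3) := by
  have i1 := int_FF h.sc hq hI
  have k1 := cell_int i1 (c0 := 0) (c2 := e * rr B.lamh - c) (c4 := 0) (sR_nonneg sa)
    (sR_mono hab) fun u h1 h2 => by
      have := mul_le_mul_of_nonneg_left (L_lin h hq hI u) he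
      linarith [hF u h1 h2]
  have k2 : rr B.lamh * ((sR sb ^ 3 - sR sa ^ 3) / 3) ≤ rr (mulU B.lamh (t2L sa sb + 1)) :=
    le_mulU' le_rfl (t2L_encl hab).2 (rr_nonneg _)
  have k3 := mul_le_mul_of_nonneg_left k2 he
  unfold lfB
  rw [Bool.cond_eq_ite]
  split_ifs with h0
  · linarith
  rw [Nat.beq_eq] at h0
  have h0 : 0 < ra := Nat.pos_of_ne_zero h0
  have k4 := cell_int i1 (c0 := e * (2 / rr ra)) (c2 := -c) (c4 := 0) (sR_nonneg sa)
    (sR_mono hab) fun u h1 h2 => by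
      have := mul_le_mul_of_nonneg_left (L_two h.sc hq hI h0 u) he
      linarith [hF u h1 h2]
  have k5 := divU_ge (2 * dS sa sb) h0
  rw [rr_nmul, dS_eq hab] at k5
  push_cast at k5
  have k6 := mul_le_mul_of_nonneg_left k5 he
  have k7 : e * (2 / rr ra) * (sR sb - sR sa) = e * (2 * (sR sb - sR sa) / rr ra) := by ring
  rw [rr_min, mul_min_of_nonneg _ _ he, ← min_sub_sub_right]
  refine le_min ?_ ?_ <;> linarith

theorem neg_hip {R : ℕ} {y z : ℝ} (hy : InR R y) (hz : InR R z) :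
    -rr (mulU (gNeg R) (gHip R)) ≤ y * z := by
  have h1 := hy.neg
  have h2 := hy.hip
  have h3 := hz.neg
  have h4 := hz.hip
  have h5 := mulU_ge (gNeg R) (gHip R)
  have h6 := rr_nonneg (gNeg R)
  have h7 := rr_nonneg (gHip R)
  rcases le_total 0 y with a | a <;> rcases le_total 0 z with b | b <;> nlinarith

theorem pick (a b g gp gn e3 : ℕ) (kk : ℕ → ℕ → ℕ → Bool) {z : Bool}
    (h : z = forceN a fun l1 => forceN b fun l2 => Bool.casesOn (motive := fun _ => Bool)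
      (Nat.ble l1 (g + l2)) (kk gp (gn + l2) e3) (kk (gp + g) (gn + l1) e3)) :
    z = kk gp (gn + b) e3 ∨ z = kk (gp + g) (gn + a) e3 := by
  rw [h, forceN_eq, forceN_eq]
  cases Nat.ble a (g + b)
  · exact Or.inl rfl
  · exact Or.inr rfl

theorem cellB_eq (Va Vb : ℕ → ℕ) (ra rb d0 sa sb gp gn e3 : ℕ) (kk : ℕ → ℕ → ℕ → Bool)
    {R w l c dt : ℕ}
    (hR : rq Q (mulD ((SS - rb - d0) / 2) (tS sa)) (mulU ((SS - ra + d0) / 2 + 1) (tS sb)) = R)
    (hw : fine B Va Vb (rq Q (mulD ((SS - rb) / 2) (tS sa))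
    (mulU ((SS - ra) / 2 + 1) (tS sb) + 1)) (mulD ((SS - rb) / 2) (tS sa))
    (mulU ((SS - ra) / 2 + 1) (tS sb)) = w)
    (hl : lfB B ra sa sb = l)
    (hc : slope (envb E (mulU rb (tS sb))) (mulU (envb E (mulU rb (tS sb))) (mulU rb (tS sb))) = c)
    (hd : mulU d0 (tS sb) = dt) :
    cellB B Q E Va Vb ra rb d0 sa sb gp gn e3 kk = kk gp (gn + mulU (mulU (gNeg R) (gHip R)) l) e3 ∨
    cellB B Q E Va Vb ra rb d0 sa sb gp gn e3 kk =
      kk (gp + mulD (mulD (mulD (max (gLop w) (gHin w)) (max (gLop w) (gHin w))) c) (t2L sa sb))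
        (gn + (((gAB R * gK2 R + 3 * gK1 R * gK1 R) * dt * dt * l) >>> 162 + 1)) e3 := by
  unfold lfB at hl
  unfold slope at hc
  refine pick _ _ _ _ _ _ _ ?_
  unfold cellB
  iterate 15 rw [forceN_eq]
  rw [fineN_eq, hR, hw, hl, hc, hd]

/-- One cell. -/
theorem cell_ok (h : BOK B Q E) {Va Vb : ℕ → ℕ} (hV : EndOK B Va Vb B.Yp) (hq : q ∈ B.I)
    (hI : In ra rb d0 T x x1 x2) {sa sb : ℕ} (hab : sa ≤ sb) (gp gn e3 : ℕ)
    (kk : ℕ → ℕ → ℕ → Bool) : ∃ gp' gn' e', cellB B Q E Va Vb ra rb d0 sa sb gp gn e3 kk =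
      kk gp' gn' e' ∧ rr gn - rr gp + ∫ u in sR sa..sR sb, FF (B.g 0 q) x1 x2 T x u ≤
        rr gn' - rr gp' := by
  have hR := h.qok.rq (mulD ((SS - rb - d0) / 2) (tS sa)) (mulU ((SS - ra + d0) / 2 + 1) (tS sb))
  have hw := fine_sound h.sc (h.yp.trans h.yc) hV (h.qok.rq (mulD ((SS - rb) / 2) (tS sa))
    (mulU ((SS - ra) / 2 + 1) (tS sb) + 1))
  have hL := fun u (hu : u ^ 2 ≤ rr (tS sb)) => L_low h hq hI hu
  have hc := fun (e c : ℝ) he hF => cell_bd h hq hI hab (e := e) (c := c) he hF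
  have mem : ∀ u, sR sa ≤ u → u ≤ sR sb → ∀ v, 0 < v → rr ((SS - rb - d0) / 2) ≤ v →
      v ≤ rr ((SS - ra + d0) / 2 + 1) → v * u ^ 2 ∈ Icc (rr (mulD ((SS - rb - d0) / 2) (tS sa)))
        (rr (mulU ((SS - ra + d0) / 2 + 1) (tS sb))) := fun u h1 h2 v _ a b =>
    ⟨mulD_le_of a (tS_mem h1 h2).1, le_mulU b (tS_mem h1 h2).2 (sq_nonneg u)⟩
  have memw : ∀ u, sR sa ≤ u → u ≤ sR sb → rr (mulD ((SS - rb) / 2) (tS sa)) ≤
      (x1 + x2) / 2 * u ^ 2 ∧ (x1 + x2) / 2 * u ^ 2 ≤ rr (mulU ((SS - ra) / 2 + 1) (tS sb)) :=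
    fun u h1 h2 => ⟨mulD_le_of hI.m_mem.1 (tS_mem h1 h2).1,
      le_mulU hI.m_mem.2 (tS_mem h1 h2).2 (sq_nonneg u)⟩
  have hdt : ∀ u, sR sa ≤ u → u ≤ sR sb → |x1 * u ^ 2 - x2 * u ^ 2| ≤ rr (mulU d0 (tS sb)) :=
    fun u h1 h2 => by
      rw [← sub_mul, abs_mul, abs_of_nonneg (sq_nonneg u)]
      exact le_mulU hI.d (tS_mem h1 h2).2 (sq_nonneg u)
  have hE := cellB_eq (B := B) (Q := Q) (E := E) Va Vb ra rb d0 sa sb gp gn e3 kk rfl rfl rfl rfl rfl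
  generalize lfB B ra sa sb = l at hc hE
  generalize fine B Va Vb (rq Q (mulD ((SS - rb) / 2) (tS sa))
    (mulU ((SS - ra) / 2 + 1) (tS sb) + 1)) (mulD ((SS - rb) / 2) (tS sa))
    (mulU ((SS - ra) / 2 + 1) (tS sb)) = w at hw hE
  generalize rq Q (mulD ((SS - rb - d0) / 2) (tS sa))
    (mulU ((SS - ra + d0) / 2 + 1) (tS sb)) = R at hR hE
  generalize slope (envb E (mulU rb (tS sb)))
    (mulU (envb E (mulU rb (tS sb))) (mulU rb (tS sb))) = c at hL hE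
  generalize mulU d0 (tS sb) = dt at hdt hE
  generalize hwl : max (gLop w) (gHin w) = wl at hE
  have m1 := fun u h1 h2 => mem u h1 h2 x1 hI.x_pos.1 hI.x_lo.1 hI.x_hi.1
  have m2 := fun u h1 h2 => mem u h1 h2 x2 hI.x_pos.2 hI.x_lo.2 hI.x_hi.2
  have pt := fun y (hy : y ∈ Icc _ _) => hR.pt q hq y ((rr_nonneg _).trans hy.1) hy.1 hy.2
  have l0 := rr_nonneg l
  rcases hE with hE | hE
  · refine ⟨_, _, _, hE, ?_⟩
    have k1 := hc (rr (mulU (gNeg R) (gHip R))) 0 (rr_nonneg _) fun u h1 h2 => by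
      have a := neg_hip (pt _ (m1 u h1 h2)).inR (pt _ (m2 u h1 h2)).inR
      have b := mul_le_mul_of_nonneg_right a (L_nonneg h.sc hq hI u)
      unfold FF
      linarith
    have k2 := mulU_ge (mulU (gNeg R) (gHip R)) l
    rw [rr_add]
    linarith
  · refine ⟨_, _, _, hE, ?_⟩
    have a0 := rr_nonneg (gAB R)
    have a1 := rr_nonneg (gK1 R)
    have a2 := rr_nonneg (gK2 R)
    have a3 := rr_nonneg dt
    have a4 : 0 ≤ (rr (gAB R) * rr (gK2 R) + 3 * rr (gK1 R) * rr (gK1 R)) * rr dt * rr dt / 4 :=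
      div_nonneg (mul_nonneg (mul_nonneg (add_nonneg (mul_nonneg a0 a2)
        (mul_nonneg (mul_nonneg (by norm_num) a1) a1)) a3) a3) (by norm_num)
    have k1 := hc ((rr (gAB R) * rr (gK2 R) + 3 * rr (gK1 R) * rr (gK1 R)) * rr dt * rr dt / 4)
      (rr (mulD (mulD wl wl) c)) a4 fun u h1 h2 => by
      have a := sym_ge (h.sc.sm_g hq) (rr_nonneg _) (m1 u h1 h2) (m2 u h1 h2) (hdt u h1 h2)
        fun y hy => ⟨(pt y hy).inR.abs, (pt y hy).gK1, (pt y hy).gK2⟩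
      have b := mul_le_mul_of_nonneg_right a (L_nonneg h.sc hq hI u)
      have c1 := (hw.pt q hq _ ((rr_nonneg _).trans (memw u h1 h2).1) (memw u h1 h2).1
        (memw u h1 h2).2).inR.abs_ge
      rw [hwl, show (x1 + x2) / 2 * u ^ 2 = (x1 * u ^ 2 + x2 * u ^ 2) / 2 by ring] at c1
      have c2 := mulD_le_of c1 c1
      rw [abs_mul_abs_self, ← sq] at c2
      have c3 := mul_le_mul_of_nonneg_right (mulD_le (mulD wl wl) c) (sq_nonneg u)
      have c4 := mul_le_mul c2 (hL u (tS_mem h1 h2).2)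
        (mul_nonneg (rr_nonneg _) (sq_nonneg u)) (sq_nonneg _)
      unfold FF
      linarith
    have k2 := mulD_le_of (le_refl (rr (mulD (mulD wl wl) c))) (t2L_encl hab).1
    have k3 := rr_shr_lt ((gAB R * gK2 R + 3 * gK1 R * gK1 R) * dt * dt * l) 162
    rw [rr_mul, rr_mul, rr_mul, rr_add, rr_mul, rr_mul, rr_nmul] at k3
    rw [rr_add gn, rr_add gp]
    push_cast at k3
    linarith

/-- The tail of the integral. -/
theorem tail_ok (h : BOK B Q E) (hq : q ∈ B.I) (hI : In ra rb d0 T x x1 x2) {s f : ℕ}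
    (hf : farc B (mulD ((SS - rb - d0) / 2) (tS s)) = f) (hb : f < BIG) :
    ∫ u in Ioi (sR s), FF (B.g 0 q) x1 x2 T x u ≤
      rr (mulU (mulU (mulU (mulU B.lamh (tS s)) f) f) ((s <<< 34) / 3 + 1)) := by
  have k : ∀ v, rr ((SS - rb - d0) / 2) ≤ v → ∀ u, sR s ≤ u →
      0 < sR s ∧ |B.g 0 q (v * u ^ 2)| ≤ rr f * (sR s / u) ^ 3 := fun v hv u hu => by
    rw [← hf] at hb ⊢
    exact farc_sq h hq (mulD_le_of hv (tS_eq s).le) hb hu
  have hS := (k x1 hI.x_lo.1 _ le_rfl).1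
  obtain ⟨i1, v1⟩ := FIntX.inv_pow_int hS 2
  have i2 := i1.const_mul (rr B.lamh * rr f * rr f * sR s ^ 6)
  have hle := setIntegral_mono_on ((int_FF h.sc hq hI).mono_set (Ioi_subset_Ioi hS.le)) i2
    measurableSet_Ioi fun u hu => by
      have hu : sR s < u := hu
      have u0 := hS.trans hu
      have a1 := FCalcX.abs_mul_le' (k x1 hI.x_lo.1 u hu.le).2 (k x2 hI.x_lo.2 u hu.le).2
      have a2 := mul_le_mul (neg_le_abs _ |>.trans a1) (L_lin h hq hI u) (L_nonneg h.sc hq hI u)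
        ((abs_nonneg _).trans a1)
      unfold FF
      rw [← neg_mul]
      refine a2.trans (le_of_eq ?_)
      norm_num
      field_simp
  rw [integral_const_mul, v1] at hle
  refine hle.trans ?_
  have b1 : rr B.lamh * sR s ^ 2 ≤ rr (mulU B.lamh (tS s)) :=
    le_mulU le_rfl (tS_eq s).ge (sq_nonneg _)
  have b2 := le_mulU (le_mulU b1 (le_refl (rr f)) (rr_nonneg f)) (le_refl (rr f)) (rr_nonneg f)
  have b3 := rr_div_lt (k := 3) (s <<< 34) (by norm_num)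
  rw [shl34] at b3
  have b4 := le_mulU b2 b3.le (by positivity)
  refine le_trans (le_of_eq ?_) b4
  push_cast
  field_simp
  norm_num

end YBallX

open YBallX

theorem ballRun_sound (h : BOK B Q E) {Va Vb : ℕ → ℕ} (hV : EndOK B Va Vb B.Yp) {ra rb d0 : ℕ}
    {sch : List ℕ} (ok : ballRun B Q E Va Vb ra rb d0 sch = true) : BallIn B ra rb d0 := by
  intro q hq ι T x x1 x2 h0 hp hl hh hs hd
  unfold ballRun at ok
  rw [Bool.and_eq_true, Nat.blt_eq] at ok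
  obtain ⟨lt, ok⟩ := ok
  have hI : In ra rb d0 T x x1 x2 := ⟨lt, h0, hp, hl, hh, hs, hd⟩
  have iF := int_FF h.sc hq hI
  obtain ⟨s, gp, gn, e, h1, h2⟩ := sweep_ind sch (cellB B Q E Va Vb ra rb d0) _
    (fun s gp gn _ => ∫ u in (0 : ℝ)..sR s, FF (B.g 0 q) x1 x2 T x u ≤ rr gn - rr gp)
    (by simp [sR_zero]) fun s s' a b g kk hs hi => by
      obtain ⟨a', b', g', e1, e2⟩ := cell_ok h hV hq hI hs a b g kk
      refine ⟨a', b', g', e1, ?_⟩
      rw [int_add iF (sR_nonneg s) (sR_mono hs)]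
      linarith
  rw [h1, forceN_eq, Bool.and_eq_true, Nat.blt_eq, Nat.blt_eq, ← rr_lt (b := gp), rr_add,
    rr_add] at ok
  have k1 := tail_ok h hq hI rfl ok.1
  have k2 := int_all iF (sR_nonneg s)
  have k3 := divU_ge B.kh (b := 2 * (SS - rb)) (by omega)
  rw [rr_nmul, rr_sub (by omega), rr_SS] at k3
  push_cast at k3
  have k4 : ∫ u in Ioi (0 : ℝ), FF (B.g 0 q) x1 x2 T x u < -(rr B.kh / (2 * (1 - rr rb))) := by
    linarith [ok.2]
  have k5 := mul_lt_mul_of_pos_left k4 hp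
  have k6 := two_le_kap h.sc.C_pos (h.sc.q_pos hq).1 (h.sc.q_pos hq).2 hI.x_pos.1 hI.x_pos.2
  rw [show x1 + x2 = 1 - ∑ j ∈ T, x j by linarith] at k6
  have k7 := sqrt_bd (h.sc.hkap q hq).2 (rr_nonneg _) hp.le hh
    (by linarith [hI.rb_lt, rr_nonneg d0])
  unfold IX
  simp only [FF_eq hI]
  rw [integral_add (int_O h.sc hq hI) (iF.const_mul _), integral_const_mul]
  unfold Blk.g at k5 ⊢
  linarith

theorem ballChk_sound (h : BOK B Q E) {Va Vb : ℕ → ℕ} (hV : EndOK B Va Vb B.Yp)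
    {bl : List (ℕ × ℕ × List ℕ)} (ok : ballChk B Q E Va Vb bl = true) : BallOK B bl := by
  have key : ∀ (bl : List (ℕ × ℕ × List ℕ)) (ra : ℕ), lf (α := ℕ → Bool) bl (fun _ => true)
      (fun c ih ra => ballRun B Q E Va Vb ra c.1 c.2.1 c.2.2 && ih c.1) ra = true →
      ∀ rl rh dm, inBall bl rl rh dm = true → ∀ q ∈ B.I, ∀ (ι : Type) (T : Finset ι) (x : ι → ℝ)
        (x1 x2 : ℝ), (∀ j ∈ T, 0 ≤ x j) → 0 < ∑ j ∈ T, x j → rr ra ≤ ∑ j ∈ T, x j →
        rr rl ≤ ∑ j ∈ T, x j → ∑ j ∈ T, x j ≤ rr rh → x1 + x2 + ∑ j ∈ T, x j = 1 →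
        |x1 - x2| ≤ rr dm → IX (B.g 0 q) x1 x2 T x < kap B.C q := by
    intro bl
    induction bl with
    | nil => intro ra _ rl rh dm hi; exact absurd hi (by simp [inBall, lf_nil])
    | cons c l ih =>
      intro ra ok rl rh dm hi q hq ι T x x1 x2 h0 hp ha hl hh hs hd
      unfold inBall at hi ih
      rw [lf_cons] at ok hi
      simp only [Bool.and_eq_true, Bool.or_eq_true, Nat.blt_eq, Nat.ble_eq] at ok hi
      rcases le_or_gt (∑ j ∈ T, x j) (rr c.1) with hc | hc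
      · refine ballRun_sound h hV ok.1 q hq ι T x x1 x2 h0 hp ha hc hs ?_
        rcases hi.1 with h1 | h1
        · exact absurd (rr_lt.2 h1) (not_lt.2 (hl.trans hc))
        · exact hd.trans (rr_le.2 h1)
      · rcases hi.2 with h1 | h1
        · exact absurd (hh.trans (rr_le.2 h1)) (not_le.2 hc)
        · exact ih c.1 ok.2 rl rh dm h1 q hq ι T x x1 x2 h0 hp hc.le hl hh hs hd
  intro rl rh dm hi q hq ι T x x1 x2 h0 hp hl hh hs hd
  exact key bl 0 ok rl rh dm hi q hq ι T x x1 x2 h0 hp (by rw [rr_zero]; exact hp.le) hl hh hs hd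

end Pool.Agent.MP_39fec4_gt.K
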