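import Pool.Agent.MP_39fec4_gt.ZVert
import Pool.Agent.MP_39fec4_gt.KFast

set_option autoImplicit false

/-! The modular Horner scheme. -/

namespace Pool.Agent.MP_39fec4_gt.K

open Set Full

namespace ZFastCX

/-- The state of `hornN`. -/
def hN (Y : ℕ) : List ℕ → ℕ × ℕ × ℕ × ℕ × ℕ → ℕ × ℕ × ℕ × ℕ × ℕ
  | [], e => e
  | a :: l, e => hN Y l (e.1 * Y + a, e.2.1 * Y + e.1, e.2.2.1 * Y + e.2.1,
      e.2.2.2.1 * Y + e.2.2.1, e.2.2.2.2 * Y + e.2.2.2.1)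

/-- The state of `horn`. -/
def hZ (Y : ℤ) : List ℕ → Bool → ℤ × ℤ × ℤ × ℤ × ℤ → ℤ × ℤ × ℤ × ℤ × ℤ
  | [], _, e => e
  | a :: l, od, e => hZ Y l (!od) (e.1 * Y + (bif od then -(a : ℤ) else a), e.2.1 * Y + e.1,
      e.2.2.1 * Y + e.2.1, e.2.2.2.1 * Y + e.2.2.1, e.2.2.2.2 * Y + e.2.2.2.1)

/-- The state of `hornM`. -/
def hM (Z M : ℕ) : List ℕ → Bool → ℕ → ℕ
  | [], _, D => D
  | a :: l, od, D => hM Z M l (!od) ((D * Z + (bif od then M - a else a)) &&& (M - 1))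

theorem hornN_eq {α : Type} (l : List ℕ) (top Y : ℕ) (k : ℕ → ℕ → ℕ → ℕ → ℕ → α) :
    hornN l top Y k = (fun e : ℕ × ℕ × ℕ × ℕ × ℕ => k e.1 e.2.1 e.2.2.1 e.2.2.2.1 e.2.2.2.2)
      (hN Y l (top, 0, 0, 0, 0)) := by
  unfold hornN
  simp only [forceN_eq]
  generalize (0 : ℕ) = d1
  have key : ∀ (l : List ℕ) (d0 d1 d2 d3 d4 : ℕ),
      lf (α := Nat → Nat → Nat → Nat → Nat → α) l k
        (fun a ih d0 d1 d2 d3 d4 =>
          ih (d0 * Y + a) (d1 * Y + d0) (d2 * Y + d1) (d3 * Y + d2) (d4 * Y + d3))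
        d0 d1 d2 d3 d4 = (fun e : ℕ × ℕ × ℕ × ℕ × ℕ => k e.1 e.2.1 e.2.2.1 e.2.2.2.1 e.2.2.2.2)
          (hN Y l (d0, d1, d2, d3, d4)) := by
    intro l
    induction l with
    | nil => exact fun _ _ _ _ _ => rfl
    | cons a l ih => exact fun _ _ _ _ _ => ih _ _ _ _ _
  exact key l _ _ _ _ _

theorem horn_eq {α : Type} (l : List ℕ) (od : Bool) (Y : ℤ) (k : ℤ → ℤ → ℤ → ℤ → ℤ → α) :
    horn l od Y k = (fun e : ℤ × ℤ × ℤ × ℤ × ℤ => k e.1 e.2.1 e.2.2.1 e.2.2.2.1 e.2.2.2.2)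
      (hZ Y l od (0, 0, 0, 0, 0)) := by
  unfold horn
  simp only [forceI_eq]
  have key : ∀ (l : List ℕ) (od : Bool) (d0 d1 d2 d3 d4 : ℤ),
      lf (α := Bool → Int → Int → Int → Int → Int → α) l (fun _ => k)
        (fun a ih od d0 d1 d2 d3 d4 => Bool.casesOn (motive := fun _ => α) od
          (ih true (d0 * Y + Int.ofNat a) (d1 * Y + d0) (d2 * Y + d1) (d3 * Y + d2) (d4 * Y + d3))
          (ih false (d0 * Y - Int.ofNat a) (d1 * Y + d0) (d2 * Y + d1) (d3 * Y + d2) (d4 * Y + d3)))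
        od d0 d1 d2 d3 d4 =
        (fun e : ℤ × ℤ × ℤ × ℤ × ℤ => k e.1 e.2.1 e.2.2.1 e.2.2.2.1 e.2.2.2.2)
          (hZ Y l od (d0, d1, d2, d3, d4)) := by
    intro l
    induction l with
    | nil => exact fun _ _ _ _ _ _ => rfl
    | cons a l ih =>
      intro od _ _ _ _ _
      cases od
      · exact ih true _ _ _ _ _
      · exact ih false _ _ _ _ _
  exact key l _ _ _ _ _ _

theorem hornM_eq (l : List ℕ) (od : Bool) (Z M : ℕ) : hornM l od Z M = hM Z M l od 0 := by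
  unfold hornM
  generalize (0 : ℕ) = D
  induction l generalizing od D with
  | nil => rfl
  | cons a l ih =>
    cases od
    · exact ih true _
    · exact ih false _

theorem hN_ge {Y : ℕ} (hY : 1 ≤ Y) (l : List ℕ) (e : ℕ × ℕ × ℕ × ℕ × ℕ) : e.1 ≤ (hN Y l e).1 := by
  induction l generalizing e with
  | nil => exact le_rfl
  | cons a l ih =>
    refine le_trans ?_ (ih _)
    exact (Nat.le_mul_of_pos_right _ hY).trans (Nat.le_add_right _ _)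

/-- Entrywise domination. -/
def Dom (d : ℤ × ℤ × ℤ × ℤ × ℤ) (e : ℕ × ℕ × ℕ × ℕ × ℕ) : Prop :=
  |d.1| ≤ e.1 ∧ |d.2.1| ≤ e.2.1 ∧ |d.2.2.1| ≤ e.2.2.1 ∧ |d.2.2.2.1| ≤ e.2.2.2.1 ∧
    |d.2.2.2.2| ≤ e.2.2.2.2

theorem abs_step {Y Y' e e' : ℕ} {d d' : ℤ} (hY : Y ≤ Y') (h : |d| ≤ e) (h' : |d'| ≤ e') :
    |d * Y + d'| ≤ (e * Y' + e' : ℕ) := by
  refine (abs_add_le _ _).trans ?_
  rw [abs_mul, Nat.abs_cast]
  push_cast
  exact add_le_add (mul_le_mul h (by exact_mod_cast hY) (by positivity) (by positivity)) h'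

theorem dom_h {Y Y' : ℕ} (hY : Y ≤ Y') (l : List ℕ) (od : Bool) {d : ℤ × ℤ × ℤ × ℤ × ℤ}
    {e : ℕ × ℕ × ℕ × ℕ × ℕ} (h : Dom d e) : Dom (hZ Y l od d) (hN Y' l e) := by
  induction l generalizing od d e with
  | nil => exact h
  | cons a l ih =>
    obtain ⟨h0, h1, h2, h3, h4⟩ := h
    refine ih _ ⟨abs_step hY h0 ?_, abs_step hY h1 h0, abs_step hY h2 h1, abs_step hY h3 h2,
      abs_step hY h4 h3⟩
    cases od <;> simp

/-- The value of a digit string. -/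
def val (X : ℤ) (d : ℤ × ℤ × ℤ × ℤ × ℤ) : ℤ :=
  d.1 + d.2.1 * X + d.2.2.1 * X ^ 2 + d.2.2.2.1 * X ^ 3 + d.2.2.2.2 * X ^ 4

theorem mod_h {Y Y' W : ℕ} (hY : 1 ≤ Y') (l : List ℕ) (od : Bool) {D : ℕ}
    {d : ℤ × ℤ × ℤ × ℤ × ℤ} {e : ℕ × ℕ × ℕ × ℕ × ℕ} (he : (hN Y' l e).1 ≤ 2 ^ (5 * W))
    (h : (D : ℤ) ≡ val (2 ^ W) d [ZMOD 2 ^ (5 * W)]) :
    (hM (Y + 2 ^ W) (2 ^ (5 * W)) l od D : ℤ) ≡ val (2 ^ W) (hZ Y l od d) [ZMOD 2 ^ (5 * W)] := by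
  induction l generalizing od D d e with
  | nil => exact h
  | cons a l ih =>
    refine ih _ he ?_
    have ha : a ≤ 2 ^ (5 * W) := (Nat.le_add_left _ _).trans ((hN_ge hY l (_, _)).trans he)
    rw [Nat.and_two_pow_sub_one_eq_mod, Int.natCast_mod, Nat.cast_pow, Nat.cast_ofNat]
    refine (Int.mod_modEq _ _).trans ?_
    have h1 : (((bif od then 2 ^ (5 * W) - a else a : ℕ) : ℕ) : ℤ) ≡
        (bif od then -(a : ℤ) else a) [ZMOD 2 ^ (5 * W)] := by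
      cases od
      · rfl
      · rw [cond_true, cond_true, Nat.cast_sub ha]
        exact Int.modEq_iff_dvd.2 ⟨-1, by push_cast; ring⟩
    rw [Nat.cast_add, Nat.cast_mul]
    refine ((h.mul_right _).add h1).trans (Int.modEq_iff_dvd.2 ⟨-d.2.2.2.2, ?_⟩)
    simp only [val]
    push_cast
    rw [mul_comm 5 W, pow_mul]
    ring

theorem dig_eq {D W j sh u : ℕ} {d : ℤ} (h : fld D (W + 1) j = u) (hu : (u : ℤ) = d + 2 ^ W)
    (hs : sh ≤ W) : digM D (W + 1) j sh = encV d sh := by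
  obtain ⟨t, rfl⟩ := Nat.exists_eq_add_of_le hs
  have e : ((u >>> sh : ℕ) : ℤ) = Int.shiftRight d sh + (2 ^ t : ℕ) := by
    rw [Nat.shiftRight_eq_div_pow, Int.natCast_div, hu, show Int.shiftRight d sh = d >>> sh from rfl,
      Int.shiftRight_eq_div_pow, pow_add]
    push_cast
    rw [Int.add_mul_ediv_left _ _ (by positivity)]
  rw [digM, encV, h, Nat.add_sub_cancel, Nat.add_sub_cancel_left, Nat.shiftLeft_eq, one_mul]
  omega

theorem lift_dig {d : ℤ} {e W : ℕ} (h : |d| ≤ e) (he : e < 2 ^ W) :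
    ∃ u : ℕ, u < 2 ^ (W + 1) ∧ (u : ℤ) = d + 2 ^ W := by
  have h1 : (e : ℤ) < 2 ^ W := by exact_mod_cast he
  rw [abs_le] at h
  obtain ⟨u, hu⟩ := Int.eq_ofNat_of_zero_le (show 0 ≤ d + 2 ^ W by linarith [h.1])
  refine ⟨u, ?_, hu.symm⟩
  have : (u : ℤ) < 2 ^ (W + 1) := by rw [← hu, pow_succ]; linarith [h.2]
  exact_mod_cast this

theorem digits {D w u0 u1 u2 u3 u4 : ℕ} (h0 : u0 < 2 ^ w) (h1 : u1 < 2 ^ w) (h2 : u2 < 2 ^ w)
    (h3 : u3 < 2 ^ w) (h4 : u4 < 2 ^ w)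
    (h : (D : ℤ) ≡ val (2 ^ w) (u0, u1, u2, u3, u4) [ZMOD 2 ^ (5 * w)]) :
    fld D w 0 = u0 ∧ fld D w 1 = u1 ∧ fld D w 2 = u2 ∧ fld D w 3 = u3 ∧ fld D w 4 = u4 := by
  have e1 : D ≡ u0 + 2 ^ w * (u1 + 2 ^ w * (u2 + 2 ^ w * (u3 + 2 ^ w * u4)))
      [MOD 2 ^ (5 * w)] := by
    rw [show val (2 ^ w) (u0, u1, u2, u3, u4) =
      ((u0 + 2 ^ w * (u1 + 2 ^ w * (u2 + 2 ^ w * (u3 + 2 ^ w * u4))) : ℕ) : ℤ) by
        simp only [val]; push_cast; ring] at h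
    exact Int.natCast_modEq_iff.1 (by rwa [Nat.cast_pow, Nat.cast_ofNat])
  have st : ∀ a b X Y : ℕ, a < X → b < Y → a + X * b < X * Y := fun a b X Y ha hb => by
    nlinarith
  have e2 := st _ _ _ _ h0 (st _ _ _ _ h1 (st _ _ _ _ h2 (st _ _ _ _ h3 h4)))
  rw [show 2 ^ w * (2 ^ w * (2 ^ w * (2 ^ w * 2 ^ w))) = 2 ^ (5 * w) by ring] at e2
  have e3 : D = u0 + ((u1 + ((u2 + ((u3 + ((u4 + ((D / 2 ^ (5 * w)) <<< w)) <<< w)) <<< w)) <<< w))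
      <<< w) := by
    conv_lhs => rw [← Nat.mod_add_div D (2 ^ (5 * w)), e1, Nat.mod_eq_of_lt e2]
    simp only [Nat.shiftLeft_eq]
    ring
  rw [e3]
  exact ⟨fld_low h0, (fld_high h0 0).trans (fld_low h1),
    (fld_high h0 1).trans ((fld_high h1 0).trans (fld_low h2)),
    (fld_high h0 2).trans ((fld_high h1 1).trans ((fld_high h2 0).trans (fld_low h3))),
    (fld_high h0 3).trans ((fld_high h1 2).trans ((fld_high h2 1).trans
      ((fld_high h3 0).trans (fld_low h4))))⟩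

theorem vrecM_eq {l : List ℕ} {od : Bool} {P W Y Y' : ℕ} {e : ℕ × ℕ × ℕ × ℕ × ℕ}
    (he : e = hN Y' l (0, 0, 0, 0, 0)) (hY : Y ≤ Y') (hY' : 1 ≤ Y')
    (hW : e.1 + e.2.1 + e.2.2.1 + e.2.2.2.1 + e.2.2.2.2 + 2 ^ P < 2 ^ W) :
    vrecM l od P (W + 1) Y = vrec l od P Y := by
  have hP : P ≤ W := ((Nat.pow_lt_pow_iff_right one_lt_two).1
    ((Nat.le_add_left _ _).trans_lt hW)).le
  replace hW := (Nat.le_add_right _ _).trans_lt hW
  obtain ⟨b0, b1, b2, b3, b4⟩ := he ▸ dom_h hY l od (d := (0, 0, 0, 0, 0)) (e := (0, 0, 0, 0, 0))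
    (by simp [Dom])
  have hm := mod_h (Y := Y) (W := W + 1) hY' l od (D := 0) (d := (0, 0, 0, 0, 0))
    (e := (0, 0, 0, 0, 0)) (by
      rw [← he]
      exact le_trans (by omega) (Nat.pow_le_pow_right two_pos (show W ≤ 5 * (W + 1) by omega)))
    (by simp [val])
  obtain ⟨u0, c0, f0⟩ := lift_dig b0 (W := W) (by omega)
  obtain ⟨u1, c1, f1⟩ := lift_dig b1 (W := W) (by omega)
  obtain ⟨u2, c2, f2⟩ := lift_dig b2 (W := W) (by omega)
  obtain ⟨u3, c3, f3⟩ := lift_dig b3 (W := W) (by omega)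
  obtain ⟨u4, c4, f4⟩ := lift_dig b4 (W := W) (by omega)
  unfold vrecM vrec
  rw [forceN_eq, horn_eq, hornM_eq]
  simp only [Nat.shiftLeft_eq, one_mul]
  obtain ⟨g0, g1, g2, g3, g4⟩ := digits c0 c1 c2 c3 c4
    (D := hM (Y + 2 ^ (W + 1)) (2 ^ (5 * (W + 1))) l od 0 + (2 ^ (W + 1 - 1) +
      2 ^ (2 * (W + 1) - 1) + 2 ^ (3 * (W + 1) - 1) + 2 ^ (4 * (W + 1) - 1) +
      2 ^ (5 * (W + 1) - 1))) (by
    rw [Nat.cast_add]
    refine (hm.add_right _).trans (Eq.mpr (congrArg (· ≡ _ [ZMOD _]) ?_) (Int.ModEq.refl _))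
    rw [show 2 * (W + 1) - 1 = W + (W + 1) by omega, show 3 * (W + 1) - 1 = W + (W + 1) * 2 by omega,
      show 4 * (W + 1) - 1 = W + (W + 1) * 3 by omega,
      show 5 * (W + 1) - 1 = W + (W + 1) * 4 by omega, Nat.add_sub_cancel]
    simp only [val, f0, f1, f2, f3, f4]
    push_cast
    ring)
  rw [dig_eq g0 f0 (by omega), dig_eq g1 f1 (by omega), dig_eq g2 f2 (by omega),
    dig_eq g3 f3 (by omega), dig_eq g4 f4 (by omega)]
  rfl

theorem rec_mono {f g : ℕ → Bool} {n : ℕ} (h : ∀ i, i < n → f i = true → g i = true)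
    (hf : Nat.rec (motive := fun _ => Bool) true (fun i ih => f i && ih) n = true) :
    Nat.rec (motive := fun _ => Bool) true (fun i ih => g i && ih) n = true := by
  induction n with
  | zero => rfl
  | succ n ih =>
    have := Bool.and_eq_true_iff.1 hf
    exact Bool.and_eq_true_iff.2 ⟨h n (Nat.lt_succ_self n) this.1,
      ih (fun i hi => h i (Nat.lt_succ_of_lt hi)) this.2⟩

theorem vbandM_sound {la lr : List ℕ} {n P V j cnt N : ℕ}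
    (h : vbandM la lr n P V j cnt N = true) : vband la lr n P V j cnt N = true := by
  unfold vbandM at h
  unfold vband
  rw [Bool.and_eq_true] at h ⊢
  refine ⟨h.1, ?_⟩
  have h2 := h.2
  rw [hornN_eq] at h2
  simp only [forceN_eq] at h2 ⊢
  refine rec_mono (fun i hi hf => ?_) h2
  have hp : 0 < 2 ^ j := by positivity
  rwa [vrecM_eq (W := Nat.log2 _ + 1) (Y' := (2 * (bandA j + cnt)) <<< j) rfl ?_ ?_ ?_] at hf
  · simp only [Nat.shiftLeft_eq]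
    exact Nat.mul_le_mul_right _ (by omega)
  · simp only [Nat.shiftLeft_eq]
    exact Nat.mul_pos (by omega) hp
  · rw [Nat.shiftLeft_eq 1 P, one_mul]
    exact Nat.lt_log2_self

end ZFastCX

theorem vchkM_sound {G : ℕ → ℕ} {R m P n Y V : ℕ} {Ns : List ℕ}
    (h : vchkM G R m P n Y V Ns = true) : vchkY G R m P n Y V Ns = true := by
  unfold vchkM at h
  unfold vchkY vchk
  rw [forceN_eq] at h
  generalize coefs G R m P n = c at h ⊢
  obtain ⟨la, lr⟩ := c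
  simp only [Bool.and_eq_true] at h ⊢
  obtain ⟨⟨⟨⟨⟨⟨⟨h1, h2⟩, h3⟩, h4⟩, h5⟩, h6⟩, h7⟩, h8⟩ := h
  refine ⟨h1, ⟨⟨⟨⟨⟨h2, h3⟩, h4⟩, h5⟩, h6⟩, h7⟩, ?_⟩
  generalize vidx (Y - 1) + 1 = nv at h8 ⊢
  generalize (6 : ℕ) = c at h8 ⊢
  refine ZFastCX.rec_mono
    (f := fun j => Nat.beq (bandC nv j) 0 || vbandM la lr n P V j (bandC nv j) (nth Ns j))
    (g := fun j => Nat.beq (bandC nv j) 0 || vband la lr n P V j (bandC nv j) (nth Ns j))
    (fun i _ hf => ?_) h8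
  rw [Bool.or_eq_true] at hf ⊢
  exact hf.imp_right ZFastCX.vbandM_sound

end Pool.Agent.MP_39fec4_gt.K
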