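import Pool.Agent.MP_39fec4_gt.YBall
import Pool.Agent.MP_39fec4_gt.ZFastC

set_option autoImplicit false

namespace Pool.Agent.MP_39fec4_gt.K

open Set MeasureTheory Full

/-- What the first checks of a certificate give. -/
structure Cert.Base (c : Cert) : Prop where
  bok : BOK c.B c.Q c.Ef
  vv : VVOK c.B c.VV
  ends : EndOK c.B c.Va c.Vb c.B.Yp
  mk1 : ∀ i, i ≤ 680 → Yb i < c.B.Yc → MkOK c.B (tget c.T 840 i) (rr (Yb i)) (rr (Yb (i + 1)))
  mk0 : MkOK c.B (mkCellN c.B c.Va c.Vb 0 0) 0 0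
  ball : BallOK c.B c.bl

namespace YBaseX

/-- The table at each vertex is correct up to the bound used by the check. -/
theorem vt_sound {G : ℕ → ℕ} (hG : GamOK G) {c : Cert} {n : ℕ} (h : c.vt G 0 n = true) {v : ℕ}
    (hv : v < n) : VOK c.B.C (c.B.q v) (vget c.VL v)
      (bif Nat.beq v 0 || Nat.beq (v + 1) c.B.nv then c.B.Yc else c.B.Yp) := by
  unfold Cert.vt at h
  have h1 := all_rec (f := fun i => forceN (0 + i) (fun v => vchkM G c.B.R (c.B.qv v) (c.vp v).1
    (c.vp v).2.1 (bif Nat.beq v 0 || Nat.beq (v + 1) c.B.nv then c.B.Yc else c.B.Yp) (nth c.VL v)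
    (c.vp v).2.2)) h v hv
  rw [forceN_eq, Nat.zero_add] at h1
  exact vchkY_sound hG (vchkM_sound h1)

end YBaseX

theorem Cert.OK.base {G : ℕ → ℕ} (hG : GamOK G) {c : Cert} (h : c.OK G) : c.Base := by
  have hs : ScalOK c.B := scalChk_sound hG h.sc
  have hce := h.ce
  unfold Cert.cells at hce
  rw [Bool.and_eq_true] at hce
  obtain ⟨hr, he⟩ := restChkN_sound hce.2
  have hc : ∀ i, i ≤ 680 → cellChk c.B c.Va c.Vb (tget c.T 840) c.Ef i = true := fun i hi =>
    cellsChk_sound (cellsChkN_sound hce.1) i (Nat.zero_le i) (by omega)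
  have hp : c.B.Yp ≤ c.B.Yc := (ZBlockX.rest_props hr).yp
  have hn := hs.nv
  have hvb : c.Vb = vget c.VL (c.B.nv - 1) := by
    unfold Cert.Vb
    exact forceN_eq _ _
  have hV : EndOK c.B c.Va c.Vb c.B.Yc := by
    constructor
    · have h1 := YBaseX.vt_sound hG h.vt (v := 0) (by omega)
      rw [hs.q_ends.1] at h1
      exact h1
    · have h1 := YBaseX.vt_sound hG h.vt (v := c.B.nv - 1) (by omega)
      have h2 : Nat.beq (c.B.nv - 1 + 1) c.B.nv = true := by
        rw [Nat.beq_eq]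
        omega
      rw [hs.q_ends.2, h2, Bool.or_true, cond_true] at h1
      rw [hvb]
      exact h1
  have hV' : EndOK c.B c.Va c.Vb c.B.Yp := ⟨hV.1.mono hp, hV.2.mono hp⟩
  have hb : BOK c.B c.Q c.Ef := bok_of hs hV hc hr
  refine ⟨hb, fun v hv => ?_, hV', fun i hi hy => mk_of hs hV hc hi hy, ?_,
    ballChk_sound hb hV' h.ba⟩
  · refine (YBaseX.vt_sound hG h.vt hv).mono ?_
    cases (Nat.beq v 0 || Nat.beq (v + 1) c.B.nv)
    · exact le_rfl
    · exact hp
  · rw [he]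
    exact mk_zero hs hV hr

end Pool.Agent.MP_39fec4_gt.K
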