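import Pool.Agent.MP_39fec4_gt.YSweep
import Pool.Agent.MP_39fec4_gt.FHess

set_option autoImplicit false

namespace Pool.Agent.MP_39fec4_gt.K

open Set MeasureTheory Full

variable {B : Blk} {Q : ℕ → ℕ → ℕ} {E : ℕ → ℕ} {q : ℝ} {ι : Type} {T : Finset ι}

namespace YHessX

def k1N (R Rn : ℕ) : ℕ := (gK1 R + gK1 Rn) / 2 + 1

/-- The weighted bound for the second derivative stored in the field `i`. -/
def k2N (i R Rn : ℕ) : ℕ := (fld R 56 i + 3 * fld Rn 56 i) / 4 + 1 - OFF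

def b0N (P : EP) (R Rn w tb : ℕ) : ℕ :=
  min (gAB R) (gAB w + mulU (max (k2N 4 R Rn) (k2N 3 R Rn)) (mulU (mulU tb tb) P.Vh) /
    (2 * P.k) + 1)

def ccN (R b0 : ℕ) : ℕ :=
  bif Nat.blt 0 (gLop R) then min SS (divU (2 * b0 - gLop R) (2 * b0))
  else bif Nat.blt 0 (gHin R) then min SS (divU (2 * b0 - gHin R) (2 * b0)) else SS

def aN (k b0 kh : ℕ) : ℕ := (powU b0 (k - 1) * kh) <<< 39

def cwN (k R b0 k1 : ℕ) : ℕ := mulU (ccN R b0) (powU b0 (k - 2)) * k1 * k1

def wkN (P : EP) (w k1 : ℕ) : ℕ :=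
  bif P.uni then powU (gAB w) (P.k - 2) * k1 * k1
  else (powU (gAB w) (P.k - 2) * (P.k - 1) / P.k + 1) * k1 * k1

def u1N (Z2 ym R ah : ℕ) : ℕ := bif Nat.ble ym Z2 || Nat.beq (gHip R) 0 then 0 else ah

def u2N (P : EP) (R ah al cw : ℕ) : ℕ :=
  bif Nat.beq (gNeg R) 0 then 0
  else bif P.uni then max al (ah + cw) else bif ev P.k then al else ah + cw

def m1N (k R : ℕ) : ℕ :=
  bif Nat.beq k 2 then 0 else mulU (gNeg R) (powU (gAB R) (k - 3)) * gK1 R * gK1 R / 2 + 1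

def m2N (P : EP) (w wk : ℕ) : ℕ := bif Nat.beq (gNeg w) 0 || (ev P.k && !P.uni) then 0 else wk

def d1N (R al cw : ℕ) : ℕ := bif Nat.beq (gHip R) 0 then 0 else al + cw

def d2N (k R ah al cw : ℕ) : ℕ :=
  bif Nat.beq (gNeg R) 0 then 0 else bif ev k then ah + cw else al

def m3N (k R : ℕ) : ℕ := powU (gAB R) (k - 2) * gK1 R * gK1 R / 2 + 1

def m4N (k w wk : ℕ) : ℕ := bif !ev k && Nat.beq (gHip w) 0 then 0 else wk

/-- What the two results dominate. -/
structure Dom (Z2 : ℕ) (P : EP) (R w ym ah al cw wk up dn : ℕ) : Prop where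
  u1 : u1N Z2 ym R ah ≤ up
  u2 : u2N P R ah al cw ≤ up
  u3 : 0 < gLop R ∨ 0 < gHin R ∨ m1N P.k R + m2N P w wk ≤ up
  d1 : d1N R al cw ≤ dn
  d2 : d2N P.k R ah al cw ≤ dn
  d3 : 0 < gLop R ∨ 0 < gHin R ∨ m3N P.k R + m4N P.k w wk ≤ dn

theorem hess_eq {α : Type} (B : Blk) (P : EP) (R Rn w ym tb : ℕ) (kk : ℕ → ℕ → α) :
    ∃ up dn, hess B P R Rn w ym tb kk = kk up dn ∧
      Dom B.Z2 P R w ym (aN P.k (b0N P R Rn w tb) (k2N 4 R Rn))
        (aN P.k (b0N P R Rn w tb) (k2N 3 R Rn)) (cwN P.k R (b0N P R Rn w tb) (k1N R Rn))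
        (wkN P w (k1N R Rn)) up dn := by
  generalize e1 : aN P.k (b0N P R Rn w tb) (k2N 4 R Rn) = ah
  generalize e2 : aN P.k (b0N P R Rn w tb) (k2N 3 R Rn) = al
  generalize e3 : cwN P.k R (b0N P R Rn w tb) (k1N R Rn) = cw
  generalize e4 : wkN P w (k1N R Rn) = wk
  have e : hess B P R Rn w ym tb kk =
      Bool.casesOn (motive := fun _ => α) (Nat.beq (gLop R) 0 && Nat.beq (gHin R) 0)
        (kk (max (u1N B.Z2 ym R ah) (u2N P R ah al cw)) (max (d1N R al cw) (d2N P.k R ah al cw)))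
        (kk (max (max (u1N B.Z2 ym R ah) (u2N P R ah al cw)) (m1N P.k R + m2N P w wk))
          (max (max (d1N R al cw) (d2N P.k R ah al cw)) (m3N P.k R + m4N P.k w wk))) := by
    subst e1 e2 e3 e4
    unfold hess
    simp only [forceN_eq]
    rfl
  rw [e]
  cases hb : (Nat.beq (gLop R) 0 && Nat.beq (gHin R) 0)
  · have h0 : 0 < gLop R ∨ 0 < gHin R := by
      by_contra h0
      have h1 : gLop R = 0 := by omega
      have h2 : gHin R = 0 := by omega
      rw [h1, h2] at hb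
      exact absurd hb (by decide)
    exact ⟨_, _, rfl, le_max_left _ _, le_max_right _ _, h0.imp id Or.inl, le_max_left _ _,
      le_max_right _ _, h0.imp id Or.inl⟩
  · exact ⟨_, _, rfl, (le_max_left _ _).trans (le_max_left _ _),
      (le_max_right _ _).trans (le_max_left _ _), Or.inr (Or.inr (le_max_right _ _)),
      (le_max_left _ _).trans (le_max_left _ _), (le_max_right _ _).trans (le_max_left _ _),
      Or.inr (Or.inr (le_max_right _ _))⟩

theorem k1N_ge (R Rn : ℕ) : (rr (gK1 R) + rr (gK1 Rn)) / 2 ≤ rr (k1N R Rn) := by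
  have := rr_div_lt (k := 2) (gK1 R + gK1 Rn) two_pos
  rw [rr_add] at this
  exact_mod_cast this.le

theorem k2N_ge (i R Rn : ℕ) :
    ro (fld R 56 i) / 4 + 3 * ro (fld Rn 56 i) / 4 ≤ rr (k2N i R Rn) := by
  have h1 := rr_div_lt (k := 4) (fld R 56 i + 3 * fld Rn 56 i) four_pos
  rw [rr_add, rr_nmul] at h1
  have h2 := rr_sub_ge ((fld R 56 i + 3 * fld Rn 56 i) / 4 + 1) OFF
  rw [ro_eq, ro_eq]
  unfold k2N
  push_cast at h1
  linarith

theorem neg_le_AB (r : ℕ) : rr (gNeg r) ≤ rr (gAB r) := rr_le.2 (gAB_eq r ▸ le_max_left _ _)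

theorem hip_le_AB (r : ℕ) : rr (gHip r) ≤ rr (gAB r) := rr_le.2 (gAB_eq r ▸ le_max_right _ _)

theorem rng_AB (r : ℕ) : -rr (gAB r) ≤ -ro (fld r 56 0) ∧ ro (fld r 56 1) ≤ rr (gAB r) := by
  rw [lo_eq, hi_eq]
  exact ⟨by linarith [neg_le_AB r, rr_nonneg (gLop r)],
    by linarith [hip_le_AB r, rr_nonneg (gHin r)]⟩

theorem lo_pos {r : ℕ} (h : 0 < gLop r) : -ro (fld r 56 0) = rr (gLop r) := by
  rw [lo_eq, (lop_neg r).resolve_left h.ne', rr_zero, sub_zero]

theorem hi_neg {r : ℕ} (h : 0 < gHin r) : ro (fld r 56 1) = -rr (gHin r) := by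
  rw [hi_eq, (hip_hin r).resolve_right h.ne', rr_zero, zero_sub]

theorem lo_nonneg {r : ℕ} (h : gNeg r = 0) : 0 ≤ -ro (fld r 56 0) := by
  rw [lo_eq, h, rr_zero, sub_zero]
  exact rr_nonneg _

theorem hi_nonpos {r : ℕ} (h : gHip r = 0) : ro (fld r 56 1) ≤ 0 := by
  rw [hi_eq, h, rr_zero, zero_sub, neg_nonpos]
  exact rr_nonneg _

theorem cc_aux (b c : ℕ) : 1 ≤ rr (min SS (divU (2 * b - c) (2 * b))) ∨
    2 * rr b - rr c ≤ 2 * rr (min SS (divU (2 * b - c) (2 * b))) * rr b := by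
  rcases le_total SS (divU (2 * b - c) (2 * b)) with h | h
  · rw [min_eq_left h, rr_SS]
    exact Or.inl le_rfl
  rw [min_eq_right h]
  rcases Nat.eq_zero_or_pos b with h0 | h0
  · right
    rw [h0, rr_zero]
    linarith [rr_nonneg c]
  · right
    have h1 := divU_ge (2 * b - c) (show 0 < 2 * b by omega)
    have h2 := rr_sub_ge (2 * b) c
    have h3 := rr_pos h0
    rw [rr_nmul] at h1 h2
    rw [div_le_iff₀ (by positivity)] at h1
    push_cast at h1 h2
    linarith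

theorem ccN_ok (R b : ℕ) : 1 ≤ rr (ccN R b) ∨
    (0 < -ro (fld R 56 0) ∧ 2 * rr b - -ro (fld R 56 0) ≤ 2 * rr (ccN R b) * rr b) ∨
    (ro (fld R 56 1) < 0 ∧ 2 * rr b + ro (fld R 56 1) ≤ 2 * rr (ccN R b) * rr b) := by
  unfold ccN
  simp only [Bool.cond_eq_ite, Nat.blt_eq]
  split_ifs with h1 h2
  · rw [lo_pos h1]
    exact (cc_aux b (gLop R)).imp id fun h => Or.inl ⟨rr_pos h1, h⟩
  · rw [hi_neg h2]
    exact (cc_aux b (gHin R)).imp id fun h => Or.inr ⟨neg_lt_zero.2 (rr_pos h2), h⟩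
  · exact Or.inl rr_SS.ge

variable {P : EP} {R Rn w ym tb : ℕ} {y : ι → ℝ} {a : ℝ}

theorem card_ge (H : HIn B P R Rn w ym tb q T y a) : P.k ≤ T.card := by
  cases hu : P.uni
  · exact (H.ex hu).ge
  · exact (H.un hu).2.1

/-- The data of the second order inequalities. -/
theorem mkHB (h : BOK B Q E) (hq : q ∈ B.I) (H : HIn B P R Rn w ym tb q T y a) {wf : ℝ}
    (hwf : (T.card : ℝ) - 1 ≤ wf * T.card) :
    HB T (fun j => B.g 0 q (y j)) (fun j => y j - mean T y) (B.g 0 q (mean T y)) (Var T y)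
      (-ro (fld R 56 0)) (ro (fld R 56 1)) (-ro (fld w 56 0)) (ro (fld w 56 1))
      (rr (k1N R Rn)) (rr (gK1 R)) (rr (k2N 4 R Rn)) (rr (k2N 3 R Rn)) (rr (gAB R)) (rr (gAB w))
      (rr (b0N P R Rn w tb)) (rr (ccN R (b0N P R Rn w tb))) wf := by
  have hn : 2 ≤ T.card := H.k2.trans (card_ge H)
  have hT : T.Nonempty := Finset.card_pos.1 (by omega)
  have hy : ∀ j ∈ T, y j ∈ Icc a (rr ym) := H.rng
  have hm : mean T y ∈ Icc a (rr ym) := FHeadX.mean_mem T hT y hy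
  have hV := Full.var_nonneg T y
  obtain ⟨b1, b2, b3, b4⟩ := breg (h.sc.sm_g hq) T hT y (na := (a + mean T y) / 2)
    (nb := (rr ym + mean T y) / 2) (k1f := rr (gK1 R)) (k1n := rr (gK1 Rn))
    (lof := -ro (fld R 56 3)) (hif := ro (fld R 56 4)) (lon := -ro (fld Rn 56 3))
    (hin := ro (fld Rn 56 4)) H.a0 hy
    (fun v hv => let p := H.hR v hv.1 hv.2; ⟨p.k1, p.k2l, p.k2h⟩)
    (fun v hv _ => let p := H.hRn v hv.1 hv.2; ⟨p.k1, p.k2l, p.k2h⟩) le_rfl le_rfl
  refine ⟨hn, FHeadX.sum_dev T hT y, rfl, fun j hj => (H.hR _ (hy j hj).1 (hy j hj).2).inR, H.hw,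
    (H.hR _ hm.1 hm.2).inR, fun j hj => (b1 j hj).trans
      (mul_le_mul_of_nonneg_right (k1N_ge R Rn) (abs_nonneg _)), fun i hi l hl => ?_,
    le_trans ?_ b3, b4.trans ?_, rr_nonneg _, rr_nonneg _, rr_nonneg _, rr_nonneg _, rng_AB R,
    rng_AB w, ?_, ccN_ok R _, hwf⟩
  · rw [sub_sub_sub_cancel_right]
    exact b2 i hi l hl
  · linarith [mul_le_mul_of_nonneg_right (k2N_ge 3 R Rn) hV]
  · linarith [mul_le_mul_of_nonneg_right (k2N_ge 4 R Rn) hV]
  · unfold b0N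
    rw [← rr_max]
    generalize max (k2N 4 R Rn) (k2N 3 R Rn) = m
    have k0 : 0 < P.k := by linarith [H.k2]
    have k1 : (0 : ℝ) < P.k := by exact_mod_cast k0
    have n1 : (0 : ℝ) < T.card := by exact_mod_cast hT.card_pos
    have h1 : rr tb ^ 2 * rr P.Vh ≤ rr (mulU (mulU tb tb) P.Vh) :=
      le_mulU (sq (rr tb) ▸ mulU_ge tb tb) le_rfl (rr_nonneg _)
    generalize mulU (mulU tb tb) P.Vh = wm at h1
    have h2 : Var T y / T.card ≤ rr wm / P.k := by
      rw [div_le_div_iff₀ n1 k1]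
      exact H.var.trans (mul_le_mul_of_nonneg_right h1 n1.le)
    have h3 := rr_div_lt (k := 2 * P.k) (mulU m wm) (by omega)
    have h4 : rr m * Var T y / (2 * T.card) ≤ rr (mulU m wm) / (2 * P.k) :=
      calc rr m * Var T y / (2 * T.card) = rr m * (Var T y / T.card) / 2 := by field_simp
        _ ≤ rr m * (rr wm / P.k) / 2 := by
          have := mul_le_mul_of_nonneg_left h2 (rr_nonneg m)
          linarith
        _ = rr m * rr wm / (2 * P.k) := by field_simp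
        _ ≤ _ := div_le_div_of_nonneg_right (mulU_ge m wm) (by positivity)
    push_cast at h3
    rw [rr_min, add_assoc, rr_add]
    rcases le_total (rr (gAB R)) (rr (gAB w) + rr (mulU m wm / (2 * P.k) + 1)) with e | e
    · exact Or.inl (min_eq_left e).ge
    · rw [min_eq_right e]
      exact Or.inr (by linarith)

/-- A number with 120 fractional bits. -/
noncomputable def r3 (a : ℕ) : ℝ := (a : ℝ) / 2 ^ 120

theorem r3_nonneg (a : ℕ) : 0 ≤ r3 a := by unfold r3; positivity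

theorem r3_mono {a b : ℕ} (h : a ≤ b) : r3 a ≤ r3 b :=
  div_le_div_of_nonneg_right (by exact_mod_cast h) (by positivity)

theorem r3_add (a b : ℕ) : r3 (a + b) = r3 a + r3 b := by unfold r3; push_cast; ring

theorem r3_mul (a b : ℕ) : r3 (a * b * b) = rr a * rr b ^ 2 := by unfold r3 rr; push_cast; ring

theorem r3_half (a : ℕ) : r3 a / 2 ≤ r3 (a / 2 + 1) := by
  have h : a ≤ (a / 2 + 1) * 2 := by omega
  have h' : (a : ℝ) ≤ ((a / 2 + 1 : ℕ) : ℝ) * 2 := by exact_mod_cast h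
  unfold r3
  rw [div_right_comm]
  exact div_le_div_of_nonneg_right (by linarith) (by positivity)

theorem r3_aN (k b c : ℕ) : rr b ^ (k - 1) / 2 * rr c ≤ r3 (aN k b c) := by
  have e : r3 (aN k b c) = rr (powU b (k - 1)) / 2 * rr c := by
    unfold r3 aN rr
    rw [Nat.shiftLeft_eq]
    push_cast
    ring
  rw [e]
  exact mul_le_mul_of_nonneg_right (by linarith [powU_ge b (k - 1)]) (rr_nonneg c)

theorem r3_cwN (k R b c : ℕ) : rr (ccN R b) * (rr b ^ (k - 2) * rr c ^ 2) ≤ r3 (cwN k R b c) := by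
  unfold cwN
  rw [r3_mul, ← mul_assoc]
  exact mul_le_mul_of_nonneg_right (le_mulU' le_rfl (powU_ge b _) (rr_nonneg _)) (sq_nonneg _)

theorem r3_m3N (k R : ℕ) : rr (gK1 R) ^ 2 / 2 * rr (gAB R) ^ (k - 2) ≤ r3 (m3N k R) := by
  refine le_trans ?_ (r3_half _)
  rw [r3_mul]
  linarith [mul_le_mul_of_nonneg_right (powU_ge (gAB R) (k - 2)) (sq_nonneg (rr (gK1 R)))]

theorem r3_m1N {k : ℕ} (R : ℕ) (hk : k ≠ 2) :
    rr (gK1 R) ^ 2 / 2 * rr (gNeg R) * rr (gAB R) ^ (k - 3) ≤ r3 (m1N k R) := by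
  unfold m1N
  simp only [Bool.cond_eq_ite, Nat.beq_eq, if_neg hk]
  refine le_trans ?_ (r3_half _)
  rw [r3_mul]
  linarith [mul_le_mul_of_nonneg_right (le_mulU' le_rfl (powU_ge (gAB R) (k - 3))
    (rr_nonneg (gNeg R))) (sq_nonneg (rr (gK1 R)))]

/-- The weight of the largest deviation. -/
noncomputable def wfR (P : EP) : ℝ := bif P.uni then 1 else ((P.k : ℝ) - 1) / P.k

theorem r3_wkN (P : EP) (hk : 2 ≤ P.k) (w c : ℕ) :
    rr (gAB w) ^ (P.k - 2) * rr c ^ 2 * wfR P ≤ r3 (wkN P w c) := by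
  unfold wkN wfR
  have h1 := powU_ge (gAB w) (P.k - 2)
  cases P.uni
  · simp only [cond_false]
    rw [r3_mul, mul_right_comm]
    refine mul_le_mul_of_nonneg_right ?_ (sq_nonneg _)
    have h2 := rr_div_lt (k := P.k) (powU (gAB w) (P.k - 2) * (P.k - 1)) (by omega)
    rw [rr_muln, Nat.cast_sub (by omega), Nat.cast_one, mul_div_assoc] at h2
    have k2 : (2 : ℝ) ≤ P.k := by exact_mod_cast hk
    exact (mul_le_mul_of_nonneg_right h1 (div_nonneg (by linarith) (by linarith))).trans h2.le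
  · simp only [cond_true]
    rw [r3_mul, mul_one]
    exact mul_le_mul_of_nonneg_right h1 (sq_nonneg _)

theorem wfR_ok (H : HIn B P R Rn w ym tb q T y a) : (T.card : ℝ) - 1 ≤ wfR P * T.card := by
  unfold wfR
  cases hu : P.uni
  · have k2 : (2 : ℝ) ≤ P.k := by exact_mod_cast H.k2
    rw [cond_false, H.ex hu, div_mul_cancel₀ _ (by linarith)]
  · rw [cond_true]
    linarith

theorem wfR_nonneg (hk : 2 ≤ P.k) : 0 ≤ wfR P := by
  unfold wfR
  have k2 : (2 : ℝ) ≤ P.k := by exact_mod_cast hk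
  cases P.uni
  · exact div_nonneg (by linarith) (by linarith)
  · exact zero_le_one

/-- The extra factors in the uniform run. -/
theorem pw (H : HIn B P R Rn w ym tb q T y a) {x : ℕ} (hx : x ≤ max (gAB R) (gAB w)) {i : ℕ}
    (hi : i ≤ 3) : rr x ^ (T.card - i) ≤ rr x ^ (P.k - i) * 0.7 ^ (T.card - P.k) := by
  cases hu : P.uni
  · rw [H.ex hu, Nat.sub_self, pow_zero, mul_one]
  · obtain ⟨h1, h2, h3⟩ := H.un hu
    rw [show T.card - i = P.k - i + (T.card - P.k) by omega, pow_add]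
    exact mul_le_mul_of_nonneg_left (pow_le_pow_left₀ (rr_nonneg x)
      ((rr_le.2 (hx.trans h3)).trans R07_le) _) (pow_nonneg (rr_nonneg x) _)

theorem upper (h : BOK B Q E) (hq : q ∈ B.I) (H : HIn B P R Rn w ym tb q T y a) {up dn : ℕ}
    (D : Dom B.Z2 P R w ym (aN P.k (b0N P R Rn w tb) (k2N 4 R Rn))
      (aN P.k (b0N P R Rn w tb) (k2N 3 R Rn)) (cwN P.k R (b0N P R Rn w tb) (k1N R Rn))
      (wkN P w (k1N R Rn)) up dn) :
    ∏ j ∈ T, B.g 0 q (y j) - B.g 0 q (mean T y) ^ T.card ≤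
      r3 up * 0.7 ^ (T.card - P.k) * Var T y := by
  have G := mkHB h hq H (wfR_ok H)
  have hb : b0N P R Rn w tb ≤ max (gAB R) (gAB w) := (min_le_left _ _).trans (le_max_left _ _)
  have p1 := pw H hb (i := 1) (by omega)
  have p2 := pw H hb (i := 2) (by omega)
  have p3 := pw H (le_max_left _ _) (i := 3) le_rfl
  have p4 := pw H (le_max_right _ _) (i := 2) (by omega)
  have s0 : (0 : ℝ) ≤ 0.7 ^ (T.card - P.k) := by positivity
  generalize (0.7 : ℝ) ^ (T.card - P.k) = s at *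
  generalize b0N P R Rn w tb = b at *
  generalize k1N R Rn = c at *
  have A : ∀ x, rr b ^ (T.card - 1) / 2 * rr x ≤ r3 (aN P.k b x) * s := fun x => by
    linarith [mul_le_mul_of_nonneg_right p1 (rr_nonneg x),
      mul_le_mul_of_nonneg_right (r3_aN P.k b x) s0]
  have C : rr (ccN R b) * (rr b ^ (T.card - 2) * rr c ^ 2) ≤ r3 (cwN P.k R b c) * s := by
    linarith [mul_le_mul_of_nonneg_left (mul_le_mul_of_nonneg_right p2 (sq_nonneg (rr c)))
      (rr_nonneg (ccN R b)), mul_le_mul_of_nonneg_right (r3_cwN P.k R b c) s0]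
  have A4 := A (k2N 4 R Rn)
  have A3 := A (k2N 3 R Rn)
  have M : ∀ {x : ℕ}, x ≤ up → r3 x * s ≤ r3 up * s := fun hx =>
    mul_le_mul_of_nonneg_right (r3_mono hx) s0
  have hT : T.Nonempty := FHessX.ne G
  refine G.up (ng := rr (gNeg R)) (m1 := r3 (m1N P.k R) * s)
    (m2 := r3 (m2N P w (wkN P w c)) * s) (mul_nonneg (r3_nonneg _) s0) ?_ ?_ ?_ ?_ ?_ ?_
  · rw [lo_eq]
    linarith [rr_nonneg (gLop R)]
  · have u := D.u1
    unfold u1N at u
    simp only [Bool.cond_eq_ite, Bool.or_eq_true, Nat.ble_eq, Nat.beq_eq] at u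
    by_cases e1 : ym ≤ B.Z2
    · exact Or.inl fun hz => FL.jensen h hq hT fun j hj =>
        ⟨H.a0.trans (H.rng j hj).1, (H.rng j hj).2.trans (rr_le.2 e1), hz j hj⟩
    by_cases e2 : gHip R = 0
    · exact Or.inr (Or.inl (hi_nonpos e2))
    rw [if_neg (not_or.2 ⟨e1, e2⟩)] at u
    exact Or.inr (Or.inr (A4.trans (M u)))
  · have u := D.u2
    unfold u2N at u
    simp only [Bool.cond_eq_ite, Nat.beq_eq, ev_iff] at u
    by_cases e1 : gNeg R = 0
    · exact Or.inl (lo_nonneg e1)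
    rw [if_neg e1] at u
    have u3 : Even T.card → aN P.k b (k2N 3 R Rn) ≤ up := fun e => by
      cases hu : P.uni
      · rwa [hu, if_neg Bool.false_ne_true, if_pos (H.ex hu ▸ e)] at u
      · rw [if_pos hu] at u
        exact (le_max_left _ _).trans u
    have u4 : ¬Even T.card → aN P.k b (k2N 4 R Rn) + cwN P.k R b c ≤ up := fun e => by
      cases hu : P.uni
      · rwa [hu, if_neg Bool.false_ne_true, if_neg (H.ex hu ▸ e)] at u
      · rw [if_pos hu] at u
        exact (le_max_right _ _).trans u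
    by_cases e : Even T.card
    · exact Or.inr (Or.inl ⟨e, A3.trans (M (u3 e))⟩)
    · have := M (u4 e)
      rw [r3_add, add_mul] at this
      exact Or.inr (Or.inr ⟨Nat.not_even_iff_odd.1 e, by linarith⟩)
  · by_cases e : P.k = 2
    · refine Or.inl ⟨?_, mul_nonneg (r3_nonneg _) s0⟩
      cases hu : P.uni
      · exact (H.ex hu).trans e
      · have := (H.un hu).1
        omega
    · right
      linarith [mul_le_mul_of_nonneg_right (r3_m1N R e) s0, mul_le_mul_of_nonneg_left p3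
        (mul_nonneg (div_nonneg (sq_nonneg (rr (gK1 R))) zero_le_two) (rr_nonneg (gNeg R)))]
  · by_cases e : gNeg w = 0 ∨ (Even P.k ∧ P.uni = false)
    · refine Or.inl ⟨?_, mul_nonneg (r3_nonneg _) s0⟩
      rcases e with e | e
      · exact Or.inr (lo_nonneg e)
      · exact Or.inl (H.ex e.2 ▸ e.1)
    · right
      have e' : m2N P w (wkN P w c) = wkN P w c := by
        unfold m2N
        simp only [Bool.cond_eq_ite, Bool.or_eq_true, Bool.and_eq_true, Nat.beq_eq, ev_iff,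
          Bool.not_eq_true']
        exact if_neg e
      rw [e']
      linarith [mul_le_mul_of_nonneg_right (r3_wkN P H.k2 w c) s0,
        mul_le_mul_of_nonneg_right p4 (mul_nonneg (sq_nonneg (rr c)) (wfR_nonneg H.k2))]
  · rcases D.u3 with u | u | u
    · exact Or.inl (lo_pos u ▸ rr_pos u)
    · exact Or.inr (Or.inl (hi_neg u ▸ neg_lt_zero.2 (rr_pos u)))
    · have := M u
      rw [r3_add, add_mul] at this
      exact Or.inr (Or.inr this)

theorem lower (h : BOK B Q E) (hq : q ∈ B.I) (H : HIn B P R Rn w ym tb q T y a) {up dn : ℕ}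
    (D : Dom B.Z2 P R w ym (aN P.k (b0N P R Rn w tb) (k2N 4 R Rn))
      (aN P.k (b0N P R Rn w tb) (k2N 3 R Rn)) (cwN P.k R (b0N P R Rn w tb) (k1N R Rn))
      (wkN P w (k1N R Rn)) up dn) (hu : P.uni = false) :
    B.g 0 q (mean T y) ^ T.card - ∏ j ∈ T, B.g 0 q (y j) ≤ r3 dn * Var T y := by
  have G := mkHB h hq H (wfR_ok H)
  have hk := (H.ex hu).symm
  generalize b0N P R Rn w tb = b at *
  generalize k1N R Rn = c at *
  have A4 := r3_aN P.k b (k2N 4 R Rn)
  have A3 := r3_aN P.k b (k2N 3 R Rn)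
  have C := r3_cwN P.k R b c
  refine G.dn (m2 := r3 (m4N P.k w (wkN P w c))) (r3_nonneg _) ?_ ?_ ?_ ?_ <;> rw [← hk]
  · have u := D.d1
    unfold d1N at u
    simp only [Bool.cond_eq_ite, Nat.beq_eq] at u
    by_cases e : gHip R = 0
    · exact Or.inl (hi_nonpos e)
    rw [if_neg e] at u
    have := r3_mono u
    rw [r3_add] at this
    exact Or.inr (by linarith)
  · have u := D.d2
    unfold d2N at u
    simp only [Bool.cond_eq_ite, Nat.beq_eq, ev_iff] at u
    by_cases e1 : gNeg R = 0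
    · exact Or.inl (lo_nonneg e1)
    rw [if_neg e1] at u
    by_cases e : Even P.k
    · rw [if_pos e] at u
      have := r3_mono u
      rw [r3_add] at this
      exact Or.inr (Or.inr ⟨e, by linarith⟩)
    · rw [if_neg e] at u
      exact Or.inr (Or.inl ⟨Nat.not_even_iff_odd.1 e, A3.trans (r3_mono u)⟩)
  · by_cases e : ¬Even P.k ∧ gHip w = 0
    · exact Or.inl ⟨Nat.not_even_iff_odd.1 e.1, hi_nonpos e.2, r3_nonneg _⟩
    · right
      have e' : m4N P.k w (wkN P w c) = wkN P w c := by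
        unfold m4N
        simp only [Bool.cond_eq_ite, Bool.and_eq_true, Nat.beq_eq, Bool.not_eq_true',
          ← Bool.not_eq_true, ev_iff]
        exact if_neg e
      rw [e']
      exact r3_wkN P H.k2 w c
  · rcases D.d3 with u | u | u
    · exact Or.inl (lo_pos u ▸ rr_pos u)
    · exact Or.inr (Or.inl (hi_neg u ▸ neg_lt_zero.2 (rr_pos u)))
    · have := r3_mono u
      rw [r3_add] at this
      exact Or.inr (Or.inr (by linarith [r3_m3N P.k R]))

end YHessX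

theorem hess_spec {α : Type} (h : BOK B Q E) (P : EP) (R Rn w ym tb : ℕ) (kk : ℕ → ℕ → α) :
    ∃ up dn, hess B P R Rn w ym tb kk = kk up dn ∧ ∀ q ∈ B.I, ∀ (ι : Type) (T : Finset ι)
      (y : ι → ℝ) (a : ℝ), HIn B P R Rn w ym tb q T y a →
      ∏ j ∈ T, B.g 0 q (y j) - B.g 0 q (mean T y) ^ T.card ≤
        (up : ℝ) / 2 ^ 120 * 0.7 ^ (T.card - P.k) * Var T y ∧
      (P.uni = false → B.g 0 q (mean T y) ^ T.card - ∏ j ∈ T, B.g 0 q (y j) ≤
        (dn : ℝ) / 2 ^ 120 * Var T y) := by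
  obtain ⟨up, dn, e, D⟩ := YHessX.hess_eq B P R Rn w ym tb kk
  exact ⟨up, dn, e, fun q hq ι T y a H => ⟨YHessX.upper h hq H D, YHessX.lower h hq H D⟩⟩

end Pool.Agent.MP_39fec4_gt.K
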