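import Pool.Agent.MP_39fec4_gt.YEnv
import Pool.Agent.MP_39fec4_gt.YHess
import Pool.Agent.MP_39fec4_gt.YGain

set_option autoImplicit false

namespace Pool.Agent.MP_39fec4_gt.K

open Set MeasureTheory Full

variable {B : Blk} {Q : ℕ → ℕ → ℕ} {E : ℕ → ℕ} {q : ℝ} {ι : Type} {T : Finset ι}

namespace YCellEX

def yl (P : EP) (sa : ℕ) : ℕ := mulD P.xa0 (tS sa)

def yu (P : EP) (sb : ℕ) : ℕ := mulU P.xb1 (tS sb)

def tl (P : EP) (sa : ℕ) : ℕ := mulD P.ra (tS sa)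

def th (P : EP) (sb : ℕ) : ℕ := mulU P.rb (tS sb)

def wa (P : EP) (sa : ℕ) : ℕ := max (yl P sa) (tl P sa / P.k)

def wb (P : EP) (sb : ℕ) : ℕ := min (yu P sb) (th P sb / P.k + 1)

def RR (Q : ℕ → ℕ → ℕ) (P : EP) (sa sb : ℕ) : ℕ := rq Q (yl P sa) (yu P sb)

def Rn (B : Blk) (Q : ℕ → ℕ → ℕ) (P : EP) (sa sb : ℕ) : ℕ :=
  rq Q (bif P.uni then (bif Nat.ble (yu P sb) B.z2 then 0 else (yl P sa + wa P sa) / 2)
    else (yl P sa + wa P sa) / 2) (min (yu P sb) ((yu P sb + wb P sb) / 2 + 1))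

def ww (B : Blk) (Q : ℕ → ℕ → ℕ) (Va Vb : ℕ → ℕ) (P : EP) (sa sb : ℕ) : ℕ :=
  bif P.fin then fineN B Va Vb (rq Q (wa P sa) (wb P sb + 1)) (wa P sa) (wb P sb)
  else rq Q (wa P sa) (wb P sb)

def c1 (Q : ℕ → ℕ → ℕ) (P : EP) (sa sb : ℕ) : ℕ :=
  bif P.ho then rq Q (mulD P.x1l (tS sa)) (mulU P.x1h (tS sb)) else 0

def c2 (Q : ℕ → ℕ → ℕ) (P : EP) (sa sb : ℕ) : ℕ :=
  bif P.ho then rq Q (mulD P.x2l (tS sa)) (mulU P.x2h (tS sb)) else 0

def oh (Q : ℕ → ℕ → ℕ) (P : EP) (sa sb : ℕ) : ℕ :=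
  bif P.ho then oHi (c1 Q P sa sb) (c2 Q P sa sb) else SS

def ol (Q : ℕ → ℕ → ℕ) (P : EP) (sa sb : ℕ) : ℕ :=
  bif P.ho then oNeg (c1 Q P sa sb) (c2 Q P sa sb) else 0

def olp (Q : ℕ → ℕ → ℕ) (P : EP) (sa sb : ℕ) : ℕ :=
  bif P.ho then oLop (c1 Q P sa sb) (c2 Q P sa sb) else SS

/-- The pointwise crude bound. -/
def cr (B : Blk) (Q : ℕ → ℕ → ℕ) (E : ℕ → ℕ) (P : EP) (sa sb w : ℕ) : ℕ :=
  max (mulU (oh Q P sa sb) (crUp B Q P (RR Q P sa sb) (envb E (yu P sb)) (tS sa) (tS sb) (yl P sa)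
      (yu P sb) (tl P sa) (th P sb) + pNeg w P.k - pLop w P.k))
    (bif Nat.beq (ol Q P sa sb) 0 then 0 else mulU (ol Q P sa sb) (pHi w P.k +
      min (envDn B (envb E (yu P sb)) (yu P sb) (tl P sa) (gNeg (RR Q P sa sb)))
        (mulU (gNeg (RR Q P sa sb)) (powU (gAB (RR Q P sa sb)) (P.k - 1))) - pHin w P.k))

def cc (B : Blk) (Q : ℕ → ℕ → ℕ) (E : ℕ → ℕ) (P : EP) (sa sb w : ℕ) : ℕ :=
  bif P.uni then
    (bif Nat.ble (2 * yu P sb) (tl P sa) &&
        Nat.ble (5 * SS) (2 * P.k * mulD (envb E (yu P sb)) (wa P sa)) && Nat.ble (gNeg w) R07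
      then mulU (envUp B Q (envb E (yu P sb)) (yu P sb) (tl P sa) BIG (gNeg (RR Q P sa sb)) +
        powU (gNeg w) P.k) (dS sa sb) else BIG)
  else mulU (cr B Q E P sa sb w) (dS sa sb)

/-- The pointwise second order bound, with 160 fractional bits. -/
def hm (B : Blk) (Q : ℕ → ℕ → ℕ) (P : EP) (sa sb w up dn : ℕ) : ℕ :=
  max (oh Q P sa sb * (bif Nat.beq P.k 3 && P.fin then
    min up (hess3 P (RR Q P sa sb) (Rn B Q P sa sb) w (tS sb)) else up)) (ol Q P sa sb * dn)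

def hh (B : Blk) (Q : ℕ → ℕ → ℕ) (P : EP) (sa sb w up dn : ℕ) : ℕ :=
  bif P.uni && !(Nat.ble (max (gAB (RR Q P sa sb)) (gAB w)) R07) then BIG
  else (hm B Q P sa sb w up dn * (t4L sa sb + 1)) >>> 160 + 1

def gc (B : Blk) (Q : ℕ → ℕ → ℕ) (P : EP) (sa sb : ℕ) : ℕ :=
  gainC (bif P.uni then rq Q 0 (yu P sb) else RR Q P sa sb) (Rn B Q P sa sb)

def inc (B : Blk) (Q : ℕ → ℕ → ℕ) (P : EP) (sa sb w : ℕ) : ℕ :=
  divD (mulD (mulD (mulD (olp Q P sa sb) (powD (gLop w) P.k)) (gc B Q P sa sb)) (t4L sa sb))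
    (2 * SS + mulU (gc B Q P sa sb) (mulU (mulU (tS sb) (tS sb)) P.Vh))

theorem cellE_eq {α : Type} (B : Blk) (Q : ℕ → ℕ → ℕ) (E Va Vb : ℕ → ℕ) (P : EP)
    (sa sb sc sh sg : ℕ) (kk : ℕ → ℕ → ℕ → α) :
    cellE B Q E Va Vb P sa sb sc sh sg kk =
      Bool.casesOn (motive := fun _ => α) (Nat.ble (yu P sb) B.z2 && Nat.beq (ol Q P sa sb) 0)
        (hess B P (RR Q P sa sb) (Rn B Q P sa sb) (ww B Q Va Vb P sa sb) (yu P sb) (tS sb)
          fun up dn => Bool.casesOn (motive := fun _ => α)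
            (Nat.ble (cc B Q E P sa sb (ww B Q Va Vb P sa sb))
              (mulD P.Vs (hh B Q P sa sb (ww B Q Va Vb P sa sb) up dn)))
            (kk sc (sh + hh B Q P sa sb (ww B Q Va Vb P sa sb) up dn) sg)
            (kk (sc + cc B Q E P sa sb (ww B Q Va Vb P sa sb)) sh sg))
        (kk sc sh (sg + inc B Q P sa sb (ww B Q Va Vb P sa sb))) := by
  unfold cellE
  simp only [forceN_eq]
  rfl

section point

variable {P : EP} {x : ι → ℝ} {x1 x2 t : ℝ} {sa sb : ℕ}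

theorem y_rng (hP : InE P T x x1 x2) (h1 : rr (tS sa) ≤ t) (h2 : t ≤ rr (tS sb)) :
    ∀ j ∈ T, rr (yl P sa) ≤ x j * t ∧ x j * t ≤ rr (yu P sb) := fun j hj =>
  ⟨mulD_le_of (hP.rng j hj).1 h1, le_mulU (hP.rng j hj).2 h2 ((rr_nonneg _).trans h1)⟩

theorem y_rng0 (hP : InE P T x x1 x2) (h1 : rr (tS sa) ≤ t) (h2 : t ≤ rr (tS sb)) :
    ∀ j ∈ T, 0 ≤ x j * t ∧ x j * t ≤ rr (yu P sb) := fun j hj =>
  ⟨(rr_nonneg _).trans (y_rng hP h1 h2 j hj).1, (y_rng hP h1 h2 j hj).2⟩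

theorem sum_rng (hP : InE P T x x1 x2) (h1 : rr (tS sa) ≤ t) (h2 : t ≤ rr (tS sb)) :
    rr (tl P sa) ≤ ∑ j ∈ T, x j * t ∧ ∑ j ∈ T, x j * t ≤ rr (th P sb) := by
  rw [← Finset.sum_mul]
  exact ⟨mulD_le_of hP.sum.1 h1, le_mulU hP.sum.2 h2 ((rr_nonneg _).trans h1)⟩

theorem mean_rng (hP : InE P T x x1 x2) (h1 : rr (tS sa) ≤ t) (h2 : t ≤ rr (tS sb)) :
    rr (wa P sa) ≤ mean T (fun j => x j * t) ∧ mean T (fun j => x j * t) ≤ rr (wb P sb) := by
  have hk : 0 < P.k := lt_of_lt_of_le (by norm_num) hP.k2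
  have hk' : (0 : ℝ) < P.k := by exact_mod_cast hk
  have hy := y_rng hP h1 h2
  have hs := sum_rng hP h1 h2
  have a1 : T.card • rr (yl P sa) ≤ ∑ j ∈ T, x j * t :=
    Finset.card_nsmul_le_sum T _ _ fun j hj => (hy j hj).1
  have a2 : ∑ j ∈ T, x j * t ≤ T.card • rr (yu P sb) :=
    Finset.sum_le_card_nsmul T _ _ fun j hj => (hy j hj).2
  rw [nsmul_eq_mul, hP.card] at a1 a2
  unfold mean wa wb
  rw [hP.card, rr_max, rr_min]
  refine ⟨max_le ?_ ?_, le_min ?_ ?_⟩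
  · rw [le_div_iff₀ hk']; linarith
  · exact (rr_div_le _ _).trans (div_le_div_of_nonneg_right hs.1 hk'.le)
  · rw [div_le_iff₀ hk']; linarith
  · exact (div_le_div_of_nonneg_right hs.2 hk'.le).trans (rr_div_lt _ hk).le

theorem wa_ge (P : EP) (sa : ℕ) : rr (yl P sa) ≤ rr (wa P sa) := rr_le.2 (le_max_left _ _)

theorem wb_le (P : EP) (sb : ℕ) : rr (wb P sb) ≤ rr (yu P sb) := rr_le.2 (min_le_left _ _)

theorem w_in (h : BOK B Q E) (hq : q ∈ B.I) {Va Vb : ℕ → ℕ}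
    (hf : P.fin = true → EndOK B Va Vb B.Yp) {m : ℝ} (h1 : rr (wa P sa) ≤ m)
    (h2 : m ≤ rr (wb P sb)) : InR (ww B Q Va Vb P sa sb) (B.g 0 q m) := by
  have h0 : 0 ≤ m := (rr_nonneg _).trans h1
  unfold ww
  cases hb : P.fin
  · rw [cond_false]
    exact ((h.qok.rq _ _).pt q hq m h0 h1 h2).inR
  · rw [cond_true, fineN_eq]
    exact ((fine_sound h.sc (h.yp.trans h.yc) (hf hb) (h.qok.rq _ _)).pt q hq m h0 h1 h2).inR

theorem R_pt (h : BOK B Q E) (hq : q ∈ B.I) (P : EP) (sa sb : ℕ) :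
    ∀ v, rr (yl P sa) ≤ v → v ≤ rr (yu P sb) → PtOK B (RR Q P sa sb) q v := fun v h1 h2 =>
  (h.qok.rq _ _).pt q hq v ((rr_nonneg _).trans h1) h1 h2

theorem Rn_pt (h : BOK B Q E) (hq : q ∈ B.I) (hu : P.uni = false) {m : ℝ} (h1 : rr (wa P sa) ≤ m)
    (h2 : m ≤ rr (wb P sb)) : ∀ v, (rr (yl P sa) + m) / 2 ≤ v → v ≤ (rr (yu P sb) + m) / 2 →
      PtOK B (Rn B Q P sa sb) q v := by
  intro v a1 a2
  have b1 := rr_div_le (yl P sa + wa P sa) 2
  have b2 := rr_div_lt (k := 2) (yu P sb + wb P sb) (by norm_num)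
  rw [rr_add] at b1 b2
  push_cast at b1 b2
  have b3 := wb_le P sb
  have b4 : rr ((yl P sa + wa P sa) / 2) ≤ v := by linarith
  unfold Rn
  rw [hu, cond_false]
  refine (h.qok.rq _ _).pt q hq v ((rr_nonneg _).trans b4) b4 ?_
  rw [rr_min]
  exact le_min (by linarith) (by linarith)

/-- The outer factor. -/
noncomputable def OF (B : Blk) (q : ℝ) (P : EP) (x1 x2 t : ℝ) : ℝ :=
  bif P.ho then B.g 0 q (x1 * t) * B.g 0 q (x2 * t) else 1

theorem O_rng (h : BOK B Q E) (hq : q ∈ B.I) (hP : InE P T x x1 x2) (h1 : rr (tS sa) ≤ t)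
    (h2 : t ≤ rr (tS sb)) : -rr (ol Q P sa sb) ≤ OF B q P x1 x2 t ∧
      OF B q P x1 x2 t ≤ rr (oh Q P sa sb) ∧
      (ol Q P sa sb = 0 → rr (olp Q P sa sb) ≤ OF B q P x1 x2 t) := by
  have t0 : 0 ≤ t := (rr_nonneg _).trans h1
  cases hb : P.ho
  · have e1 : ol Q P sa sb = 0 := by unfold ol; rw [hb, cond_false]
    have e2 : oh Q P sa sb = SS := by unfold oh; rw [hb, cond_false]
    have e3 : olp Q P sa sb = SS := by unfold olp; rw [hb, cond_false]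
    have e4 : OF B q P x1 x2 t = 1 := by unfold OF; rw [hb, cond_false]
    rw [e1, e2, e3, e4, rr_SS, rr_zero]
    exact ⟨by norm_num, le_rfl, fun _ => le_rfl⟩
  · have e1 : ol Q P sa sb = oNeg (c1 Q P sa sb) (c2 Q P sa sb) := by unfold ol; rw [hb, cond_true]
    have e2 : oh Q P sa sb = oHi (c1 Q P sa sb) (c2 Q P sa sb) := by unfold oh; rw [hb, cond_true]
    have e3 : olp Q P sa sb = oLop (c1 Q P sa sb) (c2 Q P sa sb) := by
      unfold olp; rw [hb, cond_true]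
    have e4 : OF B q P x1 x2 t = B.g 0 q (x1 * t) * B.g 0 q (x2 * t) := by
      unfold OF; rw [hb, cond_true]
    have e5 : c1 Q P sa sb = rq Q (mulD P.x1l (tS sa)) (mulU P.x1h (tS sb)) := by
      unfold c1; rw [hb, cond_true]
    have e6 : c2 Q P sa sb = rq Q (mulD P.x2l (tS sa)) (mulU P.x2h (tS sb)) := by
      unfold c2; rw [hb, cond_true]
    obtain ⟨-, a1, a2, a3, a4⟩ := hP.out hb
    have b1 := mulD_le_of a1 h1
    have b3 := mulD_le_of a3 h1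
    have i1 := ((h.qok.rq _ _).pt q hq _ ((rr_nonneg _).trans b1) b1 (le_mulU a2 h2 t0)).inR
    have i2 := ((h.qok.rq _ _).pt q hq _ ((rr_nonneg _).trans b3) b3 (le_mulU a4 h2 t0)).inR
    rw [← e5] at i1
    rw [← e6] at i2
    rw [e1, e2, e3, e4]
    exact ⟨oNeg_le i1 i2, oHi_ge i1 i2, fun h0 => oLop_le i1 i2 (Or.inr h0)⟩

theorem var_bd (hP : InE P T x x1 x2) (h1 : rr (tS sa) ≤ t) (h2 : t ≤ rr (tS sb)) :
    Var T (fun j => x j * t) ≤ rr (tS sb) ^ 2 * rr P.Vh := by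
  rw [var_smul]
  exact mul_le_mul (pow_le_pow_left₀ ((rr_nonneg _).trans h1) h2 2) hP.var (Full.var_nonneg T x)
    (sq_nonneg _)

theorem hin (h : BOK B Q E) (hq : q ∈ B.I) {Va Vb : ℕ → ℕ}
    (hf : P.fin = true → EndOK B Va Vb B.Yp) (hP : InE P T x x1 x2) (h1 : rr (tS sa) ≤ t)
    (h2 : t ≤ rr (tS sb)) : HIn B P (RR Q P sa sb) (Rn B Q P sa sb) (ww B Q Va Vb P sa sb)
      (yu P sb) (tS sb) q T (fun j => x j * t) (rr (yl P sa)) where
  k2 := hP.k2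
  ex := fun _ => hP.card
  un := fun hu => absurd (hP.uni.symm.trans hu) (by decide)
  a0 := rr_nonneg _
  rng := y_rng hP h1 h2
  hR := R_pt h hq P sa sb
  hRn := Rn_pt h hq hP.uni (mean_rng hP h1 h2).1 (mean_rng hP h1 h2).2
  hw := w_in h hq hf (mean_rng hP h1 h2).1 (mean_rng hP h1 h2).2
  var := by
    rw [hP.card]
    exact mul_le_mul_of_nonneg_right (var_bd hP h1 h2) (Nat.cast_nonneg _)

theorem ne_T (hP : InE P T x x1 x2) : T.Nonempty := by
  obtain ⟨i, hi, -⟩ := hP.two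
  exact ⟨i, hi⟩

/-- The crude bound at one point. -/
theorem crude_pt (h : BOK B Q E) (hq : q ∈ B.I) (hP : InE P T x x1 x2) (h1 : rr (tS sa) ≤ t)
    (h2 : t ≤ rr (tS sb)) {w : ℕ} (hw : InR w (B.g 0 q (mean T fun j => x j * t))) :
    OF B q P x1 x2 t * (∏ j ∈ T, B.g 0 q (x j * t) -
      B.g 0 q (mean T fun j => x j * t) ^ T.card) ≤ rr (cr B Q E P sa sb w) := by
  obtain ⟨o1, o2, -⟩ := O_rng h hq hP h1 h2
  unfold cr
  rw [rr_max]
  rcases le_or_gt 0 (OF B q P x1 x2 t) with h0 | h0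
  · refine le_max_of_le_left ?_
    rcases crUp_spec h hq hP h1 h2 with hc | hc
    · refine le_mulU' o2 ?_ h0
      refine le_trans ?_ (rr_sub_ge _ _)
      have := pLop_le hw P.k
      rw [rr_add, hP.card]
      unfold RR yl yu tl th
      linarith
    · have := FL.jensen h hq (ne_T hP) hc
      exact (mul_nonpos_of_nonneg_of_nonpos h0 (by linarith)).trans (rr_nonneg _)
  · refine le_max_of_le_right ?_
    have hne : Nat.beq (ol Q P sa sb) 0 = false := by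
      cases hb : Nat.beq (ol Q P sa sb) 0
      · rfl
      · rw [Nat.eq_of_beq_eq_true hb, rr_zero] at o1
        linarith
    rw [hne, cond_false, ← neg_mul_neg]
    refine le_mulU' (by linarith) ?_ (by linarith)
    refine le_trans ?_ (rr_sub_ge _ _)
    have hy := y_rng hP h1 h2
    have hR : ∀ j ∈ T, InR (RR Q P sa sb) (B.g 0 q (x j * t)) := fun j hj =>
      (R_pt h hq P sa sb _ (hy j hj).1 (hy j hj).2).inR
    have a1 := pHi_ge hw P.k
    have a2 := envDn_spec h hq (h.envOK hq (yu P sb)) (y_rng0 hP h1 h2) (sum_rng hP h1 h2).1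
      fun j hj => (hR j hj).neg
    have a3 := negPow_spec h hq (fun j hj => (y_rng0 hP h1 h2 j hj).1) hR
    rw [hP.card] at a3
    rw [rr_add, rr_min, hP.card]
    have a4 : -∏ j ∈ T, B.g 0 q (x j * t) ≤ min
        (rr (envDn B (envb E (yu P sb)) (yu P sb) (tl P sa) (gNeg (RR Q P sa sb))))
        (rr (mulU (gNeg (RR Q P sa sb)) (powU (gAB (RR Q P sa sb)) (P.k - 1)))) :=
      le_min (by linarith) (by linarith)
    linarith

theorem comb {O D V : ℝ} {a b u d : ℕ} (o1 : -rr b ≤ O) (o2 : O ≤ rr a) (hV : 0 ≤ V)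
    (hu : D ≤ (u : ℝ) / 2 ^ 120 * V) (hd : -D ≤ (d : ℝ) / 2 ^ 120 * V) :
    O * D ≤ ((max (a * u) (b * d) : ℕ) : ℝ) / 2 ^ 160 * V := by
  have m1 : ((a * u : ℕ) : ℝ) ≤ ((max (a * u) (b * d) : ℕ) : ℝ) := by
    exact_mod_cast le_max_left _ _
  have m2 : ((b * d : ℕ) : ℝ) ≤ ((max (a * u) (b * d) : ℕ) : ℝ) := by
    exact_mod_cast le_max_right _ _
  generalize ((max (a * u) (b * d) : ℕ) : ℝ) = M at m1 m2 ⊢
  rcases le_total 0 O with h0 | h0
  · calc O * D ≤ O * ((u : ℝ) / 2 ^ 120 * V) := mul_le_mul_of_nonneg_left hu h0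
      _ ≤ rr a * ((u : ℝ) / 2 ^ 120 * V) := mul_le_mul_of_nonneg_right o2 (by positivity)
      _ = ((a * u : ℕ) : ℝ) / 2 ^ 160 * V := by unfold rr; push_cast; ring
      _ ≤ M / 2 ^ 160 * V := by gcongr
  · calc O * D = -O * -D := by ring
      _ ≤ -O * ((d : ℝ) / 2 ^ 120 * V) := mul_le_mul_of_nonneg_left hd (by linarith)
      _ ≤ rr b * ((d : ℝ) / 2 ^ 120 * V) :=
        mul_le_mul_of_nonneg_right (by linarith) (by positivity)
      _ = ((b * d : ℕ) : ℝ) / 2 ^ 160 * V := by unfold rr; push_cast; ring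
      _ ≤ M / 2 ^ 160 * V := by gcongr

/-- The second order bound at one point. -/
theorem hess_pt (h : BOK B Q E) (hq : q ∈ B.I) (hP : InE P T x x1 x2) (h1 : rr (tS sa) ≤ t)
    (h2 : t ≤ rr (tS sb)) {w up dn : ℕ} {y : ι → ℝ}
    (hH : HIn B P (RR Q P sa sb) (Rn B Q P sa sb) w (yu P sb) (tS sb) q T y (rr (yl P sa)))
    (hu : ∏ j ∈ T, B.g 0 q (y j) - B.g 0 q (mean T y) ^ T.card ≤
      (up : ℝ) / 2 ^ 120 * 0.7 ^ (T.card - P.k) * Var T y)
    (hd : B.g 0 q (mean T y) ^ T.card - ∏ j ∈ T, B.g 0 q (y j) ≤ (dn : ℝ) / 2 ^ 120 * Var T y) :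
    OF B q P x1 x2 t * (∏ j ∈ T, B.g 0 q (y j) - B.g 0 q (mean T y) ^ T.card) ≤
      (hm B Q P sa sb w up dn : ℝ) / 2 ^ 160 * Var T y := by
  obtain ⟨o1, o2, -⟩ := O_rng h hq hP h1 h2
  have e : T.card - P.k = 0 := by rw [hP.card, Nat.sub_self]
  rw [e, pow_zero, mul_one] at hu
  unfold hm
  refine comb o1 o2 (Full.var_nonneg T y) ?_ (by linarith)
  cases hb : (Nat.beq P.k 3 && P.fin)
  · rw [cond_false]; exact hu
  · rw [cond_true]
    rw [Bool.and_eq_true] at hb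
    have h3 := hess3_spec h hq hH hP.uni (Nat.eq_of_beq_eq_true hb.1) (hP.sV hb.2)
    rcases le_total up (hess3 P (RR Q P sa sb) (Rn B Q P sa sb) w (tS sb)) with hl | hl
    · rw [min_eq_left hl]; exact hu
    · rw [min_eq_right hl]; exact h3

/-- The gain at one point. -/
theorem gain_pt (h : BOK B Q E) (hq : q ∈ B.I) (hP : InE P T x x1 x2) (h1 : rr (tS sa) ≤ t)
    (h2 : t ≤ rr (tS sb)) {w : ℕ} (hw : InR w (B.g 0 q (mean T fun j => x j * t)))
    (hz : yu P sb ≤ B.z2) (ho : ol Q P sa sb = 0) :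
    OF B q P x1 x2 t * (∏ j ∈ T, B.g 0 q (x j * t) -
      B.g 0 q (mean T fun j => x j * t) ^ T.card) ≤
      -(rr (olp Q P sa sb) * rr (powD (gLop w) P.k) * rr (gc B Q P sa sb) /
        (2 + rr (gc B Q P sa sb) * (rr (tS sb) ^ 2 * rr P.Vh)) * Var T fun j => x j * t) := by
  obtain ⟨-, -, o3⟩ := O_rng h hq hP h1 h2
  have o4 := o3 ho
  obtain ⟨m1, m2⟩ := mean_rng hP h1 h2
  have hz' : rr (yu P sb) ≤ rr B.z2 := rr_le.2 hz
  have hl : rr (gLop w) ≤ B.g 0 q (mean T fun j => x j * t) := by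
    rcases Nat.eq_zero_or_pos (gLop w) with h0 | h0
    · rw [h0, rr_zero]
      exact ((h.hd q hq).pos _ ((rr_nonneg _).trans m1) (m2.trans ((wb_le P sb).trans hz'))).le
    · exact hw.lop (Or.inl h0)
  have hl2 : rr (powD (gLop w) P.k) ≤ B.g 0 q (mean T fun j => x j * t) ^ T.card := by
    rw [hP.card]; exact powD_le_of hl _
  have hg := gain_spec h hq (ne_T hP) (rr_nonneg _) hz' (y_rng hP h1 h2) (R_pt h hq P sa sb)
    (Rn_pt h hq hP.uni m1 m2) (rr_nonneg _) hl2 (var_bd hP h1 h2)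
  have e : gc B Q P sa sb = gainC (RR Q P sa sb) (Rn B Q P sa sb) := by
    unfold gc; rw [hP.uni, cond_false]
  rw [e]
  have hV := Full.var_nonneg T fun j => x j * t
  have n1 := rr_nonneg (olp Q P sa sb)
  have n2 := rr_nonneg (powD (gLop w) P.k)
  have n3 := rr_nonneg (gainC (RR Q P sa sb) (Rn B Q P sa sb))
  have n4 := rr_nonneg P.Vh
  generalize rr (gainC (RR Q P sa sb) (Rn B Q P sa sb)) = c at hg n3 ⊢
  generalize rr (powD (gLop w) P.k) = lw at hg n2 ⊢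
  generalize (Var T fun j => x j * t) = V at hg hV ⊢
  generalize (∏ j ∈ T, B.g 0 q (x j * t) - B.g 0 q (mean T fun j => x j * t) ^ T.card) = D
    at hg ⊢
  have n5 : 0 ≤ lw * c / (2 + c * (rr (tS sb) ^ 2 * rr P.Vh)) * V :=
    mul_nonneg (div_nonneg (mul_nonneg n2 n3)
      (add_nonneg zero_le_two (mul_nonneg n3 (mul_nonneg (sq_nonneg _) n4)))) hV
  calc OF B q P x1 x2 t * D
      ≤ OF B q P x1 x2 t * -(lw * c / (2 + c * (rr (tS sb) ^ 2 * rr P.Vh)) * V) :=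
        mul_le_mul_of_nonneg_left hg (n1.trans o4)
    _ ≤ rr (olp Q P sa sb) * -(lw * c / (2 + c * (rr (tS sb) ^ 2 * rr P.Vh)) * V) :=
        mul_le_mul_of_nonpos_right o4 (by linarith)
    _ = _ := by ring

theorem FE_eq (B : Blk) (q : ℝ) (P : EP) (x1 x2 : ℝ) (T : Finset ι) (x : ι → ℝ) (u : ℝ) :
    FE (B.g 0 q) P.ho x1 x2 T x u = OF B q P x1 x2 (u ^ 2) *
      (∏ j ∈ T, B.g 0 q (x j * u ^ 2) - B.g 0 q (mean T fun j => x j * u ^ 2) ^ T.card) := by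
  rw [mean_mul]; rfl

theorem inc_aux (o l c t b V : ℕ) :
    rr (divD (mulD (mulD (mulD o l) c) t) (2 * SS + mulU c (mulU (mulU b b) V))) ≤
      rr o * rr l * rr c / (2 + rr c * (rr b ^ 2 * rr V)) * rr t := by
  have n3 := rr_nonneg c
  have n4 := rr_nonneg V
  have a1 : rr (mulD (mulD o l) c) ≤ rr o * rr l * rr c := mulD_le_of (mulD_le o l) le_rfl
  have a2 : rr (mulD (mulD (mulD o l) c) t) ≤ rr o * rr l * rr c * rr t := mulD_le_of a1 le_rfl
  have a3 : rr b ^ 2 ≤ rr (mulU b b) := by rw [sq]; exact mulU_ge b b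
  have a4 : rr b ^ 2 * rr V ≤ rr (mulU (mulU b b) V) := le_mulU a3 le_rfl n4
  have a5 : rr c * (rr b ^ 2 * rr V) ≤ rr (mulU c (mulU (mulU b b) V)) := le_mulU' le_rfl a4 n3
  have a6 : 2 + rr c * (rr b ^ 2 * rr V) ≤ rr (2 * SS + mulU c (mulU (mulU b b) V)) := by
    rw [rr_add, rr_nmul, rr_SS, mul_one, Nat.cast_ofNat]
    exact add_le_add le_rfl a5
  have a7 : 0 < 2 + rr c * (rr b ^ 2 * rr V) :=
    add_pos_of_pos_of_nonneg two_pos (mul_nonneg n3 (mul_nonneg (sq_nonneg _) n4))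
  rw [div_mul_eq_mul_div]
  exact divD_le_of a2 a7 a6

theorem inc_le (B : Blk) (Q : ℕ → ℕ → ℕ) (P : EP) (sa sb w : ℕ) : rr (inc B Q P sa sb w) ≤
    rr (olp Q P sa sb) * rr (powD (gLop w) P.k) * rr (gc B Q P sa sb) /
      (2 + rr (gc B Q P sa sb) * (rr (tS sb) ^ 2 * rr P.Vh)) * rr (t4L sa sb) := by
  unfold inc
  exact inc_aux _ _ _ _ _ _

theorem hh_ge (hu : P.uni = false) (w up dn : ℕ) :
    (hm B Q P sa sb w up dn : ℝ) / 2 ^ 160 * rr (t4L sa sb + 1) ≤ rr (hh B Q P sa sb w up dn) := by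
  unfold hh
  rw [hu, Bool.false_and, cond_false]
  refine le_trans (le_of_eq ?_) (rr_shr_lt _ 160).le
  rw [rr_nmul]; ring

end point

end YCellEX

open YCellEX

theorem cellE_exact {α : Type} (h : BOK B Q E) {Va Vb : ℕ → ℕ} {P : EP}
    (hf : P.fin = true → EndOK B Va Vb B.Yp) {sa sb : ℕ} (hs : sa ≤ sb) (sc sh sg : ℕ)
    (kk : ℕ → ℕ → ℕ → α) :
    ∃ sc' sh' sg', cellE B Q E Va Vb P sa sb sc sh sg kk = kk sc' sh' sg' ∧
      ∀ q ∈ B.I, ∀ (ι : Type) (T : Finset ι) (x : ι → ℝ) (x1 x2 : ℝ), InE P T x x1 x2 →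
        ∫ u in sR sa..sR sb, FE (B.g 0 q) P.ho x1 x2 T x u ≤
          PhiE 1 (Var T x) sc' sh' sg' - PhiE 1 (Var T x) sc sh sg := by
  rw [cellE_eq]
  obtain ⟨t1, t2⟩ := t4L_encl hs
  cases hb : (Nat.ble (yu P sb) B.z2 && Nat.beq (ol Q P sa sb) 0)
  · obtain ⟨up, dn, e, hH⟩ := hess_spec h P (RR Q P sa sb) (Rn B Q P sa sb) (ww B Q Va Vb P sa sb)
      (yu P sb) (tS sb) fun up dn => Bool.casesOn (motive := fun _ => α)
        (Nat.ble (cc B Q E P sa sb (ww B Q Va Vb P sa sb))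
          (mulD P.Vs (hh B Q P sa sb (ww B Q Va Vb P sa sb) up dn)))
        (kk sc (sh + hh B Q P sa sb (ww B Q Va Vb P sa sb) up dn) sg)
        (kk (sc + cc B Q E P sa sb (ww B Q Va Vb P sa sb)) sh sg)
    cases hc : Nat.ble (cc B Q E P sa sb (ww B Q Va Vb P sa sb))
      (mulD P.Vs (hh B Q P sa sb (ww B Q Va Vb P sa sb) up dn))
    · refine ⟨sc, sh + hh B Q P sa sb (ww B Q Va Vb P sa sb) up dn, sg, ?_, ?_⟩
      · refine e.trans ?_
        rw [hc]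
      · intro q hq ι T x x1 x2 hP
        have hV := Full.var_nonneg T x
        have hI := cell_int (hP.int h.sc hq) (c0 := 0) (c2 := 0)
          (c4 := (hm B Q P sa sb (ww B Q Va Vb P sa sb) up dn : ℝ) / 2 ^ 160 * Var T x)
          (sR_nonneg sa) (sR_mono hs) fun u u1 u2 => by
            obtain ⟨h1, h2⟩ := tS_mem u1 u2
            have hi := hin h hq hf hP h1 h2
            obtain ⟨a1, a2⟩ := hH q hq ι T _ _ hi
            have := hess_pt h hq hP h1 h2 hi a1 (a2 hP.uni)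
            rw [var_smul] at this
            rw [FE_eq]
            refine this.trans (le_of_eq ?_)
            ring
        have hG := hh_ge (B := B) (Q := Q) (sa := sa) (sb := sb) hP.uni (ww B Q Va Vb P sa sb) up dn
        have n0 : (0 : ℝ) ≤ (hm B Q P sa sb (ww B Q Va Vb P sa sb) up dn : ℝ) / 2 ^ 160 := by
          positivity
        generalize (hm B Q P sa sb (ww B Q Va Vb P sa sb) up dn : ℝ) / 2 ^ 160 = M at hI hG n0
        have a1 := mul_le_mul_of_nonneg_left ((mul_le_mul_of_nonneg_left t2 n0).trans hG) hV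
        unfold PhiE
        rw [rr_add]
        refine hI.trans ?_
        linarith
    · refine ⟨sc + cc B Q E P sa sb (ww B Q Va Vb P sa sb), sh, sg, ?_, ?_⟩
      · refine e.trans ?_
        rw [hc]
      · intro q hq ι T x x1 x2 hP
        have hI := cell_int (hP.int h.sc hq) (c0 := rr (cr B Q E P sa sb (ww B Q Va Vb P sa sb)))
          (c2 := 0) (c4 := 0) (sR_nonneg sa) (sR_mono hs) fun u u1 u2 => by
            obtain ⟨h1, h2⟩ := tS_mem u1 u2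
            have := crude_pt h hq hP h1 h2 (hin h hq hf hP h1 h2).hw
            rw [FE_eq]
            refine this.trans (le_of_eq ?_)
            ring
        have hG : rr (cr B Q E P sa sb (ww B Q Va Vb P sa sb)) * (sR sb - sR sa) ≤
            rr (cc B Q E P sa sb (ww B Q Va Vb P sa sb)) := by
          unfold cc
          rw [hP.uni, cond_false, ← dS_eq hs]
          exact mulU_ge _ _
        unfold PhiE
        rw [rr_add]
        refine hI.trans ?_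
        linarith
  · refine ⟨sc, sh, sg + inc B Q P sa sb (ww B Q Va Vb P sa sb), rfl, ?_⟩
    intro q hq ι T x x1 x2 hP
    rw [Bool.and_eq_true] at hb
    have hz := Nat.le_of_ble_eq_true hb.1
    have ho := Nat.eq_of_beq_eq_true hb.2
    have hV := Full.var_nonneg T x
    have hG := inc_le B Q P sa sb (ww B Q Va Vb P sa sb)
    have n1 := rr_nonneg (olp Q P sa sb)
    have n2 := rr_nonneg (powD (gLop (ww B Q Va Vb P sa sb)) P.k)
    have n3 := rr_nonneg (gc B Q P sa sb)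
    have n4 := rr_nonneg P.Vh
    have n0 : 0 ≤ rr (olp Q P sa sb) * rr (powD (gLop (ww B Q Va Vb P sa sb)) P.k) *
      rr (gc B Q P sa sb) / (2 + rr (gc B Q P sa sb) * (rr (tS sb) ^ 2 * rr P.Vh)) :=
      div_nonneg (mul_nonneg (mul_nonneg n1 n2) n3)
        (add_nonneg zero_le_two (mul_nonneg n3 (mul_nonneg (sq_nonneg _) n4)))
    have hI := cell_int (hP.int h.sc hq) (c0 := 0) (c2 := 0)
      (c4 := -(rr (olp Q P sa sb) * rr (powD (gLop (ww B Q Va Vb P sa sb)) P.k) *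
        rr (gc B Q P sa sb) / (2 + rr (gc B Q P sa sb) * (rr (tS sb) ^ 2 * rr P.Vh)) * Var T x))
      (sR_nonneg sa) (sR_mono hs) fun u u1 u2 => by
        obtain ⟨h1, h2⟩ := tS_mem u1 u2
        have := gain_pt h hq hP h1 h2 (hin h hq hf hP h1 h2).hw hz ho
        rw [var_smul] at this
        rw [FE_eq]
        refine this.trans (le_of_eq ?_)
        ring
    generalize rr (olp Q P sa sb) * rr (powD (gLop (ww B Q Va Vb P sa sb)) P.k) *
      rr (gc B Q P sa sb) / (2 + rr (gc B Q P sa sb) * (rr (tS sb) ^ 2 * rr P.Vh)) = K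
      at hI hG n0
    have a1 := mul_le_mul_of_nonneg_left (hG.trans (mul_le_mul_of_nonneg_left t1 n0)) hV
    unfold PhiE
    rw [rr_add]
    refine hI.trans ?_
    linarith

end Pool.Agent.MP_39fec4_gt.K
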