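import Pool.Agent.MP_39fec4_gt.YEnv
import Pool.Agent.MP_39fec4_gt.YTail

set_option autoImplicit false

namespace Pool.Agent.MP_39fec4_gt.K

open Set MeasureTheory Full

variable {B : Blk} {Q : ℕ → ℕ → ℕ} {E : ℕ → ℕ} {q : ℝ} {ι : Type} {T : Finset ι}

/-- The coordinates handled by a run with an unknown number of inner factors. -/
structure InP (k ra rb x1l x1h x2l x2h : ℕ) {ι : Type} (T : Finset ι) (x : ι → ℝ)
    (x1 x2 : ℝ) : Prop where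
  k1 : 1 ≤ k
  card : k ≤ T.card
  sum : rr ra ≤ ∑ j ∈ T, x j ∧ ∑ j ∈ T, x j ≤ rr rb
  one : x1 + x2 + ∑ j ∈ T, x j = 1
  rng : ∀ j ∈ T, 0 ≤ x j ∧ x j ≤ x2
  p1 : 0 < x1
  le : x2 ≤ x1
  o1 : rr x1l ≤ x1 ∧ x1 ≤ rr x1h
  o2 : rr x2l ≤ x2 ∧ x2 ≤ rr x2h
  big : 2 ≤ (k + 2) * (x1 + x2)

/-- The integrand used against the Ball point. -/
noncomputable def FP2 (g : ℝ → ℝ) (k : ℕ) (x1 x2 : ℝ) {ι : Type} (T : Finset ι) (x : ι → ℝ)
    (s : ℝ) : ℝ :=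
  g (x1 * s ^ 2) * g (x2 * s ^ 2) * ∏ j ∈ T, g (x j * s ^ 2) -
    P3 g x1 x2 ((∑ j ∈ T, x j) / k) k (s ^ 2)

/-- The integrand used against the diagonal, without the negative part. -/
noncomputable def FP1 (g : ℝ → ℝ) (k : ℕ) (x1 x2 : ℝ) {ι : Type} (T : Finset ι) (x : ι → ℝ)
    (s : ℝ) : ℝ :=
  FP2 g k x1 x2 T x s + g (s ^ 2 / ((k + 2 : ℕ) : ℝ)) ^ (k + 2) -
    g (s ^ 2 / ((T.card + 2 : ℕ) : ℝ)) ^ (T.card + 2) - ngp g (T.card + 2) s

theorem InP.int (h : BOK B Q E) (hq : q ∈ B.I) {k ra rb x1l x1h x2l x2h : ℕ} {x : ι → ℝ}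
    {x1 x2 : ℝ} (hP : InP k ra rb x1l x1h x2l x2h T x x1 x2) :
    IntegrableOn (FP1 (B.g 0 q) k x1 x2 T x) (Ioi 0) ∧
      IntegrableOn (FP2 (B.g 0 q) k x1 x2 T x) (Ioi 0) := by
  have a1 := int_IX h.sc hq hP.p1 x2 T x
  have a2 := int_IX h.sc hq hP.p1 x2 (Finset.range k) (fun _ => (∑ j ∈ T, x j) / k)
  have a3 : IntegrableOn (FP2 (B.g 0 q) k x1 x2 T x) (Ioi 0) := by
    refine (a1.sub a2).congr_fun (fun s _ => ?_) measurableSet_Ioi
    simp only [Pi.sub_apply, FP2, P3, Finset.prod_const, Finset.card_range]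
  have a4 : ∀ n : ℕ, IntegrableOn
      (fun s : ℝ => B.g 0 q (s ^ 2 / ((n + 2 : ℕ) : ℝ)) ^ (n + 2)) (Ioi 0) := fun n => by
    have hn : (0 : ℝ) < 1 / ((n + 2 : ℕ) : ℝ) := by positivity
    refine (int_pow h.sc hq hn (k := n + 2) (by omega)).congr_fun (fun s _ => ?_)
      measurableSet_Ioi
    simp only [one_div_mul_eq_div]
  have a5 := int_ngp h hq (n := T.card + 2) (by omega)
  exact ⟨((a3.add (a4 k)).sub (a4 T.card)).sub a5, a3⟩

namespace YCellPX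

/-- The first lobe bound. -/
def p1N (B : Blk) (k tl th w : ℕ) : ℕ :=
  bif Nat.ble (th / k + 1) B.z2 then
    min (expU (mulD B.lam tl) + pNeg w k - pLop w k)
      (mulU (B.lamh - B.lam) th + powU (mulU B.lamh th) 2 / k + 1)
  else expU (mulD B.lam tl) + pNeg w k - pLop w k

/-- The bound used when the outer factor is negative. -/
def dnN (B : Blk) (k b ym tl th R w : ℕ) : ℕ :=
  bif Nat.beq (prodLo B R ym th) 0 then pHi w k + envDn B b ym tl (gNeg R) - pHin w k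
  else pHi w k - prodLo B R ym th

/-- The pointwise bound. -/
def cpN (B : Blk) (Q : ℕ → ℕ → ℕ) (k b ym tl th R w c1 c2 : ℕ) : ℕ :=
  max (mulU (oHi c1 c2)
      (max (p1N B k tl th w) (envUp B Q b ym tl th (gNeg R) + pNeg w k - pLop w k)))
    (bif Nat.beq (oNeg c1 c2) 0 then 0 else mulU (oNeg c1 c2) (dnN B k b ym tl th R w))

theorem p1N_spec (h : BOK B Q E) (hq : q ∈ B.I) {k tl th w : ℕ} (hk : 1 ≤ k) {y : ι → ℝ}
    (hy : FL B q T y) (hl : rr tl ≤ ∑ j ∈ T, y j) (hh : ∑ j ∈ T, y j ≤ rr th)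
    (hw : InR w (B.g 0 q ((∑ j ∈ T, y j) / k))) :
    ∏ j ∈ T, B.g 0 q (y j) - B.g 0 q ((∑ j ∈ T, y j) / k) ^ k ≤ rr (p1N B k tl th w) := by
  have hs := h.sc.sm_g hq
  have hd := h.hd q hq
  have a1 := hd.prod_exp_le hs T y hy
  have a2 : Real.exp (-(rr B.lam * ∑ j ∈ T, y j)) ≤ rr (expU (mulD B.lam tl)) :=
    le_expU (mulD_le_of le_rfl hl)
  have a3 := pLop_le hw k
  have a4 := rr_sub_ge (expU (mulD B.lam tl) + pNeg w k) (pLop w k)
  rw [rr_add] at a4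
  have a5 : ∏ j ∈ T, B.g 0 q (y j) - B.g 0 q ((∑ j ∈ T, y j) / k) ^ k ≤
      rr (expU (mulD B.lam tl) + pNeg w k - pLop w k) := by linarith
  unfold p1N
  cases hb : Nat.ble (th / k + 1) B.z2
  · exact a5
  · rw [cond_true, rr_min]
    refine le_min a5 ?_
    have hb' : th / k + 1 ≤ B.z2 := Nat.ble_eq.mp hb
    have hk0 : (0 : ℝ) < k := by exact_mod_cast hk
    have s0 : 0 ≤ ∑ j ∈ T, y j := (rr_nonneg tl).trans hl
    have b1 : (∑ j ∈ T, y j) / k ≤ rr B.z2 :=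
      ((div_le_div_of_nonneg_right hh hk0.le).trans (rr_div_lt th hk).le).trans (rr_le.mpr hb')
    have b2 := hd.pos _ (div_nonneg s0 hk0.le) b1
    have b3 := head_excess (h.lin q hq) (rr_nonneg B.lam) (rr_le.mpr h.lamh.1) hk s0 b2.le
    have b4 : (rr B.lamh - rr B.lam) * ∑ j ∈ T, y j ≤ rr (mulU (B.lamh - B.lam) th) :=
      le_mulU (rr_sub_ge _ _) hh s0
    have b5 : (rr B.lamh * ∑ j ∈ T, y j) ^ 2 ≤ rr (powU (mulU B.lamh th) 2) :=
      le_powU (mul_nonneg (rr_nonneg _) s0) (le_mulU le_rfl hh s0) 2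
    have b6 := rr_div_lt (powU (mulU B.lamh th) 2) hk
    have b7 := div_le_div_of_nonneg_right b5 hk0.le
    rw [Nat.add_assoc, rr_add]
    linarith

theorem dnN_spec (h : BOK B Q E) (hq : q ∈ B.I) {k b ym tl th R w : ℕ} {y : ι → ℝ} {z : ℝ}
    (hb : EnvOK B q b ym) (hy : ∀ j ∈ T, 0 ≤ y j ∧ y j ≤ rr ym) (hl : rr tl ≤ ∑ j ∈ T, y j)
    (hh : ∑ j ∈ T, y j ≤ rr th) (hR : ∀ v, 0 ≤ v → v ≤ rr ym → InR R (B.g 0 q v))
    (hw : InR w z) : z ^ k - ∏ j ∈ T, B.g 0 q (y j) ≤ rr (dnN B k b ym tl th R w) := by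
  unfold dnN
  cases hb0 : Nat.beq (prodLo B R ym th) 0
  · have h0 : 0 < prodLo B R ym th := by
      rcases Nat.eq_zero_or_pos (prodLo B R ym th) with h1 | h1
      · rw [h1] at hb0
        exact absurd hb0 (by decide)
      · exact h1
    have a1 := prodLo_spec h hq hy hh (hR _ (rr_nonneg ym) le_rfl) h0
    have a2 := pHi_ge' hw k
    have a3 := rr_sub_ge (pHi w k) (prodLo B R ym th)
    rw [cond_false]
    linarith
  · have a1 := envDn_spec h hq hb hy hl (ng := gNeg R)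
      fun j hj => (hR _ (hy j hj).1 (hy j hj).2).neg
    have a2 := pHi_ge hw k
    have a3 := rr_sub_ge (pHi w k + envDn B b ym tl (gNeg R)) (pHin w k)
    rw [rr_add] at a3
    rw [cond_true]
    linarith

theorem cpN_spec (h : BOK B Q E) (hq : q ∈ B.I) {k b ym tl th R w c1 c2 : ℕ} (hk : 1 ≤ k)
    {y : ι → ℝ} {z1 z2 : ℝ} (hb : EnvOK B q b ym) (hy : ∀ j ∈ T, 0 ≤ y j ∧ y j ≤ rr ym)
    (hl : rr tl ≤ ∑ j ∈ T, y j) (hh : ∑ j ∈ T, y j ≤ rr th)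
    (hR : ∀ v, 0 ≤ v → v ≤ rr ym → InR R (B.g 0 q v))
    (hw : InR w (B.g 0 q ((∑ j ∈ T, y j) / k))) (h1 : InR c1 z1) (h2 : InR c2 z2) :
    z1 * z2 * ∏ j ∈ T, B.g 0 q (y j) - z1 * z2 * B.g 0 q ((∑ j ∈ T, y j) / k) ^ k ≤
      rr (cpN B Q k b ym tl th R w c1 c2) := by
  unfold cpN
  rw [rr_max, ← mul_sub]
  rcases le_or_gt 0 (z1 * z2) with h0 | h0
  · refine le_trans ?_ (le_max_left _ _)
    refine le_mulU' (oHi_ge h1 h2) ?_ h0
    rw [rr_max]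
    rcases envUp_spec h hq (de := 0) (tl := tl) (th := th) (ng := gNeg R) hb hy (by linarith) (Or.inl hh)
      le_rfl (Or.inl rfl) (fun j hj => (hR _ (hy j hj).1 (hy j hj).2).neg) with a | a
    · refine le_trans ?_ (le_max_right _ _)
      rw [mul_zero, neg_zero, Real.exp_zero, mul_one] at a
      have a3 := pLop_le hw k
      have a4 := rr_sub_ge (envUp B Q b ym tl th (gNeg R) + pNeg w k) (pLop w k)
      rw [rr_add] at a4
      linarith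
    · exact (p1N_spec h hq hk a hl hh hw).trans (le_max_left _ _)
  · refine le_trans ?_ (le_max_right _ _)
    have a1 := oNeg_le h1 h2
    cases hb0 : Nat.beq (oNeg c1 c2) 0
    · rw [cond_false]
      have a2 := dnN_spec h hq (k := k) hb hy hl hh hR hw
      have a3 := le_mulU' (x := -(z1 * z2)) (a := oNeg c1 c2) (by linarith) a2 (by linarith)
      linarith
    · rw [Nat.eq_of_beq_eq_true hb0, rr_zero] at a1
      linarith

/-- The pointwise bound of a cell. -/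
def cpC (B : Blk) (Q : ℕ → ℕ → ℕ) (E : ℕ → ℕ) (k ra rb x1l x1h x2l x2h ta tb : ℕ) : ℕ :=
  cpN B Q k (envb E (mulU (min (min x1h x2h) rb) tb)) (mulU (min (min x1h x2h) rb) tb)
    (mulD ra ta) (mulU rb tb) (rq Q 0 (mulU (min (min x1h x2h) rb) tb))
    (rq Q (mulD ra ta / k) (mulU rb tb / k + 1)) (rq Q (mulD x1l ta) (mulU x1h tb))
    (rq Q (mulD x2l ta) (mulU x2h tb))

theorem fp2_le (h : BOK B Q E) (hq : q ∈ B.I) {k ra rb x1l x1h x2l x2h ta tb : ℕ} {x : ι → ℝ}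
    {x1 x2 u : ℝ} (hP : InP k ra rb x1l x1h x2l x2h T x x1 x2) (ha : rr ta ≤ u ^ 2)
    (hb : u ^ 2 ≤ rr tb) :
    FP2 (B.g 0 q) k x1 x2 T x u ≤ rr (cpC B Q E k ra rb x1l x1h x2l x2h ta tb) := by
  have t0 : 0 ≤ u ^ 2 := sq_nonneg u
  generalize ht : u ^ 2 = t at ha hb t0
  have hk0 : (0 : ℝ) < k := by exact_mod_cast hP.k1
  have x20 : 0 ≤ x2 := (rr_nonneg _).trans hP.o2.1
  have es : ∑ j ∈ T, x j * t = (∑ j ∈ T, x j) * t := (Finset.sum_mul T x t).symm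
  have hy : ∀ j ∈ T, 0 ≤ x j * t ∧ x j * t ≤ rr (mulU (min (min x1h x2h) rb) tb) := by
    intro j hj
    refine ⟨mul_nonneg (hP.rng j hj).1 t0, le_mulU ?_ hb t0⟩
    rw [rr_min, rr_min]
    refine le_min (le_min ?_ ?_) ?_
    · exact ((hP.rng j hj).2.trans hP.le).trans hP.o1.2
    · exact (hP.rng j hj).2.trans hP.o2.2
    · exact (Finset.single_le_sum (fun i hi => (hP.rng i hi).1) hj).trans hP.sum.2
  have hl : rr (mulD ra ta) ≤ ∑ j ∈ T, x j * t := by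
    rw [es]
    exact mulD_le_of hP.sum.1 ha
  have hh : ∑ j ∈ T, x j * t ≤ rr (mulU rb tb) := by
    rw [es]
    exact le_mulU hP.sum.2 hb t0
  have hw : InR (rq Q (mulD ra ta / k) (mulU rb tb / k + 1))
      (B.g 0 q ((∑ j ∈ T, x j * t) / k)) := by
    refine ((h.qok.rq _ _).pt q hq _ (div_nonneg ((rr_nonneg _).trans hl) hk0.le) ?_ ?_).inR
    · exact (rr_div_le _ _).trans (div_le_div_of_nonneg_right hl hk0.le)
    · exact (div_le_div_of_nonneg_right hh hk0.le).trans (rr_div_lt _ hP.k1).le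
  have h1 : InR (rq Q (mulD x1l ta) (mulU x1h tb)) (B.g 0 q (x1 * t)) :=
    ((h.qok.rq _ _).pt q hq _ (mul_nonneg hP.p1.le t0) (mulD_le_of hP.o1.1 ha)
      (le_mulU hP.o1.2 hb t0)).inR
  have h2 : InR (rq Q (mulD x2l ta) (mulU x2h tb)) (B.g 0 q (x2 * t)) :=
    ((h.qok.rq _ _).pt q hq _ (mul_nonneg x20 t0) (mulD_le_of hP.o2.1 ha)
      (le_mulU hP.o2.2 hb t0)).inR
  have hR : ∀ v, 0 ≤ v → v ≤ rr (mulU (min (min x1h x2h) rb) tb) →
      InR (rq Q 0 (mulU (min (min x1h x2h) rb) tb)) (B.g 0 q v) := fun v h0 hv =>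
    ((h.qok.rq _ _).pt q hq v h0 (by rw [rr_zero]; exact h0) hv).inR
  have a := cpN_spec h hq hP.k1 (h.envOK hq _) hy hl hh hR hw h1 h2
  have e : (∑ j ∈ T, x j * t) / k = (∑ j ∈ T, x j) / k * t := by
    rw [es]
    ring
  rw [e] at a
  unfold FP2 P3 cpC
  rw [ht]
  exact a

theorem ngp_nonneg (g : ℝ → ℝ) (n : ℕ) (s : ℝ) : 0 ≤ ngp g n s :=
  le_max_right _ _

theorem fp1_head (h : BOK B Q E) (hq : q ∈ B.I) {k ra rb x1l x1h x2l x2h : ℕ} {x : ι → ℝ}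
    {x1 x2 u : ℝ} (hP : InP k ra rb x1l x1h x2l x2h T x x1 x2) (hz : x1 * u ^ 2 ≤ rr B.z2) :
    FP1 (B.g 0 q) k x1 x2 T x u ≤ 0 := by
  have t0 : 0 ≤ u ^ 2 := sq_nonneg u
  have hs := h.sc.sm_g hq
  have hd := h.hd q hq
  have x20 : 0 ≤ x2 := (rr_nonneg _).trans hP.o2.1
  have hT : T.Nonempty := Finset.card_pos.mp (lt_of_lt_of_le hP.k1 hP.card)
  have hz2 : x2 * u ^ 2 ≤ rr B.z2 := (mul_le_mul_of_nonneg_right hP.le t0).trans hz
  have hF : FL B q T fun j => x j * u ^ 2 := FL.of_le h hq fun j hj =>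
    ⟨mul_nonneg (hP.rng j hj).1 t0, (mul_le_mul_of_nonneg_right (hP.rng j hj).2 t0).trans hz2⟩
  have a1 := FL.jensen h hq hT hF
  rw [mean_mul] at a1
  have o1 := hd.pos _ (mul_nonneg hP.p1.le t0) hz
  have o2 := hd.pos _ (mul_nonneg x20 t0) hz2
  have a2 := mul_le_mul_of_nonneg_left a1 (mul_pos o1 o2).le
  have a3 := hd.plus_mono hs hP.k1 hP.card x20 hP.le ((rr_nonneg _).trans hP.sum.1) hP.one
    hP.big t0 hz
  have a4 := ngp_nonneg (B.g 0 q) (T.card + 2) u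
  have e : P3 (B.g 0 q) x1 x2 ((∑ j ∈ T, x j) / T.card) T.card (u ^ 2) =
      B.g 0 q (x1 * u ^ 2) * B.g 0 q (x2 * u ^ 2) * B.g 0 q (mean T x * u ^ 2) ^ T.card := rfl
  rw [e] at a3
  unfold FP1 FP2
  linarith

/-- The record of the diagonal term. -/
def dgN (B : Blk) (Q : ℕ → ℕ → ℕ) (k ta tb : ℕ) : ℕ :=
  powU (gAB (rq Q (max B.z2 (ta / (k + 2))) (tb / (k + 2) + 1))) (k + 2)

theorem diag_le (h : BOK B Q E) (hq : q ∈ B.I) {k n ta tb : ℕ} (hn : k ≤ n) {u : ℝ}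
    (ha : rr ta ≤ u ^ 2) (hb : u ^ 2 ≤ rr tb) :
    B.g 0 q (u ^ 2 / ((k + 2 : ℕ) : ℝ)) ^ (k + 2) - B.g 0 q (u ^ 2 / ((n + 2 : ℕ) : ℝ)) ^ (n + 2) -
      ngp (B.g 0 q) (n + 2) u ≤
      rr (bif Nat.ble (tb / (k + 2) + 1) B.z2 then 0 else dgN B Q k ta tb) := by
  have t0 : 0 ≤ u ^ 2 := sq_nonneg u
  have hN : (0 : ℝ) < ((k + 2 : ℕ) : ℝ) := by positivity
  have hub : u ^ 2 / ((k + 2 : ℕ) : ℝ) ≤ rr (tb / (k + 2) + 1) :=
    (div_le_div_of_nonneg_right hb hN.le).trans (rr_div_lt tb (by omega)).le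
  rcases le_or_gt (u ^ 2 / ((k + 2 : ℕ) : ℝ)) (rr B.z2) with hz | hz
  · have a1 := (h.hd q hq).pow_mono (h.sc.sm_g hq) (N := k + 2) (n := n + 2) (by omega)
      (by omega) t0 hz
    have a2 := ngp_nonneg (B.g 0 q) (n + 2) u
    have a3 := rr_nonneg (bif Nat.ble (tb / (k + 2) + 1) B.z2 then 0 else dgN B Q k ta tb)
    linarith
  · cases hc : Nat.ble (tb / (k + 2) + 1) B.z2
    · rw [cond_false]
      have a1 : InR (rq Q (max B.z2 (ta / (k + 2))) (tb / (k + 2) + 1))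
          (B.g 0 q (u ^ 2 / ((k + 2 : ℕ) : ℝ))) := by
        refine ((h.qok.rq _ _).pt q hq _ (div_nonneg t0 hN.le) ?_ hub).inR
        rw [rr_max]
        exact max_le hz.le ((rr_div_le _ _).trans (div_le_div_of_nonneg_right ha hN.le))
      have a2 := (le_abs_self _).trans (abs_le_powU a1.abs (k + 2))
      have a3 : -(B.g 0 q (u ^ 2 / ((n + 2 : ℕ) : ℝ)) ^ (n + 2)) ≤ ngp (B.g 0 q) (n + 2) u :=
        le_max_left _ _
      unfold dgN
      linarith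
    · exact absurd (hub.trans (rr_le.mpr (Nat.ble_eq.mp hc))) (not_le.mpr hz)

theorem int_const {F : ℝ → ℝ} (hF : IntegrableOn F (Ioi 0)) {sa sb : ℕ} (hs : sa ≤ sb) {c : ℝ}
    (h : ∀ u, sR sa ≤ u → u ≤ sR sb → F u ≤ c) :
    ∫ u in sR sa..sR sb, F u ≤ c * rr (dS sa sb) := by
  have a := cell_int hF (c0 := c) (c2 := 0) (c4 := 0) (sR_nonneg sa) (sR_mono hs)
    fun u h1 h2 => by linarith [h u h1 h2]
  rw [dS_eq hs]
  linarith

end YCellPX

open YCellPX in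
theorem cellP_spec {α : Type} (h : BOK B Q E) (k ra rb x1l x1h x2l x2h : ℕ) {sa sb : ℕ}
    (hs : sa ≤ sb) (e1 e2 e3 : ℕ) (kk : ℕ → ℕ → ℕ → α) :
    ∃ e1' e2', cellP B Q E k ra rb x1l x1h x2l x2h sa sb e1 e2 e3 kk = kk e1' e2' e3 ∧
      ∀ q ∈ B.I, ∀ (ι : Type) (T : Finset ι) (x : ι → ℝ) (x1 x2 : ℝ),
        InP k ra rb x1l x1h x2l x2h T x x1 x2 →
        ∫ u in sR sa..sR sb, FP1 (B.g 0 q) k x1 x2 T x u ≤ rr e1' - rr e1 ∧
          ∫ u in sR sa..sR sb, FP2 (B.g 0 q) k x1 x2 T x u ≤ rr e2' - rr e2 := by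
  refine ⟨bif Nat.ble (mulU x1h (tS sb)) B.z2 then e1 else
      e1 + mulU (cpC B Q E k ra rb x1l x1h x2l x2h (tS sa) (tS sb)) (dS sa sb) +
        (bif Nat.ble (tS sb / (k + 2) + 1) B.z2 then 0
          else mulU (dgN B Q k (tS sa) (tS sb)) (dS sa sb)),
    e2 + mulU (cpC B Q E k ra rb x1l x1h x2l x2h (tS sa) (tS sb)) (dS sa sb), ?_, ?_⟩
  · unfold cellP
    simp only [forceN_eq]
    rfl
  intro q hq ι T x x1 x2 hP
  obtain ⟨i1, i2⟩ := hP.int h hq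
  have p2 : ∀ u, sR sa ≤ u → u ≤ sR sb → FP2 (B.g 0 q) k x1 x2 T x u ≤
      rr (cpC B Q E k ra rb x1l x1h x2l x2h (tS sa) (tS sb)) := fun u h1 h2 =>
    fp2_le h hq hP (tS_mem h1 h2).1 (tS_mem h1 h2).2
  generalize cpC B Q E k ra rb x1l x1h x2l x2h (tS sa) (tS sb) = cp at p2 ⊢
  have m1 := mulU_ge cp (dS sa sb)
  constructor
  · cases hc : Nat.ble (mulU x1h (tS sb)) B.z2
    · have a1 := int_const i1 hs (c := rr cp +
          rr (bif Nat.ble (tS sb / (k + 2) + 1) B.z2 then 0 else dgN B Q k (tS sa) (tS sb)))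
        fun u h1 h2 => by
          have b1 := p2 u h1 h2
          have b2 := diag_le h hq hP.card (tS_mem h1 h2).1 (tS_mem h1 h2).2
          unfold FP1
          linarith
      rw [cond_false, rr_add, rr_add]
      rw [add_mul] at a1
      have a2 : rr (bif Nat.ble (tS sb / (k + 2) + 1) B.z2 then 0 else dgN B Q k (tS sa) (tS sb)) *
          rr (dS sa sb) ≤ rr (bif Nat.ble (tS sb / (k + 2) + 1) B.z2 then 0
            else mulU (dgN B Q k (tS sa) (tS sb)) (dS sa sb)) := by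
        cases Nat.ble (tS sb / (k + 2) + 1) B.z2
        · exact mulU_ge _ _
        · rw [cond_true, cond_true, rr_zero, zero_mul]
      linarith
    · have a1 := int_const i1 hs (c := 0) fun u h1 h2 => fp1_head h hq hP
        ((le_mulU hP.o1.2 (tS_mem h1 h2).2 (sq_nonneg u)).trans (rr_le.mpr (Nat.ble_eq.mp hc)))
      rw [cond_true]
      linarith
  · have a1 := int_const i2 hs p2
    rw [rr_add]
    linarith

end Pool.Agent.MP_39fec4_gt.K
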