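import Pool.Agent.MP_39fec4_gt.YEnv
import Pool.Agent.MP_39fec4_gt.YHess
import Pool.Agent.MP_39fec4_gt.YGain

set_option autoImplicit false

namespace Pool.Agent.MP_39fec4_gt.K

open Set MeasureTheory Full

variable {B : Blk} {Q : ℕ → ℕ → ℕ} {E : ℕ → ℕ} {q : ℝ} {ι : Type} {T : Finset ι}

namespace YCellUX

variable {P : EP} {x : ι → ℝ}

theorem var_mul (T : Finset ι) (x : ι → ℝ) (t : ℝ) :
    Var T (fun j => x j * t) = t ^ 2 * Var T x := by
  simp only [Var, ← Finset.sum_mul, Finset.mul_sum]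
  exact Finset.sum_congr rfl fun j _ => by ring

theorem kpos (hU : InU P T x) : (0 : ℝ) < P.k := by
  have := hU.k8
  exact_mod_cast (by omega : 0 < P.k)

theorem kle (hU : InU P T x) : (P.k : ℝ) ≤ T.card := by exact_mod_cast hU.card

theorem mean_eq (hU : InU P T x) : mean T x = 1 / T.card := by rw [mean, hU.sum]

theorem ends (hU : InU P T x) : rr P.xa0 ≤ 1 / P.k ∧ 1 / P.k ≤ rr P.xb1 := by
  have hn := (kpos hU).trans_le (kle hU)
  have e : ∑ j ∈ T, x j * T.card / P.k = T.card * (1 / P.k) := by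
    rw [← Finset.sum_div, ← Finset.sum_mul, hU.sum]
    ring
  have h1 := Finset.card_nsmul_le_sum T _ _ fun j hj => (hU.rng j hj).1
  have h2 := Finset.sum_le_card_nsmul T _ _ fun j hj => (hU.rng j hj).2
  rw [e, nsmul_eq_mul] at h1 h2
  exact ⟨le_of_mul_le_mul_left h1 hn, le_of_mul_le_mul_left h2 hn⟩

/-- The ranges of the rescaled arguments and of their mean. -/
theorem geo (hU : InU P T x) {ta tb : ℕ} {t : ℝ} (h1 : rr ta ≤ t) (h2 : t ≤ rr tb) :
    (∀ j ∈ T, rr (mulD P.xa0 ta) ≤ x j * (T.card / P.k * t) ∧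
      x j * (T.card / P.k * t) ≤ rr (mulU P.xb1 tb)) ∧ rr (mulD P.ra ta) ≤ t ∧
    rr (max (mulD P.xa0 ta) (mulD P.ra ta / P.k)) ≤ t / P.k ∧
    t / P.k ≤ rr (min (mulU P.xb1 tb) (mulU P.rb tb / P.k + 1)) := by
  have h0 : 0 ≤ t := (rr_nonneg _).trans h1
  have hk := kpos hU
  have h3 : rr (mulD P.ra ta) ≤ t := by
    have := mulD_le_of (hU.ra ▸ rr_SS.le : rr P.ra ≤ 1) h1
    rwa [one_mul] at this
  have h4 : t ≤ rr (mulU P.rb tb) := by
    have := le_mulU (hU.rb ▸ rr_SS.ge : 1 ≤ rr P.rb) h2 h0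
    rwa [one_mul] at this
  refine ⟨fun j hj => ?_, h3, ?_, ?_⟩
  · rw [show x j * (T.card / P.k * t) = x j * T.card / P.k * t by ring]
    exact ⟨mulD_le_of (hU.rng j hj).1 h1, le_mulU (hU.rng j hj).2 h2 h0⟩
  · rw [rr_max]
    refine max_le ?_ ((rr_div_le _ _).trans (div_le_div_of_nonneg_right h3 hk.le))
    rw [show t / P.k = 1 / P.k * t by ring]
    exact mulD_le_of (ends hU).1 h1
  · rw [rr_min]
    refine le_min ?_ ((div_le_div_of_nonneg_right h4 hk.le).trans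
      (rr_div_lt _ (by exact_mod_cast hk)).le)
    rw [show t / P.k = 1 / P.k * t by ring]
    exact le_mulU (ends hU).2 h2 h0

theorem half_le {ym wb : ℕ} {m v : ℝ} (h1 : m ≤ rr (min ym wb)) (hv : v ≤ (rr ym + m) / 2) :
    v ≤ rr (min ym ((ym + min ym wb) / 2 + 1)) := by
  have h2 := rr_div_lt (ym + min ym wb) two_pos
  have h3 : rr (min ym wb) ≤ rr ym := rr_le.2 (min_le_left _ _)
  rw [rr_add] at h2
  rw [rr_min ym (_ + 1)]
  push_cast at h2
  exact le_min (by linarith) (by linarith)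

theorem seven (hU : InU P T x) : √((T.card : ℝ) / P.k) ^ 5 * 0.7 ^ (T.card - P.k) ≤ 1 := by
  have h8 : (8 : ℝ) ≤ P.k := by exact_mod_cast hU.k8
  refine scale_nat (by norm_num) (le_trans (by norm_num) hU.k8) hU.card ?_
  have h1 : ((P.k : ℝ) + 1) ^ 5 ≤ (9 / 8 * P.k) ^ 5 :=
    pow_le_pow_left₀ (by linarith) (by linarith) 5
  have h2 : (0 : ℝ) ≤ (P.k : ℝ) ^ 5 := by positivity
  rw [mul_pow] at h1
  linarith

theorem gain (h : BOK B Q E) (hq : q ∈ B.I) (hU : InU P T x) {sa sb : ℕ} (hs : sa ≤ sb)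
    {ym wb w c : ℕ} (hym : ym = mulU P.xb1 (tS sb))
    (hwb : wb = min ym (mulU P.rb (tS sb) / P.k + 1))
    (hw : RgOK B w (rr (max (mulD P.xa0 (tS sa)) (mulD P.ra (tS sa) / P.k))) (rr wb))
    (hc : c = gainC (rq Q 0 ym) (rq Q 0 (min ym ((ym + wb) / 2 + 1)))) (hz : ym ≤ B.z2) :
    ∫ u in sR sa..sR sb, FE (B.g 0 q) false 0 0 T x u ≤
      -(Var T x * rr (divD (mulD (mulD (mulD SS (powD (gLop w) P.k)) c) (t4L sa sb))
        (2 * SS + mulU c (mulU (mulU (tS sb) (tS sb)) P.Vh)))) := by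
  have hk := kpos hU
  have hkn := kle hU
  have hn := hk.trans_le hkn
  have hV := Full.var_nonneg T x
  have hz' : rr ym ≤ rr B.z2 := rr_le.2 hz
  generalize hW : mulU (mulU (tS sb) (tS sb)) P.Vh = W
  have hD : 0 < 2 + rr c * rr W := by
    have := mul_nonneg (rr_nonneg c) (rr_nonneg W)
    linarith
  have hI := cell_int (hU.int h.sc hq) (sR_nonneg sa) (sR_mono hs) (c0 := 0) (c2 := 0)
    (c4 := -(rr (powD (gLop w) P.k) * rr c / (2 + rr c * rr W) * Var T x)) fun u h1 h2 => by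
    obtain ⟨t1, t2⟩ := tS_mem h1 h2
    obtain ⟨g1, -, g3, g4⟩ := geo hU t1 t2
    rw [← hym] at g1 g4
    have h0 : 0 ≤ u ^ 2 := sq_nonneg u
    have g5 : u ^ 2 / P.k ≤ rr ym := g4.trans (rr_le.2 (min_le_left _ _))
    have hm : mean T (fun j => x j * u ^ 2) = u ^ 2 / T.card := by
      rw [mean_mul, mean_eq hU]
      ring
    have hm' : u ^ 2 / T.card ≤ u ^ 2 / P.k := div_le_div_of_nonneg_left h0 hk hkn
    have hm0 : 0 ≤ u ^ 2 / T.card := div_nonneg h0 hn.le
    have hl : rr (gLop w) ≤ B.g 0 q (u ^ 2 / P.k) := by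
      rcases Nat.eq_zero_or_pos (gLop w) with h3 | h3
      · rw [h3, rr_zero]
        exact ((h.hd q hq).pos _ (hm0.trans hm') (g5.trans hz')).le
      · exact (hw.pt q hq _ (hm0.trans hm') g3 (hwb ▸ g4)).inR.lop (Or.inl h3)
    have key := gain_spec h hq (T := T) (y := fun j => x j * u ^ 2) (a := 0) (b := rr ym)
      (Rg := rq Q 0 ym) (Rn := rq Q 0 (min ym ((ym + wb) / 2 + 1))) (Wm := rr W)
      (lw := rr (powD (gLop w) P.k)) (Finset.card_pos.1 (by exact_mod_cast hn)) le_rfl hz'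
      (fun j hj => ?_) (fun v v0 v1 => (h.qok.rq _ _).pt q hq v v0 (rr_zero.le.trans v0) v1)
      (fun v v0 v1 => ?_) (rr_nonneg _) ?_ ?_
    · rw [mean_mul, var_mul, ← hc] at key
      simp only [FE, cond_false, one_mul]
      refine key.trans (le_of_eq ?_)
      ring
    · have x0 : 0 ≤ x j := by
        have h3 := (rr_nonneg _).trans (hU.rng j hj).1
        rw [mul_div_assoc] at h3
        exact nonneg_of_mul_nonneg_left h3 (div_pos hn hk)
      refine ⟨mul_nonneg x0 h0, le_trans (mul_le_mul_of_nonneg_left ?_ x0) (g1 j hj).2⟩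
      exact le_mul_of_one_le_left h0 ((one_le_div hk).2 hkn)
    · rw [hm] at v0 v1
      have v2 : 0 ≤ v := by linarith
      exact (h.qok.rq _ _).pt q hq v v2 (rr_zero.le.trans v2)
        (hwb ▸ half_le (hm'.trans g4) v1)
    · rw [hm]
      exact (powD_le_of hl _).trans ((h.hd q hq).pow_mono (h.sc.sm_g hq)
        (le_trans (by norm_num) hU.k8) hU.card h0 (g5.trans hz'))
    · rw [var_mul, ← hW, sq]
      refine le_mulU (le_mulU t2 t2 h0) (le_of_mul_le_mul_right (hU.var.trans ?_) hn) hV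
      exact mul_le_mul_of_nonneg_left hkn (rr_nonneg _)
  refine hI.trans ?_
  have h1 := divD_le_of (a := mulD (mulD (mulD SS (powD (gLop w) P.k)) c) (t4L sa sb))
    (b := 2 * SS + mulU c W) (mulD_le_of (mulD_le_of (mulD_le _ _) le_rfl) (t4L_encl hs).1) hD
    (by rw [rr_add, rr_nmul, rr_SS]; push_cast; linarith [mulU_ge c W])
  rw [rr_SS] at h1
  have h2 := mul_le_mul_of_nonneg_left h1 hV
  refine le_trans (le_of_eq ?_) (neg_le_neg h2)
  ring

theorem sq_scale (P : EP) (T : Finset ι) (u : ℝ) :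
    (√((T.card : ℝ) / P.k) * u) ^ 2 = T.card / P.k * u ^ 2 := by
  rw [mul_pow, Real.sq_sqrt (by positivity)]

theorem mean_scale (hU : InU P T x) (t : ℝ) :
    mean T (fun j => x j * (T.card / P.k * t)) = t / P.k := by
  have hk := kpos hU
  have hn := hk.trans_le (kle hU)
  rw [mean_mul, mean_eq hU]
  field_simp

theorem FE_scale (g : ℝ → ℝ) (u : ℝ) :
    FE g false 0 0 T x (√((T.card : ℝ) / P.k) * u) = ∏ j ∈ T, g (x j * (T.card / P.k * u ^ 2)) -
      g (mean T fun j => x j * (T.card / P.k * u ^ 2)) ^ T.card := by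
  simp only [FE, cond_false, one_mul, sq_scale, mean_mul]

theorem crude (h : BOK B Q E) (hq : q ∈ B.I) (hU : InU P T x) {sa sb : ℕ} (hs : sa ≤ sb)
    {ym wa w b : ℕ} (hym : ym = mulU P.xb1 (tS sb)) (hb : b = envb E ym)
    (hwa : wa = max (mulD P.xa0 (tS sa)) (mulD P.ra (tS sa) / P.k))
    (hw : RgOK B w (rr wa) (rr (min ym (mulU P.rb (tS sb) / P.k + 1))))
    (c1 : 2 * ym ≤ mulD P.ra (tS sa)) (c2 : 5 * SS ≤ 2 * P.k * mulD b wa) (c3 : gNeg w ≤ R07) :
    ∫ u in (√((T.card : ℝ) / P.k) * sR sa)..(√((T.card : ℝ) / P.k) * sR sb),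
      FE (B.g 0 q) false 0 0 T x u ≤ ((P.k : ℝ) / T.card) ^ 2 *
        rr (mulU (envUp B Q b ym (mulD P.ra (tS sa)) BIG (gNeg (rq Q (mulD P.xa0 (tS sa)) ym)) +
          powU (gNeg w) P.k) (dS sa sb)) := by
  have hk := kpos hU
  have hkn := kle hU
  have hn := hk.trans_le hkn
  have hκ : 0 < √((T.card : ℝ) / P.k) := Real.sqrt_pos.2 (div_pos hn hk)
  have s1 := seven hU
  have s2 := scale_exp (c := rr b * rr wa) hk hkn (by
    have h1 := rr_le.2 c2
    have h2 := mul_le_mul_of_nonneg_left (mulD_le b wa) hk.le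
    rw [rr_nmul, rr_SS, mul_assoc, rr_nmul, rr_nmul] at h1
    push_cast at h1
    linarith)
  have s3 : √((T.card : ℝ) / P.k) ^ 4 * ((P.k : ℝ) / T.card) ^ 2 = 1 := by
    rw [show 4 = 2 * 2 from rfl, pow_mul, Real.sq_sqrt (by positivity)]
    field_simp
  generalize hev : envUp B Q b ym (mulD P.ra (tS sa)) BIG (gNeg (rq Q (mulD P.xa0 (tS sa)) ym)) = ev
  have hI := cell_scale (hU.int h.sc hq) hκ (sR_nonneg sa) (sR_mono hs) (c4 := 0)
    (c0 := ((P.k : ℝ) / T.card) ^ 2 * rr (ev + powU (gNeg w) P.k)) fun u h1 h2 => by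
    obtain ⟨t1, t2⟩ := tS_mem h1 h2
    obtain ⟨g1, g2, g3, g4⟩ := geo hU t1 t2
    rw [← hym] at g1 g4
    rw [← hwa] at g3
    rw [FE_scale, zero_mul, add_zero]
    have hde : 0 ≤ ((T.card : ℝ) - P.k) * rr wa := mul_nonneg (by linarith) (rr_nonneg _)
    have c0 : 0 ≤ ((P.k : ℝ) / T.card) ^ 2 := sq_nonneg _
    rcases envUp_spec h hq (T := T) (y := fun j => x j * (T.card / P.k * u ^ 2)) (th := BIG)
      (de := (T.card - P.k) * rr wa) (ng := gNeg (rq Q (mulD P.xa0 (tS sa)) ym))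
      (hb ▸ h.envOK hq ym) (fun j hj => ⟨(rr_nonneg _).trans (g1 j hj).1, (g1 j hj).2⟩)
      (by
        have h3 := mul_le_mul_of_nonneg_left g3 (sub_nonneg.2 hkn)
        have h4 : (T.card : ℝ) / P.k * u ^ 2 = u ^ 2 + (T.card - P.k) * (u ^ 2 / P.k) := by
          field_simp
          ring
        rw [← Finset.sum_mul, hU.sum]
        linarith) (Or.inr h.z2_le.2) hde (Or.inr c1) (fun j hj => ((h.qok.rq _ _).pt q hq _
        ((rr_nonneg _).trans (g1 j hj).1) (g1 j hj).1 (g1 j hj).2).inR.neg) with e | e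
    · rw [hev] at e
      rw [mean_scale hU]
      have i1 := (hw.pt q hq _ ((rr_nonneg _).trans g3) g3 g4).inR.neg
      have i2 : -B.g 0 q (u ^ 2 / P.k) ^ T.card ≤ rr (gNeg w) ^ T.card := by
        rcases le_total 0 (B.g 0 q (u ^ 2 / P.k)) with i3 | i3
        · exact (neg_nonpos.2 (pow_nonneg i3 _)).trans (pow_nonneg (rr_nonneg _) _)
        · refine (neg_le_abs _).trans ?_
          rw [abs_pow]
          exact pow_le_pow_left₀ (abs_nonneg _) (by rw [abs_of_nonpos i3]; linarith) _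
      have i4 : rr (gNeg w) ^ T.card ≤ rr (powU (gNeg w) P.k) * 0.7 ^ (T.card - P.k) := by
        rw [← Nat.add_sub_cancel' hU.card, pow_add, Nat.add_sub_cancel' hU.card]
        exact mul_le_mul (powU_ge _ _) (pow_le_pow_left₀ (rr_nonneg _)
          ((rr_le.2 c3).trans R07_le) _) (pow_nonneg (rr_nonneg _) _) (rr_nonneg _)
      rw [show rr b * rr wa * ((T.card : ℝ) - P.k) = rr b * ((T.card - P.k) * rr wa) by ring] at s2
      have j1 := mul_le_mul_of_nonneg_left s2 (mul_nonneg c0 (rr_nonneg ev))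
      have j2 := mul_le_mul_of_nonneg_left s1 (mul_nonneg c0 (rr_nonneg (powU (gNeg w) P.k)))
      have j3 := mul_le_mul_of_nonneg_left (add_le_add e (i2.trans i4)) hκ.le
      rw [rr_add]
      generalize √((T.card : ℝ) / P.k) = κ at *
      generalize ((P.k : ℝ) / T.card) ^ 2 = ω at *
      generalize Real.exp _ = ex at *
      generalize (0.7 : ℝ) ^ (T.card - P.k) = sv at *
      have j4 : ω * rr ev * (κ ^ 5 * ex) = κ * (rr ev * ex) := by
        linear_combination κ * rr ev * ex * s3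
      have j5 : ω * rr (powU (gNeg w) P.k) * (κ ^ 5 * sv) = κ * (rr (powU (gNeg w) P.k) * sv) := by
        linear_combination κ * rr (powU (gNeg w) P.k) * sv * s3
      linarith
    · exact (mul_nonpos_of_nonneg_of_nonpos hκ.le (sub_nonpos.2 (e.jensen h hq
        (Finset.card_pos.1 (by exact_mod_cast hn))))).trans (mul_nonneg c0 (rr_nonneg _))
  refine hI.trans ?_
  rw [zero_mul, zero_div, add_zero, mul_assoc, ← dS_eq hs]
  exact mul_le_mul_of_nonneg_left (mulU_ge _ _) (sq_nonneg _)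

theorem second (h : BOK B Q E) (hq : q ∈ B.I) (hU : InU P T x) {sa sb : ℕ} (hs : sa ≤ sb)
    {ylo ym wa wb w up : ℕ} (hylo : ylo = mulD P.xa0 (tS sa)) (hym : ym = mulU P.xb1 (tS sb))
    (hwa : wa = max ylo (mulD P.ra (tS sa) / P.k))
    (hwb : wb = min ym (mulU P.rb (tS sb) / P.k + 1)) (hw : RgOK B w (rr wa) (rr wb))
    (c1 : max (gAB (rq Q ylo ym)) (gAB w) ≤ R07)
    (H : ∀ y : ι → ℝ, HIn B P (rq Q ylo ym) (rq Q ((ylo + wa) / 2) (min ym ((ym + wb) / 2 + 1))) w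
      ym (tS sb) q T y (rr ylo) → ∏ j ∈ T, B.g 0 q (y j) - B.g 0 q (mean T y) ^ T.card ≤
        (up : ℝ) / 2 ^ 120 * 0.7 ^ (T.card - P.k) * Var T y) :
    ∫ u in (√((T.card : ℝ) / P.k) * sR sa)..(√((T.card : ℝ) / P.k) * sR sb),
      FE (B.g 0 q) false 0 0 T x u ≤ Var T x * rr ((SS * up * (t4L sa sb + 1)) >>> 160 + 1) := by
  have hk := kpos hU
  have hkn := kle hU
  have hn := hk.trans_le hkn
  have hV := Full.var_nonneg T x
  have hκ : 0 < √((T.card : ℝ) / P.k) := Real.sqrt_pos.2 (div_pos hn hk)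
  have s1 := seven hU
  have s3 : √((T.card : ℝ) / P.k) ^ 4 = ((T.card : ℝ) / P.k) ^ 2 := by
    rw [show 4 = 2 * 2 from rfl, pow_mul, Real.sq_sqrt (by positivity)]
  have hup : (0 : ℝ) ≤ (up : ℝ) / 2 ^ 120 := by positivity
  have hI := cell_scale (hU.int h.sc hq) hκ (sR_nonneg sa) (sR_mono hs) (c0 := 0)
    (c4 := (up : ℝ) / 2 ^ 120 * Var T x) fun u h1 h2 => by
    obtain ⟨t1, t2⟩ := tS_mem h1 h2
    obtain ⟨g1, -, g3, g4⟩ := geo hU t1 t2
    rw [← hym] at g1 g4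
    rw [← hylo] at g1 g3
    rw [← hwa] at g3
    have k8 := hU.k8
    have key := H (fun j => x j * (T.card / P.k * u ^ 2)) ⟨by omega,
      fun h0 => absurd (hU.uni.symm.trans h0) (by decide), fun _ => ⟨by omega, hU.card, c1⟩,
      rr_nonneg _, g1, fun v v0 v1 => (h.qok.rq _ _).pt q hq v ((rr_nonneg _).trans v0) v0 v1,
      fun v v0 v1 => ?_, ?_, ?_⟩
    · have j1 := mul_le_mul_of_nonneg_left key hκ.le
      have j2 := mul_le_mul_of_nonneg_left s1
        (mul_nonneg (mul_nonneg hup hV) (show 0 ≤ u ^ 4 by positivity))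
      rw [var_mul, mul_pow, ← s3] at j1
      rw [FE_scale]
      refine j1.trans (le_trans (le_of_eq ?_) (j2.trans (le_of_eq ?_))) <;> ring
    · rw [mean_scale hU] at v0 v1
      have v2 : rr ((ylo + wa) / 2) ≤ v := by
        have h3 := rr_div_le (ylo + wa) 2
        rw [rr_add] at h3
        push_cast at h3
        linarith
      exact (h.qok.rq _ _).pt q hq v ((rr_nonneg _).trans v2) v2 (hwb ▸ half_le g4 v1)
    · rw [mean_scale hU]
      exact (hw.pt q hq _ ((rr_nonneg _).trans g3) g3 (hwb ▸ g4)).inR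
    · have j1 : (u ^ 2) ^ 2 ≤ rr (tS sb) ^ 2 := pow_le_pow_left₀ (sq_nonneg u) t2 2
      have j2 := mul_le_mul j1 hU.var (mul_nonneg hV hn.le) (sq_nonneg _)
      have j3 := mul_le_mul_of_nonneg_left j2 (div_pos hn hk).le
      rw [var_mul]
      refine le_trans (le_of_eq ?_) (j3.trans (le_of_eq ?_)) <;> field_simp
  refine hI.trans ?_
  have h1 := (rr_shr_lt (SS * up * (t4L sa sb + 1)) 160).le
  have h2 := mul_le_mul_of_nonneg_left (t4L_encl hs).2 hup
  rw [rr_nmul, SS_eq] at h1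
  refine le_trans (le_of_eq ?_) (mul_le_mul_of_nonneg_left (h2.trans (le_trans (le_of_eq ?_) h1)) hV)
  · ring
  · push_cast
    ring

theorem hess_elim {α : Type} (h : BOK B Q E) (P : EP) (R Rn w ym tb : ℕ) (kk : ℕ → ℕ → α)
    (kk' : ℕ → ℕ → ℕ → α) (Φ : ℕ → ℕ → ℕ → Prop) (H : ∀ up dn : ℕ, (∀ q ∈ B.I, ∀ (ι : Type) (T : Finset ι) (y : ι → ℝ) (a : ℝ),
      HIn B P R Rn w ym tb q T y a → ∏ j ∈ T, B.g 0 q (y j) - B.g 0 q (mean T y) ^ T.card ≤
        (up : ℝ) / 2 ^ 120 * 0.7 ^ (T.card - P.k) * Var T y) →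
      ∃ a b c, kk up dn = kk' a b c ∧ Φ a b c) :
    ∃ a b c, hess B P R Rn w ym tb kk = kk' a b c ∧ Φ a b c := by
  obtain ⟨up, dn, e, h1⟩ := hess_spec h P R Rn w ym tb kk
  exact e ▸ H up dn fun q hq ι T y a hy => (h1 q hq ι T y a hy).1

end YCellUX

open YCellUX

theorem cellE_uni {α : Type} (h : BOK B Q E) {Va Vb : ℕ → ℕ} {P : EP}
    (hf : P.fin = true → EndOK B Va Vb B.Yp) {sa sb : ℕ} (hs : sa ≤ sb) (sc sh sg : ℕ)
    (kk : ℕ → ℕ → ℕ → α) :
    ∃ sc' sh' sg', cellE B Q E Va Vb P sa sb sc sh sg kk = kk sc' sh' sg' ∧ sc ≤ sc' ∧ sh ≤ sh' ∧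
      (sc' < BIG → sh' < BIG → ∀ q ∈ B.I, ∀ (ι : Type) (T : Finset ι) (x : ι → ℝ), InU P T x →
        (mulU P.xb1 (tS sb) ≤ B.z2 → ∫ u in sR sa..sR sb, FE (B.g 0 q) false 0 0 T x u ≤
          PhiE (((P.k : ℝ) / T.card) ^ 2) (Var T x) sc' sh' sg' -
            PhiE (((P.k : ℝ) / T.card) ^ 2) (Var T x) sc sh sg) ∧
        (B.z2 < mulU P.xb1 (tS sb) →
          ∫ u in (√((T.card : ℝ) / P.k) * sR sa)..(√((T.card : ℝ) / P.k) * sR sb),
            FE (B.g 0 q) false 0 0 T x u ≤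
          PhiE (((P.k : ℝ) / T.card) ^ 2) (Var T x) sc' sh' sg' -
            PhiE (((P.k : ℝ) / T.card) ^ 2) (Var T x) sc sh sg)) := by
  unfold cellE
  simp only [forceN_eq]
  generalize hylo : mulD P.xa0 (tS sa) = ylo
  generalize hym : mulU P.xb1 (tS sb) = ym
  generalize hwa : max ylo (mulD P.ra (tS sa) / P.k) = wa
  generalize hwb : min ym (mulU P.rb (tS sb) / P.k + 1) = wb
  have hw : RgOK B (bif P.fin then fineN B Va Vb (rq Q wa (wb + 1)) wa wb else rq Q wa wb)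
      (rr wa) (rr wb) := by
    cases hfin : P.fin
    · exact h.qok.rq _ _
    · rw [cond_true, fineN_eq]
      exact fine_sound h.sc (h.yp.trans h.yc) (hf hfin) (h.qok.rq _ _)
  generalize (bif P.fin then fineN B Va Vb (rq Q wa (wb + 1)) wa wb else rq Q wa wb) = w at hw ⊢
  generalize hol : (bif P.ho then oNeg _ _ else 0) = ol
  subst hylo
  cases hb : (Nat.ble ym B.z2 && Nat.beq ol 0)
  · have hz : P.ho = false → ¬ ym ≤ B.z2 := fun h0 h1 => by
      rw [h0, cond_false] at hol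
      rw [← hol, Nat.ble_eq.mpr h1] at hb
      exact absurd hb (by decide)
    dsimp only
    refine hess_elim h _ _ _ _ _ _ _ _ _ fun up dn H => ?_
    generalize Nat.ble _ (mulD P.Vs _) = d
    cases d
    · refine ⟨_, _, _, rfl, le_rfl, Nat.le_add_right _ _, fun _ h2 q hq ι T x hU =>
        ⟨fun h3 => absurd h3 (hz hU.ho), fun h3 => ?_⟩⟩
      have k3 : Nat.beq P.k 3 = false := by
        have := hU.k8
        exact Bool.eq_false_iff.2 fun h4 => by rw [Nat.beq_eq] at h4; omega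
      have z2 : Nat.ble ym B.z2 = false := Bool.eq_false_iff.2 fun h4 => hz hU.ho (Nat.ble_eq.mp h4)
      rw [hU.ho, cond_false] at hol
      simp only [hU.uni, hU.ho, k3, z2, ← hol, cond_true, cond_false, Bool.true_and,
        Bool.false_and, Nat.zero_mul, Nat.max_zero] at H h2 ⊢
      cases h5 : Nat.ble (max (gAB (rq Q (mulD P.xa0 (tS sa)) ym)) (gAB w)) R07
      · rw [h5] at h2
        exact absurd h2 (not_lt.2 (Nat.le_add_left _ _))
      · refine (second h hq hU hs rfl hym.symm hwa.symm hwb.symm hw (Nat.ble_eq.mp h5)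
          fun y => H q hq ι T y _).trans (le_of_eq ?_)
        simp only [PhiE, Bool.not_true, cond_false, rr_add sh]
        ring
    · refine ⟨_, _, _, rfl, Nat.le_add_right _ _, le_rfl, fun h1 _ q hq ι T x hU =>
        ⟨fun h3 => absurd h3 (hz hU.ho), fun h3 => ?_⟩⟩
      simp only [hU.uni, cond_true] at h1 ⊢
      cases h5 : (Nat.ble (2 * ym) (mulD P.ra (tS sa)) &&
        Nat.ble (5 * SS) (2 * P.k * mulD (envb E ym) wa) && Nat.ble (gNeg w) R07)
      · rw [h5] at h1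
        exact absurd h1 (not_lt.2 (Nat.le_add_left _ _))
      · simp only [Bool.and_eq_true, Nat.ble_eq] at h5
        refine (crude h hq hU hs hym.symm rfl hwa.symm (hwb ▸ hw) h5.1.1 h5.1.2 h5.2).trans
          (le_of_eq ?_)
        simp only [PhiE, cond_true, rr_add sc]
        ring
  · rw [Bool.and_eq_true, Nat.ble_eq] at hb
    refine ⟨_, _, _, rfl, le_rfl, le_rfl, fun _ _ q hq ι T x hU =>
      ⟨fun _ => ?_, fun h3 => absurd hb.1 (not_le.2 h3)⟩⟩
    refine (gain h hq hU hs hym.symm hwb.symm (hwa ▸ hw) rfl hb.1).trans (le_of_eq ?_)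
    simp only [PhiE, hU.uni, hU.ho, Nat.ble_eq.mpr hb.1, cond_true, cond_false, rr_add sg, gainC]
    ring

end Pool.Agent.MP_39fec4_gt.K
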