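import Pool.Agent.MP_39fec4_gt.YTail
import Pool.Agent.MP_39fec4_gt.FQb
import Pool.Agent.MP_39fec4_gt.FQg

set_option autoImplicit false

namespace Pool.Agent.MP_39fec4_gt.K

open Set MeasureTheory Full

variable {B : Blk} {Q : ℕ → ℕ → ℕ} {E : ℕ → ℕ} {q : ℝ} {ι : Type} {T : Finset ι}

namespace YDMX

/-- The constant of the bound for the second derivative far out. -/
def tc (B : Blk) : ℕ := divU (B.n1 + B.n3 / 2 + 1) B.mL + mulU B.be B.d1g + B.nr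

/-- The contribution of one cell. -/
def cw (Q : ℕ → ℕ → ℕ) (N s s' : ℕ) : ℕ :=
  pw2 N (gAB (rq Q (tS s / N) (tS s' / N + 1))) (gD1 (rq Q (tS s / N) (tS s' / N + 1)))
    (gD2 (rq Q (tS s / N) (tS s' / N + 1)))

theorem dM_ind {N : ℕ} {sch : List ℕ} (hM : dM B Q N sch < BIG) (Inv : ℕ → ℕ → Prop)
    (h0 : Inv 0 0) (hc : ∀ s s' a, s ≤ s' → tS s' / N + 1 ≤ 1152921504606846976 → Inv s a →
      Inv s' (a + mulU (cw Q N s s') (dS s s'))) :
    ∃ s e, Inv s e ∧ 3 ≤ N ∧ SS ≤ tS s / N ∧ farc B (tS s / N) < BIG ∧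
      dM B Q N sch = e + mulU (pw2 N (farc B (tS s / N)) B.d1g
        (mulU (tc B) (sqrtU (tS s / N + 1)))) (s <<< 34) := by
  obtain ⟨s, a, b, g, e, hI⟩ := sweep_ind sch (cellM Q N) (fun s e _ _ =>
    forceN (tS s / N) fun y => forceN (farc B y) fun f =>
    bif Nat.ble 3 N && Nat.ble SS y && Nat.blt f BIG && Nat.blt e BIG then
      forceN (e + mulU (pw2 N f B.d1g (mulU (divU (B.n1 + B.n3 / 2 + 1) B.mL + mulU B.be B.d1g + B.nr)
        (sqrtU (y + 1)))) (s <<< 34)) fun r => r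
    else BIG) (fun s a _ _ => a < BIG → Inv s a) (fun _ => h0) (fun s s' a b g kk hs hI => by
      refine ⟨_, b, g, by unfold cellM; rw [forceN_eq], fun hlt => ?_⟩
      cases hb : Nat.ble (tS s' / N + 1) 1152921504606846976 with
      | false =>
        rw [hb, cond_false] at hlt
        exact absurd hlt (lt_irrefl _)
      | true =>
        rw [hb, cond_true] at hlt
        rw [cond_true]
        exact hc s s' a hs (Nat.ble_eq ▸ hb) (hI (lt_of_le_of_lt (Nat.le_add_right _ _) hlt)))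
  have e' : dM B Q N sch = _ := e
  simp only [forceN_eq] at e'
  cases hb : (Nat.ble 3 N && Nat.ble SS (tS s / N) && Nat.blt (farc B (tS s / N)) BIG &&
      Nat.blt a BIG) with
  | false =>
    rw [hb, cond_false] at e'
    exact absurd (e' ▸ hM) (lt_irrefl _)
  | true =>
    rw [hb, cond_true] at e'
    simp only [Bool.and_eq_true, Nat.ble_eq, Nat.blt_eq] at hb
    exact ⟨s, a, hI hb.2, hb.1.1.1, hb.1.1.2, hb.1.2, e'⟩

theorem pw2_ge {k : ℕ} (hk : 1 ≤ k) (A a b : ℕ) :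
    (k : ℝ) * rr A ^ (k - 1) * rr b + k * (k - 1) * rr A ^ (k - 2) * rr a ^ 2 ≤
      rr (pw2 k A a b) := by
  unfold pw2
  rw [rr_add, rr_nmul, rr_nmul]
  have h1 : rr A ^ (k - 1) * rr b ≤ rr (mulU (powU A (k - 1)) b) :=
    le_mulU (powU_ge _ _) le_rfl (rr_nonneg _)
  have h2 : rr A ^ (k - 2) * rr a * rr a ≤ rr (mulU (mulU (powU A (k - 2)) a) a) :=
    le_mulU (le_mulU (powU_ge _ _) le_rfl (rr_nonneg _)) le_rfl (rr_nonneg _)
  have k0 : (0 : ℝ) ≤ k := Nat.cast_nonneg k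
  have k1 : (0 : ℝ) ≤ (k : ℝ) * (k - 1) := by
    have : (1 : ℝ) ≤ k := by exact_mod_cast hk
    exact mul_nonneg k0 (by linarith)
  have e : ((k * (k - 1) : ℕ) : ℝ) = (k : ℝ) * (k - 1) := by
    push_cast [Nat.cast_sub hk]
    ring
  rw [e]
  have h3 := mul_le_mul_of_nonneg_left h1 k0
  have h4 := mul_le_mul_of_nonneg_left h2 k1
  nlinarith

theorem d2_pow {f : ℝ → ℝ} {a b A0 A1 A2 : ℝ} (hf : D2 f 0 a b A0 A1 A2) {k : ℕ} (hk : 1 ≤ k)
    {M : ℝ} (hM : k * A0 ^ (k - 1) * A2 + k * (k - 1) * A0 ^ (k - 2) * A1 ^ 2 ≤ M) :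
    D2 (fun s => f s ^ k) 0 a b (A0 ^ k) (k * A0 ^ (k - 1) * A1) M := by
  have := hf.pow hk
  rw [mul_zero] at this
  exact this.mono le_rfl le_rfl hM

/-- The bound inside a cell. -/
theorem cell_D2 (h : BOK B Q E) {N : ℕ} (hN : 1 ≤ N) {q0 q1 : ℝ} (h0 : B.qa ≤ q0)
    (h1 : q1 ≤ B.qb) {s s' : ℕ} (hc : tS s' / N + 1 ≤ 1152921504606846976) {u : ℝ}
    (ha : sR s ≤ u) (hb : u ≤ sR s') : ∃ A0 A1 : ℝ,
    D2 (fun q => B.g 0 q (u ^ 2 / N) ^ N) 0 q0 q1 A0 A1 (rr (cw Q N s s')) := by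
  have hN0 : (0 : ℝ) < N := by exact_mod_cast hN
  obtain ⟨t1, t2⟩ := tS_mem ha hb
  have y0 : 0 ≤ u ^ 2 / N := by positivity
  have y1 : rr (tS s / N) ≤ u ^ 2 / N :=
    (rr_div_le _ _).trans (div_le_div_of_nonneg_right t1 hN0.le)
  have y2 : u ^ 2 / N ≤ rr (tS s' / N + 1) :=
    (div_le_div_of_nonneg_right t2 hN0.le).trans (rr_div_lt _ hN).le
  have y3 : u ^ 2 / N ≤ 2 ^ 20 := by
    refine y2.trans ((rr_le.2 hc).trans (le_of_eq ?_))
    unfold rr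
    norm_num
  exact ⟨_, _, d2_pow (d2_q h.sc h0 h1 y0 y3 fun q hq =>
    (h.qok.rq (tS s / N) (tS s' / N + 1)).pt q hq _ y0 y1 y2) hN (pw2_ge hN _ _ _)⟩

theorem gq2_far (hs : ScalOK B) (hq : q ∈ B.I) {v : ℝ} (hv : 1 ≤ v) :
    |gq2 B.C 0 q v| ≤ rr (tc B) * √v := by
  have hC := hs.C_pos
  have hp := (hs.q_pos hq).1
  have v0 : 0 ≤ v := by linarith
  have r1 : 1 ≤ √v := Real.one_le_sqrt.2 hv
  have r0 : 0 < √v := by linarith
  have r2 : √v ^ 2 = v := Real.sq_sqrt v0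
  have m0 : 0 < rr B.mL := rr_pos hs.mL0
  have a1 := nu_nonneg hC q
  have a3 := nu_nonneg hC (3 * q)
  have b1 := hs.n1 q hq
  have b3 := hs.n3 q hq
  have g2 : |GG2 B.C 0 q v - 0 * nu B.C q| ≤ (rr B.n1 + rr B.n3 / 2) * √v := by
    rw [zero_mul, sub_zero]
    refine (GG2_zero_a hC hp v0 r0).trans ?_
    rw [div_le_iff₀ (by positivity), r2]
    have e : (rr B.n1 + rr B.n3 / 2) * √v * (2 * √v) = (2 * rr B.n1 + rr B.n3) * v := by
      rw [← r2, Real.sqrt_sq r0.le]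
      ring
    rw [e]
    have c1 := mul_le_mul_of_nonneg_left b1 v0
    have c3 := mul_le_mul_of_nonneg_left b3 v0
    have c2 := mul_le_mul_of_nonneg_right hv a1
    nlinarith
  have k := abs_gq2_le hC hp 0 v 0 m0 (hs.hmu q hq).1 (hs.m1 q hq) b1 g2
  rw [sub_zero] at k
  have d1 := hs.d1g q hq v v0
  have d0 : |Full.gg B.C 0 q v| ≤ 1 := YSweepX.g_le hs hq v
  have e1 : (rr B.n1 + rr B.n3 / 2) / rr B.mL ≤ rr (divU (B.n1 + B.n3 / 2 + 1) B.mL) := by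
    refine le_divU hs.mL0 ?_ le_rfl
    have := rr_div_lt B.n3 (k := 2) (by norm_num)
    rw [add_assoc, rr_add]
    push_cast at this
    linarith
  have e2 : 2 * rr B.m1 / rr B.mL * |gq1 B.C 0 q v| ≤ rr (mulU B.be B.d1g) :=
    le_mulU hs.be d1 (abs_nonneg _)
  have e3 : rr B.n1 / rr B.mL * |Full.gg B.C 0 q v| ≤ rr B.nr := by
    have := mul_le_mul hs.nr d0 (abs_nonneg _) (rr_nonneg _)
    linarith
  have e4 : (rr B.n1 + rr B.n3 / 2) * √v / rr B.mL ≤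
      rr (divU (B.n1 + B.n3 / 2 + 1) B.mL) * √v := by
    rw [mul_div_right_comm]
    exact mul_le_mul_of_nonneg_right e1 r0.le
  unfold tc
  rw [rr_add, rr_add]
  have f2 := mul_le_mul_of_nonneg_left r1 (rr_nonneg (mulU B.be B.d1g))
  have f3 := mul_le_mul_of_nonneg_left r1 (rr_nonneg B.nr)
  nlinarith

theorem pow_far {f c : ℝ} (hf : 0 ≤ f) (hc : 1 ≤ c) {m : ℕ} (hm : 1 ≤ m) :
    (f / c ^ 3) ^ m ≤ f ^ m / c ^ 3 := by
  rw [div_pow]
  refine div_le_div_of_nonneg_left (by positivity) (by positivity) ?_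
  exact le_self_pow₀ (one_le_pow₀ hc) (by omega)

theorem far_alg {f a b c : ℝ} (hf : 0 ≤ f) (hb : 0 ≤ b) (hc : 1 ≤ c) {N : ℕ} (hN : 3 ≤ N) :
    (N : ℝ) * (f / c ^ 3) ^ (N - 1) * (b * c) + N * (N - 1) * (f / c ^ 3) ^ (N - 2) * a ^ 2 ≤
      (N * f ^ (N - 1) * b + N * (N - 1) * f ^ (N - 2) * a ^ 2) * (1 / c) ^ 2 := by
  have c0 : 0 < c := by linarith
  have n3 : (3 : ℝ) ≤ N := by exact_mod_cast hN
  have h1 : (f / c ^ 3) ^ (N - 1) * (b * c) ≤ f ^ (N - 1) * b * (1 / c) ^ 2 := by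
    refine (mul_le_mul_of_nonneg_right (pow_far hf hc (m := N - 1) (by omega))
      (by positivity)).trans (le_of_eq ?_)
    field_simp
  have h2 : (f / c ^ 3) ^ (N - 2) ≤ f ^ (N - 2) * (1 / c) ^ 2 := by
    refine (pow_far hf hc (m := N - 2) (by omega)).trans ?_
    rw [one_div, inv_pow, ← div_eq_mul_inv]
    exact div_le_div_of_nonneg_left (by positivity) (by positivity)
      (pow_le_pow_right₀ hc (by norm_num))
  have k0 : (0 : ℝ) ≤ N := by linarith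
  have k1 : (0 : ℝ) ≤ (N : ℝ) * (N - 1) * a ^ 2 :=
    mul_nonneg (mul_nonneg k0 (by linarith)) (sq_nonneg a)
  have h3 := mul_le_mul_of_nonneg_left h1 k0
  have h4 := mul_le_mul_of_nonneg_left h2 k1
  nlinarith

/-- The bound far out. -/
theorem tail_D2 (h : BOK B Q E) {N : ℕ} (hN : 3 ≤ N) {q0 q1 : ℝ} (h0 : B.qa ≤ q0)
    (h1 : q1 ≤ B.qb) {s : ℕ} (hy : SS ≤ tS s / N) (hf : farc B (tS s / N) < BIG) :
    0 < sR s ∧ ∀ u, sR s ≤ u → ∃ A0 A1 : ℝ,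
      D2 (fun q => B.g 0 q (u ^ 2 / N) ^ N) 0 q0 q1 A0 A1 (rr (pw2 N (farc B (tS s / N)) B.d1g
        (mulU (tc B) (sqrtU (tS s / N + 1)))) * (sR s / u) ^ 2) := by
  have hN1 : 1 ≤ N := by omega
  have hN0 : (0 : ℝ) < N := by exact_mod_cast hN1
  have y1 : 1 ≤ rr (tS s / N) := rr_SS ▸ rr_le.2 hy
  have y2 : rr (tS s / N) ≤ sR s ^ 2 / N := tS_eq s ▸ rr_div_le _ _
  have y3 : sR s ^ 2 / N ≤ rr (tS s / N + 1) := tS_eq s ▸ (rr_div_lt _ hN1).le
  have S0 : 0 < sR s := by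
    refine lt_of_le_of_ne (sR_nonneg s) fun e => ?_
    rw [← e] at y2
    norm_num at y2
    linarith
  refine ⟨S0, fun u hu => ?_⟩
  have c1 : 1 ≤ u / sR s := (one_le_div S0).2 hu
  have c0 : 0 ≤ u / sR s := by linarith
  have ev : u ^ 2 / N = sR s ^ 2 / N * (u / sR s) ^ 2 := by field_simp
  have v1 : rr (tS s / N) * (u / sR s) ^ 2 ≤ u ^ 2 / N :=
    ev ▸ mul_le_mul_of_nonneg_right y2 (sq_nonneg _)
  have v2 : 1 ≤ u ^ 2 / N :=
    (one_le_mul_of_one_le_of_one_le y1 (one_le_pow₀ c1)).trans v1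
  have v0 : 0 ≤ u ^ 2 / N := by positivity
  have v3 : √(u ^ 2 / N) ≤ rr (sqrtU (tS s / N + 1)) * (u / sR s) := by
    rw [ev, Real.sqrt_mul (by positivity), Real.sqrt_sq c0]
    exact mul_le_mul_of_nonneg_right ((Real.sqrt_le_sqrt y3).trans (sqrtU_ge _)) c0
  have hD : D2 (fun q => B.g 0 q (u ^ 2 / N)) 0 q0 q1 (rr (farc B (tS s / N)) / (u / sR s) ^ 3)
      (rr B.d1g) (rr (mulU (tc B) (sqrtU (tS s / N + 1))) * (u / sR s)) := by
    refine D2.of_deriv (f1 := fun q => gq1 B.C 0 q (u ^ 2 / N))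
      (f2 := fun q => gq2 B.C 0 q (u ^ 2 / N)) fun t ht => ?_
    have hI : t ∈ B.I := ⟨h0.trans ht.1, ht.2.trans h1⟩
    have hp := (h.sc.q_pos hI).1
    refine ⟨hasDerivAt_gg_q h.sc.C_pos hp v0 0, hasDerivAt_gq1_q h.sc.C_pos hp v0 0,
      h.far.fc _ hf t hI _ _ c1 v1, h.sc.d1g t hI _ v0, (gq2_far h.sc hI v2).trans ?_⟩
    refine (mul_le_mul_of_nonneg_left v3 (rr_nonneg _)).trans ?_
    rw [← mul_assoc]
    exact mul_le_mul_of_nonneg_right (mulU_ge _ _) c0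
  refine ⟨_, _, d2_pow hD hN1 ((far_alg (rr_nonneg _) (rr_nonneg _) c1 hN).trans ?_)⟩
  rw [one_div_div]
  exact mul_le_mul_of_nonneg_right (pw2_ge hN1 _ _ _) (sq_nonneg _)

end YDMX

open YDMX

theorem dM_three {N : ℕ} {sch : List ℕ} (hM : dM B Q N sch < BIG) : 3 ≤ N := by
  obtain ⟨_, _, _, h, _⟩ := dM_ind hM (fun _ _ => True) trivial fun _ _ _ _ _ _ => trivial
  exact h

/-- A linear inequality valid for all functions with bounded second derivative passes to the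
diagonal integral. -/
theorem dM_lin (h : BOK B Q E) {N : ℕ} {sch : List ℕ} (hM : dM B Q N sch < BIG) {q0 q1 : ℝ}
    (h0 : B.qa ≤ q0) (h1 : q1 ≤ B.qb) (p c : Fin 4 → ℝ) (hp : ∀ i, p i ∈ Icc q0 q1) {w : ℝ}
    (hw : 0 ≤ w) (hl : ∀ (f : ℝ → ℝ) (A0 A1 A2 : ℝ), D2 f 0 q0 q1 A0 A1 A2 → 0 ≤ A2 →
      ∑ i, c i * f (p i) ≤ w * A2) :
    ∑ i, c i * DG (B.g 0 (p i)) N ≤ w * rr (dM B Q N sch) := by
  have hN := dM_three hM
  have hN1 : 1 ≤ N := by omega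
  have hi : ∀ i, IntegrableOn (fun u : ℝ => c i * B.g 0 (p i) (u ^ 2 / N) ^ N) (Ioi 0) := fun i => by
    have hI : p i ∈ B.I := ⟨h0.trans (hp i).1, (hp i).2.trans h1⟩
    exact (int_DG h.sc.C_pos (h.sc.q_pos hI).1 (h.sc.q_pos hI).2 hN1).const_mul (c i)
  have hF : IntegrableOn (fun u : ℝ => ∑ i, c i * B.g 0 (p i) (u ^ 2 / N) ^ N) (Ioi 0) :=
    integrable_finsetSum _ fun i _ => hi i
  have e : ∑ i, c i * DG (B.g 0 (p i)) N =
      ∫ u in Ioi (0 : ℝ), ∑ i, c i * B.g 0 (p i) (u ^ 2 / N) ^ N := by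
    rw [integral_finsetSum _ fun i _ => hi i]
    simp only [integral_const_mul, DG]
  obtain ⟨s, a, hI, -, hy, hf, eM⟩ := dM_ind hM (fun s a =>
    ∫ u in (0 : ℝ)..sR s, ∑ i, c i * B.g 0 (p i) (u ^ 2 / N) ^ N ≤ w * rr a)
    (by simp [sR_zero, rr_zero]) (fun s s' a hs hc hI => by
      have k := cell_int (c0 := w * rr (cw Q N s s')) (c2 := 0) (c4 := 0) hF (sR_nonneg s)
        (sR_mono hs) fun u ha hb => by
          obtain ⟨A0, A1, hD⟩ := cell_D2 h hN1 h0 h1 hc ha hb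
          have := hl _ _ _ _ hD (rr_nonneg _)
          linarith
      rw [int_add hF (sR_nonneg s) (sR_mono hs), rr_add]
      have k2 := mul_le_mul_of_nonneg_left (mulU_ge (cw Q N s s') (dS s s')) hw
      rw [dS_eq hs] at k2
      nlinarith)
  obtain ⟨S0, ht⟩ := tail_D2 h hN h0 h1 hy hf
  have k := int_tail (A2 := w * rr (pw2 N (farc B (tS s / N)) B.d1g
    (mulU (tc B) (sqrtU (tS s / N + 1))))) (A3 := 0) S0 (int_split S0.le hF).2.1 fun u hu => by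
      obtain ⟨A0, A1, hD⟩ := ht u hu
      have := hl _ _ _ _ hD (mul_nonneg (rr_nonneg _) (sq_nonneg _))
      linarith
  rw [e, int_all hF S0.le, eM, rr_add]
  have k2 := mul_le_mul_of_nonneg_left (mulU_ge (pw2 N (farc B (tS s / N)) B.d1g
    (mulU (tc B) (sqrtU (tS s / N + 1)))) (s <<< 34)) hw
  rw [shl34] at k2
  nlinarith

theorem dM_ch (h : BOK B Q E) {N : ℕ} {sch : List ℕ} (hM : dM B Q N sch < BIG) {q0 q1 : ℝ}
    (h0 : B.qa ≤ q0) (h1 : q1 ≤ B.qb) (h01 : q0 ≤ q1) :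
    Ch (fun q => DG (B.g 0 q) N) q0 q1 (rr (dM B Q N sch) * (q1 - q0) ^ 2 / 8) ∧
      Ch (fun q => -DG (B.g 0 q) N) q0 q1 (rr (dM B Q N sch) * (q1 - q0) ^ 2 / 8) := by
  have hp : ∀ th : ℝ, 0 ≤ th → th ≤ 1 → ∀ i : Fin 4,
      ![(1 - th) * q0 + th * q1, q0, q1, q0] i ∈ Icc q0 q1 := fun th t0 t1 i => by
    have a1 := mul_nonneg t0 (sub_nonneg.2 h01)
    have a2 := mul_nonneg (sub_nonneg.2 t1) (sub_nonneg.2 h01)
    fin_cases i
    · exact ⟨by simp only [Fin.zero_eta, Matrix.cons_val_zero]; linarith,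
        by simp only [Fin.zero_eta, Matrix.cons_val_zero]; linarith⟩
    · exact left_mem_Icc.2 h01
    · exact right_mem_Icc.2 h01
    · exact left_mem_Icc.2 h01
  have hw : 0 ≤ (q1 - q0) ^ 2 / 8 := by positivity
  constructor
  · intro th t0 t1
    have k := dM_lin h hM h0 h1 _ ![1, -(1 - th), -th, 0] (hp th t0 t1) hw fun f A0 A1 A2 hD h2 => by
      have := (hD.ch h01 h2).1 th t0 t1
      simp only [Fin.sum_univ_four, Matrix.cons_val]
      linarith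
    simp only [Fin.sum_univ_four, Matrix.cons_val] at k
    simp only
    linarith
  · intro th t0 t1
    have k := dM_lin h hM h0 h1 _ ![-1, 1 - th, th, 0] (hp th t0 t1) hw fun f A0 A1 A2 hD h2 => by
      have := (hD.ch h01 h2).2 th t0 t1
      simp only [Fin.sum_univ_four, Matrix.cons_val] at this ⊢
      linarith
    simp only [Fin.sum_univ_four, Matrix.cons_val] at k
    simp only
    linarith

theorem dM_slope (h : BOK B Q E) {N : ℕ} {sch : List ℕ} (hM : dM B Q N sch < BIG) {q0 q1 : ℝ}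
    (h0 : B.qa ≤ q0) (h1 : q1 ≤ B.qb) (h01 : q0 < q1) {q q' : ℝ} (ha : q0 ≤ q) (hb : q ≤ q')
    (hc : q' ≤ q1) : (q' - q) * ((DG (B.g 0 q1) N - DG (B.g 0 q0) N) / (q1 - q0) -
      rr (dM B Q N sch) * (q1 - q0) / 2) ≤ DG (B.g 0 q') N - DG (B.g 0 q) N := by
  have hp : ∀ i : Fin 4, ![q1, q0, q', q] i ∈ Icc q0 q1 := fun i => by
    fin_cases i
    · exact right_mem_Icc.2 h01.le
    · exact left_mem_Icc.2 h01.le
    · exact ⟨ha.trans hb, hc⟩
    · exact ⟨ha, hb.trans hc⟩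
  have hw : 0 ≤ (q' - q) * (q1 - q0) / 2 :=
    div_nonneg (mul_nonneg (sub_nonneg.2 hb) (sub_nonneg.2 h01.le)) zero_le_two
  have e : ∀ a b M : ℝ, (q' - q) * ((a - b) / (q1 - q0) - M * (q1 - q0) / 2) =
      (q' - q) / (q1 - q0) * a - (q' - q) / (q1 - q0) * b - (q' - q) * (q1 - q0) / 2 * M :=
    fun a b M => by ring
  have k := dM_lin h hM h0 h1 _ ![(q' - q) / (q1 - q0), -((q' - q) / (q1 - q0)), -1, 1] hp hw
    fun f A0 A1 A2 hD _ => by
      have := hD.slope h01 ha hb hc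
      rw [e] at this
      simp only [Fin.sum_univ_four, Matrix.cons_val]
      linarith
  simp only [Fin.sum_univ_four, Matrix.cons_val] at k
  rw [e]
  linarith

theorem kM_D2 (hs : ScalOK B) {q0 q1 : ℝ} (h0 : B.qa ≤ q0) (h1 : q1 ≤ B.qb) :
    D2 (kap B.C) 0 q0 q1 (rr B.kh) (rr B.kh * rr B.tau) (rr (kM B)) := by
  have a0 : 0 < q0 := by
    refine lt_of_lt_of_le ?_ h0
    have : (128 : ℝ) ≤ B.m0 := by exact_mod_cast hs.a0
    unfold Blk.qa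
    linarith
  refine (kap_D2 (n := rr B.nr) hs.C_pos a0 fun t ht => ?_).mono le_rfl le_rfl ?_
  · have hI : t ∈ B.I := ⟨h0.trans ht.1, ht.2.trans h1⟩
    refine ⟨(hs.hkap t hI).2, hs.tau t hI, le_trans ?_ hs.nr⟩
    exact div_le_div₀ (rr_nonneg _) (hs.n1 t hI) (rr_pos hs.mL0) (hs.hmu t hI).1
  · refine le_mulU' le_rfl ?_ (rr_nonneg _)
    rw [rr_max, sq]
    exact max_le_max (mulU_ge _ _) le_rfl

end Pool.Agent.MP_39fec4_gt.K
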