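import Pool.Agent.MP_39fec4_gt.YDiag
import Pool.Agent.MP_39fec4_gt.YDM
import Pool.Agent.MP_39fec4_gt.FTwo

set_option autoImplicit false

namespace Pool.Agent.MP_39fec4_gt.K

open Set MeasureTheory Full

variable {B : Blk} {Q : ℕ → ℕ → ℕ} {E : ℕ → ℕ} {q : ℝ} {ι : Type} {T : Finset ι}

theorem gap_iff (hs : ScalOK B) (hq : q ∈ B.I) (n : ℕ) :
    (Bl (1 / q) ≤ Dg (1 / q) n ↔ kap B.C q ≤ DG (B.g 0 q) n) ∧
      (Bl (1 / q) < Dg (1 / q) n ↔ kap B.C q < DG (B.g 0 q) n) := by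
  obtain ⟨h0, h1⟩ := hs.q_pos hq
  have hm := FLinkX.mu_pos' hs.C_pos h0
  rw [Dg_eq_DG hs.C_pos h0 h1, Bl_eq_kap hs.C_pos h0]
  exact ⟨mul_le_mul_iff_right₀ hm, mul_lt_mul_iff_right₀ hm⟩

theorem thr_le {G : ℕ → ℕ} (hG : GamOK G) (h : BOK B Q E) {VV : ℕ → ℕ → ℕ} (hV : VVOK B VV)
    {c : Cls} {two : Bool} {v : ℕ} (hv : v < B.nv)
    (ok : two = true ∨ (dOK B c.N c.H1 c.M1 = true ∧ dAli B c.N c.H1 < BIG))
    (h0 : 0 < thr G B Q VV c two v) : rr (thr G B Q VV c two v) ≤ Th B c.N two (B.q v) := by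
  cases two with
  | true => exact kapL_le hG h.sc hv
  | false =>
    rcases ok with ok | ok
    · exact absurd ok (by simp)
    · exact dLo_le h (h.sc.q_mem hv) (hV v hv) ok.1 ok.2 h0

theorem thrM_ch (h : BOK B Q E) {c : Cls} {two : Bool} (hM : thrM B Q c two < BIG) {q0 q1 : ℝ}
    (h0 : B.qa ≤ q0) (h1 : q1 ≤ B.qb) (h01 : q0 ≤ q1) :
    Ch (fun q => -Th B c.N two q) q0 q1 (rr (thrM B Q c two) * (q1 - q0) ^ 2 / 8) := by
  cases two with
  | true => exact ((kM_D2 h.sc h0 h1).ch h01 (rr_nonneg _)).2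
  | false => exact (dM_ch h hM h0 h1 h01).2

namespace YCrossX

/-- The error term dominates the curvature error on one step. -/
theorem err_ge (hs : ScalOK B) (M K v : ℕ) :
    (rr M + rr K) * (B.q (v + 1) - B.q v) ^ 2 / 8 ≤ rr (mulU (M + K) ((B.st * B.st) <<< 13)) := by
  have e : rr ((B.st * B.st) <<< 13) = (B.q (v + 1) - B.q v) ^ 2 / 8 := by
    rw [hs.q_sub (Nat.le_succ v), rr_shl]
    unfold rr
    have : v + 1 - v = 1 := by omega
    rw [this]
    push_cast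
    ring
  have := mulU_ge (M + K) ((B.st * B.st) <<< 13)
  rw [e, rr_add] at this
  linarith

theorem step_pos (hs : ScalOK B) (v : ℕ) : B.q v < B.q (v + 1) := by
  have e := hs.q_sub (Nat.le_succ v)
  have h1 : v + 1 - v = 1 := by omega
  have h2 : (0 : ℝ) < B.st := by exact_mod_cast hs.st
  rw [h1, mul_one] at e
  have : (0 : ℝ) < (B.st : ℝ) / 4096 := by positivity
  linarith

/-- One step of the crossing check. -/
theorem step {G : ℕ → ℕ} (hG : GamOK G) (h : BOK B Q E) {VV : ℕ → ℕ → ℕ}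
    (hV : VVOK B VV) {c : Cls} {pos : Bool} (o1 : dOK B c.N c.H1 c.M1 = true)
    (o2 : dAli B c.N c.H1 < BIG) (o3 : dM B Q c.N c.schM < BIG) {v : ℕ} (hv : v + 1 < B.nv)
    (ok : crossT G B Q VV c pos v = true) :
    Cross c.N (B.q v) (B.q (v + 1)) ∧
      (pos = true → ∀ q ∈ Icc (B.q v) (B.q (v + 1)), Bl (1 / q) < Dg (1 / q) c.N) := by
  have hs := h.sc
  have hv0 : v < B.nv := by omega
  have m0 := hs.q_mem hv0
  have m1 := hs.q_mem hv
  have hlt := step_pos hs v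
  have hI : ∀ q ∈ Icc (B.q v) (B.q (v + 1)), q ∈ B.I := fun q hq =>
    ⟨m0.1.trans hq.1, hq.2.trans m1.2⟩
  have he := err_ge hs (dM B Q c.N c.schM) (kM B) v
  have c1 := dM_ch h o3 m0.1 m1.2 hlt.le
  have d2 := kM_D2 hs m0.1 m1.2
  have c2 := d2.ch hlt.le (rr_nonneg _)
  have l0 := fun h0 => dLo_le h m0 (hV v hv0) o1 o2 h0
  have l1 := fun h0 => dLo_le h m1 (hV (v + 1) hv) o1 o2 h0
  have u0 := dHi_ge h m0 (hV v hv0) o1
  have u1 := dHi_ge h m1 (hV (v + 1) hv) o1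
  have kl0 := kapL_le hG hs hv0
  have kl1 := kapL_le hG hs hv
  have kh0 := kapH_ge hG hs hv0
  have kh1 := kapH_ge hG hs hv
  have s1 := fun {q q' : ℝ} (ha : B.q v ≤ q) (hb : q ≤ q') (hc : q' ≤ B.q (v + 1)) =>
    dM_slope h o3 m0.1 m1.2 hlt ha hb hc
  have s2 := fun {q q' : ℝ} (ha : B.q v ≤ q) (hb : q ≤ q') (hc : q' ≤ B.q (v + 1)) =>
    (FCalcX.d2_neg d2).slope hlt ha hb hc
  unfold crossT at ok
  simp only [forceN_eq] at ok
  generalize mulU (dM B Q c.N c.schM + kM B) ((B.st * B.st) <<< 13) = e at ok he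
  generalize dLo B Q (VV v) c.N c.H1 c.M1 = l at ok l0
  generalize dLo B Q (VV (v + 1)) c.N c.H1 c.M1 = l' at ok l1
  generalize dHi B Q (VV v) c.N c.H1 c.M1 = u at ok u0
  generalize dHi B Q (VV (v + 1)) c.N c.H1 c.M1 = u' at ok u1
  generalize kapL G B v = a at ok kl0
  generalize kapL G B (v + 1) = a' at ok kl1
  generalize kapH G B v = b at ok kh0
  generalize kapH G B (v + 1) = b' at ok kh1
  generalize rr (dM B Q c.N c.schM) = M at he c1 s1
  generalize rr (kM B) = K at he c2 s2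
  simp only [Bool.and_eq_true, Bool.or_eq_true, Nat.blt_eq, Bool.not_eq_true'] at ok
  obtain ⟨hb, ok⟩ := ok
  have kh0 := kh0 (by omega)
  have kh1 := kh1 (by omega)
  rcases ok with ⟨p0, p1⟩ | ⟨hp, ok⟩
  · have l0 := l0 (by omega)
    have l1 := l1 (by omega)
    have p0 := rr_lt.2 p0
    have p1 := rr_lt.2 p1
    rw [rr_add] at p0 p1
    have key : ∀ q ∈ Icc (B.q v) (B.q (v + 1)), Bl (1 / q) < Dg (1 / q) c.N := by
      intro q hq
      rw [(gap_iff hs (hI q hq) c.N).2]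
      have := (c2.1.add c1.2).le_max hq
      have mx : max (kap B.C (B.q v) + -DG (B.g 0 (B.q v)) c.N)
          (kap B.C (B.q (v + 1)) + -DG (B.g 0 (B.q (v + 1))) c.N) < -rr e :=
        max_lt (by linarith) (by linarith)
      linarith
    exact ⟨fun q q' ha hb hc _ => key q' ⟨ha.trans hb.le, hc⟩, fun _ => key⟩
  refine ⟨?_, fun h => absurd (h.symm.trans hp) (by simp)⟩
  rcases ok with ⟨p0, p1⟩ | ⟨p0, p1⟩
  · have p0 := rr_lt.2 p0
    have p1 := rr_lt.2 p1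
    rw [rr_add] at p0 p1
    intro q q' ha hb hc hq
    have hq' : q ∈ Icc (B.q v) (B.q (v + 1)) := ⟨ha, hb.le.trans hc⟩
    rw [(gap_iff hs (hI q hq') c.N).1] at hq
    have := (c1.1.add c2.2).le_max hq'
    have mx : max (DG (B.g 0 (B.q v)) c.N + -kap B.C (B.q v))
        (DG (B.g 0 (B.q (v + 1))) c.N + -kap B.C (B.q (v + 1))) < -rr e :=
      max_lt (by linarith) (by linarith)
    exfalso
    linarith
  · have l1 := l1 p0
    have p1 := rr_lt.2 p1
    rw [rr_add, rr_add, rr_add, mul_comm 4 e, rr_muln] at p1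
    intro q q' ha hb hc hq
    have hq0 : q ∈ Icc (B.q v) (B.q (v + 1)) := ⟨ha, hb.le.trans hc⟩
    have hq1 : q' ∈ Icc (B.q v) (B.q (v + 1)) := ⟨ha.trans hb.le, hc⟩
    rw [(gap_iff hs (hI q hq0) c.N).1] at hq
    rw [(gap_iff hs (hI q' hq1) c.N).2]
    have t1 := s1 ha hb.le hc
    have t2 := s2 ha hb.le hc
    have hw : 0 < B.q (v + 1) - B.q v := sub_pos.2 hlt
    generalize B.q (v + 1) - B.q v = w at he t1 t2 hw
    have t3 : 0 < ((DG (B.g 0 (B.q (v + 1))) c.N - DG (B.g 0 (B.q v)) c.N) / w - M * w / 2) +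
        ((-kap B.C (B.q (v + 1)) - -kap B.C (B.q v)) / w - K * w / 2) := by
      have e1 : ((DG (B.g 0 (B.q (v + 1))) c.N - DG (B.g 0 (B.q v)) c.N) / w - M * w / 2) +
          ((-kap B.C (B.q (v + 1)) - -kap B.C (B.q v)) / w - K * w / 2) =
          ((DG (B.g 0 (B.q (v + 1))) c.N - DG (B.g 0 (B.q v)) c.N) +
            (-kap B.C (B.q (v + 1)) - -kap B.C (B.q v)) - 4 * ((M + K) * w ^ 2 / 8)) / w := by
        field_simp
        ring
      rw [e1]
      refine div_pos ?_ hw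
      push_cast at p1
      linarith
    have t4 := mul_pos (sub_pos.2 hb) t3
    rw [mul_add] at t4
    linarith

end YCrossX

theorem crossChk_sound {G : ℕ → ℕ} (hG : GamOK G) (h : BOK B Q E) {VV : ℕ → ℕ → ℕ}
    (hV : VVOK B VV) {c : Cls} {pos : Bool} (ok : crossChk G B Q VV c pos = true) :
    Cross c.N B.qa B.qb ∧ (pos = true → ∀ q ∈ B.I, Bl (1 / q) < Dg (1 / q) c.N) := by
  unfold crossChk at ok
  simp only [Bool.and_eq_true, Nat.blt_eq] at ok
  obtain ⟨⟨⟨o1, o2⟩, o3⟩, o4⟩ := ok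
  have st := fun v (hv : v + 1 < B.nv) =>
    YCrossX.step hG h hV o1 o2 o3 hv (all_rec o4 v (by omega))
  have key : ∀ k, k + 1 < B.nv → Cross c.N (B.q 0) (B.q (k + 1)) ∧
      (pos = true → ∀ q ∈ Icc (B.q 0) (B.q (k + 1)), Bl (1 / q) < Dg (1 / q) c.N) := by
    intro k
    induction k with
    | zero => exact st 0
    | succ k ih =>
      intro hk
      have i1 := ih (by omega)
      have i2 := st (k + 1) hk
      refine ⟨i1.1.trans i2.1, fun hp q hq => ?_⟩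
      rcases le_total q (B.q (k + 1)) with h1 | h1
      · exact i1.2 hp q ⟨hq.1, h1⟩
      · exact i2.2 hp q ⟨h1, hq.2⟩
  have hn := h.sc.nv
  have k1 := key (B.nv - 2) (by omega)
  have e : B.nv - 2 + 1 = B.nv - 1 := by omega
  rw [e, h.sc.q_ends.1, h.sc.q_ends.2] at k1
  exact k1

end Pool.Agent.MP_39fec4_gt.K
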