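import Pool.Agent.MP_39fec4_gt.ZArith

set_option autoImplicit false

/-! The grid of cells and range queries. -/

namespace Pool.Agent.MP_39fec4_gt.K

open Set Full

variable {B : Blk} {r : ℕ} {lo hi : ℝ}

namespace ZGridX

theorem Yb_eq (i : ℕ) : Yb i =
    if i < 272 then
      (if i < 80 then (if i < 32 then i * 137438953472 else (i - 16) * 274877906944)
        else (if i < 176 then (i - 48) * 549755813888 else (i - 144) * 2199023255552))
    else if i < 656 then
      (if i < 464 then (i - 208) * 4398046511104 else (i - 400) * 17592186044416)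
    else if i < 668 then
      (if i < 662 then (i - 654) * 2251799813685248 else (i - 660) * 9007199254740992)
    else if i < 674 then (i - 666) * 36028797018963968 else (i - 672) * 144115188075855872 := by
  simp only [Yb, Bool.cond_eq_ite, Nat.blt_eq, Nat.shiftLeft_eq, Nat.reducePow]

theorem cidx_eq (y : ℕ) : cidx y =
    if y < 70368744177664 then
      (if y < 4398046511104 then y / 137438953472
        else if y < 17592186044416 then y / 274877906944 + 16 else y / 549755813888 + 48)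
    else if y < 1125899906842624 then
      (if y < 281474976710656 then y / 2199023255552 + 144 else y / 4398046511104 + 208)
    else if y < 18014398509481984 then
      (if y < 4503599627370496 then y / 17592186044416 + 400 else y / 2251799813685248 + 654)
    else if y < 72057594037927936 then y / 9007199254740992 + 660
    else if y < 288230376151711744 then y / 36028797018963968 + 666
    else min (y / 144115188075855872 + 672) 680 := by
  simp only [cidx, Bool.cond_eq_ite, Nat.blt_eq, Nat.shiftRight_eq_div_pow, Nat.reducePow]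

theorem lv_zero (T : ℕ → ℕ) (i : ℕ) : lv T 0 i = T i := rfl

theorem lv_succ (T : ℕ → ℕ) (L i : ℕ) :
    lv T (L + 1) i = mrg (lv T L i) (lv T L (i + 2 ^ L)) := by
  have h : lv T (L + 1) i = forceN (lv T L i) fun a => forceN (i + (1 <<< L)) fun i' =>
      forceN (lv T L i') fun b => forceN (mrg a b) fun r => r := rfl
  rw [h]
  simp only [forceN_eq, Nat.one_shiftLeft]

theorem rr_floor {v : ℝ} (hv : 0 ≤ v) : ∃ n : ℕ, rr n ≤ v ∧ v < rr (n + 1) := by
  refine ⟨⌊v * 2 ^ 40⌋₊, ?_, ?_⟩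
  · unfold rr
    rw [div_le_iff₀ (by positivity)]
    exact Nat.floor_le (by positivity)
  · unfold rr
    rw [lt_div_iff₀ (by positivity)]
    push_cast
    exact Nat.lt_floor_add_one _

theorem rr_ceil {v : ℝ} (hv : 0 < v) : ∃ n : ℕ, rr n < v ∧ v ≤ rr (n + 1) := by
  have h0 : 0 < ⌈v * 2 ^ 40⌉₊ := Nat.ceil_pos.mpr (by positivity)
  obtain ⟨n, hn⟩ : ∃ n, ⌈v * 2 ^ 40⌉₊ = n + 1 := ⟨⌈v * 2 ^ 40⌉₊ - 1, by omega⟩
  refine ⟨n, ?_, ?_⟩
  · unfold rr
    rw [div_lt_iff₀ (by positivity)]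
    exact Nat.lt_ceil.mp (by omega)
  · unfold rr
    rw [le_div_iff₀ (by positivity), ← hn]
    exact Nat.le_ceil _

end ZGridX

open ZGridX

theorem Yb_zero : Yb 0 = 0 := rfl

theorem Yb_lt {i : ℕ} (h : i ≤ 680) : Yb i < Yb (i + 1) := by
  rw [Yb_eq, Yb_eq]
  split_ifs <;> omega

theorem Yb_mono {i j : ℕ} (h : i ≤ j) (hj : j ≤ 681) : Yb i ≤ Yb j := by
  induction j with
  | zero => rw [Nat.le_zero.mp h]
  | succ j ih =>
    rcases Nat.eq_or_lt_of_le h with h1 | h1
    · rw [h1]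
    · exact (ih (by omega) (by omega)).trans (Yb_lt (by omega)).le

theorem Yb_last : Yb 680 = 2 ^ 60 := by
  rw [Yb_eq]
  norm_num

theorem cidx_le (y : ℕ) : cidx y ≤ 680 := by
  rw [cidx_eq]
  split_ifs <;> omega

theorem ZGridX.Yb_cidx' (y : ℕ) :
    Yb (cidx y) ≤ y ∧ (cidx y < 680 → y < Yb (cidx y + 1)) := by
  have h := cidx_eq y
  generalize cidx y = c at h ⊢
  constructor
  · rw [Yb_eq]
    split_ifs at h <;> split_ifs <;> omega
  · intro hc
    rw [Yb_eq]
    split_ifs at h <;> split_ifs <;> omega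

theorem cidx_mono {y y' : ℕ} (h : y ≤ y') : cidx y ≤ cidx y' := by
  by_contra hc
  have h1 := (ZGridX.Yb_cidx' y).1
  have h3 := cidx_le y
  have h2 := (ZGridX.Yb_cidx' y').2 (by omega)
  have h4 : Yb (cidx y' + 1) ≤ Yb (cidx y) := Yb_mono (by omega) (by omega)
  omega

theorem Yb_cidx (y : ℕ) : Yb (cidx y) ≤ y ∧ (cidx y < 680 → y < Yb (cidx y + 1)) := ZGridX.Yb_cidx' y

theorem cidx_Yb {i : ℕ} (h : i ≤ 680) : cidx (Yb i) = i := by
  have h1 := (Yb_cidx (Yb i)).1
  have h2 := (Yb_cidx (Yb i)).2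
  have h3 := cidx_le (Yb i)
  rcases lt_trichotomy (cidx (Yb i)) i with hc | hc | hc
  · have h4 : Yb (cidx (Yb i) + 1) ≤ Yb i := Yb_mono (by omega) (by omega)
    have := h2 (by omega)
    omega
  · exact hc
  · have h4 : Yb (i + 1) ≤ Yb (cidx (Yb i)) := Yb_mono (by omega) (by omega)
    have := Yb_lt h
    omega

/-- Every real point lies in a half open cell. -/
theorem cell_of {v : ℝ} (hv : 0 ≤ v) : ∃ i, i ≤ 680 ∧ rr (Yb i) ≤ v ∧
    (i < 680 → v < rr (Yb (i + 1))) := by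
  obtain ⟨n, h1, h2⟩ := rr_floor hv
  refine ⟨cidx n, cidx_le n, (rr_le.mpr (Yb_cidx n).1).trans h1, fun hc => ?_⟩
  exact h2.trans_le (rr_le.mpr ((Yb_cidx n).2 hc))

theorem cell_of' {v : ℝ} (hv : 0 < v) : ∃ i, i ≤ 680 ∧ rr (Yb i) < v ∧
    (i < 680 → v ≤ rr (Yb (i + 1))) := by
  obtain ⟨n, h1, h2⟩ := rr_ceil hv
  refine ⟨cidx n, cidx_le n, (rr_le.mpr (Yb_cidx n).1).trans_lt h1, fun hc => ?_⟩
  exact h2.trans (rr_le.mpr ((Yb_cidx n).2 hc))

/-- A point of `[0, y]` lies in one of the closed cells up to `cidx (y - 1)`. -/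
theorem cell_le {v : ℝ} (hv : 0 ≤ v) {y : ℕ} (hy : v ≤ rr y) : ∃ i, i ≤ cidx (y - 1) ∧
    rr (Yb i) ≤ v ∧ (i < 680 → v ≤ rr (Yb (i + 1))) := by
  rcases hv.eq_or_lt with h0 | h0
  · refine ⟨0, Nat.zero_le _, ?_, fun _ => ?_⟩
    · rw [Yb_zero, rr_zero]
      exact hv
    · rw [← h0]
      exact rr_nonneg _
  · obtain ⟨i, hi, h1, h2⟩ := cell_of' h0
    refine ⟨i, ?_, h1.le, h2⟩
    have h3 : Yb i < y := rr_lt.mp (h1.trans_le hy)
    rw [← cidx_Yb hi]
    exact cidx_mono (by omega)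

theorem PtOK.mono {r' : ℕ} {q y : ℝ} (h : PtOK B r q y)
    (hr : ∀ i, i ≤ 9 → fld r 56 i ≤ fld r' 56 i) : PtOK B r' q y := by
  have hr' : ∀ i, i ≤ 9 → rr (fld r 56 i) ≤ rr (fld r' 56 i) := fun i hi => rr_le.mpr (hr i hi)
  have ho : ∀ i, i ≤ 9 → ro (fld r 56 i) ≤ ro (fld r' 56 i) := fun i hi => ro_le.mpr (hr i hi)
  refine ⟨(neg_le_neg (ho 0 (by omega))).trans h.lo, h.hi.trans (ho 1 (by omega)),
    h.k1.trans (hr' 2 (by omega)), (neg_le_neg (ho 3 (by omega))).trans h.k2l,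
    h.k2h.trans (ho 4 (by omega)), h.l1.trans (hr' 5 (by omega)), h.l2.trans (hr' 6 (by omega)),
    fun h1 h2 => ?_, h.d1.trans (hr' 8 (by omega)), fun h1 => (h.d2 h1).trans (hr' 9 (by omega))⟩
  exact (h.nc ((hr 7 (by omega)).trans_lt h1) h2).trans
    (mul_le_mul_of_nonneg_right (ho 7 (by omega)) (sq_nonneg _))

theorem RgOK.sub (h : RgOK B r lo hi) {lo' hi' : ℝ} (h1 : lo ≤ lo') (h2 : hi' ≤ hi) :
    RgOK B r lo' hi' :=
  ⟨fun q hq y h0 ha hb => h.pt q hq y h0 (h1.trans ha) (hb.trans h2),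
    fun y ha hb hy => h.pe y (h1.trans ha) (hb.trans_le h2) hy⟩

theorem RgOK.mono (h : RgOK B r lo hi) {r' : ℕ} (hr : ∀ i, i ≤ 10 → fld r 56 i ≤ fld r' 56 i) :
    RgOK B r' lo hi :=
  ⟨fun q hq y h0 ha hb => (h.pt q hq y h0 ha hb).mono fun i hi => hr i (by omega),
    fun y ha hb hy q hq V hV u h1 h2 =>
      (h.pe y ha hb hy q hq V hV u h1 h2).trans (rr_le.mpr (hr 10 le_rfl))⟩

theorem lv_ge (T : ℕ → ℕ) (L i : ℕ) {j k : ℕ} (h1 : i ≤ j) (h2 : j < i + 2 ^ L) (hk : k ≤ 10) :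
    fld (T j) 56 k ≤ fld (lv T L i) 56 k := by
  induction L generalizing i with
  | zero =>
    have : j = i := by omega
    rw [this, lv_zero]
  | succ L ih =>
    rw [lv_succ, mrg_fld _ _ hk]
    rw [pow_succ] at h2
    by_cases hj : j < i + 2 ^ L
    · exact (ih i h1 hj).trans (le_max_left _ _)
    · exact (ih (i + 2 ^ L) (by omega) (by omega)).trans (le_max_right _ _)

theorem rq2_ge (T : ℕ → ℕ) {ia ib j k : ℕ} (h1 : ia ≤ j) (h2 : j ≤ ib) (hk : k ≤ 10) :
    fld (T j) 56 k ≤ fld (rq2 (lv T) ia ib) 56 k := by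
  simp only [rq2, forceN_eq, Bool.cond_eq_ite, Nat.beq_eq, Nat.one_shiftLeft]
  split_ifs with h
  · have : j = ia := by omega
    rw [this, lv_zero]
  · have h0 : ib + 1 - ia ≠ 0 := by omega
    have h3 := Nat.log2_self_le h0
    have h4 := @Nat.lt_log2_self (ib + 1 - ia)
    generalize Nat.log2 (ib + 1 - ia) = L at h3 h4 ⊢
    rw [mrg_fld _ _ hk]
    rw [pow_succ] at h4
    by_cases hj : j < ia + 2 ^ L
    · exact (lv_ge T L ia h1 hj hk).trans (le_max_left _ _)
    · exact (lv_ge T L _ (by omega) (by omega) hk).trans (le_max_right _ _)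

/-- A record dominating the cells met by an interval is valid on it. -/
theorem ZGridX.rg_of {T : ℕ → ℕ} (h : TabOK B T) (a ib : ℕ) (hi : ℝ) (h0 : cidx a ≤ ib)
    (hib : ∀ y : ℕ, rr y < hi → cidx y ≤ ib) : RgOK B (rq2 (lv T) (cidx a) ib) (rr a) hi := by
  have key : ∀ j, j ≤ 680 → cidx a ≤ j → j ≤ ib → ∀ u : ℝ, (j < 680 → u ≤ rr (Yb (j + 1))) →
      RgOK B (rq2 (lv T) (cidx a) ib) (rr (Yb j)) u := by
    intro j hj h1 h2 u hu
    have hm : ∀ i, i ≤ 10 → fld (T j) 56 i ≤ fld (rq2 (lv T) (cidx a) ib) 56 i :=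
      fun i hi => rq2_ge T h1 h2 hi
    rcases hj.eq_or_lt with h3 | h3
    · subst h3
      exact (h.last u).mono hm
    · exact ((h.cell j h3).sub le_rfl (hu h3)).mono hm
  constructor
  · intro q hq y hy ha hb
    rcases ha.eq_or_lt with h1 | h1
    · refine (key (cidx a) (cidx_le a) le_rfl h0 y fun hc => ?_).pt q hq y hy ?_ le_rfl
      · rw [← h1]
        exact rr_le.mpr ((Yb_cidx a).2 hc).le
      · rw [← h1]
        exact rr_le.mpr (Yb_cidx a).1
    · obtain ⟨i, h2, h3, h4⟩ := cell_of' ((rr_nonneg a).trans_lt h1)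
      refine (key i h2 ?_ ?_ y h4).pt q hq y hy h3.le le_rfl
      · by_contra hc
        have h5 := cidx_le a
        have h6 : a < Yb (i + 1) := rr_lt.mp (h1.trans_le (h4 (by omega)))
        have h7 : Yb (i + 1) ≤ Yb (cidx a) := Yb_mono (by omega) (by omega)
        have h8 := (Yb_cidx a).1
        omega
      · rw [← cidx_Yb h2]
        exact hib _ (h3.trans_le hb)
  · intro y ha hb hy
    refine (key (cidx y) (cidx_le y) (cidx_mono (rr_le.mp ha)) (hib y hb) (rr (y + 1))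
      fun hc => rr_le.mpr ((Yb_cidx y).2 hc)).pe y (rr_le.mpr (Yb_cidx y).1)
      (rr_lt.mpr (Nat.lt_succ_self y)) hy

theorem qok_of {T : ℕ → ℕ} (h : TabOK B T) : QOK B (rq2 (lv T)) := by
  constructor
  · intro a b
    simp only [rq, forceN_eq]
    refine ZGridX.rg_of h a _ _ (le_max_left _ _) fun y hy => ?_
    have h1 : y < b := rr_lt.mp hy
    exact (cidx_mono (by omega)).trans (le_max_right _ _)
  · intro a hi
    simp only [rqI, forceN_eq]
    exact ZGridX.rg_of h a _ _ (cidx_le a) fun y _ => cidx_le y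

end Pool.Agent.MP_39fec4_gt.K
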