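import Pool.Agent.MP_39fec4_gt.ZEncl
import Pool.Agent.MP_39fec4_gt.ZFine
import Pool.Agent.MP_39fec4_gt.KExc

set_option autoImplicit false

/-! The versions with natural numbers agree with the versions with integers. -/

namespace Pool.Agent.MP_39fec4_gt.K

open Set Full

namespace ZFastBX

/-- The number `a` represents `c` modulo `2 ^ 288`, and `c` is bounded by `K`. -/
def Md (a : ℕ) (c K : ℤ) : Prop := (a : ℤ) ≡ c [ZMOD 2 ^ 288] ∧ |c| ≤ K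

/-- The number `a` is `c` plus the offset, and `c` is bounded by `K`. -/
def Of (a : ℕ) (c K : ℤ) : Prop := (a : ℤ) = c + OO ∧ -K ≤ c ∧ c ≤ K

theorem OO_eq : OO = 1267650600228229401496703205376 := rfl

theorem OFF_eq : OFF = 36028797018963968 := rfl

theorem OFV_eq : OFV = 140737488355328 := rfl

theorem SS_val : SS = 1099511627776 := rfl

theorem MM_eq : (MM : ℤ) = 2 ^ 288 := by decide +kernel

theorem Md.mul {a : ℕ} {c K : ℤ} (h : Md a c K) (k : ℕ) (k' K' : ℤ) (e : (k : ℤ) = k')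
    (hK : k' * K ≤ K') : Md (k * a) (k' * c) K' := by
  subst e
  refine ⟨?_, le_trans ?_ hK⟩
  · rw [Nat.cast_mul]
    exact h.1.mul_left _
  · rw [abs_mul, Nat.abs_cast]
    exact mul_le_mul_of_nonneg_left h.2 (Nat.cast_nonneg k)

theorem Md.mono {a : ℕ} {c K K' : ℤ} (h : Md a c K) (hK : K ≤ K') : Md a c K' :=
  ⟨h.1, h.2.trans hK⟩

theorem md_zero : Md 0 0 (2 ^ 53) := ⟨Int.ModEq.refl _, by norm_num⟩

theorem md_sub {a b : ℕ} {K : ℤ} (hb : b ≤ a + MM) (h : |(a : ℤ) - b| ≤ K) :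
    Md (a + MM - b) ((a : ℤ) - b) K := by
  refine ⟨?_, h⟩
  rw [Nat.cast_sub hb, Nat.cast_add, ← MM_eq]
  exact Int.modEq_iff_dvd.2 ⟨-1, by ring⟩

theorem step {x y e X Y E : ℤ} (hx : |x| ≤ X) (he : |e| ≤ E) (hy : |y| ≤ Y) (u : ℤ) (hu : 0 ≤ u) :
    |x * e + y * u| ≤ X * E + Y * u := by
  refine (abs_add_le _ _).trans ?_
  rw [abs_mul, abs_mul, abs_of_nonneg hu]
  exact add_le_add (mul_le_mul hx he (abs_nonneg _) ((abs_nonneg _).trans hx))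
    (mul_le_mul_of_nonneg_right hy hu)

theorem pol_bd {c0 c1 c2 c3 c4 e : ℤ} (b0 : |c0| ≤ 2 ^ 53) (b1 : |c1| ≤ 2 ^ 53)
    (b2 : |c2| ≤ 2 ^ 53) (b3 : |c3| ≤ 2 ^ 53) (b4 : |c4| ≤ 2 ^ 53) (be : |e| ≤ 2 ^ 43) :
    |(((c4 * e + c3 * 1099511627776) * e + c2 * 1208925819614629174706176) * e +
      c1 * 1329227995784915872903807060280344576) * e +
      c0 * 1461501637330902918203684832716283019655932542976| ≤ 2 ^ 226 :=
  (step (step (step (step b4 be b3 _ (by norm_num)) be b2 _ (by norm_num)) be b1 _ (by norm_num))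
    be b0 _ (by norm_num)).trans (by norm_num)

theorem mask {n s t O : ℕ} {p P : ℤ} (h : (n : ℤ) ≡ p [ZMOD 2 ^ 288]) (hP : P = p * 2 ^ t)
    (hb : |P| ≤ 2 ^ 226) (hst : s + t = 160) (hO : O = 2 ^ s * OO) :
    Of (((n + O) &&&
      497323236409786642155382248146820840100456150797347717440463976893159497012533375533055) >>> s)
      (Int.shiftRight P 160) (2 ^ 66) := by
  have e1 : (497323236409786642155382248146820840100456150797347717440463976893159497012533375533055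
      : ℕ) = 2 ^ 288 - 1 := by decide +kernel
  have e0 : (2 : ℤ) ^ 288 = 2 ^ 160 * 2 ^ 128 := pow_add 2 160 128
  have e2 : (2 : ℤ) ^ 160 = 2 ^ s * 2 ^ t := by rw [← pow_add, hst]
  have hX : (0 : ℤ) < 2 ^ s := by positivity
  have hY : (0 : ℤ) < 2 ^ t := by positivity
  have hX' : (2 : ℤ) ^ s ≤ 2 ^ 160 := pow_le_pow_right₀ one_le_two (by omega)
  have e3 : Int.shiftRight P 160 = p / 2 ^ s := by
    rw [show Int.shiftRight P 160 = P >>> (160 : ℕ) from rfl, Int.shiftRight_eq_div_pow,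
      Nat.cast_pow, Nat.cast_ofNat, hP, e2, Int.mul_ediv_mul_of_pos_left _ _ hY]
  have hp : |p| ≤ 2 ^ 66 * 2 ^ s := by
    refine le_of_mul_le_mul_right ?_ hY
    rw [mul_assoc, ← e2, ← pow_add]
    rwa [hP, abs_mul, abs_of_pos hY] at hb
  rw [abs_le] at hp
  have hO' : (O : ℤ) = 2 ^ s * 1267650600228229401496703205376 := by
    rw [hO, OO_eq]
    push_cast
    rfl
  have e4 : ((n + O : ℕ) : ℤ) % 2 ^ 288 = p + 2 ^ s * OO := by
    rw [Nat.cast_add, (h.add_right _).eq, hO', OO_eq, Nat.cast_ofNat]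
    generalize (2 : ℤ) ^ s = X at *
    exact Int.emod_eq_of_lt (by linarith [hp.1]) (by rw [e0]; linarith [hp.2])
  rw [e3]
  refine ⟨?_, ?_, ?_⟩
  · rw [e1, Nat.and_two_pow_sub_one_eq_mod, Nat.shiftRight_eq_div_pow, Int.natCast_div,
      Int.natCast_mod, Nat.cast_pow, Nat.cast_pow, Nat.cast_ofNat, e4,
      Int.add_mul_ediv_left _ _ hX.ne']
  · exact Int.le_ediv_of_mul_le hX (by linarith [hp.1])
  · exact Int.ediv_le_of_le_mul hX hp.2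

theorem shl {a : ℕ} {c K : ℤ} (h : Md a c K) (k : ℕ) (u : ℤ) (e : u = 2 ^ k) :
    ((a <<< k : ℕ) : ℤ) ≡ c * u [ZMOD 2 ^ 288] := by
  rw [Nat.shiftLeft_eq, Nat.cast_mul, Nat.cast_pow, Nat.cast_ofNat, e]
  exact h.1.mul_right _

theorem stepM {x d y : ℕ} {x' e y' : ℤ} (hx : (x : ℤ) ≡ x' [ZMOD 2 ^ 288]) {K : ℤ} (hd : Md d e K)
    (hy : (y : ℤ) ≡ y' [ZMOD 2 ^ 288]) : ((x * d + y : ℕ) : ℤ) ≡ x' * e + y' [ZMOD 2 ^ 288] := by
  rw [Nat.cast_add, Nat.cast_mul]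
  exact (hx.mul hd.1).add hy

variable {a0 a1 a2 a3 a4 d : ℕ} {c0 c1 c2 c3 c4 e : ℤ}

theorem hor4N_eq (h0 : Md a0 c0 (2 ^ 53)) (h1 : Md a1 c1 (2 ^ 53)) (h2 : Md a2 c2 (2 ^ 53))
    (h3 : Md a3 c3 (2 ^ 53)) (h4 : Md a4 c4 (2 ^ 53)) (hd : Md d e (2 ^ 43)) :
    Of (hor4N a0 a1 a2 a3 a4 d) (hor4 c0 c1 c2 c3 c4 e) (2 ^ 66) :=
  mask (t := 0) (stepM (stepM (stepM (stepM h4.1 hd (shl h3 40 1099511627776 (by norm_num))) hd
    (shl h2 80 1208925819614629174706176 (by norm_num))) hd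
    (shl h1 120 1329227995784915872903807060280344576 (by norm_num))) hd
    (shl h0 160 1461501637330902918203684832716283019655932542976 (by norm_num)))
    (by rw [pow_zero, mul_one]) (pol_bd h0.2 h1.2 h2.2 h3.2 h4.2 hd.2) rfl
    (by rw [OO_eq]; norm_num)

theorem hor3N_eq (h0 : Md a0 c0 (2 ^ 53)) (h1 : Md a1 c1 (2 ^ 53)) (h2 : Md a2 c2 (2 ^ 53))
    (h3 : Md a3 c3 (2 ^ 53)) (hd : Md d e (2 ^ 43)) :
    Of (hor3N a0 a1 a2 a3 d) (hor4 c0 c1 c2 c3 0 e) (2 ^ 66) :=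
  mask (t := 40) (stepM (stepM (stepM h3.1 hd (shl h2 40 1099511627776 (by norm_num))) hd
    (shl h1 80 1208925819614629174706176 (by norm_num))) hd
    (shl h0 120 1329227995784915872903807060280344576 (by norm_num)))
    (by ring) (pol_bd h0.2 h1.2 h2.2 h3.2 md_zero.2 hd.2) rfl (by rw [OO_eq]; norm_num)

theorem hor2N_eq (h0 : Md a0 c0 (2 ^ 53)) (h1 : Md a1 c1 (2 ^ 53)) (h2 : Md a2 c2 (2 ^ 53))
    (hd : Md d e (2 ^ 43)) : Of (hor2N a0 a1 a2 d) (hor4 c0 c1 c2 0 0 e) (2 ^ 66) :=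
  mask (t := 80) (stepM (stepM h2.1 hd (shl h1 40 1099511627776 (by norm_num))) hd
    (shl h0 80 1208925819614629174706176 (by norm_num)))
    (by ring) (pol_bd h0.2 h1.2 h2.2 md_zero.2 md_zero.2 hd.2) rfl (by rw [OO_eq]; norm_num)

theorem hor1N_eq (h0 : Md a0 c0 (2 ^ 53)) (h1 : Md a1 c1 (2 ^ 53)) (hd : Md d e (2 ^ 43)) :
    Of (hor1N a0 a1 d) (hor4 c0 c1 0 0 0 e) (2 ^ 66) :=
  mask (t := 120) (stepM h1.1 hd (shl h0 40 1099511627776 (by norm_num)))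
    (by ring) (pol_bd h0.2 h1.2 md_zero.2 md_zero.2 md_zero.2 hd.2) rfl (by rw [OO_eq]; norm_num)

theorem fld48 (r j : ℕ) : fld r 48 j < 281474976710656 := fld_lt r 48 j

theorem vcoN_md (r j : ℕ) : Md (vcoN r j) (vco r j) (2 ^ 48) := by
  have h := fld48 r j
  rw [vcoN, vco, Int.subNatNat_eq_coe, OFV_eq]
  refine ⟨Int.modEq_iff_dvd.2 ⟨-1, ?_⟩, ?_⟩
  · rw [← MM_eq, MM]
    push_cast
    ring
  · rw [abs_le]
    omega

theorem vhw_bd (y : ℕ) : vhw y ≤ 8796093022208 := by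
  rw [ZVertX.vhw_eq]
  rcases ZVertX.band_cases y with a | a | a | a | a | a <;>
    simp only [a, Nat.reduceAdd, Nat.reducePow] <;> omega

theorem md_off {y0 y : ℕ} (h0 : y0 ≤ y) (h1 : y ≤ vctr y0 + vhw y0) :
    Md (y + MM - vctr y0) (Int.subNatNat y (vctr y0)) (2 ^ 43) := by
  have a := vhw_le y0
  have b := vhw_bd y0
  have c : 8796093022208 ≤ MM := by decide
  rw [Int.subNatNat_eq_coe]
  refine md_sub (by omega) ?_
  rw [abs_le]
  omega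

theorem Of.abs {a : ℕ} {c K : ℤ} (h : Of a c K) : absO a = absI c ∧ (absI c : ℤ) ≤ K := by
  obtain ⟨h1, h2, h3⟩ := h
  unfold absO absI
  omega

theorem Of.mul {a lam : ℕ} {c K : ℤ} (h : Of a c K) (hl : lam ≤ SS) :
    Of (mulO lam a) (mulI lam c) K := by
  obtain ⟨h1, h2, h3⟩ := h
  have e : mulI lam c = lam * c / 2 ^ 40 := by
    rw [mulI, show Int.shiftRight (lam * c) 40 = (lam * c) >>> (40 : ℕ) from rfl,
      Int.shiftRight_eq_div_pow, Nat.cast_pow, Nat.cast_ofNat]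
  have l0 : (0 : ℤ) ≤ lam := Nat.cast_nonneg _
  have l1 : (lam : ℤ) ≤ 2 ^ 40 := by exact_mod_cast SS_eq ▸ hl
  have hX : (0 : ℤ) < 2 ^ 40 := by positivity
  rw [e]
  refine ⟨?_, Int.le_ediv_of_mul_le hX (by nlinarith), Int.ediv_le_of_le_mul hX (by nlinarith)⟩
  rw [mulO, Nat.shiftRight_eq_div_pow, Int.natCast_div, Nat.cast_add, Nat.cast_mul, Nat.cast_mul,
    Nat.cast_sub hl, h1, SS_eq, Nat.cast_pow, Nat.cast_ofNat, ← Int.add_mul_ediv_left _ _ hX.ne']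
  congr 1
  ring

theorem Of.add {a b : ℕ} {c c' K K' : ℤ} (h : Of a c K) (h' : Of b c' K') (hK : K + K' ≤ 2 ^ 90) :
    Of (a + b - OO) (c + c') (K + K') := by
  obtain ⟨h1, h2, h3⟩ := h
  obtain ⟨h4, h5, h6⟩ := h'
  have := OO_eq
  unfold Of
  omega

theorem Of.lo {a b x : ℕ} {c c' K : ℤ} (h : Of a c K) (h' : Of b c' K) (hK : K ≤ 2 ^ 90)
    (hx : x ≤ 2 ^ 90) : ((min a b - x : ℕ) : ℤ) = min c c' - x + OO := by
  obtain ⟨h1, h2, h3⟩ := h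
  obtain ⟨h4, h5, h6⟩ := h'
  have := OO_eq
  omega

theorem Of.hi {a b : ℕ} {c c' K : ℤ} (h : Of a c K) (h' : Of b c' K) (x : ℕ) :
    ((max a b + x : ℕ) : ℤ) = max c c' + x + OO := by
  obtain ⟨h1, h2, h3⟩ := h
  obtain ⟨h4, h5, h6⟩ := h'
  omega

theorem mulU_lam {lam : ℕ} (hl : lam ≤ SS) (x : ℕ) : mulU lam x ≤ x + 1 := by
  refine (mulU_mono hl le_rfl).trans (le_of_eq ?_)
  rw [mulU, Nat.shiftRight_eq_div_pow, SS_eq, Nat.mul_div_cancel_left _ (by positivity)]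

theorem mulU_hh {p hh : ℕ} (hp : p ≤ 2 ^ 74) (h : hh ≤ 2 ^ 46) : mulU p hh ≤ 2 ^ 80 + 1 :=
  (mulU_mono hp h).trans (by decide)

theorem nums {p4 hh lam s t u v p3 x2 p2 x0 x1 y1 y2 : ℕ} (b4 : p4 ≤ 2 ^ 53) (hb : hh ≤ 2 ^ 46)
    (hl : lam ≤ SS) (hs : (s : ℤ) ≤ 2 ^ 66) (ht : (t : ℤ) ≤ 2 ^ 66) (hu : (u : ℤ) ≤ 2 ^ 66)
    (hv : (v : ℤ) ≤ 2 ^ 66) (hp3 : p3 = max s t + 1) (hx2 : x2 = mulU p4 hh + 1)
    (hp2 : p2 = max u v + x2) (hx0 : x0 = mulU p2 hh + 1) (hx1 : x1 = mulU p3 hh + 1)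
    (hy1 : y1 = x1 + mulU lam x0 + 1)
    (hy2 : y2 = x2 + 2 * mulU lam x1 + mulU lam (mulU lam x0) + 4) :
    x0 ≤ 2 ^ 90 ∧ x2 ≤ 2 ^ 90 ∧ y1 ≤ 2 ^ 90 ∧ y2 ≤ 2 ^ 90 := by
  have c2 : mulU p4 hh ≤ 2 ^ 59 + 1 := (mulU_mono b4 hb).trans (by decide)
  have q0 := mulU_hh (p := p2) (by omega) hb
  have q1 := mulU_hh (p := p3) (by omega) hb
  have q2 := mulU_lam hl x0
  have q3 := mulU_lam hl x1
  have q4 := mulU_lam hl (mulU lam x0)
  omega

theorem fN {α : Type} {n m : ℕ} {f g : ℕ → α} (h : n = m) (hf : ∀ x, x = n → f x = g x) :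
    forceN n f = forceN m g := by
  rw [forceN_eq, forceN_eq, ← h]
  exact hf n rfl

theorem fI {α : Type} {n : ℕ} {z : ℤ} {f : ℕ → α} {g : ℤ → α} (P : ℕ → ℤ → Prop) (h : P n z)
    (hf : ∀ x w, P x w → f x = g w) : forceN n f = forceI z g := by
  rw [forceN_eq, forceI_eq]
  exact hf n z h

theorem enclN_eq {α : Type} {p4 d0 d1 hh lam : ℕ} {e0 e1 : ℤ} (h0 : Md a0 c0 (2 ^ 48))
    (h1 : Md a1 c1 (2 ^ 48)) (h2 : Md a2 c2 (2 ^ 48)) (h3 : Md a3 c3 (2 ^ 48))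
    (h4 : Md a4 c4 (2 ^ 48)) (hp : p4 = absI (24 * c4)) (g0 : Md d0 e0 (2 ^ 43))
    (g1 : Md d1 e1 (2 ^ 43)) (hb : hh ≤ 2 ^ 46) (hl : lam ≤ SS)
    {kN : ℕ → ℕ → ℕ → ℕ → ℕ → ℕ → ℕ → ℕ → ℕ → α} {k : ℤ → ℤ → ℕ → ℤ → ℤ → ℤ → ℤ → ℤ → ℤ → α}
    (hk : ∀ (n0 n1 m n3 n4 n5 n6 n7 n8 : ℕ) (z0 z1 z3 z4 z5 z6 z7 z8 : ℤ), (n0 : ℤ) = z0 + OO →
      (n1 : ℤ) = z1 + OO → (n3 : ℤ) = z3 + OO → (n4 : ℤ) = z4 + OO → (n5 : ℤ) = z5 + OO →
      (n6 : ℤ) = z6 + OO → (n7 : ℤ) = z7 + OO → (n8 : ℤ) = z8 + OO →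
      kN n0 n1 m n3 n4 n5 n6 n7 n8 = k z0 z1 m z3 z4 z5 z6 z7 z8) :
    enclN a0 a1 a2 a3 a4 p4 d0 d1 hh lam kN = encl c0 c1 c2 c3 c4 e0 e1 hh lam k := by
  have m : (2 : ℤ) ^ 48 ≤ 2 ^ 53 := by norm_num
  have k2 := h2.mul 2 2 (2 ^ 53) rfl (by norm_num)
  have k3 := h3.mul 3 3 (2 ^ 53) rfl (by norm_num)
  have k4 := h4.mul 4 4 (2 ^ 53) rfl (by norm_num)
  have k6 := h3.mul 6 6 (2 ^ 53) rfl (by norm_num)
  have k12 := h4.mul 12 12 (2 ^ 53) rfl (by norm_num)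
  have k24 := h4.mul 24 24 (2 ^ 53) rfl (by norm_num)
  have b4 : p4 ≤ 2 ^ 53 := by
    have := abs_le.1 k24.2
    rw [hp, absI]
    omega
  have w0 := (hor1N_eq k6 k24 g0).abs
  have w1 := (hor1N_eq k6 k24 g1).abs
  unfold enclN encl
  refine fI (Of · · (2 ^ 66)) (hor4N_eq (h0.mono m) (h1.mono m) (h2.mono m) (h3.mono m)
    (h4.mono m) g0) fun u0 u0' hu0 => ?_
  refine fI (Of · · (2 ^ 66)) (hor4N_eq (h0.mono m) (h1.mono m) (h2.mono m) (h3.mono m)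
    (h4.mono m) g1) fun v0 v0' hv0 => ?_
  refine fI (Of · · (2 ^ 66)) (hor3N_eq (h1.mono m) k2 k3 k4 g0) fun u1 u1' hu1 => ?_
  refine fI (Of · · (2 ^ 66)) (hor3N_eq (h1.mono m) k2 k3 k4 g1) fun v1 v1' hv1 => ?_
  refine fI (Of · · (2 ^ 66)) (hor2N_eq k2 k6 k12 g0) fun u2 u2' hu2 => ?_
  refine fI (Of · · (2 ^ 66)) (hor2N_eq k2 k6 k12 g1) fun v2 v2' hv2 => ?_
  rw [← hp]
  refine Eq.trans ?_ (forceN_eq _ _).symm
  refine fN (by rw [w0.1, w1.1]) fun p3 hp3 => ?_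
  refine fN rfl fun x2 hx2 => ?_
  refine fN (by rw [hu2.abs.1, hv2.abs.1]) fun p2 hp2 => ?_
  refine fN rfl fun x0 hx0 => fN rfl fun x1 hx1 => fN rfl fun y1 hy1 => fN rfl fun y2 hy2 => ?_
  rw [w0.1, w1.1] at hp3
  rw [hu2.abs.1, hv2.abs.1] at hp2
  obtain ⟨q0, q1, q2, q3⟩ := nums b4 hb hl w0.2 w1.2 hu2.abs.2 hv2.abs.2 hp3 hx2 hp2 hx0 hx1 hy1 hy2
  refine fI (Of · · (2 ^ 66 + 2 ^ 66)) (hu1.add (hu0.mul hl) (by norm_num)) fun s1 s1' hs1 => ?_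
  refine fI (Of · · (2 ^ 66 + 2 ^ 66)) (hv1.add (hv0.mul hl) (by norm_num)) fun t1 t1' ht1 => ?_
  refine fI (Of · · (2 ^ 66 + (2 ^ 66 + (2 ^ 66 + 2 ^ 66))))
    (hu2.add ((hu1.add hs1 (by norm_num)).mul hl) (by norm_num)) fun s2 s2' hs2 => ?_
  refine fI (Of · · (2 ^ 66 + (2 ^ 66 + (2 ^ 66 + 2 ^ 66))))
    (hv2.add ((hv1.add ht1 (by norm_num)).mul hl) (by norm_num)) fun t2 t2' ht2 => ?_
  rw [hu1.abs.1, hv1.abs.1]
  exact hk _ _ _ _ _ _ _ _ _ _ _ _ _ _ _ _ _ (hu0.lo hv0 (by norm_num) q0) (hu0.hi hv0 _)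
    (hu2.lo hv2 (by norm_num) q1) (hu2.hi hv2 _) (hs1.lo ht1 (by norm_num) q2)
    (hs1.hi ht1 _) (hs2.lo ht2 (by norm_num) q3) (hs2.hi ht2 _)

theorem md_dif (r s j : ℕ) : Md (fld r 48 j + MM - fld s 48 j) (vco r j - vco s j) (2 ^ 48) := by
  have a := fld48 r j
  have b := fld48 s j
  have c : 281474976710656 ≤ MM := by decide
  rw [show vco r j - vco s j = (fld r 48 j : ℤ) - fld s 48 j by
    rw [vco, vco, Int.subNatNat_eq_coe, Int.subNatNat_eq_coe]; ring]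
  refine md_sub (by omega) ?_
  rw [abs_le]
  omega

theorem p4_vco (r : ℕ) : 24 * dist (fld r 48 4) OFV = absI (24 * vco r 4) := by
  rw [dist, absI, vco, Int.subNatNat_eq_coe]
  omega

theorem p4_dif (r s : ℕ) :
    24 * dist (fld r 48 4) (fld s 48 4) = absI (24 * (vco r 4 - vco s 4)) := by
  rw [dist, absI, vco, vco, Int.subNatNat_eq_coe, Int.subNatNat_eq_coe]
  omega

theorem posO {a : ℕ} {c : ℤ} (h : (a : ℤ) = c + OO) : a - OO = posI c := by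
  unfold posI
  omega

theorem negO {a : ℕ} {c : ℤ} (h : (a : ℤ) = c + OO) : OO - a = negI c := by
  unfold negI
  omega

theorem ncf_eq (lo hi l1 l2 : ℤ) :
    ncfN (posI lo) (posI hi) (negI l1) (posI l2) (negI l2) = ncf lo hi l1 l2 := rfl

end ZFastBX

open ZFastBX

theorem pevN_eq (V : ℕ → ℕ) (y : ℕ) : pevN V y = ofs (pev V y) := by
  have m : (2 : ℤ) ^ 48 ≤ 2 ^ 53 := by norm_num
  have h := hor4N_eq ((vcoN_md (V (vidx y)) 0).mono m) ((vcoN_md (V (vidx y)) 1).mono m)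
    ((vcoN_md (V (vidx y)) 2).mono m) ((vcoN_md (V (vidx y)) 3).mono m)
    ((vcoN_md (V (vidx y)) 4).mono m) (md_off le_rfl (vhw_le y).2.2.le)
  have e1 : pevN V y = hor4N (vcoN (V (vidx y)) 0) (vcoN (V (vidx y)) 1) (vcoN (V (vidx y)) 2)
      (vcoN (V (vidx y)) 3) (vcoN (V (vidx y)) 4) (y + MM - vctr y) - (OO - OFF) := by
    simp only [pevN, vidx, vctr, forceN_eq]
  have e2 : pev V y = pol0 (V (vidx y)) (Int.subNatNat y (vctr y)) := by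
    simp only [pev, forceN_eq, forceI_eq]
  rw [e1, e2, pol0_eq, ofs]
  have a := h.1
  have b := OO_eq
  have c := OFF_eq
  omega

theorem fineN_eq : fineN = fine := by
  funext B Va Vb r a b
  unfold fineN fine
  simp only [forceN_eq, forceI_eq, pevN_eq]
  have h := fld_lt r 56 0
  have c := OFF_eq
  generalize gPe r + mulU (gD2 r) ((B.dm * B.dm) <<< 13) +
    mulU (gK2 r) (mulU (b - a) (b - a)) / 8 + 1 = e
  generalize pev Va a = u1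
  generalize pev Va b = u2
  generalize pev Vb a = u3
  generalize pev Vb b = u4
  have e1 : min (fld r 56 0) (2 * OFF - min (min (ofs u1) (ofs u2)) (min (ofs u3) (ofs u4)) + e) =
      min (fld r 56 0) (ofs (-(min (min u1 u2) (min u3 u4))) + e) := by
    unfold ofs
    omega
  have e2 : max (max (ofs u1) (ofs u2)) (max (ofs u3) (ofs u4)) =
      ofs (max (max u1 u2) (max u3 u4)) := by
    unfold ofs
    omega
  rw [e1, e2]

/-- The error bound holds for the clamped value too. -/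
theorem PeOK.pevN {B : Blk} (hs : ScalOK B) {e y : ℕ} (h : PeOK B e y) {q : ℝ} (hq : q ∈ B.I)
    {V : ℕ → ℕ} (hV : VOK B.C q V B.Yp) {u : ℝ} (h1 : rr y ≤ u) (h2 : u ≤ rr (y + 1)) :
    |B.g 0 q u - ro (pevN V y)| ≤ rr e := by
  have a := abs_le.1 (h q hq V hV u h1 h2)
  have b := abs_le.1 ((hs.sm_g hq).bd u ((rr_nonneg y).trans h1))
  have c := ro_ofs (pev V y)
  rw [pevN_eq, abs_le]
  generalize pev V y = z at a c ⊢
  refine ⟨?_, by linarith [a.2]⟩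
  rcases le_total 0 (z + OFF) with hz | hz
  · have : ro (ofs z) = ri z := by
      have e1 : ((ofs z : ℕ) : ℤ) = z + OFF := Int.toNat_of_nonneg hz
      have e2 : ((ofs z : ℕ) : ℝ) = z + OFF := by exact_mod_cast e1
      rw [ro, ri, e2, add_sub_cancel_right]
    rw [this]
    exact a.1
  · have : ro (ofs z) ≤ -1 := by
      rw [ofs, Int.toNat_eq_zero.2 hz, ro, OFF_eq]
      norm_num
    linarith [b.1, rr_nonneg e]

theorem mkCellN_eq {B : Blk} {Va Vb : ℕ → ℕ} {y0 y1 : ℕ} (h : 0 < mkCellN B Va Vb y0 y1) :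
    mkCellN B Va Vb y0 y1 = mkCell B Va Vb y0 y1 := by
  have hc : (Nat.ble y1 (vctr y0 + vhw y0) && Nat.ble y0 y1 && Nat.ble B.lam SS) = true := by
    by_contra hn
    rw [Bool.not_eq_true] at hn
    unfold mkCellN at h
    rw [forceN_eq, forceN_eq, forceN_eq, hn] at h
    exact lt_irrefl 0 h
  clear h
  have hc1 := (Bool.and_eq_true_iff.1 hc).1
  have hl : B.lam ≤ SS := Nat.le_of_ble_eq_true (Bool.and_eq_true_iff.1 hc).2
  have c1 : y1 ≤ vctr y0 + vhw y0 := Nat.le_of_ble_eq_true (Bool.and_eq_true_iff.1 hc1).1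
  have c2 : y0 ≤ y1 := Nat.le_of_ble_eq_true (Bool.and_eq_true_iff.1 hc1).2
  have g0 := md_off le_rfl (vhw_le y0).2.2.le
  have g1 := md_off c2 c1
  have hb : mulU (y1 - y0) (y1 - y0) / 8 + 1 ≤ 2 ^ 46 := by
    have a := vhw_le y0
    have b := vhw_bd y0
    have c : y1 - y0 ≤ 2 ^ 44 := by omega
    have : mulU (y1 - y0) (y1 - y0) ≤ 2 ^ 48 + 1 := (mulU_mono c c).trans (by decide)
    omega
  have vO := OO_eq
  have vS := SS_val
  unfold mkCellN mkCell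
  refine fN rfl fun iv _ => fN rfl fun ct hct => fN rfl fun hw hhw => ?_
  rw [← hct, ← hhw] at hc hc1
  rw [← hct] at g0 g1
  rw [hc, hc1, cond_true]
  refine fN rfl fun ra _ => fN rfl fun rb _ => ?_
  refine fI (Md · · (2 ^ 43)) g0 fun d0 e0 g0 => fI (Md · · (2 ^ 43)) g1 fun d1 e1 g1 => ?_
  refine fN rfl fun hh hhh => fN rfl fun lam hlam => ?_
  rw [← hhh] at hb
  rw [← hlam] at hl
  refine fN rfl fun b _ => fN rfl fun r0 _ => fN rfl fun r1 _ => fN rfl fun r2 _ => ?_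
  refine enclN_eq (vcoN_md _ _) (vcoN_md _ _) (vcoN_md _ _) (vcoN_md _ _) (vcoN_md _ _)
    (p4_vco _) g0 g1 hb hl
    fun n0 n1 ak n3 n4 n5 n6 n7 n8 z0 z1 z3 z4 z5 z6 z7 z8 A0 A1 A3 A4 A5 A6 A7 A8 => ?_
  refine enclN_eq (vcoN_md _ _) (vcoN_md _ _) (vcoN_md _ _) (vcoN_md _ _) (vcoN_md _ _)
    (p4_vco _) g0 g1 hb hl
    fun m0 m1 bk m3 m4 m5 m6 m7 m8 w0 w1 w3 w4 w5 w6 w7 w8 B0 B1 B3 B4 B5 B6 B7 B8 => ?_
  refine enclN_eq (md_dif _ _ _) (md_dif _ _ _) (md_dif _ _ _) (md_dif _ _ _) (md_dif _ _ _)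
    (p4_dif _ _) g0 g1 hb hl
    fun l0 l1 ck l3 l4 _ _ _ _ v0 v1 v3 v4 _ _ _ _ C0 C1 C3 C4 _ _ _ _ => ?_
  refine fI (fun a c => (a : ℤ) = c + OO) (by omega) fun lo lo' hlo => ?_
  refine fI (fun a c => (a : ℤ) = c + OO) (by omega) fun hi hi' hhi => ?_
  refine fN rfl fun k1 _ => ?_
  refine fI (fun a c => (a : ℤ) = c + OO) (by omega) fun l2 l2' hl2 => ?_
  refine fI (fun a c => (a : ℤ) = c + OO) (by omega) fun h2 h2' hh2 => ?_
  refine fN (by rw [negO C0, posO C1]) fun s0 _ => fN rfl fun s1 _ => ?_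
  refine fN (by rw [negO C3, posO C4]) fun s2 _ => fN rfl fun ul _ => ?_
  refine fN (by
    rw [negO hlo, posO hhi, show SS + OO - lo = posI (SS - lo') by unfold posI; omega])
    fun D0 _ => fN rfl fun D1 _ => ?_
  refine fN (by rw [negO hl2, posO hh2]) fun D2 _ => fN rfl fun dd _ => ?_
  refine fN rfl fun e0 _ => fN rfl fun e1 _ => fN rfl fun e2 _ => fN rfl fun f1 _ =>
    fN rfl fun f2 _ => ?_
  refine fI (fun a c => (a : ℤ) = c + OO) (by omega) fun x x' hx => ?_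
  refine fI (fun a c => (a : ℤ) = c + OO) (by omega) fun y y' hy => ?_
  refine Eq.trans ?_ (forceI_eq _ _).symm
  refine fI (fun a c => (a : ℤ) = c + OO) (by omega) fun s s' hs => ?_
  refine Eq.trans ?_ (forceI_eq _ _).symm
  refine fI (fun a c => (a : ℤ) = c + OO) (by omega) fun t t' ht => ?_
  rw [cond_true, posO hx, posO hy, posO hs, posO ht, negO hs, negO ht, ncf_eq,
    show OFF + OO - x = ofs (-x') by unfold ofs; omega,
    show y + OFF - OO = ofs y' by unfold ofs; omega,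
    show OFF + OO + e2 - l2 = ofs (-(l2' - e2)) by unfold ofs; omega,
    show h2 + e2 + OFF - OO = ofs (h2' + e2) by unfold ofs; omega,
    show OO + f1 - min n5 m5 = negI (min z5 w5 - f1) by unfold negI; omega,
    show OO + f2 - min n7 m7 = negI (min z7 w7 - f2) by unfold negI; omega]

theorem ZFastBX.cellChkN_sound {B : Blk} {Va Vb T E : ℕ → ℕ} {i : ℕ}
    (h : cellChkN B Va Vb T E i = true) : cellChk B Va Vb T E i = true := by
  unfold cellChkN at h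
  unfold cellChk
  simp only [forceN_eq, Bool.and_eq_true] at h ⊢
  obtain ⟨⟨⟨⟨⟨⟨⟨h1, h2⟩, h3⟩, h4⟩, h5⟩, h6⟩, h7⟩, h8⟩ := h
  refine ⟨⟨⟨⟨⟨⟨⟨h1, ?_⟩, h3⟩, h4⟩, h5⟩, h6⟩, h7⟩, h8⟩
  rw [Nat.blt_eq] at h1
  rw [Nat.beq_eq] at h2 ⊢
  generalize Nat.blt (Yb i) B.Yc = c at h2 ⊢
  cases c
  · exact h2
  · rw [cond_true] at h2 ⊢
    rw [h2] at h1 ⊢
    exact mkCellN_eq h1

theorem cellsChkN_sound {B : Blk} {Va Vb T E : ℕ → ℕ} {i0 n : ℕ}
    (h : cellsChkN B Va Vb T E i0 n = true) : cellsChk B Va Vb T E i0 n = true := by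
  unfold cellsChkN at h
  unfold cellsChk
  induction n with
  | zero => rfl
  | succ n ih =>
    have h' := Bool.and_eq_true_iff.1 h
    refine Bool.and_eq_true_iff.2 ⟨?_, ih h'.2⟩
    have h1 := h'.1
    rw [forceN_eq] at h1 ⊢
    exact ZFastBX.cellChkN_sound h1

theorem restChkN_sound {B : Blk} {Va Vb E : ℕ → ℕ} (h : restChkN B Va Vb E = true) :
    restChk B Va Vb E = true ∧ mkCellN B Va Vb 0 0 = mkCell B Va Vb 0 0 := by
  unfold restChkN at h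
  have h0 : 0 < mkCellN B Va Vb 0 0 := by
    rw [forceN_eq] at h
    simp only [Bool.and_eq_true, Nat.blt_eq] at h
    exact h.1.1.1.1.1.1.1.1.1.1.1.1.1.1
  have e := mkCellN_eq h0
  rw [e] at h
  exact ⟨h, e⟩

end Pool.Agent.MP_39fec4_gt.K
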