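import Pool.Agent.MP_39fec4_gt.ZBlock
import Pool.Agent.MP_39fec4_gt.ZFastB
import Pool.Agent.MP_39fec4_gt.KTop
import Pool.Agent.MP_39fec4_gt.FInt
import Pool.Agent.MP_39fec4_gt.FCrude

set_option autoImplicit false

/-! The meaning of the upper layers of the computation. -/

namespace Pool.Agent.MP_39fec4_gt.K

open Set MeasureTheory Full

/-- The point `s / 64`. -/
noncomputable def sR (s : ℕ) : ℝ := (s : ℝ) / 64

/-- A coordinate with twenty fractional bits. -/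
noncomputable def r20 (a : ℕ) : ℝ := (a : ℝ) / 2 ^ 20

/-- The mean of the numbers `y j`. -/
noncomputable def mean {ι : Type} (T : Finset ι) (y : ι → ℝ) : ℝ := (∑ j ∈ T, y j) / T.card

/-- All the arguments lie in the first lobe. -/
def FL (B : Blk) (q : ℝ) {ι : Type} (T : Finset ι) (y : ι → ℝ) : Prop :=
  ∀ j ∈ T, 0 ≤ y j ∧ y j ≤ rr B.Z2 ∧ 0 < B.g 0 q (y j)

/-- The number `b` is the slope of an exponential envelope on `[0, ym]`. -/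
def EnvOK (B : Blk) (q : ℝ) (b ym : ℕ) : Prop :=
  ∀ v, 0 ≤ v → v ≤ rr ym → |B.g 0 q v| ≤ Real.exp (-(rr b * v))

/-- The constant of the quantitative Jensen inequality. -/
def gainC (Rg Rn : ℕ) : ℕ :=
  bif Nat.blt (max (fld Rg 56 7) (fld Rn 56 7)) INV then
    OFF - ((fld Rg 56 7 + 3 * fld Rn 56 7) / 4 + 1) else 0

/-- The integrand of a run: outer factor times product minus power at the mean. -/
noncomputable def FE (g : ℝ → ℝ) (ho : Bool) (x1 x2 : ℝ) {ι : Type} (T : Finset ι) (x : ι → ℝ)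
    (s : ℝ) : ℝ :=
  (bif ho then g (x1 * s ^ 2) * g (x2 * s ^ 2) else 1) *
    (∏ j ∈ T, g (x j * s ^ 2) - g (mean T x * s ^ 2) ^ T.card)

/-- The value of the state of a run. -/
noncomputable def PhiE (w V : ℝ) (sc sh sg : ℕ) : ℝ := w * rr sc + V * (rr sh - rr sg)

/-- The coordinates handled by a run with a fixed number of inner factors. -/
structure InE (P : EP) {ι : Type} (T : Finset ι) (x : ι → ℝ) (x1 x2 : ℝ) : Prop where
  uni : P.uni = false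
  k2 : 2 ≤ P.k
  card : T.card = P.k
  sum : rr P.ra ≤ ∑ j ∈ T, x j ∧ ∑ j ∈ T, x j ≤ rr P.rb
  rng : ∀ j ∈ T, rr P.xa0 ≤ x j ∧ x j ≤ rr P.xb1
  two : ∃ i0 ∈ T, ∃ i1 ∈ T, i0 ≠ i1 ∧ x i0 ≤ rr P.xa1 ∧ rr P.xb0 ≤ x i1
  out : P.ho = true → 0 < x1 ∧ rr P.x1l ≤ x1 ∧ x1 ≤ rr P.x1h ∧ rr P.x2l ≤ x2 ∧ x2 ≤ rr P.x2h
  pos : 0 < ∑ j ∈ T, x j
  var : Var T x ≤ rr P.Vh
  sV : P.fin = true → rr P.Vh ≤ rr P.sV ^ 2

/-- The coordinates handled by the run that is uniform in the dimension. -/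
structure InU (P : EP) {ι : Type} (T : Finset ι) (x : ι → ℝ) : Prop where
  uni : P.uni = true
  ho : P.ho = false
  k8 : 8 ≤ P.k
  card : P.k ≤ T.card
  ra : P.ra = SS
  rb : P.rb = SS
  sum : ∑ j ∈ T, x j = 1
  rng : ∀ j ∈ T, rr P.xa0 ≤ x j * T.card / P.k ∧ x j * T.card / P.k ≤ rr P.xb1
  var : Var T x * T.card ≤ rr P.Vh * P.k

/-- The situation of the second order bounds: arguments `y j` in `[a, ym]`. -/
structure HIn (B : Blk) (P : EP) (R Rn w ym tb : ℕ) (q : ℝ) {ι : Type} (T : Finset ι)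
    (y : ι → ℝ) (a : ℝ) : Prop where
  k2 : 2 ≤ P.k
  ex : P.uni = false → T.card = P.k
  un : P.uni = true → 3 ≤ P.k ∧ P.k ≤ T.card ∧ max (gAB R) (gAB w) ≤ R07
  a0 : 0 ≤ a
  rng : ∀ j ∈ T, a ≤ y j ∧ y j ≤ rr ym
  hR : ∀ v, a ≤ v → v ≤ rr ym → PtOK B R q v
  hRn : ∀ v, (a + mean T y) / 2 ≤ v → v ≤ (rr ym + mean T y) / 2 → PtOK B Rn q v
  hw : InR w (B.g 0 q (mean T y))
  var : Var T y * P.k ≤ rr tb ^ 2 * rr P.Vh * T.card

/-- The integral with two distinguished coordinates. -/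
noncomputable def IX (g : ℝ → ℝ) (x1 x2 : ℝ) {ι : Type} (T : Finset ι) (x : ι → ℝ) : ℝ :=
  ∫ s in Ioi (0 : ℝ), g (x1 * s ^ 2) * g (x2 * s ^ 2) * ∏ j ∈ T, g (x j * s ^ 2)

/-- The integrand with `k` equal coordinates, in the coordinates of the boxes. -/
noncomputable def PB (g : ℝ → ℝ) (k : ℕ) (x1 xi t : ℝ) : ℝ :=
  P3 g x1 (xi * (1 - x1)) ((1 - xi) * (1 - x1) / k) k t

noncomputable def IP (g : ℝ → ℝ) (k : ℕ) (x1 xi : ℝ) : ℝ :=
  ∫ s in Ioi (0 : ℝ), PB g k x1 xi (s ^ 2)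

/-- A point of the simplex seen from its two largest coordinates `x1` and `xi (1 - x1)`. -/
structure Pt {ι : Type} (T : Finset ι) (x : ι → ℝ) (x1 xi : ℝ) : Prop where
  p1 : 0 < x1
  l1 : x1 < 1
  p2 : 0 ≤ xi
  l2 : xi < 1
  le : xi * (1 - x1) ≤ x1
  sum : ∑ j ∈ T, x j = (1 - xi) * (1 - x1)
  rng : ∀ j ∈ T, 0 ≤ x j ∧ x j ≤ xi * (1 - x1)

/-- The number of remaining coordinates fits the class. -/
structure Cd (c : Cls) {ι : Type} (T : Finset ι) (x1 xi : ℝ) : Prop where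
  n3 : 3 ≤ c.N
  ex : c.plus = false → T.card = c.N - 2
  pl : c.plus = true → c.N - 2 ≤ T.card ∧ 2 ≤ c.N * (x1 + xi * (1 - x1))

structure Box (xl xh ya yb : ℕ) (x1 xi : ℝ) : Prop where
  x : r20 xl ≤ x1 ∧ x1 ≤ r20 xh
  y : r20 ya ≤ xi ∧ xi ≤ r20 yb

structure Wf (B : Blk) (xl xh ya yb a b : ℕ) : Prop where
  x : xl ≤ xh ∧ xh ≤ 1048576
  y : ya ≤ yb ∧ yb ≤ 1048576
  q : a ≤ b ∧ b < B.nv

/-- The meaning of the excess bounds on a box. -/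
def ExcOK (B : Blk) (c : Cls) (xl xh ya yb e1 e2 : ℕ) : Prop :=
  ∀ q ∈ B.I, ∀ (ι : Type) (T : Finset ι) (x : ι → ℝ) (x1 xi : ℝ), Pt T x x1 xi → Cd c T x1 xi →
    Box xl xh ya yb x1 xi →
    (e1 < BIG → IX (B.g 0 q) x1 (xi * (1 - x1)) T x - DG (B.g 0 q) (T.card + 2) ≤
      IP (B.g 0 q) (c.N - 2) x1 xi - DG (B.g 0 q) c.N + ro e1) ∧
    (e2 < BIG → IX (B.g 0 q) x1 (xi * (1 - x1)) T x ≤ IP (B.g 0 q) (c.N - 2) x1 xi + ro e2)

/-- The inequality to be proved on a box. -/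
def BoxOK (B : Blk) (c : Cls) (xl xh ya yb a b : ℕ) : Prop :=
  ∀ q ∈ Icc (B.q a) (B.q b), ∀ (ι : Type) (T : Finset ι) (x : ι → ℝ) (x1 xi : ℝ), Pt T x x1 xi →
    Cd c T x1 xi → Box xl xh ya yb x1 xi →
    IX (B.g 0 q) x1 (xi * (1 - x1)) T x < max (DG (B.g 0 q) (T.card + 2)) (kap B.C q)

/-- The inequality near the Ball point. -/
def BallIn (B : Blk) (rl rh dm : ℕ) : Prop :=
  ∀ q ∈ B.I, ∀ (ι : Type) (T : Finset ι) (x : ι → ℝ) (x1 x2 : ℝ), (∀ j ∈ T, 0 ≤ x j) →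
    0 < ∑ j ∈ T, x j → rr rl ≤ ∑ j ∈ T, x j → ∑ j ∈ T, x j ≤ rr rh →
    x1 + x2 + ∑ j ∈ T, x j = 1 → |x1 - x2| ≤ rr dm → IX (B.g 0 q) x1 x2 T x < kap B.C q

def BallOK (B : Blk) (bl : List (ℕ × ℕ × List ℕ)) : Prop :=
  ∀ rl rh dm, inBall bl rl rh dm = true → BallIn B rl rh dm

/-- A point near the diagonal, located by its smallest and its largest coordinate. -/
structure NearIn (n : ℕ) (uni : Bool) (a0 a1 b0 b1 : ℕ) {ι : Type} (T : Finset ι)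
    (x : ι → ℝ) : Prop where
  ex : uni = false → 2 ≤ n ∧ T.card = n
  un : uni = true → 8 ≤ n ∧ n ≤ T.card
  sum : ∑ j ∈ T, x j = 1
  nd : ∃ j ∈ T, x j ≠ 1 / (T.card : ℝ)
  mn : ∃ i ∈ T, (∀ j ∈ T, x i ≤ x j) ∧ rr a0 ≤ x i * T.card / n ∧ x i * T.card / n ≤ rr a1
  mx : ∃ i ∈ T, (∀ j ∈ T, x j ≤ x i) ∧ rr b0 ≤ x i * T.card / n ∧ x i * T.card / n ≤ rr b1

def NearOK (B : Blk) (n : ℕ) (uni : Bool) (a0 a1 b0 b1 : ℕ) : Prop :=
  ∀ q ∈ B.I, ∀ (ι : Type) (T : Finset ι) (x : ι → ℝ), NearIn n uni a0 a1 b0 b1 T x →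
    IG (B.g 0 q) T x < DG (B.g 0 q) T.card

/-- The negative part of the diagonal integrand. -/
noncomputable def ngp (g : ℝ → ℝ) (n : ℕ) (s : ℝ) : ℝ := max (-(g (s ^ 2 / n) ^ n)) 0

/-- The threshold: the Ball value or the diagonal value. -/
noncomputable def Th (B : Blk) (N : ℕ) (two : Bool) (q : ℝ) : ℝ :=
  bif two then kap B.C q else DG (B.g 0 q) N

/-- The error made when the integrand is evaluated at a corner. -/
def evE (c1 c2 c3 k : ℕ) : ℕ :=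
  mulU (mulU (gAB c1 + gPe c1) (gAB c2 + gPe c2)) (powU (gAB c3 + gPe c3) k + 1) -
    mulD (mulD (gAB c1) (gAB c2)) (powD (gAB c3) k) + 1

/-- The same on a box, at the node `t`. -/
def evB (Q : ℕ → ℕ → ℕ) (k xl xh ya yb t : ℕ) : ℕ :=
  evE (rq Q (mulD (cX1 xl) t) (mulU (cX1 xh) t)) (rq Q (mulD (cX2 xh ya) t) (mulU (cX2 xl yb) t))
    (rq Q (mulD (cR xh yb) t / k) (mulU (cR xl ya) t / k + 1)) k

/-- What a chain of blocks proves. -/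
def Rng (a b : ℕ) : Prop :=
  (∀ q : ℝ, (a : ℝ) / 4096 ≤ q → q ≤ (b : ℝ) / 4096 → Core (1 / q)) ∧
    ∀ n, 3 ≤ n → Cross n ((a : ℝ) / 4096) ((b : ℝ) / 4096)

end Pool.Agent.MP_39fec4_gt.K
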