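import Pool.Agent.MP_39fec4_gt.YTail
import Pool.Agent.MP_39fec4_gt.FPoisL
import Pool.Agent.MP_39fec4_gt.FPoisU

set_option autoImplicit false

namespace Pool.Agent.MP_39fec4_gt.K

open Set MeasureTheory Full

variable {B : Blk} {Q : ℕ → ℕ → ℕ} {E : ℕ → ℕ} {q : ℝ} {ι : Type} {T : Finset ι}

namespace YDiagX

theorem pow_diff {g a A e : ℝ} (hg : |g| ≤ A) (he : |g - a| ≤ e) (n : ℕ) :
    |g ^ n - a ^ n| ≤ (A + e) ^ n - A ^ n := by
  have hA : 0 ≤ A := (abs_nonneg g).trans hg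
  have he0 : 0 ≤ e := (abs_nonneg _).trans he
  have ha : |a| ≤ A + e := by
    have h1 := abs_le.1 hg
    have h2 := abs_le.1 he
    rw [abs_le]
    constructor <;> linarith [h1.1, h1.2, h2.1, h2.2]
  induction n with
  | zero => simp
  | succ k ih =>
    have e1 : g ^ (k + 1) - a ^ (k + 1) = g * (g ^ k - a ^ k) + (g - a) * a ^ k := by ring
    have h1 : |g * (g ^ k - a ^ k)| ≤ A * ((A + e) ^ k - A ^ k) := by
      rw [abs_mul]
      exact mul_le_mul hg ih (abs_nonneg _) hA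
    have h2 : |(g - a) * a ^ k| ≤ e * (A + e) ^ k := by
      rw [abs_mul, abs_pow]
      exact mul_le_mul he (pow_le_pow_left₀ (abs_nonneg a) ha k) (by positivity) he0
    rw [e1]
    refine (abs_add_le _ _).trans ((add_le_add h1 h2).trans (le_of_eq ?_))
    ring

theorem rr_dist (a : ℕ) : rr (dist a OFF) = |ro a| := by
  unfold dist
  rw [rr_add, rr_sub_OFF, rr_OFF_sub]
  rcases le_total 0 (ro a) with h | h
  · rw [max_eq_left h, max_eq_right (by linarith), abs_of_nonneg h, add_zero]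
  · rw [max_eq_right h, max_eq_left (by linarith), abs_of_nonpos h, zero_add]

theorem rr_OFF : 1 ≤ rr OFF := by
  rw [rr, OFF]
  norm_num

theorem blt_iff (a b : ℕ) : Nat.blt a b = true ↔ a < b := by
  rw [Nat.blt_eq]

theorem ble_iff (a b : ℕ) : Nat.ble a b = true ↔ a ≤ b := by
  rw [Nat.ble_eq]

theorem sgn_false (p : ℕ) : sgn false p = OFF + p := by
  rw [sgn, cond_false]

theorem sgn_true (p : ℕ) : sgn true p = OFF - p := by
  rw [sgn, cond_true]

theorem powE_ge (A e k : ℕ) : (rr A + rr e) ^ k - rr A ^ k + rr 1 ≤ rr (powE A e k) := by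
  unfold powE
  have h1 := rr_sub_ge (powU (A + e) k) (powD A k)
  have h2 := powU_ge (A + e) k
  have h3 := powD_le A k
  rw [rr_add] at h2 ⊢
  linarith

/-- The signed power with offset approximates the power. -/
theorem sgn_pow {g : ℝ} {a A e N : ℕ} (h1 : |g| ≤ 1) (hg : |g| ≤ rr A) (he : |g - ro a| ≤ rr e) :
    |g ^ N - ro (sgn (!ev N && Nat.blt a OFF) (powD (dist a OFF) N))| ≤ rr (powE A e N) := by
  have d := abs_le.1 (pow_diff hg he N)
  have p1 := powD_le (dist a OFF) N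
  have p2 := powD_lt (dist a OFF) N
  have pe := powE_ge A e N
  have o1 : 0 ≤ rr 1 := rr_nonneg 1
  have gN : -1 ≤ g ^ N := by
    have : |g ^ N| ≤ 1 := by
      rw [abs_pow]
      exact pow_le_one₀ (abs_nonneg g) h1
    exact (abs_le.1 this).1
  rw [rr_add, rr_dist] at p2
  rw [rr_dist] at p1
  generalize powD (dist a OFF) N = p at p1 p2 ⊢
  cases hs : (!ev N && Nat.blt a OFF) with
  | false =>
    have e1 : ro a ^ N = |ro a| ^ N := by
      rcases Nat.even_or_odd N with hN | hN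
      · exact (hN.pow_abs _).symm
      · have h2 : ev N = false := by
          rw [← Bool.not_eq_true, ev_iff]
          exact Nat.not_even_iff_odd.2 hN
        rw [h2] at hs
        have h3 : ¬a < OFF := by
          intro h5
          rw [(blt_iff _ _).2 h5] at hs
          exact Bool.noConfusion hs
        have h4 : 0 ≤ ro a := by
          rw [ro_eq, sub_nonneg]
          exact rr_le.2 (not_lt.1 h3)
        rw [abs_of_nonneg h4]
    rw [sgn_false, ro_OFF, abs_le]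
    constructor <;> linarith [d.1, d.2]
  | true =>
    rw [Bool.and_eq_true] at hs
    have hN : Odd N := by
      rw [← Nat.not_even_iff_odd, ← ev_iff]
      simpa using hs.1
    have h4 : ro a ≤ 0 := by
      rw [ro_eq, sub_nonpos]
      exact rr_le.2 ((blt_iff _ _).1 hs.2).le
    have e1 : ro a ^ N = -|ro a| ^ N := by
      rw [abs_of_nonpos h4, hN.neg_pow, neg_neg]
    have o2 := rr_OFF
    rw [sgn_true, ro_eq (OFF - p), rr_sub_eq, abs_le]
    rcases le_total (rr p) (rr OFF) with h5 | h5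
    · rw [max_eq_left (by linarith)]
      constructor <;> linarith [d.1, d.2]
    · rw [max_eq_right (by linarith)]
      have : 0 ≤ rr (powE A e N) := rr_nonneg _
      constructor <;> linarith [d.1, d.2]

theorem node (h : BOK B Q E) (hq : q ∈ B.I) {V : ℕ → ℕ} (hV : VOK B.C q V B.Yp) {N t : ℕ}
    (hN : 0 < N) (hy : t / N < B.Yp) :
    |B.g 0 q (rr t / N) ^ N - ro (dNode V N (t / N))| ≤
      rr (powE (gAB (rq Q (t / N) (t / N + 1))) (gPe (rq Q (t / N) (t / N + 1))) N) := by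
  have l1 := rr_div_le t N
  have l2 := (rr_div_lt t hN).le
  have l0 : 0 ≤ rr t / N := (rr_nonneg _).trans l1
  have R := h.qok.rq (t / N) (t / N + 1)
  have a1 := (R.pt q hq _ l0 l1 l2).inR.abs
  have a2 := (R.pe (t / N) le_rfl (rr_lt.2 (Nat.lt_succ_self _)) hy).pevN h.sc hq hV l1 l2
  unfold dNode
  rw [forceN_eq]
  exact sgn_pow ((h.sc.sm_g hq).bd _ l0) a1 a2

theorem sum_spec (h : BOK B Q E) (hq : q ∈ B.I) {V : ℕ → ℕ} (hV : VOK B.C q V B.Yp) {N H : ℕ}
    (hN : 0 < N) (M : ℕ) (hy : ∀ m, m < M → tN H m / N < B.Yp) :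
    |∑ m ∈ Finset.range M, B.g 0 q ((((m : ℝ) + 1) * ((H : ℝ) / 16)) ^ 2 / N) ^ N -
      (rr (dSum V N H M) - M * rr OFF)| ≤ rr (dErr Q N H M) := by
  induction M with
  | zero =>
    have e1 : dSum V N H 0 = 0 := rfl
    simp [e1, rr_zero, rr_nonneg]
  | succ k ih =>
    have i1 := abs_le.1 (ih fun m hm => hy m (Nat.lt_succ_of_lt hm))
    have i2 := abs_le.1 (node h hq hV hN (hy k (Nat.lt_succ_self k)))
    have e1 : dSum V N H (k + 1) = dSum V N H k + dNode V N (tN H k / N) := rfl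
    have e2 : dErr Q N H (k + 1) = dErr Q N H k + powE (gAB (rq Q (tN H k / N) (tN H k / N + 1)))
        (gPe (rq Q (tN H k / N) (tN H k / N + 1))) N := by
      have e3 : dErr Q N H (k + 1) = forceN (tN H k / N) fun y => forceN (rq Q y (y + 1)) fun r =>
        dErr Q N H k + powE (gAB r) (gPe r) N := rfl
      rw [e3, forceN_eq, forceN_eq]
    rw [tN_eq, ro_eq] at i2
    rw [Finset.sum_range_succ, e1, e2, rr_add, rr_add, abs_le]
    push_cast
    constructor <;> linarith [i1.1, i1.2, i2.1, i2.2]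

theorem ok_spec {N H M : ℕ} (ok : dOK B N H M = true) : 2 ≤ N ∧ 0 < H ∧ 0 < M ∧
    (∀ m, m < M → tN H m / N < B.Yp) ∧ dTail B N H M < BIG := by
  unfold dOK at ok
  simp only [Bool.and_eq_true, Nat.ble_eq, Nat.blt_eq] at ok
  obtain ⟨⟨⟨⟨h1, h2⟩, h3⟩, h4⟩, h5⟩ := ok
  refine ⟨h1, h2, h3, fun m hm => ?_, h5⟩
  have a : tN H m / N ≤ tN H (M - 1) / N := Nat.div_le_div_right (tN_mono H (by omega))
  omega

theorem tail_spec (h : BOK B Q E) (hq : q ∈ B.I) {N H M : ℕ} (hN : 2 ≤ N) (hH : 0 < H)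
    (hM : 0 < M) (ht : dTail B N H M < BIG) : ∃ A : ℝ, 0 ≤ A ∧
      (A + 0 / 2) * (M * ((H : ℝ) / 16)) ≤ rr (dTail B N H M) ∧
      ∀ s : ℝ, M * ((H : ℝ) / 16) ≤ s → |B.g 0 q (s ^ 2 / N) ^ N| ≤
        A * (M * ((H : ℝ) / 16) / s) ^ 2 + 0 * (M * ((H : ℝ) / 16) / s) ^ 3 := by
  unfold dTail at ht ⊢
  rw [forceN_eq] at ht ⊢
  have hf : far0 B (tN H (M - 1) / N) < BIG := by
    by_contra hn
    have : Nat.blt (far0 B (tN H (M - 1) / N)) BIG = false := by
      rw [← Bool.not_eq_true, Nat.blt_eq]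
      exact hn
    rw [this] at ht
    exact lt_irrefl _ ht
  have f0 := h.far.f0 _ hf q hq
  rw [(blt_iff _ _).2 hf, cond_true]
  have y0 := rr_div_le (tN H (M - 1)) N
  have eM : ((M - 1 : ℕ) : ℝ) + 1 = M := by
    rw [Nat.cast_sub hM]
    simp
  rw [tN_eq, eM] at y0
  generalize tN H (M - 1) / N = y at f0 y0 ⊢
  generalize far0 B y = f at f0 ⊢
  have hS : (0 : ℝ) < M * ((H : ℝ) / 16) := by
    have a : (0 : ℝ) < M := by exact_mod_cast hM
    have b : (0 : ℝ) < H := by exact_mod_cast hH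
    positivity
  have eS : rr ((M * H) <<< 36) = M * ((H : ℝ) / 16) := by
    rw [rr_shl, rr]
    push_cast
    ring
  refine ⟨rr f ^ N, pow_nonneg (rr_nonneg f) N, ?_, fun s hs => ?_⟩
  · rw [zero_div, add_zero]
    exact le_mulU (powU_ge f N) eS.ge hS.le
  · generalize (M : ℝ) * ((H : ℝ) / 16) = S at hS hs y0 ⊢
    have hs0 : 0 < s := hS.trans_le hs
    have hc : 1 ≤ s / S := by rwa [le_div_iff₀ hS, one_mul]
    have hv : rr y * (s / S) ^ 2 ≤ s ^ 2 / N := by
      refine (mul_le_mul_of_nonneg_right y0 (sq_nonneg _)).trans (le_of_eq ?_)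
      field_simp
    have b1 := f0 _ _ hc hv
    have e1 : rr f / (s / S) = rr f * (S / s) := by field_simp
    have u0 : 0 ≤ S / s := by positivity
    have u1 : S / s ≤ 1 := by rwa [div_le_one hs0]
    rw [e1] at b1
    rw [abs_pow, zero_mul, add_zero]
    refine (pow_le_pow_left₀ (abs_nonneg _) b1 N).trans ?_
    rw [mul_pow]
    exact mul_le_mul_of_nonneg_left (pow_le_pow_of_le_one u0 u1 hN) (pow_nonneg (rr_nonneg f) N)

theorem ali_spec (h : BOK B Q E) (hq : q ∈ B.I) {N H : ℕ} (hH : 0 < H) (ha : dAli B N H < BIG) :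
    2 ≤ 5 / (mu B.C q * ((H : ℝ) / 16)) ∧
      4 * 3 ^ N / mu B.C q * Real.exp (-(5 / (mu B.C q * ((H : ℝ) / 16))) ^ 2) ≤
        rr (dAli B N H) := by
  unfold dAli at ha ⊢
  rw [forceN_eq] at ha ⊢
  have m := h.sc.hmu q hq
  have m0 : 0 < mu B.C q := (rr_pos h.sc.mL0).trans_le m.1
  have H0 : (0 : ℝ) < H := by exact_mod_cast hH
  have a1 : rr (divD (80 * SS) (B.mH * H)) ≤ 5 / (mu B.C q * ((H : ℝ) / 16)) := by
    have b : rr (divD (80 * SS) (B.mH * H)) ≤ 80 / (mu B.C q * H) := by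
      refine divD_le_of ?_ (by positivity) ?_
      · rw [rr_nmul, rr_SS]
        norm_num
      · rw [rr_muln]
        exact mul_le_mul_of_nonneg_right m.2 H0.le
    refine b.trans (le_of_eq ?_)
    field_simp
    norm_num
  generalize divD (80 * SS) (B.mH * H) = a at ha a1 ⊢
  have h2 : 2 * SS ≤ a := by
    by_contra hn
    have : Nat.ble (2 * SS) a = false := by
      rw [← Bool.not_eq_true, Nat.ble_eq]
      exact hn
    rw [this] at ha
    exact lt_irrefl _ ha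
  rw [(ble_iff _ _).2 h2, cond_true, forceN_eq]
  generalize 5 / (mu B.C q * ((H : ℝ) / 16)) = z at a1 ⊢
  have h3 := rr_le.2 h2
  rw [rr_nmul, rr_SS] at h3
  refine ⟨by push_cast at h3; linarith, ?_⟩
  have x1 : rr (mulD a a / 2) ≤ z ^ 2 / 2 := by
    refine (rr_div_le _ 2).trans ?_
    have := mulD_le_of a1 a1
    push_cast
    linarith [sq z]
  have x2 := le_expU x1
  have x3 : Real.exp (-z ^ 2) = Real.exp (-(z ^ 2 / 2)) * Real.exp (-(z ^ 2 / 2)) := by
    rw [← Real.exp_add]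
    congr 1
    ring
  have x4 : 4 * 3 ^ N / mu B.C q ≤ rr (divU (4 * 3 ^ N * SS) B.mL) := by
    refine le_divU h.sc.mL0 (le_of_eq ?_) m.1
    rw [rr_nmul, rr_SS]
    push_cast
    ring
  rw [x3, ← mul_assoc]
  exact le_mulU (le_mulU x4 x2 (Real.exp_pos _).le) x2 (Real.exp_pos _).le

theorem rr_half : rr (SS / 2) = 1 / 2 := by
  rw [rr, SS]
  norm_num

end YDiagX

open YDiagX

theorem dLo_le (h : BOK B Q E) (hq : q ∈ B.I) {V : ℕ → ℕ} (hV : VOK B.C q V B.Yp) {N H M : ℕ}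
    (ok : dOK B N H M = true) (ha : dAli B N H < BIG) (h0 : 0 < dLo B Q V N H M) :
    rr (dLo B Q V N H M) ≤ DG (B.g 0 q) N := by
  obtain ⟨hN, hH, hM, hy, ht⟩ := ok_spec ok
  obtain ⟨A, A0, t1, t2⟩ := tail_spec h hq hN hH hM ht
  obtain ⟨a1, a2⟩ := ali_spec h hq hH ha
  have H0 : (0 : ℝ) < (H : ℝ) / 16 := by
    have : (0 : ℝ) < H := by exact_mod_cast hH
    positivity
  have s := abs_le.1 (sum_spec h hq hV (N := N) (H := H) (by omega) M hy)
  have P := pois_lo h.sc.C_pos (h.sc.q_pos hq).1 (h.sc.q_pos hq).2 (N := N) (by omega) hM H0 A0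
    le_rfl a1 fun s hs => (abs_le.1 (t2 s hs)).1
  change _ ≤ DG (B.g 0 q) N at P
  refine le_trans ?_ P
  unfold dLo at h0 ⊢
  have c1 : M * OFF + dErr Q N H M ≤ SS / 2 + dSum V N H M := by
    by_contra hn
    rw [Nat.sub_eq_zero_of_le (not_le.1 hn).le, Nat.mul_zero, Nat.zero_shiftRight,
      Nat.zero_sub] at h0
    exact lt_irrefl _ h0
  have c2 := rr_shr_le (H * (SS / 2 + dSum V N H M - (M * OFF + dErr Q N H M))) 4
  rw [rr_nmul, rr_sub c1, rr_add, rr_add, rr_nmul, rr_half] at c2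
  rw [rr_sub (Nat.le_of_lt (Nat.sub_pos_iff_lt.1 h0)), rr_add]
  have c3 := mul_le_mul_of_nonneg_left s.1 H0.le
  change _ ≤ (H : ℝ) / 16 / 2 + (H : ℝ) / 16 * ∑ m ∈ Finset.range M,
    B.g 0 q ((((m : ℝ) + 1) * ((H : ℝ) / 16)) ^ 2 / N) ^ N - _ - _
  linarith

theorem dHi_ge (h : BOK B Q E) (hq : q ∈ B.I) {V : ℕ → ℕ} (hV : VOK B.C q V B.Yp) {N H M : ℕ}
    (ok : dOK B N H M = true) : DG (B.g 0 q) N ≤ rr (dHi B Q V N H M) := by
  obtain ⟨hN, hH, hM, hy, ht⟩ := ok_spec ok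
  obtain ⟨A, A0, t1, t2⟩ := tail_spec h hq hN hH hM ht
  have H0 : (0 : ℝ) < (H : ℝ) / 16 := by
    have : (0 : ℝ) < H := by exact_mod_cast hH
    positivity
  have s := abs_le.1 (sum_spec h hq hV (N := N) (H := H) (by omega) M hy)
  have P := pois_up_diag h.sc.C_pos (h.sc.q_pos hq).1 (h.sc.q_pos hq).2 hN hM H0 A0
    le_rfl fun s hs => (abs_le.1 (t2 s hs)).2
  change DG (B.g 0 q) N ≤ (H : ℝ) / 16 / 2 + (H : ℝ) / 16 * ∑ m ∈ Finset.range M,
    B.g 0 q ((((m : ℝ) + 1) * ((H : ℝ) / 16)) ^ 2 / N) ^ N + _ at P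
  refine P.trans ?_
  unfold dHi
  have c2 := rr_shr_lt (H * (SS / 2 + dSum V N H M + dErr Q N H M - M * OFF)) 4
  have c1 := rr_sub_ge (SS / 2 + dSum V N H M + dErr Q N H M) (M * OFF)
  rw [rr_add, rr_add, rr_nmul, rr_half] at c1
  rw [rr_nmul, rr_add] at c2
  rw [rr_add, rr_add]
  have c3 := mul_le_mul_of_nonneg_left s.2 H0.le
  have c4 := mul_le_mul_of_nonneg_left c1 H0.le
  linarith

end Pool.Agent.MP_39fec4_gt.K
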