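import Pool.Agent.MP_39fec4_gt.YSweep

set_option autoImplicit false

namespace Pool.Agent.MP_39fec4_gt.K

open Set MeasureTheory Full

variable {B : Blk} {Q : ℕ → ℕ → ℕ} {E : ℕ → ℕ} {q : ℝ} {ι : Type} {T : Finset ι}

namespace YEnvX

theorem exp_le {b tl c : ℕ} {de : ℝ} (hc : de = 0 ∨ c ≤ tl) :
    1 ≤ rr (expU (mulD b (tl - c))) * Real.exp (-(rr b * de)) ∨
      Real.exp (-(rr b * (rr tl + de - rr c))) ≤
        rr (expU (mulD b (tl - c))) * Real.exp (-(rr b * de)) := by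
  have h1 := le_expU (mulD_le b (tl - c))
  by_cases h : c ≤ tl
  · right
    rw [rr_sub h] at h1
    rw [show -(rr b * (rr tl + de - rr c)) = -(rr b * (rr tl - rr c)) + -(rr b * de) by ring,
      Real.exp_add]
    exact mul_le_mul_of_nonneg_right h1 (Real.exp_pos _).le
  · left
    rw [hc.resolve_right h, mul_zero, neg_zero, Real.exp_zero, mul_one]
    rwa [show rr (tl - c) = 0 by rw [Nat.sub_eq_zero_of_le (not_le.1 h).le, rr_zero], mul_zero,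
      neg_zero, Real.exp_zero] at h1

theorem mkCB (h : BOK B Q E) (hq : q ∈ B.I) {y : ι → ℝ} {b ym tl ng : ℕ} {de A : ℝ}
    (hb : EnvOK B q b ym) (hy : ∀ j ∈ T, 0 ≤ y j ∧ y j ≤ rr ym)
    (hl : rr tl + de ≤ ∑ j ∈ T, y j) (h2 : de = 0 ∨ 2 * ym ≤ tl)
    (hng : ∀ j ∈ T, -rr ng ≤ B.g 0 q (y j)) (hA : ∀ j ∈ T, |B.g 0 q (y j)| ≤ A) :
    CB (B.g 0 q) T y (rr B.z2) (rr ym) (rr tl + de) (∑ j ∈ T, y j) (rr b) A (rr ng)
      (rr (expU (mulD b tl)) * Real.exp (-(rr b * de)))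
      (rr (expU (mulD b (tl - ym))) * Real.exp (-(rr b * de)))
      (rr (expU (mulD b (tl - 2 * ym))) * Real.exp (-(rr b * de))) where
  bd := (h.sc.sm_g hq).bd
  pos := (h.hd q hq).pos
  hy := hy
  hs := ⟨hl, le_rfl⟩
  b0 := rr_nonneg b
  env := hb
  hB := hA
  hng := hng
  ng0 := rr_nonneg ng
  he0 := by
    simpa only [Nat.sub_zero, rr_zero, sub_zero] using
      exp_le (b := b) (tl := tl) (c := 0) (de := de) (Or.inr (Nat.zero_le _))
  he1 := exp_le (h2.imp_right fun _ => by omega)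
  he2 := by simpa only [rr_nmul, Nat.cast_ofNat] using exp_le (b := b) h2

theorem tail (h : BOK B Q E) (hq : q ∈ B.I) (v : ℝ) (hv : rr B.Z2 ≤ v) :
    |B.g 0 q v| ≤ rr (gAB (rqI Q B.Z2)) :=
  ((h.qok.rqI B.Z2 v).pt q hq v ((rr_nonneg _).trans hv) hv le_rfl).inR.abs

theorem min_or {p : ℝ} {a b : ℕ} {F : Prop} (h1 : p ≤ rr a ∨ F) (h2 : p ≤ rr b ∨ F) :
    p ≤ rr (min a b) ∨ F := by
  rw [rr_min]
  rcases h1 with h1 | h1
  exacts [h2.imp_left (le_min h1), Or.inr h1]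

theorem min_le {a b c : ℕ} {X : ℝ} (hX : 0 ≤ X) (h : min a b ≤ c) :
    rr a * X ≤ rr c * X ∨ rr b * X ≤ rr c * X :=
  (min_le_iff.1 h).imp (fun h => mul_le_mul_of_nonneg_right (rr_le.2 h) hX)
    fun h => mul_le_mul_of_nonneg_right (rr_le.2 h) hX

theorem neg_le_AB (r : ℕ) : -rr (gAB r) ≤ -rr (gNeg r) ∧ rr (gHip r) ≤ rr (gAB r) := by
  rw [gAB_eq]
  exact ⟨neg_le_neg (rr_le.2 (le_max_left _ _)), rr_le.2 (le_max_right _ _)⟩

theorem lo2_le {P : EP} {x : ι → ℝ} {x1 x2 : ℝ} (hP : InE P T x x1 x2) {i j : ι} (hi : i ∈ T)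
    (hx : x i ≤ rr P.xa1) (hj : j ∈ T) (hne : j ≠ i) :
    rr (max P.xa0 (P.ra - P.xa1 - (P.k - 2) * P.xb1)) ≤ x j := by
  classical
  have h0 := (rr_nonneg _).trans (hP.rng j hj).1
  have hj' : j ∈ T.erase i := Finset.mem_erase.2 ⟨hne, hj⟩
  have h1 := Finset.add_sum_erase T x hi
  have h2 := Finset.add_sum_erase _ x hj'
  have h3 := Finset.sum_le_card_nsmul ((T.erase i).erase j) x (rr P.xb1) fun l hl =>
    (hP.rng l (Finset.mem_of_mem_erase (Finset.mem_of_mem_erase hl))).2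
  rw [Finset.card_erase_of_mem hj', Finset.card_erase_of_mem hi, hP.card, nsmul_eq_mul,
    Nat.sub_sub, ← rr_nmul] at h3
  have h4 := rr_nonneg ((P.k - 2) * P.xb1)
  rw [rr_max, rr_sub_eq, rr_sub_eq]
  refine max_le (hP.rng j hj).1 (max_le ?_ h0)
  rw [sub_le_iff_le_add]
  exact max_le (by linarith [hP.sum.1]) (by linarith)

end YEnvX

open YEnvX

/-- The envelope bound with a slack `de` in the sum of the arguments. -/
theorem envUp_spec (h : BOK B Q E) (hq : q ∈ B.I) {y : ι → ℝ} {b ym tl th ng : ℕ} {de : ℝ}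
    (hb : EnvOK B q b ym) (hy : ∀ j ∈ T, 0 ≤ y j ∧ y j ≤ rr ym)
    (hl : rr tl + de ≤ ∑ j ∈ T, y j) (hh : ∑ j ∈ T, y j ≤ rr th ∨ 2 * B.z2 ≤ th) (h0 : 0 ≤ de)
    (h2 : de = 0 ∨ 2 * ym ≤ tl) (hng : ∀ j ∈ T, -rr ng ≤ B.g 0 q (y j)) :
    ∏ j ∈ T, B.g 0 q (y j) ≤ rr (envUp B Q b ym tl th ng) * Real.exp (-(rr b * de)) ∨
      FL B q T y := by
  classical
  have C := mkCB h hq hb hy hl h2 hng fun j hj => (h.sc.sm_g hq).bd _ (hy j hj).1
  have hX := (Real.exp_pos (-(rr b * de))).le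
  simp only [envUp, forceN_eq]
  refine C.up (mul_nonneg (rr_nonneg _) hX) (tail h hq) ?_ ?_
  · by_cases h3 : th < 2 * B.z2
    · have := rr_lt.2 h3
      rw [rr_nmul, Nat.cast_ofNat] at this
      exact Or.inl ((hh.resolve_right h3.not_ge).trans_lt this)
    by_cases h4 : ym ≤ B.z2
    · exact Or.inr (Or.inl (rr_le.2 h4))
    rw [show (Nat.blt th (2 * B.z2) || Nat.ble ym B.z2) = false by
      simpa only [← Bool.not_eq_true, Bool.or_eq_true, Nat.blt_eq, Nat.ble_eq] using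
        not_or.2 ⟨h3, h4⟩, cond_false]
    rcases min_le hX (le_max_left _ _) with h5 | h5
    · exact Or.inr (Or.inr (Or.inl h5))
    · refine Or.inr (Or.inr (Or.inr (Or.inl (le_trans ?_ h5))))
      rw [← mul_assoc, sq]
      exact mul_le_mul_of_nonneg_right (le_mulU (mulU_ge _ _) le_rfl (rr_nonneg _)) hX
  · by_cases h4 : ym ≤ B.Z2
    · exact Or.inl (rr_le.2 h4)
    rw [show Nat.ble ym B.Z2 = false by simpa only [← Bool.not_eq_true, Nat.ble_eq] using h4,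
      cond_false]
    rcases min_le hX (le_max_right _ _) with h5 | h5
    · exact Or.inr (Or.inl h5)
    · refine Or.inr (Or.inr (Or.inl (le_trans ?_ h5)))
      rw [← mul_assoc]
      exact mul_le_mul_of_nonneg_right (mulU_ge _ _) hX

theorem envDn_spec (h : BOK B Q E) (hq : q ∈ B.I) {y : ι → ℝ} {b ym tl ng : ℕ}
    (hb : EnvOK B q b ym) (hy : ∀ j ∈ T, 0 ≤ y j ∧ y j ≤ rr ym) (hl : rr tl ≤ ∑ j ∈ T, y j)
    (hng : ∀ j ∈ T, -rr ng ≤ B.g 0 q (y j)) :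
    -rr (envDn B b ym tl ng) ≤ ∏ j ∈ T, B.g 0 q (y j) := by
  classical
  have C := mkCB (de := 0) h hq hb hy (by rwa [add_zero]) (Or.inl rfl) hng
    fun j hj => (h.sc.sm_g hq).bd _ (hy j hj).1
  simp only [mul_zero, neg_zero, Real.exp_zero, mul_one] at C
  refine C.dn (rr_nonneg _) ?_
  by_cases h4 : ym ≤ B.z2
  · exact Or.inl (rr_le.2 h4)
  rw [envDn, show Nat.ble ym B.z2 = false by
    simpa only [← Bool.not_eq_true, Nat.ble_eq] using h4, cond_false]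
  rcases min_le_iff.1 (le_refl (min (expU (mulD b tl)) (mulU ng (expU (mulD b (tl - ym)))))) with
    h5 | h5
  · exact Or.inr (Or.inl (rr_le.2 h5))
  · exact Or.inr (Or.inr (Or.inl ((mulU_ge _ _).trans (rr_le.2 h5))))

theorem negPow_spec (h : BOK B Q E) (hq : q ∈ B.I) {y : ι → ℝ} {R : ℕ} (hy : ∀ j ∈ T, 0 ≤ y j)
    (hR : ∀ j ∈ T, InR R (B.g 0 q (y j))) :
    -rr (mulU (gNeg R) (powU (gAB R) (T.card - 1))) ≤ ∏ j ∈ T, B.g 0 q (y j) := by
  classical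
  by_cases h0 : ∏ j ∈ T, B.g 0 q (y j) < 0
  · obtain ⟨j, hj, h1⟩ := FCrudeX.exists_neg T _ h0
    have h2 := FCrudeX.abs_pow (T.erase j) (fun j => B.g 0 q (y j))
      fun i hi => (hR i (Finset.mem_of_mem_erase hi)).abs
    rw [Finset.card_erase_of_mem hj] at h2
    have h3 := FCrudeX.one_out T (fun j => B.g 0 q (y j)) hj (a := rr (gNeg R))
      (abs_le.2 ⟨(hR j hj).neg, h1.le.trans (rr_nonneg _)⟩) (h2.trans (powU_ge _ _))
    exact (neg_le_neg (mulU_ge _ _)).trans (abs_le.1 h3).1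
  · exact (neg_nonpos.2 (rr_nonneg _)).trans (not_lt.1 h0)

theorem crUp_spec (h : BOK B Q E) (hq : q ∈ B.I) {P : EP} {x : ι → ℝ} {x1 x2 : ℝ}
    (hP : InE P T x x1 x2) {ta tb : ℕ} {t : ℝ} (h1 : rr ta ≤ t) (h2 : t ≤ rr tb) :
    ∏ j ∈ T, B.g 0 q (x j * t) ≤ rr (crUp B Q P (rq Q (mulD P.xa0 ta) (mulU P.xb1 tb))
      (envb E (mulU P.xb1 tb)) ta tb (mulD P.xa0 ta) (mulU P.xb1 tb) (mulD P.ra ta)
      (mulU P.rb tb)) ∨ FL B q T fun j => x j * t := by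
  classical
  obtain ⟨i0, m0, i1, m1, ne, a0, a1⟩ := hP.two
  have t0 := (rr_nonneg _).trans h1
  have hy : ∀ j ∈ T, 0 ≤ x j * t ∧ x j * t ≤ rr (mulU P.xb1 tb) := fun j hj =>
    ⟨mul_nonneg ((rr_nonneg _).trans (hP.rng j hj).1) t0, le_mulU (hP.rng j hj).2 h2 t0⟩
  have rc : ∀ j ∈ T, ∀ a b : ℕ, rr a ≤ x j → x j * t ≤ rr b →
      InR (rq Q (mulD a ta) b) (B.g 0 q (x j * t)) := fun j hj a b ha hb =>
    ((h.qok.rq _ b).pt q hq _ (hy j hj).1 (mulD_le_of ha h1) hb).inR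
  have hR := fun j hj => rc j hj _ _ (hP.rng j hj).1 (hy j hj).2
  have ha := rc i0 m0 _ (min (mulU P.xb1 tb) (mulU P.xa1 tb)) (hP.rng i0 m0).1
    (by rw [rr_min]; exact le_min (hy i0 m0).2 (le_mulU a0 h2 t0))
  have hm := fun j hj hne => rc j hj _ _ (lo2_le hP m0 a0 hj hne) (hy j hj).2
  have hb := rc i1 m1 (max (max P.xa0 (P.ra - P.xa1 - (P.k - 2) * P.xb1)) P.xb0) _
    (by rw [rr_max]; exact max_le (lo2_le hP m0 a0 m1 ne.symm) a1) (hy i1 m1).2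
  have hl : rr (mulD P.ra ta) + 0 ≤ ∑ j ∈ T, x j * t := by
    rw [← Finset.sum_mul, add_zero]
    exact mulD_le_of hP.sum.1 h1
  have hh : ∑ j ∈ T, x j * t ≤ rr (mulU P.rb tb) := by
    rw [← Finset.sum_mul]
    exact le_mulU hP.sum.2 h2 t0
  have hE : EnvOK B q (envb E (mulU P.xb1 tb)) (mulU P.xb1 tb) := (h.env _).2 q hq
  have e1 := envUp_spec h hq hE hy hl (Or.inl hh) le_rfl (Or.inl rfl) fun j hj => (hR j hj).neg
  have C := mkCB h hq hE hy hl (Or.inl rfl) (fun j hj => (hR j hj).neg) fun j hj => (hR j hj).abs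
  rw [mul_zero, neg_zero, Real.exp_zero, mul_one] at e1
  simp only [crUp, forceN_eq]
  generalize rq Q (mulD P.xa0 ta) (mulU P.xb1 tb) = R at hR e1 C ⊢
  generalize rq Q (mulD P.xa0 ta) (min (mulU P.xb1 tb) (mulU P.xa1 tb)) = ra at ha ⊢
  generalize rq Q (mulD (max (max P.xa0 (P.ra - P.xa1 - (P.k - 2) * P.xb1)) P.xb0) ta)
    (mulU P.xb1 tb) = rb at hb ⊢
  generalize rq Q (mulD (max P.xa0 (P.ra - P.xa1 - (P.k - 2) * P.xb1)) ta) (mulU P.xb1 tb) = rm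
    at hm ⊢
  generalize envUp B Q _ _ _ _ _ = eu at e1 ⊢
  generalize mulU P.xb1 tb = ym at hy C ⊢
  have A : AB (B.g 0 q) T (fun j => x j * t) i0 i1 (-rr (gNeg ra)) (rr (gHip ra)) (-rr (gNeg rb))
      (rr (gHip rb)) (-rr (gNeg rm)) (rr (gHip rm)) (rr (gAB ra)) (rr (gAB rb)) (rr (gAB rm))
      (rr (max (gNeg rm) (gNeg rb))) :=
    ⟨m0, m1, ne, ⟨ha.neg, ha.hip⟩, ⟨hb.neg, hb.hip⟩,
      fun j hj h0 _ => ⟨(hm j hj h0).neg, (hm j hj h0).hip⟩, neg_le_AB _, neg_le_AB _, neg_le_AB _,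
      rr_nonneg _, rr_nonneg _, neg_le_neg (rr_le.2 (le_max_right _ _)),
      neg_le_neg (rr_le.2 (le_max_left _ _))⟩
  have e2 : ∏ j ∈ T, B.g 0 q (x j * t) ≤ rr (bif Nat.ble ym B.Z2 then
      mulU (mulU (gNeg R) (gNeg R)) (powU (gAB R) (P.k - 2)) else powU (gAB R) P.k) ∨
      FL B q T fun j => x j * t := by
    cases h4 : Nat.ble ym B.Z2
    · have := FCrudeX.abs_pow T (fun j => B.g 0 q (x j * t)) fun j hj => (hR j hj).abs
      rw [hP.card] at this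
      exact Or.inl ((le_abs_self _).trans (this.trans (powU_ge _ _)))
    · refine C.up (rr_nonneg _) (tail h hq) (Or.inr (Or.inr (Or.inr (Or.inr ?_))))
        (Or.inl (rr_le.2 (Nat.le_of_ble_eq_true h4)))
      rw [hP.card, sq]
      exact le_mulU (mulU_ge _ _) (powU_ge _ _) (pow_nonneg (rr_nonneg _) _)
  have e3 := A.abs_le
  rw [hP.card] at e3
  have e4 := min_or (min_or e1 e2) (Or.inl ((le_abs_self _).trans (e3.trans
    (le_mulU (mulU_ge _ _) (powU_ge _ _) (pow_nonneg (rr_nonneg _) _)))))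
  have z : ∀ a : ℕ, Nat.beq a 0 = true → rr a = 0 := fun a e => by
    rw [Nat.eq_of_beq_eq_true e, rr_zero]
  cases h5 : Nat.beq (gNeg ra) 0 && Nat.beq (gHip rb) 0 && Nat.beq (gHip rm) 0 && ev P.k
  · cases h6 : Nat.ble ym B.Z2 && Nat.beq (gNeg ra) 0
    · exact e4
    rw [Bool.and_eq_true] at h6
    have h7 : ∀ j ∈ T, 0 ≤ x j * t ∧ x j * t ≤ rr B.Z2 := fun j hj =>
      ⟨(hy j hj).1, (hy j hj).2.trans (rr_le.2 (Nat.le_of_ble_eq_true h6.1))⟩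
    have h8 : 0 ≤ -rr (gNeg ra) := by rw [z _ h6.2, neg_zero]
    cases h9 : Nat.beq P.k 2
    · refine min_or e4 (A.two h8 h7 (rr_nonneg _) (Or.inr ?_))
      rw [hP.card, ← rr_max, sq]
      exact le_mulU (le_mulU' le_rfl (mulU_ge _ _) (rr_nonneg _)) (powU_ge _ _)
        (pow_nonneg (rr_nonneg _) _)
    · exact A.two h8 h7 (rr_nonneg _) (Or.inl (hP.card.trans (Nat.eq_of_beq_eq_true h9)))
  · simp only [Bool.and_eq_true, ev_iff] at h5
    exact Or.inl ((A.par (by rw [z _ h5.1.1.1, neg_zero]) (z _ h5.1.1.2).le (z _ h5.1.2).le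
      (hP.card ▸ h5.2)).trans (rr_nonneg _))

theorem prodLo_spec (h : BOK B Q E) (hq : q ∈ B.I) {y : ι → ℝ} {R ym th : ℕ}
    (hy : ∀ j ∈ T, 0 ≤ y j ∧ y j ≤ rr ym) (hh : ∑ j ∈ T, y j ≤ rr th)
    (hR : InR R (B.g 0 q (rr ym))) (h0 : 0 < prodLo B R ym th) :
    rr (prodLo B R ym th) ≤ ∏ j ∈ T, B.g 0 q (y j) := by
  have hs := h.sc.sm_g hq
  refine ZFineX.max_le_of (fun h1 => ?_) (fun h1 => ?_) (Or.inl h0)
  · rw [rr_sub (Nat.lt_of_sub_pos h1).le, rr_SS]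
    exact le_trans (by linarith [le_mulU' le_rfl hh (rr_nonneg B.lamh)])
      (prod_ge_lin hs (h.lin q hq) T y fun j hj => (hy j hj).1)
  cases h2 : Nat.ble ym B.z2 && Nat.blt 0 ym && Nat.ble (th / ym) 200
  · rw [h2] at h1
    exact absurd h1 (lt_irrefl 0)
  rw [h2] at h1
  simp only [Bool.and_eq_true, Nat.ble_eq, Nat.blt_eq] at h2
  have h3 : 0 < gLop R := Nat.pos_of_ne_zero fun e => by
    have := (rr_pos h1).trans_le (powD_le _ _)
    rw [e, rr_zero, zero_pow (Nat.succ_ne_zero _)] at this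
    exact lt_irrefl _ this
  refine (powD_le_of (hR.lop (Or.inl h3)) _).trans ?_
  have H := h.hd q hq
  have m0 := rr_pos h2.1.2
  have m1 := rr_le.2 h2.1.1
  have g0 := H.pos _ m0.le m1
  have gp : ∀ j ∈ T, 0 < B.g 0 q (y j) := fun j hj => H.pos _ (hy j hj).1 ((hy j hj).2.trans m1)
  have l0 : Real.log (B.g 0 q (rr ym)) ≤ 0 :=
    Real.log_nonpos g0.le ((le_abs_self _).trans (hs.bd _ m0.le))
  have l1 : ∀ j ∈ T, y j / rr ym * Real.log (B.g 0 q (rr ym)) ≤ Real.log (B.g 0 q (y j)) := by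
    intro j hj
    have := (H.logconc hs).2 (⟨m0.le, m1⟩ : rr ym ∈ Icc 0 (rr B.z2))
      (⟨le_rfl, H.z0.le⟩ : (0 : ℝ) ∈ Icc 0 (rr B.z2)) (div_nonneg (hy j hj).1 m0.le)
      (sub_nonneg.2 ((div_le_one m0).2 (hy j hj).2)) (add_sub_cancel _ _)
    simpa only [smul_eq_mul, mul_zero, add_zero, hs.z, Real.log_one,
      div_mul_cancel₀ _ m0.ne'] using this
  have l2 := Finset.sum_le_sum l1
  rw [← Finset.sum_mul, ← Finset.sum_div, ← Real.log_prod fun j hj => (gp j hj).ne'] at l2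
  have l3 : (∑ j ∈ T, y j) / rr ym ≤ (th / ym + 1 : ℕ) := by
    rw [div_le_iff₀ m0, ← rr_nmul, mul_comm]
    exact hh.trans (rr_le.2 (Nat.lt_mul_div_succ th h2.1.2).le)
  rw [← Real.log_le_log_iff (pow_pos g0 _) (Finset.prod_pos gp), Real.log_pow]
  exact (mul_le_mul_of_nonpos_right l3 l0).trans l2

end Pool.Agent.MP_39fec4_gt.K
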