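import Pool.Agent.MP_39fec4_gt.YTail
import Pool.Agent.MP_39fec4_gt.YGain

set_option autoImplicit false

namespace Pool.Agent.MP_39fec4_gt.K

open Set MeasureTheory Full

variable {B : Blk} {Q : ℕ → ℕ → ℕ} {E : ℕ → ℕ} {q : ℝ} {ι : Type} {T : Finset ι}

namespace YFinEX

variable {P : EP} {x : ι → ℝ} {x1 x2 : ℝ}

def xA (B : Blk) (P : EP) (s : ℕ) : ℕ :=
  bif Nat.ble (64 * SS) (mulD B.gam (mulD P.xb1 (tS s))) &&
      (bif P.uni then Nat.ble (2 * P.k * P.xb1) (3 * SS) && Nat.ble 8 P.k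
        else Nat.ble (4 * P.xb1) P.ra) then powU (divU SS (mulD B.gam (mulD P.xb1 (tS s)))) 2
      else BIG

def xB (B : Blk) (P : EP) (s : ℕ) : ℕ :=
  bif Nat.blt (far0 B (mulD P.xa0 (tS s))) BIG && !P.uni then
      powU (far0 B (mulD P.xa0 (tS s))) P.k else BIG

/-- The bound for the product in the crude estimate. -/
def xF (B : Blk) (P : EP) (s : ℕ) : ℕ := min (xA B P s) (xB B P s)

/-- The crude estimate. -/
def cF (B : Blk) (P : EP) (s : ℕ) : ℕ :=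
  bif Nat.ble (far0 B (mulD P.ra (tS s) / P.k)) R07 && Nat.ble 3 P.k && Nat.blt (xF B P s) BIG then
    mulU (powU (far0 B (mulD P.ra (tS s) / P.k)) P.k + xF B P s) (s <<< 34) else BIG

def fbF (B : Blk) (P : EP) (s : ℕ) : ℕ :=
  bif Nat.ble 4 P.k then far0 B (mulD P.xa0 (tS s)) else farc B (mulD P.xa0 (tS s))

/-- The second order estimate. -/
def hF (B : Blk) (P : EP) (s : ℕ) : ℕ :=
  bif Nat.ble (fbF B P s) R07 && Nat.ble 3 P.k && Nat.blt (far1b B (mulD P.xa0 (tS s))) BIG &&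
      Nat.blt (far2 B (mulD P.xa0 (tS s))) BIG then
    ((((powU (fbF B P s) (P.k - 1) * far2 B (mulD P.xa0 (tS s))) <<< 39) +
      2 * powU (fbF B P s) (P.k - 2) * far1b B (mulD P.xa0 (tS s)) * far1b B (mulD P.xa0 (tS s))) *
        tS s * tS s * s) >>> 166 + 1
  else BIG

/-- The estimate with two outer factors. -/
def oF (B : Blk) (Q : ℕ → ℕ → ℕ) (P : EP) (s : ℕ) : ℕ :=
  bif Nat.blt (oTail B Q P.x1l P.x2l s) BIG then mulU (oTail B Q P.x1l P.x2l s)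
    (pTail B P.ra P.xb1 s + powU (gAB (rqI Q (mulD P.ra (tS s) / P.k))) P.k) else BIG

theorem finE_eq {α : Type} (B : Blk) (Q : ℕ → ℕ → ℕ) (P : EP) (kk : ℕ → ℕ → ℕ → α)
    (s sc sh sg : ℕ) : finE B Q P kk s sc sh sg =
      Bool.casesOn (motive := fun _ => α) P.ho
        (Bool.casesOn (motive := fun _ => α) (Nat.ble (cF B P s) (mulD P.Vs (hF B P s)))
          (kk sc (sh + hF B P s) sg) (kk (sc + cF B P s) sh sg))
        (kk (sc + oF B Q P s) sh sg) := by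
  simp only [finE, forceN_eq, cF, hF, oF, xF, xA, xB, fbF]

theorem R07_lt : R07 < BIG := by
  unfold R07 BIG
  omega

theorem bif_lt {b : Bool} {a c : ℕ} (e : c = bif b then a else BIG) (h : c < BIG) :
    b = true ∧ c = a := by
  cases b
  · exact absurd (by rwa [e, cond_false] at h : BIG < BIG) (lt_irrefl _)
  · exact ⟨rfl, e⟩

theorem min_or (a b : ℕ) : min a b = a ∨ min a b = b := by omega

theorem var_mul (T : Finset ι) (x : ι → ℝ) (t : ℝ) :
    Var T (fun j => x j * t) = t ^ 2 * Var T x := by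
  unfold Var
  rw [Finset.mul_sum]
  refine Finset.sum_congr rfl fun j _ => ?_
  rw [← Finset.sum_mul]
  ring

theorem wa_le (hP : InE P T x x1 x2) (s : ℕ) :
    rr (mulD P.ra (tS s) / P.k) ≤ mean T x * sR s ^ 2 := by
  have hk : (0 : ℝ) < P.k := by
    have := hP.k2
    exact_mod_cast (by omega : 0 < P.k)
  have h1 : rr (mulD P.ra (tS s)) ≤ (∑ j ∈ T, x j) * sR s ^ 2 :=
    mulD_le_of hP.sum.1 (tS_eq s).le
  refine (rr_div_le _ _).trans ?_
  unfold mean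
  rw [hP.card, div_mul_eq_mul_div]
  exact div_le_div_of_nonneg_right h1 hk.le

theorem ylo_le (hP : InE P T x x1 x2) (s : ℕ) {j : ι} (hj : j ∈ T) :
    rr (mulD P.xa0 (tS s)) ≤ x j * sR s ^ 2 :=
  mulD_le_of (hP.rng j hj).1 (tS_eq s).le

theorem rng0 (hP : InE P T x x1 x2) : ∀ j ∈ T, 0 ≤ x j ∧ x j ≤ rr P.xb1 := fun j hj =>
  ⟨(rr_nonneg _).trans (hP.rng j hj).1, (hP.rng j hj).2⟩

theorem pow_bd {a r z : ℝ} {k : ℕ} (hk : 2 ≤ k) (ha : 0 ≤ a) (hr0 : 0 ≤ r) (hr1 : r ≤ 1)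
    (hz : a ^ k ≤ z) : (a * r) ^ k ≤ z * r ^ 2 := by
  rw [mul_pow]
  exact mul_le_mul hz (pow_le_pow_of_le_one hr0 hr1 hk) (pow_nonneg hr0 k)
    ((pow_nonneg ha k).trans hz)

theorem ratio {S u : ℝ} (hS : 0 < S) (hu : S ≤ u) : 0 ≤ S / u ∧ S / u ≤ 1 :=
  ⟨div_nonneg hS.le (hS.le.trans hu), (div_le_one (hS.trans_le hu)).2 hu⟩

theorem xF_spec (h : BOK B Q E) (hq : q ∈ B.I) (hP : InE P T x x1 x2) {s : ℕ}
    (hx : xF B P s < BIG) (hS : 0 < sR s) {u : ℝ} (hu : sR s ≤ u) :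
    |∏ j ∈ T, B.g 0 q (x j * u ^ 2)| ≤ rr (xF B P s) * (sR s / u) ^ 2 := by
  obtain ⟨r0, r1⟩ := ratio hS hu
  unfold xF at hx ⊢
  rcases min_or (xA B P s) (xB B P s) with e | e
  · rw [e] at hx ⊢
    obtain ⟨hb, e2⟩ := bif_lt (c := xA B P s) (by rw [xA]) hx
    rw [e2]
    rw [hP.uni, cond_false, Bool.and_eq_true, Nat.ble_eq, Nat.ble_eq] at hb
    have hm : ((4 : ℕ) : ℝ) * rr P.xb1 ≤ ∑ j ∈ T, x j := by
      rw [← rr_nmul]
      exact (rr_le.2 hb.2).trans hP.sum.1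
    refine le_trans (le_of_eq ?_) (alg_tail h hq (rng0 hP) hm le_rfl hb.1 hu).2
    rw [Nat.sub_self 4, pow_zero (√65 : ℝ)]
    exact (mul_one _).symm
  · rw [e] at hx ⊢
    obtain ⟨hb, e2⟩ := bif_lt (c := xB B P s) (by rw [xB]) hx
    rw [e2]
    rw [Bool.and_eq_true, Nat.blt_eq] at hb
    rw [Finset.abs_prod]
    refine (Finset.prod_le_prod (g := fun _ => rr (far0 B (mulD P.xa0 (tS s))) * (sR s / u))
      (fun j _ => abs_nonneg _) fun j hj => (far0_sq h hq (ylo_le hP s hj) hb.1 hu).2).trans ?_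
    rw [Finset.prod_const, hP.card]
    exact pow_bd hP.k2 (rr_nonneg _) r0 r1 (powU_ge _ _)

theorem cF_spec (h : BOK B Q E) (hq : q ∈ B.I) (hP : InE P T x x1 x2) (ho : P.ho = false) {s : ℕ}
    (hc : cF B P s < BIG) :
    ∫ u in Ioi (sR s), FE (B.g 0 q) P.ho x1 x2 T x u ≤ rr (cF B P s) := by
  obtain ⟨hb, e2⟩ := bif_lt (c := cF B P s) (by rw [cF]) hc
  rw [e2]
  rw [Bool.and_eq_true, Bool.and_eq_true, Nat.ble_eq, Nat.ble_eq, Nat.blt_eq] at hb
  obtain ⟨⟨h7, -⟩, hx⟩ := hb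
  have hw := h7.trans_lt R07_lt
  have hS : 0 < sR s := (far0_sq h hq (wa_le hP s) hw le_rfl).1
  have hI := (hP.int h.sc hq).mono_set (Ioi_subset_Ioi hS.le)
  have key := int_tail (A2 := rr (powU (far0 B (mulD P.ra (tS s) / P.k)) P.k + xF B P s))
    (A3 := 0) hS hI fun u hu => by
      obtain ⟨r0, r1⟩ := ratio hS hu
      have h1 := xF_spec h hq hP hx hS hu
      have h2 := (far0_sq h hq (wa_le hP s) hw hu).2
      have h3 : |B.g 0 q (mean T x * u ^ 2) ^ T.card| ≤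
          rr (powU (far0 B (mulD P.ra (tS s) / P.k)) P.k) * (sR s / u) ^ 2 := by
        rw [abs_pow, hP.card]
        exact (pow_le_pow_left₀ (abs_nonneg _) h2 _).trans
          (pow_bd hP.k2 (rr_nonneg _) r0 r1 (powU_ge _ _))
      unfold FE
      rw [ho, cond_false, one_mul, rr_add, zero_mul, add_zero, add_mul]
      have h4 := le_abs_self (∏ j ∈ T, B.g 0 q (x j * u ^ 2))
      have h5 := neg_abs_le (B.g 0 q (mean T x * u ^ 2) ^ T.card)
      linarith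
  refine key.trans ?_
  rw [zero_div, add_zero, ← shl34]
  exact mulU_ge _ _

theorem units (p1 p2 k1 k2 t s : ℕ) (ht : rr t = sR s ^ 2) :
    (rr p1 * rr k2 / 2 + 2 * rr p2 * rr k1 ^ 2) * sR s ^ 5 ≤
      rr (((((p1 * k2) <<< 39) + 2 * p2 * k1 * k1) * t * t * s) >>> 166 + 1) := by
  refine le_trans (le_of_eq ?_) (rr_shr_lt _ 166).le
  have h1 : (t : ℝ) = sR s ^ 2 * 2 ^ 40 := by
    rw [← ht, rr, div_mul_cancel₀ _ (by positivity)]
  have hs : (s : ℝ) = sR s * 64 := by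
    rw [sR, div_mul_cancel₀ _ (by positivity)]
  rw [rr_muln _ s, rr_muln _ t, rr_muln _ t, rr_add, rr_shl, rr_mul p1, rr_mul _ k1, rr_mul _ k1,
    rr_nmul, h1]
  generalize sR s = S at hs ⊢
  rw [hs]
  push_cast
  ring

theorem hF_spec (h : BOK B Q E) (hq : q ∈ B.I) (hP : InE P T x x1 x2) (ho : P.ho = false) {s : ℕ}
    (hc : hF B P s < BIG) :
    ∫ u in Ioi (sR s), FE (B.g 0 q) P.ho x1 x2 T x u ≤ Var T x * rr (hF B P s) := by
  obtain ⟨hb, e2⟩ := bif_lt (c := hF B P s) (by rw [hF]) hc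
  rw [e2]
  rw [Bool.and_eq_true, Bool.and_eq_true, Bool.and_eq_true, Nat.ble_eq, Nat.ble_eq, Nat.blt_eq,
    Nat.blt_eq] at hb
  obtain ⟨⟨⟨h7, h3⟩, h1⟩, h2⟩ := hb
  have hS : 0 < sR s := by
    have hw := h7.trans_lt R07_lt
    have hy : rr (mulD P.xa0 (tS s)) ≤ rr P.xa0 * sR s ^ 2 := mulD_le_of le_rfl (tS_eq s).le
    unfold fbF at hw
    cases hb : Nat.ble 4 P.k
    · rw [hb, cond_false] at hw
      exact (farc_sq h hq hy hw le_rfl).1
    · rw [hb, cond_true] at hw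
      exact (far0_sq h hq hy hw le_rfl).1
  have hI := (hP.int h.sc hq).mono_set (Ioi_subset_Ioi hS.le)
  have hV : 0 ≤ Var T x := Finset.sum_nonneg fun _ _ => sq_nonneg _
  obtain ⟨K, hK⟩ : ∃ K : ℝ, K = rr (fbF B P s) ^ (P.k - 1) * rr (far2 B (mulD P.xa0 (tS s))) / 2 +
    2 * rr (fbF B P s) ^ (P.k - 2) * rr (far1b B (mulD P.xa0 (tS s))) ^ 2 := ⟨_, rfl⟩
  have key := int_tail (A2 := K * Var T x * sR s ^ 4) (A3 := 0) hS hI fun u hu => by
    have hu0 : 0 < u := hS.trans_le hu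
    have hc1 : 1 ≤ u / sR s := (one_le_div hS).2 hu
    have h4 := far_hess h hq (y := fun j => x j * u ^ 2) (k := P.k) (ylo := mulD P.xa0 (tS s))
      hc1 h3 hP.card.ge (fun j hj => by
        have h5 := mul_le_mul_of_nonneg_right (ylo_le hP s hj) (sq_nonneg (u / sR s))
        refine h5.trans (le_of_eq ?_)
        field_simp) (fb := fbF B P s) rfl h7 h1 h2
    rw [← hK, hP.card, Nat.sub_self, pow_zero, mul_one, var_mul, mean_mul, ← hP.card] at h4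
    unfold FE
    rw [ho, cond_false, one_mul, zero_mul, add_zero]
    have h6 : 0 < (u / sR s) ^ 6 := by positivity
    refine (le_abs_self _).trans (((le_div_iff₀ h6).2 h4).trans (le_of_eq ?_))
    field_simp
  refine key.trans ?_
  have h8 := units (powU (fbF B P s) (P.k - 1)) (powU (fbF B P s) (P.k - 2))
    (far1b B (mulD P.xa0 (tS s))) (far2 B (mulD P.xa0 (tS s))) (tS s) s (tS_eq s)
  have h9 : K ≤ rr (powU (fbF B P s) (P.k - 1)) * rr (far2 B (mulD P.xa0 (tS s))) / 2 +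
      2 * rr (powU (fbF B P s) (P.k - 2)) * rr (far1b B (mulD P.xa0 (tS s))) ^ 2 := by
    rw [hK]
    have a1 := powU_ge (fbF B P s) (P.k - 1)
    have a2 := powU_ge (fbF B P s) (P.k - 2)
    have a3 := rr_nonneg (far2 B (mulD P.xa0 (tS s)))
    gcongr
  have h10 := (mul_le_mul_of_nonneg_right h9 (pow_nonneg hS.le 5)).trans h8
  refine le_trans (le_of_eq ?_) (mul_le_mul_of_nonneg_left h10 hV)
  ring

theorem oF_spec (h : BOK B Q E) (hq : q ∈ B.I) (hP : InE P T x x1 x2) (ho : P.ho = true) {s : ℕ}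
    (hc : oF B Q P s < BIG) :
    ∫ u in Ioi (sR s), FE (B.g 0 q) P.ho x1 x2 T x u ≤ rr (oF B Q P s) := by
  obtain ⟨hb, e2⟩ := bif_lt (c := oF B Q P s) (by rw [oF]) hc
  rw [e2]
  rw [Nat.blt_eq] at hb
  obtain ⟨-, o1, -, o2, -⟩ := hP.out ho
  obtain ⟨hS, A2, A3, a2, a3, hA, hg⟩ := oTail_spec h hq o1 o2 hb
  have hI := (hP.int h.sc hq).mono_set (Ioi_subset_Ioi hS.le)
  obtain ⟨M, hM⟩ : ∃ M : ℕ,
    M = pTail B P.ra P.xb1 s + powU (gAB (rqI Q (mulD P.ra (tS s) / P.k))) P.k := ⟨_, rfl⟩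
  rw [← hM]
  have key := int_tail (A2 := A2 * rr M) (A3 := A3 * rr M) hS hI fun u hu => by
    have h1 := pTail_spec h hq (rng0 hP) hP.sum.1 hu
    have hm : 0 ≤ mean T x := div_nonneg hP.pos.le (Nat.cast_nonneg _)
    have h2 : rr (mulD P.ra (tS s) / P.k) ≤ mean T x * u ^ 2 :=
      (wa_le hP s).trans (mul_le_mul_of_nonneg_left (pow_le_pow_left₀ hS.le hu 2) hm)
    have h3 := abs_le_powU ((h.qok.rqI (mulD P.ra (tS s) / P.k) (mean T x * u ^ 2)).pt q hq _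
      ((rr_nonneg _).trans h2) h2 le_rfl).inR.abs P.k
    have h4 : |∏ j ∈ T, B.g 0 q (x j * u ^ 2) - B.g 0 q (mean T x * u ^ 2) ^ T.card| ≤ rr M := by
      rw [hM, rr_add, hP.card]
      exact (abs_sub _ _).trans (add_le_add h1 h3)
    unfold FE
    rw [ho, cond_true]
    refine (le_abs_self _).trans ?_
    rw [abs_mul]
    refine (mul_le_mul (hg u hu) h4 (abs_nonneg _) ((abs_nonneg _).trans (hg u hu))).trans
      (le_of_eq ?_)
    ring
  refine key.trans (le_trans (le_of_eq ?_) (le_mulU hA le_rfl (rr_nonneg M)))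
  ring

end YFinEX

open YFinEX in
theorem finE_exact {α : Type} (h : BOK B Q E) (P : EP) (kk : ℕ → ℕ → ℕ → α) (s sc sh sg : ℕ) :
    ∃ sc' sh', finE B Q P kk s sc sh sg = kk sc' sh' sg ∧ sc ≤ sc' ∧ sh ≤ sh' ∧
      (sc' < BIG → sh' < BIG → ∀ q ∈ B.I, ∀ (ι : Type) (T : Finset ι) (x : ι → ℝ) (x1 x2 : ℝ),
        InE P T x x1 x2 → ∫ u in Ioi (sR s), FE (B.g 0 q) P.ho x1 x2 T x u ≤
          PhiE 1 (Var T x) sc' sh' sg - PhiE 1 (Var T x) sc sh sg) := by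
  rw [finE_eq]
  rcases Bool.eq_false_or_eq_true P.ho with ho | ho
  · refine ⟨sc + oF B Q P s, sh, by rw [ho], Nat.le_add_right _ _, le_rfl, ?_⟩
    intro h1 _ q hq ι T x x1 x2 hP
    refine (oF_spec h hq hP ho ((Nat.le_add_left _ _).trans_lt h1)).trans (le_of_eq ?_)
    unfold PhiE
    rw [rr_add]
    ring
  · rcases Bool.eq_false_or_eq_true (Nat.ble (cF B P s) (mulD P.Vs (hF B P s))) with hb | hb
    · refine ⟨sc + cF B P s, sh, by rw [ho, hb], Nat.le_add_right _ _, le_rfl, ?_⟩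
      intro h1 _ q hq ι T x x1 x2 hP
      refine (cF_spec h hq hP ho ((Nat.le_add_left _ _).trans_lt h1)).trans (le_of_eq ?_)
      unfold PhiE
      rw [rr_add]
      ring
    · refine ⟨sc, sh + hF B P s, by rw [ho, hb], le_rfl, Nat.le_add_right _ _, ?_⟩
      intro _ h1 q hq ι T x x1 x2 hP
      refine (hF_spec h hq hP ho ((Nat.le_add_left _ _).trans_lt h1)).trans (le_of_eq ?_)
      unfold PhiE
      rw [rr_add]
      ring

end Pool.Agent.MP_39fec4_gt.K
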