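import Pool.Agent.MP_39fec4_gt.YTail
import Pool.Agent.MP_39fec4_gt.YGain

set_option autoImplicit false

namespace Pool.Agent.MP_39fec4_gt.K

open Set MeasureTheory Full

variable {B : Blk} {Q : ℕ → ℕ → ℕ} {E : ℕ → ℕ} {q : ℝ} {ι : Type} {T : Finset ι}

namespace YFinUX

def xU (B : Blk) (P : EP) (s : ℕ) : ℕ :=
  min (bif Nat.ble (64 * SS) (mulD B.gam (mulD P.xb1 (tS s))) &&
      (bif P.uni then Nat.ble (2 * P.k * P.xb1) (3 * SS) && Nat.ble 8 P.k
        else Nat.ble (4 * P.xb1) P.ra) then powU (divU SS (mulD B.gam (mulD P.xb1 (tS s)))) 2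
      else BIG)
    (bif Nat.blt (far0 B (mulD P.xa0 (tS s))) BIG && !P.uni then
      powU (far0 B (mulD P.xa0 (tS s))) P.k else BIG)

def cU (B : Blk) (P : EP) (s : ℕ) : ℕ :=
  bif Nat.ble (far0 B (mulD P.ra (tS s) / P.k)) R07 && Nat.ble 3 P.k && Nat.blt (xU B P s) BIG then
    mulU (powU (far0 B (mulD P.ra (tS s) / P.k)) P.k + xU B P s) (s <<< 34) else BIG

def fbU (B : Blk) (P : EP) (s : ℕ) : ℕ :=
  bif Nat.ble 4 P.k then far0 B (mulD P.xa0 (tS s)) else farc B (mulD P.xa0 (tS s))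

def hU (B : Blk) (P : EP) (s : ℕ) : ℕ :=
  bif Nat.ble (fbU B P s) R07 && Nat.ble 3 P.k && Nat.blt (far1b B (mulD P.xa0 (tS s))) BIG &&
      Nat.blt (far2 B (mulD P.xa0 (tS s))) BIG then
    ((((powU (fbU B P s) (P.k - 1) * far2 B (mulD P.xa0 (tS s))) <<< 39) +
      2 * powU (fbU B P s) (P.k - 2) * far1b B (mulD P.xa0 (tS s)) *
        far1b B (mulD P.xa0 (tS s))) * tS s * tS s * s) >>> 166 + 1
  else BIG

theorem fin_false {α : Type} (P : EP) (kk : ℕ → ℕ → ℕ → α) (s sc sh sg : ℕ) (ho : P.ho = false) :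
    finE B Q P kk s sc sh sg = Bool.casesOn (motive := fun _ => α)
      (Nat.ble (cU B P s) (mulD P.Vs (hU B P s))) (kk sc (sh + hU B P s) sg)
      (kk (sc + cU B P s) sh sg) := by
  unfold finE
  simp only [forceN_eq]
  rw [ho]
  rfl

theorem fin_true {α : Type} (P : EP) (kk : ℕ → ℕ → ℕ → α) (s sc sh sg : ℕ) (ho : P.ho = true) :
    ∃ d, finE B Q P kk s sc sh sg = kk (sc + d) sh sg := by
  unfold finE
  simp only [forceN_eq]
  rw [ho]
  exact ⟨_, rfl⟩

theorem cond_lt {b : Bool} {a : ℕ} (h : (bif b then a else BIG) < BIG) :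
    b = true ∧ (bif b then a else BIG) = a := by
  cases b
  · exact absurd h (lt_irrefl _)
  · exact ⟨rfl, rfl⟩

theorem R07_lt : R07 < BIG := by
  unfold R07 BIG
  omega

theorem Var_mul (T : Finset ι) (x : ι → ℝ) (t : ℝ) :
    Var T (fun j => x j * t) = t ^ 2 * Var T x := by
  unfold Var
  rw [Finset.mul_sum]
  refine Finset.sum_congr rfl fun j _ => ?_
  rw [← Finset.sum_mul]
  ring

theorem Var_nonneg (T : Finset ι) (x : ι → ℝ) : 0 ≤ Var T x :=
  Finset.sum_nonneg fun _ _ => sq_nonneg _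

theorem kap_scale {k n : ℕ} (hk : 8 ≤ k) (hn : k ≤ n) :
    √((n : ℝ) / k) ^ 5 * 0.7 ^ (n - k) ≤ 1 := by
  refine scale_nat (by norm_num) (by omega) hn ?_
  have h8 : (8 : ℝ) ≤ k := by exact_mod_cast hk
  have h1 : ((k : ℝ) + 1) ^ 5 ≤ (9 / 8 * k) ^ 5 :=
    pow_le_pow_left₀ (by positivity) (by linarith) 5
  have h2 : (0 : ℝ) ≤ (k : ℝ) ^ 5 := by positivity
  rw [mul_pow] at h1
  nlinarith

theorem kap_alg {k n : ℕ} (hk : 8 ≤ k) (hn : k ≤ n) :
    √((n : ℝ) / k) ^ 5 ≤ √65 ^ (2 * n / 3 - 4) := by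
  set j := 2 * n / 3 - 4 with hj
  have h1 : n ≤ 8 * 2 ^ j := by
    have : j < 2 ^ j := Nat.lt_two_pow_self
    omega
  have h8 : (8 : ℝ) ≤ k := by exact_mod_cast hk
  have h2 : (n : ℝ) / k ≤ 2 ^ j := by
    rw [div_le_iff₀ (by linarith)]
    have h3 : (n : ℝ) ≤ 8 * 2 ^ j := by exact_mod_cast h1
    have h4 : (0 : ℝ) < 2 ^ j := by positivity
    nlinarith
  have h5 : √((n : ℝ) / k) ≤ √2 ^ j := by
    rw [Real.sqrt_le_iff]
    refine ⟨by positivity, ?_⟩
    rwa [← pow_mul, mul_comm, pow_mul, Real.sq_sqrt (by norm_num)]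
  have h6 : √2 ^ 5 ≤ √65 := by
    refine Real.le_sqrt_of_sq_le ?_
    rw [← pow_mul, mul_comm, pow_mul, Real.sq_sqrt (by norm_num)]
    norm_num
  calc √((n : ℝ) / k) ^ 5 ≤ (√2 ^ j) ^ 5 := pow_le_pow_left₀ (by positivity) h5 5
    _ = (√2 ^ 5) ^ j := by rw [← pow_mul, ← pow_mul, mul_comm]
    _ ≤ √65 ^ j := pow_le_pow_left₀ (by positivity) h6 j

theorem crude (h : BOK B Q E) (hq : q ∈ B.I) {P : EP} {x : ι → ℝ} (hP : InU P T x) {s : ℕ}
    (hc : cU B P s < BIG) :
    ∫ u in Ioi (√((T.card : ℝ) / P.k) * sR s), FE (B.g 0 q) false 0 0 T x u ≤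
      ((P.k : ℝ) / T.card) ^ 2 * rr (cU B P s) := by
  obtain ⟨hb, hce⟩ := cond_lt hc
  simp only [Bool.and_eq_true, Nat.ble_eq, Nat.blt_eq] at hb
  obtain ⟨⟨hfw, -⟩, hx⟩ := hb
  have hk8 := hP.k8
  have hkn := hP.card
  have hx' := hx
  unfold xU at hx'
  rw [hP.uni, Bool.not_true, Bool.and_false, cond_false, cond_true] at hx'
  obtain ⟨hb2, hxe⟩ := cond_lt (lt_of_not_ge fun h0 => by
    rw [min_eq_right h0] at hx'
    exact lt_irrefl _ hx')
  have hxe' : xU B P s = powU (divU SS (mulD B.gam (mulD P.xb1 (tS s)))) 2 := by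
    unfold xU at hx ⊢
    rw [hP.uni, Bool.not_true, Bool.and_false, cond_false, cond_true, hxe] at hx ⊢
    refine min_eq_left (le_of_not_gt fun h0 => ?_)
    rw [min_eq_right h0.le] at hx
    exact lt_irrefl _ hx
  simp only [Bool.and_eq_true, Nat.ble_eq] at hb2
  obtain ⟨hz, hxb, -⟩ := hb2
  have hcU : cU B P s = mulU (powU (far0 B (mulD P.ra (tS s) / P.k)) P.k + xU B P s) (s <<< 34) :=
    hce
  rw [hcU, hxe']
  have hk0 : (0 : ℝ) < P.k := by exact_mod_cast (by omega : 0 < P.k)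
  have hn0 : (0 : ℝ) < T.card := by exact_mod_cast (by omega : 0 < T.card)
  set ka := √((T.card : ℝ) / P.k) with hka
  have hka0 : 0 < ka := Real.sqrt_pos.2 (by positivity)
  have hka2 : ka ^ 2 = (T.card : ℝ) / P.k := Real.sq_sqrt (by positivity)
  have hw : ((P.k : ℝ) / T.card) ^ 2 * ka ^ 4 = 1 := by
    rw [show ka ^ 4 = (ka ^ 2) ^ 2 by ring, hka2]
    field_simp
  have hy : rr (mulD P.ra (tS s) / P.k) ≤ 1 / P.k * sR s ^ 2 := by
    refine (rr_div_le _ _).trans ?_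
    have := mulD_le P.ra (tS s)
    rw [hP.ra, rr_SS, tS_eq, one_mul] at this
    rw [hP.ra, one_div, ← div_eq_inv_mul]
    exact div_le_div_of_nonneg_right this hk0.le
  have hfB := lt_of_le_of_lt hfw R07_lt
  have hS : 0 < sR s := (far0_sq h hq hy hfB le_rfl).1
  have hxi : ∀ j ∈ T, 0 ≤ x j * T.card / P.k ∧ x j * T.card / P.k ≤ rr P.xb1 := fun j hj =>
    ⟨(rr_nonneg _).trans (hP.rng j hj).1, (hP.rng j hj).2⟩
  have hm : ((2 * T.card / 3 : ℕ) : ℝ) * rr P.xb1 ≤ ∑ j ∈ T, x j * T.card / P.k := by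
    rw [← Finset.sum_div, ← Finset.sum_mul, hP.sum, one_mul, le_div_iff₀ hk0]
    have h1 : ((2 * T.card / 3 : ℕ) : ℝ) ≤ 2 * T.card / 3 := by
      have := Nat.cast_div_le (α := ℝ) (m := 2 * T.card) (n := 3)
      push_cast at this
      exact this
    have h2 := rr_le.2 hxb
    rw [rr_nmul, rr_nmul, rr_SS] at h2
    push_cast at h2
    have h3 : 0 ≤ rr P.xb1 * P.k := mul_nonneg (rr_nonneg _) hk0.le
    calc ((2 * T.card / 3 : ℕ) : ℝ) * rr P.xb1 * P.k
        = ((2 * T.card / 3 : ℕ) : ℝ) * (rr P.xb1 * P.k) := by ring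
      _ ≤ 2 * T.card / 3 * (3 / 2) := mul_le_mul h1 (by linarith) h3 (by positivity)
      _ = T.card := by ring
  generalize hfw0 : far0 B (mulD P.ra (tS s) / P.k) = fw at *
  generalize hx0 : powU (divU SS (mulD B.gam (mulD P.xb1 (tS s)))) 2 = x0 at *
  have h7 : rr fw ≤ 0.7 := (rr_le.2 hfw).trans R07_le
  have key := tail_scale (A2 := ((P.k : ℝ) / T.card) ^ 2 * rr (powU fw P.k + x0)) (A3 := 0)
    (hP.int h.sc hq) hka0 hS (by
      intro u hu
      have hu0 : 0 < u := lt_of_lt_of_le hS hu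
      have a1 := (alg_tail h hq hxi hm (by omega) hz hu).2
      have a2 := (far0_sq h hq hy (by rw [hfw0]; exact hfB) hu).2
      rw [hx0] at a1
      rw [hfw0] at a2
      set r := sR s / u with hr
      have hr0 : 0 ≤ r := by positivity
      have hr1 : r ≤ 1 := (div_le_one hu0).2 hu
      have e1 : ∏ j ∈ T, B.g 0 q (x j * (ka * u) ^ 2) =
          ∏ j ∈ T, B.g 0 q (x j * T.card / P.k * u ^ 2) :=
        Finset.prod_congr rfl fun j _ => by rw [mul_pow, hka2]; congr 1; ring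
      have e2 : mean T x * (ka * u) ^ 2 = 1 / P.k * u ^ 2 := by
        rw [mean, hP.sum, mul_pow, hka2]
        field_simp
      simp only [FE, cond_false, one_mul, zero_mul, add_zero]
      rw [e1, e2]
      set A := ∏ j ∈ T, B.g 0 q (x j * T.card / P.k * u ^ 2)
      set G := B.g 0 q (1 / P.k * u ^ 2)
      have b1 : ka ^ 5 * |A| ≤ rr x0 * r ^ 2 := by
        refine le_trans ?_ a1
        rw [mul_comm]
        exact mul_le_mul_of_nonneg_left (kap_alg hk8 hkn) (abs_nonneg _)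
      have b2 : |G ^ T.card| ≤ rr fw ^ P.k * 0.7 ^ (T.card - P.k) * r ^ 2 := by
        rw [abs_pow]
        refine (pow_le_pow_left₀ (abs_nonneg _) a2 _).trans ?_
        rw [mul_pow]
        refine mul_le_mul ?_ (pow_le_pow_of_le_one hr0 hr1 (by omega)) (by positivity)
          (mul_nonneg (pow_nonneg (rr_nonneg _) _) (by positivity))
        conv_lhs => rw [show T.card = P.k + (T.card - P.k) by omega, pow_add]
        exact mul_le_mul_of_nonneg_left (pow_le_pow_left₀ (rr_nonneg _) h7 _)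
          (pow_nonneg (rr_nonneg _) _)
      have b3 : ka ^ 5 * |G ^ T.card| ≤ rr (powU fw P.k) * r ^ 2 := by
        have c1 := kap_scale hk8 hkn
        have c2 := powU_ge fw P.k
        have c3 : 0 ≤ rr fw ^ P.k := pow_nonneg (rr_nonneg _) _
        calc ka ^ 5 * |G ^ T.card| ≤ ka ^ 5 * (rr fw ^ P.k * 0.7 ^ (T.card - P.k) * r ^ 2) :=
              mul_le_mul_of_nonneg_left b2 (by positivity)
          _ = (ka ^ 5 * 0.7 ^ (T.card - P.k)) * (rr fw ^ P.k * r ^ 2) := by ring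
          _ ≤ 1 * (rr (powU fw P.k) * r ^ 2) :=
              mul_le_mul c1 (mul_le_mul_of_nonneg_right c2 (by positivity)) (by positivity)
                zero_le_one
          _ = _ := one_mul _
      have b4 : ka ^ 5 * (A - G ^ T.card) ≤ rr (powU fw P.k + x0) * r ^ 2 := by
        have c1 : A - G ^ T.card ≤ |A| + |G ^ T.card| := by
          have := le_abs_self A
          have := neg_abs_le (G ^ T.card)
          linarith
        have c2 := mul_le_mul_of_nonneg_left c1 (by positivity : 0 ≤ ka ^ 5)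
        rw [rr_add]
        linarith
      calc ka * (A - G ^ T.card) = ((P.k : ℝ) / T.card) ^ 2 * ka ^ 4 * (ka * (A - G ^ T.card)) := by
            rw [hw, one_mul]
        _ = ((P.k : ℝ) / T.card) ^ 2 * (ka ^ 5 * (A - G ^ T.card)) := by ring
        _ ≤ ((P.k : ℝ) / T.card) ^ 2 * (rr (powU fw P.k + x0) * r ^ 2) :=
            mul_le_mul_of_nonneg_left b4 (by positivity)
        _ = _ := by ring)
  refine key.trans ?_
  rw [zero_div, add_zero, mul_assoc]
  refine mul_le_mul_of_nonneg_left ?_ (by positivity)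
  rw [← shl34]
  exact mulU_ge _ _

theorem units (a b k1 k2 s t : ℕ) (ht : rr t = sR s ^ 2) :
    (rr a * rr k2 / 2 + 2 * rr b * rr k1 ^ 2) * sR s ^ 5 ≤
      rr (((((a * k2) <<< 39) + 2 * b * k1 * k1) * t * t * s) >>> 166 + 1) := by
  refine le_trans (le_of_eq ?_) (rr_shr_lt _ _).le
  have hs : (s : ℝ) = sR s * 64 := by
    rw [sR, div_mul_cancel₀ _ (by norm_num)]
  rw [rr_muln, rr_mul, rr_mul, ht, rr_add, rr_shl, rr_mul, rr_mul, rr_mul, rr_nmul]
  generalize sR s = S at hs ⊢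
  rw [hs]
  push_cast
  ring

theorem second (h : BOK B Q E) (hq : q ∈ B.I) {P : EP} {x : ι → ℝ} (hP : InU P T x) {s : ℕ}
    (hc : hU B P s < BIG) :
    ∫ u in Ioi (√((T.card : ℝ) / P.k) * sR s), FE (B.g 0 q) false 0 0 T x u ≤
      Var T x * rr (hU B P s) := by
  obtain ⟨hb, hce⟩ := cond_lt hc
  simp only [Bool.and_eq_true, Nat.ble_eq, Nat.blt_eq] at hb
  obtain ⟨⟨⟨hfb, h3⟩, hk1⟩, hk2⟩ := hb
  have hk8 := hP.k8
  have hkn := hP.card
  have hhU : hU B P s = _ := hce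
  rw [hhU]
  have hk0 : (0 : ℝ) < P.k := by exact_mod_cast (by omega : 0 < P.k)
  have hn0 : (0 : ℝ) < T.card := by exact_mod_cast (by omega : 0 < T.card)
  set ka := √((T.card : ℝ) / P.k) with hka
  have hka0 : 0 < ka := Real.sqrt_pos.2 (by positivity)
  have hka2 : ka ^ 2 = (T.card : ℝ) / P.k := Real.sq_sqrt (by positivity)
  have hy : rr (mulD P.xa0 (tS s)) ≤ rr P.xa0 * sR s ^ 2 := by
    rw [← tS_eq]
    exact mulD_le _ _
  have hfe : fbU B P s = far0 B (mulD P.xa0 (tS s)) := by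
    unfold fbU
    rw [Nat.ble_eq_true_of_le (by omega : 4 ≤ P.k), cond_true]
  have hS : 0 < sR s :=
    (far0_sq h hq hy (by rw [← hfe]; exact lt_of_le_of_lt hfb R07_lt) le_rfl).1
  have hV := Var_nonneg T x
  have hfar := fun (u : ℝ) (hu : sR s ≤ u) =>
    far_hess (T := T) h hq (y := fun j => x j * (ka * u) ^ 2) (k := P.k)
      (ylo := mulD P.xa0 (tS s)) (c := u / sR s) ((one_le_div hS).2 hu) h3 hkn (by
        intro j hj
        have e : x j * (ka * u) ^ 2 = x j * T.card / P.k * u ^ 2 := by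
          rw [mul_pow, hka2]; ring
        rw [e]
        calc rr (mulD P.xa0 (tS s)) * (u / sR s) ^ 2 ≤ rr P.xa0 * sR s ^ 2 * (u / sR s) ^ 2 :=
              mul_le_mul_of_nonneg_right hy (by positivity)
          _ = rr P.xa0 * u ^ 2 := by field_simp
          _ ≤ _ := mul_le_mul_of_nonneg_right (hP.rng j hj).1 (by positivity))
      (fb := fbU B P s) rfl hfb hk1 hk2
  generalize fbU B P s = fb at *
  generalize far1b B (mulD P.xa0 (tS s)) = k1 at *
  generalize far2 B (mulD P.xa0 (tS s)) = k2 at *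
  have hun := units (powU fb (P.k - 1)) (powU fb (P.k - 2)) k1 k2 s _ (tS_eq s)
  set K := rr fb ^ (P.k - 1) * rr k2 / 2 + 2 * rr fb ^ (P.k - 2) * rr k1 ^ 2 with hK
  have hK0 : 0 ≤ K := by
    have := rr_nonneg fb
    have := rr_nonneg k2
    positivity
  have hKle : K ≤ rr (powU fb (P.k - 1)) * rr k2 / 2 + 2 * rr (powU fb (P.k - 2)) * rr k1 ^ 2 := by
    have c1 := mul_le_mul_of_nonneg_right (powU_ge fb (P.k - 1)) (rr_nonneg k2)
    have c2 := mul_le_mul_of_nonneg_right (powU_ge fb (P.k - 2)) (sq_nonneg (rr k1))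
    linarith
  have key := tail_scale (A2 := K * Var T x * sR s ^ 4) (A3 := 0)
    (hP.int h.sc hq) hka0 hS (by
      intro u hu
      have hu0 : 0 < u := lt_of_lt_of_le hS hu
      have a1 := hfar u hu
      rw [mean_mul, Var_mul] at a1
      simp only [FE, cond_false, one_mul, zero_mul, add_zero]
      set D := ∏ j ∈ T, B.g 0 q (x j * (ka * u) ^ 2) - B.g 0 q (mean T x * (ka * u) ^ 2) ^ T.card
      have c1 := kap_scale hk8 hkn
      have c2 : ka * D * (u / sR s) ^ 6 ≤ K * Var T x * u ^ 4 := by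
        calc ka * D * (u / sR s) ^ 6 ≤ ka * |D| * (u / sR s) ^ 6 := by
              have := le_abs_self D
              gcongr
          _ = ka * (|D| * (u / sR s) ^ 6) := by ring
          _ ≤ ka * (K * 0.7 ^ (T.card - P.k) * (((ka * u) ^ 2) ^ 2 * Var T x)) :=
              mul_le_mul_of_nonneg_left a1 hka0.le
          _ = (ka ^ 5 * 0.7 ^ (T.card - P.k)) * (K * Var T x * u ^ 4) := by ring
          _ ≤ 1 * (K * Var T x * u ^ 4) := mul_le_mul_of_nonneg_right c1 (by positivity)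
          _ = _ := one_mul _
      have c3 : K * Var T x * sR s ^ 4 * (sR s / u) ^ 2 * (u / sR s) ^ 6 =
          K * Var T x * u ^ 4 := by field_simp
      rw [← c3] at c2
      exact le_of_mul_le_mul_right c2 (by positivity))
  refine key.trans ?_
  rw [zero_div, add_zero]
  calc K * Var T x * sR s ^ 4 * sR s = Var T x * (K * sR s ^ 5) := by ring
    _ ≤ _ := mul_le_mul_of_nonneg_left
        ((mul_le_mul_of_nonneg_right hKle (by positivity)).trans hun) hV

end YFinUX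

open YFinUX in
theorem finE_uni {α : Type} (h : BOK B Q E) (P : EP) (kk : ℕ → ℕ → ℕ → α) (s sc sh sg : ℕ) :
    ∃ sc' sh', finE B Q P kk s sc sh sg = kk sc' sh' sg ∧ sc ≤ sc' ∧ sh ≤ sh' ∧
      (sc' < BIG → sh' < BIG → ∀ q ∈ B.I, ∀ (ι : Type) (T : Finset ι) (x : ι → ℝ), InU P T x →
        ∫ u in Ioi (√((T.card : ℝ) / P.k) * sR s), FE (B.g 0 q) false 0 0 T x u ≤
          PhiE (((P.k : ℝ) / T.card) ^ 2) (Var T x) sc' sh' sg -
            PhiE (((P.k : ℝ) / T.card) ^ 2) (Var T x) sc sh sg) := by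
  rcases Bool.eq_false_or_eq_true P.ho with ho | ho
  · obtain ⟨d, hd⟩ := fin_true (B := B) (Q := Q) P kk s sc sh sg ho
    refine ⟨_, _, hd, Nat.le_add_right _ _, le_rfl, fun _ _ q _ ι T x hP => ?_⟩
    rw [hP.ho] at ho
    exact absurd ho Bool.false_ne_true
  · rw [fin_false P kk s sc sh sg ho]
    rcases Bool.eq_false_or_eq_true (Nat.ble (cU B P s) (mulD P.Vs (hU B P s))) with hb | hb
    · rw [hb]
      refine ⟨_, _, rfl, Nat.le_add_right _ _, le_rfl, fun h1 _ q hq ι T x hP => ?_⟩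
      refine (crude h hq hP (lt_of_le_of_lt (Nat.le_add_left _ _) h1)).trans (le_of_eq ?_)
      simp only [PhiE, rr_add]
      ring
    · rw [hb]
      refine ⟨_, _, rfl, le_rfl, Nat.le_add_right _ _, fun _ h1 q hq ι T x hP => ?_⟩
      refine (second h hq hP (lt_of_le_of_lt (Nat.le_add_left _ _) h1)).trans (le_of_eq ?_)
      simp only [PhiE, rr_add]
      ring

end Pool.Agent.MP_39fec4_gt.K
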