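import Pool.Agent.MP_39fec4_gt.Dat.All
import Pool.Agent.MP_39fec4_gt.FFinal
import Pool.Agent.MP_39fec4_gt.S2Main

set_option autoImplicit false

/-! The three ranges of the exponent put together. -/

namespace Pool.Agent.MP_39fec4_gt.Full

theorem regS : RegS 2.4 := fun _ hp hp' _ hn x hx hd =>
  Small.regimeS2 hp hp' hn x hx.1 hx.2 (not_forall.1 hd)

theorem full : ∀ n : ℕ, 2 ≤ n → ∃ pn : ℝ, 2 < pn ∧ pn < 26.27 ∧ ∀ p : ℝ, 2 < p →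
    ∀ a : EuclideanSpace ℝ (Fin n), ‖a‖ = 1 →
      ((∀ b : EuclideanSpace ℝ (Fin n), ‖b‖ = 1 → sectionVol p b ≤ sectionVol p a) ↔
        (p ≤ pn ∧ ∀ j, |a j| = 1 / √n) ∨
          (pn ≤ p ∧ ∃ i j, i ≠ j ∧ |a i| = 1 / √2 ∧ |a j| = 1 / √2)) :=
  final (a := ((155 : ℕ) : ℝ) / 4096) (b := ((1712 : ℕ) : ℝ) / 4096) (P := 2.4) (by norm_num)
    (by norm_num) (by norm_num) (by norm_num) (by norm_num) regS K.rngAll.1 K.rngAll.2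

theorem not_both {n : ℕ} (hn : 3 ≤ n) {a : EuclideanSpace ℝ (Fin n)} (h1 : ∀ j, |a j| = 1 / √n)
    (h2 : ∃ i j, i ≠ j ∧ |a i| = 1 / √2 ∧ |a j| = 1 / √2) : False := by
  obtain ⟨i, -, -, hi, -⟩ := h2
  have h3 : (3 : ℝ) ≤ n := by exact_mod_cast hn
  have h4 : √2 < √(n : ℝ) := Real.sqrt_lt_sqrt (by norm_num) (by linarith)
  have h5 : 1 / √(n : ℝ) < 1 / √2 := one_div_lt_one_div_of_lt (by positivity) h4
  rw [← h1 i, hi] at h5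
  exact lt_irrefl _ h5

theorem main : ∀ n : ℕ, 2 ≤ n → ∃ pn : ℝ, 2 < pn ∧ pn < 26.27 ∧
    (3 ≤ n → ∀ p : ℝ, 2 < p → ∀ d e : EuclideanSpace ℝ (Fin n), ‖d‖ = 1 → ‖e‖ = 1 →
      (∀ j, |d j| = 1 / √n) → (∃ i j, i ≠ j ∧ |e i| = 1 / √2 ∧ |e j| = 1 / √2) →
      (sectionVol p d = sectionVol p e ↔ p = pn)) ∧
    ∀ p : ℝ, 2 < p → ∀ a : EuclideanSpace ℝ (Fin n), ‖a‖ = 1 →
      ((∀ b : EuclideanSpace ℝ (Fin n), ‖b‖ = 1 → sectionVol p b ≤ sectionVol p a) ↔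
        (p ≤ pn ∧ ∀ j, |a j| = 1 / √n) ∨
          (pn ≤ p ∧ ∃ i j, i ≠ j ∧ |a i| = 1 / √2 ∧ |a j| = 1 / √2)) := by
  intro n hn
  obtain ⟨pn, h1, h2, h⟩ := full n hn
  refine ⟨pn, h1, h2, fun h3 p hp d e hd he d1 e1 => ⟨fun hv => ?_, fun hq => ?_⟩, h⟩
  · rcases le_total p pn with hl | hl
    · have m := (h p hp d hd).2 (Or.inl ⟨hl, d1⟩)
      rw [hv] at m
      rcases (h p hp e he).1 m with ⟨-, e2⟩ | ⟨hr, -⟩
      · exact (not_both h3 e2 e1).elim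
      · exact le_antisymm hl hr
    · have m := (h p hp e he).2 (Or.inr ⟨hl, e1⟩)
      rw [← hv] at m
      rcases (h p hp d hd).1 m with ⟨hr, -⟩ | ⟨-, d2⟩
      · exact le_antisymm hr hl
      · exact (not_both h3 d1 d2).elim
  · exact le_antisymm ((h p hp e he).2 (Or.inr ⟨hq.ge, e1⟩) d hd)
      ((h p hp d hd).2 (Or.inl ⟨hq.le, d1⟩) e he)

end Pool.Agent.MP_39fec4_gt.Full
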