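import Pool.Agent.MP_39fec4_gt.YTail

set_option autoImplicit false

namespace Pool.Agent.MP_39fec4_gt.K

open Set MeasureTheory Full

variable {B : Blk} {Q : ℕ → ℕ → ℕ} {E : ℕ → ℕ} {q : ℝ} {ι : Type} {T : Finset ι}

namespace YNodeBX

/-- `x` is bounded by `A` and its approximation `a` is within `F - A`. -/
def Nr (x a A F : ℝ) : Prop := |x| ≤ A ∧ |x - a| ≤ F - A

theorem Nr.abs {x a A F : ℝ} (h : Nr x a A F) : |a| ≤ F := by
  obtain ⟨h1, h2⟩ := h
  rw [abs_le] at h1 h2 ⊢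
  constructor <;> linarith [h1.1, h1.2, h2.1, h2.2]

theorem Nr.mul {x a A F y b C G : ℝ} (h : Nr x a A F) (h' : Nr y b C G) :
    Nr (x * y) (a * b) (A * C) (F * G) := by
  have hb := h'.abs
  obtain ⟨h1, h2⟩ := h
  obtain ⟨h3, h4⟩ := h'
  have hA : 0 ≤ A := (abs_nonneg _).trans h1
  have hF : 0 ≤ F - A := (abs_nonneg _).trans h2
  refine ⟨?_, ?_⟩
  · rw [abs_mul]
    exact mul_le_mul h1 h3 (abs_nonneg _) hA
  · have e : x * y - a * b = x * (y - b) + (x - a) * b := by ring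
    have t1 : |x * (y - b)| ≤ A * (G - C) := by
      rw [abs_mul]
      exact mul_le_mul h1 h4 (abs_nonneg _) hA
    have t2 : |(x - a) * b| ≤ (F - A) * G := by
      rw [abs_mul]
      exact mul_le_mul h2 hb (abs_nonneg _) hF
    have t3 := abs_add_le (x * (y - b)) ((x - a) * b)
    rw [e]
    nlinarith

theorem Nr.pow {x a A F : ℝ} (h : Nr x a A F) (k : ℕ) : Nr (x ^ k) (a ^ k) (A ^ k) (F ^ k) := by
  induction k with
  | zero => simp [Nr]
  | succ k ih =>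
    simp only [pow_succ]
    exact ih.mul h

theorem rr_dist (a : ℕ) : rr (dist a OFF) = |ro a| := by
  unfold dist
  rw [rr_add, rr_sub_OFF, rr_OFF_sub]
  rcases le_total 0 (ro a) with h | h
  · rw [max_eq_left h, max_eq_right (by linarith), abs_of_nonneg h, add_zero]
  · rw [max_eq_right h, max_eq_left (by linarith), abs_of_nonpos h, zero_add]

theorem ro_neg {a : ℕ} (h : a < OFF) : ro a ≤ 0 := by
  have := rr_le.mpr h.le
  rw [ro_eq]
  linarith

theorem ro_pos {a : ℕ} (h : ¬ a < OFF) : 0 ≤ ro a := by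
  have := rr_le.mpr (not_lt.mp h)
  rw [ro_eq]
  linarith

theorem ro_sub (m : ℕ) : -rr m ≤ ro (OFF - m) := by
  have := rr_sub_ge OFF m
  rw [ro_eq]
  linarith

theorem sgn_false (m : ℕ) : sgn false m = OFF + m := rfl

theorem sgn_true (m : ℕ) : sgn true m = OFF - m := rfl

/-- The sign recorded by `pNode`. -/
theorem sign_neg {a b c k : ℕ}
    (h : xor (xor (Nat.blt a OFF) (Nat.blt b OFF)) (!ev k && Nat.blt c OFF) = true) :
    ro a * ro b * ro c ^ k ≤ 0 := by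
  have hc : (!ev k && Nat.blt c OFF) = true → ro c ^ k ≤ 0 := fun hc => by
    rw [Bool.and_eq_true, Nat.blt_eq, Bool.not_eq_true', ← Bool.not_eq_true, ev_iff,
      Nat.not_even_iff_odd] at hc
    exact hc.1.pow_nonpos (ro_neg hc.2)
  have hc' : (!ev k && Nat.blt c OFF) = false → 0 ≤ ro c ^ k := fun hc => by
    by_cases hk : Even k
    · exact hk.pow_nonneg _
    · refine pow_nonneg (ro_pos fun hl => ?_) _
      have e1 : ev k = false := by
        rw [← Bool.not_eq_true, ev_iff]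
        exact hk
      rw [e1, Nat.blt_eq.mpr hl] at hc
      exact absurd hc (by decide)
  have ha : Nat.blt a OFF = true → ro a ≤ 0 := fun h => ro_neg (Nat.blt_eq.mp h)
  have ha' : Nat.blt a OFF = false → 0 ≤ ro a := fun h => ro_pos fun hl => by
    rw [Nat.blt_eq.mpr hl] at h
    exact absurd h (by decide)
  have hb : Nat.blt b OFF = true → ro b ≤ 0 := fun h => ro_neg (Nat.blt_eq.mp h)
  have hb' : Nat.blt b OFF = false → 0 ≤ ro b := fun h => ro_pos fun hl => by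
    rw [Nat.blt_eq.mpr hl] at h
    exact absurd h (by decide)
  generalize (!ev k && Nat.blt c OFF) = s3 at h hc hc'
  generalize Nat.blt a OFF = s1 at h ha ha'
  generalize Nat.blt b OFF = s2 at h hb hb'
  cases s1 <;> cases s2 <;> cases s3
  · exact absurd h (by decide)
  · exact mul_nonpos_of_nonneg_of_nonpos (mul_nonneg (ha' rfl) (hb' rfl)) (hc rfl)
  · exact mul_nonpos_of_nonpos_of_nonneg
      (mul_nonpos_of_nonneg_of_nonpos (ha' rfl) (hb rfl)) (hc' rfl)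
  · exact absurd h (by decide)
  · exact mul_nonpos_of_nonpos_of_nonneg
      (mul_nonpos_of_nonpos_of_nonneg (ha rfl) (hb' rfl)) (hc' rfl)
  · exact absurd h (by decide)
  · exact absurd h (by decide)
  · exact mul_nonpos_of_nonneg_of_nonpos (mul_nonneg_of_nonpos_of_nonpos (ha rfl) (hb rfl)) (hc rfl)

theorem shr80 (a b p : ℕ) : rr ((a * b * p) >>> 80) ≤ rr a * rr b * rr p ∧
    rr a * rr b * rr p ≤ rr ((a * b * p) >>> 80) + rr 1 := by
  have h1 := rr_shr_le (a * b * p) 80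
  have h2 := rr_shr_lt (a * b * p) 80
  have e : rr (a * b * p) / 2 ^ 80 = rr a * rr b * rr p := by
    rw [rr_mul, rr_mul]
    field_simp
  rw [e] at h1 h2
  rw [rr_add] at h2
  exact ⟨h1, h2.le⟩

/-- The evaluation at a corner, in terms of three records. -/
theorem node {g1 g2 g3 : ℝ} {a b c c1 c2 c3 : ℕ} (k : ℕ)
    (h1 : Nr g1 (ro a) (rr (gAB c1)) (rr (gAB c1 + gPe c1)))
    (h2 : Nr g2 (ro b) (rr (gAB c2)) (rr (gAB c2 + gPe c2)))
    (h3 : Nr g3 (ro c) (rr (gAB c3)) (rr (gAB c3 + gPe c3))) :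
    g1 * g2 * g3 ^ k ≤ ro (sgn (xor (xor (Nat.blt a OFF) (Nat.blt b OFF)) (!ev k && Nat.blt c OFF))
      ((dist a OFF * dist b OFF * powD (dist c OFF) k) >>> 80)) + rr (evE c1 c2 c3 k) := by
  have hp := (abs_le.mp ((h1.mul h2).mul (h3.pow k)).2).2
  have h12 := (h1.mul h2).abs
  have hs := @sign_neg a b c k
  obtain ⟨s1, s2⟩ := shr80 (dist a OFF) (dist b OFF) (powD (dist c OFF) k)
  have p1 := powD_le (dist c OFF) k
  have p2 := (powD_lt (dist c OFF) k).le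
  rw [rr_add] at p2
  rw [rr_dist] at p1 p2
  rw [rr_dist, rr_dist, ← abs_mul] at s1 s2
  have e0 := rr_nonneg 1
  have hE : rr (gAB c1 + gPe c1) * rr (gAB c2 + gPe c2) * (rr (gAB c3 + gPe c3) ^ k + rr 1) -
      rr (gAB c1) * rr (gAB c2) * rr (gAB c3) ^ k + rr 1 ≤ rr (evE c1 c2 c3 k) := by
    unfold evE
    generalize gAB c1 + gPe c1 = F1
    generalize gAB c2 + gPe c2 = F2
    generalize gAB c3 + gPe c3 = F3
    have u1 : rr F1 * rr F2 * (rr F3 ^ k + rr 1) ≤ rr (mulU (mulU F1 F2) (powU F3 k + 1)) := by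
      refine le_mulU (mulU_ge _ _) ?_ (add_nonneg (pow_nonneg (rr_nonneg _) _) e0)
      rw [rr_add]
      linarith [powU_ge F3 k]
    have u2 : rr (mulD (mulD (gAB c1) (gAB c2)) (powD (gAB c3) k)) ≤
        rr (gAB c1) * rr (gAB c2) * rr (gAB c3) ^ k := mulD_le_of (mulD_le _ _) (powD_le _ _)
    have u3 := rr_sub_ge (mulU (mulU F1 F2) (powU F3 k + 1))
      (mulD (mulD (gAB c1) (gAB c2)) (powD (gAB c3) k))
    rw [rr_add]
    linarith
  have q0 : 0 ≤ |ro a * ro b| := abs_nonneg _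
  have q1 : |ro a * ro b * ro c ^ k| = |ro a * ro b| * |ro c| ^ k := by rw [abs_mul, abs_pow]
  have q2 : |ro a * ro b| * rr 1 ≤ rr (gAB c1 + gPe c1) * rr (gAB c2 + gPe c2) * rr 1 :=
    mul_le_mul_of_nonneg_right h12 e0
  have q3 : 0 ≤ |ro a * ro b| * rr 1 := mul_nonneg q0 e0
  generalize xor (xor (Nat.blt a OFF) (Nat.blt b OFF)) (!ev k && Nat.blt c OFF) = s at hs ⊢
  generalize (dist a OFF * dist b OFF * powD (dist c OFF) k) >>> 80 = m at s1 s2 ⊢
  cases s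
  · have q4 := mul_le_mul_of_nonneg_left p2 q0
    have q5 := le_abs_self (ro a * ro b * ro c ^ k)
    rw [sgn_false, ro_OFF]
    linarith
  · have q4 := mul_le_mul_of_nonneg_left p1 q0
    have q5 := abs_of_nonpos (hs rfl)
    have q6 := ro_sub m
    rw [sgn_true]
    linarith

/-- An argument within one unit above a computed point of a range. -/
theorem near (h : BOK B Q E) (hq : q ∈ B.I) {V : ℕ → ℕ} (hV : VOK B.C q V B.Yp) {lo hi y : ℕ}
    {u : ℝ} (h1 : lo ≤ y) (h2 : y < hi) (h3 : hi < B.Yp) (h4 : rr y ≤ u) (h5 : u ≤ rr (y + 1)) :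
    Nr (B.g 0 q u) (ro (pevN V y)) (rr (gAB (rq Q lo hi)))
      (rr (gAB (rq Q lo hi) + gPe (rq Q lo hi))) := by
  have hr := h.qok.rq lo hi
  generalize rq Q lo hi = R at hr ⊢
  refine ⟨(hr.pt q hq u ((rr_nonneg y).trans h4) ((rr_le.mpr h1).trans h4)
    (h5.trans (rr_le.mpr h2))).inR.abs, ?_⟩
  rw [rr_add, add_sub_cancel_left]
  exact (hr.pe y (rr_le.mpr h1) (rr_lt.mpr h2) (h2.trans h3)).pevN h.sc hq hV h4 h5

theorem div_succ (m : ℕ) {k : ℕ} (hk : 1 ≤ k) : rr (m + 1) / k ≤ rr (m / k + 1) := by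
  have hk' : (0 : ℝ) < k := by exact_mod_cast hk
  have h1 : m + 1 ≤ (m / k + 1) * k := by
    have := Nat.lt_div_mul_add (a := m) (show 0 < k from hk)
    rw [add_mul, one_mul]
    omega
  rw [div_le_iff₀ hk', ← rr_muln]
  exact rr_le.mpr h1

/-- The value of the profile lies in the range of the record. -/
theorem inR (h : BOK B Q E) (hq : q ∈ B.I) {lo hi : ℕ} {u : ℝ} (h1 : rr lo ≤ u) (h2 : u ≤ rr hi) :
    InR (rq Q lo hi) (B.g 0 q u) :=
  ((h.qok.rq lo hi).pt q hq u ((rr_nonneg lo).trans h1) h1 h2).inR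

theorem halfI (h : BOK B Q E) (hq : q ∈ B.I) {lo : ℕ} {u : ℝ} (h1 : rr lo ≤ u) :
    |B.g 0 q u| ≤ rr (gAB (rqI Q lo)) :=
  ((h.qok.rqI lo u).pt q hq u ((rr_nonneg lo).trans h1) h1 le_rfl).inR.abs

theorem zn {g1 g2 g3 : ℝ} {c1 c2 c3 : ℕ} (k : ℕ) (h1 : InR c1 g1) (h2 : InR c2 g2)
    (h3 : InR c3 g3) {z : ℕ}
    (hz : z = max (mulD (oLop c1 c2) (pHin c3 k)) (mulD (oHin c1 c2) (pLop c3 k))) :
    g1 * g2 * g3 ^ k ≤ ro (bif Nat.beq z 0 then
      OFF + max (mulU (oHi c1 c2) (pHi c3 k)) (mulU (oNeg c1 c2) (pNeg c3 k)) else OFF - z) := by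
  rw [Bool.cond_eq_ite]
  split_ifs with h0
  · rw [ro_OFF, rr_max]
    rcases le_total 0 (g3 ^ k) with hw | hw
    · exact (le_mulU (oHi_ge h1 h2) (pHi_ge' h3 k) hw).trans (le_max_left _ _)
    · have a1 := oNeg_le h1 h2
      have a2 := pNeg_le h3 k
      have a3 := le_mulU (x := -(g1 * g2)) (y := -g3 ^ k) (a := oNeg c1 c2) (b := pNeg c3 k)
        (by linarith) (by linarith) (by linarith)
      rw [neg_mul_neg] at a3
      exact a3.trans (le_max_right _ _)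
  · rw [Nat.beq_eq] at h0
    have a1 : rr z ≤ -(g1 * g2 * g3 ^ k) := by
      rw [hz] at h0 ⊢
      refine ZFineX.max_le_of (fun hu => ?_) (fun hv => ?_) (Or.inl (Nat.pos_of_ne_zero h0))
      · obtain ⟨p1, p2⟩ := ZFineX.mulD_pos hu
        have b1 := oLop_le h1 h2 (Or.inl p1)
        have b2 := pHin_ge h3 p2
        have b3 := mulD_le_of (x := g1 * g2) (y := -g3 ^ k) (a := oLop c1 c2) (b := pHin c3 k) b1
          (by linarith)
        linarith
      · obtain ⟨p1, p2⟩ := ZFineX.mulD_pos hv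
        have b1 := oHin_ge h1 h2 p1
        have b2 := pLop_le' h3 p2
        have b3 := mulD_le_of (x := -(g1 * g2)) (y := g3 ^ k) (a := oHin c1 c2) (b := pLop c3 k)
          (by linarith) b2
        linarith
    have a2 := ro_sub z
    linarith

theorem lo_mul {a t : ℕ} {x : ℝ} (h : rr a ≤ x) : rr (mulD a t) ≤ x * rr t :=
  mulD_le_of h le_rfl

theorem hi_mul {a t : ℕ} {x : ℝ} (h : x ≤ rr a) : x * rr t ≤ rr (mulU a t) :=
  le_mulU h le_rfl (rr_nonneg t)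

theorem lo_div {a t k : ℕ} {x : ℝ} (h : rr a ≤ x) : rr (mulD a t / k) ≤ x / k * rr t := by
  refine (rr_div_le _ _).trans ?_
  rw [div_mul_eq_mul_div]
  exact div_le_div_of_nonneg_right (lo_mul h) (Nat.cast_nonneg k)

theorem hi_div {a t k : ℕ} (hk : 1 ≤ k) {x : ℝ} (h : x ≤ rr a) :
    x / k * rr t ≤ rr (mulU a t / k + 1) := by
  refine le_trans ?_ (rr_div_lt _ hk).le
  rw [div_mul_eq_mul_div]
  exact div_le_div_of_nonneg_right (hi_mul h) (Nat.cast_nonneg k)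

theorem shl36 (M H : ℕ) : rr ((M * H) <<< 36) = M * ((H : ℝ) / 16) := by
  rw [rr_shl]
  unfold rr
  push_cast
  ring

theorem shl35 (M H : ℕ) : rr ((M * H) <<< 35) = M * ((H : ℝ) / 16) / 2 := by
  rw [rr_shl]
  unfold rr
  push_cast
  ring

theorem prod_le {g1 g2 g3 u1 u2 u3 : ℝ} {a b c : ℕ} (h1 : |g1| ≤ rr a * u1)
    (h2 : |g2| ≤ rr b * u2) (h3 : |g3| ≤ rr c * u3) (h0 : 0 ≤ u1 * u2 * u3) :
    g1 * g2 * g3 ≤ rr (mulU (mulU a b) c) * (u1 * u2 * u3) := by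
  have a1 : |g1 * g2 * g3| ≤ rr a * u1 * (rr b * u2) * (rr c * u3) := by
    have b1 := (abs_nonneg _).trans h1
    have b2 := (abs_nonneg _).trans h2
    rw [abs_mul, abs_mul]
    exact mul_le_mul (mul_le_mul h1 h2 (abs_nonneg _) b1) h3 (abs_nonneg _) (mul_nonneg b1 b2)
  have a2 : rr a * rr b * rr c ≤ rr (mulU (mulU a b) c) :=
    le_mulU (mulU_ge _ _) le_rfl (rr_nonneg _)
  have a3 := mul_le_mul_of_nonneg_right a2 h0
  have a4 := le_abs_self (g1 * g2 * g3)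
  linarith

/-- The choice among the three tail bounds. -/
theorem tail_case {f1 f2 f3 fc t1 t2 t3 v : ℕ}
    (hv : v = min (min (bif Nat.blt f1 BIG && Nat.blt f2 BIG then t1 else BIG)
      (bif Nat.blt fc BIG then t2 else BIG)) (bif Nat.blt f1 BIG && Nat.blt f3 BIG then t3 else BIG))
    (h : v < BIG) : (f1 < BIG ∧ f2 < BIG ∧ v = t1) ∨ (fc < BIG ∧ v = t2) ∨
      (f1 < BIG ∧ f3 < BIG ∧ v = t3) := by
  simp only [Bool.cond_eq_ite, Bool.and_eq_true, Nat.blt_eq] at hv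
  generalize BIG = b at hv h ⊢
  split_ifs at hv <;> omega

end YNodeBX

open YNodeBX

/-- The value at a grid point of the box. -/
theorem pNode_spec (h : BOK B Q E) (hq : q ∈ B.I) {V : ℕ → ℕ} (hV : VOK B.C q V B.Yp)
    {k xl xh ya yb x xi t : ℕ} (hk : 1 ≤ k) (hx : xl ≤ x ∧ x ≤ xh ∧ xh ≤ 1048576)
    (hy : ya ≤ xi ∧ xi ≤ yb ∧ yb ≤ 1048576)
    (hp : max (mulU (cX1 xh) t) (max (mulU (cX2 xl yb) t) (mulU (cR xl ya) t / k + 1)) < B.Yp) :
    PB (B.g 0 q) k (r20 x) (r20 xi) (rr t) ≤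
      ro (pNode V k x xi t) + rr (evB Q k xl xh ya yb t) := by
  obtain ⟨x1, x2, x3⟩ := hx
  obtain ⟨y1, y2, y3⟩ := hy
  rw [max_lt_iff, max_lt_iff] at hp
  obtain ⟨p1, p2, p3⟩ := hp
  have m1 : ∀ {a b : ℕ}, a ≤ b → cX1 a ≤ cX1 b := fun hab => by
    unfold cX1
    rw [Nat.shiftLeft_eq, Nat.shiftLeft_eq]
    exact Nat.mul_le_mul_right _ hab
  have m2 : ∀ {a b c d : ℕ}, a ≤ b → c ≤ d → cX2 b c ≤ cX2 a d := fun hab hcd =>
    Nat.mul_le_mul hcd (Nat.sub_le_sub_left hab _)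
  have m3 : ∀ {a b c d : ℕ}, a ≤ b → c ≤ d → cR b d ≤ cR a c := fun hab hcd =>
    Nat.mul_le_mul (Nat.sub_le_sub_left hcd _) (Nat.sub_le_sub_left hab _)
  have e1 := cX1_eq x
  have e2 := cX2_eq (x2.trans x3) xi
  have e3 := cR_eq (x2.trans x3) (y2.trans y3)
  have n1 := near h hq hV (lo := mulD (cX1 xl) t) (y := mulD (cX1 x) t) (u := r20 x * rr t)
    (mulD_mono (m1 x1) le_rfl) (Nat.lt_succ_of_le (mulD_mono (m1 x2) le_rfl)) p1
    (lo_mul e1.le) (hi_mul e1.ge)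
  have n2 := near h hq hV (lo := mulD (cX2 xh ya) t) (y := mulD (cX2 x xi) t)
    (u := r20 xi * (1 - r20 x) * rr t) (mulD_mono (m2 x2 y1) le_rfl)
    (Nat.lt_succ_of_le (mulD_mono (m2 x1 y2) le_rfl)) p2 (lo_mul e2.le) (hi_mul e2.ge)
  have n3 := near h hq hV (lo := mulD (cR xh yb) t / k) (y := mulD (cR x xi) t / k)
    (u := (1 - r20 xi) * (1 - r20 x) / k * rr t)
    (Nat.div_le_div_right (mulD_mono (m3 x2 y2) le_rfl))
    (Nat.lt_succ_of_le (Nat.div_le_div_right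
      ((mulD_mono (m3 x1 y1) le_rfl).trans (Nat.le_succ _)))) p3 (lo_div e3.le) (by
      refine le_trans ?_ (div_succ _ hk)
      rw [div_mul_eq_mul_div]
      exact div_le_div_of_nonneg_right (hi_mul e3.ge) (Nat.cast_nonneg k))
  simp only [pNode, forceN_eq]
  exact node k n1 n2 n3

theorem zNode_spec (h : BOK B Q E) (hq : q ∈ B.I) {k xl xh ya yb : ℕ} (hk : 1 ≤ k) {x1 xi : ℝ}
    (hb : Box xl xh ya yb x1 xi) (h1 : x1 ≤ 1) (h2 : xi ≤ 1) (t : ℕ) :
    PB (B.g 0 q) k x1 xi (rr t) ≤ ro (zNode Q k xl xh ya yb t) := by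
  obtain ⟨b1, b2, b3, b4, b5, b6⟩ := hb.bounds h1 h2
  simp only [zNode, forceN_eq]
  exact zn k (inR h hq (lo_mul b1) (hi_mul b2)) (inR h hq (lo_mul b3) (hi_mul b4))
    (inR h hq (lo_div b5) (hi_div hk b6)) rfl

theorem tailP_spec (h : BOK B Q E) (hq : q ∈ B.I) {k H xl xh ya yb M : ℕ} (hk : 1 ≤ k)
    (hM : 0 < M) (hH : 0 < H) {x1 xi : ℝ} (hb : Box xl xh ya yb x1 xi) (h1 : x1 ≤ 1) (h2 : xi ≤ 1)
    (ht : tailP B Q k H xl xh ya yb M < BIG) :
    ∃ A2 A3 : ℝ, 0 ≤ A2 ∧ 0 ≤ A3 ∧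
      (A2 + A3 / 2) * (M * ((H : ℝ) / 16)) ≤ rr (tailP B Q k H xl xh ya yb M) ∧
      ∀ s : ℝ, M * ((H : ℝ) / 16) ≤ s → PB (B.g 0 q) k x1 xi (s ^ 2) ≤
        A2 * (M * ((H : ℝ) / 16) / s) ^ 2 + A3 * (M * ((H : ℝ) / 16) / s) ^ 3 := by
  obtain ⟨b1, -, b3, -, b5, -⟩ := hb.bounds h1 h2
  have et : rr (tN H (M - 1)) = (M * ((H : ℝ) / 16)) ^ 2 := by
    rw [tN_eq, Nat.cast_sub hM, Nat.cast_one, sub_add_cancel]
  have e6 := shl36 M H
  have e5 := shl35 M H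
  have hS : (0 : ℝ) < M * ((H : ℝ) / 16) := by positivity
  simp only [tailP, forceN_eq] at ht ⊢
  generalize hv : (min (min _ _) _ : ℕ) = v at ht ⊢
  have hc := tail_case hv.symm ht
  clear hv ht
  have l1 := lo_mul (t := tN H (M - 1)) b1
  have l2 := lo_mul (t := tN H (M - 1)) b3
  have l3 := lo_div (t := tN H (M - 1)) (k := k) b5
  rw [et] at l1 l2 l3
  unfold PB P3
  generalize mulD (cX1 xl) (tN H (M - 1)) = y1 at hc l1
  generalize mulD (cX2 xh ya) (tN H (M - 1)) = y2 at hc l2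
  generalize mulD (cR xh yb) (tN H (M - 1)) / k = y3 at hc l3
  generalize xi * (1 - x1) = x2 at l2 ⊢
  generalize (1 - xi) * (1 - x1) / k = x3 at l3 ⊢
  generalize M * ((H : ℝ) / 16) = S at hS e5 e6 l1 l2 l3 ⊢
  have c1 : ∀ s, S ≤ s → 1 ≤ s / S := fun s hs => (one_le_div hS).mpr hs
  have c2 : ∀ s, S ≤ s → ∀ {y : ℕ} {x : ℝ}, rr y ≤ x * S ^ 2 → rr y * (s / S) ^ 2 ≤ x * s ^ 2 :=
    fun s _ y x hy => by
      have a1 := mul_le_mul_of_nonneg_right hy (sq_nonneg (s / S))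
      have a2 : x * S ^ 2 * (s / S) ^ 2 = x * s ^ 2 := by field_simp
      linarith
  have c3 : ∀ s, S ≤ s → ∀ {y : ℕ} {x : ℝ}, rr y ≤ x * S ^ 2 →
      |B.g 0 q (x * s ^ 2)| ≤ rr (gAB (rqI Q y)) := fun s hs y x hy => by
    refine halfI h hq (le_trans ?_ (c2 s hs hy))
    exact le_mul_of_one_le_right (rr_nonneg y) (one_le_pow₀ (c1 s hs))
  have c4 : ∀ s, S ≤ s → ∀ {y : ℕ} {x : ℝ}, rr y ≤ x * S ^ 2 → far0 B y < BIG →
      |B.g 0 q (x * s ^ 2)| ≤ rr (far0 B y) * (S / s) := fun s hs y x hy hf => by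
    have a1 := h.far.f0 y hf q hq _ _ (c1 s hs) (c2 s hs hy)
    rwa [div_div_eq_mul_div, mul_div_assoc] at a1
  have c5 : ∀ s, S ≤ s → 0 ≤ S / s ∧ S / s ≤ 1 := fun s hs =>
    ⟨div_nonneg hS.le (hS.le.trans hs), (div_le_one (hS.trans_le hs)).mpr hs⟩
  rcases hc with ⟨f1, f2, hv⟩ | ⟨f1, hv⟩ | ⟨f1, f3, hv⟩
  · refine ⟨_, 0, rr_nonneg (mulU (mulU (far0 B y1) (far0 B y2)) (powU (gAB (rqI Q y3)) k)),
      le_rfl, ?_, fun s hs => ?_⟩
    · rw [hv, zero_div, add_zero, ← e6]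
      exact mulU_ge _ _
    · have a1 := prod_le (u3 := 1) (c4 s hs l1 f1) (c4 s hs l2 f2)
        (by rw [mul_one]; exact abs_le_powU (c3 s hs l3) k)
        (by rw [mul_one]; exact mul_self_nonneg _)
      rw [zero_mul, add_zero, sq (S / s)]
      rwa [mul_one] at a1
  · refine ⟨0, _, le_rfl,
      rr_nonneg (mulU (mulU (farc B y1) (gAB (rqI Q y2))) (powU (gAB (rqI Q y3)) k)), ?_,
      fun s hs => ?_⟩
    · rw [hv, zero_add, div_mul_eq_mul_div, mul_div_assoc, ← e5]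
      exact mulU_ge _ _
    · have a0 := h.far.fc y1 f1 q hq _ _ (c1 s hs) (c2 s hs l1)
      rw [div_eq_mul_inv, ← inv_pow, inv_div] at a0
      have a1 := prod_le (u2 := 1) (u3 := 1) a0 (by rw [mul_one]; exact c3 s hs l2)
        (by rw [mul_one]; exact abs_le_powU (c3 s hs l3) k)
        (by rw [mul_one, mul_one]; exact pow_nonneg (c5 s hs).1 3)
      rw [zero_mul, zero_add]
      rwa [mul_one, mul_one] at a1
  · refine ⟨_, 0, rr_nonneg (mulU (mulU (far0 B y1) (gAB (rqI Q y2))) (powU (far0 B y3) k)),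
      le_rfl, ?_, fun s hs => ?_⟩
    · rw [hv, zero_div, add_zero, ← e6]
      exact mulU_ge _ _
    · have a0 : |B.g 0 q (x3 * s ^ 2) ^ k| ≤ rr (powU (far0 B y3) k) * (S / s) := by
        rw [abs_pow]
        refine (pow_le_pow_left₀ (abs_nonneg _) (c4 s hs l3 f3) k).trans ?_
        rw [mul_pow]
        exact mul_le_mul (powU_ge _ _) (pow_le_of_le_one (c5 s hs).1 (c5 s hs).2 (by omega))
          (pow_nonneg (c5 s hs).1 k) (rr_nonneg _)
      have a1 := prod_le (u2 := 1) (c4 s hs l1 f1) (by rw [mul_one]; exact c3 s hs l2) a0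
        (by rw [mul_one]; exact mul_self_nonneg _)
      rw [zero_mul, add_zero, sq (S / s)]
      rwa [mul_one] at a1

end Pool.Agent.MP_39fec4_gt.K
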