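import Pool.Agent.MP_39fec4_gt.YNodeA
import Pool.Agent.MP_39fec4_gt.YNodeB
import Pool.Agent.MP_39fec4_gt.YCross

set_option autoImplicit false

namespace Pool.Agent.MP_39fec4_gt.K

open Set MeasureTheory Full

variable {B : Blk} {Q : ℕ → ℕ → ℕ} {E : ℕ → ℕ} {q : ℝ} {ι : Type} {T : Finset ι}

namespace YMainX

theorem rec_sum (f : ℕ → ℕ) (n : ℕ) :
    Nat.rec (motive := fun _ => ℕ) 0 (fun m ih => ih + f m) n = ∑ m ∈ Finset.range n, f m := by
  induction n with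
  | zero => rfl
  | succ n ih =>
    rw [Finset.sum_range_succ, ← ih]

theorem rr_sum (f : ℕ → ℕ) (n : ℕ) :
    rr (∑ m ∈ Finset.range n, f m) = ∑ m ∈ Finset.range n, rr (f m) := by
  induction n with
  | zero => simp [rr_zero]
  | succ n ih => rw [Finset.sum_range_succ, Finset.sum_range_succ, rr_add, ih]

theorem ro_sum (f : ℕ → ℕ) (n : ℕ) :
    ∑ m ∈ Finset.range n, ro (f m) = rr (∑ m ∈ Finset.range n, f m) - n * rr OFF := by
  rw [rr_sum]
  simp only [ro_eq, Finset.sum_sub_distrib, Finset.sum_const, Finset.card_range, nsmul_eq_mul]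

theorem r20_le {a : ℕ} (h : a ≤ 1048576) : r20 a ≤ 1 := by
  have : (a : ℝ) ≤ 1048576 := by exact_mod_cast h
  unfold r20
  rw [div_le_one (by positivity)]
  linarith

theorem r20_pos {a : ℕ} (h : 0 < a) : 0 < r20 a := by
  have : (0 : ℝ) < a := by exact_mod_cast h
  unfold r20
  positivity

theorem r20_nonneg (a : ℕ) : 0 ≤ r20 a := by
  unfold r20
  positivity

theorem half : rr (SS / 2) = 1 / 2 := by
  rw [rr, SS]
  norm_num

theorem shl13 (d : ℕ) : rr ((d * d) <<< 13) = ((d : ℝ) / 4096) ^ 2 / 8 := by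
  rw [rr_shl]
  unfold rr
  push_cast
  ring

/-- The numerical test in terms of real numbers. -/
theorem test_real {H v s es zs tp mu e t M o : ℕ} (hs : rr s = 1 / 2)
    (h : H * v + (H * (s + es + zs) + 16 * (tp + mu + e)) < 16 * t + (H * M + 16) * o) :
    (H : ℝ) / 16 * rr v + (H : ℝ) / 16 * (1 / 2 + rr es + rr zs) + (rr tp + rr mu + rr e) <
      rr t + ((H : ℝ) / 16 * M + 1) * rr o := by
  have h1 := rr_lt.2 h
  simp only [rr_add, rr_nmul, hs] at h1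
  push_cast at h1
  linarith

/-- The smooth part of the sum on a box. -/
theorem smooth (h : BOK B Q E) {VV : ℕ → ℕ → ℕ} (hV : VVOK B VV) {k H xl xh ya yb a b M1 : ℕ}
    (hk : 1 ≤ k) (wf : Wf B xl xh ya yb a b)
    (he : eSum B Q k H xl xh ya yb (B.st * (b - a)) M1 < BIG) {th : ℝ → ℝ} {e w : ℝ}
    (hth : Ch (fun q => -th q) (B.q a) (B.q b) e)
    (ha : (H : ℝ) / 16 * (rr (vMax (VV a) k H xl xh ya yb M1) - M1 * rr OFF) - th (B.q a) ≤ w)
    (hb : (H : ℝ) / 16 * (rr (vMax (VV b) k H xl xh ya yb M1) - M1 * rr OFF) - th (B.q b) ≤ w)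
    (hq : q ∈ Icc (B.q a) (B.q b)) {x1 xi : ℝ} (hx : Box xl xh ya yb x1 xi) :
    (H : ℝ) / 16 * ∑ m ∈ Finset.range M1, PB (B.g 0 q) k x1 xi (rr (tN H m)) - th q ≤
      w + (H : ℝ) / 16 * rr (eSum B Q k H xl xh ya yb (B.st * (b - a)) M1) + e := by
  have es : eSum B Q k H xl xh ya yb (B.st * (b - a)) M1 =
      ∑ m ∈ Finset.range M1, eNode B Q k xl xh ya yb (B.st * (b - a)) (tN H m) :=
    rec_sum (fun m => eNode B Q k xl xh ya yb (B.st * (b - a)) (tN H m)) M1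
  rw [es] at he ⊢
  have sp := fun (m : ℕ) (hm : m ∈ Finset.range M1) => eNode_spec h hk wf (t := tN H m)
    (lt_of_le_of_lt (Finset.single_le_sum
      (f := fun m => eNode B Q k xl xh ya yb (B.st * (b - a)) (tN H m))
      (fun _ _ => Nat.zero_le _) hm) he)
  have s1 := fun m hm => (sp m hm).1
  have s2 := fun m hm => (sp m hm).2
  clear sp he es
  choose! ex ey eq s3 s4 s5 s6 using s2
  have h0 : (0 : ℝ) ≤ (H : ℝ) / 16 := by positivity
  have vert : ∀ v, v < B.nv → ∀ x y, xl ≤ x → x ≤ xh → ya ≤ y → y ≤ yb →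
      vSum (VV v) k H x y M1 ≤ vMax (VV v) k H xl xh ya yb M1 →
      (H : ℝ) / 16 * (rr (vMax (VV v) k H xl xh ya yb M1) - M1 * rr OFF) - th (B.q v) ≤ w →
      (H : ℝ) / 16 * ∑ m ∈ Finset.range M1, PB (B.g 0 (B.q v)) k (r20 x) (r20 y) (rr (tN H m)) +
        -th (B.q v) ≤ w + (H : ℝ) / 16 *
          ∑ m ∈ Finset.range M1, rr (evB Q k xl xh ya yb (tN H m)) := by
    intro v hv x y x0 x1 y0 y1 hm hw
    have a1 := Finset.sum_le_sum fun m (hm : m ∈ Finset.range M1) =>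
      pNode_spec h (h.sc.q_mem hv) (hV v hv) hk ⟨x0, x1, wf.x.2⟩ ⟨y0, y1, wf.y.2⟩ (s1 m hm)
    have a2 : vSum (VV v) k H x y M1 = ∑ m ∈ Finset.range M1, pNode (VV v) k x y (tN H m) :=
      rec_sum (fun m => pNode (VV v) k x y (tN H m)) M1
    rw [Finset.sum_add_distrib, ro_sum (fun m => pNode (VV v) k x y (tN H m)), ← a2] at a1
    have a3 := rr_le.2 hm
    have a4 := mul_le_mul_of_nonneg_left a1 h0
    have a5 := mul_le_mul_of_nonneg_left a3 h0
    linarith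
  have la : a < B.nv := lt_of_le_of_lt wf.q.1 wf.q.2
  have lb : b < B.nv := wf.q.2
  have m1 : ∀ V, vSum V k H xl ya M1 ≤ vMax V k H xl xh ya yb M1 := fun V =>
    (le_max_left _ _).trans (le_max_left _ _)
  have m2 : ∀ V, vSum V k H xl yb M1 ≤ vMax V k H xl xh ya yb M1 := fun V =>
    (le_max_right _ _).trans (le_max_left _ _)
  have m3 : ∀ V, vSum V k H xh ya M1 ≤ vMax V k H xl xh ya yb M1 := fun V =>
    (le_max_left _ _).trans (le_max_right _ _)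
  have m4 : ∀ V, vSum V k H xh yb M1 ≤ vMax V k H xl xh ya yb M1 := fun V =>
    (le_max_right _ _).trans (le_max_right _ _)
  have key := box_le (F := fun x y q =>
      (H : ℝ) / 16 * ∑ m ∈ Finset.range M1, PB (B.g 0 q) k x y (rr (tN H m)) + -th q)
    (fun y hy q hq => ((Ch.sum (Finset.range M1) fun m hm => s4 m hm y hy q hq).smul h0).add
      (Ch.const (-th q) _ _))
    (fun x hx q hq => ((Ch.sum (Finset.range M1) fun m hm => s5 m hm x hx q hq).smul h0).add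
      (Ch.const (-th q) _ _))
    (fun x hx y hy => ((Ch.sum (Finset.range M1) fun m hm => s6 m hm x hx y hy).smul h0).add hth)
    (vert a la xl ya le_rfl wf.x.1 le_rfl wf.y.1 (m1 _) ha)
    (vert b lb xl ya le_rfl wf.x.1 le_rfl wf.y.1 (m1 _) hb)
    (vert a la xl yb le_rfl wf.x.1 wf.y.1 le_rfl (m2 _) ha)
    (vert b lb xl yb le_rfl wf.x.1 wf.y.1 le_rfl (m2 _) hb)
    (vert a la xh ya wf.x.1 le_rfl le_rfl wf.y.1 (m3 _) ha)
    (vert b lb xh ya wf.x.1 le_rfl le_rfl wf.y.1 (m3 _) hb)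
    (vert a la xh yb wf.x.1 le_rfl wf.y.1 le_rfl (m4 _) ha)
    (vert b lb xh yb wf.x.1 le_rfl wf.y.1 le_rfl (m4 _) hb) hx.x hx.y hq
  have a1 := Finset.sum_le_sum s3
  rw [Finset.sum_add_distrib, Finset.sum_add_distrib, Finset.sum_add_distrib] at a1
  rw [rr_sum (fun m => eNode B Q k xl xh ya yb (B.st * (b - a)) (tN H m))]
  have a2 := mul_le_mul_of_nonneg_left a1 h0
  linarith

/-- Poisson summation with the rough nodes and the tail. -/
theorem rough (h : BOK B Q E) (hq : q ∈ B.I) {k H xl xh ya yb M1 M : ℕ} (hk : 1 ≤ k)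
    (hx : 0 < xl) (hxh : xh ≤ 1048576) (hyb : yb ≤ 1048576) (h1 : M1 ≤ M) (hM : 0 < M)
    (hH : 0 < H) (ht : tailP B Q k H xl xh ya yb M < BIG) {x1 xi : ℝ}
    (hb : Box xl xh ya yb x1 xi) :
    IP (B.g 0 q) k x1 xi ≤ (H : ℝ) / 16 / 2 +
      (H : ℝ) / 16 * ∑ m ∈ Finset.range M1, PB (B.g 0 q) k x1 xi (rr (tN H m)) +
      (H : ℝ) / 16 * (rr (zSum Q k H xl xh ya yb M1 (M - M1)) - ((M : ℝ) - M1) * rr OFF) +
      rr (tailP B Q k H xl xh ya yb M) := by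
  have b1 : x1 ≤ 1 := hb.x.2.trans (r20_le hxh)
  have b2 : xi ≤ 1 := hb.y.2.trans (r20_le hyb)
  have b3 : 0 < x1 := (r20_pos hx).trans_le hb.x.1
  have b4 : 0 ≤ xi := (r20_nonneg ya).trans hb.y.1
  have H0 : (0 : ℝ) < (H : ℝ) / 16 := by
    have : (0 : ℝ) < H := by exact_mod_cast hH
    positivity
  obtain ⟨A2, A3, t1, t2, t3, t4⟩ := tailP_spec h hq hk hM hH hb b1 b2 ht
  have P := pois_up h.sc.C_pos (h.sc.q_pos hq).1 (h.sc.q_pos hq).2 b3
    (mul_nonneg b4 (sub_nonneg.2 b1))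
    (div_nonneg (mul_nonneg (sub_nonneg.2 b2) (sub_nonneg.2 b1)) (Nat.cast_nonneg k)) k hM H0 t1 t2
    t4
  have P' : IP (B.g 0 q) k x1 xi ≤ (H : ℝ) / 16 / 2 +
      (H : ℝ) / 16 * ∑ m ∈ Finset.range M, PB (B.g 0 q) k x1 xi (rr (tN H m)) +
      (A2 + A3 / 2) * (M * ((H : ℝ) / 16)) := by
    simp only [tN_eq]
    exact P
  obtain ⟨n, rfl⟩ := Nat.exists_eq_add_of_le h1
  rw [Finset.sum_range_add] at P'
  have z1 := Finset.sum_le_sum fun m (_ : m ∈ Finset.range n) =>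
    zNode_spec h hq hk hb b1 b2 (tN H (M1 + m))
  have z2 : zSum Q k H xl xh ya yb M1 n =
      ∑ m ∈ Finset.range n, zNode Q k xl xh ya yb (tN H (M1 + m)) :=
    rec_sum (fun m => zNode Q k xl xh ya yb (tN H (M1 + m))) n
  rw [ro_sum (fun m => zNode Q k xl xh ya yb (tN H (M1 + m))), ← z2] at z1
  have z3 := mul_le_mul_of_nonneg_left z1 H0.le
  rw [Nat.add_sub_cancel_left, Nat.cast_add, add_sub_cancel_left]
  linarith

end YMainX

open YMainX

theorem mainT_sound {G : ℕ → ℕ} (hG : GamOK G) (h : BOK B Q E) {VV : ℕ → ℕ → ℕ}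
    (hV : VVOK B VV) {c : Cls} {two : Bool} {xl xh ya yb a b M1 M e : ℕ}
    (wf : Wf B xl xh ya yb a b) (ok : mainT G B Q VV c two xl xh ya yb a b M1 M e = true)
    (hq : q ∈ Icc (B.q a) (B.q b)) {x1 xi : ℝ} (hb : Box xl xh ya yb x1 xi) :
    IP (B.g 0 q) (c.N - 2) x1 xi + ro e < Th B c.N two q := by
  simp only [mainT, forceN_eq, Bool.and_eq_true, Bool.or_eq_true, Nat.blt_eq, Nat.ble_eq] at ok
  obtain ⟨⟨⟨⟨⟨⟨⟨⟨⟨⟨⟨c1, c2⟩, c3⟩, c4⟩, c5⟩, c6⟩, c7⟩, c8⟩, c9⟩, c10⟩, c11⟩, ka, kb⟩ := ok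
  have hk : 1 ≤ c.N - 2 := by omega
  have la : a < B.nv := lt_of_le_of_lt wf.q.1 wf.q.2
  have lb : b < B.nv := wf.q.2
  have ia := h.sc.q_mem la
  have ib := h.sc.q_mem lb
  have iq : q ∈ B.I := ⟨ia.1.trans hq.1, hq.2.trans ib.2⟩
  have ta := thr_le hG h hV la c11 c9
  have tb := thr_le hG h hV lb c11 c10
  have tm := thrM_ch h c8 ia.1 ib.2 (hq.1.trans hq.2)
  have ra := test_real half ka
  have rb := test_real half kb
  have r1 := rough h iq hk c1 wf.x.2 wf.y.2 c2 c3 c4 c7 hb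
  have r2 := smooth h hV hk wf c6 (th := fun q => Th B c.N two q) tm (le_max_left _ _)
    (le_max_right _ _) hq hb
  have r3 := mulU_ge (thrM B Q c two) ((B.st * (b - a) * (B.st * (b - a))) <<< 13)
  rw [shl13, ← h.sc.q_sub wf.q.1, ← mul_div_assoc] at r3
  rw [ro_eq]
  rcases max_choice
    ((c.H : ℝ) / 16 * (rr (vMax (VV a) (c.N - 2) c.H xl xh ya yb M1) - M1 * rr OFF) -
      Th B c.N two (B.q a))
    ((c.H : ℝ) / 16 * (rr (vMax (VV b) (c.N - 2) c.H xl xh ya yb M1) - M1 * rr OFF) -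
      Th B c.N two (B.q b)) with hm | hm
  · rw [hm] at r2
    linarith
  · rw [hm] at r2
    linarith

end Pool.Agent.MP_39fec4_gt.K
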