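import Pool.Agent.MP_39fec4_gt.YSweep

set_option autoImplicit false

namespace Pool.Agent.MP_39fec4_gt.K

open Set MeasureTheory Full

variable {B : Blk} {Q : ℕ → ℕ → ℕ} {E : ℕ → ℕ} {q : ℝ} {ι : Type} {T : Finset ι}

namespace YNodeAX

/-- The real form of `m3s`. -/
def M3 (A1 A2 R0 P1 P2 c1 c2 c3 a1 b1 a2 b2 a3 b3 : ℝ) : ℝ :=
  (c1 * c1 * b1 * A2 + 2 * (c1 * a1 * (c2 * a2)) + A1 * (c2 * c2 * b2)) * R0 +
    2 * ((c1 * a1 * A2 + A1 * (c2 * a2)) * (c3 * a3) * P1) +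
    A1 * A2 * (P1 * (c3 * c3 * b3) + P2 * (c3 * a3) * (c3 * a3))

theorem m3s_cast (A1 A2 R p1 p2 c1 c2 c3 a1 b1 a2 b2 a3 b3 : ℕ) {k : ℕ} (hk : 1 ≤ k) :
    rr (m3s A1 A2 (R <<< 80) ((k * p1) <<< 40) (k * (k - 1) * p2) c1 c2 c3 a1 b1 a2 b2 a3 b3) /
      2 ^ 243 = M3 (rr A1) (rr A2) (rr R) (k * rr p1) (k * (k - 1) * rr p2) (rr c1) (rr c2) (rr c3)
        (rr a1) (rr b1) (rr a2) (rr b2) (rr a3) (rr b3) / 8 := by
  simp only [m3s, forceN_eq, M3, rr, Nat.shiftLeft_eq]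
  push_cast [Nat.cast_sub hk]
  ring

theorem m2s_eq (A1 A2 R0 P1 P2 c2 c3 a2 b2 a3 b3 : ℕ) :
    A1 * m2s A2 R0 P1 P2 c2 c3 a2 b2 a3 b3 = m3s A1 A2 R0 P1 P2 0 c2 c3 0 0 a2 b2 a3 b3 := by
  simp only [m3s, m2s, forceN_eq]
  ring

theorem ch3 {f1 f2 f3 : ℝ → ℝ} {l1 l2 l3 a b A1 A2 A3 R0 P1 P2 c1 c2 c3 u1 u2 u3 a1 b1 a2 b2 a3
    b3 : ℝ} {k : ℕ} (hk : 1 ≤ k) (hab : a ≤ b)
    (h1 : D2 f1 l1 a b A1 (c1 * a1) (c1 ^ 2 * b1)) (h2 : D2 f2 l2 a b A2 (c2 * a2) (c2 ^ 2 * b2))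
    (h3 : D2 f3 l3 a b A3 (c3 * a3) (c3 ^ 2 * b3)) (hl : l1 + l2 + k * l3 = 0)
    (pA1 : 0 ≤ A1) (pA2 : 0 ≤ A2) (pA3 : 0 ≤ A3) (pc1 : 0 ≤ c1) (pc2 : 0 ≤ c2) (pc3 : 0 ≤ c3)
    (pa1 : 0 ≤ a1) (pb1 : 0 ≤ b1) (pa2 : 0 ≤ a2) (pb2 : 0 ≤ b2) (pa3 : 0 ≤ a3) (pb3 : 0 ≤ b3)
    (hu1 : c1 * (b - a) ≤ u1) (hu2 : c2 * (b - a) ≤ u2) (hu3 : c3 * (b - a) ≤ u3)
    (hR : A3 ^ k ≤ R0) (hP1 : A3 ^ (k - 1) ≤ P1) (hP2 : A3 ^ (k - 2) ≤ P2) :
    Ch (fun s => f1 s * f2 s * f3 s ^ k) a b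
      (M3 A1 A2 R0 (k * P1) (k * (k - 1) * P2) u1 u2 u3 a1 b1 a2 b2 a3 b3 / 8) := by
  have hD := (h1.mul h2).mul (h3.pow hk)
  rw [hl] at hD
  have hk1 : (0 : ℝ) ≤ (k : ℝ) - 1 := by
    have : (1 : ℝ) ≤ k := by exact_mod_cast hk
    linarith
  have hd : 0 ≤ b - a := sub_nonneg.2 hab
  refine (hD.ch hab (by positivity)).1.mono ?_
  have p1 : 0 ≤ c1 * (b - a) := mul_nonneg pc1 hd
  have p2 : 0 ≤ c2 * (b - a) := mul_nonneg pc2 hd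
  have p3 : 0 ≤ c3 * (b - a) := mul_nonneg pc3 hd
  have q1 : 0 ≤ u1 := p1.trans hu1
  have q2 : 0 ≤ u2 := p2.trans hu2
  have q3 : 0 ≤ u3 := p3.trans hu3
  have r0 : 0 ≤ A3 ^ k := by positivity
  have r1 : 0 ≤ A3 ^ (k - 1) := by positivity
  have r2 : 0 ≤ A3 ^ (k - 2) := by positivity
  have s0 : 0 ≤ R0 := r0.trans hR
  have s1 : 0 ≤ P1 := r1.trans hP1
  have s2 : 0 ≤ P2 := r2.trans hP2
  refine le_trans (le_of_eq (b := M3 A1 A2 (A3 ^ k) (k * A3 ^ (k - 1)) (k * (k - 1) * A3 ^ (k - 2))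
    (c1 * (b - a)) (c2 * (b - a)) (c3 * (b - a)) a1 b1 a2 b2 a3 b3 / 8) ?_) ?_
  · unfold M3
    ring
  · generalize c1 * (b - a) = v1 at *
    generalize c2 * (b - a) = v2 at *
    generalize c3 * (b - a) = v3 at *
    generalize A3 ^ k = z0 at *
    generalize A3 ^ (k - 1) = z1 at *
    generalize A3 ^ (k - 2) = z2 at *
    generalize (k : ℝ) - 1 = k1 at *
    unfold M3
    gcongr

theorem ch_min {f : ℝ → ℝ} {a b : ℝ} {m n : ℕ} (h1 : Ch f a b (rr m / 2 ^ 243))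
    (h2 : Ch f a b (rr n / 2 ^ 243)) : Ch f a b (rr (min m n) / 2 ^ 243) := by
  rcases min_choice m n with h | h <;> rw [h]
  · exact h1
  · exact h2

/-- The fields `fa` and `fb` bound the derivatives twisted by `lam`. -/
def TW (B : Blk) (lam : ℝ) (fa fb : ℕ → ℕ) : Prop := ∀ r q y, PtOK B r q y →
  |B.g 1 q y + lam * B.g 0 q y| ≤ rr (fa r) ∧
    |B.g 2 q y + 2 * lam * B.g 1 q y + lam ^ 2 * B.g 0 q y| ≤ rr (fb r)

theorem twK (B : Blk) : TW B 0 gK1 gK2 := fun _ _ _ h =>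
  ⟨by simpa using h.gK1, by simpa using h.gK2⟩

theorem twL (B : Blk) : TW B (rr B.lam) gL1 gL2 := fun _ _ _ h => ⟨h.l1, h.l2⟩

theorem fac (hs : ScalOK B) (hq : q ∈ B.I) {lam : ℝ} {fa fb : ℕ → ℕ} (tw : TW B lam fa fb)
    {r lo hi : ℕ} (hr : RgOK B r (rr lo) (rr hi)) {φ : ℝ → ℝ} {a b : ℝ} (c d c' : ℝ)
    (e : ∀ s, φ s = c * s + d) (hφ : ∀ s ∈ Icc a b, rr lo ≤ φ s ∧ φ s ≤ rr hi) (hc : |c| ≤ c') :
    D2 (fun s => B.g 0 q (φ s)) (lam * c) a b (rr (gAB r)) (c' * rr (fa r))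
      (c' ^ 2 * rr (fb r)) := by
  have e' : φ = fun s => c * s + d := funext e
  subst e'
  refine D2.aff (hs.sm_g hq) (rr_nonneg lo) hφ (fun y hy => ?_) hc
  have hp := hr.pt q hq y ((rr_nonneg lo).trans hy.1) hy.1 hy.2
  exact ⟨hp.inR.abs, tw r q y hp⟩

theorem r20_le {a b : ℕ} (h : a ≤ b) : r20 a ≤ r20 b := by
  unfold r20
  gcongr

theorem r20_nonneg (a : ℕ) : 0 ≤ r20 a := by
  unfold r20
  positivity

theorem r20_le_one {a : ℕ} (h : a ≤ 1048576) : r20 a ≤ 1 := by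
  have := r20_le h
  unfold r20 at this ⊢
  norm_num at this ⊢
  linarith

theorem r20_sub {a b : ℕ} (h : a ≤ b) : r20 (b - a) = r20 b - r20 a := by
  unfold r20
  rw [Nat.cast_sub h]
  ring

theorem r20_top {a : ℕ} (h : a ≤ 1048576) : r20 (1048576 - a) = 1 - r20 a := by
  rw [r20_sub h]
  unfold r20
  norm_num

theorem shr20 (a u : ℕ) : r20 a * rr u ≤ rr ((a * u) >>> 20 + 1) := by
  refine le_trans (le_of_eq ?_) (rr_shr_lt (a * u) 20).le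
  rw [rr_nmul]
  unfold r20
  ring

/-- The ranges of the three arguments over the box. -/
theorem rng {k xl xh ya yb a b : ℕ} (t : ℕ) (hk : 1 ≤ k) (wf : Wf B xl xh ya yb a b) {x y : ℝ}
    (hx : x ∈ Icc (r20 xl) (r20 xh)) (hy : y ∈ Icc (r20 ya) (r20 yb)) :
    (rr (mulD (cX1 xl) t) ≤ x * rr t ∧ x * rr t ≤ rr (mulU (cX1 xh) t)) ∧
    (rr (mulD (cX2 xh ya) t) ≤ y * (1 - x) * rr t ∧
      y * (1 - x) * rr t ≤ rr (mulU (cX2 xl yb) t)) ∧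
    (rr (mulD (cR xh yb) t / k) ≤ (1 - y) * (1 - x) / k * rr t ∧
      (1 - y) * (1 - x) / k * rr t ≤ rr (mulU (cR xl ya) t / k + 1)) := by
  obtain ⟨b1, b2, b3, b4, b5, b6⟩ := Box.bounds (xl := xl) (xh := xh) (ya := ya) (yb := yb)
    ⟨hx, hy⟩ (hx.2.trans (r20_le_one wf.x.2)) (hy.2.trans (r20_le_one wf.y.2))
  have ht := rr_nonneg t
  have hk0 : (0 : ℝ) < k := by exact_mod_cast hk
  refine ⟨⟨mulD_le_of b1 le_rfl, le_mulU b2 le_rfl ht⟩, ⟨mulD_le_of b3 le_rfl,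
    le_mulU b4 le_rfl ht⟩, ?_, ?_⟩
  · refine (rr_div_le _ _).trans ?_
    rw [div_mul_eq_mul_div]
    exact div_le_div_of_nonneg_right (mulD_le_of b5 le_rfl) hk0.le
  · refine le_trans ?_ (rr_div_lt _ hk).le
    rw [div_mul_eq_mul_div]
    exact div_le_div_of_nonneg_right (le_mulU b6 le_rfl ht) hk0.le

theorem q_in (hs : ScalOK B) {xl xh ya yb a b : ℕ} (wf : Wf B xl xh ya yb a b)
    (hq : q ∈ Icc (B.q a) (B.q b)) : q ∈ B.I :=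
  ⟨(hs.q_mem (wf.q.1.trans_lt wf.q.2)).1.trans hq.1, hq.2.trans (hs.q_mem wf.q.2).2⟩

theorem dirX (hs : ScalOK B) {k xl xh ya yb a b t c1 c2 c3 : ℕ} (hk : 1 ≤ k)
    (wf : Wf B xl xh ya yb a b) (h1 : RgOK B c1 (rr (mulD (cX1 xl) t)) (rr (mulU (cX1 xh) t)))
    (h2 : RgOK B c2 (rr (mulD (cX2 xh ya) t)) (rr (mulU (cX2 xl yb) t)))
    (h3 : RgOK B c3 (rr (mulD (cR xh yb) t / k)) (rr (mulU (cR xl ya) t / k + 1)))
    {lam : ℝ} {fa fb : ℕ → ℕ} (tw : TW B lam fa fb) {y : ℝ} (hy : y ∈ Icc (r20 ya) (r20 yb))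
    (hq : q ∈ B.I) {u : ℕ} (hu : u = ((xh - xl) * t) >>> 20 + 1) :
    Ch (fun x => PB (B.g 0 q) k x y (rr t)) (r20 xl) (r20 xh)
      (rr (m3s (gAB c1) (gAB c2) (powU (gAB c3) k <<< 80) ((k * powU (gAB c3) (k - 1)) <<< 40)
        (k * (k - 1) * powU (gAB c3) (k - 2)) u ((yb * u) >>> 20 + 1)
        ((((1048576 - ya) * u) >>> 20 + 1) / k + 1) (fa c1) (fb c1) (fa c2) (fb c2) (fa c3)
        (fb c3)) / 2 ^ 243) := by
  rw [m3s_cast _ _ _ _ _ _ _ _ _ _ _ _ _ _ hk]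
  have ht := rr_nonneg t
  have hk0 : (0 : ℝ) < k := by exact_mod_cast hk
  have y0 : 0 ≤ y := (r20_nonneg ya).trans hy.1
  have y1 : 0 ≤ 1 - y := sub_nonneg.2 (hy.2.trans (r20_le_one wf.y.2))
  have p2 : 0 ≤ y * rr t := mul_nonneg y0 ht
  have p3 : 0 ≤ (1 - y) * rr t / k := by positivity
  have dx := r20_le wf.x.1
  have u1 : rr t * (r20 xh - r20 xl) ≤ rr u := by
    rw [hu, ← r20_sub wf.x.1, mul_comm]
    exact shr20 _ _
  have u0 : 0 ≤ rr t * (r20 xh - r20 xl) := mul_nonneg ht (sub_nonneg.2 dx)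
  have f1 := fac hs hq tw h1 (φ := fun x => x * rr t) (rr t) 0 (rr t) (fun s => by ring)
    (fun s hs' => (rng t hk wf hs' hy).1) (abs_of_nonneg ht).le
  have f2 := fac hs hq tw h2 (φ := fun x => y * (1 - x) * rr t) (-(y * rr t)) (y * rr t) (y * rr t)
    (fun s => by ring) (fun s hs' => (rng t hk wf hs' hy).2.1)
    (by rw [abs_neg, abs_of_nonneg p2])
  have f3 := fac hs hq tw h3 (φ := fun x => (1 - y) * (1 - x) / k * rr t) (-((1 - y) * rr t / k))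
    ((1 - y) * rr t / k) ((1 - y) * rr t / k) (fun s => by ring)
    (fun s hs' => (rng t hk wf hs' hy).2.2) (by rw [abs_neg, abs_of_nonneg p3])
  refine ch3 hk dx f1 f2 f3 (by field_simp; ring) (rr_nonneg _) (rr_nonneg _) (rr_nonneg _) ht p2 p3
    (rr_nonneg _) (rr_nonneg _) (rr_nonneg _) (rr_nonneg _) (rr_nonneg _) (rr_nonneg _) u1 ?_ ?_
    (powU_ge _ _) (powU_ge _ _) (powU_ge _ _)
  · refine le_trans ?_ (shr20 yb u)
    rw [mul_assoc]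
    exact mul_le_mul hy.2 u1 u0 (r20_nonneg _)
  · refine le_trans ?_ (rr_div_lt _ hk).le
    rw [div_mul_eq_mul_div]
    refine div_le_div_of_nonneg_right (le_trans ?_ (shr20 _ u)) hk0.le
    rw [mul_assoc, r20_top (wf.y.1.trans wf.y.2)]
    exact mul_le_mul (by linarith [hy.1]) u1 u0 (by linarith [hy.1])

theorem dirY (hs : ScalOK B) {k xl xh ya yb a b t c1 c2 c3 : ℕ} (hk : 1 ≤ k)
    (wf : Wf B xl xh ya yb a b) (h1 : RgOK B c1 (rr (mulD (cX1 xl) t)) (rr (mulU (cX1 xh) t)))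
    (h2 : RgOK B c2 (rr (mulD (cX2 xh ya) t)) (rr (mulU (cX2 xl yb) t)))
    (h3 : RgOK B c3 (rr (mulD (cR xh yb) t / k)) (rr (mulU (cR xl ya) t / k + 1)))
    {lam : ℝ} {fa fb : ℕ → ℕ} (tw : TW B lam fa fb) {x : ℝ} (hx : x ∈ Icc (r20 xl) (r20 xh))
    (hq : q ∈ B.I) {v : ℕ} (hv : v = mulU ((yb - ya) * (1048576 - xl)) t) :
    Ch (fun y => PB (B.g 0 q) k x y (rr t)) (r20 ya) (r20 yb)
      (rr (gAB c1 * m2s (gAB c2) (powU (gAB c3) k <<< 80) ((k * powU (gAB c3) (k - 1)) <<< 40)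
        (k * (k - 1) * powU (gAB c3) (k - 2)) v (v / k + 1) (fa c2) (fb c2) (fa c3)
        (fb c3)) / 2 ^ 243) := by
  rw [m2s_eq, m3s_cast _ _ _ _ _ _ _ _ _ _ _ _ _ _ hk, rr_zero]
  have ht := rr_nonneg t
  have hk0 : (0 : ℝ) < k := by exact_mod_cast hk
  have x1 : 0 ≤ 1 - x := sub_nonneg.2 (hx.2.trans (r20_le_one wf.x.2))
  have p2 : 0 ≤ (1 - x) * rr t := mul_nonneg x1 ht
  have p3 : 0 ≤ (1 - x) * rr t / k := by positivity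
  have dy := r20_le wf.y.1
  have u2 : (1 - x) * rr t * (r20 yb - r20 ya) ≤ rr v := by
    have e : rr ((yb - ya) * (1048576 - xl)) = (r20 yb - r20 ya) * (1 - r20 xl) := by
      rw [← r20_sub wf.y.1, ← r20_top (wf.x.1.trans wf.x.2)]
      unfold rr r20
      push_cast
      ring
    rw [hv, show (1 - x) * rr t * (r20 yb - r20 ya) = (r20 yb - r20 ya) * (1 - x) * rr t by ring]
    refine le_mulU ?_ le_rfl ht
    rw [e]
    exact mul_le_mul_of_nonneg_left (by linarith [hx.1]) (sub_nonneg.2 dy)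
  have g1 := (rng t hk wf hx (left_mem_Icc.2 dy)).1
  have f1 : D2 (fun _ => B.g 0 q (x * rr t)) 0 (r20 ya) (r20 yb) (rr (gAB c1)) (0 * 0)
      (0 ^ 2 * 0) :=
    (D2.const (h1.pt q hq _ ((rr_nonneg _).trans g1.1) g1.1 g1.2).inR.abs _ _).mono le_rfl
      (by norm_num) (by norm_num)
  have f2 := fac hs hq tw h2 (φ := fun y => y * (1 - x) * rr t) ((1 - x) * rr t) 0 ((1 - x) * rr t)
    (fun s => by ring) (fun s hs' => (rng t hk wf hx hs').2.1) (abs_of_nonneg p2).le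
  have f3 := fac hs hq tw h3 (φ := fun y => (1 - y) * (1 - x) / k * rr t) (-((1 - x) * rr t / k))
    ((1 - x) * rr t / k) ((1 - x) * rr t / k) (fun s => by ring)
    (fun s hs' => (rng t hk wf hx hs').2.2) (by rw [abs_neg, abs_of_nonneg p3])
  refine ch3 hk dy f1 f2 f3 (by field_simp; ring) (rr_nonneg _) (rr_nonneg _) (rr_nonneg _) le_rfl
    p2 p3 le_rfl le_rfl (rr_nonneg _) (rr_nonneg _) (rr_nonneg _) (rr_nonneg _) (by simp) u2 ?_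
    (powU_ge _ _) (powU_ge _ _) (powU_ge _ _)
  refine le_trans ?_ (rr_div_lt _ hk).le
  rw [div_mul_eq_mul_div]
  exact div_le_div_of_nonneg_right u2 hk0.le

theorem facq (h : BOK B Q E) {xl xh ya yb a b r lo hi : ℕ} (wf : Wf B xl xh ya yb a b)
    (hr : RgOK B r (rr lo) (rr hi)) (hY : hi < B.Yp) {z : ℝ} (hz : rr lo ≤ z ∧ z ≤ rr hi) :
    D2 (fun q => B.g 0 q z) 0 (B.q a) (B.q b) (rr (gAB r)) (1 * rr (gD1 r))
      (1 ^ 2 * rr (gD2 r)) := by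
  have z0 : 0 ≤ z := (rr_nonneg _).trans hz.1
  have z1 : z ≤ 2 ^ 20 := by
    have t1 : rr hi ≤ rr (2 ^ 52) := rr_le.mpr (hY.le.trans (h.yp.trans h.yc))
    have t2 : rr (2 ^ 52) ≤ 2 ^ 20 := by
      unfold rr
      norm_num
    linarith [hz.2]
  rw [one_mul, one_pow, one_mul]
  exact d2_q h.sc (h.sc.q_mem (wf.q.1.trans_lt wf.q.2)).1 (h.sc.q_mem wf.q.2).2 z0 z1
    fun q hq => hr.pt q hq z z0 hz.1 hz.2

theorem dirQ (h : BOK B Q E) {k xl xh ya yb a b t c1 c2 c3 : ℕ} (hk : 1 ≤ k)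
    (wf : Wf B xl xh ya yb a b) (h1 : RgOK B c1 (rr (mulD (cX1 xl) t)) (rr (mulU (cX1 xh) t)))
    (h2 : RgOK B c2 (rr (mulD (cX2 xh ya) t)) (rr (mulU (cX2 xl yb) t)))
    (h3 : RgOK B c3 (rr (mulD (cR xh yb) t / k)) (rr (mulU (cR xl ya) t / k + 1)))
    (hY : max (mulU (cX1 xh) t) (max (mulU (cX2 xl yb) t) (mulU (cR xl ya) t / k + 1)) < B.Yp)
    {x y : ℝ} (hx : x ∈ Icc (r20 xl) (r20 xh)) (hy : y ∈ Icc (r20 ya) (r20 yb))
    {w : ℕ} (hw : w = (B.st * (b - a)) <<< 28) :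
    Ch (fun q => PB (B.g 0 q) k x y (rr t)) (B.q a) (B.q b)
      (rr (m3s (gAB c1) (gAB c2) (powU (gAB c3) k <<< 80) ((k * powU (gAB c3) (k - 1)) <<< 40)
        (k * (k - 1) * powU (gAB c3) (k - 2)) w w w (gD1 c1) (gD2 c1) (gD1 c2) (gD2 c2) (gD1 c3)
        (gD2 c3)) / 2 ^ 243) := by
  rw [m3s_cast _ _ _ _ _ _ _ _ _ _ _ _ _ _ hk]
  obtain ⟨g1, g2, g3⟩ := rng t hk wf hx hy
  rw [max_lt_iff, max_lt_iff] at hY
  have e := h.sc.q_sub wf.q.1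
  have dq : B.q a ≤ B.q b := by
    rw [← sub_nonneg, e]
    exact div_nonneg (Nat.cast_nonneg _) (by norm_num)
  have u : 1 * (B.q b - B.q a) ≤ rr w := by
    rw [hw, e, rr_shl]
    generalize B.st * (b - a) = n
    unfold rr
    apply le_of_eq
    ring
  exact ch3 hk dq (facq h wf h1 hY.1 g1) (facq h wf h2 hY.2.1 g2) (facq h wf h3 hY.2.2 g3)
    (by ring) (rr_nonneg _) (rr_nonneg _) (rr_nonneg _) zero_le_one zero_le_one zero_le_one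
    (rr_nonneg _) (rr_nonneg _) (rr_nonneg _) (rr_nonneg _) (rr_nonneg _) (rr_nonneg _) u u u
    (powU_ge _ _) (powU_ge _ _) (powU_ge _ _)

theorem fin (m1 m2 m3 e : ℕ) : rr m1 / 2 ^ 243 + rr m2 / 2 ^ 243 + rr m3 / 2 ^ 243 + rr e ≤
    rr ((m1 + m2 + m3) >>> 243 + 1 + e) := by
  have h := rr_shr_lt (m1 + m2 + m3) 243
  rw [rr_add, rr_add, add_div, add_div] at h
  rw [rr_add]
  linarith

theorem mul_min' (a m n : ℕ) : a * min m n = min (a * m) (a * n) := by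
  rcases le_total m n with h | h
  · rw [min_eq_left h, min_eq_left (Nat.mul_le_mul_left a h)]
  · rw [min_eq_right h, min_eq_right (Nat.mul_le_mul_left a h)]

end YNodeAX

open YNodeAX

/-- The smooth errors at a node, in the three directions of a box. -/
theorem eNode_spec (h : BOK B Q E) {k xl xh ya yb a b t : ℕ} (hk : 1 ≤ k)
    (wf : Wf B xl xh ya yb a b) (he : eNode B Q k xl xh ya yb (B.st * (b - a)) t < BIG) :
    max (mulU (cX1 xh) t) (max (mulU (cX2 xl yb) t) (mulU (cR xl ya) t / k + 1)) < B.Yp ∧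
    ∃ ex ey eq : ℝ, ex + ey + eq + rr (evB Q k xl xh ya yb t) ≤
        rr (eNode B Q k xl xh ya yb (B.st * (b - a)) t) ∧
      (∀ y ∈ Icc (r20 ya) (r20 yb), ∀ q ∈ Icc (B.q a) (B.q b),
        Ch (fun x => PB (B.g 0 q) k x y (rr t)) (r20 xl) (r20 xh) ex) ∧
      (∀ x ∈ Icc (r20 xl) (r20 xh), ∀ q ∈ Icc (B.q a) (B.q b),
        Ch (fun y => PB (B.g 0 q) k x y (rr t)) (r20 ya) (r20 yb) ey) ∧
      (∀ x ∈ Icc (r20 xl) (r20 xh), ∀ y ∈ Icc (r20 ya) (r20 yb),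
        Ch (fun q => PB (B.g 0 q) k x y (rr t)) (B.q a) (B.q b) eq) := by
  have h1 := h.qok.rq (mulD (cX1 xl) t) (mulU (cX1 xh) t)
  have h2 := h.qok.rq (mulD (cX2 xh ya) t) (mulU (cX2 xl yb) t)
  have h3 := h.qok.rq (mulD (cR xh yb) t / k) (mulU (cR xl ya) t / k + 1)
  simp only [eNode, evB, evE, forceN_eq, Bool.cond_eq_ite, Nat.blt_eq] at he ⊢
  generalize rq Q (mulD (cX1 xl) t) (mulU (cX1 xh) t) = c1 at h1 he ⊢
  generalize rq Q (mulD (cX2 xh ya) t) (mulU (cX2 xl yb) t) = c2 at h2 he ⊢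
  generalize rq Q (mulD (cR xh yb) t / k) (mulU (cR xl ya) t / k + 1) = c3 at h3 he ⊢
  by_cases hY : max (mulU (cX1 xh) t) (max (mulU (cX2 xl yb) t) (mulU (cR xl ya) t / k + 1)) < B.Yp
  swap
  · rw [if_neg hY] at he
    exact absurd he (lt_irrefl _)
  rw [if_pos hY]
  refine ⟨hY, _, _, _, fin _ _ _ _, fun y hy q hq => ?_, fun x hx q hq => ?_, fun x hx y hy => ?_⟩
  · exact ch_min (dirX h.sc hk wf h1 h2 h3 (twK B) hy (q_in h.sc wf hq) rfl)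
      (dirX h.sc hk wf h1 h2 h3 (twL B) hy (q_in h.sc wf hq) rfl)
  · rw [mul_min']
    exact ch_min (dirY h.sc hk wf h1 h2 h3 (twK B) hx (q_in h.sc wf hq) rfl)
      (dirY h.sc hk wf h1 h2 h3 (twL B) hx (q_in h.sc wf hq) rfl)
  · exact dirQ h hk wf h1 h2 h3 hY hx hy rfl

end Pool.Agent.MP_39fec4_gt.K
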