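import Pool.Agent.MP_39fec4_gt.YCellE
import Pool.Agent.MP_39fec4_gt.YCellU
import Pool.Agent.MP_39fec4_gt.YFinE
import Pool.Agent.MP_39fec4_gt.YFinU

set_option autoImplicit false

namespace Pool.Agent.MP_39fec4_gt.K

open Set MeasureTheory Full

variable {B : Blk} {Q : ℕ → ℕ → ℕ} {E : ℕ → ℕ} {q : ℝ} {ι : Type} {T : Finset ι}

namespace YRunEX

theorem phi_zero (w V : ℝ) : PhiE w V 0 0 0 = 0 := by
  simp [PhiE, rr_zero]

theorem k_pos {P : EP} {x : ι → ℝ} (hx : InU P T x) : (0 : ℝ) < P.k := by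
  have := hx.k8
  exact_mod_cast (by omega : 0 < P.k)

theorem k_le {P : EP} {x : ι → ℝ} (hx : InU P T x) : (P.k : ℝ) ≤ T.card := by
  exact_mod_cast hx.card

theorem one_le_kap {P : EP} {x : ι → ℝ} (hx : InU P T x) : 1 ≤ √((T.card : ℝ) / P.k) :=
  Real.one_le_sqrt.2 ((one_le_div (k_pos hx)).2 (k_le hx))

theorem FE_nonpos (h : BOK B Q E) (hq : q ∈ B.I) {P : EP} {x : ι → ℝ} (hx : InU P T x) {s : ℕ}
    (hz : mulU P.xb1 (tS s) ≤ B.z2) {u : ℝ} (h0 : 0 ≤ u)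
    (h1 : u ≤ √((T.card : ℝ) / P.k) * sR s) : FE (B.g 0 q) false 0 0 T x u ≤ 0 := by
  have hk := k_pos hx
  have hn : (0 : ℝ) < T.card := hk.trans_le (k_le hx)
  have hT : T.Nonempty := Finset.card_pos.1 (by exact_mod_cast hn)
  have hu : u ^ 2 ≤ (T.card : ℝ) / P.k * sR s ^ 2 := by
    have h2 := pow_le_pow_left₀ h0 h1 2
    rwa [mul_pow, Real.sq_sqrt (div_pos hn hk).le] at h2
  have hy : FL B q T fun j => x j * u ^ 2 := by
    refine FL.of_le h hq fun j hj => ?_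
    obtain ⟨r1, r2⟩ := hx.rng j hj
    have r0 : 0 ≤ x j * T.card / P.k := (rr_nonneg _).trans r1
    have x0 : 0 ≤ x j := by
      by_contra hc
      have := div_neg_of_neg_of_pos (mul_neg_of_neg_of_pos (not_le.1 hc) hn) hk
      linarith
    refine ⟨mul_nonneg x0 (sq_nonneg u), ?_⟩
    calc x j * u ^ 2 ≤ x j * ((T.card : ℝ) / P.k * sR s ^ 2) := mul_le_mul_of_nonneg_left hu x0
      _ = x j * T.card / P.k * sR s ^ 2 := by ring
      _ ≤ rr (mulU P.xb1 (tS s)) := le_mulU r2 (tS_eq s).ge (sq_nonneg _)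
      _ ≤ rr B.z2 := rr_le.2 hz
  have hj := FL.jensen h hq hT hy
  rw [mean_mul] at hj
  simp only [FE, cond_false, one_mul]
  linarith

end YRunEX

theorem runE_exact {α : Type} (h : BOK B Q E) {Va Vb : ℕ → ℕ} {P : EP}
    (hf : P.fin = true → EndOK B Va Vb B.Yp) (sch : List ℕ) (kk : ℕ → ℕ → ℕ → α) :
    ∃ sc sh sg, runE B Q E Va Vb P sch kk = kk sc sh sg ∧
      (sc < BIG → sh < BIG → ∀ q ∈ B.I, ∀ (ι : Type) (T : Finset ι) (x : ι → ℝ) (x1 x2 : ℝ),
        InE P T x x1 x2 → ∫ u in Ioi (0 : ℝ), FE (B.g 0 q) P.ho x1 x2 T x u ≤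
          PhiE 1 (Var T x) sc sh sg) := by
  obtain ⟨s, a, b, g, he, hI⟩ := sweep_ind sch (cellE B Q E Va Vb P) (finE B Q P kk)
    (fun s a b g => ∀ q ∈ B.I, ∀ (ι : Type) (T : Finset ι) (x : ι → ℝ) (x1 x2 : ℝ),
      InE P T x x1 x2 → ∫ u in (0 : ℝ)..sR s, FE (B.g 0 q) P.ho x1 x2 T x u ≤
        PhiE 1 (Var T x) a b g)
    (fun q _ ι T x x1 x2 _ => by
      rw [sR_zero, intervalIntegral.integral_same, YRunEX.phi_zero])
    (fun s s' a b g kk' hs hI => by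
      obtain ⟨a', b', g', he, hc⟩ := cellE_exact h hf hs a b g kk'
      refine ⟨a', b', g', he, fun q hq ι T x x1 x2 hx => ?_⟩
      rw [int_add (hx.int h.sc hq) (sR_nonneg s) (sR_mono hs)]
      have h1 := hI q hq ι T x x1 x2 hx
      have h2 := hc q hq ι T x x1 x2 hx
      linarith)
  obtain ⟨a', b', he', -, -, hF⟩ := finE_exact h P kk s a b g
  refine ⟨a', b', g, he.trans he', fun h1 h2 q hq ι T x x1 x2 hx => ?_⟩
  rw [int_all (hx.int h.sc hq) (sR_nonneg s)]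
  have h3 := hI q hq ι T x x1 x2 hx
  have h4 := hF h1 h2 q hq ι T x x1 x2 hx
  linarith

theorem runE_uni {α : Type} (h : BOK B Q E) {Va Vb : ℕ → ℕ} {P : EP}
    (hf : P.fin = true → EndOK B Va Vb B.Yp) (sch : List ℕ) (kk : ℕ → ℕ → ℕ → α) :
    ∃ sc sh sg, runE B Q E Va Vb P sch kk = kk sc sh sg ∧
      (sc < BIG → sh < BIG → ∀ q ∈ B.I, ∀ (ι : Type) (T : Finset ι) (x : ι → ℝ), InU P T x →
        ∫ u in Ioi (0 : ℝ), FE (B.g 0 q) false 0 0 T x u ≤
          PhiE (((P.k : ℝ) / T.card) ^ 2) (Var T x) sc sh sg) := by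
  obtain ⟨s, a, b, g, he, hI⟩ := sweep_ind sch (cellE B Q E Va Vb P) (finE B Q P kk)
    (fun s a b g => a < BIG → b < BIG → ∀ q ∈ B.I, ∀ (ι : Type) (T : Finset ι) (x : ι → ℝ),
      InU P T x →
      (∫ u in (0 : ℝ)..(√((T.card : ℝ) / P.k) * sR s), FE (B.g 0 q) false 0 0 T x u ≤
        PhiE (((P.k : ℝ) / T.card) ^ 2) (Var T x) a b g) ∧
      (mulU P.xb1 (tS s) ≤ B.z2 → ∫ u in (0 : ℝ)..sR s, FE (B.g 0 q) false 0 0 T x u ≤
        PhiE (((P.k : ℝ) / T.card) ^ 2) (Var T x) a b g))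
    (fun _ _ q _ ι T x _ => by
      rw [sR_zero, mul_zero, intervalIntegral.integral_same, YRunEX.phi_zero]
      exact ⟨le_rfl, fun _ => le_rfl⟩)
    (fun s s' a b g kk' hs hI => by
      obtain ⟨a', b', g', he, ha, hb, hc⟩ := cellE_uni h hf hs a b g kk'
      refine ⟨a', b', g', he, fun h1 h2 q hq ι T x hx => ?_⟩
      obtain ⟨hA, hB⟩ := hI (ha.trans_lt h1) (hb.trans_lt h2) q hq ι T x hx
      obtain ⟨hc1, hc2⟩ := hc h1 h2 q hq ι T x hx
      have hint := hx.int h.sc hq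
      have hk := YRunEX.one_le_kap hx
      rcases le_or_gt (mulU P.xb1 (tS s')) B.z2 with hz | hz
      · have hB' : ∫ u in (0 : ℝ)..sR s', FE (B.g 0 q) false 0 0 T x u ≤
            PhiE (((P.k : ℝ) / T.card) ^ 2) (Var T x) a' b' g' := by
          rw [int_add hint (sR_nonneg s) (sR_mono hs)]
          have h3 := hB ((mulU_mono le_rfl (tS_mono hs)).trans hz)
          have h4 := hc1 hz
          linarith
        refine ⟨?_, fun _ => hB'⟩
        have hle : sR s' ≤ √((T.card : ℝ) / P.k) * sR s' :=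
          le_mul_of_one_le_left (sR_nonneg s') hk
        rw [int_add hint (sR_nonneg s') hle]
        have h5 := cell_int (c0 := 0) (c2 := 0) (c4 := 0) hint (sR_nonneg s') hle
          (fun u hu1 hu2 => by
            have := YRunEX.FE_nonpos h hq hx hz ((sR_nonneg s').trans hu1) hu2
            linarith)
        linarith
      · refine ⟨?_, fun hz' => absurd hz (not_lt.2 hz')⟩
        have hk0 : 0 ≤ √((T.card : ℝ) / P.k) := Real.sqrt_nonneg _
        rw [int_add hint (mul_nonneg hk0 (sR_nonneg s))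
          (mul_le_mul_of_nonneg_left (sR_mono hs) hk0)]
        have h4 := hc2 hz
        linarith)
  obtain ⟨a', b', he', ha, hb, hF⟩ := finE_uni h P kk s a b g
  refine ⟨a', b', g, he.trans he', fun h1 h2 q hq ι T x hx => ?_⟩
  rw [int_all (hx.int h.sc hq) (mul_nonneg (Real.sqrt_nonneg ((T.card : ℝ) / P.k)) (sR_nonneg s))]
  have h3 := (hI (ha.trans_lt h1) (hb.trans_lt h2) q hq ι T x hx).1
  have h4 := hF h1 h2 q hq ι T x hx
  linarith

end Pool.Agent.MP_39fec4_gt.K
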