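import Pool.Agent.MP_39fec4_gt.YDefs
import Pool.Agent.MP_39fec4_gt.FLink

set_option autoImplicit false

namespace Pool.Agent.MP_39fec4_gt.K

open Set MeasureTheory Full

variable {B : Blk} {Q : ℕ → ℕ → ℕ} {E : ℕ → ℕ} {q : ℝ} {ι : Type} {T : Finset ι}

theorem sR_nonneg (s : ℕ) : 0 ≤ sR s := by
  unfold sR; positivity

theorem sR_zero : sR 0 = 0 := by
  simp [sR]

theorem sR_mono {a b : ℕ} (h : a ≤ b) : sR a ≤ sR b := by
  unfold sR
  have : (a : ℝ) ≤ b := by exact_mod_cast h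
  linarith

theorem tS_eq (s : ℕ) : rr (tS s) = sR s ^ 2 := by
  unfold tS sR
  rw [rr_shl]
  unfold rr
  push_cast
  ring

theorem tS_mono {a b : ℕ} (h : a ≤ b) : tS a ≤ tS b := by
  rw [← rr_le, tS_eq, tS_eq]
  exact pow_le_pow_left₀ (sR_nonneg a) (sR_mono h) 2

/-- The square of a point of a cell. -/
theorem tS_mem {a b : ℕ} {u : ℝ} (h1 : sR a ≤ u) (h2 : u ≤ sR b) :
    rr (tS a) ≤ u ^ 2 ∧ u ^ 2 ≤ rr (tS b) := by
  rw [tS_eq, tS_eq]
  exact ⟨pow_le_pow_left₀ (sR_nonneg a) h1 2, pow_le_pow_left₀ ((sR_nonneg a).trans h1) h2 2⟩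

theorem dS_eq {a b : ℕ} (h : a ≤ b) : rr (dS a b) = sR b - sR a := by
  unfold dS sR
  rw [rr_shl, rr_sub h]
  unfold rr
  ring

theorem t2L_encl {a b : ℕ} (h : a ≤ b) : rr (t2L a b) ≤ (sR b ^ 3 - sR a ^ 3) / 3 ∧
    (sR b ^ 3 - sR a ^ 3) / 3 ≤ rr (t2L a b + 1) := by
  have e : (sR b ^ 3 - sR a ^ 3) / (3 : ℝ) = rr ((b ^ 3 - a ^ 3) <<< 22) / ((3 : ℕ) : ℝ) := by
    rw [rr_shl, rr_sub (Nat.pow_le_pow_left h 3)]
    unfold rr sR
    push_cast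
    ring
  rw [e]
  exact ⟨rr_div_le _ 3, (rr_div_lt _ (by norm_num)).le⟩

theorem t4L_encl {a b : ℕ} (h : a ≤ b) : rr (t4L a b) ≤ (sR b ^ 5 - sR a ^ 5) / 5 ∧
    (sR b ^ 5 - sR a ^ 5) / 5 ≤ rr (t4L a b + 1) := by
  have e : (sR b ^ 5 - sR a ^ 5) / (5 : ℝ) = rr ((b ^ 5 - a ^ 5) <<< 10) / ((5 : ℕ) : ℝ) := by
    rw [rr_shl, rr_sub (Nat.pow_le_pow_left h 5)]
    unfold rr sR
    push_cast
    ring
  rw [e]
  exact ⟨rr_div_le _ 5, (rr_div_lt _ (by norm_num)).le⟩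

theorem shl34 (s : ℕ) : rr (s <<< 34) = sR s := by
  rw [rr_shl]
  unfold rr sR
  ring

theorem shl33 (s : ℕ) : rr (s <<< 33) = sR s / 2 := by
  rw [rr_shl]
  unfold rr sR
  ring

theorem R07_le : rr R07 ≤ 0.7 := by
  unfold rr R07
  norm_num

theorem tN_eq (H m : ℕ) : rr (tN H m) = (((m : ℝ) + 1) * ((H : ℝ) / 16)) ^ 2 := by
  unfold tN
  rw [rr_shl]
  unfold rr
  push_cast
  ring

theorem tN_mono (H : ℕ) {m m' : ℕ} (h : m ≤ m') : tN H m ≤ tN H m' := by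
  rw [← rr_le, tN_eq, tN_eq]
  have : (m : ℝ) ≤ m' := by exact_mod_cast h
  gcongr

/-- Induction along a schedule. -/
theorem sweep_ind {α : Type} (sch : List ℕ)
    (cell : ℕ → ℕ → ℕ → ℕ → ℕ → (ℕ → ℕ → ℕ → α) → α) (fin : ℕ → ℕ → ℕ → ℕ → α)
    (Inv : ℕ → ℕ → ℕ → ℕ → Prop) (h0 : Inv 0 0 0 0)
    (hc : ∀ s s' a b g kk, s ≤ s' → Inv s a b g →
      ∃ a' b' g', cell s s' a b g kk = kk a' b' g' ∧ Inv s' a' b' g') :
    ∃ s a b g, sweep sch cell fin = fin s a b g ∧ Inv s a b g := by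
  have key : ∀ (l : List ℕ) s a b g, Inv s a b g → ∃ s' a' b' g',
      lf (α := ℕ → ℕ → ℕ → ℕ → α) l fin
        (fun c ih => Nat.rec (motive := fun _ => ℕ → ℕ → ℕ → ℕ → α) ih
          (fun _ ih2 s a b g => cell s (s + c % 65536) a b g fun a' b' g' =>
            ih2 (s + c % 65536) a' b' g') (c / 65536)) s a b g = fin s' a' b' g' ∧
        Inv s' a' b' g' := by
    intro l
    induction l with
    | nil => exact fun s a b g h => ⟨s, a, b, g, rfl, h⟩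
    | cons c l ih =>
      rw [lf_cons]
      generalize c / 65536 = n
      induction n with
      | zero => exact ih
      | succ n ih2 =>
        intro s a b g h
        obtain ⟨a', b', g', e, h'⟩ := hc s (s + c % 65536) a b g _ (Nat.le_add_right _ _) h
        obtain ⟨s2, a2, b2, g2, e2, h2⟩ := ih2 _ a' b' g' h'
        exact ⟨s2, a2, b2, g2, e.trans e2, h2⟩
  unfold sweep
  simp only [forceN_eq]
  exact key sch 0 0 0 0 h0

/-- Integration over one cell. -/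
theorem cell_int {F : ℝ → ℝ} (hF : IntegrableOn F (Ioi 0)) {a b c0 c2 c4 : ℝ} (h0 : 0 ≤ a)
    (hab : a ≤ b) (h : ∀ u, a ≤ u → u ≤ b → F u ≤ c0 + c2 * u ^ 2 + c4 * u ^ 4) :
    ∫ u in a..b, F u ≤ c0 * (b - a) + c2 * (b ^ 3 - a ^ 3) / 3 + c4 * (b ^ 5 - a ^ 5) / 5 :=
  int_cell hab (int_split hab (int_split h0 hF).2.1).1 h

theorem int_add {F : ℝ → ℝ} (hF : IntegrableOn F (Ioi 0)) {a b : ℝ} (h0 : 0 ≤ a) (hab : a ≤ b) :
    ∫ u in (0 : ℝ)..b, F u = (∫ u in (0 : ℝ)..a, F u) + ∫ u in a..b, F u :=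
  (intervalIntegral.integral_add_adjacent_intervals (int_split h0 hF).1
    (int_split hab (int_split h0 hF).2.1).1).symm

theorem int_all {F : ℝ → ℝ} (hF : IntegrableOn F (Ioi 0)) {a : ℝ} (h0 : 0 ≤ a) :
    ∫ u in Ioi (0 : ℝ), F u = (∫ u in (0 : ℝ)..a, F u) + ∫ u in Ioi a, F u :=
  (int_split h0 hF).2.2

/-- Integration over a rescaled cell. -/
theorem cell_scale {F : ℝ → ℝ} (hF : IntegrableOn F (Ioi 0)) {k a b c0 c4 : ℝ} (hk : 0 < k)
    (h0 : 0 ≤ a) (hab : a ≤ b) (h : ∀ u, a ≤ u → u ≤ b → k * F (k * u) ≤ c0 + c4 * u ^ 4) :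
    ∫ u in (k * a)..(k * b), F u ≤ c0 * (b - a) + c4 * (b ^ 5 - a ^ 5) / 5 := by
  have i1 := (int_rescale hk (int_split (mul_nonneg hk.le h0) hF).2.1).1
  have h1 := int_cell (c0 := c0) (c2 := 0) (c4 := c4) hab (int_split hab i1).1
    (fun u h1 h2 => by linarith [h u h1 h2])
  rw [intervalIntegral.integral_const_mul, intervalIntegral.mul_integral_comp_mul_left] at h1
  linarith

/-- Integration of a rescaled tail. -/
theorem tail_scale {F : ℝ → ℝ} (hF : IntegrableOn F (Ioi 0)) {k S A2 A3 : ℝ} (hk : 0 < k)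
    (hS : 0 < S) (h : ∀ u, S ≤ u → k * F (k * u) ≤ A2 * (S / u) ^ 2 + A3 * (S / u) ^ 3) :
    ∫ u in Ioi (k * S), F u ≤ (A2 + A3 / 2) * S := by
  obtain ⟨i1, e1⟩ := int_rescale hk (int_split (mul_pos hk hS).le hF).2.1
  rw [e1]
  exact int_tail hS i1 h

theorem cX1_eq (x : ℕ) : rr (cX1 x) = r20 x := by
  unfold cX1 r20
  rw [rr_shl]
  unfold rr
  ring

theorem cX2_eq {x : ℕ} (h : x ≤ 1048576) (xi : ℕ) : rr (cX2 x xi) = r20 xi * (1 - r20 x) := by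
  unfold cX2 r20 rr
  push_cast [Nat.cast_sub h]
  ring

theorem cR_eq {x xi : ℕ} (h : x ≤ 1048576) (h' : xi ≤ 1048576) :
    rr (cR x xi) = (1 - r20 xi) * (1 - r20 x) := by
  unfold cR r20 rr
  push_cast [Nat.cast_sub h, Nat.cast_sub h']
  ring

theorem Box.bounds {xl xh ya yb : ℕ} {x1 xi : ℝ} (h : Box xl xh ya yb x1 xi) (h1 : x1 ≤ 1)
    (h2 : xi ≤ 1) : rr (cX1 xl) ≤ x1 ∧ x1 ≤ rr (cX1 xh) ∧ rr (cX2 xh ya) ≤ xi * (1 - x1) ∧
      xi * (1 - x1) ≤ rr (cX2 xl yb) ∧ rr (cR xh yb) ≤ (1 - xi) * (1 - x1) ∧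
      (1 - xi) * (1 - x1) ≤ rr (cR xl ya) := by
  have le20 : ∀ a : ℕ, r20 a ≤ 1 → a ≤ 1048576 := fun a ha => by
    unfold r20 at ha
    rw [div_le_one (by positivity)] at ha
    have : (a : ℝ) ≤ (1048576 : ℕ) := by push_cast; linarith
    exact_mod_cast this
  have p20 : ∀ a : ℕ, 0 ≤ r20 a := fun a => by unfold r20; positivity
  obtain ⟨⟨a1, a2⟩, b1, b2⟩ := h
  have hl := le20 xl (a1.trans h1)
  have ha := le20 ya (b1.trans h2)
  have c1 : 0 ≤ 1 - x1 := by linarith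
  have c2 : 0 ≤ 1 - xi := by linarith
  have c3 : 0 ≤ xi := (p20 ya).trans b1
  refine ⟨by rwa [cX1_eq], by rwa [cX1_eq], ?_, ?_, ?_, ?_⟩
  · rcases le_total xh 1048576 with hh | hh
    · rw [cX2_eq hh]
      have := p20 ya
      nlinarith [mul_le_mul_of_nonneg_left a2 (p20 ya), mul_le_mul_of_nonneg_right b1 c1]
    · unfold cX2
      rw [Nat.sub_eq_zero_of_le hh, Nat.mul_zero, rr_zero]
      positivity
  · rw [cX2_eq hl]
    exact mul_le_mul b2 (by linarith) c1 (p20 yb)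
  · rcases le_total xh 1048576 with hh | hh
    · rcases le_total yb 1048576 with hb | hb
      · rw [cR_eq hh hb]
        have d1 : 0 ≤ 1 - r20 xh := by
          have : (xh : ℝ) ≤ (1048576 : ℕ) := by exact_mod_cast hh
          unfold r20
          rw [sub_nonneg, div_le_one (by positivity)]
          push_cast at this
          linarith
        exact mul_le_mul (by linarith) (by linarith) d1 c2
      · unfold cR
        rw [Nat.sub_eq_zero_of_le hb, Nat.zero_mul, rr_zero]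
        positivity
    · unfold cR
      rw [Nat.sub_eq_zero_of_le hh, Nat.mul_zero, rr_zero]
      positivity
  · rw [cR_eq hl ha]
    exact mul_le_mul (by linarith) (by linarith) c1 (by linarith)

theorem mean_mul (T : Finset ι) (x : ι → ℝ) (t : ℝ) :
    mean T (fun j => x j * t) = mean T x * t := by
  unfold mean
  rw [← Finset.sum_mul]
  ring

/-- Jensen's inequality on the first lobe. -/
theorem FL.jensen (h : BOK B Q E) (hq : q ∈ B.I) {y : ι → ℝ} (hT : T.Nonempty) (hy : FL B q T y) :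
    ∏ j ∈ T, B.g 0 q (y j) ≤ B.g 0 q (mean T y) ^ T.card :=
  ((h.hd q hq).jensen (h.sc.sm_g hq) T hT y hy).1

theorem FL.of_le (h : BOK B Q E) (hq : q ∈ B.I) {y : ι → ℝ}
    (hy : ∀ j ∈ T, 0 ≤ y j ∧ y j ≤ rr B.z2) : FL B q T y := fun j hj =>
  ⟨(hy j hj).1, (hy j hj).2.trans ((h.hd q hq).z1.trans (h.hd q hq).z3),
    (h.hd q hq).pos _ (hy j hj).1 (hy j hj).2⟩

theorem BOK.envOK (h : BOK B Q E) (hq : q ∈ B.I) (ym : ℕ) : EnvOK B q (envb E ym) ym :=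
  (h.env ym).2 q hq

theorem BOK.z2_le (h : BOK B Q E) : B.z2 ≤ B.Z2 ∧ 2 * B.z2 ≤ BIG := by
  have hd := h.hd _ (h.sc.q_mem (v := 0) (by have := h.sc.nv; omega))
  have h1 : B.z2 ≤ B.Z2 := rr_le.1 (hd.z1.trans hd.z3)
  have h2 := h.zc
  have h3 := h.yc
  refine ⟨h1, ?_⟩
  unfold BIG
  omega

theorem YSweepX.g_le (hs : ScalOK B) (hq : q ∈ B.I) (y : ℝ) : |B.g 0 q y| ≤ 1 :=
  FLinkX.abs_gg_le hs.C_pos (hs.q_pos hq).1 y

theorem YSweepX.prod_le (hs : ScalOK B) (hq : q ∈ B.I) (T : Finset ι) (y : ι → ℝ) :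
    |∏ j ∈ T, B.g 0 q (y j)| ≤ 1 := by
  rw [Finset.abs_prod]
  exact Finset.prod_le_one (fun _ _ => abs_nonneg _) fun _ _ => YSweepX.g_le hs hq _

theorem int_pow (hs : ScalOK B) (hq : q ∈ B.I) {m : ℝ} (hm : 0 < m) {k : ℕ} (hk : 1 ≤ k) :
    IntegrableOn (fun s : ℝ => B.g 0 q (m * s ^ 2) ^ k) (Ioi 0) := by
  have := int_IG hs.C_pos (hs.q_pos hq).1 (hs.q_pos hq).2 (Finset.range k) (fun _ => m)
    (fun _ _ => hm.le) (Finset.mem_range.2 hk) hm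
  simp only [Finset.prod_const, Finset.card_range] at this
  exact this

theorem YSweepX.int_two (hs : ScalOK B) (hq : q ∈ B.I) {x : ι → ℝ} (h0 : ∀ j ∈ T, 0 ≤ x j)
    (hp : 0 < ∑ j ∈ T, x j) :
    IntegrableOn (fun s : ℝ => ∏ j ∈ T, B.g 0 q (x j * s ^ 2)) (Ioi 0) ∧
      IntegrableOn (fun s : ℝ => B.g 0 q (mean T x * s ^ 2) ^ T.card) (Ioi 0) := by
  obtain ⟨i, hi, h1⟩ : ∃ i ∈ T, 0 < x i := by
    by_contra hc
    push Not at hc
    exact absurd (Finset.sum_nonpos hc) (not_le.2 hp)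
  have hk : 1 ≤ T.card := Finset.card_pos.2 ⟨i, hi⟩
  have hk' : (0 : ℝ) < T.card := by exact_mod_cast hk
  exact ⟨int_IG hs.C_pos (hs.q_pos hq).1 (hs.q_pos hq).2 T x h0 hi h1,
    int_pow hs hq (div_pos hp hk') hk⟩

theorem int_IX (hs : ScalOK B) (hq : q ∈ B.I) {x1 : ℝ} (h1 : 0 < x1) (x2 : ℝ) (T : Finset ι)
    (x : ι → ℝ) : IntegrableOn (fun s : ℝ => B.g 0 q (x1 * s ^ 2) * B.g 0 q (x2 * s ^ 2) *
      ∏ j ∈ T, B.g 0 q (x j * s ^ 2)) (Ioi 0) := by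
  have c : Continuous (B.g 0 q) := (hs.sm_g hq).c0
  simp only [mul_assoc]
  refine int_mul_gg hs.C_pos (hs.q_pos hq).1 (hs.q_pos hq).2 h1 (B := 1) (by fun_prop) fun s => ?_
  rw [abs_mul]
  exact mul_le_one₀ (YSweepX.g_le hs hq _) (abs_nonneg _) (YSweepX.prod_le hs hq T _)

theorem int_PB (hs : ScalOK B) (hq : q ∈ B.I) {x1 : ℝ} (h1 : 0 < x1) (xi : ℝ) (k : ℕ) :
    IntegrableOn (fun s : ℝ => PB (B.g 0 q) k x1 xi (s ^ 2)) (Ioi 0) := by
  have := int_IX hs hq h1 (xi * (1 - x1)) (Finset.range k) (fun _ => (1 - xi) * (1 - x1) / k)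
  simp only [Finset.prod_const, Finset.card_range] at this
  exact this

theorem int_FE_out (hs : ScalOK B) (hq : q ∈ B.I) {x1 : ℝ} (h1 : 0 < x1) (x2 : ℝ) (T : Finset ι)
    (x : ι → ℝ) : IntegrableOn (FE (B.g 0 q) true x1 x2 T x) (Ioi 0) := by
  have i1 := int_IX hs hq h1 x2 T x
  have i2 := int_IX hs hq h1 x2 T (fun _ => mean T x)
  simp only [Finset.prod_const] at i2
  refine IntegrableOn.congr_fun (i1.sub i2) (fun s _ => ?_) measurableSet_Ioi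
  simp only [FE, Pi.sub_apply, cond_true]
  ring

theorem int_FE_in (hs : ScalOK B) (hq : q ∈ B.I) (x1 x2 : ℝ) {x : ι → ℝ} (h0 : ∀ j ∈ T, 0 ≤ x j)
    (hp : 0 < ∑ j ∈ T, x j) : IntegrableOn (FE (B.g 0 q) false x1 x2 T x) (Ioi 0) := by
  obtain ⟨i1, i2⟩ := YSweepX.int_two hs hq h0 hp
  refine IntegrableOn.congr_fun (i1.sub i2) (fun s _ => ?_) measurableSet_Ioi
  simp only [FE, Pi.sub_apply, cond_false, one_mul]

theorem InE.int (hs : ScalOK B) (hq : q ∈ B.I) {P : EP} {x : ι → ℝ} {x1 x2 : ℝ}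
    (h : InE P T x x1 x2) : IntegrableOn (FE (B.g 0 q) P.ho x1 x2 T x) (Ioi 0) := by
  cases ho : P.ho with
  | true => exact int_FE_out hs hq (h.out ho).1 x2 T x
  | false =>
    exact int_FE_in hs hq x1 x2 (fun j hj => (rr_nonneg _).trans (h.rng j hj).1) h.pos

theorem InU.int (hs : ScalOK B) (hq : q ∈ B.I) {P : EP} {x : ι → ℝ} (h : InU P T x) :
    IntegrableOn (FE (B.g 0 q) false 0 0 T x) (Ioi 0) := by
  have hk : (0 : ℝ) < P.k := by
    have := h.k8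
    exact_mod_cast (by omega : 0 < P.k)
  have hc : (0 : ℝ) < T.card := by
    have := h.k8
    have := h.card
    exact_mod_cast (by omega : 0 < T.card)
  refine int_FE_in hs hq 0 0 (fun j hj => ?_) (by rw [h.sum]; exact one_pos)
  have h1 := (rr_nonneg _).trans (h.rng j hj).1
  rw [le_div_iff₀ hk, zero_mul] at h1
  exact nonneg_of_mul_nonneg_left h1 hc

theorem IX_sub (hs : ScalOK B) (hq : q ∈ B.I) {x : ι → ℝ} {x1 xi : ℝ} (h : Pt T x x1 xi) :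
    IX (B.g 0 q) x1 (xi * (1 - x1)) T x - IP (B.g 0 q) T.card x1 xi =
      ∫ s in Ioi (0 : ℝ), FE (B.g 0 q) true x1 (xi * (1 - x1)) T x s := by
  unfold IX IP
  rw [← integral_sub (int_IX hs hq h.p1 _ T x) (int_PB hs hq h.p1 xi _)]
  refine setIntegral_congr_fun measurableSet_Ioi fun s _ => ?_
  simp only [FE, PB, P3, mean, h.sum, cond_true]
  ring

theorem IG_sub (hs : ScalOK B) (hq : q ∈ B.I) {x : ι → ℝ} (h0 : ∀ j ∈ T, 0 ≤ x j)
    (h1 : ∑ j ∈ T, x j = 1) (x1 x2 : ℝ) : IG (B.g 0 q) T x - DG (B.g 0 q) T.card =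
      ∫ s in Ioi (0 : ℝ), FE (B.g 0 q) false x1 x2 T x s := by
  obtain ⟨i1, i2⟩ := YSweepX.int_two hs hq h0 (by rw [h1]; exact one_pos)
  have e : ∀ s : ℝ, mean T x * s ^ 2 = s ^ 2 / T.card := fun s => by
    rw [mean, h1]; ring
  unfold IG DG
  simp only [← e]
  rw [← integral_sub i1 i2]
  refine setIntegral_congr_fun measurableSet_Ioi fun s _ => ?_
  simp only [FE, cond_false, one_mul]

end Pool.Agent.MP_39fec4_gt.K
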