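import Pool.Agent.MP_39fec4_gt.ZCell
import Pool.Agent.MP_39fec4_gt.ZGrid
import Pool.Agent.MP_39fec4_gt.ZFine
import Pool.Agent.MP_39fec4_gt.ZLandau
import Pool.Agent.MP_39fec4_gt.FHead

set_option autoImplicit false

/-! From the checks on all cells to the facts about a block. -/

namespace Pool.Agent.MP_39fec4_gt.K

open Set Full

variable {B : Blk} {Va Vb T E : ℕ → ℕ}

namespace ZBlockX

theorem INV_lt_BIG : INV < BIG := by
  unfold INV BIG
  omega

theorem SS_le_BIG : SS ≤ BIG := by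
  unfold SS BIG
  omega

theorem far0_bd (hs : ScalOK B) {y0 : ℕ} {q y : ℝ} (hq : q ∈ B.I) (h0 : 0 ≤ y)
    (h1 : rr y0 ≤ y) : |B.g 0 q y| ≤ rr (min (far0 B y0) SS) := by
  have hb : |B.g 0 q y| ≤ rr SS := by
    rw [rr_SS]
    exact (hs.sm_g hq).bd y h0
  rw [rr_min]
  refine le_min ?_ hb
  by_cases hf : far0 B y0 < BIG
  · have := hs.far.f0 y0 hf q hq 1 y le_rfl (by simpa using h1)
    simpa using this
  · exact hb.trans (rr_le.mpr (SS_le_BIG.trans (not_lt.mp hf)))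

/-- The value used for the envelopes on the cell `i`. -/
def av (B : Blk) (T : ℕ → ℕ) (i : ℕ) : ℕ := if Yb (i + 1) ≤ B.Z2 then gNeg (T i) else gAB (T i)

/-- The content of the check of a cell. -/
structure CellP (B : Blk) (Va Vb T E : ℕ → ℕ) (i : ℕ) : Prop where
  pos : 0 < T i
  eq : T i = if Yb i < B.Yc then mkCell B Va Vb (Yb i) (Yb (i + 1))
    else mkFar B (Yb i) (Yb (i + 1))
  lop : B.z2 ≤ Yb i ∨ 0 < gLop (T i)
  con : B.Zc ≤ Yb i ∨ fld (T i) 56 11 = 0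
  neg : (Yb (i + 1) ≤ B.Zc ∨ B.Z2 ≤ Yb i) ∨ gHip (T i) = 0
  dec : E i ≤ Nat.casesOn (motive := fun _ => ℕ) i B.lam (fun i' => E i')
  env : (av B T i = 0 ∨ E i = 0) ∨ mulU (E i) (Yb (i + 1)) ≤ nlogL (av B T i)
  alg : B.Yc ≤ Yb i ∨ mulU (mulU (av B T i) (av B T i)) (SS + mulU B.gam (Yb (i + 1))) ≤ SS

theorem cell_props {i : ℕ} (h : cellChk B Va Vb T E i = true) : CellP B Va Vb T E i := by
  simp only [cellChk, forceN_eq, Bool.and_eq_true, Bool.or_eq_true, Nat.ble_eq, Nat.blt_eq,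
    Nat.beq_eq, Bool.cond_eq_ite] at h
  obtain ⟨⟨⟨⟨⟨⟨⟨h1, h2⟩, h3⟩, h4⟩, h5⟩, h6⟩, h7⟩, h8⟩ := h
  exact ⟨h1, h2, h3, h4, h5, h6, h7, h8⟩

/-- The content of the global check. -/
structure RestP (B : Blk) (Va Vb E : ℕ → ℕ) : Prop where
  pos : 0 < mkCell B Va Vb 0 0
  l1 : fld (mkCell B Va Vb 0 0) 56 14 = 0
  k1 : gK1 (mkCell B Va Vb 0 0) ≤ B.lamh
  lh : B.lamh ≤ SS
  l0 : 0 < B.lam
  z0 : 0 < B.z2
  z1 : B.z2 ≤ B.Zc
  z2 : B.Zc < B.Z2
  z3 : B.Z2 ≤ B.Yc
  yp : B.Yp ≤ B.Yc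
  yc : B.Yc ≤ 4503599627370496
  gr : Yb (cidx B.Yc) = B.Yc
  ga : B.gam ≤ 2 * B.lam
  fa : SS ≤ mulD (mulD B.mL B.mL - B.gam) B.Yc
  e0 : E 680 = 0

theorem rest_props (h : restChk B Va Vb E = true) : RestP B Va Vb E := by
  simp only [restChk, forceN_eq, Bool.and_eq_true, Nat.ble_eq, Nat.blt_eq, Nat.beq_eq] at h
  obtain ⟨⟨⟨⟨⟨⟨⟨⟨⟨⟨⟨⟨⟨⟨h1, h2⟩, h3⟩, h4⟩, h5⟩, h6⟩, h7⟩, h8⟩, h9⟩, h10⟩, h11⟩, h12⟩, h13⟩,
    h14⟩, h15⟩ := h
  exact ⟨h1, h2, h3, h4, h5, h6, h7, h8, h9, h10, h11, h12, h13, h14, h15⟩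

theorem lt680 (hr : RestP B Va Vb E) {i : ℕ} (hi : i ≤ 680) (hy : Yb i < B.Yc) : i < 680 := by
  rcases hi.eq_or_lt with h | h
  · subst h
    rw [Yb_last] at hy
    have := hr.yc
    omega
  · exact h

end ZBlockX

open ZBlockX

theorem mkFar_sound (hs : ScalOK B) {y0 y1 : ℕ} (hY : B.Yp ≤ y0) (h0 : 0 < mkFar B y0 y1) {hi : ℝ}
    (h : hi ≤ rr y1 ∨ 2 ^ 60 ≤ y1) : RgOK B (mkFar B y0 y1) (rr y0) hi := by
  have hdef : mkFar B y0 y1 = pk15 (OFF + min (far0 B y0) SS) (OFF + min (far0 B y0) SS)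
      (far1b B y0) (OFF + far2 B y0) (OFF + far2 B y0)
      (far1b B y0 + mulU B.lam (min (far0 B y0) SS))
      (far2 B y0 + 2 * mulU B.lam (far1b B y0) + mulU B.lam (mulU B.lam (min (far0 B y0) SS))) INV
      B.d1g (divU (m0a B y1) B.mL + mulU B.be B.d1g + mulU B.nr (min (far0 B y0) SS)) 0 1 0 0 1 := by
    simp only [mkFar, forceN_eq]
  obtain ⟨e0, e1, e2, e3, e4, e5, e6, e7, e8, e9, -, -, -, -, -, -, -, -, -, -, -, -, b2, b3, -⟩ :=
    pk15_fld hdef h0
  generalize mkFar B y0 y1 = r at e0 e1 e2 e3 e4 e5 e6 e7 e8 e9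
  refine ⟨fun q hq y hy ha hb => ?_, fun y ha _ hy => ?_⟩
  · have g0 := far0_bd hs hq hy ha
    have hI := INV_lt_BIG
    have g1 : |B.g 1 q y| ≤ rr (far1b B y0) := by
      have := far1b_bd hs (y := y0) (by omega) hq (c := 1) (v := y) le_rfl (by simpa using ha)
      simpa using this
    have g2 : |B.g 2 q y| ≤ rr (far2 B y0) := by
      have := hs.far.f2 y0 (by omega) q hq 1 y le_rfl (by simpa using ha)
      simpa using this
    have hl : |rr B.lam| ≤ rr B.lam := (abs_of_nonneg (rr_nonneg _)).le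
    have p0 := abs_le_mulU hl g0
    have p1 := abs_le_mulU hl g1
    have p2 := abs_le_mulU hl p0
    have d1 := hs.d1g q hq y hy
    refine ⟨?_, ?_, ?_, ?_, ?_, ?_, ?_, ?_, ?_, fun hy2 => ?_⟩
    · rw [e0, ro_OFF]
      exact (abs_le.mp g0).1
    · rw [e1, ro_OFF]
      exact (abs_le.mp g0).2
    · rw [e2]
      exact g1
    · rw [e3, ro_OFF]
      exact (abs_le.mp g2).1
    · rw [e4, ro_OFF]
      exact (abs_le.mp g2).2
    · rw [e5, rr_add]
      unfold Blk.L1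
      exact (abs_add_le _ _).trans (add_le_add g1 p0)
    · rw [e6, rr_add, rr_add, rr_nmul]
      unfold Blk.L2
      have h1 := abs_le.mp g2
      have h2 := abs_le.mp p1
      have h3 := abs_le.mp p2
      push_cast
      rw [abs_le]
      constructor <;> nlinarith [h1.1, h1.2, h2.1, h2.2, h3.1, h3.2]
    · intro h7
      rw [e7] at h7
      exact absurd h7 (lt_irrefl _)
    · rw [e8]
      exact d1
    · have hy1 : y ≤ rr y1 := by
        rcases h with h | h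
        · exact hb.trans h
        · refine hy2.trans ?_
          have h2 : rr (2 ^ 60) ≤ rr y1 := rr_le.mpr h
          refine le_trans (le_of_eq ?_) h2
          unfold rr
          norm_num
      have hM := m0a_ge hs hq hy hy1
      have hm0 : 0 < rr B.mL := rr_pos hs.mL0
      have key := abs_gq2_le hs.C_pos (hs.q_pos hq).1 0 y 0 (M := rr (m0a B y1)) hm0
        (hs.hmu q hq).1 (hs.m1 q hq) (hs.n1 q hq) (by simpa using hM)
      rw [e9, rr_add, rr_add]
      refine key.trans (add_le_add (add_le_add (divU_ge _ hs.mL0) ?_) ?_)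
      · exact le_mulU hs.be d1 (abs_nonneg _)
      · refine le_mulU hs.nr ?_ (abs_nonneg _)
        rw [sub_zero]
        exact g0
  · have := rr_le.mp ha
    omega

theorem cellsChk_sound {i0 n : ℕ} (h : cellsChk B Va Vb T E i0 n = true) :
    ∀ i, i0 ≤ i → i < i0 + n → cellChk B Va Vb T E i = true := by
  intro i h1 h2
  have h3 := all_rec (f := fun i => forceN (i0 + i) (cellChk B Va Vb T E)) h (i - i0) (by omega)
  rw [forceN_eq, Nat.add_sub_cancel' h1] at h3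
  exact h3

theorem mk_of (hs : ScalOK B) (hV : EndOK B Va Vb B.Yc)
    (hc : ∀ i, i ≤ 680 → cellChk B Va Vb T E i = true) {i : ℕ} (hi : i ≤ 680) (hy : Yb i < B.Yc) :
    MkOK B (T i) (rr (Yb i)) (rr (Yb (i + 1))) := by
  have h := cell_props (hc i hi)
  have h1 := h.eq
  have h0 := h.pos
  rw [if_pos hy] at h1
  rw [h1] at h0 ⊢
  exact mkCell_sound hs hV hy h0

theorem mk_zero (hs : ScalOK B) (hV : EndOK B Va Vb B.Yc) (hr : restChk B Va Vb E = true) :
    MkOK B (mkCell B Va Vb 0 0) 0 0 := by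
  have h := rest_props hr
  have hy : 0 < B.Yc := by
    have := h.z0
    have := h.z1
    have := h.z2
    have := h.z3
    omega
  have h1 := mkCell_sound hs hV hy h.pos
  rwa [rr_zero] at h1

namespace ZBlockX

theorem tab_of (hs : ScalOK B) (hV : EndOK B Va Vb B.Yc)
    (hc : ∀ i, i ≤ 680 → cellChk B Va Vb T E i = true) (hr : RestP B Va Vb E) : TabOK B T := by
  have far : ∀ i, i ≤ 680 → ¬Yb i < B.Yc → ∀ hi : ℝ, (hi ≤ rr (Yb (i + 1)) ∨ 2 ^ 60 ≤ Yb (i + 1)) →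
      RgOK B (T i) (rr (Yb i)) hi := by
    intro i hi hy u hu
    have h := cell_props (hc i hi)
    have h1 := h.eq
    have h0 := h.pos
    rw [if_neg hy] at h1
    rw [h1] at h0 ⊢
    exact mkFar_sound hs (hr.yp.trans (not_lt.mp hy)) h0 hu
  constructor
  · intro i hi
    by_cases hy : Yb i < B.Yc
    · exact (mk_of hs hV hc hi.le hy).rg
    · exact far i hi.le hy _ (Or.inl le_rfl)
  · intro u
    refine far 680 le_rfl (fun hy => absurd (lt680 hr le_rfl hy) (lt_irrefl _)) u (Or.inr ?_)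
    rw [← Yb_last]
    exact (Yb_lt le_rfl).le

theorem l1_of (hs : ScalOK B) (hV : EndOK B Va Vb B.Yc) (hr : restChk B Va Vb E = true) {q : ℝ}
    (hq : q ∈ B.I) : B.g 1 q 0 + rr B.lam ≤ 0 ∧ -B.g 1 q 0 ≤ rr B.lamh := by
  have h := mk_zero hs hV hr
  have hp := rest_props hr
  constructor
  · have h1 := (h.ex q hq 0 le_rfl le_rfl le_rfl).2.2.2
    rw [hp.l1, rr_zero] at h1
    unfold Blk.L1 at h1
    rwa [(hs.sm_g hq).z, mul_one] at h1
  · have h1 := (h.rg.pt q hq 0 le_rfl le_rfl le_rfl).gK1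
    exact (neg_le_abs _).trans (h1.trans (rr_le.mpr hp.k1))

theorem hd_of (hs : ScalOK B) (hV : EndOK B Va Vb B.Yc)
    (hc : ∀ i, i ≤ 680 → cellChk B Va Vb T E i = true) (hr : restChk B Va Vb E = true) {q : ℝ}
    (hq : q ∈ B.I) :
    Hd (B.g 0 q) (B.g 1 q) (B.g 2 q) (rr B.lam) (rr B.z2) (rr B.Zc) (rr B.Z2) := by
  have hp := rest_props hr
  have z1 := hp.z1
  have z2 := hp.z2
  have z3 := hp.z3
  refine ⟨rr_pos hp.l0, (l1_of hs hV hr hq).1, rr_pos hp.z0, rr_le.mpr z1, rr_le.mpr z2.le,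
    fun y h0 h1 => ?_, fun y h0 h1 => ?_, fun y h0 h1 => ?_⟩
  · rcases h0.eq_or_lt with h2 | h2
    · rw [← h2, (hs.sm_g hq).z]
      exact one_pos
    · obtain ⟨i, hi, h3, h4⟩ := cell_of' h2
      have h5 : Yb i < B.z2 := rr_lt.mp (h3.trans_le h1)
      have h6 : Yb i < B.Yc := by omega
      have h7 := ((mk_of hs hV hc hi h6).rg.pt q hq y h0 h3.le (h4 (lt680 hp hi h6))).inR
      have h8 : 0 < gLop (T i) := (cell_props (hc i hi)).lop.resolve_left (by omega)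
      exact (rr_pos h8).trans_le (h7.lop (Or.inl h8))
  · obtain ⟨i, hi, h3, h4⟩ := cell_of' h0
    have h5 : Yb i < B.Zc := rr_lt.mp (h3.trans_le h1)
    have h6 : Yb i < B.Yc := by omega
    have h7 := ((mk_of hs hV hc hi h6).ex q hq y h0.le h3.le (h4 (lt680 hp hi h6))).1
    rw [(cell_props (hc i hi)).con.resolve_left (by omega), rr_zero] at h7
    exact h7
  · have hy : 0 ≤ y := (rr_nonneg _).trans h0
    have key : ∀ i, i ≤ 680 → rr (Yb i) ≤ y → y ≤ rr (Yb (i + 1)) → Yb i < B.Z2 →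
        B.Zc < Yb (i + 1) → B.g 0 q y ≤ 0 := by
      intro i hi h3 h4 h5 h6
      have h7 := ((mk_of hs hV hc hi (by omega)).rg.pt q hq y hy h3 h4).inR.hip
      rw [(cell_props (hc i hi)).neg.resolve_left (by omega), rr_zero] at h7
      exact h7
    rcases h0.eq_or_lt with h2 | h2
    · obtain ⟨i, hi, h3, h4⟩ := cell_of hy
      have h5 : Yb i ≤ B.Zc := rr_le.mp (h3.trans h2.symm.le)
      have h6 := h4 (lt680 hp hi (by omega))
      exact key i hi h3 h6.le (by omega) (rr_lt.mp (h2.le.trans_lt h6))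
    · obtain ⟨i, hi, h3, h4⟩ := cell_of' ((rr_nonneg _).trans_lt h2)
      have h5 : Yb i < B.Z2 := rr_lt.mp (h3.trans_le h1)
      have h6 := h4 (lt680 hp hi (by omega))
      exact key i hi h3.le h6 h5 (rr_lt.mp (h2.trans_le h6))

theorem E_anti (hc : ∀ i, i ≤ 680 → cellChk B Va Vb T E i = true) {i j : ℕ} (h : i ≤ j)
    (hj : j ≤ 680) : E j ≤ E i := by
  induction j with
  | zero => rw [Nat.le_zero.mp h]
  | succ j ih =>
    rcases Nat.eq_or_lt_of_le h with h1 | h1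
    · rw [h1]
    · exact le_trans (cell_props (hc (j + 1) hj)).dec (ih (by omega) (by omega))

theorem E_le (hc : ∀ i, i ≤ 680 → cellChk B Va Vb T E i = true) {j : ℕ} (hj : j ≤ 680) :
    E j ≤ B.lam :=
  (E_anti hc (Nat.zero_le j) hj).trans (cell_props (hc 0 (by omega))).dec

/-- On a cell the profile is bounded by the stored value or by the first envelope. -/
theorem cell_bd (hs : ScalOK B) {q v : ℝ} (hq : q ∈ B.I)
    (hd : Hd (B.g 0 q) (B.g 1 q) (B.g 2 q) (rr B.lam) (rr B.z2) (rr B.Zc) (rr B.Z2)) {i : ℕ}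
    (hv : 0 ≤ v) (h1 : v ≤ rr (Yb (i + 1))) (hin : InR (T i) (B.g 0 q v)) :
    |B.g 0 q v| ≤ rr (av B T i) ∨ |B.g 0 q v| ≤ Real.exp (-(rr B.lam * v)) := by
  unfold av
  split_ifs with h
  · rcases le_total 0 (B.g 0 q v) with h2 | h2
    · right
      rw [abs_of_nonneg h2]
      exact hd.exp_le (hs.sm_g hq) hv (h1.trans (rr_le.mpr h))
    · left
      rw [abs_of_nonpos h2]
      exact neg_le.mp hin.neg
  · exact Or.inl hin.abs

theorem env_cell (hs : ScalOK B) (hc : ∀ i, i ≤ 680 → cellChk B Va Vb T E i = true) {q v : ℝ}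
    (hq : q ∈ B.I)
    (hd : Hd (B.g 0 q) (B.g 1 q) (B.g 2 q) (rr B.lam) (rr B.z2) (rr B.Zc) (rr B.Z2)) {i : ℕ}
    (hi : i ≤ 680) (hv : 0 ≤ v) (h1 : v ≤ rr (Yb (i + 1))) (hin : InR (T i) (B.g 0 q v)) :
    |B.g 0 q v| ≤ Real.exp (-(rr (E i) * v)) := by
  rcases cell_bd hs hq hd hv h1 hin with h | h
  · rcases (cell_props (hc i hi)).env with (h2 | h2) | h2
    · rw [h2, rr_zero] at h
      exact h.trans (Real.exp_pos _).le
    · rw [h2, rr_zero, zero_mul, neg_zero, Real.exp_zero]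
      exact (hs.sm_g hq).bd v hv
    · rcases Nat.eq_zero_or_pos (av B T i) with h3 | h3
      · rw [h3, rr_zero] at h
        exact h.trans (Real.exp_pos _).le
      · have h4 : av B T i ≤ SS := by
          by_contra h5
          rw [nlogL_big (not_le.mp h5).le, mulU_eq] at h2
          omega
        refine h.trans ((nlogL_le h3 h4).trans (Real.exp_le_exp.mpr (neg_le_neg ?_)))
        exact (le_mulU le_rfl h1 hv).trans (rr_le.mpr h2)
  · refine h.trans (Real.exp_le_exp.mpr (neg_le_neg ?_))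
    exact mul_le_mul_of_nonneg_right (rr_le.mpr (E_le hc hi)) hv

theorem alg_far (hs : ScalOK B) (hp : RestP B Va Vb E) {q v : ℝ} (hq : q ∈ B.I)
    (hv : rr B.Yc ≤ v) : B.g 0 q v ^ 2 * (1 + rr B.gam * v) ≤ 1 := by
  have hy : 0 < B.Yc := by
    have := hp.z0
    have := hp.z1
    have := hp.z2
    have := hp.z3
    omega
  have hy' := rr_pos hy
  have v0 : 0 < v := hy'.trans_le hv
  have hm : 0 < rr B.mL := rr_pos hs.mL0
  have h1 : 1 ≤ rr (mulD B.mL B.mL - B.gam) * rr B.Yc := by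
    rw [← rr_SS]
    exact (rr_le.mpr hp.fa).trans (mulD_le _ _)
  have h2 : rr (mulD B.mL B.mL - B.gam) ≤ rr B.mL * rr B.mL - rr B.gam := by
    rcases le_total B.gam (mulD B.mL B.mL) with h | h
    · rw [rr_sub h]
      exact sub_le_sub_right (mulD_le _ _) _
    · rw [Nat.sub_eq_zero_of_le h, rr_zero, zero_mul] at h1
      exact absurd h1 (by norm_num)
  have h3 : 1 + rr B.gam * v ≤ rr B.mL * rr B.mL * v := by
    have h4 := mul_le_mul_of_nonneg_left hv (rr_nonneg (mulD B.mL B.mL - B.gam))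
    have h5 := mul_le_mul_of_nonneg_right h2 v0.le
    linarith
  have h6 := hs.dec hq v0
  have h7 : 0 < rr B.mL * √v := mul_pos hm (Real.sqrt_pos.mpr v0)
  rw [le_div_iff₀ h7] at h6
  have h8 : (|B.g 0 q v| * (rr B.mL * √v)) ^ 2 ≤ 1 :=
    pow_le_one₀ (mul_nonneg (abs_nonneg _) h7.le) h6
  rw [mul_pow, sq_abs, mul_pow, Real.sq_sqrt v0.le] at h8
  refine le_trans (mul_le_mul_of_nonneg_left h3 (sq_nonneg _)) (le_trans (le_of_eq ?_) h8)
  ring

theorem alg_cell (hs : ScalOK B) (hp : RestP B Va Vb E)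
    (hc : ∀ i, i ≤ 680 → cellChk B Va Vb T E i = true) {q v : ℝ} (hq : q ∈ B.I)
    (hd : Hd (B.g 0 q) (B.g 1 q) (B.g 2 q) (rr B.lam) (rr B.z2) (rr B.Zc) (rr B.Z2)) {i : ℕ}
    (hi : i ≤ 680) (hy : Yb i < B.Yc) (hv : 0 ≤ v) (h1 : v ≤ rr (Yb (i + 1)))
    (hin : InR (T i) (B.g 0 q v)) : B.g 0 q v ^ 2 * (1 + rr B.gam * v) ≤ 1 := by
  have hg : 0 ≤ rr B.gam * v := mul_nonneg (rr_nonneg _) hv
  rcases cell_bd hs hq hd hv h1 hin with h | h
  · have h2 := (cell_props (hc i hi)).alg.resolve_left (by omega)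
    have h3 : B.g 0 q v ^ 2 ≤ rr (mulU (av B T i) (av B T i)) := by
      rw [← sq_abs, sq]
      exact le_mulU h h (abs_nonneg _)
    have h4 : 1 + rr B.gam * v ≤ rr (SS + mulU B.gam (Yb (i + 1))) := by
      rw [rr_add, rr_SS]
      exact add_le_add le_rfl (le_mulU le_rfl h1 hv)
    rw [← rr_SS] at h4 ⊢
    refine (le_mulU h3 h4 ?_).trans (rr_le.mpr h2)
    rw [rr_SS]
    linarith
  · have h2 : rr B.gam ≤ 2 * rr B.lam := by
      have := rr_le.mpr hp.ga
      rw [rr_nmul] at this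
      exact_mod_cast this
    have h3 : B.g 0 q v ^ 2 ≤ Real.exp (-(2 * rr B.lam * v)) := by
      rw [← sq_abs]
      refine (pow_le_pow_left₀ (abs_nonneg _) h 2).trans (le_of_eq ?_)
      rw [sq, ← Real.exp_add]
      congr 1
      ring
    have h4 : 1 + rr B.gam * v ≤ Real.exp (2 * rr B.lam * v) := by
      have h5 := Real.add_one_le_exp (2 * rr B.lam * v)
      have h6 := mul_le_mul_of_nonneg_right h2 hv
      linarith
    refine (mul_le_mul h3 h4 (by linarith) (Real.exp_pos _).le).trans (le_of_eq ?_)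
    rw [← Real.exp_add, neg_add_cancel, Real.exp_zero]

end ZBlockX

theorem bok_of (hs : ScalOK B) (hV : EndOK B Va Vb B.Yc)
    (hc : ∀ i, i ≤ 680 → cellChk B Va Vb T E i = true) (hr : restChk B Va Vb E = true) :
    BOK B (rq2 (lv T)) E := by
  have hp := rest_props hr
  have ht := tab_of hs hV hc hp
  have hd := fun q (hq : q ∈ B.I) => hd_of hs hV hc hr hq
  refine ⟨hs, hs.far, qok_of ht, hd, fun q hq v hv => ?_, ⟨?_, hp.lh⟩, fun y => ?_,
    fun q hq v hv => ?_, hp.yp, ?_, hp.z3⟩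
  · have h1 := gg_ge_lin hs.C_pos (hs.q_pos hq).1 hv
    have h2 := (l1_of hs hV hr hq).2
    have h3 := gg_zero hs.C_pos (hs.q_pos hq).1 1
    have h4 : aa B.C q 1 ≤ rr B.lamh := by
      refine le_trans (le_of_eq ?_) h2
      unfold Blk.g
      rw [h3]
      simp
    exact le_trans (sub_le_sub_left (mul_le_mul_of_nonneg_right h4 hv) 1) h1
  · have hq : B.q 0 ∈ B.I := hs.q_mem (by have := hs.nv; omega)
    have h := l1_of hs hV hr hq
    exact rr_le.mp (by linarith [h.1, h.2])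
  · simp only [envb, forceN_eq]
    refine ⟨E_le hc (cidx_le _), fun q hq v hv hy => ?_⟩
    obtain ⟨i, hi, h1, h2⟩ := cell_le hv hy
    have hi' : i ≤ 680 := hi.trans (cidx_le _)
    have h3 : E (cidx (y - 1)) ≤ E i := E_anti hc hi (cidx_le _)
    refine le_trans ?_ (Real.exp_le_exp.mpr (neg_le_neg
      (mul_le_mul_of_nonneg_right (rr_le.mpr h3) hv)))
    rcases hi'.eq_or_lt with h4 | h4
    · rw [h4, hp.e0, rr_zero, zero_mul, neg_zero, Real.exp_zero]
      exact (hs.sm_g hq).bd v hv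
    · exact env_cell hs hc hq (hd q hq) hi' hv (h2 h4)
        ((ht.cell i h4).pt q hq v hv h1 (h2 h4)).inR
  · rcases le_or_gt (rr B.Yc) v with h | h
    · exact alg_far hs hp hq h
    · obtain ⟨i, hi, h1, h2⟩ := cell_of hv
      have h3 : Yb i < B.Yc := rr_lt.mp (h1.trans_lt h)
      have h4 := lt680 hp hi h3
      exact alg_cell hs hp hc hq (hd q hq) hi h3 hv (h2 h4).le
        ((ht.cell i h4).pt q hq v hv h1 (h2 h4).le).inR
  · have := hp.yc
    omega

end Pool.Agent.MP_39fec4_gt.K
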