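import Pool.Agent.MP_39fec4_gt.ZGam
import Pool.Agent.MP_39fec4_gt.FQg
import Pool.Agent.MP_39fec4_gt.FDecay

set_option autoImplicit false

/-! Soundness of the scalars of a block. -/

namespace Pool.Agent.MP_39fec4_gt.K

open Set Full

variable {G : ℕ → ℕ} {B : Blk} {q : ℝ}

namespace ZScalX

open ZGamX

theorem th_lo : THL ^ 4096 * 2 ≤ (2 ^ 80) ^ 4096 := by decide +kernel

theorem th_hi : (2 ^ 80) ^ 4096 ≤ THH ^ 4096 * 2 := by decide +kernel

theorem th_pow (m : ℕ) :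
    ((2 : ℝ) ^ (-(1 / 4096 : ℝ))) ^ m = (2 : ℝ) ^ (-((m : ℝ) / 4096)) := by
  rw [← Real.rpow_natCast, ← Real.rpow_mul (by norm_num)]
  congr 1
  ring

theorem th_half : ((2 : ℝ) ^ (-(1 / 4096 : ℝ))) ^ 4096 = 1 / 2 := by
  rw [th_pow]
  have e : -(((4096 : ℕ) : ℝ) / 4096) = -1 := by norm_num
  rw [e, Real.rpow_neg_one]
  norm_num

theorem root_lo {t s n : ℕ} {x : ℝ} (hs : 0 < s) (hn : n ≠ 0) (hx : 0 ≤ x) (h : t ^ n * 2 ≤ s ^ n)
    (e : x ^ n = 1 / 2) : (t : ℝ) / s ≤ x := by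
  have hs' : (0 : ℝ) < s := by exact_mod_cast hs
  have h' : (t : ℝ) ^ n * 2 ≤ (s : ℝ) ^ n := by exact_mod_cast h
  refine le_of_pow_le_pow_left₀ hn hx ?_
  rw [e, div_pow, div_le_div_iff₀ (pow_pos hs' _) two_pos]
  linarith

theorem root_hi {t s n : ℕ} {x : ℝ} (hs : 0 < s) (hn : n ≠ 0) (h : s ^ n ≤ t ^ n * 2)
    (e : x ^ n = 1 / 2) : x ≤ (t : ℝ) / s := by
  have hs' : (0 : ℝ) < s := by exact_mod_cast hs
  have h' : (s : ℝ) ^ n ≤ (t : ℝ) ^ n * 2 := by exact_mod_cast h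
  refine le_of_pow_le_pow_left₀ hn (by positivity) ?_
  rw [e, div_pow, div_le_div_iff₀ two_pos (pow_pos hs' _)]
  linarith

theorem th_encl : (THL : ℝ) / 2 ^ 80 ≤ (2 : ℝ) ^ (-(1 / 4096 : ℝ)) ∧
    (2 : ℝ) ^ (-(1 / 4096 : ℝ)) ≤ (THH : ℝ) / 2 ^ 80 := by
  have n0 : (4096 : ℕ) ≠ 0 := by norm_num
  have a := root_lo (t := THL) (s := 2 ^ 80) (n := 4096) (pow_pos two_pos _) n0
    (Real.rpow_nonneg zero_le_two _) th_lo th_half
  have b := root_hi (t := THH) (s := 2 ^ 80) (n := 4096) (pow_pos two_pos _) n0 th_hi th_half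
  rw [Nat.cast_pow, Nat.cast_ofNat] at a b
  exact ⟨a, b⟩

theorem twoL_rec (T m k : ℕ) {r : ℝ} (hr : (T : ℝ) / 2 ^ 80 ≤ r) : ∀ (a : ℕ) (x : ℝ),
    (a : ℝ) / 2 ^ 80 ≤ x →
    rr (Nat.rec (motive := fun _ => ℕ → ℕ) (fun a => a >>> 40)
      (fun i ih a => forceN ((a * a) >>> 80) fun a2 =>
        forceN (bif Nat.beq ((m >>> i) % 2) 1 then (a2 * T) >>> 80 else a2) ih) k a) ≤
      x ^ 2 ^ k * r ^ (m % 2 ^ k) := by
  induction k with
  | zero =>
    intro a x h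
    have h1 := rr_shr_le a 40
    have e : rr a / 2 ^ 40 = (a : ℝ) / 2 ^ 80 := by
      unfold rr
      rw [div_div, ← pow_add]
    rw [e] at h1
    rw [pow_zero, pow_one, Nat.mod_one, pow_zero, mul_one]
    exact h1.trans h
  | succ k ih =>
    intro a x h
    have hs : (0 : ℝ) < 2 ^ 80 := pow_pos two_pos _
    have h2 := mul_lo (k := 80) hs h h
    have h3 := mul_lo (k := 80) (b := T) hs h2 hr
    have e := ih (bif Nat.beq ((m >>> k) % 2) 1 then (((a * a) >>> 80) * T) >>> 80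
      else (a * a) >>> 80) (x * x * r ^ (m / 2 ^ k % 2)) (by
        rw [Nat.shiftRight_eq_div_pow m k]
        rcases Nat.mod_two_eq_zero_or_one (m / 2 ^ k) with h | h
        · rw [h, pow_zero, mul_one]; exact h2
        · rw [h, pow_one]; exact h3)
    simp only [forceN_eq] at e ⊢
    refine e.trans (le_of_eq ?_)
    rw [Nat.mod_pow_succ, pow_succ 2 k]
    generalize 2 ^ k = n
    ring

theorem twoH_rec (T m k : ℕ) {r : ℝ} (h0 : 0 ≤ r) (hr : r ≤ (T : ℝ) / 2 ^ 80) :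
    ∀ (a : ℕ) (x : ℝ), 0 ≤ x → x ≤ (a : ℝ) / 2 ^ 80 →
    x ^ 2 ^ k * r ^ (m % 2 ^ k) ≤
    rr (Nat.rec (motive := fun _ => ℕ → ℕ) (fun a => a >>> 40 + 1)
      (fun i ih a => forceN ((a * a) >>> 80 + 1) fun a2 =>
        forceN (bif Nat.beq ((m >>> i) % 2) 1 then (a2 * T) >>> 80 + 1 else a2) ih) k a) := by
  induction k with
  | zero =>
    intro a x _ h
    have h1 := (rr_shr_lt a 40).le
    have e : rr a / 2 ^ 40 = (a : ℝ) / 2 ^ 80 := by
      unfold rr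
      rw [div_div, ← pow_add]
    rw [e] at h1
    rw [pow_zero, pow_one, Nat.mod_one, pow_zero, mul_one]
    exact h.trans h1
  | succ k ih =>
    intro a x hx h
    have hs : (0 : ℝ) < 2 ^ 80 := pow_pos two_pos _
    have h2 := mul_hi (k := 80) hs hx h h
    have h3 := mul_hi (k := 80) (b := T) hs h0 h2 hr
    have e := ih (bif Nat.beq ((m >>> k) % 2) 1 then (((a * a) >>> 80 + 1) * T) >>> 80 + 1
      else (a * a) >>> 80 + 1) (x * x * r ^ (m / 2 ^ k % 2))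
      (mul_nonneg (mul_nonneg hx hx) (pow_nonneg h0 _)) (by
        rw [Nat.shiftRight_eq_div_pow m k]
        rcases Nat.mod_two_eq_zero_or_one (m / 2 ^ k) with h | h
        · rw [h, pow_zero, mul_one]; exact h2
        · rw [h, pow_one]; exact h3)
    simp only [forceN_eq] at e ⊢
    refine le_trans (le_of_eq ?_) e
    rw [Nat.mod_pow_succ, pow_succ 2 k]
    generalize 2 ^ k = n
    ring

end ZScalX

open ZScalX

theorem two_encl {m : ℕ} (hm : m < 4096) : rr (twoL m) ≤ (2 : ℝ) ^ (-((m : ℝ) / 4096)) ∧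
    (2 : ℝ) ^ (-((m : ℝ) / 4096)) ≤ rr (twoH m) := by
  have hs : (0 : ℝ) < 2 ^ 80 := pow_pos two_pos _
  have e : ((1 <<< 80 : ℕ) : ℝ) / 2 ^ 80 = 1 := by
    rw [Nat.shiftLeft_eq, one_mul, Nat.cast_pow, Nat.cast_ofNat, div_self hs.ne']
  have hmm : m % 2 ^ 12 = m := Nat.mod_eq_of_lt hm
  have a := twoL_rec THL m 12 th_encl.1 (1 <<< 80) 1 e.le
  have b := twoH_rec THH m 12 (Real.rpow_nonneg zero_le_two _) th_encl.2 (1 <<< 80) 1
    zero_le_one e.ge
  rw [one_pow, one_mul, hmm, th_pow] at a b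
  exact ⟨a, b⟩

theorem PI2_encl : rr PI2L ≤ Real.pi / √2 ∧ Real.pi / √2 ≤ rr PI2H := by
  have h1 : √2 ≤ (1.41421356237309505 : ℝ) := Real.sqrt_le_iff.2 ⟨by norm_num, by norm_num⟩
  have h2 : (1.41421356237309504 : ℝ) ≤ √2 := Real.le_sqrt_of_sq_le (by norm_num)
  have h0 : (0 : ℝ) < √2 := lt_of_lt_of_le (by norm_num) h2
  have p1 := Real.pi_gt_d20
  have p2 := Real.pi_lt_d20
  have e1 : rr PI2L = 2442500725676 / 1099511627776 := by
    unfold rr PI2L
    norm_num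
  have e2 : rr PI2H = 2442500725677 / 1099511627776 := by
    unfold rr PI2H
    norm_num
  rw [e1, e2, le_div_iff₀ h0, div_le_iff₀ h0]
  constructor <;> linarith

theorem c3U_ge {a b : ℕ} (h0 : 0 < a) (hab : a ≤ b) (hb : b < 2048) :
    c3 (a / 4096) (b / 4096) ≤ rr (c3U a b) := by
  have ha0 : (0 : ℝ) < a := by exact_mod_cast h0
  have ha1 : (a : ℝ) < 2048 := by exact_mod_cast lt_of_le_of_lt hab hb
  have hb0 : (0 : ℝ) ≤ b := Nat.cast_nonneg b
  have hp : (4096 : ℝ) / a ≤ rr ((4096 <<< 40) / a + 1) := by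
    have h := (rr_div_lt (4096 <<< 40) h0).le
    have e : rr (4096 <<< 40) = 4096 := by
      rw [rr_shl]
      unfold rr
      rw [div_mul_cancel₀ _ (pow_pos two_pos _).ne']
      norm_num
    rwa [e] at h
  have hz : 1 - 0.227 * ((a : ℝ) / 4096) ≤ rr (SS - (227 * a * SS) / 4096000) := by
    have h := rr_sub_ge SS ((227 * a * SS) / 4096000)
    have h1 := rr_div_le (227 * a * SS) 4096000
    rw [rr_nmul, rr_SS] at h1
    rw [rr_SS] at h
    push_cast at h1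
    linarith
  have hu : 0.55 - 0.36 * ((a : ℝ) / 4096) ≤
      rr (55 * SS / 100 + 1 - (36 * a * SS) / 409600) := by
    have h := rr_sub_ge (55 * SS / 100 + 1) ((36 * a * SS) / 409600)
    have h1 := rr_div_le (36 * a * SS) 409600
    have h2 := (rr_div_lt (k := 100) (55 * SS) (by norm_num)).le
    rw [rr_nmul, rr_SS] at h1 h2
    push_cast at h1 h2
    linarith
  have hw : 0.37 + 1.26 * ((b : ℝ) / 4096) ≤
      rr (37 * SS / 100 + 1 + (126 * b * SS) / 409600 + 1) := by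
    have h1 := (rr_div_lt (k := 409600) (126 * b * SS) (by norm_num)).le
    have h2 := (rr_div_lt (k := 100) (37 * SS) (by norm_num)).le
    rw [rr_nmul, rr_SS] at h1 h2
    rw [add_assoc (37 * SS / 100 + 1), rr_add]
    push_cast at h1 h2
    linarith
  unfold c3U
  simp only [forceN_eq]
  generalize (4096 <<< 40) / a + 1 = p at hp ⊢
  generalize SS - (227 * a * SS) / 4096000 = z at hz ⊢
  generalize 55 * SS / 100 + 1 - (36 * a * SS) / 409600 = u at hu ⊢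
  generalize 37 * SS / 100 + 1 + (126 * b * SS) / 409600 + 1 = w at hw ⊢
  have hp1 : (1 : ℝ) ≤ 4096 / a := by
    rw [le_div_iff₀ ha0]
    linarith
  have hp' : (4096 : ℝ) / a - 1 ≤ rr (p - SS) := by
    have h := rr_sub_ge p SS
    rw [rr_SS] at h
    linarith
  have z0 : (0 : ℝ) ≤ 1 - 0.227 * ((a : ℝ) / 4096) := by linarith
  have u0 : (0 : ℝ) ≤ 0.55 - 0.36 * ((a : ℝ) / 4096) := by linarith
  have w0 : (0 : ℝ) ≤ 0.37 + 1.26 * ((b : ℝ) / 4096) := by linarith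
  have t1 := le_mulU hz hz z0
  have t2 := le_mulU (le_mulU hp hp (by linarith)) hu u0
  have t3 := le_mulU (le_mulU hp hp' (by linarith)) hw w0
  have n2 : 0 ≤ (4096 : ℝ) / a * (4096 / a) * (0.55 - 0.36 * ((a : ℝ) / 4096)) :=
    mul_nonneg (mul_nonneg (by linarith) (by linarith)) u0
  have n3 : 0 ≤ (4096 : ℝ) / a * (4096 / a - 1) * (0.37 + 1.26 * ((b : ℝ) / 4096)) :=
    mul_nonneg (mul_nonneg (by linarith) (by linarith)) w0
  have t4 : 2 * ((4096 : ℝ) / a * (4096 / a) * (0.55 - 0.36 * ((a : ℝ) / 4096))) +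
      2 * ((4096 : ℝ) / a * (4096 / a - 1) * (0.37 + 1.26 * ((b : ℝ) / 4096))) ≤
      rr (2 * mulU (mulU p p) u + 2 * mulU (mulU p (p - SS)) w) := by
    rw [rr_add, rr_nmul, rr_nmul, Nat.cast_ofNat]
    linarith
  refine le_trans (le_of_eq ?_) (le_mulU t1 t4 (by linarith))
  unfold c3
  field_simp
  ring

namespace ZScalX

theorem nuH_ge (hG : GamOK G) {R m : ℕ} (hR : 0 < R) (h0 : 128 ≤ m) (h1 : m < 60000) :
    nu (Cc R) (m / 4096) ≤ rr (nuH G R m) := by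
  have hm : (128 : ℝ) ≤ m := by exact_mod_cast h0
  have h := nu_le_diff (C := Cc R) (a := (m : ℝ) / 4096) (Cc_pos hR) (e := 128 / 4096)
    (by norm_num) (by linarith)
  have a := mH40_ge (m := m + 128) hG hR (by omega)
  have b := mH40_ge (m := m - 128) hG hR (by omega)
  have c := mL40_le (m := m) hG hR (by omega)
  have e1 : ((m + 128 : ℕ) : ℝ) / 4096 = (m : ℝ) / 4096 + 128 / 4096 := by
    push_cast
    ring
  have e2 : ((m - 128 : ℕ) : ℝ) / 4096 = (m : ℝ) / 4096 - 128 / 4096 := by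
    rw [Nat.cast_sub h0]
    push_cast
    ring
  rw [e1] at a
  rw [e2] at b
  have d := rr_sub_ge (mH40 G R (m + 128) + mH40 G R (m - 128)) (2 * mL40 G R m)
  rw [rr_add, rr_nmul, Nat.cast_ofNat] at d
  unfold nuH
  rw [rr_muln, Nat.cast_ofNat]
  have e3 : ∀ t : ℝ, t / (128 / 4096) ^ 2 = t * 1024 := fun t => by ring
  rw [e3] at h
  linarith

theorem cast_mul (k m : ℕ) : ((k * m : ℕ) : ℝ) / 4096 = k * ((m : ℝ) / 4096) := by
  push_cast
  ring

theorem nu_mul (hG : GamOK G) {R a b k : ℕ} (hR : 0 < R) (h0 : 128 ≤ a) (hab : a ≤ b)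
    (hb : b < 2048) (hk : 1 ≤ k) (hk' : k ≤ 11) (h1 : (a : ℝ) / 4096 ≤ q)
    (h2 : q ≤ (b : ℝ) / 4096) :
    nu (Cc R) (k * q) ≤ rr (max (nuH G R (k * a)) (nuH G R (k * b))) := by
  have hk0 : (0 : ℝ) < k := by exact_mod_cast hk
  have ha0 : (0 : ℝ) < a := by exact_mod_cast (by omega : 0 < a)
  have l1 : 128 ≤ k * a := le_trans h0 (Nat.le_mul_of_pos_left a hk)
  have l2 : k * a ≤ k * b := Nat.mul_le_mul_left k hab
  have l3 : k * b ≤ 11 * b := Nat.mul_le_mul_right b hk'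
  have x := nuH_ge hG hR l1 (by omega)
  have y := nuH_ge hG hR (l1.trans l2) (by omega)
  rw [cast_mul] at x y
  have h := nu_le_max (C := Cc R) (a := k * q) (Cc_pos hR) (a0 := k * ((a : ℝ) / 4096))
    (a1 := k * ((b : ℝ) / 4096)) (by positivity) (mul_le_mul_of_nonneg_left h1 hk0.le)
    (mul_le_mul_of_nonneg_left h2 hk0.le)
  rw [rr_max]
  exact h.trans (max_le_max x y)

theorem mu_mul (hG : GamOK G) {R a b k : ℕ} (hR : 0 < R) (h0 : 128 ≤ a) (hab : a ≤ b)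
    (hb : b < 2048) (hk : 1 ≤ k) (hk' : k ≤ 11) (h1 : (a : ℝ) / 4096 ≤ q)
    (h2 : q ≤ (b : ℝ) / 4096) :
    mu (Cc R) (k * q) ≤ rr (max (mH40 G R (k * a)) (mH40 G R (k * b))) := by
  have hk0 : (0 : ℝ) < k := by exact_mod_cast hk
  have ha0 : (0 : ℝ) < a := by exact_mod_cast (by omega : 0 < a)
  have l2 : k * a ≤ k * b := Nat.mul_le_mul_left k hab
  have l3 : k * b ≤ 11 * b := Nat.mul_le_mul_right b hk'
  have x := mH40_ge (m := k * a) hG hR (by omega)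
  have y := mH40_ge (m := k * b) hG hR (by omega)
  rw [cast_mul] at x y
  have h := mu_le_max (C := Cc R) (a := k * q) (Cc_pos hR) (a0 := k * ((a : ℝ) / 4096))
    (a1 := k * ((b : ℝ) / 4096)) (by positivity) (mul_le_mul_of_nonneg_left h1 hk0.le)
    (mul_le_mul_of_nonneg_left h2 hk0.le)
  rw [rr_max]
  exact h.trans (max_le_max x y)

/-- The moment and its first derivative on the block. -/
theorem mu_blk (hG : GamOK G) {R a b : ℕ} (hR : 0 < R) (h0 : 128 ≤ a) (hab : a ≤ b)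
    (hb : b < 2048) (h : mH40 G R (b + 16) ≤ mL40 G R b) (h1 : (a : ℝ) / 4096 ≤ q)
    (h2 : q ≤ (b : ℝ) / 4096) :
    (rr (mL40 G R b) ≤ mu (Cc R) q ∧ mu (Cc R) q ≤ rr (mH40 G R a)) ∧
      rr ((mL40 G R b - mH40 G R (b + 16)) * 256) ≤ -mu1 (Cc R) q ∧
      -mu1 (Cc R) q ≤ rr ((mH40 G R (a - 16) - mL40 G R a) * 256) := by
  have ha : (128 : ℝ) ≤ a := by exact_mod_cast h0
  have hC := Cc_pos hR
  have x1 := mH40_ge (m := b + 16) hG hR (by omega)
  have x2 := mL40_le (m := b) hG hR (by omega)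
  have x3 := mH40_ge (m := a) hG hR (by omega)
  have x4 := mH40_ge (m := a - 16) hG hR (by omega)
  have x5 := mL40_le (m := a) hG hR (by omega)
  have e1 : ((b + 16 : ℕ) : ℝ) / 4096 = (b : ℝ) / 4096 + 16 / 4096 := by
    push_cast
    ring
  have e2 : ((a - 16 : ℕ) : ℝ) / 4096 = (a : ℝ) / 4096 - 16 / 4096 := by
    rw [Nat.cast_sub (by omega)]
    push_cast
    ring
  rw [e1] at x1
  rw [e2] at x4
  have y := mu_anti (C := Cc R) (a := q) hC (e := 16 / 4096) (by norm_num) (by linarith) h1 h2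
    (x1.trans ((rr_le.2 h).trans x2))
  have z := mu1_bounds (C := Cc R) (a := q) hC (e := 16 / 4096) (by norm_num) (by linarith) h1 h2
  have e3 : ∀ t : ℝ, t / (16 / 4096) = t * 256 := fun t => by ring
  rw [e3, e3] at z
  have d := rr_sub_ge (mH40 G R (a - 16)) (mL40 G R a)
  refine ⟨⟨x2.trans y.1, y.2.trans x3⟩, ?_, ?_⟩
  · rw [rr_muln, rr_sub h, Nat.cast_ofNat]
    linarith [z.2]
  · rw [rr_muln, Nat.cast_ofNat]
    linarith [z.1]

theorem kap_num {a b : ℕ} (ha : a < 4096) (hb : b < 4096) (h1 : (a : ℝ) / 4096 ≤ q)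
    (h2 : q ≤ (b : ℝ) / 4096) :
    rr (mulD PI2L (twoL b)) ≤ Real.pi / √2 * 2 ^ (-q) ∧
      Real.pi / √2 * 2 ^ (-q) ≤ rr (mulU PI2H (twoH a)) :=
  ⟨mulD_le_of PI2_encl.1 ((two_encl hb).1.trans
      (Real.rpow_le_rpow_of_exponent_le one_le_two (neg_le_neg h2))),
    le_mulU PI2_encl.2 ((Real.rpow_le_rpow_of_exponent_le one_le_two (neg_le_neg h1)).trans
      (two_encl ha).2) (Real.rpow_nonneg zero_le_two _)⟩

theorem m9_eq (B : Blk) : B.m9 = B.m0 + B.dm := rfl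

theorem dq_eq (B : Blk) : B.qb - B.qa = (B.dm : ℝ) / 4096 := by
  unfold Blk.qb Blk.qa
  rw [m9_eq]
  push_cast
  ring

theorem rh_le (B : Blk) :
    rr B.be * (B.qb - B.qa) / 2 + rr B.nr * (B.qb - B.qa) ^ 2 / 8 ≤
      rr (mulU B.be (B.dm <<< 27) + mulU B.nr ((B.dm * B.dm) <<< 13)) := by
  have a := mulU_ge B.be (B.dm <<< 27)
  have b := mulU_ge B.nr ((B.dm * B.dm) <<< 13)
  have e1 : rr (B.dm <<< 27) = (B.dm : ℝ) / 4096 / 2 := by
    rw [rr_shl]
    unfold rr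
    ring
  have e2 : rr ((B.dm * B.dm) <<< 13) = ((B.dm : ℝ) / 4096) ^ 2 / 8 := by
    rw [rr_shl]
    unfold rr
    push_cast
    ring
  rw [e1] at a
  rw [e2] at b
  rw [rr_add, dq_eq, mul_div_assoc, mul_div_assoc]
  exact add_le_add a b

theorem half_eq : rr (SS / 2) = 1 / 2 := by
  have e : SS / 2 = 549755813888 := by decide
  rw [e]
  unfold rr
  norm_num

theorem aa_five (C q : ℝ) :
    ((Nat.factorial 5 : ℕ) : ℝ) * aa C q 5 = mu C ((11 : ℕ) * q) / mu C q / (332640 : ℕ) := by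
  unfold aa
  have e1 : (2 * ((5 : ℕ) : ℝ) + 1) = ((11 : ℕ) : ℝ) := by norm_num
  have e2 : ((Nat.factorial (2 * 5 + 1) : ℕ) : ℝ) = 39916800 := by norm_num [Nat.factorial]
  have e3 : ((Nat.factorial 5 : ℕ) : ℝ) = 120 := by norm_num [Nat.factorial]
  rw [e1, e2, e3]
  push_cast
  ring

theorem aa_one (C q : ℝ) :
    ((Nat.factorial 1 : ℕ) : ℝ) * aa C q 1 = mu C ((3 : ℕ) * q) / (6 * mu C q) := by
  unfold aa
  have e1 : (2 * ((1 : ℕ) : ℝ) + 1) = ((3 : ℕ) : ℝ) := by norm_num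
  have e2 : ((Nat.factorial (2 * 1 + 1) : ℕ) : ℝ) = 6 := by norm_num [Nat.factorial]
  rw [e1, e2, Nat.factorial_one, Nat.cast_one, one_mul]

end ZScalX

theorem scalChk_sound (hG : GamOK G) (h : scalChk G B = true) : ScalOK B := by
  unfold scalChk at h
  simp only [forceN_eq, Bool.and_eq_true, Bool.or_eq_true, Nat.ble_eq, Nat.blt_eq,
    Nat.beq_eq] at h
  obtain ⟨⟨⟨⟨⟨⟨⟨⟨⟨⟨⟨⟨⟨⟨⟨⟨⟨⟨⟨⟨⟨⟨⟨⟨⟨⟨⟨⟨⟨⟨⟨⟨ha, hb⟩, hnv⟩, hst⟩, hR⟩, hmono⟩, hL0⟩, hL⟩, hH⟩,
    hm1⟩, ht1⟩, ht2⟩, htL⟩, hn1⟩, hn2⟩, hn3⟩, hn4⟩, hn5⟩, hnr⟩, hbe⟩, hrh⟩, hfac⟩, hm2⟩, hm5⟩,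
    ha5⟩, hL3⟩, hc3⟩, hkh⟩, hkl⟩, hd1⟩, hlam⟩, hg1⟩, hsm⟩ := h
  have hab : B.m0 ≤ B.m9 := Nat.le_add_right _ _
  have hC : 0 < B.C := Cc_pos hR
  have har : (128 : ℝ) ≤ B.m0 := by exact_mod_cast ha
  have hbr : (B.m9 : ℝ) < 2048 := by exact_mod_cast hb
  have hqa : 0 < B.qa := by
    unfold Blk.qa
    linarith
  have hqb : B.qb < 1 / 2 := by
    unfold Blk.qb
    linarith
  have hq0 : ∀ q ∈ B.I, 0 < q := fun q hq => hqa.trans_le hq.1
  have key := fun q (hq : q ∈ B.I) => mu_blk (q := q) hG hR ha hab hb hmono hq.1 hq.2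
  have hmu : ∀ q ∈ B.I, rr B.mL ≤ mu B.C q ∧ mu B.C q ≤ rr B.mH := fun q hq =>
    ⟨(rr_le.2 hL).trans (key q hq).1.1, (key q hq).1.2.trans (rr_le.2 hH)⟩
  have hL0' := rr_pos hL0
  have hmu0 : ∀ q ∈ B.I, 0 < mu B.C q := fun q hq => hL0'.trans_le (hmu q hq).1
  have hm1' : ∀ q ∈ B.I, |mu1 B.C q| ≤ rr B.m1 := fun q hq => by
    have a := (key q hq).2.1
    have b := (key q hq).2.2.trans (rr_le.2 hm1)
    have c := (rr_nonneg _).trans a
    have d := rr_nonneg B.m1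
    exact abs_le.2 ⟨neg_le.1 b, (neg_nonneg.1 c).trans d⟩
  have hup : ∀ q ∈ B.I, -(mu1 B.C q / mu B.C q) ≤
      rr (divU ((mH40 G B.R (B.m0 - 16) - mL40 G B.R B.m0) * 256) B.mL) := fun q hq => by
    rw [← neg_div]
    exact le_divU hL0 (key q hq).2.2 (hmu q hq).1
  have hlo : ∀ q ∈ B.I, rr (divD ((mL40 G B.R B.m9 - mH40 G B.R (B.m9 + 16)) * 256) B.mH) ≤
      -(mu1 B.C q / mu B.C q) := fun q hq => by
    rw [← neg_div]
    exact divD_le_of (key q hq).2.1 (hmu0 q hq) (hmu q hq).2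
  have hnu := fun (k : ℕ) (h1 : 1 ≤ k) (h2 : k ≤ 11) q (hq : q ∈ B.I) =>
    nu_mul (q := q) (k := k) hG hR ha hab hb h1 h2 hq.1 hq.2
  have hmk := fun (k : ℕ) (h1 : 1 ≤ k) (h2 : k ≤ 11) q (hq : q ∈ B.I) =>
    mu_mul (q := q) (k := k) hG hR ha hab hb h1 h2 hq.1 hq.2
  have hn1' : ∀ q ∈ B.I, nu B.C q ≤ rr B.n1 := fun q hq => by
    have a := hnu 1 le_rfl (by norm_num) q hq
    rw [Nat.cast_one, one_mul, one_mul, one_mul] at a
    exact a.trans (rr_le.2 hn1)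
  have hrh' := rh_le B
  have hrh1 := rr_lt.2 hrh
  rw [rr_SS] at hrh1
  refine
    { a0 := ha, b0 := hb, nv := hnv, st := hst, R0 := hR, mL0 := hL0, mL3 := hL3, hmu := hmu
      m1 := hm1', tau := fun q hq => ?_, tauL := ?_, n1 := hn1'
      n2 := fun q hq => (hnu 2 (by norm_num) (by norm_num) q hq).trans (rr_le.2 hn2)
      n3 := fun q hq => (hnu 3 (by norm_num) (by norm_num) q hq).trans (rr_le.2 hn3)
      n4 := fun q hq => (hnu 4 (by norm_num) (by norm_num) q hq).trans (rr_le.2 hn4)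
      n5 := fun q hq => (hnu 5 (by norm_num) (by norm_num) q hq).trans (rr_le.2 hn5)
      nr := (divU_ge _ hL0).trans (rr_le.2 hnr), be := ?_, rh := hrh'.trans_lt hrh1, fac := ?_
      m2r := fun q hq =>
        (le_divU hL0 (hmk 2 (by norm_num) (by norm_num) q hq) (hmu q hq).1).trans (rr_le.2 hm2)
      m5r := fun q hq =>
        (le_divU hL0 (hmk 5 (by norm_num) (by norm_num) q hq) (hmu q hq).1).trans (rr_le.2 hm5)
      a5 := fun q hq y => ?_, c3r := fun q hq y hy => ?_, hkap := fun q hq => ?_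
      d1g := fun q hq y hy => ?_, lam := hlam, g1 := fun q hq y => ?_
      sm := hsm.trans (by norm_num) }
  · have a := hup q hq
    have b := hlo q hq
    have c := (rr_sub_ge _ _).trans (rr_le.2 ht1)
    have d := (rr_sub_ge _ _).trans (rr_le.2 ht2)
    have e := LN2L_le
    have f := LN2H_ge
    exact abs_le.2 ⟨by linarith, by linarith⟩
  · refine htL.imp id fun h q hq => ?_
    have a := hup q hq
    have c := rr_le.2 h
    have e := LN2L_le
    rw [rr_add] at c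
    linarith
  · have a := (divU_ge _ hL0).trans (rr_le.2 hbe)
    rwa [rr_nmul, Nat.cast_ofNat] at a
  · have a := (divU_ge SS (Nat.sub_pos_of_lt hrh)).trans (rr_le.2 hfac)
    rw [rr_sub hrh.le, rr_SS, div_le_iff₀ (sub_pos.2 hrh1)] at a
    exact a.trans (mul_le_mul_of_nonneg_left (sub_le_sub_left hrh' 1) (rr_nonneg _))
  · have a := abs_gg hC (hq0 q hq) 5 y
    rw [aa_five] at a
    have b := le_divU hL0 (hmk 11 (by norm_num) le_rfl q hq) (hmu q hq).1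
    have c := (rr_div_lt (k := 332640) _ (by norm_num)).le.trans (rr_le.2 ha5)
    exact a.trans ((div_le_div_of_nonneg_right b (Nat.cast_nonneg _)).trans c)
  · have a := dec_cubic hC hqa hq.1 hq.2 hqb hy
    have b := (le_divU hL3 (c3U_ge (by omega) hab hb) (powD_le_of (hmu q hq).1 3)).trans
      (rr_le.2 hc3)
    rw [← div_div] at a
    exact a.trans (div_le_div_of_nonneg_right b (by positivity))
  · have a := kap_num (a := B.m0) (b := B.m9) (by omega) (by omega) hq.1 hq.2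
    exact ⟨(rr_le.2 hkl).trans (divD_le_of a.1 (hmu0 q hq) (hmu q hq).2),
      (le_divU hL0 a.2 (hmu q hq).1).trans (rr_le.2 hkh)⟩
  · have a := abs_gq1_le hC (hq0 q hq) hy hL0' (hmu q hq).1 (hm1' q hq) (hn1' q hq)
    have b := rr_le.2 hd1
    have c := divU_ge (b := 2 * B.mL) B.n1 (by omega)
    have d := divU_ge B.m1 hL0
    rw [rr_nmul, Nat.cast_ofNat] at c
    rw [rr_add, rr_add, half_eq] at b
    linarith
  · have a := abs_gg hC (hq0 q hq) 1 y
    rw [aa_one] at a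
    have b := (hmk 3 (by norm_num) (by norm_num) q hq).trans (rr_le.2 hg1)
    rw [rr_nmul, Nat.cast_ofNat (n := 6)] at b
    have c := (hmu q hq).1
    have d := hmu0 q hq
    refine a.trans ((div_le_one (by linarith)).2 (b.trans (by linarith)))

theorem ScalOK.C_pos (hs : ScalOK B) : 0 < B.C := Cc_pos hs.R0

theorem ScalOK.q_pos (hs : ScalOK B) (hq : q ∈ B.I) : 0 < q ∧ q < 1 / 2 := by
  have har : (128 : ℝ) ≤ B.m0 := by exact_mod_cast hs.a0
  have hbr : (B.m9 : ℝ) < 2048 := by exact_mod_cast hs.b0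
  have h1 : (B.m0 : ℝ) / 4096 ≤ q := hq.1
  have h2 : q ≤ (B.m9 : ℝ) / 4096 := hq.2
  constructor <;> linarith

theorem ScalOK.dm_eq (hs : ScalOK B) : 0 < B.dm ∧ B.qb - B.qa = (B.dm : ℝ) / 4096 :=
  ⟨Nat.mul_pos hs.st (by have := hs.nv; omega), dq_eq B⟩

theorem ZScalX.qv_le (B : Blk) {v : ℕ} (hv : v < B.nv) : B.m0 ≤ B.qv v ∧ B.qv v ≤ B.m9 :=
  ⟨Nat.le_add_right _ _, Nat.add_le_add_left (Nat.mul_le_mul_left _ (by omega)) _⟩

set_option linter.unusedVariables false in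
theorem ScalOK.q_mem (hs : ScalOK B) {v : ℕ} (hv : v < B.nv) : B.q v ∈ B.I :=
  ⟨div_le_div_of_nonneg_right (Nat.cast_le.2 (qv_le B hv).1) (by norm_num),
    div_le_div_of_nonneg_right (Nat.cast_le.2 (qv_le B hv).2) (by norm_num)⟩

set_option linter.unusedVariables false in
theorem ScalOK.q_ends (hs : ScalOK B) : B.q 0 = B.qa ∧ B.q (B.nv - 1) = B.qb := ⟨rfl, rfl⟩

set_option linter.unusedVariables false in
theorem ScalOK.q_sub (hs : ScalOK B) {a b : ℕ} (h : a ≤ b) :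
    B.q b - B.q a = ((B.st * (b - a) : ℕ) : ℝ) / 4096 := by
  unfold Blk.q Blk.qv
  push_cast [Nat.cast_sub h]
  ring

theorem ScalOK.sm_g (hs : ScalOK B) (hq : q ∈ B.I) : Sm (B.g 0 q) (B.g 1 q) (B.g 2 q) :=
  gg_sm hs.C_pos (hs.q_pos hq).1

theorem ScalOK.dec (hs : ScalOK B) (hq : q ∈ B.I) {v : ℝ} (hv : 0 < v) :
    |B.g 0 q v| ≤ 1 / (rr B.mL * √v) := by
  have h0 := rr_pos hs.mL0
  have h1 := Real.sqrt_pos.2 hv
  exact (dec_zero hs.C_pos (hs.q_pos hq).1 hv).trans (one_div_le_one_div_of_le (mul_pos h0 h1)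
    (mul_le_mul_of_nonneg_right (hs.hmu q hq).1 h1.le))

namespace ZScalX

theorem sqrt_ge {Y c v : ℝ} (hc : 1 ≤ c) (h : Y * c ^ 2 ≤ v) (hY : 0 ≤ Y) : √Y * c ≤ √v := by
  have h1 := Real.sqrt_le_sqrt h
  rwa [Real.sqrt_mul hY, Real.sqrt_sq (zero_le_one.trans hc)] at h1

theorem pos_of {a y : ℕ} (h : 0 < mulD a (sqrtL y)) : 0 < rr y := by
  have h1 := (rr_pos h).trans_le (mulD_le_of le_rfl (sqrtL_le y))
  exact Real.sqrt_pos.1 (pos_of_mul_pos_right h1 (rr_nonneg a))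

theorem scale {x d e k u : ℝ} (hx : 0 ≤ x) (hd : 0 < d) (hk : 0 < k) (h : d * k ≤ e)
    (hu : x / d ≤ u) : x / e ≤ u / k := by
  have h1 : x / e ≤ x / (d * k) := div_le_div_of_nonneg_left hx (mul_pos hd hk) h
  rw [← div_div] at h1
  exact h1.trans (div_le_div_of_nonneg_right hu hk.le)

theorem cube_ge {Y c v : ℝ} (hc : 1 ≤ c) (h : Y * c ^ 2 ≤ v) (hY : 0 ≤ Y) :
    Y * √Y * c ^ 3 ≤ v * √v := by
  have h0 : 0 ≤ c := zero_le_one.trans hc
  have h1 := mul_le_mul h (sqrt_ge hc h hY) (by positivity) (le_trans (by positivity) h)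
  calc Y * √Y * c ^ 3 = Y * c ^ 2 * (√Y * c) := by ring
    _ ≤ _ := h1

theorem far_c (hs : ScalOK B) (y : ℕ) (h : farc B y < BIG) (hq : q ∈ B.I) {c v : ℝ} (hc : 1 ≤ c)
    (hv : rr y * c ^ 2 ≤ v) : |B.g 0 q v| ≤ rr (farc B y) / c ^ 3 := by
  have hd := divU_pos h
  have hY := pos_of hd
  have hc0 : 0 < c := zero_lt_one.trans_le hc
  have hv0 : 0 < v := lt_of_lt_of_le (by positivity) hv
  have hs0 := Real.sqrt_pos.2 hY
  exact (hs.c3r q hq v hv0).trans (scale (rr_nonneg _) (mul_pos hY hs0) (pow_pos hc0 3)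
    (cube_ge hc hv hY.le) (le_divU hd le_rfl (mulD_le_of le_rfl (sqrtL_le y))))

end ZScalX

theorem ScalOK.far (hs : ScalOK B) : FarOK B := by
  refine ⟨fun y h q hq c v hc hv => ?_, fun y h q hq c v hc hv => far_c hs y h hq hc hv,
    fun y h q hq c v hc hv => ?_, fun y h q hq c v hc hv => ?_⟩
  · have hc0 : 0 < c := zero_lt_one.trans_le hc
    unfold far0 at h ⊢
    rcases le_total (divU SS (mulD B.mL (sqrtL y))) (farc B y) with h1 | h1
    · rw [min_eq_left h1] at h ⊢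
      have hd := divU_pos h
      have hY := pos_of hd
      have hv0 : 0 < v := lt_of_lt_of_le (by positivity) hv
      have hs0 := Real.sqrt_pos.2 hY
      have hL := rr_pos hs.mL0
      refine (hs.dec hq hv0).trans (scale zero_le_one (mul_pos hL hs0) hc0 ?_
        (le_divU hd rr_SS.ge (mulD_le_of le_rfl (sqrtL_le y))))
      rw [mul_assoc]
      exact mul_le_mul_of_nonneg_left (sqrt_ge hc hv hY.le) hL.le
    · rw [min_eq_right h1] at h ⊢
      refine (far_c hs y h hq hc hv).trans (div_le_div_of_nonneg_left (rr_nonneg _) hc0 ?_)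
      exact le_self_pow₀ hc (by norm_num)
  · have hc0 : 0 < c := zero_lt_one.trans_le hc
    have hd := divU_pos h
    have hY : 0 < rr y := rr_pos (by omega)
    have hv0 : 0 < v := lt_of_lt_of_le (by positivity) hv
    have a := divU_ge (3 * SS) hd
    rw [rr_nmul, rr_nmul, rr_SS, Nat.cast_ofNat, Nat.cast_ofNat, mul_one] at a
    exact (dec_one hs.C_pos (hs.q_pos hq).1 hv0).trans (scale (by norm_num) (by positivity)
      (pow_pos hc0 2) (by linarith) a)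
  · have hc0 : 0 < c := zero_lt_one.trans_le hc
    have hd := divU_pos h
    have hY := pos_of (a := y) (y := y) (by omega)
    have hv0 : 0 < v := lt_of_lt_of_le (by positivity) hv
    have hs0 := Real.sqrt_pos.2 hY
    have a := dec_two hs.C_pos (hs.q_pos hq).1 hv0
    have e : mu B.C (2 * q) / (3 * mu B.C q * (v * √v)) =
        mu B.C (2 * q) / mu B.C q / (3 * (v * √v)) := by
      rw [div_div]
      congr 1
      ring
    rw [e] at a
    have b : rr (3 * mulD y (sqrtL y)) ≤ 3 * (rr y * √(rr y)) := by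
      rw [rr_nmul, Nat.cast_ofNat]
      exact mul_le_mul_of_nonneg_left (mulD_le_of le_rfl (sqrtL_le y)) (by norm_num)
    have d := cube_ge hc hv hY.le
    refine a.trans ((div_le_div_of_nonneg_right (hs.m2r q hq) (by positivity)).trans
      (scale (rr_nonneg _) (by positivity) (pow_pos hc0 3) ?_ (le_divU hd le_rfl b)))
    linarith

theorem kapL_le (hG : GamOK G) (hs : ScalOK B) {v : ℕ} (hv : v < B.nv) :
    rr (kapL G B v) ≤ kap B.C (B.q v) := by
  have h1 := (qv_le B hv).2.trans_lt hs.b0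
  have a := kap_num (q := B.q v) (a := B.qv v) (b := B.qv v) (by omega) (by omega) le_rfl le_rfl
  exact divD_le_of a.1 (mu_pos hs.C_pos (neg_one_lt_zero.trans (hs.q_pos (hs.q_mem hv)).1))
    (mH40_ge hG hs.R0 (by omega))

/-- The upper bound holds whenever it is smaller than `BIG`. -/
theorem kapH_ge (hG : GamOK G) (hs : ScalOK B) {v : ℕ} (hv : v < B.nv) (h : kapH G B v < BIG) :
    kap B.C (B.q v) ≤ rr (kapH G B v) := by
  have h1 := (qv_le B hv).2.trans_lt hs.b0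
  have a := kap_num (q := B.q v) (a := B.qv v) (b := B.qv v) (by omega) (by omega) le_rfl le_rfl
  exact le_divU (divU_pos h) a.2 (mL40_le hG hs.R0 (by omega))

end Pool.Agent.MP_39fec4_gt.K
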