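import Pool.Agent.MP_39fec4_gt.ZEncl
import Pool.Agent.MP_39fec4_gt.ZScal
import Pool.Agent.MP_39fec4_gt.FQb

set_option autoImplicit false

/-! Soundness of the record of a cell. -/

namespace Pool.Agent.MP_39fec4_gt.K

open Set Full

variable {B : Blk}

theorem m0a_ge (hs : ScalOK B) {q y : ℝ} (hq : q ∈ B.I) {y1 : ℕ} (h0 : 0 ≤ y) (h1 : y ≤ rr y1) :
    |GG2 B.C 0 q y| ≤ rr (m0a B y1) := by
  have hC := hs.C_pos
  have hq0 := (hs.q_pos hq).1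
  rw [m0a, forceN_eq]
  have hsq := sqrtU_sq (SS + y1)
  generalize sqrtU (SS + y1) = c at hsq ⊢
  rw [rr_add, rr_SS] at hsq
  have hc : 0 < c := by
    rcases Nat.eq_zero_or_pos c with h | h
    · rw [h, rr_zero] at hsq
      have := rr_nonneg y1
      norm_num at hsq
      linarith
    · exact h
  have hc' := rr_pos hc
  refine (GG2_zero_a hC hq0 h0 hc').trans (le_divU (by omega) ?_ ?_)
  · rw [rr_add]
    refine add_le_add (le_mulU ?_ (hs.n1 q hq) (nu_nonneg hC _))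
      (le_mulU h1 (hs.n3 q hq) (nu_nonneg hC _))
    rw [rr_add, rr_SS, sq]
    linarith [mulU_ge c c]
  · rw [rr_nmul]
    norm_num

/-- The a priori bound for the derivatives in `q`. -/
theorem dq_spec (hs : ScalOK B) {j : ℕ} {y c0 : ℝ} (hy : 0 ≤ y) {M s A : ℕ}
    (hM : ∀ q ∈ B.I, |GG2 B.C j q y - c0 * nu B.C q| ≤ rr M)
    (ha : |B.g j B.qa y - c0| ≤ rr A) (hb : |B.g j B.qb y - c0| ≤ rr A)
    (hd : |B.g j B.qb y - B.g j B.qa y| ≤ rr s * (B.qb - B.qa)) : ∀ q ∈ B.I,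
    |gq2 B.C j q y| ≤ rr (dq B M s A) ∧
      |gq1 B.C j q y| ≤ rr s + rr (dq B M s A) * (B.qb - B.qa) / 2 := by
  have hC := hs.C_pos
  have hL := rr_pos hs.mL0
  obtain ⟨hdm, hdq⟩ := hs.dm_eq
  have hab : B.qa < B.qb := by
    have : (0 : ℝ) < (B.dm : ℝ) / 4096 := div_pos (Nat.cast_pos.2 hdm) (by norm_num)
    linarith
  refine qsolve (f := fun q => Full.gg B.C j q y) (f1 := fun q => gq1 B.C j q y)
    (f2 := fun q => gq2 B.C j q y) (c0 := c0) (A := rr A) (M := rr M / rr B.mL) (be := rr B.be)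
    (ga := rr B.nr) hab (fun q hq => hasDerivAt_gg_q hC (hs.q_pos hq).1 hy j)
    (fun q hq => hasDerivAt_gq1_q hC (hs.q_pos hq).1 hy j) (fun q hq => ?_) (rr_nonneg _)
    (rr_nonneg _) ha hb hd ?_ hs.rh
  · refine (abs_gq2_le hC (hs.q_pos hq).1 j y c0 hL (hs.hmu q hq).1 (hs.m1 q hq) (hs.n1 q hq)
      (hM q hq)).trans ?_
    have h1 := mul_le_mul_of_nonneg_right hs.be (abs_nonneg (gq1 B.C j q y))
    have h2 := mul_le_mul_of_nonneg_right hs.nr (abs_nonneg (Full.gg B.C j q y - c0))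
    linarith
  · have h1 := divU_ge M hs.mL0
    have h2 := mulU_ge B.be s
    have h3 := mulU_ge B.nr A
    have h4 := mulU_ge B.fac (divU M B.mL + mulU B.be s + mulU B.nr A)
    have h5 := rr_nonneg (divU M B.mL + mulU B.be s + mulU B.nr A)
    have h6 := mul_le_mul_of_nonneg_right hs.fac h5
    have h7 := mul_le_mul_of_nonneg_right h4 (sub_pos.2 hs.rh).le
    rw [rr_add, rr_add] at h5 h6 h7
    unfold dq
    rw [rr_add, rr_add] at h4
    linarith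

theorem ncf_spec {lo hi l1h l2h : ℤ} {g g1 g2 lam : ℝ} (h0 : ri lo ≤ g) (h1 : g ≤ ri hi)
    (h2 : g1 + lam * g ≤ ri l1h) (h3 : g2 + 2 * lam * g1 + lam ^ 2 * g ≤ ri l2h)
    (h : ncf lo hi l1h l2h < INV) (hg : 0 < g) :
    g * g2 - g1 ^ 2 ≤ ro (ncf lo hi l1h l2h) * g ^ 2 := by
  have hid : g * g2 - g1 ^ 2 =
      g * (g2 + 2 * lam * g1 + lam ^ 2 * g) - (g1 + lam * g) ^ 2 := by ring
  rw [hid]
  generalize g1 + lam * g = L1 at h2
  generalize g2 + 2 * lam * g1 + lam ^ 2 * g = L2 at h3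
  have hH : g ≤ rr (posI hi) := by
    rw [rr_posI]
    exact h1.trans (le_max_left _ _)
  have dv : ∀ n : ℕ, rr (divD n (posI hi)) * g ≤ rr n := fun n => by
    have a1 := divD_le n (posI hi)
    have a2 : rr n / rr (posI hi) ≤ rr n / g := div_le_div_of_nonneg_left (rr_nonneg n) hg hH
    exact (le_div_iff₀ hg).1 (a1.trans a2)
  have hx := dv (negI l1h)
  have hN : rr (negI l1h) ≤ |L1| := by
    rw [rr_negI]
    exact max_le (by linarith [neg_abs_le L1]) (abs_nonneg _)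
  have ht : rr (mulD (divD (negI l1h) (posI hi)) (divD (negI l1h) (posI hi))) * g ^ 2 ≤ L1 ^ 2 := by
    have a1 := mul_le_mul_of_nonneg_right
      (mulD_le (divD (negI l1h) (posI hi)) (divD (negI l1h) (posI hi))) (sq_nonneg g)
    have a2 := pow_le_pow_left₀ (mul_nonneg (rr_nonneg _) hg.le) (hx.trans hN) 2
    rw [sq_abs] at a2
    nlinarith
  have g2' := sq_nonneg g
  simp only [ncf, forceN_eq, Bool.cond_eq_ite, Nat.beq_eq] at h ⊢
  generalize mulD (divD (negI l1h) (posI hi)) (divD (negI l1h) (posI hi)) = t at h ht ⊢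
  split_ifs at h ⊢ with c1 c2 c3
  · exact absurd h (lt_irrefl _)
  · have a1 := dv (negI l2h)
    have a2 : L2 ≤ -rr (negI l2h) := by
      have a3 := rr_posI l2h
      rw [c2, rr_zero] at a3
      have a4 : ri l2h ≤ 0 := a3 ▸ le_max_left _ _
      rw [rr_negI, max_eq_left (by linarith)]
      linarith
    have a5 := rr_sub_ge OFF (divD (negI l2h) (posI hi) + t)
    rw [rr_add] at a5
    have a6 := mul_le_mul_of_nonneg_right a5 g2'
    have a7 := mul_le_mul_of_nonneg_left a2 hg.le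
    have a8 := mul_le_mul_of_nonneg_left a1 hg.le
    rw [ro_eq]
    nlinarith
  · exact absurd h (lt_irrefl _)
  · rw [min_eq_left (le_of_lt (by omega))]
    have a0 : 0 < posI lo := Nat.pos_of_ne_zero c3
    have a1 := divU_ge (posI l2h) a0
    have a2 : L2 ≤ rr (posI l2h) := by
      rw [rr_posI]
      exact h3.trans (le_max_left _ _)
    have a3 : rr (posI lo) ≤ g := by
      rw [rr_posI]
      exact max_le h0 hg.le
    have a4 := (div_le_iff₀ (rr_pos a0)).1 a1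
    have a9 := mul_le_mul_of_nonneg_left a3 (rr_nonneg (divU (posI l2h) (posI lo)))
    have a5 := rr_sub_ge (OFF + divU (posI l2h) (posI lo)) t
    rw [rr_add] at a5
    have a6 := mul_le_mul_of_nonneg_right a5 g2'
    have a7 := mul_le_mul_of_nonneg_left (a2.trans (a4.trans a9)) hg.le
    rw [ro_eq]
    nlinarith

namespace ZCellX

theorem exN {n r : ℕ} {f : ℕ → ℕ} (h : forceN n f = r) : ∃ m, m = n ∧ f m = r :=
  ⟨n, rfl, forceN_eq n f ▸ h⟩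

theorem exI {z : ℤ} {r : ℕ} {f : ℤ → ℕ} (h : forceI z f = r) : ∃ m, m = z ∧ f m = r :=
  ⟨z, rfl, forceI_eq z f ▸ h⟩

theorem exE {c0 c1 c2 c3 c4 d0 d1 : ℤ} {hh lam r : ℕ}
    {k : ℤ → ℤ → ℕ → ℤ → ℤ → ℤ → ℤ → ℤ → ℤ → ℕ} (hr : encl c0 c1 c2 c3 c4 d0 d1 hh lam k = r) :
    ∃ lo hi k1 l2 h2 aL aH bL bH, (lam ≤ SS → (ri d1 - ri d0) ^ 2 / 8 ≤ rr hh → ∀ d, ri d0 ≤ d →
      d ≤ ri d1 → EnclOK c0 c1 c2 c3 c4 (rr lam) d lo hi k1 l2 h2 aL aH bL bH) ∧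
      k lo hi k1 l2 h2 aL aH bL bH = r := by
  by_cases h : lam ≤ SS ∧ (ri d1 - ri d0) ^ 2 / 8 ≤ rr hh
  · obtain ⟨lo, hi, k1, l2, h2, aL, aH, bL, bH, e, he⟩ :=
      encl_spec c0 c1 c2 c3 c4 d0 d1 hh lam h.1 h.2 k
    exact ⟨lo, hi, k1, l2, h2, aL, aH, bL, bH, fun _ _ => he, e ▸ hr⟩
  · simp only [encl, forceI_eq, forceN_eq] at hr
    exact ⟨_, _, _, _, _, _, _, _, _, fun h1 h2 => absurd ⟨h1, h2⟩ h, hr⟩

theorem abs_le_mx {x : ℝ} {lo hi : ℤ} (h0 : ri lo ≤ x) (h1 : x ≤ ri hi) :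
    |x| ≤ rr (max (negI lo) (posI hi)) := by
  rw [rr_max, rr_negI, rr_posI]
  have a1 := le_max_left (-ri lo) 0
  have a2 := le_max_left (ri hi) 0
  have a3 := le_max_left (max (-ri lo) 0) (max (ri hi) 0)
  have a4 := le_max_right (max (-ri lo) 0) (max (ri hi) 0)
  exact abs_le.2 ⟨by linarith, by linarith⟩

theorem le_pos {x : ℝ} {hi : ℤ} (h1 : x ≤ ri hi) : x ≤ rr (posI hi) := by
  rw [rr_posI]
  exact h1.trans (le_max_left _ _)

/-- The slope between the two ends. -/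
theorem slope (hs : ScalOK B) {ga gb pa pb : ℝ} {m r : ℕ} (ha : |ga - pa| ≤ rr r)
    (hb : |gb - pb| ≤ rr r) (hm : |pb - pa| ≤ rr m) :
    |gb - ga| ≤ rr ((m + 2 * r) * 4096 / B.dm + 1) * (B.qb - B.qa) := by
  obtain ⟨hdm, hdq⟩ := hs.dm_eq
  have hd : (0 : ℝ) < B.dm := Nat.cast_pos.2 hdm
  have h1 := (rr_div_lt ((m + 2 * r) * 4096) hdm).le
  rw [rr_muln, rr_add, rr_nmul, div_le_iff₀ hd] at h1
  push_cast at h1
  rw [hdq]
  rw [abs_le] at ha hb hm ⊢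
  constructor <;> linarith [ha.1, ha.2, hb.1, hb.2, hm.1, hm.2]

/-- Distance to the chord in `q`. -/
theorem chord_q (hs : ScalOK B) {j : ℕ} {y th pa pb : ℝ} (hy : 0 ≤ y) {D r : ℕ}
    (hD : ∀ q ∈ B.I, |gq2 B.C j q y| ≤ rr D) (h0 : 0 ≤ th) (h1 : th ≤ 1)
    (ha : |B.g j B.qa y - pa| ≤ rr r) (hb : |B.g j B.qb y - pb| ≤ rr r) :
    |B.g j ((1 - th) * B.qa + th * B.qb) y - ((1 - th) * pa + th * pb)| ≤
      rr (r + mulU D ((B.dm * B.dm) <<< 13)) := by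
  have hC := hs.C_pos
  obtain ⟨hdm, hdq⟩ := hs.dm_eq
  have hab : B.qa ≤ B.qb := by
    have : (0 : ℝ) ≤ (B.dm : ℝ) / 4096 := by positivity
    linarith
  have d1 := fun q (hq : q ∈ B.I) => hasDerivAt_gg_q hC (hs.q_pos hq).1 hy j
  have d2 := fun q (hq : q ∈ B.I) => hasDerivAt_gq1_q hC (hs.q_pos hq).1 hy j
  have hc : ContinuousOn (fun q => Full.gg B.C j q y) (Icc B.qa B.qb) :=
    fun q hq => (d1 q hq).continuousAt.continuousWithinAt
  have c1 := FCalcX.ch_of_conv (FCalcX.conv (f1 := fun q => gq1 B.C j q y)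
    (f2 := fun q => gq2 B.C j q y) (A2 := rr D) hc fun s hm =>
      ⟨d1 s (Ioo_subset_Icc_self hm), d2 s (Ioo_subset_Icc_self hm),
        (abs_le.1 (hD s (Ioo_subset_Icc_self hm))).1⟩) hab (rr_nonneg D) th h0 h1
  have c2 := FCalcX.ch_of_conv (FCalcX.conv (f := fun q => -Full.gg B.C j q y)
    (f1 := fun q => -gq1 B.C j q y) (f2 := fun q => -gq2 B.C j q y) (A2 := rr D) hc.neg fun s hm =>
      ⟨(d1 s (Ioo_subset_Icc_self hm)).neg, (d2 s (Ioo_subset_Icc_self hm)).neg,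
        neg_le_neg (abs_le.1 (hD s (Ioo_subset_Icc_self hm))).2⟩) hab (rr_nonneg D) th h0 h1
  have e : rr ((B.dm * B.dm) <<< 13) = (B.qb - B.qa) ^ 2 / 8 := by
    rw [rr_shl, hdq, rr]
    push_cast
    ring
  have m := mulU_ge D ((B.dm * B.dm) <<< 13)
  rw [e] at m
  rw [rr_add]
  simp only [Blk.g] at ha hb c1 c2 ⊢
  rw [abs_le] at ha hb ⊢
  have a1 := mul_le_mul_of_nonneg_left ha.1 (sub_nonneg.2 h1)
  have a2 := mul_le_mul_of_nonneg_left ha.2 (sub_nonneg.2 h1)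
  have b1 := mul_le_mul_of_nonneg_left hb.1 h0
  have b2 := mul_le_mul_of_nonneg_left hb.2 h0
  constructor <;> linarith

theorem half (hs : ScalOK B) {x : ℝ} {s D : ℕ} (h : |x| ≤ rr s + rr D * (B.qb - B.qa) / 2) :
    |x| ≤ rr (s + mulU D (B.dm <<< 27)) := by
  have e : rr (B.dm <<< 27) = (B.qb - B.qa) / 2 := by
    rw [rr_shl, hs.dm_eq.2, rr]
    ring
  have m := mulU_ge D (B.dm <<< 27)
  rw [e] at m
  rw [rr_add]
  linarith

theorem mix {th a b : ℝ} (h0 : 0 ≤ th) (h1 : th ≤ 1) {al ah bl bh : ℤ}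
    (ha : ri al ≤ a ∧ a ≤ ri ah) (hb : ri bl ≤ b ∧ b ≤ ri bh) :
    ri (min al bl) ≤ (1 - th) * a + th * b ∧ (1 - th) * a + th * b ≤ ri (max ah bh) := by
  rw [ri_min, ri_max]
  have a1 := mul_le_mul_of_nonneg_left ((min_le_left _ (ri bl)).trans ha.1) (sub_nonneg.2 h1)
  have a2 := mul_le_mul_of_nonneg_left (ha.2.trans (le_max_left _ (ri bh))) (sub_nonneg.2 h1)
  have b1 := mul_le_mul_of_nonneg_left ((min_le_right (ri al) _).trans hb.1) h0
  have b2 := mul_le_mul_of_nonneg_left (hb.2.trans (le_max_right (ri ah) _)) h0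
  constructor <;> linarith

theorem near {g p : ℝ} {lo hi : ℤ} {e : ℕ} (h : |g - p| ≤ rr e) (hp : ri lo ≤ p ∧ p ≤ ri hi) :
    ri (lo - e) ≤ g ∧ g ≤ ri (hi + e) := by
  rw [ri_sub, ri_add, ri_nat]
  rw [abs_le] at h
  constructor <;> linarith [h.1, h.2, hp.1, hp.2]

theorem big {x : ℝ} {n m : ℕ} (hn : n ≤ 2 ^ 60) (hx : x ≤ 2 * rr n) (hm : BIG ≤ m) : x ≤ rr m := by
  have h1 : 2 * n ≤ m := by
    have h2 : 2 * 2 ^ 60 ≤ BIG := by norm_num [BIG]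
    omega
  have h2 := rr_le.2 h1
  rw [rr_nmul] at h2
  exact hx.trans (by exact_mod_cast h2)

theorem M0 (hs : ScalOK B) {q y : ℝ} (hq : q ∈ B.I) {y1 : ℕ} (h0 : 0 ≤ y) (h1 : y ≤ rr y1) :
    |GG2 B.C 0 q y - 1 * nu B.C q| ≤ rr (3 * mulU y1 B.n3 / 2 + 1) := by
  have hC := hs.C_pos
  refine (GG2_zero_b hC (hs.q_pos hq).1 h0).trans (le_trans ?_ (rr_div_lt _ two_pos).le)
  have := le_mulU h1 (hs.n3 q hq) (nu_nonneg hC _)
  rw [rr_nmul]
  push_cast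
  linarith

theorem M1 (hs : ScalOK B) {q y : ℝ} (hq : q ∈ B.I) {y0 : ℕ} (h0 : rr y0 ≤ y) :
    |GG2 B.C 1 q y - 0 * nu B.C q| ≤
      rr (min (3 * B.n3 / 2 + 1) (B.n3 / 2 + 1 + divU B.n2 (sqrtL y0))) := by
  have hC := hs.C_pos
  have hq0 := (hs.q_pos hq).1
  have ha := GG2_one_a hC hq0 ((rr_nonneg y0).trans h0)
  have n3 := hs.n3 q hq
  rw [zero_mul, sub_zero, rr_min]
  refine le_min (ha.trans (le_trans ?_ (rr_div_lt _ two_pos).le)) ?_
  · rw [rr_nmul]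
    push_cast
    linarith
  · rcases Nat.eq_zero_or_pos (sqrtL y0) with h | h
    · rw [h, divU_zero]
      have := hs.sm
      exact big (n := B.n3) (by omega) (by linarith [rr_nonneg B.n3]) (by omega)
    · refine (GG2_one_b hC hq0 (rr_pos h) ((sqrtL_sq y0).trans h0)).trans ?_
      have a1 := (rr_div_lt B.n3 two_pos).le
      have a2 := le_divU h (hs.n2 q hq) le_rfl
      rw [rr_add _ (divU _ _)]
      push_cast at a1
      linarith

theorem M2 (hs : ScalOK B) {q y : ℝ} (hq : q ∈ B.I) {y0 : ℕ} (h0 : rr y0 ≤ y) :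
    |GG2 B.C 2 q y - 0 * nu B.C q| ≤ rr (min (5 * B.n5 / 12 + 1)
      (divU B.n4 (4 * sqrtL y0) + divU (3 * B.n3) (5 * mulD (sqrtL y0) (sqrtL y0)))) := by
  have hC := hs.C_pos
  have hq0 := (hs.q_pos hq).1
  have ha := GG2_two_a hC hq0 ((rr_nonneg y0).trans h0)
  have n5 := hs.n5 q hq
  have hsm := hs.sm
  rw [zero_mul, sub_zero, rr_min]
  refine le_min (ha.trans (le_trans ?_ (rr_div_lt _ (by norm_num)).le)) ?_
  · rw [rr_nmul]
    push_cast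
    linarith
  · rcases Nat.eq_zero_or_pos (4 * sqrtL y0) with h | h
    · rw [h, divU_zero]
      exact big (n := B.n5) (by omega) (by linarith [rr_nonneg B.n5]) (by omega)
    rcases Nat.eq_zero_or_pos (5 * mulD (sqrtL y0) (sqrtL y0)) with h' | h'
    · rw [h', divU_zero]
      exact big (n := B.n5) (by omega) (by linarith [rr_nonneg B.n5]) (by omega)
    refine (GG2_two_b hC hq0 (rr_pos (a := sqrtL y0) (by omega))
      ((sqrtL_sq y0).trans h0)).trans ?_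
    rw [rr_add]
    refine add_le_add (le_divU h (hs.n4 q hq) ?_) (le_divU h' ?_ ?_)
    · rw [rr_nmul]
      norm_num
    · rw [rr_nmul]
      push_cast
      linarith [hs.n3 q hq]
    · rw [rr_nmul, sq]
      push_cast
      linarith [mulD_le (sqrtL y0) (sqrtL y0)]

theorem pl0_sub (a0 a1 a2 a3 a4 b0 b1 b2 b3 b4 : ℤ) (d : ℝ) :
    pl0 (b0 - a0) (b1 - a1) (b2 - a2) (b3 - a3) (b4 - a4) d =
      pl0 b0 b1 b2 b3 b4 d - pl0 a0 a1 a2 a3 a4 d := by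
  simp only [pl0, ri_sub]
  ring

theorem pl1_sub (a1 a2 a3 a4 b1 b2 b3 b4 : ℤ) (d : ℝ) :
    pl1 (b1 - a1) (b2 - a2) (b3 - a3) (b4 - a4) d = pl1 b1 b2 b3 b4 d - pl1 a1 a2 a3 a4 d := by
  simp only [pl1, ri_sub]
  ring

theorem pl2_sub (a2 a3 a4 b2 b3 b4 : ℤ) (d : ℝ) :
    pl2 (b2 - a2) (b3 - a3) (b4 - a4) d = pl2 b2 b3 b4 d - pl2 a2 a3 a4 d := by
  simp only [pl2, ri_sub]
  ring

theorem end_abs {g p : ℝ} {m r : ℕ} (h : |g - p| ≤ rr r) (hp : |p| ≤ rr m) :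
    |g - 0| ≤ rr (m + r) := by
  rw [rr_add, sub_zero]
  rw [abs_le] at h hp ⊢
  constructor <;> linarith [h.1, h.2, hp.1, hp.2]

theorem end_one {g p : ℝ} {lo : ℤ} {r : ℕ} (h : |g - p| ≤ rr r) (hp : ri lo ≤ p) (hg : |g| ≤ 1) :
    |g - 1| ≤ rr (posI ((SS : ℤ) - lo) + r) := by
  rw [rr_add, rr_posI, ri_sub, ri_nat, rr_SS]
  have a1 := le_max_left (1 - ri lo) 0
  have a2 := le_max_right (1 - ri lo) 0
  have a3 := rr_nonneg r
  rw [abs_le] at h hg ⊢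
  constructor <;> linarith [h.1, h.2, hg.2]

theorem tw1 {g0 g1 p0 p1 : ℝ} {e0 e1 lam : ℕ} (h0 : |g0 - p0| ≤ rr e0) (h1 : |g1 - p1| ≤ rr e1) :
    |g1 + rr lam * g0 - (p1 + rr lam * p0)| ≤ rr (e1 + mulU lam e0) := by
  have a := abs_le_mulU (a := lam) (abs_of_nonneg (rr_nonneg lam)).le h0
  rw [rr_add]
  rw [abs_le] at a h1 ⊢
  constructor <;> linarith [a.1, a.2, h1.1, h1.2]

theorem tw2 {g0 g1 g2 p0 p1 p2 : ℝ} {e0 e1 e2 lam : ℕ} (h0 : |g0 - p0| ≤ rr e0)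
    (h1 : |g1 - p1| ≤ rr e1) (h2 : |g2 - p2| ≤ rr e2) :
    |g2 + 2 * rr lam * g1 + rr lam ^ 2 * g0 - (p2 + 2 * rr lam * p1 + rr lam ^ 2 * p0)| ≤
      rr (e2 + 2 * mulU lam e1 + mulU lam (mulU lam e0)) := by
  have l := (abs_of_nonneg (rr_nonneg lam)).le
  have a := abs_le_mulU (a := lam) l (abs_le_mulU (a := lam) l h0)
  have b := abs_le_mulU (a := lam) l h1
  rw [rr_add, rr_add, rr_nmul]
  push_cast
  rw [abs_le] at a b h2 ⊢
  constructor <;> linarith [a.1, a.2, b.1, b.2, h2.1, h2.2]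

theorem exB {c : Bool} {a r : ℕ} (h : (bif c then a else 0) = r) (h0 : 0 < r) :
    c = true ∧ a = r := by
  cases c
  · exact absurd h h0.ne
  · exact ⟨rfl, h⟩

end ZCellX

open ZCellX

theorem mkCell_sound (hs : ScalOK B) {Va Vb : ℕ → ℕ} {Y : ℕ} (hV : EndOK B Va Vb Y) {y0 y1 : ℕ}
    (hy : y0 < Y) (h0 : 0 < mkCell B Va Vb y0 y1) :
    MkOK B (mkCell B Va Vb y0 y1) (rr y0) (rr y1) := by
  generalize hr : mkCell B Va Vb y0 y1 = r at h0 ⊢
  unfold mkCell at hr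
  obtain ⟨iv, hiv, hr⟩ := exN hr
  obtain ⟨ct, hct, hr⟩ := exN hr
  obtain ⟨hw, hhw, hr⟩ := exN hr
  obtain ⟨ra, hra, hr⟩ := exN hr
  obtain ⟨rb, hrb, hr⟩ := exN hr
  obtain ⟨d0, hd0, hr⟩ := exI hr
  obtain ⟨d1, hd1, hr⟩ := exI hr
  obtain ⟨hh, hhh, hr⟩ := exN hr
  obtain ⟨lam, hlam, hr⟩ := exN hr
  obtain ⟨b, hb, hr⟩ := exN hr
  obtain ⟨r0, hr0, hr⟩ := exN hr
  obtain ⟨r1, hr1, hr⟩ := exN hr
  obtain ⟨r2, hr2, hr⟩ := exN hr
  obtain ⟨alo, ahi, ak1, a2l, a2h, a1L, a1H, aLL, aLH, EA, hr⟩ := exE hr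
  obtain ⟨blo, bhi, bk1, b2l, b2h, b1L, b1H, bLL, bLH, EB, hr⟩ := exE hr
  obtain ⟨clo, chi, ck1, c2l, c2h, c1L, c1H, cLL, cLH, EC, hr⟩ := exE hr
  obtain ⟨lo, hlo, hr⟩ := exI hr
  obtain ⟨hi, hhi, hr⟩ := exI hr
  obtain ⟨k1, hk1, hr⟩ := exN hr
  obtain ⟨l2, hl2, hr⟩ := exI hr
  obtain ⟨h2, hh2, hr⟩ := exI hr
  obtain ⟨s0, hs0, hr⟩ := exN hr
  obtain ⟨s1, hs1, hr⟩ := exN hr
  obtain ⟨s2, hs2, hr⟩ := exN hr
  obtain ⟨ul, hul, hr⟩ := exN hr
  obtain ⟨D0, hD0, hr⟩ := exN hr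
  obtain ⟨D1, hD1, hr⟩ := exN hr
  obtain ⟨D2, hD2, hr⟩ := exN hr
  obtain ⟨dd, hdd, hr⟩ := exN hr
  obtain ⟨e0, he0, hr⟩ := exN hr
  obtain ⟨e1, he1, hr⟩ := exN hr
  obtain ⟨e2, he2, hr⟩ := exN hr
  obtain ⟨f1, hf1, hr⟩ := exN hr
  obtain ⟨f2, hf2, hr⟩ := exN hr
  obtain ⟨lo', hlo', hr⟩ := exI hr
  obtain ⟨hi', hhi', hr⟩ := exI hr
  obtain ⟨l1l, hl1l, hr⟩ := exI hr
  obtain ⟨l1h, hl1h, hr⟩ := exI hr
  obtain ⟨l2l, hl2l, hr⟩ := exI hr
  obtain ⟨l2h, hl2h, hr⟩ := exI hr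
  obtain ⟨hc, hr⟩ := exB hr h0
  rw [Bool.and_eq_true, Nat.ble_eq, Nat.ble_eq] at hc
  obtain ⟨hc1, hc2⟩ := hc
  obtain ⟨F0, F1, F2, F3, F4, F5, F6, F7, F8, F9, F10, F11, F12, F13, F14, -⟩ :=
    pk15_fld hr.symm h0
  clear hr
  subst hiv hlam hct hhw hb hul hdd
  obtain ⟨w0, w1, -⟩ := vhw_le y0
  obtain ⟨hdm, hdq⟩ := hs.dm_eq
  have hab : B.qa < B.qb := by
    have : (0 : ℝ) < (B.dm : ℝ) / 4096 := div_pos (Nat.cast_pos.2 hdm) (by norm_num)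
    linarith only [this, hdq]
  have ma : B.qa ∈ B.I := left_mem_Icc.2 hab.le
  have mb : B.qb ∈ B.I := right_mem_Icc.2 hab.le
  have i0 : ri d0 = rr y0 - rr (vctr y0) := hd0 ▸ ri_subNatNat _ _
  have i1 : ri d1 = rr y1 - rr (vctr y0) := hd1 ▸ ri_subNatNat _ _
  have hH : (ri d1 - ri d0) ^ 2 / 8 ≤ rr hh := by
    have a1 := (rr_div_lt (mulU (y1 - y0) (y1 - y0)) (k := 8) (by norm_num)).le
    have a2 := mulU_ge (y1 - y0) (y1 - y0)
    rw [rr_sub hc2] at a2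
    rw [hhh, i0, i1]
    push_cast at a1
    linarith only [a1, a2]
  have key : ∀ q ∈ B.I, ∀ y, 0 ≤ y → rr y0 ≤ y → y ≤ rr y1 → PtOK B r q y ∧
      B.L2 q y ≤ rr (fld r 56 11) ∧ |gq1 B.C 1 q y| ≤ rr (fld r 56 12) ∧
      |gq1 B.C 2 q y| ≤ rr (fld r 56 13) ∧ B.L1 q y ≤ rr (fld r 56 14) := by
    intro q hq y y0' y1' y2'
    have u0 : ri d0 ≤ y - rr (vctr y0) := by linarith only [i0, y1']
    have u1 : y - rr (vctr y0) ≤ ri d1 := by linarith only [i1, y2']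
    have hd : |y - rr (vctr y0)| ≤ rr (vhw y0) := by
      have a1 := rr_le.2 w1
      have a2 := rr_le.2 hc1
      rw [rr_sub w0] at a1
      rw [rr_add] at a2
      exact abs_le.2 ⟨by linarith only [a1, y1'], by linarith only [a2, y2']⟩
    have A := EA hs.lam hH _ u0 u1
    have A' := EB hs.lam hH _ u0 u1
    have A'' := EC hs.lam hH _ u0 u1
    obtain ⟨ra0, ra1, ra2⟩ := rem_spec hs ma hV.1 hy hra hd
    obtain ⟨rb0, rb1, rb2⟩ := rem_spec hs mb hV.2 hy hrb hd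
    rw [add_sub_cancel, ← hr0] at ra0 rb0
    rw [add_sub_cancel, ← hr1] at ra1 rb1
    rw [add_sub_cancel, ← hr2] at ra2 rb2
    have c0 := A''.p0
    have c1 := A''.p1
    have c2 := A''.p2
    rw [pl0_sub] at c0
    rw [pl1_sub] at c1
    rw [pl2_sub] at c2
    have S0 := slope hs ra0 rb0 (abs_le_mx c0.1 c0.2)
    have S1 := slope hs ra1 rb1 c1
    have S2 := slope hs ra2 rb2 (abs_le_mx c2.1 c2.2)
    rw [← hs0] at S0
    rw [← hs1] at S1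
    rw [← hs2] at S2
    have la : ri lo ≤ ri alo := ri_le.2 (hlo ▸ min_le_left _ _)
    have lb : ri lo ≤ ri blo := ri_le.2 (hlo ▸ min_le_right _ _)
    have ua : ri ahi ≤ ri hi := ri_le.2 (hhi ▸ le_max_left _ _)
    have ub : ri bhi ≤ ri hi := ri_le.2 (hhi ▸ le_max_right _ _)
    have la2 : ri l2 ≤ ri a2l := ri_le.2 (hl2 ▸ min_le_left _ _)
    have lb2 : ri l2 ≤ ri b2l := ri_le.2 (hl2 ▸ min_le_right _ _)
    have ua2 : ri a2h ≤ ri h2 := ri_le.2 (hh2 ▸ le_max_left _ _)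
    have ub2 : ri b2h ≤ ri h2 := ri_le.2 (hh2 ▸ le_max_right _ _)
    have ka : rr ak1 ≤ rr k1 := rr_le.2 (hk1 ▸ le_max_left _ _)
    have kb : rr bk1 ≤ rr k1 := rr_le.2 (hk1 ▸ le_max_right _ _)
    have Q0a := dq_spec hs (j := 0) (c0 := 0) y0' (M := m0a B y1)
      (fun q hq => by rw [zero_mul, sub_zero]; exact m0a_ge hs hq y0' y2')
      (end_abs ra0 (abs_le_mx (la.trans A.p0.1) (A.p0.2.trans ua)))
      (end_abs rb0 (abs_le_mx (lb.trans A'.p0.1) (A'.p0.2.trans ub))) S0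
    have Q0b := dq_spec hs (j := 0) (c0 := 1) y0' (fun q hq => M0 hs hq y0' y2')
      (end_one ra0 (la.trans A.p0.1) ((hs.sm_g ma).bd y y0'))
      (end_one rb0 (lb.trans A'.p0.1) ((hs.sm_g mb).bd y y0')) S0
    have Q0 : ∀ q ∈ B.I, |gq2 B.C 0 q y| ≤ rr D0 ∧
        |gq1 B.C 0 q y| ≤ rr s0 + rr D0 * (B.qb - B.qa) / 2 := fun q hq => by
      rw [hD0]
      rcases min_choice (dq B (m0a B y1) s0 (max (negI lo) (posI hi) + r0))
        (dq B (3 * mulU y1 B.n3 / 2 + 1) s0 (posI ((SS : ℤ) - lo) + r0)) with h | h <;> rw [h]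
      · exact Q0a q hq
      · exact Q0b q hq
    have Q1 := dq_spec hs (j := 1) (c0 := 0) y0' (fun q hq => M1 hs hq y1')
      (end_abs ra1 (A.p1.trans ka)) (end_abs rb1 (A'.p1.trans kb)) S1
    have Q2 := dq_spec hs (j := 2) (c0 := 0) y0' (fun q hq => M2 hs hq y1')
      (end_abs ra2 (abs_le_mx (la2.trans A.p2.1) (A.p2.2.trans ua2)))
      (end_abs rb2 (abs_le_mx (lb2.trans A'.p2.1) (A'.p2.2.trans ub2))) S2
    rw [← hD1] at Q1
    rw [← hD2] at Q2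
    obtain ⟨th, t0, t1, hth⟩ : ∃ th : ℝ, 0 ≤ th ∧ th ≤ 1 ∧ (1 - th) * B.qa + th * B.qb = q := by
      have hp := sub_pos.2 hab
      refine ⟨(q - B.qa) / (B.qb - B.qa), div_nonneg (sub_nonneg.2 hq.1) hp.le,
        (div_le_one hp).2 (sub_le_sub_right hq.2 _), ?_⟩
      field_simp
      ring
    have G0 := chord_q hs y0' (fun q hq => (Q0 q hq).1) t0 t1 ra0 rb0
    have G1 := chord_q hs y0' (fun q hq => (Q1 q hq).1) t0 t1 ra1 rb1
    have G2 := chord_q hs y0' (fun q hq => (Q2 q hq).1) t0 t1 ra2 rb2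
    rw [hth, ← he0] at G0
    rw [hth, ← he1] at G1
    rw [hth, ← he2] at G2
    have T1 := tw1 (lam := B.lam) G0 G1
    have T2 := tw2 (lam := B.lam) G0 G1 G2
    rw [← hf1] at T1
    rw [← hf2] at T2
    have N0 := near G0 (mix t0 t1 A.p0 A'.p0)
    have N2 := near G2 (mix t0 t1 A.p2 A'.p2)
    have N3 := near (lo := min a1L b1L) (hi := max a1H b1H) T1 (by
      have := mix t0 t1 A.t1 A'.t1
      constructor <;> linarith only [this.1, this.2])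
    have N4 := near (lo := min aLL bLL) (hi := max aLH bLH) T2 (by
      have := mix t0 t1 A.t2 A'.t2
      constructor <;> linarith only [this.1, this.2])
    rw [← hlo, ← hhi] at N0
    rw [← hl2, ← hh2] at N2
    rw [← hl1l, ← hl1h] at N3
    rw [← hl2l, ← hl2h] at N4
    have hg := abs_le.1 ((hs.sm_g hq).bd y y0')
    have L0 : ri lo' ≤ B.g 0 q y := by
      rw [hlo', ri_max, ri_neg, ri_nat, rr_SS]
      exact max_le N0.1 hg.1
    have U0 : B.g 0 q y ≤ ri hi' := by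
      rw [hhi', ri_min, ri_nat, rr_SS]
      exact le_min N0.2 hg.2
    refine ⟨⟨?_, ?_, ?_, ?_, ?_, ?_, ?_, ?_, ?_, ?_⟩, ?_, ?_, ?_, ?_⟩
    · have := ro_ofs (-lo')
      rw [ri_neg] at this
      rw [F0]
      linarith only [this, L0]
    · rw [F1]
      exact U0.trans (ro_ofs _)
    · rw [F2, rr_add]
      have a1 := abs_le.1 (A.p1.trans ka)
      have a2 := abs_le.1 (A'.p1.trans kb)
      have a3 := mul_le_mul_of_nonneg_left a1.1 (sub_nonneg.2 t1)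
      have a4 := mul_le_mul_of_nonneg_left a1.2 (sub_nonneg.2 t1)
      have a5 := mul_le_mul_of_nonneg_left a2.1 t0
      have a6 := mul_le_mul_of_nonneg_left a2.2 t0
      rw [abs_le] at G1 ⊢
      constructor <;> linarith only [G1.1, G1.2, a3, a4, a5, a6]
    · have := ro_ofs (-(l2 - e2))
      rw [ri_neg] at this
      rw [F3]
      linarith only [this, N2.1]
    · rw [F4]
      exact N2.2.trans (ro_ofs _)
    · rw [F5]
      exact abs_le_mx N3.1 N3.2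
    · rw [F6]
      exact abs_le_mx N4.1 N4.2
    · rw [F7]
      exact fun h hg => ncf_spec L0 U0 N3.2 N4.2 h hg
    · rw [F8]
      exact half hs (Q0 q hq).2
    · rw [F9]
      exact fun _ => (Q0 q hq).1
    · rw [F11]
      exact le_pos N4.2
    · rw [F12]
      exact half hs (Q1 q hq).2
    · rw [F13]
      exact half hs (Q2 q hq).2
    · rw [F14]
      exact le_pos N3.2
  refine ⟨⟨fun q hq y a b c => (key q hq y a b c).1, fun y a b c => ?_⟩,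
    fun q hq y a b c => (key q hq y a b c).2⟩
  rw [F10, hr0]
  exact pev_spec hs (w1.trans (rr_le.1 a)) ((rr_lt.1 b).trans_le hc1) c

end Pool.Agent.MP_39fec4_gt.K
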