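import Pool.Agent.MP_39fec4_gt.FDefs
import Pool.Agent.MP_39fec4_gt.FC3
import Pool.Agent.MP_39fec4_gt.KCell

set_option autoImplicit false

/-! The meaning of the numbers handled by the computing layer. -/

namespace Pool.Agent.MP_39fec4_gt.K

open Set Full

/-- The real number behind a fixed point number. -/
noncomputable def rr (a : ℕ) : ℝ := (a : ℝ) / 2 ^ 40

noncomputable def ri (a : ℤ) : ℝ := (a : ℝ) / 2 ^ 40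

/-- A field stored with the offset `OFF`. -/
noncomputable def ro (a : ℕ) : ℝ := ((a : ℝ) - OFF) / 2 ^ 40

/-- The normalising constant. -/
noncomputable def Cc (R : ℕ) : ℝ := 160 / ((R : ℝ) / 2 ^ 32) ^ 4096

/-- The table of the Gamma function is correct. -/
def GamOK (G : ℕ → ℕ) : Prop := ∀ f, f < 4096 → G f = gamE f

/-- The table `V` holds the Taylor coefficients at the centres of the cells meeting `[0, Y)`. -/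
def VOK (C q : ℝ) (V : ℕ → ℕ) (Y : ℕ) : Prop := ∀ y, y < Y → ∀ j, j ≤ 4 →
  |Full.gg C j q (rr (vctr y)) / (j.factorial : ℝ) - ri (vco (V (vidx y)) j)| ≤ 2 / 2 ^ 40

noncomputable def Blk.C (B : Blk) : ℝ := Cc B.R

noncomputable def Blk.qa (B : Blk) : ℝ := (B.m0 : ℝ) / 4096

noncomputable def Blk.qb (B : Blk) : ℝ := (B.m9 : ℝ) / 4096

/-- The exponent at the vertex `v`. -/
noncomputable def Blk.q (B : Blk) (v : ℕ) : ℝ := (B.qv v : ℝ) / 4096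

/-- The exponents of the block. -/
def Blk.I (B : Blk) : Set ℝ := Icc B.qa B.qb

/-- The profile and its derivatives. -/
noncomputable def Blk.g (B : Blk) (j : ℕ) (q : ℝ) : ℝ → ℝ := Full.gg B.C j q

/-- The first twisted derivative. -/
noncomputable def Blk.L1 (B : Blk) (q y : ℝ) : ℝ := B.g 1 q y + rr B.lam * B.g 0 q y

noncomputable def Blk.L2 (B : Blk) (q y : ℝ) : ℝ :=
  B.g 2 q y + 2 * rr B.lam * B.g 1 q y + rr B.lam ^ 2 * B.g 0 q y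

/-- What the scalars of a block mean. -/
structure ScalOK (B : Blk) : Prop where
  a0 : 128 ≤ B.m0
  b0 : B.m9 < 2048
  nv : 2 ≤ B.nv
  st : 0 < B.st
  R0 : 0 < B.R
  mL0 : 0 < B.mL
  mL3 : 0 < powD B.mL 3
  hmu : ∀ q ∈ B.I, rr B.mL ≤ mu B.C q ∧ mu B.C q ≤ rr B.mH
  m1 : ∀ q ∈ B.I, |mu1 B.C q| ≤ rr B.m1
  tau : ∀ q ∈ B.I, |Real.log 2 + mu1 B.C q / mu B.C q| ≤ rr B.tau
  tauL : B.tauL = 0 ∨ ∀ q ∈ B.I, rr B.tauL ≤ Real.log 2 + mu1 B.C q / mu B.C q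
  n1 : ∀ q ∈ B.I, nu B.C q ≤ rr B.n1
  n2 : ∀ q ∈ B.I, nu B.C (2 * q) ≤ rr B.n2
  n3 : ∀ q ∈ B.I, nu B.C (3 * q) ≤ rr B.n3
  n4 : ∀ q ∈ B.I, nu B.C (4 * q) ≤ rr B.n4
  n5 : ∀ q ∈ B.I, nu B.C (5 * q) ≤ rr B.n5
  nr : rr B.n1 / rr B.mL ≤ rr B.nr
  be : 2 * rr B.m1 / rr B.mL ≤ rr B.be
  rh : rr B.be * (B.qb - B.qa) / 2 + rr B.nr * (B.qb - B.qa) ^ 2 / 8 < 1
  fac : 1 ≤ rr B.fac * (1 - (rr B.be * (B.qb - B.qa) / 2 + rr B.nr * (B.qb - B.qa) ^ 2 / 8))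
  m2r : ∀ q ∈ B.I, mu B.C (2 * q) / mu B.C q ≤ rr B.m2r
  m5r : ∀ q ∈ B.I, mu B.C (5 * q) / mu B.C q ≤ rr B.m5r
  a5 : ∀ q ∈ B.I, ∀ y, |B.g 5 q y| ≤ rr B.a5
  c3r : ∀ q ∈ B.I, ∀ y, 0 < y → |B.g 0 q y| ≤ rr B.c3r / (y * √y)
  hkap : ∀ q ∈ B.I, rr B.kl ≤ kap B.C q ∧ kap B.C q ≤ rr B.kh
  d1g : ∀ q ∈ B.I, ∀ y, 0 ≤ y → |gq1 B.C 0 q y| ≤ rr B.d1g
  lam : B.lam ≤ SS
  g1 : ∀ q ∈ B.I, ∀ y, |B.g 1 q y| ≤ 1
  sm : B.n1 + B.n2 + B.n3 + B.n4 + B.n5 + B.a5 ≤ 2 ^ 60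

/-- What the first ten fields of a record say at one point. -/
structure PtOK (B : Blk) (r : ℕ) (q y : ℝ) : Prop where
  lo : -ro (fld r 56 0) ≤ B.g 0 q y
  hi : B.g 0 q y ≤ ro (fld r 56 1)
  k1 : |B.g 1 q y| ≤ rr (fld r 56 2)
  k2l : -ro (fld r 56 3) ≤ B.g 2 q y
  k2h : B.g 2 q y ≤ ro (fld r 56 4)
  l1 : |B.L1 q y| ≤ rr (fld r 56 5)
  l2 : |B.L2 q y| ≤ rr (fld r 56 6)
  nc : fld r 56 7 < INV → 0 < B.g 0 q y →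
    B.g 0 q y * B.g 2 q y - B.g 1 q y ^ 2 ≤ ro (fld r 56 7) * B.g 0 q y ^ 2
  d1 : |gq1 B.C 0 q y| ≤ rr (fld r 56 8)
  d2 : y ≤ 2 ^ 20 → |gq2 B.C 0 q y| ≤ rr (fld r 56 9)

/-- The number `z` lies in the range stored in the record `r`. -/
def InR (r : ℕ) (z : ℝ) : Prop := -ro (fld r 56 0) ≤ z ∧ z ≤ ro (fld r 56 1)

/-- The number `e` bounds the error of `pev` at `y`, for arguments within one unit above. -/
def PeOK (B : Blk) (e y : ℕ) : Prop := ∀ q ∈ B.I, ∀ V, VOK B.C q V B.Yp → ∀ u : ℝ,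
  rr y ≤ u → u ≤ rr (y + 1) → |B.g 0 q u - ri (pev V y)| ≤ rr e

/-- The record `r` is valid on `[lo, hi]`. -/
structure RgOK (B : Blk) (r : ℕ) (lo hi : ℝ) : Prop where
  pt : ∀ q ∈ B.I, ∀ y, 0 ≤ y → lo ≤ y → y ≤ hi → PtOK B r q y
  pe : ∀ y : ℕ, lo ≤ rr y → rr y < hi → y < B.Yp → PeOK B (fld r 56 10) y

/-- The four further fields of a record made from the tables. -/
structure MkOK (B : Blk) (r : ℕ) (lo hi : ℝ) : Prop where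
  rg : RgOK B r lo hi
  ex : ∀ q ∈ B.I, ∀ y, 0 ≤ y → lo ≤ y → y ≤ hi → B.L2 q y ≤ rr (fld r 56 11) ∧
    |gq1 B.C 1 q y| ≤ rr (fld r 56 12) ∧ |gq1 B.C 2 q y| ≤ rr (fld r 56 13) ∧
    B.L1 q y ≤ rr (fld r 56 14)

/-- The table of records is valid on the cells of the grid. -/
structure TabOK (B : Blk) (T : ℕ → ℕ) : Prop where
  cell : ∀ i, i < 680 → RgOK B (T i) (rr (Yb i)) (rr (Yb (i + 1)))
  last : ∀ hi, RgOK B (T 680) (rr (Yb 680)) hi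

/-- Range queries give valid records. -/
structure QOK (B : Blk) (Q : ℕ → ℕ → ℕ) : Prop where
  rq : ∀ a b, RgOK B (rq Q a b) (rr a) (rr b)
  rqI : ∀ a hi, RgOK B (rqI Q a) (rr a) hi

/-- The decay bounds; a value below `BIG` is a valid bound. -/
structure FarOK (B : Blk) : Prop where
  f0 : ∀ y, far0 B y < BIG → ∀ q ∈ B.I, ∀ c v : ℝ, 1 ≤ c → rr y * c ^ 2 ≤ v →
    |B.g 0 q v| ≤ rr (far0 B y) / c
  fc : ∀ y, farc B y < BIG → ∀ q ∈ B.I, ∀ c v : ℝ, 1 ≤ c → rr y * c ^ 2 ≤ v →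
    |B.g 0 q v| ≤ rr (farc B y) / c ^ 3
  f1 : ∀ y, far1 y < BIG → ∀ q ∈ B.I, ∀ c v : ℝ, 1 ≤ c → rr y * c ^ 2 ≤ v →
    |B.g 1 q v| ≤ rr (far1 y) / c ^ 2
  f2 : ∀ y, far2 B y < BIG → ∀ q ∈ B.I, ∀ c v : ℝ, 1 ≤ c → rr y * c ^ 2 ≤ v →
    |B.g 2 q v| ≤ rr (far2 B y) / c ^ 3

/-- Everything the upper layers use about a block. -/
structure BOK (B : Blk) (Q : ℕ → ℕ → ℕ) (E : ℕ → ℕ) : Prop where
  sc : ScalOK B
  far : FarOK B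
  qok : QOK B Q
  hd : ∀ q ∈ B.I, Hd (B.g 0 q) (B.g 1 q) (B.g 2 q) (rr B.lam) (rr B.z2) (rr B.Zc) (rr B.Z2)
  lin : ∀ q ∈ B.I, ∀ v, 0 ≤ v → 1 - rr B.lamh * v ≤ B.g 0 q v
  lamh : B.lam ≤ B.lamh ∧ B.lamh ≤ SS
  env : ∀ y, envb E y ≤ B.lam ∧ ∀ q ∈ B.I, ∀ v, 0 ≤ v → v ≤ rr y →
    |B.g 0 q v| ≤ Real.exp (-(rr (envb E y) * v))
  alg : ∀ q ∈ B.I, ∀ v, 0 ≤ v → B.g 0 q v ^ 2 * (1 + rr B.gam * v) ≤ 1
  yp : B.Yp ≤ B.Yc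
  yc : B.Yc ≤ 2 ^ 52
  zc : B.Z2 ≤ B.Yc

/-- The tables at the vertices are correct. -/
def VVOK (B : Blk) (VV : ℕ → ℕ → ℕ) : Prop := ∀ v, v < B.nv → VOK B.C (B.q v) (VV v) B.Yp

/-- The tables at the two ends of the block are correct up to `Y`. -/
def EndOK (B : Blk) (Va Vb : ℕ → ℕ) (Y : ℕ) : Prop := VOK B.C B.qa Va Y ∧ VOK B.C B.qb Vb Y

end Pool.Agent.MP_39fec4_gt.K
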