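import Pool.Agent.MP_39fec4_gt.ZVert
import Pool.Agent.MP_39fec4_gt.FCalc
import Pool.Agent.MP_39fec4_gt.FDecay

set_option autoImplicit false

/-! Enclosures of polynomials of degree four and the distance to the profile. -/

namespace Pool.Agent.MP_39fec4_gt.K

open Set Full

/-- A polynomial of degree four and its first two derivatives. -/
noncomputable def pl0 (c0 c1 c2 c3 c4 : ℤ) (d : ℝ) : ℝ :=
  ri c0 + ri c1 * d + ri c2 * d ^ 2 + ri c3 * d ^ 3 + ri c4 * d ^ 4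

noncomputable def pl1 (c1 c2 c3 c4 : ℤ) (d : ℝ) : ℝ :=
  ri c1 + 2 * ri c2 * d + 3 * ri c3 * d ^ 2 + 4 * ri c4 * d ^ 3

noncomputable def pl2 (c2 c3 c4 : ℤ) (d : ℝ) : ℝ := 2 * ri c2 + 6 * ri c3 * d + 12 * ri c4 * d ^ 2

theorem hor4_le (a0 a1 a2 a3 a4 d : ℤ) : ri (hor4 a0 a1 a2 a3 a4 d) ≤ pl0 a0 a1 a2 a3 a4 (ri d) ∧
    pl0 a0 a1 a2 a3 a4 (ri d) < ri (hor4 a0 a1 a2 a3 a4 d) + 1 / 2 ^ 40 := by
  have e : ri ((((a4 * d + a3 * 1099511627776) * d + a2 * 1208925819614629174706176) * d +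
      a1 * 1329227995784915872903807060280344576) * d +
      a0 * 1461501637330902918203684832716283019655932542976) / 2 ^ 160 =
      pl0 a0 a1 a2 a3 a4 (ri d) := by
    simp only [pl0, ri]
    push_cast
    ring
  rw [← e]
  exact ⟨ri_shr_le _ 160, ri_shr_lt _ 160⟩

theorem pol0_eq (r : ℕ) (d : ℤ) :
    pol0 r d = hor4 (vco r 0) (vco r 1) (vco r 2) (vco r 3) (vco r 4) d := by
  have e : ∀ a b k : ℕ, Int.subNatNat (a <<< k) (b <<< k) = Int.subNatNat a b * 2 ^ k := by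
    intro a b k
    simp only [Int.subNatNat_eq_coe, Nat.shiftLeft_eq]
    push_cast
    ring
  have e1 : (2 : ℤ) ^ 40 = 1099511627776 := by norm_num
  have e2 : (2 : ℤ) ^ 80 = 1208925819614629174706176 := by norm_num
  have e3 : (2 : ℤ) ^ 120 = 1329227995784915872903807060280344576 := by norm_num
  have e4 : (2 : ℤ) ^ 160 = 1461501637330902918203684832716283019655932542976 := by norm_num
  unfold pol0 hor4
  rw [e, e, e, e, e1, e2, e3, e4]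
  rfl

namespace ZEnclX

/-- A function with a bounded second derivative stays near the range of its end values. -/
theorem chord {f f1 f2 : ℝ → ℝ} (h0 : ∀ s, HasDerivAt f (f1 s) s) (h1 : ∀ s, HasDerivAt f1 (f2 s) s)
    {a b M h d : ℝ} (hM : ∀ s, a ≤ s → s ≤ b → |f2 s| ≤ M) (hh : (b - a) ^ 2 / 8 ≤ h)
    (ha : a ≤ d) (hb : d ≤ b) :
    min (f a) (f b) - M * h ≤ f d ∧ f d ≤ max (f a) (f b) + M * h := by
  have hM0 : 0 ≤ M := (abs_nonneg _).trans (hM d ha hb)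
  have he : M * (b - a) ^ 2 / 8 ≤ M * h := by
    rw [mul_div_assoc]
    exact mul_le_mul_of_nonneg_left hh hM0
  have key : ∀ {f f1 f2 : ℝ → ℝ}, (∀ s, HasDerivAt f (f1 s) s) → (∀ s, HasDerivAt f1 (f2 s) s) →
      (∀ s, a ≤ s → s ≤ b → |f2 s| ≤ M) → f d ≤ max (f a) (f b) + M * h := by
    intro f f1 f2 h0 h1 hM
    have hc : Ch f a b (M * (b - a) ^ 2 / 8) := FCalcX.ch_of_conv (FCalcX.conv (f1 := f1) (f2 := f2)
      (fun s _ => (h0 s).continuousAt.continuousWithinAt)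
      fun s hs => ⟨h0 s, h1 s, (abs_le.1 (hM s hs.1.le hs.2.le)).1⟩) (ha.trans hb) hM0
    exact (hc.le_max ⟨ha, hb⟩).trans (by linarith)
  refine ⟨?_, key h0 h1 hM⟩
  have h2 := key (f := fun s => -f s) (f1 := fun s => -f1 s) (f2 := fun s => -f2 s)
    (fun s => (h0 s).neg) (fun s => (h1 s).neg) fun s h1 h2 => by rw [abs_neg]; exact hM s h1 h2
  rw [max_neg_neg] at h2
  linarith

/-- The same with rounded end values. -/
theorem rng {F Fa Fb E e X : ℝ} {u v : ℤ} {x : ℕ}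
    (h : min Fa Fb - E ≤ F ∧ F ≤ max Fa Fb + E) (hu : ri u ≤ Fa ∧ Fa ≤ ri u + e)
    (hv : ri v ≤ Fb ∧ Fb ≤ ri v + e) (hx : rr x = X) (hX : E + e ≤ X) :
    ri (min u v - x) ≤ F ∧ F ≤ ri (max u v + x) ∧ |F| ≤ rr (max (absI u) (absI v) + x) := by
  have h1 : min (ri u) (ri v) ≤ min Fa Fb := min_le_min hu.1 hv.1
  have h2 : max Fa Fb ≤ max (ri u) (ri v) + e := by
    rw [← max_add_add_right]
    exact max_le_max hu.2 hv.2
  have he : 0 ≤ e := by linarith [hu.1, hu.2]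
  have h3 : min (ri u) (ri v) - X ≤ F := by linarith [h.1]
  have h4 : F ≤ max (ri u) (ri v) + X := by linarith [h.2]
  rw [ri_sub, ri_add, ri_min, ri_max, ri_nat, rr_add, rr_max, rr_absI, rr_absI, hx]
  refine ⟨h3, h4, abs_le.2 ⟨?_, ?_⟩⟩
  · have : -max |ri u| |ri v| ≤ min (ri u) (ri v) :=
      le_min (by linarith [le_max_left |ri u| |ri v|, neg_abs_le (ri u)])
        (by linarith [le_max_right |ri u| |ri v|, neg_abs_le (ri v)])
    linarith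
  · have : max (ri u) (ri v) ≤ max |ri u| |ri v| := max_le_max (le_abs_self _) (le_abs_self _)
    linarith

theorem ri_zero : ri 0 = 0 := by simp [ri]

theorem poly_d (a0 a1 a2 a3 a4 s : ℝ) :
    HasDerivAt (fun d : ℝ => a0 + a1 * d + a2 * d ^ 2 + a3 * d ^ 3 + a4 * d ^ 4)
      (a1 + 2 * a2 * s + 3 * a3 * s ^ 2 + 4 * a4 * s ^ 3) s := by
  have h := (((((hasDerivAt_id s).const_mul a1).const_add a0).add
    ((hasDerivAt_pow 2 s).const_mul a2)).add ((hasDerivAt_pow 3 s).const_mul a3)).add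
    ((hasDerivAt_pow 4 s).const_mul a4)
  refine h.congr_deriv ?_
  simp only [Nat.cast_ofNat, Nat.add_one_sub_one]
  ring

noncomputable def pl3 (c3 c4 : ℤ) (d : ℝ) : ℝ := 6 * ri c3 + 24 * ri c4 * d

theorem d0 (c0 c1 c2 c3 c4 : ℤ) (s : ℝ) :
    HasDerivAt (pl0 c0 c1 c2 c3 c4) (pl1 c1 c2 c3 c4 s) s := poly_d _ _ _ _ _ s

theorem d1 (c1 c2 c3 c4 : ℤ) (s : ℝ) : HasDerivAt (pl1 c1 c2 c3 c4) (pl2 c2 c3 c4 s) s := by
  have e : pl1 c1 c2 c3 c4 = fun d : ℝ => ri c1 + 2 * ri c2 * d + 3 * ri c3 * d ^ 2 +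
      4 * ri c4 * d ^ 3 + 0 * d ^ 4 := by
    funext d
    simp only [pl1]
    ring
  rw [e]
  refine (poly_d _ _ _ _ _ s).congr_deriv ?_
  simp only [pl2]
  ring

theorem d2 (c2 c3 c4 : ℤ) (s : ℝ) : HasDerivAt (pl2 c2 c3 c4) (pl3 c3 c4 s) s := by
  have e : pl2 c2 c3 c4 = fun d : ℝ => 2 * ri c2 + 6 * ri c3 * d + 12 * ri c4 * d ^ 2 +
      0 * d ^ 3 + 0 * d ^ 4 := by
    funext d
    simp only [pl2]
    ring
  rw [e]
  refine (poly_d _ _ _ _ _ s).congr_deriv ?_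
  simp only [pl3]
  ring

theorem d3 (c3 c4 : ℤ) (s : ℝ) : HasDerivAt (pl3 c3 c4) (24 * ri c4) s := by
  have e : pl3 c3 c4 = fun d : ℝ => 6 * ri c3 + 24 * ri c4 * d + 0 * d ^ 2 +
      0 * d ^ 3 + 0 * d ^ 4 := by
    funext d
    simp only [pl3]
    ring
  rw [e]
  refine (poly_d _ _ _ _ _ s).congr_deriv ?_
  ring

theorem h0 (c0 c1 c2 c3 c4 d : ℤ) : ri (hor4 c0 c1 c2 c3 c4 d) ≤ pl0 c0 c1 c2 c3 c4 (ri d) ∧
    pl0 c0 c1 c2 c3 c4 (ri d) ≤ ri (hor4 c0 c1 c2 c3 c4 d) + rr 1 := by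
  rw [rr_one]
  exact ⟨(hor4_le _ _ _ _ _ _).1, (hor4_le _ _ _ _ _ _).2.le⟩

theorem h1 (c1 c2 c3 c4 d : ℤ) :
    ri (hor4 c1 (2 * c2) (3 * c3) (4 * c4) 0 d) ≤ pl1 c1 c2 c3 c4 (ri d) ∧
    pl1 c1 c2 c3 c4 (ri d) ≤ ri (hor4 c1 (2 * c2) (3 * c3) (4 * c4) 0 d) + rr 1 := by
  have e : pl1 c1 c2 c3 c4 (ri d) = pl0 c1 (2 * c2) (3 * c3) (4 * c4) 0 (ri d) := by
    simp only [pl0, pl1, ri_mul, ri_zero]
    push_cast
    ring
  rw [e]
  exact h0 _ _ _ _ _ _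

theorem h2 (c2 c3 c4 d : ℤ) :
    ri (hor4 (2 * c2) (6 * c3) (12 * c4) 0 0 d) ≤ pl2 c2 c3 c4 (ri d) ∧
    pl2 c2 c3 c4 (ri d) ≤ ri (hor4 (2 * c2) (6 * c3) (12 * c4) 0 0 d) + rr 1 := by
  have e : pl2 c2 c3 c4 (ri d) = pl0 (2 * c2) (6 * c3) (12 * c4) 0 0 (ri d) := by
    simp only [pl0, pl2, ri_mul, ri_zero]
    push_cast
    ring
  rw [e]
  exact h0 _ _ _ _ _ _

theorem h3 (c3 c4 d : ℤ) : ri (hor4 (6 * c3) (24 * c4) 0 0 0 d) ≤ pl3 c3 c4 (ri d) ∧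
    pl3 c3 c4 (ri d) ≤ ri (hor4 (6 * c3) (24 * c4) 0 0 0 d) + rr 1 := by
  have e : pl3 c3 c4 (ri d) = pl0 (6 * c3) (24 * c4) 0 0 0 (ri d) := by
    simp only [pl0, pl3, ri_mul, ri_zero]
    push_cast
    ring
  rw [e]
  exact h0 _ _ _ _ _ _

/-- The end values of the twisted functions. -/
theorem tw {P0 P1 P2 : ℝ} {u0 u1 u2 : ℤ} {lam : ℕ} (hl : rr lam ≤ 1)
    (g0 : ri u0 ≤ P0 ∧ P0 ≤ ri u0 + rr 1) (g1 : ri u1 ≤ P1 ∧ P1 ≤ ri u1 + rr 1)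
    (g2 : ri u2 ≤ P2 ∧ P2 ≤ ri u2 + rr 1) :
    (ri (u1 + mulI lam u0) ≤ P1 + rr lam * P0 ∧
      P1 + rr lam * P0 ≤ ri (u1 + mulI lam u0) + (2 + rr lam) * rr 1) ∧
    (ri (u2 + mulI lam (u1 + (u1 + mulI lam u0))) ≤ P2 + 2 * rr lam * P1 + rr lam ^ 2 * P0 ∧
      P2 + 2 * rr lam * P1 + rr lam ^ 2 * P0 ≤
        ri (u2 + mulI lam (u1 + (u1 + mulI lam u0))) + (5 + rr lam ^ 2) * rr 1) := by
  have l0 := rr_nonneg lam
  have e0 := rr_nonneg 1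
  have m1 := mulI_le lam u0
  have m2 := (mulI_lt lam u0).le
  have m3 := mulI_le lam (u1 + (u1 + mulI lam u0))
  have m4 := (mulI_lt lam (u1 + (u1 + mulI lam u0))).le
  rw [← rr_one] at m2 m4
  simp only [ri_add, ri_nat] at m1 m2 m3 m4 ⊢
  have a1 := mul_le_mul_of_nonneg_left g0.1 l0
  have a2 := mul_le_mul_of_nonneg_left g0.2 l0
  have b1 : ri u1 + ri (mulI lam u0) ≤ P1 + rr lam * P0 := by linarith [g1.1]
  have b2 : P1 + rr lam * P0 ≤ ri u1 + ri (mulI lam u0) + (2 + rr lam) * rr 1 := by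
    linarith [g1.2]
  have c1 := mul_le_mul_of_nonneg_left (add_le_add g1.1 b1) l0
  have c2 := mul_le_mul_of_nonneg_left (add_le_add g1.2 b2) l0
  have c3 := mul_le_mul_of_nonneg_right hl e0
  exact ⟨⟨b1, b2⟩, by linarith [g2.1], by linarith [g2.2]⟩

end ZEnclX

open ZEnclX

/-- What `encl` hands to its continuation. -/
structure EnclOK (c0 c1 c2 c3 c4 : ℤ) (lam : ℝ) (d : ℝ) (lo hi : ℤ) (k1 : ℕ)
    (l2 h2 aL aH bL bH : ℤ) : Prop where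
  p0 : ri lo ≤ pl0 c0 c1 c2 c3 c4 d ∧ pl0 c0 c1 c2 c3 c4 d ≤ ri hi
  p1 : |pl1 c1 c2 c3 c4 d| ≤ rr k1
  p2 : ri l2 ≤ pl2 c2 c3 c4 d ∧ pl2 c2 c3 c4 d ≤ ri h2
  t1 : ri aL ≤ pl1 c1 c2 c3 c4 d + lam * pl0 c0 c1 c2 c3 c4 d ∧
    pl1 c1 c2 c3 c4 d + lam * pl0 c0 c1 c2 c3 c4 d ≤ ri aH
  t2 : ri bL ≤ pl2 c2 c3 c4 d + 2 * lam * pl1 c1 c2 c3 c4 d + lam ^ 2 * pl0 c0 c1 c2 c3 c4 d ∧
    pl2 c2 c3 c4 d + 2 * lam * pl1 c1 c2 c3 c4 d + lam ^ 2 * pl0 c0 c1 c2 c3 c4 d ≤ ri bH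

theorem encl_spec {α : Type} (c0 c1 c2 c3 c4 d0 d1 : ℤ) (hh lam : ℕ) (hl : lam ≤ SS)
    (h : (ri d1 - ri d0) ^ 2 / 8 ≤ rr hh)
    (k : ℤ → ℤ → ℕ → ℤ → ℤ → ℤ → ℤ → ℤ → ℤ → α) :
    ∃ lo hi k1 l2 h2 aL aH bL bH, encl c0 c1 c2 c3 c4 d0 d1 hh lam k = k lo hi k1 l2 h2 aL aH bL bH ∧
      ∀ d, ri d0 ≤ d → d ≤ ri d1 → EnclOK c0 c1 c2 c3 c4 (rr lam) d lo hi k1 l2 h2 aL aH bL bH := by
  simp only [encl, forceI_eq, forceN_eq]
  refine ⟨_, _, _, _, _, _, _, _, _, rfl, fun d hd0 hd1 => ?_⟩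
  have l0 := rr_nonneg lam
  have l1 : rr lam ≤ 1 := rr_SS ▸ rr_le.2 hl
  have e0 := rr_nonneg 1
  have hh0 := rr_nonneg hh
  have u0 := h0 c0 c1 c2 c3 c4 d0
  have v0 := h0 c0 c1 c2 c3 c4 d1
  have u1 := h1 c1 c2 c3 c4 d0
  have v1 := h1 c1 c2 c3 c4 d1
  have u2 := h2 c2 c3 c4 d0
  have v2 := h2 c2 c3 c4 d1
  have u3 := h3 c3 c4 d0
  have v3 := h3 c3 c4 d1
  have ta := tw l1 u0 u1 u2
  have tb := tw l1 v0 v1 v2
  have b4 : |24 * ri c4| ≤ rr (absI (24 * c4)) := by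
    rw [rr_absI, ri_mul]
    simp
  have b3 := fun s (s0 : ri d0 ≤ s) (s1 : s ≤ ri d1) => (rng (x := 1)
    (chord (d3 c3 c4) (fun s => hasDerivAt_const s _) (M := 0) (fun _ _ _ => by simp) h s0 s1)
    u3 v3 rfl (by simp)).2.2
  have x2 := mulU_ge (absI (24 * c4)) hh
  have b2 := fun s (s0 : ri d0 ≤ s) (s1 : s ≤ ri d1) => rng (x := mulU (absI (24 * c4)) hh + 1)
    (chord (d2 c2 c3 c4) (d3 c3 c4) (fun _ _ _ => b4) h s0 s1) u2 v2 (rr_add _ _) (by linarith)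
  generalize absI (24 * c4) = p4 at *
  generalize max (absI (hor4 (6 * c3) (24 * c4) 0 0 0 d0))
    (absI (hor4 (6 * c3) (24 * c4) 0 0 0 d1)) + 1 = p3 at *
  have b2' := fun s s0 s1 => (b2 s s0 s1).2.2
  generalize max (absI (hor4 (2 * c2) (6 * c3) (12 * c4) 0 0 d0))
    (absI (hor4 (2 * c2) (6 * c3) (12 * c4) 0 0 d1)) + (mulU p4 hh + 1) = p2 at *
  have x1 := mulU_ge p3 hh
  have x0 := mulU_ge p2 hh
  have b1 := rng (x := mulU p3 hh + 1)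
    (chord (ZEnclX.d1 c1 c2 c3 c4) (d2 c2 c3 c4) b3 h hd0 hd1) u1 v1 (rr_add _ _) (by linarith)
  have b0 := rng (x := mulU p2 hh + 1)
    (chord (ZEnclX.d0 c0 c1 c2 c3 c4) (ZEnclX.d1 c1 c2 c3 c4) b2' h hd0 hd1) u0 v0 (rr_add _ _)
    (by linarith)
  have y0 : rr lam * (rr p2 * rr hh + rr 1) ≤ rr (mulU lam (mulU p2 hh + 1)) :=
    le_mulU' le_rfl (by rw [rr_add]; linarith) l0
  have y1 : rr lam * (rr p3 * rr hh + rr 1) ≤ rr (mulU lam (mulU p3 hh + 1)) :=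
    le_mulU' le_rfl (by rw [rr_add]; linarith) l0
  have y2 := le_mulU' (a := lam) le_rfl y0 l0
  have t1 := rng (x := mulU p3 hh + 1 + mulU lam (mulU p2 hh + 1) + 1)
    (chord (f := fun s => pl1 c1 c2 c3 c4 s + rr lam * pl0 c0 c1 c2 c3 c4 s)
      (fun s => (ZEnclX.d1 c1 c2 c3 c4 s).add ((ZEnclX.d0 c0 c1 c2 c3 c4 s).const_mul _))
      (fun s => (d2 c2 c3 c4 s).add ((ZEnclX.d1 c1 c2 c3 c4 s).const_mul _))
      (M := rr p3 + rr lam * rr p2)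
      (fun s s0 s1 => (abs_add_le _ _).trans (add_le_add (b3 s s0 s1)
        (FCalcX.abs_mul_le' (abs_of_nonneg l0).le (b2' s s0 s1)))) h hd0 hd1)
    ta.1 tb.1 rfl (by simp only [rr_add]; linarith)
  have l2 : 0 ≤ 2 * rr lam := by linarith
  have l3 : 0 ≤ rr lam ^ 2 := sq_nonneg _
  have e4 : rr 4 = 4 * rr 1 := by simpa using rr_nmul 4 1
  have t2 := rng (x := mulU p4 hh + 1 + 2 * mulU lam (mulU p3 hh + 1) +
      mulU lam (mulU lam (mulU p2 hh + 1)) + 4)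
    (chord (f := fun s => pl2 c2 c3 c4 s + 2 * rr lam * pl1 c1 c2 c3 c4 s +
        rr lam ^ 2 * pl0 c0 c1 c2 c3 c4 s)
      (fun s => ((d2 c2 c3 c4 s).add ((ZEnclX.d1 c1 c2 c3 c4 s).const_mul _)).add
        ((ZEnclX.d0 c0 c1 c2 c3 c4 s).const_mul _))
      (fun s => ((d3 c3 c4 s).add ((d2 c2 c3 c4 s).const_mul _)).add
        ((ZEnclX.d1 c1 c2 c3 c4 s).const_mul _))
      (M := rr p4 + 2 * rr lam * rr p3 + rr lam ^ 2 * rr p2)
      (fun s s0 s1 => (abs_add_le _ _).trans (add_le_add ((abs_add_le _ _).trans (add_le_add b4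
        (FCalcX.abs_mul_le' (abs_of_nonneg l2).le (b3 s s0 s1))))
        (FCalcX.abs_mul_le' (abs_of_nonneg l3).le (b2' s s0 s1)))) h hd0 hd1)
    ta.2 tb.2 rfl (by
      simp only [rr_add, rr_nmul, e4, Nat.cast_ofNat]
      linarith [mul_nonneg l0 e0])
  exact ⟨⟨b0.1, b0.2.1⟩, b1.2.2, ⟨(b2 d hd0 hd1).1, (b2 d hd0 hd1).2.1⟩, ⟨t1.1, t1.2.1⟩,
    ⟨t2.1, t2.2.1⟩⟩

variable {B : Blk} {q : ℝ}

namespace ZEnclX

theorem C_pos (hs : ScalOK B) : 0 < B.C := by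
  have h : (0 : ℝ) < B.R := Nat.cast_pos.2 hs.R0
  exact div_pos (by norm_num) (pow_pos (div_pos h (by norm_num)) _)

theorem q_pos (hs : ScalOK B) (hq : q ∈ B.I) : 0 < q := by
  have h : (0 : ℝ) < B.m0 := Nat.cast_pos.2 (lt_of_lt_of_le (by norm_num) hs.a0)
  exact lt_of_lt_of_le (div_pos h (by norm_num)) hq.1

theorem rem_tail {b hw N k : ℕ} {d : ℝ} (hd : |d| ≤ rr hw) (hk : 0 < k) :
    rr b * |d| ^ N / k ≤ rr (mulU b (powU hw N) / k + 1) := by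
  refine le_trans ?_ (rr_div_lt _ hk).le
  have h := le_mulU' (a := b) le_rfl (le_powU (abs_nonneg d) hd N) (rr_nonneg b)
  exact div_le_div_of_nonneg_right h (Nat.cast_nonneg k)

end ZEnclX

theorem b5_ge (hs : ScalOK B) (hq : q ∈ B.I) (y : ℕ) {v : ℝ} (hv : rr y ≤ v) :
    |B.g 5 q v| ≤ rr (b5 B y) := by
  have ha := hs.a5 q hq v
  rw [b5, rr_min]
  refine le_min ha ?_
  rcases Nat.eq_zero_or_pos (4 * powD y 3) with h | h
  · rw [h, divU_zero]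
    refine ha.trans (rr_le.2 ?_)
    have h1 := hs.sm
    have h2 : 2 ^ 60 ≤ BIG := by norm_num [BIG]
    omega
  · have h1 : rr (powD y 3) ≤ v ^ 3 := powD_le_of hv 3
    have h2 : 0 < rr (powD y 3) := rr_pos (by omega)
    have h3 : 0 < v := by
      refine lt_of_le_of_ne ((rr_nonneg y).trans hv) fun h0 => ?_
      rw [← h0] at h1
      norm_num at h1
      linarith
    refine (dec_five (C_pos hs) (q_pos hs hq) h3).trans ?_
    have h4 := le_divU (y := 4 * v ^ 3) h (hs.m5r q hq) (by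
      rw [rr_nmul]
      push_cast
      linarith)
    refine le_trans (le_of_eq ?_) h4
    rw [div_div]
    congr 1
    ring

/-- The profile and two derivatives against the stored polynomial on a cell of the coarse grid. -/
theorem rem_spec (hs : ScalOK B) (hq : q ∈ B.I) {V : ℕ → ℕ} {Y y : ℕ} (hV : VOK B.C q V Y)
    (hy : y < Y) {r : ℕ} (hr : r = V (vidx y)) {d : ℝ} (hd : |d| ≤ rr (vhw y)) :
    |B.g 0 q (rr (vctr y) + d) - pl0 (vco r 0) (vco r 1) (vco r 2) (vco r 3) (vco r 4) d| ≤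
      rr (rem0 (b5 B (vctr y - vhw y)) (vhw y)) ∧
    |B.g 1 q (rr (vctr y) + d) - pl1 (vco r 1) (vco r 2) (vco r 3) (vco r 4) d| ≤
      rr (rem1 (b5 B (vctr y - vhw y)) (vhw y)) ∧
    |B.g 2 q (rr (vctr y) + d) - pl2 (vco r 2) (vco r 3) (vco r 4) d| ≤
      rr (rem2 (b5 B (vctr y - vhw y)) (vhw y)) := by
  subst hr
  have hC := C_pos hs
  have hq0 := q_pos hs hq
  have hw := (vhw_le y).1
  have hw' := rr_le.2 hw
  have hd' := abs_le.1 hd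
  have hc := rr_nonneg (vctr y)
  have hB : ∀ t ∈ uIcc (rr (vctr y)) (rr (vctr y) + d),
      |Full.gg B.C 5 q t| ≤ rr (b5 B (vctr y - vhw y)) := fun t ht => by
    refine b5_ge hs hq _ ?_
    rw [rr_sub hw]
    have h0 := rr_nonneg (vhw y)
    rcases mem_uIcc.1 ht with h | h <;> linarith [h.1, h.2]
  have T := fun N j => taylor_loc (fun j => Full.gg B.C j q) (Full.cont_gg hC hq0)
    (fun j y hy => Full.hasDerivAt_gg hC hq0 j hy) N j (B := rr (b5 B (vctr y - vhw y))) hc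
    (show 0 ≤ rr (vctr y) + d by linarith)
  have T0 := T 5 0 hB
  have T1 := T 4 1 hB
  have T2 := T 3 2 hB
  have e0 := hV y hy 0 (by norm_num)
  have e1 := hV y hy 1 (by norm_num)
  have e2 := hV y hy 2 (by norm_num)
  have e3 := hV y hy 3 (by norm_num)
  have e4 := hV y hy 4 (by norm_num)
  have r2 : (2 : ℝ) / 2 ^ 40 = rr 2 := by simp [rr]
  rw [r2] at e0 e1 e2 e3 e4
  have t0 := rem_tail (b := b5 B (vctr y - vhw y)) (N := 5) (k := 120) hd (by norm_num)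
  have t1 := rem_tail (b := b5 B (vctr y - vhw y)) (N := 4) (k := 24) hd (by norm_num)
  have t2 := rem_tail (b := b5 B (vctr y - vhw y)) (N := 3) (k := 6) hd (by norm_num)
  have p2 := abs_le_powU hd 2
  have p3 := abs_le_powU hd 3
  have p4 := abs_le_powU hd 4
  have m0 := mulU_ge 2 (SS + vhw y + powU (vhw y) 2 + powU (vhw y) 3 + powU (vhw y) 4)
  have m1 := mulU_ge 2 (SS + 2 * vhw y + 3 * powU (vhw y) 2 + 4 * powU (vhw y) 3)
  have m2 := mulU_ge 2 (2 * SS + 6 * vhw y + 12 * powU (vhw y) 2)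
  simp only [rr_add, rr_nmul, rr_SS, Nat.cast_ofNat] at m0 m1 m2
  simp only [Finset.sum_range_succ, Finset.sum_range_zero, add_sub_cancel_left, Nat.factorial,
    Nat.succ_eq_add_one, Nat.reduceAdd, Nat.reduceMul, Nat.cast_ofNat, Nat.cast_one, zero_add,
    pow_zero, mul_one, div_one, pow_one] at T0 T1 T2 e0 e1 e2 e3 e4 t0 t1 t2
  simp only [Blk.g, pl0, pl1, pl2, rem0, rem1, rem2]
  rw [rr_add _ (mulU _ _), rr_add _ (mulU _ _), rr_add _ (mulU _ _)]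
  have a11 := abs_le.1 (FCalcX.abs_mul_le' e1 hd)
  have a21 := abs_le.1 (FCalcX.abs_mul_le' e2 hd)
  have a31 := abs_le.1 (FCalcX.abs_mul_le' e3 hd)
  have a22 := abs_le.1 (FCalcX.abs_mul_le' e2 p2)
  have a32 := abs_le.1 (FCalcX.abs_mul_le' e3 p2)
  have a42 := abs_le.1 (FCalcX.abs_mul_le' e4 p2)
  have a33 := abs_le.1 (FCalcX.abs_mul_le' e3 p3)
  have a43 := abs_le.1 (FCalcX.abs_mul_le' e4 p3)
  have a44 := abs_le.1 (FCalcX.abs_mul_le' e4 p4)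
  rw [abs_le] at T0 T1 T2 e0 e1 e2
  refine ⟨abs_le.2 ⟨?_, ?_⟩, abs_le.2 ⟨?_, ?_⟩, abs_le.2 ⟨?_, ?_⟩⟩
  · linarith [T0.1, e0.1, a11.1, a22.1, a33.1, a44.1]
  · linarith [T0.2, e0.2, a11.2, a22.2, a33.2, a44.2]
  · linarith [T1.1, e1.1, a21.1, a32.1, a43.1]
  · linarith [T1.2, e1.2, a21.2, a32.2, a43.2]
  · linarith [T2.1, e2.1, a31.1, a42.1]
  · linarith [T2.2, e2.2, a31.2, a42.2]

/-- The error of `pev`. -/
theorem pev_spec (hs : ScalOK B) {y0 y : ℕ} (h1 : vctr y0 - vhw y0 ≤ y)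
    (h2 : y < vctr y0 + vhw y0) (hy : y < B.Yp) :
    PeOK B (rem0 (b5 B (vctr y0 - vhw y0)) (vhw y0) + 2) y := by
  intro q hq V hV u hu1 hu2
  obtain ⟨-, e1, e2⟩ := vcell_eq h1 h2
  rw [← e1, ← e2]
  obtain ⟨w0, w1, w2⟩ := vhw_le y
  have hd : |rr y - rr (vctr y)| ≤ rr (vhw y) := by
    have a1 := rr_le.2 w1
    have a2 := rr_le.2 w2.le
    rw [rr_sub w0] at a1
    rw [rr_add] at a2
    exact abs_le.2 ⟨by linarith, by linarith⟩
  have r0 := (rem_spec hs hq hV hy rfl hd).1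
  rw [add_sub_cancel] at r0
  have hp := ZEnclX.h0 (vco (V (vidx y)) 0) (vco (V (vidx y)) 1) (vco (V (vidx y)) 2)
    (vco (V (vidx y)) 3) (vco (V (vidx y)) 4) (Int.subNatNat y (vctr y))
  rw [← pol0_eq, ri_subNatNat] at hp
  have hC := C_pos hs
  have hq0 := q_pos hs hq
  have hL := taylor_loc (fun j => Full.gg B.C j q) (Full.cont_gg hC hq0)
    (fun j y hy => Full.hasDerivAt_gg hC hq0 j hy) 1 0 (B := 1) (rr_nonneg y)
    ((rr_nonneg y).trans hu1) fun t _ => hs.g1 q hq t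
  simp only [Finset.sum_range_succ, Finset.sum_range_zero, Nat.factorial, Nat.succ_eq_add_one,
    Nat.cast_one, zero_add, pow_zero, mul_one, div_one, pow_one, one_mul] at hL
  rw [abs_of_nonneg (sub_nonneg.2 hu1), abs_le] at hL
  rw [rr_add] at hu2
  have e3 : rr 2 = 2 * rr 1 := by simpa using rr_nmul 2 1
  simp only [pev, forceN_eq, forceI_eq]
  rw [rr_add, e3]
  simp only [Blk.g] at r0 ⊢
  rw [abs_le] at r0 ⊢
  have e0 := rr_nonneg 1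
  exact ⟨by linarith [r0.1, hL.1, hp.1], by linarith [r0.2, hL.2, hp.2]⟩

end Pool.Agent.MP_39fec4_gt.K
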