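import Pool.Agent.MP_39fec4_gt.ZArith
import Pool.Agent.MP_39fec4_gt.FGam

set_option autoImplicit false

/-! Soundness of the enclosures of the moments. -/

namespace Pool.Agent.MP_39fec4_gt.K

open Set Full

namespace ZGamX

theorem div_le' (a b : ℕ) : ((a / b : ℕ) : ℝ) ≤ (a : ℝ) / b := Nat.cast_div_le

theorem div_lt' (a b : ℕ) : (a : ℝ) / b ≤ ((a / b + 1 : ℕ) : ℝ) := by
  have h := Nat.lt_floor_add_one ((a : ℝ) / b)
  rw [Nat.floor_div_eq_div] at h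
  push_cast
  exact h.le

theorem shr_le (a k : ℕ) : ((a >>> k : ℕ) : ℝ) ≤ (a : ℝ) / 2 ^ k := by
  rw [Nat.shiftRight_eq_div_pow]
  have h := div_le' a (2 ^ k)
  push_cast at h
  exact h

theorem shr_lt (a k : ℕ) : (a : ℝ) / 2 ^ k ≤ ((a >>> k + 1 : ℕ) : ℝ) := by
  rw [Nat.shiftRight_eq_div_pow]
  have h := div_lt' a (2 ^ k)
  rw [Nat.cast_pow, Nat.cast_ofNat] at h
  exact h

/-- Product of two lower bounds. -/
theorem mul_lo {a b k : ℕ} {x y : ℝ} {s : ℝ} (hs : 0 < s) (ha : (a : ℝ) / s ≤ x)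
    (hb : (b : ℝ) / 2 ^ k ≤ y) : (((a * b) >>> k : ℕ) : ℝ) / s ≤ x * y := by
  have h := shr_le (a * b) k
  have h1 : (0 : ℝ) ≤ (a : ℝ) / s := by positivity
  have h2 : (0 : ℝ) ≤ (b : ℝ) / 2 ^ k := by positivity
  calc (((a * b) >>> k : ℕ) : ℝ) / s ≤ (((a * b : ℕ) : ℝ) / 2 ^ k) / s := by gcongr
    _ = ((a : ℝ) / s) * ((b : ℝ) / 2 ^ k) := by push_cast; ring
    _ ≤ x * y := mul_le_mul ha hb h2 (h1.trans ha)

theorem mul_hi {a b k : ℕ} {x y : ℝ} {s : ℝ} (hs : 0 < s) (hy : 0 ≤ y) (ha : x ≤ (a : ℝ) / s)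
    (hb : y ≤ (b : ℝ) / 2 ^ k) : x * y ≤ (((a * b) >>> k + 1 : ℕ) : ℝ) / s := by
  have h := shr_lt (a * b) k
  have h1 : (0 : ℝ) ≤ (a : ℝ) / s := by positivity
  calc x * y ≤ ((a : ℝ) / s) * ((b : ℝ) / 2 ^ k) := mul_le_mul ha hb hy h1
    _ = (((a * b : ℕ) : ℝ) / 2 ^ k) / s := by push_cast; ring
    _ ≤ _ := by gcongr

theorem gam_rec (f k : ℕ) : ∀ n d : ℕ, 0 < d →
    Nat.rec (motive := fun _ => ℕ → ℕ → ℕ) (fun n d => n / d)
      (fun i ih n d => forceN (655360 * (d + n)) fun n' =>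
        forceN ((f + 4096 * (i + 1)) * d) fun d' => ih n' d') k n d =
    ⌊SG ((f : ℝ) / 4096) 160 k + (n : ℝ) / d *
      (160 ^ k / ∏ j ∈ Finset.range k, ((f : ℝ) / 4096 + 1 + j))⌋₊ := by
  induction k with
  | zero =>
    intro n d _
    simp [SG, Nat.floor_div_eq_div]
  | succ k ih =>
    intro n d hd
    have hd' : 0 < (f + 4096 * (k + 1)) * d := by positivity
    have e := ih (655360 * (d + n)) ((f + 4096 * (k + 1)) * d) hd'
    simp only [forceN_eq] at e ⊢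
    refine e.trans ?_
    congr 1
    have hP : 0 < ∏ j ∈ Finset.range k, ((f : ℝ) / 4096 + 1 + j) :=
      Finset.prod_pos fun j _ => by positivity
    unfold SG
    rw [Finset.sum_range_succ, Finset.prod_range_succ]
    generalize (∏ j ∈ Finset.range k, ((f : ℝ) / 4096 + 1 + j)) = P at hP ⊢
    generalize (∑ i ∈ Finset.range k, (160 : ℝ) ^ (i + 1) /
      ∏ j ∈ Finset.range (i + 1), ((f : ℝ) / 4096 + 1 + j)) = S
    have hdr : (0 : ℝ) < d := by exact_mod_cast hd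
    rw [pow_succ]
    generalize (160 : ℝ) ^ k = T
    push_cast
    field_simp
    ring

theorem gamE_eq (f : ℕ) : gamE f = ⌊SG ((f : ℝ) / 4096) 160 460⌋₊ := by
  have h := gam_rec f 460 0 1 one_pos
  rw [Nat.cast_zero, zero_div, zero_mul, add_zero] at h
  exact h

theorem SG_nonneg {ph : ℝ} (h : 0 ≤ ph) (K : ℕ) : 0 ≤ SG ph 160 K :=
  Finset.sum_nonneg fun i _ => div_nonneg (by positivity)
    (Finset.prod_nonneg fun j _ => by positivity)

theorem fact_big : 2 * (160 ^ 230 * 160 ^ 231) ≤ Nat.factorial 461 := by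
  norm_num

theorem TG_le {ph : ℝ} (h : 0 ≤ ph) : 2 * TG ph 160 460 ≤ 1 := by
  unfold TG
  have h1 : ((Nat.factorial (460 + 1) : ℕ) : ℝ) ≤ ∏ j ∈ Finset.range (460 + 1), (ph + 1 + j) := by
    rw [← Finset.prod_range_add_one_eq_factorial, Nat.cast_prod]
    exact Finset.prod_le_prod (fun j _ => by positivity) fun j _ => by push_cast; linarith
  have h2 : ((2 * (160 ^ 230 * 160 ^ 231) : ℕ) : ℝ) ≤ ((Nat.factorial (460 + 1) : ℕ) : ℝ) :=
    Nat.cast_le.2 fact_big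
  rw [← pow_add, Nat.cast_mul, Nat.cast_pow, Nat.cast_ofNat, Nat.cast_ofNat] at h2
  have h3 : (0 : ℝ) < ((Nat.factorial (460 + 1) : ℕ) : ℝ) := Nat.cast_pos.2 (Nat.factorial_pos _)
  have e : (160 : ℝ) ^ (460 + 1) = 160 ^ (230 + 231) := rfl
  rw [e]
  generalize (160 : ℝ) ^ (230 + 231) = T at h2 ⊢
  generalize ((Nat.factorial (460 + 1) : ℕ) : ℝ) = F at h1 h2 h3
  generalize (∏ j ∈ Finset.range (460 + 1), (ph + 1 + (j : ℝ))) = P at h1 ⊢
  rw [← mul_div_assoc, div_le_one (h3.trans_le h1)]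
  exact h2.trans h1

theorem gam_encl {f : ℕ} (hf : f < 4096) :
    Real.exp (-160) * 160 ^ ((f : ℝ) / 4096) * gamE f ≤ Real.Gamma (1 + (f : ℝ) / 4096) ∧
      Real.Gamma (1 + (f : ℝ) / 4096) ≤
        Real.exp (-160) * 160 ^ ((f : ℝ) / 4096) * (gamE f + 4) := by
  have h0 : (0 : ℝ) ≤ (f : ℝ) / 4096 := by positivity
  have h1 : (f : ℝ) / 4096 ≤ 1 := by
    rw [div_le_one (by norm_num)]
    exact_mod_cast hf.le
  obtain ⟨a, b⟩ := gamma_encl (N := 160) (K := 460) h0 h1 (by norm_num) (by norm_num)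
  have hT := TG_le h0
  have hS := SG_nonneg h0 460
  have hl := Nat.floor_le hS
  have hu := Nat.lt_floor_add_one (SG ((f : ℝ) / 4096) 160 460)
  rw [← gamE_eq] at hl hu
  have hp : 0 ≤ Real.exp (-160) * 160 ^ ((f : ℝ) / 4096) := by positivity
  exact ⟨(mul_le_mul_of_nonneg_left hl hp).trans a,
    b.trans (mul_le_mul_of_nonneg_left (by linarith) hp)⟩

theorem gam_zero : Real.exp (-160) * gamE 0 ≤ 1 ∧ 1 ≤ Real.exp (-160) * (gamE 0 + 4) := by
  have h := gam_encl (f := 0) (by norm_num)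
  generalize gamE 0 = g at h ⊢
  simpa using h

theorem gam_zero_pos : (0 : ℝ) < gamE 0 := by
  have h := gam_zero.2
  have h1 : Real.exp (-160) * 161 ≤ 1 := by
    have := Real.add_one_le_exp (160 : ℝ)
    rw [Real.exp_neg, inv_mul_le_iff₀ (Real.exp_pos _)]
    linarith
  have h2 := Real.exp_pos (-160 : ℝ)
  generalize (gamE 0 : ℝ) = g at h ⊢
  by_contra hg
  have hg' : g ≤ 0 := not_lt.1 hg
  nlinarith

theorem rise_rec (f I : ℕ) : ∀ a : ℕ,
    Nat.rec (motive := fun _ => ℕ → ℕ) (fun a => a)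
      (fun j ih a => forceN (a * (f + 4096 * (j + 1))) ih) I a =
    a * ∏ j ∈ Finset.range I, (f + 4096 * (j + 1)) := by
  induction I with
  | zero => intro a; simp
  | succ I ih =>
    intro a
    have e := ih (a * (f + 4096 * (I + 1)))
    simp only [forceN_eq] at e ⊢
    refine e.trans ?_
    rw [Finset.prod_range_succ]
    ring

theorem rise_eq (f I : ℕ) :
    (rise f I : ℝ) = 4096 ^ I * ∏ j ∈ Finset.range I, ((f : ℝ) / 4096 + 1 + j) := by
  have h : rise f I = 1 * ∏ j ∈ Finset.range I, (f + 4096 * (j + 1)) := rise_rec f I 1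
  rw [h, one_mul, Nat.cast_prod, ← Finset.card_range I, ← Finset.prod_const, Finset.card_range,
    ← Finset.prod_mul_distrib]
  refine Finset.prod_congr rfl fun j _ => ?_
  push_cast
  ring

theorem mu_eq {R : ℕ} (hR : 0 < R) (m : ℕ) : mu (Cc R) (m / 4096) =
    Real.Gamma (1 + ((m % 4096 : ℕ) : ℝ) / 4096) / 160 ^ (((m % 4096 : ℕ) : ℝ) / 4096) *
      (rise (m % 4096) (m / 4096) * ((R : ℝ) / 2 ^ 32) ^ m / 655360 ^ (m / 4096)) := by
  have hm : (m : ℝ) / 4096 = ((m % 4096 : ℕ) : ℝ) / 4096 + (m / 4096 : ℕ) := by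
    have h : (m : ℝ) = ((m % 4096 + 4096 * (m / 4096) : ℕ) : ℝ) := by rw [Nat.mod_add_div]
    conv_lhs => rw [h]
    push_cast
    ring
  have hr : (0 : ℝ) < (R : ℝ) / 2 ^ 32 := by positivity
  have hC : Cc R ^ (-((m : ℝ) / 4096)) = ((R : ℝ) / 2 ^ 32) ^ m / 160 ^ ((m : ℝ) / 4096) := by
    unfold Cc
    generalize (R : ℝ) / 2 ^ 32 = r at hr ⊢
    rw [Real.rpow_neg (div_pos (by norm_num) (pow_pos hr _)).le,
      Real.div_rpow (by norm_num) (pow_pos hr _).le, inv_div, ← Real.rpow_natCast r 4096,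
      ← Real.rpow_mul hr.le, ← Real.rpow_natCast r m]
    congr 2
    push_cast
    ring
  unfold mu
  rw [hC, rise_eq]
  generalize ((R : ℝ) / 2 ^ 32) ^ m = p
  rw [hm]
  generalize m / 4096 = I
  have h0 : (0 : ℝ) ≤ ((m % 4096 : ℕ) : ℝ) / 4096 := by positivity
  generalize ((m % 4096 : ℕ) : ℝ) / 4096 = ph at h0 ⊢
  rw [gamma_shift h0, Real.rpow_add (by norm_num), Real.rpow_natCast]
  have e : (655360 : ℝ) ^ I = 4096 ^ I * 160 ^ I := by rw [← mul_pow]; norm_num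
  rw [e]
  have h1 : (0 : ℝ) < 160 ^ ph := by positivity
  field_simp

theorem ratio_encl {f : ℕ} (hf : f < 4096) :
    (gamE f : ℝ) / (gamE 0 + 4) ≤ Real.Gamma (1 + (f : ℝ) / 4096) / 160 ^ ((f : ℝ) / 4096) ∧
      Real.Gamma (1 + (f : ℝ) / 4096) / 160 ^ ((f : ℝ) / 4096) ≤ (gamE f + 4) / gamE 0 := by
  obtain ⟨a, b⟩ := gam_encl hf
  obtain ⟨c, d⟩ := gam_zero
  have g0 := gam_zero_pos
  have gf : (0 : ℝ) ≤ gamE f := Nat.cast_nonneg _
  have hp : (0 : ℝ) < 160 ^ ((f : ℝ) / 4096) := by positivity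
  have he := Real.exp_pos (-160 : ℝ)
  generalize (gamE 0 : ℝ) = g at c d g0 ⊢
  generalize (gamE f : ℝ) = u at a b gf ⊢
  generalize Real.exp (-160) = e at a b c d he
  generalize Real.Gamma (1 + (f : ℝ) / 4096) = Γ at a b ⊢
  generalize (160 : ℝ) ^ ((f : ℝ) / 4096) = p at a b hp ⊢
  constructor
  · have h1 : u / (g + 4) ≤ e * u := by
      rw [div_le_iff₀ (by linarith)]
      nlinarith
    refine h1.trans ?_
    rw [le_div_iff₀ hp]
    linarith
  · have h1 : e * (u + 4) ≤ (u + 4) / g := by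
      rw [le_div_iff₀ g0]
      nlinarith
    refine le_trans ?_ h1
    rw [div_le_iff₀ hp]
    linarith

theorem rpowL_rec (R m k : ℕ) : ∀ (a : ℕ) (x : ℝ), (a : ℝ) / 2 ^ 256 ≤ x →
    ((Nat.rec (motive := fun _ => ℕ → ℕ) (fun a => a)
      (fun i ih a => forceN ((a * a) >>> 256) fun a2 =>
        forceN (bif Nat.beq ((m >>> i) % 2) 1 then (a2 * R) >>> 32 else a2) ih) k a : ℕ) : ℝ) /
      2 ^ 256 ≤ x ^ 2 ^ k * ((R : ℝ) / 2 ^ 32) ^ (m % 2 ^ k) := by
  induction k with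
  | zero => intro a x h; simpa [Nat.mod_one] using h
  | succ k ih =>
    intro a x h
    have hs : (0 : ℝ) < 2 ^ 256 := pow_pos two_pos _
    have h2 := mul_lo (k := 256) hs h h
    have h3 := mul_lo (k := 32) (b := R) hs h2 le_rfl
    have e := ih (bif Nat.beq ((m >>> k) % 2) 1 then (((a * a) >>> 256) * R) >>> 32
      else (a * a) >>> 256) (x * x * ((R : ℝ) / 2 ^ 32) ^ (m / 2 ^ k % 2)) (by
        rw [Nat.shiftRight_eq_div_pow m k]
        rcases Nat.mod_two_eq_zero_or_one (m / 2 ^ k) with h | h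
        · rw [h, pow_zero, mul_one]; exact h2
        · rw [h, pow_one]; exact h3)
    simp only [forceN_eq] at e ⊢
    refine e.trans (le_of_eq ?_)
    rw [Nat.mod_pow_succ]
    generalize (R : ℝ) / 2 ^ 32 = r
    rw [pow_succ 2 k]
    generalize 2 ^ k = n
    ring

theorem rpowH_rec (R m k : ℕ) : ∀ (a : ℕ) (x : ℝ), 0 ≤ x → x ≤ (a : ℝ) / 2 ^ 256 →
    x ^ 2 ^ k * ((R : ℝ) / 2 ^ 32) ^ (m % 2 ^ k) ≤
    ((Nat.rec (motive := fun _ => ℕ → ℕ) (fun a => a)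
      (fun i ih a => forceN ((a * a) >>> 256 + 1) fun a2 =>
        forceN (bif Nat.beq ((m >>> i) % 2) 1 then (a2 * R) >>> 32 + 1 else a2) ih) k a : ℕ) : ℝ) /
      2 ^ 256 := by
  induction k with
  | zero => intro a x _ h; simpa [Nat.mod_one] using h
  | succ k ih =>
    intro a x hx h
    have hs : (0 : ℝ) < 2 ^ 256 := pow_pos two_pos _
    have hr : (0 : ℝ) ≤ (R : ℝ) / 2 ^ 32 := by positivity
    have h2 := mul_hi (k := 256) hs hx h h
    have h3 := mul_hi (k := 32) (b := R) hs hr h2 le_rfl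
    have e := ih (bif Nat.beq ((m >>> k) % 2) 1 then (((a * a) >>> 256 + 1) * R) >>> 32 + 1
      else (a * a) >>> 256 + 1) (x * x * ((R : ℝ) / 2 ^ 32) ^ (m / 2 ^ k % 2))
      (mul_nonneg (mul_nonneg hx hx) (pow_nonneg hr _)) (by
        rw [Nat.shiftRight_eq_div_pow m k]
        rcases Nat.mod_two_eq_zero_or_one (m / 2 ^ k) with h | h
        · rw [h, pow_zero, mul_one]; exact h2
        · rw [h, pow_one]; exact h3)
    simp only [forceN_eq] at e ⊢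
    refine le_trans (le_of_eq ?_) e
    rw [Nat.mod_pow_succ]
    generalize (R : ℝ) / 2 ^ 32 = r
    rw [pow_succ 2 k]
    generalize 2 ^ k = n
    ring

end ZGamX

open ZGamX

variable {G : ℕ → ℕ} {R m : ℕ}

theorem Cc_pos (hR : 0 < R) : 0 < Cc R := by
  unfold Cc
  have hr : (0 : ℝ) < (R : ℝ) / 2 ^ 32 := by positivity
  exact div_pos (by norm_num) (pow_pos hr _)

theorem gamOK_of {l : List ℕ} (h : ∀ c, c < 16 → gamChk c (nth l c) = true) :
    GamOK (gamGet l) := by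
  intro f hf
  have h1 := all_rec (f := fun i => Nat.beq (fld (nth l (f / 256)) 240 i)
    (gamE (256 * (f / 256) + i))) (n := 256) (h (f / 256) (by omega)) (f % 256) (by omega)
  rw [Nat.div_add_mod] at h1
  exact Nat.eq_of_beq_eq_true h1

theorem rpow_encl (hm : m < 65536) : (rpowL R m : ℝ) / 2 ^ 256 ≤ ((R : ℝ) / 2 ^ 32) ^ m ∧
    ((R : ℝ) / 2 ^ 32) ^ m ≤ (rpowH R m : ℝ) / 2 ^ 256 := by
  have hs : (0 : ℝ) < 2 ^ 256 := pow_pos two_pos _
  have e : ((1 <<< 256 : ℕ) : ℝ) / 2 ^ 256 = 1 := by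
    rw [Nat.shiftLeft_eq, one_mul, Nat.cast_pow, Nat.cast_ofNat, div_self hs.ne']
  have hmm : m % 2 ^ 16 = m := Nat.mod_eq_of_lt hm
  have a := rpowL_rec R m 16 (1 <<< 256) 1 e.le
  have b := rpowH_rec R m 16 (1 <<< 256) 1 zero_le_one e.ge
  rw [one_pow, one_mul, hmm] at a b
  exact ⟨a, b⟩

theorem muL0_le (hG : GamOK G) (hR : 0 < R) {rl : ℕ}
    (h : (rl : ℝ) / 2 ^ 256 ≤ ((R : ℝ) / 2 ^ 32) ^ m) :
    (muL0 G rl m : ℝ) / 2 ^ 256 ≤ mu (Cc R) (m / 4096) := by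
  have hf : m % 4096 < 4096 := Nat.mod_lt _ (by norm_num)
  have hs : (0 : ℝ) < 2 ^ 256 := pow_pos two_pos _
  rw [mu_eq hR]
  unfold muL0
  rw [hG _ hf, hG 0 (by norm_num)]
  have a := (ratio_encl hf).1
  have g0 := gam_zero_pos
  generalize Real.Gamma (1 + ((m % 4096 : ℕ) : ℝ) / 4096) /
    160 ^ (((m % 4096 : ℕ) : ℝ) / 4096) = Γ at a ⊢
  generalize rise (m % 4096) (m / 4096) = c
  generalize gamE (m % 4096) = u at a ⊢
  generalize gamE 0 = g at a g0 ⊢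
  generalize m / 4096 = I
  have b := div_le' (u * c * rl) ((g + 4) * 655360 ^ I)
  generalize (2 : ℝ) ^ 256 = s at h hs ⊢
  refine (div_le_div_of_nonneg_right b hs.le).trans ?_
  have e : ((u * c * rl : ℕ) : ℝ) / (((g + 4) * 655360 ^ I : ℕ) : ℝ) / s =
      (u : ℝ) / (g + 4) * (c * (rl / s) / 655360 ^ I) := by
    push_cast
    field_simp
  rw [e]
  refine mul_le_mul a ?_ (by positivity) (le_trans (by positivity) a)
  gcongr

theorem muH0_ge (hG : GamOK G) (hR : 0 < R) {rh : ℕ}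
    (h : ((R : ℝ) / 2 ^ 32) ^ m ≤ (rh : ℝ) / 2 ^ 256) :
    mu (Cc R) (m / 4096) ≤ (muH0 G rh m : ℝ) / 2 ^ 256 := by
  have hf : m % 4096 < 4096 := Nat.mod_lt _ (by norm_num)
  have hs : (0 : ℝ) < 2 ^ 256 := pow_pos two_pos _
  rw [mu_eq hR]
  unfold muH0
  rw [hG _ hf, hG 0 (by norm_num)]
  have a := (ratio_encl hf).2
  have g0 := gam_zero_pos
  generalize Real.Gamma (1 + ((m % 4096 : ℕ) : ℝ) / 4096) /
    160 ^ (((m % 4096 : ℕ) : ℝ) / 4096) = Γ at a ⊢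
  generalize rise (m % 4096) (m / 4096) = c
  generalize gamE (m % 4096) = u at a ⊢
  generalize gamE 0 = g at a g0 ⊢
  generalize m / 4096 = I
  have b := div_lt' ((u + 4) * c * rh) (g * 655360 ^ I)
  have hr : (0 : ℝ) ≤ ((R : ℝ) / 2 ^ 32) ^ m := by positivity
  generalize ((R : ℝ) / 2 ^ 32) ^ m = p at h hr ⊢
  generalize (2 : ℝ) ^ 256 = s at h hs ⊢
  refine le_trans ?_ (div_le_div_of_nonneg_right b hs.le)
  have e : (((u + 4) * c * rh : ℕ) : ℝ) / ((g * 655360 ^ I : ℕ) : ℝ) / s =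
      ((u : ℝ) + 4) / g * (c * (rh / s) / 655360 ^ I) := by
    push_cast
    field_simp
  rw [e]
  refine mul_le_mul a ?_ (by positivity) (by positivity)
  gcongr

theorem mL40_le (hG : GamOK G) (hR : 0 < R) (hm : m < 65536) :
    rr (mL40 G R m) ≤ mu (Cc R) (m / 4096) := by
  have h := muL0_le hG hR (rpow_encl (R := R) hm).1
  refine le_trans ?_ h
  unfold mL40 rr muL
  have a := shr_le (muL0 G (rpowL R m) m) 216
  have e : (2 : ℝ) ^ 256 = 2 ^ 216 * 2 ^ 40 := by rw [← pow_add]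
  rw [e, ← div_div]
  exact div_le_div_of_nonneg_right a (pow_pos two_pos _).le

theorem mH40_ge (hG : GamOK G) (hR : 0 < R) (hm : m < 65536) :
    mu (Cc R) (m / 4096) ≤ rr (mH40 G R m) := by
  have h := muH0_ge hG hR (rpow_encl (R := R) hm).2
  refine h.trans ?_
  unfold mH40 rr muH
  have a := shr_lt (muH0 G (rpowH R m) m) 216
  have e : (2 : ℝ) ^ 256 = 2 ^ 216 * 2 ^ 40 := by rw [← pow_add]
  rw [e, ← div_div]
  exact div_le_div_of_nonneg_right a (pow_pos two_pos _).le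

namespace ZGamX

/-- The lists enclose the first `i` values of `A`, the largest index first. -/
def Inv (A : ℕ → ℝ) (i : ℕ) (la lr : List ℕ) : Prop :=
  la.length = i ∧ lr.length = i ∧ ∀ j, j < i → (nth la (i - 1 - j) : ℝ) ≤ A j ∧
    A j ≤ (nth la (i - 1 - j) : ℝ) + nth lr (i - 1 - j)

theorem Inv.step {A : ℕ → ℝ} {i lo hi : ℕ} {la lr : List ℕ} (h : Inv A i la lr)
    (h1 : (lo : ℝ) ≤ A i) (h2 : A i ≤ hi) : Inv A (i + 1) (lo :: la) ((hi - lo) :: lr) := by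
  obtain ⟨a, b, c⟩ := h
  refine ⟨by rw [List.length_cons, a], by rw [List.length_cons, b], fun j hj => ?_⟩
  rcases Nat.lt_succ_iff_lt_or_eq.1 hj with hj | rfl
  · have e : i + 1 - 1 - j = (i - 1 - j) + 1 := by omega
    rw [e]
    exact c j hj
  · have e : j + 1 - 1 - j = 0 := by omega
    rw [e]
    refine ⟨h1, h2.trans ?_⟩
    have : hi ≤ lo + (hi - lo) := by omega
    exact_mod_cast this

theorem mu_pos (hR : 0 < R) {a : ℝ} (ha : 0 ≤ a) : 0 < mu (Cc R) a :=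
  mul_pos (Real.Gamma_pos_of_pos (by linarith)) (Real.rpow_pos_of_pos (Cc_pos hR) _)

theorem coef_lo {x y fa P : ℕ} {u v s : ℝ} (hs : 0 < s) (hv : 0 < v) (hf : 0 < fa)
    (hx : (x : ℝ) / s ≤ u) (hy : v ≤ (y : ℝ) / s) :
    (((x <<< P) / (y * fa) : ℕ) : ℝ) ≤ u / v * 2 ^ P / fa := by
  refine (div_le' _ _).trans ?_
  have hf' : (0 : ℝ) < fa := by exact_mod_cast hf
  have hy' : (0 : ℝ) < y := by
    have := hv.trans_le hy
    exact (div_pos_iff_of_pos_right hs).1 this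
  have e : ((x <<< P : ℕ) : ℝ) / ((y * fa : ℕ) : ℝ) = (x / s) / (y / s) * 2 ^ P / fa := by
    rw [Nat.shiftLeft_eq]
    push_cast
    field_simp
  rw [e]
  have hu : 0 ≤ u := le_trans (by positivity) hx
  gcongr

theorem coef_hi {x y fa P : ℕ} {u v s : ℝ} (hs : 0 < s) (hy' : 0 < y) (hf : 0 < fa)
    (hx : u ≤ (x : ℝ) / s) (hy : (y : ℝ) / s ≤ v) :
    u / v * 2 ^ P / fa ≤ (((x <<< P) / (y * fa) + 1 : ℕ) : ℝ) := by
  refine le_trans ?_ (div_lt' _ _)
  have hf' : (0 : ℝ) < fa := by exact_mod_cast hf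
  have hy'' : (0 : ℝ) < y := by exact_mod_cast hy'
  have e : ((x <<< P : ℕ) : ℝ) / ((y * fa : ℕ) : ℝ) = (x / s) / (y / s) * 2 ^ P / fa := by
    rw [Nat.shiftLeft_eq]
    push_cast
    field_simp
  rw [e]
  gcongr

theorem coef_rec (hG : GamOK G) (hR : 0 < R) {r2l r2h m0l m0h : ℕ} (P : ℕ)
    (h2l : (r2l : ℝ) / 2 ^ 256 ≤ ((R : ℝ) / 2 ^ 32) ^ (2 * m))
    (h2h : ((R : ℝ) / 2 ^ 32) ^ (2 * m) ≤ (r2h : ℝ) / 2 ^ 256) (hL : 0 < m0l)
    (h0l : (m0l : ℝ) / 2 ^ 256 ≤ mu (Cc R) (m / 4096))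
    (h0h : mu (Cc R) (m / 4096) ≤ (m0h : ℝ) / 2 ^ 256) (n : ℕ) :
    ∀ (i rl rh fa : ℕ) (la lr : List ℕ),
      (rl : ℝ) / 2 ^ 256 ≤ ((R : ℝ) / 2 ^ 32) ^ ((2 * i + 1) * m) →
      ((R : ℝ) / 2 ^ 32) ^ ((2 * i + 1) * m) ≤ (rh : ℝ) / 2 ^ 256 →
      fa = 4 ^ i * (2 * i + 1).factorial →
      Inv (fun j => aa (Cc R) (m / 4096) j * 2 ^ P / 4 ^ j) i la lr →
      ∀ w : List ℕ × List ℕ, w = Nat.rec
        (motive := fun _ => ℕ → ℕ → ℕ → ℕ → List ℕ → List ℕ → List ℕ × List ℕ)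
        (fun _ _ _ _ la lr => (la, lr))
        (fun _ ih i rl rh fa la lr =>
          ih (i + 1) ((rl * r2l) >>> 256) ((rh * r2h) >>> 256 + 1)
            (fa * (4 * (2 * i + 2) * (2 * i + 3)))
            ((muL0 G rl ((2 * i + 1) * m) <<< P) / (m0h * fa) :: la)
            (((muH0 G rh ((2 * i + 1) * m) <<< P) / (m0l * fa) + 1 -
              (muL0 G rl ((2 * i + 1) * m) <<< P) / (m0h * fa)) :: lr))
        n i rl rh fa la lr →
      Inv (fun j => aa (Cc R) (m / 4096) j * 2 ^ P / 4 ^ j) (i + n) w.1 w.2 := by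
  induction n with
  | zero =>
    intro i rl rh fa la lr _ _ _ h w hw
    rw [hw]
    exact h
  | succ n ih =>
    intro i rl rh fa la lr hl hh hfa h w hw
    have hs : (0 : ℝ) < 2 ^ 256 := pow_pos two_pos _
    have hr : (0 : ℝ) ≤ (R : ℝ) / 2 ^ 32 := by positivity
    have hf : 0 < fa := by rw [hfa]; positivity
    have ep : ((R : ℝ) / 2 ^ 32) ^ ((2 * (i + 1) + 1) * m) =
        ((R : ℝ) / 2 ^ 32) ^ ((2 * i + 1) * m) * ((R : ℝ) / 2 ^ 32) ^ (2 * m) := by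
      rw [← pow_add]
      congr 1
      ring
    have hA : aa (Cc R) (m / 4096) i * 2 ^ P / 4 ^ i =
        mu (Cc R) ((((2 * i + 1) * m : ℕ) : ℝ) / 4096) / mu (Cc R) (m / 4096) * 2 ^ P / fa := by
      have e : (((2 * i + 1) * m : ℕ) : ℝ) / 4096 = (2 * i + 1) * ((m : ℝ) / 4096) := by
        push_cast
        ring
      rw [e, hfa]
      unfold aa
      push_cast
      ring
    have hv : 0 < mu (Cc R) (m / 4096) := mu_pos hR (by positivity)
    have e : i + (n + 1) = i + 1 + n := by ring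
    rw [e]
    refine ih (i + 1) _ _ _ _ _ ?_ ?_ ?_ ?_ w hw
    · rw [ep]
      exact mul_lo hs hl h2l
    · rw [ep]
      exact mul_hi hs (pow_nonneg hr _) hh h2h
    · have e2 : 2 * (i + 1) + 1 = 2 * i + 1 + 1 + 1 := by ring
      rw [hfa, e2, Nat.factorial_succ (2 * i + 1 + 1), Nat.factorial_succ (2 * i + 1)]
      ring
    · refine h.step ?_ ?_
      · rw [hA]
        exact coef_lo hs hv hf (muL0_le hG hR hl) h0h
      · rw [hA]
        exact coef_hi hs hL hf (muH0_ge hG hR hh) h0l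

end ZGamX

/-- The enclosures of the scaled Taylor coefficients at zero, listed from the top. -/
theorem coefs_spec (hG : GamOK G) (hR : 0 < R) (h0 : 0 < m) (hm : m < 2048)
    (hL : 0 < muL G R m) (P n : ℕ) :
    (coefs G R m P n).1.length = n ∧ (coefs G R m P n).2.length = n ∧ ∀ i, i < n →
      (nth (coefs G R m P n).1 (n - 1 - i) : ℝ) ≤ aa (Cc R) (m / 4096) i * 2 ^ P / 4 ^ i ∧
      aa (Cc R) (m / 4096) i * 2 ^ P / 4 ^ i ≤
        (nth (coefs G R m P n).1 (n - 1 - i) : ℝ) + nth (coefs G R m P n).2 (n - 1 - i) := by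
  have _ := h0
  have h1 := rpow_encl (R := R) (m := m) (by omega)
  have h2 := rpow_encl (R := R) (m := 2 * m) (by omega)
  have e : (2 * 0 + 1) * m = m := by ring
  have h := coef_rec hG hR P h2.1 h2.2 hL (muL0_le hG hR h1.1) (muH0_ge hG hR h1.2) n 0
    (rpowL R m) (rpowH R m) 1 [] [] (by rw [e]; exact h1.1) (by rw [e]; exact h1.2) rfl
    ⟨rfl, rfl, fun j hj => absurd hj (Nat.not_lt_zero j)⟩ (coefs G R m P n)
    (by unfold coefs; simp only [forceN_eq]; rfl)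
  rw [Nat.zero_add] at h
  exact h

end Pool.Agent.MP_39fec4_gt.K
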