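import Pool.Agent.MP_39fec4_gt.ZGam
import Pool.Agent.MP_39fec4_gt.FTower

set_option autoImplicit false

/-! Soundness of the tables of Taylor coefficients. -/

namespace Pool.Agent.MP_39fec4_gt.K

open Set Full

namespace ZVertX

open Polynomial

theorem band_cases (y : ℕ) : (y < 4398046511104 ∧ bandOf y = 0) ∨
    (4398046511104 ≤ y ∧ y < 17592186044416 ∧ bandOf y = 1) ∨
    (17592186044416 ≤ y ∧ y < 70368744177664 ∧ bandOf y = 2) ∨
    (70368744177664 ≤ y ∧ y < 281474976710656 ∧ bandOf y = 3) ∨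
    (281474976710656 ≤ y ∧ y < 1125899906842624 ∧ bandOf y = 4) ∨
    (1125899906842624 ≤ y ∧ bandOf y = 5) := by
  simp only [bandOf, Bool.cond_eq_ite, Nat.blt_eq]
  split_ifs <;> omega

theorem vidx_eq (y : ℕ) : vidx y = y / 2 ^ (39 + bandOf y) + 4 * 2 ^ bandOf y - 4 := by
  simp only [vidx, forceN_eq, Nat.shiftRight_eq_div_pow, Nat.shiftLeft_eq]

theorem vctr_eq (y : ℕ) : vctr y = (2 * (y / 2 ^ (39 + bandOf y)) + 1) * 2 ^ (38 + bandOf y) := by
  simp only [vctr, forceN_eq, Nat.shiftRight_eq_div_pow, Nat.shiftLeft_eq]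

theorem vhw_eq (y : ℕ) : vhw y = 2 ^ (38 + bandOf y) := by
  simp only [vhw, Nat.shiftLeft_eq, one_mul]

theorem vidx_mono {y y' : ℕ} (h : y ≤ y') : vidx y ≤ vidx y' := by
  rw [vidx_eq, vidx_eq]
  rcases band_cases y with a | a | a | a | a | a <;>
    rcases band_cases y' with b | b | b | b | b | b <;>
    simp only [a, b, Nat.reduceAdd, Nat.reducePow, Nat.reduceMul] <;> omega

theorem cell_pos {y : ℕ} (h : y < 4503599627370496) : ∃ i, bandOf y < 6 ∧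
    y / 2 ^ (39 + bandOf y) = bandA (bandOf y) + i ∧ vidx y = bandI (bandOf y) + i ∧
    i < 8 <<< bandOf y - bandA (bandOf y) := by
  refine ⟨y / 2 ^ (39 + bandOf y) - bandA (bandOf y), ?_⟩
  rw [vidx_eq]
  have e0 : bandA 0 = 0 := rfl
  have e1 : bandA 1 = 4 := rfl
  have e2 : bandA 2 = 8 := rfl
  have e3 : bandA 3 = 16 := rfl
  have e4 : bandA 4 = 32 := rfl
  have e5 : bandA 5 = 64 := rfl
  rcases band_cases y with a | a | a | a | a | a <;>
    simp only [a, bandI, e0, e1, e2, e3, e4, e5, Nat.shiftLeft_eq, Nat.reduceAdd, Nat.reducePow,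
      Nat.reduceMul] <;> omega

/-- The polynomial built by the Horner scheme. -/
noncomputable def pol (l : List ℝ) (Q : ℝ[X]) : ℝ[X] := l.foldl (fun Q a => Q * X + C a) Q

theorem pol_eq (l : List ℝ) (Q : ℝ[X]) : pol l Q = Q * X ^ l.length +
    ∑ i ∈ Finset.range l.length, C (l.getD (l.length - 1 - i) 0) * X ^ i := by
  induction l generalizing Q with
  | nil => simp [pol]
  | cons a l ih =>
    have e : pol (a :: l) Q = pol l (Q * X + C a) := rfl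
    rw [e, ih, List.length_cons, Finset.sum_range_succ, Nat.add_sub_cancel, Nat.sub_self,
      List.getD_cons_zero]
    have : ∑ i ∈ Finset.range l.length, C ((a :: l).getD (l.length - i) 0) * X ^ i =
        ∑ i ∈ Finset.range l.length, C (l.getD (l.length - 1 - i) 0) * X ^ i := by
      refine Finset.sum_congr rfl fun i hi => ?_
      have hi' := Finset.mem_range.1 hi
      rw [show l.length - i = (l.length - 1 - i) + 1 by omega, List.getD_cons_succ]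
    rw [this]
    ring

/-- Taylor coefficient. -/
noncomputable def tc (Y : ℝ) (Q : ℝ[X]) (j : ℕ) : ℝ := (taylor Y Q).coeff j

theorem tc_zero (Y : ℝ) (Q : ℝ[X]) (a : ℝ) : tc Y (Q * X + C a) 0 = tc Y Q 0 * Y + a := by
  simp [tc, taylor_mul, mul_add]

theorem tc_succ (Y : ℝ) (Q : ℝ[X]) (a : ℝ) (j : ℕ) :
    tc Y (Q * X + C a) (j + 1) = tc Y Q (j + 1) * Y + tc Y Q j := by
  simp only [tc, map_add, taylor_mul, taylor_X, taylor_C, mul_add, coeff_add, coeff_mul_X,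
    coeff_mul_C, coeff_C_succ]
  ring

theorem tc_mono (Y a : ℝ) (i j : ℕ) : tc Y (C a * X ^ i) j = a * (i.choose j) * Y ^ (i - j) := by
  rw [tc, taylor_mul, taylor_C, taylor_pow, taylor_X, coeff_C_mul, coeff_X_add_C_pow]
  ring

theorem tc_pol (Y t : ℝ) (l : List ℝ) (j : ℕ) : tc Y (pol l (C t)) j =
    t * (l.length.choose j) * Y ^ (l.length - j) + ∑ i ∈ Finset.range l.length,
      l.getD (l.length - 1 - i) 0 * (i.choose j) * Y ^ (i - j) := by
  rw [pol_eq, ← tc_mono]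
  simp only [← tc_mono]
  simp only [tc, map_add, map_sum, coeff_add, finsetSum_coeff]

/-- The signed list. -/
noncomputable def sl : List ℕ → Bool → List ℝ
  | [], _ => []
  | a :: l, od => (bif od then -(a : ℝ) else a) :: sl l (!od)

theorem sl_length (l : List ℕ) (od : Bool) : (sl l od).length = l.length := by
  induction l generalizing od with
  | nil => rfl
  | cons a l ih => simp [sl, ih]

theorem sl_getD (l : List ℕ) (od : Bool) (t : ℕ) :
    (sl l od).getD t 0 = (-1) ^ (t + od.toNat) * (l.getD t 0 : ℕ) := by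
  induction l generalizing od t with
  | nil => simp [sl]
  | cons a l ih =>
    cases t with
    | zero => cases od <;> simp [sl]
    | succ t =>
      rw [sl, List.getD_cons_succ, List.getD_cons_succ, ih]
      cases od <;> simp [pow_succ]

/-- Five numbers are the first Taylor coefficients. -/
def Five (Y : ℝ) (Q : ℝ[X]) (d0 d1 d2 d3 d4 : ℝ) : Prop :=
  d0 = tc Y Q 0 ∧ d1 = tc Y Q 1 ∧ d2 = tc Y Q 2 ∧ d3 = tc Y Q 3 ∧ d4 = tc Y Q 4

theorem Five.step {Y : ℝ} {Q : ℝ[X]} {d0 d1 d2 d3 d4 : ℝ} (h : Five Y Q d0 d1 d2 d3 d4) (a : ℝ) :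
    Five Y (Q * X + C a) (d0 * Y + a) (d1 * Y + d0) (d2 * Y + d1) (d3 * Y + d2)
      (d4 * Y + d3) := by
  obtain ⟨rfl, rfl, rfl, rfl, rfl⟩ := h
  exact ⟨(tc_zero _ _ _).symm, (tc_succ _ _ _ 0).symm, (tc_succ _ _ _ 1).symm,
    (tc_succ _ _ _ 2).symm, (tc_succ _ _ _ 3).symm⟩

theorem five_C (Y t : ℝ) : Five Y (C t) t 0 0 0 0 := by
  simp [Five, tc, coeff_C]

theorem horn_spec {α : Type} (l : List ℕ) (od : Bool) (Y : ℤ) (k : ℤ → ℤ → ℤ → ℤ → ℤ → α) :
    ∃ e0 e1 e2 e3 e4 : ℤ, horn l od Y k = k e0 e1 e2 e3 e4 ∧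
      Five Y (pol (sl l od) (C 0)) e0 e1 e2 e3 e4 := by
  have key : ∀ (l : List ℕ) (od : Bool) (Q : ℝ[X]) (d0 d1 d2 d3 d4 : ℤ),
      Five Y Q d0 d1 d2 d3 d4 → ∃ e0 e1 e2 e3 e4 : ℤ,
      lf (α := Bool → Int → Int → Int → Int → Int → α) l (fun _ => k)
        (fun a ih od d0 d1 d2 d3 d4 =>
          forceI (d4 * Y + d3) fun e4 => forceI (d3 * Y + d2) fun e3 =>
          forceI (d2 * Y + d1) fun e2 => forceI (d1 * Y + d0) fun e1 =>
          Bool.casesOn (motive := fun _ => α) od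
            (forceI (d0 * Y + Int.ofNat a) fun e0 => ih true e0 e1 e2 e3 e4)
            (forceI (d0 * Y - Int.ofNat a) fun e0 => ih false e0 e1 e2 e3 e4))
        od d0 d1 d2 d3 d4 = k e0 e1 e2 e3 e4 ∧ Five Y (pol (sl l od) Q) e0 e1 e2 e3 e4 := by
    intro l
    induction l with
    | nil => exact fun od Q d0 d1 d2 d3 d4 h => ⟨d0, d1, d2, d3, d4, rfl, h⟩
    | cons a l ih =>
      intro od Q d0 d1 d2 d3 d4 h
      rw [lf_cons]
      simp only [forceI_eq] at ih ⊢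
      cases od
      · refine ih true (Q * X + C (a : ℝ)) _ _ _ _ _ ?_
        have := h.step (a : ℝ)
        simpa using this
      · refine ih false (Q * X + C (-(a : ℝ))) _ _ _ _ _ ?_
        have := h.step (-(a : ℝ))
        simpa [sub_eq_add_neg] using this
  exact key l od (C 0) 0 0 0 0 0 (by simpa using five_C Y 0)

theorem hornN_spec {α : Type} (l : List ℕ) (top Y : ℕ) (k : ℕ → ℕ → ℕ → ℕ → ℕ → α) :
    ∃ e0 e1 e2 e3 e4 : ℕ, hornN l top Y k = k e0 e1 e2 e3 e4 ∧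
      Five Y (pol (l.map (↑)) (C (top : ℝ))) e0 e1 e2 e3 e4 := by
  have key : ∀ (l : List ℕ) (Q : ℝ[X]) (d0 d1 d2 d3 d4 : ℕ),
      Five Y Q d0 d1 d2 d3 d4 → ∃ e0 e1 e2 e3 e4 : ℕ,
      lf (α := Nat → Nat → Nat → Nat → Nat → α) l k
        (fun a ih d0 d1 d2 d3 d4 =>
          forceN (d4 * Y + d3) fun e4 => forceN (d3 * Y + d2) fun e3 =>
          forceN (d2 * Y + d1) fun e2 =>
          forceN (d1 * Y + d0) fun e1 => forceN (d0 * Y + a) fun e0 => ih e0 e1 e2 e3 e4)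
        d0 d1 d2 d3 d4 = k e0 e1 e2 e3 e4 ∧ Five Y (pol (l.map (↑)) Q) e0 e1 e2 e3 e4 := by
    intro l
    induction l with
    | nil => exact fun Q d0 d1 d2 d3 d4 h => ⟨d0, d1, d2, d3, d4, rfl, h⟩
    | cons a l ih =>
      intro Q d0 d1 d2 d3 d4 h
      rw [lf_cons]
      simp only [forceN_eq] at ih ⊢
      refine ih (Q * X + C (a : ℝ)) _ _ _ _ _ ?_
      have := h.step (a : ℝ)
      simpa using this
  exact key l (C (top : ℝ)) top 0 0 0 0 (by simpa using five_C Y top)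

theorem drop_getD (l : List ℕ) {n N i : ℕ} (hN : N + 2 ≤ n) (hi : i < N + 1) :
    (l.drop (n - N - 1)).getD (N + 1 - 1 - i) 0 = nth l (n - 1 - i) := by
  rw [nth_eq, List.getD_eq_getElem?_getD, List.getD_eq_getElem?_getD, List.getElem?_drop]
  congr 2
  omega

theorem scale (a y : ℝ) (P i j : ℕ) :
    a * (i.choose j : ℝ) * (y / 4) ^ (i - j) * (2 ^ P / 4 ^ j) =
      a * 2 ^ P / 4 ^ i * (i.choose j : ℝ) * y ^ (i - j) := by
  rcases lt_or_ge i j with h | h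
  · simp [Nat.choose_eq_zero_of_lt h]
  · obtain ⟨t, rfl⟩ := Nat.exists_eq_add_of_le h
    rw [Nat.add_sub_cancel_left, div_pow, pow_add]
    field_simp

/-- The analytic estimate. -/
theorem est {Cq q : ℝ} (hC : 0 < Cq) (hq : 0 < q) {la lr : List ℕ} {n N P : ℕ}
    (h1 : la.length = n) (h2 : lr.length = n)
    (h3 : ∀ i, i < n → (nth la (n - 1 - i) : ℝ) ≤ aa Cq q i * 2 ^ P / 4 ^ i ∧
      aa Cq q i * 2 ^ P / 4 ^ i ≤ (nth la (n - 1 - i) : ℝ) + nth lr (n - 1 - i))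
    (hN : N + 2 ≤ n) {j : ℕ} (hj : j ≤ N) {Y Y' : ℝ} (hY : 0 ≤ Y) (hYY : Y ≤ Y') :
    |Full.gg Cq j q (Y / 4) / (j.factorial : ℝ) * (2 ^ P / 4 ^ j) -
      tc Y (pol (sl (drp la (n - N - 1)) (Nat.beq (N % 2) 1)) (C 0)) j| ≤
      tc Y' (pol ((drp lr (n - N - 1)).map (↑))
        (C ((nth la (n - N - 2) + nth lr (n - N - 2) : ℕ) : ℝ))) j := by
  have l1 : (la.drop (n - N - 1)).length = N + 1 := by rw [List.length_drop]; omega
  have l2 : (lr.drop (n - N - 1)).length = N + 1 := by rw [List.length_drop]; omega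
  rw [tc_pol, tc_pol, drp_eq, drp_eq, sl_length, List.length_map, l1, l2, zero_mul, zero_mul,
    zero_add]
  have hs := gg_series hC hq (y := Y / 4) (by positivity) hj
  have hp : (0 : ℝ) < 2 ^ P / 4 ^ j := by positivity
  have hs2 := mul_le_mul_of_nonneg_right hs hp.le
  rw [← abs_of_pos hp, ← abs_mul, abs_of_pos hp, sub_mul, Finset.sum_mul, scale] at hs2
  have hpw : ∀ t : ℕ, Y ^ t ≤ Y' ^ t := fun t => pow_le_pow_left₀ hY hYY t
  have b1 : aa Cq q (N + 1) * 2 ^ P / 4 ^ (N + 1) * ((N + 1).choose j : ℝ) * Y ^ (N + 1 - j) ≤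
      ((nth la (n - N - 2) + nth lr (n - N - 2) : ℕ) : ℝ) * ((N + 1).choose j : ℝ) *
        Y' ^ (N + 1 - j) := by
    have := (h3 (N + 1) (by omega)).2
    rw [show n - 1 - (N + 1) = n - N - 2 by omega] at this
    push_cast
    exact mul_le_mul (mul_le_mul_of_nonneg_right this (by positivity)) (hpw _) (by positivity)
      (by positivity)
  have b2 : |∑ i ∈ Finset.range (N + 1),
      (-1) ^ i * aa Cq q i * (i.choose j : ℝ) * (Y / 4) ^ (i - j) * (2 ^ P / 4 ^ j) -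
      ∑ i ∈ Finset.range (N + 1),
        (sl (la.drop (n - N - 1)) (Nat.beq (N % 2) 1)).getD (N + 1 - 1 - i) 0 *
          (i.choose j : ℝ) * Y ^ (i - j)| ≤
      ∑ i ∈ Finset.range (N + 1), (List.map (↑) (lr.drop (n - N - 1)) : List ℝ).getD
        (N + 1 - 1 - i) 0 * (i.choose j : ℝ) * Y' ^ (i - j) := by
    rw [← Finset.sum_sub_distrib]
    refine (Finset.abs_sum_le_sum_abs _ _).trans (Finset.sum_le_sum fun i hi => ?_)
    have hi' := Finset.mem_range.1 hi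
    obtain ⟨c1, c2⟩ := h3 i (by omega)
    have e1 : (List.map (↑) (lr.drop (n - N - 1)) : List ℝ).getD (N + 1 - 1 - i) 0 =
        (nth lr (n - 1 - i) : ℝ) := by
      rw [← drop_getD lr hN hi', ← List.getD_map (f := (Nat.cast : ℕ → ℝ)), Nat.cast_zero]
    have e2 : ((-1 : ℝ)) ^ (N + 1 - 1 - i + (Nat.beq (N % 2) 1).toNat) = (-1) ^ i := by
      rw [neg_one_pow_eq_pow_mod_two, neg_one_pow_eq_pow_mod_two i]
      congr 1
      rcases Nat.mod_two_eq_zero_or_one N with h | h <;> rw [h]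
      · change (N + 1 - 1 - i + 0) % 2 = _
        omega
      · change (N + 1 - 1 - i + 1) % 2 = _
        omega
    rw [sl_getD, drop_getD la hN hi', e1, e2, scale]
    have e3 : (-1) ^ i * aa Cq q i * 2 ^ P / 4 ^ i * (i.choose j : ℝ) * Y ^ (i - j) -
        (-1) ^ i * (nth la (n - 1 - i) : ℝ) * (i.choose j : ℝ) * Y ^ (i - j) =
        (-1) ^ i * ((aa Cq q i * 2 ^ P / 4 ^ i - (nth la (n - 1 - i) : ℝ)) * (i.choose j : ℝ) *
          Y ^ (i - j)) := by ring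
    rw [e3, abs_mul, abs_pow, abs_neg, abs_one, one_pow, one_mul,
      abs_of_nonneg (mul_nonneg (mul_nonneg (sub_nonneg.2 c1) (by positivity)) (by positivity))]
    exact mul_le_mul (mul_le_mul_of_nonneg_right (by linarith) (by positivity)) (hpw _)
      (by positivity) (by positivity)
  exact (abs_sub_le _ _ _).trans (add_le_add (hs2.trans b1) b2)

theorem fin_est {g : ℝ} {d : ℤ} {P j a e : ℕ} (hP : 40 + 2 * j ≤ P)
    (h : |g * (2 ^ P / 4 ^ j) - d| ≤ e) (he : e ≤ 1 <<< (P - (40 + 2 * j)))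
    (ha : a = encV d (P - (40 + 2 * j))) (h0 : 0 < a) :
    |g - ri (Int.subNatNat a OFV)| ≤ 2 / 2 ^ 40 := by
  obtain ⟨s, rfl⟩ := Nat.exists_eq_add_of_le hP
  rw [Nat.add_sub_cancel_left] at he ha
  have e1 : Int.subNatNat a OFV = Int.shiftRight d s := by
    rw [Int.subNatNat_eq_coe]
    unfold encV at ha
    omega
  have h1 := ri_shr_le d s
  have h2 := ri_shr_lt d s
  rw [Nat.shiftLeft_eq, one_mul] at he
  have h3 : (e : ℝ) ≤ 2 ^ s := by exact_mod_cast he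
  have e2 : (2 : ℝ) ^ (40 + 2 * j + s) / 4 ^ j = 2 ^ 40 * 2 ^ s := by
    rw [pow_add, pow_add, pow_mul, show (2 : ℝ) ^ 2 = 4 by norm_num]
    field_simp
  have h4 : |g - ri d / 2 ^ s| ≤ 1 / 2 ^ 40 := by
    have e3 : g - ri d / 2 ^ s = (g * (2 ^ 40 * 2 ^ s) - d) / (2 ^ 40 * 2 ^ s) := by
      unfold ri
      field_simp
    rw [e2] at h
    rw [e3, abs_div, abs_of_pos (by positivity : (0 : ℝ) < 2 ^ 40 * 2 ^ s),
      div_le_div_iff₀ (by positivity) (by positivity)]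
    nlinarith [h.trans h3]
  rw [e1, abs_le] at *
  constructor <;> linarith [h4.1, h4.2]

theorem pk5_gen (a0 a1 a2 a3 a4 w : ℕ) :
    a0 + a1 <<< w + a2 <<< (w + w) + a3 <<< (w + w + w) + a4 <<< (w + w + w + w) =
      a0 + ((a1 + ((a2 + ((a3 + ((a4 + (0 <<< w)) <<< w)) <<< w)) <<< w)) <<< w) := by
  simp only [Nat.shiftLeft_eq, pow_add]
  ring

theorem pk5_fld {a0 a1 a2 a3 a4 : ℕ} (h0 : a0 < 281474976710656) (h1 : a1 < 281474976710656)
    (h2 : a2 < 281474976710656) (h3 : a3 < 281474976710656) (h4 : a4 < 281474976710656) :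
    fld (pk5 a0 a1 a2 a3 a4) 48 0 = a0 ∧ fld (pk5 a0 a1 a2 a3 a4) 48 1 = a1 ∧
    fld (pk5 a0 a1 a2 a3 a4) 48 2 = a2 ∧ fld (pk5 a0 a1 a2 a3 a4) 48 3 = a3 ∧
    fld (pk5 a0 a1 a2 a3 a4) 48 4 = a4 := by
  have e := pk5_gen a0 a1 a2 a3 a4 48
  simp only [Nat.reduceAdd] at e
  have p : (281474976710656 : ℕ) = 2 ^ 48 := by norm_num
  rw [p] at h0 h1 h2 h3 h4
  delta pk5
  rw [e]
  exact ⟨fld_low h0, (fld_high h0 0).trans (fld_low h1),
    (fld_high h0 1).trans ((fld_high h1 0).trans (fld_low h2)),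
    (fld_high h0 2).trans ((fld_high h1 1).trans ((fld_high h2 0).trans (fld_low h3))),
    (fld_high h0 3).trans ((fld_high h1 2).trans ((fld_high h2 1).trans
      ((fld_high h3 0).trans (fld_low h4))))⟩

theorem vrec_spec {l : List ℕ} {od : Bool} {P Y : ℕ} (h : 0 < vrec l od P Y) :
    ∃ d0 d1 d2 d3 d4 : ℤ, Five Y (pol (sl l od) (C 0)) d0 d1 d2 d3 d4 ∧
      (fld (vrec l od P Y) 48 0 = encV d0 (P - 40) ∧ 0 < encV d0 (P - 40)) ∧
      (fld (vrec l od P Y) 48 1 = encV d1 (P - 42) ∧ 0 < encV d1 (P - 42)) ∧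
      (fld (vrec l od P Y) 48 2 = encV d2 (P - 44) ∧ 0 < encV d2 (P - 44)) ∧
      (fld (vrec l od P Y) 48 3 = encV d3 (P - 46) ∧ 0 < encV d3 (P - 46)) ∧
      (fld (vrec l od P Y) 48 4 = encV d4 (P - 48) ∧ 0 < encV d4 (P - 48)) := by
  unfold vrec at h ⊢
  obtain ⟨d0, d1, d2, d3, d4, e, h5⟩ := horn_spec l od (Int.ofNat Y) fun d0 d1 d2 d3 d4 =>
    forceN (encV d0 (P - 40)) fun a0 => forceN (encV d1 (P - 42)) fun a1 =>
    forceN (encV d2 (P - 44)) fun a2 => forceN (encV d3 (P - 46)) fun a3 =>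
    forceN (encV d4 (P - 48)) fun a4 =>
    bif lt48 a0 && lt48 a1 && lt48 a2 && lt48 a3 && lt48 a4 then pk5 a0 a1 a2 a3 a4 else 0
  refine ⟨d0, d1, d2, d3, d4, by simpa using h5, ?_⟩
  rw [e] at h ⊢
  simp only [forceN_eq, Bool.cond_eq_ite, lt48, Bool.and_eq_true, Nat.blt_eq] at h ⊢
  split_ifs at h ⊢ with hc
  · obtain ⟨⟨⟨⟨⟨a0, b0⟩, a1, b1⟩, a2, b2⟩, a3, b3⟩, a4, b4⟩ := hc
    obtain ⟨f0, f1, f2, f3, f4⟩ := pk5_fld b0 b1 b2 b3 b4
    exact ⟨⟨f0, a0⟩, ⟨f1, a1⟩, ⟨f2, a2⟩, ⟨f3, a3⟩, f4, a4⟩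
  · exact absurd h (lt_irrefl 0)

theorem vband_sound {Cq q : ℝ} (hC : 0 < Cq) (hq : 0 < q) {la lr : List ℕ} {n P V b cnt N : ℕ}
    (h1 : la.length = n) (h2 : lr.length = n)
    (h3 : ∀ i, i < n → (nth la (n - 1 - i) : ℝ) ≤ aa Cq q i * 2 ^ P / 4 ^ i ∧
      aa Cq q i * 2 ^ P / 4 ^ i ≤ (nth la (n - 1 - i) : ℝ) + nth lr (n - 1 - i))
    (hP : 48 ≤ P) (h : vband la lr n P V b cnt N = true) {i : ℕ} (hi : i < cnt) {j : ℕ}
    (hj : j ≤ 4) :
    |Full.gg Cq j q ((((2 * (bandA b + i) + 1) <<< b : ℕ) : ℝ) / 4) / (j.factorial : ℝ) -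
      ri (vco (fld V 240 (bandI b + i)) j)| ≤ 2 / 2 ^ 40 := by
  unfold vband at h
  rw [Bool.and_eq_true, Bool.and_eq_true, Bool.and_eq_true, Bool.and_eq_true, Nat.ble_eq,
    Nat.ble_eq] at h
  obtain ⟨⟨⟨⟨hN, hN4⟩, -⟩, hE⟩, hR⟩ := h
  have hr := all_rec (f := fun i => forceN (vrec (drp la (n - N - 1)) (Nat.beq (N % 2) 1) P
        ((2 * (bandA b + i) + 1) <<< b)) (fun r =>
      Nat.blt 0 r && Nat.beq (fld V 240 (bandI b + i)) r)) hR i hi
  rw [forceN_eq, Bool.and_eq_true, Nat.blt_eq, Nat.beq_eq] at hr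
  obtain ⟨d0, d1, d2, d3, d4, hd, r0, r1, r2, r3, r4⟩ := vrec_spec hr.1
  obtain ⟨e0, e1, e2, e3, e4, he, hf⟩ := hornN_spec (drp lr (n - N - 1))
    (nth la (n - N - 2) + nth lr (n - N - 2)) ((2 * (bandA b + cnt)) <<< b)
    (fun e0 e1 e2 e3 e4 => Nat.ble e0 (1 <<< (P - 40)) && Nat.ble e1 (1 <<< (P - 42)) &&
      Nat.ble e2 (1 <<< (P - 44)) && Nat.ble e3 (1 <<< (P - 46)) && Nat.ble e4 (1 <<< (P - 48)))
  rw [he] at hE
  simp only [Bool.and_eq_true, Nat.ble_eq] at hE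
  obtain ⟨⟨⟨⟨c0, c1⟩, c2⟩, c3⟩, c4⟩ := hE
  have hYY : (((2 * (bandA b + i) + 1) <<< b : ℕ) : ℝ) ≤ (((2 * (bandA b + cnt)) <<< b : ℕ) : ℝ) := by
    rw [Nat.cast_le, Nat.shiftLeft_eq, Nat.shiftLeft_eq]
    exact Nat.mul_le_mul_right _ (by omega)
  have key := est hC hq h1 h2 h3 hN (hj.trans hN4) (Nat.cast_nonneg _) hYY
  rw [hr.2, vco]
  obtain ⟨u0, u1, u2, u3, u4⟩ := hd
  obtain ⟨w0, w1, w2, w3, w4⟩ := hf
  interval_cases j
  · rw [← u0, ← w0] at key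
    exact fin_est (by omega) key c0 r0.1 (r0.1 ▸ r0.2)
  · rw [← u1, ← w1] at key
    exact fin_est (by omega) key c1 r1.1 (r1.1 ▸ r1.2)
  · rw [← u2, ← w2] at key
    exact fin_est (by omega) key c2 r2.1 (r2.1 ▸ r2.2)
  · rw [← u3, ← w3] at key
    exact fin_est (by omega) key c3 r3.1 (r3.1 ▸ r3.2)
  · rw [← u4, ← w4] at key
    exact fin_est (by omega) key c4 r4.1 (r4.1 ▸ r4.2)

theorem vchk_elim {G : ℕ → ℕ} {R m P n nv V : ℕ} {Ns : List ℕ}
    (h : vchk G R m P n nv V Ns = true) : 48 ≤ P ∧ 0 < m ∧ m < 2048 ∧ 0 < R ∧ 0 < muL G R m ∧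
      ∀ j, j < 6 → bandC nv j = 0 ∨
        vband (coefs G R m P n).1 (coefs G R m P n).2 n P V j (bandC nv j) (nth Ns j) = true := by
  unfold vchk at h
  generalize coefs G R m P n = c at h ⊢
  obtain ⟨la, lr⟩ := c
  rw [Bool.and_eq_true, Bool.and_eq_true, Bool.and_eq_true, Bool.and_eq_true, Bool.and_eq_true,
    Bool.and_eq_true, Nat.ble_eq, Nat.blt_eq, Nat.blt_eq, Nat.blt_eq, Nat.blt_eq] at h
  obtain ⟨⟨⟨⟨⟨⟨a1, -⟩, a2⟩, a3⟩, a4⟩, a5⟩, a6⟩ := h
  refine ⟨a1, a2, a3, a4, a5, fun j hj => ?_⟩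
  revert a6 hj
  generalize 6 = k
  intro a6 hj
  have := all_rec (f := fun j => Nat.beq (bandC nv j) 0 ||
    vband la lr n P V j (bandC nv j) (nth Ns j)) (n := k) a6 j hj
  rwa [Bool.or_eq_true, Nat.beq_eq] at this

end ZVertX

open ZVertX

theorem vhw_le (y : ℕ) : vhw y ≤ vctr y ∧ vctr y - vhw y ≤ y ∧ y < vctr y + vhw y := by
  rw [vhw_eq, vctr_eq]
  rcases band_cases y with a | a | a | a | a | a <;>
    simp only [a, Nat.reduceAdd, Nat.reducePow] <;> omega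

/-- Points of the same cell have the same index, centre and width. -/
theorem vcell_eq {y y' : ℕ} (h1 : vctr y - vhw y ≤ y') (h2 : y' < vctr y + vhw y) :
    vidx y' = vidx y ∧ vctr y' = vctr y ∧ vhw y' = vhw y := by
  simp only [vhw_eq, vctr_eq, vidx_eq] at h1 h2 ⊢
  rcases band_cases y with a | a | a | a | a | a <;>
    rcases band_cases y' with b | b | b | b | b | b <;>
    simp only [a, b, Nat.reduceAdd, Nat.reducePow, Nat.reduceMul, and_true] at h1 h2 ⊢ <;> omega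

theorem VOK.mono {C q : ℝ} {V : ℕ → ℕ} {Y Y' : ℕ} (h : VOK C q V Y) (hY : Y' ≤ Y) :
    VOK C q V Y' := fun y hy => h y (hy.trans_le hY)

theorem vchkY_sound {G : ℕ → ℕ} (hG : GamOK G) {R m P n Y V : ℕ} {Ns : List ℕ}
    (h : vchkY G R m P n Y V Ns = true) : VOK (Cc R) (m / 4096) (fld V 240) Y := by
  unfold vchkY at h
  rw [Bool.and_eq_true, Nat.ble_eq] at h
  obtain ⟨hP, hm0, hm, hR, hL, hb⟩ := vchk_elim h.2
  obtain ⟨l1, l2, l3⟩ := coefs_spec hG hR hm0 hm hL P n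
  intro y hy j hj
  obtain ⟨i, b6, hu, hidx, hi⟩ := cell_pos (hy.trans_le h.1)
  have hmono : vidx y ≤ vidx (Y - 1) := vidx_mono (by omega)
  have hic : i < bandC (vidx (Y - 1) + 1) (bandOf y) := by
    unfold bandC
    omega
  have hq : (0 : ℝ) < m / 4096 := by positivity
  have key := vband_sound (Cc_pos hR) hq l1 l2 l3 hP
    ((hb _ b6).resolve_left (by omega)) hic hj
  have e : rr (vctr y) = (((2 * (bandA (bandOf y) + i) + 1) <<< bandOf y : ℕ) : ℝ) / 4 := by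
    rw [vctr_eq, hu, Nat.shiftLeft_eq, rr, pow_add]
    push_cast
    ring
  rw [e, hidx]
  exact key

end Pool.Agent.MP_39fec4_gt.K
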